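import Mathlib

/-! The parts of this file: H18.Ex.Defs, H18.FatBasic. -/

section

/-!
# Horace-type induction for forms with prescribed exponents: definitions

`ι` is the finite set of (homogeneous) variables.  A form is given by its coefficient function
`f : (ι → ℕ) → R`, of which only the values on a finite set `A` of exponents matter.
-/

namespace Pool.Agent.H18.Ex

open Finset

/-! ### Geometry -/

/-- `binom(m + n - 1, n)`, the length of a point of multiplicity `m` in dimension `n`. -/
def ell (n m : ℕ) : ℕ := (m + n - 1).choose n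

section

variable {ι : Type} [Fintype ι] [DecidableEq ι]

/-- The `b`-th Taylor (Hasse) coefficient of the monomial `x^a` at the point `q`. -/
def tcr {R : Type*} [CommRing R] (q : ι → R) (a b : ι → ℕ) : R :=
  ∏ i, (((a i).choose (b i) : ℕ) : R) * q i ^ (a i - b i)

end

/-- The kinds of conditions.  `free m`: vanishing to order `m` at a general point.
`forced l c e`: the conditions with multi-index `b`, `|b| < c`, `b l + e ≤ c` at a general point
of the hyperplane `x_l = 0` (for `e = 1` this is vanishing to order `c` there). -/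
inductive Kind (ι : Type) : Type where
  | free (m : ℕ) : Kind ι
  | forced (l : ι) (c e : ℕ) : Kind ι

section

variable {ι : Type} [Fintype ι] [DecidableEq ι]

/-- The actual point of a condition: for `forced l` the `l`-th coordinate is replaced by `0`. -/
def Kind.pt {R : Type*} [Zero R] (k : Kind ι) (q : ι → R) : ι → R :=
  match k with
  | .free _ => q
  | .forced l _ _ => Function.update q l 0

/-- The multi-indices of a condition. -/
def Kind.Idx (k : Kind ι) (b : ι → ℕ) : Prop :=
  match k with
  | .free m => ∑ i, b i < m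
  | .forced l c e => ∑ i, b i < c ∧ b l + e ≤ c

/-- The form with coefficients `f` (on `A`) satisfies the condition `k` at the point `q`. -/
def Sat {R : Type*} [CommRing R] (A : Finset (ι → ℕ)) (f : (ι → ℕ) → R) (k : Kind ι)
    (q : ι → R) : Prop :=
  ∀ b, k.Idx b → ∑ a ∈ A, f a * tcr (k.pt q) a b = 0

/-- At the positions `pos` only the zero form satisfies all conditions. -/
def InjAt {κ : Type} (A : Finset (ι → ℕ)) (k : κ → Kind ι) (pos : κ → ι → ℂ) : Prop :=
  ∀ f : (ι → ℕ) → ℂ, (∀ i, Sat A f (k i) (pos i)) → ∀ a ∈ A, f a = 0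

/-- At some (equivalently, at general) positions only the zero form satisfies all conditions. -/
def GI {κ : Type} (A : Finset (ι → ℕ)) (k : κ → Kind ι) : Prop :=
  ∃ pos : κ → ι → ℂ, InjAt A k pos

/-- The condition is not forced to the hyperplane `x_l = 0`. -/
def Kind.NotAt (l : ι) (k : Kind ι) : Prop :=
  match k with
  | .free _ => True
  | .forced l' _ _ => l' ≠ l

end

section

variable {ι : Type}

end

/-! ### Configurations -/

section

variable {ι : Type}

end

/-! ### Regions -/

section

variable {ι : Type} [Fintype ι] [DecidableEq ι]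

/-- The region `{x ∈ ℕ^ι : |x| = σ, x ≤ w}`. -/
def Rg (σ : ℕ) (w : ι → ℕ) : Finset (ι → ℕ) :=
  (Fintype.piFinset fun i => range (w i + 1)).filter fun a => ∑ i, a i = σ

theorem mem_Rg {σ : ℕ} {w : ι → ℕ} {a : ι → ℕ} :
    a ∈ Rg σ w ↔ (∀ i, a i ≤ w i) ∧ ∑ i, a i = σ := by
  unfold Rg
  rw [mem_filter, Fintype.mem_piFinset]
  simp only [mem_range, Nat.lt_succ_iff]

/-- The number of exponents of the region with `x_l = 0`. -/
def fc (σ : ℕ) (w : ι → ℕ) (l : ι) : ℕ := (Rg σ (Function.update w l 0)).card

end

end Pool.Agent.H18.Ex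

end

section

namespace Pool.Agent.H18.Fat

open MvPolynomial Finset

/-- The exponent vectors of degree `d` in `n` variables. -/
noncomputable def mons (n d : ℕ) : Finset (Fin n →₀ ℕ) := finsuppAntidiag univ d

theorem mem_mons {n d : ℕ} {α : Fin n →₀ ℕ} : α ∈ mons n d ↔ α.degree = d := by
  unfold mons
  rw [mem_finsuppAntidiag, Finsupp.degree_eq_sum]
  simp

theorem card_mons (n d : ℕ) : (mons (n + 1) d).card = (d + n).choose n := by
  unfold mons
  rw [card_finsuppAntidiag_nat_eq_choose]
  simp only [card_univ, Fintype.card_fin]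
  have h : n + 1 + d - 1 = d + n := by omega
  rw [h]
  exact Nat.choose_symm_add

/-- Taylor coefficients of monomials. -/
noncomputable def tc {n : ℕ} (q : Fin n → ℂ) (α β : Fin n →₀ ℕ) : ℂ :=
  ∏ j, (((α j).choose (β j) : ℂ) * q j ^ (α j - β j))

/-- Coefficient vectors to homogeneous polynomials. -/
noncomputable def toPoly (n d : ℕ) : (mons n d → ℂ) →ₗ[ℂ] MvPolynomial (Fin n) ℂ where
  toFun f := ∑ α : mons n d, monomial α.1 (f α)
  map_add' f g := by
    rw [← sum_add_distrib]
    exact sum_congr rfl fun α _ => by simp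
  map_smul' c f := by
    rw [RingHom.id_apply, smul_sum]
    exact sum_congr rfl fun α _ => by simp [smul_monomial]

theorem toPoly_apply {n d : ℕ} (f : mons n d → ℂ) :
    toPoly n d f = ∑ α : mons n d, monomial α.1 (f α) := rfl

theorem coeff_toPoly {n d : ℕ} (f : mons n d → ℂ) (α : mons n d) :
    coeff α.1 (toPoly n d f) = f α := by
  classical
  rw [toPoly_apply, coeff_sum]
  simp only [coeff_monomial, Subtype.coe_inj]
  simp

theorem toPoly_injective (n d : ℕ) : Function.Injective (toPoly n d) := by
  intro f g h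
  funext α
  rw [← coeff_toPoly f α, ← coeff_toPoly g α, h]

theorem toPoly_isHomogeneous {n d : ℕ} (f : mons n d → ℂ) : (toPoly n d f).IsHomogeneous d := by
  rw [toPoly_apply]
  apply IsHomogeneous.sum
  intro α _
  exact isHomogeneous_monomial _ (mem_mons.1 α.2)

theorem exists_toPoly {n d : ℕ} {F : MvPolynomial (Fin n) ℂ} (hF : F.IsHomogeneous d) :
    toPoly n d (fun α => coeff α.1 F) = F := by
  classical
  ext β
  by_cases hβ : β ∈ mons n d
  · exact coeff_toPoly (fun α => coeff α.1 F) ⟨β, hβ⟩
  · rw [mem_mons] at hβ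
    rw [hF.coeff_eq_zero hβ, (toPoly_isHomogeneous _).coeff_eq_zero hβ]

/-- Termwise Euler relation. -/
theorem tc_euler {n : ℕ} (q : Fin n → ℂ) (α β : Fin n →₀ ℕ) :
    ∑ j, q j * ((β j : ℂ) + 1) * tc q α (β + Finsupp.single j 1) =
      ((α.degree : ℂ) - (β.degree : ℂ)) * tc q α β := by
  classical
  have h1 : ∀ j, q j * ((β j : ℂ) + 1) * tc q α (β + Finsupp.single j 1) =
      ((α j : ℂ) - (β j : ℂ)) * tc q α β := by
    intro j
    unfold tc
    rw [← mul_prod_erase univ _ (mem_univ j), ← mul_prod_erase univ
      (fun i => (((α i).choose (β i) : ℂ) * q i ^ (α i - β i))) (mem_univ j)]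
    have h2 : ∏ x ∈ univ.erase j, (((α x).choose ((β + Finsupp.single j 1 : Fin n →₀ ℕ) x) : ℂ) *
        q x ^ (α x - (β + Finsupp.single j 1 : Fin n →₀ ℕ) x)) =
        ∏ x ∈ univ.erase j, (((α x).choose (β x) : ℂ) * q x ^ (α x - β x)) := by
      refine prod_congr rfl fun x hx => ?_
      have hx' : j ≠ x := fun h => (ne_of_mem_erase hx) h.symm
      simp [Finsupp.single_eq_of_ne hx'.symm]
    rw [h2]
    simp only [Finsupp.add_apply, Finsupp.single_eq_same]
    have h3 : ((α j).choose (β j + 1) : ℂ) * ((β j : ℂ) + 1) =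
        ((α j).choose (β j) : ℂ) * ((α j : ℂ) - (β j : ℂ)) := by
      rcases le_or_gt (β j) (α j) with h | h
      · have := Nat.choose_succ_right_eq (α j) (β j)
        have h4 : (((α j).choose (β j + 1) * (β j + 1) : ℕ) : ℂ) =
          (((α j).choose (β j) * (α j - β j) : ℕ) : ℂ) := by rw [this]
        push_cast [Nat.cast_sub h] at h4
        exact h4
      · rw [Nat.choose_eq_zero_of_lt h, Nat.choose_eq_zero_of_lt (by omega)]
        simp
    have h4 : q j * ((β j : ℂ) + 1) *
        (((α j).choose (β j + 1) : ℂ) * q j ^ (α j - (β j + 1))) =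
        ((α j : ℂ) - (β j : ℂ)) * (((α j).choose (β j) : ℂ) * q j ^ (α j - β j)) := by
      rcases lt_or_ge (β j) (α j) with h | h
      · have h5 : α j - β j = (α j - (β j + 1)) + 1 := by omega
        rw [h5, pow_succ]
        linear_combination (q j * q j ^ (α j - (β j + 1))) * h3
      · have h6 : (α j).choose (β j + 1) = 0 := Nat.choose_eq_zero_of_lt (by omega)
        rw [h6] at h3 ⊢
        simp only [Nat.cast_zero, zero_mul, mul_zero] at h3 ⊢
        linear_combination (q j ^ (α j - β j)) * h3
    linear_combination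
      (∏ x ∈ univ.erase j, (((α x).choose (β x) : ℂ) * q x ^ (α x - β x))) * h4
  rw [sum_congr rfl fun j _ => h1 j, ← sum_mul, sum_sub_distrib, Finsupp.degree_eq_sum,
    Finsupp.degree_eq_sum]
  push_cast
  rfl

end Pool.Agent.H18.Fat

end
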