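import Pool.Agent.H94.LP3.H18.FatDefs
import Pool.Agent.H94.LP3.M02

/-! The parts of this file: H18.Cub.Inst, H18.Ex.Sched, H18.FatBasic_1, H18.FatPerfect, H18.Nef.NefA, H18.TileFinal, H18.TilePack, H18.TileMain. -/

section

/-!
# Module Inst: the Horace system of the curve `y = x^(t+1)`

Directions: `none` is the curve, `some l` (`l : Fin t`) is the line through the big point `inl l`
and the point at infinity of the curve.  There are `t + s` big points.  The state `a` stands for
degree `dd a` and multiplicities `mu n a`.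
-/

namespace Pool.Agent.H18.Cub

open Finset

/-- The degree of a state (the degree of the curve is `t + 1`). -/
def dd {t : ℕ} (a : Option (Fin t) → ℕ) : ℕ := (t + 1) * a none + ∑ l, a (some l)

/-- The size of a big point before subtracting `n`. -/
def uu {t s : ℕ} (a : Option (Fin t) → ℕ) : Fin t ⊕ Fin s → ℕ
  | .inl l => a none + a (some l)
  | .inr _ => a none

/-- The multiplicities of a state. -/
def mu {t s : ℕ} (n : Fin t ⊕ Fin s → ℕ) (a : Option (Fin t) → ℕ) (b : Fin t ⊕ Fin s) : ℕ :=
  uu a b - n b

/-- The first coordinates of the big points. -/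
def xx {t s : ℕ} : Fin t ⊕ Fin s → ℕ
  | .inl l => l.val + 1
  | .inr j => t + j.val + 1

end Pool.Agent.H18.Cub

end

section

/-!
# Module Sched: existence of the schedule
-/

namespace Pool.Agent.H18.Ex

open Finset

/-- The active directions different from `o`. -/
noncomputable def dirs {ι : Type} [Fintype ι] [DecidableEq ι] (o : ι) (w : ι → ℕ) : List ι :=
  (univ.filter fun i => 0 < w i ∧ i ≠ o).toList

section

variable {ι : Type} [Fintype ι] [DecidableEq ι]

theorem SchedX_mem_dirs {o : ι} {w : ι → ℕ} {i : ι} :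
    i ∈ dirs o w ↔ 0 < w i ∧ i ≠ o := by
  unfold dirs
  rw [mem_toList, mem_filter]
  simp

theorem SchedX_nodup (o : ι) (w : ι → ℕ) : (dirs o w).Nodup := by
  unfold dirs
  exact nodup_toList _

omit [Fintype ι] in
theorem SchedX_count_flat (l : List ι) (hl : l.Nodup) (k : ι → ℕ) (i : ι) :
    (l.flatMap fun x => List.replicate (k x) x).count i = if i ∈ l then k i else 0 := by
  induction l with
  | nil => simp
  | cons a l ih =>
    rw [List.flatMap_cons, List.count_append, ih (List.nodup_cons.1 hl).2, List.count_replicate]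
    by_cases h : a = i
    · subst h
      simp [(List.nodup_cons.1 hl).1]
    · have h' : i ≠ a := fun e => h e.symm
      simp [h, h']

theorem SchedX_length (L : List ι) : L.length = ∑ i, L.count i := by
  have h := Multiset.sum_count_eq_card (s := (univ : Finset ι)) (m := (L : Multiset ι))
    (fun a _ => mem_univ a)
  simpa using h.symm

/-- Admissible states. -/
structure SchedX_St (b : ℕ) (o : ι) (w : ι → ℕ) (s : ℕ) (v : ι → ℕ) : Prop where
  act : ∀ i, 0 < v i ↔ 0 < w i
  hvo : ∀ i, v i ≤ v o
  hvb : ∀ i, 0 < w i → 2 * b ≤ v i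
  hsb : 2 * b ≤ s
  hτ : ∀ l, l ≠ o → 0 < w l → s + b ≤ ∑ i ∈ univ.erase l, v i

/-- The bounds of the traces. -/
structure SchedX_Ph (M : ℕ) (o : ι) (w : ι → ℕ) (s : ℕ) (v : ι → ℕ) (φ : ι → ℕ) :
    Prop where
  h1 : ∀ i, i ≠ o → 0 < w i → 2 * M * φ i ≤ (2 * M - 1) * fc s v i
  h2 : ∀ i, i = o ∨ w i = 0 → φ i = 0

end

/-- `32 M (n+1)³`. -/
def cq (n M : ℕ) : ℕ := 32 * M * (n + 1) ^ 3

/-- Minimal width along the way. -/
def cb (n M D' C : ℕ) : ℕ := D' + 2 * (n + 1) ^ 2 * (M * (n + 1) + 2 * ell (n + 1) M + 2) +
    16 * M ^ 2 * ell n M ^ 2 + C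

/-- Minimal width at the ends of the rounds. -/
def cB (n M D' C : ℕ) : ℕ := 2 * cb n M D' C + cq n M * (M + 1) + 1

end Pool.Agent.H18.Ex

end

section

namespace Pool.Agent.H18.Fat

open MvPolynomial Finset

theorem coeff_shift_monomial {n : ℕ} (q : Fin n → ℂ) (α β : Fin n →₀ ℕ) (c : ℂ) :
    coeff β (shift q (monomial α c)) = c * tc q α β := by
  classical
  unfold shift
  rw [aeval_monomial, algebraMap_eq, coeff_C_mul, Finsupp.prod_fintype _ _ (by intro i; simp)]
  congr 1
  have h1 : ∀ j : Fin n, (X j + C (q j) : MvPolynomial (Fin n) ℂ) ^ (α j) =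
      ∑ b ∈ range (α j + 1), monomial (Finsupp.single j b)
        (((α j).choose b : ℂ) * q j ^ (α j - b)) := by
    intro j
    rw [add_pow]
    refine sum_congr rfl fun b _ => ?_
    rw [X_pow_eq_monomial, ← C_pow, mul_assoc, mul_comm (C (q j ^ (α j - b)))]
    rw [← C_eq_coe_nat, ← C_mul, mul_comm, C_mul_monomial, mul_one]
  simp_rw [h1]
  rw [prod_univ_sum, coeff_sum]
  have h2 : ∀ x ∈ Fintype.piFinset fun j => range (α j + 1),
      coeff β (∏ j, monomial (Finsupp.single j (x j))
        (((α j).choose (x j) : ℂ) * q j ^ (α j - x j)) : MvPolynomial (Fin n) ℂ) =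
      if x = ⇑β then tc q α β else 0 := by
    intro x _
    rw [← monomial_sum_prod, coeff_monomial]
    have h4 : (∑ j, Finsupp.single j (x j)) = Finsupp.equivFunOnFinite.symm x := by
      rw [Finsupp.equivFunOnFinite_symm_eq_sum]
    rw [h4]
    by_cases hx : x = ⇑β
    · subst hx
      simp [tc]
    · rw [if_neg, if_neg hx]
      intro h5
      apply hx
      rw [← h5]
      simp
  rw [sum_congr rfl h2, sum_ite_eq']
  split_ifs with h
  · rfl
  · rw [Fintype.mem_piFinset] at h
    push Not at h
    obtain ⟨j, hj⟩ := h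
    rw [mem_range] at hj
    symm
    unfold tc
    apply prod_eq_zero (mem_univ j)
    rw [Nat.choose_eq_zero_of_lt (by omega)]
    simp

theorem coeff_shift {n : ℕ} (q : Fin n → ℂ) (β : Fin n →₀ ℕ) (F : MvPolynomial (Fin n) ℂ) :
    coeff β (shift q F) = ∑ α ∈ F.support, coeff α F * tc q α β := by
  classical
  conv_lhs => rw [F.as_sum]
  unfold shift
  rw [map_sum, coeff_sum]
  exact sum_congr rfl fun α _ => coeff_shift_monomial q α β _

theorem coeff_shift_toPoly {n d : ℕ} (q : Fin n → ℂ) (β : Fin n →₀ ℕ) (f : mons n d → ℂ) :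
    coeff β (shift q (toPoly n d f)) = ∑ α : mons n d, f α * tc q α.1 β := by
  rw [toPoly_apply]
  unfold shift
  rw [map_sum, coeff_sum]
  exact sum_congr rfl fun α _ => coeff_shift_monomial q α.1 β _

theorem coeff_shift_euler {n d : ℕ} (q : Fin n → ℂ) (β : Fin n →₀ ℕ) (f : mons n d → ℂ) :
    ∑ j, q j * ((β j : ℂ) + 1) * coeff (β + Finsupp.single j 1) (shift q (toPoly n d f)) =
      ((d : ℂ) - (β.degree : ℂ)) * coeff β (shift q (toPoly n d f)) := by
  simp_rw [coeff_shift_toPoly, mul_sum]
  rw [sum_comm]
  refine sum_congr rfl fun α _ => ?_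
  have h := tc_euler q α.1 β
  rw [mem_mons.1 α.2] at h
  have h2 : ∀ j, q j * ((β j : ℂ) + 1) * (f α * tc q α.1 (β + Finsupp.single j 1)) =
      f α * (q j * ((β j : ℂ) + 1) * tc q α.1 (β + Finsupp.single j 1)) := by
    intro j; ring
  rw [sum_congr rfl fun j _ => h2 j, ← mul_sum, h]
  ring

/-- For a point with nonzero first coordinate only the derivatives in the other directions
matter. -/
theorem vanishes_of_affine {n d : ℕ} {q : Fin (n + 1) → ℂ} (hq : q 0 ≠ 0)
    (f : mons (n + 1) d → ℂ) {m : ℕ}
    (h : ∀ β : Fin (n + 1) →₀ ℕ, β 0 = 0 → β.degree < m →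
      coeff β (shift q (toPoly (n + 1) d f)) = 0) :
    VanishesToOrder (toPoly (n + 1) d f) q m := by
  have key : ∀ t : ℕ, ∀ β : Fin (n + 1) →₀ ℕ, β 0 = t → β.degree < m →
      coeff β (shift q (toPoly (n + 1) d f)) = 0 := by
    intro t
    induction t with
    | zero => exact h
    | succ t ih =>
      intro β hβ hdeg
      -- `β = β' + e_0`
      obtain ⟨β', hβ'⟩ : ∃ β' : Fin (n + 1) →₀ ℕ, β = β' + Finsupp.single 0 1 := by
        refine ⟨β - Finsupp.single 0 1, ?_⟩
        ext j
        simp only [Finsupp.add_apply, Finsupp.tsub_apply]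
        by_cases hj : j = 0
        · subst hj
          simp
          omega
        · simp [Finsupp.single_eq_of_ne hj]
      have h0 : β' 0 = t := by
        have := congrArg (fun b => b 0) hβ'
        simp at this
        omega
      have hd : β.degree = β'.degree + 1 := by
        rw [hβ']
        simp
      have he := coeff_shift_euler q β' f
      have hz : coeff β' (shift q (toPoly (n + 1) d f)) = 0 := ih β' h0 (by omega)
      rw [hz, mul_zero, Fin.sum_univ_succ] at he
      have hz2 : ∀ j : Fin n, coeff (β' + Finsupp.single j.succ 1)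
          (shift q (toPoly (n + 1) d f)) = 0 := by
        intro j
        apply ih
        · simp [h0]
        · simp only [map_add, Finsupp.degree_single]
          omega
      simp only [hz2, mul_zero, sum_const_zero, add_zero] at he
      rw [← hβ'] at he
      rcases mul_eq_zero.1 he with h1 | h1
      · exfalso
        rcases mul_eq_zero.1 h1 with h2 | h2
        · exact hq h2
        · have : ((β' 0 : ℂ) + 1) ≠ 0 := Nat.cast_add_one_ne_zero (β' 0)
          exact this h2
      · exact h1
  intro β hβ
  exact key _ β rfl hβ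

end Pool.Agent.H18.Fat

end

section

namespace Pool.Agent.H18.Fat

open MvPolynomial Finset

/-! ### Counting -/

/-! ### Adding simple points -/

instance finiteDimensional_fatForms {r d : ℕ} {ι : Type*} (p : ι → Fin (r + 1) → ℂ)
    (m : ι → ℕ) : FiniteDimensional ℂ (fatForms r d p m) := by
  have h1 : fatForms r d p m ≤ LinearMap.range (toPoly (r + 1) d) := by
    intro F hF
    exact ⟨_, exists_toPoly hF.1⟩
  exact Submodule.finiteDimensional_of_le h1

theorem vanishesToOrder_one {n : ℕ} (F : MvPolynomial (Fin n) ℂ) (q : Fin n → ℂ) :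
    VanishesToOrder F q 1 ↔ eval q F = 0 := by
  have h1 : coeff 0 (shift q F) = eval q F := by
    unfold shift
    rw [← constantCoeff_eq]
    have h2 : (constantCoeff.comp (aeval (fun j => X j + C (q j) :
        Fin n → MvPolynomial (Fin n) ℂ)).toRingHom) = eval q := by
      apply ringHom_ext
      · intro c
        simp [algebraMap_eq]
      · intro i
        simp
    exact DFunLike.congr_fun h2 F
  constructor
  · intro h
    rw [← h1]
    exact h 0 (by simp)
  · intro h β hβ
    have : β = 0 := by
      rw [← Finsupp.degree_eq_zero_iff]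
      omega
    rw [this, h1, h]

/-- A simple point can be added so that the dimension drops by one (or is zero). -/
theorem exists_simple_point {r d : ℕ} {ι : Type*} (p : ι → Fin (r + 1) → ℂ) (m : ι → ℕ) :
    ∃ x : Fin (r + 1) → ℂ, x 0 ≠ 0 ∧
      Module.finrank ℂ (fatForms r d (Sum.elim p (fun _ : Unit => x))
        (Sum.elim m fun _ => 1)) = Module.finrank ℂ (fatForms r d p m) - 1 := by
  classical
  -- the new space as a kernel
  have hmem : ∀ (x : Fin (r + 1) → ℂ) (F : MvPolynomial (Fin (r + 1)) ℂ),
      F ∈ fatForms r d (Sum.elim p (fun _ : Unit => x)) (Sum.elim m fun _ => 1) ↔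
        F ∈ fatForms r d p m ∧ eval x F = 0 := by
    intro x F
    constructor
    · rintro ⟨h1, h2⟩
      exact ⟨⟨h1, fun i => h2 (Sum.inl i)⟩, (vanishesToOrder_one F x).1 (h2 (Sum.inr ()))⟩
    · rintro ⟨⟨h1, h2⟩, h3⟩
      refine ⟨h1, ?_⟩
      rintro (i | i)
      · exact h2 i
      · exact (vanishesToOrder_one F x).2 h3
  by_cases hz : fatForms r d p m = ⊥
  · refine ⟨fun _ => 1, one_ne_zero, ?_⟩
    have h1 : fatForms r d (Sum.elim p (fun _ : Unit => fun _ => (1 : ℂ)))
        (Sum.elim m fun _ => 1) = ⊥ := by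
      rw [eq_bot_iff]
      intro F hF
      rw [← hz]
      exact ((hmem _ F).1 hF).1
    rw [h1, hz, finrank_bot]
  · obtain ⟨F, hF, hF0⟩ := Submodule.exists_mem_ne_zero_of_ne_bot hz
    have h2 : F * X 0 ≠ 0 := mul_ne_zero hF0 (X_ne_zero 0)
    obtain ⟨x, hx⟩ : ∃ x, eval x (F * X 0) ≠ 0 := by
      by_contra hall
      push Not at hall
      apply h2
      apply MvPolynomial.funext
      intro x
      rw [hall x, map_zero]
    rw [map_mul, eval_X] at hx
    refine ⟨x, right_ne_zero_of_mul hx, ?_⟩
    let φ : Module.Dual ℂ (fatForms r d p m) :=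
      (aeval x : MvPolynomial (Fin (r + 1)) ℂ →ₐ[ℂ] ℂ).toLinearMap ∘ₗ (fatForms r d p m).subtype
    have hφ : φ ≠ 0 := by
      intro h0
      have h3 := DFunLike.congr_fun h0 ⟨F, hF⟩
      apply left_ne_zero_of_mul hx
      have h4 : φ ⟨F, hF⟩ = eval x F := rfl
      rw [← h4, h3]
      rfl
    have h5 := Module.Dual.finrank_ker_add_one_of_ne_zero hφ
    have h6 : fatForms r d (Sum.elim p (fun _ : Unit => x)) (Sum.elim m fun _ => 1) =
        Submodule.map (fatForms r d p m).subtype (LinearMap.ker φ) := by
      ext G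
      rw [hmem]
      constructor
      · rintro ⟨h7, h8⟩
        exact ⟨⟨G, h7⟩, h8, rfl⟩
      · rintro ⟨⟨G', h7⟩, h8, rfl⟩
        exact ⟨h7, h8⟩
    rw [h6, ← (Submodule.equivMapOfInjective _ (Submodule.subtype_injective _) _).finrank_eq]
    omega

/-- Any number of simple points can be added with the expected effect. -/
theorem exists_simple_points {r d : ℕ} {ι : Type*} (p : ι → Fin (r + 1) → ℂ) (m : ι → ℕ)
    (a : ℕ) : ∃ x : Fin a → Fin (r + 1) → ℂ, (∀ i, x i 0 ≠ 0) ∧
      Module.finrank ℂ (fatForms r d (Sum.elim p x) (Sum.elim m fun _ => 1)) =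
        Module.finrank ℂ (fatForms r d p m) - a := by
  induction a with
  | zero =>
    refine ⟨Fin.elim0, fun i => i.elim0, ?_⟩
    rw [Nat.sub_zero]
    have : fatForms r d (Sum.elim p Fin.elim0) (Sum.elim m fun _ : Fin 0 => 1) =
        fatForms r d p m := by
      ext F
      constructor
      · rintro ⟨h1, h2⟩
        exact ⟨h1, fun i => h2 (Sum.inl i)⟩
      · rintro ⟨h1, h2⟩
        refine ⟨h1, ?_⟩
        rintro (i | i)
        · exact h2 i
        · exact i.elim0
    rw [this]
  | succ a ih =>
    obtain ⟨x, hx, hfr⟩ := ih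
    obtain ⟨y, hy, hfr'⟩ := exists_simple_point (d := d) (Sum.elim p x) (Sum.elim m fun _ => 1)
    refine ⟨Fin.snoc x y, ?_, ?_⟩
    · intro i
      refine Fin.lastCases ?_ (fun j => ?_) i
      · simpa using hy
      · simpa using hx j
    · rw [← Nat.sub_sub, ← hfr, ← hfr']
      have : fatForms r d (Sum.elim p (Fin.snoc x y : Fin (a + 1) → Fin (r + 1) → ℂ))
          (Sum.elim m fun _ => 1) = fatForms r d (Sum.elim (Sum.elim p x) fun _ : Unit => y)
          (Sum.elim (Sum.elim m fun _ => 1) fun _ => 1) := by
        ext F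
        constructor
        · rintro ⟨h1, h2⟩
          refine ⟨h1, ?_⟩
          rintro ((i | i) | i)
          · exact h2 (Sum.inl i)
          · simpa using h2 (Sum.inr i.castSucc)
          · simpa using h2 (Sum.inr (Fin.last a))
        · rintro ⟨h1, h2⟩
          refine ⟨h1, ?_⟩
          rintro (i | i)
          · exact h2 (Sum.inl (Sum.inl i))
          · refine Fin.lastCases ?_ (fun j => ?_) i
            · simpa using h2 (Sum.inr ())
            · simpa using h2 (Sum.inl (Sum.inr j))
      rw [this]

end Pool.Agent.H18.Fat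

end

section

/-!
# Effective classes and Cremona transformations
-/

namespace Pool.Agent.H18.Nef

open Finset Pool.Agent.H18.Fat

/-- A form of degree `e` vanishing to order more than `e` at a point is zero. -/
theorem eq_zero_of_vanishes {n e m : ℕ} (F : MvPolynomial (Fin n) ℂ) (hF : F.IsHomogeneous e)
    (q : Fin n → ℂ) (hm : e < m) (h : VanishesToOrder F q m) : F = 0 := by
  have h1 : shift q F = 0 := by
    ext β
    rw [MvPolynomial.coeff_zero]
    by_cases hβ : β.degree < m
    · exact h β hβ
    · by_contra hc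
      have h2 := MvPolynomial.le_totalDegree (MvPolynomial.mem_support_iff.2 hc)
      have h3 : (shift q F).totalDegree ≤ F.totalDegree := by
        unfold shift
        rw [MvPolynomial.aeval_def, MvPolynomial.eval₂_eq']
        refine (MvPolynomial.totalDegree_finsetSum _ _).trans (Finset.sup_le fun a ha => ?_)
        refine (MvPolynomial.totalDegree_mul _ _).trans ?_
        rw [MvPolynomial.algebraMap_eq, MvPolynomial.totalDegree_C, zero_add]
        refine (MvPolynomial.totalDegree_finsetProd _ _).trans ?_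
        refine le_trans ?_ (MvPolynomial.le_totalDegree ha)
        rw [Finsupp.sum_fintype _ _ (fun _ => rfl)]
        refine sum_le_sum fun i _ => ?_
        refine (MvPolynomial.totalDegree_pow _ _).trans ?_
        have h4 : (MvPolynomial.X i + MvPolynomial.C (q i) :
            MvPolynomial (Fin n) ℂ).totalDegree ≤ 1 := by
          refine (MvPolynomial.totalDegree_add _ _).trans (max_le ?_ ?_)
          · rw [MvPolynomial.totalDegree_X]
          · rw [MvPolynomial.totalDegree_C]
            omega
        calc a i * _ ≤ a i * 1 := Nat.mul_le_mul_left _ h4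
          _ = a i := mul_one _
      have h5 : F.totalDegree ≤ e := hF.totalDegree_le
      have h6 : (β.sum fun _ e => e) = β.degree := rfl
      omega
  have h2 : (MvPolynomial.aeval (fun j => MvPolynomial.X j - MvPolynomial.C (q j)))
      (shift q F) = F := by
    unfold shift
    rw [← AlgHom.comp_apply]
    have h3 : (MvPolynomial.aeval (fun j => (MvPolynomial.X j - MvPolynomial.C (q j) :
        MvPolynomial (Fin n) ℂ))).comp (MvPolynomial.aeval
          (fun j => (MvPolynomial.X j + MvPolynomial.C (q j) : MvPolynomial (Fin n) ℂ))) =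
        AlgHom.id ℂ _ := by
      apply MvPolynomial.algHom_ext
      intro j
      simp [MvPolynomial.algebraMap_eq]
    rw [h3]
    rfl
  rw [← h2, h1, map_zero]

end Pool.Agent.H18.Nef

end

section

/-!
# General fat points, all but `r + 1` of which have small multiplicity
-/

namespace Pool.Agent.H18.Fat

open MvPolynomial Finset

section

/-! ### Moments -/

/-! ### The region of exponents -/

/-- The exponents of degree `d` allowed by the coordinate points. -/
noncomputable def allowed (r d : ℕ) (mJ : Fin (r + 1) → ℕ) : Finset (Fin (r + 1) →₀ ℕ) := by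
  classical
  exact (mons (r + 1) d).filter fun α => ∀ l, α l + mJ l ≤ d

/-! ### The upper bound -/

/-! ### The lower bound -/

/-- General points with indices in `J` are linearly independent. -/
theorem general_det {r k : ℕ} (J : Fin (r + 1) ↪ Fin k) :
    ForGeneralPoints r k fun p =>
      (Matrix.of fun j l => p (J l) j : Matrix (Fin (r + 1)) (Fin (r + 1)) ℂ).det ≠ 0 := by
  classical
  let G : MvPolynomial (Fin k × Fin (r + 1)) ℂ :=
    (Matrix.of fun j l => X (J l, j) :
      Matrix (Fin (r + 1)) (Fin (r + 1)) (MvPolynomial (Fin k × Fin (r + 1)) ℂ)).det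
  have hG : ∀ p : Fin k → Fin (r + 1) → ℂ, eval (fun x => p x.1 x.2) G =
      (Matrix.of fun j l => p (J l) j : Matrix (Fin (r + 1)) (Fin (r + 1)) ℂ).det := by
    intro p
    rw [RingHom.map_det, RingHom.mapMatrix_apply]
    refine congrArg Matrix.det ?_
    ext j l
    simp
  refine ⟨G, ?_, fun p hp => by rwa [hG] at hp⟩
  intro h0
  have h1 := hG fun i j => if J j = i then 1 else 0
  rw [h0, map_zero] at h1
  have h2 : (Matrix.of fun j l => (fun (i : Fin k) (j : Fin (r + 1)) =>
      if J j = i then (1 : ℂ) else 0) (J l) j : Matrix (Fin (r + 1)) (Fin (r + 1)) ℂ) = 1 := by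
    ext j l
    simp [Matrix.one_apply, J.injective.eq_iff]
  rw [h2, Matrix.det_one] at h1
  exact zero_ne_one h1

end

end Pool.Agent.H18.Fat

end

section

/-!
# Packing truncated boxes by simplicial cells of given orders
-/

namespace Pool.Agent.H18.Fat

open Finset

/-- The length of a fat point of multiplicity `m` in dimension `r`. -/
def len (r m : ℕ) : ℕ := (m + r - 1).choose r

/-! ### Groups -/

/-! ### Dimension one -/

/-! ### The packing theorem -/

end Pool.Agent.H18.Fat

end

section

/-!
# The classification of special systems outside a window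
-/

namespace Pool.Agent.H18.Fat

open MvPolynomial Finset

/-! ### Sorting -/

theorem exists_sorted {ι : Type*} [Fintype ι] (m : ι → ℕ) :
    ∃ (K : ℕ) (f : ℕ → ℕ) (e : Fin K ≃ ι), Antitone f ∧ (∀ n : Fin K, f n = m (e n)) ∧
      ∀ n, K ≤ n → f n = 0 := by
  classical
  let e₀ : Fin (Fintype.card ι) ≃ ι := (Fintype.equivFin ι).symm
  let g : Fin (Fintype.card ι) → ℕᵒᵈ := fun n => OrderDual.toDual (m (e₀ n))
  have hg := Tuple.monotone_sort g
  refine ⟨Fintype.card ι,
    fun n => if h : n < Fintype.card ι then m (e₀ (Tuple.sort g ⟨n, h⟩)) else 0,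
    (Tuple.sort g).trans e₀, ?_, ?_, ?_⟩
  · intro a b hab
    simp only
    by_cases hb : b < Fintype.card ι
    · rw [dif_pos hb, dif_pos (lt_of_le_of_lt hab hb)]
      have h1 : (⟨a, lt_of_le_of_lt hab hb⟩ : Fin (Fintype.card ι)) ≤ ⟨b, hb⟩ := hab
      exact hg h1
    · rw [dif_neg hb]
      exact Nat.zero_le _
  · intro n
    simp only
    rw [dif_pos n.2]
    rfl
  · intro n hn
    simp only
    rw [dif_neg (by omega)]

/-! ### Counting -/

section

variable {r d : ℕ}

/-- The exponents excluded by the `l`-th coordinate point. -/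
noncomputable def bad (r d : ℕ) (mJ : Fin (r + 1) → ℕ) (l : Fin (r + 1)) :
    Finset (Fin (r + 1) →₀ ℕ) := by
  classical
  exact (mons (r + 1) d).filter fun α => d < α l + mJ l

theorem mem_bad {mJ : Fin (r + 1) → ℕ} {l : Fin (r + 1)} {α : Fin (r + 1) →₀ ℕ} :
    α ∈ bad r d mJ l ↔ α ∈ mons (r + 1) d ∧ d < α l + mJ l := by
  classical
  unfold bad
  rw [mem_filter]

theorem card_bad {mJ : Fin (r + 1) → ℕ} {l : Fin (r + 1)} (h1 : 1 ≤ mJ l) (h2 : mJ l ≤ d) :
    (bad r d mJ l).card = len r (mJ l) := by
  classical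
  have h3 : len r (mJ l) = (mons (r + 1) (mJ l - 1)).card := by
    rw [card_mons]
    unfold len
    congr 1
    omega
  rw [h3]
  symm
  apply card_nbij' (fun α => α + Finsupp.single l (d + 1 - mJ l))
    (fun α => α - Finsupp.single l (d + 1 - mJ l))
  · intro α hα
    rw [mem_coe, mem_mons] at hα
    rw [mem_coe, mem_bad, mem_mons]
    simp only [map_add, Finsupp.degree_single, Finsupp.add_apply, Finsupp.single_eq_same]
    omega
  · intro α hα
    rw [mem_coe, mem_bad, mem_mons] at hα
    rw [mem_coe, mem_mons]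
    have h4 : α - Finsupp.single l (d + 1 - mJ l) + Finsupp.single l (d + 1 - mJ l) = α := by
      apply tsub_add_cancel_of_le
      rw [Finsupp.single_le_iff]
      omega
    have h5 := congrArg Finsupp.degree h4
    rw [map_add, Finsupp.degree_single] at h5
    simp only
    omega
  · intro α _
    simp only
    exact add_tsub_cancel_right _ _
  · intro α hα
    rw [mem_coe, mem_bad, mem_mons] at hα
    simp only
    apply tsub_add_cancel_of_le
    rw [Finsupp.single_le_iff]
    omega

theorem sum_card_bad (mJ : Fin (r + 1) → ℕ) :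
    ∑ l, (bad r d mJ l).card = ∑ α ∈ mons (r + 1) d, ∑ l, if d < α l + mJ l then 1 else 0 := by
  classical
  rw [sum_comm]
  refine sum_congr rfl fun l _ => ?_
  unfold bad
  rw [card_filter]

theorem card_mons_eq (mJ : Fin (r + 1) → ℕ) :
    (d + r).choose r = (allowed r d mJ).card +
      ∑ α ∈ mons (r + 1) d, if ∃ l, d < α l + mJ l then 1 else 0 := by
  classical
  rw [← card_mons, ← card_filter]
  unfold allowed
  have h : (mons (r + 1) d).filter (fun α => ∃ l, d < α l + mJ l) =
      (mons (r + 1) d).filter fun α => ¬ ∀ l, α l + mJ l ≤ d := by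
    apply filter_congr
    intro α _
    push Not
    rfl
  rw [h]
  exact (card_filter_add_card_filter_not _).symm

theorem count_eq {mJ : Fin (r + 1) → ℕ} (h1 : ∀ l, 1 ≤ mJ l) (h2 : ∀ l, mJ l ≤ d)
    (h3 : ∀ l l', l ≠ l' → mJ l + mJ l' ≤ d + 1) :
    (d + r).choose r = (allowed r d mJ).card + ∑ l, len r (mJ l) := by
  classical
  rw [card_mons_eq mJ, ← sum_congr rfl fun l (_ : l ∈ univ) => card_bad (h1 l) (h2 l),
    sum_card_bad]
  congr 1
  refine sum_congr rfl fun α hα => ?_
  split_ifs with h
  · obtain ⟨l, hl⟩ := h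
    rw [sum_eq_single l]
    · rw [if_pos hl]
    · intro l' _ hl'
      rw [if_neg]
      intro h4
      have h5 := h3 l l' (Ne.symm hl')
      rw [mem_mons, Finsupp.degree_eq_sum] at hα
      have h6 : α l + α l' ≤ ∑ i, α i := by
        rw [← sum_pair (Ne.symm hl')]
        exact sum_le_sum_of_subset (subset_univ _)
      omega
    · intro h4
      exact absurd (mem_univ _) h4
  · push Not at h
    symm
    refine sum_eq_zero fun l _ => ?_
    rw [if_neg (by have := h l; omega)]

end

/-! ### Special configurations -/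

section

variable {s d : ℕ} {ι : Type*}

end

/-! ### The main theorem -/

end Pool.Agent.H18.Fat

end
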