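import Pool.Agent.H94.LP3.M02

/-! The parts of this file: H18.Ex.Dif, H18.Ex.Dif_2, H18.Ex.Kill. -/

section

/-!
# Module Dif: the differential lemma

`F` is a form with coefficients in `ℂ[t]` vanishing to order `μ` at the moving point
`(q, x_l = t)`.  Write `S s n b = ∑_{a ∈ A, a l = s} coeff_n (F a) * ∏_{i ≠ l} binom(a i, b i)
q_i^(a i - b i)` (with `b l = 0`); this is `∑_{a ∈ A} coeff_n (F a) * tcr (update q l 0) a (b + s e_l)`.
Taking the coefficient of `t^n` of the condition with index `b + β e_l` gives, for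
`|b| + β < μ` and all `n`,

  `E β n b := ∑_{i ≤ n} binom(β + i, β) * S (β + i) (n - i) b = 0`.

Identity (for any function `S`): `∑_{β ≤ j} (-1)^β E β (j - β) b = S 0 j b`, because the coefficient
of `S s (j - s) b` is `∑_{β ≤ s} (-1)^β binom(s, β) = 0` for `s > 0`.
-/

namespace Pool.Agent.H18.Ex

open Finset

variable {ι : Type} [Fintype ι] [DecidableEq ι]

/-- The alternating identity: `∑_{β ≤ j} (-1)^β ∑_{i ≤ j - β} binom(β+i, β) S (β+i) (j-β-i) = S 0 j`. -/
theorem alt_identity (S : ℕ → ℕ → ℂ) (j : ℕ) :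
    ∑ β ∈ range (j + 1), (-1 : ℂ) ^ β * ∑ i ∈ range (j - β + 1),
      ((β + i).choose β : ℂ) * S (β + i) (j - β - i) = S 0 j := by
  have h1 : ∀ β ∈ range (j + 1), (-1 : ℂ) ^ β * ∑ i ∈ range (j - β + 1),
      ((β + i).choose β : ℂ) * S (β + i) (j - β - i) =
      ∑ s ∈ Ico β (j + 1), (-1 : ℂ) ^ β * ((s.choose β : ℂ) * S s (j - s)) := by
    intro β hβ
    rw [mem_range] at hβ
    rw [sum_Ico_eq_sum_range, mul_sum]
    have h2 : j - β + 1 = j + 1 - β := by omega
    rw [h2]
    refine sum_congr rfl fun i hi => ?_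
    rw [Nat.sub_sub]
  rw [sum_congr rfl h1]
  rw [sum_comm' (t' := range (j + 1)) (s' := fun s => range (s + 1))]
  · have h3 : ∀ s ∈ range (j + 1), ∑ β ∈ range (s + 1),
        (-1 : ℂ) ^ β * ((s.choose β : ℂ) * S s (j - s)) = if s = 0 then S 0 j else 0 := by
      intro s _
      have h4 := Int.alternating_sum_range_choose (n := s)
      have h5 : ∑ β ∈ range (s + 1), (-1 : ℂ) ^ β * (s.choose β : ℂ) =
          ((∑ m ∈ range (s + 1), (-1 : ℤ) ^ m * (s.choose m : ℤ) : ℤ) : ℂ) := by
        push_cast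
        rfl
      have h6 : ∑ β ∈ range (s + 1), (-1 : ℂ) ^ β * ((s.choose β : ℂ) * S s (j - s)) =
          (∑ β ∈ range (s + 1), (-1 : ℂ) ^ β * (s.choose β : ℂ)) * S s (j - s) := by
        rw [sum_mul]
        exact sum_congr rfl fun β _ => by ring
      rw [h6, h5, h4]
      split_ifs with hs
      · subst hs
        simp
      · simp
    rw [sum_congr rfl h3, sum_ite_eq' (range (j + 1)) 0 fun _ => S 0 j]
    simp
  · intro β s
    simp only [mem_range, mem_Ico]
    omega

/-- The moving point `(q, x_l = t)`. -/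
noncomputable def movPt (l : ι) (q : ι → ℂ) : ι → Polynomial ℂ :=
  fun i => if i = l then Polynomial.X else Polynomial.C (q i)

/-- The part of a Taylor coefficient away from the coordinate `l`. -/
noncomputable def difP (l : ι) (q : ι → ℂ) (a b : ι → ℕ) : ℂ :=
  ∏ i ∈ univ.erase l, (((a i).choose (b i) : ℕ) : ℂ) * q i ^ (a i - b i)

/-- The sums `S s n b`. -/
noncomputable def difS (A : Finset (ι → ℕ)) (l : ι) (F : (ι → ℕ) → Polynomial ℂ) (q : ι → ℂ)
    (b : ι → ℕ) (s n : ℕ) : ℂ :=
  ∑ a ∈ A.filter (fun a => a l = s), (F a).coeff n * difP l q a b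

lemma difP_update (l : ι) (q : ι → ℂ) (a b : ι → ℕ) (β : ℕ) :
    difP l q a (Function.update b l β) = difP l q a b := by
  unfold difP
  refine prod_congr rfl fun i hi => ?_
  rw [Function.update_of_ne (ne_of_mem_erase hi)]

lemma difS_update (A : Finset (ι → ℕ)) (l : ι) (F : (ι → ℕ) → Polynomial ℂ) (q : ι → ℂ)
    (b : ι → ℕ) (β s n : ℕ) : difS A l F q (Function.update b l β) s n = difS A l F q b s n := by
  unfold difS
  exact sum_congr rfl fun a _ => by rw [difP_update]

lemma sum_update_eq (b : ι → ℕ) (l : ι) (β : ℕ) :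
    ∑ i, Function.update b l β i + b l = ∑ i, b i + β := by
  rw [← add_sum_erase univ _ (mem_univ l), ← add_sum_erase univ b (mem_univ l),
    Function.update_self]
  have h1 : ∑ i ∈ univ.erase l, Function.update b l β i = ∑ i ∈ univ.erase l, b i :=
    sum_congr rfl fun i hi => by rw [Function.update_of_ne (ne_of_mem_erase hi)]
  rw [h1]
  ring

end Pool.Agent.H18.Ex

end

section

/-!
# Module Dif: the differential lemma

`F` is a form with coefficients in `ℂ[t]` vanishing to order `μ` at the moving point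
`(q, x_l = t)`.  Write `S s n b = ∑_{a ∈ A, a l = s} coeff_n (F a) * ∏_{i ≠ l} binom(a i, b i)
q_i^(a i - b i)` (with `b l = 0`); this is `∑_{a ∈ A} coeff_n (F a) * tcr (update q l 0) a (b + s e_l)`.
Taking the coefficient of `t^n` of the condition with index `b + β e_l` gives, for
`|b| + β < μ` and all `n`,

  `E β n b := ∑_{i ≤ n} binom(β + i, β) * S (β + i) (n - i) b = 0`.

Identity (for any function `S`): `∑_{β ≤ j} (-1)^β E β (j - β) b = S 0 j b`, because the coefficient
of `S s (j - s) b` is `∑_{β ≤ s} (-1)^β binom(s, β) = 0` for `s > 0`.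
-/

namespace Pool.Agent.H18.Ex

open Finset

variable {ι : Type} [Fintype ι] [DecidableEq ι]

lemma tcr_movPt (l : ι) (q : ι → ℂ) (a b : ι → ℕ) : tcr (movPt l q) a b =
    Polynomial.C (difP l q a b * ((a l).choose (b l) : ℂ)) * Polynomial.X ^ (a l - b l) := by
  unfold tcr difP
  rw [← mul_prod_erase univ _ (mem_univ l)]
  have h1 : movPt l q l = Polynomial.X := by simp [movPt]
  have h2 : ∏ i ∈ univ.erase l, (((a i).choose (b i) : ℕ) : Polynomial ℂ) *
      movPt l q i ^ (a i - b i) = Polynomial.C (∏ i ∈ univ.erase l,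
        (((a i).choose (b i) : ℕ) : ℂ) * q i ^ (a i - b i)) := by
    rw [map_prod]
    refine prod_congr rfl fun i hi => ?_
    have h3 : movPt l q i = Polynomial.C (q i) := by simp [movPt, ne_of_mem_erase hi]
    rw [h3, map_mul, map_pow, map_natCast]
  rw [h1, h2, map_mul, map_natCast]
  ring

/-- The conditions `E β n b = 0`. -/
lemma dif_key {A : Finset (ι → ℕ)} {l : ι} {μ : ℕ} {F : (ι → ℕ) → Polynomial ℂ} {q : ι → ℂ}
    (h : Sat A F (Kind.free μ) (movPt l q)) {b : ι → ℕ} (hb : ∑ i, b i < μ) (n : ℕ) :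
    ∑ i ∈ range (n + 1), ((b l + i).choose (b l) : ℂ) * difS A l F q b (b l + i) (n - i) = 0 := by
  have h1 := congrArg (fun p : Polynomial ℂ => p.coeff n) (h b hb)
  simp only [Kind.pt, Polynomial.finsetSum_coeff, Polynomial.coeff_zero, tcr_movPt] at h1
  rw [← h1]
  unfold difS
  simp only [mul_sum, sum_filter]
  rw [sum_comm]
  refine sum_congr rfl fun a _ => ?_
  have h2 : F a * (Polynomial.C (difP l q a b * ((a l).choose (b l) : ℂ)) *
      Polynomial.X ^ (a l - b l)) = Polynomial.C (difP l q a b * ((a l).choose (b l) : ℂ)) *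
        (F a * Polynomial.X ^ (a l - b l)) := by ring
  rw [h2, Polynomial.coeff_C_mul, Polynomial.coeff_mul_X_pow']
  by_cases h3 : b l ≤ a l
  · by_cases h4 : a l - b l ≤ n
    · rw [if_pos h4, sum_eq_single (a l - b l)]
      · have h5 : b l + (a l - b l) = a l := by omega
        rw [h5, if_pos rfl]
        ring
      · intro i _ hi
        rw [if_neg (by omega), mul_zero]
      · intro h5
        exact absurd (mem_range.mpr (by omega)) h5
    · rw [if_neg h4, mul_zero]
      refine sum_eq_zero fun i hi => ?_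
      rw [mem_range] at hi
      rw [if_neg (by omega), mul_zero]
  · rw [Nat.choose_eq_zero_of_lt (by omega), Nat.cast_zero, mul_zero, zero_mul]
    refine sum_eq_zero fun i _ => ?_
    rw [if_neg (by omega), mul_zero]

/-- The conditions `E β n b = 0`, where the entry of `b` at `l` is ignored. -/
lemma dif_key' {A : Finset (ι → ℕ)} {l : ι} {μ : ℕ} {F : (ι → ℕ) → Polynomial ℂ} {q : ι → ℂ}
    (h : Sat A F (Kind.free μ) (movPt l q)) {b : ι → ℕ} {β : ℕ} (hb : ∑ i, b i + β < μ + b l)
    (n : ℕ) :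
    ∑ i ∈ range (n + 1), ((β + i).choose β : ℂ) * difS A l F q b (β + i) (n - i) = 0 := by
  have h1 := dif_key h (b := Function.update b l β) (by
    have := sum_update_eq b l β
    omega) n
  simpa only [Function.update_self, difS_update] using h1

/-- (D1) For `j < μ` the `j`-th coefficient satisfies the simple condition at `q` on the layer.
Proof: `S 0 j 0 = ∑_{β ≤ j} (-1)^β E β (j - β) 0 = 0`, all indices `β ≤ j < μ` being allowed. -/
theorem dif_layer (A : Finset (ι → ℕ)) (l : ι) (μ : ℕ) (F : (ι → ℕ) → Polynomial ℂ) (q : ι → ℂ)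
    (h : Sat A F (Kind.free μ) (movPt l q)) (j : ℕ) (hj : j < μ) :
    Sat (A.filter fun a => a l = 0) (fun a => (F a).coeff j) (Kind.free 1) q := by
  intro b hb
  have hb0 : ∀ i, b i = 0 := by
    intro i
    have h1 : b i ≤ ∑ i, b i := single_le_sum (f := b) (fun _ _ => Nat.zero_le _) (mem_univ i)
    have h2 : ∑ i, b i < 1 := hb
    omega
  have h1 : ∑ a ∈ A.filter (fun a => a l = 0), (F a).coeff j * tcr q a b =
      difS A l F q b 0 j := by
    unfold difS
    refine sum_congr rfl fun a ha => ?_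
    have ha0 := (mem_filter.mp ha).2
    congr 1
    unfold tcr difP
    rw [← mul_prod_erase univ _ (mem_univ l), ha0, hb0 l]
    simp
  have h2 : (∑ a ∈ A.filter (fun a => a l = 0), (fun a => (F a).coeff j) a *
      tcr ((Kind.free 1 : Kind ι).pt q) a b) = difS A l F q b 0 j := h1
  rw [h2, ← alt_identity (difS A l F q b) j]
  refine sum_eq_zero fun β hβ => ?_
  rw [mem_range] at hβ
  rw [dif_key' h (b := b) (β := β) (by
    have h3 : ∑ i, b i = 0 := sum_eq_zero fun i _ => hb0 i
    have h4 := hb0 l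
    omega) (j - β), mul_zero]

end Pool.Agent.H18.Ex

end

section

/-!
# Module Kill: general simple points
-/

namespace Pool.Agent.H18.Ex

open Finset

variable {ι : Type} [Fintype ι] [DecidableEq ι]

omit [DecidableEq ι] in
theorem tcr_zero_right {R : Type*} [CommRing R] (q : ι → R) (a : ι → ℕ) :
    tcr q a 0 = ∏ i, q i ^ a i := by
  unfold tcr
  refine Finset.prod_congr rfl fun i _ => ?_
  simp

/-- The evaluation functional at a point. -/
noncomputable def evl (A : Finset (ι → ℕ)) (q : ι → ℂ) : (A → ℂ) →ₗ[ℂ] ℂ :=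
  ∑ a : A, (LinearMap.proj a : (A → ℂ) →ₗ[ℂ] ℂ).smulRight (tcr q a.1 0)

omit [DecidableEq ι] in
theorem evl_apply (A : Finset (ι → ℕ)) (q : ι → ℂ) (f : A → ℂ) :
    evl A q f = ∑ a : A, f a * tcr q a.1 0 := by
  unfold evl
  simp [LinearMap.sum_apply]

/-- A nonzero form does not vanish somewhere. -/
theorem exists_evl_ne (A : Finset (ι → ℕ)) (f : A → ℂ) (hf : f ≠ 0) :
    ∃ q : ι → ℂ, evl A q f ≠ 0 := by
  by_contra hcon
  push Not at hcon
  apply hf
  set P : MvPolynomial ι ℂ :=
    ∑ a : A, MvPolynomial.monomial (Finsupp.equivFunOnFinite.symm a.1) (f a) with hP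
  have h1 : P = 0 := by
    apply MvPolynomial.funext
    intro q
    rw [map_zero, ← hcon q, evl_apply, hP, map_sum]
    refine Finset.sum_congr rfl fun a _ => ?_
    rw [MvPolynomial.eval_monomial, tcr_zero_right, Finsupp.prod_fintype _ _ (fun i => by simp)]
    rfl
  funext a
  have h2 : MvPolynomial.coeff (Finsupp.equivFunOnFinite.symm a.1) P = f a := by
    rw [hP, MvPolynomial.coeff_sum, Finset.sum_eq_single a]
    · rw [MvPolynomial.coeff_monomial, if_pos rfl]
    · intro b _ hb
      rw [MvPolynomial.coeff_monomial, if_neg]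
      intro h
      exact hb (Subtype.ext (Finsupp.equivFunOnFinite.symm.injective h))
    · intro h
      exact absurd (Finset.mem_univ a) h
  rw [← h2, h1, MvPolynomial.coeff_zero]
  rfl

/-- `s` general points kill a space of forms of dimension at most `s`.
Proof: induction on `s`.  If `W ≠ 0` take `f ≠ 0` in `W` and a point `q₀` with
`∑ a, f a * ∏ i, q₀ i ^ a i ≠ 0` (nonzero polynomials over `ℂ` have non-roots,
`MvPolynomial.funext`); the subspace `W ∩ {g | g (q₀) = 0}` has smaller dimension.  Note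
`tcr q a 0 = ∏ i, q i ^ a i`. -/
theorem kill (A : Finset (ι → ℕ)) (s : ℕ) (W : Submodule ℂ (A → ℂ))
    (h : Module.finrank ℂ W ≤ s) :
    ∃ q : Fin s → ι → ℂ, ∀ f ∈ W, (∀ j, ∑ a : A, f a * tcr (q j) a.1 0 = 0) → f = 0 := by
  induction s generalizing W with
  | zero =>
    refine ⟨fun _ _ => 0, fun f hf _ => ?_⟩
    have h1 : W = ⊥ := Submodule.finrank_eq_zero.1 (Nat.le_zero.1 h)
    rw [h1] at hf
    exact (Submodule.mem_bot ℂ).1 hf
  | succ s ih =>
    by_cases hW : W = ⊥
    · refine ⟨fun _ _ => 0, fun f hf _ => ?_⟩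
      rw [hW] at hf
      exact (Submodule.mem_bot ℂ).1 hf
    · obtain ⟨f0, hf0, hf0n⟩ := Submodule.exists_mem_ne_zero_of_ne_bot hW
      obtain ⟨q0, hq0⟩ := exists_evl_ne A f0 hf0n
      have hlt : W ⊓ LinearMap.ker (evl A q0) < W := by
        refine lt_of_le_of_ne inf_le_left fun heq => ?_
        have h1 : f0 ∈ W ⊓ LinearMap.ker (evl A q0) := by
          rw [heq]
          exact hf0
        exact hq0 (LinearMap.mem_ker.1 (Submodule.mem_inf.1 h1).2)
      have h2 := Submodule.finrank_lt_finrank_of_lt hlt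
      obtain ⟨q, hq⟩ := ih (W ⊓ LinearMap.ker (evl A q0)) (by omega)
      refine ⟨Fin.cons q0 q, fun f hf hall => ?_⟩
      apply hq f
      · rw [Submodule.mem_inf, LinearMap.mem_ker, evl_apply]
        refine ⟨hf, ?_⟩
        have h3 := hall 0
        rwa [Fin.cons_zero] at h3
      · intro j
        have h3 := hall j.succ
        rwa [Fin.cons_succ] at h3

/-- At least `|A|` free points (of multiplicity at least one) kill everything. -/
theorem GI.of_card {κ : Type} (A : Finset (ι → ℕ)) (k : κ → Kind ι) (e : Fin A.card ↪ κ)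
    (he : ∀ j, ∃ m, 1 ≤ m ∧ k (e j) = Kind.free m) : GI A k := by
  obtain ⟨q, hq⟩ := kill A A.card ⊤ (by
    rw [finrank_top, Module.finrank_fintype_fun_eq_card, Fintype.card_coe])
  refine ⟨Function.extend e q (fun _ _ => 0), fun f hf a ha => ?_⟩
  have h1 : (fun b : A => f b.1) = 0 := by
    apply hq _ Submodule.mem_top
    intro j
    obtain ⟨m, hm, hk⟩ := he j
    have h2 := hf (e j)
    rw [hk, e.injective.extend_apply] at h2
    have h3 := h2 0 (by
      change ∑ i, (0 : ι → ℕ) i < m
      have h4 : ∑ i, (0 : ι → ℕ) i = 0 := by simp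
      omega)
    rw [← Finset.sum_coe_sort] at h3
    exact h3
  exact congrFun h1 ⟨a, ha⟩

end Pool.Agent.H18.Ex

end
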