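import Pool.Agent.H94.LP3.M02

/-! The parts of this file: H18.Ex.Defs_1, H18.Ex.Ell. -/

section

/-!
# Horace-type induction for forms with prescribed exponents: definitions

`ι` is the finite set of (homogeneous) variables.  A form is given by its coefficient function
`f : (ι → ℕ) → R`, of which only the values on a finite set `A` of exponents matter.
-/

namespace Pool.Agent.H18.Ex

open Finset

/-! ### Geometry -/

section

variable {ι : Type} [Fintype ι] [DecidableEq ι]

end

section

variable {ι : Type} [Fintype ι] [DecidableEq ι]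

/-- The same for a multiset of conditions. -/
def GM (A : Finset (ι → ℕ)) (S : Multiset (Kind ι)) : Prop :=
  ∃ (n : ℕ) (k : Fin n → Kind ι), (univ : Finset (Fin n)).val.map k = S ∧ GI A k

/-- `A` (of dimension `n`) is exact for multiplicities up to `M`: any points of multiplicity at
most `M` with total length at least `|A|` kill all forms with exponents in `A`. -/
def Exa (n M : ℕ) (A : Finset (ι → ℕ)) : Prop :=
  ∀ G : Multiset ℕ, (∀ m ∈ G, m ≤ M) → A.card ≤ (G.map (ell n)).sum → GM A (G.map Kind.free)

/-- Passing to the residual along `x_l = 0` when no new point is put on the hyperplane. -/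
def Kind.dn (l : ι) (k : Kind ι) : Kind ι :=
  match k with
  | .free m => .free m
  | .forced l' c e => if l' = l then .forced l' (c - 1) e else .forced l' c e

end

/-- The role of a condition in a Horace step along `x_l = 0`. -/
inductive Role (ι : Type) : Type where
  | stay (k : Kind ι) : Role ι
  | here (c e : ℕ) : Role ι
  | ord (m : ℕ) : Role ι
  | dif : Role ι

section

variable {ι : Type}

/-- The condition before the step; `μ` is the common multiplicity of the differential points. -/
def Role.before (l : ι) (μ : ℕ) (r : Role ι) : Kind ι :=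
  match r with
  | .stay k => k
  | .here c e => .forced l c e
  | .ord m => .free m
  | .dif => .free μ

/-- The multiplicity of the trace on the hyperplane. -/
def Role.layer (r : Role ι) : ℕ :=
  match r with
  | .stay _ => 0
  | .here c e => if e ≤ c then c else 0
  | .ord m => m
  | .dif => 1

/-- The residual condition. -/
def Role.after (l : ι) (μ : ℕ) (r : Role ι) : Kind ι :=
  match r with
  | .stay k => k
  | .here c e => .forced l (c - 1) e
  | .ord m => .forced l (m - 1) 1
  | .dif => .forced l μ 2

end

/-! ### Configurations -/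

/-- `N` is the multiset of the multiplicities (at least two) of the free points, `s` is the number
of the free simple points, `Φ l` is the multiset of the pairs `(c, e)` of the forced conditions on
`x_l = 0`. -/
structure Cfg (ι : Type) : Type where
  /-- multiplicities of the free points of multiplicity at least two -/
  N : Multiset ℕ
  /-- number of the free simple points -/
  s : ℕ
  /-- forced conditions -/
  Φ : ι → Multiset (ℕ × ℕ)

/-- One step down of the forced conditions. -/
def shf (S : Multiset (ℕ × ℕ)) : Multiset (ℕ × ℕ) :=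
  (S.map fun x => (x.1 - 1, x.2)).filter fun x => x.2 ≤ x.1

/-- `M * binom(M + n - 1, n)`. -/
def g0 (n M : ℕ) : ℕ := M * ell n M

section

variable {ι : Type}

/-- Validity of a configuration. -/
structure Cfg.OK (M : ℕ) (c : Cfg ι) : Prop where
  hN : ∀ m ∈ c.N, 2 ≤ m ∧ m ≤ M
  hΦ : ∀ l, ∀ x ∈ c.Φ l, 1 ≤ x.2 ∧ x.2 ≤ 2 ∧ x.2 ≤ x.1 ∧ x.1 ≤ M

/-- Total length of the traces of the forced conditions on `x_l = 0` (region of dimension
`n + 1`, hyperplanes of dimension `n`). -/
def Cfg.tr (n : ℕ) (c : Cfg ι) (l : ι) : ℕ := ((c.Φ l).map fun x => ell n x.1).sum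

/-- Total length of the forced conditions on `x_l = 0`. -/
def Cfg.fl (n : ℕ) (c : Cfg ι) (l : ι) : ℕ :=
  ((c.Φ l).map fun x => ell (n + 1) x.1 + 1 - x.2).sum

/-- Total length of the free points. -/
def Cfg.nsz (n : ℕ) (c : Cfg ι) : ℕ := (c.N.map (ell (n + 1))).sum + c.s

/-- Total length. -/
def Cfg.sz [Fintype ι] (n : ℕ) (c : Cfg ι) : ℕ := c.nsz n + ∑ l, c.fl n l

/-- The conditions of a configuration. -/
def Cfg.kinds [Fintype ι] (c : Cfg ι) : Multiset (Kind ι) :=
  c.N.map Kind.free + Multiset.replicate c.s (Kind.free 1) +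
    ∑ l, (c.Φ l).map fun x => Kind.forced l x.1 x.2

end

/-! ### Regions -/

section

variable {ι : Type} [Fintype ι] [DecidableEq ι]

/-- The region `Rg σ w` has dimension `n` (that is, `n + 1` active coordinates) and all its
widths are at least `D`. -/
def Fat (n D σ : ℕ) (w : ι → ℕ) : Prop :=
  (univ.filter fun i => 0 < w i).card = n + 1 ∧ D ≤ σ ∧ (∀ i, 0 < w i → D ≤ w i) ∧
    σ + D ≤ ∑ i, w i

/-- Normalised regions of dimension `n`. -/
structure Nrm (n D : ℕ) (o : ι) (σ : ℕ) (w : ι → ℕ) : Prop where
  hcard : (univ.filter fun i => 0 < w i).card = n + 1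
  ho : 0 < w o
  hwo : ∀ i, w i ≤ w o
  hwσ : ∀ i, w i ≤ σ
  hσ : 2 * σ ≤ ∑ i, w i
  hD : ∀ i, 0 < w i → D ≤ w i

/-- The new bound for the traces of the forced conditions after a step with layer of size `f`. -/
def nphi (n M f : ℕ) : ℕ := (M - 1) * f / M + ell n M ^ 2

/-- A list of directions along which the region can be peeled (region of dimension `n + 1`,
layers of dimension `n`); `X` is the property required of the layers, `φ` bounds the traces of
the forced conditions. -/
def Good (n M : ℕ) (X : ℕ → (ι → ℕ) → Prop) : List ι → ℕ → (ι → ℕ) → (ι → ℕ) → Prop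
  | [], _, _, _ => True
  | l :: L, σ, w, φ =>
    1 ≤ σ ∧ 1 ≤ w l ∧ X σ (Function.update w l 0) ∧
    φ l + g0 n M * ell n M ≤ fc σ w l ∧
    M * ∑ i, φ i + ell (n + 1) M * (fc σ w l + g0 n M) + fc σ w l ≤ (Rg σ w).card ∧
    Good n M X L (σ - 1) (Function.update w l (w l - 1))
      (Function.update φ l (nphi n M (fc σ w l)))

/-- The bounds at the end of a list of directions. -/
def eph (n M : ℕ) : List ι → ℕ → (ι → ℕ) → (ι → ℕ) → (ι → ℕ)
  | [], _, _, φ => φ
  | l :: L, σ, w, φ => eph n M L (σ - 1) (Function.update w l (w l - 1))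
      (Function.update φ l (nphi n M (fc σ w l)))

/-- The widths at the end of a list of directions. -/
def ew (L : List ι) (w : ι → ℕ) : ι → ℕ := fun i => w i - L.count i

end

end Pool.Agent.H18.Ex

end

section

/-!
# Module Ell: elementary facts about `ell n m = binom(m + n - 1, n)`
-/

namespace Pool.Agent.H18.Ex

open Finset

theorem ell_zero {n : ℕ} (hn : 1 ≤ n) : ell n 0 = 0 := by
  unfold ell
  exact Nat.choose_eq_zero_of_lt (by omega)

theorem ell_one (n : ℕ) : ell n 1 = 1 := by
  unfold ell
  rw [show 1 + n - 1 = n by omega, Nat.choose_self]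

theorem ell_mono (n : ℕ) {m m' : ℕ} (h : m ≤ m') : ell n m ≤ ell n m' :=
  Nat.choose_le_choose n (by omega)

theorem ell_pos (n : ℕ) {m : ℕ} (h : 1 ≤ m) : 1 ≤ ell n m :=
  Nat.choose_pos (by omega)

/-- Pascal. -/
theorem ell_succ (n c : ℕ) : ell (n + 1) (c + 1) = ell (n + 1) c + ell n (c + 1) := by
  unfold ell
  rw [show c + 1 + (n + 1) - 1 = (c + n) + 1 by omega, show c + (n + 1) - 1 = c + n by omega,
    show c + 1 + n - 1 = c + n by omega, Nat.choose_succ_succ, add_comm]

/-- `M * ell n c ≤ (M - 1) * ell n (c + 1)` for `c + 1 ≤ M`, `n ≥ 1`: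
`(c + n) * ell n c = c * ell n (c + 1)`, so `ell n c ≤ c / (c + 1) * ell n (c + 1)`. -/
theorem ell_ratio {n c M : ℕ} (hn : 1 ≤ n) (hc : c + 1 ≤ M) :
    M * ell n c ≤ (M - 1) * ell n (c + 1) := by
  rcases Nat.eq_zero_or_pos c with h | h
  · subst h
    rw [ell_zero hn, mul_zero]
    exact Nat.zero_le _
  obtain ⟨K, rfl⟩ : ∃ K, M = K + 1 := ⟨M - 1, by omega⟩
  have key : ell n c * (c + n) = ell n (c + 1) * c := by
    unfold ell
    have := Nat.choose_mul_succ_eq (c + n - 1) n
    rw [show c + n - 1 + 1 = c + n by omega, show c + n - n = c by omega] at this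
    rw [show c + 1 + n - 1 = c + n by omega]
    exact this
  have h1 : 0 < c + n := by omega
  refine Nat.le_of_mul_le_mul_right ?_ h1
  rw [Nat.add_sub_cancel]
  calc (K + 1) * ell n c * (c + n) = (K + 1) * (ell n c * (c + n)) := by ring
    _ = ((K + 1) * c) * ell n (c + 1) := by rw [key]; ring
    _ ≤ (K * (c + n)) * ell n (c + 1) := by
        refine Nat.mul_le_mul_right _ ?_
        have : K * (c + 1) ≤ K * (c + n) := Nat.mul_le_mul_left _ (by omega)
        nlinarith
    _ = K * ell n (c + 1) * (c + n) := by ring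

/-- `ell (n + 1) c = (c + n) / (n + 1) * ell n c ≤ c * ell n c`. -/
theorem ell_le_mul (n c : ℕ) : ell (n + 1) c ≤ c * ell n c := by
  rcases Nat.eq_zero_or_pos c with h | h
  · subst h
    rw [ell_zero (by omega)]
    exact Nat.zero_le _
  have key : (c + n) * ell n c = ell (n + 1) c * (n + 1) := by
    unfold ell
    have := Nat.add_one_mul_choose_eq (c + n - 1) n
    rw [show c + n - 1 + 1 = c + n by omega] at this
    rw [show c + (n + 1) - 1 = c + n by omega]
    exact this
  refine Nat.le_of_mul_le_mul_right ?_ (Nat.succ_pos n)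
  rw [Nat.succ_eq_add_one, ← key]
  calc (c + n) * ell n c ≤ (c * (n + 1)) * ell n c := by
        refine Nat.mul_le_mul_right _ ?_
        nlinarith
    _ = c * ell n c * (n + 1) := by ring

end Pool.Agent.H18.Ex

end
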