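import Pool.Agent.H94.LP3.M03
import Pool.Agent.H94.LP3.M05
import Pool.Agent.H94.LP3.M06

/-! The parts of this file: H18.Ex.OnePar, H18.Ex.Dif_1, H18.Ex.Step. -/

section

/-!
# Module OnePar: solutions of a linear system depending polynomially on one parameter
-/

namespace Pool.Agent.H18.Ex

open Finset

/-- Division by the largest possible power of `X`. -/
theorem exists_eval_ne {α ρ : Type} (A : Finset α) (Mx : ρ → α → Polynomial ℂ) (a₀ : α)
    (ha₀ : a₀ ∈ A) : ∀ (n : ℕ) (F : α → Polynomial ℂ), (F a₀).natDegree = n → F a₀ ≠ 0 →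
      (∀ r, ∑ a ∈ A, F a * Mx r a = 0) →
      ∃ F : α → Polynomial ℂ, (∀ r, ∑ a ∈ A, F a * Mx r a = 0) ∧ ∃ a ∈ A, (F a).eval 0 ≠ 0 := by
  intro n
  induction n with
  | zero =>
    intro F hd hne hF
    refine ⟨F, hF, a₀, ha₀, ?_⟩
    rw [Polynomial.eq_C_of_natDegree_eq_zero hd] at hne ⊢
    rw [Polynomial.eval_C]
    intro h
    rw [h, Polynomial.C_0] at hne
    exact hne rfl
  | succ n ih =>
    intro F hd hne hF
    by_cases hz : ∃ a ∈ A, (F a).eval 0 ≠ 0
    · exact ⟨F, hF, hz⟩
    · push Not at hz
      have hdiv : ∀ a ∈ A, F a = (F a).divX * Polynomial.X := by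
        intro a ha
        have h := hz a ha
        rw [← Polynomial.coeff_zero_eq_eval_zero] at h
        conv_lhs => rw [← Polynomial.divX_mul_X_add (F a), h, Polynomial.C_0, add_zero]
      refine ih (fun a => (F a).divX) ?_ ?_ ?_
      · show (F a₀).divX.natDegree = n
        rw [Polynomial.natDegree_divX_eq_natDegree_tsub_one, hd]
        omega
      · intro h
        apply hne
        rw [hdiv a₀ ha₀]
        show (F a₀).divX * Polynomial.X = 0
        have h' : (F a₀).divX = 0 := h
        rw [h', zero_mul]
      · intro r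
        have h := hF r
        have h2 : (∑ a ∈ A, (F a).divX * Mx r a) * Polynomial.X = 0 := by
          rw [sum_mul, ← h]
          refine sum_congr rfl fun a ha => ?_
          conv_rhs => rw [hdiv a ha]
          ring
        rcases mul_eq_zero.1 h2 with h3 | h3
        · exact h3
        · exact absurd h3 Polynomial.X_ne_zero

/-- If a linear system with coefficients in `ℂ[t]` has a nonzero solution for every value of `t`,
then it has a polynomial solution which does not vanish at `t = 0`.

Proof.  Let `Frac` be the fraction field of `ℂ[X]`.  Case 1: the matrix `(r, a) ↦ Mx r a`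
(`r : ρ`, `a : A`) has trivial kernel over `Frac`.  Then it has a left inverse `B` over `Frac`
(`LinearMap.exists_leftInverse_of_injective`); clearing denominators gives a matrix `B'` over
`ℂ[X]` and `δ ≠ 0` with `B' * Mx = δ • 1`.  Take `t` with `δ.eval t ≠ 0` (`ℂ` is infinite):
then the system at `t` has only the zero solution, a contradiction.  Case 2: there is a nonzero
solution over `Frac`; clear denominators to get a nonzero solution `F` over `ℂ[X]`
(e.g. `IsLocalization.exist_integer_multiples_of_finset`).  Divide by the largest power of `X`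
dividing all `F a`, `a ∈ A` (strong induction on the minimum, or on the sum, of the `natDegree`s of
the nonzero `F a`: if all `F a`, `a ∈ A`, vanish at `0` replace `F a` by `(F a).divX`). -/
theorem exists_poly_solution {α ρ : Type} [Fintype ρ] (A : Finset α)
    (Mx : ρ → α → Polynomial ℂ)
    (h : ∀ t : ℂ, ∃ f : α → ℂ, (∀ r, ∑ a ∈ A, f a * (Mx r a).eval t = 0) ∧ ∃ a ∈ A, f a ≠ 0) :
    ∃ F : α → Polynomial ℂ, (∀ r, ∑ a ∈ A, F a * Mx r a = 0) ∧ ∃ a ∈ A, (F a).eval 0 ≠ 0 := by
  classical
  let K := FractionRing (Polynomial ℂ)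
  let φ : Polynomial ℂ →+* K := algebraMap (Polynomial ℂ) K
  have hφ : Function.Injective φ := IsFractionRing.injective (Polynomial ℂ) K
  let Mk : Matrix ρ A K := fun r a => φ (Mx r a.1)
  by_cases hker : LinearMap.ker Mk.mulVecLin = ⊥
  · exfalso
    obtain ⟨g, hg⟩ := LinearMap.exists_leftInverse_of_injective Mk.mulVecLin hker
    let B : Matrix A ρ K := LinearMap.toMatrix' g
    have hB : B * Mk = 1 := by
      have h1 : LinearMap.toMatrix' (g ∘ₗ Mk.mulVecLin) = 1 := by
        rw [hg, LinearMap.toMatrix'_id]
      rw [LinearMap.toMatrix'_comp] at h1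
      rw [← h1]
      congr 1
      rw [← Matrix.toLin'_apply', LinearMap.toMatrix'_toLin']
    obtain ⟨δ, hδ⟩ := IsLocalization.exist_integer_multiples_of_finite
      (nonZeroDivisors (Polynomial ℂ)) (fun x : A × ρ => B x.1 x.2)
    choose B' hB' using hδ
    have hδ0 : (δ : Polynomial ℂ) ≠ 0 := nonZeroDivisors.coe_ne_zero δ
    have key : ∀ a a' : A, ∑ r, B' (a, r) * Mx r a'.1 = if a = a' then (δ : Polynomial ℂ) else 0 := by
      intro a a'
      apply hφ
      rw [map_sum]
      have h1 : ∀ r, φ (B' (a, r) * Mx r a'.1) = φ δ * (B a r * Mk r a') := by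
        intro r
        rw [map_mul]
        have h2 := hB' (a, r)
        rw [Algebra.smul_def] at h2
        rw [show φ (B' (a, r)) = φ δ * B a r from h2]
        show φ δ * B a r * φ (Mx r a'.1) = φ δ * (B a r * φ (Mx r a'.1))
        ring
      rw [sum_congr rfl fun r _ => h1 r, ← mul_sum]
      have h3 : ∑ r, B a r * Mk r a' = (B * Mk) a a' := rfl
      rw [h3, hB, Matrix.one_apply]
      split_ifs with hh
      · rw [mul_one]
      · rw [mul_zero, map_zero]
    obtain ⟨t, ht⟩ : ∃ t : ℂ, (δ : Polynomial ℂ).eval t ≠ 0 := by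
      by_contra hcon
      push Not at hcon
      apply hδ0
      exact Polynomial.funext fun t => by rw [hcon t, Polynomial.eval_zero]
    obtain ⟨f, hf, a, ha, hfa⟩ := h t
    apply hfa
    have h4 : (δ : Polynomial ℂ).eval t * f a = 0 := by
      have h5 : ∑ a' : A, (∑ r, (B' (⟨a, ha⟩, r)).eval t * (Mx r a'.1).eval t) * f a'.1 = 0 := by
        simp only [sum_mul]
        rw [sum_comm]
        refine sum_eq_zero fun r _ => ?_
        have h6 := hf r
        rw [← sum_coe_sort A (fun a => f a * (Mx r a).eval t)] at h6
        have h7 : ∑ a' : A, (B' (⟨a, ha⟩, r)).eval t * (Mx r a'.1).eval t * f a'.1 =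
            (B' (⟨a, ha⟩, r)).eval t * ∑ a' : A, f a'.1 * (Mx r a'.1).eval t := by
          rw [mul_sum]
          exact sum_congr rfl fun a' _ => by ring
        rw [h7, h6, mul_zero]
      have h8 : ∀ a' : A, (∑ r, (B' (⟨a, ha⟩, r)).eval t * (Mx r a'.1).eval t) =
          if (⟨a, ha⟩ : A) = a' then (δ : Polynomial ℂ).eval t else 0 := by
        intro a'
        have h9 := congrArg (Polynomial.eval t) (key ⟨a, ha⟩ a')
        rw [Polynomial.eval_finsetSum] at h9
        simp only [Polynomial.eval_mul] at h9
        rw [h9]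
        split_ifs
        · rfl
        · exact Polynomial.eval_zero
      rw [sum_congr rfl fun a' _ => by rw [h8 a']] at h5
      rw [Finset.sum_eq_single (⟨a, ha⟩ : A)] at h5
      · rw [if_pos rfl] at h5
        exact h5
      · intro b _ hb
        rw [if_neg (fun h => hb h.symm), zero_mul]
      · intro hh
        exact absurd (mem_univ _) hh
    rcases mul_eq_zero.1 h4 with h5 | h5
    · exact absurd h5 ht
    · exact h5
  · obtain ⟨v, hv, hv0⟩ := (Submodule.ne_bot_iff _).1 hker
    rw [LinearMap.mem_ker, Matrix.mulVecLin_apply] at hv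
    obtain ⟨a₀, ha₀⟩ : ∃ a, v a ≠ 0 := by
      by_contra hcon
      push Not at hcon
      exact hv0 (funext hcon)
    obtain ⟨δ, hδ⟩ := IsLocalization.exist_integer_multiples_of_finite
      (nonZeroDivisors (Polynomial ℂ)) v
    choose F' hF' using hδ
    have hδ0 : (δ : Polynomial ℂ) ≠ 0 := nonZeroDivisors.coe_ne_zero δ
    let F : α → Polynomial ℂ := fun a => if ha : a ∈ A then F' ⟨a, ha⟩ else 0
    have hFa : ∀ a : A, φ (F a.1) = φ δ * v a := by
      intro a
      have h2 := hF' a
      rw [Algebra.smul_def] at h2
      show φ (if ha : a.1 ∈ A then F' ⟨a.1, ha⟩ else 0) = φ δ * v a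
      rw [dif_pos a.2]
      exact h2
    refine exists_eval_ne A Mx a₀.1 a₀.2 _ F rfl ?_ ?_
    · intro hz
      have h1 := hFa a₀
      rw [hz, map_zero] at h1
      rcases mul_eq_zero.1 h1.symm with h2 | h2
      · apply hδ0
        apply hφ
        rw [h2, map_zero]
      · exact ha₀ h2
    · intro r
      apply hφ
      rw [map_zero, map_sum, ← sum_coe_sort A (fun a => φ (F a * Mx r a))]
      have h1 : ∑ a : A, φ (F a.1 * Mx r a.1) = φ δ * ∑ a : A, Mk r a * v a := by
        rw [mul_sum]
        refine sum_congr rfl fun a _ => ?_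
        rw [map_mul, hFa a]
        show φ δ * v a * φ (Mx r a.1) = φ δ * (φ (Mx r a.1) * v a)
        ring
      rw [h1]
      have h2 : ∑ a : A, Mk r a * v a = Mk.mulVec v r := rfl
      rw [h2, hv]
      show φ δ * 0 = 0
      rw [mul_zero]

end Pool.Agent.H18.Ex

end

section

/-!
# Module Dif: the differential lemma

`F` is a form with coefficients in `ℂ[t]` vanishing to order `μ` at the moving point
`(q, x_l = t)`.  Write `S s n b = ∑_{a ∈ A, a l = s} coeff_n (F a) * ∏_{i ≠ l} binom(a i, b i)
q_i^(a i - b i)` (with `b l = 0`); this is `∑_{a ∈ A} coeff_n (F a) * tcr (update q l 0) a (b + s e_l)`.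
Taking the coefficient of `t^n` of the condition with index `b + β e_l` gives, for
`|b| + β < μ` and all `n`,

  `E β n b := ∑_{i ≤ n} binom(β + i, β) * S (β + i) (n - i) b = 0`.

Identity (for any function `S`): `∑_{β ≤ j} (-1)^β E β (j - β) b = S 0 j b`, because the coefficient
of `S s (j - s) b` is `∑_{β ≤ s} (-1)^β binom(s, β) = 0` for `s > 0`.
-/

namespace Pool.Agent.H18.Ex

open Finset

variable {ι : Type} [Fintype ι] [DecidableEq ι]

/-- (D2) If the layer parts of the first `μ` coefficients vanish, then the residual of the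
`0`-th coefficient satisfies the condition `forced l μ 2`.
Proof: by `resid_sum` we need `S (b l + 1) 0 b' = 0` for `|b| < μ`, `b l + 2 ≤ μ`
(`b'` = `b` without its `l`-th entry); put `j = b l + 1`, so `1 ≤ j ≤ μ - 1` and
`|b'| + j ≤ μ`.  If `|b'| + j < μ` this is `E j 0 b' = 0`.  If `|b'| + j = μ` then
`∑_{β < j} (-1)^β E β (j - β) b' = 0` and this sum is `S 0 j b' - (-1)^j S j 0 b'`, where
`S 0 j b' = 0` by hypothesis. -/
theorem dif_resid (A A' : Finset (ι → ℕ)) (l : ι)
    (hA : ∀ a, a ∈ A' ↔ Function.update a l (a l + 1) ∈ A) (μ : ℕ)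
    (F : (ι → ℕ) → Polynomial ℂ) (q : ι → ℂ)
    (h : Sat A F (Kind.free μ) (movPt l q))
    (h0 : ∀ j < μ, ∀ a ∈ A, a l = 0 → (F a).coeff j = 0) :
    Sat A' (fun a => (F (Function.update a l (a l + 1))).coeff 0) (Kind.forced l μ 2) q := by
  rintro b ⟨hb1, hb2⟩
  have hq : Function.update q l 0 l = 0 := Function.update_self _ _ _
  have h1 := resid_sum A A' l hA (fun a => (F a).coeff 0) (Function.update q l 0) hq b
  have h2 : (∑ a ∈ A', (fun a => (F (Function.update a l (a l + 1))).coeff 0) a *
      tcr ((Kind.forced l μ 2 : Kind ι).pt q) a b) =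
      ∑ a ∈ A, (F a).coeff 0 * tcr (Function.update q l 0) a (Function.update b l (b l + 1)) :=
    h1.symm
  rw [h2]
  set j := b l + 1 with hj
  have h3 : ∑ a ∈ A, (F a).coeff 0 * tcr (Function.update q l 0) a (Function.update b l j) =
      difS A l F q b j 0 := by
    unfold difS
    rw [sum_filter]
    refine sum_congr rfl fun a _ => ?_
    have h4 : tcr (Function.update q l 0) a (Function.update b l j) =
        (if a l = j then 1 else 0) * difP l q a b := by
      unfold tcr difP
      rw [← mul_prod_erase univ _ (mem_univ l)]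
      congr 1
      · rw [Function.update_self, Function.update_self]
        split_ifs with h5
        · rw [h5]
          simp
        · rcases lt_or_gt_of_ne h5 with h6 | h6
          · rw [Nat.choose_eq_zero_of_lt h6, Nat.cast_zero, zero_mul]
          · rw [zero_pow (by omega), mul_zero]
      · refine prod_congr rfl fun i hi => ?_
        rw [Function.update_of_ne (ne_of_mem_erase hi), Function.update_of_ne (ne_of_mem_erase hi)]
    rw [h4]
    split_ifs <;> ring
  rw [h3]
  rcases lt_or_ge (∑ i, b i + 1) μ with hlt | hge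
  · have h4 := dif_key' h (b := b) (β := j) (by omega) 0
    simpa using h4
  · have h4 := alt_identity (difS A l F q b) j
    have h5 : difS A l F q b 0 j = 0 := by
      unfold difS
      refine sum_eq_zero fun a ha => ?_
      obtain ⟨ha1, ha2⟩ := mem_filter.mp ha
      rw [h0 j (by omega) a ha1 ha2, zero_mul]
    rw [h5, sum_range_succ, sum_eq_zero, zero_add] at h4
    · have h6 := (mul_eq_zero.mp h4).resolve_left (pow_ne_zero _ (by norm_num))
      simpa using h6
    · intro β hβ
      rw [mem_range] at hβ
      rw [dif_key' h (b := b) (β := β) (by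
        have h7 : b l ≤ ∑ i, b i :=
          single_le_sum (f := b) (fun _ _ => Nat.zero_le _) (mem_univ l)
        omega) (j - β), mul_zero]

end Pool.Agent.H18.Ex

end

section

/-!
# Module Step: the (differential) Horace step
-/

namespace Pool.Agent.H18.Ex

open Finset

variable {ι : Type} [Fintype ι] [DecidableEq ι]

/-- A bound for the multi-indices of a condition. -/
def Kind.bdd (k : Kind ι) : ℕ :=
  match k with
  | .free m => m
  | .forced _ c _ => c

omit [DecidableEq ι] in
theorem Kind.Idx.lt_bdd {k : Kind ι} {b : ι → ℕ} (h : k.Idx b) (j : ι) : b j < k.bdd := by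
  have h1 : b j ≤ ∑ i, b i := Finset.single_le_sum (fun i _ => Nat.zero_le (b i)) (mem_univ j)
  cases k with
  | free m => exact lt_of_le_of_lt h1 h
  | forced l c e => exact lt_of_le_of_lt h1 h.1

omit [DecidableEq ι] in
theorem map_tcr {R S : Type*} [CommRing R] [CommRing S] (φ : R →+* S) (q : ι → R) (a b : ι → ℕ) :
    φ (tcr q a b) = tcr (fun i => φ (q i)) a b := by
  unfold tcr
  rw [map_prod]
  simp only [map_mul, map_natCast, map_pow]

omit [Fintype ι] in
theorem map_pt {R S : Type*} [CommRing R] [CommRing S] (φ : R →+* S) (k : Kind ι) (q : ι → R) :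
    (fun i => φ (k.pt q i)) = k.pt (fun i => φ (q i)) := by
  cases k with
  | free m => rfl
  | forced l c e =>
    funext i
    simp only [Kind.pt, Function.update_apply]
    split_ifs
    · exact map_zero φ
    · rfl

/-- The coefficients of a polynomial solution of conditions at a constant point. -/
theorem sat_coeff (A : Finset (ι → ℕ)) (F : (ι → ℕ) → Polynomial ℂ) (k : Kind ι) (q : ι → ℂ)
    (h : Sat A F k (fun i => Polynomial.C (q i))) (n : ℕ) :
    Sat A (fun a => (F a).coeff n) k q := by
  intro b hb
  have h1 := h b hb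
  have h2 : ∀ a, tcr (k.pt (fun i => Polynomial.C (q i))) a b = Polynomial.C (tcr (k.pt q) a b) := by
    intro a
    rw [map_tcr, map_pt]
  have h3 := congrArg (fun p => Polynomial.coeff p n) h1
  simp only [h2, Polynomial.finsetSum_coeff, Polynomial.coeff_mul_C, Polynomial.coeff_zero] at h3
  exact h3

/-- The positions, with parameter `t`. -/
def stepPos {κ R : Type*} [Zero R] (l : ι) (ρ : κ → Role ι) (pos : κ → ι → R) (t : R) (i : κ) :
    ι → R :=
  match ρ i with
  | .stay _ => pos i
  | .here _ _ => pos i
  | .ord _ => Function.update (pos i) l 0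
  | .dif => Function.update (pos i) l t

/-- The Horace step.

Proof.  By `GI.exists_common` take `pos` with both `InjAt`s and all coordinates nonzero.  For
`t : ℂ` let `pos_t i` be `pos i` for `stay` and `here`, `update (pos i) l 0` for `ord` and
`update (pos i) l t` for `dif`.  If `InjAt A (before) pos_t` for some `t` we are done.  Otherwise
`exists_poly_solution` (rows: `i` and the finitely many `b` with `(before i).Idx b`; entries
`tcr ((before i).pt (P i)) a b` over `ℂ[X]`, where `P i` is `C ∘ pos i`, resp. with `l`-th
coordinate `0`, resp. `movPt l (pos i)`; evaluation at `t` commutes with `tcr`) gives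
`F : (ι → ℕ) → ℂ[X]` satisfying all conditions over `ℂ[X]`, with `(F a).eval 0 ≠ 0` for some
`a ∈ A`.  Conditions with constant points hold for every coefficient `F_n a = (F a).coeff n`.
(i) For `j < μ` the function `F_j` satisfies the layer conditions: `here` by `sat_layer_forced`,
`ord` by `sat_forced_one_iff` and `sat_layer_forced` (and `sat_layer_congr`), `dif` by `dif_layer`,
`stay`: `free 0` is empty.  So `F_j a = 0` for `a ∈ A`, `a l = 0`.
(ii) `a ↦ F_0 (a + e_l)` satisfies the residual conditions: `stay` by `sat_resid_of_notAt`, `here`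
by `sat_resid_forced`, `ord` by `sat_forced_one_iff` and `sat_resid_forced`, `dif` by `dif_resid`.
So it vanishes on `A'`, hence `F_0 = 0` on `A` (use (i) for `a l = 0`), a contradiction. -/
theorem step {κ : Type} [Fintype κ] (A A' : Finset (ι → ℕ)) (l : ι)
    (hA : ∀ a, a ∈ A' ↔ Function.update a l (a l + 1) ∈ A) (μ : ℕ) (hμ : 1 ≤ μ)
    (ρ : κ → Role ι) (hρ : ∀ i k, ρ i = Role.stay k → k.NotAt l)
    (h0 : GI (A.filter fun a => a l = 0) fun i => Kind.free (ρ i).layer)
    (h1 : GI A' fun i => (ρ i).after l μ) :
    GI A fun i => (ρ i).before l μ := by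
  classical
  obtain ⟨pos, hL, hR, hne⟩ := GI.exists_common h0 h1
  by_contra hcon
  have hnot : ∀ t : ℂ, ∃ f : (ι → ℕ) → ℂ,
      (∀ i, Sat A f ((ρ i).before l μ) (stepPos l ρ pos t i)) ∧ ∃ a ∈ A, f a ≠ 0 := by
    intro t
    by_contra h2
    apply hcon
    refine ⟨stepPos l ρ pos t, ?_⟩
    intro f hf a ha
    by_contra h3
    exact h2 ⟨f, hf, a, ha, h3⟩
  -- the bound for the multi-indices
  obtain ⟨D, hD⟩ : ∃ D : ℕ, ∀ i, ((ρ i).before l μ).bdd ≤ D :=
    ⟨Finset.univ.sup fun i => ((ρ i).before l μ).bdd,
      fun i => Finset.le_sup (f := fun i => ((ρ i).before l μ).bdd) (mem_univ i)⟩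
  -- positions over the polynomial ring
  let P : κ → ι → Polynomial ℂ :=
    stepPos l ρ (fun i j => Polynomial.C (pos i j)) Polynomial.X
  have hP : ∀ (t : ℂ) (i : κ), (fun j => Polynomial.evalRingHom t (P i j)) = stepPos l ρ pos t i := by
    intro t i
    funext j
    simp only [P, stepPos]
    cases ρ i with
    | stay k => simp
    | here c e => simp
    | ord m =>
      simp only [Function.update_apply]
      split_ifs <;> simp
    | dif =>
      simp only [Function.update_apply]
      split_ifs <;> simp
  let Mx : κ × (ι → Fin D) → (ι → ℕ) → Polynomial ℂ := fun r a =>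
    if ((ρ r.1).before l μ).Idx (fun j => (r.2 j : ℕ)) then
      tcr (((ρ r.1).before l μ).pt (P r.1)) a (fun j => (r.2 j : ℕ)) else 0
  obtain ⟨F, hF, a0, ha0, hF0⟩ := exists_poly_solution A Mx (by
    intro t
    obtain ⟨f, hf, a, ha, hfa⟩ := hnot t
    refine ⟨f, ?_, a, ha, hfa⟩
    rintro ⟨i, b⟩
    by_cases hb : ((ρ i).before l μ).Idx (fun j => (b j : ℕ))
    · have h2 := hf i _ hb
      rw [← h2]
      apply Finset.sum_congr rfl
      intro a _
      congr 1
      simp only [Mx]
      rw [if_pos hb]
      have h3 := map_tcr (Polynomial.evalRingHom t) (((ρ i).before l μ).pt (P i)) a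
        (fun j => (b j : ℕ))
      rw [map_pt, hP] at h3
      exact h3
    · simp only [Mx, if_neg hb, Polynomial.eval_zero, mul_zero, Finset.sum_const_zero])
  have hsat : ∀ i, Sat A F ((ρ i).before l μ) (P i) := by
    intro i b hb
    have hlt : ∀ j, b j < D := fun j => lt_of_lt_of_le (hb.lt_bdd j) (hD i)
    have h2 := hF (i, fun j => ⟨b j, hlt j⟩)
    simp only [Mx] at h2
    rw [← h2]
    apply Finset.sum_congr rfl
    intro a _
    rw [if_pos hb]
  -- the layer
  have hlayer : ∀ j < μ, ∀ a ∈ A, a l = 0 → (F a).coeff j = 0 := by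
    intro j hj a ha hal
    refine hL (fun a => (F a).coeff j) ?_ a (mem_filter.mpr ⟨ha, hal⟩)
    intro i
    have h2 := hsat i
    simp only [P, stepPos] at h2
    show Sat (A.filter fun a => a l = 0) (fun a => (F a).coeff j) (Kind.free (ρ i).layer) (pos i)
    cases hi : ρ i with
    | stay k =>
      intro b hb
      exact absurd hb (Nat.not_lt_zero _)
    | here c e =>
      rw [hi] at h2
      exact sat_layer_forced A l _ c e (pos i) (sat_coeff A F _ (pos i) h2 j)
    | ord m =>
      rw [hi] at h2
      have h3 : (fun i_1 => Polynomial.C (Function.update (pos i) l 0 i_1)) =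
          Function.update (fun j => Polynomial.C (pos i j)) l 0 := by
        funext j'
        simp only [Function.update_apply]
        split_ifs
        · exact map_zero _
        · rfl
      have h4 := sat_coeff A F (Kind.free m) (Function.update (pos i) l 0)
        (by rw [h3]; exact h2) j
      have h5 := sat_layer_forced A l _ m 1 (pos i) ((sat_forced_one_iff A l _ m (pos i)).mpr h4)
      have h6 : (if 1 ≤ m then m else 0) = m := by
        split_ifs with h7
        · rfl
        · omega
      rw [h6] at h5
      exact h5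
    | dif =>
      rw [hi] at h2
      refine dif_layer A l μ F (pos i) ?_ j hj
      have h3 : movPt l (pos i) =
          Function.update (fun j => Polynomial.C (pos i j)) l Polynomial.X := by
        funext j'
        simp only [Function.update_apply, movPt]
      rw [h3]
      exact h2
  -- the residual
  have hresid : ∀ a ∈ A', (F (Function.update a l (a l + 1))).coeff 0 = 0 := by
    intro a ha
    refine hR (fun a => (F (Function.update a l (a l + 1))).coeff 0) ?_ a ha
    intro i
    have h2 := hsat i
    simp only [P, stepPos] at h2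
    show Sat A' (fun a => (F (Function.update a l (a l + 1))).coeff 0) ((ρ i).after l μ) (pos i)
    cases hi : ρ i with
    | stay k =>
      rw [hi] at h2
      exact sat_resid_of_notAt A A' l hA (fun a => (F a).coeff 0) (hlayer 0 (by omega)) k
        (hρ i k hi) (pos i) (hne i l) (sat_coeff A F k (pos i) h2 0)
    | here c e =>
      rw [hi] at h2
      exact sat_resid_forced A A' l hA (fun a => (F a).coeff 0) c e (pos i)
        (sat_coeff A F _ (pos i) h2 0)
    | ord m =>
      rw [hi] at h2
      have h3 : (fun i_1 => Polynomial.C (Function.update (pos i) l 0 i_1)) =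
          Function.update (fun j => Polynomial.C (pos i j)) l 0 := by
        funext j'
        simp only [Function.update_apply]
        split_ifs
        · exact map_zero _
        · rfl
      have h4 := sat_coeff A F (Kind.free m) (Function.update (pos i) l 0)
        (by rw [h3]; exact h2) 0
      exact sat_resid_forced A A' l hA (fun a => (F a).coeff 0) m 1 (pos i)
        ((sat_forced_one_iff A l _ m (pos i)).mpr h4)
    | dif =>
      rw [hi] at h2
      refine dif_resid A A' l hA μ F (pos i) ?_ hlayer
      have h3 : movPt l (pos i) =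
          Function.update (fun j => Polynomial.C (pos i j)) l Polynomial.X := by
        funext j'
        simp only [Function.update_apply, movPt]
      rw [h3]
      exact h2
  -- conclusion
  apply hF0
  rw [← Polynomial.coeff_zero_eq_eval_zero]
  rcases Nat.eq_zero_or_pos (a0 l) with h2 | h2
  · exact hlayer 0 (by omega) a0 ha0 h2
  · have h3 : Function.update (Function.update a0 l (a0 l - 1)) l
        (Function.update a0 l (a0 l - 1) l + 1) = a0 := by
      rw [Function.update_idem, Function.update_self, Nat.sub_add_cancel h2,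
        Function.update_eq_self]
    have h4 : Function.update a0 l (a0 l - 1) ∈ A' := by
      rw [hA, h3]
      exact ha0
    have h5 := hresid _ h4
    rw [h3] at h5
    exact h5

end Pool.Agent.H18.Ex

end
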