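import Pool.Agent.H94.LP3.M03
import Pool.Agent.H94.LP3.M05
import Pool.Agent.H94.LP3.M06

/-! The parts of this file: H18.Ex.Bridge, H18.Ex.Refl. -/

section

/-!
# Module Bridge: replacing forced simple points by free simple points
-/

namespace Pool.Agent.H18.Ex

open Finset

variable {ι : Type} [Fintype ι] [DecidableEq ι]

/-- The functional with coefficients `t`. -/
noncomputable def fnl (A : Finset (ι → ℕ)) (t : (ι → ℕ) → ℂ) : (A → ℂ) →ₗ[ℂ] ℂ :=
  ∑ a : A, (LinearMap.proj a : (A → ℂ) →ₗ[ℂ] ℂ).smulRight (t a.1)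

omit [Fintype ι] [DecidableEq ι] in
theorem fnl_apply (A : Finset (ι → ℕ)) (t : (ι → ℕ) → ℂ) (f : A → ℂ) :
    fnl A t f = ∑ a : A, f a * t a.1 := by
  unfold fnl
  simp [LinearMap.sum_apply]

/-- The space of the forms (coefficient functions on `A`) satisfying the conditions. -/
noncomputable def solSpace {κ : Type} (A : Finset (ι → ℕ)) (k : κ → Kind ι)
    (pos : κ → ι → ℂ) : Submodule ℂ (A → ℂ) :=
  ⨅ i, ⨅ b, ⨅ (_ : (k i).Idx b), LinearMap.ker (fnl A fun a => tcr ((k i).pt (pos i)) a b)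

theorem mem_solSpace {κ : Type} {A : Finset (ι → ℕ)} {k : κ → Kind ι} {pos : κ → ι → ℂ}
    {f : A → ℂ} : f ∈ solSpace A k pos ↔
      ∀ i b, (k i).Idx b → ∑ a : A, f a * tcr ((k i).pt (pos i)) a.1 b = 0 := by
  unfold solSpace
  simp only [Submodule.mem_iInf, LinearMap.mem_ker, fnl_apply]

theorem mem_solSpace_of_sat {κ : Type} {A : Finset (ι → ℕ)} {k : κ → Kind ι}
    {pos : κ → ι → ℂ} {f : (ι → ℕ) → ℂ} (h : ∀ i, Sat A f (k i) (pos i)) :
    (fun a : A => f a.1) ∈ solSpace A k pos := by
  rw [mem_solSpace]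
  intro i b hb
  have h1 := h i b hb
  rw [← Finset.sum_coe_sort] at h1
  exact h1

/-- Extension by zero. -/
noncomputable def extz (A : Finset (ι → ℕ)) (f : A → ℂ) : (ι → ℕ) → ℂ :=
  fun a => if h : a ∈ A then f ⟨a, h⟩ else 0

theorem extz_sum (A : Finset (ι → ℕ)) (f : A → ℂ) (t : (ι → ℕ) → ℂ) :
    ∑ a ∈ A, extz A f a * t a = ∑ a : A, f a * t a.1 := by
  rw [← Finset.sum_coe_sort]
  refine Finset.sum_congr rfl fun a _ => ?_
  unfold extz
  rw [dif_pos a.2]

theorem extz_eq_zero (A : Finset (ι → ℕ)) (f : A → ℂ) (h : ∀ a ∈ A, extz A f a = 0) :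
    f = 0 := by
  funext a
  have h1 := h a.1 a.2
  unfold extz at h1
  rw [dif_pos a.2] at h1
  exact h1

/-- General positions for the bridge. -/
theorem bridge_positions {κ : Type} [Fintype κ] (A A' : Finset (ι → ℕ)) (l : ι)
    (k : κ → Kind ι) (s : ℕ)
    (h1 : GI A (Sum.elim k fun _ : Fin s => Kind.free 1))
    (h2 : GI A' fun i => (k i).dn l) :
    ∃ (pos : κ → ι → ℂ) (pos' : Fin s → ι → ℂ),
      InjAt A (Sum.elim k fun _ : Fin s => Kind.free 1) (Sum.elim pos pos') ∧
      InjAt A' (fun i => (k i).dn l) pos ∧ ∀ i j, pos i j ≠ 0 := by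
  obtain ⟨G1, hG1, hG1'⟩ := h1.general
  obtain ⟨G2, hG2, hG2'⟩ := h2.general
  set φ : κ × ι → (κ ⊕ Fin s) × ι := fun x => (Sum.inl x.1, x.2) with hφ
  have hφi : Function.Injective φ := by
    rintro ⟨a, b⟩ ⟨c, d⟩ h
    simp only [hφ, Prod.mk.injEq, Sum.inl.injEq] at h
    exact Prod.ext h.1 h.2
  have h3 : G1 * MvPolynomial.rename φ G2 * ∏ x, MvPolynomial.X x ≠ 0 := by
    refine mul_ne_zero (mul_ne_zero hG1 ?_) ?_
    · intro h
      apply hG2
      apply MvPolynomial.rename_injective φ hφi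
      rw [h, map_zero]
    · exact Finset.prod_ne_zero_iff.2 fun x _ => MvPolynomial.X_ne_zero x
  obtain ⟨z, hz⟩ : ∃ z : (κ ⊕ Fin s) × ι → ℂ,
      MvPolynomial.eval z (G1 * MvPolynomial.rename φ G2 * ∏ x, MvPolynomial.X x) ≠ 0 := by
    by_contra hcon
    push Not at hcon
    apply h3
    apply MvPolynomial.funext
    intro z
    rw [hcon z, map_zero]
  rw [map_mul, map_mul, map_prod, MvPolynomial.eval_rename] at hz
  have hz1 := left_ne_zero_of_mul (left_ne_zero_of_mul hz)
  have hz2 := right_ne_zero_of_mul (left_ne_zero_of_mul hz)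
  have hz3 := right_ne_zero_of_mul hz
  refine ⟨fun i j => z (Sum.inl i, j), fun i j => z (Sum.inr i, j), ?_, ?_, ?_⟩
  · apply hG1'
    have h4 : (fun x : (κ ⊕ Fin s) × ι =>
        (Sum.elim (fun i j => z (Sum.inl i, j)) (fun i j => z (Sum.inr i, j)) :
          κ ⊕ Fin s → ι → ℂ) x.1 x.2) = z := by
      funext x
      rcases x with ⟨x | x, y⟩ <;> rfl
    rw [h4]
    exact hz1
  · apply hG2'
    exact hz2
  · intro i j
    have h5 := Finset.prod_ne_zero_iff.1 hz3 (Sum.inl i, j) (Finset.mem_univ _)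
    rwa [MvPolynomial.eval_X] at h5

/-- Bridging: `s` simple points on the hyperplane `x_l = 0` may be replaced by `s` free simple
points, provided the forms satisfying the other conditions inject into the layer.

Proof.  By openness (`GI.general`, applied to the two families restricted to `κ`; for `h1` view
the positions of `κ ⊕ Fin s` and specialise) choose positions of `κ` with nonzero coordinates such
that (1) for suitable positions of the `s` free simple points `InjAt` holds, and (2)
`InjAt A' (dn l ∘ k) pos`.  Let `V` be the space of `f : A → ℂ` satisfying the conditions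
`k i` at `pos i`.  By (1) `V` injects into `ℂ^s`, so `finrank V ≤ s`.  By (2) the restriction
`V → (A.filter (a l = 0) → ℂ)` is injective: if `f = 0` on the layer, then
`a ↦ f (a + e_l)` satisfies the conditions `dn l (k i)` (`sat_resid_of_notAt` for kinds not forced
at `l`, `sat_resid_forced` for `forced l`), so it is `0`.  Let `W` be the image of `V`,
`finrank W ≤ s`; `kill` gives the positions `q j` of the points on the hyperplane
(`forced l 1 1` at `q` is `∑_{a ∈ A, a l = 0} f a * ∏ q^a = 0`, by `layer_sum`, the `l`-th coordinate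
being irrelevant on the layer). -/
theorem bridge {κ : Type} [Fintype κ] (A A' : Finset (ι → ℕ)) (l : ι)
    (hA : ∀ a, a ∈ A' ↔ Function.update a l (a l + 1) ∈ A) (k : κ → Kind ι) (s : ℕ)
    (h1 : GI A (Sum.elim k fun _ : Fin s => Kind.free 1))
    (h2 : GI A' fun i => (k i).dn l) :
    GI A (Sum.elim k fun _ : Fin s => Kind.forced l 1 1) := by
  obtain ⟨pos, pos', hp1, hp2, hp3⟩ := bridge_positions A A' l k s h1 h2
  -- the solution space has dimension at most `s`
  set V := solSpace A k pos with hV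
  have hVs : Module.finrank ℂ V ≤ s := by
    let T : V →ₗ[ℂ] (Fin s → ℂ) :=
      (LinearMap.pi fun j => evl A (pos' j)).comp V.subtype
    have hT : Function.Injective T := by
      rw [← LinearMap.ker_eq_bot, LinearMap.ker_eq_bot']
      intro f hf
      have h3 : extz A f.1 = extz A f.1 := rfl
      apply Subtype.ext
      apply extz_eq_zero A f.1
      apply hp1
      rintro (i | j)
      · intro b hb
        change ∑ a ∈ A, extz A f.1 a * tcr ((k i).pt (pos i)) a b = 0
        rw [extz_sum A f.1 (fun a => tcr ((k i).pt (pos i)) a b)]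
        exact (mem_solSpace.1 f.2) i b hb
      · intro b hb
        have hb' : ∑ i, b i < 1 := hb
        have hb0 : b = 0 := by
          funext i
          have h4 : b i ≤ ∑ i, b i := Finset.single_le_sum (fun _ _ => Nat.zero_le _)
            (Finset.mem_univ i)
          change b i = 0
          omega
        subst hb0
        change ∑ a ∈ A, extz A f.1 a * tcr (pos' j) a 0 = 0
        rw [extz_sum A f.1 (fun a => tcr (pos' j) a 0)]
        have h5 := congrFun hf j
        rw [← evl_apply]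
        exact h5
    have h6 := LinearMap.finrank_le_finrank_of_injective hT
    rwa [Module.finrank_fin_fun] at h6
  -- restriction to the layer
  set A0 := A.filter (fun a => a l = 0) with hA0
  have hsub : ∀ a : A0, a.1 ∈ A := fun a => (Finset.mem_filter.1 a.2).1
  let r : (A → ℂ) →ₗ[ℂ] (A0 → ℂ) :=
    LinearMap.pi fun a => LinearMap.proj (⟨a.1, hsub a⟩ : A)
  obtain ⟨q, hq⟩ := kill A0 s (V.map r) ((Submodule.finrank_map_le r V).trans hVs)
  refine ⟨Sum.elim pos q, fun f hf => ?_⟩
  have hfk : ∀ i, Sat A f (k i) (pos i) := fun i => hf (Sum.inl i)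
  -- the form vanishes on the layer
  have h0 : ∀ a ∈ A, a l = 0 → f a = 0 := by
    have h7 : r (fun a : A => f a.1) = 0 := by
      apply hq
      · exact Submodule.mem_map_of_mem (mem_solSpace_of_sat hfk)
      · intro j
        have h8 := hf (Sum.inr j) 0 (by
          change ∑ i, (0 : ι → ℕ) i < 1 ∧ (0 : ι → ℕ) l + 1 ≤ 1
          constructor
          · simp
          · simp)
        change ∑ a ∈ A, f a * tcr (Function.update (q j) l 0) a 0 = 0 at h8
        rw [layer_sum A l f _ (by simp) 0 rfl] at h8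
        rw [← h8, ← hA0, ← Finset.sum_coe_sort A0]
        refine Finset.sum_congr rfl fun a _ => ?_
        have hal : a.1 l = 0 := (Finset.mem_filter.1 a.2).2
        rw [tcr_zero_right, tcr_zero_right]
        congr 1
        refine Finset.prod_congr rfl fun i _ => ?_
        by_cases hi : i = l
        · subst hi
          rw [hal, pow_zero, pow_zero]
        · rw [Function.update_of_ne hi]
    intro a ha hal
    have ha0 : a ∈ A0 := Finset.mem_filter.2 ⟨ha, hal⟩
    exact congrFun h7 ⟨a, ha0⟩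
  -- the residual vanishes
  have h9 : ∀ a ∈ A', f (Function.update a l (a l + 1)) = 0 := by
    apply hp2 (fun a => f (Function.update a l (a l + 1)))
    intro i
    have h10 := hfk i
    change Sat A' (fun a => f (Function.update a l (a l + 1))) (Kind.dn l (k i)) (pos i)
    cases hki : k i with
    | free m =>
      rw [hki] at h10
      exact sat_resid_of_notAt A A' l hA f h0 (Kind.free m) trivial (pos i) (hp3 i l) h10
    | forced l' c e =>
      rw [hki] at h10
      change Sat A' _ (if l' = l then Kind.forced l' (c - 1) e else Kind.forced l' c e) (pos i)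
      split_ifs with hl
      · subst hl
        exact sat_resid_forced A A' l' hA f c e (pos i) h10
      · exact sat_resid_of_notAt A A' l hA f h0 (Kind.forced l' c e) hl (pos i) (hp3 i l) h10
  intro a ha
  by_cases hal : a l = 0
  · exact h0 a ha hal
  · have h11 : Function.update (Function.update a l (a l - 1)) l
        ((Function.update a l (a l - 1)) l + 1) = a := by
      rw [Function.update_self, Function.update_idem]
      have h12 : a l - 1 + 1 = a l := by omega
      rw [h12, Function.update_eq_self]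
    have h13 : Function.update a l (a l - 1) ∈ A' := by
      rw [hA, h11]
      exact ha
    have h14 := h9 _ h13
    rwa [h11] at h14

end Pool.Agent.H18.Ex

end

section

/-!
# Module Refl: the toric reflection `x ↦ 1/x`
-/

namespace Pool.Agent.H18.Ex

open Finset

variable {ι : Type} [Fintype ι] [DecidableEq ι]

/-! ### Auxiliary facts -/

theorem refl_choose (β : ℕ) : ∀ a w : ℕ, a ≤ w →
    ∑ b ∈ range (β + 1), (-1 : ℂ) ^ b * (a.choose b : ℂ) * ((w - b).choose (β - b) : ℂ) =
      ((w - a).choose β : ℂ) := by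
  induction β with
  | zero => intro a w _; simp
  | succ β ihβ =>
    intro a
    induction a with
    | zero =>
      intro w _
      rw [Finset.sum_eq_single 0]
      · simp
      · intro b _ hb
        obtain ⟨c, rfl⟩ := Nat.exists_eq_succ_of_ne_zero hb
        simp
      · simp
    | succ a iha =>
      intro w hw
      obtain ⟨w, rfl⟩ : ∃ v, w = v + 1 := ⟨w - 1, by omega⟩
      have h1 := iha (w + 1) (by omega)
      have h2 := ihβ a w (by omega)
      rw [Finset.sum_range_succ'] at h1 ⊢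
      have h3 : ∀ b : ℕ, (-1 : ℂ) ^ (b + 1) * ((a + 1).choose (b + 1) : ℂ) *
          ((w + 1 - (b + 1)).choose (β + 1 - (b + 1)) : ℂ) =
          (-1 : ℂ) ^ (b + 1) * (a.choose (b + 1) : ℂ) *
          ((w + 1 - (b + 1)).choose (β + 1 - (b + 1)) : ℂ) -
          (-1 : ℂ) ^ b * (a.choose b : ℂ) * ((w - b).choose (β - b) : ℂ) := by
        intro b
        rw [Nat.choose_succ_succ, Nat.add_sub_add_right, Nat.add_sub_add_right]
        push_cast
        ring
      rw [Finset.sum_congr rfl fun b _ => h3 b, Finset.sum_sub_distrib, h2]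
      have h4 : (((w + 1 - a).choose (β + 1) : ℕ) : ℂ) =
          ((w - a).choose β : ℂ) + ((w - a).choose (β + 1) : ℂ) := by
        rw [show w + 1 - a = (w - a) + 1 by omega, Nat.choose_succ_succ]
        push_cast
        rfl
      rw [h4] at h1
      rw [show w + 1 - (a + 1) = w - a by omega]
      simp only [pow_zero, Nat.choose_zero_right, Nat.cast_one, one_mul, Nat.sub_zero] at h1 ⊢
      linear_combination h1

theorem refl_one (a w β : ℕ) (haw : a ≤ w) (q : ℂ) (hq : q ≠ 0) :
    ((w - a).choose β : ℂ) * (q⁻¹) ^ (w - a - β) =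
      ∑ b ∈ range (β + 1), ((a.choose b : ℂ) * q ^ (a - b)) *
        ((-1 : ℂ) ^ b * ((w - b).choose (β - b) : ℂ) * q ^ b * (q⁻¹) ^ (w - β)) := by
  have h1 : ∀ b ∈ range (β + 1), ((a.choose b : ℂ) * q ^ (a - b)) *
        ((-1 : ℂ) ^ b * ((w - b).choose (β - b) : ℂ) * q ^ b * (q⁻¹) ^ (w - β)) =
      ((-1 : ℂ) ^ b * (a.choose b : ℂ) * ((w - b).choose (β - b) : ℂ)) *
        (q ^ a * (q⁻¹) ^ (w - β)) := by
    intro b _
    rcases Nat.lt_or_ge a b with hb | hb
    · rw [Nat.choose_eq_zero_of_lt hb]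
      simp
    · have : q ^ a = q ^ (a - b) * q ^ b := by
        rw [← pow_add, Nat.sub_add_cancel hb]
      rw [this]
      ring
  rw [Finset.sum_congr rfl h1, ← Finset.sum_mul, refl_choose β a w haw]
  rcases Nat.lt_or_ge (w - a) β with hb | hb
  · rw [Nat.choose_eq_zero_of_lt hb]
    simp
  · have h2 : (q⁻¹) ^ (w - β) = (q⁻¹) ^ a * (q⁻¹) ^ (w - a - β) := by
      rw [← pow_add]
      congr 1
      omega
    rw [h2, ← mul_assoc (q ^ a), ← mul_pow, mul_inv_cancel₀ hq, one_pow, one_mul]

theorem refl_mem {σ : ℕ} {w : ι → ℕ} {a : ι → ℕ} (ha : a ∈ Rg σ w) :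
    (fun i => w i - a i) ∈ Rg (∑ i, w i - σ) w := by
  rw [mem_Rg] at ha ⊢
  refine ⟨fun i => Nat.sub_le _ _, ?_⟩
  rw [← ha.2]
  exact Finset.sum_tsub_distrib _ fun i _ => ha.1 i

theorem refl_mem' {σ : ℕ} {w : ι → ℕ} (hσ : σ ≤ ∑ i, w i) {a : ι → ℕ}
    (ha : a ∈ Rg (∑ i, w i - σ) w) : (fun i => w i - a i) ∈ Rg σ w := by
  have h := refl_mem ha
  rwa [Nat.sub_sub_self hσ] at h

theorem refl_refl {σ : ℕ} {w : ι → ℕ} {a : ι → ℕ} (ha : a ∈ Rg σ w) :
    (fun i => w i - (w i - a i)) = a := by
  rw [mem_Rg] at ha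
  funext i
  exact Nat.sub_sub_self (ha.1 i)

theorem refl_tcr (w a β : ι → ℕ) (haw : ∀ i, a i ≤ w i) (q : ι → ℂ) (hq : ∀ i, q i ≠ 0) :
    tcr (fun i => (q i)⁻¹) (fun i => w i - a i) β =
      ∑ b ∈ Fintype.piFinset fun i => range (β i + 1), tcr q a b *
        ∏ i, ((-1 : ℂ) ^ b i * ((w i - b i).choose (β i - b i) : ℂ) * q i ^ b i *
          ((q i)⁻¹) ^ (w i - β i)) := by
  unfold tcr
  rw [Finset.prod_congr rfl fun i _ => refl_one (a i) (w i) (β i) (haw i) (q i) (hq i),
    Finset.prod_univ_sum]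
  refine Finset.sum_congr rfl fun b _ => ?_
  rw [Finset.prod_mul_distrib]

/-- Reflection of one condition.  For `q` with nonzero coordinates and `A ⊆ {a ≤ w}`: if
`f` on `A` vanishes to order `m` at `q`, then `g a = f (w - a)` on `w - A` vanishes to order `m`
at `1/q`.

Proof.  Let `T b = ∑_{a ∈ A} f a tcr q a b` (Taylor coefficients, `T b = 0` for `|b| < m`, and
`T b = 0` unless `b ≤ w`).  Taylor's formula at the level of monomials:
`∑_{a ∈ A} f a y^(w - a) = ∑_{b ≤ w} T b y^(w - b) (1 - q y)^b` (expand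
`x^a = ∑_b tcr q a b (x - q)^b` and multiply by `y^w` with `x = 1/y`; one variable at a time:
`y^(w-a) = ∑_{b ≤ a} binom(a,b) q^(a-b) y^(w-b) (1 - q y)^b`, which is
`y^(w-a) * (1)^a = y^(w-a) * (q y + (1 - q y))^a`).  Every term with `T b ≠ 0` is divisible by
`(1 - q y)^b` with `|b| ≥ m`, and `1 - q_i y_i = - q_i (y_i - 1/q_i)`, so it vanishes to order
`m` at `1/q`.

Purely combinatorial version (recommended): for `a ≤ w` (numbers)
`binom(w - a, β) = ∑_{b ≤ β} (-1)^b binom(a, b) binom(w - b, β - b)` (induction on `a`, Pascal),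
hence with `c b β = (-1)^b binom(w - b, β - b) q^b (q⁻¹)^(w - β)` one has
`binom(w - a, β) (q⁻¹)^(w - a - β) = ∑_{b ≤ β} binom(a, b) q^(a - b) c b β`, and taking the product
over the coordinates (`Finset.prod_univ_sum`)
`tcr q⁻¹ (w - a) β = ∑_{b ≤ β} tcr q a b * ∏ i, c_i (b i) (β i)`; therefore
`∑_a f a tcr q⁻¹ (w - a) β = ∑_{b ≤ β} T b * ∏ i, c_i (b i) (β i) = 0` for `|β| < m`. -/
theorem sat_reflect (σ : ℕ) (w : ι → ℕ) (hσ : σ ≤ ∑ i, w i) (f : (ι → ℕ) → ℂ) (m : ℕ)
    (q : ι → ℂ) (hq : ∀ i, q i ≠ 0) (h : Sat (Rg σ w) f (Kind.free m) q) :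
    Sat (Rg (∑ i, w i - σ) w) (fun a => f (fun i => w i - a i)) (Kind.free m)
      (fun i => (q i)⁻¹) := by
  intro β hβ
  have hβ' : ∑ i, β i < m := hβ
  have h' : ∀ b : ι → ℕ, ∑ i, b i < m → ∑ a ∈ Rg σ w, f a * tcr q a b = 0 := h
  change ∑ a ∈ Rg (∑ i, w i - σ) w, f (fun i => w i - a i) * tcr (fun i => (q i)⁻¹) a β = 0
  have h1 : ∑ a ∈ Rg (∑ i, w i - σ) w, f (fun i => w i - a i) * tcr (fun i => (q i)⁻¹) a β =
      ∑ a ∈ Rg σ w, f a * tcr (fun i => (q i)⁻¹) (fun i => w i - a i) β := by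
    refine Finset.sum_nbij' (fun a i => w i - a i) (fun a i => w i - a i)
      (fun a ha => refl_mem' hσ ha) (fun a ha => refl_mem ha) (fun a ha => refl_refl ha)
      (fun a ha => refl_refl ha) fun a ha => ?_
    have h2 := refl_refl ha
    simp only
    rw [h2]
  rw [h1]
  have h3 : ∀ a ∈ Rg σ w, f a * tcr (fun i => (q i)⁻¹) (fun i => w i - a i) β =
      ∑ b ∈ Fintype.piFinset fun i => range (β i + 1), (f a * tcr q a b) *
        ∏ i, ((-1 : ℂ) ^ b i * ((w i - b i).choose (β i - b i) : ℂ) * q i ^ b i *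
          ((q i)⁻¹) ^ (w i - β i)) := by
    intro a ha
    rw [refl_tcr w a β (mem_Rg.1 ha).1 q hq, Finset.mul_sum]
    exact Finset.sum_congr rfl fun b _ => by rw [mul_assoc]
  rw [Finset.sum_congr rfl h3, Finset.sum_comm]
  refine Finset.sum_eq_zero fun b hb => ?_
  rw [← Finset.sum_mul, h' b, zero_mul]
  rw [Fintype.mem_piFinset] at hb
  refine lt_of_le_of_lt (Finset.sum_le_sum fun i _ => ?_) hβ'
  exact Nat.lt_succ_iff.1 (Finset.mem_range.1 (hb i))

/-- Reflection of the region (take general positions with nonzero coordinates by `GI.general`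
or `GI.exists_common` and invert them). -/
theorem GM.reflect (σ : ℕ) (w : ι → ℕ) (hσ : σ ≤ ∑ i, w i) (G : Multiset ℕ)
    (h : GM (Rg (∑ i, w i - σ) w) (G.map Kind.free)) : GM (Rg σ w) (G.map Kind.free) := by
  obtain ⟨n, k, hk, hGI⟩ := h
  obtain ⟨pos, hpos, -, hne⟩ := GI.exists_common hGI hGI
  refine ⟨n, k, hk, fun i j => (pos i j)⁻¹, ?_⟩
  intro f hf a ha
  have hkf : ∀ i, ∃ m, k i = Kind.free m := by
    intro i
    have h1 : k i ∈ (univ : Finset (Fin n)).val.map k :=
      Multiset.mem_map.2 ⟨i, Finset.mem_univ_val i, rfl⟩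
    rw [hk, Multiset.mem_map] at h1
    obtain ⟨m, -, hm⟩ := h1
    exact ⟨m, hm.symm⟩
  have h2 : ∀ i, Sat (Rg (∑ i, w i - σ) w) (fun a => f (fun i => w i - a i)) (k i) (pos i) := by
    intro i
    obtain ⟨m, hm⟩ := hkf i
    have h3 := hf i
    rw [hm] at h3 ⊢
    have h4 := sat_reflect σ w hσ f m (fun j => (pos i j)⁻¹) (fun j => inv_ne_zero (hne i j)) h3
    simpa only [inv_inv] using h4
  have h5 := hpos _ h2 _ (refl_mem ha)
  simp only [refl_refl ha] at h5
  exact h5

/-- The reflected region has the same number of points. -/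
theorem card_reflect (σ : ℕ) (w : ι → ℕ) (hσ : σ ≤ ∑ i, w i) :
    (Rg (∑ i, w i - σ) w).card = (Rg σ w).card :=
  Finset.card_nbij' (fun a i => w i - a i) (fun a i => w i - a i)
    (fun _ ha => refl_mem' hσ ha) (fun _ ha => refl_mem ha) (fun _ ha => refl_refl ha)
    (fun _ ha => refl_refl ha)

end Pool.Agent.H18.Ex

end
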