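import Pool.Agent.H94.LP3.M04
import Pool.Agent.H94.LP3.M07
import Pool.Agent.H94.LP3.M08
import Pool.Agent.H94.LP3.M09

/-! The parts of this file: H18.Ex.Multi, H18.Pr.Defs, H18.Ua.UDefs, H18.Ua.UNumb. -/

section

/-!
# Module Multi: the geometric lemmas for multisets of conditions

Useful: `Fin.univ_val_map`, `List.ofFn_get`, `Equiv.ofFiberEquiv`, `Multiset.count_map`,
`Multiset.map_univ_val_equiv`.
-/

namespace Pool.Agent.H18.Ex

open Finset

variable {ι : Type} [Fintype ι] [DecidableEq ι]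

/-- Two families with the same multiset of values differ by a bijection of the index types
(`Equiv.ofFiberEquiv`, the fibres have the same cardinality by `Multiset.count_map`). -/
theorem exists_equiv_of_map_eq {κ κ' X : Type} [Fintype κ] [Fintype κ'] (k : κ → X) (k' : κ' → X)
    (h : (univ : Finset κ).val.map k = (univ : Finset κ').val.map k') :
    ∃ e : κ ≃ κ', ∀ i, k i = k' (e i) := by
  classical
  have hc : ∀ x : X, Nonempty ({a // k a = x} ≃ {b // k' b = x}) := by
    intro x
    rw [← Fintype.card_eq, Fintype.card_subtype, Fintype.card_subtype]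
    have h1 := congrArg (Multiset.count x) h
    rw [Multiset.count_map, Multiset.count_map] at h1
    rw [Finset.card_def, Finset.card_def, Finset.filter_val, Finset.filter_val]
    simpa only [eq_comm] using h1
  refine ⟨Equiv.ofFiberEquiv fun x => (hc x).some, fun i => ?_⟩
  exact (Equiv.ofFiberEquiv_map (fun x => (hc x).some) i).symm

theorem GI.of_comp {κ κ' : Type} {A : Finset (ι → ℕ)} {k' : κ' → Kind ι} (e : κ → κ')
    (he : Function.Injective e) (h : GI A fun i => k' (e i)) : GI A k' := by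
  classical
  obtain ⟨pos, hpos⟩ := h
  refine ⟨fun j => if hj : ∃ i, e i = j then pos hj.choose else fun _ => 0, fun f hf => ?_⟩
  refine hpos f fun i => ?_
  have h1 := hf (e i)
  have h2 : ∃ i', e i' = e i := ⟨i, rfl⟩
  have h3 : h2.choose = i := he h2.choose_spec
  have h4 : (fun j => if hj : ∃ i, e i = j then pos hj.choose else fun _ => 0) (e i) = pos i := by
    show (if hj : ∃ i', e i' = e i then pos hj.choose else fun _ => 0) = pos i
    rw [dif_pos h2, h3]
  rw [h4] at h1
  exact h1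

/-- `GM` does not depend on the presentation of the multiset. -/
theorem GM_iff {κ : Type} [Fintype κ] (A : Finset (ι → ℕ)) (k : κ → Kind ι) :
    GM A ((univ : Finset κ).val.map k) ↔ GI A k := by
  constructor
  · rintro ⟨n, k0, hk0, hG⟩
    obtain ⟨e, he⟩ := exists_equiv_of_map_eq k0 k hk0
    refine GI.of_comp e e.injective ?_
    have : (fun i => k (e i)) = k0 := funext fun i => (he i).symm
    rw [this]
    exact hG
  · intro hG
    refine ⟨Fintype.card κ, fun i => k ((Fintype.equivFin κ).symm i), ?_, ?_⟩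
    · have h1 := Multiset.map_univ_val_equiv (Fintype.equivFin κ).symm
      rw [← h1, Multiset.map_map]
      rfl
    · refine GI.of_comp (Fintype.equivFin κ) (Fintype.equivFin κ).injective ?_
      simpa using hG

theorem multi_exists_fin {X : Type} (T : Multiset X) :
    ∃ (m : ℕ) (t : Fin m → X), (univ : Finset (Fin m)).val.map t = T := by
  induction T using Quotient.inductionOn with
  | h L =>
    refine ⟨L.length, L.get, ?_⟩
    rw [Fin.univ_val_map, List.ofFn_get]
    rfl

theorem multi_map_sum {κ κ' X : Type} [Fintype κ] [Fintype κ'] (k : κ → X) (k' : κ' → X) :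
    (univ : Finset (κ ⊕ κ')).val.map (Sum.elim k k')
      = (univ : Finset κ).val.map k + (univ : Finset κ').val.map k' := by
  rw [← Finset.univ_disjSum_univ, Finset.val_disjSum, Multiset.disjSum, Multiset.map_add,
    Multiset.map_map, Multiset.map_map]
  rfl

theorem GM.mono {A : Finset (ι → ℕ)} {S S' : Multiset (Kind ι)} (h : S ≤ S') (hS : GM A S) :
    GM A S' := by
  obtain ⟨T, rfl⟩ := Multiset.le_iff_exists_add.1 h
  obtain ⟨n, k, rfl, hG⟩ := hS
  obtain ⟨m, t, rfl⟩ := multi_exists_fin T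
  rw [← multi_map_sum, GM_iff]
  exact GI.of_comp Sum.inl Sum.inl_injective hG

theorem GM.of_card (A : Finset (ι → ℕ)) (T : Multiset ℕ) (S : Multiset (Kind ι))
    (hT : ∀ m ∈ T, 1 ≤ m) (h : A.card ≤ T.card) : GM A (T.map Kind.free + S) := by
  refine GM.mono (Multiset.le_add_right _ _) ?_
  obtain ⟨m, t, rfl⟩ := multi_exists_fin T
  rw [Multiset.map_map, GM_iff]
  rw [Multiset.card_map, Finset.card_val, Finset.card_univ, Fintype.card_fin] at h
  refine GI.of_card A _ (Fin.castLEEmb h) fun j => ⟨t (Fin.castLEEmb h j), hT _ ?_, rfl⟩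
  exact Multiset.mem_map.2 ⟨_, (by rw [Finset.mem_val]; exact Finset.mem_univ _), rfl⟩

theorem GM.step (A A' : Finset (ι → ℕ)) (l : ι)
    (hA : ∀ a, a ∈ A' ↔ Function.update a l (a l + 1) ∈ A) (μ : ℕ) (hμ : 1 ≤ μ)
    (S : Multiset (Role ι)) (hS : ∀ k, Role.stay k ∈ S → k.NotAt l)
    (h0 : GM (A.filter fun a => a l = 0) (S.map fun r => Kind.free r.layer))
    (h1 : GM A' (S.map (Role.after l μ))) : GM A (S.map (Role.before l μ)) := by
  obtain ⟨m, ρ, rfl⟩ := multi_exists_fin S
  rw [Multiset.map_map, GM_iff] at h0 h1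
  rw [Multiset.map_map, GM_iff]
  refine Pool.Agent.H18.Ex.step A A' l hA μ hμ ρ (fun i k hik => ?_) h0 h1
  exact hS k (Multiset.mem_map.2 ⟨i, (by rw [Finset.mem_val]; exact Finset.mem_univ _), hik⟩)

theorem GM.bridge (A A' : Finset (ι → ℕ)) (l : ι)
    (hA : ∀ a, a ∈ A' ↔ Function.update a l (a l + 1) ∈ A) (S : Multiset (Kind ι)) (s : ℕ)
    (h1 : GM A (S + Multiset.replicate s (Kind.free 1)))
    (h2 : GM A' (S.map (Kind.dn l))) :
    GM A (S + Multiset.replicate s (Kind.forced l 1 1)) := by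
  obtain ⟨m, k, rfl⟩ := multi_exists_fin S
  have hr : ∀ x : Kind ι, Multiset.replicate s x
      = (univ : Finset (Fin s)).val.map (fun _ => x) := by
    intro x
    rw [Multiset.map_const', Finset.card_val, Finset.card_univ, Fintype.card_fin]
  rw [hr, ← multi_map_sum, GM_iff] at h1
  rw [hr, ← multi_map_sum, GM_iff]
  rw [Multiset.map_map, GM_iff] at h2
  exact Pool.Agent.H18.Ex.bridge A A' l hA k s h1 h2

end Pool.Agent.H18.Ex

end

section

/-!
# Project PR: many large multiplicities in `ℙ^(R+1)`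

Affine coordinates `x_0, …, x_R`.  The big points lie on the curve `x_{i+1} = x_i ^ e`.  For
`v ≤ u ≤ R` we consider polynomials in `x_v, …, x_u`, the restrictions of the polynomials of degree at
most `d` to the flat `x_{i+1} = x_i ^ e` (`u ≤ i < R`), `x_{v-1} = const`.  They are spanned by the
monomials of cost at most `d`.  In the coordinates `z_v = x_v - p`, `z_i = x_i - x_{i-1}^e`
(`v < i ≤ u`) the curve is given by `z_i = 0` for `i > v`.
-/

namespace Pool.Agent.H18.Pr

open Finset Pool.Agent.H18.Ex Pool.Agent.H18.Cub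

/-- The sum of the `A` lowest digits of `a` in base `e` and of the remaining quotient. -/
def kap (e : ℕ) : ℕ → ℕ → ℕ
  | 0, a => a
  | A + 1, a => a % e + kap e A (a / e)

/-- The number of monomials of cost at most `d` (dimension `n`, `A` equations). -/
def tau (e : ℕ) : ℕ → ℕ → ℕ → ℕ
  | 0, n, d => (d + n).choose n
  | A + 1, n, d => ∑ δ ∈ range e, if δ ≤ d then tau e A n (d - δ) else 0

section

variable {R : ℕ}

/-- The cost of the monomial `x^α`; `u` is the last variable. -/
def cost (e : ℕ) (u : Fin (R + 1)) (α : Fin (R + 1) → ℕ) : ℕ :=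
  ∑ i, if i = u then kap e (R - u.val) (α i) else α i

/-- The variable before `i`. -/
def prv (i : Fin (R + 1)) : Fin (R + 1) := ⟨i.val - 1, by omega⟩

/-- `z_v ↦ x_v - p` and `z_i ↦ x_i - x_{i-1}^e` for `v < i ≤ u`. -/
noncomputable def Th (e : ℕ) (v u : Fin (R + 1)) (p : ℂ) :
    MvPolynomial (Fin (R + 1)) ℂ →ₐ[ℂ] MvPolynomial (Fin (R + 1)) ℂ :=
  MvPolynomial.aeval fun i =>
    if i = v then MvPolynomial.X i - MvPolynomial.C p
    else if v < i ∧ i ≤ u then MvPolynomial.X i - MvPolynomial.X (prv i) ^ e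
    else MvPolynomial.X i

/-- The point with `z_v = x`, the other coordinates being `0`. -/
def ptv (v : Fin (R + 1)) (x : ℂ) : Fin (R + 1) → ℂ := fun i => if i = v then x else 0

/-- The polynomials in `z_v, …, z_u` of cost at most `d` (in the coordinates `x`), vanishing to
order `m b` at the points `z = (x b, 0, …, 0)`. -/
noncomputable def WW (e : ℕ) (v u : Fin (R + 1)) (p : ℂ) (d : ℕ) {B : Type} (x : B → ℂ)
    (m : B → ℕ) : Submodule ℂ (MvPolynomial (Fin (R + 1)) ℂ) where
  carrier := {F | (∀ i, i < v ∨ u < i → F.degreeOf i = 0) ∧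
    (∀ α ∈ (Th e v u p F).support, cost e u α ≤ d) ∧
    ∀ b, ∀ β : Fin (R + 1) → ℕ, ∑ i, β i < m b → tay F (ptv v (x b)) β = 0}
  add_mem' := by
    rintro F G ⟨h1, h2, h3⟩ ⟨h4, h5, h6⟩
    refine ⟨fun i hi => ?_, fun α hα => ?_, fun b β hβ => ?_⟩
    · have := MvPolynomial.degreeOf_add_le i F G
      rw [h1 i hi, h4 i hi, max_self] at this
      omega
    · rw [map_add] at hα
      rcases mem_union.1 (MvPolynomial.support_add hα) with h | h
      · exact h2 α h
      · exact h5 α h
    · rw [tay_add, h3 b β hβ, h6 b β hβ, add_zero]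
  zero_mem' := by
    refine ⟨fun i _ => MvPolynomial.degreeOf_zero i, fun α hα => ?_, fun b β _ => tay_zero _ _⟩
    rw [map_zero, MvPolynomial.support_zero] at hα
    exact absurd hα (notMem_empty _)
  smul_mem' := by
    rintro c F ⟨h1, h2, h3⟩
    refine ⟨fun i hi => ?_, fun α hα => ?_, fun b β hβ => ?_⟩
    · rw [MvPolynomial.smul_eq_C_mul]
      have := MvPolynomial.degreeOf_C_mul_le F i c
      rw [h1 i hi] at this
      omega
    · rw [map_smul] at hα
      exact h2 α (MvPolynomial.support_smul hα)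
    · rw [tay_smul, h3 b β hβ, mul_zero]

theorem mem_WW {e : ℕ} {v u : Fin (R + 1)} {p : ℂ} {d : ℕ} {B : Type} {x : B → ℂ} {m : B → ℕ}
    {F : MvPolynomial (Fin (R + 1)) ℂ} : F ∈ WW e v u p d x m ↔
      (∀ i, i < v ∨ u < i → F.degreeOf i = 0) ∧
      (∀ α ∈ (Th e v u p F).support, cost e u α ≤ d) ∧
      ∀ b, ∀ β : Fin (R + 1) → ℕ, ∑ i, β i < m b → tay F (ptv v (x b)) β = 0 := Iff.rfl

end

/-- At some positions only the zero element of `W` vanishes at the points with multiplicities
`S`. -/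
def Fk {ι : Type} [Fintype ι] (W : Submodule ℂ (MvPolynomial ι ℂ)) (S : Multiset ℕ) : Prop :=
  ∃ (k : ℕ) (s : Fin k → ℕ), (univ : Finset (Fin k)).val.map s = S ∧ ∃ pos : Fin k → ι → ℂ,
    ∀ F ∈ W, (∀ i, ∀ β : ι → ℕ, ∑ j, β j < s i → tay F (pos i) β = 0) → F = 0

/-! ### The main family -/

section

variable {R t s : ℕ}

/-- The space of a state of the main family, top variable `u`. -/
noncomputable def WM (u : Fin (R + 1)) (n : Fin t ⊕ Fin s → ℕ) (a : Option (Fin t) → ℕ) :
    Submodule ℂ (MvPolynomial (Fin (R + 1)) ℂ) :=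
  WW (t + 1) 0 u 0 (dd a) (fun b : Fin t ⊕ Fin s => ((xx b : ℕ) : ℂ)) (mu n a)

/-- The sizes of the traces (dimension `j`). -/
def FM (R j : ℕ) (n : Fin t ⊕ Fin s → ℕ) : Option (Fin t) → (Option (Fin t) → ℕ) → ℕ
  | none, a => tau (t + 1) (R + 1 - j) j (dd a) - ∑ b, ell j (mu n a b)
  | some l, a => tau (t + 1) (R - j) j (dd a) - ell j (mu n a (.inl l))

/-- The virtual dimension (dimension `j + 1`). -/
def RM (R j : ℕ) (n : Fin t ⊕ Fin s → ℕ) (a : Option (Fin t) → ℕ) : ℤ :=
  (tau (t + 1) (R - j) (j + 1) (dd a) : ℤ) - ∑ b, (ell (j + 1) (mu n a b) : ℤ)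

/-- The hyperplanes of the main family: `z_u = 0` and `x_0 = l + 1`. -/
noncomputable def gM (t : ℕ) (u : Fin (R + 1)) : Lines (Option (Fin t)) (Fin (R + 1)) where
  co := fun
    | none => u
    | some _ => 0
  va := fun
    | none => 0
    | some l => ((l.val + 1 : ℕ) : ℂ)

/-- The margins of a state. -/
structure Mg (R D : ℕ) (n : Fin t ⊕ Fin s → ℕ) (N : Option (Fin t) → ℕ) : Prop where
  slack : R * t - 2 ≤ ∑ l, N (some l)
  curve : ∑ b, mu n N b + D ≤ (t + 1) ^ R * dd N
  line : ∀ l, mu n N (.inl l) + D ≤ dd N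
  deg : D ≤ dd N

/-- Exactness for the main family. -/
def ExM (t s : ℕ) (u : Fin (R + 1)) (M D : ℕ) : Prop :=
  ∀ (n : Fin t ⊕ Fin s → ℕ) (N : Option (Fin t) → ℕ), Mg R D n N → ∀ S : Multiset ℕ,
    (∀ μ ∈ S, μ ≤ M) →
    tau (t + 1) (R - u.val) (u.val + 1) (dd N) ≤
      ∑ b, ell (u.val + 1) (mu n N b) + (S.map (ell (u.val + 1))).sum →
    Fk (WM u n N) S

/-- The hyperplane `z_v = 0`. -/
noncomputable def gV (v : Fin (R + 1)) : Lines Unit (Fin (R + 1)) where
  co := fun _ => v
  va := fun _ => 0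

/-- Exactness for one big point. -/
def ExV (e : ℕ) (v u : Fin (R + 1)) (M D : ℕ) : Prop :=
  ∀ q : ℕ, 0 < q → ∀ d m : ℕ, m + D ≤ d → ∀ S : Multiset ℕ, (∀ μ ∈ S, μ ≤ M) →
    tau e (R - u.val) (u.val - v.val + 1) d ≤
      ell (u.val - v.val + 1) m + (S.map (ell (u.val - v.val + 1))).sum →
    Fk (WW e v u (q : ℂ) d (fun _ : Unit => (0 : ℂ)) fun _ => m) S

end

/-- Polynomially bounded functions. -/
def PolyB (f : ℕ → ℕ) : Prop := ∃ K E : ℕ, ∀ M, 1 ≤ M → f M ≤ K * M ^ E

end Pool.Agent.H18.Pr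

end

section

/-!
# Project UA: small multiplicities and a given scheme

`Fam n` is a family of spaces `W δ` of polynomials of degree at most `δ` in `x_0, …, x_n`, behaving
like the polynomials of degree at most `δ` that vanish on a closed subscheme.  We show: if the numbers
`h δ - h (δ - 1)` (`h δ = dim W δ`) vary slowly below `d` and the traces on hyperplanes are exact then
general points of multiplicities at most `M` impose maximal conditions on `W d`.
-/

namespace Pool.Agent.H18.Ua

open Finset Pool.Agent.H18.Ex Pool.Agent.H18.Cub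

/-- A family of spaces of polynomials behaving like the pieces of a saturated ideal. -/
structure Fam (n : ℕ) : Type where
  /-- the spaces -/
  W : ℕ → Submodule ℂ (MvPolynomial (Fin (n + 1)) ℂ)
  deg : ∀ δ, ∀ F ∈ W δ, F.totalDegree ≤ δ
  mul : ∀ δ j, ∀ F ∈ W δ, ∀ Q : MvPolynomial (Fin (n + 1)) ℂ, Q.totalDegree ≤ j →
    Q * F ∈ W (δ + j)
  /-- the values `v` for which the hyperplane `x_0 = v` is excluded -/
  bad : Finset ℂ
  res : ∀ δ, ∀ v, v ∉ bad → ∀ F, (MvPolynomial.X 0 - MvPolynomial.C v) * F ∈ W (δ + 1) → F ∈ W δ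

variable {n : ℕ}

/-- The dimensions. -/
noncomputable def Fam.h (A : Fam n) (δ : ℕ) : ℕ := Module.finrank ℂ (A.W δ)

/-- The hyperplanes `x_0 = v l`. -/
def gU (n : ℕ) {q : ℕ} (v : Fin q → ℂ) : Lines (Fin q) (Fin (n + 1)) where
  co := fun _ => 0
  va := v

/-- The elements of `W` satisfying the conditions `k` at the positions `pos`. -/
noncomputable def kerP {ι Λ κ : Type} [Fintype ι] [DecidableEq ι] (g : Lines Λ ι)
    (W : Submodule ℂ (MvPolynomial ι ℂ)) (k : κ → Kind Λ) (pos : κ → ι → ℂ) :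
    Submodule ℂ (MvPolynomial ι ℂ) where
  carrier := {F | F ∈ W ∧ ∀ i, SatP g F (k i) (pos i)}
  add_mem' := by
    rintro F G ⟨h1, h2⟩ ⟨h3, h4⟩
    refine ⟨W.add_mem h1 h3, fun i b hb => ?_⟩
    rw [tay_add, h2 i b hb, h4 i b hb, add_zero]
  zero_mem' := ⟨W.zero_mem, fun _ _ _ => tay_zero _ _⟩
  smul_mem' := by
    rintro c F ⟨h1, h2⟩
    refine ⟨W.smul_mem c h1, fun i b hb => ?_⟩
    rw [tay_smul, h2 i b hb, mul_zero]

theorem mem_kerP {ι Λ κ : Type} [Fintype ι] [DecidableEq ι] {g : Lines Λ ι}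
    {W : Submodule ℂ (MvPolynomial ι ℂ)} {k : κ → Kind Λ} {pos : κ → ι → ℂ}
    {F : MvPolynomial ι ℂ} : F ∈ kerP g W k pos ↔ F ∈ W ∧ ∀ i, SatP g F (k i) (pos i) := Iff.rfl

theorem kerP_le {ι Λ κ : Type} [Fintype ι] [DecidableEq ι] {g : Lines Λ ι}
    {W : Submodule ℂ (MvPolynomial ι ℂ)} {k : κ → Kind Λ} {pos : κ → ι → ℂ} :
    kerP g W k pos ≤ W := fun _ hF => hF.1

/-! ### Numbers -/

/-- The number of hyperplanes. -/
def qU (n M : ℕ) : ℕ := 2 * M ^ 2 * ell (n + 1) M + 4 * M * ell n M

/-- The number of degrees that are used. -/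
def CU (n M : ℕ) : ℕ := 11 * M * qU n M

/-- The required size of the traces. -/
def TU (n M : ℕ) : ℕ := 8 * M * (M + 1) * ell n M ^ 2

/-- The number of points put on each hyperplane. -/
def yU (n M t : ℕ) : ℕ := t / (2 * ell n M)

section

variable {Λ : Type} [Fintype Λ] [DecidableEq Λ]

/-- The states that are used: at most `2 M + 1` steps in each direction. -/
def RegU (M : ℕ) (N a : Λ → ℕ) : Prop := ∀ i, a i ≤ N i ∧ N i ≤ a i + (2 * M + 1)

/-- One step down in the directions of `T`. -/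
def dnT (T : Finset Λ) (a : Λ → ℕ) : Λ → ℕ := fun l => if l ∈ T then a l - 1 else a l

/-- The configuration of the branch `T` (`T ⊆ P`): in the directions of `P`, `y` of the forced simple
points are removed; in the directions of `P \ T` they become free simple points; in the directions of
`T` the other forced conditions go one step down. -/
def brT (c : Cfg Λ) (y : ℕ) (P T : Finset Λ) : Cfg Λ where
  N := c.N
  s := c.s + y * (P \ T).card
  Φ := fun l => if l ∈ T then shf (c.Φ l - Multiset.replicate y (1, 1))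
    else if l ∈ P then c.Φ l - Multiset.replicate y (1, 1) else c.Φ l

end

end Pool.Agent.H18.Ua

end

section

/-!
# Module UNumb (UA): numerical consequences
-/

namespace Pool.Agent.H18.Ua

open Finset Pool.Agent.H18.Ex Pool.Agent.H18.Cub

variable {n M t : ℕ}

theorem yU_mul_le (n M t : ℕ) : 2 * (yU n M t * ell n M) ≤ t := by
  unfold yU
  calc 2 * (t / (2 * ell n M) * ell n M) = t / (2 * ell n M) * (2 * ell n M) := by ring
    _ ≤ t := Nat.div_mul_le_self _ _

end Pool.Agent.H18.Ua

end
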