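import Pool.Agent.H94.LP3.M06

/-! The parts of this file: H18.Cub.Sys, H18.Ex.Peel, H18.Ex.Run. -/

section

/-!
# Abstract Horace systems

`Λ` is the finite set of directions.  The spaces are indexed by states `a : Λ → ℕ`; peeling in
direction `l` replaces `a` by `dn l a`.  `F l a` is the size of the trace, `R a` the (virtual)
dimension, `K a S` says that the conditions `S` kill the space of `a` at general positions.
-/

namespace Pool.Agent.H18.Cub

open Finset Pool.Agent.H18.Ex

/-- One peel in direction `l`. -/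
def dn {Λ : Type} [DecidableEq Λ] (l : Λ) (a : Λ → ℕ) : Λ → ℕ := Function.update a l (a l - 1)

/-- An abstract Horace system (in the plane). -/
structure Sys (Λ : Type) [Fintype Λ] [DecidableEq Λ] : Type where
  /-- the conditions `S` kill the space of the state `a` -/
  K : (Λ → ℕ) → Multiset (Kind Λ) → Prop
  /-- the size of the trace -/
  F : Λ → (Λ → ℕ) → ℕ
  /-- the virtual dimension -/
  R : (Λ → ℕ) → ℤ
  mono : ∀ a S S', S ≤ S' → K a S → K a S'
  free_mono : ∀ a (T : Multiset ℕ) (S : Multiset (Kind Λ)), (∀ m ∈ T, 1 ≤ m) →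
    K a (Multiset.replicate T.card (Kind.free 1) + S) → K a (T.map Kind.free + S)
  count : ∀ a l, 1 ≤ a l → 1 ≤ F l a → R a = R (dn l a) + F l a
  step : ∀ a l, 1 ≤ a l → ∀ μ, 1 ≤ μ → ∀ S : Multiset (Role Λ),
    (∀ k, Role.stay k ∈ S → k.NotAt l) → F l a ≤ (S.map fun r => ell 1 r.layer).sum →
    K (dn l a) (S.map (Role.after l μ)) → K a (S.map (Role.before l μ))
  bridge : ∀ a l, 1 ≤ a l → ∀ (S : Multiset (Kind Λ)) (s : ℕ),
    K a (S + Multiset.replicate s (Kind.free 1)) → K (dn l a) (S.map (Kind.dn l)) →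
    K a (S + Multiset.replicate s (Kind.forced l 1 1))
  base : K 0 {Kind.free 1}
  base_R : R 0 = 1

end Pool.Agent.H18.Cub

end

section

/-!
# Module Peel: one Horace step for configurations

The region `A` has dimension `n + 1`, its layer `A₀ = A ∩ {a l = 0}` dimension `n` and `f`
exponents.
-/

namespace Pool.Agent.H18.Ex

open Finset

/-- A maximal submultiset with bounded weight. -/
theorem exists_maximal_fill (N I₀ : Multiset ℕ) (g : ℕ → ℕ) (a : ℕ) (hI₀ : I₀ ≤ N)
    (h : (I₀.map g).sum ≤ a) :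
    ∃ I, I₀ ≤ I ∧ I ≤ N ∧ (I.map g).sum ≤ a ∧ ∀ m ∈ N - I, a < (I.map g).sum + g m := by
  induction hk : (N - I₀).card using Nat.strong_induction_on generalizing I₀ with
  | _ k ih =>
    by_cases hm : ∃ m ∈ N - I₀, (I₀.map g).sum + g m ≤ a
    · obtain ⟨m, hmem, hle⟩ := hm
      have h1 : m ::ₘ I₀ ≤ N := by
        have h2 : ({m} : Multiset ℕ) ≤ N - I₀ := Multiset.singleton_le.2 hmem
        calc m ::ₘ I₀ = {m} + I₀ := (Multiset.singleton_add m I₀).symm
          _ ≤ (N - I₀) + I₀ := add_le_add_left h2 I₀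
          _ = N := tsub_add_cancel_of_le hI₀
      have h3 : ((m ::ₘ I₀).map g).sum ≤ a := by
        rw [Multiset.map_cons, Multiset.sum_cons]
        omega
      have h4 : (N - (m ::ₘ I₀)).card < k := by
        rw [← hk, Multiset.card_sub h1, Multiset.card_sub hI₀, Multiset.card_cons]
        have h5 := Multiset.card_le_card h1
        rw [Multiset.card_cons] at h5
        omega
      obtain ⟨I, hI1, hI2, hI3, hI4⟩ := ih _ h4 (m ::ₘ I₀) h1 h3 rfl
      exact ⟨I, le_trans (Multiset.le_cons_self I₀ m) hI1, hI2, hI3, hI4⟩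
    · push Not at hm
      exact ⟨I₀, le_rfl, hI₀, h, hm⟩

/-- Pigeonhole: a multiset of at least `M * r` numbers in `[1, M]` contains some number at
least `r` times. -/
theorem exists_replicate_le (N : Multiset ℕ) (M r : ℕ) (hN : ∀ m ∈ N, 1 ≤ m ∧ m ≤ M)
    (h : M * r ≤ N.card) (hM : 1 ≤ M) (hr : 1 ≤ r) : ∃ μ ∈ N, Multiset.replicate r μ ≤ N := by
  by_contra hcon
  push Not at hcon
  have h1 : ∀ μ ∈ N.toFinset, N.count μ ≤ r - 1 := by
    intro μ hμ
    have h2 := hcon μ (Multiset.mem_toFinset.1 hμ)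
    rw [← Multiset.le_count_iff_replicate_le] at h2
    omega
  have h3 : N.card ≤ N.toFinset.card * (r - 1) := by
    rw [← Multiset.toFinset_sum_count_eq N]
    refine le_trans (Finset.sum_le_card_nsmul _ _ _ h1) ?_
    rw [smul_eq_mul]
  have h4 : N.toFinset ⊆ Finset.Icc 1 M := by
    intro μ hμ
    exact Finset.mem_Icc.2 (hN μ (Multiset.mem_toFinset.1 hμ))
  have h5 : N.toFinset.card ≤ M := by
    have := Finset.card_le_card h4
    rw [Nat.card_Icc] at this
    omega
  have h6 : N.toFinset.card * (r - 1) ≤ M * (r - 1) := Nat.mul_le_mul_right _ h5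
  have h7 : M * (r - 1) < M * r := Nat.mul_lt_mul_of_pos_left (by omega) (by omega)
  omega

section PeelAux

/-- The traces of a multiset of forced conditions. -/
def trS (n : ℕ) (S : Multiset (ℕ × ℕ)) : ℕ := (S.map fun x => ell n x.1).sum

/-- The lengths of a multiset of forced conditions. -/
def flS (n : ℕ) (S : Multiset (ℕ × ℕ)) : ℕ := (S.map fun x => ell (n + 1) x.1 + 1 - x.2).sum

theorem trS_add (n : ℕ) (S T : Multiset (ℕ × ℕ)) : trS n (S + T) = trS n S + trS n T := by
  unfold trS
  rw [Multiset.map_add, Multiset.sum_add]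

theorem flS_add (n : ℕ) (S T : Multiset (ℕ × ℕ)) : flS n (S + T) = flS n S + flS n T := by
  unfold flS
  rw [Multiset.map_add, Multiset.sum_add]

private theorem shf_zero : shf 0 = 0 := rfl

private theorem shf_cons (x : ℕ × ℕ) (S : Multiset (ℕ × ℕ)) :
    shf (x ::ₘ S) = if x.2 ≤ x.1 - 1 then (x.1 - 1, x.2) ::ₘ shf S else shf S := by
  unfold shf
  rw [Multiset.map_cons]
  by_cases h : x.2 ≤ x.1 - 1
  · rw [if_pos h]
    exact Multiset.filter_cons_of_pos (p := fun y : ℕ × ℕ => y.2 ≤ y.1) _ h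
  · rw [if_neg h]
    exact Multiset.filter_cons_of_neg (p := fun y : ℕ × ℕ => y.2 ≤ y.1) _ h

theorem mem_shf {x : ℕ × ℕ} {S : Multiset (ℕ × ℕ)} (hx : x ∈ shf S) :
    ∃ y ∈ S, x = (y.1 - 1, y.2) ∧ y.2 ≤ y.1 - 1 := by
  unfold shf at hx
  rw [Multiset.mem_filter, Multiset.mem_map] at hx
  obtain ⟨⟨y, hy, rfl⟩, h⟩ := hx
  exact ⟨y, hy, rfl, h⟩

theorem trS_shf {n M : ℕ} (hn : 1 ≤ n) (S : Multiset (ℕ × ℕ))
    (hS : ∀ x ∈ S, 1 ≤ x.2 ∧ x.2 ≤ 2 ∧ x.2 ≤ x.1 ∧ x.1 ≤ M) :
    M * trS n (shf S) ≤ (M - 1) * trS n S := by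
  induction S using Multiset.induction_on with
  | empty => simp [shf_zero, trS]
  | cons x S ih =>
    have ih' := ih fun y hy => hS y (Multiset.mem_cons_of_mem hy)
    have hx := hS x (Multiset.mem_cons_self x S)
    have h1 : trS n (x ::ₘ S) = ell n x.1 + trS n S := by
      unfold trS
      rw [Multiset.map_cons, Multiset.sum_cons]
    rw [shf_cons, h1]
    by_cases h : x.2 ≤ x.1 - 1
    · rw [if_pos h]
      have h2 : trS n ((x.1 - 1, x.2) ::ₘ shf S) = ell n (x.1 - 1) + trS n (shf S) := by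
        unfold trS
        rw [Multiset.map_cons, Multiset.sum_cons]
      rw [h2]
      have h3 := ell_ratio (n := n) (c := x.1 - 1) (M := M) hn (by omega)
      have h4 : x.1 - 1 + 1 = x.1 := by omega
      rw [h4] at h3
      rw [Nat.mul_add, Nat.mul_add]
      exact Nat.add_le_add h3 ih'
    · rw [if_neg h, Nat.mul_add]
      exact le_trans ih' (Nat.le_add_left _ _)

theorem flS_shf {n M : ℕ} (S : Multiset (ℕ × ℕ))
    (hS : ∀ x ∈ S, 1 ≤ x.2 ∧ x.2 ≤ 2 ∧ x.2 ≤ x.1 ∧ x.1 ≤ M) :
    flS n S = flS n (shf S) + trS n S := by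
  induction S using Multiset.induction_on with
  | empty => simp [shf_zero, trS, flS]
  | cons x S ih =>
    have ih' := ih fun y hy => hS y (Multiset.mem_cons_of_mem hy)
    obtain ⟨hx1, hx2, hx3, -⟩ := hS x (Multiset.mem_cons_self x S)
    have h1 : trS n (x ::ₘ S) = ell n x.1 + trS n S := by
      unfold trS
      rw [Multiset.map_cons, Multiset.sum_cons]
    have h0 : flS n (x ::ₘ S) = (ell (n + 1) x.1 + 1 - x.2) + flS n S := by
      unfold flS
      rw [Multiset.map_cons, Multiset.sum_cons]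
    have h5 := ell_succ n (x.1 - 1)
    have h4 : x.1 - 1 + 1 = x.1 := by omega
    rw [h4] at h5
    have h6 := ell_pos n (m := x.1) (by omega)
    rw [shf_cons, h1, h0, ih']
    by_cases h : x.2 ≤ x.1 - 1
    · rw [if_pos h]
      have h2 : flS n ((x.1 - 1, x.2) ::ₘ shf S) =
          (ell (n + 1) (x.1 - 1) + 1 - x.2) + flS n (shf S) := by
        unfold flS
        rw [Multiset.map_cons, Multiset.sum_cons]
      rw [h2]
      have h7 := ell_pos (n + 1) (m := x.1 - 1) (by omega)
      omega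
    · rw [if_neg h]
      have h8 : ell (n + 1) (x.1 - 1) = x.2 - 1 := by
        have h9 : x.1 = x.2 := by omega
        rw [h9]
        have h10 : x.2 = 1 ∨ x.2 = 2 := by omega
        rcases h10 with h10 | h10
        · rw [h10]
          exact ell_zero (by omega)
        · rw [h10]
          exact ell_one _
      omega

variable {ι : Type} [DecidableEq ι]

theorem map_finset_sum {α β γ : Type*} (g : α → β) (s : Finset γ) (F : γ → Multiset α) :
    (∑ i ∈ s, F i).map g = ∑ i ∈ s, (F i).map g :=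
  map_sum (Multiset.mapAddMonoidHom g) F s

variable [Fintype ι]

/-- The roles of the conditions. -/
def roles (c : Cfg ι) (l : ι) (I : Multiset ℕ) (μ t u : ℕ) : Multiset (Role ι) :=
  (c.N - I - Multiset.replicate t μ).map (fun m => Role.stay (Kind.free m)) +
    Multiset.replicate (c.s - u) (Role.stay (Kind.free 1)) +
    ∑ l' ∈ univ.erase l, (c.Φ l').map (fun x => Role.stay (Kind.forced l' x.1 x.2)) +
    (c.Φ l).map (fun x => Role.here x.1 x.2) + I.map (fun m => Role.ord m) +
    Multiset.replicate t Role.dif + Multiset.replicate u (Role.ord 1)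

private theorem roles_before (c : Cfg ι) (l : ι) {I : Multiset ℕ} (hI : I ≤ c.N) {μ t u : ℕ}
    (ht : Multiset.replicate t μ ≤ c.N - I) (hu : u ≤ c.s) :
    (roles c l I μ t u).map (Role.before l μ) = c.kinds := by
  have h1 : c.N = (c.N - I - Multiset.replicate t μ) + I + Multiset.replicate t μ := by
    rw [add_right_comm, tsub_add_cancel_of_le ht, tsub_add_cancel_of_le hI]
  have h2 : Multiset.replicate c.s (Kind.free 1 : Kind ι) =
      Multiset.replicate (c.s - u) (Kind.free 1) + Multiset.replicate u (Kind.free 1) := by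
    rw [← Multiset.replicate_add, Nat.sub_add_cancel hu]
  have h3 : ∑ l', (c.Φ l').map (fun x => Kind.forced l' x.1 x.2) =
      ∑ l' ∈ univ.erase l, (c.Φ l').map (fun x => Kind.forced l' x.1 x.2) +
        (c.Φ l).map (fun x => Kind.forced l x.1 x.2) :=
    (Finset.sum_erase_add univ _ (Finset.mem_univ l)).symm
  have h4 : c.kinds = ((c.N - I - Multiset.replicate t μ) + I +
      Multiset.replicate t μ).map Kind.free + Multiset.replicate c.s (Kind.free 1) +
      ∑ l', (c.Φ l').map (fun x => Kind.forced l' x.1 x.2) := by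
    rw [← h1]
    rfl
  rw [h4, h2, h3]
  unfold roles
  simp only [Multiset.map_add, map_finset_sum, Multiset.map_map, Multiset.map_replicate,
    Function.comp_def, Role.before]
  abel

private theorem sum_ell_zero {n : ℕ} (hn : 1 ≤ n) {α : Type*} (S : Multiset α) :
    (S.map fun _ => ell n 0).sum = 0 := by
  rw [ell_zero hn]
  simp

private theorem roles_layer {n M : ℕ} (hn : 1 ≤ n) {c : Cfg ι} (hc : c.OK M) (l : ι)
    (I : Multiset ℕ) (μ t u : ℕ) :
    (((roles c l I μ t u).map Role.layer).map (ell n)).sum =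
      c.tr n l + (I.map (ell n)).sum + t + u := by
  have h1 : ((c.Φ l).map fun x => ell n (if x.2 ≤ x.1 then x.1 else 0)).sum = c.tr n l := by
    unfold Cfg.tr
    congr 1
    refine Multiset.map_congr rfl fun x hx => ?_
    rw [if_pos (hc.hΦ l x hx).2.2.1]
  unfold roles
  simp only [Multiset.map_add, map_finset_sum, Multiset.map_map, Multiset.map_replicate,
    Function.comp_def, Role.layer, Multiset.sum_add]
  rw [h1, sum_ell_zero hn]
  have h2 : (∑ l' ∈ univ.erase l, (c.Φ l').map fun _ => ell n 0).sum = 0 := by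
    have h3 : (∑ l' ∈ univ.erase l, (c.Φ l').map fun _ => ell n 0).sum =
        ∑ l' ∈ univ.erase l, ((c.Φ l').map fun _ => ell n 0).sum :=
      map_sum (Multiset.sumAddMonoidHom) _ _
    rw [h3]
    exact Finset.sum_eq_zero fun l' _ => sum_ell_zero hn _
  rw [h2, ell_one, Multiset.sum_replicate, Multiset.sum_replicate, Multiset.sum_replicate,
    ell_zero hn]
  simp

private theorem roles_notAt (c : Cfg ι) (l : ι) (I : Multiset ℕ) (μ t u : ℕ) (k : Kind ι)
    (hk : Role.stay k ∈ roles c l I μ t u) : k.NotAt l := by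
  unfold roles at hk
  simp only [Multiset.mem_add] at hk
  rcases hk with (((((h | h) | h) | h) | h) | h) | h
  · obtain ⟨m, _, hm⟩ := Multiset.mem_map.1 h
    cases hm
    trivial
  · have h1 := (Multiset.mem_replicate.1 h).2
    cases h1
    trivial
  · obtain ⟨l', hl', h1⟩ := Multiset.mem_sum.1 h
    obtain ⟨x, _, hx⟩ := Multiset.mem_map.1 h1
    cases hx
    exact Finset.ne_of_mem_erase hl'
  · obtain ⟨m, _, hm⟩ := Multiset.mem_map.1 h
    cases hm
  · obtain ⟨m, _, hm⟩ := Multiset.mem_map.1 h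
    cases hm
  · have h1 := (Multiset.mem_replicate.1 h).2
    cases h1
  · have h1 := (Multiset.mem_replicate.1 h).2
    cases h1

private theorem roles_layer_le {M : ℕ} (hM : 1 ≤ M) {c : Cfg ι} (hc : c.OK M) (l : ι)
    {I : Multiset ℕ} (hI : I ≤ c.N) (μ t u : ℕ) :
    ∀ m ∈ (roles c l I μ t u).map Role.layer, m ≤ M := by
  intro m hm
  obtain ⟨r, hr, rfl⟩ := Multiset.mem_map.1 hm
  unfold roles at hr
  simp only [Multiset.mem_add] at hr
  rcases hr with (((((h | h) | h) | h) | h) | h) | h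
  · obtain ⟨m, _, rfl⟩ := Multiset.mem_map.1 h
    exact Nat.zero_le _
  · rw [(Multiset.mem_replicate.1 h).2]
    exact Nat.zero_le _
  · obtain ⟨l', hl', h1⟩ := Multiset.mem_sum.1 h
    obtain ⟨x, _, rfl⟩ := Multiset.mem_map.1 h1
    exact Nat.zero_le _
  · obtain ⟨x, hx, rfl⟩ := Multiset.mem_map.1 h
    have h2 := hc.hΦ l x hx
    change (if x.2 ≤ x.1 then x.1 else 0) ≤ M
    rw [if_pos h2.2.2.1]
    exact h2.2.2.2
  · obtain ⟨m', hm', rfl⟩ := Multiset.mem_map.1 h
    exact (hc.hN m' (Multiset.mem_of_le hI hm')).2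
  · rw [(Multiset.mem_replicate.1 h).2]
    exact hM
  · rw [(Multiset.mem_replicate.1 h).2]
    exact hM

omit [DecidableEq ι] [Fintype ι] in
theorem sum_map_N {n : ℕ} (c : Cfg ι) {I : Multiset ℕ} (hI : I ≤ c.N) {μ t : ℕ}
    (ht : Multiset.replicate t μ ≤ c.N - I) :
    (c.N.map (ell (n + 1))).sum = ((c.N - I - Multiset.replicate t μ).map (ell (n + 1))).sum +
      (I.map (ell (n + 1))).sum + t * ell (n + 1) μ := by
  have h1 : c.N = (c.N - I - Multiset.replicate t μ) + I + Multiset.replicate t μ := by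
    rw [add_right_comm, tsub_add_cancel_of_le ht, tsub_add_cancel_of_le hI]
  conv_lhs => rw [h1]
  rw [Multiset.map_add, Multiset.map_add, Multiset.sum_add, Multiset.sum_add,
    Multiset.map_replicate, Multiset.sum_replicate, smul_eq_mul]

end PeelAux

variable {ι : Type} [Fintype ι] [DecidableEq ι]

private theorem card_le_sum_ell {n M : ℕ} {I : Multiset ℕ} (hI : ∀ m ∈ I, 2 ≤ m ∧ m ≤ M) :
    I.card ≤ (I.map (ell n)).sum ∧ (I.map (ell n)).sum ≤ ell n M * I.card := by
  induction I using Multiset.induction_on with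
  | empty => simp
  | cons m I ih =>
    have ih' := ih fun m' hm' => hI m' (Multiset.mem_cons_of_mem hm')
    have h7 := hI m (Multiset.mem_cons_self m I)
    rw [Multiset.card_cons, Multiset.map_cons, Multiset.sum_cons, Nat.mul_add, Nat.mul_one]
    have h8 := ell_pos n (m := m) (by omega)
    have h9 := ell_mono n h7.2
    constructor
    · omega
    · omega

end Pool.Agent.H18.Ex

end

section

/-!
# Module Run: running along a good list of directions
-/

namespace Pool.Agent.H18.Ex

open Finset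

variable {ι : Type} [Fintype ι] [DecidableEq ι]

/-- The layer of a region. -/
theorem Rg_layer (σ : ℕ) (w : ι → ℕ) (l : ι) :
    (Rg σ w).filter (fun a => a l = 0) = Rg σ (Function.update w l 0) := by
  ext a
  rw [mem_filter, mem_Rg, mem_Rg]
  constructor
  · rintro ⟨⟨h1, h2⟩, h3⟩
    refine ⟨fun i => ?_, h2⟩
    by_cases hi : i = l
    · subst hi
      rw [Function.update_self, h3]
    · rw [Function.update_of_ne hi]
      exact h1 i
  · rintro ⟨h1, h2⟩
    have h3 : a l = 0 := by
      have := h1 l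
      rw [Function.update_self] at this
      omega
    refine ⟨⟨fun i => ?_, h2⟩, h3⟩
    by_cases hi : i = l
    · subst hi
      rw [h3]
      exact Nat.zero_le _
    · have := h1 i
      rwa [Function.update_of_ne hi] at this

private theorem run_sum_update (a : ι → ℕ) (l : ι) :
    ∑ i, Function.update a l (a l + 1) i = ∑ i, a i + 1 := by
  rw [Finset.sum_update_of_mem (Finset.mem_univ l), Finset.sdiff_singleton_eq_erase,
    ← Finset.add_sum_erase univ a (Finset.mem_univ l)]
  ring

/-- The residual of a region. -/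
theorem Rg_resid (σ : ℕ) (w : ι → ℕ) (l : ι) (hσ : 1 ≤ σ) (hw : 1 ≤ w l) (a : ι → ℕ) :
    a ∈ Rg (σ - 1) (Function.update w l (w l - 1)) ↔ Function.update a l (a l + 1) ∈ Rg σ w := by
  rw [mem_Rg, mem_Rg, run_sum_update]
  constructor
  · rintro ⟨h1, h2⟩
    refine ⟨fun i => ?_, by omega⟩
    have h3 := h1 i
    by_cases hi : i = l
    · subst hi
      rw [Function.update_self] at h3 ⊢
      omega
    · rw [Function.update_of_ne hi] at h3 ⊢
      exact h3
  · rintro ⟨h1, h2⟩
    refine ⟨fun i => ?_, by omega⟩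
    have h3 := h1 i
    by_cases hi : i = l
    · subst hi
      rw [Function.update_self] at h3 ⊢
      omega
    · rw [Function.update_of_ne hi] at h3 ⊢
      exact h3

/-- `∑ fl ≤ M * ∑ tr` for a valid configuration (`ell_le_mul`). -/
theorem Cfg.fl_le (n M : ℕ) (c : Cfg ι) (hc : c.OK M) (l : ι) : c.fl n l ≤ M * c.tr n l := by
  unfold Cfg.fl Cfg.tr
  rw [← Multiset.sum_map_mul_left]
  apply Multiset.sum_map_le_sum_map
  intro x hx
  obtain ⟨h1, _, _, h4⟩ := hc.hΦ l x hx
  have h5 := ell_le_mul n x.1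
  have h6 : x.1 * ell n x.1 ≤ M * ell n x.1 := Nat.mul_le_mul_right _ h4
  omega

omit [Fintype ι] in
private theorem ew_nil (w : ι → ℕ) : ew [] w = w := by
  funext i
  simp [ew]

omit [Fintype ι] in
private theorem ew_cons (l : ι) (L : List ι) (w : ι → ℕ) :
    ew (l :: L) w = ew L (Function.update w l (w l - 1)) := by
  funext i
  unfold ew
  by_cases hi : i = l
  · subst hi
    rw [List.count_cons_self, Function.update_self]
    omega
  · rw [List.count_cons_of_ne (fun h => hi h.symm), Function.update_of_ne hi]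

omit [Fintype ι] [DecidableEq ι] in
private theorem sub_length_cons (σ : ℕ) (l : ι) (L : List ι) :
    σ - (l :: L).length = σ - 1 - L.length := by
  rw [List.length_cons]
  omega

/-- `Good` for an appended list. -/
theorem Good.append {n M : ℕ} {X : ℕ → (ι → ℕ) → Prop} (L L' : List ι) (σ : ℕ) (w φ : ι → ℕ) :
    Good n M X (L ++ L') σ w φ ↔
      Good n M X L σ w φ ∧ Good n M X L' (σ - L.length) (ew L w) (eph n M L σ w φ) := by
  induction L generalizing σ w φ with
  | nil =>
    rw [ew_nil]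
    change Good n M X L' σ w φ ↔ True ∧ Good n M X L' (σ - 0) w φ
    rw [Nat.sub_zero]
    exact ⟨fun h => ⟨trivial, h⟩, fun h => h.2⟩
  | cons l L ih =>
    rw [ew_cons, sub_length_cons]
    change (1 ≤ σ ∧ 1 ≤ w l ∧ X σ (Function.update w l 0) ∧ _ ∧ _ ∧
      Good n M X (L ++ L') _ _ _) ↔ (1 ≤ σ ∧ 1 ≤ w l ∧ X σ (Function.update w l 0) ∧ _ ∧ _ ∧
      Good n M X L _ _ _) ∧ _
    rw [ih]
    constructor
    · rintro ⟨h1, h2, h3, h4, h5, h6, h7⟩
      exact ⟨⟨h1, h2, h3, h4, h5, h6⟩, h7⟩
    · rintro ⟨⟨h1, h2, h3, h4, h5, h6⟩, h7⟩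
      exact ⟨h1, h2, h3, h4, h5, h6, h7⟩

theorem ew_append (L L' : List ι) (w : ι → ℕ) : ew (L ++ L') w = ew L' (ew L w) := by
  funext i
  unfold ew
  rw [List.count_append, Nat.sub_sub]

theorem eph_append (n M : ℕ) (L L' : List ι) (σ : ℕ) (w φ : ι → ℕ) :
    eph n M (L ++ L') σ w φ =
      eph n M L' (σ - L.length) (ew L w) (eph n M L σ w φ) := by
  induction L generalizing σ w φ with
  | nil =>
    rw [ew_nil]
    rfl
  | cons l L ih =>
    rw [ew_cons, sub_length_cons]
    exact ih _ _ _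

private theorem shf_mono {S T : Multiset (ℕ × ℕ)} (h : S ≤ T) : shf S ≤ shf T :=
  Multiset.filter_le_filter _ (Multiset.map_le_map h)

private theorem shf_iterate_mono (k : ℕ) {S T : Multiset (ℕ × ℕ)} (h : S ≤ T) :
    shf^[k] S ≤ shf^[k] T := by
  induction k generalizing S T with
  | zero => exact h
  | succ k ih =>
    rw [Function.iterate_succ_apply, Function.iterate_succ_apply]
    exact ih (shf_mono h)

end Pool.Agent.H18.Ex

end
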