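import Pool.Agent.H94.LP3.M04
import Pool.Agent.H94.LP3.M07
import Pool.Agent.H94.LP3.M11

/-! The parts of this file: H18.Ex.Asm, H18.Ex.Final, H18.Pr.SysN, H18.Pr.FinN, H18.Pr.MainN, H18.Ub.VDefs. -/

section

/-!
# Module Asm: assembly of the induction step
-/

namespace Pool.Agent.H18.Ex

open Finset

section

variable {ι : Type} [Fintype ι] [DecidableEq ι]

/-- Replace the forced conditions on `x_l = 0`. -/
def Cfg.upd (c : Cfg ι) (l : ι) (X : Multiset (ℕ × ℕ)) (s : ℕ) : Cfg ι where
  N := c.N
  s := s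
  Φ := Function.update c.Φ l X

theorem Cfg.kinds_split (c : Cfg ι) (l : ι) :
    c.kinds = c.N.map Kind.free + Multiset.replicate c.s (Kind.free 1) +
      ∑ i ∈ univ.erase l, ((c.Φ i).map fun x => Kind.forced i x.1 x.2) +
      (c.Φ l).map fun x => Kind.forced l x.1 x.2 := by
  unfold Cfg.kinds
  rw [← add_sum_erase univ _ (mem_univ l), add_comm ((c.Φ l).map _), ← add_assoc]

theorem Cfg.kinds_upd (c : Cfg ι) (l : ι) (X : Multiset (ℕ × ℕ)) (s : ℕ) :
    (c.upd l X s).kinds = c.N.map Kind.free + Multiset.replicate s (Kind.free 1) +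
      ∑ i ∈ univ.erase l, ((c.Φ i).map fun x => Kind.forced i x.1 x.2) +
      X.map fun x => Kind.forced l x.1 x.2 := by
  rw [Cfg.kinds_split _ l]
  unfold Cfg.upd
  simp only [Function.update_self]
  congr 2
  refine sum_congr rfl fun i hi => ?_
  rw [Function.update_of_ne (ne_of_mem_erase hi)]

theorem Cfg.sz_split (n : ℕ) (c : Cfg ι) (l : ι) :
    c.sz n = (c.N.map (ell (n + 1))).sum + c.s + ∑ i ∈ univ.erase l, c.fl n i + c.fl n l := by
  unfold Cfg.sz Cfg.nsz
  rw [← add_sum_erase univ _ (mem_univ l), add_comm (c.fl n l), ← add_assoc]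

theorem Cfg.sz_upd (n : ℕ) (c : Cfg ι) (l : ι) (X : Multiset (ℕ × ℕ)) (s : ℕ) :
    (c.upd l X s).sz n = (c.N.map (ell (n + 1))).sum + s + ∑ i ∈ univ.erase l, c.fl n i +
      (X.map fun x => ell (n + 1) x.1 + 1 - x.2).sum := by
  rw [Cfg.sz_split _ _ l]
  unfold Cfg.upd Cfg.fl
  simp only [Function.update_self]
  congr 2
  refine sum_congr rfl fun i hi => ?_
  rw [Function.update_of_ne (ne_of_mem_erase hi)]

theorem Cfg.tr_upd_self (n : ℕ) (c : Cfg ι) (l : ι) (X : Multiset (ℕ × ℕ)) (s : ℕ) :
    (c.upd l X s).tr n l = (X.map fun x => ell n x.1).sum := by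
  unfold Cfg.upd Cfg.tr
  simp only [Function.update_self]

theorem Cfg.OK_upd {M : ℕ} {c : Cfg ι} (hc : c.OK M) (l : ι) (X : Multiset (ℕ × ℕ)) (s : ℕ)
    (hX : ∀ x ∈ X, 1 ≤ x.2 ∧ x.2 ≤ 2 ∧ x.2 ≤ x.1 ∧ x.1 ≤ M) : (c.upd l X s).OK M := by
  refine ⟨hc.hN, ?_⟩
  intro l' x hx
  by_cases h : l' = l
  · subst h
    rw [show (c.upd l' X s).Φ l' = X from Function.update_self _ _ _] at hx
    exact hX x hx
  · rw [show (c.upd l X s).Φ l' = c.Φ l' from Function.update_of_ne h _ _] at hx
    exact hc.hΦ l' x hx

omit [Fintype ι] [DecidableEq ι] in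
/-- Numbers of the shift of a valid multiset of forced conditions. -/
theorem shf_numbers (n M : ℕ) (hn : 1 ≤ n) (X : Multiset (ℕ × ℕ))
    (hX : ∀ x ∈ X, 1 ≤ x.2 ∧ x.2 ≤ 2 ∧ x.2 ≤ x.1 ∧ x.1 ≤ M) :
    (∀ x ∈ shf X, 1 ≤ x.2 ∧ x.2 ≤ 2 ∧ x.2 ≤ x.1 ∧ x.1 ≤ M) ∧
    ((shf X).map fun x => ell (n + 1) x.1 + 1 - x.2).sum + (X.map fun x => ell n x.1).sum =
      (X.map fun x => ell (n + 1) x.1 + 1 - x.2).sum ∧
    M * ((shf X).map fun x => ell n x.1).sum ≤ (M - 1) * (X.map fun x => ell n x.1).sum := by
  induction X using Multiset.induction_on with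
  | empty => simp [shf]
  | cons y X ih =>
    obtain ⟨h1, h2, h3⟩ := ih fun x hx => hX x (Multiset.mem_cons_of_mem hx)
    obtain ⟨hy1, hy2, hy3, hy4⟩ := hX y (Multiset.mem_cons_self _ _)
    obtain ⟨c, hc⟩ : ∃ c, y.1 = c + 1 := ⟨y.1 - 1, by omega⟩
    have hs := ell_succ n c
    have hr := ell_ratio (n := n) (c := c) (M := M) hn (by omega)
    by_cases hlt : y.2 ≤ c
    · have hshf : shf (y ::ₘ X) = (y.1 - 1, y.2) ::ₘ shf X := by
        unfold shf
        rw [Multiset.map_cons, Multiset.filter_cons_of_pos]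
        simp only
        omega
      rw [hshf]
      refine ⟨?_, ?_, ?_⟩
      · intro x hx
        rcases Multiset.mem_cons.1 hx with rfl | hx
        · simp only
          omega
        · exact h1 x hx
      · simp only [Multiset.map_cons, Multiset.sum_cons]
        rw [hc] at *
        simp only [Nat.add_sub_cancel]
        have hp : 1 ≤ ell (n + 1) c := ell_pos _ (by omega)
        omega
      · simp only [Multiset.map_cons, Multiset.sum_cons, mul_add]
        rw [hc]
        simp only [Nat.add_sub_cancel]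
        omega
    · have hshf : shf (y ::ₘ X) = shf X := by
        unfold shf
        rw [Multiset.map_cons, Multiset.filter_cons_of_neg]
        simp only
        omega
      rw [hshf]
      have hy : y.2 = c + 1 := by omega
      refine ⟨h1, ?_, ?_⟩
      · simp only [Multiset.map_cons, Multiset.sum_cons]
        rw [hc, hy]
        have hc2 : c = 0 ∨ c = 1 := by omega
        rcases hc2 with rfl | rfl
        · rw [ell_one, ell_one]
          omega
        · have h5 := ell_succ n 1
          rw [ell_one] at h5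
          rw [h5]
          omega
      · simp only [Multiset.map_cons, Multiset.sum_cons, mul_add]
        omega

omit [Fintype ι] [DecidableEq ι] in
theorem shf_iterate_replicate (s c j : ℕ) (hj : j ≤ c) :
    shf^[j] (Multiset.replicate s (c + 1, 1)) = Multiset.replicate s (c - j + 1, 1) := by
  induction j with
  | zero => rfl
  | succ j ih =>
    rw [Function.iterate_succ_apply', ih (by omega)]
    unfold shf
    rw [Multiset.map_replicate, Multiset.filter_eq_self.2]
    · congr 2
      simp only
      omega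
    · intro x hx
      rw [Multiset.eq_of_mem_replicate hx]
      simp only
      omega

end

end Pool.Agent.H18.Ex

end

section

/-!
# Module Final: translation to fat points in projective space
-/

namespace Pool.Agent.H18.Ex

open Finset Pool.Agent.H18.Fat

/-- The coefficient function of a polynomial. -/
noncomputable def cf {n : ℕ} (F : MvPolynomial (Fin n) ℂ) (a : Fin n → ℕ) : ℂ :=
  F.coeff (Finsupp.equivFunOnFinite.symm a)

/-- The condition at a free point from the order of vanishing. -/
theorem sat_of_vanishes {n d : ℕ} {w : Fin n → ℕ} {F : MvPolynomial (Fin n) ℂ}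
    (hsupp : ∀ α ∈ F.support, ⇑α ∈ Rg d w) {q : Fin n → ℂ} {m : ℕ}
    (h : VanishesToOrder F q m) : Sat (Rg d w) (cf F) (Kind.free m) q := by
  intro b hb
  have h1 := h (Finsupp.equivFunOnFinite.symm b) (by
    rw [Finsupp.degree_eq_sum]
    exact hb)
  rw [coeff_shift] at h1
  rw [← h1]
  symm
  apply sum_bij_ne_zero (fun (α : Fin n →₀ ℕ) _ _ => (⇑α : Fin n → ℕ))
  · intro α hα _
    exact hsupp α hα
  · intro α _ _ β _ _ hαβ
    exact DFunLike.coe_injective hαβ
  · intro a _ hne
    refine ⟨Finsupp.equivFunOnFinite.symm a, ?_, ?_, ?_⟩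
    · rw [MvPolynomial.mem_support_iff]
      intro h0
      apply hne
      unfold cf
      rw [h0, zero_mul]
    · exact hne
    · rfl
  · intro α _ _
    unfold cf tcr tc
    congr 1
    rw [show Finsupp.equivFunOnFinite.symm (⇑α) = α from by ext; rfl]

end Pool.Agent.H18.Ex

end

section

/-!
# Abstract Horace systems with traces of dimension `n`

As in `Pool.Agent.H18.Cub.Sys`, but the traces have dimension `n`; `tr l a S` says that the points
with multiplicities `S` kill the trace in direction `l` of the space of the state `a`.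
-/

namespace Pool.Agent.H18.Pr

open Finset Pool.Agent.H18.Ex Pool.Agent.H18.Cub

/-- An abstract Horace system with traces of dimension `n`. -/
structure SysN (Λ : Type) [Fintype Λ] [DecidableEq Λ] (n : ℕ) : Type where
  /-- the conditions `S` kill the space of the state `a` -/
  K : (Λ → ℕ) → Multiset (Kind Λ) → Prop
  /-- the size of the trace -/
  F : Λ → (Λ → ℕ) → ℕ
  /-- the virtual dimension -/
  R : (Λ → ℕ) → ℤ
  /-- the points with multiplicities `S` kill the trace -/
  tr : Λ → (Λ → ℕ) → Multiset ℕ → Prop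
  mono : ∀ a S S', S ≤ S' → K a S → K a S'
  free_mono : ∀ a (T : Multiset ℕ) (S : Multiset (Kind Λ)), (∀ m ∈ T, 1 ≤ m) →
    K a (Multiset.replicate T.card (Kind.free 1) + S) → K a (T.map Kind.free + S)
  tr_mono : ∀ l a S S', S ≤ S' → tr l a S → tr l a S'
  count : ∀ a l, 1 ≤ a l → 1 ≤ F l a → R a = R (dn l a) + F l a
  step : ∀ a l, 1 ≤ a l → ∀ μ, 1 ≤ μ → ∀ S : Multiset (Role Λ),
    (∀ k, Role.stay k ∈ S → k.NotAt l) → tr l a (S.map Role.layer) →
    K (dn l a) (S.map (Role.after l μ)) → K a (S.map (Role.before l μ))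
  bridge : ∀ a l, 1 ≤ a l → ∀ (S : Multiset (Kind Λ)) (s : ℕ),
    K a (S + Multiset.replicate s (Kind.free 1)) → K (dn l a) (S.map (Kind.dn l)) →
    K a (S + Multiset.replicate s (Kind.forced l 1 1))
  base : K 0 {Kind.free 1}
  base_R : R 0 = 1

variable {Λ : Type} [Fintype Λ] [DecidableEq Λ] {n : ℕ}

/-- The trace is killed by points of multiplicities at most `M` as soon as the lengths suffice. -/
def SysN.Gd (Y : SysN Λ n) (M : ℕ) (l : Λ) (a : Λ → ℕ) : Prop :=
  ∀ S : Multiset ℕ, (∀ m ∈ S, m ≤ M) → Y.F l a ≤ (S.map (ell n)).sum → Y.tr l a S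

end Pool.Agent.H18.Pr

end

section

/-!
# Module FinN: the two endings (abstract version, traces of dimension `n`)
-/

namespace Pool.Agent.H18.Pr

open Finset Pool.Agent.H18.Ex Pool.Agent.H18.Cub

variable {Λ : Type} [Fintype Λ] [DecidableEq Λ] {n : ℕ}

/-- The simple points behave as expected at the state `a`. -/
def FullN (Y : SysN Λ n) (a : Λ → ℕ) : Prop :=
  1 ≤ Y.R a ∧ ∀ n : ℕ, Y.R a ≤ n → Y.K a (Multiset.replicate n (Kind.free 1))

end Pool.Agent.H18.Pr

end

section

/-!
# Module MainN: the bridging argument (abstract version, traces of dimension `n`)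
-/

namespace Pool.Agent.H18.Pr

open Finset Pool.Agent.H18.Ex Pool.Agent.H18.Cub

variable {Λ : Type} [Fintype Λ] [DecidableEq Λ] {n : ℕ}

/-- Bridging for configurations. -/
theorem bridge_cfgN (Y : SysN Λ n) (c : Cfg Λ) (l : Λ) (s₀ : ℕ)
    (hs : Multiset.replicate s₀ (1, 1) ≤ c.Φ l) (a : Λ → ℕ) (ha : 1 ≤ a l)
    (h1 : Y.K a (c.upd l (c.Φ l - Multiset.replicate s₀ (1, 1)) (c.s + s₀)).kinds)
    (h2 : Y.K (dn l a) (c.upd l (shf (c.Φ l - Multiset.replicate s₀ (1, 1))) c.s).kinds) :
    Y.K a c.kinds := by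
  set X := c.Φ l - Multiset.replicate s₀ (1, 1) with hX
  have hXs : c.Φ l = X + Multiset.replicate s₀ (1, 1) := by
    rw [hX, tsub_add_cancel_of_le hs]
  set S : Multiset (Kind Λ) := c.N.map Kind.free + Multiset.replicate c.s (Kind.free 1) +
      ∑ i ∈ univ.erase l, ((c.Φ i).map fun x => Kind.forced i x.1 x.2) +
      X.map fun x => Kind.forced l x.1 x.2 with hS
  have e1 : c.kinds = S + Multiset.replicate s₀ (Kind.forced l 1 1) := by
    rw [Cfg.kinds_split c l, hXs, Multiset.map_add, Multiset.map_replicate, ← add_assoc]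
  rw [e1]
  apply Y.bridge a l ha S s₀
  · rw [Cfg.kinds_upd] at h1
    convert h1 using 1
    rw [hS, Multiset.replicate_add]
    abel
  · rw [Cfg.kinds_upd] at h2
    refine Y.mono _ _ _ ?_ h2
    rw [hS, Multiset.map_add, Multiset.map_add, Multiset.map_add]
    have e2 : (c.N.map (Kind.free : ℕ → Kind Λ)).map (Kind.dn l) = c.N.map Kind.free := by
      rw [Multiset.map_map]
      rfl
    have e3 : (Multiset.replicate c.s (Kind.free 1 : Kind Λ)).map (Kind.dn l) =
        Multiset.replicate c.s (Kind.free 1) := by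
      rw [Multiset.map_replicate]
      rfl
    have e4 : (∑ i ∈ univ.erase l, ((c.Φ i).map fun x => Kind.forced i x.1 x.2)).map
        (Kind.dn l) = ∑ i ∈ univ.erase l, ((c.Φ i).map fun x => Kind.forced i x.1 x.2) := by
      have e5 : ∀ (T : Finset Λ), (∀ i ∈ T, i ≠ l) →
          (∑ i ∈ T, ((c.Φ i).map fun x => Kind.forced i x.1 x.2)).map (Kind.dn l) =
            ∑ i ∈ T, ((c.Φ i).map fun x => Kind.forced i x.1 x.2) := by
        intro T
        induction T using Finset.induction_on with
        | empty => simp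
        | insert i T hi ih =>
          intro hT
          rw [sum_insert hi, Multiset.map_add, ih fun j hj => hT j (mem_insert_of_mem hj),
            Multiset.map_map]
          congr 1
          refine Multiset.map_congr rfl fun x _ => ?_
          simp only [Function.comp_apply, Kind.dn]
          rw [if_neg (hT i (mem_insert_self _ _))]
      exact e5 _ fun i hi => ne_of_mem_erase hi
    rw [e2, e3, e4]
    refine add_le_add le_rfl ?_
    unfold shf
    rw [Multiset.map_map]
    refine (Multiset.map_le_map (Multiset.filter_le _ _)).trans (le_of_eq ?_)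
    rw [Multiset.map_map]
    refine Multiset.map_congr rfl fun x _ => ?_
    simp [Kind.dn]

end Pool.Agent.H18.Pr

end

section

/-!
# Project UB: small multiplicities and a given scheme, incomplete traces

As in project UA, but the traces are only killed by points of multiplicities at most `M` together with
at least `w` simple points.
-/

namespace Pool.Agent.H18.Ub

open Finset Pool.Agent.H18.Ex

section

variable {Λ : Type} [Fintype Λ] [DecidableEq Λ] {n : ℕ}

end

/-- The number of free points needed for a step. -/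
def g0w (n M w : ℕ) : ℕ := M * (ell n M + w)

/-- The bound for the traces of the forced conditions after a step. -/
def nphiw (n M w f : ℕ) : ℕ := (M - 1) * f / M + (ell n M + w) * ell n M

/-- The hyperplane section may grow by the factor `1 + 1 / EV`. -/
def EV (n M : ℕ) : ℕ := 8 * M * (M + 1) * ell n M

section

variable {Λ : Type} [Fintype Λ] [DecidableEq Λ] {n : ℕ}

end

end Pool.Agent.H18.Ub

end
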