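import Pool.Agent.H94.LP3.H18.FatDefs
import Pool.Agent.H94.LP3.M02

/-! The parts of this file: H22.LU.Mult, H74.CT.Indep, H74.CT.Node, H74.CT.Stage. -/

section

/-!
# Multiplicities
-/

namespace Pool.Agent.H22.LU

open MvPolynomial Pool.Agent.H18.Fat

variable {n k : ℕ}

private theorem mult_shift_mul (q : Fin n → ℂ) (A G : MvPolynomial (Fin n) ℂ) :
    shift q (A * G) = shift q A * shift q G := by
  unfold shift
  rw [map_mul]

private theorem mult_iff_order {q : Fin n → ℂ} {F : MvPolynomial (Fin n) ℂ} {m : ℕ} :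
    VanishesToOrder F q m ↔
      (m : ℕ∞) ≤ ((shift q F : MvPolynomial (Fin n) ℂ) : MvPowerSeries (Fin n) ℂ).order := by
  constructor
  · intro h
    refine MvPowerSeries.nat_le_order fun d hd => ?_
    rw [coeff_coe]
    exact h d hd
  · intro h β hβ
    rw [← coeff_coe]
    refine MvPowerSeries.coeff_of_lt_order (lt_of_lt_of_le ?_ h)
    exact_mod_cast hβ

private theorem mult_eval_shift (q : Fin n → ℂ) (F : MvPolynomial (Fin n) ℂ) :
    coeff 0 (shift q F) = eval q F := by
  rw [← constantCoeff_eq]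
  unfold shift
  induction F using MvPolynomial.induction_on with
  | C a => simp
  | add p q hp hq => rw [map_add, map_add, hp, hq, map_add]
  | mul_X p i hp =>
    rw [map_mul, map_mul, hp, aeval_X, map_add, constantCoeff_X, constantCoeff_C, map_mul, eval_X,
      zero_add]

/-- The multiplicity is additive (only the inequality which is needed).
Proof: let `ψ : MvPolynomial (Fin n) ℂ →ₐ[ℂ] Polynomial (MvPolynomial (Fin n) ℂ)`,
`X i ↦ C (C (q i)) + C (X i) * X` (so `ψ F = ∑ β, C (monomial β (coeff β (shift q F))) * X ^ |β|`);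
then `VanishesToOrder F q m ↔ X ^ m ∣ ψ F` (`Polynomial.X_pow_dvd_iff`: the coefficient of `X ^ j` is
the homogeneous component of degree `j` of `shift q F`).  By hypothesis `ψ A = X ^ b * A'` with
`b ≤ a` and `¬ X ∣ A'`; from `X ^ m ∣ X ^ b * A' * ψ G` get `X ^ (m - b) ∣ ψ G`
(`Polynomial.prime_X`, `Prime.pow_dvd_of_dvd_mul_left`). -/
theorem vanishes_of_mul {q : Fin n → ℂ} {m a : ℕ} {A G : MvPolynomial (Fin n) ℂ}
    (hA : ¬ VanishesToOrder A q (a + 1)) (h : VanishesToOrder (A * G) q m) :
    VanishesToOrder G q (m - a) := by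
  rw [mult_iff_order] at hA h ⊢
  rw [mult_shift_mul, coe_mul, MvPowerSeries.order_mul] at h
  generalize (MvPowerSeries.order (shift q A : MvPowerSeries (Fin n) ℂ)) = x at hA h
  generalize (MvPowerSeries.order (shift q G : MvPowerSeries (Fin n) ℂ)) = y at h ⊢
  induction y using ENat.recTopCoe with
  | top => exact le_top
  | coe y =>
    induction x using ENat.recTopCoe with
    | top => exact absurd le_top hA
    | coe x =>
      norm_cast at hA h ⊢
      omega

theorem vanishes_one_iff {q : Fin n → ℂ} {F : MvPolynomial (Fin n) ℂ} :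
    VanishesToOrder F q 1 ↔ eval q F = 0 := by
  rw [← mult_eval_shift]
  constructor
  · intro h
    exact h 0 (by simp)
  · intro h β hβ
    have h1 : β = 0 := by
      rw [← Finsupp.degree_eq_zero_iff]
      omega
    subst h1
    exact h

theorem vanishes_zero (q : Fin n → ℂ) (F : MvPolynomial (Fin n) ℂ) : VanishesToOrder F q 0 :=
  fun β hβ => absurd hβ (Nat.not_lt_zero _)

/-- Restriction to a graph (pullback): the multiplicity does not drop.  Proof:
`vanishesToOrder_iff_mem_ideal_pow`; the homomorphism `aeval g` maps the generators `X j - C (q j)`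
of the ideal of `q` to `g j - C (q j)`, which vanish at `q'` and so are in the ideal of `q'`. -/
theorem vanishes_aeval {q : Fin n → ℂ} {q' : Fin k → ℂ} (g : Fin n → MvPolynomial (Fin k) ℂ)
    (hg : ∀ j, eval q' (g j) = q j) {m : ℕ} {F : MvPolynomial (Fin n) ℂ}
    (h : VanishesToOrder F q m) : VanishesToOrder (aeval g F) q' m := by
  rw [vanishesToOrder_iff_mem_ideal_pow] at h ⊢
  have h1 := Ideal.mem_map_of_mem (aeval g : MvPolynomial (Fin n) ℂ →ₐ[ℂ] MvPolynomial (Fin k) ℂ) h
  rw [Ideal.map_pow] at h1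
  refine Ideal.pow_right_mono ?_ m h1
  rw [Ideal.map_span, Ideal.span_le]
  rintro _ ⟨_, ⟨j, rfl⟩, rfl⟩
  have h2 : VanishesToOrder (g j - C (q j)) q' 1 := by
    rw [vanishes_one_iff, map_sub, eval_C, hg, sub_self]
  rw [vanishesToOrder_iff_mem_ideal_pow, pow_one] at h2
  have h3 : (aeval g : MvPolynomial (Fin n) ℂ →ₐ[ℂ] MvPolynomial (Fin k) ℂ) (X j - C (q j)) =
      g j - C (q j) := by
    rw [map_sub, aeval_X, aeval_C]
    rfl
  show (aeval g : MvPolynomial (Fin n) ℂ →ₐ[ℂ] MvPolynomial (Fin k) ℂ) (X j - C (q j)) ∈ _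
  rw [h3]
  exact h2

/-- The same for a curve. -/
theorem pow_dvd_aeval {q : Fin n → ℂ} {a : ℂ} (g : Fin n → Polynomial ℂ)
    (hg : ∀ j, (g j).eval a = q j) {m : ℕ} {F : MvPolynomial (Fin n) ℂ}
    (h : VanishesToOrder F q m) : (Polynomial.X - Polynomial.C a) ^ m ∣ aeval g F := by
  rw [vanishesToOrder_iff_mem_ideal_pow] at h
  have h1 := Ideal.mem_map_of_mem (aeval g : MvPolynomial (Fin n) ℂ →ₐ[ℂ] Polynomial ℂ) h
  rw [Ideal.map_pow] at h1
  rw [← Ideal.mem_span_singleton, ← Ideal.span_singleton_pow]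
  refine Ideal.pow_right_mono ?_ m h1
  rw [Ideal.map_span, Ideal.span_le]
  rintro _ ⟨_, ⟨j, rfl⟩, rfl⟩
  have h3 : (aeval g : MvPolynomial (Fin n) ℂ →ₐ[ℂ] Polynomial ℂ) (X j - C (q j)) =
      g j - Polynomial.C (q j) := by
    rw [map_sub, aeval_X, aeval_C]
    rfl
  show (aeval g : MvPolynomial (Fin n) ℂ →ₐ[ℂ] Polynomial ℂ) (X j - C (q j)) ∈ _
  rw [h3, SetLike.mem_coe, Ideal.mem_span_singleton, Polynomial.dvd_iff_isRoot, Polynomial.IsRoot,
    Polynomial.eval_sub, Polynomial.eval_C, hg, sub_self]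

end Pool.Agent.H22.LU

end

section

/-!
# Independence of products of linear forms modulo higher order vanishing
-/

namespace Pool.Agent.H74.CT

open MvPolynomial Pool.Agent.H18.Fat Pool.Agent.H22.LU

theorem shift_zero' {n : ℕ} (F : MvPolynomial (Fin n) ℂ) : shift 0 F = F := by
  unfold shift
  have h : (fun j : Fin n => X j + C ((0 : Fin n → ℂ) j)) = (X : Fin n → MvPolynomial (Fin n) ℂ) := by
    funext j
    simp
  rw [h]
  exact aeval_X_left_apply F

theorem eval_aeval {n k : ℕ} (σ : Fin n → MvPolynomial (Fin k) ℂ) (x : Fin k → ℂ)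
    (F : MvPolynomial (Fin n) ℂ) :
    eval x (aeval σ F) = eval (fun j => eval x (σ j)) F := by
  induction F using MvPolynomial.induction_on with
  | C a => simp
  | add p q hp hq => rw [map_add, map_add, map_add, hp, hq]
  | mul_X p i hp => rw [map_mul, map_mul, map_mul, hp, aeval_X, eval_X]

theorem coeff_mono_mul {k e : ℕ} (c c0 : mons k e) (Q : MvPolynomial (Fin k) ℂ) :
    coeff c0.1 (monomial c.1 (1 : ℂ) * Q) = if c = c0 then coeff 0 Q else 0 := by
  rw [coeff_monomial_mul', one_mul]
  have h1 := mem_mons.1 c.2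
  have h2 := mem_mons.1 c0.2
  by_cases h : c = c0
  · subst h
    rw [if_pos le_rfl, if_pos rfl, tsub_self]
  · rw [if_neg h, if_neg]
    intro hle
    apply h
    have h3 : c.1 + (c0.1 - c.1) = c0.1 := add_tsub_cancel_of_le hle
    have h4 := congrArg Finsupp.degree h3
    rw [map_add, h1, h2] at h4
    have h5 : (c0.1 - c.1).degree = 0 := by omega
    rw [Finsupp.degree_eq_zero_iff] at h5
    rw [h5, add_zero] at h3
    exact Subtype.ext h3

theorem indep_core {r e g : ℕ} {q : Fin (r + 1) → ℂ} {G : MvPolynomial (Fin (r + 1)) ℂ}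
    (hG : ¬ VanishesToOrder G q (g + 1)) (Xs : Fin r → MvPolynomial (Fin (r + 1)) ℂ)
    (H : mons r e → MvPolynomial (Fin (r + 1)) ℂ) (hH : ∀ c, eval q (H c) ≠ 0)
    (σ : Fin (r + 1) → MvPolynomial (Fin r) ℂ) (hσ : ∀ a, eval 0 (σ a) = q a)
    (hX : ∀ u, aeval σ (Xs u) = X u) (a : mons r e → ℂ)
    (hvan : VanishesToOrder (∑ c, a c • (G * ((∏ u, Xs u ^ (c.1 u)) * H c))) q (g + e + 1)) :
    a = 0 := by
  classical
  have h1 : ∑ c, a c • (G * ((∏ u, Xs u ^ (c.1 u)) * H c)) =
      G * ∑ c, a c • ((∏ u, Xs u ^ (c.1 u)) * H c) := by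
    rw [Finset.mul_sum]
    refine Finset.sum_congr rfl fun c _ => ?_
    rw [mul_smul_comm]
  rw [h1] at hvan
  have h2 := vanishes_of_mul hG hvan
  have h3 : g + e + 1 - g = e + 1 := by omega
  rw [h3] at h2
  have h4 := vanishes_aeval (q' := 0) σ hσ h2
  have h5 : aeval σ (∑ c, a c • ((∏ u, Xs u ^ (c.1 u)) * H c)) =
      ∑ c, a c • (monomial c.1 (1 : ℂ) * aeval σ (H c)) := by
    rw [map_sum]
    refine Finset.sum_congr rfl fun c _ => ?_
    rw [map_smul, map_mul, map_prod]
    congr 2
    rw [monomial_eq, C_1, one_mul, Finsupp.prod_fintype _ _ (fun _ => pow_zero _)]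
    refine Finset.prod_congr rfl fun u _ => ?_
    rw [map_pow, hX]
  rw [h5] at h4
  funext c0
  have h6 := h4 c0.1 (by rw [mem_mons.1 c0.2]; omega)
  rw [shift_zero', coeff_sum] at h6
  have h7 : ∀ c : mons r e, coeff c0.1 (a c • (monomial c.1 (1 : ℂ) * aeval σ (H c))) =
      if c = c0 then a c0 * coeff 0 (aeval σ (H c0)) else 0 := by
    intro c
    rw [coeff_smul, coeff_mono_mul, smul_eq_mul]
    by_cases h : c = c0
    · rw [if_pos h, if_pos h, h]
    · rw [if_neg h, if_neg h, mul_zero]
  rw [Finset.sum_congr rfl fun c _ => h7 c, Finset.sum_ite_eq' Finset.univ c0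
    (fun _ => a c0 * coeff 0 (aeval σ (H c0))), if_pos (Finset.mem_univ c0)] at h6
  rcases mul_eq_zero.1 h6 with h8 | h8
  · exact h8
  · exfalso
    apply hH c0
    have h9 : eval (0 : Fin r → ℂ) (aeval σ (H c0)) = coeff 0 (aeval σ (H c0)) := by
      rw [← constantCoeff_eq]
      exact congrFun (congrArg DFunLike.coe (eval_zero)) _
    rw [h8, eval_aeval] at h9
    rw [← h9]
    congr 2
    funext j
    exact (hσ j).symm

theorem finrank_stage {V : Type*} [AddCommGroup V] [Module ℂ V] (U W : Submodule ℂ V)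
    [FiniteDimensional ℂ U] (hWU : W ≤ U) {κ : Type*} [Fintype κ] (F : κ → V)
    (hF : ∀ c, F c ∈ U) (hind : ∀ a : κ → ℂ, (∑ c, a c • F c) ∈ W → a = 0) :
    Module.finrank ℂ W + Fintype.card κ ≤ Module.finrank ℂ U := by
  have : FiniteDimensional ℂ W := Submodule.finiteDimensional_of_le hWU
  let f : ((κ → ℂ) × W) →ₗ[ℂ] U :=
    { toFun := fun x => ⟨∑ c, x.1 c • F c + x.2.1, U.add_mem
        (U.sum_mem fun c _ => U.smul_mem _ (hF c)) (hWU x.2.2)⟩
      map_add' := by
        intro x y
        apply Subtype.ext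
        simp only [Prod.fst_add, Prod.snd_add, Pi.add_apply, add_smul, Finset.sum_add_distrib,
          Submodule.coe_add]
        abel
      map_smul' := by
        intro t x
        apply Subtype.ext
        simp only [Prod.smul_fst, Prod.smul_snd, Pi.smul_apply, smul_eq_mul, mul_smul,
          Submodule.coe_smul, RingHom.id_apply, smul_add, Finset.smul_sum] }
  have hf : Function.Injective f := by
    rw [← LinearMap.ker_eq_bot, LinearMap.ker_eq_bot']
    rintro ⟨a, w⟩ h
    have h1 : ∑ c, a c • F c + w.1 = 0 := congrArg Subtype.val h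
    have h2 : ∑ c, a c • F c = -w.1 := eq_neg_of_add_eq_zero_left h1
    have h3 := hind a (by rw [h2]; exact W.neg_mem w.2)
    subst h3
    have h4 : w.1 = 0 := by simpa using h1
    have h5 : w = 0 := Subtype.ext h4
    rw [h5]
    rfl
  have h1 := LinearMap.finrank_le_finrank_of_injective hf
  rw [Module.finrank_prod, Module.finrank_fintype_fun_eq_card] at h1
  omega

theorem fin_fatForms (r d : ℕ) {ι : Type*} (p : ι → Fin (r + 1) → ℂ) (m : ι → ℕ) :
    FiniteDimensional ℂ (fatForms r d p m) := by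
  exact Submodule.finiteDimensional_of_le (S₂ := LinearMap.range (toPoly (r + 1) d)) fun F hF =>
    ⟨fun α => coeff α.1 F, exists_toPoly hF.1⟩

end Pool.Agent.H74.CT

end

section

/-!
# Points of the rational normal curve and products of linear forms
-/

namespace Pool.Agent.H74.CT

open MvPolynomial Pool.Agent.H18.Fat Pool.Agent.H22.LU

/-- A point of the rational normal curve. -/
noncomputable def pt (r : ℕ) (t : ℂ) : Fin (r + 1) → ℂ := fun a => t ^ (a : ℕ)

/-- The linear form whose restriction to the rational normal curve is `f`. -/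
noncomputable def lin (r : ℕ) (f : Polynomial ℂ) : MvPolynomial (Fin (r + 1)) ℂ :=
  ∑ a : Fin (r + 1), C (f.coeff a) * X a

theorem lin_hom (r : ℕ) (f : Polynomial ℂ) : (lin r f).IsHomogeneous 1 := by
  unfold lin
  refine IsHomogeneous.sum _ _ _ fun a _ => ?_
  simpa using (isHomogeneous_C (Fin (r + 1)) (f.coeff a)).mul (isHomogeneous_X ℂ a)

theorem eval_lin {r : ℕ} {f : Polynomial ℂ} (hf : f.natDegree ≤ r) (t : ℂ) :
    eval (pt r t) (lin r f) = f.eval t := by
  unfold lin pt
  rw [map_sum, Polynomial.eval_eq_sum_range' (n := r + 1) (by omega), Finset.sum_range]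
  refine Finset.sum_congr rfl fun a _ => ?_
  rw [map_mul, eval_C, eval_X]

theorem aeval_lin {r : ℕ} {f : Polynomial ℂ} (hf : f.natDegree ≤ r) :
    aeval (fun a : Fin (r + 1) => (Polynomial.X : Polynomial ℂ) ^ (a : ℕ)) (lin r f) = f := by
  unfold lin
  rw [map_sum]
  conv_rhs => rw [Polynomial.as_sum_range' f (r + 1) (by omega), Finset.sum_range]
  refine Finset.sum_congr rfl fun a _ => ?_
  rw [map_mul, aeval_C, aeval_X, ← Polynomial.C_mul_X_pow_eq_monomial]
  rfl

theorem van_mono {n : ℕ} {F : MvPolynomial (Fin n) ℂ} {q : Fin n → ℂ} {a b : ℕ}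
    (h : VanishesToOrder F q a) (hb : b ≤ a) : VanishesToOrder F q b :=
  fun β hβ => h β (lt_of_lt_of_le hβ hb)

theorem van_mul {n : ℕ} {F G : MvPolynomial (Fin n) ℂ} {q : Fin n → ℂ} {a b : ℕ}
    (hF : VanishesToOrder F q a) (hG : VanishesToOrder G q b) :
    VanishesToOrder (F * G) q (a + b) := by
  rw [vanishesToOrder_iff_mem_ideal_pow] at *
  rw [pow_add]
  exact Ideal.mul_mem_mul hF hG

theorem van_pow {n : ℕ} {F : MvPolynomial (Fin n) ℂ} {q : Fin n → ℂ} {a : ℕ}
    (hF : VanishesToOrder F q a) (e : ℕ) : VanishesToOrder (F ^ e) q (e * a) := by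
  induction e with
  | zero =>
    rw [Nat.zero_mul]
    exact vanishes_zero _ _
  | succ e ih =>
    rw [pow_succ, Nat.succ_mul]
    exact van_mul ih hF

theorem van_prod {n : ℕ} {ι : Type*} (s : Finset ι) {F : ι → MvPolynomial (Fin n) ℂ}
    {q : Fin n → ℂ} {a : ι → ℕ} (hF : ∀ i ∈ s, VanishesToOrder (F i) q (a i)) :
    VanishesToOrder (∏ i ∈ s, F i) q (∑ i ∈ s, a i) := by
  classical
  induction s using Finset.induction_on with
  | empty =>
    rw [Finset.sum_empty]
    exact vanishes_zero _ _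
  | insert b s hb ih =>
    rw [Finset.prod_insert hb, Finset.sum_insert hb]
    exact van_mul (hF b (Finset.mem_insert_self b s))
      (ih fun i hi => hF i (Finset.mem_insert_of_mem hi))

/-- The polynomial with simple zeros at the nodes of `T`. -/
noncomputable def nod (T : Finset ℕ) : Polynomial ℂ := ∏ l ∈ T, (Polynomial.X - Polynomial.C (l : ℂ))

theorem nod_natDegree (T : Finset ℕ) : (nod T).natDegree = T.card := by
  unfold nod
  rw [Polynomial.natDegree_prod_of_monic _ _ fun l _ => Polynomial.monic_X_sub_C _,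
    Finset.sum_congr rfl fun l _ => Polynomial.natDegree_X_sub_C _, Finset.sum_const, smul_eq_mul,
    mul_one]

theorem nod_eval {T : Finset ℕ} {x : ℕ} : (nod T).eval (x : ℂ) = 0 ↔ x ∈ T := by
  unfold nod
  rw [Polynomial.eval_prod, Finset.prod_eq_zero_iff]
  constructor
  · rintro ⟨l, hl, h⟩
    rw [Polynomial.eval_sub, Polynomial.eval_X, Polynomial.eval_C, sub_eq_zero] at h
    have h1 : x = l := by exact_mod_cast h
    rwa [h1]
  · intro h
    exact ⟨x, h, by simp⟩

/-- Products of linear forms with prescribed multiplicities. -/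
theorem cover (r : ℕ) : ∀ (t : ℕ) (w : ℕ → ℕ) (A : Finset ℕ), (∀ l ∈ A, w l ≤ t) →
    ∑ l ∈ A, w l ≤ r * t → ∃ H : MvPolynomial (Fin (r + 1)) ℂ, H.IsHomogeneous t ∧
      (∀ x : ℕ, x ∉ A → eval (pt r x) H ≠ 0) ∧
      ∀ l ∈ A, VanishesToOrder H (pt r l) (w l) := by
  intro t
  induction t with
  | zero =>
    intro w A hw _
    refine ⟨1, isHomogeneous_one _ _, fun x _ => by simp, fun l hl => ?_⟩
    have := hw l hl
    have h0 : w l = 0 := by omega
    rw [h0]
    exact vanishes_zero _ _
  | succ t ih =>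
    intro w A hw hsum
    set A1 := A.filter fun l => w l = t + 1 with hA1
    set A0 := A.filter fun l => 1 ≤ w l with hA0
    have h10 : A1 ⊆ A0 := by
      intro l hl
      rw [hA1, Finset.mem_filter] at hl
      rw [hA0, Finset.mem_filter]
      exact ⟨hl.1, by omega⟩
    have hc1 : A1.card ≤ r := by
      have h1 : A1.card * (t + 1) ≤ ∑ l ∈ A, w l := by
        calc A1.card * (t + 1) = ∑ l ∈ A1, w l := by
              rw [Finset.sum_congr rfl fun l hl => (Finset.mem_filter.1 hl).2, Finset.sum_const,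
                smul_eq_mul]
          _ ≤ _ := Finset.sum_le_sum_of_subset (Finset.filter_subset _ _)
      have h2 := h1.trans hsum
      exact Nat.le_of_mul_le_mul_right h2 (by omega)
    obtain ⟨T, hT1, hT0, hTc⟩ := Finset.exists_subsuperset_card_eq (n := min r A0.card) h10
      (le_min hc1 (Finset.card_le_card h10)) (min_le_right _ _)
    have hTA : T ⊆ A := hT0.trans (Finset.filter_subset _ _)
    set w' : ℕ → ℕ := fun l => if l ∈ T then w l - 1 else w l with hw'
    have hw1 : ∀ l ∈ A, w' l ≤ t := by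
      intro l hl
      rw [hw']
      dsimp only
      have := hw l hl
      by_cases hlT : l ∈ T
      · rw [if_pos hlT]
        omega
      · rw [if_neg hlT]
        by_contra hcon
        exact hlT (hT1 (Finset.mem_filter.2 ⟨hl, by omega⟩))
    have hsplit : ∑ l ∈ A, w' l + T.card = ∑ l ∈ A, w l := by
      have h1 : T.card = ∑ l ∈ A, if l ∈ T then 1 else 0 := by
        rw [← Finset.sum_filter, Finset.sum_const, smul_eq_mul, mul_one,
          Finset.filter_mem_eq_inter, Finset.inter_eq_right.2 hTA]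
      rw [h1, ← Finset.sum_add_distrib]
      refine Finset.sum_congr rfl fun l _ => ?_
      rw [hw']
      dsimp only
      by_cases hlT : l ∈ T
      · rw [if_pos hlT, if_pos hlT]
        have := (Finset.mem_filter.1 (hT0 hlT)).2
        omega
      · rw [if_neg hlT, if_neg hlT]
        omega
    have hsum' : ∑ l ∈ A, w' l ≤ r * t := by
      rcases le_total r A0.card with h | h
      · rw [min_eq_left h] at hTc
        have : r * (t + 1) = r * t + r := by ring
        omega
      · rw [min_eq_right h] at hTc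
        have hTe : T = A0 := Finset.eq_of_subset_of_card_le hT0 (by omega)
        have h1 : ∑ l ∈ A, w' l = ∑ l ∈ A0, w' l := by
          symm
          apply Finset.sum_subset (Finset.filter_subset _ _)
          intro l hl hl0
          rw [hw']
          dsimp only
          rw [if_neg (by rw [hTe]; exact hl0)]
          by_contra hcon
          exact hl0 (Finset.mem_filter.2 ⟨hl, by omega⟩)
        rw [h1]
        calc ∑ l ∈ A0, w' l ≤ ∑ _l ∈ A0, t :=
              Finset.sum_le_sum fun l hl => hw1 l (Finset.filter_subset _ _ hl)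
          _ = A0.card * t := by rw [Finset.sum_const, smul_eq_mul]
          _ ≤ r * t := Nat.mul_le_mul_right _ h
    obtain ⟨H, hH1, hH2, hH3⟩ := ih w' A hw1 hsum'
    have hdeg : (nod T).natDegree ≤ r := by
      rw [nod_natDegree, hTc]
      exact min_le_left _ _
    refine ⟨lin r (nod T) * H, ?_, fun x hx => ?_, fun l hl => ?_⟩
    · rw [Nat.add_comm t 1]
      exact (lin_hom r _).mul hH1
    · rw [map_mul, eval_lin hdeg]
      refine mul_ne_zero (fun h => hx (hTA (nod_eval.1 h))) (hH2 x hx)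
    · have h3 := hH3 l hl
      by_cases hlT : l ∈ T
      · have h4 : VanishesToOrder (lin r (nod T)) (pt r l) 1 := by
          rw [vanishes_one_iff, eval_lin hdeg]
          exact nod_eval.2 hlT
        refine van_mono (van_mul h4 h3) ?_
        rw [hw']
        dsimp only
        rw [if_pos hlT]
        omega
      · have h4 := vanishes_zero (pt r l) (lin r (nod T))
        refine van_mono (van_mul h4 h3) ?_
        rw [hw']
        dsimp only
        rw [if_neg hlT]
        omega

end Pool.Agent.H74.CT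

end

section

/-!
# One stage: raising the multiplicity of one node by one
-/

namespace Pool.Agent.H74.CT

open MvPolynomial Pool.Agent.H18.Fat Pool.Agent.H22.LU

theorem lin_nod_van {r : ℕ} {T : Finset ℕ} (hT : T.card ≤ r) {x : ℕ} (hx : x ∈ T) :
    VanishesToOrder (lin r (nod T)) (pt r x) 1 := by
  rw [vanishes_one_iff, eval_lin (by rw [nod_natDegree]; exact hT)]
  exact nod_eval.2 hx

/-- The product of linear forms through the node `P`. -/
noncomputable def prodG (r : ℕ) (A : Finset ℕ) (P : ℕ) (e : ℕ → ℕ) :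
    MvPolynomial (Fin (r + 1)) ℂ :=
  ∏ l ∈ A, lin r (nod {P, l}) ^ e l

theorem card_pair_le {r : ℕ} (hr : 2 ≤ r) (P l : ℕ) : ({P, l} : Finset ℕ).card ≤ r :=
  (Finset.card_le_two).trans hr

theorem prodG_hom (r : ℕ) (A : Finset ℕ) (P : ℕ) (e : ℕ → ℕ) :
    (prodG r A P e).IsHomogeneous (∑ l ∈ A, e l) := by
  unfold prodG
  refine IsHomogeneous.prod _ _ _ fun l _ => ?_
  simpa using (lin_hom r (nod {P, l})).pow (e l)

theorem prodG_van_P {r : ℕ} (hr : 2 ≤ r) (A : Finset ℕ) (P : ℕ) (e : ℕ → ℕ) :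
    VanishesToOrder (prodG r A P e) (pt r P) (∑ l ∈ A, e l) := by
  unfold prodG
  refine van_prod A fun l _ => ?_
  have h := van_pow (lin_nod_van (card_pair_le hr P l) (x := P) (by simp)) (e l)
  rwa [Nat.mul_one] at h

theorem prodG_van {r : ℕ} (hr : 2 ≤ r) (A : Finset ℕ) (P : ℕ) (e : ℕ → ℕ) {l : ℕ} (hl : l ∈ A) :
    VanishesToOrder (prodG r A P e) (pt r l) (e l) := by
  unfold prodG
  have h : ∑ x ∈ A, (if x = l then e x else 0) = e l := by
    rw [Finset.sum_ite_eq' A l e, if_pos hl]
  rw [← h]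
  refine van_prod A fun x _ => ?_
  by_cases hx : x = l
  · rw [if_pos hx]
    have h := van_pow (lin_nod_van (card_pair_le hr P x) (x := l) (by simp [hx])) (e x)
    rwa [Nat.mul_one] at h
  · rw [if_neg hx]
    exact vanishes_zero _ _

theorem nod_pair {P l : ℕ} (h : l ≠ P) : nod {P, l} =
    (Polynomial.X - Polynomial.C (P : ℂ)) * (Polynomial.X - Polynomial.C (l : ℂ)) := by
  unfold nod
  rw [Finset.prod_pair (Ne.symm h)]

theorem prodG_not {r : ℕ} (hr : 2 ≤ r) (A : Finset ℕ) (P : ℕ) (hP : P ∉ A) (e : ℕ → ℕ) :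
    ¬ VanishesToOrder (prodG r A P e) (pt r P) (∑ l ∈ A, e l + 1) := by
  intro h
  have h1 := pow_dvd_aeval (a := (P : ℂ))
    (fun a : Fin (r + 1) => (Polynomial.X : Polynomial ℂ) ^ (a : ℕ)) (fun a => by
      rw [Polynomial.eval_pow, Polynomial.eval_X]
      rfl) h
  have h2 : aeval (fun a : Fin (r + 1) => (Polynomial.X : Polynomial ℂ) ^ (a : ℕ))
      (prodG r A P e) = (Polynomial.X - Polynomial.C (P : ℂ)) ^ (∑ l ∈ A, e l) *
        ∏ l ∈ A, (Polynomial.X - Polynomial.C (l : ℂ)) ^ e l := by
    unfold prodG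
    rw [map_prod, ← Finset.prod_pow_eq_pow_sum, ← Finset.prod_mul_distrib]
    refine Finset.prod_congr rfl fun l hl => ?_
    rw [map_pow, aeval_lin (by rw [nod_natDegree]; exact card_pair_le hr P l),
      nod_pair (by rintro rfl; exact hP hl), mul_pow]
  rw [h2, pow_succ, mul_dvd_mul_iff_left (pow_ne_zero _ (Polynomial.X_sub_C_ne_zero _)),
    Polynomial.dvd_iff_isRoot, Polynomial.IsRoot, Polynomial.eval_prod,
    Finset.prod_eq_zero_iff] at h1
  obtain ⟨l, hl, h3⟩ := h1
  rw [Polynomial.eval_pow, Polynomial.eval_sub, Polynomial.eval_X, Polynomial.eval_C] at h3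
  have h5 : (P : ℂ) - l = 0 := by
    by_contra hcon
    exact pow_ne_zero _ hcon h3
  rw [sub_eq_zero] at h5
  have h6 : P = l := by exact_mod_cast h5
  exact hP (h6 ▸ hl)

/-- Multiplicities: `m` on `A`, `i` at `P`, `0` elsewhere. -/
def mm (A : Finset ℕ) (m : ℕ → ℕ) (P i : ℕ) : ℕ → ℕ :=
  fun l => if l ∈ A then m l else if l = P then i else 0

/-- The choice of the other `r` nodes. -/
theorem exists_nodes (r : ℕ) (A : Finset ℕ) (P : ℕ) (hP : P ∉ A) :
    ∃ T : Finset ℕ, T.card = r ∧ P ∉ T ∧ (T ⊆ A ∨ A ⊆ T) := by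
  rcases le_total r A.card with h | h
  · obtain ⟨T, hT, hc⟩ := Finset.exists_subset_card_eq h
    exact ⟨T, hc, fun hPT => hP (hT hPT), Or.inl hT⟩
  · obtain ⟨B, hB1, hB2⟩ := Infinite.exists_superset_card_eq (insert P A) (r + 1)
      ((Finset.card_insert_le _ _).trans (by omega))
    refine ⟨B.erase P, ?_, Finset.notMem_erase P B, Or.inr fun l hl => ?_⟩
    · rw [Finset.card_erase_of_mem (hB1 (Finset.mem_insert_self P A)), hB2]
      rfl
    · exact Finset.mem_erase.2 ⟨fun h3 => hP (h3 ▸ hl), hB1 (Finset.mem_insert_of_mem hl)⟩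

/-- Stage lemma. -/
theorem stage (r j i : ℕ) (hr : 2 ≤ r) (A : Finset ℕ) (P : ℕ) (hP : P ∉ A) (m : ℕ → ℕ)
    (hij : i ≤ j) (hmi : ∀ l ∈ A, i < m l) (g : ℕ) (hg : g = ∑ l ∈ A, (m l + i - j))
    (hgi : g ≤ i) (hsum : ∑ l ∈ A, m l + i + (r - 2) * g ≤ r * j) :
    Module.finrank ℂ (fatForms r j (fun l : ℕ => pt r l) (mm A m P (i + 1))) +
      (i - g + (r - 1)).choose (r - 1) ≤
      Module.finrank ℂ (fatForms r j (fun l : ℕ => pt r l) (mm A m P i)) := by
  classical
  obtain ⟨T, hTc, hPT, hTA⟩ := exists_nodes r A P hP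
  set τ : Fin r → ℕ := fun u => T.orderEmbOfFin hTc u with hτ
  have hτm : ∀ u, τ u ∈ T := fun u => T.orderEmbOfFin_mem hTc u
  have hτi : ∀ u v, τ u = τ v → u = v := fun u v h => (T.orderEmbOfFin hTc).injective h
  have hτs : ∀ l ∈ T, ∃ u, τ u = l := by
    intro l hl
    have h1 : l ∈ Set.range (T.orderEmbOfFin hTc) := by
      rw [Finset.range_orderEmbOfFin]
      exact hl
    obtain ⟨u, hu⟩ := h1
    exact ⟨u, hu⟩
  have hPτ : ∀ u, P ≠ τ u := fun u h => hPT (h ▸ hτm u)
  -- the linear forms
  set Tu : Fin r → Finset ℕ := fun u => insert P (T.erase (τ u)) with hTu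
  have hTuc : ∀ u, (Tu u).card = r := by
    intro u
    rw [hTu]
    dsimp only
    rw [Finset.card_insert_of_notMem (fun h => hPT (Finset.mem_of_mem_erase h)),
      Finset.card_erase_of_mem (hτm u), hTc]
    omega
  have hTum : ∀ u v, τ v ∈ Tu u ↔ u ≠ v := by
    intro u v
    rw [hTu]
    dsimp only
    rw [Finset.mem_insert, Finset.mem_erase]
    constructor
    · rintro (h | h)
      · exact absurd h.symm (hPτ v)
      · exact fun h3 => h.1 (by rw [h3])
    · intro h
      exact Or.inr ⟨fun h3 => h (hτi _ _ h3).symm, hτm v⟩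
  set Xs : Fin r → MvPolynomial (Fin (r + 1)) ℂ := fun u => lin r (nod (Tu u)) with hXs
  have hdeg : ∀ u, (nod (Tu u)).natDegree ≤ r := fun u => by rw [nod_natDegree, hTuc]
  have hne : ∀ u, (nod (Tu u)).eval ((τ u : ℕ) : ℂ) ≠ 0 := fun u h => by
    have := (hTum u u).1 (nod_eval.1 h)
    exact this rfl
  -- the parametrisation near `P`
  set σ : Fin (r + 1) → MvPolynomial (Fin r) ℂ := fun a =>
    C (pt r P a) + ∑ v, C (pt r (τ v) a / (nod (Tu v)).eval ((τ v : ℕ) : ℂ)) * X v with hσ
  have hσ0 : ∀ a, eval 0 (σ a) = pt r P a := by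
    intro a
    rw [hσ]
    simp
  have hσX : ∀ u, aeval σ (Xs u) = X u := by
    intro u
    have h1 : aeval σ (Xs u) = C (eval (pt r P) (Xs u)) +
        ∑ v, C (eval (pt r (τ v)) (Xs u) / (nod (Tu v)).eval ((τ v : ℕ) : ℂ)) * X v := by
      rw [hXs]
      dsimp only
      unfold lin
      rw [map_sum, map_sum]
      simp only [map_sum, map_mul, aeval_X, aeval_C, eval_C, eval_X, algebraMap_eq]
      rw [hσ]
      simp only [mul_add, Finset.sum_add_distrib, Finset.mul_sum]
      congr 1
      rw [Finset.sum_comm]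
      refine Finset.sum_congr rfl fun v _ => ?_
      rw [Finset.sum_div, map_sum, Finset.sum_mul]
      refine Finset.sum_congr rfl fun a _ => ?_
      rw [← mul_assoc, ← C_mul, mul_div_assoc]
    rw [h1, eval_lin (hdeg u), nod_eval.2 (by rw [hTu]; exact Finset.mem_insert_self _ _), C_0,
      zero_add, Finset.sum_eq_single u]
    · rw [eval_lin (hdeg u), div_self (hne u), C_1, one_mul]
    · intro v _ hvu
      rw [eval_lin (hdeg u), nod_eval.2 ((hTum u v).2 (Ne.symm hvu)), zero_div, C_0, zero_mul]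
    · intro h
      exact absurd (Finset.mem_univ u) h
  -- the contribution of the linear forms
  set e : ℕ → ℕ := fun l => m l + i - j with he
  set ctr : (Fin r →₀ ℕ) → ℕ → ℕ := fun c l =>
    ∑ u, if l ∈ T ∧ τ u ≠ l then c u else 0 with hctr
  set w : (Fin r →₀ ℕ) → ℕ → ℕ := fun c l => m l - e l - ctr c l with hw
  have hwle : ∀ c, ∀ l ∈ A, w c l ≤ j - i := by
    intro c l hl
    rw [hw, he]
    dsimp only
    have := hmi l hl
    omega
  have hel : ∀ l ∈ A, e l ≤ g := by
    intro l hl
    rw [hg]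
    exact Finset.single_le_sum (f := e) (fun _ _ => Nat.zero_le _) hl
  have hwsum : ∀ c ∈ mons r (i - g), ∑ l ∈ A, w c l ≤ r * (j - i) := by
    intro c hc
    rcases hTA with hTA | hAT
    · -- no waste
      have hcs : ∑ u, c u = i - g := by
        rw [← Finsupp.degree_eq_sum]
        exact mem_mons.1 hc
      have hctrle : ∀ l ∈ A, ctr c l ≤ m l - e l := by
        intro l hl
        have h1 : ctr c l ≤ i - g := by
          rw [← hcs, hctr]
          dsimp only
          refine Finset.sum_le_sum fun u _ => ?_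
          split_ifs
          · exact le_rfl
          · exact Nat.zero_le _
        have h2 := hel l hl
        have h3 := hmi l hl
        rw [he] at h2 ⊢
        dsimp only at h2 ⊢
        omega
      have hsumctr : ∑ l ∈ A, ctr c l = (r - 1) * (i - g) := by
        rw [hctr]
        dsimp only
        rw [Finset.sum_comm, ← hcs, Finset.mul_sum]
        refine Finset.sum_congr rfl fun u _ => ?_
        rw [← Finset.sum_filter]
        rw [Finset.sum_const, smul_eq_mul]
        congr 1
        have h1 : A.filter (fun l => l ∈ T ∧ τ u ≠ l) = T.erase (τ u) := by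
          ext l
          rw [Finset.mem_filter, Finset.mem_erase]
          constructor
          · rintro ⟨_, h2, h3⟩
            exact ⟨fun h4 => h3 h4.symm, h2⟩
          · rintro ⟨h2, h3⟩
            exact ⟨hTA h3, h3, fun h4 => h2 h4.symm⟩
        rw [h1, Finset.card_erase_of_mem (hτm u), hTc]
      have hadd : ∑ l ∈ A, w c l + ∑ l ∈ A, ctr c l + ∑ l ∈ A, e l = ∑ l ∈ A, m l := by
        rw [← Finset.sum_add_distrib, ← Finset.sum_add_distrib]
        refine Finset.sum_congr rfl fun l hl => ?_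
        have h1 := hctrle l hl
        have h2 : e l ≤ m l := by
          rw [he]
          dsimp only
          omega
        rw [hw]
        dsimp only
        omega
      rw [hsumctr] at hadd
      have hge : ∑ l ∈ A, e l = g := hg.symm
      rw [hge] at hadd
      obtain ⟨r', rfl⟩ : ∃ r', r = r' + 2 := ⟨r - 2, by omega⟩
      obtain ⟨x, hx⟩ : ∃ x, i = g + x := ⟨i - g, by omega⟩
      obtain ⟨y, hy⟩ : ∃ y, j = i + y := ⟨j - i, by omega⟩
      have h3 : r' + 2 - 1 = r' + 1 := by omega
      have h4 : r' + 2 - 2 = r' := by omega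
      have h5 : i - g = x := by omega
      have h6 : j - i = y := by omega
      rw [h3, h5] at hadd
      rw [h4] at hsum
      rw [h6]
      subst hy
      subst hx
      nlinarith
    · -- at most `r` nodes
      have hAr : A.card ≤ r := by
        rw [← hTc]
        exact Finset.card_le_card hAT
      calc ∑ l ∈ A, w c l ≤ ∑ _l ∈ A, (j - i) := Finset.sum_le_sum fun l hl => hwle c l hl
        _ = A.card * (j - i) := by rw [Finset.sum_const, smul_eq_mul]
        _ ≤ r * (j - i) := Nat.mul_le_mul_right _ hAr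
  -- the products of linear forms not passing through `P`
  have hcov : ∀ c : mons r (i - g), ∃ H : MvPolynomial (Fin (r + 1)) ℂ, H.IsHomogeneous (j - i) ∧
      (∀ x : ℕ, x ∉ A → eval (pt r x) H ≠ 0) ∧
      ∀ l ∈ A, VanishesToOrder H (pt r l) (w c.1 l) := fun c =>
    cover r (j - i) (w c.1) A (hwle c.1) (hwsum c.1 c.2)
  choose H hH1 hH2 hH3 using hcov
  set G := prodG r A P e with hG
  have hGnot : ¬ VanishesToOrder G (pt r P) (g + 1) := by
    rw [hg]
    exact prodG_not hr A P hP e
  have hGhom : G.IsHomogeneous g := by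
    rw [hg]
    exact prodG_hom r A P e
  have hGP : VanishesToOrder G (pt r P) g := by
    rw [hg]
    exact prodG_van_P hr A P e
  have hXsP : ∀ u, VanishesToOrder (Xs u) (pt r P) 1 := fun u =>
    lin_nod_van (hTuc u).le (by rw [hTu]; exact Finset.mem_insert_self _ _)
  have hXsl : ∀ (c : Fin r →₀ ℕ) (l : ℕ),
      VanishesToOrder (∏ u, Xs u ^ (c u)) (pt r l) (ctr c l) := by
    intro c l
    refine van_prod Finset.univ fun u _ => ?_
    by_cases h : l ∈ T ∧ τ u ≠ l
    · rw [if_pos h]
      have h1 : l ∈ Tu u := by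
        obtain ⟨v, hv⟩ := hτs l h.1
        rw [← hv, hTum]
        intro h3
        exact h.2 (by rw [h3, hv])
      have h2 := van_pow (lin_nod_van (hTuc u).le h1) (c u)
      rwa [Nat.mul_one] at h2
    · rw [if_neg h]
      exact vanishes_zero _ _
  have hXsP' : ∀ c : mons r (i - g),
      VanishesToOrder (∏ u, Xs u ^ (c.1 u)) (pt r P) (i - g) := by
    intro c
    have h1 : ∑ u, c.1 u = i - g := by
      rw [← Finsupp.degree_eq_sum]
      exact mem_mons.1 c.2
    refine van_mono (a := ∑ u, c.1 u) (van_prod Finset.univ fun u _ => ?_) h1.ge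
    have h2 := van_pow (hXsP u) (c.1 u)
    rwa [Nat.mul_one] at h2
  have hXshom : ∀ c : mons r (i - g), (∏ u, Xs u ^ (c.1 u)).IsHomogeneous (i - g) := by
    intro c
    have h1 : ∑ u, c.1 u = i - g := by
      rw [← Finsupp.degree_eq_sum]
      exact mem_mons.1 c.2
    have h2 : (∏ u, Xs u ^ (c.1 u)).IsHomogeneous (∑ u, c.1 u) := by
      refine IsHomogeneous.prod _ _ _ fun u _ => ?_
      simpa using (lin_hom r (nod (Tu u))).pow (c.1 u)
    exact Eq.mp (congrArg (fun x => (∏ u, Xs u ^ (c.1 u)).IsHomogeneous x) h1) h2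
  have hU : FiniteDimensional ℂ (fatForms r j (fun l : ℕ => pt r l) (mm A m P i)) :=
    fin_fatForms _ _ _ _
  have hle : fatForms r j (fun l : ℕ => pt r l) (mm A m P (i + 1)) ≤
      fatForms r j (fun l : ℕ => pt r l) (mm A m P i) := by
    intro F hF
    refine ⟨hF.1, fun l => van_mono (hF.2 l) ?_⟩
    unfold mm
    split_ifs <;> omega
  have hcard : Fintype.card (mons r (i - g)) = (i - g + (r - 1)).choose (r - 1) := by
    obtain ⟨r', rfl⟩ : ∃ r', r = r' + 1 := ⟨r - 1, by omega⟩
    rw [Fintype.card_coe, card_mons]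
    rfl
  have hfin := finrank_stage (fatForms r j (fun l : ℕ => pt r l) (mm A m P i))
    (fatForms r j (fun l : ℕ => pt r l) (mm A m P (i + 1))) hle
    (fun c : mons r (i - g) => G * ((∏ u, Xs u ^ (c.1 u)) * H c)) (fun c => ?_) fun a ha => ?_
  · rw [hcard] at hfin
    exact hfin
  · -- membership
    refine ⟨?_, fun l => ?_⟩
    · have h1 := hGhom.mul ((hXshom c).mul (hH1 c))
      have h2 : g + (i - g + (j - i)) = j := by omega
      rw [h2] at h1
      exact h1
    · unfold mm
      dsimp only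
      by_cases hl : l ∈ A
      · rw [if_pos hl]
        refine van_mono (van_mul (prodG_van hr A P e hl) (van_mul (hXsl c.1 l) (hH3 c l hl))) ?_
        rw [hw]
        dsimp only
        omega
      · rw [if_neg hl]
        by_cases hlP : l = P
        · rw [if_pos hlP, hlP]
          refine van_mono (van_mul hGP (van_mul (hXsP' c) (vanishes_zero _ (H c)))) ?_
          omega
        · rw [if_neg hlP]
          exact vanishes_zero _ _
  · -- independence
    refine indep_core hGnot Xs H (fun c => hH2 c P hP) σ hσ0 hσX a ?_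
    have h1 := ha.2 P
    unfold mm at h1
    rw [if_neg hP, if_pos rfl] at h1
    have h2 : g + (i - g) + 1 = i + 1 := by omega
    rw [h2]
    exact h1

end Pool.Agent.H74.CT

end
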