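import Pool.Agent.H94.LP3.M03
import Pool.Agent.H94.LP3.M04
import Pool.Agent.H94.LP3.M11

/-! The parts of this file: H18.Cub.RunS, H18.Ex.Fin, H18.Cub.Sched, H18.FatLin_1. -/

section

/-!
# Module RunS: running along a good list of directions (abstract version)
-/

namespace Pool.Agent.H18.Cub

open Finset Pool.Agent.H18.Ex

variable {Λ : Type} [Fintype Λ] [DecidableEq Λ]

omit [Fintype Λ] in
theorem ew_nil' (a : Λ → ℕ) : ew [] a = a := by
  funext i
  simp [ew]

omit [Fintype Λ] in
theorem ew_cons' (l : Λ) (L : List Λ) (a : Λ → ℕ) : ew (l :: L) a = ew L (dn l a) := by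
  funext i
  unfold ew dn
  by_cases hi : i = l
  · subst hi
    rw [List.count_cons_self, Function.update_self]
    omega
  · rw [List.count_cons_of_ne (fun h => hi h.symm), Function.update_of_ne hi]

omit [Fintype Λ] in
theorem ew_append' (L L' : List Λ) (a : Λ → ℕ) : ew (L ++ L') a = ew L' (ew L a) := by
  funext i
  unfold ew
  rw [List.count_append, Nat.sub_sub]

private theorem shf_mono {S T : Multiset (ℕ × ℕ)} (h : S ≤ T) : shf S ≤ shf T :=
  Multiset.filter_le_filter _ (Multiset.map_le_map h)

private theorem shf_iterate_mono (k : ℕ) {S T : Multiset (ℕ × ℕ)} (h : S ≤ T) :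
    shf^[k] S ≤ shf^[k] T := by
  induction k generalizing S T with
  | zero => exact h
  | succ k ih =>
    rw [Function.iterate_succ_apply, Function.iterate_succ_apply]
    exact ih (shf_mono h)

end Pool.Agent.H18.Cub

end

section

/-!
# Module Fin: the two endings
-/

namespace Pool.Agent.H18.Ex

open Finset

variable {ι : Type} [Fintype ι] [DecidableEq ι]

/-- The cleaning list: `M + 1` peels in each direction. -/
def clean (M : ℕ) (dirs : List ι) : List ι := dirs.flatMap fun l => List.replicate (M + 1) l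

private theorem fin_shf_aux (j : ℕ) (S : Multiset (ℕ × ℕ))
    (hS : ∀ x ∈ S, 1 ≤ x.2 ∧ x.2 ≤ x.1 ∧ x.1 ≤ j) : shf^[j] S = 0 := by
  induction j generalizing S with
  | zero =>
    apply Multiset.eq_zero_of_forall_notMem
    intro x hx
    have := hS x hx
    omega
  | succ j ih =>
    rw [Function.iterate_succ_apply]
    apply ih
    intro x hx
    unfold shf at hx
    rw [Multiset.mem_filter, Multiset.mem_map] at hx
    obtain ⟨⟨y, hy, rfl⟩, h⟩ := hx
    have h1 := hS y hy
    refine ⟨h1.1, h, ?_⟩
    change y.1 - 1 ≤ j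
    omega

/-- After `M` shifts all forced conditions are gone. -/
theorem shf_iterate_eq_zero {M j : ℕ} (hj : M ≤ j) (S : Multiset (ℕ × ℕ))
    (hS : ∀ x ∈ S, 1 ≤ x.2 ∧ x.2 ≤ x.1 ∧ x.1 ≤ M) : shf^[j] S = 0 :=
  fin_shf_aux j S fun x hx => ⟨(hS x hx).1, (hS x hx).2.1, le_trans (hS x hx).2.2 hj⟩

omit [Fintype ι] in
private theorem fin_count_clean (M : ℕ) (dirs : List ι) (l : ι) (hl : l ∈ dirs) :
    M + 1 ≤ (clean M dirs).count l := by
  unfold clean
  induction dirs with
  | nil => exact absurd hl List.not_mem_nil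
  | cons d ds ih =>
    rw [List.flatMap_cons, List.count_append]
    by_cases h : l = d
    · subst h
      rw [List.count_replicate_self]
      exact Nat.le_add_right _ _
    · have h1 : l ∈ ds := by
        rcases List.mem_cons.1 hl with h2 | h2
        · exact absurd h2 h
        · exact h2
      exact le_trans (ih h1) (Nat.le_add_left _ _)

omit [DecidableEq ι] in
private theorem fin_kinds_simple {c : Cfg ι} (hN : c.N = 0) (hΦ : ∀ l, c.Φ l = 0) :
    c.kinds = (Multiset.replicate c.s 1).map Kind.free + 0 := by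
  have h1 : c.kinds = c.N.map Kind.free + Multiset.replicate c.s (Kind.free 1) +
      ∑ l, (c.Φ l).map fun x => Kind.forced l x.1 x.2 := rfl
  rw [h1, hN, Finset.sum_eq_zero (fun l _ => by rw [hΦ l, Multiset.map_zero]),
    Multiset.map_zero, zero_add, Multiset.map_replicate]

end Pool.Agent.H18.Ex

end

section

/-!
# Module Sched: the schedule (abstract version)

Always peel a direction with maximal `a l`, until all `a l ≤ T'`; then clean.
-/

namespace Pool.Agent.H18.Cub

open Finset Pool.Agent.H18.Ex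

variable {Λ : Type} [Fintype Λ] [DecidableEq Λ]

/-- The states between `min N t` and `N`. -/
def Reg (N : Λ → ℕ) (t : ℕ) (a : Λ → ℕ) : Prop := ∀ i, min (N i) t ≤ a i ∧ a i ≤ N i

omit [DecidableEq Λ] in
theorem Reg.le {N : Λ → ℕ} {t : ℕ} {a : Λ → ℕ} (h : Reg N t a) (i : Λ) : a i ≤ N i := (h i).2

omit [DecidableEq Λ] in
theorem Reg.mono {N : Λ → ℕ} {t t' : ℕ} (ht : t ≤ t') {a : Λ → ℕ} (h : Reg N t' a) :
    Reg N t a := fun i => ⟨(min_le_min le_rfl ht).trans (h i).1, (h i).2⟩

omit [Fintype Λ] in
theorem dn_le (l : Λ) (a : Λ → ℕ) (i : Λ) : dn l a i ≤ a i := by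
  unfold dn
  by_cases h : i = l
  · subst h
    rw [Function.update_self]
    omega
  · rw [Function.update_of_ne h]

omit [Fintype Λ] in
theorem dn_self (l : Λ) (a : Λ → ℕ) : dn l a l = a l - 1 := by
  unfold dn
  rw [Function.update_self]

omit [Fintype Λ] in
theorem dn_ne {l i : Λ} (h : i ≠ l) (a : Λ → ℕ) : dn l a i = a i := by
  unfold dn
  rw [Function.update_of_ne h]

omit [Fintype Λ] in
theorem Reg.dn {N : Λ → ℕ} {t : ℕ} {a : Λ → ℕ} (h : Reg N t a) (l : Λ) (hl : t < a l) :
    Reg N t (dn l a) := by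
  intro i
  by_cases hi : i = l
  · subst hi
    rw [dn_self]
    have h1 := (h i).2
    have h2 : min (N i) t ≤ t := min_le_right _ _
    omega
  · rw [dn_ne hi]
    exact h i

theorem ell_one_left (M : ℕ) : ell 1 M = M := by
  unfold ell
  simp

/-- The used directions. -/
noncomputable def dirsS (N : Λ → ℕ) (T' : ℕ) : List Λ := (univ.filter fun l => T' < N l).toList

omit [DecidableEq Λ] in
theorem mem_dirsS {N : Λ → ℕ} {T' : ℕ} {l : Λ} : l ∈ dirsS N T' ↔ T' < N l := by
  unfold dirsS
  rw [mem_toList, mem_filter]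
  exact ⟨fun h => h.2, fun h => ⟨mem_univ _, h⟩⟩

omit [Fintype Λ] in
theorem count_clean (M : ℕ) (dirs : List Λ) (hnd : dirs.Nodup) (l : Λ) :
    (clean M dirs).count l = if l ∈ dirs then M + 1 else 0 := by
  unfold clean
  induction dirs with
  | nil => simp
  | cons d ds ih =>
    rw [List.flatMap_cons, List.count_append, ih (List.nodup_cons.1 hnd).2, List.count_replicate]
    have h1 := (List.nodup_cons.1 hnd).1
    by_cases h : l = d
    · subst h
      rw [if_neg h1, if_pos List.mem_cons_self]
      simp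
    · have h2 : (d == l) = false := by simpa using fun h' => h h'.symm
      rw [h2]
      simp [h]

omit [Fintype Λ] [DecidableEq Λ] in
theorem length_clean (M : ℕ) (dirs : List Λ) : (clean M dirs).length = dirs.length * (M + 1) := by
  unfold clean
  induction dirs with
  | nil => simp
  | cons d ds ih =>
    rw [List.flatMap_cons, List.length_append, ih, List.length_replicate, List.length_cons]
    ring

omit [Fintype Λ] [DecidableEq Λ] in
theorem mem_clean {M : ℕ} {dirs : List Λ} {l : Λ} (h : l ∈ clean M dirs) : l ∈ dirs := by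
  unfold clean at h
  rw [List.mem_flatMap] at h
  obtain ⟨d, hd, h1⟩ := h
  rw [List.eq_of_mem_replicate h1]
  exact hd

end Pool.Agent.H18.Cub

end

section

namespace Pool.Agent.H18.Fat

open MvPolynomial Finset

/-- Exponent vectors not involving the variable `0`, of degree smaller than `m`. -/
noncomputable def aff (r m : ℕ) : Finset (Fin (r + 1) →₀ ℕ) := by
  classical
  exact if m = 0 then ∅ else (mons (r + 1) (m - 1)).image (fun γ => γ.erase 0)

theorem degree_erase_zero {r : ℕ} (γ : Fin (r + 1) →₀ ℕ) :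
    (γ.erase 0).degree + γ 0 = γ.degree := by
  rw [Finsupp.degree_eq_sum, Finsupp.degree_eq_sum, Fin.sum_univ_succ, Fin.sum_univ_succ]
  simp only [Finsupp.erase_same, zero_add]
  rw [add_comm]
  congr 1
  exact sum_congr rfl fun i _ => Finsupp.erase_ne (Fin.succ_ne_zero i)

theorem mem_aff {r m : ℕ} {β : Fin (r + 1) →₀ ℕ} :
    β ∈ aff r m ↔ β 0 = 0 ∧ β.degree < m := by
  classical
  unfold aff
  split_ifs with h
  · subst h
    simp
  · rw [mem_image]
    constructor
    · rintro ⟨γ, hγ, rfl⟩
      rw [mem_mons] at hγ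
      have := degree_erase_zero γ
      refine ⟨by simp, by omega⟩
    · rintro ⟨h0, h1⟩
      refine ⟨β + Finsupp.single 0 (m - 1 - β.degree), ?_, ?_⟩
      · rw [mem_mons]
        simp only [map_add, Finsupp.degree_single]
        omega
      · ext j
        by_cases hj : j = 0
        · subst hj
          simp [h0]
        · simp [Finsupp.erase_ne hj, Finsupp.single_eq_of_ne hj]

theorem card_aff {r : ℕ} (hr : 1 ≤ r) (m : ℕ) : (aff r m).card = (m + r - 1).choose r := by
  classical
  unfold aff
  split_ifs with h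
  · subst h
    rw [card_empty, Nat.choose_eq_zero_of_lt (by omega)]
  · rw [card_image_of_injOn, card_mons]
    · congr 1
      omega
    · intro γ hγ γ' hγ' he
      have h1 := mem_mons.1 hγ
      have h2 := mem_mons.1 hγ'
      have h3 := degree_erase_zero γ
      have h4 := degree_erase_zero γ'
      simp only at he
      rw [he] at h3
      have h5 : γ 0 = γ' 0 := by omega
      ext j
      by_cases hj : j = 0
      · subst hj
        exact h5
      · have := congrArg (fun b => b j) he
        simpa [Finsupp.erase_ne hj] using this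

section

variable {ι : Type*} [Fintype ι]

/-- Indices of the linear conditions. -/
abbrev Cond (r : ℕ) (m : ι → ℕ) : Type _ := Σ i : ι, {β // β ∈ aff r (m i)}

theorem card_cond {r : ℕ} (hr : 1 ≤ r) (m : ι → ℕ) :
    Fintype.card (Cond r m) = ∑ i, (m i + r - 1).choose r := by
  rw [Fintype.card_sigma]
  refine sum_congr rfl fun i _ => ?_
  rw [Fintype.card_coe, card_aff hr]

/-- The matrix of the linear conditions imposed by the fat points. -/
noncomputable def condMat (r d : ℕ) (p : ι → Fin (r + 1) → ℂ) (m : ι → ℕ) :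
    Matrix (Cond r m) (mons (r + 1) d) ℂ :=
  fun x α => tc (p x.1) α.1 x.2.1

omit [Fintype ι] in
theorem toPoly_mem_fatForms {r d : ℕ} {p : ι → Fin (r + 1) → ℂ} (hp : ∀ i, p i 0 ≠ 0)
    (m : ι → ℕ) (f : mons (r + 1) d → ℂ) :
    toPoly (r + 1) d f ∈ fatForms r d p m ↔ (condMat r d p m).mulVec f = 0 := by
  constructor
  · intro h
    funext x
    have h1 := h.2 x.1 x.2.1 (mem_aff.1 x.2.2).2
    rw [coeff_shift_toPoly] at h1
    rw [Pi.zero_apply, ← h1]
    unfold Matrix.mulVec dotProduct condMat
    exact sum_congr rfl fun α _ => mul_comm _ _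
  · intro h
    refine ⟨toPoly_isHomogeneous f, fun i => ?_⟩
    apply vanishes_of_affine (hp i)
    intro β h0 hdeg
    have h1 := congrFun h ⟨i, β, mem_aff.2 ⟨h0, hdeg⟩⟩
    rw [coeff_shift_toPoly]
    rw [Pi.zero_apply] at h1
    rw [← h1]
    unfold Matrix.mulVec dotProduct condMat
    exact sum_congr rfl fun α _ => mul_comm _ _

theorem fatForms_eq_map {r d : ℕ} {p : ι → Fin (r + 1) → ℂ} (hp : ∀ i, p i 0 ≠ 0)
    (m : ι → ℕ) :
    fatForms r d p m = Submodule.map (toPoly (r + 1) d)
      (LinearMap.ker (condMat r d p m).mulVecLin) := by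
  ext F
  constructor
  · intro h
    refine ⟨fun α => coeff α.1 F, ?_, exists_toPoly h.1⟩
    rw [SetLike.mem_coe, LinearMap.mem_ker, Matrix.mulVecLin_apply]
    rw [← toPoly_mem_fatForms hp, exists_toPoly h.1]
    exact h
  · rintro ⟨f, hf, rfl⟩
    rw [SetLike.mem_coe, LinearMap.mem_ker, Matrix.mulVecLin_apply] at hf
    exact (toPoly_mem_fatForms hp m f).2 hf

theorem finrank_fatForms_eq {r d : ℕ} {p : ι → Fin (r + 1) → ℂ} (hp : ∀ i, p i 0 ≠ 0)
    (m : ι → ℕ) :
    Module.finrank ℂ (fatForms r d p m) =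
      Module.finrank ℂ (LinearMap.ker (condMat r d p m).mulVecLin) := by
  rw [fatForms_eq_map hp]
  exact (Submodule.equivMapOfInjective _ (toPoly_injective _ _) _).finrank_eq.symm

theorem rank_add_finrank {r d : ℕ} {p : ι → Fin (r + 1) → ℂ} (hp : ∀ i, p i 0 ≠ 0)
    (m : ι → ℕ) :
    Module.finrank ℂ (LinearMap.range (condMat r d p m).mulVecLin) +
      Module.finrank ℂ (fatForms r d p m) = (d + r).choose r := by
  rw [finrank_fatForms_eq hp, LinearMap.finrank_range_add_finrank_ker, Module.finrank_fintype_fun_eq_card,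
    Fintype.card_coe, card_mons]

theorem finrank_range_le {r : ℕ} (d : ℕ) (hr : 1 ≤ r) (p : ι → Fin (r + 1) → ℂ) (m : ι → ℕ) :
    Module.finrank ℂ (LinearMap.range (condMat r d p m).mulVecLin) ≤
      ∑ i, (m i + r - 1).choose r := by
  rw [← card_cond hr m, ← Module.finrank_fintype_fun_eq_card (R := ℂ)]
  exact Submodule.finrank_le _

/-- Every fat point scheme imposes at most its length many conditions. -/
theorem finrank_fatForms_ge {r d : ℕ} (hr : 1 ≤ r) {p : ι → Fin (r + 1) → ℂ}
    (hp : ∀ i, p i 0 ≠ 0) (m : ι → ℕ) :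
    ((d + r).choose r : ℤ) - ∑ i, ((m i + r - 1).choose r : ℤ) ≤
      Module.finrank ℂ (fatForms r d p m) := by
  have h1 := rank_add_finrank (d := d) hp m
  have h2 := finrank_range_le d hr p m
  have h3 : ((∑ i, (m i + r - 1).choose r : ℕ) : ℤ) = ∑ i, ((m i + r - 1).choose r : ℤ) := by
    push_cast
    rfl
  rw [← h3]
  omega

end

/-- The condition matrix with indeterminate points. -/
noncomputable def genMat (r d : ℕ) {k : ℕ} (m : Fin k → ℕ) :
    Matrix (Cond r m) (mons (r + 1) d) (MvPolynomial (Fin k × Fin (r + 1)) ℂ) :=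
  fun x α => ∏ j, (C ((α.1 j).choose (x.2.1 j) : ℂ) * X (x.1, j) ^ (α.1 j - x.2.1 j))

theorem genMat_map {r d k : ℕ} (m : Fin k → ℕ) (p : Fin k → Fin (r + 1) → ℂ) :
    (genMat r d m).map (eval fun x : Fin k × Fin (r + 1) => p x.1 x.2) = condMat r d p m := by
  ext x α
  simp [genMat, condMat, tc]

/-- Surjectivity of a matrix with polynomial entries is an open condition. -/
theorem exists_poly_surjective {σ R K : Type*} [Fintype R] [Fintype K]
    (N : Matrix R K (MvPolynomial σ ℂ)) (a₀ : σ → ℂ)
    (h : Function.Surjective (N.map (eval a₀)).mulVec) :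
    ∃ G : MvPolynomial σ ℂ, eval a₀ G ≠ 0 ∧
      ∀ a, eval a G ≠ 0 → Function.Surjective (N.map (eval a)).mulVec := by
  classical
  obtain ⟨B, hB⟩ := Matrix.mulVec_surjective_iff_exists_right_inverse.1 h
  have hB' : ∀ a : σ → ℂ, (B.map (C : ℂ → MvPolynomial σ ℂ)).map (eval a) = B := by
    intro a
    ext i j
    simp
  let D : Matrix R R (MvPolynomial σ ℂ) := N * (B.map (C : ℂ → MvPolynomial σ ℂ))
  have hD : ∀ a : σ → ℂ, eval a D.det = ((N.map (eval a)) * B).det := by
    intro a
    rw [RingHom.map_det, RingHom.mapMatrix_apply]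
    congr 1
    change (N * (B.map (C : ℂ → MvPolynomial σ ℂ))).map (eval a) = _
    rw [Matrix.map_mul, hB']
  refine ⟨D.det, ?_, ?_⟩
  · rw [hD, hB, Matrix.det_one]
    exact one_ne_zero
  · intro a ha
    rw [hD] at ha
    have hunit : IsUnit ((N.map (eval a)) * B) := by
      rw [Matrix.isUnit_iff_isUnit_det]
      exact isUnit_iff_ne_zero.2 ha
    rw [Matrix.mulVec_surjective_iff_exists_right_inverse]
    obtain ⟨E, hE⟩ := isUnit_iff_exists_inv.1 hunit
    exact ⟨B * E, by rw [← Matrix.mul_assoc]; exact hE⟩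

/-- Semicontinuity: if some configuration (with nonzero first coordinates) imposes maximal
conditions then general points do. -/
theorem general_of_special {r d k : ℕ} (hr : 1 ≤ r) (m : Fin k → ℕ)
    (p₀ : Fin k → Fin (r + 1) → ℂ) (hp₀ : ∀ i, p₀ i 0 ≠ 0)
    (h : ImposesMaximalConditions r d p₀ m) :
    ForGeneralPoints r k fun p => ImposesMaximalConditions r d p m := by
  classical
  -- the polynomial making all first coordinates nonzero
  let G₀ : MvPolynomial (Fin k × Fin (r + 1)) ℂ := ∏ i : Fin k, X (i, 0)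
  have hG₀ : ∀ p : Fin k → Fin (r + 1) → ℂ,
      eval (fun x => p x.1 x.2) G₀ = ∏ i : Fin k, p i 0 := by
    intro p
    simp [G₀, map_prod]
  have hsum : ((∑ i, (m i + r - 1).choose r : ℕ) : ℤ) = ∑ i, ((m i + r - 1).choose r : ℤ) := by
    push_cast
    rfl
  have hr0 := rank_add_finrank (d := d) hp₀ m
  unfold ImposesMaximalConditions at h
  rw [← hsum] at h
  -- it is enough to find `G` with a suitable property
  suffices hmain : ∃ G : MvPolynomial (Fin k × Fin (r + 1)) ℂ,
      eval (fun x => p₀ x.1 x.2) G ≠ 0 ∧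
      ∀ p : Fin k → Fin (r + 1) → ℂ, eval (fun x => p x.1 x.2) G ≠ 0 → (∀ i, p i 0 ≠ 0) →
        ImposesMaximalConditions r d p m by
    obtain ⟨G, hG, hG'⟩ := hmain
    have hprod : ∏ i : Fin k, p₀ i 0 ≠ 0 := prod_ne_zero_iff.2 fun i _ => hp₀ i
    refine ⟨G * G₀, ?_, ?_⟩
    · intro h0
      have h1 := congrArg (eval fun x : Fin k × Fin (r + 1) => p₀ x.1 x.2) h0
      rw [map_mul, hG₀, map_zero] at h1
      exact (mul_ne_zero hG hprod) h1
    · intro p hp
      rw [map_mul, hG₀] at hp
      have h2 := prod_ne_zero_iff.1 (right_ne_zero_of_mul hp)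
      exact hG' p (left_ne_zero_of_mul hp) fun i => h2 i (mem_univ i)
  rcases le_or_gt (∑ i, (m i + r - 1).choose r) ((d + r).choose r) with hle | hlt
  · -- independent conditions
    have hker : Module.finrank ℂ (LinearMap.range (condMat r d p₀ m).mulVecLin) =
        Fintype.card (Cond r m) := by
      rw [card_cond hr]
      have h3 : (0 : ℤ) ≤ ((d + r).choose r : ℤ) - ((∑ i, (m i + r - 1).choose r : ℕ) : ℤ) := by
        omega
      rw [max_eq_right h3] at h
      omega
    have hsurj : Function.Surjective (condMat r d p₀ m).mulVec := by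
      have h4 : LinearMap.range (condMat r d p₀ m).mulVecLin = ⊤ := by
        apply Submodule.eq_top_of_finrank_eq
        rw [hker, Module.finrank_fintype_fun_eq_card]
      rw [LinearMap.range_eq_top, Matrix.coe_mulVecLin] at h4
      exact h4
    rw [← genMat_map] at hsurj
    obtain ⟨G, hG1, hG2⟩ := exists_poly_surjective _ _ hsurj
    refine ⟨G, hG1, fun p hG hp => ?_⟩
    have hsurj' := hG2 _ hG
    rw [genMat_map] at hsurj'
    have h6 : Module.finrank ℂ (LinearMap.range (condMat r d p m).mulVecLin) =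
        ∑ i, (m i + r - 1).choose r := by
      rw [← card_cond hr]
      have h7 : LinearMap.range (condMat r d p m).mulVecLin = ⊤ := by
        rw [LinearMap.range_eq_top, Matrix.coe_mulVecLin]
        exact hsurj'
      rw [h7, finrank_top, Module.finrank_fintype_fun_eq_card]
    have h8 := rank_add_finrank (d := d) hp m
    unfold ImposesMaximalConditions
    rw [← hsum, max_eq_right (by omega)]
    omega
  · -- no forms at all
    have hzero : Module.finrank ℂ (fatForms r d p₀ m) = 0 := by
      rw [max_eq_left (by omega)] at h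
      exact_mod_cast h
    rw [finrank_fatForms_eq hp₀] at hzero
    have hker : LinearMap.ker (condMat r d p₀ m).mulVecLin = ⊥ :=
      Submodule.finrank_eq_zero.1 hzero
    rw [← genMat_map] at hker
    obtain ⟨G, hG1, hG2⟩ := exists_poly_injective _ _ hker
    refine ⟨G, hG1, fun p hG hp => ?_⟩
    have h10 := hG2 _ hG
    rw [genMat_map] at h10
    have h12 : Module.finrank ℂ (fatForms r d p m) = 0 := by
      rw [finrank_fatForms_eq hp, h10, finrank_bot]
    unfold ImposesMaximalConditions
    rw [← hsum, max_eq_left (by omega), h12]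
    rfl

end Pool.Agent.H18.Fat

end
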