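import Pool.Agent.H94.LP3.H18.FatGrid
import Pool.Agent.H94.LP3.H18.Ub.VDim
import Pool.Agent.H94.LP3.M10
import Pool.Agent.H94.LP3.M12
import Pool.Agent.H94.LP3.M13
import Pool.Agent.H94.LP3.M14

/-! The parts of this file: H18.FatPerfect_1, H18.Ub.VDefs_1, H18.Ub.VGen, H74.CT.Upper, H74.CT.Two. -/

section

namespace Pool.Agent.H18.Fat

open MvPolynomial Finset

/-! ### Counting -/

theorem card_fiber {r s d : ℕ} (hs : 0 < s) (b : Fin r → Fin s) (hb : gsum b ≤ d) :
    ((mons (r + 1) d).filter fun α => res hs α = b).card =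
      (mons (r + 1) ((d - gsum b) / s)).card := by
  classical
  refine card_nbij' (fun α => Finsupp.equivFunOnFinite.symm fun j => α j / s)
    (fun γ => Finsupp.equivFunOnFinite.symm
      (Fin.cons (s * γ 0 + (d - gsum b) % s) fun j => s * γ j.succ + b j)) ?_ ?_ ?_ ?_
  · intro α hα
    rw [mem_coe, mem_filter] at hα
    have h1 := sum_div_add_gsum hs hα.1
    rw [hα.2] at h1
    rw [mem_coe, mem_mons, Finsupp.degree_eq_sum]
    simp only [Finsupp.equivFunOnFinite_symm_apply_apply]
    have h2 : d - gsum b = α 0 % s + s * ∑ j, α j / s := by omega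
    rw [h2, Nat.add_mul_div_left _ _ hs, Nat.div_eq_of_lt (Nat.mod_lt _ hs), zero_add]
  · intro γ hγ
    rw [mem_coe, mem_mons, Finsupp.degree_eq_sum, Fin.sum_univ_succ] at hγ
    rw [mem_coe, mem_filter]
    constructor
    · rw [mem_mons, Finsupp.degree_eq_sum, Fin.sum_univ_succ]
      simp only [Finsupp.equivFunOnFinite_symm_apply_apply, Fin.cons_zero, Fin.cons_succ]
      rw [sum_add_distrib, ← mul_sum]
      have h3 := Nat.div_add_mod (d - gsum b) s
      rw [← hγ, mul_add] at h3
      unfold gsum at *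
      omega
    · funext j
      apply Fin.ext
      simp only [res, Finsupp.equivFunOnFinite_symm_apply_apply, Fin.cons_succ]
      rw [Nat.mul_add_mod, Nat.mod_eq_of_lt (b j).2]
  · intro α hα
    rw [mem_coe, mem_filter] at hα
    have h1 := sum_div_add_gsum hs hα.1
    rw [hα.2] at h1
    ext j
    simp only [Finsupp.equivFunOnFinite_symm_apply_apply]
    refine Fin.cases ?_ (fun i => ?_) j
    · simp only [Fin.cons_zero]
      have h2 : d - gsum b = α 0 % s + s * ∑ j, α j / s := by omega
      rw [h2, Nat.add_mul_mod_self_left, Nat.mod_mod]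
      exact Nat.div_add_mod _ _
    · simp only [Fin.cons_succ]
      have h3 := congrFun hα.2 i
      have h4 : α i.succ % s = b i := Fin.ext_iff.1 h3
      rw [← h4]
      exact Nat.div_add_mod _ _
  · intro γ hγ
    ext j
    simp only [Finsupp.equivFunOnFinite_symm_apply_apply]
    refine Fin.cases ?_ (fun i => ?_) j
    · simp only [Fin.cons_zero]
      rw [Nat.mul_add_div hs, Nat.div_eq_of_lt (Nat.mod_lt _ hs), add_zero]
    · simp only [Fin.cons_succ]
      rw [Nat.mul_add_div hs, Nat.div_eq_of_lt (b i).2, add_zero]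

/-- The perfect multiplicities. -/
def perf {r s : ℕ} (d : ℕ) (b : Fin r → Fin s) : ℕ :=
  if gsum b ≤ d then (d - gsum b) / s + 1 else 0

theorem sum_perf {r s : ℕ} (hr : 1 ≤ r) (hs : 0 < s) (d : ℕ) :
    ∑ b : Fin r → Fin s, (perf d b + r - 1).choose r = (d + r).choose r := by
  classical
  rw [← card_mons r d, card_eq_sum_card_fiberwise (f := res hs) (t := univ)
    (fun _ _ => mem_coe.2 (mem_univ _))]
  refine sum_congr rfl fun b _ => ?_
  unfold perf
  split_ifs with hb
  · rw [card_fiber hs b hb, card_mons]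
    generalize (d - gsum b) / s = t
    have h : t + 1 + r - 1 = t + r := by omega
    rw [h]
  · rw [Nat.choose_eq_zero_of_lt (by omega)]
    symm
    rw [card_eq_zero, filter_eq_empty_iff]
    intro α hα h
    have h1 := sum_div_add_gsum hs hα
    rw [h] at h1
    omega

theorem perf_spec {r s : ℕ} (hs : 0 < s) {d : ℕ} (b : Fin r → Fin s) (hb : gsum b ≤ d) :
    d < s * perf d b + gsum b := by
  unfold perf
  rw [if_pos hb, mul_add, mul_one]
  have h1 := Nat.div_add_mod (d - gsum b) s
  have h2 := Nat.mod_lt (d - gsum b) hs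
  omega

theorem le_perf {r s : ℕ} (hs : 0 < s) {d n : ℕ} (b : Fin r → Fin s)
    (h : s * (n - 1) + gsum b ≤ d) : n ≤ perf d b := by
  unfold perf
  rw [if_pos (by omega)]
  have h1 : n - 1 ≤ (d - gsum b) / s := by
    rw [Nat.le_div_iff_mul_le hs, mul_comm]
    omega
  omega

theorem gridPt_zero {r s : ℕ} (ζ : ℂ) (b : Fin r → Fin s) : gridPt ζ b 0 = 1 := rfl

theorem gridPt_ne {r s : ℕ} (ζ : ℂ) (b : Fin r → Fin s) : gridPt ζ b 0 ≠ 0 := by
  rw [gridPt_zero]
  exact one_ne_zero

/-- The conditions of the perfect grid configuration are independent. -/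
theorem grid_surjective {r s : ℕ} (d : ℕ) (hr : 1 ≤ r) (hs : 0 < s) {ζ : ℂ}
    (hζ : IsPrimitiveRoot ζ s) :
    Function.Surjective (condMat r d (fun b : Fin r → Fin s => gridPt ζ b) (perf d)).mulVec := by
  classical
  have hker : LinearMap.ker
      (condMat r d (fun b : Fin r → Fin s => gridPt ζ b) (perf d)).mulVecLin = ⊥ := by
    rw [LinearMap.ker_eq_bot']
    intro f hf
    rw [Matrix.mulVecLin_apply, ← toPoly_mem_fatForms (fun b => gridPt_ne ζ b)] at hf
    funext α
    exact grid_core hs hζ f (perf d) (fun b hb => perf_spec hs b hb) hf.2 α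
  have hfr := LinearMap.finrank_range_add_finrank_ker
    (condMat r d (fun b : Fin r → Fin s => gridPt ζ b) (perf d)).mulVecLin
  rw [hker, finrank_bot, add_zero, Module.finrank_fintype_fun_eq_card, Fintype.card_coe,
    card_mons, ← sum_perf hr hs d, ← card_cond hr (perf d),
    ← Module.finrank_fintype_fun_eq_card ℂ] at hfr
  have h0 := LinearMap.range_eq_top.1 (Submodule.eq_top_of_finrank_eq hfr)
  rwa [Matrix.coe_mulVecLin] at h0

/-- Independence is inherited by subschemes. -/
theorem surjective_of_sub {r d : ℕ} {ι κ : Type*} [Fintype ι] [Fintype κ]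
    {q : ι → Fin (r + 1) → ℂ} {μ : ι → ℕ} (h : Function.Surjective (condMat r d q μ).mulVec)
    (φ : κ → ι) (hφ : Function.Injective φ) (m : κ → ℕ) (hm : ∀ i, m i ≤ μ (φ i)) :
    Function.Surjective (condMat r d (fun i => q (φ i)) m).mulVec := by
  classical
  intro v
  let e : Cond r m → Cond r μ := fun x =>
    ⟨φ x.1, x.2.1, mem_aff.2 ⟨(mem_aff.1 x.2.2).1, lt_of_lt_of_le (mem_aff.1 x.2.2).2 (hm x.1)⟩⟩
  have he : Function.Injective e := by
    rintro ⟨i, β, hβ⟩ ⟨j, γ, hγ⟩ hxy
    simp only [e, Sigma.mk.injEq] at hxy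
    obtain ⟨h1, h2⟩ := hxy
    have h3 := hφ h1
    subst h3
    simp only [heq_eq_eq, Subtype.mk.injEq] at h2
    subst h2
    rfl
  obtain ⟨f, hf⟩ := h (Function.extend e v 0)
  refine ⟨f, ?_⟩
  funext x
  have h1 := congrFun hf (e x)
  rw [he.extend_apply] at h1
  rw [← h1]
  rfl

theorem finrank_of_surjective {r d : ℕ} (hr : 1 ≤ r) {ι : Type*} [Fintype ι]
    {p : ι → Fin (r + 1) → ℂ} (hp : ∀ i, p i 0 ≠ 0) {m : ι → ℕ}
    (h : Function.Surjective (condMat r d p m).mulVec) :
    (∑ i, (m i + r - 1).choose r) + Module.finrank ℂ (fatForms r d p m) = (d + r).choose r := by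
  have h1 := rank_add_finrank (d := d) hp m
  have h2 : LinearMap.range (condMat r d p m).mulVecLin = ⊤ := by
    rw [LinearMap.range_eq_top, Matrix.coe_mulVecLin]
    exact h
  rw [h2, finrank_top, Module.finrank_fintype_fun_eq_card, card_cond hr] at h1
  exact h1

/-! ### Adding simple points -/

theorem vanishesToOrder_zero {n : ℕ} (F : MvPolynomial (Fin n) ℂ) (q : Fin n → ℂ) :
    VanishesToOrder F q 0 := fun β hβ => absurd hβ (by omega)

end Pool.Agent.H18.Fat

end

section

/-!
# Project UB: small multiplicities and a given scheme, incomplete traces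

As in project UA, but the traces are only killed by points of multiplicities at most `M` together with
at least `w` simple points.
-/

namespace Pool.Agent.H18.Ub

open Finset Pool.Agent.H18.Ex Pool.Agent.H18.Cub Pool.Agent.H18.Pr Pool.Agent.H18.Ua

section

variable {Λ : Type} [Fintype Λ] [DecidableEq Λ] {n : ℕ}

/-- The trace is killed by points of multiplicities at most `M` and at least `w` simple points as soon
as the lengths suffice. -/
def Gw (Y : SysN Λ n) (M w : ℕ) (l : Λ) (a : Λ → ℕ) : Prop :=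
  ∀ S : Multiset ℕ, (∀ m ∈ S, m ≤ M) → ∀ x : ℕ, w ≤ x → Y.F l a ≤ (S.map (ell n)).sum + x →
    Y.tr l a (S + Multiset.replicate x 1)

end

section

variable {Λ : Type} [Fintype Λ] [DecidableEq Λ] {n : ℕ}

/-- The numerical properties of a Horace system below the state `N`. -/
structure NumV (Y : SysN Λ n) (M t w : ℕ) (N : Λ → ℕ) : Prop where
  hn : 1 ≤ n
  hM : 1 ≤ M
  ht : TU n M ≤ t
  hw : EV n M * w ≤ t
  hq : Fintype.card Λ = qU n M
  hN : ∀ i, 2 * M + 2 ≤ N i
  Fle : ∀ a l, RegU M N a → Y.F l a ≤ t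
  leF : ∀ a l, RegU M N a → (EV n M - 1) * t ≤ EV n M * Y.F l a
  gd : ∀ a l, RegU M N a → Gw Y M w l a
  leR : ∀ a, RegU M N a → ((4 * M * qU n M * t : ℕ) : ℤ) ≤ Y.R a
  full : ∀ a, RegU M N a → FullN Y a
  kill : ∀ a, RegU M N a → ∀ (S : Multiset (Kind Λ)) (x s : ℕ) (G : Multiset ℕ),
    (∀ m ∈ G, 1 ≤ m ∧ m ≤ M) → Y.K a (S + Multiset.replicate x (Kind.free 1)) →
    x ≤ (G.map (ell (n + 1))).sum + s →
    (M * t ≤ s ∨ x + ell (n + 1) M * (M * t) ≤ (G.map (ell (n + 1))).sum + s) →
    Y.K a (S + G.map Kind.free + Multiset.replicate s (Kind.free 1))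

end

end Pool.Agent.H18.Ub

end

section

/-!
# Module VGen (UB): general points
-/

namespace Pool.Agent.H18.Ub

open Finset Pool.Agent.H18.Fat

/-- The points outside `J` impose at most their lengths many conditions. -/
theorem finrank_ge_add {r d k : ℕ} (hr : 1 ≤ r) {p : Fin k → Fin (r + 1) → ℂ}
    (hp : ∀ i, p i 0 ≠ 0) (m : Fin k → ℕ) (J : Finset (Fin k)) :
    (Module.finrank ℂ (fatForms r d p fun i => if i ∈ J then m i else 0) : ℤ) -
      ∑ i ∈ univ.filter (fun i => i ∉ J), ((m i + r - 1).choose r : ℤ) ≤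
      Module.finrank ℂ (fatForms r d p m) := by
  classical
  set A := fatForms r d p fun i => if i ∈ J then m i else 0 with hA
  set B := fatForms r d p fun i => if i ∈ J then 0 else m i with hB
  set V := MvPolynomial.homogeneousSubmodule (Fin (r + 1)) ℂ d with hV
  have hAV : A ≤ V := fun F hF => hF.1
  have hBV : B ≤ V := fun F hF => hF.1
  have hAB : A ⊓ B ≤ fatForms r d p m := by
    rintro F ⟨h1, h2⟩
    refine ⟨h1.1, fun i => ?_⟩
    by_cases hi : i ∈ J
    · have := h1.2 i
      simpa only [if_pos hi] using this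
    · have := h2.2 i
      simpa only [if_neg hi] using this
  have h0 : fatForms r d p (fun _ : Fin k => 0) = V := by
    ext F
    constructor
    · exact fun h => h.1
    · exact fun h => ⟨h, fun i β hβ => absurd hβ (Nat.not_lt_zero _)⟩
  have hVr : Module.finrank ℂ V = (d + r).choose r := by
    have h1 := rank_add_finrank (d := d) hp fun _ : Fin k => 0
    have h2 := finrank_range_le d hr p fun _ : Fin k => 0
    have h3 : ∑ i : Fin k, ((fun _ : Fin k => 0) i + r - 1).choose r = 0 := by
      apply sum_eq_zero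
      intro i _
      exact Nat.choose_eq_zero_of_lt (show 0 + r - 1 < r by omega)
    rw [h3] at h2
    rw [h0] at h1
    omega
  have : FiniteDimensional ℂ V := by
    rcases Nat.eq_zero_or_pos (Module.finrank ℂ V) with h | h
    · rw [hVr] at h
      have := Nat.choose_pos (show r ≤ d + r by omega)
      omega
    · exact Module.finite_of_finrank_pos h
  have : FiniteDimensional ℂ A := Submodule.finiteDimensional_of_le hAV
  have : FiniteDimensional ℂ B := Submodule.finiteDimensional_of_le hBV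
  have : FiniteDimensional ℂ (fatForms r d p m) :=
    Submodule.finiteDimensional_of_le (S₂ := V) fun F hF => hF.1
  have h1 := Submodule.finrank_sup_add_finrank_inf_eq A B
  have h2 : Module.finrank ℂ (A ⊔ B : Submodule ℂ (MvPolynomial (Fin (r + 1)) ℂ)) ≤
      (d + r).choose r := by
    rw [← hVr]
    exact Submodule.finrank_mono (sup_le hAV hBV)
  have h3 : Module.finrank ℂ (A ⊓ B : Submodule ℂ (MvPolynomial (Fin (r + 1)) ℂ)) ≤
      Module.finrank ℂ (fatForms r d p m) := Submodule.finrank_mono hAB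
  have h4 := finrank_fatForms_ge (d := d) hr hp fun i => if i ∈ J then 0 else m i
  have h5 : ∑ i, (((fun i => if i ∈ J then 0 else m i) i + r - 1).choose r : ℤ) =
      ∑ i ∈ univ.filter (fun i => i ∉ J), ((m i + r - 1).choose r : ℤ) := by
    rw [sum_filter]
    refine sum_congr rfl fun i _ => ?_
    by_cases hi : i ∈ J
    · simp only [not_true_eq_false, if_false, hi, if_true]
      rw [Nat.choose_eq_zero_of_lt (show 0 + r - 1 < r by omega)]
      rfl
    · simp only [not_false_eq_true, if_true, hi, if_false]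
  rw [h5] at h4
  rw [← hB] at h4
  omega

/-- General points exist for finitely many conditions. -/
theorem general_all {r k : ℕ} {P : ℕ → (Fin k → Fin (r + 1) → ℂ) → Prop} (s : Finset ℕ)
    (h : ∀ j ∈ s, ForGeneralPoints r k (P j)) :
    ForGeneralPoints r k fun p => ∀ j ∈ s, P j p := by
  classical
  induction s using Finset.induction_on with
  | empty => exact ⟨1, one_ne_zero, fun p _ j hj => absurd hj (notMem_empty j)⟩
  | insert a s ha ih =>
    refine ((h a (mem_insert_self a s)).and (ih fun j hj => h j (mem_insert_of_mem hj))).mono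
      fun p hp j hj => ?_
    rcases mem_insert.1 hj with rfl | hj
    · exact hp.1
    · exact hp.2 j hj

end Pool.Agent.H18.Ub

end

section

/-!
# Upper bound for the dimension, by adding the nodes in the order of decreasing multiplicity
-/

namespace Pool.Agent.H74.CT

open MvPolynomial Pool.Agent.H18.Fat Pool.Agent.H22.LU

/-- Multiplicities `m` on `A`, `0` elsewhere. -/
def on {ι : Type*} [DecidableEq ι] (A : Finset ι) (m : ι → ℕ) : ι → ℕ :=
  fun l => if l ∈ A then m l else 0

theorem mm_zero (A : Finset ℕ) (m : ℕ → ℕ) (P : ℕ) : mm A m P 0 = on A m := by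
  funext l
  unfold mm on
  split_ifs <;> rfl

theorem mm_self (A : Finset ℕ) (m : ℕ → ℕ) (P : ℕ) :
    mm A m P (m P) = on (insert P A) m := by
  funext l
  unfold mm on
  by_cases h1 : l ∈ A
  · rw [if_pos h1, if_pos (Finset.mem_insert_of_mem h1)]
  · by_cases h2 : l = P
    · subst h2
      rw [if_neg h1, if_pos rfl, if_pos (Finset.mem_insert_self _ _)]
    · rw [if_neg h1, if_neg h2, if_neg]
      rw [Finset.mem_insert]
      tauto

/-- Raising the multiplicity of one node. -/
theorem raise (r j : ℕ) (hr : 2 ≤ r) (A : Finset ℕ) (P : ℕ) (hP : P ∉ A) (m : ℕ → ℕ)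
    (γ : ℕ → ℕ) : ∀ n : ℕ, (∀ l ∈ A, n ≤ m l) → (∀ i < n, i ≤ j ∧
      ∑ l ∈ A, (m l + i - j) ≤ γ i ∧ γ i ≤ i ∧ ∑ l ∈ A, m l + i + (r - 2) * γ i ≤ r * j) →
    Module.finrank ℂ (fatForms r j (fun l : ℕ => pt r l) (mm A m P n)) +
      ∑ i ∈ Finset.range n, (i - γ i + (r - 1)).choose (r - 1) ≤
      Module.finrank ℂ (fatForms r j (fun l : ℕ => pt r l) (on A m)) := by
  intro n
  induction n with
  | zero =>
    intro _ _
    rw [Finset.range_zero, Finset.sum_empty, Nat.add_zero, mm_zero]
  | succ n ih =>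
    intro h1 h2
    have h3 := ih (fun l hl => (Nat.le_succ n).trans (h1 l hl)) fun i hi => h2 i (by omega)
    obtain ⟨h4, h5, h6, h7⟩ := h2 n (Nat.lt_succ_self n)
    have h8 := stage r j n hr A P hP m h4 (fun l hl => h1 l hl) _ rfl (h5.trans h6)
      (le_trans (Nat.add_le_add_left (Nat.mul_le_mul_left _ h5) _) h7)
    have h9 : (n - γ n + (r - 1)).choose (r - 1) ≤
        (n - ∑ l ∈ A, (m l + n - j) + (r - 1)).choose (r - 1) :=
      Nat.choose_le_choose _ (by omega)
    rw [Finset.sum_range_succ]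
    omega

theorem finrank_le_mons (r j : ℕ) {ι : Type*} (p : ι → Fin (r + 1) → ℂ) (m : ι → ℕ) :
    Module.finrank ℂ (fatForms r j p m) ≤ (j + r).choose r := by
  have h1 : fatForms r j p m ≤ LinearMap.range (toPoly (r + 1) j) := fun F hF =>
    ⟨fun α => coeff α.1 F, exists_toPoly hF.1⟩
  have h2 := Submodule.finrank_mono h1
  have h3 := LinearMap.finrank_range_le (toPoly (r + 1) j)
  rw [Module.finrank_fintype_fun_eq_card, Fintype.card_coe, card_mons] at h3
  exact h2.trans h3

theorem upper (r j : ℕ) (hr : 2 ≤ r) (m : ℕ → ℕ) (γ : ℕ → ℕ → ℕ) (J : Finset ℕ)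
    (hmj : ∀ P ∈ J, m P ≤ j + 1)
    (hγ : ∀ P ∈ J, ∀ i < m P, ∑ l ∈ J.filter (fun l => l ≠ P ∧ m P ≤ m l), (m l + i - j) ≤ γ P i ∧
      γ P i ≤ i ∧ ∑ l ∈ J, m l + (r - 2) * γ P i ≤ r * j + 1) :
    Module.finrank ℂ (fatForms r j (fun l : ℕ => pt r l) (on J m)) +
      ∑ P ∈ J, ∑ i ∈ Finset.range (m P), (i - γ P i + (r - 1)).choose (r - 1) ≤
      (j + r).choose r := by
  have key : ∀ A : Finset ℕ, A ⊆ J →
      Module.finrank ℂ (fatForms r j (fun l : ℕ => pt r l) (on A m)) +
      ∑ P ∈ A, ∑ i ∈ Finset.range (m P), (i - γ P i + (r - 1)).choose (r - 1) ≤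
      (j + r).choose r := by
    intro A
    induction A using Finset.induction_on_min_value m with
    | empty =>
      intro _
      rw [Finset.sum_empty, Nat.add_zero]
      exact finrank_le_mons _ _ _ _
    | insert P A hP hmin ih =>
      intro hAJ
      have hPJ : P ∈ J := hAJ (Finset.mem_insert_self P A)
      have hAJ' : A ⊆ J := fun l hl => hAJ (Finset.mem_insert_of_mem hl)
      have h1 := ih hAJ'
      have h2 := raise r j hr A P hP m (γ P) (m P) hmin fun i hi => by
        obtain ⟨h3, h4, h5⟩ := hγ P hPJ i hi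
        have h6 := hmj P hPJ
        refine ⟨by omega, le_trans (Finset.sum_le_sum_of_subset fun l hl => ?_) h3, h4, ?_⟩
        · refine Finset.mem_filter.2 ⟨hAJ' hl, fun h => hP (h ▸ hl), hmin l hl⟩
        · have h7 : ∑ l ∈ insert P A, m l ≤ ∑ l ∈ J, m l := Finset.sum_le_sum_of_subset hAJ
          rw [Finset.sum_insert hP] at h7
          omega
      rw [mm_self] at h2
      rw [Finset.sum_insert hP]
      omega
  exact key J (Finset.Subset.refl J)

/-- Upper bound for the dimension for general points. -/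
theorem upper_fin (r j k : ℕ) (hr : 2 ≤ r) (m : Fin k → ℕ) (γ : Fin k → ℕ → ℕ)
    (J : Finset (Fin k)) (hmj : ∀ P ∈ J, m P ≤ j + 1)
    (hγ : ∀ P ∈ J, ∀ i < m P, ∑ l ∈ J.filter (fun l => l ≠ P ∧ m P ≤ m l), (m l + i - j) ≤ γ P i ∧
      γ P i ≤ i ∧ ∑ l ∈ J, m l + (r - 2) * γ P i ≤ r * j + 1) :
    (generalDim r j fun i => if i ∈ J then m i else 0) +
      ∑ P ∈ J, ∑ i ∈ Finset.range (m P), (i - γ P i + (r - 1)).choose (r - 1) ≤
      (j + r).choose r := by
  classical
  set m' : ℕ → ℕ := fun l => if h : l < k then m ⟨l, h⟩ else 0 with hm'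
  set γ' : ℕ → ℕ → ℕ := fun l => if h : l < k then γ ⟨l, h⟩ else 0 with hγ'
  set J' : Finset ℕ := J.map Fin.valEmbedding with hJ'
  have hmv : ∀ i : Fin k, m' i.1 = m i := fun i => by
    rw [hm']
    dsimp only
    rw [dif_pos i.2]
  have hγv : ∀ i : Fin k, γ' i.1 = γ i := fun i => by
    rw [hγ']
    dsimp only
    rw [dif_pos i.2]
  have hsumJ : ∀ f : ℕ → ℕ, ∑ l ∈ J', f l = ∑ l ∈ J, f l.1 := fun f => by
    rw [hJ', Finset.sum_map]
    rfl
  have h1 := upper r j hr m' γ' J' (fun P hP => ?_) (fun P hP i hi => ?_)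
  · rw [hsumJ] at h1
    have h2 : ∑ l ∈ J, ∑ i ∈ Finset.range (m' l.1), (i - γ' l.1 i + (r - 1)).choose (r - 1) =
        ∑ P ∈ J, ∑ i ∈ Finset.range (m P), (i - γ P i + (r - 1)).choose (r - 1) := by
      refine Finset.sum_congr rfl fun P _ => ?_
      rw [hmv, hγv]
    rw [h2] at h1
    refine le_trans (Nat.add_le_add_right ?_ _) h1
    refine Nat.sInf_le ⟨fun i : Fin k => pt r (i.1 : ℕ), ?_⟩
    have h3 : fatForms r j (fun i : Fin k => pt r (i.1 : ℕ)) (fun i => if i ∈ J then m i else 0) =
        fatForms r j (fun l : ℕ => pt r l) (on J' m') := by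
      ext F
      constructor
      · intro hF
        refine ⟨hF.1, fun l => ?_⟩
        unfold on
        by_cases hl : l ∈ J'
        · rw [if_pos hl]
          rw [hJ', Finset.mem_map] at hl
          obtain ⟨i, hi, rfl⟩ := hl
          have h4 := hF.2 i
          dsimp only at h4
          rw [if_pos hi] at h4
          rw [Fin.valEmbedding_apply, hmv]
          exact h4
        · rw [if_neg hl]
          exact vanishes_zero _ _
      · intro hF
        refine ⟨hF.1, fun i => ?_⟩
        dsimp only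
        by_cases hi : i ∈ J
        · rw [if_pos hi]
          have h4 := hF.2 i.1
          unfold on at h4
          rw [if_pos (by rw [hJ', Finset.mem_map]; exact ⟨i, hi, rfl⟩), hmv] at h4
          exact h4
        · rw [if_neg hi]
          exact vanishes_zero _ _
    exact congrArg (fun V : Submodule ℂ (MvPolynomial (Fin (r + 1)) ℂ) => Module.finrank ℂ V) h3
  · rw [hJ', Finset.mem_map] at hP
    obtain ⟨i, hi, rfl⟩ := hP
    rw [Fin.valEmbedding_apply, hmv]
    exact hmj i hi
  · rw [hJ', Finset.mem_map] at hP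
    obtain ⟨x, hx, rfl⟩ := hP
    rw [Fin.valEmbedding_apply] at hi ⊢
    rw [hmv] at hi
    have h4 := hγ x hx i hi
    rw [hγv, hmv, hsumJ]
    have h5 : ∑ l ∈ J'.filter (fun l => l ≠ x.1 ∧ m x ≤ m' l), (m' l + i - j) =
        ∑ l ∈ J.filter (fun l => l ≠ x ∧ m x ≤ m l), (m l + i - j) := by
      rw [Finset.sum_filter, Finset.sum_filter, hsumJ]
      refine Finset.sum_congr rfl fun l _ => ?_
      rw [hmv]
      have h6 : (l.1 ≠ x.1 ∧ m x ≤ m l) ↔ (l ≠ x ∧ m x ≤ m l) := by
        rw [Ne, Ne, Fin.val_inj]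
      by_cases h7 : l ≠ x ∧ m x ≤ m l
      · rw [if_pos h7, if_pos (h6.2 h7)]
      · rw [if_neg h7, if_neg fun h8 => h7 (h6.1 h8)]
    have h6 : ∑ l ∈ J, m' l.1 = ∑ l ∈ J, m l := Finset.sum_congr rfl fun l _ => hmv l
    rw [h5, h6]
    exact h4

end Pool.Agent.H74.CT

end

section

/-!
# General points and the second stage lemma
-/

namespace Pool.Agent.H74.CT

open MvPolynomial Pool.Agent.H18.Fat Pool.Agent.H18.Ub Pool.Agent.H22.LU Finset

theorem general_all {r k : ℕ} {α : Type*} (s : Finset α)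
    {P : α → (Fin k → Fin (r + 1) → ℂ) → Prop} (h : ∀ a ∈ s, ForGeneralPoints r k (P a)) :
    ForGeneralPoints r k fun p => ∀ a ∈ s, P a p := by
  classical
  induction s using Finset.induction_on with
  | empty => exact ⟨1, one_ne_zero, fun p _ a ha => absurd ha (notMem_empty a)⟩
  | insert b s hb ih =>
    have h1 := (h b (mem_insert_self b s)).and (ih fun a ha => h a (mem_insert_of_mem ha))
    refine h1.mono fun p hp a ha => ?_
    rcases mem_insert.1 ha with h2 | h2
    · rw [h2]
      exact hp.1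
    · exact hp.2 a h2

theorem general_line {s k : ℕ} {l P : Fin k} (hl : l ≠ P) :
    ForGeneralPoints (s + 1) k fun p => ∃ L : MvPolynomial (Fin (s + 1 + 1)) ℂ,
      L.IsHomogeneous 1 ∧ VanishesToOrder L (p l) 1 ∧ ¬ VanishesToOrder L (p P) 1 := by
  classical
  refine ⟨X (l, 1) * X (P, 0) - X (l, 0) * X (P, 1), fun h => ?_, fun p hp => ?_⟩
  · have h1 := congrArg (eval fun x : Fin k × Fin (s + 1 + 1) =>
      if x = (l, 1) ∨ x = (P, 0) then (1 : ℂ) else 0) h
    rw [map_sub, map_mul, map_mul, eval_X, eval_X, eval_X, eval_X, map_zero] at h1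
    have h2 : ¬ (((l, 0) : Fin k × Fin (s + 1 + 1)) = (l, 1) ∨
        ((l, 0) : Fin k × Fin (s + 1 + 1)) = (P, 0)) := by
      rintro (h3 | h3)
      · have := congrArg Prod.snd h3
        exact absurd this (by simp)
      · exact hl (congrArg Prod.fst h3)
    rw [if_pos (Or.inl rfl), if_pos (Or.inr rfl), if_neg h2] at h1
    norm_num at h1
  · refine ⟨C (p l 1) * X 0 - C (p l 0) * X 1, ?_, ?_, ?_⟩
    · refine IsHomogeneous.sub ?_ ?_
      · simpa using (isHomogeneous_C _ (p l 1)).mul (isHomogeneous_X ℂ (0 : Fin (s + 1 + 1)))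
      · simpa using (isHomogeneous_C _ (p l 0)).mul (isHomogeneous_X ℂ (1 : Fin (s + 1 + 1)))
    · rw [vanishes_one_iff]
      simp only [map_sub, map_mul, eval_C, eval_X]
      ring
    · rw [vanishes_one_iff]
      simp only [map_sub, map_mul, eval_C, eval_X]
      simp only [map_sub, map_mul, eval_X] at hp
      exact hp

/-- Points in general position. -/
structure Gen (s k N q ν : ℕ) (J : Finset (Fin k)) (p : Fin k → Fin (s + 1 + 1) → ℂ) : Prop where
  sim : ∀ t ≤ N, ∀ w : Fin k → ℕ, (∀ l, w l ≤ N + 1) →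
    Module.finrank ℂ (fatForms (s + 1) t p w) = generalDim (s + 1) t w
  line : ∀ P l : Fin k, l ≠ P → ∃ L : MvPolynomial (Fin (s + 1 + 1)) ℂ,
      L.IsHomogeneous 1 ∧ VanishesToOrder L (p l) 1 ∧ ¬ VanishesToOrder L (p P) 1
  g0 : ∀ P ∈ J, ∃ G : MvPolynomial (Fin (s + 1 + 1)) ℂ, G.IsHomogeneous (2 * q) ∧
      (∀ l ∈ J, l ≠ P → VanishesToOrder G (p l) ν) ∧ ¬ VanishesToOrder G (p P) 1

/-- Multiplicities `m` on `A`, `i` at `P`, zero elsewhere. -/
def mf {k : ℕ} (A : Finset (Fin k)) (m : Fin k → ℕ) (P : Fin k) (i : ℕ) : Fin k → ℕ :=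
  fun l => if l ∈ A then m l else if l = P then i else 0

/-- One point. -/
theorem base {s k N q₀ ν₀ : ℕ} {J : Finset (Fin k)} {p : Fin k → Fin (s + 1 + 1 + 1) → ℂ}
    (hp : Gen (s + 1) k N q₀ ν₀ J p) (P : Fin k) {j n : ℕ} (hn : n ≤ j + 1) (hj : j ≤ N)
    (m : Fin k → ℕ) (hm : m P = n) :
    Module.finrank ℂ (fatForms (s + 2) j p fun l => if l ∈ ({P} : Finset (Fin k)) then m l else 0) +
      ∑ i ∈ range n, (i + (s + 1)).choose (s + 1) ≤ (j + (s + 2)).choose (s + 2) := by
  classical
  have h1 := upper_fin (s + 2) j k (by omega) m (fun _ _ => 0) {P}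
    (fun Q hQ => by
      rw [mem_singleton.1 hQ, hm]
      exact hn) (fun Q hQ i hi => by
      rw [mem_singleton] at hQ
      subst hQ
      refine ⟨?_, Nat.zero_le _, ?_⟩
      · rw [sum_filter, sum_singleton, if_neg fun h => h.1 rfl]
      · rw [sum_singleton, hm, Nat.mul_zero]
        nlinarith)
  rw [sum_singleton, hm] at h1
  have h2 := hp.sim j hj (fun l => if l ∈ ({P} : Finset (Fin k)) then m l else 0) (fun l => by
    by_cases hl : l ∈ ({P} : Finset (Fin k))
    · rw [if_pos hl, mem_singleton.1 hl, hm]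
      omega
    · rw [if_neg hl]
      exact Nat.zero_le _)
  have h3 : ∀ i : ℕ, (i - 0 + (s + 2 - 1)).choose (s + 2 - 1) = (i + (s + 1)).choose (s + 1) :=
    fun i => rfl
  rw [sum_congr rfl fun i _ => h3 i] at h1
  rw [h2]
  exact h1

/-- Upper bound, from the stages. -/
theorem upper2 {s k N q₀ ν₀ : ℕ} {J : Finset (Fin k)} {p : Fin k → Fin (s + 1 + 1 + 1) → ℂ}
    (hp : Gen (s + 1) k N q₀ ν₀ J p) {j : ℕ} (hj : j ≤ N) (m : Fin k → ℕ) (γ : Fin k → ℕ → ℕ)
    (hmj : ∀ P ∈ J, m P ≤ j + 1)
    (hst : ∀ P ∈ J, ∀ A ⊆ J, P ∉ A → A.Nonempty → (∀ l ∈ A, m P ≤ m l) → ∀ i < m P,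
      Module.finrank ℂ (fatForms (s + 2) j p (mf A m P (i + 1))) +
        (i - γ P i + (s + 1)).choose (s + 1) ≤
      Module.finrank ℂ (fatForms (s + 2) j p (mf A m P i))) :
    Module.finrank ℂ (fatForms (s + 2) j p fun l => if l ∈ J then m l else 0) +
      ∑ P ∈ J, ∑ i ∈ range (m P), (i - γ P i + (s + 1)).choose (s + 1) ≤
      (j + (s + 2)).choose (s + 2) := by
  classical
  have key : ∀ A : Finset (Fin k), A ⊆ J →
      Module.finrank ℂ (fatForms (s + 2) j p fun l => if l ∈ A then m l else 0) +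
      ∑ P ∈ A, ∑ i ∈ range (m P), (i - γ P i + (s + 1)).choose (s + 1) ≤
      (j + (s + 2)).choose (s + 2) := by
    intro A
    induction A using Finset.induction_on_min_value m with
    | empty =>
      intro _
      rw [sum_empty, Nat.add_zero]
      exact finrank_le_mons _ _ _ _
    | insert P A hP hmin ih =>
      intro hAJ
      have hPJ : P ∈ J := hAJ (mem_insert_self P A)
      have hAJ' : A ⊆ J := fun l hl => hAJ (mem_insert_of_mem hl)
      rcases A.eq_empty_or_nonempty with hA | hA
      · subst hA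
        have h1 := base hp P (hmj P hPJ) hj m rfl
        rw [sum_insert hP, sum_empty]
        refine le_trans (Nat.add_le_add_left ?_ _) h1
        change ∑ i ∈ range (m P), (i - γ P i + (s + 1)).choose (s + 1) ≤ _
        refine (sum_le_sum fun i _ => Nat.choose_le_choose _ ?_)
        omega
      · have h1 := ih hAJ'
        have h2 : ∀ n ≤ m P, Module.finrank ℂ (fatForms (s + 2) j p (mf A m P n)) +
            ∑ i ∈ range n, (i - γ P i + (s + 1)).choose (s + 1) ≤
            Module.finrank ℂ (fatForms (s + 2) j p fun l => if l ∈ A then m l else 0) := by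
          intro n
          induction n with
          | zero =>
            intro _
            have h3 : mf A m P 0 = fun l => if l ∈ A then m l else 0 := by
              funext l
              unfold mf
              split_ifs <;> rfl
            rw [h3, range_zero, sum_empty, Nat.add_zero]
          | succ n ihn =>
            intro hn
            have h3 := ihn (by omega)
            have h4 := hst P hPJ A hAJ' hP hA hmin n (by omega)
            rw [sum_range_succ]
            omega
        have h3 := h2 (m P) le_rfl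
        have h4 : mf A m P (m P) = fun l => if l ∈ insert P A then m l else 0 := by
          funext l
          unfold mf
          by_cases h5 : l ∈ A
          · rw [if_pos h5, if_pos (mem_insert_of_mem h5)]
          · by_cases h6 : l = P
            · subst h6
              rw [if_neg h5, if_pos rfl, if_pos (mem_insert_self _ _)]
            · rw [if_neg h5, if_neg h6, if_neg]
              rw [mem_insert]
              tauto
        rw [h4] at h3
        rw [sum_insert hP]
        omega
  exact key J (Subset.refl J)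

end Pool.Agent.H74.CT

end
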