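import Pool.Agent.H94.LP3.H18.FatToric
import Pool.Agent.H94.LP3.M10
import Pool.Agent.H94.LP3.M12
import Pool.Agent.H94.LP3.M13

/-! The parts of this file: H18.Cub.WC, H18.Pr.Kap, H18.Pr.Space, H18.TileFinal_1, H18.Ua.UDefs_1, H18.Ua.UFam, H18.Ua.UKill, H74.CT.Mul. -/

section

/-!
# Module WC: plane curves with multiple points on the curve `y = x^e`

Coordinates `x = X 0`, `z = X 1 = y - x^e`.  The curve is `z = 0`, its points are `(x, 0)`.
-/

namespace Pool.Agent.H18.Cub

open Finset Pool.Agent.H18.Ex

/-- `X i - v` divides `F - F|_{X i = v}`. -/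
theorem wc_dvd_sub_sub1 {ι : Type} [DecidableEq ι] (i : ι) (v : ℂ) (F : MvPolynomial ι ℂ) :
    (MvPolynomial.X i - MvPolynomial.C v) ∣ F - sub1 i v F := by
  induction F using MvPolynomial.induction_on with
  | C a =>
    have : sub1 i v (MvPolynomial.C a) = MvPolynomial.C a := (sub1 i v).commutes a
    rw [this, sub_self]
    exact dvd_zero _
  | add p q hp hq =>
    rw [map_add]
    have : p + q - (sub1 i v p + sub1 i v q) = (p - sub1 i v p) + (q - sub1 i v q) := by ring
    rw [this]
    exact dvd_add hp hq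
  | mul_X p n hp =>
    rw [map_mul]
    have hX : sub1 i v (MvPolynomial.X n) =
        Function.update (MvPolynomial.X : ι → MvPolynomial ι ℂ) i (MvPolynomial.C v) n := by
      simp [sub1]
    have : p * MvPolynomial.X n - sub1 i v p * sub1 i v (MvPolynomial.X n) =
        (p - sub1 i v p) * sub1 i v (MvPolynomial.X n) +
          p * (MvPolynomial.X n - sub1 i v (MvPolynomial.X n)) := by ring
    rw [this]
    refine dvd_add (Dvd.dvd.mul_right hp _) (Dvd.dvd.mul_left ?_ _)
    rw [hX]
    by_cases hn : n = i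
    · subst hn
      simp
    · rw [Function.update_of_ne hn, sub_self]
      exact dvd_zero _

theorem wc_exists_residual {ι : Type} [DecidableEq ι] (i : ι) (v : ℂ) (F : MvPolynomial ι ℂ)
    (h : sub1 i v F = 0) :
    ∃ F', F = (MvPolynomial.X i - MvPolynomial.C v) * F' := by
  have := wc_dvd_sub_sub1 i v F
  rw [h, sub_zero] at this
  exact this

end Pool.Agent.H18.Cub

end

section

/-!
# Module Kap (PR): the cost of a monomial
-/

namespace Pool.Agent.H18.Pr

open Finset Pool.Agent.H18.Ex Pool.Agent.H18.Cub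

theorem kap_succ_le (e A b : ℕ) (he : 1 ≤ e) : kap e A (b + 1) ≤ kap e A b + 1 := by
  induction A generalizing b with
  | zero => exact le_rfl
  | succ A ih =>
    show (b + 1) % e + kap e A ((b + 1) / e) ≤ b % e + kap e A (b / e) + 1
    have h1 : b % e < e := Nat.mod_lt _ he
    have h2 : e * (b / e) + b % e = b := Nat.div_add_mod b e
    rcases Nat.lt_or_ge (b % e + 1) e with h | h
    · have h3 : (b + 1) % e = b % e + 1 := by
        have h4 : b + 1 = b % e + 1 + e * (b / e) := by omega
        rw [h4, Nat.add_mul_mod_self_left, Nat.mod_eq_of_lt h]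
      have h5 : (b + 1) / e = b / e := by
        have h4 : b + 1 = b % e + 1 + e * (b / e) := by omega
        rw [h4, Nat.add_mul_div_left _ _ he, Nat.div_eq_of_lt h, Nat.zero_add]
      rw [h3, h5]
      omega
    · have h6 : b % e + 1 = e := by omega
      have h4 : b + 1 = e * (b / e + 1) := by
        rw [Nat.mul_add, Nat.mul_one]
        omega
      have h3 : (b + 1) % e = 0 := by rw [h4, Nat.mul_mod_right]
      have h5 : (b + 1) / e = b / e + 1 := by rw [h4, Nat.mul_div_cancel_left _ he]
      rw [h3, h5]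
      have h7 := ih (b / e)
      omega

theorem kap_add_le (e A a b : ℕ) (he : 1 ≤ e) : kap e A (a + b) ≤ a + kap e A b := by
  induction a with
  | zero => rw [Nat.zero_add, Nat.zero_add]
  | succ a ih =>
    have h := kap_succ_le e A (a + b) he
    rw [show a + 1 + b = a + b + 1 by omega]
    omega

theorem kap_mul_add (e A a b : ℕ) (he : 1 ≤ e) : kap e (A + 1) (a + e * b) ≤ a + kap e A b := by
  refine (kap_add_le e (A + 1) a (e * b) he).trans ?_
  show a + (e * b % e + kap e A (e * b / e)) ≤ a + kap e A b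
  rw [Nat.mul_mod_right, Nat.mul_div_cancel_left _ he, Nat.zero_add]

theorem le_kap (e A a : ℕ) (he : 1 ≤ e) : a + 1 ≤ e ^ A * (kap e A a + 1) := by
  induction A generalizing a with
  | zero =>
    show a + 1 ≤ e ^ 0 * (a + 1)
    rw [pow_zero, one_mul]
  | succ A ih =>
    have h1 : a % e < e := Nat.mod_lt _ he
    have h2 : e * (a / e) + a % e = a := Nat.div_add_mod a e
    have h3 : a + 1 ≤ e * (a / e + 1) := by
      rw [Nat.mul_add, Nat.mul_one]
      omega
    have h4 : kap e A (a / e) ≤ kap e (A + 1) a := Nat.le_add_left _ _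
    calc a + 1 ≤ e * (a / e + 1) := h3
      _ ≤ e * (e ^ A * (kap e A (a / e) + 1)) := Nat.mul_le_mul_left _ (ih _)
      _ ≤ e * (e ^ A * (kap e (A + 1) a + 1)) :=
          Nat.mul_le_mul_left _ (Nat.mul_le_mul_left _ (Nat.add_le_add_right h4 1))
      _ = e ^ (A + 1) * (kap e (A + 1) a + 1) := by rw [pow_succ]; ring

/-- The number of exponents of cost at most `d`. -/
theorem kap_card (e A d : ℕ) (he : 1 ≤ e) :
    ((range (e ^ A * (d + 1))).filter fun a => kap e A a ≤ d).card = tau e A 1 d := by
  induction A generalizing d with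
  | zero =>
    show ((range (e ^ 0 * (d + 1))).filter fun a => a ≤ d).card = (d + 1).choose 1
    rw [pow_zero, one_mul, Nat.choose_one_right, filter_true_of_mem, card_range]
    intro a ha
    exact Nat.lt_succ_iff.1 (mem_range.1 ha)
  | succ A ih =>
    have hmaps : ∀ a ∈ (range (e ^ (A + 1) * (d + 1))).filter fun a => kap e (A + 1) a ≤ d,
        a % e ∈ range e := fun a _ => mem_range.2 (Nat.mod_lt _ he)
    rw [card_eq_sum_card_fiberwise hmaps]
    show _ = ∑ δ ∈ range e, if δ ≤ d then tau e A 1 (d - δ) else 0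
    refine sum_congr rfl fun δ hδ => ?_
    rw [mem_range] at hδ
    split_ifs with h
    · rw [← ih (d - δ)]
      have h1 : (((range (e ^ (A + 1) * (d + 1))).filter fun a => kap e (A + 1) a ≤ d).filter
          fun a => a % e = δ) =
          ((range (e ^ A * (d - δ + 1))).filter fun b => kap e A b ≤ d - δ).image
            fun b => δ + e * b := by
        ext a
        simp only [mem_filter, mem_range, mem_image]
        constructor
        · rintro ⟨⟨_, h3⟩, h4⟩
          have h5 : kap e (A + 1) a = a % e + kap e A (a / e) := rfl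
          have h6 : kap e A (a / e) ≤ d - δ := by omega
          refine ⟨a / e, ⟨?_, h6⟩, ?_⟩
          · have h7 := le_kap e A (a / e) he
            have h8 : e ^ A * (kap e A (a / e) + 1) ≤ e ^ A * (d - δ + 1) :=
              Nat.mul_le_mul_left _ (by omega)
            omega
          · have := Nat.div_add_mod a e
            omega
        · rintro ⟨b, ⟨_, h3⟩, rfl⟩
          have h4 : (δ + e * b) % e = δ := by
            rw [Nat.add_mul_mod_self_left, Nat.mod_eq_of_lt hδ]
          have h5 : (δ + e * b) / e = b := by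
            rw [Nat.add_mul_div_left _ _ he, Nat.div_eq_of_lt hδ, Nat.zero_add]
          have h6 : kap e (A + 1) (δ + e * b) = δ + kap e A b := by
            show (δ + e * b) % e + kap e A ((δ + e * b) / e) = _
            rw [h4, h5]
          refine ⟨⟨?_, by omega⟩, h4⟩
          have h7 := le_kap e (A + 1) (δ + e * b) he
          have h8 : e ^ (A + 1) * (kap e (A + 1) (δ + e * b) + 1) ≤ e ^ (A + 1) * (d + 1) :=
            Nat.mul_le_mul_left _ (by omega)
          omega
      rw [h1, card_image_of_injective]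
      intro b b' hb
      have hb' : δ + e * b = δ + e * b' := hb
      exact Nat.eq_of_mul_eq_mul_left he (Nat.add_left_cancel hb')
    · rw [card_eq_zero, filter_eq_empty_iff]
      intro a ha h2
      rw [mem_filter] at ha
      have h5 : kap e (A + 1) a = a % e + kap e A (a / e) := rfl
      omega

theorem kap_eq_zero (e A a : ℕ) (he : 1 ≤ e) (h : kap e A a = 0) : a = 0 := by
  induction A generalizing a with
  | zero => exact h
  | succ A ih =>
    have h1 : a % e + kap e A (a / e) = 0 := h
    have h2 := ih (a / e) (by omega)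
    have h3 := Nat.div_add_mod a e
    rw [h2] at h3
    omega

variable {R : ℕ}

/-- Substituting `x_u = x_{u'}^e`. -/
theorem cost_subS (e : ℕ) (he : 1 ≤ e) (u u' : Fin (R + 1)) (hu : u.val = u'.val + 1)
    (α : Fin (R + 1) → ℕ) :
    cost e u' (fun i => if i = u then 0 else if i = u' then α u' + e * α u else α i) ≤
      cost e u α := by
  have hne : u' ≠ u := by
    intro h
    rw [h] at hu
    omega
  have hmem : u' ∈ univ.erase u := mem_erase.2 ⟨hne, mem_univ _⟩
  unfold cost
  rw [← add_sum_erase univ _ (mem_univ u), ← add_sum_erase (univ.erase u) _ hmem,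
    ← add_sum_erase univ (fun i => if i = u then kap e (R - u.val) (α i) else α i) (mem_univ u),
    ← add_sum_erase (univ.erase u) (fun i => if i = u then kap e (R - u.val) (α i) else α i) hmem]
  have hrest : ∑ i ∈ (univ.erase u).erase u', (if i = u' then
      kap e (R - u'.val) (if i = u then 0 else if i = u' then α u' + e * α u else α i) else
      (if i = u then 0 else if i = u' then α u' + e * α u else α i)) =
      ∑ i ∈ (univ.erase u).erase u', (if i = u then kap e (R - u.val) (α i) else α i) := by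
    refine sum_congr rfl fun i hi => ?_
    rw [mem_erase, mem_erase] at hi
    rw [if_neg hi.1, if_neg hi.2.1, if_neg hi.1, if_neg hi.2.1]
  rw [hrest]
  simp only [if_neg hne, if_neg hne.symm, if_true]
  have hR : R - u'.val = (R - u.val) + 1 := by
    have := u.2
    omega
  rw [hR]
  have h1 := kap_mul_add e (R - u.val) (α u') (α u) he
  omega

/-- Substituting a constant for `x_v`. -/
theorem cost_subH (e : ℕ) (u v : Fin (R + 1)) (hv : v ≠ u) (α : Fin (R + 1) → ℕ) :
    cost e u (Function.update α v 0) ≤ cost e u α := by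
  unfold cost
  refine sum_le_sum fun i _ => ?_
  by_cases h : i = v
  · subst h
    rw [if_neg hv, if_neg hv, Function.update_self]
    exact Nat.zero_le _
  · rw [Function.update_of_ne h]

theorem cost_add_of_ne (e : ℕ) (u i : Fin (R + 1)) (hi : i ≠ u) (α : Fin (R + 1) → ℕ) (c : ℕ) :
    cost e u (Function.update α i (α i + c)) = cost e u α + c := by
  unfold cost
  rw [← add_sum_erase univ _ (mem_univ i),
    ← add_sum_erase univ (fun j => if j = u then kap e (R - u.val) (α j) else α j) (mem_univ i)]
  rw [if_neg hi, if_neg hi, Function.update_self]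
  have h : ∑ j ∈ univ.erase i, (if j = u then
      kap e (R - u.val) (Function.update α i (α i + c) j) else
      Function.update α i (α i + c) j) =
      ∑ j ∈ univ.erase i, (if j = u then kap e (R - u.val) (α j) else α j) := by
    refine sum_congr rfl fun j hj => ?_
    rw [Function.update_of_ne (mem_erase.1 hj).1]
  rw [h]
  omega

theorem cost_add_top (e : ℕ) (he : 1 ≤ e) (u : Fin (R + 1)) (α : Fin (R + 1) → ℕ) :
    cost e u (Function.update α u (α u + 1)) ≤ cost e u α + 1 := by
  unfold cost
  rw [← add_sum_erase univ _ (mem_univ u),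
    ← add_sum_erase univ (fun j => if j = u then kap e (R - u.val) (α j) else α j) (mem_univ u)]
  rw [if_pos rfl, if_pos rfl, Function.update_self]
  have h : ∑ j ∈ univ.erase u, (if j = u then
      kap e (R - u.val) (Function.update α u (α u + 1) j) else
      Function.update α u (α u + 1) j) =
      ∑ j ∈ univ.erase u, (if j = u then kap e (R - u.val) (α j) else α j) := by
    refine sum_congr rfl fun j hj => ?_
    rw [Function.update_of_ne (mem_erase.1 hj).1]
  rw [h]
  have h1 := kap_succ_le e (R - u.val) (α u) he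
  omega

theorem cost_ge_of_ne (e : ℕ) (u i : Fin (R + 1)) (hi : i ≠ u) (α : Fin (R + 1) → ℕ) :
    α i ≤ cost e u α := by
  have h := single_le_sum (f := fun j => if j = u then kap e (R - u.val) (α j) else α j)
    (fun j _ => Nat.zero_le _) (mem_univ i)
  simp only [if_neg hi] at h
  exact h

theorem cost_ge_top (e : ℕ) (u : Fin (R + 1)) (α : Fin (R + 1) → ℕ) :
    kap e (R - u.val) (α u) ≤ cost e u α := by
  have h := single_le_sum (f := fun j => if j = u then kap e (R - u.val) (α j) else α j)
    (fun j _ => Nat.zero_le _) (mem_univ u)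
  simp only [if_true] at h
  exact h

theorem le_cost (e : ℕ) (he : 1 ≤ e) (u : Fin (R + 1)) (α : Fin (R + 1) → ℕ) (i : Fin (R + 1)) :
    α i + 1 ≤ e ^ R * (cost e u α + 1) := by
  by_cases h : i = u
  · subst h
    have h1 := le_kap e (R - i.val) (α i) he
    have h2 := cost_ge_top e i α
    refine h1.trans (Nat.mul_le_mul (Nat.pow_le_pow_right he (Nat.sub_le _ _)) (by omega))
  · have h1 := cost_ge_of_ne e u i h α
    have h2 : 1 ≤ e ^ R := Nat.one_le_pow _ _ he
    calc α i + 1 ≤ 1 * (cost e u α + 1) := by omega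
      _ ≤ e ^ R * (cost e u α + 1) := Nat.mul_le_mul_right _ h2

theorem cost_eq_zero (e : ℕ) (he : 1 ≤ e) (u : Fin (R + 1)) (α : Fin (R + 1) → ℕ)
    (h : cost e u α = 0) : α = 0 := by
  funext i
  by_cases hi : i = u
  · subst hi
    have h1 := cost_ge_top e i α
    exact kap_eq_zero e (R - i.val) _ he (by omega)
  · have h1 := cost_ge_of_ne e u i hi α
    show α i = 0
    omega

/-- For the top level the cost is the degree. -/
theorem cost_last (e : ℕ) (u : Fin (R + 1)) (hu : u.val = R) (α : Fin (R + 1) → ℕ) :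
    cost e u α = ∑ i, α i := by
  unfold cost
  refine sum_congr rfl fun i _ => ?_
  rw [hu, Nat.sub_self]
  show (if i = u then α i else α i) = α i
  rw [ite_self]

end Pool.Agent.H18.Pr

end

section

/-!
# Module Space (PR): traces and residuals of the spaces `WW`

Compare with `Pool.Agent.H18.Cub.WC` (the case of two variables).
-/

namespace Pool.Agent.H18.Pr

open Finset Pool.Agent.H18.Ex Pool.Agent.H18.Cub

variable {R : ℕ}

theorem space_degreeOf_zero (i : Fin (R + 1)) (F : MvPolynomial (Fin (R + 1)) ℂ) :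
    F.degreeOf i = 0 ↔ i ∉ F.vars := by
  rw [← Nat.le_zero, MvPolynomial.degreeOf_le_iff, MvPolynomial.mem_vars_iff_mem_support]
  constructor
  · rintro h ⟨d, hd, hi⟩
    exact (Finsupp.mem_support_iff.1 hi) (Nat.le_zero.1 (h d hd))
  · intro h d hd
    by_contra hc
    exact h ⟨d, hd, Finsupp.mem_support_iff.2 fun h0 => hc (by rw [h0])⟩

/-- A polynomial of degree zero in `x_i` keeps this after substituting a constant. -/
theorem space_degreeOf_sub1 (i j : Fin (R + 1)) (c : ℂ) (F : MvPolynomial (Fin (R + 1)) ℂ)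
    (h : i ≠ j → F.degreeOf i = 0) : (sub1 j c F).degreeOf i = 0 := by
  rw [space_degreeOf_zero]
  intro hi
  have h1 : sub1 j c F = MvPolynomial.bind₁ (Function.update
    (MvPolynomial.X : Fin (R + 1) → MvPolynomial (Fin (R + 1)) ℂ) j (MvPolynomial.C c)) F := rfl
  rw [h1] at hi
  have h2 := MvPolynomial.vars_bind₁ _ _ hi
  rw [mem_biUnion] at h2
  obtain ⟨k, hk, hik⟩ := h2
  by_cases hkj : k = j
  · subst hkj
    rw [Function.update_self, MvPolynomial.vars_C] at hik
    exact absurd hik (notMem_empty _)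
  · rw [Function.update_of_ne hkj, MvPolynomial.vars_X, mem_singleton] at hik
    subst hik
    exact (space_degreeOf_zero i F).1 (h hkj) hk

end Pool.Agent.H18.Pr

end

section

/-!
# General fat points, all but `r + 1` of which have small multiplicity
-/

namespace Pool.Agent.H18.Fat

open MvPolynomial Finset

section

/-! ### Moments -/

theorem card_full_succ (s m : ℕ) : (full (s + 1) m).card = len (s + 1) m := by
  classical
  induction m with
  | zero =>
    unfold full len
    simp
  | succ m ih =>
    have h : full (s + 1) (m + 1) = full (s + 1) m ∪ mons (s + 1) m := by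
      ext β
      rw [mem_union, mem_full, mem_full, mem_mons]
      omega
    have hdisj : Disjoint (full (s + 1) m) (mons (s + 1) m) := by
      rw [Finset.disjoint_left]
      intro β hβ hβ'
      rw [mem_full] at hβ
      rw [mem_mons] at hβ'
      omega
    rw [h, card_union_of_disjoint hdisj, ih, card_mons]
    unfold len
    have h1 : m + 1 + (s + 1) - 1 = m + s + 1 := by omega
    have h2 : m + (s + 1) - 1 = m + s := by omega
    rw [h1, h2, Nat.choose_succ_succ]
    ring

/-! ### The region of exponents -/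

/-! ### The upper bound -/

/-! ### The lower bound -/

end

end Pool.Agent.H18.Fat

end

section

/-!
# Project UA: small multiplicities and a given scheme

`Fam n` is a family of spaces `W δ` of polynomials of degree at most `δ` in `x_0, …, x_n`, behaving
like the polynomials of degree at most `δ` that vanish on a closed subscheme.  We show: if the numbers
`h δ - h (δ - 1)` (`h δ = dim W δ`) vary slowly below `d` and the traces on hyperplanes are exact then
general points of multiplicities at most `M` impose maximal conditions on `W d`.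
-/

namespace Pool.Agent.H18.Ua

open Finset Pool.Agent.H18.Ex Pool.Agent.H18.Cub Pool.Agent.H18.Pr

variable {n : ℕ}

/-- The trace on `x_0 = v` of the space of degree `δ` is killed by general points of multiplicities at
most `M` as soon as their lengths suffice. -/
def TrEx (A : Fam n) (M δ : ℕ) : Prop :=
  ∀ v, v ∉ A.bad → ∀ S : Multiset ℕ, (∀ m ∈ S, m ≤ M) →
    A.h δ ≤ A.h (δ - 1) + (S.map (ell n)).sum → Fk ((A.W δ).map (sub1 0 v).toLinearMap) S

/-! ### Numbers -/

section

variable {Λ : Type} [Fintype Λ] [DecidableEq Λ]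

/-- The numerical properties of a Horace system below the state `N`. -/
structure NumU (Y : SysN Λ n) (M t : ℕ) (N : Λ → ℕ) : Prop where
  hn : 1 ≤ n
  hM : 1 ≤ M
  ht : TU n M ≤ t
  hq : Fintype.card Λ = qU n M
  hN : ∀ i, 2 * M + 2 ≤ N i
  Fle : ∀ a l, RegU M N a → Y.F l a ≤ t
  leF : ∀ a l, RegU M N a → (4 * M - 1) * t ≤ 4 * M * Y.F l a
  gd : ∀ a l, RegU M N a → Y.Gd M l a
  leR : ∀ a, RegU M N a → ((4 * M * qU n M * t : ℕ) : ℤ) ≤ Y.R a
  full : ∀ a, RegU M N a → FullN Y a
  kill : ∀ a, RegU M N a → ∀ (S : Multiset (Kind Λ)) (x s : ℕ) (G : Multiset ℕ),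
    (∀ m ∈ G, 1 ≤ m ∧ m ≤ M) → Y.K a (S + Multiset.replicate x (Kind.free 1)) →
    x ≤ (G.map (ell (n + 1))).sum + s →
    (M * t ≤ s ∨ x + ell (n + 1) M * (M * t) ≤ (G.map (ell (n + 1))).sum + s) →
    Y.K a (S + G.map Kind.free + Multiset.replicate s (Kind.free 1))

end

end Pool.Agent.H18.Ua

end

section

/-!
# Module UFam (UA): elementary properties of families
-/

namespace Pool.Agent.H18.Ua

open Finset Pool.Agent.H18.Ex Pool.Agent.H18.Cub Pool.Agent.H18.Pr

variable {n : ℕ}

instance Fam.finite (A : Fam n) (δ : ℕ) : FiniteDimensional ℂ (A.W δ) := by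
  have h : A.W δ ≤ MvPolynomial.restrictTotalDegree (Fin (n + 1)) ℂ δ := fun F hF =>
    (MvPolynomial.mem_restrictTotalDegree _ _ _).2 (A.deg δ F hF)
  exact Module.Finite.of_injective (Submodule.inclusion h) (Submodule.inclusion_injective h)

theorem Fam.exists_good (A : Fam n) (s : Finset ℂ) : ∃ v, v ∉ A.bad ∧ v ∉ s := by
  obtain ⟨v, hv⟩ := Infinite.exists_notMem_finset (A.bad ∪ s)
  rw [Finset.mem_union, not_or] at hv
  exact ⟨v, hv⟩

private theorem ufam_ne (v : ℂ) :
    (MvPolynomial.X 0 - MvPolynomial.C v : MvPolynomial (Fin (n + 1)) ℂ) ≠ 0 := by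
  intro h
  have h1 := congrArg (MvPolynomial.coeff (Finsupp.single (0 : Fin (n + 1)) 1)) h
  rw [MvPolynomial.coeff_sub, MvPolynomial.coeff_X, MvPolynomial.coeff_C,
    MvPolynomial.coeff_zero] at h1
  have hne : (0 : Fin (n + 1) →₀ ℕ) ≠ Finsupp.single 0 1 := by
    intro hs
    have := congrArg (fun f => f 0) hs
    simp at this
  rw [if_neg hne] at h1
  norm_num at h1

private theorem ufam_lin_deg (v : ℂ) :
    (MvPolynomial.X 0 - MvPolynomial.C v : MvPolynomial (Fin (n + 1)) ℂ).totalDegree ≤ 1 := by
  refine (MvPolynomial.totalDegree_sub _ _).trans (max_le ?_ ?_)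
  · rw [MvPolynomial.totalDegree_X]
  · rw [MvPolynomial.totalDegree_C]
    exact Nat.zero_le _

private theorem ufam_mul_mem (A : Fam n) (δ : ℕ) (v : ℂ) (F : MvPolynomial (Fin (n + 1)) ℂ)
    (hF : F ∈ A.W δ) : (MvPolynomial.X 0 - MvPolynomial.C v) * F ∈ A.W (δ + 1) :=
  A.mul δ 1 F hF _ (ufam_lin_deg v)

private theorem ufam_sub1_lin (v v' : ℂ) :
    sub1 (0 : Fin (n + 1)) v (MvPolynomial.X 0 - MvPolynomial.C v') =
      MvPolynomial.C (v - v') := by
  simp [sub1, MvPolynomial.algebraMap_eq]

/-- Multiply by `X 0 - C v`. -/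
theorem Fam.h_mono (A : Fam n) (δ : ℕ) : A.h δ ≤ A.h (δ + 1) := by
  let f : A.W δ →ₗ[ℂ] A.W (δ + 1) :=
    { toFun := fun F => ⟨(MvPolynomial.X 0 - MvPolynomial.C 0) * F.1, ufam_mul_mem A δ 0 F.1 F.2⟩
      map_add' := fun F G => by
        apply Subtype.ext
        exact mul_add _ _ _
      map_smul' := fun c F => by
        apply Subtype.ext
        exact mul_smul_comm _ _ _ }
  refine LinearMap.finrank_le_finrank_of_injective (f := f) ?_
  intro F G h
  apply Subtype.ext
  exact mul_left_cancel₀ (ufam_ne 0) (congrArg Subtype.val h)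

theorem Fam.h_mono' (A : Fam n) {δ δ' : ℕ} (hδ : δ ≤ δ') : A.h δ ≤ A.h δ' := by
  induction δ', hδ using Nat.le_induction with
  | base => exact le_rfl
  | succ m _ ih => exact ih.trans (A.h_mono m)

/-- The dimension of the trace (kernel: `(X 0 - C v) * W (δ - 1)`, by `res`). -/
theorem Fam.finrank_trace (A : Fam n) (δ : ℕ) (hδ : 1 ≤ δ) (v : ℂ) (hv : v ∉ A.bad) :
    Module.finrank ℂ ((A.W δ).map (sub1 0 v).toLinearMap :
      Submodule ℂ (MvPolynomial (Fin (n + 1)) ℂ)) + A.h (δ - 1) = A.h δ := by
  obtain ⟨δ, rfl⟩ : ∃ e, δ = e + 1 := ⟨δ - 1, by omega⟩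
  rw [Nat.add_sub_cancel]
  let T : A.W (δ + 1) →ₗ[ℂ] MvPolynomial (Fin (n + 1)) ℂ :=
    (sub1 (0 : Fin (n + 1)) v).toLinearMap.domRestrict (A.W (δ + 1))
  have h1 := LinearMap.finrank_range_add_finrank_ker T
  have h2 : LinearMap.range T = (A.W (δ + 1)).map (sub1 0 v).toLinearMap :=
    LinearMap.range_domRestrict _ _
  have hT : ∀ F : A.W (δ + 1), T F = sub1 0 v F.1 := fun F => rfl
  let f : A.W δ →ₗ[ℂ] LinearMap.ker T :=
    { toFun := fun F => ⟨⟨(MvPolynomial.X 0 - MvPolynomial.C v) * F.1,
        ufam_mul_mem A δ v F.1 F.2⟩, by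
          rw [LinearMap.mem_ker, hT, map_mul, ufam_sub1_lin, sub_self, MvPolynomial.C_0,
            zero_mul]⟩
      map_add' := fun F G => by
        apply Subtype.ext
        apply Subtype.ext
        exact mul_add _ _ _
      map_smul' := fun c F => by
        apply Subtype.ext
        apply Subtype.ext
        exact mul_smul_comm _ _ _ }
  have hf : Function.Bijective f := by
    constructor
    · intro F G h
      apply Subtype.ext
      exact mul_left_cancel₀ (ufam_ne v) (congrArg Subtype.val (congrArg Subtype.val h))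
    · rintro ⟨⟨F, hF⟩, hk⟩
      rw [LinearMap.mem_ker, hT] at hk
      obtain ⟨F', hF'⟩ := wc_exists_residual 0 v F hk
      have hmem : F' ∈ A.W δ := by
        apply A.res δ v hv
        rw [← hF']
        exact hF
      refine ⟨⟨F', hmem⟩, ?_⟩
      apply Subtype.ext
      apply Subtype.ext
      exact hF'.symm
  have h3 := (LinearEquiv.ofBijective f hf).finrank_eq
  rw [h2, ← h3] at h1
  exact h1

private theorem ufam_trace_le (A : Fam n) (δ : ℕ) (v : ℂ) :
    (A.W δ).map (sub1 (0 : Fin (n + 1)) v).toLinearMap ≤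
      (A.W (δ + 1)).map (sub1 (0 : Fin (n + 1)) v).toLinearMap := by
  rintro _ ⟨F, hF, rfl⟩
  have h1 := ufam_mul_mem A δ (v - 1) F hF
  refine ⟨_, h1, ?_⟩
  show sub1 0 v ((MvPolynomial.X 0 - MvPolynomial.C (v - 1)) * F) = sub1 0 v F
  rw [map_mul, ufam_sub1_lin, sub_sub_cancel, MvPolynomial.C_1, one_mul]

/-- The differences increase: multiplication by `X 0 - C v'` induces an injection
`W δ / (X 0 - C v) W (δ - 1) → W (δ + 1) / (X 0 - C v) W δ` for `v ≠ v'`. -/
theorem Fam.t_mono (A : Fam n) (δ : ℕ) (hδ : 1 ≤ δ) :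
    A.h δ + A.h δ ≤ A.h (δ + 1) + A.h (δ - 1) := by
  obtain ⟨v, hv, _⟩ := A.exists_good ∅
  have h1 := A.finrank_trace δ hδ v hv
  have h2 := A.finrank_trace (δ + 1) (by omega) v hv
  rw [Nat.add_sub_cancel] at h2
  have h3 := Submodule.finrank_mono (ufam_trace_le A δ v)
  omega

private theorem ufam_sub1_deg (v : ℂ) (F : MvPolynomial (Fin (n + 1)) ℂ) :
    (sub1 (0 : Fin (n + 1)) v F).totalDegree ≤ F.totalDegree := by
  conv_lhs => rw [F.as_sum, map_sum]
  apply MvPolynomial.totalDegree_finsetSum_le
  intro α hα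
  have h0 : sub1 (0 : Fin (n + 1)) v (MvPolynomial.monomial α (F.coeff α)) =
      MvPolynomial.C (F.coeff α) * α.prod fun i k => (Function.update
        (MvPolynomial.X : Fin (n + 1) → MvPolynomial (Fin (n + 1)) ℂ) 0
          (MvPolynomial.C v)) i ^ k := MvPolynomial.aeval_monomial _ _ _
  rw [h0]
  refine (MvPolynomial.totalDegree_mul _ _).trans ?_
  rw [MvPolynomial.totalDegree_C, zero_add]
  refine le_trans ?_ (MvPolynomial.le_totalDegree hα)
  refine (MvPolynomial.totalDegree_finsetProd _ _).trans ?_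
  apply Finset.sum_le_sum
  intro i _
  refine (MvPolynomial.totalDegree_pow _ _).trans ?_
  by_cases hi : i = 0
  · subst hi
    rw [Function.update_self, MvPolynomial.totalDegree_C]
    omega
  · rw [Function.update_of_ne hi, MvPolynomial.totalDegree_X, mul_one]

private theorem ufam_finrank_le (D : ℕ) (V : Submodule ℂ (MvPolynomial (Fin (n + 1)) ℂ))
    (h1 : ∀ F ∈ V, F.totalDegree ≤ D) (h2 : ∀ F ∈ V, F.degreeOf 0 = 0) :
    Module.finrank ℂ V ≤ (D + n).choose n := by
  classical
  let T : V →ₗ[ℂ] (Pool.Agent.H18.Fat.mons (n + 1) D → ℂ) :=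
    { toFun := fun F α => F.1.coeff (α.1.erase 0)
      map_add' := fun F G => by
        funext α
        exact MvPolynomial.coeff_add _ _ _
      map_smul' := fun c F => by
        funext α
        exact MvPolynomial.coeff_smul _ _ _ }
  have hT : Function.Injective T := by
    rw [← LinearMap.ker_eq_bot, LinearMap.ker_eq_bot']
    rintro ⟨F, hF⟩ hTF
    apply Subtype.ext
    show F = 0
    by_contra hne
    obtain ⟨β, hβ⟩ := MvPolynomial.ne_zero_iff.1 hne
    have hs : β ∈ F.support := MvPolynomial.mem_support_iff.2 hβ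
    have hdeg : β.degree ≤ D := by
      have := MvPolynomial.le_totalDegree hs
      have h3 : (β.sum fun _ e => e) = β.degree := rfl
      rw [h3] at this
      exact this.trans (h1 F hF)
    have hβ0 : β 0 = 0 := by
      have h3 := (MvPolynomial.degreeOf_le_iff (n := 0)).1 (h2 F hF).le β hs
      omega
    have hmem : β + Finsupp.single 0 (D - β.degree) ∈ Pool.Agent.H18.Fat.mons (n + 1) D := by
      rw [Pool.Agent.H18.Fat.mem_mons, map_add, Finsupp.degree_single]
      omega
    have h4 := congrFun hTF ⟨_, hmem⟩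
    apply hβ
    have h5 : (β + Finsupp.single 0 (D - β.degree)).erase 0 = β := by
      ext i
      by_cases hi : i = 0
      · subst hi
        rw [Finsupp.erase_same, hβ0]
      · rw [Finsupp.erase_ne hi, Finsupp.add_apply, Finsupp.single_eq_of_ne hi, add_zero]
    rw [← h5]
    exact h4
  have h3 := LinearMap.finrank_le_finrank_of_injective hT
  rwa [Module.finrank_fintype_fun_eq_card, Fintype.card_coe, Pool.Agent.H18.Fat.card_mons] at h3

/-- The trace consists of polynomials of degree at most `δ + 1` in `x_1, …, x_n`. -/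
theorem Fam.h_succ_le (A : Fam n) (δ : ℕ) : A.h (δ + 1) ≤ A.h δ + (δ + 1 + n).choose n := by
  obtain ⟨v, hv, _⟩ := A.exists_good ∅
  have h2 := A.finrank_trace (δ + 1) (by omega) v hv
  rw [Nat.add_sub_cancel] at h2
  have h3 := ufam_finrank_le (δ + 1) ((A.W (δ + 1)).map (sub1 (0 : Fin (n + 1)) v).toLinearMap)
    (by
      rintro _ ⟨F, hF, rfl⟩
      exact (ufam_sub1_deg v F).trans (A.deg _ F hF))
    (by
      rintro _ ⟨F, _, rfl⟩
      exact space_degreeOf_sub1 0 0 v F fun h => absurd rfl h)
  omega

theorem Fam.h_zero_le (A : Fam n) : A.h 0 ≤ 1 := by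
  let T : A.W 0 →ₗ[ℂ] ℂ :=
    { toFun := fun F => F.1.coeff 0
      map_add' := fun F G => MvPolynomial.coeff_add _ _ _
      map_smul' := fun c F => MvPolynomial.coeff_smul _ _ _ }
  have hT : Function.Injective T := by
    intro F G h
    apply Subtype.ext
    have h1 := MvPolynomial.totalDegree_eq_zero_iff_eq_C.1 (Nat.le_zero.1 (A.deg 0 F.1 F.2))
    have h2 := MvPolynomial.totalDegree_eq_zero_iff_eq_C.1 (Nat.le_zero.1 (A.deg 0 G.1 G.2))
    have h3 : F.1.coeff 0 = G.1.coeff 0 := h
    rw [h1, h2, h3]
  have := LinearMap.finrank_le_finrank_of_injective hT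
  rwa [Module.finrank_self] at this

/-- The residual along the hyperplane `l`. -/
theorem Fam.resW (A : Fam n) {q : ℕ} (v : Fin q → ℂ) (l : Fin q) (hl : v l ∉ A.bad) (δ : ℕ) :
    ResW (gU n v) l (A.W (δ + 1)) (A.W δ) := by
  intro F hF h0
  obtain ⟨F', hF'⟩ := wc_exists_residual 0 (v l) F h0
  refine ⟨F', ?_, hF'⟩
  apply A.res δ (v l) hl
  rw [← hF']
  exact hF

end Pool.Agent.H18.Ua

end

section

/-!
# Module UKill (UA): one more point
-/

namespace Pool.Agent.H18.Ua

open Finset Pool.Agent.H18.Ex

variable {n : ℕ} {Λ : Type}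

namespace UKillX

theorem finrank_totalDegree (n m : ℕ) (hm : 1 ≤ m) :
    Module.finrank ℂ (MvPolynomial.restrictTotalDegree (Fin (n + 1)) ℂ (m - 1)) =
      ell (n + 1) m := by
  unfold MvPolynomial.restrictTotalDegree
  rw [Module.finrank_eq_nat_card_basis (MvPolynomial.basisRestrictSupport ℂ _)]
  have h1 : {s : Fin (n + 1) →₀ ℕ | (s.sum fun _ e => e) ≤ m - 1} =
      (Pool.Agent.H18.Fat.full (n + 1) m : Set (Fin (n + 1) →₀ ℕ)) := by
    ext s
    rw [Set.mem_ofPred_eq, mem_coe, Pool.Agent.H18.Fat.mem_full]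
    have : (s.sum fun _ e => e) = s.degree := by
      rw [Finsupp.degree_apply]
      rfl
    rw [this]
    omega
  rw [h1, Nat.card_coe_set_eq, Set.ncard_coe_finset, Pool.Agent.H18.Fat.card_full_succ]
  rfl

/-- Multiplication by a nonzero polynomial. -/
theorem finrank_mul (G : MvPolynomial (Fin (n + 1)) ℂ) (hG : G ≠ 0)
    (V : Submodule ℂ (MvPolynomial (Fin (n + 1)) ℂ)) :
    Module.finrank ℂ (V.map (LinearMap.mulLeft ℂ G)) = Module.finrank ℂ V := by
  refine (LinearEquiv.finrank_eq (Submodule.equivMapOfInjective _ ?_ V)).symm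
  intro a b hab
  simp only [LinearMap.mulLeft_apply] at hab
  exact mul_left_cancel₀ hG hab

/-- Two subspaces meeting in `0` only. -/
theorem finrank_add_le {E : Type} [AddCommGroup E] [Module ℂ E] (P U V : Submodule ℂ E)
    [FiniteDimensional ℂ V] (hP : P ≤ V) (hU : U ≤ V) (h : P ⊓ U = ⊥) :
    Module.finrank ℂ P + Module.finrank ℂ U ≤ Module.finrank ℂ V := by
  have f1 : FiniteDimensional ℂ P := Submodule.finiteDimensional_of_le hP
  have f2 : FiniteDimensional ℂ U := Submodule.finiteDimensional_of_le hU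
  have h1 := Submodule.finrank_sup_add_finrank_inf_eq P U
  rw [h, finrank_bot, add_zero] at h1
  rw [← h1]
  exact Submodule.finrank_mono (sup_le hP hU)

end UKillX

open UKillX

end Pool.Agent.H18.Ua

end

section

/-!
# Multiplication by a fixed form
-/

namespace Pool.Agent.H74.CT

open MvPolynomial Pool.Agent.H18.Fat Pool.Agent.H22.LU

theorem mult_stage {r t j e : ℕ} {ι : Type*} (p : ι → Fin (r + 1) → ℂ) (P : ι)
    {G : MvPolynomial (Fin (r + 1)) ℂ} (hG : G.IsHomogeneous e) (hj : e + t = j) (μ : ℕ)
    (hP : VanishesToOrder G (p P) μ) (hPn : ¬ VanishesToOrder G (p P) (μ + 1))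
    (w w' m m' : ι → ℕ) (hw : ∀ l, l ≠ P → w l = w' l) (hwP : w' P = w P + 1)
    (hm : ∀ l, l ≠ P → m l = m' l) (hmP : m' P = m P + 1) (hmw : m P = w P + μ)
    (hGl : ∀ l, l ≠ P → VanishesToOrder G (p l) (m l - w l)) :
    Module.finrank ℂ (fatForms r j p m') + Module.finrank ℂ (fatForms r t p w) ≤
      Module.finrank ℂ (fatForms r j p m) + Module.finrank ℂ (fatForms r t p w') := by
  have i1 := fin_fatForms r j p m
  have i2 := fin_fatForms r j p m'
  have i3 := fin_fatForms r t p w
  have i4 := fin_fatForms r t p w'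
  have hGR : ∀ R ∈ fatForms r t p w, G * R ∈ fatForms r j p m := by
    intro R hR
    refine ⟨hj ▸ hG.mul hR.1, fun l => ?_⟩
    by_cases hl : l = P
    · subst hl
      refine van_mono (van_mul hP (hR.2 l)) ?_
      omega
    · refine van_mono (van_mul (hGl l hl) (hR.2 l)) ?_
      omega
  have hle : fatForms r j p m' ≤ fatForms r j p m := by
    intro F hF
    refine ⟨hF.1, fun l => van_mono (hF.2 l) ?_⟩
    by_cases hl : l = P
    · subst hl
      omega
    · rw [hm l hl]
  let f : (fatForms r t p w × fatForms r j p m') →ₗ[ℂ] fatForms r j p m :=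
    { toFun := fun x => ⟨G * x.1.1 + x.2.1, (fatForms r j p m).add_mem
        (hGR _ x.1.2) (hle x.2.2)⟩
      map_add' := by
        intro x y
        apply Subtype.ext
        simp only [Prod.fst_add, Prod.snd_add, Submodule.coe_add, mul_add]
        abel
      map_smul' := by
        intro c x
        apply Subtype.ext
        simp only [Prod.smul_fst, Prod.smul_snd, Submodule.coe_smul, RingHom.id_apply, smul_add,
          mul_smul_comm] }
  have hker : ∀ x ∈ LinearMap.ker f, x.1.1 ∈ fatForms r t p w' := by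
    intro x hx
    rw [LinearMap.mem_ker] at hx
    have h1 : G * x.1.1 + x.2.1 = 0 := congrArg Subtype.val hx
    have h2 : G * x.1.1 = -x.2.1 := eq_neg_of_add_eq_zero_left h1
    refine ⟨x.1.2.1, fun l => ?_⟩
    by_cases hl : l = P
    · subst hl
      have h3 := ((fatForms r j p m').neg_mem x.2.2).2 l
      rw [← h2] at h3
      have h4 := vanishes_of_mul hPn h3
      refine van_mono h4 ?_
      omega
    · rw [← hw l hl]
      exact x.1.2.2 l
  let g : LinearMap.ker f →ₗ[ℂ] fatForms r t p w' :=
    { toFun := fun x => ⟨x.1.1.1, hker x.1 x.2⟩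
      map_add' := fun x y => rfl
      map_smul' := fun c x => rfl }
  have hg : Function.Injective g := by
    intro x y hxy
    have h1 : x.1.1.1 = y.1.1.1 := by
      have h0 : (g x).1 = (g y).1 := by rw [hxy]
      exact h0
    have h2 : G * x.1.1.1 + x.1.2.1 = 0 := by
      have h0 : (f x.1).1 = 0 := by
        rw [LinearMap.mem_ker.1 x.2]
        rfl
      exact h0
    have h3 : G * y.1.1.1 + y.1.2.1 = 0 := by
      have h0 : (f y.1).1 = 0 := by
        rw [LinearMap.mem_ker.1 y.2]
        rfl
      exact h0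
    rw [h1, ← h3] at h2
    have h4 : x.1.2.1 = y.1.2.1 := add_left_cancel h2
    apply Subtype.ext
    apply Prod.ext
    · exact Subtype.ext h1
    · exact Subtype.ext h4
  have h1 := LinearMap.finrank_le_finrank_of_injective hg
  have h2 := LinearMap.finrank_range_add_finrank_ker f
  rw [Module.finrank_prod] at h2
  have h3 : Module.finrank ℂ (LinearMap.range f) ≤ Module.finrank ℂ (fatForms r j p m) :=
    Submodule.finrank_le _
  omega

end Pool.Agent.H74.CT

end
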