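import Pool.Agent.H94.LP3.H18.Pr.CremR
import Pool.Agent.H94.LP3.M15
import Pool.Agent.H94.LP3.M28

/-! The parts of this file: H18.Nef.NefA_1, H18.Ub.VTrace, H74.CT.Numer. -/

section

/-!
# Effective classes and Cremona transformations
-/

namespace Pool.Agent.H18.Nef

open Finset Pool.Agent.H18.Ex Pool.Agent.H18.Cub Pool.Agent.H18.Pr Pool.Agent.H18.Fat Pool.Agent.H18.Ub

theorem generalDim_le {r d k : ℕ} (m : Fin k → ℕ) (x : ℕ)
    (h : ∃ p : Fin k → Fin (r + 1) → ℂ, Module.finrank ℂ (fatForms r d p m) ≤ x) :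
    generalDim r d m ≤ x := by
  obtain ⟨p, hp⟩ := h
  exact le_trans (Nat.sInf_le ⟨p, rfl⟩) hp

theorem generalDim_ge {r : ℕ} (hr : 1 ≤ r) (d : ℕ) {k : ℕ} (m : Fin k → ℕ) :
    ((d + r).choose r : ℤ) - ∑ i, ((m i + r - 1).choose r : ℤ) ≤ generalDim r d m := by
  obtain ⟨p, hp1, hp2⟩ := exists_of_general ((generalDim_spec r d m).and (general_ne_zero r k))
  have := finrank_fatForms_ge (d := d) hr hp2 m
  rw [hp1] at this
  exact this

theorem le_of_effective {r e k : ℕ} (m : Fin k → ℕ) (h : 1 ≤ generalDim r e m) (i : Fin k) :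
    m i ≤ e := by
  by_contra hcon
  push Not at hcon
  have h1 : generalDim r e m ≤ 0 := by
    apply generalDim_le
    refine ⟨fun _ _ => 0, ?_⟩
    have h2 : fatForms r e (fun (_ : Fin k) (_ : Fin (r + 1)) => (0 : ℂ)) m = ⊥ := by
      rw [eq_bot_iff]
      intro F hF
      rw [Submodule.mem_bot]
      exact eq_zero_of_vanishes F hF.1 _ hcon (hF.2 i)
    rw [h2, finrank_bot]
  omega

theorem sum_le_of_effective {r e k : ℕ} (m : Fin k → ℕ) (h : 1 ≤ generalDim r e m)
    (J : Fin (r + 1) ↪ Fin k) : ∑ l, m (J l) ≤ r * e := by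
  by_contra hcon
  push Not at hcon
  have hJ : ∀ l, m (J l) ≤ e := fun l => le_of_effective m h (J l)
  have h1 : generalDim r e m ≤ 0 := by
    apply generalDim_le
    apply special_of_GI m J hJ 0
    have hempty : Ex.Rg e (fun l : Fin (r + 1) => e - m (J l)) = ∅ := by
      rw [Finset.eq_empty_iff_forall_notMem]
      intro a ha
      rw [Ex.mem_Rg] at ha
      have h2 : ∑ l, a l ≤ ∑ l, (e - m (J l)) := sum_le_sum fun l _ => ha.1 l
      have h3 : ∑ l : Fin (r + 1), (e - m (J l)) + ∑ l : Fin (r + 1), m (J l) = (r + 1) * e := by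
        rw [← Finset.sum_add_distrib]
        rw [Finset.sum_congr rfl fun l _ => Nat.sub_add_cancel (hJ l)]
        simp
      have h4 : (r + 1) * e = r * e + e := by ring
      omega
    rw [hempty]
    refine ⟨fun _ _ => 0, ?_⟩
    intro f _ a ha
    exact absurd ha (notMem_empty a)
  omega

/-- Cremona transformations of effective classes. -/
theorem generalDim_cremona {r k d d' : ℕ} (m m' : Fin k → ℕ) (J : Fin (r + 1) ↪ Fin k)
    (hJ : ∀ l, m (J l) ≤ d) (hd' : ∑ l, m (J l) + d' = r * d)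
    (hm'J : ∀ l, m' (J l) = d' + m (J l) - d) (hm' : ∀ i, (∀ l, J l ≠ i) → m' i = m i) :
    generalDim r d' m' = generalDim r d m := by
  have h1 := (cremona_general m m' J hJ hd' hm'J hm' _).1 (generalDim_spec r d m)
  obtain ⟨p, hp1, hp2⟩ := exists_of_general (h1.and (generalDim_spec r d' m'))
  rw [← hp2, hp1]

end Pool.Agent.H18.Nef

end

section

/-!
# Module VTrace (UB): the traces are killed with enough simple points
-/

namespace Pool.Agent.H18.Ub

open Finset Pool.Agent.H18.Ex Pool.Agent.H18.Cub Pool.Agent.H18.Pr Pool.Agent.H18.Ua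

/-! ### Restriction to `x_0 = 0` -/

section

variable {n : ℕ}

/-- Substitute `x_0 = 0`. -/
noncomputable def vtr_psi (n : ℕ) :
    MvPolynomial (Fin (n + 1)) ℂ →ₐ[ℂ] MvPolynomial (Fin n) ℂ :=
  MvPolynomial.aeval (Fin.cons 0 MvPolynomial.X : Fin (n + 1) → MvPolynomial (Fin n) ℂ)

theorem vtr_psi_coeff (G : MvPolynomial (Fin (n + 1)) ℂ) (β : Fin n → ℕ) :
    (vtr_psi n G).coeff (Finsupp.equivFunOnFinite.symm β) =
      G.coeff (Finsupp.equivFunOnFinite.symm (Fin.cons 0 β)) := by
  induction G using MvPolynomial.induction_on' with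
  | monomial a c =>
    unfold vtr_psi
    rw [MvPolynomial.aeval_monomial, MvPolynomial.algebraMap_eq, MvPolynomial.coeff_C_mul,
      Finsupp.prod_fintype _ _ (by intro i; simp), Fin.prod_univ_succ, Fin.cons_zero,
      MvPolynomial.coeff_monomial]
    simp only [Fin.cons_succ]
    by_cases ha : a 0 = 0
    · rw [ha, pow_zero, one_mul]
      have h1 : (∏ j : Fin n, (MvPolynomial.X j : MvPolynomial (Fin n) ℂ) ^ a j.succ) =
          MvPolynomial.monomial (Finsupp.equivFunOnFinite.symm fun j => a j.succ) 1 := by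
        rw [MvPolynomial.monomial_eq, MvPolynomial.C_1, one_mul,
          Finsupp.prod_fintype _ _ (by intro i; simp)]
        rfl
      rw [h1, MvPolynomial.coeff_monomial]
      by_cases h2 : (fun j : Fin n => a j.succ) = β
      · have h3 : a = Finsupp.equivFunOnFinite.symm (Fin.cons 0 β) := by
          ext j
          refine Fin.cases ?_ (fun j => ?_) j
          · simpa using ha
          · simpa using congrFun h2 j
        rw [if_pos (by rw [h2]), if_pos h3, mul_one]
      · have h3 : ¬ a = Finsupp.equivFunOnFinite.symm (Fin.cons 0 β) := by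
          intro h3
          apply h2
          funext j
          rw [h3]
          simp
        rw [if_neg (fun h4 => h2 (Finsupp.equivFunOnFinite.symm.injective h4)), if_neg h3,
          mul_zero]
    · have h3 : ¬ a = Finsupp.equivFunOnFinite.symm (Fin.cons 0 β) := by
        intro h3
        apply ha
        rw [h3]
        simp
      rw [zero_pow ha, zero_mul, MvPolynomial.coeff_zero, mul_zero, if_neg h3]
  | add P Q hP hQ => rw [map_add, MvPolynomial.coeff_add, hP, hQ, MvPolynomial.coeff_add]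

theorem vtr_psi_tay (F : MvPolynomial (Fin (n + 1)) ℂ) (q : Fin n → ℂ) (β : Fin n → ℕ) :
    tay (vtr_psi n F) q β = tay F (Fin.cons 0 q) (Fin.cons 0 β) := by
  have h : (trl q).comp (vtr_psi n) = (vtr_psi n).comp (trl (Fin.cons 0 q : Fin (n + 1) → ℂ)) := by
    apply MvPolynomial.algHom_ext
    intro i
    refine Fin.cases ?_ (fun i => ?_) i
    · simp [vtr_psi, trl]
    · simp [vtr_psi, trl]
  rw [tay, tay, ← vtr_psi_coeff, ← AlgHom.comp_apply, h]
  rfl

theorem vtr_psi_zero (F : MvPolynomial (Fin (n + 1)) ℂ) (h0 : F.degreeOf 0 = 0)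
    (h : vtr_psi n F = 0) : F = 0 := by
  ext a
  rw [MvPolynomial.coeff_zero]
  by_cases ha : a 0 = 0
  · have h1 : a = Finsupp.equivFunOnFinite.symm (Fin.cons 0 (fun j : Fin n => a j.succ)) := by
      ext j
      refine Fin.cases ?_ (fun j => ?_) j
      · simpa using ha
      · simp
    rw [h1, ← vtr_psi_coeff, h, MvPolynomial.coeff_zero]
  · by_contra hc
    apply ha
    have h2 : a 0 ≤ F.degreeOf 0 := MvPolynomial.monomial_le_degreeOf 0
      (MvPolynomial.mem_support_iff.2 hc)
    omega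

theorem vtr_psi_deg (F : MvPolynomial (Fin (n + 1)) ℂ) :
    (vtr_psi n F).totalDegree ≤ F.totalDegree := by
  rw [MvPolynomial.totalDegree]
  refine Finset.sup_le fun b hb => ?_
  have h1 : b = Finsupp.equivFunOnFinite.symm ⇑b := by
    ext j; simp
  rw [h1, MvPolynomial.mem_support_iff, vtr_psi_coeff, ← MvPolynomial.mem_support_iff] at hb
  have h2 := MvPolynomial.le_totalDegree hb
  refine le_trans (le_of_eq ?_) h2
  rw [Finsupp.sum_fintype _ _ (fun _ => rfl), Finsupp.sum_fintype _ _ (fun _ => rfl),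
    Fin.sum_univ_succ]
  simp

/-- Transfer of the free points. -/
theorem vtr_transfer (U : Submodule ℂ (MvPolynomial (Fin (n + 1)) ℂ))
    (U' : Submodule ℂ (MvPolynomial (Fin n) ℂ)) (h0 : ∀ F ∈ U, F.degreeOf 0 = 0)
    (hU : ∀ F ∈ U, vtr_psi n F ∈ U') {S : Multiset ℕ} (h : Fk U' S) : Fk U S := by
  obtain ⟨k, s, hs, pos, hpos⟩ := h
  refine ⟨k, s, hs, fun i => Fin.cons 0 (pos i), fun F hF hv => ?_⟩
  refine vtr_psi_zero F (h0 F hF) (hpos _ (hU F hF) fun i β hβ => ?_)
  rw [vtr_psi_tay]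
  refine hv i _ ?_
  rw [Fin.sum_univ_succ, Fin.cons_zero, zero_add]
  simpa using hβ

end

theorem vtr_trace_degreeOf {n : ℕ} (A : Fam n) (δ : ℕ) (v : ℂ)
    (F : MvPolynomial (Fin (n + 1)) ℂ) (hF : F ∈ (A.W δ).map (sub1 0 v).toLinearMap) :
    F.degreeOf 0 = 0 := by
  obtain ⟨G, -, rfl⟩ := hF
  rw [← Nat.le_zero, MvPolynomial.degreeOf_le_iff]
  intro a ha
  by_contra hc
  have hi : (0 : Fin (n + 1)) ∈ (sub1 0 v G).vars :=
    (MvPolynomial.mem_vars_iff_mem_support _).2 ⟨a, ha, Finsupp.mem_support_iff.2 fun h => hc (by omega)⟩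
  have h1 : sub1 0 v G = MvPolynomial.bind₁ (Function.update
    (MvPolynomial.X : Fin (n + 1) → MvPolynomial (Fin (n + 1)) ℂ) 0 (MvPolynomial.C v)) G := rfl
  rw [h1] at hi
  have h2 := MvPolynomial.vars_bind₁ _ _ hi
  rw [mem_biUnion] at h2
  obtain ⟨k, hk, hik⟩ := h2
  by_cases hkj : k = 0
  · subst hkj
    rw [Function.update_self, MvPolynomial.vars_C] at hik
    exact absurd hik (notMem_empty _)
  · rw [Function.update_of_ne hkj, MvPolynomial.vars_X, mem_singleton] at hik
    exact hkj hik.symm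

theorem vtr_sub1_deg {n : ℕ} (v : ℂ) (F : MvPolynomial (Fin (n + 1)) ℂ) :
    (sub1 0 v F).totalDegree ≤ F.totalDegree := by
  have hf : ∀ i, (Function.update (MvPolynomial.X : Fin (n + 1) → MvPolynomial (Fin (n + 1)) ℂ) 0
      (MvPolynomial.C v) i).totalDegree ≤ 1 := by
    intro i
    by_cases hi : i = 0
    · subst hi
      rw [Function.update_self, MvPolynomial.totalDegree_C]
      omega
    · rw [Function.update_of_ne hi, MvPolynomial.totalDegree_X]
  unfold sub1
  rw [MvPolynomial.aeval_def, MvPolynomial.eval₂_eq']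
  refine (MvPolynomial.totalDegree_finsetSum _ _).trans (Finset.sup_le fun a ha => ?_)
  refine (MvPolynomial.totalDegree_mul _ _).trans ?_
  rw [MvPolynomial.algebraMap_eq, MvPolynomial.totalDegree_C, zero_add]
  refine (MvPolynomial.totalDegree_finsetProd _ _).trans ?_
  refine le_trans ?_ (MvPolynomial.le_totalDegree ha)
  rw [Finsupp.sum_fintype _ _ (fun _ => rfl)]
  refine sum_le_sum fun i _ => ?_
  refine (MvPolynomial.totalDegree_pow _ _).trans ?_
  calc a i * _ ≤ a i * 1 := Nat.mul_le_mul_left _ (hf i)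
    _ = a i := mul_one _

/-! ### Families closed under multiplication -/

/-- A family of spaces of polynomials closed under multiplication. -/
structure PFam (n : ℕ) : Type where
  /-- the spaces -/
  W : ℕ → Submodule ℂ (MvPolynomial (Fin (n + 1)) ℂ)
  deg : ∀ δ, ∀ F ∈ W δ, F.totalDegree ≤ δ
  mul : ∀ δ j, ∀ F ∈ W δ, ∀ Q : MvPolynomial (Fin (n + 1)) ℂ, Q.totalDegree ≤ j →
    Q * F ∈ W (δ + j)

variable {n : ℕ} {Λ : Type}

/-- The dimensions. -/
noncomputable def PFam.h (A : PFam n) (δ : ℕ) : ℕ := Module.finrank ℂ (A.W δ)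

instance PFam.finite (A : PFam n) (δ : ℕ) : FiniteDimensional ℂ (A.W δ) := by
  have h : A.W δ ≤ MvPolynomial.restrictTotalDegree (Fin (n + 1)) ℂ δ := fun F hF =>
    (MvPolynomial.mem_restrictTotalDegree _ _ _).2 (A.deg δ F hF)
  exact Module.Finite.of_injective (Submodule.inclusion h) (Submodule.inclusion_injective h)

theorem PFam.mono (A : PFam n) {δ δ' : ℕ} (hδ : δ ≤ δ') : A.W δ ≤ A.W δ' := by
  intro F hF
  have h1 := A.mul δ (δ' - δ) F hF 1 (by rw [MvPolynomial.totalDegree_one]; omega)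
  rw [one_mul, Nat.add_sub_cancel' hδ] at h1
  exact h1

theorem PFam.h_mono' (A : PFam n) {δ δ' : ℕ} (hδ : δ ≤ δ') : A.h δ ≤ A.h δ' :=
  Submodule.finrank_mono (A.mono hδ)

open UKillX

/-! ### The traces -/

/-- The traces of a family on `x_0 = v`. -/
noncomputable def traceP (A : Fam (n + 1)) (v : ℂ) : PFam n where
  W := fun δ => (A.W δ).map ((vtr_psi (n + 1)).comp (sub1 0 v)).toLinearMap
  deg := by
    rintro δ _ ⟨F, hF, rfl⟩
    exact (vtr_psi_deg _).trans ((vtr_sub1_deg v F).trans (A.deg δ F hF))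
  mul := by
    rintro δ j _ ⟨F, hF, rfl⟩ Q hQ
    refine ⟨MvPolynomial.rename Fin.succ Q * F, A.mul δ j F hF _
      ((MvPolynomial.totalDegree_rename_le _ _).trans hQ), ?_⟩
    have h1 : ((vtr_psi (n + 1)).comp (sub1 0 v)).comp (MvPolynomial.rename Fin.succ) =
        AlgHom.id ℂ (MvPolynomial (Fin (n + 1)) ℂ) := by
      apply MvPolynomial.algHom_ext
      intro i
      simp [vtr_psi, sub1, Function.update_of_ne (Fin.succ_ne_zero i)]
    have h2 := DFunLike.congr_fun h1 Q
    change ((vtr_psi (n + 1)).comp (sub1 0 v)) (MvPolynomial.rename Fin.succ Q * F) =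
      Q * ((vtr_psi (n + 1)).comp (sub1 0 v)) F
    rw [map_mul]
    congr 1

theorem traceP_h (A : Fam (n + 1)) (v : ℂ) (hv : v ∉ A.bad) (δ : ℕ) (hδ : 1 ≤ δ) :
    (traceP A v).h δ + A.h (δ - 1) = A.h δ := by
  rw [← A.finrank_trace δ hδ v hv]
  congr 1
  have h1 : (traceP A v).W δ =
      ((A.W δ).map (sub1 0 v).toLinearMap).map (vtr_psi (n + 1)).toLinearMap := by
    change (A.W δ).map ((vtr_psi (n + 1)).comp (sub1 0 v)).toLinearMap = _
    rw [← Submodule.map_comp]
    rfl
  unfold PFam.h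
  rw [h1]
  let f : ((A.W δ).map (sub1 0 v).toLinearMap : Submodule ℂ (MvPolynomial (Fin (n + 2)) ℂ)) →ₗ[ℂ]
      MvPolynomial (Fin (n + 1)) ℂ :=
    (vtr_psi (n + 1)).toLinearMap.domRestrict _
  have hf : Function.Injective f := by
    rw [← LinearMap.ker_eq_bot, LinearMap.ker_eq_bot']
    rintro ⟨F, hF⟩ h2
    apply Subtype.ext
    exact vtr_psi_zero F (vtr_trace_degreeOf A δ v F hF) h2
  have h2 := LinearMap.finrank_range_of_inj hf
  have h3 : LinearMap.range f =
      ((A.W δ).map (sub1 0 v).toLinearMap).map (vtr_psi (n + 1)).toLinearMap :=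
    LinearMap.range_domRestrict _ _
  rw [h3] at h2
  exact h2

end Pool.Agent.H18.Ub

end

section

/-!
# The dimension in the degrees slightly below `d`
-/

namespace Pool.Agent.H74.CT

open Pool.Agent.H18.Fat Finset

theorem hockey (s m : ℕ) : ∑ i ∈ range m, (i + (s + 1)).choose (s + 1) =
    (m + (s + 2) - 1).choose (s + 2) := by
  induction m with
  | zero =>
    rw [range_zero, sum_empty, Nat.choose_eq_zero_of_lt (by omega)]
  | succ m ih =>
    rw [sum_range_succ, ih]
    have h1 : m + 1 + (s + 2) - 1 = (m + (s + 1)) + 1 := by omega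
    have h2 : m + (s + 2) - 1 = m + (s + 1) := by omega
    rw [h1, h2, Nat.choose_succ_succ, Nat.add_comm]

theorem choose_drop (s i : ℕ) : ∀ γ : ℕ, γ ≤ i →
    (i + (s + 1)).choose (s + 1) ≤ (i - γ + (s + 1)).choose (s + 1) + γ * (i + s).choose s := by
  intro γ
  induction γ with
  | zero =>
    intro _
    simp
  | succ γ ih =>
    intro h
    have h1 := ih (by omega)
    have h2 : i - γ + (s + 1) = (i - (γ + 1) + (s + 1)) + 1 := by omega
    rw [h2, Nat.choose_succ_succ' (i - (γ + 1) + (s + 1)) s] at h1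
    have h3 : (i - (γ + 1) + (s + 1)).choose s ≤ (i + s).choose s :=
      Nat.choose_le_choose _ (by omega)
    rw [Nat.succ_mul]
    omega

/-- The excess. -/
def exc {k : ℕ} (m : Fin k → ℕ) (J : Finset (Fin k)) (j : ℕ) (P : Fin k) (i : ℕ) : ℕ :=
  ∑ l ∈ J.filter (fun l => l ≠ P ∧ m P ≤ m l), (m l + i - j)

section

variable {s k d D δ : ℕ} {m : Fin k → ℕ} {J : Finset (Fin k)}

theorem exc_term (hδ : 2 * δ ≤ d) (h3 : ∀ a ∈ J, ∀ b ∈ J, a ≠ b → m a + m b ≤ d + 1)
    {P : Fin k} (hP : P ∈ J) {i : ℕ} (hi : i < m P) {l : Fin k}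
    (hl : l ∈ J.filter (fun l => l ≠ P ∧ m P ≤ m l)) :
    m l + i - (d - δ) ≤ δ ∧ (m l + i - (d - δ) ≠ 0 → d ≤ 4 * m l ∧ m P ≤ i + δ) := by
  rw [mem_filter] at hl
  have h4 := h3 l hl.1 P hP hl.2.1
  have h5 := hl.2.2
  constructor
  · omega
  · intro h6
    constructor <;> omega

theorem exc_le (hd : 1 ≤ d) (hδ : 2 * δ ≤ d) (h2 : ∑ i ∈ J, m i ≤ (s + 2) * d)
    (h3 : ∀ a ∈ J, ∀ b ∈ J, a ≠ b → m a + m b ≤ d + 1)
    {P : Fin k} (hP : P ∈ J) {i : ℕ} (hi : i < m P) :
    exc m J (d - δ) P i ≤ 4 * (s + 2) * δ := by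
  have h4 : d * exc m J (d - δ) P i ≤ ∑ l ∈ J, 4 * δ * m l := by
    unfold exc
    rw [mul_sum]
    calc ∑ l ∈ J.filter (fun l => l ≠ P ∧ m P ≤ m l), d * (m l + i - (d - δ)) ≤
        ∑ l ∈ J.filter (fun l => l ≠ P ∧ m P ≤ m l), 4 * δ * m l := by
          refine sum_le_sum fun l hl => ?_
          obtain ⟨h5, h6⟩ := exc_term hδ h3 hP hi hl
          by_cases h7 : m l + i - (d - δ) = 0
          · rw [h7, mul_zero]
            exact Nat.zero_le _
          · have h8 := (h6 h7).1
            calc d * (m l + i - (d - δ)) ≤ (4 * m l) * δ := Nat.mul_le_mul h8 h5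
              _ = 4 * δ * m l := by ring
      _ ≤ _ := sum_le_sum_of_subset (filter_subset _ _)
  rw [← mul_sum] at h4
  have h5 : d * exc m J (d - δ) P i ≤ d * (4 * (s + 2) * δ) := by
    refine h4.trans ?_
    calc 4 * δ * ∑ i ∈ J, m i ≤ 4 * δ * ((s + 2) * d) := Nat.mul_le_mul_left _ h2
      _ = d * (4 * (s + 2) * δ) := by ring
  exact Nat.le_of_mul_le_mul_left h5 hd

theorem exc_pos (hδ : 2 * δ ≤ d) (h1 : ∀ i ∈ J, m i + D ≤ d)
    (h3 : ∀ a ∈ J, ∀ b ∈ J, a ≠ b → m a + m b ≤ d + 1)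
    {P : Fin k} (hP : P ∈ J) {i : ℕ} (hi : i < m P) (h0 : exc m J (d - δ) P i ≠ 0) :
    D < i + δ ∧ m P ≤ i + δ := by
  unfold exc at h0
  obtain ⟨l, hl, h4⟩ := exists_ne_zero_of_sum_ne_zero h0
  have h5 := (exc_term hδ h3 hP hi hl).2 h4
  have h6 := h1 l (mem_filter.1 hl).1
  constructor
  · omega
  · exact h5.2

/-- Degrees slightly below `d`. -/
theorem near (hD : 4 * (s + 2) ^ 2 * δ ≤ D) (hD0 : 1 ≤ D) (hDd : D ≤ d)
    (h1 : ∀ i ∈ J, m i + D ≤ d) (h2 : ∑ i ∈ J, m i + D ≤ (s + 2) * d)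
    (h3 : ∀ a ∈ J, ∀ b ∈ J, a ≠ b → m a + m b ≤ d + 1) :
    ∃ e : ℕ, D * e ≤ 8 * (s + 2) ^ 3 * δ ^ 2 * (d + (s + 1)).choose (s + 1) ∧
      (generalDim (s + 2) (d - δ) fun i => if i ∈ J then m i else 0) +
        ∑ i ∈ J, (m i + (s + 2) - 1).choose (s + 2) ≤ (d - δ + (s + 2)).choose (s + 2) + e := by
  have hsq : 4 * (s + 2) * δ * (s + 2) ≤ D := by
    refine le_trans (le_of_eq ?_) hD
    ring
  have hδd : 8 * δ * (s + 2) ≤ D := by
    have h4 : 8 * δ * (s + 2) ≤ 4 * (s + 2) * δ * (s + 2) := by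
      have : 8 * δ ≤ 4 * (s + 2) * δ := by nlinarith
      exact Nat.mul_le_mul_right _ this
    exact h4.trans hsq
  have hδd2 : 16 * δ ≤ D := by nlinarith
  have hδ : 2 * δ ≤ d := by omega
  have hd : 1 ≤ d := by omega
  have h2' : ∑ i ∈ J, m i ≤ (s + 2) * d := by omega
  have hex := @exc_le s k d δ m J hd hδ h2' h3
  have hpos := @exc_pos k d D δ m J hδ h1 h3
  have hup := upper_fin (s + 2) (d - δ) k (by omega) m (exc m J (d - δ)) J
    (fun P hP => by
      have := h1 P hP
      omega)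
    (fun P hP i hi => ⟨le_rfl, by
      by_cases h0 : exc m J (d - δ) P i = 0
      · omega
      · have h4 := (hpos hP hi h0).1
        have h5 := hex hP hi
        have h6 : 4 * (s + 2) * δ + δ ≤ D := by nlinarith
        omega, by
      have h5 := hex hP hi
      have h6 : (s + 2 - 2) * exc m J (d - δ) P i ≤ s * (4 * (s + 2) * δ) := by
        have : s + 2 - 2 = s := by omega
        rw [this]
        exact Nat.mul_le_mul_left _ h5
      have h7 : (s + 2) * (d - δ) + (s + 2) * δ = (s + 2) * d := by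
        rw [← Nat.mul_add]
        congr 1
        omega
      have h8 : s * (4 * (s + 2) * δ) + (s + 2) * δ ≤ D := by nlinarith
      omega⟩)
  have hr1 : s + 2 - 1 = s + 1 := by omega
  rw [hr1] at hup
  refine ⟨∑ P ∈ J, ∑ i ∈ range (m P), exc m J (d - δ) P i * (i + s).choose s, ?_, ?_⟩
  · -- the error
    have hN : (d + (s + 1)) * (d + s).choose s = (d + (s + 1)).choose (s + 1) * (s + 1) :=
      Nat.add_one_mul_choose_eq (d + s) s
    have hinner : ∀ P ∈ J, D * ∑ i ∈ range (m P), exc m J (d - δ) P i * (i + s).choose s ≤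
        2 * m P * (4 * (s + 2) * δ ^ 2 * (d + s).choose s) := by
      intro P hP
      have hterm : ∀ i ∈ range (m P), exc m J (d - δ) P i * (i + s).choose s ≤
          if m P ≤ i + δ ∧ D ≤ 2 * m P then 4 * (s + 2) * δ * (d + s).choose s else 0 := by
        intro i hi
        rw [mem_range] at hi
        by_cases h0 : exc m J (d - δ) P i = 0
        · rw [h0, zero_mul]
          exact Nat.zero_le _
        · obtain ⟨h4, h5⟩ := hpos hP hi h0
          rw [if_pos ⟨h5, by omega⟩]
          refine Nat.mul_le_mul (hex hP hi) (Nat.choose_le_choose _ ?_)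
          have := h1 P hP
          omega
      by_cases hbig : D ≤ 2 * m P
      · have h4 : ∑ i ∈ range (m P), exc m J (d - δ) P i * (i + s).choose s ≤
            δ * (4 * (s + 2) * δ * (d + s).choose s) := by
          refine (sum_le_sum hterm).trans ?_
          rw [← sum_filter, sum_const, smul_eq_mul]
          refine Nat.mul_le_mul_right _ ?_
          have h5 : (range (m P)).filter (fun i => m P ≤ i + δ ∧ D ≤ 2 * m P) ⊆
              Ico (m P - δ) (m P) := by
            intro i hi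
            rw [mem_filter, mem_range] at hi
            rw [mem_Ico]
            omega
          refine (card_le_card h5).trans ?_
          rw [Nat.card_Ico]
          omega
        calc D * ∑ i ∈ range (m P), exc m J (d - δ) P i * (i + s).choose s ≤
            (2 * m P) * (δ * (4 * (s + 2) * δ * (d + s).choose s)) := Nat.mul_le_mul hbig h4
          _ = _ := by ring
      · have h4 : ∑ i ∈ range (m P), exc m J (d - δ) P i * (i + s).choose s = 0 := by
          refine Nat.le_zero.1 ((sum_le_sum hterm).trans (le_of_eq ?_))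
          refine sum_eq_zero fun i _ => ?_
          rw [if_neg fun h => hbig h.2]
        rw [h4, mul_zero]
        exact Nat.zero_le _
    have hdN : d * (d + s).choose s ≤ (d + (s + 1)).choose (s + 1) * (s + 2) := by
      calc d * (d + s).choose s ≤ (d + (s + 1)) * (d + s).choose s :=
            Nat.mul_le_mul_right _ (by omega)
        _ = (d + (s + 1)).choose (s + 1) * (s + 1) := hN
        _ ≤ _ := Nat.mul_le_mul_left _ (by omega)
    calc D * ∑ P ∈ J, ∑ i ∈ range (m P), exc m J (d - δ) P i * (i + s).choose s =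
        ∑ P ∈ J, D * ∑ i ∈ range (m P), exc m J (d - δ) P i * (i + s).choose s := mul_sum _ _ _
      _ ≤ ∑ P ∈ J, 2 * m P * (4 * (s + 2) * δ ^ 2 * (d + s).choose s) := sum_le_sum hinner
      _ = (∑ P ∈ J, m P) * (8 * (s + 2) * δ ^ 2 * (d + s).choose s) := by
          rw [sum_mul]
          refine sum_congr rfl fun P _ => ?_
          ring
      _ ≤ ((s + 2) * d) * (8 * (s + 2) * δ ^ 2 * (d + s).choose s) :=
          Nat.mul_le_mul_right _ h2'
      _ = (8 * (s + 2) ^ 2 * δ ^ 2) * (d * (d + s).choose s) := by ring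
      _ ≤ (8 * (s + 2) ^ 2 * δ ^ 2) * ((d + (s + 1)).choose (s + 1) * (s + 2)) :=
          Nat.mul_le_mul_left _ hdN
      _ = _ := by ring
  · have h4 : ∑ i ∈ J, (m i + (s + 2) - 1).choose (s + 2) ≤
        ∑ P ∈ J, ∑ i ∈ range (m P), (i - exc m J (d - δ) P i + (s + 1)).choose (s + 1) +
        ∑ P ∈ J, ∑ i ∈ range (m P), exc m J (d - δ) P i * (i + s).choose s := by
      rw [← sum_add_distrib]
      refine sum_le_sum fun P hP => ?_
      rw [← hockey, ← sum_add_distrib]
      refine sum_le_sum fun i hi => ?_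
      rw [mem_range] at hi
      refine choose_drop s i _ ?_
      by_cases h0 : exc m J (d - δ) P i = 0
      · omega
      · have h4 := (hpos hP hi h0).1
        have h5 := hex hP hi
        have h6 : 4 * (s + 2) * δ + δ ≤ D := by nlinarith
        omega
    omega

end

end Pool.Agent.H74.CT

end
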