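import Pool.Agent.H94.LP3.H18.FatToric
import Pool.Agent.H94.LP3.M09
import Pool.Agent.H94.LP3.M12

/-! The parts of this file: H18.Cub.CremA, H18.Cub.CremB. -/

section

/-!
# Module CremA: `r + 1` points at the coordinate points
-/

namespace Pool.Agent.H18.Cub

open Finset Pool.Agent.H18.Ex Pool.Agent.H18.Fat

/-- The conditions outside `J` and `x` simple points. -/
def kkJ {r k : ℕ} (m : Fin k → ℕ) (J : Fin (r + 1) ↪ Fin k) (x : ℕ) :
    {i : Fin k // ∀ l, J l ≠ i} ⊕ Fin x → Kind (Fin (r + 1)) :=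
  Sum.elim (fun i => Kind.free (m i.1)) fun _ => Kind.free 1

theorem exists_of_general {r k : ℕ} {P : (Fin k → Fin (r + 1) → ℂ) → Prop}
    (h : ForGeneralPoints r k P) : ∃ p, P p := by
  obtain ⟨G, hG, hP⟩ := h
  by_contra hc
  push Not at hc
  apply hG
  apply MvPolynomial.funext
  intro v
  rw [map_zero]
  by_contra hv
  exact hc (fun i j => v (i, j)) (hP _ hv)

open Classical in
/-- The form with coefficients `f` on `Rg d w`. -/
noncomputable def formOf {n : ℕ} (d : ℕ) (w : Fin n → ℕ) (f : (Fin n → ℕ) → ℂ) :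
    MvPolynomial (Fin n) ℂ :=
  toPoly n d fun α => if (⇑α.1 : Fin n → ℕ) ∈ Rg d w then f ⇑α.1 else 0

theorem coeff_shift_formOf {n d : ℕ} {w : Fin n → ℕ} (f : (Fin n → ℕ) → ℂ) (q : Fin n → ℂ)
    (β : Fin n →₀ ℕ) :
    MvPolynomial.coeff β (shift q (formOf d w f)) = ∑ a ∈ Ex.Rg d w, f a * tcr q a ⇑β := by
  classical
  unfold formOf
  rw [coeff_shift_toPoly]
  rw [Finset.sum_coe_sort (mons n d)
    (fun α => (if (⇑α : Fin n → ℕ) ∈ Ex.Rg d w then f ⇑α else 0) * tc q α β)]
  symm
  apply sum_bij_ne_zero (fun (a : Fin n → ℕ) _ _ => Finsupp.equivFunOnFinite.symm a)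
  · intro a ha _
    rw [mem_mons, Finsupp.degree_eq_sum]
    exact (Ex.mem_Rg.1 ha).2
  · intro a _ _ a' _ _ haa
    exact Finsupp.equivFunOnFinite.symm.injective haa
  · intro α _ hne
    have hα : (⇑α : Fin n → ℕ) ∈ Ex.Rg d w := by
      by_contra hc
      rw [if_neg hc, zero_mul] at hne
      exact hne rfl
    rw [if_pos hα] at hne
    refine ⟨⇑α, hα, hne, ?_⟩
    ext
    rfl
  · intro a ha _
    have h1 : (⇑(Finsupp.equivFunOnFinite.symm a) : Fin n → ℕ) = a := rfl
    rw [h1, if_pos ha]
    rfl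

theorem vanishes_formOf {n d : ℕ} {w : Fin n → ℕ} {f : (Fin n → ℕ) → ℂ} {q : Fin n → ℂ} {m : ℕ}
    (h : Sat (Ex.Rg d w) f (Kind.free m) q) : VanishesToOrder (formOf d w f) q m := by
  intro β hβ
  rw [coeff_shift_formOf]
  apply h ⇑β
  change ∑ i, β i < m
  rwa [Finsupp.degree_eq_sum] at hβ

/-- From general points to the toric form.  Choose general `p` (two open conditions, a nonzero
polynomial has a nonzero), move the points `J l` to the coordinate points by `finrank_linear`, add
`x` simple points (`exists_simple_points`), and translate: a coefficient function `f` on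
`Rg d w`, `w l = d - m (J l)`, satisfying the conditions gives the form `∑ f a X^a`, which vanishes to
order `m (J l)` at the coordinate points (`vanishes_coord_iff`). -/
theorem GI_of_general {r k d : ℕ} (m : Fin k → ℕ) (J : Fin (r + 1) ↪ Fin k)
    (hJ : ∀ l, m (J l) ≤ d) (x : ℕ)
    (h : ForGeneralPoints r k fun p => Module.finrank ℂ (fatForms r d p m) ≤ x) :
    GI (Ex.Rg d fun l => d - m (J l)) (kkJ m J x) := by
  classical
  obtain ⟨p, hp, hdet⟩ := exists_of_general (h.and (Pool.Agent.H18.Fat.general_det J))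
  set A : Matrix (Fin (r + 1)) (Fin (r + 1)) ℂ := Matrix.of fun j l => p (J l) j with hA
  have hunit : IsUnit A := by
    rw [Matrix.isUnit_iff_isUnit_det]
    exact isUnit_iff_ne_zero.2 hdet
  obtain ⟨B, hB⟩ := isUnit_iff_exists_inv.1 hunit
  have hBA : B * A = 1 := mul_eq_one_comm.1 hB
  have h1 := finrank_linSubst (d := d) p m hBA
  set p' : Fin k → Fin (r + 1) → ℂ := fun i => B.mulVec (p i) with hp'
  have hcoord : ∀ l, p' (J l) = Pi.single l 1 := by
    intro l
    have h2 : p (J l) = A.mulVec (Pi.single l 1) := by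
      funext j
      rw [Matrix.mulVec_single_one]
      rfl
    rw [hp']
    simp only
    rw [h2, Matrix.mulVec_mulVec, hBA, Matrix.one_mulVec]
  obtain ⟨y, -, hy⟩ := exists_simple_points (d := d) p' m x
  rw [h1, Nat.sub_eq_zero_of_le hp] at hy
  refine ⟨Sum.elim (fun i => p' i.1) y, ?_⟩
  intro f hf a ha
  set w : Fin (r + 1) → ℕ := fun l => d - m (J l) with hw
  have hmem : formOf d w f ∈ fatForms r d (Sum.elim p' y) (Sum.elim m fun _ => 1) := by
    refine ⟨toPoly_isHomogeneous _, ?_⟩
    rintro (i | j)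
    · by_cases hi : ∀ l, J l ≠ i
      · exact vanishes_formOf (hf (Sum.inl ⟨i, hi⟩))
      · push Not at hi
        obtain ⟨l, rfl⟩ := hi
        change VanishesToOrder (formOf d w f) (p' (J l)) (m (J l))
        rw [hcoord]
        unfold formOf
        rw [vanishes_coord_iff]
        intro α hα
        have h2 : (⇑α.1 : Fin (r + 1) → ℕ) ∈ Ex.Rg d w := by
          by_contra hc
          exact hα (if_neg hc)
        have h3 := (Ex.mem_Rg.1 h2).1 l
        have h4 := hJ l
        simp only [hw] at h3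
        omega
    · exact vanishes_formOf (hf (Sum.inr j))
  have hbot := Submodule.finrank_eq_zero.1 hy
  rw [hbot, Submodule.mem_bot] at hmem
  unfold formOf at hmem
  have h5 := toPoly_injective _ _ (hmem.trans (map_zero (toPoly (r + 1) d)).symm)
  have had : Finsupp.equivFunOnFinite.symm a ∈ mons (r + 1) d := by
    rw [mem_mons, Finsupp.degree_eq_sum]
    exact (Ex.mem_Rg.1 ha).2
  have h6 := congrFun h5 ⟨Finsupp.equivFunOnFinite.symm a, had⟩
  have h7 : (⇑(Finsupp.equivFunOnFinite.symm a) : Fin (r + 1) → ℕ) = a := rfl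
  simp only at h6
  rw [h7, if_pos ha] at h6
  exact h6

/-- From the toric form to a special configuration (see `exists_special` in
`Pool.Agent.H18.Ex.Final`, second half of the proof). -/
theorem special_of_GI {r k d : ℕ} (m : Fin k → ℕ) (J : Fin (r + 1) ↪ Fin k)
    (hJ : ∀ l, m (J l) ≤ d) (x : ℕ)
    (h : GI (Ex.Rg d fun l : Fin (r + 1) => d - m (J l)) (kkJ m J x)) :
    ∃ p₀ : Fin k → Fin (r + 1) → ℂ, Module.finrank ℂ (fatForms r d p₀ m) ≤ x := by
  classical
  set w : Fin (r + 1) → ℕ := fun l => d - m (J l) with hw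
  obtain ⟨pos, hpos⟩ := h
  -- the special configuration
  let p₀ : Fin k → Fin (r + 1) → ℂ := fun i =>
    if hi : ∀ l, J l ≠ i then pos (Sum.inl ⟨i, hi⟩) else Pi.single (Function.invFun J i) 1
  refine ⟨p₀, ?_⟩
  -- the support
  have hsupp : ∀ F ∈ fatForms r d p₀ m, ∀ α ∈ F.support, (⇑α : Fin (r + 1) → ℕ) ∈ Ex.Rg d w := by
    intro F hF α hα
    rw [MvPolynomial.mem_support_iff] at hα
    have hαd : α ∈ mons (r + 1) d := by
      rw [mem_mons]
      by_contra h
      exact hα (hF.1.coeff_eq_zero h)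
    rw [Ex.mem_Rg]
    have hdeg := mem_mons.1 hαd
    rw [Finsupp.degree_eq_sum] at hdeg
    refine ⟨fun l => ?_, hdeg⟩
    have hi : ¬ ∀ l', J l' ≠ J l := fun h => h l rfl
    have h3 := hF.2 (J l)
    have hp : p₀ (J l) = Pi.single l 1 := by
      simp only [p₀]
      rw [dif_neg hi, Function.leftInverse_invFun J.injective]
    rw [hp, ← exists_toPoly hF.1, vanishes_coord_iff] at h3
    have h4 := h3 ⟨α, hαd⟩ hα
    simp only [hw]
    simp only at h4
    omega
  let Ψ : fatForms r d p₀ m →ₗ[ℂ] (Fin x → ℂ) :=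
    { toFun := fun F j => ∑ a ∈ Ex.Rg d w, cf F.1 a * tcr (pos (Sum.inr j)) a 0
      map_add' := fun F G => by
        funext j
        simp only [Submodule.coe_add, cf, MvPolynomial.coeff_add, Pi.add_apply, add_mul,
          sum_add_distrib]
      map_smul' := fun c F => by
        funext j
        simp only [Submodule.coe_smul, cf, MvPolynomial.coeff_smul, smul_eq_mul, RingHom.id_apply,
          Pi.smul_apply, mul_sum, mul_assoc] }
  have hΨ : Function.Injective Ψ := by
    rw [← LinearMap.ker_eq_bot, LinearMap.ker_eq_bot']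
    intro F hF
    have h1 : ∀ i, Sat (Ex.Rg d w) (cf F.1) (kkJ m J x i) (pos i) := by
      rintro (i | j)
      · have h2 := F.2.2 i.1
        have h3 : p₀ i.1 = pos (Sum.inl i) := by
          simp only [p₀]
          rw [dif_pos i.2]
        rw [h3] at h2
        exact sat_of_vanishes (hsupp F.1 F.2) h2
      · intro b hb
        have hb0 : b = 0 := by
          change ∑ i, b i < 1 at hb
          have h2 : ∑ i, b i = 0 := by omega
          rw [sum_eq_zero_iff] at h2
          funext i
          exact h2 i (mem_univ _)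
        subst hb0
        exact congrFun hF j
    have h2 := hpos (cf F.1) h1
    apply Subtype.ext
    change F.1 = 0
    by_contra hne
    obtain ⟨α, hα⟩ := MvPolynomial.ne_zero_iff.1 hne
    have h3 := hsupp F.1 F.2 α (MvPolynomial.mem_support_iff.2 hα)
    have h4 := h2 _ h3
    unfold cf at h4
    rw [show Finsupp.equivFunOnFinite.symm (⇑α) = α from by ext; rfl] at h4
    exact hα h4
  have := LinearMap.finrank_le_finrank_of_injective hΨ
  rwa [Module.finrank_fintype_fun_eq_card, Fintype.card_fin] at this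

end Pool.Agent.H18.Cub

end

section

/-!
# Module CremB: invariance of the general dimension under Cremona transformations
-/

namespace Pool.Agent.H18.Cub

open Finset Pool.Agent.H18.Ex Pool.Agent.H18.Fat

/-- Reflection for families of free conditions (`GM.reflect`, `GM_iff`). -/
theorem GI.reflect_free {ι : Type} [Fintype ι] [DecidableEq ι] (σ : ℕ) (w : ι → ℕ)
    (hσ : σ ≤ ∑ i, w i) {κ : Type} [Fintype κ] (k : κ → Kind ι)
    (hk : ∀ i, ∃ m, k i = Kind.free m) (h : GI (Rg (∑ i, w i - σ) w) k) : GI (Rg σ w) k := by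
  obtain ⟨pos, hpos, -, hne⟩ := GI.exists_common h h
  refine ⟨fun i j => (pos i j)⁻¹, ?_⟩
  intro f hf a ha
  have h2 : ∀ i, Sat (Rg (∑ i, w i - σ) w) (fun a => f (fun i => w i - a i)) (k i) (pos i) := by
    intro i
    obtain ⟨m, hm⟩ := hk i
    have h3 := hf i
    rw [hm] at h3 ⊢
    have h4 := sat_reflect σ w hσ f m (fun j => (pos i j)⁻¹) (fun j => inv_ne_zero (hne i j)) h3
    simpa only [inv_inv] using h4
  have h5 := hpos _ h2 _ (refl_mem ha)
  simp only [refl_refl ha] at h5
  exact h5

/-- One Cremona transformation, based at the points `J l`: `d' = r d - ∑ m (J l)`,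
`m' (J l) = max {0, d' + m (J l) - d}`.  With `w l = d - m (J l)` we have `∑ w - d = d'`, and
`Rg d' w = Rg d' w'` for `w' l = d' - m' (J l) = min (w l) d'`. -/
theorem cremona_le {r k d d' : ℕ} (m m' : Fin k → ℕ) (J : Fin (r + 1) ↪ Fin k)
    (hJ : ∀ l, m (J l) ≤ d) (hd' : ∑ l, m (J l) + d' = r * d)
    (hm'J : ∀ l, m' (J l) = d' + m (J l) - d) (hm' : ∀ i, (∀ l, J l ≠ i) → m' i = m i) (x : ℕ) :
    (∃ p : Fin k → Fin (r + 1) → ℂ, Module.finrank ℂ (fatForms r d p m) ≤ x) ↔
      ∃ p : Fin k → Fin (r + 1) → ℂ, Module.finrank ℂ (fatForms r d' p m') ≤ x := by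
  have hgen : ∀ (e : ℕ) (n : Fin k → ℕ),
      (∃ p : Fin k → Fin (r + 1) → ℂ, Module.finrank ℂ (fatForms r e p n) ≤ x) →
      ForGeneralPoints r k fun p => Module.finrank ℂ (fatForms r e p n) ≤ x := by
    rintro e n ⟨p₀, hp₀⟩
    obtain ⟨G, hG, H⟩ := general_finrank_le e p₀ n
    exact ⟨G, hG, fun p hp => (H p hp).trans hp₀⟩
  have hsum : ∑ l : Fin (r + 1), (d - m (J l)) = d + d' := by
    have h1 : ∑ l : Fin (r + 1), (d - m (J l)) + ∑ l : Fin (r + 1), m (J l) = (r + 1) * d := by
      rw [← Finset.sum_add_distrib]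
      rw [Finset.sum_congr rfl fun l _ => Nat.sub_add_cancel (hJ l)]
      simp
    have h2 : (r + 1) * d = r * d + d := by ring
    omega
  have hJ' : ∀ l, m' (J l) ≤ d' := by
    intro l
    have := hm'J l
    have := hJ l
    omega
  have hkk : kkJ m' J x = kkJ m J x := by
    funext i
    rcases i with i | i
    · change Kind.free (m' i.1) = Kind.free (m i.1)
      rw [hm' i.1 i.2]
    · rfl
  have hRg : Ex.Rg d' (fun l => d' - m' (J l)) = Ex.Rg d' fun l => d - m (J l) := by
    ext a
    rw [Ex.mem_Rg, Ex.mem_Rg]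
    constructor
    · rintro ⟨h1, h2⟩
      refine ⟨fun l => ?_, h2⟩
      have h3 := h1 l
      have h4 := hm'J l
      have h5 := hJ l
      omega
    · rintro ⟨h1, h2⟩
      refine ⟨fun l => ?_, h2⟩
      have h3 := h1 l
      have h4 := hm'J l
      have h5 := hJ l
      have h6 : a l ≤ d' := by
        rw [← h2]
        exact Finset.single_le_sum (f := a) (fun _ _ => Nat.zero_le _) (Finset.mem_univ l)
      omega
  have hfree : ∀ i, ∃ n, kkJ m J x i = Kind.free n := by
    rintro (i | i)
    · exact ⟨_, rfl⟩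
    · exact ⟨_, rfl⟩
  constructor
  · intro h
    have h1 := GI_of_general m J hJ x (hgen d m h)
    have h2 : GI (Ex.Rg d' fun l => d - m (J l)) (kkJ m J x) := by
      refine GI.reflect_free d' (fun l => d - m (J l)) ?_ _ hfree ?_
      · rw [hsum]
        omega
      · have h3 : ∑ i : Fin (r + 1), (d - m (J i)) - d' = d := by omega
        rw [h3]
        exact h1
    apply special_of_GI m' J hJ' x
    rw [hkk, hRg]
    exact h2
  · intro h
    have h1 := GI_of_general m' J hJ' x (hgen d' m' h)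
    rw [hkk, hRg] at h1
    apply special_of_GI m J hJ x
    refine GI.reflect_free d (fun l => d - m (J l)) ?_ _ hfree ?_
    · rw [hsum]
      omega
    · have h3 : ∑ i : Fin (r + 1), (d - m (J i)) - d = d' := by omega
      rw [h3]
      exact h1

/-- The general dimension is the smallest one. -/
theorem general_iff {r k d : ℕ} (m : Fin k → ℕ) (v : ℕ) :
    (ForGeneralPoints r k fun p => Module.finrank ℂ (fatForms r d p m) = v) ↔
      ∀ x : ℕ, (∃ p : Fin k → Fin (r + 1) → ℂ, Module.finrank ℂ (fatForms r d p m) ≤ x) ↔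
        v ≤ x := by
  constructor
  · intro h x
    constructor
    · rintro ⟨p₀, hp₀⟩
      obtain ⟨p, hp1, hp2⟩ := exists_of_general (h.and (general_finrank_le d p₀ m))
      omega
    · intro hv
      obtain ⟨p, hp⟩ := exists_of_general h
      exact ⟨p, hp.le.trans hv⟩
  · intro h
    obtain ⟨p₀, hp₀⟩ := (h v).2 le_rfl
    obtain ⟨G, hG, H⟩ := general_finrank_le d p₀ m
    refine ⟨G, hG, fun p hp => le_antisymm ((H p hp).trans hp₀) ?_⟩
    exact (h _).1 ⟨p, le_rfl⟩

/-- Invariance of the general dimension under Cremona transformations. -/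
theorem cremona_general {r k d d' : ℕ} (m m' : Fin k → ℕ) (J : Fin (r + 1) ↪ Fin k)
    (hJ : ∀ l, m (J l) ≤ d) (hd' : ∑ l, m (J l) + d' = r * d)
    (hm'J : ∀ l, m' (J l) = d' + m (J l) - d) (hm' : ∀ i, (∀ l, J l ≠ i) → m' i = m i) (v : ℕ) :
    (ForGeneralPoints r k fun p => Module.finrank ℂ (fatForms r d p m) = v) ↔
      ForGeneralPoints r k fun p => Module.finrank ℂ (fatForms r d' p m') = v := by
  rw [general_iff, general_iff]
  refine forall_congr' fun x => ?_
  rw [cremona_le m m' J hJ hd' hm'J hm' x]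

end Pool.Agent.H18.Cub

end
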