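import Pool.Agent.H94.LP3.H18.FatDefs

/-! The parts of this file: H18.Cub.FinalC, H18.Cub.SortB, H18.TileAlg, H74.BP.Int, H74.BP.Inj, H74.BP.Lead, H74.BP.Very, H74.CT.Fin. -/

section

/-!
# Module FinalC: plane curves with many large multiplicities
-/

namespace Pool.Agent.H18.Cub

open Finset

/-- Sums over `J` and over the big points. -/
theorem sum_big {t s k : ℕ} (J : Finset (Fin k))
    (β : Fin t ⊕ Fin s → Option (Fin k)) (hJβ : ∀ i ∈ J, ∃ b, β b = some i)
    (hβJ : ∀ b i, β b = some i → i ∈ J)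
    (hinj : ∀ b b' i, β b = some i → β b' = some i → b = b')
    (f : Option (Fin k) → ℕ) (hf : f none = 0) :
    ∑ b, f (β b) = ∑ i ∈ J, f (some i) := by
  classical
  symm
  choose ψ hψ using hJβ
  apply sum_bij_ne_zero (fun i hi _ => ψ i hi)
  · intro i _ _
    exact mem_univ _
  · intro i hi _ j hj _ hij
    have h1 := hψ i hi
    have h2 := hψ j hj
    rw [hij, h2] at h1
    exact (Option.some.inj h1).symm
  · intro b _ hb
    rcases hβ : β b with _ | i
    · rw [hβ] at hb
      exact absurd hf hb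
    · have hi := hβJ b i hβ
      refine ⟨i, hi, ?_, ?_⟩
      · rw [hβ] at hb
        exact hb
      · exact hinj _ _ i (hψ i hi) hβ
  · intro i hi _
    rw [hψ i hi]

end Pool.Agent.H18.Cub

end

section

/-!
# Module SortB: the big points in decreasing order
-/

namespace Pool.Agent.H18.Cub

open Finset

/-- Enumerate a set `J` with at most `t + s` elements (and dummies, value `0`) by `Fin t ⊕ Fin s`, the
`t` largest values of `m` first.  (Enumerate `J` by `Fin J.card`, extend by dummies to `Fin (t + s)`,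
sort with `Tuple.sort`, and use `finSumFinEquiv`.) -/
theorem exists_sorted {k : ℕ} (m : Fin k → ℕ) (J : Finset (Fin k)) (t s : ℕ) (hs : 1 ≤ s)
    (hJ : J.card ≤ t + s) :
    ∃ (β : Fin t ⊕ Fin s → Option (Fin k)) (c : ℕ),
      (∀ b i, β b = some i → i ∈ J) ∧
      (∀ i ∈ J, ∃ b, β b = some i) ∧
      (∀ b b' i, β b = some i → β b' = some i → b = b') ∧
      (∀ l : Fin t, c ≤ (β (.inl l)).elim 0 m) ∧
      (∀ j : Fin s, (β (.inr j)).elim 0 m ≤ c) ∧
      (∃ j : Fin s, (β (.inr j)).elim 0 m = c) := by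
  classical
  set e : Fin J.card ≃ J := J.equivFin.symm with he
  set f : Fin (t + s) → Option (Fin k) := fun a =>
    if h : a.1 < J.card then some (e ⟨a.1, h⟩).1 else none with hf
  have hf1 : ∀ a i, f a = some i → i ∈ J := by
    intro a i h
    simp only [hf] at h
    split_ifs at h with h1
    · rw [← Option.some.inj h]
      exact (e ⟨a.1, h1⟩).2
  have hf2 : ∀ i ∈ J, ∃ a, f a = some i := by
    intro i hi
    have h1 : (e.symm ⟨i, hi⟩).1 < J.card := (e.symm ⟨i, hi⟩).2
    refine ⟨⟨(e.symm ⟨i, hi⟩).1, h1.trans_le hJ⟩, ?_⟩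
    simp only [hf]
    rw [dif_pos h1]
    simp
  have hf3 : ∀ a a' i, f a = some i → f a' = some i → a = a' := by
    intro a a' i h h'
    simp only [hf] at h h'
    split_ifs at h with h1
    split_ifs at h' with h2
    have h3 := (Option.some.inj h).trans (Option.some.inj h').symm
    have h4 := e.injective (Subtype.ext h3)
    exact Fin.ext (Fin.mk.inj h4)
  set g : Fin (t + s) → ℕ := fun a => (f a).elim 0 m with hg
  set σ : Equiv.Perm (Fin (t + s)) := Tuple.sort (fun a => OrderDual.toDual (g a)) with hσ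
  have hmono : ∀ a b : Fin (t + s), a ≤ b → g (σ b) ≤ g (σ a) := by
    intro a b hab
    exact Tuple.monotone_sort (fun a => OrderDual.toDual (g a)) hab
  refine ⟨fun b => f (σ (finSumFinEquiv b)), g (σ (Fin.natAdd t ⟨0, hs⟩)), ?_, ?_, ?_, ?_, ?_, ?_⟩
  · intro b i h
    exact hf1 _ _ h
  · intro i hi
    obtain ⟨a, ha⟩ := hf2 i hi
    refine ⟨finSumFinEquiv.symm (σ.symm a), ?_⟩
    simpa using ha
  · intro b b' i h h'
    have := hf3 _ _ _ h h'
    exact finSumFinEquiv.injective (σ.injective this)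
  · intro l
    have := hmono (finSumFinEquiv (.inl l)) (Fin.natAdd t ⟨0, hs⟩) (by
      rw [finSumFinEquiv_apply_left, Fin.le_def]
      simp only [Fin.val_castAdd, Fin.val_natAdd]
      omega)
    exact this
  · intro j
    have := hmono (Fin.natAdd t ⟨0, hs⟩) (finSumFinEquiv (.inr j)) (by
      rw [finSumFinEquiv_apply_right, Fin.le_def]
      simp only [Fin.val_natAdd]
      omega)
    exact this
  · refine ⟨⟨0, hs⟩, ?_⟩
    simp only [finSumFinEquiv_apply_right, hg]

end Pool.Agent.H18.Cub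

end

section

/-!
# Fat points and tilings: the algebraic part

Systems of binomial moment conditions on the functions supported on a finite set of lattice
points, cutting by hyperplanes and simplicial cells.
-/

namespace Pool.Agent.H18.Fat

open MvPolynomial Finset

section

variable {r : ℕ}

theorem exists_ne_zero_eval {G : MvPolynomial Unit ℂ} {a₀ : Unit → ℂ} (hG : eval a₀ G ≠ 0) :
    ∃ τ : Unit → ℂ, τ () ≠ 0 ∧ eval τ G ≠ 0 := by
  by_contra hcon
  push Not at hcon
  have h1 : G * X () = 0 := by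
    apply MvPolynomial.funext
    intro x
    rw [map_mul, eval_X, map_zero]
    by_cases hx : x () = 0
    · rw [hx, mul_zero]
    · rw [hcon x hx, zero_mul]
  rcases mul_eq_zero.1 h1 with h2 | h2
  · rw [h2, map_zero] at hG
    exact hG rfl
  · exact X_ne_zero _ h2

/-- Splitting a sum over `B₁ ∪ B₂`. -/
theorem sum_split {B B₁ B₂ : Finset (Fin r → ℤ)} (h₁ : B₁ ⊆ B) (h₂ : B₂ ⊆ B)
    {ℓ : (Fin r → ℤ) → ℤ} {c : ℤ} (hB₁ : ∀ a ∈ B₁, ℓ a ≤ c) (hB₂ : ∀ a ∈ B₂, c < ℓ a)
    (g : (Fin r → ℤ) → ℂ) (hg : ∀ a ∈ B, a ∉ B₁ → a ∉ B₂ → g a = 0) :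
    ∑ a ∈ B, g a = ∑ a ∈ B₁, g a + ∑ a ∈ B₂, g a := by
  classical
  have hdisj : Disjoint B₁ B₂ := by
    rw [Finset.disjoint_left]
    intro a ha ha'
    have := hB₁ a ha
    have := hB₂ a ha'
    omega
  rw [← sum_union hdisj]
  symm
  apply sum_subset (union_subset h₁ h₂)
  intro a ha hna
  rw [mem_union, not_or] at hna
  exact hg a ha hna.1 hna.2

end

end Pool.Agent.H18.Fat

end

section

/-!
# Lattice points well inside the cone belong to the semigroup
-/

namespace Pool.Agent.H74.BP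

open Finset

/-- The properties of the semigroup of multiplicities and leading exponents. -/
structure Sem (a r : ℕ) (Γ : (Fin a → ℤ) → (Fin (r + 1) → ℕ) → Prop) : Prop where
  add : ∀ m α m' α', Γ m α → Γ m' α' → Γ (m + m') (α + α')
  mono : ∀ m m' α, Γ m α → m' ≤ m → Γ m' α
  zero : Γ 0 0
  unit : ∀ i, Γ 0 (Pi.single i 1)
  lin : ∀ l, Γ (Pi.single l 1) (Pi.single 0 1)

variable {a r : ℕ} {Γ : (Fin a → ℤ) → (Fin (r + 1) → ℕ) → Prop}

theorem Sem.nsmul (h : Sem a r Γ) {m : Fin a → ℤ} {α : Fin (r + 1) → ℕ} (hm : Γ m α) (n : ℕ) :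
    Γ (n • m) (n • α) := by
  induction n with
  | zero =>
    rw [zero_smul, zero_smul]
    exact h.zero
  | succ n ih =>
    rw [succ_nsmul, succ_nsmul]
    exact h.add _ _ _ _ ih hm

theorem Sem.sum (h : Sem a r Γ) {ι : Type*} (s : Finset ι) (m : ι → Fin a → ℤ)
    (α : ι → Fin (r + 1) → ℕ) (hs : ∀ i ∈ s, Γ (m i) (α i)) : Γ (∑ i ∈ s, m i) (∑ i ∈ s, α i) := by
  classical
  induction s using Finset.induction_on with
  | empty =>
    rw [sum_empty, sum_empty]
    exact h.zero
  | insert b s hb ih =>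
    rw [sum_insert hb, sum_insert hb]
    exact h.add _ _ _ _ (hs b (mem_insert_self b s)) (ih fun i hi => hs i (mem_insert_of_mem hi))

theorem Sem.free (h : Sem a r Γ) (α : Fin (r + 1) → ℕ) : Γ 0 α := by
  have h1 := h.sum univ (fun i : Fin (r + 1) => α i • (0 : Fin a → ℤ))
    (fun i => α i • (Pi.single i 1 : Fin (r + 1) → ℕ)) fun i _ => h.nsmul (h.unit i) (α i)
  have h2 : ∑ i : Fin (r + 1), α i • (0 : Fin a → ℤ) = 0 := by simp
  have h3 : ∑ i : Fin (r + 1), α i • (Pi.single i 1 : Fin (r + 1) → ℕ) = α := by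
    funext j
    rw [Finset.sum_apply, sum_eq_single j]
    · rw [Pi.smul_apply, Pi.single_eq_same, smul_eq_mul, mul_one]
    · intro i _ hij
      rw [Pi.smul_apply, Pi.single_eq_of_ne (Ne.symm hij), smul_zero]
    · intro hj
      exact absurd (mem_univ j) hj
  rw [h2, h3] at h1
  exact h1

theorem Sem.easy (h : Sem a r Γ) (x : Fin a → ℤ) (ζ : Fin (r + 1) → ℕ)
    (hx : ∑ l, max (x l) 0 ≤ (ζ 0 : ℤ)) : Γ x ζ := by
  set n : Fin a → ℕ := fun l => (x l).toNat with hn
  have hnx : ∀ l, ((n l : ℕ) : ℤ) = max (x l) 0 := fun l => Int.toNat_eq_max (x l)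
  have h1 := h.sum univ (fun l : Fin a => n l • (Pi.single l 1 : Fin a → ℤ))
    (fun l => n l • (Pi.single 0 1 : Fin (r + 1) → ℕ)) fun l _ => h.nsmul (h.lin l) (n l)
  have h2 : ∑ l : Fin a, n l • (Pi.single l 1 : Fin a → ℤ) = fun l => ((n l : ℕ) : ℤ) := by
    funext j
    rw [Finset.sum_apply, sum_eq_single j]
    · rw [Pi.smul_apply, Pi.single_eq_same, nsmul_eq_mul, mul_one]
    · intro i _ hij
      rw [Pi.smul_apply, Pi.single_eq_of_ne (Ne.symm hij), smul_zero]
    · intro hj
      exact absurd (mem_univ j) hj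
  have h3 : ∑ l : Fin a, n l • (Pi.single 0 1 : Fin (r + 1) → ℕ) =
      Pi.single 0 (∑ l, n l) := by
    rw [← sum_smul]
    funext j
    by_cases hj : j = 0
    · subst hj
      rw [Pi.smul_apply, Pi.single_eq_same, Pi.single_eq_same, smul_eq_mul, mul_one]
    · rw [Pi.smul_apply, Pi.single_eq_of_ne hj, Pi.single_eq_of_ne hj, smul_zero]
  rw [h2, h3] at h1
  have h4 : ((∑ l, n l : ℕ) : ℤ) ≤ (ζ 0 : ℤ) := by
    rw [Nat.cast_sum, sum_congr rfl fun l _ => hnx l]
    exact hx
  have h5 : ∑ l, n l ≤ ζ 0 := by exact_mod_cast h4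
  have h6 := h.add _ _ _ _ h1 (h.free (ζ - Pi.single 0 (∑ l, n l)))
  have h7 : (Pi.single 0 (∑ l, n l) : Fin (r + 1) → ℕ) + (ζ - Pi.single 0 (∑ l, n l)) = ζ := by
    funext j
    rw [Pi.add_apply, Pi.sub_apply]
    by_cases hj : j = 0
    · subst hj
      rw [Pi.single_eq_same]
      omega
    · rw [Pi.single_eq_of_ne hj]
      omega
  rw [h7, add_zero] at h6
  refine h.mono _ _ _ h6 fun l => ?_
  rw [hnx]
  exact le_max_left _ _

/-- Lattice points well inside the cone belong to the semigroup. -/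
theorem Sem.inside (h : Sem a r Γ) (N K : ℕ) (hN : 1 ≤ N) (hK : 1 ≤ K) :
    ∃ d₀ : ℕ, ∀ d, d₀ ≤ d → ∀ (m : Fin a → ℕ) (γ ζ : Fin (r + 1) → ℕ), (∀ l, m l ≤ d) →
      (∀ i, γ i ≤ N * d) → Γ (fun l => ((N * m l : ℕ) : ℤ)) γ →
      (∀ i, K * γ i + N * d ≤ K * N * ζ i) → Γ (fun l => (m l : ℤ)) ζ := by
  classical
  set L := 2 * (a + 1) * K with hL
  have hL1 : 1 ≤ L := Nat.one_le_iff_ne_zero.2 (by positivity)
  -- the realized cells
  have hcell : ∀ c : (Fin a → Fin (2 * L + 1)) × (Fin (r + 1) → Fin (2 * L + 1)), ∃ S : ℕ,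
      (∃ (σ : ℕ) (x : Fin a → ℤ) (γ : Fin (r + 1) → ℕ), 1 ≤ σ ∧ Γ x γ ∧
        (∀ l, ((σ * (c.1 l : ℕ) : ℕ) : ℤ) ≤ x l) ∧ ∀ i, γ i ≤ σ * (c.2 i : ℕ)) →
      ∃ (σ : ℕ) (x : Fin a → ℤ) (γ : Fin (r + 1) → ℕ), 1 ≤ σ ∧ σ ≤ S ∧ Γ x γ ∧
        (∀ l, ((σ * (c.1 l : ℕ) : ℕ) : ℤ) ≤ x l) ∧ ∀ i, γ i ≤ σ * (c.2 i : ℕ) := by
    intro c
    by_cases hc : ∃ (σ : ℕ) (x : Fin a → ℤ) (γ : Fin (r + 1) → ℕ), 1 ≤ σ ∧ Γ x γ ∧
        (∀ l, ((σ * (c.1 l : ℕ) : ℕ) : ℤ) ≤ x l) ∧ ∀ i, γ i ≤ σ * (c.2 i : ℕ)
    · obtain ⟨σ, x, γ, h1, h2, h3, h4⟩ := hc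
      exact ⟨σ, fun _ => ⟨σ, x, γ, h1, le_rfl, h2, h3, h4⟩⟩
    · exact ⟨0, fun h1 => absurd h1 hc⟩
  choose S hS using hcell
  set S₀ := univ.sup S with hS₀
  refine ⟨4 * (a + 1) * L * K * (S₀ + 1), fun d hd m γ ζ hm hγ hΓ hζ => ?_⟩
  have hd1 : L * (4 * (S₀ + 1)) ≤ d := by
    refine le_trans ?_ hd
    have h1 : 1 ≤ (a + 1) * K := Nat.one_le_iff_ne_zero.2 (by positivity)
    calc L * (4 * (S₀ + 1)) = (4 * L * (S₀ + 1)) * 1 := by ring
      _ ≤ (4 * L * (S₀ + 1)) * ((a + 1) * K) := Nat.mul_le_mul_left _ h1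
      _ = _ := by ring
  set s := d / L with hs
  have hs1 : 4 * (S₀ + 1) ≤ s := (Nat.le_div_iff_mul_le (by omega)).2 (by rwa [Nat.mul_comm])
  have hs0 : 0 < s := by omega
  have hsL : L * s ≤ d := Nat.mul_div_le d L
  have hsL2 : d < L * (s + 1) := by
    have := Nat.lt_mul_div_succ d (show 0 < L by omega)
    exact this
  have hLs : L ≤ L * s := Nat.le_mul_of_pos_right _ hs0
  -- the cell
  set μ : Fin a → ℕ := fun l => m l / s with hμ
  set κ : Fin (r + 1) → ℕ := fun i => (γ i + (N * s - 1)) / (N * s) with hκ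
  have hNs : 0 < N * s := Nat.mul_pos (by omega) hs0
  have hμ1 : ∀ l, s * μ l ≤ m l := fun l => Nat.mul_div_le (m l) s
  have hμ2 : ∀ l, m l < s * (μ l + 1) := fun l => Nat.lt_mul_div_succ (m l) hs0
  have hμ3 : ∀ l, μ l < 2 * L + 1 := by
    intro l
    rw [hμ]
    dsimp only
    rw [Nat.div_lt_iff_lt_mul hs0]
    have h1 := hm l
    have h2 : (2 * L + 1) * s = L * s + L * s + s := by ring
    have h3 : L * (s + 1) = L * s + L := by ring
    omega
  have hκ1 : ∀ i, γ i ≤ N * s * κ i := by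
    intro i
    have h1 := Nat.lt_mul_div_succ (γ i + (N * s - 1)) hNs
    rw [Nat.mul_succ] at h1
    change γ i ≤ N * s * ((γ i + (N * s - 1)) / (N * s))
    omega
  have hκ2 : ∀ i, N * s * κ i < γ i + N * s := by
    intro i
    have h1 := Nat.mul_div_le (γ i + (N * s - 1)) (N * s)
    change N * s * ((γ i + (N * s - 1)) / (N * s)) < _
    omega
  have hκ3 : ∀ i, κ i < 2 * L + 1 := by
    intro i
    by_contra hc
    push Not at hc
    have h1 := hκ2 i
    have h2 := hγ i
    have h3 : N * s * (2 * L + 1) ≤ N * s * κ i := Nat.mul_le_mul_left _ hc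
    have h4 : N * s * (2 * L + 1) = N * (L * s + L * s) + N * s := by ring
    have h5 : N * d < N * (L * s + L * s) := by
      refine Nat.mul_lt_mul_of_pos_left ?_ (by omega)
      have h3 : L * (s + 1) = L * s + L := by ring
      omega
    omega
  obtain ⟨σ, x, γ', hσ1, hσ2, hx1, hx2, hx3⟩ := hS (fun l => ⟨μ l, hμ3 l⟩, fun i => ⟨κ i, hκ3 i⟩)
    ⟨N * s, fun l => ((N * m l : ℕ) : ℤ), γ, by omega, hΓ, fun l => by
      have h1 : N * s * μ l ≤ N * m l := by
        rw [Nat.mul_assoc]
        exact Nat.mul_le_mul_left _ (hμ1 l)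
      exact Int.ofNat_le.2 h1, hκ1⟩
  have hσ3 : σ ≤ S₀ := hσ2.trans (le_sup (f := S) (mem_univ _))
  set q := s / σ with hq
  have hq1 : σ * q ≤ s := Nat.mul_div_le s σ
  have hq2 : s < σ * (q + 1) := Nat.lt_mul_div_succ s (by omega)
  -- the exponents
  have hle : ∀ i, q * γ' i ≤ s * κ i := by
    intro i
    calc q * γ' i ≤ q * (σ * κ i) := Nat.mul_le_mul_left _ (hx3 i)
      _ = (σ * q) * κ i := by ring
      _ ≤ s * κ i := Nat.mul_le_mul_right _ hq1
  have hKs : 2 * (a + 1) * K * s ≤ d := by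
    rw [hL] at hsL
    exact hsL
  have hζ2 : ∀ i, K * (s * κ i) + d ≤ K * ζ i + K * s := by
    intro i
    have h1 := hζ i
    have h2 := hκ2 i
    have h3 : K * (N * s * κ i) ≤ K * (γ i + N * s) := Nat.mul_le_mul_left _ h2.le
    have h4 : N * (K * (s * κ i) + d) ≤ N * (K * ζ i + K * s) := by
      have e1 : N * (K * (s * κ i) + d) = K * (N * s * κ i) + N * d := by ring
      have e2 : N * (K * ζ i + K * s) = K * N * ζ i + K * (N * s) := by ring
      have e3 : K * (γ i + N * s) = K * γ i + K * (N * s) := by ring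
      rw [e1, e2]
      omega
    exact Nat.le_of_mul_le_mul_left h4 (by omega)
  have hKs1 : K * s ≤ d := by
    have h1 : K * s ≤ 2 * (a + 1) * K * s := by
      calc K * s = 1 * (K * s) := by ring
        _ ≤ (2 * (a + 1)) * (K * s) := Nat.mul_le_mul_right _ (by omega)
        _ = _ := by ring
    omega
  have hζ3 : ∀ i, s * κ i ≤ ζ i := by
    intro i
    have h1 := hζ2 i
    have h2 : K * (s * κ i) ≤ K * ζ i := by omega
    exact Nat.le_of_mul_le_mul_left h2 (by omega)
  have h6 := h.add _ _ _ _ (h.nsmul hx1 q) (h.easy (fun l => (m l : ℤ) - q * x l)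
    (fun i => ζ i - q * γ' i) ?_)
  · have e1 : (q • x + fun l => (m l : ℤ) - q * x l) = fun l => (m l : ℤ) := by
      funext l
      rw [Pi.add_apply, Pi.smul_apply, nsmul_eq_mul]
      ring
    have e2 : (q • γ' + fun i => ζ i - q * γ' i) = ζ := by
      funext i
      rw [Pi.add_apply, Pi.smul_apply, smul_eq_mul]
      have := hle i
      have := hζ3 i
      omega
    rw [e1, e2] at h6
    exact h6
  · -- the sum of the remaining multiplicities
    have h7 : ∀ l, max ((m l : ℤ) - q * x l) 0 ≤ (s : ℤ) + 2 * L * σ := by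
      intro l
      refine max_le ?_ (by positivity)
      have e1 : ((σ * μ l : ℕ) : ℤ) ≤ x l := hx2 l
      have e2 : (q : ℤ) * ((σ * μ l : ℕ) : ℤ) ≤ q * x l :=
        mul_le_mul_of_nonneg_left e1 (by positivity)
      have e3 : m l ≤ q * (σ * μ l) + s + 2 * L * σ := by
        have f1 := hμ2 l
        have f2 : s * μ l ≤ σ * (q + 1) * μ l := Nat.mul_le_mul_right _ hq2.le
        have f3 : σ * (q + 1) * μ l = q * (σ * μ l) + σ * μ l := by ring
        have f4 : σ * μ l ≤ σ * (2 * L) := Nat.mul_le_mul_left _ (by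
          have := hμ3 l
          omega)
        have f5 : s * (μ l + 1) = s * μ l + s := by ring
        have f6 : σ * (2 * L) = 2 * L * σ := by ring
        omega
      have e4 : (m l : ℤ) ≤ q * ((σ * μ l : ℕ) : ℤ) + s + 2 * L * σ := by exact_mod_cast e3
      linarith
    have h8 : ∑ l, max ((m l : ℤ) - q * x l) 0 ≤ a * ((s : ℤ) + 2 * L * σ) := by
      calc ∑ l, max ((m l : ℤ) - q * x l) 0 ≤ ∑ _l : Fin a, ((s : ℤ) + 2 * L * σ) :=
            sum_le_sum fun l _ => h7 l
        _ = _ := by rw [sum_const, card_univ, Fintype.card_fin, nsmul_eq_mul]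
    refine h8.trans ?_
    have h9 : a * (s + 2 * L * σ) + q * γ' 0 ≤ ζ 0 := by
      have f1 := hζ2 0
      have f2 := hle 0
      have f3 : K * (a * (s + 2 * L * σ)) + K * s ≤ d := by
        have g1 : 2 * (K * (a * (s + 2 * L * σ)) + K * s) ≤ 2 * d := by
          have g2 : 2 * (K * (a * (s + 2 * L * σ)) + K * s) =
              2 * (a + 1) * K * s + 4 * a * L * K * σ := by ring
          have g3 : 4 * a * L * K * σ ≤ 4 * (a + 1) * L * K * (S₀ + 1) := by
            refine Nat.mul_le_mul (Nat.mul_le_mul_right _ (Nat.mul_le_mul_right _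
              (Nat.mul_le_mul_left _ (by omega)))) (by omega)
          rw [g2]
          omega
        omega
      have f4 : K * (a * (s + 2 * L * σ) + q * γ' 0) ≤ K * ζ 0 := by
        have g1 : K * (q * γ' 0) ≤ K * (s * κ 0) := Nat.mul_le_mul_left _ f2
        rw [Nat.mul_add]
        omega
      exact Nat.le_of_mul_le_mul_left f4 (by omega)
    have h10 : a * (s + 2 * L * σ) ≤ ζ 0 - q * γ' 0 := by omega
    exact_mod_cast h10

end Pool.Agent.H74.BP

end

section

/-!
# The number of the leading exponents grows slowly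
-/

namespace Pool.Agent.H74.BP

open Finset

theorem floor_inj {N b x y : ℕ} (hN : 2 ≤ N) (hx : (x + b) % N ≠ 0) (hy : (y + b) % N ≠ 0)
    (h : x - (x + b) / N = y - (y + b) / N) (hbN : b < N) : x = y := by
  have key : ∀ x y : ℕ, x < y → (y + b) % N ≠ 0 → x - (x + b) / N < y - (y + b) / N := by
    intro x y hxy hy
    have h1 := Nat.div_add_mod (x + b) N
    have h2 := Nat.div_add_mod (y + b) N
    have h3 := Nat.mod_lt (x + b) (show 0 < N by omega)
    have h4 := Nat.mod_lt (y + b) (show 0 < N by omega)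
    have h5 : (x + b) / N ≤ x := by
      rw [Nat.div_le_iff_le_mul_add_pred (by omega)]
      have : x ≤ N * x := Nat.le_mul_of_pos_left _ (by omega)
      omega
    have h6 : (y + b) / N ≤ y := by
      rw [Nat.div_le_iff_le_mul_add_pred (by omega)]
      have : y ≤ N * y := Nat.le_mul_of_pos_left _ (by omega)
      omega
    set u := (x + b) / N
    set v := (y + b) / N
    obtain ⟨c, hc⟩ : ∃ c, N = c + 2 := ⟨N - 2, by omega⟩
    have h7 : u ≤ v := Nat.div_le_div_right (by omega)
    obtain ⟨w, hw⟩ : ∃ w, v = u + w := ⟨v - u, by omega⟩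
    have h8 : N * v = N * u + N * w := by rw [hw]; ring
    have h9 : N * w = c * w + 2 * w := by rw [hc]; ring
    rcases Nat.eq_zero_or_pos w with h0 | h0
    · subst h0
      omega
    · have h10 : c ≤ c * w := Nat.le_mul_of_pos_right _ h0
      omega
  rcases lt_trichotomy x y with h1 | h1 | h1
  · have := key x y h1 hy
    omega
  · exact h1
  · have := key y x h1 hx
    omega

theorem card_res (N x : ℕ) :
    ((range N).filter fun b => (x + b) % N = 0).card ≤ 1 := by
  rw [card_le_one]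
  intro b hb c hc
  rw [mem_filter, mem_range] at hb hc
  by_contra hne
  have h1 : (x + b) ≡ (x + c) [MOD N] := by
    unfold Nat.ModEq
    rw [hb.2, hc.2]
  have h2 := Nat.ModEq.add_left_cancel' x h1
  have h3 := Nat.ModEq.eq_of_lt_of_lt h2 hb.1 hc.1
  exact hne h3

/-- A shift with few bad exponents. -/
theorem exists_shift {r : ℕ} (N : ℕ) (hN : 1 ≤ N) (U : Finset (Fin (r + 1) → ℕ)) :
    ∃ b < N, N * (U.filter fun α => ∃ i, i ≠ 0 ∧ (α i + b) % N = 0).card ≤ r * U.card := by
  classical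
  by_contra hcon
  push Not at hcon
  have h1 : ∑ b ∈ range N, (U.filter fun α => ∃ i, i ≠ 0 ∧ (α i + b) % N = 0).card ≤
      r * U.card := by
    calc ∑ b ∈ range N, (U.filter fun α => ∃ i, i ≠ 0 ∧ (α i + b) % N = 0).card =
        ∑ b ∈ range N, ∑ α ∈ U, if ∃ i, i ≠ 0 ∧ (α i + b) % N = 0 then 1 else 0 :=
          sum_congr rfl fun b _ => card_filter _ _
      _ ≤ ∑ b ∈ range N, ∑ α ∈ U, ∑ i ∈ univ.erase (0 : Fin (r + 1)),
          if (α i + b) % N = 0 then 1 else 0 := by
        refine sum_le_sum fun b _ => sum_le_sum fun α _ => ?_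
        by_cases h : ∃ i, i ≠ 0 ∧ (α i + b) % N = 0
        · rw [if_pos h]
          obtain ⟨i, hi, h2⟩ := h
          have h3 : (if (α i + b) % N = 0 then 1 else 0) ≤ ∑ i ∈ univ.erase (0 : Fin (r + 1)),
              if (α i + b) % N = 0 then 1 else 0 :=
            single_le_sum (f := fun i => if (α i + b) % N = 0 then 1 else 0)
              (fun _ _ => Nat.zero_le _) (mem_erase.2 ⟨hi, mem_univ i⟩)
          rw [if_pos h2] at h3
          exact h3
        · rw [if_neg h]
          exact Nat.zero_le _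
      _ = ∑ α ∈ U, ∑ i ∈ univ.erase (0 : Fin (r + 1)), ∑ b ∈ range N,
          if (α i + b) % N = 0 then 1 else 0 := by
        rw [sum_comm]
        refine sum_congr rfl fun α _ => ?_
        rw [sum_comm]
      _ ≤ ∑ α ∈ U, ∑ _i ∈ univ.erase (0 : Fin (r + 1)), 1 := by
        refine sum_le_sum fun α _ => sum_le_sum fun i _ => ?_
        rw [← card_filter]
        exact card_res N (α i)
      _ = r * U.card := by
        rw [sum_const, smul_eq_mul, sum_const, smul_eq_mul, mul_one, card_erase_of_mem (mem_univ _),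
          card_univ, Fintype.card_fin, Nat.add_sub_cancel, Nat.mul_comm]
  have h2 : ∑ _b ∈ range N, r * U.card <
      ∑ b ∈ range N, N * (U.filter fun α => ∃ i, i ≠ 0 ∧ (α i + b) % N = 0).card :=
    sum_lt_sum_of_nonempty ⟨0, mem_range.2 (by omega)⟩ fun b hb => hcon b (mem_range.1 hb)
  rw [sum_const, card_range, smul_eq_mul, ← mul_sum] at h2
  exact absurd (Nat.mul_le_mul_left N h1) (by omega)

variable {a r : ℕ} {Γ : (Fin a → ℤ) → (Fin (r + 1) → ℕ) → Prop}

theorem finite_deg (r d : ℕ) : {α : Fin (r + 1) → ℕ | ∑ i, α i = d}.Finite := by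
  refine (Set.finite_Iic (fun _ : Fin (r + 1) => d)).subset fun α hα i => ?_
  have hα' : ∑ i, α i = d := hα
  rw [← hα']
  exact single_le_sum (fun _ _ => Nat.zero_le _) (mem_univ i)

/-- The number of the exponents grows slowly. -/
theorem Sem.slow (h : Sem a r Γ) (hr : 1 ≤ r)
    (hdeg : ∀ (m : Fin a → ℤ) (α : Fin (r + 1) → ℕ), Γ m α → ∀ l, m l ≤ ((∑ i, α i : ℕ) : ℤ))
    (C E T : ℕ) (hE : 1 ≤ E) (hT : 1 ≤ T) : ∃ d₀ : ℕ, ∀ d, d₀ ≤ d → ∀ m : Fin a → ℕ,
      (∃ β : Fin (r + 1) → ℕ, Γ (fun l => (m l : ℤ)) β ∧ T * ∑ i, β i + d ≤ T * d) →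
      E * ({α : Fin (r + 1) → ℕ | ∑ i, α i = d ∧ Γ (fun l => (m l : ℤ)) α}.ncard -
        {α : Fin (r + 1) → ℕ | ∑ i, α i = d - C ∧ Γ (fun l => (m l : ℤ)) α}.ncard) ≤
      {α : Fin (r + 1) → ℕ | ∑ i, α i = d ∧ Γ (fun l => (m l : ℤ)) α}.ncard := by
  classical
  set N := E * r + 2 with hN
  have hN1 : 1 ≤ N := by omega
  have hN2 : 2 ≤ N := by omega
  set K := 2 * T * (r + 1) * N with hK
  have hK1 : 1 ≤ K := Nat.one_le_iff_ne_zero.2 (by positivity)
  obtain ⟨d₁, hin⟩ := h.inside N K hN1 hK1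
  refine ⟨d₁ + 4 * T * N * (C + 4 * r + 1), fun d hd m hβ => ?_⟩
  obtain ⟨β, hβ1, hβ2⟩ := hβ
  have hfin : ∀ x : ℕ, {α : Fin (r + 1) → ℕ | ∑ i, α i = x ∧ Γ (fun l => (m l : ℤ)) α}.Finite :=
    fun x => (finite_deg r x).subset fun α hα => hα.1
  set U := (hfin d).toFinset with hU
  set V := (hfin (d - C)).toFinset with hV
  have hUc : {α : Fin (r + 1) → ℕ | ∑ i, α i = d ∧ Γ (fun l => (m l : ℤ)) α}.ncard = U.card :=
    Set.ncard_eq_toFinset_card _ (hfin d)
  have hVc : {α : Fin (r + 1) → ℕ | ∑ i, α i = d - C ∧ Γ (fun l => (m l : ℤ)) α}.ncard = V.card :=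
    Set.ncard_eq_toFinset_card _ (hfin (d - C))
  rw [hUc, hVc]
  have hUm : ∀ α, α ∈ U ↔ ∑ i, α i = d ∧ Γ (fun l => (m l : ℤ)) α := fun α => by
    rw [hU, Set.Finite.mem_toFinset]
    rfl
  have hVm : ∀ α, α ∈ V ↔ ∑ i, α i = d - C ∧ Γ (fun l => (m l : ℤ)) α := fun α => by
    rw [hV, Set.Finite.mem_toFinset]
    rfl
  obtain ⟨b, hbN, hb⟩ := exists_shift N hN1 U
  set R := d / K + 1 with hR
  have hR1 : d < K * R := by
    have := Nat.lt_mul_div_succ d (show 0 < K by omega)
    exact this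
  have hR2 : K * R ≤ d + K := by
    have := Nat.mul_div_le d K
    rw [hR, Nat.mul_add, Nat.mul_one]
    omega
  have hβd : ∑ i, β i ≤ d := by
    have h1 : T * ∑ i, β i ≤ T * d := by omega
    exact Nat.le_of_mul_le_mul_left h1 (by omega)
  -- the map
  set ψ : (Fin (r + 1) → ℕ) → Fin (r + 1) → ℕ := fun α i =>
    α i - (α i + b) / N + (β i / N + 2 + R) with hψ
  set φ : (Fin (r + 1) → ℕ) → Fin (r + 1) → ℕ := fun α i =>
    if i = 0 then d - C - ∑ i ∈ univ.erase (0 : Fin (r + 1)), ψ α i else ψ α i with hφ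
  have hψ1 : ∀ α i, (N - 1) * α i + β i + N * R ≤ N * ψ α i ∧
      N * ψ α i ≤ (N - 1) * α i + β i + N * (3 + R) := by
    intro α i
    have e1 : N * ((α i + b) / N) ≤ α i + b := Nat.mul_div_le _ _
    have e2 : α i + b < N * ((α i + b) / N) + N := by
      have := Nat.lt_mul_div_succ (α i + b) (show 0 < N by omega)
      rw [Nat.mul_succ] at this
      exact this
    have e3 : N * (β i / N) ≤ β i := Nat.mul_div_le _ _
    have e4 : β i < N * (β i / N) + N := by
      have := Nat.lt_mul_div_succ (β i) (show 0 < N by omega)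
      rw [Nat.mul_succ] at this
      exact this
    have e5 : (α i + b) / N ≤ α i := by
      rw [Nat.div_le_iff_le_mul_add_pred (by omega)]
      have : α i ≤ N * α i := Nat.le_mul_of_pos_left _ (by omega)
      omega
    have e6 : N * (α i - (α i + b) / N) = N * α i - N * ((α i + b) / N) := Nat.mul_sub _ _ _
    have e7 : N * ψ α i = (N * α i - N * ((α i + b) / N)) + N * (β i / N) + 2 * N + N * R := by
      rw [← e6]
      change N * (α i - (α i + b) / N + (β i / N + 2 + R)) = _
      ring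
    have e8 : N * α i = (N - 1) * α i + α i := by
      obtain ⟨c, hc⟩ : ∃ c, N = c + 1 := ⟨N - 1, by omega⟩
      rw [hc, Nat.add_sub_cancel]
      ring
    have e9 : N * (3 + R) = 3 * N + N * R := by ring
    have e10 : N * ((α i + b) / N) ≤ N * α i := Nat.mul_le_mul_left _ e5
    rw [e7, e9]
    constructor <;> omega
  have hφU : ∀ α ∈ U, φ α ∈ V := by
    intro α hα
    obtain ⟨hα1, hα2⟩ := (hUm α).1 hα
    -- the coordinate zero
    have f1 : ∑ i ∈ univ.erase (0 : Fin (r + 1)), N * ψ α i ≤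
        ∑ i ∈ univ.erase (0 : Fin (r + 1)), ((N - 1) * α i + β i) + r * (N * (3 + R)) := by
      calc ∑ i ∈ univ.erase (0 : Fin (r + 1)), N * ψ α i ≤
          ∑ i ∈ univ.erase (0 : Fin (r + 1)), ((N - 1) * α i + β i + N * (3 + R)) :=
            sum_le_sum fun i _ => (hψ1 α i).2
        _ = _ := by
          rw [sum_add_distrib, sum_const, card_erase_of_mem (mem_univ _), card_univ,
            Fintype.card_fin, Nat.add_sub_cancel, smul_eq_mul]
    have f2 : ∑ i ∈ univ.erase (0 : Fin (r + 1)), ((N - 1) * α i + β i) +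
        ((N - 1) * α 0 + β 0) = (N - 1) * d + ∑ i, β i := by
      rw [sum_erase_add _ _ (mem_univ _), sum_add_distrib, ← mul_sum, hα1]
    have f3 : (N - 1) * d + d = N * d := by
      obtain ⟨c, hc⟩ : ∃ c, N = c + 1 := ⟨N - 1, by omega⟩
      rw [hc, Nat.add_sub_cancel]
      ring
    have f4 : N * C + r * (N * (3 + R)) + N * R + ∑ i, β i ≤ d := by
      have g1 : T * (N * C + r * (N * (3 + R)) + N * R + ∑ i, β i) ≤ T * d := by
        have g2 : 2 * (T * (N * C + r * (N * (3 + R)) + N * R)) =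
            2 * T * N * (C + 3 * r) + K * R := by
          rw [hK]
          ring
        have g3 : 2 * T * N * (C + 3 * r) + K ≤ 4 * T * N * (C + 4 * r + 1) := by
          have g4 : 2 * T * N * (C + 3 * r) + K = T * N * (2 * C + 8 * r + 2) := by
            rw [hK]
            ring
          have g5 : 4 * T * N * (C + 4 * r + 1) = T * N * (4 * C + 16 * r + 4) := by ring
          rw [g4, g5]
          exact Nat.mul_le_mul_left _ (by omega)
        have g6 : T * (N * C + r * (N * (3 + R)) + N * R + ∑ i, β i) =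
            T * (N * C + r * (N * (3 + R)) + N * R) + T * ∑ i, β i := by ring
        rw [g6]
        omega
      exact Nat.le_of_mul_le_mul_left g1 (by omega)
    rw [← mul_sum] at f1
    have f5 : ∑ i ∈ univ.erase (0 : Fin (r + 1)), ψ α i ≤ d - C := by
      have g1 : N * ∑ i ∈ univ.erase (0 : Fin (r + 1)), ψ α i ≤ N * (d - C) := by
        rw [Nat.mul_sub]
        omega
      exact Nat.le_of_mul_le_mul_left g1 (by omega)
    have hφ0 : φ α 0 = d - C - ∑ i ∈ univ.erase (0 : Fin (r + 1)), ψ α i := if_pos rfl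
    have hφi : ∀ i, i ≠ 0 → φ α i = ψ α i := fun i hi => if_neg hi
    have hφs : ∑ i, φ α i = d - C := by
      have g1 : φ α 0 + ∑ i ∈ univ.erase (0 : Fin (r + 1)), φ α i = ∑ i, φ α i :=
        add_sum_erase univ _ (mem_univ (0 : Fin (r + 1)))
      have g2 : ∑ i ∈ univ.erase (0 : Fin (r + 1)), φ α i =
          ∑ i ∈ univ.erase (0 : Fin (r + 1)), ψ α i :=
        sum_congr rfl fun i hi => hφi i (ne_of_mem_erase hi)
      rw [← g1, g2, hφ0]
      exact Nat.sub_add_cancel f5
    rw [hVm]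
    refine ⟨hφs, ?_⟩
    have hml : ∀ l, m l ≤ d := by
      intro l
      have h1 := hdeg _ _ hα2 l
      rw [hα1] at h1
      exact_mod_cast h1
    refine hin d (by omega) m (fun i => (N - 1) * α i + β i) (φ α) hml (fun i => ?_) ?_
      fun i => ?_
    · have g1 : α i ≤ d := by
        rw [← hα1]
        exact single_le_sum (fun _ _ => Nat.zero_le _) (mem_univ i)
      have g2 : β i ≤ ∑ i, β i := single_le_sum (fun _ _ => Nat.zero_le _) (mem_univ i)
      have g3 : (N - 1) * α i ≤ (N - 1) * d := Nat.mul_le_mul_left _ g1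
      rw [← f3]
      exact Nat.add_le_add g3 (g2.trans hβd)
    · have g1 := h.add _ _ _ _ (h.nsmul hα2 (N - 1)) hβ1
      have g2 : ((N - 1) • (fun l => (m l : ℤ)) + fun l => (m l : ℤ)) =
          fun l => ((N * m l : ℕ) : ℤ) := by
        funext l
        rw [Pi.add_apply, Pi.smul_apply, nsmul_eq_mul]
        obtain ⟨c, hc⟩ : ∃ c, N = c + 1 := ⟨N - 1, by omega⟩
        rw [hc, Nat.add_sub_cancel]
        push_cast
        ring
      have g3 : ((N - 1) • α + β) = fun i => (N - 1) * α i + β i := by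
        funext i
        rw [Pi.add_apply, Pi.smul_apply, smul_eq_mul]
      rw [g2, g3] at g1
      exact g1
    · -- the inequality
      have g0 : (N - 1) * α i + β i + N * R ≤ N * φ α i := by
        by_cases hi : i = 0
        · subst hi
          rw [hφ0, Nat.mul_sub, Nat.mul_sub]
          omega
        · rw [hφi i hi]
          exact (hψ1 α i).1
      calc K * ((N - 1) * α i + β i) + N * d ≤ K * ((N - 1) * α i + β i) + N * (K * R) :=
            Nat.add_le_add_left (Nat.mul_le_mul_left _ hR1.le) _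
        _ = K * ((N - 1) * α i + β i + N * R) := by ring
        _ ≤ K * (N * φ α i) := Nat.mul_le_mul_left _ g0
        _ = K * N * φ α i := by ring
  -- injectivity on the good exponents
  set B := U.filter fun α => ∃ i, i ≠ 0 ∧ (α i + b) % N = 0 with hB
  have hcard : (U \ B).card ≤ V.card := by
    refine card_le_card_of_injOn φ (fun α hα => hφU α (mem_sdiff.1 hα).1) ?_
    intro α hα α' hα' heq
    rw [mem_coe, mem_sdiff] at hα hα'
    have hgood : ∀ α, α ∈ U → α ∉ B → ∀ i, i ≠ 0 → (α i + b) % N ≠ 0 := by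
      intro α h1 h2 i hi h3
      exact h2 (mem_filter.2 ⟨h1, i, hi, h3⟩)
    have hi : ∀ i, i ≠ 0 → α i = α' i := by
      intro i hi
      have h1 := congrFun heq i
      have h2 : φ α i = ψ α i := if_neg hi
      have h3 : φ α' i = ψ α' i := if_neg hi
      rw [h2, h3] at h1
      have h4 : α i - (α i + b) / N = α' i - (α' i + b) / N := by
        have h5 : α i - (α i + b) / N + (β i / N + 2 + R) =
            α' i - (α' i + b) / N + (β i / N + 2 + R) := h1
        omega
      exact floor_inj hN2 (hgood α hα.1 hα.2 i hi) (hgood α' hα'.1 hα'.2 i hi) h4 hbN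
    have h0 : α 0 = α' 0 := by
      have h1 := ((hUm α).1 hα.1).1
      have h2 := ((hUm α').1 hα'.1).1
      have g1 : α 0 + ∑ i ∈ univ.erase (0 : Fin (r + 1)), α i = ∑ i, α i :=
        add_sum_erase univ _ (mem_univ (0 : Fin (r + 1)))
      have g2 : α' 0 + ∑ i ∈ univ.erase (0 : Fin (r + 1)), α' i = ∑ i, α' i :=
        add_sum_erase univ _ (mem_univ (0 : Fin (r + 1)))
      have g3 : ∑ i ∈ univ.erase (0 : Fin (r + 1)), α i =
          ∑ i ∈ univ.erase (0 : Fin (r + 1)), α' i :=
        sum_congr rfl fun i hi' => hi i (ne_of_mem_erase hi')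
      omega
    funext i
    by_cases h1 : i = 0
    · rw [h1]
      exact h0
    · exact hi i h1
  have hBU : B ⊆ U := filter_subset _ _
  rw [card_sdiff_of_subset hBU] at hcard
  have h1 : E * B.card ≤ U.card := by
    have h2 : r * (E * B.card) ≤ r * U.card := by
      refine le_trans ?_ hb
      calc r * (E * B.card) = (E * r) * B.card := by ring
        _ ≤ N * B.card := Nat.mul_le_mul_right _ (by omega)
    exact Nat.le_of_mul_le_mul_left h2 (by omega)
  have h2 : U.card - V.card ≤ B.card := by omega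
  exact (Nat.mul_le_mul_left E h2).trans h1

end Pool.Agent.H74.BP

end

section

namespace Pool.Agent.H74.BP

open MvPolynomial

/-- The leading exponents (lexicographic order) of the nonzero elements of W. -/
def LM {r : ℕ} (W : Submodule ℂ (MvPolynomial (Fin r) ℂ)) : Set (Fin r →₀ ℕ) :=
  {α | ∃ F ∈ W, F ≠ 0 ∧ (MonomialOrder.lex (σ := Fin r)).degree F = α}

/-- The coefficients at the leading exponents determine an element of W. -/
theorem eq_zero_of_coeff_LM {r : ℕ} (W : Submodule ℂ (MvPolynomial (Fin r) ℂ))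
    (F : MvPolynomial (Fin r) ℂ) (hF : F ∈ W) (h : ∀ α ∈ LM W, F.coeff α = 0) : F = 0 := by
  by_contra hne
  have h1 := h _ ⟨F, hF, hne, rfl⟩
  exact ((MonomialOrder.lex (σ := Fin r)).coeff_degree_ne_zero_iff.mpr hne) h1

/-- Elements with distinct leading exponents are linearly independent. -/
theorem linearIndependent_of_degree {r : ℕ} {ι : Type*}
    (f : ι → MvPolynomial (Fin r) ℂ) (h0 : ∀ i, f i ≠ 0)
    (hinj : Function.Injective fun i => (MonomialOrder.lex (σ := Fin r)).degree (f i)) :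
    LinearIndependent ℂ f := by
  classical
  rw [linearIndependent_iff']
  intro s g hg
  by_contra hcon
  push Not at hcon
  obtain ⟨i0, hi0s, hi0⟩ := hcon
  set t := s.filter (fun i => g i ≠ 0) with ht
  have htne : t.Nonempty := ⟨i0, by simp [ht, hi0s, hi0]⟩
  obtain ⟨j, hjt, hjmax⟩ := t.exists_max_image
    (fun i => (MonomialOrder.lex (σ := Fin r)).toSyn
      ((MonomialOrder.lex (σ := Fin r)).degree (f i))) htne
  have hj : j ∈ s ∧ g j ≠ 0 := by simpa [ht] using hjt
  have hc := congrArg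
    (fun P => P.coeff ((MonomialOrder.lex (σ := Fin r)).degree (f j))) hg
  simp only [MvPolynomial.coeff_sum, MvPolynomial.coeff_smul, MvPolynomial.coeff_zero,
    smul_eq_mul] at hc
  rw [Finset.sum_eq_single j] at hc
  · rcases mul_eq_zero.mp hc with h1 | h1
    · exact hj.2 h1
    · exact ((MonomialOrder.lex (σ := Fin r)).coeff_degree_ne_zero_iff.mpr (h0 j)) h1
  · intro i his hij
    by_cases hgi : g i = 0
    · rw [hgi, zero_mul]
    · have hit : i ∈ t := by simp [ht, his, hgi]
      have hle := hjmax i hit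
      have hlt : (MonomialOrder.lex (σ := Fin r)).toSyn
          ((MonomialOrder.lex (σ := Fin r)).degree (f i)) <
          (MonomialOrder.lex (σ := Fin r)).toSyn
          ((MonomialOrder.lex (σ := Fin r)).degree (f j)) := by
        refine lt_of_le_of_ne hle ?_
        intro he
        exact hij (hinj ((MonomialOrder.lex (σ := Fin r)).toSyn.injective he))
      rw [(MonomialOrder.lex (σ := Fin r)).coeff_eq_zero_of_lt hlt, mul_zero]
  · intro hjs
    exact absurd hj.1 hjs

/-- Their number is the dimension. -/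
theorem ncard_LM {r : ℕ} (W : Submodule ℂ (MvPolynomial (Fin r) ℂ)) [FiniteDimensional ℂ W] :
    (LM W).Finite ∧ (LM W).ncard = Module.finrank ℂ W := by
  classical
  choose! F hFW hF0 hFd using (fun (α : Fin r →₀ ℕ) (h : α ∈ LM W) => h)
  let f : LM W → W := fun α => ⟨F α, hFW α α.2⟩
  have hli : LinearIndependent ℂ f := by
    have h1 : LinearIndependent ℂ (fun α : LM W => F α) := by
      apply linearIndependent_of_degree
      · intro α
        exact hF0 α α.2
      · intro α β h
        have h2 : (MonomialOrder.lex (σ := Fin r)).degree (F α) =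
          (MonomialOrder.lex (σ := Fin r)).degree (F β) := h
        rw [hFd α α.2, hFd β β.2] at h2
        exact Subtype.ext h2
    exact LinearIndependent.of_comp W.subtype h1
  have hfin : Finite (LM W) := hli.finite
  have := Fintype.ofFinite (LM W)
  refine ⟨Set.toFinite _, ?_⟩
  have hcard : (LM W).ncard = Fintype.card (LM W) := by
    rw [← Nat.card_coe_set_eq, Nat.card_eq_fintype_card]
  rw [hcard]
  apply le_antisymm
  · exact hli.fintype_card_le_finrank
  · let φ : W →ₗ[ℂ] (LM W → ℂ) :=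
      { toFun := fun G α => (G : MvPolynomial (Fin r) ℂ).coeff α
        map_add' := by
          intro a b
          funext α
          simp
        map_smul' := by
          intro c a
          funext α
          simp }
    have hinj : Function.Injective φ := by
      rw [injective_iff_map_eq_zero]
      intro G hG
      apply Subtype.ext
      apply eq_zero_of_coeff_LM W _ G.2
      intro α hα
      exact congrFun hG ⟨α, hα⟩
    have := LinearMap.finrank_le_finrank_of_injective hinj
    simpa using this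

end Pool.Agent.H74.BP

end

section

set_option autoImplicit false

namespace Pool.Agent.H74.BP

open MvPolynomial Pool.Agent.H18.Fat

theorem dense_ne_zero {ι : Type} [Fintype ι] (G : MvPolynomial ι ℂ) (hG : G ≠ 0) :
    Dense {x : ι → ℂ | eval x G ≠ 0} := by
  intro x
  obtain ⟨y, hy⟩ : ∃ y : ι → ℂ, eval y G ≠ 0 := by
    by_contra hcon
    push Not at hcon
    exact hG (MvPolynomial.funext fun z => by rw [hcon z, map_zero])
  let g : Polynomial ℂ :=
    MvPolynomial.aeval (fun i => Polynomial.C (x i) + Polynomial.X * Polynomial.C (y i - x i)) G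
  have hg : ∀ t : ℂ, g.eval t = eval (fun i => x i + t * (y i - x i)) G := by
    intro t
    rw [← Polynomial.coe_evalRingHom]
    simp only [g, MvPolynomial.aeval_def, MvPolynomial.hom_eval₂]
    rw [← MvPolynomial.eval₂_id]
    congr 1
    · ext z; simp
    · funext i; simp
  have hg0 : g ≠ 0 := by
    intro h0
    have h1 := hg 1
    rw [h0, Polynomial.eval_zero] at h1
    apply hy
    rw [h1]
    congr 2
    funext i
    ring
  have hfin : ({t : ℂ | g.eval t = 0} : Set ℂ).Finite := by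
    refine (g.roots.toFinset.finite_toSet).subset fun t ht => ?_
    simp only [Finset.mem_coe, Multiset.mem_toFinset]
    exact (Polynomial.mem_roots hg0).2 ht
  have hd : Dense ({t : ℂ | g.eval t = 0}ᶜ) := hfin.countable.dense_compl ℂ
  let φ : ℂ → (ι → ℂ) := fun t i => x i + t * (y i - x i)
  have hφ : Continuous φ := by
    refine continuous_pi fun i => ?_
    fun_prop
  have hx : x = φ 0 := by
    funext i; simp [φ]
  have h0 : φ 0 ∈ closure (φ '' ({t : ℂ | g.eval t = 0}ᶜ)) :=
    image_closure_subset_closure_image hφ ⟨0, hd 0, rfl⟩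
  rw [hx]
  refine closure_mono ?_ h0
  rintro _ ⟨t, ht, rfl⟩
  have ht' : g.eval t ≠ 0 := ht
  rw [hg] at ht'
  exact ht'

/-- Countably many general conditions hold simultaneously for some points. -/
theorem exists_veryGeneral {r k : ℕ} {P : ℕ → (Fin k → Fin (r + 1) → ℂ) → Prop}
    (h : ∀ n, ForGeneralPoints r k (P n)) : ∃ p, ∀ n, P n p := by
  choose G hG0 hG using h
  have hopen : ∀ n, IsOpen {x : Fin k × Fin (r + 1) → ℂ | eval x (G n) ≠ 0} := fun n =>
    isOpen_ne_fun (MvPolynomial.continuous_eval (G n)) continuous_const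
  have hd := dense_iInter_of_isOpen_nat hopen fun n => dense_ne_zero (G n) (hG0 n)
  obtain ⟨x, hx⟩ := hd.nonempty
  refine ⟨fun i j => x (i, j), fun n => hG n _ ?_⟩
  have := Set.mem_iInter.1 hx n
  exact this

end Pool.Agent.H74.BP

end

section

/-!
# Pair sums at most `d + 1`: many large multiplicities
-/

namespace Pool.Agent.H74.CT

open Finset

theorem choose_le_pow (M : ℕ) (hM : 1 ≤ M) : ∀ n : ℕ, (M + n - 1).choose n ≤ M ^ n := by
  intro n
  induction n with
  | zero => simp
  | succ n ih =>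
    have h1 : (M + n - 1 + 1) * (M + n - 1).choose n =
        (M + n - 1 + 1).choose (n + 1) * (n + 1) := Nat.add_one_mul_choose_eq _ _
    have h2 : M + (n + 1) - 1 = M + n - 1 + 1 := by omega
    have h3 : M + n - 1 + 1 ≤ M * (n + 1) := by
      have h4 : M + n - 1 + 1 = M + n := by omega
      rw [h4]
      nlinarith
    rw [h2]
    have h4 : (M + n - 1 + 1).choose (n + 1) * (n + 1) ≤ (M ^ (n + 1)) * (n + 1) := by
      rw [← h1]
      calc (M + n - 1 + 1) * (M + n - 1).choose n ≤ (M * (n + 1)) * M ^ n :=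
            Nat.mul_le_mul h3 ih
        _ = _ := by ring
    exact Nat.le_of_mul_le_mul_right h4 (by omega)

end Pool.Agent.H74.CT

end
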