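import Pool.Agent.H94.LP3.M07
import Pool.Agent.H94.LP3.M08

/-! The parts of this file: H18.Cub.DifP, H18.Cub.GenP, H18.Cub.BridgeP, H18.Cub.StepP. -/

section

/-!
# Module DifP: the differential lemma for polynomials

`∑ s, c s * V s` (with `c s ∈ ℂ[t]`, `V s ∈ ℂ[x]`) vanishes to order `μ` at the moving point
`(q, x_i = v + t)`.  Use `dif_layer` and `dif_resid` of `Pool.Agent.H18.Ex.Dif` for the translates
`trl (v e_i) (V s)` (`tay_translate`) and a box `A` of exponents.
-/

namespace Pool.Agent.H18.Cub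

open Finset Pool.Agent.H18.Ex

variable {ι : Type} [Fintype ι] [DecidableEq ι]

/-- The moving point. -/
noncomputable def mvPt (i : ι) (v : ℂ) (q : ι → ℂ) : ι → Polynomial ℂ :=
  Function.update (fun j => Polynomial.C (q j)) i (Polynomial.X + Polynomial.C v)

/-- The vector `v e_i`. -/
noncomputable def difc (i : ι) (v : ℂ) : ι → ℂ := Function.update (fun _ => 0) i v

omit [Fintype ι] in
lemma mvPt_eq (i : ι) (v : ℂ) (q : ι → ℂ) :
    mvPt i v q = fun j => movPt i q j + algebraMap ℂ (Polynomial ℂ) (difc i v j) := by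
  funext j
  unfold mvPt movPt difc
  by_cases hj : j = i
  · subst hj
    rw [Function.update_self, Function.update_self, if_pos rfl]
    rfl
  · rw [Function.update_of_ne hj, Function.update_of_ne hj, if_neg hj, map_zero, add_zero]

omit [Fintype ι] in
lemma update_eq_difc (i : ι) (v : ℂ) (q : ι → ℂ) :
    Function.update q i v = fun j => Function.update q i 0 j + algebraMap ℂ ℂ (difc i v j) := by
  funext j
  unfold difc
  by_cases hj : j = i
  · subst hj
    rw [Function.update_self, Function.update_self, Function.update_self, zero_add]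
    rfl
  · rw [Function.update_of_ne hj, Function.update_of_ne hj, Function.update_of_ne hj, map_zero,
      add_zero]

/-- The coefficient functions of the moving form. -/
noncomputable def difF {n : ℕ} (V : Fin n → MvPolynomial ι ℂ) (c : Fin n → Polynomial ℂ) (i : ι)
    (v : ℂ) (a : ι → ℕ) : Polynomial ℂ :=
  ∑ s, c s * Polynomial.C (cf (trl (difc i v) (V s)) a)

lemma difF_coeff {n : ℕ} (V : Fin n → MvPolynomial ι ℂ) (c : Fin n → Polynomial ℂ) (i : ι)
    (v : ℂ) (a : ι → ℕ) (j : ℕ) :
    (difF V c i v a).coeff j = tay (∑ s, (c s).coeff j • V s) (difc i v) a := by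
  unfold difF
  rw [Polynomial.finsetSum_coeff, tay_sum]
  refine sum_congr rfl fun s _ => ?_
  rw [Polynomial.coeff_mul_C, tay_smul]
  rfl

/-- A box containing all the exponents. -/
def difA (N : ℕ) : Finset (ι → ℕ) := Fintype.piFinset fun _ => range (N + 1)

/-- The residual box. -/
def difA' (i : ι) (N : ℕ) : Finset (ι → ℕ) :=
  Fintype.piFinset fun j => if j = i then range N else range (N + 1)

lemma mem_difA' (i : ι) (N : ℕ) (a : ι → ℕ) :
    a ∈ difA' i N ↔ Function.update a i (a i + 1) ∈ (difA N : Finset (ι → ℕ)) := by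
  unfold difA difA'
  rw [Fintype.mem_piFinset, Fintype.mem_piFinset]
  refine forall_congr' fun j => ?_
  by_cases hj : j = i
  · subst hj
    rw [if_pos rfl, Function.update_self, mem_range, mem_range]
    omega
  · rw [if_neg hj, Function.update_of_ne hj]

omit [DecidableEq ι] in
lemma exists_dif_bound (T : Finset (ι →₀ ℕ)) : ∃ N : ℕ, ∀ a ∈ T, ∀ j, a j < N := by
  refine ⟨T.sup (fun a => univ.sup (fun j => a j)) + 1, fun a ha j => ?_⟩
  have h1 : a j ≤ univ.sup (fun j => a j) := Finset.le_sup (f := fun j => a j) (mem_univ j)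
  have h2 : univ.sup (fun j => a j) ≤ T.sup (fun a => univ.sup (fun j => a j)) :=
    Finset.le_sup (f := fun a : ι →₀ ℕ => univ.sup (fun j => a j)) ha
  omega

/-- The moving form satisfies the moving condition. -/
lemma difF_sat {n : ℕ} (V : Fin n → MvPolynomial ι ℂ) (c : Fin n → Polynomial ℂ) (i : ι)
    (v : ℂ) (μ : ℕ) (q : ι → ℂ)
    (h : ∀ b : ι → ℕ, ∑ i, b i < μ → ∑ s, c s * tay (V s) (mvPt i v q) b = 0)
    (A : Finset (ι → ℕ))
    (hA : ∀ s, ∀ a ∈ (trl (difc i v) (V s)).support, (⇑a : ι → ℕ) ∈ A) :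
    Sat A (difF V c i v) (Kind.free μ) (movPt i q) := by
  intro b hb
  have hb' : ∑ i, b i < μ := hb
  change ∑ a ∈ A, difF V c i v a * tcr (movPt i q) a b = 0
  rw [← h b hb']
  unfold difF
  simp only [sum_mul]
  rw [sum_comm]
  refine sum_congr rfl fun s _ => ?_
  rw [mvPt_eq, tay_translate, tay_eq_tcr A _ (hA s), mul_sum]
  refine sum_congr rfl fun a _ => ?_
  rw [mul_assoc]
  rfl

/-- For `j < μ` the `j`-th coefficient vanishes at `q` on the hyperplane `x_i = v`. -/
theorem difP_layer {n : ℕ} (V : Fin n → MvPolynomial ι ℂ) (c : Fin n → Polynomial ℂ) (i : ι)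
    (v : ℂ) (μ : ℕ) (q : ι → ℂ)
    (h : ∀ b : ι → ℕ, ∑ i, b i < μ → ∑ s, c s * tay (V s) (mvPt i v q) b = 0)
    (j : ℕ) (hj : j < μ) (b : ι → ℕ) (hb : ∑ i, b i < 1) :
    tay (sub1 i v (∑ s, (c s).coeff j • V s)) q b = 0 := by
  classical
  obtain ⟨N, hN⟩ := exists_dif_bound
    ((univ.biUnion fun s => (trl (difc i v) (V s)).support) ∪
      (trl (difc i v) (∑ s, (c s).coeff j • V s)).support)
  have hA : ∀ s, ∀ a ∈ (trl (difc i v) (V s)).support, (⇑a : ι → ℕ) ∈ (difA N : Finset (ι → ℕ)) := by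
    intro s a ha
    unfold difA
    rw [Fintype.mem_piFinset]
    intro k
    have := hN a (mem_union_left _ (mem_biUnion.mpr ⟨s, mem_univ s, ha⟩)) k
    rw [mem_range]
    omega
  have hA2 : ∀ a ∈ (trl (difc i v) (∑ s, (c s).coeff j • V s)).support,
      (⇑a : ι → ℕ) ∈ (difA N : Finset (ι → ℕ)) := by
    intro a ha
    unfold difA
    rw [Fintype.mem_piFinset]
    intro k
    have := hN a (mem_union_right _ ha) k
    rw [mem_range]
    omega
  have h1 := dif_layer (difA N) i μ (difF V c i v) q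
    (difF_sat V c i v μ q h (difA N) hA) j hj b hb
  rw [tay_sub1]
  split_ifs with hbi
  · have h2 : Function.update q i (algebraMap ℂ ℂ v) =
        fun j => Function.update q i 0 j + algebraMap ℂ ℂ (difc i v j) := update_eq_difc i v q
    rw [h2, tay_translate, tay_eq_tcr (difA N) _ hA2]
    have h3 := layer_sum (difA N) i
      (fun a => algebraMap ℂ ℂ (cf (trl (difc i v) (∑ s, (c s).coeff j • V s)) a))
      (Function.update q i 0) (Function.update_self _ _ _) b hbi
    rw [h3]
    refine Eq.trans (sum_congr rfl ?_) h1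
    intro a ha
    congr 1
    · change _ = (difF V c i v a).coeff j
      rw [difF_coeff]
      rfl
    · exact tcr_layer_congr _ _ a b i (fun k hk => Function.update_of_ne hk _ _)
        (mem_filter.mp ha).2
  · rfl

/-- If the first `μ` coefficients vanish on the hyperplane then the residual of the `0`-th
coefficient satisfies the condition `forced μ 2`. -/
theorem difP_resid {n : ℕ} (V : Fin n → MvPolynomial ι ℂ) (c : Fin n → Polynomial ℂ) (i : ι)
    (v : ℂ) (μ : ℕ) (q : ι → ℂ)
    (h : ∀ b : ι → ℕ, ∑ i, b i < μ → ∑ s, c s * tay (V s) (mvPt i v q) b = 0)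
    (h0 : ∀ j < μ, sub1 i v (∑ s, (c s).coeff j • V s) = 0) (F' : MvPolynomial ι ℂ)
    (hF' : ∑ s, (c s).coeff 0 • V s = (MvPolynomial.X i - MvPolynomial.C v) * F')
    (b : ι → ℕ) (hb : ∑ i, b i < μ) (hb2 : b i + 2 ≤ μ) :
    tay F' (Function.update q i v) b = 0 := by
  classical
  obtain ⟨N, hN⟩ := exists_dif_bound
    ((univ.biUnion fun s => (trl (difc i v) (V s)).support) ∪ (trl (difc i v) F').support)
  have hA : ∀ s, ∀ a ∈ (trl (difc i v) (V s)).support, (⇑a : ι → ℕ) ∈ (difA N : Finset (ι → ℕ)) := by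
    intro s a ha
    unfold difA
    rw [Fintype.mem_piFinset]
    intro k
    have := hN a (mem_union_left _ (mem_biUnion.mpr ⟨s, mem_univ s, ha⟩)) k
    rw [mem_range]
    omega
  have hA2 : ∀ a ∈ (trl (difc i v) F').support, (⇑a : ι → ℕ) ∈ difA' i N := by
    intro a ha
    unfold difA'
    rw [Fintype.mem_piFinset]
    intro k
    have := hN a (mem_union_right _ ha) k
    split_ifs
    · rw [mem_range]
      omega
    · rw [mem_range]
      omega
  have h1 := dif_resid (difA N) (difA' i N) i (mem_difA' i N) μ (difF V c i v) q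
    (difF_sat V c i v μ q h (difA N) hA) (by
      intro j hj a _ hai
      rw [difF_coeff]
      have h2 := tay_sub1 i v (∑ s, (c s).coeff j • V s) (fun _ => (0 : ℂ)) a
      rw [h0 j hj, tay_zero, if_pos hai] at h2
      exact h2.symm) b ⟨hb, hb2⟩
  have h2 : Function.update q i v =
      fun j => Function.update q i 0 j + algebraMap ℂ ℂ (difc i v j) := update_eq_difc i v q
  rw [h2, tay_translate, tay_eq_tcr (difA' i N) _ hA2]
  refine Eq.trans (sum_congr rfl fun a _ => ?_) h1
  congr 1
  change tay F' (difc i v) a = (difF V c i v (Function.update a i (a i + 1))).coeff 0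
  rw [difF_coeff, hF', tay_X_sub_mul, Function.update_self, if_neg (Nat.succ_ne_zero _),
    Function.update_idem, Nat.add_sub_cancel, Function.update_eq_self]
  have h3 : difc i v i = v := Function.update_self _ _ _
  rw [h3]
  simp

end Pool.Agent.H18.Cub

end

section

/-!
# Module GenP: injectivity is an open condition on the positions
-/

namespace Pool.Agent.H18.Cub

open Finset Pool.Agent.H18.Ex

variable {ι Λ : Type} [Fintype ι] [DecidableEq ι]

open Classical in
omit [DecidableEq ι] in
/-- The multi-indices of a condition as a finite set. -/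
theorem genP_exists_idxs (g : Lines Λ ι) (k : Kind Λ) :
    ∃ s : Finset (ι → ℕ), ∀ b, b ∈ s ↔ g.Idx k b := by
  obtain ⟨D, hD⟩ := Idx_lt g k
  refine ⟨(Fintype.piFinset fun _ => range D).filter fun b => g.Idx k b, fun b => ?_⟩
  rw [mem_filter, Fintype.mem_piFinset]
  constructor
  · exact fun h => h.2
  · exact fun h => ⟨fun i => mem_range.2 (hD b h i), h⟩

/-- The finite set of the multi-indices of a condition. -/
noncomputable def genP_idxs (g : Lines Λ ι) (k : Kind Λ) : Finset (ι → ℕ) :=
  (genP_exists_idxs g k).choose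

omit [DecidableEq ι] in
theorem genP_mem_idxs {g : Lines Λ ι} {k : Kind Λ} {b : ι → ℕ} :
    b ∈ genP_idxs g k ↔ g.Idx k b :=
  (genP_exists_idxs g k).choose_spec b

/-- The matrix of the conditions. -/
noncomputable def genP_mat {R : Type} [CommRing R] [Algebra ℂ R] {κ : Type} (g : Lines Λ ι)
    (W : Submodule ℂ (MvPolynomial ι ℂ)) [FiniteDimensional ℂ W] (k : κ → Kind Λ)
    (pos : κ → ι → R) :
    Matrix (Σ i : κ, {b // b ∈ genP_idxs g (k i)}) (Fin (Module.finrank ℂ W)) R :=
  fun x a => tay (Module.finBasis ℂ W a : MvPolynomial ι ℂ) (g.pt (k x.1) (pos x.1)) x.2.1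

theorem genP_tay_repr {W : Submodule ℂ (MvPolynomial ι ℂ)} [FiniteDimensional ℂ W]
    (c : Fin (Module.finrank ℂ W) → ℂ) (q : ι → ℂ) (b : ι → ℕ) :
    tay ((∑ a, c a • Module.finBasis ℂ W a : W) : MvPolynomial ι ℂ) q b =
      ∑ a, tay (Module.finBasis ℂ W a : MvPolynomial ι ℂ) q b * c a := by
  have h : ((∑ a, c a • Module.finBasis ℂ W a : W) : MvPolynomial ι ℂ) =
      ∑ a, c a • (Module.finBasis ℂ W a : MvPolynomial ι ℂ) := by
    rw [Submodule.coe_sum]
    rfl
  rw [h, tay_sum]
  refine sum_congr rfl fun a _ => ?_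
  rw [tay_smul, mul_comm]
  rfl

theorem genP_ker {κ : Type} (g : Lines Λ ι) (W : Submodule ℂ (MvPolynomial ι ℂ))
    [FiniteDimensional ℂ W] (k : κ → Kind Λ) (pos : κ → ι → ℂ) :
    LinearMap.ker (genP_mat g W k pos).mulVecLin = ⊥ ↔ InjP g W k pos := by
  rw [LinearMap.ker_eq_bot']
  constructor
  · intro h F hF hs
    have h1 := h (fun a => (Module.finBasis ℂ W).repr ⟨F, hF⟩ a) ?_
    · have h2 : (⟨F, hF⟩ : W) = 0 := by
        rw [← (Module.finBasis ℂ W).sum_repr ⟨F, hF⟩]
        refine sum_eq_zero fun a _ => ?_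
        have h3 : (Module.finBasis ℂ W).repr ⟨F, hF⟩ a = 0 := congrFun h1 a
        rw [h3, zero_smul]
      exact congrArg Subtype.val h2
    · rw [Matrix.mulVecLin_apply]
      funext x
      have h2 := hs x.1 x.2.1 (genP_mem_idxs.1 x.2.2)
      have h3 := genP_tay_repr (fun a => (Module.finBasis ℂ W).repr ⟨F, hF⟩ a)
        (g.pt (k x.1) (pos x.1)) x.2.1
      rw [(Module.finBasis ℂ W).sum_repr ⟨F, hF⟩] at h3
      exact h3.symm.trans h2
  · intro h c hc
    rw [Matrix.mulVecLin_apply] at hc
    have h1 := h ((∑ a, c a • Module.finBasis ℂ W a : W) : MvPolynomial ι ℂ)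
      (Submodule.coe_mem _) ?_
    · have h2 : (∑ a, c a • Module.finBasis ℂ W a : W) = 0 := Subtype.ext h1
      funext a
      exact Fintype.linearIndependent_iff.1 (Module.finBasis ℂ W).linearIndependent c h2 a
    · intro i b hb
      rw [genP_tay_repr]
      exact congrFun hc ⟨i, b, genP_mem_idxs.2 hb⟩

/-- The general matrix. -/
noncomputable def genP_gmat {κ : Type} (g : Lines Λ ι) (W : Submodule ℂ (MvPolynomial ι ℂ))
    [FiniteDimensional ℂ W] (k : κ → Kind Λ) :
    Matrix (Σ i : κ, {b // b ∈ genP_idxs g (k i)}) (Fin (Module.finrank ℂ W))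
      (MvPolynomial (κ × ι) ℂ) :=
  genP_mat g W k fun i j => MvPolynomial.X (i, j)

theorem genP_gmat_map {κ : Type} (g : Lines Λ ι) (W : Submodule ℂ (MvPolynomial ι ℂ))
    [FiniteDimensional ℂ W] (k : κ → Kind Λ) (x : κ × ι → ℂ) :
    (genP_gmat g W k).map (MvPolynomial.eval x) = genP_mat g W k fun i j => x (i, j) := by
  ext r a
  have h1 := tay_map (MvPolynomial.aeval x : MvPolynomial (κ × ι) ℂ →ₐ[ℂ] ℂ)
    (Module.finBasis ℂ W a : MvPolynomial ι ℂ)
    (g.pt (k r.1) fun j => MvPolynomial.X (r.1, j)) r.2.1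
  rw [pt_map] at h1
  simp only [MvPolynomial.aeval_X] at h1
  show MvPolynomial.eval x (tay (Module.finBasis ℂ W a : MvPolynomial ι ℂ)
    (g.pt (k r.1) fun j => MvPolynomial.X (r.1, j)) r.2.1) = _
  rw [← MvPolynomial.coe_aeval_eq_eval]
  exact h1

/-- Openness (compare `GI.general` in `Pool.Agent.H18.Ex.Gen`; use a basis of `W`,
`Module.finBasis`). -/
theorem GIP.general {κ : Type} [Fintype κ] {g : Lines Λ ι} {W : Submodule ℂ (MvPolynomial ι ℂ)}
    [FiniteDimensional ℂ W] {k : κ → Kind Λ} (h : GIP g W k) :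
    ∃ G : MvPolynomial (κ × ι) ℂ, G ≠ 0 ∧
      ∀ pos : κ → ι → ℂ, MvPolynomial.eval (fun x => pos x.1 x.2) G ≠ 0 → InjP g W k pos := by
  obtain ⟨pos₀, h₀⟩ := h
  have h1 : LinearMap.ker
      ((genP_gmat g W k).map (MvPolynomial.eval fun x : κ × ι => pos₀ x.1 x.2)).mulVecLin = ⊥ := by
    rw [genP_gmat_map, genP_ker]
    exact h₀
  obtain ⟨G, hG, hG'⟩ := Pool.Agent.H18.Fat.exists_poly_injective _ _ h1
  refine ⟨G, ?_, ?_⟩
  · rintro rfl
    exact hG (map_zero _)
  · intro pos hpos
    have h2 := hG' _ hpos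
    rw [genP_gmat_map, genP_ker] at h2
    exact h2

/-- Two open conditions can be satisfied at the same time, at points not on the hyperplane. -/
theorem GIP.exists_common {κ : Type} [Fintype κ] {g : Lines Λ ι}
    {W W' : Submodule ℂ (MvPolynomial ι ℂ)} [FiniteDimensional ℂ W] [FiniteDimensional ℂ W']
    {k k' : κ → Kind Λ} (h : GIP g W k) (h' : GIP g W' k') (l : Λ) :
    ∃ pos : κ → ι → ℂ, InjP g W k pos ∧ InjP g W' k' pos ∧ ∀ i, pos i (g.co l) ≠ g.va l := by
  obtain ⟨G, hG, hG'⟩ := h.general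
  obtain ⟨H, hH, hH'⟩ := h'.general
  have hX : (∏ i : κ, (MvPolynomial.X (i, g.co l) - MvPolynomial.C (g.va l) :
      MvPolynomial (κ × ι) ℂ)) ≠ 0 := by
    refine prod_ne_zero_iff.2 fun i _ h0 => ?_
    have h1 := congrArg (MvPolynomial.eval fun _ : κ × ι => g.va l + 1) h0
    rw [map_sub, MvPolynomial.eval_X, MvPolynomial.eval_C, map_zero] at h1
    have h2 : g.va l + 1 - g.va l = 1 := by ring
    rw [h2] at h1
    exact one_ne_zero h1
  have hne : G * H * ∏ i : κ, (MvPolynomial.X (i, g.co l) - MvPolynomial.C (g.va l) :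
      MvPolynomial (κ × ι) ℂ) ≠ 0 :=
    mul_ne_zero (mul_ne_zero hG hH) hX
  obtain ⟨x, hx⟩ : ∃ x : κ × ι → ℂ, MvPolynomial.eval x
      (G * H * ∏ i : κ, (MvPolynomial.X (i, g.co l) - MvPolynomial.C (g.va l) :
      MvPolynomial (κ × ι) ℂ)) ≠ 0 := by
    by_contra hcon
    push Not at hcon
    exact hne (MvPolynomial.funext fun x => by rw [hcon x, map_zero])
  rw [map_mul, map_mul] at hx
  have h1 := left_ne_zero_of_mul (left_ne_zero_of_mul hx)
  have h2 := right_ne_zero_of_mul (left_ne_zero_of_mul hx)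
  have h3 := right_ne_zero_of_mul hx
  rw [map_prod] at h3
  refine ⟨fun i j => x (i, j), hG' _ h1, hH' _ h2, fun i hi => ?_⟩
  have h4 := prod_ne_zero_iff.1 h3 i (mem_univ _)
  rw [map_sub, MvPolynomial.eval_X, MvPolynomial.eval_C] at h4
  exact h4 (sub_eq_zero.2 hi)

end Pool.Agent.H18.Cub

end

section

/-!
# Module BridgeP: general simple points; replacing forced simple points by free ones
-/

namespace Pool.Agent.H18.Cub

open Finset Pool.Agent.H18.Ex

variable {ι Λ : Type} [Fintype ι] [DecidableEq ι]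

/-- The evaluation functional at a point. -/
noncomputable def evlP {ι : Type} (q : ι → ℂ) : MvPolynomial ι ℂ →ₗ[ℂ] ℂ :=
  (MvPolynomial.aeval q : MvPolynomial ι ℂ →ₐ[ℂ] ℂ).toLinearMap

omit [Fintype ι] [DecidableEq ι] in
theorem evlP_apply (q : ι → ℂ) (F : MvPolynomial ι ℂ) : evlP q F = MvPolynomial.eval q F := by
  unfold evlP
  rw [AlgHom.toLinearMap_apply, MvPolynomial.aeval_eq_eval]

omit [Fintype ι] [DecidableEq ι] in
/-- `s` general points kill a space of polynomials of dimension at most `s` (compare `kill` in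
`Pool.Agent.H18.Ex.Kill`). -/
theorem killP (s : ℕ) (W : Submodule ℂ (MvPolynomial ι ℂ)) [FiniteDimensional ℂ W]
    (h : Module.finrank ℂ W ≤ s) :
    ∃ q : Fin s → ι → ℂ, ∀ F ∈ W, (∀ j, MvPolynomial.eval (q j) F = 0) → F = 0 := by
  induction s generalizing W with
  | zero =>
    refine ⟨fun _ _ => 0, fun f hf _ => ?_⟩
    have h1 : W = ⊥ := Submodule.finrank_eq_zero.1 (Nat.le_zero.1 h)
    rw [h1] at hf
    exact (Submodule.mem_bot ℂ).1 hf
  | succ s ih =>
    by_cases hW : W = ⊥
    · refine ⟨fun _ _ => 0, fun f hf _ => ?_⟩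
      rw [hW] at hf
      exact (Submodule.mem_bot ℂ).1 hf
    · obtain ⟨f0, hf0, hf0n⟩ := Submodule.exists_mem_ne_zero_of_ne_bot hW
      obtain ⟨q0, hq0⟩ : ∃ q0 : ι → ℂ, MvPolynomial.eval q0 f0 ≠ 0 := by
        by_contra hcon
        push Not at hcon
        exact hf0n (MvPolynomial.funext fun q => by rw [hcon q, map_zero])
      have hlt : W ⊓ LinearMap.ker (evlP q0) < W := by
        refine lt_of_le_of_ne inf_le_left fun heq => ?_
        have h1 : f0 ∈ W ⊓ LinearMap.ker (evlP q0) := by
          rw [heq]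
          exact hf0
        have h2 := LinearMap.mem_ker.1 (Submodule.mem_inf.1 h1).2
        rw [evlP_apply] at h2
        exact hq0 h2
      have h2 := Submodule.finrank_lt_finrank_of_lt hlt
      obtain ⟨q, hq⟩ := ih (W ⊓ LinearMap.ker (evlP q0)) (by omega)
      refine ⟨Fin.cons q0 q, fun f hf hall => ?_⟩
      apply hq f
      · rw [Submodule.mem_inf, LinearMap.mem_ker, evlP_apply]
        refine ⟨hf, ?_⟩
        have h3 := hall 0
        rwa [Fin.cons_zero] at h3
      · intro j
        have h3 := hall j.succ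
        rwa [Fin.cons_succ] at h3

/-- The space of the polynomials satisfying the conditions. -/
noncomputable def solP {κ : Type} (g : Lines Λ ι) (W : Submodule ℂ (MvPolynomial ι ℂ))
    (k : κ → Kind Λ) (pos : κ → ι → ℂ) : Submodule ℂ (MvPolynomial ι ℂ) where
  carrier := {F | F ∈ W ∧ ∀ i, SatP g F (k i) (pos i)}
  zero_mem' := ⟨W.zero_mem, fun _ _ _ => tay_zero _ _⟩
  add_mem' := by
    rintro F G ⟨hF, hF'⟩ ⟨hG, hG'⟩
    refine ⟨W.add_mem hF hG, fun i b hb => ?_⟩
    rw [tay_add, hF' i b hb, hG' i b hb, add_zero]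
  smul_mem' := by
    rintro c F ⟨hF, hF'⟩
    refine ⟨W.smul_mem c hF, fun i b hb => ?_⟩
    rw [tay_smul, hF' i b hb, mul_zero]

theorem mem_solP {κ : Type} {g : Lines Λ ι} {W : Submodule ℂ (MvPolynomial ι ℂ)}
    {k : κ → Kind Λ} {pos : κ → ι → ℂ} {F : MvPolynomial ι ℂ} :
    F ∈ solP g W k pos ↔ F ∈ W ∧ ∀ i, SatP g F (k i) (pos i) := Iff.rfl

theorem solP_le {κ : Type} (g : Lines Λ ι) (W : Submodule ℂ (MvPolynomial ι ℂ))
    (k : κ → Kind Λ) (pos : κ → ι → ℂ) : solP g W k pos ≤ W := fun _ hF => hF.1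

/-- General positions for the bridge. -/
theorem bridge_positionsP {κ : Type} [Fintype κ] (g : Lines Λ ι) (l : Λ)
    (W W' : Submodule ℂ (MvPolynomial ι ℂ)) [FiniteDimensional ℂ W] [FiniteDimensional ℂ W']
    (k : κ → Kind Λ) (k' : κ → Kind Λ) (s : ℕ)
    (h1 : GIP g W (Sum.elim k fun _ : Fin s => Kind.free 1))
    (h2 : GIP g W' k') :
    ∃ (pos : κ → ι → ℂ) (pos' : Fin s → ι → ℂ),
      InjP g W (Sum.elim k fun _ : Fin s => Kind.free 1) (Sum.elim pos pos') ∧
      InjP g W' k' pos ∧ ∀ i, pos i (g.co l) ≠ g.va l := by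
  obtain ⟨G1, hG1, hG1'⟩ := h1.general
  obtain ⟨G2, hG2, hG2'⟩ := h2.general
  set φ : κ × ι → (κ ⊕ Fin s) × ι := fun x => (Sum.inl x.1, x.2) with hφ
  have hφi : Function.Injective φ := by
    rintro ⟨a, b⟩ ⟨c, d⟩ h
    simp only [hφ, Prod.mk.injEq, Sum.inl.injEq] at h
    exact Prod.ext h.1 h.2
  have h3 : G1 * MvPolynomial.rename φ G2 * ∏ i : κ,
      (MvPolynomial.X ((Sum.inl i : κ ⊕ Fin s), g.co l) - MvPolynomial.C (g.va l)) ≠ 0 := by
    refine mul_ne_zero (mul_ne_zero hG1 ?_) ?_
    · intro h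
      apply hG2
      apply MvPolynomial.rename_injective φ hφi
      rw [h, map_zero]
    · refine Finset.prod_ne_zero_iff.2 fun x _ h => ?_
      have h4 := congrArg (MvPolynomial.eval fun _ => g.va l + 1) h
      rw [map_sub, MvPolynomial.eval_X, MvPolynomial.eval_C, map_zero, add_sub_cancel_left] at h4
      exact one_ne_zero h4
  obtain ⟨z, hz⟩ : ∃ z : (κ ⊕ Fin s) × ι → ℂ,
      MvPolynomial.eval z (G1 * MvPolynomial.rename φ G2 * ∏ i : κ,
        (MvPolynomial.X ((Sum.inl i : κ ⊕ Fin s), g.co l) - MvPolynomial.C (g.va l))) ≠ 0 := by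
    by_contra hcon
    push Not at hcon
    apply h3
    apply MvPolynomial.funext
    intro z
    rw [hcon z, map_zero]
  rw [map_mul, map_mul, map_prod, MvPolynomial.eval_rename] at hz
  have hz1 := left_ne_zero_of_mul (left_ne_zero_of_mul hz)
  have hz2 := right_ne_zero_of_mul (left_ne_zero_of_mul hz)
  have hz3 := right_ne_zero_of_mul hz
  refine ⟨fun i j => z (Sum.inl i, j), fun i j => z (Sum.inr i, j), ?_, ?_, ?_⟩
  · apply hG1'
    have h4 : (fun x : (κ ⊕ Fin s) × ι =>
        (Sum.elim (fun i j => z (Sum.inl i, j)) (fun i j => z (Sum.inr i, j)) :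
          κ ⊕ Fin s → ι → ℂ) x.1 x.2) = z := by
      funext x
      rcases x with ⟨x | x, y⟩ <;> rfl
    rw [h4]
    exact hz1
  · apply hG2'
    exact hz2
  · intro i h
    have h5 := Finset.prod_ne_zero_iff.1 hz3 i (Finset.mem_univ _)
    apply h5
    have h6 : z (Sum.inl i, g.co l) = g.va l := h
    rw [map_sub, MvPolynomial.eval_X, MvPolynomial.eval_C, h6, sub_self]

/-- Bridging (compare `bridge` in `Pool.Agent.H18.Ex.Bridge`). -/
theorem bridgeP {κ : Type} [Fintype κ] (g : Lines Λ ι) (l : Λ) (hg : g.Sep l)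
    (W W' : Submodule ℂ (MvPolynomial ι ℂ)) [FiniteDimensional ℂ W] [FiniteDimensional ℂ W']
    (hW : ResW g l W W') [DecidableEq Λ] (k : κ → Kind Λ) (s : ℕ)
    (h1 : GIP g W (Sum.elim k fun _ : Fin s => Kind.free 1))
    (h2 : GIP g W' fun i => (k i).dn l) :
    GIP g W (Sum.elim k fun _ : Fin s => Kind.forced l 1 1) := by
  obtain ⟨pos, pos', hp1, hp2, hp3⟩ := bridge_positionsP g l W W' k _ s h1 h2
  -- the solution space has dimension at most `s`
  set V := solP g W k pos with hV
  have hVfin : FiniteDimensional ℂ V := Submodule.finiteDimensional_of_le (solP_le g W k pos)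
  have hVs : Module.finrank ℂ V ≤ s := by
    let T : V →ₗ[ℂ] (Fin s → ℂ) :=
      (LinearMap.pi fun j => evlP (pos' j)).comp V.subtype
    have hT : Function.Injective T := by
      rw [← LinearMap.ker_eq_bot, LinearMap.ker_eq_bot']
      intro f hf
      apply Subtype.ext
      obtain ⟨hfW, hfk⟩ := mem_solP.1 f.2
      apply hp1 _ hfW
      rintro (i | j)
      · exact hfk i
      · intro b hb
        have hb' : ∑ i, b i < 1 := hb
        have hb0 : b = 0 := by
          funext i
          have h4 : b i ≤ ∑ i, b i := Finset.single_le_sum (fun _ _ => Nat.zero_le _)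
            (Finset.mem_univ i)
          change b i = 0
          omega
        subst hb0
        change tay (f : MvPolynomial ι ℂ) (pos' j) 0 = 0
        rw [tay_zero_right, ← evlP_apply]
        exact congrFun hf j
    have h6 := LinearMap.finrank_le_finrank_of_injective hT
    rwa [Module.finrank_fin_fun] at h6
  -- restriction to the hyperplane
  obtain ⟨q, hq⟩ := killP s (V.map (lay g l).toLinearMap)
    ((Submodule.finrank_map_le (lay g l).toLinearMap V).trans hVs)
  refine ⟨Sum.elim pos q, fun F hFW hF => ?_⟩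
  have hFk : ∀ i, SatP g F (k i) (pos i) := fun i => hF (Sum.inl i)
  -- the restriction vanishes
  have h0 : lay g l F = 0 := by
    apply hq
    · exact Submodule.mem_map_of_mem (f := (lay g l).toLinearMap) (mem_solP.2 ⟨hFW, hFk⟩)
    · intro j
      have h8 := hF (Sum.inr j) 0 (by
        change ∑ i, (0 : ι → ℕ) i < 1 ∧ (0 : ι → ℕ) (g.co l) + 1 ≤ 1
        constructor
        · simp
        · simp)
      change tay F (Function.update (q j) (g.co l) (g.va l)) 0 = 0 at h8
      rw [← tay_zero_right]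
      unfold lay
      rw [tay_sub1, if_pos (show (0 : ι → ℕ) (g.co l) = 0 from rfl)]
      exact h8
  obtain ⟨F', hF'W, hF'⟩ := hW F hFW h0
  have h9 : F' = 0 := by
    apply hp2 F' hF'W
    intro i
    have h10 := hFk i
    rw [hF'] at h10
    change SatP g F' (Kind.dn l (k i)) (pos i)
    cases hki : k i with
    | free m =>
      rw [hki] at h10
      exact satP_resid_of_notAt g l hg F' (Kind.free m) trivial (pos i) (hp3 i) h10
    | forced l' c e =>
      rw [hki] at h10
      change SatP g F' (if l' = l then Kind.forced l' (c - 1) e else Kind.forced l' c e) (pos i)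
      split_ifs with hl
      · subst hl
        exact satP_resid_forced g l' F' c e (pos i) h10
      · exact satP_resid_of_notAt g l hg F' (Kind.forced l' c e) hl (pos i) (hp3 i) h10
  rw [hF', h9, mul_zero]

end Pool.Agent.H18.Cub

end

section

/-!
# Module StepP: the (differential) Horace step for spaces of polynomials
-/

namespace Pool.Agent.H18.Cub

open Finset Pool.Agent.H18.Ex

variable {ι Λ : Type} [Fintype ι] [DecidableEq ι]

instance trW_finite (g : Lines Λ ι) (l : Λ) (W : Submodule ℂ (MvPolynomial ι ℂ))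
    [FiniteDimensional ℂ W] : FiniteDimensional ℂ (trW g l W) := by
  unfold trW
  infer_instance

/-- The coefficients of a polynomial family of solutions of conditions at a constant point. -/
theorem satP_coeff {n : ℕ} (g : Lines Λ ι) (V : Fin n → MvPolynomial ι ℂ)
    (c : Fin n → Polynomial ℂ) (k : Kind Λ) (q : ι → ℂ)
    (h : ∀ b, g.Idx k b → ∑ s, c s * tay (V s) (g.pt k fun i => Polynomial.C (q i)) b = 0)
    (j : ℕ) : SatP g (∑ s, (c s).coeff j • V s) k q := by
  intro b hb
  have h1 := h b hb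
  have h2 : ∀ s, tay (V s) (g.pt k fun i => Polynomial.C (q i)) b =
      Polynomial.C (tay (V s) (g.pt k q) b) := by
    intro s
    have h3 := pt_map (Polynomial.CAlgHom : ℂ →ₐ[ℂ] Polynomial ℂ) g k q
    have h4 := tay_map (Polynomial.CAlgHom : ℂ →ₐ[ℂ] Polynomial ℂ) (V s) (g.pt k q) b
    rw [h3] at h4
    exact h4.symm
  have h5 := congrArg (fun p => Polynomial.coeff p j) h1
  simp only [h2, Polynomial.finsetSum_coeff, Polynomial.coeff_mul_C, Polynomial.coeff_zero] at h5
  rw [tay_sum, ← h5]
  refine Finset.sum_congr rfl fun s _ => ?_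
  rw [tay_smul]
  rfl

/-- The positions, with parameter `t`. -/
def stepPosP {κ R : Type} [CommRing R] [Algebra ℂ R] (g : Lines Λ ι) (l : Λ) (ρ : κ → Role Λ)
    (pos : κ → ι → R) (t : R) (i : κ) : ι → R :=
  match ρ i with
  | .stay _ => pos i
  | .here _ _ => pos i
  | .ord _ => Function.update (pos i) (g.co l) (algebraMap ℂ R (g.va l))
  | .dif => Function.update (pos i) (g.co l) (t + algebraMap ℂ R (g.va l))

/-- The Horace step (compare `step` in `Pool.Agent.H18.Ex.Step`; the unknowns are the coefficients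
with respect to a basis of `W`). -/
theorem stepP {κ : Type} [Fintype κ] (g : Lines Λ ι) (l : Λ) (hg : g.Sep l)
    (W W' : Submodule ℂ (MvPolynomial ι ℂ)) [FiniteDimensional ℂ W] [FiniteDimensional ℂ W']
    (hW : ResW g l W W') (μ : ℕ) (hμ : 1 ≤ μ)
    (ρ : κ → Role Λ) (hρ : ∀ i k, ρ i = Role.stay k → k.NotAt l)
    (h0 : GIP g (trW g l W) fun i => Kind.free (ρ i).layer)
    (h1 : GIP g W' fun i => (ρ i).after l μ) :
    GIP g W fun i => (ρ i).before l μ := by
  classical
  obtain ⟨pos, hL, hR, hne⟩ := GIP.exists_common h0 h1 l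
  by_contra hcon
  set n := Module.finrank ℂ W with hn
  let v : Module.Basis (Fin n) ℂ W := Module.finBasis ℂ W
  let V : Fin n → MvPolynomial ι ℂ := fun s => (v s : MvPolynomial ι ℂ)
  have hVmem : ∀ f : Fin n → ℂ, ∑ s, f s • V s ∈ W := fun f =>
    Submodule.sum_mem _ fun s _ => Submodule.smul_mem _ _ (v s).2
  have hVzero : ∀ f : Fin n → ℂ, ∑ s, f s • V s = 0 → ∀ s, f s = 0 := by
    intro f hf
    have h2 : ∑ s, f s • v s = 0 := by
      apply Subtype.ext
      rw [Submodule.coe_sum, Submodule.coe_zero, ← hf]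
      rfl
    exact Fintype.linearIndependent_iff.1 v.linearIndependent f h2
  have hVex : ∀ F ∈ W, ∃ f : Fin n → ℂ, F = ∑ s, f s • V s := by
    intro F hF
    refine ⟨v.repr ⟨F, hF⟩, ?_⟩
    have h2 := congrArg (fun w : W => (w : MvPolynomial ι ℂ)) (v.sum_repr ⟨F, hF⟩)
    simp only [Submodule.coe_sum, Submodule.coe_smul] at h2
    exact h2.symm
  have hnot : ∀ t : ℂ, ∃ f : Fin n → ℂ,
      (∀ i, SatP g (∑ s, f s • V s) ((ρ i).before l μ) (stepPosP g l ρ pos t i)) ∧
        ∃ s ∈ (univ : Finset (Fin n)), f s ≠ 0 := by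
    intro t
    by_contra h2
    apply hcon
    refine ⟨stepPosP g l ρ pos t, ?_⟩
    intro F hF hsat
    obtain ⟨f, rfl⟩ := hVex F hF
    by_contra h3
    apply h2
    refine ⟨f, hsat, ?_⟩
    by_contra h4
    push Not at h4
    apply h3
    exact Finset.sum_eq_zero fun s _ => by rw [h4 s (mem_univ s), zero_smul]
  -- the bound for the multi-indices
  obtain ⟨D, hD⟩ : ∃ D : ℕ, ∀ i, ∀ b, g.Idx ((ρ i).before l μ) b → ∀ j, b j < D := by
    choose D hD using fun i => Idx_lt g ((ρ i).before l μ)
    refine ⟨Finset.univ.sup D, fun i b hb j => ?_⟩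
    exact lt_of_lt_of_le (hD i b hb j) (Finset.le_sup (mem_univ i))
  -- positions over the polynomial ring
  let P : κ → ι → Polynomial ℂ :=
    stepPosP g l ρ (fun i j => Polynomial.C (pos i j)) Polynomial.X
  have hP : ∀ (t : ℂ) (i : κ), (fun j => Polynomial.aeval t (P i j)) = stepPosP g l ρ pos t i := by
    intro t i
    funext j
    simp only [P, stepPosP]
    cases ρ i with
    | stay k => simp
    | here c e => simp
    | ord m =>
      simp only [Function.update_apply]
      split_ifs <;> simp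
    | dif =>
      simp only [Function.update_apply]
      split_ifs <;> simp
  let Mx : κ × (ι → Fin D) → Fin n → Polynomial ℂ := fun r s =>
    if g.Idx ((ρ r.1).before l μ) (fun j => (r.2 j : ℕ)) then
      tay (V s) (g.pt ((ρ r.1).before l μ) (P r.1)) (fun j => (r.2 j : ℕ)) else 0
  obtain ⟨c, hc, s0, -, hs0⟩ := exists_poly_solution univ Mx (by
    intro t
    obtain ⟨f, hf, s, hs, hfs⟩ := hnot t
    refine ⟨f, ?_, s, hs, hfs⟩
    rintro ⟨i, b⟩
    by_cases hb : g.Idx ((ρ i).before l μ) (fun j => (b j : ℕ))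
    · have h2 := hf i _ hb
      rw [tay_sum] at h2
      rw [← h2]
      apply Finset.sum_congr rfl
      intro s _
      rw [tay_smul]
      simp only [Mx]
      rw [if_pos hb, ← Polynomial.coe_aeval_eq_eval, tay_map, pt_map, hP]
      rfl
    · simp only [Mx, if_neg hb, Polynomial.eval_zero, mul_zero, Finset.sum_const_zero])
  have hsat : ∀ i, ∀ b, g.Idx ((ρ i).before l μ) b →
      ∑ s, c s * tay (V s) (g.pt ((ρ i).before l μ) (P i)) b = 0 := by
    intro i b hb
    have h2 := hc (i, fun j => ⟨b j, hD i b hb j⟩)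
    simp only [Mx] at h2
    rw [← h2]
    apply Finset.sum_congr rfl
    intro s _
    rw [if_pos hb]
  -- the layer
  have hord : ∀ (i : κ) (q : ι → ℂ), (fun j => Polynomial.C (Function.update q (g.co l) (g.va l) j)) =
      Function.update (fun j => Polynomial.C (q j)) (g.co l)
        (algebraMap ℂ (Polynomial ℂ) (g.va l)) := by
    intro i q
    funext j'
    simp only [Function.update_apply]
    split_ifs
    · rfl
    · rfl
  have hmv : ∀ (q : ι → ℂ), mvPt (g.co l) (g.va l) q =
      Function.update (fun j => Polynomial.C (q j)) (g.co l)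
        (Polynomial.X + algebraMap ℂ (Polynomial ℂ) (g.va l)) := fun q => rfl
  have hlayer : ∀ j < μ, lay g l (∑ s, (c s).coeff j • V s) = 0 := by
    intro j hj
    refine hL _ (Submodule.mem_map.2 ⟨_, hVmem _, rfl⟩) ?_
    intro i
    have h2 := hsat i
    simp only [P, stepPosP] at h2
    show SatP g (lay g l (∑ s, (c s).coeff j • V s)) (Kind.free (ρ i).layer) (pos i)
    cases hi : ρ i with
    | stay k =>
      intro b hb
      exact absurd hb (Nat.not_lt_zero _)
    | here c' e =>
      rw [hi] at h2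
      exact satP_lay_forced g l _ c' e (pos i) (satP_coeff g V c _ (pos i) h2 j)
    | ord m =>
      rw [hi] at h2
      have h4 := satP_coeff g V c (Kind.free m) (Function.update (pos i) (g.co l) (g.va l))
        (by rw [hord i]; exact h2) j
      have h5 := satP_lay_forced g l _ m 1 (pos i) ((satP_forced_one_iff g l _ m (pos i)).mpr h4)
      have h6 : (if 1 ≤ m then m else 0) = m := by
        split_ifs with h7
        · rfl
        · omega
      rw [h6] at h5
      exact h5
    | dif =>
      rw [hi] at h2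
      intro b hb
      refine difP_layer V c (g.co l) (g.va l) μ (pos i) ?_ j hj b hb
      intro b' hb'
      have h3 := h2 b' hb'
      rw [hmv]
      exact h3
  -- the residual
  obtain ⟨F', hF'mem, hF'⟩ := hW _ (hVmem fun s => (c s).coeff 0) (hlayer 0 (by omega))
  have hF'zero : F' = 0 := by
    refine hR F' hF'mem ?_
    intro i
    have h2 := hsat i
    simp only [P, stepPosP] at h2
    show SatP g F' ((ρ i).after l μ) (pos i)
    cases hi : ρ i with
    | stay k =>
      rw [hi] at h2
      refine satP_resid_of_notAt g l hg F' k (hρ i k hi) (pos i) (hne i) ?_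
      rw [← hF']
      exact satP_coeff g V c k (pos i) h2 0
    | here c' e =>
      rw [hi] at h2
      refine satP_resid_forced g l F' c' e (pos i) ?_
      rw [← hF']
      exact satP_coeff g V c _ (pos i) h2 0
    | ord m =>
      rw [hi] at h2
      have h4 := satP_coeff g V c (Kind.free m) (Function.update (pos i) (g.co l) (g.va l))
        (by rw [hord i]; exact h2) 0
      refine satP_resid_forced g l F' m 1 (pos i) ?_
      rw [← hF']
      exact (satP_forced_one_iff g l _ m (pos i)).mpr h4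
    | dif =>
      rw [hi] at h2
      intro b hb
      refine difP_resid V c (g.co l) (g.va l) μ (pos i) ?_ hlayer F' hF' b hb.1 hb.2
      intro b' hb'
      have h3 := h2 b' hb'
      rw [hmv]
      exact h3
  -- conclusion
  apply hs0
  rw [← Polynomial.coeff_zero_eq_eval_zero]
  refine hVzero (fun s => (c s).coeff 0) ?_ s0
  show ∑ s, (c s).coeff 0 • V s = 0
  rw [hF', hF'zero, mul_zero]

end Pool.Agent.H18.Cub

end
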