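import Pool.Agent.H94.LP3.M10
import Pool.Agent.H94.LP3.M23
import Pool.Agent.H94.LP3.M36

/-! The parts of this file: H18.Cub.MultiP, H18.Pr.FkL, H18.Ua.USimple, H18.Ub.VPeel. -/

section

/-!
# Module MultiP: the geometric lemmas for multisets of conditions
-/

namespace Pool.Agent.H18.Cub

open Finset Pool.Agent.H18.Ex

variable {ι Λ : Type} [Fintype ι] [DecidableEq ι]

theorem GIP.of_comp {κ κ' : Type} {g : Lines Λ ι} {W : Submodule ℂ (MvPolynomial ι ℂ)}
    {k' : κ' → Kind Λ} (e : κ → κ') (he : Function.Injective e)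
    (h : GIP g W fun i => k' (e i)) : GIP g W k' := by
  classical
  obtain ⟨pos, hpos⟩ := h
  refine ⟨fun j => if hj : ∃ i, e i = j then pos hj.choose else fun _ => 0, fun F hF hf => ?_⟩
  refine hpos F hF fun i => ?_
  have h1 := hf (e i)
  have h2 : ∃ i', e i' = e i := ⟨i, rfl⟩
  have h3 : h2.choose = i := he h2.choose_spec
  have h4 : (fun j => if hj : ∃ i, e i = j then pos hj.choose else fun _ => 0) (e i) = pos i := by
    show (if hj : ∃ i', e i' = e i then pos hj.choose else fun _ => 0) = pos i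
    rw [dif_pos h2, h3]
  rw [h4] at h1
  exact h1

/-- `GMP` does not depend on the presentation of the multiset. -/
theorem GMP_iff {κ : Type} [Fintype κ] (g : Lines Λ ι) (W : Submodule ℂ (MvPolynomial ι ℂ))
    (k : κ → Kind Λ) : GMP g W ((univ : Finset κ).val.map k) ↔ GIP g W k := by
  constructor
  · rintro ⟨n, k0, hk0, hG⟩
    obtain ⟨e, he⟩ := exists_equiv_of_map_eq k0 k hk0
    refine GIP.of_comp e e.injective ?_
    have : (fun i => k (e i)) = k0 := funext fun i => (he i).symm
    rw [this]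
    exact hG
  · intro hG
    refine ⟨Fintype.card κ, fun i => k ((Fintype.equivFin κ).symm i), ?_, ?_⟩
    · have h1 := Multiset.map_univ_val_equiv (Fintype.equivFin κ).symm
      rw [← h1, Multiset.map_map]
      rfl
    · refine GIP.of_comp (Fintype.equivFin κ) (Fintype.equivFin κ).injective ?_
      simpa using hG

theorem GMP.mono {g : Lines Λ ι} {W : Submodule ℂ (MvPolynomial ι ℂ)}
    {S S' : Multiset (Kind Λ)} (h : S ≤ S') (hS : GMP g W S) : GMP g W S' := by
  obtain ⟨T, rfl⟩ := Multiset.le_iff_exists_add.1 h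
  obtain ⟨n, k, rfl, hG⟩ := hS
  obtain ⟨m, t, rfl⟩ := multi_exists_fin T
  rw [← multi_map_sum, GMP_iff]
  exact GIP.of_comp Sum.inl Sum.inl_injective hG

/-- A free point of multiplicity at least one imposes the condition of a simple free point. -/
private theorem multiP_sat_free_one {g : Lines Λ ι} {F : MvPolynomial ι ℂ} {m : ℕ} (hm : 1 ≤ m)
    {q : ι → ℂ} (h : SatP g F (Kind.free m) q) : SatP g F (Kind.free 1) q := by
  intro b hb
  exact h b (lt_of_lt_of_le hb hm)

private theorem multiP_replicate {X : Type} (s : ℕ) (x : X) : Multiset.replicate s x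
      = (univ : Finset (Fin s)).val.map (fun _ => x) := by
  rw [Multiset.map_const', Finset.card_val, Finset.card_univ, Fintype.card_fin]

/-- Simple free points may be replaced by free points of multiplicity at least one. -/
theorem GMP.free_mono {g : Lines Λ ι} {W : Submodule ℂ (MvPolynomial ι ℂ)}
    (T : Multiset ℕ) (hT : ∀ m ∈ T, 1 ≤ m) (S : Multiset (Kind Λ))
    (h : GMP g W (Multiset.replicate T.card (Kind.free 1) + S)) :
    GMP g W (T.map Kind.free + S) := by
  obtain ⟨m, t, rfl⟩ := multi_exists_fin T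
  obtain ⟨n, k, rfl⟩ := multi_exists_fin S
  have hcard : (Multiset.map t (univ : Finset (Fin m)).val).card = m := by
    rw [Multiset.card_map, Finset.card_val, Finset.card_univ, Fintype.card_fin]
  rw [hcard, multiP_replicate, ← multi_map_sum, GMP_iff] at h
  rw [Multiset.map_map, ← multi_map_sum, GMP_iff]
  obtain ⟨pos, hpos⟩ := h
  refine ⟨pos, fun F hF hf => hpos F hF fun i => ?_⟩
  have h1 := hf i
  cases i with
  | inl i =>
    exact multiP_sat_free_one
      (hT _ (Multiset.mem_map.2 ⟨i, (by rw [Finset.mem_val]; exact Finset.mem_univ _), rfl⟩)) h1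
  | inr i => exact h1

theorem GMP.step (g : Lines Λ ι) (l : Λ) (hg : g.Sep l)
    (W W' : Submodule ℂ (MvPolynomial ι ℂ)) [FiniteDimensional ℂ W] [FiniteDimensional ℂ W']
    (hW : ResW g l W W') (μ : ℕ) (hμ : 1 ≤ μ)
    (S : Multiset (Role Λ)) (hS : ∀ k, Role.stay k ∈ S → k.NotAt l)
    (h0 : GMP g (trW g l W) (S.map fun r => Kind.free r.layer))
    (h1 : GMP g W' (S.map (Role.after l μ))) : GMP g W (S.map (Role.before l μ)) := by
  obtain ⟨m, ρ, rfl⟩ := multi_exists_fin S
  rw [Multiset.map_map, GMP_iff] at h0 h1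
  rw [Multiset.map_map, GMP_iff]
  refine stepP g l hg W W' hW μ hμ ρ (fun i k hik => ?_) h0 h1
  exact hS k (Multiset.mem_map.2 ⟨i, (by rw [Finset.mem_val]; exact Finset.mem_univ _), hik⟩)

theorem GMP.bridge (g : Lines Λ ι) (l : Λ) (hg : g.Sep l)
    (W W' : Submodule ℂ (MvPolynomial ι ℂ)) [FiniteDimensional ℂ W] [FiniteDimensional ℂ W']
    (hW : ResW g l W W') [DecidableEq Λ] (S : Multiset (Kind Λ)) (s : ℕ)
    (h1 : GMP g W (S + Multiset.replicate s (Kind.free 1)))
    (h2 : GMP g W' (S.map (Kind.dn l))) :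
    GMP g W (S + Multiset.replicate s (Kind.forced l 1 1)) := by
  obtain ⟨m, k, rfl⟩ := multi_exists_fin S
  rw [multiP_replicate, ← multi_map_sum, GMP_iff] at h1
  rw [multiP_replicate, ← multi_map_sum, GMP_iff]
  rw [Multiset.map_map, GMP_iff] at h2
  exact bridgeP g l hg W W' hW k s h1 h2

end Pool.Agent.H18.Cub

end

section

/-!
# Module FkL (PR): free points
-/

namespace Pool.Agent.H18.Pr

open Finset Pool.Agent.H18.Ex Pool.Agent.H18.Cub

variable {ι Λ : Type} [Fintype ι] [DecidableEq ι]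

theorem Fk_iff (g : Lines Λ ι) (W : Submodule ℂ (MvPolynomial ι ℂ)) (S : Multiset ℕ) :
    Fk W S ↔ GMP g W (S.map Kind.free) := by
  constructor
  · rintro ⟨k, s, rfl, pos, hpos⟩
    refine ⟨k, fun i => Kind.free (s i), ?_, pos, fun F hF hf => hpos F hF fun i β hβ => ?_⟩
    · rw [Multiset.map_map]
      rfl
    · exact hf i β hβ
  · rintro ⟨n, k, hk, pos, hpos⟩
    have hex : ∀ i, ∃ m, k i = Kind.free m := by
      intro i
      have h1 : k i ∈ (univ : Finset (Fin n)).val.map k :=
        Multiset.mem_map.2 ⟨i, Finset.mem_univ_val i, rfl⟩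
      rw [hk, Multiset.mem_map] at h1
      obtain ⟨m, -, hm⟩ := h1
      exact ⟨m, hm.symm⟩
    choose s hs using hex
    refine ⟨n, s, ?_, pos, fun F hF hf => hpos F hF fun i => ?_⟩
    · have hinj : Function.Injective (Kind.free : ℕ → Kind Λ) := by
        intro a b hab
        injection hab
      apply Multiset.map_injective hinj
      rw [← hk, Multiset.map_map]
      exact Multiset.map_congr rfl fun i _ => (hs i).symm
    · rw [hs i]
      intro b hb
      exact hf i b hb

theorem Fk.anti {W W' : Submodule ℂ (MvPolynomial ι ℂ)} {S : Multiset ℕ} (h : W ≤ W')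
    (h' : Fk W' S) : Fk W S := by
  obtain ⟨k, s, hs, pos, hpos⟩ := h'
  exact ⟨k, s, hs, pos, fun F hF hf => hpos F (h hF) hf⟩

theorem Fk.mono {W : Submodule ℂ (MvPolynomial ι ℂ)} {S S' : Multiset ℕ} (h : S ≤ S')
    (h' : Fk W S) : Fk W S' := by
  have g : Lines Empty ι := ⟨Empty.elim, Empty.elim⟩
  rw [Fk_iff g] at h' ⊢
  exact GMP.mono (Multiset.map_le_map h) h'

end Pool.Agent.H18.Pr

end

section

/-!
# Module USimple (UA): simple points and dimensions
-/

namespace Pool.Agent.H18.Ua

open Finset Pool.Agent.H18.Ex Pool.Agent.H18.Cub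

variable {ι Λ : Type} [Fintype ι] [DecidableEq ι]

/-- A simple free point: the value is zero. -/
private theorem usimple_sat (g : Lines Λ ι) (F : MvPolynomial ι ℂ) (q : ι → ℂ) :
    SatP g F (Kind.free 1) q ↔ MvPolynomial.eval q F = 0 := by
  constructor
  · intro h
    have h2 : tay F q 0 = 0 := h 0 (by simp [Lines.Idx])
    rwa [tay_zero_right] at h2
  · intro h b hb
    have hb0 : b = 0 := by
      funext i
      have h1 : ∑ i, b i < 1 := hb
      have h2 : ∑ i, b i = 0 := by omega
      exact (Finset.sum_eq_zero_iff.1 h2) i (Finset.mem_univ i)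
    rw [hb0]
    show tay F q 0 = 0
    rw [tay_zero_right]
    exact h

/-- Finitely many values determine the elements of a finite dimensional space. -/
private theorem usimple_points (x : ℕ) : ∀ W : Submodule ℂ (MvPolynomial ι ℂ),
    FiniteDimensional ℂ W → Module.finrank ℂ W ≤ x →
    ∃ pos : Fin x → ι → ℂ, ∀ F ∈ W, (∀ i, MvPolynomial.eval (pos i) F = 0) → F = 0 := by
  induction x with
  | zero =>
    intro W hfd h
    refine ⟨fun i => i.elim0, fun F hF _ => ?_⟩
    have h1 : Module.finrank ℂ W = 0 := Nat.le_zero.1 h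
    have h2 : W = ⊥ := Submodule.finrank_eq_zero.1 h1
    rw [h2] at hF
    exact (Submodule.mem_bot ℂ).1 hF
  | succ x ih =>
    intro W hfd h
    by_cases hW : W = ⊥
    · refine ⟨fun _ _ => 0, fun F hF _ => ?_⟩
      rw [hW] at hF
      exact (Submodule.mem_bot ℂ).1 hF
    · obtain ⟨F0, hF0, hne⟩ := (Submodule.ne_bot_iff W).1 hW
      have hq : ∃ q : ι → ℂ, MvPolynomial.eval q F0 ≠ 0 := by
        by_contra hno
        push Not at hno
        exact hne (MvPolynomial.funext fun q => by rw [hno q, map_zero])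
      obtain ⟨q, hq⟩ := hq
      let W' : Submodule ℂ (MvPolynomial ι ℂ) :=
        W ⊓ LinearMap.ker (MvPolynomial.aeval q : MvPolynomial ι ℂ →ₐ[ℂ] ℂ).toLinearMap
      have hle : W' ≤ W := inf_le_left
      have hlt : W' < W := by
        refine lt_of_le_of_ne hle fun heq => ?_
        have h1 : F0 ∈ W' := by rw [heq]; exact hF0
        have h2 : (MvPolynomial.aeval q : MvPolynomial ι ℂ →ₐ[ℂ] ℂ) F0 = 0 :=
          LinearMap.mem_ker.1 h1.2
        rw [MvPolynomial.aeval_eq_eval] at h2
        exact hq h2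
      have hfd' : FiniteDimensional ℂ W' := Submodule.finiteDimensional_of_le hle
      have hrk : Module.finrank ℂ W' < Module.finrank ℂ W := Submodule.finrank_lt_finrank_of_lt hlt
      obtain ⟨pos, hpos⟩ := ih W' hfd' (by omega)
      refine ⟨Fin.cons q pos, fun F hF hv => ?_⟩
      refine hpos F ⟨hF, ?_⟩ fun i => ?_
      · have h1 := hv 0
        rw [Fin.cons_zero] at h1
        show (MvPolynomial.aeval q : MvPolynomial ι ℂ →ₐ[ℂ] ℂ) F = 0
        rw [MvPolynomial.aeval_eq_eval]
        exact h1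
      · have h1 := hv i.succ
        rwa [Fin.cons_succ] at h1

private theorem usimple_replicate {X : Type} (s : ℕ) (x : X) : Multiset.replicate s x
      = (univ : Finset (Fin s)).val.map (fun _ => x) := by
  rw [Multiset.map_const', Finset.card_val, Finset.card_univ, Fintype.card_fin]

/-- Simple points reduce the dimension one by one. -/
theorem gmp_simple (g : Lines Λ ι) (W : Submodule ℂ (MvPolynomial ι ℂ)) [FiniteDimensional ℂ W]
    (x : ℕ) (h : Module.finrank ℂ W ≤ x) : GMP g W (Multiset.replicate x (Kind.free 1)) := by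
  rw [usimple_replicate, GMP_iff]
  obtain ⟨pos, hpos⟩ := usimple_points x W inferInstance h
  exact ⟨pos, fun F hF hf => hpos F hF fun i => (usimple_sat g F (pos i)).1 (hf i)⟩

/-- Positions for which the dimension is at most `x`. -/
theorem exists_pos_finrank (g : Lines Λ ι) (W : Submodule ℂ (MvPolynomial ι ℂ))
    [FiniteDimensional ℂ W] {κ : Type} [Fintype κ] (k : κ → Kind Λ) (x : ℕ)
    (h : GMP g W ((univ : Finset κ).val.map k + Multiset.replicate x (Kind.free 1))) :
    ∃ pos : κ → ι → ℂ, Module.finrank ℂ (kerP g W k pos) ≤ x := by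
  rw [usimple_replicate, ← multi_map_sum, GMP_iff] at h
  obtain ⟨pos, hpos⟩ := h
  refine ⟨fun i => pos (Sum.inl i), ?_⟩
  let K := kerP g W k fun i => pos (Sum.inl i)
  let ev : K →ₗ[ℂ] (Fin x → ℂ) := LinearMap.pi fun i =>
    (MvPolynomial.aeval (pos (Sum.inr i)) : MvPolynomial ι ℂ →ₐ[ℂ] ℂ).toLinearMap.comp K.subtype
  have hev : ∀ (F : K) (i : Fin x), ev F i = MvPolynomial.eval (pos (Sum.inr i)) (F : MvPolynomial ι ℂ) := by
    intro F i
    show (MvPolynomial.aeval (pos (Sum.inr i)) : MvPolynomial ι ℂ →ₐ[ℂ] ℂ) (F : MvPolynomial ι ℂ) = _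
    rw [MvPolynomial.aeval_eq_eval]
  have hinj : Function.Injective ev := by
    rw [← LinearMap.ker_eq_bot, LinearMap.ker_eq_bot']
    intro F hF
    apply Subtype.ext
    have hFK : (F : MvPolynomial ι ℂ) ∈ K := F.2
    refine hpos F hFK.1 fun i => ?_
    cases i with
    | inl i => exact hFK.2 i
    | inr i =>
      refine (usimple_sat g _ _).2 ?_
      rw [← hev F i, hF]
      rfl
  have h1 := LinearMap.finrank_le_finrank_of_injective hinj
  rwa [Module.finrank_fin_fun] at h1

theorem gmp_of_pos (g : Lines Λ ι) (W : Submodule ℂ (MvPolynomial ι ℂ))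
    [FiniteDimensional ℂ W] {κ : Type} [Fintype κ] (k : κ → Kind Λ) (x : ℕ)
    (pos : κ → ι → ℂ) (h : Module.finrank ℂ (kerP g W k pos) ≤ x) :
    GMP g W ((univ : Finset κ).val.map k + Multiset.replicate x (Kind.free 1)) := by
  rw [usimple_replicate, ← multi_map_sum, GMP_iff]
  have hfd : FiniteDimensional ℂ (kerP g W k pos) := Submodule.finiteDimensional_of_le kerP_le
  obtain ⟨pos', hpos'⟩ := usimple_points x (kerP g W k pos) hfd h
  refine ⟨Sum.elim pos pos', fun F hF hf => ?_⟩
  refine hpos' F ⟨hF, fun i => ?_⟩ fun i => ?_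
  · exact hf (Sum.inl i)
  · exact (usimple_sat g F (pos' i)).1 (hf (Sum.inr i))

end Pool.Agent.H18.Ua

end

section

/-!
# Module VPeel (UB): one Horace step for configurations, with at least `w` simple layers
-/

namespace Pool.Agent.H18.Ub

open Finset Pool.Agent.H18.Ex Pool.Agent.H18.Cub Pool.Agent.H18.Pr

section PeelAux

theorem trS_add (n : ℕ) (S T : Multiset (ℕ × ℕ)) : trS n (S + T) = trS n S + trS n T := by
  unfold trS
  rw [Multiset.map_add, Multiset.sum_add]

theorem flS_add (n : ℕ) (S T : Multiset (ℕ × ℕ)) : flS n (S + T) = flS n S + flS n T := by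
  unfold flS
  rw [Multiset.map_add, Multiset.sum_add]

private theorem shf_zero : shf 0 = 0 := rfl

private theorem shf_cons (x : ℕ × ℕ) (S : Multiset (ℕ × ℕ)) :
    shf (x ::ₘ S) = if x.2 ≤ x.1 - 1 then (x.1 - 1, x.2) ::ₘ shf S else shf S := by
  unfold shf
  rw [Multiset.map_cons]
  by_cases h : x.2 ≤ x.1 - 1
  · rw [if_pos h]
    exact Multiset.filter_cons_of_pos (p := fun y : ℕ × ℕ => y.2 ≤ y.1) _ h
  · rw [if_neg h]
    exact Multiset.filter_cons_of_neg (p := fun y : ℕ × ℕ => y.2 ≤ y.1) _ h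

theorem mem_shf {x : ℕ × ℕ} {S : Multiset (ℕ × ℕ)} (hx : x ∈ shf S) :
    ∃ y ∈ S, x = (y.1 - 1, y.2) ∧ y.2 ≤ y.1 - 1 := by
  unfold shf at hx
  rw [Multiset.mem_filter, Multiset.mem_map] at hx
  obtain ⟨⟨y, hy, rfl⟩, h⟩ := hx
  exact ⟨y, hy, rfl, h⟩

theorem trS_shf {n M : ℕ} (hn : 1 ≤ n) (S : Multiset (ℕ × ℕ))
    (hS : ∀ x ∈ S, 1 ≤ x.2 ∧ x.2 ≤ 2 ∧ x.2 ≤ x.1 ∧ x.1 ≤ M) :
    M * trS n (shf S) ≤ (M - 1) * trS n S := by
  induction S using Multiset.induction_on with
  | empty => simp [shf_zero, trS]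
  | cons x S ih =>
    have ih' := ih fun y hy => hS y (Multiset.mem_cons_of_mem hy)
    have hx := hS x (Multiset.mem_cons_self x S)
    have h1 : trS n (x ::ₘ S) = ell n x.1 + trS n S := by
      unfold trS
      rw [Multiset.map_cons, Multiset.sum_cons]
    rw [shf_cons, h1]
    by_cases h : x.2 ≤ x.1 - 1
    · rw [if_pos h]
      have h2 : trS n ((x.1 - 1, x.2) ::ₘ shf S) = ell n (x.1 - 1) + trS n (shf S) := by
        unfold trS
        rw [Multiset.map_cons, Multiset.sum_cons]
      rw [h2]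
      have h3 := ell_ratio (n := n) (c := x.1 - 1) (M := M) hn (by omega)
      have h4 : x.1 - 1 + 1 = x.1 := by omega
      rw [h4] at h3
      rw [Nat.mul_add, Nat.mul_add]
      exact Nat.add_le_add h3 ih'
    · rw [if_neg h, Nat.mul_add]
      exact le_trans ih' (Nat.le_add_left _ _)

theorem flS_shf {n M : ℕ} (S : Multiset (ℕ × ℕ))
    (hS : ∀ x ∈ S, 1 ≤ x.2 ∧ x.2 ≤ 2 ∧ x.2 ≤ x.1 ∧ x.1 ≤ M) :
    flS n S = flS n (shf S) + trS n S := by
  induction S using Multiset.induction_on with
  | empty => simp [shf_zero, trS, flS]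
  | cons x S ih =>
    have ih' := ih fun y hy => hS y (Multiset.mem_cons_of_mem hy)
    obtain ⟨hx1, hx2, hx3, -⟩ := hS x (Multiset.mem_cons_self x S)
    have h1 : trS n (x ::ₘ S) = ell n x.1 + trS n S := by
      unfold trS
      rw [Multiset.map_cons, Multiset.sum_cons]
    have h0 : flS n (x ::ₘ S) = (ell (n + 1) x.1 + 1 - x.2) + flS n S := by
      unfold flS
      rw [Multiset.map_cons, Multiset.sum_cons]
    have h5 := ell_succ n (x.1 - 1)
    have h4 : x.1 - 1 + 1 = x.1 := by omega
    rw [h4] at h5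
    have h6 := ell_pos n (m := x.1) (by omega)
    rw [shf_cons, h1, h0, ih']
    by_cases h : x.2 ≤ x.1 - 1
    · rw [if_pos h]
      have h2 : flS n ((x.1 - 1, x.2) ::ₘ shf S) =
          (ell (n + 1) (x.1 - 1) + 1 - x.2) + flS n (shf S) := by
        unfold flS
        rw [Multiset.map_cons, Multiset.sum_cons]
      rw [h2]
      have h7 := ell_pos (n + 1) (m := x.1 - 1) (by omega)
      omega
    · rw [if_neg h]
      have h8 : ell (n + 1) (x.1 - 1) = x.2 - 1 := by
        have h9 : x.1 = x.2 := by omega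
        rw [h9]
        have h10 : x.2 = 1 ∨ x.2 = 2 := by omega
        rcases h10 with h10 | h10
        · rw [h10]
          exact ell_zero (by omega)
        · rw [h10]
          exact ell_one _
      omega

variable {ι : Type} [DecidableEq ι]

theorem map_finset_sum {α β γ : Type*} (g : α → β) (s : Finset γ) (F : γ → Multiset α) :
    (∑ i ∈ s, F i).map g = ∑ i ∈ s, (F i).map g :=
  map_sum (Multiset.mapAddMonoidHom g) F s

variable [Fintype ι]

/-- The roles of the conditions. -/
def roles (c : Cfg ι) (l : ι) (I : Multiset ℕ) (μ t u : ℕ) : Multiset (Role ι) :=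
  (c.N - I - Multiset.replicate t μ).map (fun m => Role.stay (Kind.free m)) +
    Multiset.replicate (c.s - u) (Role.stay (Kind.free 1)) +
    ∑ l' ∈ univ.erase l, (c.Φ l').map (fun x => Role.stay (Kind.forced l' x.1 x.2)) +
    (c.Φ l).map (fun x => Role.here x.1 x.2) + I.map (fun m => Role.ord m) +
    Multiset.replicate t Role.dif + Multiset.replicate u (Role.ord 1)

/-- The roles other than the simple layers. -/
def rolesA (c : Cfg ι) (l : ι) (I : Multiset ℕ) (μ t u : ℕ) : Multiset (Role ι) :=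
  (c.N - I - Multiset.replicate t μ).map (fun m => Role.stay (Kind.free m)) +
    Multiset.replicate (c.s - u) (Role.stay (Kind.free 1)) +
    ∑ l' ∈ univ.erase l, (c.Φ l').map (fun x => Role.stay (Kind.forced l' x.1 x.2)) +
    (c.Φ l).map (fun x => Role.here x.1 x.2) + I.map (fun m => Role.ord m)

theorem roles_split (c : Cfg ι) (l : ι) (I : Multiset ℕ) (μ t u : ℕ) :
    (roles c l I μ t u).map Role.layer =
      (rolesA c l I μ t u).map Role.layer + Multiset.replicate (t + u) 1 := by
  have h : roles c l I μ t u = rolesA c l I μ t u + Multiset.replicate t Role.dif +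
      Multiset.replicate u (Role.ord 1) := rfl
  rw [h, Multiset.map_add, Multiset.map_add, Multiset.map_replicate, Multiset.map_replicate,
    Multiset.replicate_add, add_assoc]
  rfl

theorem roles_before (c : Cfg ι) (l : ι) {I : Multiset ℕ} (hI : I ≤ c.N) {μ t u : ℕ}
    (ht : Multiset.replicate t μ ≤ c.N - I) (hu : u ≤ c.s) :
    (roles c l I μ t u).map (Role.before l μ) = c.kinds := by
  have h1 : c.N = (c.N - I - Multiset.replicate t μ) + I + Multiset.replicate t μ := by
    rw [add_right_comm, tsub_add_cancel_of_le ht, tsub_add_cancel_of_le hI]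
  have h2 : Multiset.replicate c.s (Kind.free 1 : Kind ι) =
      Multiset.replicate (c.s - u) (Kind.free 1) + Multiset.replicate u (Kind.free 1) := by
    rw [← Multiset.replicate_add, Nat.sub_add_cancel hu]
  have h3 : ∑ l', (c.Φ l').map (fun x => Kind.forced l' x.1 x.2) =
      ∑ l' ∈ univ.erase l, (c.Φ l').map (fun x => Kind.forced l' x.1 x.2) +
        (c.Φ l).map (fun x => Kind.forced l x.1 x.2) :=
    (Finset.sum_erase_add univ _ (Finset.mem_univ l)).symm
  have h4 : c.kinds = ((c.N - I - Multiset.replicate t μ) + I +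
      Multiset.replicate t μ).map Kind.free + Multiset.replicate c.s (Kind.free 1) +
      ∑ l', (c.Φ l').map (fun x => Kind.forced l' x.1 x.2) := by
    rw [← h1]
    rfl
  rw [h4, h2, h3]
  unfold roles
  simp only [Multiset.map_add, map_finset_sum, Multiset.map_map, Multiset.map_replicate,
    Function.comp_def, Role.before]
  abel

private theorem sum_ell_zero {n : ℕ} (hn : 1 ≤ n) {α : Type*} (S : Multiset α) :
    (S.map fun _ => ell n 0).sum = 0 := by
  rw [ell_zero hn]
  simp

theorem roles_layer {n M : ℕ} (hn : 1 ≤ n) {c : Cfg ι} (hc : c.OK M) (l : ι)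
    (I : Multiset ℕ) (μ t u : ℕ) :
    (((roles c l I μ t u).map Role.layer).map (ell n)).sum =
      c.tr n l + (I.map (ell n)).sum + t + u := by
  have h1 : ((c.Φ l).map fun x => ell n (if x.2 ≤ x.1 then x.1 else 0)).sum = c.tr n l := by
    unfold Cfg.tr
    congr 1
    refine Multiset.map_congr rfl fun x hx => ?_
    rw [if_pos (hc.hΦ l x hx).2.2.1]
  unfold roles
  simp only [Multiset.map_add, map_finset_sum, Multiset.map_map, Multiset.map_replicate,
    Function.comp_def, Role.layer, Multiset.sum_add]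
  rw [h1, sum_ell_zero hn]
  have h2 : (∑ l' ∈ univ.erase l, (c.Φ l').map fun _ => ell n 0).sum = 0 := by
    have h3 : (∑ l' ∈ univ.erase l, (c.Φ l').map fun _ => ell n 0).sum =
        ∑ l' ∈ univ.erase l, ((c.Φ l').map fun _ => ell n 0).sum :=
      map_sum (Multiset.sumAddMonoidHom) _ _
    rw [h3]
    exact Finset.sum_eq_zero fun l' _ => sum_ell_zero hn _
  rw [h2, ell_one, Multiset.sum_replicate, Multiset.sum_replicate, Multiset.sum_replicate,
    ell_zero hn]
  simp

theorem roles_notAt (c : Cfg ι) (l : ι) (I : Multiset ℕ) (μ t u : ℕ) (k : Kind ι)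
    (hk : Role.stay k ∈ roles c l I μ t u) : k.NotAt l := by
  unfold roles at hk
  simp only [Multiset.mem_add] at hk
  rcases hk with (((((h | h) | h) | h) | h) | h) | h
  · obtain ⟨m, _, hm⟩ := Multiset.mem_map.1 h
    cases hm
    trivial
  · have h1 := (Multiset.mem_replicate.1 h).2
    cases h1
    trivial
  · obtain ⟨l', hl', h1⟩ := Multiset.mem_sum.1 h
    obtain ⟨x, _, hx⟩ := Multiset.mem_map.1 h1
    cases hx
    exact Finset.ne_of_mem_erase hl'
  · obtain ⟨m, _, hm⟩ := Multiset.mem_map.1 h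
    cases hm
  · obtain ⟨m, _, hm⟩ := Multiset.mem_map.1 h
    cases hm
  · have h1 := (Multiset.mem_replicate.1 h).2
    cases h1
  · have h1 := (Multiset.mem_replicate.1 h).2
    cases h1

theorem roles_layer_le {M : ℕ} (hM : 1 ≤ M) {c : Cfg ι} (hc : c.OK M) (l : ι)
    {I : Multiset ℕ} (hI : I ≤ c.N) (μ t u : ℕ) :
    ∀ m ∈ (roles c l I μ t u).map Role.layer, m ≤ M := by
  intro m hm
  obtain ⟨r, hr, rfl⟩ := Multiset.mem_map.1 hm
  unfold roles at hr
  simp only [Multiset.mem_add] at hr
  rcases hr with (((((h | h) | h) | h) | h) | h) | h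
  · obtain ⟨m, _, rfl⟩ := Multiset.mem_map.1 h
    exact Nat.zero_le _
  · rw [(Multiset.mem_replicate.1 h).2]
    exact Nat.zero_le _
  · obtain ⟨l', hl', h1⟩ := Multiset.mem_sum.1 h
    obtain ⟨x, _, rfl⟩ := Multiset.mem_map.1 h1
    exact Nat.zero_le _
  · obtain ⟨x, hx, rfl⟩ := Multiset.mem_map.1 h
    have h2 := hc.hΦ l x hx
    change (if x.2 ≤ x.1 then x.1 else 0) ≤ M
    rw [if_pos h2.2.2.1]
    exact h2.2.2.2
  · obtain ⟨m', hm', rfl⟩ := Multiset.mem_map.1 h
    exact (hc.hN m' (Multiset.mem_of_le hI hm')).2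
  · rw [(Multiset.mem_replicate.1 h).2]
    exact hM
  · rw [(Multiset.mem_replicate.1 h).2]
    exact hM

omit [DecidableEq ι] [Fintype ι] in
theorem sum_map_N {n : ℕ} (c : Cfg ι) {I : Multiset ℕ} (hI : I ≤ c.N) {μ t : ℕ}
    (ht : Multiset.replicate t μ ≤ c.N - I) :
    (c.N.map (ell (n + 1))).sum = ((c.N - I - Multiset.replicate t μ).map (ell (n + 1))).sum +
      (I.map (ell (n + 1))).sum + t * ell (n + 1) μ := by
  have h1 : c.N = (c.N - I - Multiset.replicate t μ) + I + Multiset.replicate t μ := by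
    rw [add_right_comm, tsub_add_cancel_of_le ht, tsub_add_cancel_of_le hI]
  conv_lhs => rw [h1]
  rw [Multiset.map_add, Multiset.map_add, Multiset.sum_add, Multiset.sum_add,
    Multiset.map_replicate, Multiset.sum_replicate, smul_eq_mul]

end PeelAux

variable {ι : Type} [Fintype ι] [DecidableEq ι]

theorem card_le_sum_ell {n M : ℕ} {I : Multiset ℕ} (hI : ∀ m ∈ I, 2 ≤ m ∧ m ≤ M) :
    I.card ≤ (I.map (ell n)).sum ∧ (I.map (ell n)).sum ≤ ell n M * I.card := by
  induction I using Multiset.induction_on with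
  | empty => simp
  | cons m I ih =>
    have ih' := ih fun m' hm' => hI m' (Multiset.mem_cons_of_mem hm')
    have h7 := hI m (Multiset.mem_cons_self m I)
    rw [Multiset.card_cons, Multiset.map_cons, Multiset.sum_cons, Nat.mul_add, Nat.mul_one]
    have h8 := ell_pos n (m := m) (by omega)
    have h9 := ell_mono n h7.2
    constructor
    · omega
    · omega

end Pool.Agent.H18.Ub

end
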