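import Pool.Agent.H94.LP3.H18.Ua.UNumb_1
import Pool.Agent.H94.LP3.M16
import Pool.Agent.H94.LP3.M24
import Pool.Agent.H94.LP3.M28
import Pool.Agent.H94.LP3.M37

/-! The parts of this file: H18.Pr.TransR, H18.Pr.FinalR, H18.Ua.UPhase. -/

section

/-!
# Module TransR (PR): forms in `R + 2` variables and polynomials in `z_0, …, z_R`

Compare with `Pool.Agent.H18.Cub.Trans` (the case `R = 1`).
-/

namespace Pool.Agent.H18.Pr

open Finset Pool.Agent.H18.Ex Pool.Agent.H18.Cub Pool.Agent.H18.Fat

variable {R : ℕ}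

/-- The coordinates `x_k` as polynomials in `z`: `x_0 = z_0`, `x_{k+1} = z_{k+1} + x_k^e`. -/
noncomputable def yyN (R e : ℕ) : ℕ → MvPolynomial (Fin (R + 1)) ℂ
  | 0 => MvPolynomial.X 0
  | k + 1 => (if h : k + 1 < R + 1 then MvPolynomial.X ⟨k + 1, h⟩ else 0) + yyN R e k ^ e

/-- The coordinates `x_k` of the point `z`. -/
noncomputable def phN (R e : ℕ) (z : Fin (R + 1) → ℂ) : ℕ → ℂ
  | 0 => z 0
  | k + 1 => (if h : k + 1 < R + 1 then z ⟨k + 1, h⟩ else 0) + phN R e z k ^ e

/-- `F(X_0, …, X_{R+1}) ↦ F(1, x_0, …, x_R)`, as a polynomial in `z`. -/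
noncomputable def deR (R e : ℕ) :
    MvPolynomial (Fin (R + 1 + 1)) ℂ →ₐ[ℂ] MvPolynomial (Fin (R + 1)) ℂ :=
  MvPolynomial.aeval (Fin.cons 1 fun i : Fin (R + 1) => yyN R e i.val)

/-- The coordinate `x_k` of a point differs from its value by an element of the ideal of the
point. -/
theorem transR_yyN_mem (e : ℕ) (z : Fin (R + 1) → ℂ) (k : ℕ) :
    yyN R e k - MvPolynomial.C (phN R e z k) ∈ (Ideal.span (Set.range fun j =>
      (MvPolynomial.X j - MvPolynomial.C (z j) : MvPolynomial (Fin (R + 1)) ℂ))) := by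
  induction k with
  | zero => exact Ideal.subset_span ⟨0, rfl⟩
  | succ k ih =>
    by_cases h : k + 1 < R + 1
    · have h0 : yyN R e (k + 1) - MvPolynomial.C (phN R e z (k + 1)) =
          (MvPolynomial.X ⟨k + 1, h⟩ - MvPolynomial.C (z ⟨k + 1, h⟩)) +
            (yyN R e k ^ e - MvPolynomial.C (phN R e z k) ^ e) := by
        simp only [yyN, phN, dif_pos h, map_add, map_pow]
        ring
      rw [h0]
      exact Ideal.add_mem _ (Ideal.subset_span ⟨⟨k + 1, h⟩, rfl⟩)
        (Ideal.mem_of_dvd _ (sub_dvd_pow_sub_pow _ _ e) ih)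
    · have h0 : yyN R e (k + 1) - MvPolynomial.C (phN R e z (k + 1)) =
          yyN R e k ^ e - MvPolynomial.C (phN R e z k) ^ e := by
        simp only [yyN, phN, dif_neg h, map_add, map_pow, map_zero]
        ring
      rw [h0]
      exact Ideal.mem_of_dvd _ (sub_dvd_pow_sub_pow _ _ e) ih

/-- Orders of vanishing (use `vanishesToOrder_iff_mem_ideal_pow`, as in `deh_vanish`). -/
theorem deR_vanish (e : ℕ) (F : MvPolynomial (Fin (R + 1 + 1)) ℂ) (z : Fin (R + 1) → ℂ) (m : ℕ)
    (h : VanishesToOrder F (Fin.cons 1 fun i : Fin (R + 1) => phN R e z i.val) m)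
    (α : Fin (R + 1) → ℕ) (hα : ∑ i, α i < m) : tay (deR R e F) z α = 0 := by
  rw [vanishesToOrder_iff_mem_ideal_pow] at h
  set J : Ideal (MvPolynomial (Fin (R + 1)) ℂ) := Ideal.span (Set.range fun j =>
    (MvPolynomial.X j - MvPolynomial.C (z j) : MvPolynomial (Fin (R + 1)) ℂ)) with hJ
  have hC : ∀ c : ℂ, deR R e (MvPolynomial.C c) = MvPolynomial.C c := fun c => (deR R e).commutes c
  have hle : Ideal.map (deR R e) (Ideal.span (Set.range fun j =>
      (MvPolynomial.X j - MvPolynomial.C ((Fin.cons 1 fun i : Fin (R + 1) => phN R e z i.val :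
        Fin (R + 1 + 1) → ℂ) j) : MvPolynomial (Fin (R + 1 + 1)) ℂ))) ≤ J := by
    rw [Ideal.map_span, Ideal.span_le]
    rintro _ ⟨_, ⟨j, rfl⟩, rfl⟩
    refine Fin.cases ?_ (fun i => ?_) j
    · have h0 : deR R e (MvPolynomial.X 0 - MvPolynomial.C 1) = 0 := by
        rw [map_sub, hC]
        simp [deR]
      change deR R e (MvPolynomial.X 0 - MvPolynomial.C 1) ∈ J
      rw [h0]
      exact J.zero_mem
    · have h0 : deR R e (MvPolynomial.X i.succ - MvPolynomial.C (phN R e z i.val)) =
          yyN R e i.val - MvPolynomial.C (phN R e z i.val) := by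
        rw [map_sub, hC]
        simp [deR]
      change deR R e (MvPolynomial.X i.succ - MvPolynomial.C (phN R e z i.val)) ∈ J
      rw [h0]
      exact transR_yyN_mem e z i.val
  have h1 : deR R e F ∈ J ^ m := by
    have h2 := Ideal.mem_map_of_mem (deR R e) h
    rw [Ideal.map_pow] at h2
    exact Ideal.pow_right_mono hle m h2
  have h2 : VanishesToOrder (deR R e F) z m := by
    rw [vanishesToOrder_iff_mem_ideal_pow]
    exact h1
  refine h2 (Finsupp.equivFunOnFinite.symm α) ?_
  rw [Finsupp.degree_eq_sum]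
  simpa using hα

/-- `F(1, x_0, …, x_R)`. -/
noncomputable def transR_one (R : ℕ) :
    MvPolynomial (Fin (R + 1 + 1)) ℂ →ₐ[ℂ] MvPolynomial (Fin (R + 1)) ℂ :=
  MvPolynomial.aeval (Fin.cons 1 fun i : Fin (R + 1) => MvPolynomial.X i)

theorem transR_Th_yyN (e : ℕ) (u : Fin (R + 1)) (hu : u.val = R) (k : ℕ) (hk : k < R + 1) :
    Th e 0 u 0 (yyN R e k) = MvPolynomial.X ⟨k, hk⟩ := by
  induction k with
  | zero => simp [yyN, Th]
  | succ k ih =>
    have h1 : Th e 0 u 0 (yyN R e (k + 1)) =
        Th e 0 u 0 (MvPolynomial.X ⟨k + 1, hk⟩) + Th e 0 u 0 (yyN R e k) ^ e := by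
      rw [← map_pow, ← map_add]
      simp only [yyN, dif_pos hk]
    rw [h1, ih (by omega)]
    have h2 : Th e 0 u 0 (MvPolynomial.X (⟨k + 1, hk⟩ : Fin (R + 1))) =
        MvPolynomial.X ⟨k + 1, hk⟩ - MvPolynomial.X ⟨k, by omega⟩ ^ e := by
      simp only [Th, MvPolynomial.aeval_X]
      rw [if_neg, if_pos]
      · rfl
      · constructor
        · rw [Fin.lt_def]
          simp
        · rw [Fin.le_def]
          simp only
          omega
      · intro h
        have := congrArg Fin.val h
        simp at this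
    rw [h2]
    ring

theorem transR_Th_deR (e : ℕ) (u : Fin (R + 1)) (hu : u.val = R)
    (F : MvPolynomial (Fin (R + 1 + 1)) ℂ) : Th e 0 u 0 (deR R e F) = transR_one R F := by
  have h : (Th e 0 u 0).comp (deR R e) = transR_one R := by
    refine MvPolynomial.algHom_ext (fun i => ?_)
    refine Fin.cases ?_ (fun i => ?_) i
    · simp [deR, transR_one]
    · simp only [AlgHom.comp_apply, deR, transR_one, MvPolynomial.aeval_X, Fin.cons_succ]
      exact transR_Th_yyN e u hu i.val i.isLt
  exact congrArg (fun φ : MvPolynomial (Fin (R + 1 + 1)) ℂ →ₐ[ℂ] MvPolynomial (Fin (R + 1)) ℂ =>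
    φ F) h

/-- The exponent of the dehomogenised monomial. -/
noncomputable def transR_exp (s : Fin (R + 1 + 1) →₀ ℕ) : Fin (R + 1) →₀ ℕ :=
  Finsupp.equivFunOnFinite.symm fun i => s i.succ

theorem transR_one_monomial (s : Fin (R + 1 + 1) →₀ ℕ) (c : ℂ) :
    transR_one R (MvPolynomial.monomial s c) = MvPolynomial.monomial (transR_exp s) c := by
  rw [transR_one, MvPolynomial.aeval_monomial, Finsupp.prod_fintype _ _ (fun i => pow_zero _),
    Fin.prod_univ_succ, MvPolynomial.monomial_eq,
    Finsupp.prod_fintype _ _ (fun i => pow_zero _), MvPolynomial.algebraMap_eq]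
  simp [transR_exp]

theorem transR_one_eq (F : MvPolynomial (Fin (R + 1 + 1)) ℂ) :
    transR_one R F = ∑ s ∈ F.support, MvPolynomial.monomial (transR_exp s) (F.coeff s) := by
  conv_lhs => rw [F.as_sum]
  rw [map_sum]
  exact sum_congr rfl fun s _ => transR_one_monomial s _

theorem transR_degree {d : ℕ} {F : MvPolynomial (Fin (R + 1 + 1)) ℂ} (hF : F.IsHomogeneous d)
    {s : Fin (R + 1 + 1) →₀ ℕ} (hs : F.coeff s ≠ 0) : s 0 + ∑ i, transR_exp s i = d := by
  have h1 := hF hs
  rw [← h1, Finsupp.weight_apply, Finsupp.sum_fintype _ _ (fun i => by simp),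
    Fin.sum_univ_succ (n := R + 1)]
  simp [transR_exp]

/-- The degree: `Th e 0 u 0 (deR R e F) = F(1, x_0, …, x_R)` for `u = R`; use `cost_last`. -/
theorem deR_cost (e d : ℕ) (u : Fin (R + 1)) (hu : u.val = R)
    (F : MvPolynomial (Fin (R + 1 + 1)) ℂ) (hF : F.IsHomogeneous d) :
    ∀ α : Fin (R + 1) →₀ ℕ, α ∈ (Th e 0 u 0 (deR R e F)).support → cost e u α ≤ d := by
  intro α hα
  rw [transR_Th_deR e u hu, transR_one_eq] at hα
  have h1 := MvPolynomial.support_sum hα
  obtain ⟨s, hs, h2⟩ := mem_biUnion.1 h1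
  have h3 := MvPolynomial.support_monomial_subset h2
  rw [mem_singleton] at h3
  subst h3
  rw [cost_last e u hu]
  have h4 := transR_degree hF (MvPolynomial.mem_support_iff.1 hs)
  omega

theorem deR_injective (e d : ℕ) (F : MvPolynomial (Fin (R + 1 + 1)) ℂ) (hF : F.IsHomogeneous d)
    (h : deR R e F = 0) : F = 0 := by
  have h0 : transR_one R F = 0 := by
    rw [← transR_Th_deR e (Fin.last R) rfl, h, map_zero]
  by_contra hne
  obtain ⟨s, hs⟩ := MvPolynomial.ne_zero_iff.1 hne
  have h1 : (transR_one R F).coeff (transR_exp s) = F.coeff s := by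
    rw [transR_one_eq, MvPolynomial.coeff_sum, sum_eq_single s]
    · rw [MvPolynomial.coeff_monomial, if_pos rfl]
    · intro t ht hts
      rw [MvPolynomial.coeff_monomial, if_neg]
      intro heq
      apply hts
      have h2 := transR_degree hF (MvPolynomial.mem_support_iff.1 ht)
      have h3 := transR_degree hF hs
      rw [heq] at h2
      ext i
      refine Fin.cases ?_ (fun i => ?_) i
      · omega
      · have h4 := DFunLike.congr_fun heq i
        simpa [transR_exp] using h4
    · intro hns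
      exact absurd (MvPolynomial.mem_support_iff.2 hs) hns
  rw [h0, MvPolynomial.coeff_zero] at h1
  exact hs h1.symm

end Pool.Agent.H18.Pr

end

section

/-!
# Module FinalR (PR): many large multiplicities in `ℙ^r`
-/

namespace Pool.Agent.H18.Pr

open Finset Pool.Agent.H18.Ex Pool.Agent.H18.Cub Pool.Agent.H18.Fat

/-- The multiplicities outside `J` and the simple points. -/
def kkR {k : ℕ} (m : Fin k → ℕ) (J : Finset (Fin k)) (r : ℕ) :
    {i : Fin k // i ∉ J} ⊕ Fin r → ℕ :=
  Sum.elim (fun i => m i.1) fun _ => 1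

/-- A special configuration. -/
theorem special_of_Fk {R t s k d : ℕ} (u : Fin (R + 1)) (hu : u.val = R) (m : Fin k → ℕ)
    (J : Finset (Fin k))
    (β : Fin t ⊕ Fin s → Option (Fin k)) (hJβ : ∀ i ∈ J, ∃ b, β b = some i)
    (hβJ : ∀ b i, β b = some i → i ∈ J)
    (hinj : ∀ b b' i, β b = some i → β b' = some i → b = b')
    (n : Fin t ⊕ Fin s → ℕ) (N : Option (Fin t) → ℕ)
    (hmu : ∀ b, mu n N b = (β b).elim 0 m) (hdd : dd N = d) (r : ℕ)
    (h : Fk (WM u n N) ((univ : Finset ({i : Fin k // i ∉ J} ⊕ Fin r)).val.map (kkR m J r))) :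
    ∃ p₀ : Fin k → Fin (R + 1 + 1) → ℂ, (∀ i, p₀ i 0 = 1) ∧
      Module.finrank ℂ (fatForms (R + 1) d p₀ m) ≤ r := by
  classical
  rw [Fk_iff (gM t u), Multiset.map_map, GMP_iff] at h
  obtain ⟨pos, hpos⟩ := h
  let p₀ : Fin k → Fin (R + 1 + 1) → ℂ := fun i =>
    if hi : i ∈ J then
      Fin.cons 1 fun j : Fin (R + 1) =>
        phN R (t + 1) (ptv 0 ((xx (hJβ i hi).choose : ℕ) : ℂ)) j.val
    else Fin.cons 1 fun j : Fin (R + 1) => phN R (t + 1) (pos (Sum.inl ⟨i, hi⟩)) j.val
  refine ⟨p₀, fun i => ?_, ?_⟩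
  · simp only [p₀]
    split_ifs <;> rfl
  let Ψ : fatForms (R + 1) d p₀ m →ₗ[ℂ] (Fin r → ℂ) :=
    { toFun := fun F j => tay (deR R (t + 1) F.1) (pos (Sum.inr j)) 0
      map_add' := fun F G => by
        funext j
        simp only [Submodule.coe_add, map_add, tay_add, Pi.add_apply]
      map_smul' := fun c F => by
        funext j
        simp only [Submodule.coe_smul, map_smul, tay_smul, RingHom.id_apply, Pi.smul_apply,
          smul_eq_mul, Algebra.algebraMap_self] }
  have hΨ : Function.Injective Ψ := by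
    rw [← LinearMap.ker_eq_bot, LinearMap.ker_eq_bot']
    intro F hF
    have hFh : F.1.IsHomogeneous d := F.2.1
    apply Subtype.ext
    change F.1 = 0
    apply deR_injective (t + 1) d F.1 hFh
    apply hpos
    · refine ⟨fun i hi => ?_, ?_, ?_⟩
      · exfalso
        rcases hi with hi | hi
        · exact absurd hi (Nat.not_lt_zero _)
        · have := i.isLt
          rw [Fin.lt_def, hu] at hi
          omega
      · intro α hα
        rw [hdd]
        exact deR_cost (t + 1) d u hu F.1 hFh α hα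
      · intro b α hα
        rw [hmu b] at hα
        rcases hb : β b with _ | i
        · rw [hb] at hα
          exact absurd hα (Nat.not_lt_zero _)
        · rw [hb] at hα
          have hi := hβJ b i hb
          have h1 := F.2.2 i
          have h2 : p₀ i = Fin.cons 1 fun j : Fin (R + 1) =>
              phN R (t + 1) (ptv 0 ((xx b : ℕ) : ℂ)) j.val := by
            simp only [p₀]
            rw [dif_pos hi, hinj _ b i (hJβ i hi).choose_spec hb]
          rw [h2] at h1
          exact deR_vanish (t + 1) F.1 _ (m i) h1 α hα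
    · rintro (i | j)
      · have h1 := F.2.2 i.1
        have h2 : p₀ i.1 = Fin.cons 1 fun j : Fin (R + 1) =>
            phN R (t + 1) (pos (Sum.inl i)) j.val := by
          simp only [p₀]
          rw [dif_neg i.2]
        rw [h2] at h1
        intro α hα
        exact deR_vanish (t + 1) F.1 _ (m i.1) h1 α hα
      · intro α hα
        have hα0 : α = 0 := by
          change ∑ i, α i < 1 at hα
          have h2 : ∑ i, α i = 0 := by omega
          rw [sum_eq_zero_iff] at h2
          funext i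
          exact h2 i (mem_univ _)
        subst hα0
        exact congrFun hF j
  have := LinearMap.finrank_le_finrank_of_injective hΨ
  rwa [Module.finrank_fintype_fun_eq_card, Fintype.card_fin] at this

/-- The sum over `J` and the other points. -/
theorem sum_split {k : ℕ} (J : Finset (Fin k)) (f : Fin k → ℤ) :
    ∑ i, f i = ∑ i ∈ J, f i + ∑ i ∈ univ.filter (fun i => i ∉ J), f i := by
  classical
  rw [← sum_filter_add_sum_filter_not univ (fun i => i ∈ J)]
  congr 1
  apply sum_congr _ fun _ _ => rfl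
  ext i
  simp

/-- Many large multiplicities in `ℙ^r`, from the exactness of the main family. -/
theorem many_large_of (R t s M D : ℕ) (ht : 1 ≤ t) (hs : 1 ≤ s)
    (hts : t + s = (t + 1) ^ (R + 1)) (u : Fin (R + 1)) (hu : u.val = R) (hM : 1 ≤ M)
    (hEx : ExM t s u M D) (k d : ℕ) (m : Fin k → ℕ)
    (J : Finset (Fin k)) (hJ : J.card ≤ (t + 1) ^ (R + 1)) (hsmall : ∀ i, i ∉ J → m i ≤ M)
    (hsum : ∀ S ⊆ J, S.card ≤ t + 1 → ∑ i ∈ S, m i + (R * t - 2) ≤ d)
    (hd : D ≤ d) (hdJ : ∀ i ∈ J, m i + D ≤ d)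
    (hcurve : ∑ i ∈ J, m i + D ≤ (t + 1) ^ R * d) :
    ForGeneralPoints (R + 1) k fun p => ImposesMaximalConditions (R + 1) d p m := by
  classical
  obtain ⟨β, c, hβJ, hJβ, hinj, hc1, hc2, j₀, hj₀⟩ :=
    exists_sorted m J t s hs (by rw [hts]; exact hJ)
  set mB : Fin t ⊕ Fin s → ℕ := fun b => (β b).elim 0 m with hmB
  -- the sum of the `t + 1` largest
  have hSum : ∑ l : Fin t, mB (.inl l) + c + (R * t - 2) ≤ d := by
    let T : Finset (Fin t ⊕ Fin s) := (univ : Finset (Fin t)).map ⟨Sum.inl, Sum.inl_injective⟩ ∪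
      {Sum.inr j₀}
    let S : Finset (Fin k) := J.filter fun i => ∃ b ∈ T, β b = some i
    have hTsum : ∑ b ∈ T, mB b = ∑ l : Fin t, mB (.inl l) + c := by
      rw [sum_union, sum_map, sum_singleton]
      · have h1 : mB (Sum.inr j₀) = c := hj₀
        rw [h1]
        rfl
      · rw [disjoint_singleton_right, mem_map]
        rintro ⟨l, _, h⟩
        exact absurd h (by simp)
    have hTS : ∑ b ∈ T, mB b ≤ ∑ i ∈ S, m i := by
      have h1 : ∑ b ∈ T, mB b = ∑ b ∈ T.filter (fun b => β b ≠ none), mB b := by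
        rw [sum_filter_of_ne]
        intro b _ hb h0
        apply hb
        simp only [hmB]
        rw [h0]
        rfl
      have h2 : ∑ b ∈ T.filter (fun b => β b ≠ none), mB b =
          ∑ o ∈ (T.filter (fun b => β b ≠ none)).image β, o.elim 0 m := by
        rw [sum_image]
        intro b hb b' hb' hbb
        obtain ⟨i, hi⟩ := Option.ne_none_iff_exists'.1 (mem_filter.1 hb).2
        exact hinj b b' i hi (hbb ▸ hi)
      have h3 : ∑ i ∈ S, m i = ∑ o ∈ S.map ⟨some, Option.some_injective _⟩, o.elim 0 m := by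
        rw [sum_map]
        rfl
      rw [h1, h2, h3]
      apply sum_le_sum_of_subset
      intro o ho
      obtain ⟨b, hb, rfl⟩ := mem_image.1 ho
      obtain ⟨hbT, hb0⟩ := mem_filter.1 hb
      obtain ⟨i, hi⟩ := Option.ne_none_iff_exists'.1 hb0
      rw [mem_map]
      exact ⟨i, mem_filter.2 ⟨hβJ b i hi, b, hbT, hi⟩, hi.symm⟩
    have hScard : S.card ≤ t + 1 := by
      have h1 : T.card ≤ t + 1 := by
        refine (card_union_le _ _).trans ?_
        rw [card_map, card_univ, Fintype.card_fin, card_singleton]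
      refine le_trans ?_ h1
      have h2 : S.map ⟨some, Option.some_injective _⟩ ⊆ T.image β := by
        intro o ho
        obtain ⟨i, hi, rfl⟩ := mem_map.1 ho
        obtain ⟨b, hb, hbi⟩ := (mem_filter.1 hi).2
        exact mem_image.2 ⟨b, hb, hbi⟩
      have h3 := card_le_card h2
      rw [card_map] at h3
      exact h3.trans card_image_le
    have := hsum S (filter_subset _ _) hScard
    rw [hTsum] at hTS
    omega
  set z : Fin t := ⟨0, ht⟩ with hz
  obtain ⟨nH, hnH⟩ := Nat.exists_eq_add_of_le (show ∑ l : Fin t, mB (.inl l) + c ≤ d by omega)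
  let N : Option (Fin t) → ℕ := fun
    | none => c
    | some l => (mB (.inl l) - c) + if l = z then nH else 0
  let n : Fin t ⊕ Fin s → ℕ := fun
    | .inl l => if l = z then nH else 0
    | .inr j => c - mB (.inr j)
  have hmu : ∀ b, mu n N b = mB b := by
    rintro (l | j)
    · have h1 := hc1 l
      change c + ((mB (.inl l) - c) + if l = z then nH else 0) - (if l = z then nH else 0) =
        mB (.inl l)
      change c ≤ mB (.inl l) at h1
      omega
    · have h1 := hc2 j
      change c - (c - mB (.inr j)) = mB (.inr j)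
      change mB (.inr j) ≤ c at h1
      omega
  have hsumN : ∑ l : Fin t, N (some l) + t * c = ∑ l : Fin t, mB (.inl l) + nH ∧
      nH ≤ ∑ l : Fin t, N (some l) := by
    have h1 : ∑ l : Fin t, N (some l) = ∑ l : Fin t, (mB (.inl l) - c) + nH := by
      change ∑ l : Fin t, ((mB (.inl l) - c) + if l = z then nH else 0) = _
      rw [sum_add_distrib, sum_ite_eq' univ z fun _ => nH, if_pos (mem_univ _)]
    have h2 : ∑ l : Fin t, (mB (.inl l) - c) + t * c = ∑ l : Fin t, mB (.inl l) := by
      have h3 : t * c = ∑ _l : Fin t, c := by simp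
      rw [h3, ← sum_add_distrib]
      refine sum_congr rfl fun l _ => ?_
      have := hc1 l
      change c ≤ mB (.inl l) at this
      omega
    omega
  obtain ⟨hsumN, hnHN⟩ := hsumN
  have hdd : dd N = d := by
    unfold dd
    change (t + 1) * c + ∑ l : Fin t, N (some l) = d
    have h1 : (t + 1) * c = t * c + c := by ring
    omega
  -- the sum over the big points
  have hbig : ∑ b, mB b = ∑ i ∈ J, m i :=
    sum_big J β hJβ hβJ hinj (fun o => o.elim 0 m) rfl
  have hmBd : ∀ b, mB b + D ≤ d := by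
    intro b
    rcases hb : β b with _ | i
    · have : mB b = 0 := by
        simp only [hmB]
        rw [hb]
        rfl
      omega
    · have h1 := hdJ i (hβJ b i hb)
      have : mB b = m i := by
        simp only [hmB]
        rw [hb]
        rfl
      omega
  have hMg : Mg R D n N := by
    refine ⟨?_, ?_, ?_, ?_⟩
    · omega
    · rw [hdd, sum_congr rfl fun b _ => hmu b, hbig]
      exact hcurve
    · intro l
      rw [hdd, hmu]
      exact hmBd (.inl l)
    · rw [hdd]
      exact hd
  -- the simple points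
  set R₀ : ℤ := ((d + (R + 1)).choose (R + 1) : ℤ) -
    ∑ i, ((m i + (R + 1) - 1).choose (R + 1) : ℤ) with hR₀
  obtain ⟨r, hr⟩ : ∃ r : ℕ, (r : ℤ) = max 0 R₀ := ⟨(max 0 R₀).toNat, by
    rw [Int.toNat_of_nonneg (le_max_left _ _)]⟩
  have hFk : Fk (WM u n N)
      ((univ : Finset ({i : Fin k // i ∉ J} ⊕ Fin r)).val.map (kkR m J r)) := by
    apply hEx n N hMg
    · intro x hx
      obtain ⟨i, _, rfl⟩ := Multiset.mem_map.1 hx
      rcases i with i | j
      · exact hsmall i.1 i.2
      · exact hM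
    · rw [Multiset.map_map, hdd, hu, Nat.sub_self]
      change (d + (R + 1)).choose (R + 1) ≤ ∑ b, ell (R + 1) (mu n N b) +
        ∑ i : {i : Fin k // i ∉ J} ⊕ Fin r, (ell (R + 1) ∘ kkR m J r) i
      rw [Fintype.sum_sum_type (ell (R + 1) ∘ kkR m J r)]
      have h1 : ∑ j : Fin r, (ell (R + 1) ∘ kkR m J r) (Sum.inr j) = r := by
        simp [kkR, ell_one]
      have h2 : ∑ i : {i : Fin k // i ∉ J}, (ell (R + 1) ∘ kkR m J r) (Sum.inl i) =
          ∑ i ∈ univ.filter (fun i => i ∉ J), ell (R + 1) (m i) := by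
        rw [sum_subtype (p := fun i => i ∉ J) (univ.filter fun i => i ∉ J) (by simp)
          (fun i => ell (R + 1) (m i))]
        rfl
      have h4 := sum_big J β hJβ hβJ hinj (fun o => ell (R + 1) (o.elim 0 m))
        (ell_zero (by omega))
      have h5 : ∑ b, ell (R + 1) (mu n N b) = ∑ i ∈ J, ell (R + 1) (m i) := by
        refine (sum_congr rfl fun b _ => ?_).trans h4
        rw [hmu b]
      have h6 := sum_split J fun i => ((m i + (R + 1) - 1).choose (R + 1) : ℤ)
      have h7 : R₀ ≤ r := by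
        rw [hr]
        exact le_max_right _ _
      rw [h1, h2, h5]
      have h8 : ∑ i ∈ J, ((m i + (R + 1) - 1).choose (R + 1) : ℤ) =
          ((∑ i ∈ J, ell (R + 1) (m i) : ℕ) : ℤ) := by
        push_cast
        rfl
      have h9 : ∑ i ∈ univ.filter (fun i => i ∉ J), ((m i + (R + 1) - 1).choose (R + 1) : ℤ) =
          ((∑ i ∈ univ.filter (fun i => i ∉ J), ell (R + 1) (m i) : ℕ) : ℤ) := by
        push_cast
        rfl
      rw [hR₀, h6, h8, h9] at h7
      omega
  obtain ⟨p₀, hp1, hp2⟩ := special_of_Fk u hu m J β hJβ hβJ hinj n N hmu hdd r hFk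
  refine general_of_special (by omega) m p₀ (fun i => by rw [hp1 i]; exact one_ne_zero) ?_
  have hge := finrank_fatForms_ge (d := d) (by omega : 1 ≤ R + 1)
    (fun i => by rw [hp1 i]; exact one_ne_zero : ∀ i, p₀ i 0 ≠ 0) m
  unfold ImposesMaximalConditions
  have h9 : ((Module.finrank ℂ (fatForms (R + 1) d p₀ m) : ℕ) : ℤ) ≤ r := by exact_mod_cast hp2
  rw [hr] at h9
  apply le_antisymm h9
  apply max_le
  · positivity
  · exact hge

end Pool.Agent.H18.Pr

end

section

/-!
# Module UPhase (UA): putting points on the hyperplanes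
-/

namespace Pool.Agent.H18.Ua

open Finset Pool.Agent.H18.Ex Pool.Agent.H18.Cub Pool.Agent.H18.Pr

variable {Λ : Type} [Fintype Λ] [DecidableEq Λ] {n : ℕ}

theorem sum_ell_le {n M : ℕ} {G : Multiset ℕ} (hG : ∀ m ∈ G, 2 ≤ m ∧ m ≤ M) :
    (G.map (ell n)).sum ≤ ell n M * G.card := by
  induction G using Multiset.induction_on with
  | empty => simp
  | cons m G ih =>
    have ih' := ih fun m' hm' => hG m' (Multiset.mem_cons_of_mem hm')
    have h7 := hG m (Multiset.mem_cons_self m G)
    rw [Multiset.card_cons, Multiset.map_cons, Multiset.sum_cons, Nat.mul_add, Nat.mul_one]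
    have h9 := ell_mono n h7.2
    omega

/-- Some multiplicity occurs at least `y` times among many points. -/
theorem exists_class {M y : ℕ} (G : Multiset ℕ) (hG : ∀ m ∈ G, 2 ≤ m ∧ m ≤ M)
    (h : M * (ell (n + 1) M * y) < (G.map (ell (n + 1))).sum) :
    ∃ m, 2 ≤ m ∧ m ≤ M ∧ Multiset.replicate y m ≤ G := by
  have h1 := sum_ell_le (n := n + 1) hG
  have h2 : ell (n + 1) M * (M * y) < ell (n + 1) M * G.card := by
    calc ell (n + 1) M * (M * y) = M * (ell (n + 1) M * y) := by ring
      _ < _ := by omega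
  have h3 : M * y < G.card := lt_of_mul_lt_mul_left h2 (Nat.zero_le _)
  rcases Nat.eq_zero_or_pos y with rfl | hy
  · obtain ⟨m, hm⟩ := Multiset.card_pos_iff_exists_mem.1 (by omega : 0 < G.card)
    exact ⟨m, (hG m hm).1, (hG m hm).2, by simp⟩
  · have hM : 1 ≤ M := by
      obtain ⟨m, hm⟩ := Multiset.card_pos_iff_exists_mem.1 (by omega : 0 < G.card)
      have := hG m hm
      omega
    obtain ⟨m, hm, hrep⟩ := exists_replicate_le G M y
      (fun m hm => ⟨by have := hG m hm; omega, (hG m hm).2⟩) (by omega) hM hy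
    exact ⟨m, (hG m hm).1, (hG m hm).2, hrep⟩

theorem list_goodU (Y : SysN Λ n) {M t : ℕ} {N : Λ → ℕ} (H : NumU Y M t N)
    (L : List Λ) : ∀ (b φ : Λ → ℕ), (∀ i, φ i ≤ nphi n M t) →
      (∀ i, b i ≤ N i ∧ N i + L.count i ≤ b i + (2 * M + 1)) → GoodN Y M L b φ := by
  induction L with
  | nil =>
    intro b φ _ _
    trivial
  | cons l L ih =>
    intro b φ hφ hb
    have hreg : RegU M N b := fun i => ⟨(hb i).1, by have := (hb i).2; omega⟩
    have hF := H.leF b l hreg
    have hFt := H.Fle b l hreg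
    have hl := (hb l).2
    rw [List.count_cons_self] at hl
    have hNl := H.hN l
    have h1 : 1 ≤ b l := by omega
    refine ⟨h1, H.gd b l hreg, ?_, ?_, ?_⟩
    · exact (Nat.add_le_add_right (hφ l) _).trans (nphi_room H.hM H.ht hF)
    · refine le_trans (Int.ofNat_le.2 ?_) (H.leR b hreg)
      have h2 : ∑ i, φ i ≤ qU n M * t := by
        calc ∑ i, φ i ≤ ∑ _i : Λ, t :=
              sum_le_sum fun i _ => (hφ i).trans (nphi_le H.hM H.ht)
          _ = qU n M * t := by rw [sum_const, card_univ, H.hq, smul_eq_mul]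
      have h3 := leR_room (n := n) H.hM H.ht hFt
      have h4 := Nat.mul_le_mul_left M h2
      omega
    · refine ih _ _ ?_ ?_
      · intro i
        by_cases hi : i = l
        · subst hi
          rw [Function.update_self]
          exact nphi_mono M hFt
        · rw [Function.update_of_ne hi]
          exact hφ i
      · intro i
        have h2 := hb i
        by_cases hi : i = l
        · subst hi
          rw [dn_self]
          omega
        · rw [dn_ne hi]
          rw [List.count_cons_of_ne (fun h => hi h.symm)] at h2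
          exact h2

/-- The bounds for the traces along a list of directions. -/
theorem eph_le (Y : SysN Λ n) {M t : ℕ} {N : Λ → ℕ} (H : NumU Y M t N)
    (L : List Λ) : ∀ (b φ : Λ → ℕ), (∀ i, φ i ≤ nphi n M t) →
      (∀ i, b i ≤ N i ∧ N i + L.count i ≤ b i + (2 * M + 1)) →
      ∀ i, ephN Y M L b φ i ≤ nphi n M t := by
  induction L with
  | nil =>
    intro b φ hφ _
    exact hφ
  | cons l L ih =>
    intro b φ hφ hb
    have hreg : RegU M N b := fun i => ⟨(hb i).1, by have := (hb i).2; omega⟩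
    have hFt := H.Fle b l hreg
    refine ih _ _ ?_ ?_
    · intro i
      by_cases hi : i = l
      · subst hi
        rw [Function.update_self]
        exact nphi_mono M hFt
      · rw [Function.update_of_ne hi]
        exact hφ i
    · intro i
      have h2 := hb i
      by_cases hi : i = l
      · subst hi
        rw [List.count_cons_self] at h2
        rw [dn_self]
        omega
      · rw [dn_ne hi]
        rw [List.count_cons_of_ne (fun h => hi h.symm)] at h2
        exact h2

/-- The forced conditions are few. -/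
theorem sum_fl_le {M B : ℕ} {c : Cfg Λ} (hc : c.OK M) (h : ∀ l, c.tr n l ≤ B) :
    ∑ l, c.fl n l ≤ M * (Fintype.card Λ * B) := by
  calc ∑ l, c.fl n l ≤ ∑ _l : Λ, M * B := by
        refine sum_le_sum fun l _ => (Cfg.fl_le n M c hc l).trans ?_
        exact Nat.mul_le_mul_left _ (h l)
    _ = M * (Fintype.card Λ * B) := by
        rw [sum_const, card_univ, smul_eq_mul]
        ring

private theorem shf_replicate (y a : ℕ) (ha : 2 ≤ a) :
    shf (Multiset.replicate y (a, 1)) = Multiset.replicate y (a - 1, 1) := by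
  unfold shf
  rw [Multiset.map_replicate]
  refine Multiset.filter_eq_self.2 fun x hx => ?_
  rw [Multiset.eq_of_mem_replicate hx]
  change 1 ≤ a - 1
  omega

private theorem shf_iter_replicate (y k : ℕ) :
    shf^[k] (Multiset.replicate y (k + 1, 1)) = Multiset.replicate y (1, 1) := by
  induction k with
  | zero => rfl
  | succ k ih =>
    rw [Function.iterate_succ_apply, shf_replicate y (k + 1 + 1) (by omega)]
    exact ih

private theorem shf_mono' {S T : Multiset (ℕ × ℕ)} (h : S ≤ T) : shf S ≤ shf T :=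
  Multiset.filter_le_filter _ (Multiset.map_le_map h)

private theorem shf_iterate_mono' (k : ℕ) {S T : Multiset (ℕ × ℕ)} (h : S ≤ T) :
    shf^[k] S ≤ shf^[k] T := by
  induction k generalizing S T with
  | zero => exact h
  | succ k ih =>
    rw [Function.iterate_succ_apply, Function.iterate_succ_apply]
    exact ih (shf_mono' h)

/-- One hyperplane `l` (not used before). -/
theorem phase_one (Y : SysN Λ n) {M t : ℕ} {N : Λ → ℕ} (H : NumU Y M t N) (a : Λ → ℕ)
    (ha : ∀ i, a i ≤ N i ∧ N i ≤ a i + M) (l : Λ) (hl : a l = N l) (c : Cfg Λ) (hc : c.OK M)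
    (htr : ∀ l, c.tr n l ≤ nphi n M t) (hΦ : c.Φ l = 0) (hs : c.s < M * t)
    (hsz : Y.R a ≤ c.sz n) :
    ∃ (a' : Λ → ℕ) (c' : Cfg Λ), (∀ i, i ≠ l → a' i = a i) ∧ a' l ≤ a l ∧ a l ≤ a' l + M ∧
      c'.OK M ∧ (Y.K a' c'.kinds → Y.K a c.kinds) ∧ (∀ i, i ≠ l → c'.Φ i = c.Φ i) ∧
      c'.tr n l ≤ nphi n M t ∧ Multiset.replicate (yU n M t) (1, 1) ≤ c'.Φ l ∧ c'.s = c.s ∧
      (c'.sz n : ℤ) + Y.R a = c.sz n + Y.R a' := by
  have hM := H.hM
  have hrega : RegU M N a := fun i => by
    have := ha i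
    omega
  have hF := H.leF a l hrega
  have hFt := H.Fle a l hrega
  have hNl := H.hN l
  have hroomF := nphi_room hM H.ht hF
  have hg0 : 1 ≤ g0 n M * ell n M := by
    unfold g0
    exact Nat.mul_pos (Nat.mul_pos (by omega) (ell_pos n hM)) (ell_pos n hM)
  have hyroom := yU_room hM H.ht hF
  have hbig := leR_room (n := n) hM H.ht (le_refl t)
  have hbigF := leR_room (n := n) hM H.ht hFt
  have hRa : ((4 * M * qU n M * t : ℕ) : ℤ) ≤ c.sz n := (H.leR a hrega).trans hsz
  have hRa' : 4 * M * qU n M * t ≤ c.sz n := by exact_mod_cast hRa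
  have hszdef : c.sz n = (c.N.map (ell (n + 1))).sum + c.s + ∑ l', c.fl n l' := rfl
  have hφt := nphi_le (n := n) hM H.ht
  have hfl : ∑ l', c.fl n l' ≤ M * (qU n M * t) := by
    have := sum_fl_le hc fun l' => (htr l').trans hφt
    rwa [H.hq] at this
  -- the class
  obtain ⟨m, hm2, hmM, hrep⟩ := exists_class (n := n) (y := yU n M t) c.N hc.hN (by
    have h1 : M * (ell (n + 1) M * yU n M t) ≤
        M * (ell (n + 1) M * (yU n M t + g0 n M)) :=
      Nat.mul_le_mul_left _ (Nat.mul_le_mul_left _ (Nat.le_add_right _ _))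
    omega)
  have htrl : c.tr n l = 0 := by
    unfold Cfg.tr
    rw [hΦ]
    rfl
  have hym : ((Multiset.replicate (yU n M t) m).map (ell n)).sum ≤ yU n M t * ell n M := by
    rw [Multiset.map_replicate, Multiset.sum_replicate, smul_eq_mul]
    exact Nat.mul_le_mul_left _ (ell_mono n hmM)
  have hnsz : c.nsz n = (c.N.map (ell (n + 1))).sum + c.s := rfl
  obtain ⟨c₁, hc₁, hK₁, hΦ₁, htr₁, hsz₁, hs₁, hN₁, -, -, hle₁, hss₁⟩ :=
    peelNs Y M H.hn hM a l (by omega) (H.gd a l hrega) (Y.F l a) rfl c hc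
      (Multiset.replicate (yU n M t) m) hrep (by omega) (by omega)
  have hcount := Y.count a l (by omega) (by omega)
  have htr₁' : ∀ l', c₁.tr n l' ≤ nphi n M t := by
    intro l'
    by_cases hl' : l' = l
    · subst hl'
      refine le_trans ?_ (nphi_mono M hFt)
      unfold nphi
      have h7 : c₁.tr n l' ≤ ((M - 1) * Y.F l' a + M * ell n M ^ 2) / M := by
        rw [Nat.le_div_iff_mul_le (by omega), Nat.mul_comm]
        exact htr₁
      rw [Nat.add_mul_div_left _ _ (by omega)] at h7
      exact h7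
    · have h8 : c₁.tr n l' = c.tr n l' := by
        unfold Cfg.tr
        rw [hΦ₁ l' hl']
      rw [h8]
      exact htr l'
  set L : List Λ := List.replicate (m - 2) l with hL
  have hcL : ∀ i, L.count i ≤ m - 2 := fun i => by
    have h1 := L.count_le_length (a := i)
    rw [hL, List.length_replicate] at h1
    exact h1
  have hcl : L.count l = m - 2 := List.count_replicate_self
  have hcne : ∀ i, i ≠ l → L.count i = 0 := fun i hi => by
    rw [List.count_eq_zero]
    intro h
    exact hi (List.eq_of_mem_replicate h)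
  have hreg₁ : ∀ i, dn l a i ≤ N i ∧ N i + L.count i ≤ dn l a i + (2 * M + 1) := by
    intro i
    have h1 := ha i
    by_cases hi : i = l
    · subst hi
      rw [dn_self, hcl]
      omega
    · rw [dn_ne hi, hcne i hi]
      omega
  have hG := list_goodU Y H L (dn l a) (fun _ => nphi n M t) (fun _ => le_rfl) hreg₁
  obtain ⟨c₂, hc₂, hK₂, htr₂, hsz₂, hs₂, hN₂, -, -, hle₂, hΦ₂, hss₂⟩ :=
    runNs Y M H.hn hM L (dn l a) (fun _ => nphi n M t) hG c₁ hc₁ htr₁' (by omega)
  have htr₂' : ∀ i, c₂.tr n i ≤ nphi n M t := fun i =>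
    (htr₂ i).trans (eph_le Y H L (dn l a) _ (fun _ => le_rfl) hreg₁ i)
  set a' : Λ → ℕ := ew L (dn l a) with ha'
  have ha'l : a' l = a l - 1 - (m - 2) := by
    change dn l a l - L.count l = _
    rw [dn_self, hcl]
  have ha'i : ∀ i, i ≠ l → a' i = a i := by
    intro i hi
    change dn l a i - L.count i = _
    rw [dn_ne hi, hcne i hi]
    rfl
  have hsz' : (c₂.sz n : ℤ) + Y.R a = c.sz n + Y.R a' := by omega
  have hcard : ¬ c₂.N.card < g0 n M := by
    intro hlt
    have hreg' : RegU M N a' := by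
      intro i
      have h1 := ha i
      by_cases hi : i = l
      · subst hi
        rw [ha'l]
        omega
      · rw [ha'i i hi]
        omega
    have h1 : ((4 * M * qU n M * t : ℕ) : ℤ) ≤ c₂.sz n := (H.leR a' hreg').trans (by omega)
    have h1' : 4 * M * qU n M * t ≤ c₂.sz n := by exact_mod_cast h1
    have h2 : c₂.sz n = (c₂.N.map (ell (n + 1))).sum + c₂.s + ∑ l', c₂.fl n l' := rfl
    have h3 : ∑ l', c₂.fl n l' ≤ M * (qU n M * t) := by
      have := sum_fl_le hc₂ fun l' => (htr₂' l').trans hφt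
      rwa [H.hq] at this
    have h4 := sum_ell_le (n := n + 1) hc₂.hN
    have h5 : ell (n + 1) M * c₂.N.card ≤ ell (n + 1) M * (t + g0 n M) :=
      Nat.mul_le_mul_left _ (by omega)
    have h6 : c₂.s < M * t := by omega
    omega
  refine ⟨a', c₂, ha'i, by omega, by omega, hc₂, fun h => hK₁ (hK₂ h), ?_, htr₂' l, ?_, ?_, hsz'⟩
  · intro i hi
    rw [hΦ₂ i (hcne i hi), hΦ₁ i hi]
  · refine le_trans ?_ (hle₂ l)
    rw [hcl]
    have h1 : Multiset.replicate (yU n M t) (m - 2 + 1, 1) ≤ c₁.Φ l := by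
      refine le_trans ?_ hle₁
      rw [Multiset.map_replicate, show m - 2 + 1 = m - 1 by omega]
      exact Multiset.le_add_left _ _
    rw [← shf_iter_replicate (yU n M t) (m - 2)]
    exact shf_iterate_mono' _ h1
  · rcases hs₂ with h | h
    · rcases hs₁ with h' | h'
      · exact h.trans h'
      · exact absurd (lt_of_le_of_lt hN₂ h') hcard
    · exact absurd h hcard

/-- All hyperplanes (induction on `P`). -/
theorem phase_all (Y : SysN Λ n) {M t : ℕ} {N : Λ → ℕ} (H : NumU Y M t N) (c : Cfg Λ)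
    (hc : c.OK M) (hΦ : ∀ l, c.Φ l = 0) (hs : c.s < M * t) (hsz : Y.R N ≤ c.sz n)
    (P : Finset Λ) :
    ∃ (a : Λ → ℕ) (c' : Cfg Λ), (∀ i, a i ≤ N i ∧ N i ≤ a i + M) ∧ (∀ i ∉ P, a i = N i) ∧
      c'.OK M ∧ (Y.K a c'.kinds → Y.K N c.kinds) ∧ (∀ i ∉ P, c'.Φ i = 0) ∧
      (∀ i, c'.tr n i ≤ nphi n M t) ∧
      (∀ i ∈ P, Multiset.replicate (yU n M t) (1, 1) ≤ c'.Φ i) ∧ c'.s = c.s ∧
      (c'.sz n : ℤ) + Y.R N = c.sz n + Y.R a := by
  induction P using Finset.induction_on with
  | empty =>
    refine ⟨N, c, fun i => ⟨le_rfl, Nat.le_add_right _ _⟩, fun _ _ => rfl, hc, fun h => h,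
      fun i _ => hΦ i, fun i => ?_, fun i hi => absurd hi (notMem_empty i), rfl, rfl⟩
    unfold Cfg.tr
    rw [hΦ i]
    exact Nat.zero_le _
  | insert l P hl ih =>
    obtain ⟨a, c₁, ha, haP, hc₁, hK₁, hΦ₁, htr₁, hy₁, hs₁, hsz₁⟩ := ih
    obtain ⟨a', c₂, ha'i, ha'l, ha'l', hc₂, hK₂, hΦ₂, htr₂, hy₂, hs₂, hsz₂⟩ :=
      phase_one Y H a ha l (haP l hl) c₁ hc₁ htr₁ (hΦ₁ l hl) (by omega) (by omega)
    refine ⟨a', c₂, ?_, ?_, hc₂, fun h => hK₁ (hK₂ h), ?_, ?_, ?_, hs₂.trans hs₁, by omega⟩
    · intro i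
      by_cases hi : i = l
      · subst hi
        have := haP i hl
        omega
      · rw [ha'i i hi]
        exact ha i
    · intro i hi
      rw [mem_insert, not_or] at hi
      rw [ha'i i hi.1]
      exact haP i hi.2
    · intro i hi
      rw [mem_insert, not_or] at hi
      rw [hΦ₂ i hi.1]
      exact hΦ₁ i hi.2
    · intro i
      by_cases hi : i = l
      · subst hi
        exact htr₂
      · have h8 : c₂.tr n i = c₁.tr n i := by
          unfold Cfg.tr
          rw [hΦ₂ i hi]
        rw [h8]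
        exact htr₁ i
    · intro i hi
      by_cases hil : i = l
      · subst hil
        exact hy₂
      · rw [hΦ₂ i hil]
        exact hy₁ i ((mem_insert.1 hi).resolve_left hil)

end Pool.Agent.H18.Ua

end
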