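import Pool.Agent.H94.LP3.M10
import Pool.Agent.H94.LP3.M14

/-! The parts of this file: H18.Pr.NumReg, H18.Pr.NumTau. -/

section

/-!
# Module NumReg (PR): margins of states
-/

namespace Pool.Agent.H18.Pr

open Finset Pool.Agent.H18.Ex Pool.Agent.H18.Cub

variable {R t s : ℕ}

/-- The sum of the multiplicities: `mu = uu - n` (truncated), `∑ uu = (t + s) a_none + ∑ a_l`. -/
theorem sum_mu_eq (n : Fin t ⊕ Fin s → ℕ) (a : Option (Fin t) → ℕ) :
    ∑ b, mu n a b + ∑ b, min (n b) (uu (s := s) a b) = (t + s) * a none + ∑ l, a (some l) := by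
  have h1 : ∑ b, mu n a b + ∑ b, min (n b) (uu a b) = ∑ b : Fin t ⊕ Fin s, uu a b := by
    rw [← Finset.sum_add_distrib]
    refine Finset.sum_congr rfl fun b _ => ?_
    simp only [mu]
    omega
  rw [h1, Fintype.sum_sum_type]
  simp only [uu, Finset.sum_add_distrib, Finset.sum_const, Finset.card_univ, Fintype.card_fin,
    smul_eq_mul]
  ring

/-- The margin of the curve: `(t + 1)^R dd a - ∑ mu = ((t + 1)^R - 1) ∑ a_l + ∑ min (n b) (uu b)`. -/
theorem curve_eq (hts : t + s = (t + 1) ^ (R + 1)) (n : Fin t ⊕ Fin s → ℕ)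
    (a : Option (Fin t) → ℕ) :
    ∑ b, mu n a b + (((t + 1) ^ R - 1) * ∑ l, a (some l) + ∑ b, min (n b) (uu (s := s) a b)) =
      (t + 1) ^ R * dd a := by
  have h := sum_mu_eq n a
  have hp : 1 ≤ (t + 1) ^ R := Nat.one_le_pow _ _ (by omega)
  obtain ⟨k, hk⟩ := Nat.exists_eq_add_of_le hp
  have e1 : (t + 1) ^ R * dd a = (t + s) * a none + (1 + k) * ∑ l, a (some l) := by
    rw [hts, dd, pow_succ, ← hk]
    ring
  have e2 : (t + 1) ^ R - 1 = k := by omega
  have e3 : (1 + k) * ∑ l, a (some l) = ∑ l, a (some l) + k * ∑ l, a (some l) := by ring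
  rw [e1, e2, e3]
  omega

theorem NumReg_uu_mono {a b : Option (Fin t) → ℕ} (h : ∀ i, a i ≤ b i) (x : Fin t ⊕ Fin s) :
    uu a x ≤ uu b x := by
  rcases x with l | x
  · have h1 := h none
    have h2 := h (some l)
    simp only [uu]
    omega
  · exact h none

theorem mu_mono {n : Fin t ⊕ Fin s → ℕ} {a b : Option (Fin t) → ℕ} (h : ∀ i, a i ≤ b i)
    (x : Fin t ⊕ Fin s) : mu n a x ≤ mu n b x := by
  have h1 : uu a x ≤ uu b x := NumReg_uu_mono h x
  simp only [mu]
  omega

/-- Sums of terms which are at least `min (x k) c`. -/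
theorem NumReg_sum {κ : Type} (K : Finset κ) (x y : κ → ℕ) (c : ℕ)
    (h : ∀ k ∈ K, min (x k) c ≤ y k) : min (∑ k ∈ K, x k) c ≤ ∑ k ∈ K, y k := by
  classical
  induction K using Finset.induction_on with
  | empty => simp
  | insert k K hk ih =>
    have h1 := ih fun j hj => h j (Finset.mem_insert_of_mem hj)
    have h2 := h k (Finset.mem_insert_self k K)
    rw [Finset.sum_insert hk, Finset.sum_insert hk]
    omega

theorem NumReg_mul (k x y c : ℕ) (h : min x c ≤ y) : min (k * x) c ≤ k * y := by
  rcases Nat.eq_zero_or_pos k with rfl | hk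
  · simp
  · rcases min_le_iff.1 h with h1 | h1
    · exact (min_le_left _ _).trans (Nat.mul_le_mul_left _ h1)
    · exact (min_le_right _ _).trans (h1.trans (Nat.le_mul_of_pos_left _ hk))

theorem NumReg_uu {N a : Option (Fin t) → ℕ} {c : ℕ} (ha : ∀ i, min (N i) c ≤ a i)
    (b : Fin t ⊕ Fin s) : min (uu N b) c ≤ uu a b := by
  rcases b with l | b
  · have h3 := ha none
    have h4 := ha (some l)
    simp only [uu]
    omega
  · exact ha none

/-- The fields `curve`, `line` and `deg` in the region. -/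
theorem NumReg_core (hts : t + s = (t + 1) ^ (R + 1))
    {n : Fin t ⊕ Fin s → ℕ} {N a : Option (Fin t) → ℕ} {D Ta : ℕ} (h : Mg R D n N)
    (hTa : Ta ≤ D) (ha : ∀ i, min (N i) Ta ≤ a i) (ha' : ∀ i, a i ≤ N i)
    (hs : R * t - 2 ≤ ∑ l, a (some l)) : Mg R Ta n a := by
  have hA : min (∑ l, N (some l)) Ta ≤ ∑ l, a (some l) :=
    NumReg_sum _ _ _ _ fun l _ => ha (some l)
  have hdeg : Ta ≤ dd a := by
    have h1 := NumReg_mul (t + 1) _ _ _ (ha none)
    have h2 := h.deg
    simp only [dd] at h2 ⊢
    omega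
  refine ⟨hs, ?_, fun l => ?_, hdeg⟩
  · have h1 := NumReg_mul ((t + 1) ^ R - 1) _ _ _ hA
    have h2 : min (∑ b, min (n b) (uu N b)) Ta ≤ ∑ b, min (n b) (uu a b) := by
      refine NumReg_sum _ _ _ _ fun b _ => ?_
      have h3 : min (uu N b) Ta ≤ uu a b := NumReg_uu ha b
      omega
    have h3 := curve_eq hts n N
    have h4 := curve_eq hts n a
    have h5 := h.curve
    omega
  · rcases Nat.eq_zero_or_pos (mu n a (.inl l)) with h0 | h0
    · rw [h0, zero_add]
      exact hdeg
    · have h1 : mu n a (.inl l) ≤ mu n N (.inl l) := mu_mono ha' _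
      have h2 := h.line l
      have h3 : min (∑ l' ∈ univ.erase l, N (some l')) Ta ≤ ∑ l' ∈ univ.erase l, a (some l') :=
        NumReg_sum _ _ _ _ fun l' _ => ha (some l')
      have h4 := NumReg_mul t _ _ _ (ha none)
      have e1 : ∑ l', a (some l') = a (some l) + ∑ l' ∈ univ.erase l, a (some l') :=
        (Finset.add_sum_erase _ (fun l' => a (some l')) (Finset.mem_univ l)).symm
      have e2 : ∑ l', N (some l') = N (some l) + ∑ l' ∈ univ.erase l, N (some l') :=
        (Finset.add_sum_erase _ (fun l' => N (some l')) (Finset.mem_univ l)).symm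
      have e3 : (t + 1) * a none = t * a none + a none := by ring
      have e4 : (t + 1) * N none = t * N none + N none := by ring
      simp only [dd, mu, uu] at h0 h1 h2 ⊢
      omega

/-- The margins in the region `Reg N Ta`.

For the field `curve` use `curve_eq`: if some `a_l ≥ Ta` it is clear (`1 ≤ R`, `1 ≤ t`);
otherwise `a_l = N_l` for all `l`, and either `a none = N none`, or `a none ≥ Ta`, and then some
`n b ≥ Ta`, or all the minima are the same for `a` and for `N`.  The other fields are similar; if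
`mu n a (inl l) > 0` then
`dd a - mu n a (inl l) = t * a none + ∑_{l' ≠ l} a_{l'} + n (inl l)`. -/
theorem Mg.reg (ht : 1 ≤ t) (hR : 1 ≤ R) (hts : t + s = (t + 1) ^ (R + 1))
    {n : Fin t ⊕ Fin s → ℕ} {N a : Option (Fin t) → ℕ} {D Ta : ℕ} (h : Mg R D n N)
    (hTa : Ta ≤ D) (hTa' : R * t ≤ Ta) (ha : Reg N Ta a) : Mg R Ta n a := by
  have hA : min (∑ l, N (some l)) Ta ≤ ∑ l, a (some l) :=
    NumReg_sum _ _ _ _ fun l _ => (ha (some l)).1
  have hs := h.slack
  exact NumReg_core hts h hTa (fun i => (ha i).1) (fun i => (ha i).2) (by omega)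

theorem Mg.le {n : Fin t ⊕ Fin s → ℕ} {N : Option (Fin t) → ℕ} {D D' : ℕ} (h : Mg R D n N)
    (hD : D' ≤ D) : Mg R D' n N := by
  obtain ⟨h1, h2, h3, h4⟩ := h
  exact ⟨h1, by omega, fun l => by have := h3 l; omega, by omega⟩

/-- Lowering the coefficient of the curve to a positive number. -/
theorem Mg.none (ht : 1 ≤ t) (hR : 1 ≤ R) (hts : t + s = (t + 1) ^ (R + 1))
    {n : Fin t ⊕ Fin s → ℕ} {N : Option (Fin t) → ℕ} (h : Mg R 1 n N) (c : ℕ) (hc : 1 ≤ c)
    (hc' : c ≤ N none) : Mg R 1 n (Function.update N none c) := by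
  have e : ∀ l : Fin t, Function.update N Option.none c (some l) = N (some l) := fun l =>
    Function.update_of_ne (by simp) _ _
  refine NumReg_core hts h le_rfl (fun i => ?_) (fun i => ?_) ?_
  · rcases i with _ | l
    · rw [Function.update_self]
      omega
    · rw [e]
      omega
  · rcases i with _ | l
    · rw [Function.update_self]
      exact hc'
    · rw [e]
  · simp only [e]
    exact h.slack

end Pool.Agent.H18.Pr

end

section

/-!
# Module NumTau (PR): the numbers `tau`
-/

namespace Pool.Agent.H18.Pr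

open Finset Pool.Agent.H18.Ex Pool.Agent.H18.Cub

theorem tau_zero_right (e A n : ℕ) (he : 1 ≤ e) : tau e A n 0 = 1 := by
  induction A with
  | zero => simp [tau]
  | succ A ih =>
    rw [tau, Finset.sum_eq_single 0]
    · rw [if_pos le_rfl]
      exact ih
    · intro b _ hb
      rw [if_neg]
      omega
    · intro h
      exact absurd (mem_range.2 (by omega)) h

theorem tau_zero_aux (e A n : ℕ) : tau e A (n + 1) 0 = tau e A n 0 := by
  rcases Nat.eq_zero_or_pos e with rfl | he
  · cases A with
    | zero => simp [tau]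
    | succ A => simp [tau]
  · rw [tau_zero_right e A _ he, tau_zero_right e A _ he]

theorem tau_succ (e A n d : ℕ) :
    tau e A (n + 1) (d + 1) = tau e A (n + 1) d + tau e A n (d + 1) := by
  induction A generalizing d with
  | zero =>
    simp only [tau]
    have h := Nat.choose_succ_succ (d + n + 1) n
    have h1 : d + 1 + (n + 1) = d + n + 1 + 1 := by ring
    have h2 : d + (n + 1) = d + n + 1 := by ring
    have h3 : d + 1 + n = d + n + 1 := by ring
    rw [h1, h2, h3, h, Nat.succ_eq_add_one]
    ring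
  | succ A ih =>
    rw [tau, tau, tau, ← Finset.sum_add_distrib]
    refine Finset.sum_congr rfl fun δ _ => ?_
    rcases Nat.lt_trichotomy δ (d + 1) with h | h | h
    · rw [if_pos h.le, if_pos (by omega), if_pos h.le]
      have h1 : d + 1 - δ = (d - δ) + 1 := by omega
      rw [h1]
      exact ih _
    · rw [if_pos h.le, if_neg (by omega), if_pos h.le, zero_add, h, Nat.sub_self]
      exact tau_zero_aux e A n
    · rw [if_neg (by omega), if_neg (by omega), if_neg (by omega)]

theorem tau_mono (e A n : ℕ) {d d' : ℕ} (h : d ≤ d') : tau e A n d ≤ tau e A n d' := by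
  induction A generalizing d d' with
  | zero =>
    simp only [tau]
    exact Nat.choose_le_choose _ (by omega)
  | succ A ih =>
    rw [tau, tau]
    refine Finset.sum_le_sum fun δ _ => ?_
    by_cases h1 : δ ≤ d
    · rw [if_pos h1, if_pos (h1.trans h)]
      exact ih (by omega)
    · rw [if_neg h1]
      exact Nat.zero_le _

theorem tau_tele (e A n d k : ℕ) (hk : k ≤ d) :
    tau e A (n + 1) d = tau e A (n + 1) (d - k) + ∑ δ ∈ range k, tau e A n (d - δ) := by
  induction k with
  | zero => simp
  | succ k ih =>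
    rw [ih (by omega), Finset.sum_range_succ]
    have h1 : d - k = (d - (k + 1)) + 1 := by omega
    rw [h1, tau_succ]
    ring

/-- The second recursion. -/
theorem tau_eq (e A n d : ℕ) (he : 1 ≤ e) (hd : e ≤ d) :
    tau e A (n + 1) d = tau e A (n + 1) (d - e) + tau e (A + 1) n d := by
  rw [tau_tele e A n d e hd]
  congr 1
  rw [tau]
  refine Finset.sum_congr rfl fun δ hδ => ?_
  rw [if_pos]
  have := mem_range.1 hδ
  omega

theorem choose_le_tau (e A n d : ℕ) (he : 1 ≤ e) : (d + n).choose n ≤ tau e A n d := by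
  induction A with
  | zero => simp [tau]
  | succ A ih =>
    rw [tau]
    refine ih.trans ?_
    have h1 := Finset.single_le_sum (f := fun δ => if δ ≤ d then tau e A n (d - δ) else 0)
      (fun _ _ => Nat.zero_le _) (mem_range.2 (show 0 < e by omega))
    simpa using h1

theorem tau_pos (e A n d : ℕ) (he : 1 ≤ e) : 1 ≤ tau e A n d := by
  exact (Nat.choose_pos (Nat.le_add_left _ _)).trans_le (choose_le_tau e A n d he)

theorem tau_le (e A n d : ℕ) : tau e A n d ≤ e ^ A * (d + n).choose n := by
  induction A generalizing d with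
  | zero => simp [tau]
  | succ A ih =>
    rw [tau]
    calc ∑ δ ∈ range e, (if δ ≤ d then tau e A n (d - δ) else 0)
        ≤ ∑ δ ∈ range e, e ^ A * (d + n).choose n := by
          refine Finset.sum_le_sum fun δ _ => ?_
          by_cases h1 : δ ≤ d
          · rw [if_pos h1]
            refine (ih _).trans (Nat.mul_le_mul_left _ ?_)
            exact Nat.choose_le_choose _ (by omega)
          · rw [if_neg h1]
            exact Nat.zero_le _
      _ = e ^ (A + 1) * (d + n).choose n := by
          rw [Finset.sum_const, card_range, smul_eq_mul, pow_succ]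
          ring

theorem tau_one_lower (e A d : ℕ) (he : 1 ≤ e) :
    2 * (e ^ A * (d + 1)) ≤ 2 * tau e A 1 d + A * (e - 1) * e ^ A := by
  have key : ∀ d : ℕ, (2 : ℤ) * ((e : ℤ) ^ A * ((d : ℤ) + 1)) ≤
      2 * (tau e A 1 d : ℤ) + A * ((e : ℤ) - 1) * (e : ℤ) ^ A := by
    induction A with
    | zero =>
      intro d
      simp [tau]
    | succ A ih =>
      intro d
      rw [tau]
      push_cast
      have h1 : ∀ δ ∈ range e, 2 * ((e : ℤ) ^ A * ((d : ℤ) + 1 - δ)) -
          A * ((e : ℤ) - 1) * (e : ℤ) ^ A ≤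
          2 * (if δ ≤ d then (tau e A 1 (d - δ) : ℤ) else 0) := by
        intro δ hδ
        by_cases h2 : δ ≤ d
        · rw [if_pos h2]
          have h3 := ih (d - δ)
          push_cast [Nat.cast_sub h2] at h3
          linarith
        · rw [if_neg h2]
          have h3 : (d : ℤ) + 1 - δ ≤ 0 := by
            have : d + 1 ≤ δ := by omega
            have h4 : ((d + 1 : ℕ) : ℤ) ≤ (δ : ℤ) := by exact_mod_cast this
            push_cast at h4
            linarith
          have h4 : (0 : ℤ) ≤ (e : ℤ) ^ A := by positivity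
          have h5 : (e : ℤ) ^ A * ((d : ℤ) + 1 - δ) ≤ 0 := mul_nonpos_of_nonneg_of_nonpos h4 h3
          have h6 : (0 : ℤ) ≤ A * ((e : ℤ) - 1) * (e : ℤ) ^ A := by
            have h7 : (0 : ℤ) ≤ (e : ℤ) - 1 := by
              have : (1 : ℤ) ≤ (e : ℤ) := by exact_mod_cast he
              linarith
            positivity
          linarith
      have h2 := Finset.sum_le_sum h1
      rw [← Finset.mul_sum] at h2
      have h3 : ∑ δ ∈ range e, (2 * ((e : ℤ) ^ A * ((d : ℤ) + 1 - δ)) -
          A * ((e : ℤ) - 1) * (e : ℤ) ^ A) =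
          2 * ((e : ℤ) ^ (A + 1) * ((d : ℤ) + 1)) - (A + 1) * ((e : ℤ) - 1) * (e : ℤ) ^ (A + 1) := by
        have h4 : ∀ m : ℕ, ∑ δ ∈ range m, (2 * ((e : ℤ) ^ A * ((d : ℤ) + 1 - δ)) -
            A * ((e : ℤ) - 1) * (e : ℤ) ^ A) =
            2 * ((e : ℤ) ^ A * m * ((d : ℤ) + 1)) - (e : ℤ) ^ A * (m * ((m : ℤ) - 1)) -
              m * (A * ((e : ℤ) - 1) * (e : ℤ) ^ A) := by
          intro m
          induction m with
          | zero => simp
          | succ m ihm =>
            rw [Finset.sum_range_succ, ihm]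
            push_cast
            ring
        rw [h4, pow_succ]
        ring
      rw [h3] at h2
      linarith
  have h := key d
  zify [he]
  exact h

/-- For large `d` all digits are allowed. -/
theorem tau_zero_eq (e A d : ℕ) (h : A * (e - 1) ≤ d) : tau e A 0 d = e ^ A := by
  induction A generalizing d with
  | zero => simp [tau]
  | succ A ih =>
    rw [tau]
    have h1 : ∀ δ ∈ range e, (if δ ≤ d then tau e A 0 (d - δ) else 0) = e ^ A := by
      intro δ hδ
      rw [mem_range] at hδ
      have h2 : (A + 1) * (e - 1) = A * (e - 1) + (e - 1) := by ring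
      rw [h2] at h
      rw [if_pos (by omega)]
      exact ih _ (by omega)
    rw [Finset.sum_congr rfl h1, Finset.sum_const, card_range, smul_eq_mul, pow_succ]
    ring

theorem tau_drop (e A n : ℕ) {d d' : ℕ} (h : d' ≤ d) :
    tau e A (n + 1) d ≤ tau e A (n + 1) d' + (d - d') * tau e A n d := by
  rw [tau_tele e A n d (d - d') (by omega)]
  have h1 : d - (d - d') = d' := by omega
  rw [h1]
  refine Nat.add_le_add_left ?_ _
  calc ∑ δ ∈ range (d - d'), tau e A n (d - δ) ≤ ∑ δ ∈ range (d - d'), tau e A n d :=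
        Finset.sum_le_sum fun δ _ => tau_mono e A n (Nat.sub_le _ _)
    _ = (d - d') * tau e A n d := by rw [Finset.sum_const, card_range, smul_eq_mul]

end Pool.Agent.H18.Pr

end
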