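import Pool.Agent.H94.LP3.M52
import Pool.Agent.H94.LP3.M53

/-! The parts of this file: H18.Pr.NumTau2, H18.Pr.NumRM, H18.Pr.NumSlow, H18.Pr.NumFM. -/

section

/-!
# Module NumTau2 (PR): comparison of the numbers `tau`
-/

namespace Pool.Agent.H18.Pr

open Finset Pool.Agent.H18.Ex Pool.Agent.H18.Cub

theorem tau_rise (e A n c s : ℕ) :
    tau e A (n + 1) c + s * tau e A n c ≤ tau e A (n + 1) (c + s) := by
  induction s with
  | zero => simp
  | succ s ih =>
    have h1 := tau_succ e A n (c + s)
    have h2 : tau e A n c ≤ tau e A n (c + s + 1) := tau_mono e A n (by omega)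
    have h3 : (s + 1) * tau e A n c = s * tau e A n c + tau e A n c := by ring
    rw [← Nat.add_assoc, h1, h3]
    omega

theorem ell_le_tau (e A j m : ℕ) (he : 1 ≤ e) : ell (j + 1) m ≤ tau e A (j + 1) m := by
  refine le_trans ?_ (choose_le_tau e A (j + 1) m he)
  unfold ell
  exact Nat.choose_le_choose _ (by omega)

theorem tau_slow_of_half (e A j : ℕ) (he : 1 ≤ e)
    (hH : ∃ C, 1 ≤ C ∧ ∀ s d, C * s ≤ d → tau e A j d ≤ 2 * tau e A j (d - s)) :
    ∃ C, 1 ≤ C ∧ ∀ T d m, 1 ≤ T → m + C * T ≤ d →
      T * tau e A j d + ell (j + 1) m ≤ tau e A (j + 1) d := by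
  obtain ⟨C, hC, hH⟩ := hH
  refine ⟨2 * C, by omega, fun T d m hT h => ?_⟩
  have h1 : C * (2 * T) ≤ d := by
    have : C * (2 * T) = 2 * C * T := by ring
    omega
  have h2 : 2 * T ≤ C * (2 * T) := Nat.le_mul_of_pos_left _ (by omega)
  have h2' : C * (2 * T) = 2 * C * T := by ring
  have h3 := hH (2 * T) d h1
  have h4 := tau_rise e A j (d - 2 * T) (2 * T)
  have h5 : d - 2 * T + 2 * T = d := by omega
  rw [h5] at h4
  have h6 : tau e A (j + 1) m ≤ tau e A (j + 1) (d - 2 * T) := tau_mono e A (j + 1) (by omega)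
  have h7 := ell_le_tau e A j m he
  have h8 : T * tau e A j d ≤ T * (2 * tau e A j (d - 2 * T)) := Nat.mul_le_mul_left _ h3
  have h9 : T * (2 * tau e A j (d - 2 * T)) = 2 * T * tau e A j (d - 2 * T) := by ring
  omega

theorem tau_half (e A j : ℕ) (he : 1 ≤ e) :
    ∃ C, 1 ≤ C ∧ ∀ s d, C * s ≤ d → tau e A j d ≤ 2 * tau e A j (d - s) := by
  induction j with
  | zero =>
    refine ⟨A * (e - 1) + 1, by omega, fun s d h => ?_⟩
    rcases Nat.eq_zero_or_pos s with hs | hs
    · subst hs
      simp only [Nat.sub_zero]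
      omega
    · have h1 : (A * (e - 1) + 1) * s = A * (e - 1) * s + s := by ring
      have h2 : A * (e - 1) ≤ A * (e - 1) * s := Nat.le_mul_of_pos_right _ hs
      rw [tau_zero_eq e A d (by omega), tau_zero_eq e A (d - s) (by omega)]
      omega
  | succ j ih =>
    obtain ⟨C2, hC2, hs⟩ := tau_slow_of_half e A j he ih
    obtain ⟨C1, hC1, hH⟩ := ih
    refine ⟨C1 + 2 * C2 + 1, by omega, fun s d h => ?_⟩
    rcases Nat.eq_zero_or_pos s with hs0 | hs0
    · subst hs0
      simp only [Nat.sub_zero]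
      omega
    · have e1 : (C1 + 2 * C2 + 1) * s = C1 * s + C2 * (2 * s) + s := by ring
      have h1 := hH s d (by omega)
      have h2 := hs (2 * s) (d - s) 0 (by omega) (by omega)
      have h3 := tau_drop e A j (d := d) (d' := d - s) (by omega)
      have h4 : d - (d - s) = s := by omega
      rw [h4] at h3
      have h5 : s * tau e A j d ≤ s * (2 * tau e A j (d - s)) := Nat.mul_le_mul_left _ h1
      have h6 : s * (2 * tau e A j (d - s)) = 2 * s * tau e A j (d - s) := by ring
      omega

/-- `tau e A (j + 1) d` is much larger than `tau e A j d`, even after subtracting a point of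
multiplicity `m`, provided that `d - m` is large.  (Hint: with `s = min (d - m) (d / C')` one has
`tau e A (j + 1) d - tau e A (j + 1) (d - s) ≥ s * tau e A j (d - s)`,
`tau e A (j + 1) (d - s) ≥ tau e A (j + 1) m ≥ ell (j + 1) m`, and
`2 * tau e A j (d - s) ≥ tau e A j d`.) -/
theorem tau_slow (e A j : ℕ) (he : 1 ≤ e) : ∃ C, 1 ≤ C ∧ ∀ T d m, 1 ≤ T → m + C * T ≤ d →
    T * tau e A j d + ell (j + 1) m ≤ tau e A (j + 1) d :=
  tau_slow_of_half e A j he (tau_half e A j he)

theorem ell_succ_le_choose (j d : ℕ) (hj : 1 ≤ j) : ell j d + 1 ≤ (d + j).choose j := by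
  obtain ⟨k, rfl⟩ : ∃ k, j = k + 1 := ⟨j - 1, by omega⟩
  have h1 : (d + (k + 1)).choose (k + 1) = (d + k).choose k + (d + k).choose (k + 1) := by
    rw [← Nat.add_assoc, Nat.choose_succ_succ]
  have h2 : ell (k + 1) d = (d + k).choose (k + 1) := by
    unfold ell
    rw [show d + (k + 1) - 1 = d + k by omega]
  have h3 : 0 < (d + k).choose k := Nat.choose_pos (by omega)
  omega

/-- A point of multiplicity at most `d`. -/
theorem ell_lt_tau (e A j d m : ℕ) (he : 1 ≤ e) (hj : 1 ≤ j) (h : m ≤ d) :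
    ell j m + 1 ≤ tau e A j d := by
  have h1 := ell_mono j h
  have h2 := ell_succ_le_choose j d hj
  have h3 := choose_le_tau e A j d he
  omega

theorem ell_succ_sub (j m : ℕ) (hj : 1 ≤ j) : ell (j + 1) m = ell (j + 1) (m - 1) + ell j m := by
  rcases m with _ | c
  · rw [Nat.zero_sub, ell_zero hj, ell_zero (by omega)]
  · rw [Nat.add_sub_cancel]
    exact ell_succ j c

theorem ell_superadd (k a b : ℕ) : ell (k + 1) a + ell (k + 1) b ≤ ell (k + 1) (a + b) := by
  induction b with
  | zero =>
    rw [ell_zero (by omega), Nat.add_zero]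
    exact le_of_eq rfl
  | succ b ih =>
    have h1 := ell_succ k b
    have h2 := ell_succ k (a + b)
    have h3 : ell k (b + 1) ≤ ell k (a + b + 1) := ell_mono k (by omega)
    rw [← Nat.add_assoc]
    omega

/-- Several points of small total multiplicity. -/
theorem sum_ell_le (j : ℕ) (hj : 1 ≤ j) {B : Type} [Fintype B] (m : B → ℕ) (d : ℕ)
    (h : ∑ b, m b ≤ d) : ∑ b, ell j (m b) + 1 ≤ (d + j).choose j := by
  classical
  obtain ⟨k, rfl⟩ : ∃ k, j = k + 1 := ⟨j - 1, by omega⟩
  have key : ∀ s : Finset B, ∑ b ∈ s, ell (k + 1) (m b) ≤ ell (k + 1) (∑ b ∈ s, m b) := by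
    intro s
    induction s using Finset.induction_on with
    | empty => simp
    | insert a s ha ih =>
      rw [sum_insert ha, sum_insert ha]
      exact le_trans (Nat.add_le_add_left ih _) (ell_superadd k _ _)
  have h1 := key univ
  have h2 := ell_mono (k + 1) h
  have h3 := ell_succ_le_choose (k + 1) d hj
  omega

end Pool.Agent.H18.Pr

end

section

/-!
# Module NumRM (PR): the virtual dimensions of the main family
-/

namespace Pool.Agent.H18.Pr

open Finset Pool.Agent.H18.Ex Pool.Agent.H18.Cub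

variable {R t s : ℕ}

private theorem rm_ell_one (m : ℕ) : ell (0 + 1) m = m := by
  unfold ell
  rw [Nat.zero_add, Nat.add_sub_cancel, Nat.choose_one_right]

private theorem rm_zero (n : Fin t ⊕ Fin s → ℕ) (a : Option (Fin t) → ℕ) :
    RM R 0 n a = (tau (t + 1) R 1 (dd a) : ℤ) - ((∑ b, mu n a b : ℕ) : ℤ) := by
  unfold RM
  rw [Nat.sub_zero, Nat.zero_add, Nat.cast_sum]
  congr 1
  refine Finset.sum_congr rfl fun b _ => ?_
  rw [show ell 1 (mu n a b) = mu n a b from rm_ell_one _]

private theorem rm_dd_none (a : Option (Fin t) → ℕ) (ha : 1 ≤ a none) :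
    dd a = dd (dn none a) + (t + 1) := by
  have h1 : ∑ l : Fin t, dn none a (some l) = ∑ l : Fin t, a (some l) :=
    Finset.sum_congr rfl fun l _ => dn_ne (by simp) a
  obtain ⟨c, hc⟩ : ∃ c, a none = c + 1 := ⟨a none - 1, by omega⟩
  simp only [dd]
  rw [h1, dn_self, hc, Nat.add_sub_cancel]
  ring

private theorem rm_dd_some (a : Option (Fin t) → ℕ) (l : Fin t) (ha : 1 ≤ a (some l)) :
    dd a = dd (dn (some l) a) + 1 := by
  have h1 := Finset.add_sum_erase univ (fun l' : Fin t => a (some l')) (mem_univ l)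
  have h2 := Finset.add_sum_erase univ (fun l' : Fin t => dn (some l) a (some l')) (mem_univ l)
  have h3 : ∑ l' ∈ univ.erase l, dn (some l) a (some l') =
      ∑ l' ∈ univ.erase l, a (some l') := by
    refine Finset.sum_congr rfl fun l' hl' => ?_
    rw [dn_ne]
    intro h
    exact (Finset.ne_of_mem_erase hl') (Option.some.inj h)
  have h4 : dn (some l) a (some l) = a (some l) - 1 := dn_self _ _
  have h5 : dn (some l) a none = a none := dn_ne (by simp) a
  simp only [dd]
  rw [h5]
  omega

private theorem rm_mu_none (n : Fin t ⊕ Fin s → ℕ) (a : Option (Fin t) → ℕ) (ha : 1 ≤ a none)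
    (b : Fin t ⊕ Fin s) : mu n (dn none a) b = mu n a b - 1 := by
  have h0 : dn none a none = a none - 1 := dn_self _ _
  rcases b with l | b
  · have h1 : dn none a (some l) = a (some l) := dn_ne (by simp) a
    simp only [mu, uu]
    omega
  · simp only [mu, uu]
    omega

private theorem rm_mu_some (n : Fin t ⊕ Fin s → ℕ) (a : Option (Fin t) → ℕ) (l : Fin t)
    (ha : 1 ≤ a (some l)) : mu n (dn (some l) a) (.inl l) = mu n a (.inl l) - 1 := by
  have h0 : dn (some l) a none = a none := dn_ne (by simp) a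
  have h1 : dn (some l) a (some l) = a (some l) - 1 := dn_self _ _
  simp only [mu, uu]
  omega

private theorem rm_mu_other (n : Fin t ⊕ Fin s → ℕ) (a : Option (Fin t) → ℕ) (l : Fin t)
    (b : Fin t ⊕ Fin s) (hb : b ≠ .inl l) : mu n (dn (some l) a) b = mu n a b := by
  have h0 : dn (some l) a none = a none := dn_ne (by simp) a
  rcases b with l' | b
  · have h1 : dn (some l) a (some l') = a (some l') :=
      dn_ne (fun h => hb (by rw [Option.some.inj h])) a
    simp only [mu, uu]
    omega
  · simp only [mu, uu]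
    omega

/-- The case of dimension one: `RM R 0` is the virtual dimension on the curve. -/
theorem RM_zero_lower (n : Fin t ⊕ Fin s → ℕ) (a : Option (Fin t) → ℕ) (D : ℕ)
    (h : Mg R D n a) : (D : ℤ) ≤ RM R 0 n a + R * t * (t + 1) ^ R := by
  rw [rm_zero]
  have h1 := tau_one_lower (t + 1) R (dd a) (by omega)
  rw [Nat.add_sub_cancel] at h1
  have h2 := h.curve
  have h3 : 2 * ((t + 1) ^ R * (dd a + 1)) = 2 * ((t + 1) ^ R * dd a) + 2 * (t + 1) ^ R := by ring
  have h4 : ((R * t * (t + 1) ^ R : ℕ) : ℤ) = R * t * (t + 1) ^ R := by push_cast; ring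
  rw [← h4]
  omega

/-- Use `tau_one_lower`, `curve_eq` and the field `slack`. -/
theorem RM_zero_pos (ht : 1 ≤ t) (hR : 1 ≤ R) (hts : t + s = (t + 1) ^ (R + 1))
    {n : Fin t ⊕ Fin s → ℕ} {a : Option (Fin t) → ℕ} (h : Mg R 1 n a) (ha : 1 ≤ a none) :
    1 ≤ RM R 0 n a := by
  rw [rm_zero]
  have h1 := tau_one_lower (t + 1) R (dd a) (by omega)
  rw [Nat.add_sub_cancel] at h1
  have h2 := h.curve
  have h5 := h.slack
  have h6 := curve_eq hts n a
  have h3 : 2 * ((t + 1) ^ R * (dd a + 1)) = 2 * ((t + 1) ^ R * dd a) + 2 * (t + 1) ^ R := by ring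
  rw [h3] at h1
  generalize ∑ b, min (n b) (uu (s := s) a b) = V at h6
  generalize hA : ∑ l, a (some l) = A at h5 h6
  generalize ∑ b, mu n a b = m at h2 h6 ⊢
  generalize tau (t + 1) R 1 (dd a) = T at h1 ⊢
  have hE : 2 ≤ (t + 1) ^ R := by
    calc 2 ≤ t + 1 := by omega
      _ = (t + 1) ^ 1 := (pow_one _).symm
      _ ≤ (t + 1) ^ R := Nat.pow_le_pow_right (by omega) hR
  have hE3 : R * t = 1 ∨ 3 ≤ (t + 1) ^ R := by
    by_cases ht1 : t = 1
    · subst ht1
      by_cases hR1 : R = 1
      · left; rw [hR1]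
      · right
        calc 3 ≤ 2 ^ 2 := by norm_num
          _ ≤ (1 + 1) ^ R := Nat.pow_le_pow_right (by norm_num) (by omega)
    · right
      calc 3 ≤ t + 1 := by omega
        _ = (t + 1) ^ 1 := (pow_one _).symm
        _ ≤ (t + 1) ^ R := Nat.pow_le_pow_right (by omega) hR
  generalize (t + 1) ^ R = E at *
  obtain ⟨E', rfl⟩ : ∃ E', E = E' + 1 := ⟨E - 1, by omega⟩
  rw [Nat.add_sub_cancel] at h6
  have h7 : R * t * (E' + 1) ≤ (A + 2) * (E' + 1) := Nat.mul_le_mul_right _ (by omega)
  by_cases hA0 : A = 0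
  · subst hA0
    rw [mul_zero, zero_add] at h6
    have h8 : R * t * (E' + 1) ≤ 2 * (E' + 1) := by simpa using h7
    omega
  · rcases hE3 with h8 | h8
    · rw [h8] at h1
      have h9 : E' * 1 ≤ E' * A := Nat.mul_le_mul_left _ (by omega)
      omega
    · obtain ⟨E'', rfl⟩ : ∃ E'', E' = E'' + 2 := ⟨E' - 2, by omega⟩
      have h9 : (A + 2) * (E'' + 2 + 1) = A * E'' + 3 * A + 2 * (E'' + 2 + 1) := by ring
      have h10 : (E'' + 2) * A = A * E'' + 2 * A := by ring
      rw [h9] at h7
      rw [h10] at h6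
      have h11 : 0 ≤ A * E'' := Nat.zero_le _
      omega

/-- States without the curve. -/
theorem RM_pos_of_none (j : ℕ) {n : Fin t ⊕ Fin s → ℕ} {a : Option (Fin t) → ℕ}
    (ha : a none = 0) : 1 ≤ RM R j n a := by
  have h1 : ∑ b, mu n a b ≤ dd a := by
    rw [Fintype.sum_sum_type]
    have h2 : ∑ l : Fin t, mu n a (Sum.inl l) ≤ ∑ l : Fin t, a (some l) := by
      refine Finset.sum_le_sum fun l _ => ?_
      simp only [mu, uu]
      omega
    have h3 : ∑ l : Fin s, mu n a (Sum.inr l) = 0 := by
      refine Finset.sum_eq_zero fun l _ => ?_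
      simp only [mu, uu]
      omega
    simp only [dd]
    omega
  have h2 := sum_ell_le (j + 1) (by omega) (mu n a) (dd a) h1
  have h3 := choose_le_tau (t + 1) (R - j) (j + 1) (dd a) (by omega)
  unfold RM
  have h4 : ((∑ b, ell (j + 1) (mu n a b) : ℕ) : ℤ) = ∑ b, (ell (j + 1) (mu n a b) : ℤ) :=
    Nat.cast_sum _ _
  rw [← h4]
  omega

/-- Differences, in direction of the curve. -/
theorem RM_diff_none (j : ℕ) (hj : 1 ≤ j) (hjR : j ≤ R) (n : Fin t ⊕ Fin s → ℕ)
    (a : Option (Fin t) → ℕ) (ha : 1 ≤ a none) :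
    RM R j n a = RM R j n (dn none a) + RM R (j - 1) n a := by
  have h1 := rm_dd_none a ha
  have h2 := tau_eq (t + 1) (R - j) j (dd a) (by omega) (by omega)
  have h3 : dd a - (t + 1) = dd (dn none a) := by omega
  rw [h3] at h2
  have h4 : ∑ b, (ell (j + 1) (mu n a b) : ℤ) =
      ∑ b, (ell (j + 1) (mu n (dn none a) b) : ℤ) + ∑ b, (ell j (mu n a b) : ℤ) := by
    rw [← Finset.sum_add_distrib]
    refine Finset.sum_congr rfl fun b _ => ?_
    rw [rm_mu_none n a ha b, ell_succ_sub j (mu n a b) hj]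
    push_cast
    ring
  have h5 : R - (j - 1) = R - j + 1 := by omega
  have h6 : j - 1 + 1 = j := by omega
  unfold RM
  rw [h5, h6, h2, h4]
  push_cast
  ring

/-- Differences, in the other directions. -/
theorem RM_diff_some (j : ℕ) (hj : 1 ≤ j) (n : Fin t ⊕ Fin s → ℕ)
    (a : Option (Fin t) → ℕ) (l : Fin t) (ha : 1 ≤ a (some l)) :
    RM R j n a = RM R j n (dn (some l) a) +
      ((tau (t + 1) (R - j) j (dd a) : ℤ) - ell j (mu n a (.inl l))) := by
  have h1 := rm_dd_some a l ha
  have h2 := tau_succ (t + 1) (R - j) j (dd (dn (some l) a))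
  rw [← h1] at h2
  have h3 := Finset.add_sum_erase univ
    (fun b : Fin t ⊕ Fin s => (ell (j + 1) (mu n a b) : ℤ)) (mem_univ (.inl l))
  have h4 := Finset.add_sum_erase univ
    (fun b : Fin t ⊕ Fin s => (ell (j + 1) (mu n (dn (some l) a) b) : ℤ)) (mem_univ (.inl l))
  have h5 : ∑ b ∈ univ.erase (.inl l), (ell (j + 1) (mu n (dn (some l) a) b) : ℤ) =
      ∑ b ∈ univ.erase (.inl l), (ell (j + 1) (mu n a b) : ℤ) := by
    refine Finset.sum_congr rfl fun b hb => ?_
    rw [rm_mu_other n a l b (Finset.ne_of_mem_erase hb)]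
  have h6 := ell_succ_sub j (mu n a (.inl l)) hj
  simp only [rm_mu_some n a l ha] at h4
  rw [h5] at h4
  unfold RM
  rw [← h3, ← h4, h2, h6]
  push_cast
  ring

/-- Dimension one. -/
theorem RM_diff_zero (hts : t + s = (t + 1) ^ (R + 1)) (n : Fin t ⊕ Fin s → ℕ)
    (a : Option (Fin t) → ℕ) (i : Option (Fin t)) (ha : 1 ≤ a i)
    (hd : (R + 1) * t ≤ dd a) :
    0 ≤ RM R 0 n a - RM R 0 n (dn i a) ∧
      RM R 0 n a - RM R 0 n (dn i a) ≤ (t + 1) ^ (R + 1) := by
  have hcast : (((t + 1) ^ (R + 1) : ℕ) : ℤ) = (t + 1) ^ (R + 1) := by push_cast; ring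
  rw [rm_zero, rm_zero, ← hcast]
  rcases i with _ | l
  · have h1 := rm_dd_none a ha
    have h2 := tau_eq (t + 1) R 0 (dd a) (by omega) (by omega)
    have h3 : dd a - (t + 1) = dd (dn none a) := by omega
    rw [h3, Nat.zero_add] at h2
    have h4 := tau_zero_eq (t + 1) (R + 1) (dd a) (by rw [Nat.add_sub_cancel]; exact hd)
    have h5 : ∑ b, mu n (dn none a) b ≤ ∑ b, mu n a b :=
      Finset.sum_le_sum fun b _ => by rw [rm_mu_none n a ha b]; omega
    have h6 : ∑ b, mu n a b ≤ ∑ b, mu n (dn none a) b + (t + s) := by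
      have h7 : ∑ b, mu n a b ≤ ∑ b, (mu n (dn none a) b + 1) :=
        Finset.sum_le_sum fun b _ => by rw [rm_mu_none n a ha b]; omega
      rw [Finset.sum_add_distrib] at h7
      simpa using h7
    rw [h4] at h2
    rw [hts] at h6
    omega
  · have h1 := rm_dd_some a l ha
    have h2 := tau_succ (t + 1) R 0 (dd (dn (some l) a))
    rw [← h1, Nat.zero_add] at h2
    have h4 := tau_zero_eq (t + 1) R (dd a) (by
      rw [Nat.add_sub_cancel]
      refine le_trans ?_ hd
      exact Nat.mul_le_mul_right _ (by omega))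
    rw [h4] at h2
    have h5 : ∑ b, mu n (dn (some l) a) b ≤ ∑ b, mu n a b :=
      Finset.sum_le_sum fun b _ => by
        by_cases hb : b = .inl l
        · rw [hb, rm_mu_some n a l ha]; omega
        · rw [rm_mu_other n a l b hb]
    have h6 : ∑ b, mu n a b ≤ ∑ b, mu n (dn (some l) a) b + 1 := by
      have h7 := Finset.add_sum_erase univ (fun b => mu n a b) (mem_univ (.inl l))
      have h8 := Finset.add_sum_erase univ (fun b => mu n (dn (some l) a) b) (mem_univ (.inl l))
      have h9 : ∑ b ∈ univ.erase (.inl l), mu n (dn (some l) a) b =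
          ∑ b ∈ univ.erase (.inl l), mu n a b :=
        Finset.sum_congr rfl fun b hb => rm_mu_other n a l b (Finset.ne_of_mem_erase hb)
      have h10 := rm_mu_some n a l ha
      omega
    have h7 : 1 ≤ (t + 1) ^ R := Nat.one_le_pow _ _ (by omega)
    have h8 : (t + 1) ^ R ≤ (t + 1) ^ (R + 1) := Nat.pow_le_pow_right (by omega) (by omega)
    omega

theorem RM_upper (j : ℕ) (hjR : j ≤ R) (n : Fin t ⊕ Fin s → ℕ) (a : Option (Fin t) → ℕ) :
    RM R j n a ≤ (t + 1) ^ R * (dd a + j + 1) ^ (j + 1) := by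
  have h1 := tau_le (t + 1) (R - j) (j + 1) (dd a)
  have h2 : (dd a + (j + 1)).choose (j + 1) ≤ (dd a + (j + 1)) ^ (j + 1) :=
    Nat.choose_le_pow _ _
  have h3 : (t + 1) ^ (R - j) ≤ (t + 1) ^ R := Nat.pow_le_pow_right (by omega) (by omega)
  have h4 : tau (t + 1) (R - j) (j + 1) (dd a) ≤ (t + 1) ^ R * (dd a + j + 1) ^ (j + 1) :=
    h1.trans (Nat.mul_le_mul h3 h2)
  have h5 : (0 : ℤ) ≤ ∑ b, (ell (j + 1) (mu n a b) : ℤ) :=
    Finset.sum_nonneg fun b _ => Int.natCast_nonneg _
  have h6 : (tau (t + 1) (R - j) (j + 1) (dd a) : ℤ) ≤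
      ((t + 1) ^ R * (dd a + j + 1) ^ (j + 1) : ℕ) := by exact_mod_cast h4
  unfold RM
  push_cast at h6
  linarith

end Pool.Agent.H18.Pr

end

section

/-!
# Module NumSlow (PR): slow variation of the virtual dimensions
-/

namespace Pool.Agent.H18.Pr

open Finset Pool.Agent.H18.Ex Pool.Agent.H18.Cub

variable {R t s : ℕ}

/-- Positivity (all dimensions).  Induction on `j`, then on `a none`: `RM_zero_pos`,
`RM_pos_of_none`, `RM_diff_none`, `Mg.none`. -/
theorem RM_pos (ht : 1 ≤ t) (hR : 1 ≤ R) (hts : t + s = (t + 1) ^ (R + 1)) (j : ℕ) (hj : j ≤ R)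
    {n : Fin t ⊕ Fin s → ℕ} {a : Option (Fin t) → ℕ} (h : a none = 0 ∨ Mg R 1 n a) :
    1 ≤ RM R j n a := by
  induction j generalizing a with
  | zero =>
    rcases Nat.eq_zero_or_pos (a none) with h0 | h0
    · exact RM_pos_of_none 0 h0
    · rcases h with h | h
      · omega
      · exact RM_zero_pos ht hR hts h h0
  | succ j ih =>
    obtain ⟨c, hc⟩ : ∃ c, a none = c := ⟨_, rfl⟩
    induction c generalizing a with
    | zero => exact RM_pos_of_none (j + 1) hc
    | succ c ihc =>
      have hM : Mg R 1 n a := by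
        rcases h with h | h
        · omega
        · exact h
      have h1 := RM_diff_none (j + 1) (by omega) hj n a (by omega)
      have h2 : 1 ≤ RM R (j + 1 - 1) n a := ih (by omega) (Or.inr hM)
      have h3 : 1 ≤ RM R (j + 1) n (dn none a) := by
        have h4 : (dn none a) none = c := by
          unfold dn
          rw [Function.update_self]
          omega
        apply ihc
        · rcases Nat.eq_zero_or_pos c with h5 | h5
          · exact Or.inl (h4.trans h5)
          · refine Or.inr ?_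
            have h6 : dn none a = Function.update a none c := by
              unfold dn
              rw [show a none - 1 = c by omega]
            rw [h6]
            exact hM.none ht hR hts c h5 (by omega)
        · exact h4
      omega

/-- lowering one coordinate -/
def NumSlow_low (a : Option (Fin t) → ℕ) (i : Option (Fin t)) (v : ℕ) : Option (Fin t) → ℕ :=
  Function.update a i (a i - v)

theorem NumSlow_low_zero (a : Option (Fin t) → ℕ) (i : Option (Fin t)) :
    NumSlow_low a i 0 = a := by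
  unfold NumSlow_low
  rw [Nat.sub_zero, Function.update_eq_self]

theorem NumSlow_low_self (a : Option (Fin t) → ℕ) (i : Option (Fin t)) (v : ℕ) :
    NumSlow_low a i v i = a i - v := by
  unfold NumSlow_low
  rw [Function.update_self]

theorem NumSlow_dn_low (a : Option (Fin t) → ℕ) (i : Option (Fin t)) (v : ℕ) :
    dn i (NumSlow_low a i v) = NumSlow_low a i (v + 1) := by
  unfold dn
  rw [NumSlow_low_self]
  unfold NumSlow_low
  rw [Function.update_idem, Nat.sub_sub]

theorem NumSlow_low_le (a : Option (Fin t) → ℕ) (i : Option (Fin t)) (v : ℕ) (k : Option (Fin t)) :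
    NumSlow_low a i v k ≤ a k := by
  unfold NumSlow_low
  rcases eq_or_ne k i with rfl | h
  · rw [Function.update_self]
    omega
  · rw [Function.update_of_ne h]

theorem NumSlow_mg (ht : 1 ≤ t) (hR : 1 ≤ R) (hts : t + s = (t + 1) ^ (R + 1))
    {n : Fin t ⊕ Fin s → ℕ} {a : Option (Fin t) → ℕ} {D Ta v : ℕ} (h : Mg R D n a) (hTa : Ta ≤ D)
    (hTa' : R * t ≤ Ta) (i : Option (Fin t)) (hi : Ta + v ≤ a i) :
    Mg R Ta n (NumSlow_low a i v) := by
  refine h.reg ht hR hts hTa hTa' ?_
  intro k
  refine ⟨?_, NumSlow_low_le a i v k⟩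
  rcases eq_or_ne k i with rfl | hk
  · rw [NumSlow_low_self]
    exact (min_le_right _ _).trans (by omega)
  · unfold NumSlow_low
    rw [Function.update_of_ne hk]
    exact min_le_left _ _

theorem NumSlow_dd (a : Option (Fin t) → ℕ) (l : Fin t) (v : ℕ) (hv : v ≤ a (some l)) :
    dd (NumSlow_low a (some l) v) + v = dd a := by
  induction v with
  | zero => rw [NumSlow_low_zero, Nat.add_zero]
  | succ v ih =>
    have h1 := ih (by omega)
    have h2 : 1 ≤ NumSlow_low a (some l) v (some l) := by
      rw [NumSlow_low_self]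
      omega
    have h3 := dd_dn_some (NumSlow_low a (some l) v) l h2
    rw [NumSlow_dn_low] at h3
    have h4 : 1 ≤ dd (NumSlow_low a (some l) v) := by
      unfold dd
      have h5 := single_le_sum (f := fun l => NumSlow_low a (some l) v (some l))
        (fun _ _ => Nat.zero_le _) (mem_univ l)
      have h6 : NumSlow_low a (some l) v (some l) ≤
          ∑ l', NumSlow_low a (some l) v (some l') :=
        single_le_sum (f := fun l' => NumSlow_low a (some l) v (some l'))
          (fun _ _ => Nat.zero_le _) (mem_univ l)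
      omega
    omega

theorem NumSlow_ell_mono (j : ℕ) {m m' : ℕ} (h : m ≤ m') : ell j m ≤ ell j m' := by
  unfold ell
  exact Nat.choose_le_choose _ (by omega)

/-- The summation argument. -/
theorem NumSlow_sum (g f : ℕ → ℤ) (T : ℕ) (h1 : ∀ v, v < 2 * T → g v = g (v + 1) + f v)
    (h2 : ∀ v, v < 2 * T → f 0 ≤ 2 * f v) (h3 : 0 ≤ g (2 * T)) : (T : ℤ) * f 0 ≤ g 0 := by
  have h4 : ∀ v : ℕ, v ≤ 2 * T → (v : ℤ) * f 0 ≤ 2 * (g 0 - g v) := by
    intro v
    induction v with
    | zero => intro _; simp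
    | succ v ih =>
      intro hv
      have e1 := ih (by omega)
      have e2 := h1 v (by omega)
      have e3 := h2 v (by omega)
      push_cast
      have e4 : ((v : ℤ) + 1) * f 0 = v * f 0 + f 0 := by ring
      rw [e4]
      linarith only [e1, e2, e3]
  have h5 := h4 (2 * T) le_rfl
  push_cast at h5
  have h6 : (2 : ℤ) * T * f 0 = 2 * (T * f 0) := by ring
  rw [h6] at h5
  linarith

/-- Slow variation.  Induction on `j`.

`j = 0`: `RM_diff_zero` and `RM_zero_lower`.

`j → j + 1`: let `C` be the constant for `j` and take `C' ≥ 4 * C + 2` (and larger than the constants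
needed for `tau_slow`).  Let `T ≥ 1`, `Mg R (C' * T) n a`, `C' * T ≤ a i`.  Then
`RM R (j + 1) n a = ∑_{w < 2 T} f (a - w e_i) + RM R (j + 1) n (a - 2 T e_i)`
where `f = RM R j n` for `i = none` (`RM_diff_none`) and `f a = tau .. (dd a) - ell .. (mu n a (inl l))` for
`i = some l` (`RM_diff_some`).  The last term is nonnegative (`RM_pos`, `Mg.reg`), and
`2 * f (a - w e_i) ≥ f a` for `w ≤ 2 T`: for `i = none` by the case `j` with `4 * T` instead of `T`,
for `i = some l` since `f a - f (a - w e_i) ≤ tau .. (j+1) (dd a) - tau .. (j+1) (dd a - w) ≤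
w * tau .. j (dd a)` (`tau_drop`) and `4 * T * tau .. j (dd a) ≤ f a` (`tau_slow`).  Hence
`RM R (j + 1) n a ≥ 2 T * (f a / 2) = T * f a`. -/
theorem RM_slow (ht : 1 ≤ t) (hR : 1 ≤ R) (hts : t + s = (t + 1) ^ (R + 1)) (j : ℕ)
    (hj : j ≤ R) : ∃ C : ℕ, 1 ≤ C ∧ ∀ T : ℕ, 1 ≤ T → ∀ (n : Fin t ⊕ Fin s → ℕ)
      (a : Option (Fin t) → ℕ), Mg R (C * T) n a → ∀ i, C * T ≤ a i →
      0 ≤ RM R j n a - RM R j n (dn i a) ∧
        (T : ℤ) * (RM R j n a - RM R j n (dn i a)) ≤ RM R j n a := by
  induction j with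
  | zero =>
    refine ⟨(t + 1) ^ (R + 1) + R * t * (t + 1) ^ R + (R + 1) * t, ?_, ?_⟩
    · have : 1 ≤ (t + 1) ^ (R + 1) := Nat.one_le_pow _ _ (by omega)
      omega
    · intro T hT n a hM i hi
      set C := (t + 1) ^ (R + 1) + R * t * (t + 1) ^ R + (R + 1) * t with hC
      have hC1 : 1 ≤ (t + 1) ^ (R + 1) := Nat.one_le_pow _ _ (by omega)
      have hCT : C ≤ C * T := Nat.le_mul_of_pos_right _ hT
      have h1 := RM_diff_zero hts n a i (by omega) (by have := hM.deg; omega)
      refine ⟨h1.1, ?_⟩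
      have h2 := RM_zero_lower n a (C * T) hM
      have h3 : (T : ℤ) * (RM R 0 n a - RM R 0 n (dn i a)) ≤ T * (t + 1) ^ (R + 1) :=
        mul_le_mul_of_nonneg_left h1.2 (Int.natCast_nonneg _)
      have h4 : ((C * T : ℕ) : ℤ) = T * (t + 1) ^ (R + 1) + T * (R * t * (t + 1) ^ R) +
          T * ((R + 1) * t) := by
        rw [hC]
        push_cast
        ring
      rw [h4] at h2
      have h5 : (R : ℤ) * t * (t + 1) ^ R ≤ T * (R * t * (t + 1) ^ R) := by
        have : (0 : ℤ) ≤ R * t * (t + 1) ^ R := by positivity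
        have hT' : (1 : ℤ) ≤ T := by exact_mod_cast hT
        nlinarith only [hT, this]
      have h6 : (0 : ℤ) ≤ T * ((R + 1) * t) := by positivity
      linarith only [h2, h3, h5, h6]
  | succ j ih =>
    obtain ⟨C, hC1, hC⟩ := ih (by omega)
    obtain ⟨C1, hC11, hC1s⟩ := tau_slow (t + 1) (R - (j + 1)) j (by omega)
    refine ⟨4 * C + 4 * C1 + R * t + 3, by omega, ?_⟩
    intro T hT n a hM i hi
    -- the margins of the lowered states
    have hTa : ∀ v, v ≤ 2 * T →
        Mg R ((4 * C + R * t + 1) * T) n (NumSlow_low a i v) := by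
      intro v hv
      refine NumSlow_mg ht hR hts hM ?_ ?_ i ?_
      · exact Nat.mul_le_mul_right _ (by omega)
      · calc R * t ≤ 4 * C + R * t + 1 := by omega
          _ ≤ (4 * C + R * t + 1) * T := Nat.le_mul_of_pos_right _ hT
      · refine le_trans ?_ hi
        have e1 : (4 * C + 4 * C1 + R * t + 3) * T =
          (4 * C + R * t + 1) * T + 2 * T + 4 * C1 * T := by ring
        rw [e1]
        omega
    have hai : ∀ v, v ≤ 2 * T → (4 * C + R * t + 1) * T ≤ NumSlow_low a i v i := by
      intro v hv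
      rw [NumSlow_low_self]
      have e1 : (4 * C + 4 * C1 + R * t + 3) * T =
          (4 * C + R * t + 1) * T + 2 * T + 4 * C1 * T := by ring
      rw [e1] at hi
      omega
    have hT1 : 1 ≤ (4 * C + R * t + 1) * T := Nat.mul_pos (by omega) hT
    have hpos : ∀ v, v ≤ 2 * T → ∀ j' ≤ R, 1 ≤ RM R j' n (NumSlow_low a i v) := by
      intro v hv j' hj'
      exact RM_pos ht hR hts j' hj' (Or.inr ((hTa v hv).le hT1))
    rcases i with _ | l
    · -- direction of the curve
      have hd : ∀ v, v ≤ 2 * T → RM R (j + 1) n (NumSlow_low a none v) =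
          RM R (j + 1) n (NumSlow_low a none (v + 1)) + RM R j n (NumSlow_low a none v) := by
        intro v hv
        have e1 := RM_diff_none (j + 1) (by omega) hj n (NumSlow_low a none v)
          (by have := hai v hv; omega)
        rw [NumSlow_dn_low, Nat.add_sub_cancel] at e1
        exact e1
      -- slow variation of `RM R j`
      have hs : ∀ v, v ≤ 2 * T →
          (4 * T : ℤ) * (RM R j n (NumSlow_low a none 0) - RM R j n (NumSlow_low a none v)) ≤
            v * RM R j n (NumSlow_low a none 0) ∧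
          RM R j n (NumSlow_low a none v) ≤ RM R j n (NumSlow_low a none 0) := by
        intro v
        induction v with
        | zero => intro _; simp
        | succ v ihv =>
          intro hv
          obtain ⟨e1, e2⟩ := ihv (by omega)
          have hm : C * (4 * T) ≤ (4 * C + R * t + 1) * T := by
            have : (4 * C + R * t + 1) * T = C * (4 * T) + (R * t + 1) * T := by ring
            omega
          obtain ⟨e3, e4⟩ := hC (4 * T) (by omega) n (NumSlow_low a none v)
            ((hTa v (by omega)).le hm) none (hm.trans (hai v (by omega)))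
          rw [NumSlow_dn_low] at e3 e4
          push_cast at e4
          constructor
          · push_cast
            nlinarith only [e1, e2, e4]
          · linarith only [e2, e3]
      have key := NumSlow_sum (fun v => RM R (j + 1) n (NumSlow_low a none v))
        (fun v => RM R j n (NumSlow_low a none v)) T (fun v hv => hd v (by omega))
        (by
          intro v hv
          obtain ⟨e1, -⟩ := hs v (by omega)
          have e2 := hpos 0 (by omega) j (by omega)
          have hT' : (1 : ℤ) ≤ T := by exact_mod_cast hT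
          have hv' : (v : ℤ) ≤ 2 * T := by
            have : v ≤ 2 * T := by omega
            exact_mod_cast this
          have e3 : (v : ℤ) * RM R j n (NumSlow_low a none 0) ≤
              2 * T * RM R j n (NumSlow_low a none 0) :=
            mul_le_mul_of_nonneg_right hv' (by linarith only [e2])
          have e4 : (2 * T : ℤ) *
              (2 * (RM R j n (NumSlow_low a none 0) - RM R j n (NumSlow_low a none v))) ≤
              2 * T * RM R j n (NumSlow_low a none 0) := by linarith only [e1, e3]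
          have e5 := le_of_mul_le_mul_left e4 (by linarith only [hT])
          linarith only [e5])
        (by have := hpos (2 * T) le_rfl (j + 1) hj; linarith)
      have h0 := hd 0 (by omega)
      have hp0 := hpos 0 (by omega) j (by omega)
      have hdn : dn none a = NumSlow_low a none (0 + 1) := by
        rw [← NumSlow_dn_low, NumSlow_low_zero]
      rw [hdn]
      rw [NumSlow_low_zero] at key h0 hp0
      constructor
      · linarith only [h0, hp0]
      · have e6 : RM R (j + 1) n a - RM R (j + 1) n (NumSlow_low a none (0 + 1)) =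
            RM R j n a := by linarith only [h0]
        rw [e6]
        exact key
    · -- the other directions
      have hla : ∀ v, v ≤ 2 * T → v ≤ a (some l) := by
        intro v hv
        have := hai (2 * T) le_rfl
        rw [NumSlow_low_self] at this
        omega
      set f : ℕ → ℤ := fun v =>
        (tau (t + 1) (R - (j + 1)) (j + 1) (dd (NumSlow_low a (some l) v)) : ℤ) -
          ell (j + 1) (mu n (NumSlow_low a (some l) v) (.inl l)) with hf
      have hd : ∀ v, v ≤ 2 * T → RM R (j + 1) n (NumSlow_low a (some l) v) =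
          RM R (j + 1) n (NumSlow_low a (some l) (v + 1)) + f v := by
        intro v hv
        have e1 := RM_diff_some (R := R) (j + 1) (by omega) n (NumSlow_low a (some l) v) l
          (by have := hai v hv; omega)
        rw [NumSlow_dn_low] at e1
        exact e1
      have hmt : mu n a (.inl l) + C1 * (4 * T) ≤ dd a := by
        have e1 := hM.line l
        have e2 : (4 * C + 4 * C1 + R * t + 3) * T =
          C1 * (4 * T) + (4 * C + R * t + 3) * T := by ring
        rw [e2] at e1
        omega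
      have hslow := hC1s (4 * T) (dd a) (mu n a (.inl l)) (by omega) hmt
      have hslow' : (4 * T : ℤ) * tau (t + 1) (R - (j + 1)) j (dd a) ≤ f 0 := by
        rw [hf]
        dsimp only
        rw [NumSlow_low_zero]
        have : (((4 * T * tau (t + 1) (R - (j + 1)) j (dd a) + ell (j + 1) (mu n a (.inl l)) :
          ℕ)) : ℤ) ≤ (tau (t + 1) (R - (j + 1)) (j + 1) (dd a) : ℕ) := by exact_mod_cast hslow
        push_cast at this
        linarith only [hslow]
      have hdrop : ∀ v, v ≤ 2 * T →
          f 0 ≤ f v + v * tau (t + 1) (R - (j + 1)) j (dd a) := by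
        intro v hv
        have e1 := NumSlow_dd a l v (hla v hv)
        have e2 := tau_drop (t + 1) (R - (j + 1)) j
          (by omega : dd (NumSlow_low a (some l) v) ≤ dd a)
        have e3 : dd a - dd (NumSlow_low a (some l) v) = v := by omega
        rw [e3] at e2
        have e4 : ell (j + 1) (mu n (NumSlow_low a (some l) v) (.inl l)) ≤
            ell (j + 1) (mu n a (.inl l)) :=
          NumSlow_ell_mono _ (mu_mono (NumSlow_low_le a (some l) v) _)
        rw [hf]
        dsimp only
        rw [NumSlow_low_zero]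
        have e5 : ((tau (t + 1) (R - (j + 1)) (j + 1) (dd a) : ℕ) : ℤ) ≤
            ((tau (t + 1) (R - (j + 1)) (j + 1) (dd (NumSlow_low a (some l) v)) +
              v * tau (t + 1) (R - (j + 1)) j (dd a) : ℕ) : ℤ) := by exact_mod_cast e2
        have e6 : ((ell (j + 1) (mu n (NumSlow_low a (some l) v) (.inl l)) : ℕ) : ℤ) ≤
            (ell (j + 1) (mu n a (.inl l)) : ℕ) := by exact_mod_cast e4
        push_cast at e5
        linarith only [e2, e4]
      have hT' : (1 : ℤ) ≤ T := by exact_mod_cast hT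
      have htau : (0 : ℤ) ≤ tau (t + 1) (R - (j + 1)) j (dd a) := Int.natCast_nonneg _
      have hf0 : 0 ≤ f 0 := by
        refine le_trans ?_ hslow'
        positivity
      have key := NumSlow_sum (fun v => RM R (j + 1) n (NumSlow_low a (some l) v)) f T
        (fun v hv => hd v (by omega))
        (by
          intro v hv
          have e1 := hdrop v (by omega)
          have hv' : (v : ℤ) ≤ 2 * T := by
            have : v ≤ 2 * T := by omega
            exact_mod_cast this
          have e2 : (v : ℤ) * tau (t + 1) (R - (j + 1)) j (dd a) ≤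
              2 * T * tau (t + 1) (R - (j + 1)) j (dd a) :=
            mul_le_mul_of_nonneg_right hv' htau
          have e3 : (4 * T : ℤ) * tau (t + 1) (R - (j + 1)) j (dd a) =
            2 * (2 * T * tau (t + 1) (R - (j + 1)) j (dd a)) := by ring
          rw [e3] at hslow'
          linarith only [hslow', e1, e2])
        (by have := hpos (2 * T) le_rfl (j + 1) hj; linarith only [this])
      have h0 := hd 0 (by omega)
      have hdn : dn (some l) a = NumSlow_low a (some l) (0 + 1) := by
        rw [← NumSlow_dn_low, NumSlow_low_zero]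
      rw [hdn]
      rw [NumSlow_low_zero] at key h0
      constructor
      · linarith only [hf0, h0]
      · have e6 : RM R (j + 1) n a - RM R (j + 1) n (NumSlow_low a (some l) (0 + 1)) =
            f 0 := by linarith only [h0]
        rw [e6]
        exact key

end Pool.Agent.H18.Pr

end

section

/-!
# Module NumFM (PR): the sizes of the traces of the main family
-/

namespace Pool.Agent.H18.Pr

open Finset Pool.Agent.H18.Ex Pool.Agent.H18.Cub

variable {R t s : ℕ}

/-! ### Auxiliary facts -/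

private theorem fm_choose_lt (j : ℕ) (hj : 1 ≤ j) (x : ℕ) (hx : j ≤ x + 1) (k : ℕ) :
    x.choose j + k ≤ (x + k).choose j := by
  induction k with
  | zero => simp
  | succ k ih =>
    obtain ⟨i, rfl⟩ : ∃ i, j = i + 1 := ⟨j - 1, by omega⟩
    have h1 : (x + k + 1).choose (i + 1) = (x + k).choose i + (x + k).choose (i + 1) :=
      Nat.choose_succ_succ _ _
    have h2 : 1 ≤ (x + k).choose i := Nat.choose_pos (by omega)
    have h3 : x + (k + 1) = x + k + 1 := by ring
    rw [h3, h1]
    omega

/-- A point of multiplicity `m ≤ d` leaves at least `d - m + 1` dimensions. -/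
private theorem fm_tau_ell (e A j d m D : ℕ) (he : 1 ≤ e) (hj : 1 ≤ j) (h : m + D ≤ d) :
    ell j m + D + 1 ≤ tau e A j d := by
  refine le_trans ?_ (choose_le_tau e A j d he)
  unfold ell
  rcases Nat.eq_zero_or_pos m with rfl | hm
  · have h1 : (0 + j - 1).choose j = 0 := Nat.choose_eq_zero_of_lt (by omega)
    rw [h1]
    have h2 := fm_choose_lt j hj j (by omega) d
    rw [Nat.choose_self] at h2
    rw [add_comm d j]
    omega
  · have h2 := fm_choose_lt j hj (m + j - 1) (by omega) (d - m + 1)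
    have h3 : m + j - 1 + (d - m + 1) = d + j := by omega
    rw [h3] at h2
    omega

/-- Lower bound for the virtual dimensions. -/
private theorem fm_RM_lower (ht : 1 ≤ t) (hR : 1 ≤ R) (hts : t + s = (t + 1) ^ (R + 1)) (j : ℕ)
    (hj : j ≤ R) : ∃ C : ℕ, 1 ≤ C ∧ ∀ (D : ℕ) (n : Fin t ⊕ Fin s → ℕ)
      (a : Option (Fin t) → ℕ), C ≤ D → Mg R D n a → C ≤ a none → (D : ℤ) ≤ RM R j n a + C := by
  induction j with
  | zero =>
    refine ⟨R * t * (t + 1) ^ R + 1, by omega, fun D n a _ h _ => ?_⟩
    have h1 := RM_zero_lower n a D h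
    push_cast
    linarith
  | succ j ih =>
    obtain ⟨C, hC1, hC⟩ := ih (by omega)
    obtain ⟨C', hC'1, hC'⟩ := RM_slow (s := s) ht hR hts (j + 1) hj
    refine ⟨C + C', by omega, fun D n a hD h ha => ?_⟩
    have h1 := hC D n a (by omega) h (by omega)
    have h2 := (hC' 1 le_rfl n a (h.le (by omega)) none (by omega)).2
    have h3 := RM_diff_none (j + 1) (by omega) hj n a (by omega)
    rw [Nat.add_sub_cancel] at h3
    push_cast at h2 ⊢
    linarith

/-- The trace on the curve is a virtual dimension. -/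
private theorem fm_none (ht : 1 ≤ t) (hR : 1 ≤ R) (hts : t + s = (t + 1) ^ (R + 1)) (j : ℕ)
    (hj1 : 1 ≤ j) (hj : j ≤ R) {n : Fin t ⊕ Fin s → ℕ} {a : Option (Fin t) → ℕ}
    (h : Mg R 1 n a) : (FM R j n none a : ℤ) = RM R (j - 1) n a := by
  have h1 := RM_pos (s := s) ht hR hts (j - 1) (by omega) (Or.inr h)
  unfold RM at h1 ⊢
  have h2 : R - (j - 1) = R + 1 - j := by omega
  have h3 : j - 1 + 1 = j := by omega
  rw [h2, h3] at h1 ⊢
  have h4 : FM R j n none a =
      tau (t + 1) (R + 1 - j) j (dd a) - ∑ b, ell j (mu n a b) := rfl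
  rw [h4]
  have h5 : ((∑ b, ell j (mu n a b) : ℕ) : ℤ) = ∑ b, (ell j (mu n a b) : ℤ) := by push_cast; rfl
  rw [← h5] at h1 ⊢
  omega

/-- The size of the traces, from below. -/
theorem FM_lower (ht : 1 ≤ t) (hR : 1 ≤ R) (hts : t + s = (t + 1) ^ (R + 1)) (j : ℕ)
    (hj1 : 1 ≤ j) (hj : j ≤ R) : ∃ C : ℕ, 1 ≤ C ∧ ∀ (D : ℕ) (n : Fin t ⊕ Fin s → ℕ)
      (a : Option (Fin t) → ℕ), C ≤ D → Mg R D n a → ∀ i, C ≤ a i → D ≤ FM R j n i a + C := by
  obtain ⟨C, hC1, hC⟩ := fm_RM_lower (s := s) ht hR hts (j - 1) (by omega)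
  refine ⟨C, hC1, fun D n a hD h i hi => ?_⟩
  rcases i with _ | l
  · have h1 := hC D n a hD h hi
    have h2 := fm_none (s := s) ht hR hts j hj1 hj (h.le (by omega))
    rw [← h2] at h1
    exact_mod_cast h1
  · have h1 := fm_tau_ell (t + 1) (R - j) j (dd a) (mu n a (.inl l)) D (by omega) hj1 (h.line l)
    have h2 : FM R j n (some l) a = tau (t + 1) (R - j) j (dd a) - ell j (mu n a (.inl l)) := rfl
    omega

/-- The differences are the sizes of the traces. -/
theorem FM_eq (ht : 1 ≤ t) (hR : 1 ≤ R) (hts : t + s = (t + 1) ^ (R + 1)) (j : ℕ)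
    (hj1 : 1 ≤ j) (hj : j ≤ R) {n : Fin t ⊕ Fin s → ℕ} {a : Option (Fin t) → ℕ}
    (h : Mg R 1 n a) (i : Option (Fin t)) (ha : 1 ≤ a i) :
    (FM R j n i a : ℤ) = RM R j n a - RM R j n (dn i a) := by
  rcases i with _ | l
  · rw [fm_none (s := s) ht hR hts j hj1 hj h, RM_diff_none j hj1 hj n a ha]
    ring
  · have h1 := fm_tau_ell (t + 1) (R - j) j (dd a) (mu n a (.inl l)) 1 (by omega) hj1 (h.line l)
    have h2 : FM R j n (some l) a = tau (t + 1) (R - j) j (dd a) - ell j (mu n a (.inl l)) := rfl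
    rw [RM_diff_some j hj1 n a l ha, h2]
    omega

/-- Sums of small drops along a path from `b` down to `a`. -/
private theorem fm_path {Λ : Type} [Fintype Λ] [DecidableEq Λ] (F : (Λ → ℕ) → ℕ) (T : ℕ)
    (a : Λ → ℕ) (q : ℕ) : ∀ b : Λ → ℕ, ∑ k, (b k - a k) = q → (∀ i, a i ≤ b i) →
      (∀ c : Λ → ℕ, (∀ i, a i ≤ c i) → (∀ i, c i ≤ b i) → ∀ k, a k < c k →
        F (dn k c) ≤ F c ∧ T * F c ≤ T * F (dn k c) + F c) →
      F a ≤ F b ∧ T * F b ≤ T * F a + q * F b := by
  induction q with
  | zero =>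
    intro b hq hab _
    have h1 : b = a := by
      funext k
      have h2 := (sum_eq_zero_iff.1 hq) k (mem_univ k)
      have h3 := hab k
      omega
    subst h1
    refine ⟨le_rfl, ?_⟩
    omega
  | succ q ih =>
    intro b hq hab H
    obtain ⟨k, -, hk⟩ : ∃ k ∈ (univ : Finset Λ), b k - a k ≠ 0 := by
      apply exists_ne_zero_of_sum_ne_zero
      omega
    have hk' : a k < b k := by omega
    have hab' : ∀ i, a i ≤ dn k b i := by
      intro i
      by_cases hi : i = k
      · subst hi
        rw [dn_self]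
        omega
      · rw [dn_ne hi]
        exact hab i
    have hsum : ∑ i, (dn k b i - a i) = q := by
      have h1 := add_sum_erase univ (fun i => b i - a i) (mem_univ k)
      have h2 := add_sum_erase univ (fun i => dn k b i - a i) (mem_univ k)
      have h3 : ∑ i ∈ univ.erase k, (dn k b i - a i) = ∑ i ∈ univ.erase k, (b i - a i) :=
        sum_congr rfl fun i hi => by rw [dn_ne (ne_of_mem_erase hi)]
      simp only [dn_self] at h2
      rw [h3] at h2
      omega
    obtain ⟨h1, h2⟩ := ih (dn k b) hsum hab' fun c hc1 hc2 k' hk' =>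
      H c hc1 (fun i => (hc2 i).trans (dn_le k b i)) k' hk'
    obtain ⟨h3, h4⟩ := H b hab (fun _ => le_rfl) k hk'
    refine ⟨h1.trans h3, ?_⟩
    have h5 : q * F (dn k b) ≤ q * F b := Nat.mul_le_mul_left _ h3
    have h6 : (q + 1) * F b = q * F b + F b := by ring
    omega

private theorem fm_dd_dn (c : Option (Fin t) → ℕ) (k : Option (Fin t)) (hk : 1 ≤ c k) :
    dd (dn k c) + 1 ≤ dd c ∧ dd c ≤ dd (dn k c) + (t + 1) := by
  rcases k with _ | l
  · have h1 := dd_dn_none c hk
    have h2 := inst_le_dd_none c hk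
    omega
  · have h1 := dd_dn_some c l hk
    have h2 := inst_le_dd_some c l hk
    omega

private theorem fm_mu_dn (n : Fin t ⊕ Fin s → ℕ) (c : Option (Fin t) → ℕ) (k : Option (Fin t))
    (b : Fin t ⊕ Fin s) : mu n c b ≤ mu n (dn k c) b + 1 ∧ mu n (dn k c) b ≤ mu n c b := by
  have h1 : uu (s := s) c b ≤ uu (dn k c) b + 1 ∧ uu (s := s) (dn k c) b ≤ uu c b := by
    rcases b with l | b
    · simp only [uu]
      by_cases h0 : (none : Option (Fin t)) = k
      · subst h0
        rw [dn_self, dn_ne (by simp : (some l : Option (Fin t)) ≠ none)]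
        omega
      · rw [dn_ne h0]
        have h2 := dn_le k c (some l)
        have h3 : c (some l) ≤ dn k c (some l) + 1 := by
          by_cases h4 : some l = k
          · subst h4
            rw [dn_self]
            omega
          · rw [dn_ne h4]
            omega
        omega
    · simp only [uu]
      have h2 := dn_le k c none
      have h3 : c none ≤ dn k c none + 1 := by
        by_cases h4 : none = k
        · subst h4
          rw [dn_self]
          omega
        · rw [dn_ne h4]
          omega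
      omega
  simp only [mu]
  omega

private theorem fm_ell_mono (j : ℕ) {m m' : ℕ} (h : m ≤ m') : ell j m ≤ ell j m' :=
  Nat.choose_le_choose _ (by omega)

private theorem fm_ell_sub (j m : ℕ) : ell (j + 1) m ≤ ell (j + 1) (m - 1) + ell j m := by
  unfold ell
  rcases Nat.eq_zero_or_pos m with rfl | hm
  · simp
  · obtain ⟨k, rfl⟩ : ∃ k, m = k + 1 := ⟨m - 1, by omega⟩
    have h1 : k + 1 + (j + 1) - 1 = k + j + 1 := by omega
    have h2 : k + 1 - 1 + (j + 1) - 1 = k + j := by omega
    have h3 : k + 1 + j - 1 = k + j := by omega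
    rw [h1, h2, h3, Nat.choose_succ_succ]
    exact le_of_eq (Nat.add_comm _ _)

/-- One step for the traces on the hyperplanes `x_0 = l + 1`. -/
private theorem fm_step_some (j : ℕ) : ∃ C : ℕ, 1 ≤ C ∧ ∀ T : ℕ, 1 ≤ T →
    ∀ (n : Fin t ⊕ Fin s → ℕ) (c : Option (Fin t) → ℕ) (l : Fin t) (k : Option (Fin t)),
      mu n c (.inl l) + C * T ≤ dd c → 1 ≤ c k →
      FM R (j + 1) n (some l) (dn k c) ≤ FM R (j + 1) n (some l) c ∧
      T * FM R (j + 1) n (some l) c ≤
        T * FM R (j + 1) n (some l) (dn k c) + FM R (j + 1) n (some l) c := by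
  obtain ⟨C, hC1, hC⟩ := tau_slow (t + 1) (R - (j + 1)) j (by omega)
  refine ⟨C * (t + 1), Nat.mul_pos hC1 (by omega), fun T hT n c l k hmu hk => ?_⟩
  have hF : ∀ c', FM R (j + 1) n (some l) c' =
    tau (t + 1) (R - (j + 1)) (j + 1) (dd c') - ell (j + 1) (mu n c' (.inl l)) := fun _ => rfl
  rw [hF, hF]
  set e := t + 1 with he
  set A := R - (j + 1) with hA
  obtain ⟨hd1, hd2⟩ := fm_dd_dn c k hk
  obtain ⟨hm1, hm2⟩ := fm_mu_dn n c k (.inl l)
  set m := mu n c (.inl l) with hm
  set m' := mu n (dn k c) (.inl l) with hm'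
  set d := dd c with hd
  set d' := dd (dn k c) with hd'
  have h1 : (T * e) * tau e A j d + ell (j + 1) m ≤ tau e A (j + 1) d := by
    refine hC (T * e) d m (Nat.mul_pos hT (by omega)) ?_
    have h2 : C * (T * e) = C * e * T := by ring
    omega
  have h2 : tau e A (j + 1) d ≤ tau e A (j + 1) d' + (d - d') * tau e A j d :=
    tau_drop e A j (by omega)
  have h3 : (d - d') * tau e A j d ≤ e * tau e A j d := Nat.mul_le_mul_right _ (by omega)
  have h4 : ell (j + 1) m' ≤ ell (j + 1) m := fm_ell_mono _ hm2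
  have h5 : tau e A (j + 1) (d - 1 + 1) = tau e A (j + 1) (d - 1) + tau e A j (d - 1 + 1) :=
    tau_succ e A j (d - 1)
  have hd0 : d - 1 + 1 = d := by omega
  rw [hd0] at h5
  have h6 : tau e A (j + 1) d' ≤ tau e A (j + 1) (d - 1) := tau_mono e A (j + 1) (by omega)
  have h7 : ell (j + 1) m ≤ ell (j + 1) (m - 1) + ell j m := fm_ell_sub j m
  have h8 : ell (j + 1) (m - 1) ≤ ell (j + 1) m' := fm_ell_mono _ (by omega)
  have h9 : ell j m ≤ tau e A j d := by
    rcases Nat.eq_zero_or_pos j with rfl | hj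
    · have : ell 0 m = 1 := by
        unfold ell
        exact Nat.choose_zero_right _
      rw [this]
      exact tau_pos e A 0 d (by omega)
    · have := ell_lt_tau e A j d m (by omega) hj (by
        have : 0 ≤ C * e * T := Nat.zero_le _
        omega)
      omega
  refine ⟨by omega, ?_⟩
  -- `F c - F (dn k c) ≤ e * tau e A j d` and `T * e * tau e A j d ≤ F c`
  have h10 : T * e * tau e A j d = T * (e * tau e A j d) := by ring
  have h11 : tau e A (j + 1) d - ell (j + 1) m ≤
      (tau e A (j + 1) d' - ell (j + 1) m') + e * tau e A j d := by omega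
  have h12 : T * (tau e A (j + 1) d - ell (j + 1) m) ≤
      T * ((tau e A (j + 1) d' - ell (j + 1) m') + e * tau e A j d) :=
    Nat.mul_le_mul_left _ h11
  rw [mul_add] at h12
  omega

/-- Multi-step version of the slow variation of the traces: from `a` up to `b ≤ N`. -/
theorem FM_drop (ht : 1 ≤ t) (hR : 1 ≤ R) (hts : t + s = (t + 1) ^ (R + 1)) (j : ℕ)
    (hj1 : 1 ≤ j) (hj : j ≤ R) : ∃ C : ℕ, 1 ≤ C ∧ ∀ T : ℕ, 1 ≤ T →
      ∀ (n : Fin t ⊕ Fin s → ℕ) (N a b : Option (Fin t) → ℕ) (Ta : ℕ), C * T ≤ Ta →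
      Mg R Ta n N → Reg N Ta a → (∀ i, a i ≤ b i) → (∀ i, b i ≤ N i) → ∀ i, Ta ≤ a i →
      T * FM R j n i b ≤ T * FM R j n i a + (∑ k, (b k - a k)) * FM R j n i b := by
  obtain ⟨i, rfl⟩ : ∃ i, j = i + 1 := ⟨j - 1, by omega⟩
  obtain ⟨C1, hC11, hC1⟩ := RM_slow (s := s) ht hR hts i (by omega)
  obtain ⟨C2, hC21, hC2⟩ := fm_step_some (t := t) (s := s) (R := R) i
  refine ⟨C1 + C2 + R * t, by omega, ?_⟩
  intro T hT n N a b Ta hTa hN ha hab hbN i' hi'
  have hCT1 : C1 * T ≤ Ta := by
    have : C1 * T ≤ (C1 + C2 + R * t) * T := Nat.mul_le_mul_right _ (by omega)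
    omega
  have hCT2 : C2 * T ≤ Ta := by
    have : C2 * T ≤ (C1 + C2 + R * t) * T := Nat.mul_le_mul_right _ (by omega)
    omega
  have hRt : R * t ≤ Ta := by
    have h1 : R * t * 1 ≤ (C1 + C2 + R * t) * T := Nat.mul_le_mul (by omega) hT
    omega
  have hTa1 : 1 ≤ Ta := by
    have h1 : 1 * 1 ≤ C1 * T := Nat.mul_le_mul hC11 hT
    omega
  -- margins of all states between `a` and `b`
  have hreg : ∀ c : Option (Fin t) → ℕ, (∀ i, a i ≤ c i) → (∀ i, c i ≤ b i) → Mg R Ta n c := by
    intro c hc1 hc2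
    exact hN.reg ht hR hts le_rfl hRt fun i => ⟨(ha i).1.trans (hc1 i), (hc2 i).trans (hbN i)⟩
  have hbig : ∀ c : Option (Fin t) → ℕ, (∀ i, c i ≤ b i) → ∀ k, a k < c k → Ta + 1 ≤ c k := by
    intro c hc2 k hk
    have h1 := (ha k).1
    have h2 := (hc2 k).trans (hbN k)
    omega
  have hdn : ∀ c : Option (Fin t) → ℕ, (∀ i, a i ≤ c i) → ∀ k, a k < c k →
      ∀ i, a i ≤ dn k c i := by
    intro c hc1 k hk i
    by_cases hi : i = k
    · subst hi
      rw [dn_self]
      omega
    · rw [dn_ne hi]
      exact hc1 i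
  refine (fm_path (fun c => FM R (i + 1) n i' c) T a _ b rfl hab ?_).2
  intro c hc1 hc2 k hk
  have hMc := hreg c hc1 hc2
  have hk1 := hbig c hc2 k hk
  rcases i' with _ | l
  · have hMd := hreg (dn k c) (hdn c hc1 k hk) fun i => (dn_le k c i).trans (hc2 i)
    have h1 := hC1 T hT n c (hMc.le hCT1) k (by omega)
    have h2 := fm_none (s := s) ht hR hts (i + 1) (by omega) hj (hMc.le hTa1)
    have h3 := fm_none (s := s) ht hR hts (i + 1) (by omega) hj (hMd.le hTa1)
    rw [Nat.add_sub_cancel] at h2 h3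
    rw [← h2, ← h3] at h1
    constructor
    · have := h1.1
      omega
    · have h4 := h1.2
      have h5 : ((T * FM R (i + 1) n none c : ℕ) : ℤ) ≤
          ((T * FM R (i + 1) n none (dn k c) + FM R (i + 1) n none c : ℕ) : ℤ) := by
        push_cast
        linarith
      exact_mod_cast h5
  · have h1 := hMc.line l
    exact hC2 T hT n c l k (by omega) (by omega)

end Pool.Agent.H18.Pr

end
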