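import Pool.Agent.H94.LP3.M24
import Pool.Agent.H94.LP3.M55

/-! The parts of this file: H18.Pr.SchedN, H18.Pr.PolyBL. -/

section

/-!
# Module SchedN: the schedule (abstract version, traces of dimension `n`)

Always peel a direction with maximal `a l`, until all `a l ≤ T'`; then clean.
-/

namespace Pool.Agent.H18.Pr

open Finset Pool.Agent.H18.Ex Pool.Agent.H18.Cub

variable {Λ : Type} [Fintype Λ] [DecidableEq Λ] {n : ℕ}

/-- The required size of the traces. -/
def TT (n M c : ℕ) : ℕ :=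
  16 * M * (c * (2 * M + 3) + ell n M ^ 2 + M * ell n M ^ 2) + 8 * ell (n + 1) M + 8

/-- The numerical properties of a Horace system below the state `N`. -/
structure NumR (Y : SysN Λ n) (M T Ta : ℕ) (N : Λ → ℕ) : Prop where
  hn : 1 ≤ n
  hM : 1 ≤ M
  hTa : 1 ≤ Ta
  hT : TT n M (Fintype.card Λ) ≤ T
  drop : ∀ a b l, Reg N Ta a → Ta ≤ a l → (∀ i, a i ≤ b i) → (∀ i, b i ≤ N i) →
    T * Y.F l b ≤ T * Y.F l a + (∑ i, (b i - a i)) * Y.F l b
  floor : ∀ a l, Reg N Ta a → Ta ≤ a l → T ≤ Y.F l a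
  rlow : ∀ a l, Reg N Ta a → Ta ≤ a l → (T : ℤ) * Y.F l a ≤ Y.R a
  full : ∀ a, Reg N Ta a → FullN Y a
  gd : ∀ a l, Reg N Ta a → Ta ≤ a l → Y.Gd M l a

/-- The bound for the traces of the forced conditions. -/
def BdN (n M φ X : ℕ) : Prop := 2 * M * φ + X ≤ 2 * M * X + 2 * M * ell n M ^ 2

theorem BdN_nphi {M : ℕ} (hM : 1 ≤ M) (f : ℕ) : BdN n M (nphi n M f) f := by
  unfold BdN nphi
  have h1 : M * ((M - 1) * f / M) ≤ (M - 1) * f := Nat.mul_div_le _ _
  have h2 : 2 * M * ((M - 1) * f / M + ell n M ^ 2) =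
      2 * (M * ((M - 1) * f / M)) + 2 * M * ell n M ^ 2 := by ring
  have h3 : 2 * ((M - 1) * f) + 2 * f = 2 * M * f := by
    obtain ⟨k, rfl⟩ : ∃ k, M = k + 1 := ⟨M - 1, by omega⟩
    rw [Nat.add_sub_cancel]
    ring
  omega

/-- The number of steps allowed between two uses of a direction. -/
def KK (Λ : Type) [Fintype Λ] (M : ℕ) : ℕ := Fintype.card Λ * (2 * M + 3)

/-- The bound `φ` for the direction `l` at the state `a`, with slack `s`. -/
def Act (Y : SysN Λ n) (M Ta : ℕ) (N a φ : Λ → ℕ) (s : ℕ) (l : Λ) : Prop :=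
  φ l = 0 ∨ (Ta ≤ a l ∧ ∃ b : Λ → ℕ, (∀ i, a i ≤ b i) ∧ (∀ i, b i ≤ N i) ∧
    ∑ i, (b i - a i) ≤ s ∧ BdN n M (φ l) (Y.F l b))

/-- The key estimates. -/
theorem NumR.key {Y : SysN Λ n} {M T Ta : ℕ} {N : Λ → ℕ} (H : NumR Y M T Ta N)
    {a φ : Λ → ℕ} {s : ℕ} (hreg : Reg N Ta a) (hs : s ≤ KK Λ M)
    (hφ : ∀ l, Act Y M Ta N a φ s l) (l : Λ) (hl : Ta ≤ a l) :
    φ l + g0 n M * ell n M ≤ Y.F l a ∧
    ((M * ∑ i, φ i + ell (n + 1) M * (Y.F l a + g0 n M) + Y.F l a : ℕ) : ℤ) ≤ Y.R a ∧
    ((∑ i, φ i : ℕ) : ℤ) ≤ Y.R a := by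
  have hM := H.hM
  have hT := H.hT
  set L := ell (n + 1) M with hL
  set L' := ell n M with hL'
  have hL'1 : 1 ≤ L' := ell_pos _ hM
  have hg : g0 n M = M * L' := rfl
  set c := Fintype.card Λ with hc
  have hTT : TT n M c = 16 * M * (c * (2 * M + 3)) + 16 * M * L' ^ 2 + 16 * M * (M * L' ^ 2) +
      8 * L + 8 := by
    unfold TT
    rw [← hL, ← hL']
    ring
  rw [hTT] at hT
  have hK : KK Λ M = c * (2 * M + 3) := rfl
  rw [hK] at hs
  have hsT : 16 * M * s ≤ T := by
    have : 16 * M * s ≤ 16 * M * (c * (2 * M + 3)) := Nat.mul_le_mul_left _ hs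
    omega
  have hR1 := (H.full a hreg).1
  -- every `φ i` is small
  have hφF : ∀ i, φ i ≠ 0 → 2 * M * φ i + 2 * M * (M * L' ^ 2) ≤ 2 * M * Y.F i a := by
    intro i hi
    rcases hφ i with h | ⟨h1, b, h2, h3, h4, h5⟩
    · exact absurd h hi
    · have h6 := H.drop a b i hreg h1 h2 h3
      have h7 : Reg N Ta b := fun j => ⟨(hreg j).1.trans (h2 j), h3 j⟩
      have h8 := H.floor b i h7 (h1.trans (h2 i))
      unfold BdN at h5
      rw [← hL'] at h5
      set X := Y.F i b with hX
      have h9 : 16 * M * X ≤ 16 * M * Y.F i a + X := by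
        have h10 : T * (16 * M * X) ≤ T * (16 * M * Y.F i a + X) := by
          calc T * (16 * M * X) = 16 * M * (T * X) := by ring
            _ ≤ 16 * M * (T * Y.F i a + (∑ j, (b j - a j)) * X) := Nat.mul_le_mul_left _ h6
            _ = T * (16 * M * Y.F i a) + 16 * M * (∑ j, (b j - a j)) * X := by ring
            _ ≤ T * (16 * M * Y.F i a) + T * X := by
              apply Nat.add_le_add_left
              apply Nat.mul_le_mul_right
              exact (Nat.mul_le_mul_left _ h4).trans hsT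
            _ = T * (16 * M * Y.F i a + X) := by ring
        exact Nat.le_of_mul_le_mul_left h10 (by omega)
      have h11 : 16 * M * L' ^ 2 = 8 * (2 * M * L' ^ 2) := by ring
      have h12 : 16 * M * (M * L' ^ 2) = 8 * (2 * M * (M * L' ^ 2)) := by ring
      have h13 : 16 * M * X = 8 * (2 * M * X) := by ring
      have h14 : 16 * M * Y.F i a = 8 * (2 * M * Y.F i a) := by ring
      omega
  have hφle : ∀ i, φ i ≤ Y.F i a := by
    intro i
    by_cases hi : φ i = 0
    · omega
    · have h1 := hφF i hi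
      have h2 : 2 * M * φ i ≤ 2 * M * Y.F i a := by omega
      exact Nat.le_of_mul_le_mul_left h2 (by omega)
  have hTφ : ∀ i, (T : ℤ) * φ i ≤ Y.R a := by
    intro i
    rcases hφ i with h | ⟨h1, _⟩
    · rw [h]
      push_cast
      linarith only [hR1]
    · have h2 := H.rlow a i hreg h1
      have h3 : (φ i : ℤ) ≤ Y.F i a := by exact_mod_cast hφle i
      exact (mul_le_mul_of_nonneg_left h3 (by positivity)).trans h2
  have hSum : (T : ℤ) * ((∑ i, φ i : ℕ) : ℤ) ≤ c * Y.R a := by
    rw [Nat.cast_sum, mul_sum]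
    calc ∑ i, (T : ℤ) * (φ i : ℤ) ≤ ∑ _i : Λ, Y.R a := sum_le_sum fun i _ => hTφ i
      _ = c * Y.R a := by rw [sum_const, card_univ, nsmul_eq_mul]
  have hTF := H.rlow a l hreg hl
  have hfl := H.floor a l hreg hl
  have hTpos' : (0 : ℤ) < T := by
    have : 0 < T := by omega
    exact_mod_cast this
  have hcM : c * M ≤ T := by
    have h1 : c * M ≤ 16 * M * (c * (2 * M + 3)) := by
      calc c * M = 1 * M * (c * 1) := by ring
        _ ≤ 16 * M * (c * (2 * M + 3)) :=
          Nat.mul_le_mul (Nat.mul_le_mul_right _ (by omega)) (Nat.mul_le_mul_left _ (by omega))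
    omega
  refine ⟨?_, ?_, ?_⟩
  · rw [hg]
    by_cases hi : φ l = 0
    · rw [hi]
      have h1 : M * L' * L' ≤ 16 * M * (M * L' ^ 2) := by
        calc M * L' * L' = 1 * 1 * (M * L' ^ 2) := by ring
          _ ≤ 16 * M * (M * L' ^ 2) := by
            apply Nat.mul_le_mul_right
            omega
      omega
    · have h1 := hφF l hi
      have h2 : 2 * M * (φ l + M * L' * L') ≤ 2 * M * Y.F l a := by
        have h3 : 2 * M * (φ l + M * L' * L') = 2 * M * φ l + 2 * M * (M * L' ^ 2) := by ring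
        omega
      exact Nat.le_of_mul_le_mul_left h2 (by omega)
  · rw [hg]
    have hF2 : Y.F l a + M * L' ≤ 2 * Y.F l a := by
      have h1 : M * L' ≤ 16 * M * (M * L' ^ 2) := by
        calc M * L' = 1 * (1 * (M * L' ^ 1)) := by ring
          _ ≤ 16 * (M * (M * L' ^ 2)) := by
            refine Nat.mul_le_mul (by omega) (Nat.mul_le_mul hM (Nat.mul_le_mul_left _ ?_))
            exact Nat.pow_le_pow_right hL'1 (by omega)
          _ = 16 * M * (M * L' ^ 2) := by ring
      omega
    have h1 : M * ∑ i, φ i + L * (Y.F l a + M * L') + Y.F l a ≤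
        M * ∑ i, φ i + (2 * L + 1) * Y.F l a := by
      have h2 : L * (Y.F l a + M * L') ≤ L * (2 * Y.F l a) := Nat.mul_le_mul_left _ hF2
      have h3 : (2 * L + 1) * Y.F l a = L * (2 * Y.F l a) + Y.F l a := by ring
      omega
    refine le_trans (Int.ofNat_le.2 h1) ?_
    have h4 : (T : ℤ) * ((M * ∑ i, φ i + (2 * L + 1) * Y.F l a : ℕ) : ℤ) ≤ T * Y.R a := by
      have h5 : (T : ℤ) * ((M * ∑ i, φ i + (2 * L + 1) * Y.F l a : ℕ) : ℤ) =
          M * (T * ((∑ i, φ i : ℕ) : ℤ)) + (2 * L + 1) * (T * Y.F l a) := by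
        push_cast
        ring
      have h6 : (M : ℤ) * (T * ((∑ i, φ i : ℕ) : ℤ)) ≤ M * (c * Y.R a) :=
        mul_le_mul_of_nonneg_left hSum (by positivity)
      have h7 : (2 * (L : ℤ) + 1) * (T * Y.F l a) ≤ (2 * L + 1) * Y.R a :=
        mul_le_mul_of_nonneg_left hTF (by positivity)
      have hM1 : c * M ≤ 16 * M * (c * (2 * M + 3)) := by
        calc c * M = 1 * M * (c * 1) := by ring
          _ ≤ 16 * M * (c * (2 * M + 3)) :=
            Nat.mul_le_mul (Nat.mul_le_mul_right _ (by omega)) (Nat.mul_le_mul_left _ (by omega))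
      have h8 : ((c * M + (2 * L + 1) : ℕ) : ℤ) * Y.R a ≤ T * Y.R a :=
        mul_le_mul_of_nonneg_right (by exact_mod_cast (show c * M + (2 * L + 1) ≤ T by omega))
          (by omega)
      have h9 : ((c * M + (2 * L + 1) : ℕ) : ℤ) * Y.R a =
          M * (c * Y.R a) + (2 * L + 1) * Y.R a := by
        push_cast
        ring
      rw [h5]
      linarith only [h6, h7, h8, h9]
    exact le_of_mul_le_mul_left h4 hTpos'
  · have h8 : ((c : ℕ) : ℤ) * Y.R a ≤ T * Y.R a := by
      refine mul_le_mul_of_nonneg_right ?_ (by omega)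
      have h1 : c ≤ c * M := Nat.le_mul_of_pos_right _ (by omega)
      exact_mod_cast (h1.trans hcM)
    have h10 : (T : ℤ) * ((∑ i, φ i : ℕ) : ℤ) ≤ T * Y.R a := by linarith only [hSum, h8]
    exact le_of_mul_le_mul_left h10 hTpos'

omit [DecidableEq Λ] in
private theorem sum_sub_dn [DecidableEq Λ] {a b : Λ → ℕ} (h : ∀ i, a i ≤ b i) (l : Λ)
    (hl : 1 ≤ a l) :
    ∑ i, (b i - dn l a i) = ∑ i, (b i - a i) + 1 := by
  rw [← add_sum_erase univ _ (mem_univ l), ← add_sum_erase univ (fun i => b i - a i)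
    (mem_univ l), dn_self]
  have h4 : ∑ i ∈ univ.erase l, (b i - dn l a i) = ∑ i ∈ univ.erase l, (b i - a i) :=
    sum_congr rfl fun i hi => by rw [dn_ne (ne_of_mem_erase hi)]
  rw [h4]
  have := h l
  omega

/-- The bounds after a peel. -/
theorem Act.dn {Y : SysN Λ n} {M Ta : ℕ} {N a φ : Λ → ℕ} {s : ℕ} (hM : 1 ≤ M)
    (hreg : Reg N Ta a) (h : ∀ l, Act Y M Ta N a φ s l) (l : Λ) (hl : Ta + 1 ≤ a l) (k : Λ) :
    Act Y M Ta N (dn l a) (Function.update φ l (nphi n M (Y.F l a))) (s + 1) k := by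
  by_cases hkl : k = l
  · subst hkl
    right
    rw [Function.update_self, dn_self]
    refine ⟨by omega, a, dn_le k a, hreg.le, ?_, BdN_nphi hM _⟩
    rw [sum_sub_dn (fun _ => le_rfl) k (by omega)]
    simp
  · unfold Act
    rw [Function.update_of_ne hkl, dn_ne hkl]
    rcases h k with h | ⟨h1, b, h2, h3, h4, h5⟩
    · exact Or.inl h
    · right
      refine ⟨h1, b, fun i => (dn_le l a i).trans (h2 i), h3, ?_, h5⟩
      rw [sum_sub_dn h2 l (by omega)]
      omega

/-- Lists of bounded length, staying in the region, are good. -/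
theorem NumR.list_good {Y : SysN Λ n} {M T Ta : ℕ} {N : Λ → ℕ} (H : NumR Y M T Ta N)
    (L : List Λ) : ∀ (a φ : Λ → ℕ) (s : ℕ), Reg N Ta a →
      (∀ l ∈ L, Ta + L.count l ≤ a l) → (∀ l, Act Y M Ta N a φ s l) →
      s + L.length ≤ KK Λ M → GoodN Y M L a φ := by
  induction L with
  | nil =>
    intro a φ s _ _ _ _
    trivial
  | cons l L ih =>
    intro a φ s hreg hcount hφ hs
    have hl := hcount l List.mem_cons_self
    rw [List.count_cons_self] at hl
    rw [List.length_cons] at hs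
    have hkey := H.key hreg (by omega) hφ l (by omega)
    refine ⟨by omega, H.gd a l hreg (by omega), hkey.1, hkey.2.1, ?_⟩
    apply ih (dn l a) _ (s + 1) (hreg.dn l (by omega))
    · intro k hk
      by_cases hkl : k = l
      · subst hkl
        rw [dn_self]
        omega
      · rw [dn_ne hkl]
        have := hcount k (List.mem_cons_of_mem _ hk)
        rw [List.count_cons_of_ne (fun h => hkl h.symm)] at this
        exact this
    · exact Act.dn H.hM hreg hφ l (by omega)
    · omega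

/-- The invariant of the path; `b l` is the state at which the direction `l` was used for the last
time. -/
structure InvN (Y : SysN Λ n) (M T' : ℕ) (N a φ : Λ → ℕ) (b : Λ → Λ → ℕ) : Prop where
  reg : Reg N T' a
  act : ∀ l, φ l = 0 ∨ (T' ≤ a l ∧ (∀ k, a k ≤ b l k) ∧ (∀ k, b l k ≤ N k) ∧
    BdN n M (φ l) (Y.F l (b l)) ∧ (∀ k, b l k ≤ a l + (M + 1)) ∧
    ∀ k, b l k ≤ a k ∨ a l ≤ a k + 1)

theorem InvN.bd {Y : SysN Λ n} {M Ta T' : ℕ} {N a φ : Λ → ℕ} {b : Λ → Λ → ℕ}
    (h : InvN Y M T' N a φ b) (hT' : Ta ≤ T') (l : Λ) :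
    Act Y M Ta N a φ (Fintype.card Λ * (M + 2)) l := by
  rcases h.act l with h1 | ⟨h1, h2, h3, h4, h5, h6⟩
  · exact Or.inl h1
  · right
    refine ⟨hT'.trans h1, b l, h2, h3, ?_, h4⟩
    calc ∑ k, (b l k - a k) ≤ ∑ _k : Λ, (M + 2) := by
          refine sum_le_sum fun k _ => ?_
          have h8 := h5 k
          rcases h6 k with h9 | h9 <;> omega
      _ = Fintype.card Λ * (M + 2) := by rw [sum_const, card_univ, smul_eq_mul]

theorem NumR.path {Y : SysN Λ n} {M T Ta T' : ℕ} {N : Λ → ℕ} (H : NumR Y M T Ta N)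
    (hT' : Ta ≤ T') (q : ℕ) : ∀ (a φ : Λ → ℕ) (b : Λ → Λ → ℕ), ∑ i, a i = q →
      InvN Y M T' N a φ b →
      ∃ L : List Λ, (∀ l ∈ L, T' < N l) ∧ GoodN Y M L a φ ∧
        (∃ b', InvN Y M T' N (ew L a) (ephN Y M L a φ) b') ∧ ∀ i, ew L a i ≤ T' := by
  induction q with
  | zero =>
    intro a φ b hn h
    refine ⟨[], fun l hl => absurd hl List.not_mem_nil, trivial, ⟨b, ?_⟩, fun i => ?_⟩
    · rw [ew_nil']
      exact h
    · rw [ew_nil', sum_eq_zero_iff.1 hn i (mem_univ i)]
      exact Nat.zero_le _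
  | succ q ih =>
    intro a φ b hn h
    by_cases hend : ∀ i, a i ≤ T'
    · refine ⟨[], fun l hl => absurd hl List.not_mem_nil, trivial, ⟨b, ?_⟩, ?_⟩
      · rw [ew_nil']
        exact h
      · rw [ew_nil']
        exact hend
    · push Not at hend
      obtain ⟨i₀, hi₀⟩ := hend
      obtain ⟨l, -, hl⟩ := exists_max_image univ a ⟨i₀, mem_univ _⟩
      have hlT : T' < a l := lt_of_lt_of_le hi₀ (hl i₀ (mem_univ _))
      have hregTa : Reg N Ta a := h.reg.mono hT'
      have hkey := H.key hregTa (s := Fintype.card Λ * (M + 2))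
        (Nat.mul_le_mul_left _ (by omega)) (h.bd hT') l (by omega)
      have hsum : ∑ i, dn l a i = q := by
        have h3 : ∑ i, a i = ∑ i, dn l a i + 1 := by
          rw [← add_sum_erase univ _ (mem_univ l), ← add_sum_erase univ (dn l a)
            (mem_univ l), dn_self]
          have h4 : ∑ i ∈ univ.erase l, dn l a i = ∑ i ∈ univ.erase l, a i :=
            sum_congr rfl fun i hi => by rw [dn_ne (ne_of_mem_erase hi)]
          rw [h4]
          omega
        omega
      have hInv : InvN Y M T' N (dn l a) (Function.update φ l (nphi n M (Y.F l a)))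
          (Function.update b l a) := by
        refine ⟨h.reg.dn l hlT, fun j => ?_⟩
        by_cases hj : j = l
        · subst hj
          right
          rw [Function.update_self, Function.update_self, dn_self]
          refine ⟨by omega, dn_le j a, h.reg.le, BdN_nphi H.hM _, fun k => ?_, fun k => ?_⟩
          · have := hl k (mem_univ k)
            omega
          · by_cases hk : k = j
            · subst hk
              right
              rw [dn_self]
              omega
            · left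
              rw [dn_ne hk]
        · rw [Function.update_of_ne hj, Function.update_of_ne hj, dn_ne hj]
          rcases h.act j with h1 | ⟨h1, h2, h3, h4, h5, h6⟩
          · exact Or.inl h1
          · right
            refine ⟨h1, fun k => (dn_le l a k).trans (h2 k), h3, h4, h5, fun k => ?_⟩
            by_cases hk : k = l
            · subst hk
              right
              rw [dn_self]
              have := hl j (mem_univ j)
              omega
            · rw [dn_ne hk]
              exact h6 k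
      obtain ⟨L, hL1, hL2, hL3, hL4⟩ := ih _ _ _ hsum hInv
      refine ⟨l :: L, ?_, ⟨by omega, H.gd a l hregTa (by omega), hkey.1, hkey.2.1, hL2⟩, ?_, ?_⟩
      · intro k hk
        rcases List.mem_cons.1 hk with rfl | hk
        · exact lt_of_lt_of_le hlT (h.reg k).2
        · exact hL1 k hk
      · rw [ew_cons']
        exact hL3
      · rw [ew_cons']
        exact hL4

end Pool.Agent.H18.Pr

end

section

/-!
# Module PolyBL (PR): polynomially bounded functions
-/

namespace Pool.Agent.H18.Pr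

open Finset Pool.Agent.H18.Ex Pool.Agent.H18.Cub

theorem PolyB.const (c : ℕ) : PolyB fun _ => c := by
  refine ⟨c, 0, fun M _ => ?_⟩
  rw [pow_zero, mul_one]

theorem PolyB.id : PolyB fun M => M := by
  refine ⟨1, 1, fun M _ => ?_⟩
  rw [pow_one, one_mul]

theorem PolyB.add {f g : ℕ → ℕ} (hf : PolyB f) (hg : PolyB g) : PolyB fun M => f M + g M := by
  obtain ⟨K, E, h⟩ := hf
  obtain ⟨K', E', h'⟩ := hg
  refine ⟨K + K', E + E', fun M hM => ?_⟩
  have h1 : M ^ E ≤ M ^ (E + E') := Nat.pow_le_pow_right hM (Nat.le_add_right _ _)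
  have h2 : M ^ E' ≤ M ^ (E + E') := Nat.pow_le_pow_right hM (Nat.le_add_left _ _)
  calc f M + g M ≤ K * M ^ E + K' * M ^ E' := add_le_add (h M hM) (h' M hM)
    _ ≤ K * M ^ (E + E') + K' * M ^ (E + E') :=
        add_le_add (Nat.mul_le_mul_left _ h1) (Nat.mul_le_mul_left _ h2)
    _ = (K + K') * M ^ (E + E') := by ring

theorem PolyB.mul {f g : ℕ → ℕ} (hf : PolyB f) (hg : PolyB g) : PolyB fun M => f M * g M := by
  obtain ⟨K, E, h⟩ := hf
  obtain ⟨K', E', h'⟩ := hg
  refine ⟨K * K', E + E', fun M hM => ?_⟩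
  calc f M * g M ≤ (K * M ^ E) * (K' * M ^ E') := Nat.mul_le_mul (h M hM) (h' M hM)
    _ = K * K' * M ^ (E + E') := by rw [pow_add]; ring

theorem PolyB.pow {f : ℕ → ℕ} (hf : PolyB f) (k : ℕ) : PolyB fun M => f M ^ k := by
  induction k with
  | zero =>
    simp only [pow_zero]
    exact PolyB.const 1
  | succ k ih =>
    simp only [pow_succ]
    exact ih.mul hf

theorem PolyB.le {f g : ℕ → ℕ} (hg : PolyB g) (h : ∀ M, 1 ≤ M → f M ≤ g M) : PolyB f := by
  obtain ⟨K, E, h'⟩ := hg
  exact ⟨K, E, fun M hM => (h M hM).trans (h' M hM)⟩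

theorem PolyB.ell (n : ℕ) : PolyB fun M => Pool.Agent.H18.Ex.ell n M := by
  refine PolyB.le (((PolyB.const (n + 1)).mul PolyB.id).pow n) fun M hM => ?_
  unfold Pool.Agent.H18.Ex.ell
  refine (Nat.choose_le_pow _ _).trans (Nat.pow_le_pow_left ?_ n)
  have h1 : n ≤ n * M := Nat.le_mul_of_pos_right n hM
  have h2 : (n + 1) * M = n * M + M := by ring
  omega

theorem PolyB.TT (n c : ℕ) : PolyB fun M => Pool.Agent.H18.Pr.TT n M c := by
  unfold Pool.Agent.H18.Pr.TT
  exact ((((PolyB.const 16).mul PolyB.id).mul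
    ((((PolyB.const c).mul (((PolyB.const 2).mul PolyB.id).add (PolyB.const 3))).add
      ((PolyB.ell n).pow 2)).add (PolyB.id.mul ((PolyB.ell n).pow 2)))).add
    ((PolyB.const 8).mul (PolyB.ell (n + 1)))).add (PolyB.const 8)

theorem PolyB.cC (n : ℕ) : PolyB fun M => Pool.Agent.H18.Ex.cC n M := by
  unfold Pool.Agent.H18.Ex.cC
  have hl := PolyB.ell n
  have hl1 := PolyB.ell (n + 1)
  exact (((((PolyB.const 2).mul ((PolyB.const 1).add (hl1.mul PolyB.id))).mul
    (hl1.add (PolyB.const 1))).add (((PolyB.const 2).mul hl).mul (hl1.add (PolyB.const 1)))).add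
    (((PolyB.const 2).mul PolyB.id).mul (hl1.add (PolyB.id.mul (PolyB.const (n + 1)))))).add
    (PolyB.const 1)

end Pool.Agent.H18.Pr

end
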