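import Pool.Agent.H94.LP3.H18.Ex.Frac
import Pool.Agent.H94.LP3.M06

/-! The parts of this file: H18.Ex.Box, H18.Ta.Defs. -/

section

/-!
# Module Box: lower and upper bounds by boxes
-/

namespace Pool.Agent.H18.Ex

open Finset

variable {ι : Type} [Fintype ι] [DecidableEq ι]

/-- Upper bound: `x` is determined by its coordinates `≠ o`. -/
theorem card_le_prod (o : ι) (σ : ℕ) (w : ι → ℕ) :
    (Rg σ w).card ≤ ∏ i ∈ univ.erase o, (min (w i) σ + 1) := by
  have h1 : (Rg σ w).card ≤ (Fintype.piFinset fun i =>
      if i = o then ({0} : Finset ℕ) else range (min (w i) σ + 1)).card := by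
    refine card_le_card_of_injOn (fun x => Function.update x o 0) ?_ ?_
    · intro x hx
      rw [mem_coe, mem_Rg] at hx
      obtain ⟨hx1, hx2⟩ := hx
      rw [mem_coe, Fintype.mem_piFinset]
      intro i
      show Function.update x o 0 i ∈ _
      by_cases hi : i = o
      · rw [if_pos hi, hi, Function.update_self]
        simp
      · rw [if_neg hi, Function.update_of_ne hi, mem_range]
        have h2 := hx1 i
        have h3 : x i ≤ ∑ j, x j := single_le_sum (f := x) (fun _ _ => Nat.zero_le _) (mem_univ i)
        rw [hx2] at h3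
        have := le_min h2 h3
        omega
    · intro x hx y hy hxy
      rw [mem_coe, mem_Rg] at hx hy
      have hne : ∀ i, i ≠ o → x i = y i := by
        intro i hi
        have := congrFun hxy i
        simp only [Function.update_of_ne hi] at this
        exact this
      funext i
      by_cases hi : i = o
      · have e1 : ∑ j, x j = x o + ∑ j ∈ univ.erase o, x j := (add_sum_erase _ _ (mem_univ o)).symm
        have e2 : ∑ j, y j = y o + ∑ j ∈ univ.erase o, y j := (add_sum_erase _ _ (mem_univ o)).symm
        have e3 : ∑ j ∈ univ.erase o, x j = ∑ j ∈ univ.erase o, y j :=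
          sum_congr rfl fun j hj => hne j (mem_erase.1 hj).1
        have h2 := hx.2
        have h3 := hy.2
        rw [hi]
        omega
      · exact hne i hi
  rw [Fintype.card_piFinset] at h1
  refine h1.trans (le_of_eq ?_)
  rw [← mul_prod_erase univ _ (mem_univ o), if_pos rfl, card_singleton, one_mul]
  refine prod_congr rfl fun i hi => ?_
  rw [if_neg (mem_erase.1 hi).1, card_range]

/-- Lower bound for a facet of a normalised region of dimension `N ≥ 2`.

Proof.  Let `Q` be the set of the active `i ≠ o, l` (`N - 1` elements), `b i = w i / N` for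
`i ∈ Q`, `S' = ∑_Q w`, `A = σ - w o` (truncated).  Then `∑_Q b ≤ S' / N`, and
`A + ∑_Q b ≤ σ` (if `σ ≤ w o`: `∑_Q b ≤ S'/N ≤ (N-1) σ / N`; otherwise `∑_Q b ≤ (N-1) w o / N`), and
`A ≤ ∑_Q (w - b)` (if `σ > w o`: `S' - (σ - w o) = (∑ w - σ) - w l ≥ (∑ w) / 2 - w l
= (S' + w o - w l) / 2 ≥ S'/2 ≥ ∑_Q b`).  Choose `a i ≤ w i - b i` (`i ∈ Q`) with `∑_Q a = A`.
For `y i ≤ b i` (`i ∈ Q`) the vector with entries `a i + y i` (`i ∈ Q`), `0` at `l` and
`σ - ∑_Q (a + y) ∈ [0, w o]` at `o` lies in the facet.  This gives `∏_Q (b i + 1)` exponents, and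
`N (b i + 1) ≥ w i`. -/
theorem box_lower (N : ℕ) (hN : 2 ≤ N) (D : ℕ) (o l : ι) (σ : ℕ) (w : ι → ℕ)
    (h : Nrm N D o σ w) (hl : l ≠ o) (hwl : 0 < w l) :
    ∏ i ∈ univ.filter (fun i => 0 < w i ∧ i ≠ o ∧ i ≠ l), w i ≤ N ^ (N - 1) * fc σ w l := by
  set Q := univ.filter (fun i => 0 < w i ∧ i ≠ o ∧ i ≠ l) with hQ
  have hwoσ : w o ≤ σ := h.hwσ o
  have hQeq : Q = ((univ.filter fun i => 0 < w i).erase o).erase l := by
    ext i
    simp only [hQ, mem_filter, mem_univ, true_and, mem_erase]
    tauto
  have hlmem : l ∈ (univ.filter fun i => 0 < w i).erase o := by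
    simp only [mem_filter, mem_univ, true_and, mem_erase]
    exact ⟨hl, hwl⟩
  have homem : o ∈ univ.filter fun i => 0 < w i := by
    simp only [mem_filter, mem_univ, true_and]
    exact h.ho
  have hQcard : Q.card = N - 1 := by
    rw [hQeq, card_erase_of_mem hlmem, card_erase_of_mem homem, h.hcard]
    omega
  have hoQ : o ∉ Q := by simp [hQ]
  have hlQ : l ∉ Q := by simp [hQ]
  set b : ι → ℕ := fun i => w i / N with hb
  set S' := ∑ i ∈ Q, w i with hS'
  have hsumw : ∑ i, w i = w o + (w l + S') := by
    have e1 : ∑ i, w i = ∑ i ∈ univ.filter (fun i => 0 < w i), w i := by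
      symm
      refine sum_subset (filter_subset _ _) fun j _ hj => ?_
      simp only [mem_filter, mem_univ, true_and, not_lt, Nat.le_zero] at hj
      exact hj
    rw [e1, hS', hQeq, add_sum_erase _ _ hlmem, add_sum_erase _ _ homem]
  have hb2 : ∀ i, 2 * b i ≤ w i := by
    intro i
    have h1 : N * b i ≤ w i := Nat.mul_div_le (w i) N
    have h2 : 2 * b i ≤ N * b i := Nat.mul_le_mul_right _ hN
    omega
  have hsumb : 2 * ∑ i ∈ Q, b i ≤ S' := by
    rw [mul_sum]
    exact sum_le_sum fun i _ => hb2 i
  have hsumbo : ∑ i ∈ Q, b i ≤ w o := by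
    have h1 : ∑ i ∈ Q, b i ≤ Q.card * (w o / N) := by
      rw [← smul_eq_mul]
      exact sum_le_card_nsmul Q b _ fun i _ => Nat.div_le_div_right (h.hwo i)
    rw [hQcard] at h1
    have h2 : (N - 1) * (w o / N) ≤ N * (w o / N) := Nat.mul_le_mul_right _ (by omega)
    have h3 : N * (w o / N) ≤ w o := Nat.mul_div_le _ _
    omega
  set A := σ - w o with hA
  have hwlo := h.hwo l
  have h2σ := h.hσ
  have hA1 : 2 * A ≤ S' := by omega
  set w' : ι → ℕ := fun i => if i ∈ Q then w i - b i else 0 with hw'
  have hAw : A ≤ ∑ i, w' i := by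
    have e1 : ∑ i, w' i = ∑ i ∈ Q, (w i - b i) := by
      rw [hw', sum_ite_mem, univ_inter]
    have e2 : ∑ i ∈ Q, (w i - b i) + ∑ i ∈ Q, b i = S' := by
      rw [← sum_add_distrib, hS']
      refine sum_congr rfl fun i _ => ?_
      have := hb2 i
      omega
    rw [e1]
    omega
  obtain ⟨a, ha⟩ := Rg_nonempty A w' hAw
  rw [mem_Rg] at ha
  obtain ⟨ha1, ha2⟩ := ha
  have haQ : ∀ i, i ∉ Q → a i = 0 := by
    intro i hi
    have := ha1 i
    simp only [hw', if_neg hi] at this
    omega
  have haQ' : ∀ i ∈ Q, a i + b i ≤ w i := by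
    intro i hi
    have := ha1 i
    simp only [hw', if_pos hi] at this
    have := hb2 i
    omega
  have hbox : (Fintype.piFinset fun i => if i ∈ Q then range (b i + 1) else ({0} : Finset ℕ)).card ≤
      fc σ w l := by
    unfold fc
    refine card_le_card_of_injOn
      (fun y i => if i = o then σ - A - ∑ j, y j else a i + y i) ?_ ?_
    · intro y hy
      rw [mem_coe, Fintype.mem_piFinset] at hy
      have hyQ : ∀ i, i ∉ Q → y i = 0 := by
        intro i hi
        have := hy i
        rw [if_neg hi, mem_singleton] at this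
        exact this
      have hyQ' : ∀ i ∈ Q, y i ≤ b i := by
        intro i hi
        have := hy i
        rw [if_pos hi, mem_range] at this
        omega
      have hysum : ∑ j, y j = ∑ j ∈ Q, y j := by
        symm
        exact sum_subset (subset_univ _) fun j _ hj => hyQ j hj
      have hysle : ∑ j, y j ≤ w o := by
        rw [hysum]
        exact (sum_le_sum hyQ').trans hsumbo
      rw [mem_coe, mem_Rg]
      constructor
      · intro i
        show (if i = o then σ - A - ∑ j, y j else a i + y i) ≤ Function.update w l 0 i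
        by_cases hio : i = o
        · rw [if_pos hio, hio, Function.update_of_ne (Ne.symm hl)]
          omega
        · rw [if_neg hio]
          by_cases hil : i = l
          · rw [hil, haQ l hlQ, hyQ l hlQ]
            omega
          · rw [Function.update_of_ne hil]
            by_cases hiQ : i ∈ Q
            · have := haQ' i hiQ
              have := hyQ' i hiQ
              omega
            · rw [haQ i hiQ, hyQ i hiQ]
              omega
      · have e1 : ∑ i, (if i = o then σ - A - ∑ j, y j else a i + y i) =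
            (σ - A - ∑ j, y j) + ∑ i ∈ univ.erase o, (a i + y i) := by
          rw [← add_sum_erase univ _ (mem_univ o), if_pos rfl]
          congr 1
          exact sum_congr rfl fun i hi => by rw [if_neg (mem_erase.1 hi).1]
        have e2 : ∑ i ∈ univ.erase o, (a i + y i) = A + ∑ j, y j := by
          have e3 : ∑ i, (a i + y i) = (a o + y o) + ∑ i ∈ univ.erase o, (a i + y i) :=
            (add_sum_erase _ _ (mem_univ o)).symm
          rw [haQ o hoQ, hyQ o hoQ, sum_add_distrib, ha2] at e3
          omega
        rw [e1, e2]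
        omega
    · intro y hy z hz hyz
      rw [mem_coe, Fintype.mem_piFinset] at hy hz
      funext i
      by_cases hio : i = o
      · have h1 := hy i
        have h2 := hz i
        rw [hio, if_neg hoQ, mem_singleton] at h1 h2
        rw [hio, h1, h2]
      · have := congrFun hyz i
        simp only [if_neg hio] at this
        omega
  rw [Fintype.card_piFinset] at hbox
  have hprod : ∏ i, (if i ∈ Q then range (b i + 1) else ({0} : Finset ℕ)).card =
      ∏ i ∈ Q, (b i + 1) := by
    rw [← prod_subset (subset_univ Q)]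
    · exact prod_congr rfl fun i hi => by rw [if_pos hi, card_range]
    · intro i _ hi
      rw [if_neg hi, card_singleton]
  rw [hprod] at hbox
  calc ∏ i ∈ Q, w i ≤ ∏ i ∈ Q, N * (b i + 1) := by
        refine prod_le_prod (fun _ _ => Nat.zero_le _) fun i _ => ?_
        have := Nat.lt_mul_div_succ (w i) (show 0 < N by omega)
        exact this.le
    _ = N ^ (N - 1) * ∏ i ∈ Q, (b i + 1) := by
        rw [prod_mul_distrib, prod_const, hQcard]
    _ ≤ N ^ (N - 1) * fc σ w l := Nat.mul_le_mul_left _ hbox

end Pool.Agent.H18.Ex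

end

section

/-!
# Project TA (MP_1dafdd_ag): definitions

There are `ℓ` layers `s = 0, …, ℓ - 1`.  A *cell* is a pair `(u, j)` with `u + j < ℓ`.  A point in the
cell `(u, j)` orders the layers as follows (the rank `rk ℓ u j s` is the position of the layer `s`):
`u+1, …, u+j, u, u+j+1, …, ℓ-1, u-1, u-2, …, 0`.  A point of multiplicity `μ` loads the layer of rank `k`
by `μ - k` (truncated subtraction).
-/

namespace Pool.Agent.H18.Ta

open Finset

/-- The rank of the layer `s` for a point in the cell `(u, j)`. -/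
def rk (ℓ u j s : ℕ) : ℕ :=
  if s < u then ℓ - 1 - s else if s = u then j else if s ≤ u + j then s - u - 1 else s - u

/-- The load of the layer `s` by a point of multiplicity `μ` in the cell `(u, j)`. -/
def ld (ℓ μ u j s : ℕ) : ℕ := μ - rk ℓ u j s

/-- The base of the exponents. -/
def bG (ℓ : ℕ) : ℕ := 4 * (ℓ + 1) ^ 2

/-- The common part of the keys. -/
def kap (ℓ s : ℕ) : ℕ := ∑ i ∈ range (ℓ - s), bG ℓ ^ (i + 1)

/-- The exponent of a point in the cell `(u, j)`. -/
def ex (ℓ u j : ℕ) : ℕ := if j = 0 then 2 * bG ℓ ^ (ℓ - u) else (bG ℓ ^ (ℓ - u) - 1) / j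

end Pool.Agent.H18.Ta

end
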