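import Pool.Agent.H94.LP3.M12
import Pool.Agent.H94.LP3.M14
import Pool.Agent.H94.LP3.M51

/-! The parts of this file: H18.Cub.Desc, H18.Cub.MainS, H18.Cub.FinS, H18.Cub.Inst_1, H18.Pr.FinN_1, H18.Ta.Greedy, H18.Ta.RgS, H18.TileRg. -/

section

/-!
# Module Desc: Descartes' rule and the exponents on the curve `y = x^e`

Descartes' rule: a nonzero real polynomial with `n` nonzero coefficients has at most `n - 1`
positive roots, counted with multiplicity.
-/

namespace Pool.Agent.H18.Cub

open Finset

private theorem desc_signVar (n : ℕ) : ∀ P : Polynomial ℝ, P ≠ 0 → P.support.card = n →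
    P.signVariations + 1 ≤ n := by
  induction n with
  | zero =>
    intro P hP h
    exact absurd (Polynomial.support_eq_empty.mp (Finset.card_eq_zero.mp h)) hP
  | succ n ih =>
    intro P hP h
    have h1 : P.eraseLead.support.card + 1 = P.support.card :=
      Polynomial.card_support_eraseLead_add_one hP
    by_cases h2 : P.eraseLead = 0
    · have h3 : P = Polynomial.monomial P.natDegree P.leadingCoeff := by
        have := Polynomial.eraseLead_add_monomial_natDegree_leadingCoeff P
        rw [h2, zero_add] at this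
        exact this.symm
      rw [h3, Polynomial.signVariations_monomial]
      omega
    · have h3 := ih P.eraseLead h2 (by omega)
      have h4 := Polynomial.signVariations_le_eraseLead_succ P
      omega

/-- Descartes' rule for real polynomials (`Polynomial.roots_countP_pos_le_signVariations`,
`Polynomial.signVariations_le_eraseLead_succ`, induction on the number of terms with `eraseLead`). -/
theorem descartes_real (P : Polynomial ℝ) (hP : P ≠ 0) :
    P.roots.countP (0 < ·) + 1 ≤ P.support.card := by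
  have h1 := Polynomial.roots_countP_pos_le_signVariations P
  have h2 := desc_signVar P.support.card P hP rfl
  omega

/-- The real polynomial whose coefficients are the images of those of `P` under `φ`. -/
private noncomputable def descMap (φ : ℂ →ₗ[ℝ] ℝ) (P : Polynomial ℂ) : Polynomial ℝ :=
  ∑ n ∈ P.support, Polynomial.monomial n (φ (P.coeff n))

private theorem descMap_coeff (φ : ℂ →ₗ[ℝ] ℝ) (P : Polynomial ℂ) (n : ℕ) :
    (descMap φ P).coeff n = φ (P.coeff n) := by
  unfold descMap
  rw [Polynomial.finsetSum_coeff]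
  simp only [Polynomial.coeff_monomial]
  rw [Finset.sum_ite_eq' P.support n]
  split_ifs with h
  · rfl
  · rw [Polynomial.notMem_support_iff.mp h, map_zero]

private theorem descMap_mul (φ : ℂ →ₗ[ℝ] ℝ) (r : Polynomial ℝ) (S : Polynomial ℂ) :
    descMap φ (r.map (algebraMap ℝ ℂ) * S) = r * descMap φ S := by
  ext n
  rw [descMap_coeff, Polynomial.coeff_mul, Polynomial.coeff_mul, map_sum]
  refine Finset.sum_congr rfl fun a _ => ?_
  rw [Polynomial.coeff_map, descMap_coeff, ← Algebra.smul_def, map_smul, smul_eq_mul]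

private theorem desc_zero {κ : Type} [Fintype κ] (A : Polynomial ℝ) (x : κ → ℝ)
    (hx : Function.Injective x) (hpos : ∀ i, 0 < x i) (m : κ → ℕ)
    (hm : ∀ i, (Polynomial.X - Polynomial.C (x i)) ^ m i ∣ A)
    (hcard : A.support.card ≤ ∑ i, m i) : A = 0 := by
  classical
  by_contra hA
  have h1 := descartes_real A hA
  have h2 : ∑ i, m i ≤ A.roots.countP (0 < ·) := by
    rw [Multiset.countP_eq_card_filter,
      ← Multiset.sum_count_eq_card (s := (A.roots.filter (0 < ·)).toFinset ∪ univ.image x)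
        (fun a ha => Finset.mem_union_left _ (Multiset.mem_toFinset.mpr ha))]
    calc ∑ i, m i ≤ ∑ i, (A.roots.filter (0 < ·)).count (x i) := by
          refine Finset.sum_le_sum fun i _ => ?_
          rw [Multiset.count_filter_of_pos (hpos i), Polynomial.count_roots,
            Polynomial.le_rootMultiplicity_iff hA]
          exact hm i
      _ = ∑ a ∈ univ.image x, (A.roots.filter (0 < ·)).count a := by
          rw [Finset.sum_image fun a _ b _ h => hx h]
      _ ≤ _ := Finset.sum_le_sum_of_subset Finset.subset_union_right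
  omega

/-- A complex polynomial with few terms vanishing at positive real points is zero.  Proof: real and
imaginary parts (real polynomials with at most as many terms), each divisible by
`(X - x i)^(m i)`, hence (distinct points) having at least `∑ m i` positive roots. -/
theorem descartes_complex {κ : Type} [Fintype κ] (P : Polynomial ℂ) (x : κ → ℝ)
    (hx : Function.Injective x) (hpos : ∀ i, 0 < x i) (m : κ → ℕ)
    (hm : ∀ i, (Polynomial.X - Polynomial.C (x i : ℂ)) ^ m i ∣ P)
    (hcard : P.support.card ≤ ∑ i, m i) : P = 0 := by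
  have key : ∀ φ : ℂ →ₗ[ℝ] ℝ, descMap φ P = 0 := by
    intro φ
    refine desc_zero _ x hx hpos m ?_ ?_
    · intro i
      obtain ⟨S, hS⟩ := hm i
      have h1 : (Polynomial.X - Polynomial.C (x i : ℂ)) ^ m i =
          ((Polynomial.X - Polynomial.C (x i)) ^ m i).map (algebraMap ℝ ℂ) := by
        simp
      rw [hS, h1, descMap_mul]
      exact Dvd.intro _ rfl
    · refine le_trans (Finset.card_le_card ?_) hcard
      intro n hn
      rw [Polynomial.mem_support_iff, descMap_coeff] at hn
      rw [Polynomial.mem_support_iff]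
      intro h
      exact hn (by rw [h, map_zero])
  ext n
  have h1 := congrArg (fun A => A.coeff n) (key Complex.reLm)
  have h2 := congrArg (fun A => A.coeff n) (key Complex.imLm)
  simp only [descMap_coeff, Polynomial.coeff_zero, Complex.reLm_coe, Complex.imLm_coe] at h1 h2
  rw [Polynomial.coeff_zero]
  exact Complex.ext h1 h2

end Pool.Agent.H18.Cub

end

section

/-!
# Module MainS: the bridging argument (abstract version)
-/

namespace Pool.Agent.H18.Cub

open Finset Pool.Agent.H18.Ex

variable {Λ : Type} [Fintype Λ] [DecidableEq Λ]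

/-- The state after `j` peels in direction `l`. -/
def stt (a : Λ → ℕ) (l : Λ) (j : ℕ) : Λ → ℕ := Function.update a l (a l - j)

omit [Fintype Λ] in
theorem stt_zero (a : Λ → ℕ) (l : Λ) : stt a l 0 = a := by
  unfold stt
  rw [Nat.sub_zero, Function.update_eq_self]

omit [Fintype Λ] in
theorem dn_stt (a : Λ → ℕ) (l : Λ) (j : ℕ) : dn l (stt a l j) = stt a l (j + 1) := by
  unfold dn stt
  rw [Function.update_idem, Function.update_self, Nat.sub_sub]

private theorem tr_eq_zero {c : Cfg Λ} {l : Λ} (h : c.Φ l = 0) : c.tr 1 l = 0 := by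
  unfold Cfg.tr
  rw [h]
  simp

end Pool.Agent.H18.Cub

end

section

/-!
# Module FinS: the two endings (abstract version)
-/

namespace Pool.Agent.H18.Cub

open Finset Pool.Agent.H18.Ex

variable {Λ : Type} [Fintype Λ] [DecidableEq Λ]

private theorem fin_shf_aux (j : ℕ) (S : Multiset (ℕ × ℕ))
    (hS : ∀ x ∈ S, 1 ≤ x.2 ∧ x.2 ≤ x.1 ∧ x.1 ≤ j) : shf^[j] S = 0 :=
  shf_iterate_eq_zero le_rfl S hS

omit [Fintype Λ] in
private theorem fin_count_clean (M : ℕ) (dirs : List Λ) (l : Λ) (hl : l ∈ dirs) :
    M + 1 ≤ (clean M dirs).count l := by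
  unfold clean
  induction dirs with
  | nil => exact absurd hl List.not_mem_nil
  | cons d ds ih =>
    rw [List.flatMap_cons, List.count_append]
    by_cases h : l = d
    · subst h
      rw [List.count_replicate_self]
      exact Nat.le_add_right _ _
    · have h1 : l ∈ ds := by
        rcases List.mem_cons.1 hl with h2 | h2
        · exact absurd h2 h
        · exact h2
      exact le_trans (ih h1) (Nat.le_add_left _ _)

omit [DecidableEq Λ] in
private theorem fin_kinds_simple {c : Cfg Λ} (hN : c.N = 0) (hΦ : ∀ l, c.Φ l = 0) :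
    c.kinds = (Multiset.replicate c.s 1).map Kind.free + 0 := by
  have h1 : c.kinds = c.N.map Kind.free + Multiset.replicate c.s (Kind.free 1) +
      ∑ l, (c.Φ l).map fun x => Kind.forced l x.1 x.2 := rfl
  rw [h1, hN, Finset.sum_eq_zero (fun l _ => by rw [hΦ l, Multiset.map_zero]),
    Multiset.map_zero, zero_add, Multiset.map_replicate]

end Pool.Agent.H18.Cub

end

section

/-!
# Module Inst: the Horace system of the curve `y = x^(t+1)`

Directions: `none` is the curve, `some l` (`l : Fin t`) is the line through the big point `inl l`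
and the point at infinity of the curve.  There are `t + s` big points.  The state `a` stands for
degree `dd a` and multiplicities `mu n a`.
-/

namespace Pool.Agent.H18.Cub

open Finset Pool.Agent.H18.Ex

theorem xx_injective {t s : ℕ} : Function.Injective (xx : Fin t ⊕ Fin s → ℕ) := by
  rintro (i | i) (j | j) h
  · simp only [xx] at h
    congr 1
    ext
    omega
  · simp only [xx] at h
    have := i.2
    omega
  · simp only [xx] at h
    have := j.2
    omega
  · simp only [xx] at h
    congr 1
    ext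
    omega

theorem xx_pos {t s : ℕ} (b : Fin t ⊕ Fin s) : 0 < xx b := by
  rcases b with i | i <;> simp [xx]

theorem dd_dn_none {t : ℕ} (a : Option (Fin t) → ℕ) (h : 1 ≤ a none) :
    dd (dn none a) = dd a - (t + 1) := by
  unfold dd
  rw [dn_self]
  have h1 : ∑ l, dn none a (some l) = ∑ l, a (some l) :=
    sum_congr rfl fun l _ => dn_ne (by simp) a
  rw [h1]
  obtain ⟨k, hk⟩ := Nat.exists_eq_add_of_le h
  rw [hk, Nat.add_sub_cancel_left, mul_add, mul_one]
  omega

theorem dd_dn_some {t : ℕ} (a : Option (Fin t) → ℕ) (l : Fin t) (h : 1 ≤ a (some l)) :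
    dd (dn (some l) a) = dd a - 1 := by
  unfold dd
  rw [dn_ne (by simp : (none : Option (Fin t)) ≠ some l)]
  have h1 : ∑ l', dn (some l) a (some l') + 1 = ∑ l', a (some l') := by
    rw [← add_sum_erase univ _ (mem_univ l), ← add_sum_erase univ (fun l' => a (some l'))
      (mem_univ l), dn_self]
    have h2 : ∑ i ∈ univ.erase l, dn (some l) a (some i) = ∑ i ∈ univ.erase l, a (some i) :=
      sum_congr rfl fun i hi => dn_ne (by
        intro h3
        exact ne_of_mem_erase hi (Option.some_injective _ h3)) a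
    rw [h2]
    omega
  omega

theorem mu_dn_none {t s : ℕ} (n : Fin t ⊕ Fin s → ℕ) (a : Option (Fin t) → ℕ)
    (h : 1 ≤ a none) : mu n (dn none a) = fun b => mu n a b - 1 := by
  funext b
  unfold mu
  have h1 : uu (s := s) (dn none a) b = uu a b - 1 := by
    rcases b with l | j
    · simp only [uu]
      rw [dn_self, dn_ne (by simp : (some l : Option (Fin t)) ≠ none)]
      omega
    · simp only [uu]
      rw [dn_self]
  rw [h1]
  omega

theorem mu_dn_some {t s : ℕ} (n : Fin t ⊕ Fin s → ℕ) (a : Option (Fin t) → ℕ) (l : Fin t)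
    (h : 1 ≤ a (some l)) :
    mu n (dn (some l) a) = Function.update (mu n a) (.inl l) (mu n a (.inl l) - 1) := by
  funext b
  by_cases hb : b = .inl l
  · subst hb
    rw [Function.update_self]
    unfold mu
    simp only [uu]
    rw [dn_self, dn_ne (by simp : (none : Option (Fin t)) ≠ some l)]
    omega
  · rw [Function.update_of_ne hb]
    unfold mu
    congr 1
    rcases b with l' | j
    · simp only [uu]
      rw [dn_ne (by simp : (none : Option (Fin t)) ≠ some l), dn_ne]
      intro h1
      apply hb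
      rw [Option.some_injective _ h1]
    · simp only [uu]
      rw [dn_ne (by simp : (none : Option (Fin t)) ≠ some l)]

theorem inst_le_dd_none {t : ℕ} (a : Option (Fin t) → ℕ) (h : 1 ≤ a none) : t + 1 ≤ dd a := by
  unfold dd
  have : (t + 1) * 1 ≤ (t + 1) * a none := Nat.mul_le_mul_left _ h
  omega

theorem inst_le_dd_some {t : ℕ} (a : Option (Fin t) → ℕ) (l : Fin t) (h : 1 ≤ a (some l)) :
    1 ≤ dd a := by
  unfold dd
  have : a (some l) ≤ ∑ l, a (some l) :=
    single_le_sum (f := fun l => a (some l)) (fun _ _ => Nat.zero_le _) (mem_univ l)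
  omega

end Pool.Agent.H18.Cub

end

section

/-!
# Module FinN: the two endings (abstract version, traces of dimension `n`)
-/

namespace Pool.Agent.H18.Pr

open Finset Pool.Agent.H18.Ex Pool.Agent.H18.Cub

variable {Λ : Type} [Fintype Λ] [DecidableEq Λ] {n : ℕ}

theorem fullN_zero (Y : SysN Λ n) : FullN Y 0 := by
  refine ⟨by rw [Y.base_R], fun n hn => ?_⟩
  rw [Y.base_R] at hn
  refine Y.mono _ {Kind.free 1} _ ?_ Y.base
  rw [Multiset.singleton_le, Multiset.mem_replicate]
  exact ⟨by omega, rfl⟩

/-- One step; the trace is killed by the expected number of simple points. -/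
theorem FullN.step {Y : SysN Λ n} {a : Λ → ℕ} (l : Λ) (ha : 1 ≤ a l) (hF : 1 ≤ Y.F l a)
    (hT : Y.tr l a (Multiset.replicate (Y.F l a) 1)) (h : FullN Y (dn l a)) : FullN Y a := by
  have hc := Y.count a l ha hF
  refine ⟨by have := h.1; omega, fun n hn => ?_⟩
  have h1 : Y.F l a ≤ n := by
    have := h.1
    omega
  obtain ⟨n', rfl⟩ := Nat.exists_eq_add_of_le' h1
  have h2 := Y.step a l ha 1 le_rfl
    (Multiset.replicate n' (Role.stay (Kind.free 1)) +
      Multiset.replicate (Y.F l a) (Role.ord 1)) ?_ ?_ ?_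
  · rw [Multiset.map_add, Multiset.map_replicate, Multiset.map_replicate] at h2
    rw [Multiset.replicate_add]
    exact h2
  · intro k hk
    rw [Multiset.mem_add, Multiset.mem_replicate, Multiset.mem_replicate] at hk
    rcases hk with ⟨_, hk⟩ | ⟨_, hk⟩
    · cases hk
      trivial
    · cases hk
  · rw [Multiset.map_add, Multiset.map_replicate, Multiset.map_replicate]
    exact Y.tr_mono _ _ _ _ (Multiset.le_add_left _ _) hT
  · rw [Multiset.map_add, Multiset.map_replicate]
    refine Y.mono _ _ _ (Multiset.le_add_right _ _) ?_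
    exact h.2 n' (by push_cast at hn; omega)

/-- Free points of multiplicity at least one. -/
theorem FullN.of_card {Y : SysN Λ n} {a : Λ → ℕ} (h : FullN Y a) (T : Multiset ℕ)
    (S : Multiset (Kind Λ)) (hT : ∀ m ∈ T, 1 ≤ m) (hc : Y.R a ≤ T.card) :
    Y.K a (T.map Kind.free + S) :=
  Y.free_mono a T S hT (Y.mono _ _ _ (Multiset.le_add_right _ _) (h.2 _ hc))

theorem fin_shf_aux (j : ℕ) (S : Multiset (ℕ × ℕ))
    (hS : ∀ x ∈ S, 1 ≤ x.2 ∧ x.2 ≤ x.1 ∧ x.1 ≤ j) : shf^[j] S = 0 :=
  shf_iterate_eq_zero le_rfl S hS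

omit [Fintype Λ] in
theorem fin_count_clean (M : ℕ) (dirs : List Λ) (l : Λ) (hl : l ∈ dirs) :
    M + 1 ≤ (clean M dirs).count l := by
  unfold clean
  induction dirs with
  | nil => exact absurd hl List.not_mem_nil
  | cons d ds ih =>
    rw [List.flatMap_cons, List.count_append]
    by_cases h : l = d
    · subst h
      rw [List.count_replicate_self]
      exact Nat.le_add_right _ _
    · have h1 : l ∈ ds := by
        rcases List.mem_cons.1 hl with h2 | h2
        · exact absurd h2 h
        · exact h2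
      exact le_trans (ih h1) (Nat.le_add_left _ _)

omit [DecidableEq Λ] in
theorem fin_kinds_simple {c : Cfg Λ} (hN : c.N = 0) (hΦ : ∀ l, c.Φ l = 0) :
    c.kinds = (Multiset.replicate c.s 1).map Kind.free + 0 := by
  have h1 : c.kinds = c.N.map Kind.free + Multiset.replicate c.s (Kind.free 1) +
      ∑ l, (c.Φ l).map fun x => Kind.forced l x.1 x.2 := rfl
  rw [h1, hN, Finset.sum_eq_zero (fun l _ => by rw [hΦ l, Multiset.map_zero]),
    Multiset.map_zero, zero_add, Multiset.map_replicate]

end Pool.Agent.H18.Pr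

end

section

/-!
# Module Greedy (TA): the greedy filling, with possibly negative numbers of points

`a u` points in the cell `(u, 0)` and one point in the cell `(u, j u)`, for `u < ℓ - 1`, and the rest,
`n - ∑ (a u + 1)` points, in the cell `(ℓ - 1, 0)`; all layers `s < ℓ - 1` are filled exactly.
-/

namespace Pool.Agent.H18.Ta

open Finset

private theorem Greedy_lt {ℓ μ u j s : ℕ} (h : s < u) : ld ℓ μ u j s = μ - (ℓ - 1 - s) := by
  unfold ld rk
  rw [if_pos h]

private theorem Greedy_self {ℓ μ u j : ℕ} : ld ℓ μ u j u = μ - j := by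
  unfold ld rk
  simp

/-- The choice, layer by layer. -/
private theorem Greedy_aux (μ ℓ : ℕ) (hμ : 1 ≤ μ) (hℓ : μ < ℓ) (c : ℕ → ℤ) (n : ℤ) :
    ∀ k, k ≤ ℓ - 1 → ∃ (a : ℕ → ℤ) (j : ℕ → ℕ), ∀ s < k, s + j s < ℓ ∧
      c s = ∑ u ∈ range s, (a u * (ld ℓ μ u 0 s : ℤ) + (ld ℓ μ u (j u) s : ℤ)) +
        (a s * μ + ((μ - j s : ℕ) : ℤ)) +
        (n - ∑ u ∈ range (s + 1), (a u + 1)) * ((μ - (ℓ - 1 - s) : ℕ) : ℤ) := by
  intro k
  induction k with
  | zero =>
    intro _
    exact ⟨fun _ => 0, fun _ => 0, fun s hs => absurd hs (Nat.not_lt_zero s)⟩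
  | succ k ih =>
    intro hk
    obtain ⟨a, j, haj⟩ := ih (by omega)
    set τ : ℕ := μ - (ℓ - 1 - k) with hτ
    have hτμ : τ < μ := by omega
    set D : ℕ := μ - τ with hD
    have hD1 : 1 ≤ D := by omega
    set R : ℤ := c k - ∑ u ∈ range k, (a u * (ld ℓ μ u 0 k : ℤ) + (ld ℓ μ u (j u) k : ℤ)) -
      (n - ∑ u ∈ range k, (a u + 1)) * (τ : ℤ) with hR
    have hDpos : (0 : ℤ) < D := by exact_mod_cast hD1
    have hmod0 := Int.emod_nonneg R hDpos.ne'
    have hmod1 := Int.emod_lt_of_pos R hDpos
    obtain ⟨ρ, hρ⟩ : ∃ ρ : ℕ, (ρ : ℤ) = R % D := ⟨(R % D).toNat, Int.toNat_of_nonneg hmod0⟩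
    have hρD : ρ < D := by
      have : (ρ : ℤ) < D := by rw [hρ]; exact hmod1
      exact_mod_cast this
    refine ⟨Function.update a k (R / D), Function.update j k (D - ρ), fun s hs => ?_⟩
    rcases Nat.lt_succ_iff_lt_or_eq.1 hs with hs | rfl
    · -- old layers
      have h1 := haj s hs
      have hne : s ≠ k := by omega
      rw [Function.update_of_ne hne, Function.update_of_ne hne]
      refine ⟨h1.1, ?_⟩
      have h3 : ∑ u ∈ range s, (Function.update a k (R / D) u * (ld ℓ μ u 0 s : ℤ) +
          (ld ℓ μ u (Function.update j k (D - ρ) u) s : ℤ)) =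
          ∑ u ∈ range s, (a u * (ld ℓ μ u 0 s : ℤ) + (ld ℓ μ u (j u) s : ℤ)) := by
        refine sum_congr rfl fun u hu => ?_
        rw [mem_range] at hu
        rw [Function.update_of_ne (by omega), Function.update_of_ne (by omega)]
      have h4 : ∑ u ∈ range (s + 1), (Function.update a k (R / D) u + 1) =
          ∑ u ∈ range (s + 1), (a u + 1) := by
        refine sum_congr rfl fun u hu => ?_
        rw [mem_range] at hu
        rw [Function.update_of_ne (by omega)]
      rw [h3, h4]
      exact h1.2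
    · -- the new layer
      rw [Function.update_self, Function.update_self]
      refine ⟨by omega, ?_⟩
      have h1 : ∑ u ∈ range s, (Function.update a s (R / D) u * (ld ℓ μ u 0 s : ℤ) +
          (ld ℓ μ u (Function.update j s (D - ρ) u) s : ℤ)) =
          ∑ u ∈ range s, (a u * (ld ℓ μ u 0 s : ℤ) + (ld ℓ μ u (j u) s : ℤ)) := by
        refine sum_congr rfl fun u hu => ?_
        rw [mem_range] at hu
        rw [Function.update_of_ne (by omega), Function.update_of_ne (by omega)]
      have h2 : ∑ u ∈ range (s + 1), (Function.update a s (R / D) u + 1) =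
          ∑ u ∈ range s, (a u + 1) + (R / D + 1) := by
        rw [sum_range_succ, Function.update_self]
        congr 1
        refine sum_congr rfl fun u hu => ?_
        rw [mem_range] at hu
        rw [Function.update_of_ne (by omega)]
      rw [h1, h2]
      have h3 : ((μ - (D - ρ) : ℕ) : ℤ) = τ + ρ := by
        have : μ - (D - ρ) = τ + ρ := by omega
        rw [this]
        push_cast
        rfl
      have h4 := Int.emod_add_mul_ediv R D
      have h5 : (μ : ℤ) = D + τ := by
        have : μ = D + τ := by omega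
        rw [this]
        push_cast
        omega
      rw [h3, hρ]
      have h6 : R = c s - ∑ u ∈ range s, (a u * (ld ℓ μ u 0 s : ℤ) + (ld ℓ μ u (j u) s : ℤ)) -
        (n - ∑ u ∈ range s, (a u + 1)) * (τ : ℤ) := hR
      rw [h5]
      linear_combination (-1 : ℤ) * h4 + h6

/-- The greedy filling. -/
theorem greedy (μ ℓ : ℕ) (hμ : 1 ≤ μ) (hℓ : μ < ℓ) (c : ℕ → ℤ) (n : ℤ) :
    ∃ (a : ℕ → ℤ) (j : ℕ → ℕ), ∀ s < ℓ - 1, s + j s < ℓ ∧
      c s = ∑ u ∈ range (ℓ - 1), (a u * (ld ℓ μ u 0 s : ℤ) + (ld ℓ μ u (j u) s : ℤ)) +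
        (n - ∑ u ∈ range (ℓ - 1), (a u + 1)) * (ld ℓ μ (ℓ - 1) 0 s : ℤ) := by
  obtain ⟨a, j, haj⟩ := Greedy_aux μ ℓ hμ hℓ c n (ℓ - 1) le_rfl
  refine ⟨a, j, fun s hs => ⟨(haj s hs).1, ?_⟩⟩
  rw [(haj s hs).2]
  set τ : ℕ := μ - (ℓ - 1 - s) with hτ
  rw [Greedy_lt (show s < ℓ - 1 from hs)]
  obtain ⟨k, hk⟩ : ∃ k, ℓ - 1 = (s + 1) + k := ⟨ℓ - 1 - (s + 1), by omega⟩
  have h1 : ∑ u ∈ range (ℓ - 1), (a u * (ld ℓ μ u 0 s : ℤ) + (ld ℓ μ u (j u) s : ℤ)) =
      ∑ u ∈ range (s + 1), (a u * (ld ℓ μ u 0 s : ℤ) + (ld ℓ μ u (j u) s : ℤ)) +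
      (∑ u ∈ range k, (a (s + 1 + u) + 1)) * (τ : ℤ) := by
    rw [hk, sum_range_add, sum_mul]
    congr 1
    refine sum_congr rfl fun u _ => ?_
    rw [Greedy_lt (by omega), Greedy_lt (by omega), ← hτ]
    ring
  have h2 : ∑ u ∈ range (ℓ - 1), (a u + 1) =
      ∑ u ∈ range (s + 1), (a u + 1) + ∑ u ∈ range k, (a (s + 1 + u) + 1) := by
    rw [hk, sum_range_add]
  rw [h1, h2, sum_range_succ (fun u => a u * (ld ℓ μ u 0 s : ℤ) + (ld ℓ μ u (j u) s : ℤ)),
    Greedy_self, Greedy_self, Nat.sub_zero, ← hτ]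
  ring

end Pool.Agent.H18.Ta

end

section

/-!
# Module RgS (TA): summation over the exponents with bounded last coordinate
-/

namespace Pool.Agent.H18.Ta

open Finset Pool.Agent.H18.Ex

theorem mem_rg3 {b d : ℕ} {a : Fin 3 → ℕ} :
    a ∈ Rg d (![d, d, b] : Fin 3 → ℕ) ↔ a 2 ≤ b ∧ a 0 + a 1 + a 2 = d := by
  rw [mem_Rg, Fin.sum_univ_three]
  constructor
  · rintro ⟨h1, h2⟩
    exact ⟨h1 2, h2⟩
  · rintro ⟨h1, h2⟩
    refine ⟨fun i => ?_, h2⟩
    fin_cases i
    · show a 0 ≤ d
      omega
    · show a 1 ≤ d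
      omega
    · exact h1

theorem rg_sum {M : Type*} [AddCommMonoid M] (b d : ℕ) (hbd : b ≤ d) (g : (Fin 3 → ℕ) → M) :
    ∑ a ∈ Rg d (![d, d, b] : Fin 3 → ℕ), g a =
      ∑ s ∈ range (b + 1), ∑ a ∈ range (d + 1 - s), g ![d - s - a, a, s] := by
  rw [sum_sigma']
  refine sum_bij' (fun a _ => ⟨a 2, a 1⟩) (fun x _ => ![d - x.1 - x.2, x.2, x.1]) ?_ ?_ ?_ ?_ ?_
  · intro a ha
    rw [mem_rg3] at ha
    rw [mem_sigma, mem_range, mem_range]
    constructor
    · show a 2 < b + 1
      omega
    · show a 1 < d + 1 - a 2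
      omega
  · intro x hx
    rw [mem_sigma, mem_range, mem_range] at hx
    rw [mem_rg3]
    refine ⟨?_, ?_⟩
    · show x.1 ≤ b
      omega
    · show d - x.1 - x.2 + x.2 + x.1 = d
      omega
  · intro a ha
    rw [mem_rg3] at ha
    funext i
    fin_cases i
    · show d - a 2 - a 1 = a 0
      omega
    · rfl
    · rfl
  · intro x hx
    rfl
  · intro a ha
    rw [mem_rg3] at ha
    congr 1
    funext i
    fin_cases i
    · show a 0 = d - a 2 - a 1
      omega
    · rfl
    · rfl

end Pool.Agent.H18.Ta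

end

section

/-!
# Lattice points of truncated boxes: counting
-/

namespace Pool.Agent.H18.Fat

open Finset

section

variable {r : ℕ}

/-- The lattice points `a` with `v ≤ a < u` and `lo ≤ |a| < hi`. -/
noncomputable def Rg (v u : Fin r → ℤ) (lo hi : ℤ) : Finset (Fin r → ℤ) :=
  (Fintype.piFinset fun j => Ico (v j) (u j)).filter fun a => lo ≤ ∑ j, a j ∧ ∑ j, a j < hi

theorem mem_Rg {v u : Fin r → ℤ} {lo hi : ℤ} {a : Fin r → ℤ} :
    a ∈ Rg v u lo hi ↔ (∀ j, v j ≤ a j ∧ a j < u j) ∧ lo ≤ ∑ j, a j ∧ ∑ j, a j < hi := by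
  unfold Rg
  rw [mem_filter, Fintype.mem_piFinset]
  simp only [mem_Ico]

end

end Pool.Agent.H18.Fat

end
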