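import Pool.Agent.H94.LP3.M28
import Pool.Agent.H94.LP3.M52
import Pool.Agent.H94.LP3.M53

/-! The parts of this file: H18.Pr.OneD, H18.Pr.AsmM, H18.Pr.AsmV, H18.Pr.Strict, H18.Pr.Space_1. -/

section

/-!
# Module OneD (PR): exactness in dimension one
-/

namespace Pool.Agent.H18.Pr

open Finset Pool.Agent.H18.Ex Pool.Agent.H18.Cub

variable {R : ℕ}

private theorem one_tay {ι : Type} [Fintype ι] [DecidableEq ι] (i : ι) (f : Polynomial ℂ)
    (q : ι → ℂ) (j : ℕ) :
    tay (Polynomial.aeval (MvPolynomial.X i : MvPolynomial ι ℂ) f) q (Pi.single i j) =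
      (Polynomial.taylor (q i) f).coeff j := by
  unfold tay
  have h1 : trl q (Polynomial.aeval (MvPolynomial.X i : MvPolynomial ι ℂ) f) =
      Polynomial.aeval (MvPolynomial.X i : MvPolynomial ι ℂ) (Polynomial.taylor (q i) f) := by
    rw [← Polynomial.aeval_algHom_apply, Polynomial.taylor_apply, Polynomial.aeval_comp]
    congr 1
    congr 1
    unfold trl
    rw [MvPolynomial.aeval_X, map_add, Polynomial.aeval_X, Polynomial.aeval_C]
    rfl
  rw [h1]
  set h := Polynomial.taylor (q i) f with hh
  have h2 : Finsupp.equivFunOnFinite.symm (Pi.single i j : ι → ℕ) = Finsupp.single i j :=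
    Finsupp.equivFunOnFinite_symm_single i j
  rw [h2, Polynomial.aeval_eq_sum_range, MvPolynomial.coeff_sum]
  have h3 : ∀ n, MvPolynomial.coeff (Finsupp.single i j)
      (h.coeff n • (MvPolynomial.X i : MvPolynomial ι ℂ) ^ n) =
        if n = j then h.coeff n else 0 := by
    intro n
    rw [MvPolynomial.coeff_smul, MvPolynomial.coeff_X_pow]
    by_cases hn : n = j
    · subst hn
      simp
    · rw [if_neg hn, if_neg, smul_zero]
      intro h4
      exact hn (Finsupp.single_injective i h4)
  rw [Finset.sum_congr rfl fun n _ => h3 n]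
  by_cases hj : j ∈ range (h.natDegree + 1)
  · rw [Finset.sum_ite_eq' (range (h.natDegree + 1)) j fun n => h.coeff n, if_pos hj]
  · rw [Finset.sum_ite_eq' (range (h.natDegree + 1)) j fun n => h.coeff n, if_neg hj]
    rw [Finset.mem_range] at hj
    exact (Polynomial.coeff_eq_zero_of_natDegree_lt (by omega)).symm

private theorem one_dvd {ι : Type} [Fintype ι] [DecidableEq ι] (i : ι) (f : Polynomial ℂ)
    (q : ι → ℂ) (s : ℕ)
    (h : ∀ b : ι → ℕ, ∑ k, b k < s →
      tay (Polynomial.aeval (MvPolynomial.X i : MvPolynomial ι ℂ) f) q b = 0) :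
    (Polynomial.X - Polynomial.C (q i)) ^ s ∣ f := by
  rw [Polynomial.X_sub_C_pow_dvd_iff, Polynomial.X_pow_dvd_iff]
  intro j hj
  have h1 := h (Pi.single i j) (by rw [Finset.sum_pi_single']; simpa using hj)
  rw [one_tay] at h1
  rwa [Polynomial.taylor_apply] at h1

/-- A polynomial in one of the variables. -/
private theorem one_uni (u : Fin (R + 1)) (F : MvPolynomial (Fin (R + 1)) ℂ)
    (hF : ∀ i, i < u ∨ u < i → F.degreeOf i = 0) :
    Polynomial.aeval (MvPolynomial.X u : MvPolynomial (Fin (R + 1)) ℂ)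
      (MvPolynomial.aeval (fun _ => (Polynomial.X : Polynomial ℂ)) F) = F := by
  have hv : ∀ i ∈ F.vars, i = u := by
    intro i hi
    by_contra hne
    have h0 := hF i (lt_or_gt_of_ne hne)
    rw [MvPolynomial.vars_def, Multiset.mem_toFinset] at hi
    rw [MvPolynomial.degreeOf_def, Multiset.count_eq_zero] at h0
    exact h0 hi
  have := MvPolynomial.hom_congr_vars
    (f₁ := ((Polynomial.aeval (MvPolynomial.X u : MvPolynomial (Fin (R + 1)) ℂ)).comp
      (MvPolynomial.aeval (fun _ : Fin (R + 1) => (Polynomial.X : Polynomial ℂ))) :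
        MvPolynomial (Fin (R + 1)) ℂ →ₐ[ℂ] MvPolynomial (Fin (R + 1)) ℂ).toRingHom)
    (f₂ := RingHom.id _) (p₁ := F) (p₂ := F) ?_ ?_ rfl
  · exact this
  · ext1 c
    simp [MvPolynomial.algebraMap_eq]
  · intro i hi _
    simp [hv i hi]

private theorem one_supp (g : Polynomial ℂ) (u : Fin (R + 1)) (n : ℕ) (hn : n ∈ g.support) :
    Finsupp.single u n ∈
      (Polynomial.aeval (MvPolynomial.X u : MvPolynomial (Fin (R + 1)) ℂ) g).support := by
  rw [MvPolynomial.mem_support_iff, Polynomial.aeval_eq_sum_range, MvPolynomial.coeff_sum]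
  have h3 : ∀ k, MvPolynomial.coeff (Finsupp.single u n)
      (g.coeff k • (MvPolynomial.X u : MvPolynomial (Fin (R + 1)) ℂ) ^ k) =
        if k = n then g.coeff k else 0 := by
    intro k
    rw [MvPolynomial.coeff_smul, MvPolynomial.coeff_X_pow]
    by_cases hn : k = n
    · subst hn
      simp
    · rw [if_neg hn, if_neg, smul_zero]
      intro h4
      exact hn (Finsupp.single_injective u h4)
  rw [Finset.sum_congr rfl fun n _ => h3 n]
  rw [Finset.sum_ite_eq' (range (g.natDegree + 1)) n fun n => g.coeff n, if_pos]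
  · exact Polynomial.mem_support_iff.1 hn
  · rw [Finset.mem_range]
    exact Nat.lt_succ_of_le (Polynomial.le_natDegree_of_mem_supp n hn)

private theorem one_Th (e : ℕ) (u : Fin (R + 1)) (p : ℂ) (f : Polynomial ℂ) :
    Th e u u p (Polynomial.aeval (MvPolynomial.X u : MvPolynomial (Fin (R + 1)) ℂ) f) =
      Polynomial.aeval (MvPolynomial.X u : MvPolynomial (Fin (R + 1)) ℂ)
        (f.comp (Polynomial.X - Polynomial.C p)) := by
  rw [← Polynomial.aeval_algHom_apply, Polynomial.aeval_comp]
  congr 1
  congr 1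
  unfold Th
  rw [MvPolynomial.aeval_X, if_pos rfl, map_sub, Polynomial.aeval_X, Polynomial.aeval_C]
  rfl

private theorem one_cost (e : ℕ) (u : Fin (R + 1)) (n : ℕ) :
    cost e u (Finsupp.single u n) = kap e (R - u.val) n := by
  unfold cost
  rw [Finset.sum_eq_single u]
  · simp
  · intro b _ hb
    rw [if_neg hb, Finsupp.single_eq_of_ne hb]
  · intro h
    exact absurd (mem_univ _) h

private theorem one_shift (f : Polynomial ℂ) (a p : ℂ) (s : ℕ)
    (h : (Polynomial.X - Polynomial.C a) ^ s ∣ f) :
    (Polynomial.X - Polynomial.C (a + p)) ^ s ∣ f.comp (Polynomial.X - Polynomial.C p) := by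
  obtain ⟨g, rfl⟩ := h
  rw [Polynomial.mul_comp, Polynomial.pow_comp, Polynomial.sub_comp, Polynomial.X_comp,
    Polynomial.C_comp, map_add, sub_sub, add_comm (Polynomial.C p)]
  exact Dvd.intro _ rfl

/-- An element of `WW e u u p d x m` is a polynomial in `z_u`; as a polynomial in `x_u = z_u + p` it
has exponents `a` with `kap e (R - u) a ≤ d`, that is at most `tau e (R - u) 1 d` exponents
(`kap_card`, `le_kap`), and zeros of order `m b` at the positive integers `y b`.  Choose the free points at
further positive integers and use the theorem of Descartes (`Pool.Agent.H18.Cub.Desc`), as in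
`WC_trace_curve`. -/
theorem WW_one (e : ℕ) (he : 1 ≤ e) (u : Fin (R + 1)) (p : ℂ) (d : ℕ) {B : Type} [Fintype B]
    (x : B → ℂ) (m : B → ℕ) (y : B → ℕ) (hy : Function.Injective y) (hpos : ∀ b, 0 < y b)
    (hxy : ∀ b, x b + p = (y b : ℂ)) (S : Multiset ℕ)
    (h : tau e (R - u.val) 1 d ≤ ∑ b, m b + S.sum) : Fk (WW e u u p d x m) S := by
  obtain ⟨k, s, hs⟩ := multi_exists_fin S
  refine ⟨k, s, hs, ?_⟩
  set Y : Fin k → ℕ := fun i => ∑ b, y b + 1 + i with hY
  refine ⟨fun i => ptv u ((Y i : ℂ) - p), fun F hF hsat => ?_⟩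
  obtain ⟨hF1, hF2, hF3⟩ := hF
  set f : Polynomial ℂ := MvPolynomial.aeval (fun _ => (Polynomial.X : Polynomial ℂ)) F with hf
  have hfF : Polynomial.aeval (MvPolynomial.X u : MvPolynomial (Fin (R + 1)) ℂ) f = F :=
    one_uni u F hF1
  suffices hf0 : f.comp (Polynomial.X - Polynomial.C p) = 0 by
    have : f = 0 := by
      have h2 : (f.comp (Polynomial.X - Polynomial.C p)).comp (Polynomial.X + Polynomial.C p) = f := by
        rw [Polynomial.comp_assoc]
        simp
      rw [← h2, hf0, Polynomial.zero_comp]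
    rw [← hfF, this, map_zero]
  have hpt : ∀ a : ℂ, ptv u a u = a := fun a => by simp [ptv]
  have hd1 : ∀ b, (Polynomial.X - Polynomial.C (y b : ℂ)) ^ m b ∣
      f.comp (Polynomial.X - Polynomial.C p) := by
    intro b
    rw [← hxy b]
    apply one_shift
    have := one_dvd u f (ptv u (x b)) (m b) fun β hβ => by
      rw [hfF]; exact hF3 b β hβ
    rwa [hpt] at this
  have hd2 : ∀ i, (Polynomial.X - Polynomial.C (Y i : ℂ)) ^ s i ∣
      f.comp (Polynomial.X - Polynomial.C p) := by
    intro i
    have h0 : (Y i : ℂ) = ((Y i : ℂ) - p) + p := by ring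
    rw [h0]
    apply one_shift
    have := one_dvd u f (ptv u ((Y i : ℂ) - p)) (s i) fun β hβ => by
      rw [hfF]; exact hsat i β hβ
    rwa [hpt] at this
  refine descartes_complex _ (Sum.elim (fun b => (y b : ℝ)) fun i => (Y i : ℝ)) ?_ ?_
    (Sum.elim m s) ?_ ?_
  · have hxY : ∀ b i, y b ≠ Y i := by
      intro b i hbi
      have h1 : y b ≤ ∑ b, y b := Finset.single_le_sum (fun _ _ => Nat.zero_le _) (mem_univ b)
      rw [hY] at hbi
      simp only at hbi
      omega
    have hYi : ∀ i i', Y i = Y i' → i = i' := by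
      intro i i' hii
      rw [hY] at hii
      simp only at hii
      exact Fin.ext (by omega)
    rintro (b | i) (b' | i') hbb
    · simp only [Sum.elim_inl, Nat.cast_inj] at hbb
      rw [hy hbb]
    · simp only [Sum.elim_inl, Sum.elim_inr, Nat.cast_inj] at hbb
      exact absurd hbb (hxY b i')
    · simp only [Sum.elim_inl, Sum.elim_inr, Nat.cast_inj] at hbb
      exact absurd hbb.symm (hxY b' i)
    · simp only [Sum.elim_inr, Nat.cast_inj] at hbb
      rw [hYi i i' hbb]
  · rintro (b | i)
    · simp only [Sum.elim_inl, Nat.cast_pos]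
      exact hpos b
    · simp only [Sum.elim_inr, Nat.cast_pos]
      rw [hY]
      simp only
      omega
  · rintro (b | i)
    · have := hd1 b
      simpa using this
    · have := hd2 i
      simpa using this
  · have h1 : (f.comp (Polynomial.X - Polynomial.C p)).support.card ≤
        tau e (R - u.val) 1 d := by
      rw [← kap_card e (R - u.val) d he]
      apply Finset.card_le_card
      intro n hn
      have h3 := hF2 (Finsupp.single u n) (by
        rw [← hfF, one_Th]
        exact one_supp _ u n hn)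
      rw [one_cost] at h3
      rw [Finset.mem_filter, Finset.mem_range]
      refine ⟨?_, h3⟩
      have h4 := le_kap e (R - u.val) n he
      have h5 : e ^ (R - u.val) * (kap e (R - u.val) n + 1) ≤ e ^ (R - u.val) * (d + 1) :=
        Nat.mul_le_mul_left _ (by omega)
      omega
    have h2 : ∑ k, Sum.elim m s k = ∑ b, m b + S.sum := by
      rw [Fintype.sum_sum_type, ← hs]
      rfl
    rw [h2]
    exact h1.trans h

end Pool.Agent.H18.Pr

end

section

/-!
# Module AsmM (PR): exactness in the main family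
-/

namespace Pool.Agent.H18.Pr

open Finset Pool.Agent.H18.Ex Pool.Agent.H18.Cub

variable {R t s : ℕ}

theorem ExM_le {u : Fin (R + 1)} {M D D' : ℕ} (h : ExM t s u M D) (hD : D ≤ D') :
    ExM t s u M D' := fun n N hMg S hS hsum => h n N (hMg.le hD) S hS hsum

theorem ExV_le {e : ℕ} {v u : Fin (R + 1)} {M D D' : ℕ} (h : ExV e v u M D)
    (hD : D ≤ D') : ExV e v u M D' :=
  fun q hq d m hm S hS hsum => h q hq d m (by omega) S hS hsum

/-- Dimension one (`WW_one`, `y = xx`). -/
theorem exM_base (ht : 1 ≤ t) (u : Fin (R + 1)) (hu : u.val = 0) (M : ℕ) : ExM t s u M 0 := by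
  intro n N _ S _ hsum
  have hu0 : u = 0 := Fin.ext (by simpa using hu)
  have hell : ∀ m, ell 1 m = m := fun m => ell_one_left m
  have h0 : u.val + 1 = 1 := by omega
  rw [h0] at hsum
  have hmap : (S.map (ell 1)).sum = S.sum := by
    congr 1
    conv_rhs => rw [← Multiset.map_id S]
    exact Multiset.map_congr rfl fun m _ => hell m
  rw [hmap] at hsum
  simp only [hell] at hsum
  unfold WM
  have h1 : (0 : Fin (R + 1)) = u := hu0.symm
  rw [h1]
  exact WW_one (t + 1) (by omega) u 0 (dd N) _ (mu n N) xx xx_injective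
    (fun b => by rcases b with l | j <;> simp [xx]) (fun b => by simp) S hsum

theorem dd_le_max (N : Option (Fin t) → ℕ) (B : ℕ) (h : ∀ i, N i ≤ B) :
    dd N ≤ (2 * t + 1) * B := by
  unfold dd
  have h1 : ∑ l, N (some l) ≤ ∑ _l : Fin t, B := sum_le_sum fun l _ => h (some l)
  rw [sum_const, card_univ, Fintype.card_fin, smul_eq_mul] at h1
  have h2 := Nat.mul_le_mul_left (t + 1) (h none)
  have h3 : (2 * t + 1) * B = (t + 1) * B + t * B := by ring
  omega

end Pool.Agent.H18.Pr

end

section

/-!
# Module AsmV (PR): exactness for one big point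
-/

namespace Pool.Agent.H18.Pr

open Finset Pool.Agent.H18.Ex Pool.Agent.H18.Cub

variable {R : ℕ}

/-! ### Auxiliary facts -/

private theorem av_choose_lt (j : ℕ) (hj : 1 ≤ j) (x : ℕ) (hx : j ≤ x + 1) (k : ℕ) :
    x.choose j + k ≤ (x + k).choose j := by
  induction k with
  | zero => simp
  | succ k ih =>
    obtain ⟨i, rfl⟩ : ∃ i, j = i + 1 := ⟨j - 1, by omega⟩
    have h1 : (x + k + 1).choose (i + 1) = (x + k).choose i + (x + k).choose (i + 1) :=
      Nat.choose_succ_succ _ _
    have h2 : 1 ≤ (x + k).choose i := Nat.choose_pos (by omega)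
    have h3 : x + (k + 1) = x + k + 1 := by ring
    rw [h3, h1]
    omega

/-- A point of multiplicity `m ≤ d` leaves at least `d - m + 1` dimensions. -/
theorem av_tau_ell (e A j d m D : ℕ) (he : 1 ≤ e) (hj : 1 ≤ j) (h : m + D ≤ d) :
    ell j m + D + 1 ≤ tau e A j d := by
  refine le_trans ?_ (choose_le_tau e A j d he)
  unfold ell
  rcases Nat.eq_zero_or_pos m with rfl | hm
  · have h1 : (0 + j - 1).choose j = 0 := Nat.choose_eq_zero_of_lt (by omega)
    rw [h1]
    have h2 := av_choose_lt j hj j (by omega) d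
    rw [Nat.choose_self] at h2
    rw [add_comm d j]
    omega
  · have h2 := av_choose_lt j hj (m + j - 1) (by omega) (d - m + 1)
    have h3 : m + j - 1 + (d - m + 1) = d + j := by omega
    rw [h3] at h2
    omega

theorem av_mono {e : ℕ} {v u : Fin (R + 1)} {M D D' : ℕ} (hD : D ≤ D')
    (h : ExV e v u M D) : ExV e v u M D' := by
  intro q hq d m hd S hS hsum
  exact h q hq d m (by omega) S hS hsum

/-- Dimension one (`WW_one`). -/
theorem exV_base (e : ℕ) (he : 2 ≤ e) (u : Fin (R + 1)) (M : ℕ) : ExV e u u M 0 := by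
  intro q hq d m _ S _ hsum
  refine WW_one e (by omega) u (q : ℂ) d (fun _ : Unit => (0 : ℂ)) (fun _ => m) (fun _ => q)
    (fun _ _ _ => rfl) (fun _ => hq) (fun _ => by rw [zero_add]) S ?_
  rw [Nat.sub_self, zero_add] at hsum
  have h1 : S.map (ell 1) = S := by
    have h2 : S.map (ell 1) = S.map id := Multiset.map_congr rfl fun x _ => ell_one_left x
    rw [h2, Multiset.map_id]
  rw [h1, ell_one_left] at hsum
  simpa using hsum

end Pool.Agent.H18.Pr

end

section

/-!
# Module Strict (PR): division and substitution, and the cost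
-/

namespace Pool.Agent.H18.Pr

open Finset Pool.Agent.H18.Ex Pool.Agent.H18.Cub

variable {R : ℕ}

/-- An element of the support with the largest cost. -/
theorem strict_max (e : ℕ) (u : Fin (R + 1)) {G : MvPolynomial (Fin (R + 1)) ℂ}
    {α : Fin (R + 1) →₀ ℕ} (hα : α ∈ G.support) :
    ∃ γ ∈ G.support, ∀ δ ∈ G.support, cost e u δ ≤ cost e u γ :=
  exists_max_image G.support (fun δ => cost e u δ) ⟨α, hα⟩

theorem strict_coe_add (α : Fin (R + 1) →₀ ℕ) (i : Fin (R + 1)) (c : ℕ) :
    ⇑(α + Finsupp.single i c) = Function.update (⇑α) i (α i + c) := by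
  classical
  funext j
  by_cases hj : j = i
  · subst hj
    simp
  · rw [Function.update_of_ne hj, Finsupp.add_apply, Finsupp.single_eq_of_ne hj, add_zero]

/-- Take `α` in the support of `G` with maximal cost.  The coefficient of the product at
`α + e • single u' 1` is `-G.coeff α`, because `α + e • single u' 1 - single u 1` has a larger cost
than `α` (`cost_add_top`, `cost_add_of_ne`, `2 ≤ e`), and its cost is `cost α + e`. -/
theorem strict_S (e : ℕ) (he : 2 ≤ e) (u u' : Fin (R + 1)) (hu : u.val = u'.val + 1)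
    (G : MvPolynomial (Fin (R + 1)) ℂ) (d : ℕ)
    (h : ∀ α : Fin (R + 1) →₀ ℕ,
      α ∈ ((MvPolynomial.X u - MvPolynomial.X u' ^ e) * G).support → cost e u α ≤ d) :
    ∀ α : Fin (R + 1) →₀ ℕ, α ∈ G.support → cost e u α + e ≤ d := by
  classical
  intro α₀ hα₀
  obtain ⟨α, hα, hmax⟩ := strict_max e u hα₀
  have hne : u' ≠ u := by
    intro h'
    rw [h'] at hu
    omega
  have hβ : cost e u (α + Finsupp.single u' e : Fin (R + 1) →₀ ℕ) = cost e u α + e := by
    rw [strict_coe_add, cost_add_of_ne e u u' hne]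
  have hmem : (α + Finsupp.single u' e : Fin (R + 1) →₀ ℕ) ∈
      ((MvPolynomial.X u - MvPolynomial.X u' ^ e) * G).support := by
    rw [MvPolynomial.mem_support_iff, sub_mul, MvPolynomial.coeff_sub,
      MvPolynomial.X_pow_eq_monomial, add_comm α, MvPolynomial.coeff_monomial_mul, one_mul,
      mul_comm (MvPolynomial.X u) G, MvPolynomial.coeff_mul_X']
    have h0 : (if u ∈ (Finsupp.single u' e + α : Fin (R + 1) →₀ ℕ).support then
        MvPolynomial.coeff ((Finsupp.single u' e + α : Fin (R + 1) →₀ ℕ) - Finsupp.single u 1) G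
        else 0) = 0 := by
      split_ifs with hu1
      · by_contra hc
        have hγ : ((Finsupp.single u' e + α : Fin (R + 1) →₀ ℕ) - Finsupp.single u 1) ∈
            G.support := MvPolynomial.mem_support_iff.2 hc
        have h1 := hmax _ hγ
        have h2 : ((Finsupp.single u' e + α : Fin (R + 1) →₀ ℕ) - Finsupp.single u 1) +
            Finsupp.single u 1 = α + Finsupp.single u' e := by
          have h2' : (Finsupp.single u 1 : Fin (R + 1) →₀ ℕ) ≤ Finsupp.single u' e + α := by
            rw [Finsupp.single_le_iff]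
            exact Nat.one_le_iff_ne_zero.2 (Finsupp.mem_support_iff.1 hu1)
          rw [tsub_add_cancel_of_le h2', add_comm (Finsupp.single u' e) α]
        have h3 := cost_add_top e (by omega) u
          (⇑(Finsupp.single u' e + α - Finsupp.single u 1 : Fin (R + 1) →₀ ℕ))
        rw [← strict_coe_add, h2, hβ] at h3
        omega
      · rfl
    rw [h0, zero_sub, neg_ne_zero]
    exact MvPolynomial.mem_support_iff.1 hα
  have h4 := h _ hmem
  rw [hβ] at h4
  have h5 := hmax α₀ hα₀
  omega

/-- Similarly, look at the coefficient of the product at `α + single v 1`. -/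
theorem strict_H (e : ℕ) (u v : Fin (R + 1)) (hv : v ≠ u) (c : ℂ)
    (G : MvPolynomial (Fin (R + 1)) ℂ) (d : ℕ)
    (h : ∀ α : Fin (R + 1) →₀ ℕ,
      α ∈ ((MvPolynomial.X v - MvPolynomial.C c) * G).support → cost e u α ≤ d) :
    ∀ α : Fin (R + 1) →₀ ℕ, α ∈ G.support → cost e u α + 1 ≤ d := by
  classical
  intro α₀ hα₀
  obtain ⟨α, hα, hmax⟩ := strict_max e u hα₀
  have hβ : cost e u (α + Finsupp.single v 1 : Fin (R + 1) →₀ ℕ) = cost e u α + 1 := by
    rw [strict_coe_add, cost_add_of_ne e u v hv]
  have hmem : (α + Finsupp.single v 1 : Fin (R + 1) →₀ ℕ) ∈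
      ((MvPolynomial.X v - MvPolynomial.C c) * G).support := by
    have h0 : MvPolynomial.coeff (α + Finsupp.single v 1 : Fin (R + 1) →₀ ℕ) G = 0 := by
      by_contra hc
      have h1 := hmax _ (MvPolynomial.mem_support_iff.2 hc)
      rw [hβ] at h1
      omega
    rw [MvPolynomial.mem_support_iff, sub_mul, MvPolynomial.coeff_sub, MvPolynomial.coeff_C_mul,
      h0, mul_zero, sub_zero, mul_comm, MvPolynomial.coeff_mul_X]
    exact MvPolynomial.mem_support_iff.1 hα
  have h4 := h _ hmem
  rw [hβ] at h4
  have h5 := hmax α₀ hα₀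
  omega

/-- Monomial substitution. -/
theorem strict_aeval (g : Fin (R + 1) → Fin (R + 1) →₀ ℕ) (b : Fin (R + 1) → ℂ)
    (G : MvPolynomial (Fin (R + 1)) ℂ) :
    ∀ β ∈ (MvPolynomial.aeval (fun i => MvPolynomial.monomial (g i) (b i)) G).support,
      ∃ α ∈ G.support, β = ∑ i, α i • g i := by
  classical
  intro β hβ
  have h1 : ∀ (s : Finset (Fin (R + 1))) (α : Fin (R + 1) → ℕ),
      ∏ i ∈ s, (MvPolynomial.monomial (g i) (b i)) ^ α i =
        MvPolynomial.monomial (∑ i ∈ s, α i • g i) (∏ i ∈ s, b i ^ α i) := by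
    intro s α
    induction s using Finset.induction_on with
    | empty => simp
    | insert i s hi ih =>
      rw [prod_insert hi, sum_insert hi, prod_insert hi, ih, MvPolynomial.monomial_pow,
        MvPolynomial.monomial_mul]
  have h2 : MvPolynomial.aeval (fun i => MvPolynomial.monomial (g i) (b i)) G =
      ∑ α ∈ G.support, MvPolynomial.monomial (∑ i, α i • g i)
        (MvPolynomial.coeff α G * ∏ i, b i ^ α i) := by
    conv_lhs => rw [MvPolynomial.as_sum G]
    rw [map_sum]
    refine sum_congr rfl fun α _ => ?_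
    rw [MvPolynomial.aeval_monomial, Finsupp.prod_fintype _ _ (fun i => pow_zero _), h1,
      MvPolynomial.algebraMap_eq, MvPolynomial.C_mul_monomial]
  rw [h2] at hβ
  have h3 := MvPolynomial.support_sum hβ
  obtain ⟨α, hα, hβα⟩ := mem_biUnion.1 h3
  refine ⟨α, hα, ?_⟩
  exact mem_singleton.1 (MvPolynomial.support_monomial_subset hβα)

theorem sub_S (e : ℕ) (he : 1 ≤ e) (u u' : Fin (R + 1)) (hu : u.val = u'.val + 1)
    (G : MvPolynomial (Fin (R + 1)) ℂ) (d : ℕ) (h : ∀ α ∈ G.support, cost e u α ≤ d) :
    ∀ α ∈ (MvPolynomial.aeval (Function.update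
      (MvPolynomial.X : Fin (R + 1) → MvPolynomial (Fin (R + 1)) ℂ) u
      (MvPolynomial.X u' ^ e)) G).support, cost e u' α ≤ d := by
  classical
  have hf : (Function.update (MvPolynomial.X : Fin (R + 1) → MvPolynomial (Fin (R + 1)) ℂ) u
      (MvPolynomial.X u' ^ e)) = fun i => MvPolynomial.monomial
        (if i = u then Finsupp.single u' e else Finsupp.single i 1) (1 : ℂ) := by
    funext i
    by_cases hi : i = u
    · subst hi
      rw [Function.update_self, if_pos rfl, MvPolynomial.X_pow_eq_monomial]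
    · rw [Function.update_of_ne hi, if_neg hi]
      rfl
  rw [hf]
  intro β hβ
  obtain ⟨α, hα, rfl⟩ := strict_aeval (R := R)
    (fun i => if i = u then Finsupp.single u' e else Finsupp.single i 1) (fun _ => 1) G β hβ
  have hne : u' ≠ u := by
    intro h'
    rw [h'] at hu
    omega
  have h1 : (⇑(∑ i, α i • (if i = u then Finsupp.single u' e else Finsupp.single i 1 :
      Fin (R + 1) →₀ ℕ)) : Fin (R + 1) → ℕ) =
      fun i => if i = u then 0 else if i = u' then α u' + e * α u else α i := by
    funext j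
    rw [Finsupp.finsetSum_apply, ← add_sum_erase _ _ (mem_univ u), if_pos rfl]
    have h2 : ∑ i ∈ univ.erase u, (α i • (if i = u then Finsupp.single u' e else
        Finsupp.single i 1 : Fin (R + 1) →₀ ℕ)) j = if j = u then 0 else α j := by
      have h3 : ∀ i ∈ univ.erase u, (α i • (if i = u then Finsupp.single u' e else
          Finsupp.single i 1 : Fin (R + 1) →₀ ℕ)) j = if i = j then α j else 0 := by
        intro i hi
        rw [if_neg (ne_of_mem_erase hi), Finsupp.smul_apply, Finsupp.single_apply]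
        by_cases hij : i = j
        · rw [if_pos hij, if_pos hij, hij, smul_eq_mul, mul_one]
        · rw [if_neg hij, if_neg hij, smul_zero]
      rw [sum_congr rfl h3, sum_ite_eq' (univ.erase u) j]
      by_cases hj : j = u
      · rw [if_pos hj, if_neg (fun h' => ne_of_mem_erase h' hj)]
      · rw [if_neg hj, if_pos (mem_erase.2 ⟨hj, mem_univ j⟩)]
    rw [h2, Finsupp.smul_apply, Finsupp.single_apply, smul_eq_mul]
    by_cases hju : j = u
    · rw [if_pos hju, if_pos hju, if_neg (fun h' => hne (h'.trans hju)), mul_zero]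
    · rw [if_neg hju, if_neg hju]
      by_cases hju' : j = u'
      · rw [if_pos hju'.symm, if_pos hju', hju']
        ring
      · rw [if_neg (Ne.symm hju'), if_neg hju', mul_zero, zero_add]
  rw [h1]
  exact (cost_subS e he u u' hu α).trans (h α hα)

theorem sub_H (e : ℕ) (u v : Fin (R + 1)) (hv : v ≠ u) (c : ℂ)
    (G : MvPolynomial (Fin (R + 1)) ℂ) (d : ℕ) (h : ∀ α ∈ G.support, cost e u α ≤ d) :
    ∀ α ∈ (MvPolynomial.aeval (Function.update
      (MvPolynomial.X : Fin (R + 1) → MvPolynomial (Fin (R + 1)) ℂ) v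
      (MvPolynomial.C c)) G).support, cost e u α ≤ d := by
  classical
  have hf : (Function.update (MvPolynomial.X : Fin (R + 1) → MvPolynomial (Fin (R + 1)) ℂ) v
      (MvPolynomial.C c)) = fun i => MvPolynomial.monomial
        (if i = v then 0 else Finsupp.single i 1) (if i = v then c else 1) := by
    funext i
    by_cases hi : i = v
    · subst hi
      rw [Function.update_self, if_pos rfl, if_pos rfl]
      rfl
    · rw [Function.update_of_ne hi, if_neg hi, if_neg hi]
      rfl
  rw [hf]
  intro β hβ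
  obtain ⟨α, hα, rfl⟩ := strict_aeval (R := R)
    (fun i => if i = v then 0 else Finsupp.single i 1) (fun i => if i = v then c else 1) G β hβ
  have h1 : (⇑(∑ i, α i • (if i = v then 0 else Finsupp.single i 1 :
      Fin (R + 1) →₀ ℕ)) : Fin (R + 1) → ℕ) = Function.update (⇑α) v 0 := by
    funext j
    rw [Finsupp.finsetSum_apply]
    have h3 : ∀ i ∈ (univ : Finset (Fin (R + 1))), (α i • (if i = v then 0 else
        Finsupp.single i 1 : Fin (R + 1) →₀ ℕ)) j =
        if i = j then (if j = v then 0 else α j) else 0 := by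
      intro i _
      by_cases hij : i = j
      · subst hij
        by_cases hi : i = v
        · rw [if_pos hi, if_pos rfl, if_pos hi, smul_zero, Finsupp.zero_apply]
        · rw [if_neg hi, if_pos rfl, if_neg hi, Finsupp.smul_apply, Finsupp.single_eq_same,
            smul_eq_mul, mul_one]
      · rw [if_neg hij]
        by_cases hi : i = v
        · rw [if_pos hi, smul_zero, Finsupp.zero_apply]
        · rw [if_neg hi, Finsupp.smul_apply, Finsupp.single_apply, if_neg hij, smul_zero]
    rw [sum_congr rfl h3, sum_ite_eq' univ j, if_pos (mem_univ j)]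
    by_cases hj : j = v
    · rw [if_pos hj, hj, Function.update_self]
    · rw [if_neg hj, Function.update_of_ne hj]
  rw [h1]
  exact (cost_subH e u v hv α).trans (h α hα)

end Pool.Agent.H18.Pr

end

section

/-!
# Module Space (PR): traces and residuals of the spaces `WW`

Compare with `Pool.Agent.H18.Cub.WC` (the case of two variables).
-/

namespace Pool.Agent.H18.Pr

open Finset Pool.Agent.H18.Ex Pool.Agent.H18.Cub

variable {R : ℕ}

/-- The inverse of `Th` on the variables. -/
noncomputable def spaceInv (e : ℕ) (v u : Fin (R + 1)) (p : ℂ) :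
    ℕ → MvPolynomial (Fin (R + 1)) ℂ
  | 0 => if v.val = 0 then MvPolynomial.X (Fin.ofNat (R + 1) 0) + MvPolynomial.C p
      else MvPolynomial.X (Fin.ofNat (R + 1) 0)
  | k + 1 => if v.val = k + 1 then MvPolynomial.X (Fin.ofNat (R + 1) (k + 1)) + MvPolynomial.C p
      else if v.val < k + 1 ∧ k + 1 ≤ u.val then
        MvPolynomial.X (Fin.ofNat (R + 1) (k + 1)) + spaceInv e v u p k ^ e
      else MvPolynomial.X (Fin.ofNat (R + 1) (k + 1))

theorem space_ofNat (i : Fin (R + 1)) : Fin.ofNat (R + 1) i.val = i := by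
  apply Fin.ext
  simp [Fin.ofNat, Nat.mod_eq_of_lt i.isLt]

theorem spaceInv_eq (e : ℕ) (v u : Fin (R + 1)) (p : ℂ) (i : Fin (R + 1)) :
    spaceInv e v u p i.val =
      if i = v then MvPolynomial.X i + MvPolynomial.C p
      else if v < i ∧ i ≤ u then MvPolynomial.X i + spaceInv e v u p (prv i).val ^ e
      else MvPolynomial.X i := by
  rcases i with ⟨k, hk⟩
  cases k with
  | zero =>
    have h0 : (Fin.ofNat (R + 1) 0 : Fin (R + 1)) = ⟨0, hk⟩ := space_ofNat ⟨0, hk⟩
    have h1 : ¬ (v < (⟨0, hk⟩ : Fin (R + 1))) := by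
      intro h
      exact absurd (Fin.lt_def.1 h) (Nat.not_lt_zero _)
    by_cases hv : v.val = 0
    · have h2 : (⟨0, hk⟩ : Fin (R + 1)) = v := Fin.ext hv.symm
      rw [if_pos h2]
      show (if v.val = 0 then _ else _) = _
      rw [if_pos hv, h0]
    · have h2 : ¬ (⟨0, hk⟩ : Fin (R + 1)) = v := fun h => hv (by rw [← h])
      rw [if_neg h2, if_neg (fun h => h1 h.1)]
      show (if v.val = 0 then _ else _) = _
      rw [if_neg hv, h0]
  | succ k =>
    have h0 : (Fin.ofNat (R + 1) (k + 1) : Fin (R + 1)) = ⟨k + 1, hk⟩ := space_ofNat ⟨k + 1, hk⟩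
    have hp : (prv (⟨k + 1, hk⟩ : Fin (R + 1))).val = k := by simp [prv]
    rw [hp]
    by_cases hv : v.val = k + 1
    · have h2 : (⟨k + 1, hk⟩ : Fin (R + 1)) = v := Fin.ext hv.symm
      rw [if_pos h2]
      show (if v.val = k + 1 then _ else _) = _
      rw [if_pos hv, h0]
    · have h2 : ¬ (⟨k + 1, hk⟩ : Fin (R + 1)) = v := fun h => hv (by rw [← h])
      rw [if_neg h2]
      show (if v.val = k + 1 then _ else _) = _
      rw [if_neg hv]
      by_cases hc : v.val < k + 1 ∧ k + 1 ≤ u.val
      · rw [if_pos hc, if_pos (show v < (⟨k + 1, hk⟩ : Fin (R + 1)) ∧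
          (⟨k + 1, hk⟩ : Fin (R + 1)) ≤ u from ⟨Fin.lt_def.2 hc.1, Fin.le_def.2 hc.2⟩), h0]
      · rw [if_neg hc, if_neg (show ¬ (v < (⟨k + 1, hk⟩ : Fin (R + 1)) ∧
          (⟨k + 1, hk⟩ : Fin (R + 1)) ≤ u) from
            fun h => hc ⟨Fin.lt_def.1 h.1, Fin.le_def.1 h.2⟩), h0]

theorem Th_X (e : ℕ) (v u : Fin (R + 1)) (p : ℂ) (i : Fin (R + 1)) :
    Th e v u p (MvPolynomial.X i) =
      if i = v then MvPolynomial.X i - MvPolynomial.C p
      else if v < i ∧ i ≤ u then MvPolynomial.X i - MvPolynomial.X (prv i) ^ e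
      else MvPolynomial.X i := by
  rw [Th, MvPolynomial.aeval_X]

theorem Th_C (e : ℕ) (v u : Fin (R + 1)) (p : ℂ) (c : ℂ) :
    Th e v u p (MvPolynomial.C c) = MvPolynomial.C c := (Th e v u p).commutes c

theorem Th_injective (e : ℕ) (v u : Fin (R + 1)) (p : ℂ) : Function.Injective (Th e v u p) := by
  have h : (MvPolynomial.aeval (fun i : Fin (R + 1) => spaceInv e v u p i.val)).comp
      (Th e v u p) = AlgHom.id ℂ (MvPolynomial (Fin (R + 1)) ℂ) := by
    refine MvPolynomial.algHom_ext (fun i => ?_)
    rw [AlgHom.comp_apply, Th_X, AlgHom.id_apply]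
    by_cases h1 : i = v
    · rw [if_pos h1, map_sub, MvPolynomial.aeval_X, spaceInv_eq, if_pos h1,
        MvPolynomial.aeval_C, MvPolynomial.algebraMap_eq]
      ring
    · rw [if_neg h1]
      by_cases h2 : v < i ∧ i ≤ u
      · rw [if_pos h2, map_sub, map_pow, MvPolynomial.aeval_X, MvPolynomial.aeval_X,
          spaceInv_eq, if_neg h1, if_pos h2]
        ring
      · rw [if_neg h2, MvPolynomial.aeval_X, spaceInv_eq, if_neg h1, if_neg h2]
  have h2 : Function.LeftInverse
      (MvPolynomial.aeval (fun i : Fin (R + 1) => spaceInv e v u p i.val)) (Th e v u p) :=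
    fun F => congrArg (fun φ : MvPolynomial (Fin (R + 1)) ℂ →ₐ[ℂ] MvPolynomial (Fin (R + 1)) ℂ =>
      φ F) h
  exact h2.injective

theorem WW_finite (e : ℕ) (he : 1 ≤ e) (v u : Fin (R + 1)) (p : ℂ) (d : ℕ) {B : Type}
    (x : B → ℂ) (m : B → ℕ) : FiniteDimensional ℂ (WW e v u p d x m) := by
  have hD : ∀ F ∈ WW e v u p d x m, (Th e v u p F).totalDegree ≤
      (R + 1) * (e ^ R * (d + 1)) := by
    intro F hF
    rw [MvPolynomial.totalDegree]
    refine Finset.sup_le fun α hα => ?_
    have h1 := hF.2.1 α hα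
    rw [Finsupp.sum_fintype _ _ (fun _ => rfl)]
    calc ∑ i, α i ≤ ∑ _i : Fin (R + 1), e ^ R * (d + 1) := by
          refine sum_le_sum fun i _ => ?_
          have h2 := le_cost e he u α i
          have h3 : e ^ R * (cost e u α + 1) ≤ e ^ R * (d + 1) :=
            Nat.mul_le_mul_left _ (by omega)
          omega
      _ = (R + 1) * (e ^ R * (d + 1)) := by
          rw [sum_const, card_univ, Fintype.card_fin, smul_eq_mul]
  let f : WW e v u p d x m →ₗ[ℂ]
      MvPolynomial.restrictTotalDegree (Fin (R + 1)) ℂ ((R + 1) * (e ^ R * (d + 1))) :=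
    { toFun := fun P => ⟨Th e v u p P.1, (MvPolynomial.mem_restrictTotalDegree _ _ _).2
        (hD P.1 P.2)⟩
      map_add' := fun P Q => by
        apply Subtype.ext
        exact map_add (Th e v u p) P.1 Q.1
      map_smul' := fun c P => by
        apply Subtype.ext
        exact map_smul (Th e v u p) c P.1 }
  refine Module.Finite.of_injective f ?_
  intro P Q h
  apply Subtype.ext
  exact Th_injective e v u p (congrArg Subtype.val h)

/-- The residual has no new variables. -/
theorem space_degreeOf_resid (i j : Fin (R + 1)) (c : ℂ) (F : MvPolynomial (Fin (R + 1)) ℂ)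
    (h : ((MvPolynomial.X j - MvPolynomial.C c) * F).degreeOf i = 0) : F.degreeOf i = 0 := by
  by_cases hF : F = 0
  · rw [hF]
    exact MvPolynomial.degreeOf_zero i
  · have hL : (MvPolynomial.X j - MvPolynomial.C c : MvPolynomial (Fin (R + 1)) ℂ) ≠ 0 := by
      intro hL
      have hc : MvPolynomial.coeff (Finsupp.single j 1)
          (MvPolynomial.X j - MvPolynomial.C c : MvPolynomial (Fin (R + 1)) ℂ) = 1 := by
        rw [MvPolynomial.coeff_sub, MvPolynomial.coeff_X, MvPolynomial.coeff_C]
        have hne : (0 : Fin (R + 1) →₀ ℕ) ≠ Finsupp.single j 1 := by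
          intro hs
          have := congrArg (fun f => f j) hs
          simp at this
        rw [if_neg hne, sub_zero]
        simp
      rw [hL, MvPolynomial.coeff_zero] at hc
      norm_num at hc
    rw [MvPolynomial.degreeOf_mul_eq hL hF] at h
    omega

theorem space_sum_update (j : Fin (R + 1)) (β : Fin (R + 1) → ℕ) :
    ∑ i, Function.update β j (β j + 1) i = ∑ i, β i + 1 := by
  rw [sum_update_of_mem (mem_univ j), ← add_sum_erase univ β (mem_univ j),
    sdiff_singleton_eq_erase]
  omega

/-- The points of the residual along a hyperplane through the point. -/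
theorem space_tay_resid (j : Fin (R + 1)) (c : ℂ) (F : MvPolynomial (Fin (R + 1)) ℂ)
    (q : Fin (R + 1) → ℂ) (hq : q j = c) (m : ℕ)
    (h : ∀ β : Fin (R + 1) → ℕ, ∑ i, β i < m →
      tay ((MvPolynomial.X j - MvPolynomial.C c) * F) q β = 0) :
    ∀ β : Fin (R + 1) → ℕ, ∑ i, β i < m - 1 → tay F q β = 0 := by
  intro β hβ
  have h3 := h (Function.update β j (β j + 1)) (by rw [space_sum_update]; omega)
  rw [tay_X_sub_mul, hq] at h3
  simpa using h3

/-- The points of the residual along a hyperplane not through the point. -/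
theorem space_tay_resid_ne (j : Fin (R + 1)) (c : ℂ) (F : MvPolynomial (Fin (R + 1)) ℂ)
    (q : Fin (R + 1) → ℂ) (hq : q j ≠ c) (m : ℕ)
    (h : ∀ β : Fin (R + 1) → ℕ, ∑ i, β i < m →
      tay ((MvPolynomial.X j - MvPolynomial.C c) * F) q β = 0) :
    ∀ β : Fin (R + 1) → ℕ, ∑ i, β i < m → tay F q β = 0 := by
  have h4 : q j - algebraMap ℂ ℂ c ≠ 0 := by
    rw [Algebra.algebraMap_self, RingHom.id_apply]
    exact sub_ne_zero.2 hq
  have key : ∀ k : ℕ, ∀ β : Fin (R + 1) → ℕ, β j = k → ∑ i, β i < m → tay F q β = 0 := by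
    intro k
    induction k with
    | zero =>
      intro β hk hβ
      have h3 := h β hβ
      rw [tay_X_sub_mul, if_pos hk, add_zero] at h3
      exact (mul_eq_zero.1 h3).resolve_left h4
    | succ k ih =>
      intro β hk hβ
      have h3 := h β hβ
      have h5 : tay F q (Function.update β j (β j - 1)) = 0 := by
        refine ih _ (by rw [Function.update_self]; omega) ?_
        refine lt_of_le_of_lt (sum_le_sum fun i _ => ?_) hβ
        by_cases hi : i = j
        · subst hi
          rw [Function.update_self]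
          omega
        · rw [Function.update_of_ne hi]
      rw [tay_X_sub_mul, if_neg (by omega), h5, add_zero] at h3
      exact (mul_eq_zero.1 h3).resolve_left h4
  intro β hβ
  exact key _ β rfl hβ

theorem space_sub1_X (j : Fin (R + 1)) (c : ℂ) (i : Fin (R + 1)) :
    sub1 j c (MvPolynomial.X i) = if i = j then MvPolynomial.C c else MvPolynomial.X i := by
  rw [sub1, MvPolynomial.aeval_X]
  by_cases h : i = j
  · subst h
    rw [Function.update_self, if_pos rfl]
  · rw [Function.update_of_ne h, if_neg h]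

/-- Trace on `z_u = 0`.  With `σ : x_u ↦ x_{u'}^e` one has `Th e v u' p (sub1 u 0 F) =
σ (Th e v u p F)` (check on the variables); use `sub_S`.  For the points use `tay_sub1`. -/
theorem WW_traceS {Λ : Type} (g : Lines Λ (Fin (R + 1))) (l : Λ) (e : ℕ) (he : 1 ≤ e)
    (v u u' : Fin (R + 1)) (hu : u.val = u'.val + 1) (hv : v ≤ u') (hco : g.co l = u)
    (hva : g.va l = 0) (p : ℂ) (d : ℕ) {B : Type} (x : B → ℂ) (m : B → ℕ) :
    trW g l (WW e v u p d x m) ≤ WW e v u' p d x m := by
  have hvu : v.val < u.val := by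
    have := Fin.le_def.1 hv
    omega
  have hune : u ≠ v := fun h => by rw [h] at hvu; exact lt_irrefl _ hvu
  have hu'u : u' ≠ u := fun h => by rw [h] at hu; omega
  have hprv : prv u = u' := by
    apply Fin.ext
    simp [prv, hu]
  rintro G ⟨F, hF, rfl⟩
  rw [SetLike.mem_coe] at hF
  have hlay : (lay g l).toLinearMap F = sub1 u 0 F := by
    rw [AlgHom.toLinearMap_apply, lay, hco, hva]
  rw [hlay, mem_WW]
  obtain ⟨h1, h2, h3⟩ := mem_WW.1 hF
  refine ⟨fun i hi => ?_, ?_, fun b β hβ => ?_⟩
  · refine space_degreeOf_sub1 i u 0 F fun hiu => h1 i ?_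
    rcases hi with hi | hi
    · exact Or.inl hi
    · right
      rw [Fin.lt_def] at hi ⊢
      have : i.val ≠ u.val := fun h => hiu (Fin.ext h)
      omega
  · have h4 : Th e v u' p (sub1 u 0 F) = MvPolynomial.aeval (Function.update
        (MvPolynomial.X : Fin (R + 1) → MvPolynomial (Fin (R + 1)) ℂ) u
        (MvPolynomial.X u' ^ e)) (Th e v u p F) := by
      have h5 : (Th e v u' p).comp (sub1 u 0) = (MvPolynomial.aeval (Function.update
          (MvPolynomial.X : Fin (R + 1) → MvPolynomial (Fin (R + 1)) ℂ) u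
          (MvPolynomial.X u' ^ e))).comp (Th e v u p) := by
        refine MvPolynomial.algHom_ext (fun i => ?_)
        rw [AlgHom.comp_apply, AlgHom.comp_apply, space_sub1_X, Th_X]
        by_cases hiu : i = u
        · subst hiu
          rw [if_pos rfl, Th_C, if_neg hune, if_pos ⟨Fin.lt_def.2 hvu, le_rfl⟩, hprv, map_sub,
            map_pow, MvPolynomial.aeval_X, MvPolynomial.aeval_X, Function.update_self,
            Function.update_of_ne hu'u, sub_self, MvPolynomial.C_0]
        · rw [if_neg hiu, Th_X]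
          by_cases hiv : i = v
          · rw [if_pos hiv, if_pos hiv, map_sub, MvPolynomial.aeval_X, MvPolynomial.aeval_C,
              Function.update_of_ne hiu, MvPolynomial.algebraMap_eq]
          · rw [if_neg hiv, if_neg hiv]
            by_cases hc : v < i ∧ i ≤ u'
            · have hc2 : i ≤ u := hc.2.trans (Fin.le_def.2 (by omega))
              have hpi : prv i ≠ u := by
                intro h
                have h6 := congrArg Fin.val h
                simp only [prv] at h6
                have h7 := Fin.le_def.1 hc.2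
                omega
              rw [if_pos hc, if_pos ⟨hc.1, hc2⟩, map_sub, map_pow, MvPolynomial.aeval_X,
                MvPolynomial.aeval_X, Function.update_of_ne hiu, Function.update_of_ne hpi]
            · have hc2 : ¬ (v < i ∧ i ≤ u) := by
                rintro ⟨h6, h7⟩
                apply hc
                refine ⟨h6, ?_⟩
                rw [Fin.le_def] at h7 ⊢
                have : i.val ≠ u.val := fun h => hiu (Fin.ext h)
                omega
              rw [if_neg hc, if_neg hc2, MvPolynomial.aeval_X, Function.update_of_ne hiu]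
      exact congrArg (fun φ : MvPolynomial (Fin (R + 1)) ℂ →ₐ[ℂ] MvPolynomial (Fin (R + 1)) ℂ =>
        φ F) h5
    rw [h4]
    exact sub_S e he u u' hu _ d h2
  · rw [tay_sub1]
    have h6 : Function.update (ptv v (x b)) u (algebraMap ℂ ℂ 0) = ptv v (x b) := by
      rw [map_zero]
      apply Function.update_eq_self_iff.2
      rw [ptv, if_neg hune]
    rw [h6]
    split_ifs
    · exact h3 b β hβ
    · rfl

/-- Residual along `z_u = 0`.  `Th e v u p (X u * F') = (X u - X u' ^ e) * Th e v u p F'`; use
`strict_S`.  For the points use `tay_X_sub_mul`, for the degrees `MvPolynomial.degreeOf_mul_eq`. -/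
theorem WW_residS {Λ : Type} (g : Lines Λ (Fin (R + 1))) (l : Λ) (e : ℕ) (he : 2 ≤ e)
    (v u u' : Fin (R + 1)) (hu : u.val = u'.val + 1) (hv : v ≤ u') (hco : g.co l = u)
    (hva : g.va l = 0) (p : ℂ) (d : ℕ) {B : Type} (x : B → ℂ) (m : B → ℕ) :
    ResW g l (WW e v u p d x m) (WW e v u p (d - e) x fun b => m b - 1) := by
  have hvu : v.val < u.val := by
    have := Fin.le_def.1 hv
    omega
  have hune : u ≠ v := fun h => by rw [h] at hvu; exact lt_irrefl _ hvu
  have hprv : prv u = u' := by
    apply Fin.ext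
    simp [prv, hu]
  intro F hF h0
  rw [lay, hco, hva] at h0
  obtain ⟨F', hF'⟩ := wc_exists_residual u 0 F h0
  rw [hco, hva]
  obtain ⟨h1, h2, h3⟩ := mem_WW.1 hF
  refine ⟨F', mem_WW.2 ⟨fun i hi => ?_, fun α hα => ?_, fun b => ?_⟩, hF'⟩
  · refine space_degreeOf_resid i u 0 F' ?_
    rw [← hF']
    exact h1 i hi
  · have h4 : Th e v u p F =
        (MvPolynomial.X u - MvPolynomial.X u' ^ e) * Th e v u p F' := by
      rw [hF', map_mul, map_sub, Th_C, MvPolynomial.C_0, sub_zero, Th_X, if_neg hune,
        if_pos ⟨Fin.lt_def.2 hvu, le_rfl⟩, hprv]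
    have h5 := strict_S e he u u' hu (Th e v u p F') d (by
      intro α hα
      rw [← h4] at hα
      exact h2 α hα) α hα
    omega
  · refine space_tay_resid u 0 F' (ptv v (x b)) ?_ (m b) ?_
    · rw [ptv, if_neg hune]
    · rw [← hF']
      exact h3 b

/-- Trace on `z_v = c`.  With `σ : x_v ↦ c + p` one has `Th e v' u ((c + p) ^ e) (sub1 v c F) =
σ (Th e v u p F)`; use `sub_H`. -/
theorem WW_traceH {Λ : Type} (g : Lines Λ (Fin (R + 1))) (l : Λ) (e : ℕ)
    (v v' u : Fin (R + 1)) (hv : v'.val = v.val + 1) (hu : v' ≤ u) (c : ℂ) (hco : g.co l = v)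
    (hva : g.va l = c) (p : ℂ) (d : ℕ) {B : Type} (x : B → ℂ) (m : B → ℕ) (b₀ : B)
    (hb₀ : x b₀ = c) :
    trW g l (WW e v u p d x m) ≤
      WW e v' u ((c + p) ^ e) d (fun _ : Unit => (0 : ℂ)) fun _ => m b₀ := by
  have hvu : v.val < u.val := by
    have := Fin.le_def.1 hu
    omega
  have hvne : v ≠ u := fun h => by rw [h] at hvu; exact lt_irrefl _ hvu
  have hv'v : v' ≠ v := fun h => by rw [h] at hv; omega
  have hprv : prv v' = v := by
    apply Fin.ext
    simp [prv, hv]
  rintro G ⟨F, hF, rfl⟩
  rw [SetLike.mem_coe] at hF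
  have hlay : (lay g l).toLinearMap F = sub1 v c F := by
    rw [AlgHom.toLinearMap_apply, lay, hco, hva]
  rw [hlay, mem_WW]
  obtain ⟨h1, h2, h3⟩ := mem_WW.1 hF
  refine ⟨fun i hi => ?_, ?_, fun _ β hβ => ?_⟩
  · refine space_degreeOf_sub1 i v c F fun hiv => h1 i ?_
    rcases hi with hi | hi
    · left
      rw [Fin.lt_def] at hi ⊢
      have : i.val ≠ v.val := fun h => hiv (Fin.ext h)
      omega
    · exact Or.inr hi
  · have h4 : Th e v' u ((c + p) ^ e) (sub1 v c F) = MvPolynomial.aeval (Function.update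
        (MvPolynomial.X : Fin (R + 1) → MvPolynomial (Fin (R + 1)) ℂ) v
        (MvPolynomial.C (c + p))) (Th e v u p F) := by
      have h5 : (Th e v' u ((c + p) ^ e)).comp (sub1 v c) = (MvPolynomial.aeval (Function.update
          (MvPolynomial.X : Fin (R + 1) → MvPolynomial (Fin (R + 1)) ℂ) v
          (MvPolynomial.C (c + p)))).comp (Th e v u p) := by
        refine MvPolynomial.algHom_ext (fun i => ?_)
        rw [AlgHom.comp_apply, AlgHom.comp_apply, space_sub1_X, Th_X]
        by_cases hiv : i = v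
        · subst hiv
          rw [if_pos rfl, Th_C, if_pos rfl, map_sub, MvPolynomial.aeval_X,
            MvPolynomial.aeval_C, Function.update_self, MvPolynomial.algebraMap_eq,
            ← MvPolynomial.C_sub, add_sub_cancel_right]
        · rw [if_neg hiv, if_neg hiv, Th_X]
          by_cases hiv' : i = v'
          · subst hiv'
            rw [if_pos rfl, if_pos ⟨Fin.lt_def.2 (by omega), hu⟩, hprv, MvPolynomial.C_pow, map_sub,
              map_pow, MvPolynomial.aeval_X, MvPolynomial.aeval_X, Function.update_self,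
              Function.update_of_ne hiv]
          · rw [if_neg hiv']
            have hiv2 : i.val ≠ v.val := fun h => hiv (Fin.ext h)
            have hiv3 : i.val ≠ v'.val := fun h => hiv' (Fin.ext h)
            by_cases hc : v < i ∧ i ≤ u
            · have hc2 : v' < i := by
                have := Fin.lt_def.1 hc.1
                rw [Fin.lt_def]
                omega
              have hpi : prv i ≠ v := by
                intro h
                have h6 := congrArg Fin.val h
                simp only [prv] at h6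
                have h7 := Fin.lt_def.1 hc2
                omega
              rw [if_pos hc, if_pos ⟨hc2, hc.2⟩, map_sub, map_pow, MvPolynomial.aeval_X,
                MvPolynomial.aeval_X, Function.update_of_ne hiv, Function.update_of_ne hpi]
            · have hc2 : ¬ (v' < i ∧ i ≤ u) := by
                rintro ⟨h6, h7⟩
                apply hc
                refine ⟨?_, h7⟩
                rw [Fin.lt_def] at h6 ⊢
                omega
              rw [if_neg hc, if_neg hc2, MvPolynomial.aeval_X, Function.update_of_ne hiv]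
      exact congrArg (fun φ : MvPolynomial (Fin (R + 1)) ℂ →ₐ[ℂ] MvPolynomial (Fin (R + 1)) ℂ =>
        φ F) h5
    rw [h4]
    exact sub_H e u v hvne (c + p) _ d h2
  · rw [tay_sub1]
    have h6 : Function.update (ptv v' 0) v (algebraMap ℂ ℂ c) = ptv v (x b₀) := by
      ext i
      rw [Algebra.algebraMap_self, RingHom.id_apply]
      by_cases hi : i = v
      · subst hi
        rw [Function.update_self, ptv, if_pos rfl, hb₀]
      · rw [Function.update_of_ne hi, ptv, ptv, if_neg hi, ite_self]
    rw [h6]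
    split_ifs
    · exact h3 b₀ β hβ
    · rfl

/-- Residual along `z_v = c` (use `strict_H`). -/
theorem WW_residH {Λ : Type} (g : Lines Λ (Fin (R + 1))) (l : Λ) (e : ℕ)
    (v u : Fin (R + 1)) (hv : v < u) (c : ℂ) (hco : g.co l = v)
    (hva : g.va l = c) (p : ℂ) (d : ℕ) {B : Type} (x : B → ℂ) (m m' : B → ℕ)
    (hm1 : ∀ b, x b = c → m' b = m b - 1) (hm2 : ∀ b, x b ≠ c → m' b = m b) :
    ResW g l (WW e v u p d x m) (WW e v u p (d - 1) x m') := by
  intro F hF h0
  rw [lay, hco, hva] at h0
  obtain ⟨F', hF'⟩ := wc_exists_residual v c F h0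
  rw [hco, hva]
  obtain ⟨h1, h2, h3⟩ := mem_WW.1 hF
  refine ⟨F', mem_WW.2 ⟨fun i hi => ?_, fun α hα => ?_, fun b => ?_⟩, hF'⟩
  · refine space_degreeOf_resid i v c F' ?_
    rw [← hF']
    exact h1 i hi
  · have h4 : Th e v u p F =
        (MvPolynomial.X v - MvPolynomial.C (p + c)) * Th e v u p F' := by
      rw [hF', map_mul, map_sub, Th_C, Th_X, if_pos rfl, MvPolynomial.C_add]
      ring
    have h5 := strict_H e u v hv.ne (p + c) (Th e v u p F') d (by
      intro α hα
      rw [← h4] at hα
      exact h2 α hα) α hα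
    omega
  · have hpv : ptv v (x b) v = x b := by rw [ptv, if_pos rfl]
    by_cases hb : x b = c
    · rw [hm1 b hb]
      refine space_tay_resid v c F' (ptv v (x b)) (hpv.trans hb) (m b) ?_
      rw [← hF']
      exact h3 b
    · rw [hm2 b hb]
      refine space_tay_resid_ne v c F' (ptv v (x b)) (by rw [hpv]; exact hb) (m b) ?_
      rw [← hF']
      exact h3 b

/-- The constants. -/
theorem WW_base {Λ : Type} (g : Lines Λ (Fin (R + 1))) (e : ℕ) (he : 1 ≤ e)
    (v u : Fin (R + 1)) (p : ℂ) {B : Type} (x : B → ℂ) (m : B → ℕ) :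
    GMP g (WW e v u p 0 x m) {Kind.free 1} := by
  refine ⟨1, fun _ => Kind.free 1, by simp, fun _ => 0, ?_⟩
  rintro F hF h
  obtain ⟨-, h1, -⟩ := mem_WW.1 hF
  have h2 : tay F (0 : Fin (R + 1) → ℂ) 0 = 0 := h 0 0 (by simp [Lines.Idx])
  rw [tay_zero_right] at h2
  have h3 : Th e v u p F = MvPolynomial.C (MvPolynomial.coeff 0 (Th e v u p F)) := by
    ext α
    rw [MvPolynomial.coeff_C]
    split_ifs with hα
    · rw [← hα]
    · by_contra hc
      have h5 := h1 α (MvPolynomial.mem_support_iff.2 hc)
      have h6 := cost_eq_zero e he u α (Nat.le_zero.1 h5)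
      apply hα
      ext i
      have := congrFun h6 i
      simp [this]
  have h4 : F = MvPolynomial.C (MvPolynomial.coeff 0 (Th e v u p F)) := by
    apply Th_injective e v u p
    rw [Th_C]
    exact h3
  rw [h4, MvPolynomial.eval_C] at h2
  rw [h4, h2, MvPolynomial.C_0]

end Pool.Agent.H18.Pr

end
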