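import Pool.Agent.H94.LP3.M37
import Pool.Agent.H94.LP3.M54
import Pool.Agent.H94.LP3.M56
import Pool.Agent.H94.LP3.M57

/-! The parts of this file: H18.Pr.SysM, H18.Pr.SysV, H18.Pr.FullV. -/

section

/-!
# Module SysM (PR): the main Horace system
-/

namespace Pool.Agent.H18.Pr

open Finset Pool.Agent.H18.Ex Pool.Agent.H18.Cub

variable {R t s : ℕ}

theorem gM_sep (t : ℕ) (u : Fin (R + 1)) (hu : 1 ≤ u.val) (l : Option (Fin t)) :
    (gM t u).Sep l := by
  have h0 : u ≠ 0 := by
    rintro rfl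
    simp at hu
  intro l' h
  rcases l with _ | l <;> rcases l' with _ | l'
  · exact absurd rfl h
  · left
    simpa [gM] using h0.symm
  · left
    simpa [gM] using h0
  · right
    intro h1
    apply h
    simp only [gM, Nat.cast_inj] at h1
    congr 1
    ext
    omega

private theorem SysM_map_layer {Λ : Type} (S : Multiset (Role Λ)) :
    (S.map fun r => (Kind.free r.layer : Kind Λ)) = (S.map Role.layer).map Kind.free := by
  rw [Multiset.map_map]
  rfl

private theorem SysM_resid (ht : 1 ≤ t) (u : Fin (R + 1)) (hu : 1 ≤ u.val)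
    (n : Fin t ⊕ Fin s → ℕ) (a : Option (Fin t) → ℕ) (l : Option (Fin t)) (hl : 1 ≤ a l) :
    ResW (gM t u) l (WM u n a) (WM u n (dn l a)) := by
  unfold WM
  rcases l with _ | l
  · rw [dd_dn_none a hl, mu_dn_none n a hl]
    exact WW_residS (gM t u) none (t + 1) (by omega) 0 u ⟨u.val - 1, by omega⟩
      (by simp only; omega) (Fin.zero_le _) rfl rfl 0 (dd a) _ (mu n a)
  · rw [dd_dn_some a l hl, mu_dn_some n a l hl]
    refine WW_residH (gM t u) (some l) (t + 1) 0 u (Fin.pos_iff_ne_zero.2 ?_)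
      ((l.val + 1 : ℕ) : ℂ) rfl rfl 0 (dd a) (fun b : Fin t ⊕ Fin s => ((xx b : ℕ) : ℂ)) (mu n a) _
      (fun b hb => ?_) (fun b hb => ?_)
    · rintro rfl
      simp at hu
    · have h1 : b = .inl l := xx_injective (Nat.cast_injective hb)
      rw [h1, Function.update_self]
    · rw [Function.update_of_ne]
      rintro rfl
      exact hb rfl

private theorem SysM_finite (u : Fin (R + 1)) (n : Fin t ⊕ Fin s → ℕ) (a : Option (Fin t) → ℕ) :
    FiniteDimensional ℂ (WM u n a) := WW_finite (t + 1) (by omega) 0 u 0 _ _ _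

private theorem SysM_dd_zero : dd (0 : Option (Fin t) → ℕ) = 0 := by simp [dd]

private theorem SysM_mu_zero (n : Fin t ⊕ Fin s → ℕ) (b : Fin t ⊕ Fin s) : mu n 0 b = 0 := by
  unfold mu
  have : uu (s := s) (0 : Option (Fin t) → ℕ) b = 0 := by
    rcases b with l | j <;> simp [uu]
  rw [this]
  omega

private theorem SysM_count (j : ℕ) (hj : 1 ≤ j) (hjR : j ≤ R) (n : Fin t ⊕ Fin s → ℕ)
    (a : Option (Fin t) → ℕ) (l : Option (Fin t)) (hl : 1 ≤ a l) (hF : 1 ≤ FM R j n l a) :
    RM R j n a = RM R j n (dn l a) + FM R j n l a := by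
  rcases l with _ | l
  · rw [RM_diff_none j hj hjR n a hl]
    congr 1
    have h1 : FM R j n none a = tau (t + 1) (R + 1 - j) j (dd a) - ∑ b, ell j (mu n a b) := rfl
    rw [h1] at hF ⊢
    unfold RM
    have h2 : R - (j - 1) = R + 1 - j := by omega
    have h3 : j - 1 + 1 = j := by omega
    rw [h2, h3, Nat.cast_sub (by omega)]
    push_cast
    rfl
  · rw [RM_diff_some j hj n a l hl]
    congr 1
    have h1 : FM R j n (some l) a = tau (t + 1) (R - j) j (dd a) - ell j (mu n a (.inl l)) := rfl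
    rw [h1] at hF ⊢
    rw [Nat.cast_sub (by omega)]

/-- The main system with top variable `u`.  For `count` use `RM_diff_none`, `RM_diff_some`; for `step`
and `bridge` use `GMP.step`, `GMP.bridge`, `WW_finite`, `WW_residS`, `WW_residH`, `dd_dn_none` etc. -/
noncomputable def sysM (ht : 1 ≤ t) (u : Fin (R + 1)) (hu : 1 ≤ u.val)
    (n : Fin t ⊕ Fin s → ℕ) : SysN (Option (Fin t)) u.val where
  K := fun a S => GMP (gM t u) (WM u n a) S
  F := FM R u.val n
  R := RM R u.val n
  tr := fun l a S => GMP (gM t u) (trW (gM t u) l (WM u n a)) (S.map Kind.free)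
  mono := fun a S S' h hS => GMP.mono h hS
  free_mono := fun a T S hT h => GMP.free_mono T hT S h
  tr_mono := fun l a S S' h hS => GMP.mono (Multiset.map_le_map h) hS
  count := by
    intro a l hl hF
    exact SysM_count u.val hu (by omega) n a l hl hF
  step := by
    intro a l hl μ hμ S hS htr h
    have := SysM_finite u n a
    have := SysM_finite u n (dn l a)
    refine GMP.step (gM t u) l (gM_sep t u hu l) _ _ (SysM_resid ht u hu n a l hl) μ hμ S hS ?_ h
    rw [SysM_map_layer]
    exact htr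
  bridge := by
    intro a l hl S m h1 h2
    have := SysM_finite u n a
    have := SysM_finite u n (dn l a)
    exact GMP.bridge (gM t u) l (gM_sep t u hu l) _ _ (SysM_resid ht u hu n a l hl) S m h1 h2
  base := by
    unfold WM
    rw [SysM_dd_zero]
    exact WW_base (gM t u) (t + 1) (by omega) 0 u 0 _ _
  base_R := by
    unfold RM
    rw [SysM_dd_zero, tau_zero_right (t + 1) _ _ (by omega), sum_eq_zero fun b _ => by
      rw [SysM_mu_zero, ell_zero (by omega)]; simp]
    simp

theorem sysM_tr_none (ht : 1 ≤ t) (u u' : Fin (R + 1)) (hu : 1 ≤ u.val)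
    (huu : u.val = u'.val + 1) (n : Fin t ⊕ Fin s → ℕ) (a : Option (Fin t) → ℕ) (S : Multiset ℕ)
    (h : Fk (WM u' n a) S) : (sysM ht u hu n).tr none a S := by
  have h1 := WW_traceS (gM t u) none (t + 1) (by omega) 0 u u' huu (Fin.zero_le _) rfl rfl 0
    (dd a) (fun b : Fin t ⊕ Fin s => ((xx b : ℕ) : ℂ)) (mu n a)
  exact (Fk_iff (gM t u) _ S).1 (Fk.anti h1 h)

theorem sysM_tr_some (ht : 1 ≤ t) (u v : Fin (R + 1)) (hu : 1 ≤ u.val) (hv : v.val = 1)
    (n : Fin t ⊕ Fin s → ℕ) (a : Option (Fin t) → ℕ) (l : Fin t) (S : Multiset ℕ)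
    (h : Fk (WW (t + 1) v u ((((l.val + 1) ^ (t + 1) : ℕ) : ℂ)) (dd a) (fun _ : Unit => (0 : ℂ))
      fun _ => mu n a (.inl l)) S) : (sysM ht u hu n).tr (some l) a S := by
  have h0 : v ≤ u := by
    change v.val ≤ u.val
    omega
  have h1 := WW_traceH (gM t u) (some l) (t + 1) 0 v u (by rw [hv]; rfl) h0
    ((l.val + 1 : ℕ) : ℂ) rfl rfl 0 (dd a) (fun b : Fin t ⊕ Fin s => ((xx b : ℕ) : ℂ)) (mu n a)
    (.inl l) rfl
  have h3 : (((l.val + 1 : ℕ) : ℂ) + 0) ^ (t + 1) = ((((l.val + 1) ^ (t + 1) : ℕ) : ℂ)) := by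
    rw [add_zero]
    push_cast
    ring
  rw [h3] at h1
  exact (Fk_iff (gM t u) _ S).1 (Fk.anti h1 h)

end Pool.Agent.H18.Pr

end

section

/-!
# Module SysV (PR): the Horace system of one big point
-/

namespace Pool.Agent.H18.Pr

open Finset Pool.Agent.H18.Ex Pool.Agent.H18.Cub

variable {R : ℕ}

theorem gV_sep (v : Fin (R + 1)) (l : Unit) : (gV v).Sep l := by
  intro l' h
  exact absurd rfl h

private theorem SysV_map_layer {Λ : Type} (S : Multiset (Role Λ)) :
    (S.map fun r => (Kind.free r.layer : Kind Λ)) = (S.map Role.layer).map Kind.free := by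
  rw [Multiset.map_map]
  rfl

private theorem SysV_resid (e : ℕ) (v u : Fin (R + 1)) (hvu : v < u) (p : ℂ) (k : ℕ)
    (a : Unit → ℕ) (l : Unit) : ResW (gV v) l
      (WW e v u p (a ()) (fun _ : Unit => (0 : ℂ)) fun _ => a () - k)
      (WW e v u p (dn l a ()) (fun _ : Unit => (0 : ℂ)) fun _ => dn l a () - k) := by
  have h : dn l a () = a () - 1 := dn_self l a
  rw [h]
  refine WW_residH (gV v) l e v u hvu 0 rfl rfl p (a ()) _ _ _ (fun b _ => ?_) (fun b hb => ?_)
  · omega
  · exact absurd rfl hb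

private theorem SysV_count (A n k : ℕ) (e : ℕ) (hn : 1 ≤ n) (a : ℕ) (ha : 1 ≤ a)
    (hF : 1 ≤ tau e A n a - ell n (a - k)) :
    ((tau e A (n + 1) a : ℕ) : ℤ) - ((ell (n + 1) (a - k) : ℕ) : ℤ) =
      ((tau e A (n + 1) (a - 1) : ℕ) : ℤ) - ((ell (n + 1) (a - 1 - k) : ℕ) : ℤ) +
        ((tau e A n a - ell n (a - k) : ℕ) : ℤ) := by
  obtain ⟨d, rfl⟩ : ∃ d, a = d + 1 := ⟨a - 1, by omega⟩
  have h1 := tau_succ e A n d
  have h2 := ell_succ_sub n (d + 1 - k) hn
  have h3 : d + 1 - 1 - k = d + 1 - k - 1 := by omega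
  rw [h3, h1, h2, Nat.add_sub_cancel]
  omega

/-- The system of one big point.  The state is the degree; the multiplicity is `a - k`. -/
noncomputable def sysV (e : ℕ) (he : 2 ≤ e) (v u : Fin (R + 1)) (hvu : v < u) (p : ℂ) (k : ℕ) :
    SysN Unit (u.val - v.val) where
  K := fun a S => GMP (gV v) (WW e v u p (a ()) (fun _ : Unit => (0 : ℂ)) fun _ => a () - k) S
  F := fun _ a => tau e (R - u.val) (u.val - v.val) (a ()) - ell (u.val - v.val) (a () - k)
  R := fun a => (tau e (R - u.val) (u.val - v.val + 1) (a ()) : ℤ) -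
    ell (u.val - v.val + 1) (a () - k)
  tr := fun l a S => GMP (gV v) (trW (gV v) l
    (WW e v u p (a ()) (fun _ : Unit => (0 : ℂ)) fun _ => a () - k)) (S.map Kind.free)
  mono := fun a S S' h hS => GMP.mono h hS
  free_mono := fun a T S hT h => GMP.free_mono T hT S h
  tr_mono := fun l a S S' h hS => GMP.mono (Multiset.map_le_map h) hS
  count := by
    intro a l ha hF
    have h : dn l a () = a () - 1 := dn_self l a
    change ((tau e (R - u.val) (u.val - v.val + 1) (a ()) : ℕ) : ℤ) -
      ((ell (u.val - v.val + 1) (a () - k) : ℕ) : ℤ) =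
      ((tau e (R - u.val) (u.val - v.val + 1) (dn l a ()) : ℕ) : ℤ) -
      ((ell (u.val - v.val + 1) (dn l a () - k) : ℕ) : ℤ) +
      ((tau e (R - u.val) (u.val - v.val) (a ()) - ell (u.val - v.val) (a () - k) : ℕ) : ℤ)
    rw [h]
    have h1 : v.val < u.val := hvu
    exact SysV_count (R - u.val) (u.val - v.val) k e (by omega) (a ()) ha hF
  step := by
    intro a l ha μ hμ S hS htr h
    have : FiniteDimensional ℂ (WW e v u p (a ()) (fun _ : Unit => (0 : ℂ)) fun _ => a () - k) :=
      WW_finite e (by omega) v u p _ _ _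
    have : FiniteDimensional ℂ (WW e v u p (dn l a ()) (fun _ : Unit => (0 : ℂ))
      fun _ => dn l a () - k) := WW_finite e (by omega) v u p _ _ _
    refine GMP.step (gV v) l (gV_sep v l) _ _ (SysV_resid e v u hvu p k a l) μ hμ S hS ?_ h
    rw [SysV_map_layer]
    exact htr
  bridge := by
    intro a l ha S s h1 h2
    have : FiniteDimensional ℂ (WW e v u p (a ()) (fun _ : Unit => (0 : ℂ)) fun _ => a () - k) :=
      WW_finite e (by omega) v u p _ _ _
    have : FiniteDimensional ℂ (WW e v u p (dn l a ()) (fun _ : Unit => (0 : ℂ))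
      fun _ => dn l a () - k) := WW_finite e (by omega) v u p _ _ _
    exact GMP.bridge (gV v) l (gV_sep v l) _ _ (SysV_resid e v u hvu p k a l) S s h1 h2
  base := WW_base (gV v) e (by omega) v u p _ _
  base_R := by
    change ((tau e (R - u.val) (u.val - v.val + 1) 0 : ℕ) : ℤ) -
      ((ell (u.val - v.val + 1) (0 - k) : ℕ) : ℤ) = 1
    rw [tau_zero_right e _ _ (by omega), Nat.zero_sub, ell_zero (by omega)]
    norm_num

theorem sysV_tr (e : ℕ) (he : 2 ≤ e) (v v' u : Fin (R + 1)) (hvu : v < u)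
    (hv : v'.val = v.val + 1) (q k : ℕ) (a : Unit → ℕ) (S : Multiset ℕ)
    (h : Fk (WW e v' u (((q ^ e : ℕ) : ℂ)) (a ()) (fun _ : Unit => (0 : ℂ)) fun _ => a () - k) S) :
    (sysV e he v u hvu (q : ℂ) k).tr () a S := by
  have h1 : v'.val ≤ u.val := by
    have : v.val < u.val := hvu
    omega
  have h2 := WW_traceH (gV v) () e v v' u hv h1 0 rfl rfl (q : ℂ) (a ())
    (fun _ : Unit => (0 : ℂ)) (fun _ => a () - k) () rfl
  have h3 : ((0 : ℂ) + (q : ℂ)) ^ e = ((q ^ e : ℕ) : ℂ) := by
    push_cast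
    ring
  rw [h3] at h2
  exact (Fk_iff (gV v) _ S).1 (Fk.anti h2 h)

end Pool.Agent.H18.Pr

end

section

/-!
# Module FullV (PR): dimensions for one big point, and the numerical properties
-/

namespace Pool.Agent.H18.Pr

open Finset Pool.Agent.H18.Ex Pool.Agent.H18.Cub

variable {R : ℕ}

/-- The fields of the system. -/
private theorem FullV_F (e : ℕ) (he : 2 ≤ e) (v u : Fin (R + 1)) (hvu : v < u) (p : ℂ) (k : ℕ)
    (l : Unit) (a : Unit → ℕ) : (sysV e he v u hvu p k).F l a =
      tau e (R - u.val) (u.val - v.val) (a ()) - ell (u.val - v.val) (a () - k) := rfl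

private theorem FullV_R (e : ℕ) (he : 2 ≤ e) (v u : Fin (R + 1)) (hvu : v < u) (p : ℂ) (k : ℕ)
    (a : Unit → ℕ) : (sysV e he v u hvu p k).R a =
      (tau e (R - u.val) (u.val - v.val + 1) (a ()) : ℤ) -
        ell (u.val - v.val + 1) (a () - k) := rfl

/-- The dimensions of the states, given the traces. -/
private theorem FullV_full (e : ℕ) (he : 2 ≤ e) (v v' u : Fin (R + 1)) (hvu : v < u)
    (hv : v'.val = v.val + 1) (q k : ℕ)
    (IH : ∀ d m : ℕ, m ≤ d → ∀ S : ℕ,
      tau e (R - u.val) (u.val - v'.val + 1) d ≤ ell (u.val - v'.val + 1) m + S →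
      Fk (WW e v' u ((q ^ e : ℕ) : ℂ) d (fun _ : Unit => (0 : ℂ)) fun _ => m)
        (Multiset.replicate S 1)) (d : ℕ) :
    FullN (sysV e he v u hvu (q : ℂ) k) (fun _ => d) := by
  have h0 : v.val < u.val := hvu
  have hj : u.val - v'.val + 1 = u.val - v.val := by omega
  rw [hj] at IH
  induction d with
  | zero => exact fullN_zero _
  | succ d ih =>
    have h1 := ell_lt_tau e (R - u.val) (u.val - v.val) (d + 1) (d + 1 - k) (by omega) (by omega)
      (by omega)
    refine FullN.step () (by simp) ?_ ?_ ?_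
    · rw [FullV_F]
      omega
    · refine sysV_tr e he v v' u hvu hv q k _ _ (IH (d + 1) (d + 1 - k) (by omega) _ ?_)
      rw [FullV_F]
      omega
    · have h2 : dn () (fun _ : Unit => d + 1) = fun _ => d := by
        funext x
        rw [dn_self]
        rfl
      rw [h2]
      exact ih

private theorem FullV_dim (e : ℕ) (he : 2 ≤ e) (u : Fin (R + 1)) : ∀ j : ℕ, ∀ v : Fin (R + 1),
    v.val + j = u.val → ∀ q : ℕ, 0 < q → ∀ d m : ℕ, m ≤ d → ∀ S : ℕ,
    tau e (R - u.val) (j + 1) d ≤ ell (j + 1) m + S →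
    Fk (WW e v u (q : ℂ) d (fun _ : Unit => (0 : ℂ)) fun _ => m) (Multiset.replicate S 1) := by
  intro j
  induction j with
  | zero =>
    intro v hv q hq d m _ S h
    obtain rfl : v = u := Fin.ext (by omega)
    refine WW_one e (by omega) v (q : ℂ) d (fun _ : Unit => (0 : ℂ)) (fun _ => m) (fun _ => q)
      (fun a b _ => rfl) (fun _ => hq) (fun _ => by simp) _ ?_
    rw [Multiset.sum_replicate]
    have h1 : ell (0 + 1) m = m := by
      unfold ell
      simp
    rw [h1] at h
    simpa using h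
  | succ j ih =>
    intro v hv q hq d m hm S h
    have hvu : v < u := by
      change v.val < u.val
      omega
    have hlt : v.val + 1 < R + 1 := by omega
    have hj : u.val - v.val = j + 1 := by omega
    have hfull := FullV_full e he v ⟨v.val + 1, hlt⟩ u hvu rfl q (d - m) (fun d' m' hm' S' h' => by
      refine ih ⟨v.val + 1, hlt⟩ (by simp only; omega) (q ^ e) (pow_pos hq e) d' m' hm' S' ?_
      have h1 : u.val - (v.val + 1) + 1 = j + 1 := by omega
      rw [← h1]
      exact h') d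
    have h2 := hfull.2 S ?_
    · have h3 : GMP (gV v) (WW e v u (q : ℂ) d (fun _ : Unit => (0 : ℂ)) fun _ => d - (d - m))
        (Multiset.replicate S (Kind.free 1)) := h2
      have h4 : d - (d - m) = m := by omega
      rw [h4] at h3
      rw [Fk_iff (gV v), Multiset.map_replicate]
      exact h3
    · rw [FullV_R, hj]
      have h4 : d - (d - m) = m := by omega
      simp only [h4]
      omega

/-- The dimension is at most the expected one.  Induction on `u - v`: for `u = v` use `WW_one`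
(`B = Unit`, `y = q`); for `v < u` induction on `d`, with `FullN.step` for the system
`sysV e he v u hvu q (d - m)` (all states), `sysV_tr`, `ell_lt_tau`, starting from `fullN_zero`. -/
theorem dimV (e : ℕ) (he : 2 ≤ e) (v u : Fin (R + 1)) (hvu : v ≤ u) (q : ℕ) (hq : 0 < q)
    (d m : ℕ) (hm : m ≤ d) (S : ℕ)
    (h : tau e (R - u.val) (u.val - v.val + 1) d ≤ ell (u.val - v.val + 1) m + S) :
    Fk (WW e v u (q : ℂ) d (fun _ : Unit => (0 : ℂ)) fun _ => m) (Multiset.replicate S 1) := by
  have h0 : v.val ≤ u.val := hvu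
  exact FullV_dim e he u (u.val - v.val) v (by omega) q hq d m hm S h

/-- The numerical properties of the system of one big point.  (`floor`, `rlow`, `drop`: `tau_slow` for
`j = u - v - 1` and `j = u - v`, `tau_drop`; `full`: `dimV` and `ell_lt_tau`; `gd`: `sysV_tr` and the
hypothesis.) -/
theorem numR_sysV (e : ℕ) (he : 2 ≤ e) (v v' u : Fin (R + 1)) (hvu : v < u)
    (hv : v'.val = v.val + 1) : ∃ C : ℕ, 1 ≤ C ∧ ∀ M T Ta : ℕ, 1 ≤ M →
      TT (u.val - v.val) M 1 ≤ T → C * T ≤ Ta → ExV e v' u M Ta → ∀ q k N : ℕ, 0 < q → Ta ≤ k →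
      NumR (sysV e he v u hvu (q : ℂ) k) M T Ta (fun _ => N) := by
  have h0 : v.val < u.val := hvu
  obtain ⟨j, hj⟩ : ∃ j, u.val - v.val = j + 1 := ⟨u.val - v.val - 1, by omega⟩
  obtain ⟨C1, hC1, hs1⟩ := tau_slow e (R - u.val) j (by omega)
  obtain ⟨C2, hC2, hs2⟩ := tau_slow e (R - u.val) (j + 1) (by omega)
  refine ⟨C1 + C2, by omega, ?_⟩
  intro M T Ta hM hT hTa hEx q k N hq hk
  have hT1 : 1 ≤ T := by
    unfold TT at hT
    omega
  have hCT : C1 * T + C2 * T ≤ Ta := by
    rw [← Nat.add_mul]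
    exact hTa
  have hC1T : T ≤ C1 * T := Nat.le_mul_of_pos_left T hC1
  have key1 : ∀ d, Ta ≤ d →
      T * tau e (R - u.val) j d + ell (j + 1) (d - k) ≤ tau e (R - u.val) (j + 1) d :=
    fun d hd => hs1 T d (d - k) hT1 (by omega)
  have key2 : ∀ d, Ta ≤ d →
      T * tau e (R - u.val) (j + 1) d + ell (j + 2) (d - k) ≤ tau e (R - u.val) (j + 2) d :=
    fun d hd => hs2 T d (d - k) hT1 (by omega)
  refine ⟨by omega, hM, by omega, ?_, ?_, ?_, ?_, ?_, ?_⟩
  · rw [Fintype.card_unit]
    exact hT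
  · -- drop
    intro a b l _ hal hab _
    have ha : Ta ≤ a () := hal
    have hle : a () ≤ b () := hab ()
    rw [FullV_F, FullV_F, hj, Fintype.sum_unique]
    change T * _ ≤ T * _ + (b () - a ()) * _
    have h1 := key1 (b ()) (by omega)
    have h2 := tau_drop e (R - u.val) j hle
    have h3 : ell (j + 1) (a () - k) ≤ ell (j + 1) (b () - k) := ell_mono _ (by omega)
    have h4 := key1 (a ()) ha
    set x := tau e (R - u.val) (j + 1) (b ()) with hx
    set y := tau e (R - u.val) (j + 1) (a ()) with hy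
    set z := tau e (R - u.val) j (b ()) with hz
    have h5 : x - ell (j + 1) (b () - k) ≤ y - ell (j + 1) (a () - k) + (b () - a ()) * z := by
      omega
    have h6 : T * z ≤ x - ell (j + 1) (b () - k) := by omega
    calc T * (x - ell (j + 1) (b () - k))
        ≤ T * (y - ell (j + 1) (a () - k) + (b () - a ()) * z) := Nat.mul_le_mul_left _ h5
      _ = T * (y - ell (j + 1) (a () - k)) + (b () - a ()) * (T * z) := by ring
      _ ≤ T * (y - ell (j + 1) (a () - k)) + (b () - a ()) * (x - ell (j + 1) (b () - k)) :=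
        Nat.add_le_add_left (Nat.mul_le_mul_left _ h6) _
  · -- floor
    intro a l _ hal
    have ha : Ta ≤ a () := hal
    rw [FullV_F, hj]
    have h1 := key1 (a ()) ha
    have h2 := tau_pos e (R - u.val) j (a ()) (by omega)
    have h3 : T ≤ T * tau e (R - u.val) j (a ()) := Nat.le_mul_of_pos_right T h2
    omega
  · -- rlow
    intro a l _ hal
    have ha : Ta ≤ a () := hal
    rw [FullV_F, FullV_R, hj]
    have h1 := key2 (a ()) ha
    have h2 : T * (tau e (R - u.val) (j + 1) (a ()) - ell (j + 1) (a () - k)) ≤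
        T * tau e (R - u.val) (j + 1) (a ()) := Nat.mul_le_mul_left _ (Nat.sub_le _ _)
    have h3 : j + 1 + 1 = j + 2 := rfl
    rw [h3]
    have h4 : ((T * (tau e (R - u.val) (j + 1) (a ()) - ell (j + 1) (a () - k)) : ℕ) : ℤ) =
      (T : ℤ) * ((tau e (R - u.val) (j + 1) (a ()) - ell (j + 1) (a () - k) : ℕ) : ℤ) := by
      push_cast
      rfl
    rw [← h4]
    omega
  · -- full
    intro a _
    have h1 : a = fun _ => a () := by
      funext x
      rfl
    rw [h1]
    refine FullV_full e he v v' u hvu hv q k (fun d m hm S h => ?_) (a ())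
    have h2 : v' ≤ u := by
      change v'.val ≤ u.val
      omega
    exact dimV e he v' u h2 (q ^ e) (pow_pos hq e) d m hm S h
  · -- gd
    intro a l _ hal S hS hF
    have ha : Ta ≤ a () := hal
    refine sysV_tr e he v v' u hvu hv q k a S
      (hEx (q ^ e) (pow_pos hq e) (a ()) (a () - k) (by omega) S hS ?_)
    have h1 : u.val - v'.val + 1 = u.val - v.val := by omega
    rw [h1]
    rw [FullV_F] at hF
    omega

end Pool.Agent.H18.Pr

end
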