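import Pool.Agent.H94.LP3.H18.Ex.Frac
import Pool.Agent.H94.LP3.M11

/-! The parts of this file: H18.Ex.Ratio, H18.Ex.Round. -/

section

/-!
# Module Ratio: a facet changes little when few layers are peeled off
-/

namespace Pool.Agent.H18.Ex

open Finset

variable {ι : Type} [Fintype ι] [DecidableEq ι]

/-- Peel `k i` layers in direction `i` (never in direction `o`).

Proof.  Put `k' i = k i` for `i ≠ o, l` and `k' o = k l`.  Subtracting `k'` maps
`{x ∈ Rg σ (update w l 0) | ∀ i ≠ l, k' i ≤ x i}` injectively into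
`Rg (σ - ∑ k) (update (w - k) l 0)`.  Hence
`fc σ w l - fc (σ - ∑ k) (w - k) l ≤ ∑_{i ≠ l} |{x ∈ Rg σ (update w l 0) | x i < k' i}|`.  Each
nonzero term has `k' i ≥ 1` and is at most `2 N² fc σ w l / q` by `frac` with `v = q * k' i`
(`v ≤ w i` resp. `v ≤ w l ≤ w o`, and `v ≤ σ`); there are at most `N` active `i ≠ l`. -/
theorem facet_ratio (N : ℕ) (hN : 1 ≤ N) (o l : ι) (σ : ℕ) (w k : ι → ℕ) (q : ℕ) (hq : 2 ≤ q)
    (hcard : (univ.filter fun i => 0 < w i).card ≤ N + 1) (hol : l ≠ o) (hl : 0 < w l)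
    (hlo : w l ≤ w o) (hko : k o = 0) (hk : ∀ i, q * k i ≤ w i) (hkσ : ∀ i, q * k i ≤ σ) :
    q * fc σ w l ≤ q * fc (σ - ∑ i, k i) (fun i => w i - k i) l + 2 * N ^ 3 * fc σ w l := by
  classical
  set k' : ι → ℕ := Function.update (Function.update k o (k l)) l 0 with hk'
  have k'l : k' l = 0 := by rw [hk', Function.update_self]
  have k'o : k' o = k l := by
    rw [hk', Function.update_of_ne (Ne.symm hol), Function.update_self]
  have k'i : ∀ i, i ≠ l → i ≠ o → k' i = k i := by
    intro i h1 h2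
    rw [hk', Function.update_of_ne h1, Function.update_of_ne h2]
  -- the sums agree
  have hsum : ∑ i, k' i = ∑ i, k i := by
    have e1 : ∑ i, k' i = k' l + (k' o + ∑ i ∈ (univ.erase l).erase o, k' i) := by
      rw [← Finset.add_sum_erase univ k' (mem_univ l),
        ← Finset.add_sum_erase (univ.erase l) k' (mem_erase.2 ⟨Ne.symm hol, mem_univ o⟩)]
    have e2 : ∑ i, k i = k l + (k o + ∑ i ∈ (univ.erase l).erase o, k i) := by
      rw [← Finset.add_sum_erase univ k (mem_univ l),
        ← Finset.add_sum_erase (univ.erase l) k (mem_erase.2 ⟨Ne.symm hol, mem_univ o⟩)]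
    have e3 : ∑ i ∈ (univ.erase l).erase o, k' i = ∑ i ∈ (univ.erase l).erase o, k i := by
      refine Finset.sum_congr rfl fun i hi => ?_
      rw [mem_erase, mem_erase] at hi
      exact k'i i hi.2.1 hi.1
    rw [e1, e2, e3, k'l, k'o, hko]
    omega
  have hk'w : ∀ i, q * k' i ≤ Function.update w l 0 i := by
    intro i
    by_cases h1 : i = l
    · subst h1; rw [k'l, mul_zero]; exact Nat.zero_le _
    · rw [Function.update_of_ne h1]
      by_cases h2 : i = o
      · subst h2; rw [k'o]; exact (hk l).trans hlo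
      · rw [k'i i h1 h2]; exact hk i
  have hk'σ : ∀ i, q * k' i ≤ σ := by
    intro i
    by_cases h1 : i = l
    · subst h1; rw [k'l, mul_zero]; exact Nat.zero_le _
    · by_cases h2 : i = o
      · subst h2; rw [k'o]; exact hkσ l
      · rw [k'i i h1 h2]; exact hkσ i
  set F := Rg σ (Function.update w l 0) with hF
  set S := F.filter fun x => ∀ i, k' i ≤ x i with hS
  -- the injection
  have hinj : S.card ≤ fc (σ - ∑ i, k i) (fun i => w i - k i) l := by
    unfold fc
    refine Finset.card_le_card_of_injOn (fun x i => x i - k' i) ?_ ?_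
    · intro x hx
      have hx' := Finset.mem_coe.1 hx
      rw [hS, mem_filter, hF, mem_Rg] at hx'
      obtain ⟨⟨h1, h2⟩, h3⟩ := hx'
      refine Finset.mem_coe.2 ?_
      rw [mem_Rg]
      constructor
      · intro i
        by_cases hi : i = l
        · subst hi
          have := h1 i
          rw [Function.update_self] at this ⊢
          simp only
          omega
        · rw [Function.update_of_ne hi]
          have := h1 i
          rw [Function.update_of_ne hi] at this
          by_cases hio : i = o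
          · subst hio
            simp only [k'o, hko]
            omega
          · simp only [k'i i hi hio]
            omega
      · rw [← hsum, ← h2]
        simp only
        have := Finset.sum_tsub_distrib (s := (univ : Finset ι)) (f := x) (g := k')
          (fun i _ => h3 i)
        exact this
    · intro x hx y hy hxy
      have hx' := Finset.mem_coe.1 hx
      have hy' := Finset.mem_coe.1 hy
      rw [hS, mem_filter] at hx' hy'
      funext i
      have h1 := congrFun hxy i
      simp only at h1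
      have h2 := hx'.2 i
      have h3 := hy'.2 i
      omega
  -- the bad points
  set I := univ.filter fun i => 0 < k' i with hI
  have hIcard : I.card ≤ N := by
    have h1 : I ⊆ (univ.filter fun i => 0 < w i).erase l := by
      intro i hi
      rw [hI, mem_filter] at hi
      have hil : i ≠ l := by
        rintro rfl
        rw [k'l] at hi
        exact absurd hi.2 (lt_irrefl 0)
      rw [mem_erase, mem_filter]
      refine ⟨hil, mem_univ _, ?_⟩
      have := hk'w i
      rw [Function.update_of_ne hil] at this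
      have h2 : 0 < q * k' i := Nat.mul_pos (by omega) hi.2
      omega
    have h2 : l ∈ univ.filter fun i => 0 < w i := mem_filter.2 ⟨mem_univ _, hl⟩
    have h3 := Finset.card_le_card h1
    rw [Finset.card_erase_of_mem h2] at h3
    omega
  have hact : (univ.filter fun i => 0 < Function.update w l 0 i).card ≤ N + 1 := by
    refine (Finset.card_le_card ?_).trans hcard
    intro i hi
    rw [mem_filter] at hi ⊢
    refine ⟨mem_univ _, ?_⟩
    by_cases h1 : i = l
    · subst h1; exact hl
    · have := hi.2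
      rwa [Function.update_of_ne h1] at this
  have hX : ∀ i ∈ I, q * (F.filter fun x => x i < k' i).card ≤ 2 * N ^ 2 * F.card := by
    intro i hi
    rw [hI, mem_filter] at hi
    have h1 := frac N hN σ (Function.update w l 0) i (k' i) (q * k' i) hact (hk'w i) (hk'σ i)
      (Nat.mul_le_mul_right _ hq)
    rw [← hF] at h1
    refine Nat.le_of_mul_le_mul_right ?_ hi.2
    calc q * (F.filter fun x => x i < k' i).card * k' i
        = (F.filter fun x => x i < k' i).card * (q * k' i) := by ring
      _ ≤ 2 * N ^ 2 * k' i * F.card := h1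
      _ = 2 * N ^ 2 * F.card * k' i := by ring
  have hcov : F ⊆ S ∪ I.biUnion fun i => F.filter fun x => x i < k' i := by
    intro x hx
    rw [mem_union, mem_biUnion]
    by_cases h : ∀ i, k' i ≤ x i
    · left
      rw [hS, mem_filter]
      exact ⟨hx, h⟩
    · right
      push Not at h
      obtain ⟨i, hi⟩ := h
      refine ⟨i, ?_, mem_filter.2 ⟨hx, hi⟩⟩
      rw [hI, mem_filter]
      exact ⟨mem_univ _, by omega⟩
  have hF2 : F.card ≤ S.card + ∑ i ∈ I, (F.filter fun x => x i < k' i).card :=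
    (Finset.card_le_card hcov).trans ((Finset.card_union_le _ _).trans
      (Nat.add_le_add_left Finset.card_biUnion_le _))
  have hF3 : fc σ w l = F.card := rfl
  rw [hF3]
  calc q * F.card ≤ q * (S.card + ∑ i ∈ I, (F.filter fun x => x i < k' i).card) :=
        Nat.mul_le_mul_left _ hF2
    _ = q * S.card + ∑ i ∈ I, q * (F.filter fun x => x i < k' i).card := by
        rw [mul_add, Finset.mul_sum]
    _ ≤ q * fc (σ - ∑ i, k i) (fun i => w i - k i) l + I.card * (2 * N ^ 2 * F.card) := by
        refine Nat.add_le_add (Nat.mul_le_mul_left _ hinj) ?_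
        rw [← smul_eq_mul]
        exact Finset.sum_le_card_nsmul _ _ _ hX
    _ ≤ q * fc (σ - ∑ i, k i) (fun i => w i - k i) l + N * (2 * N ^ 2 * F.card) :=
        Nat.add_le_add_left (Nat.mul_le_mul_right _ hIcard) _
    _ = q * fc (σ - ∑ i, k i) (fun i => w i - k i) l + 2 * N ^ 3 * F.card := by ring

end Pool.Agent.H18.Ex

end

section

/-!
# Module Round: any short list of directions is good

The region has dimension `n + 1` (so `n + 2` active coordinates), `N = n + 1`.
-/

namespace Pool.Agent.H18.Ex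

open Finset

variable {ι : Type} [Fintype ι] [DecidableEq ι]

theorem sum_count_univ (L : List ι) : ∑ i, L.count i = L.length := by
  induction L with
  | nil => simp
  | cons a L ih =>
    simp only [List.count_cons, List.length_cons, Finset.sum_add_distrib, ih]
    congr 1
    simp

omit [Fintype ι] in
theorem ew_nil (w : ι → ℕ) : ew [] w = w := by
  funext i
  simp [ew]

omit [Fintype ι] in
theorem ew_cons (a : ι) (L : List ι) (w : ι → ℕ) :
    ew (a :: L) w = ew L (Function.update w a (w a - 1)) := by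
  funext i
  unfold ew
  by_cases h : i = a
  · subst h
    rw [Function.update_self, List.count_cons_self]
    omega
  · rw [Function.update_of_ne h, List.count_cons_of_ne (Ne.symm h)]

theorem eph_not_mem (n M : ℕ) (L : List ι) (i : ι) (h : L.count i = 0) (σ : ℕ) (w φ : ι → ℕ) :
    eph n M L σ w φ i = φ i := by
  induction L generalizing σ w φ with
  | nil => rfl
  | cons a L ih =>
    have ha : a ≠ i := by
      rintro rfl
      rw [List.count_cons_self] at h
      omega
    rw [List.count_cons_of_ne ha] at h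
    rw [eph, ih h, Function.update_of_ne (Ne.symm ha)]

theorem eph_mem (n M : ℕ) (L : List ι) (i : ι) (h : 1 ≤ L.count i) (σ : ℕ) (w φ : ι → ℕ) :
    ∃ L₀ L₁ : List ι, L = L₀ ++ L₁ ∧
      eph n M L σ w φ i = nphi n M (fc (σ - L₀.length) (ew L₀ w) i) := by
  induction L generalizing σ w φ with
  | nil => simp at h
  | cons a L ih =>
    by_cases hL : 1 ≤ L.count i
    · obtain ⟨L₀, L₁, h1, h2⟩ := ih hL (σ - 1) (Function.update w a (w a - 1))
        (Function.update φ a (nphi n M (fc σ w a)))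
      refine ⟨a :: L₀, L₁, by rw [h1]; rfl, ?_⟩
      rw [eph, h2, ew_cons, List.length_cons, Nat.sub_sub, Nat.add_comm 1]
    · have h0 : L.count i = 0 := by omega
      have ha : a = i := by
        by_contra hne
        rw [List.count_cons_of_ne hne] at h
        omega
      subst ha
      refine ⟨[], a :: L, rfl, ?_⟩
      rw [eph, eph_not_mem n M L a h0, Function.update_self, ew_nil]
      rfl

/-- The hypotheses of `round_good` on the region. -/
structure RHyp (n M D' q b : ℕ) (o : ι) (σ : ℕ) (w k : ι → ℕ) : Prop where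
  hn : 1 ≤ n
  hM : 1 ≤ M
  hq : 32 * M * (n + 1) ^ 3 ≤ q
  hb1 : D' ≤ b
  hb2 : 2 * (n + 1) ^ 2 * (M * (n + 1) + 2 * ell (n + 1) M + 2) ≤ b
  hb3 : 16 * M ^ 2 * ell n M ^ 2 ≤ b
  hcard : (univ.filter fun i => 0 < w i).card = n + 2
  ho : 0 < w o
  hwo : ∀ i, w i ≤ w o
  hk : ∀ i, q * k i ≤ w i
  hkσ : ∀ i, q * k i ≤ σ
  hko : k o = 0
  hwb : ∀ i, 0 < w i → 2 * b ≤ w i
  hσb : 2 * b ≤ σ
  hτ : ∀ l, l ≠ o → 0 < w l → σ + b ≤ ∑ i ∈ univ.erase l, w i

section

variable {n M D' q b : ℕ} {o : ι} {σ : ℕ} {w k : ι → ℕ}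

theorem RHyp.q32 (h : RHyp n M D' q b o σ w k) : 32 * (n + 1) ≤ q := by
  have h1 : 1 ≤ M := h.hM
  have h2 : (n + 1) ≤ (n + 1) ^ 3 := Nat.le_self_pow (by norm_num) _
  have h3 := h.hq
  calc 32 * (n + 1) ≤ 32 * M * (n + 1) ^ 3 := by
        have : 32 * 1 * (n + 1) ≤ 32 * M * (n + 1) ^ 3 :=
          Nat.mul_le_mul (Nat.mul_le_mul_left _ h1) h2
        simpa using this
    _ ≤ q := h3

theorem RHyp.bpos (h : RHyp n M D' q b o σ w k) : 4 ≤ b := by
  have h1 := h.hb2
  have h2 : 2 * 1 * 2 ≤ 2 * (n + 1) ^ 2 * (M * (n + 1) + 2 * ell (n + 1) M + 2) := by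
    refine Nat.mul_le_mul (Nat.mul_le_mul_left _ (Nat.one_le_pow _ _ (by omega))) (by omega)
  omega

theorem RHyp.act_of_k (h : RHyp n M D' q b o σ w k) {i : ι} (hi : 1 ≤ k i) :
    i ≠ o ∧ 0 < w i := by
  have h1 := h.q32
  have h2 := h.hk i
  constructor
  · rintro rfl
    rw [h.hko] at hi
    omega
  · have h3 : 32 * (n + 1) * 1 ≤ q * k i := Nat.mul_le_mul h1 hi
    omega

/-- Length of a short list. -/
theorem RHyp.len (h : RHyp n M D' q b o σ w k) (L : List ι) (hL : ∀ i, L.count i ≤ k i) :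
    32 * L.length ≤ σ := by
  classical
  have hq := h.q32
  set S : Finset ι := (univ.filter fun i => 0 < w i).erase o with hS
  have hScard : S.card = n + 1 := by
    rw [hS, Finset.card_erase_of_mem (by simp [h.ho]), h.hcard]
    rfl
  have h1 : L.length = ∑ i ∈ S, L.count i := by
    rw [← sum_count_univ L]
    symm
    refine Finset.sum_subset (Finset.subset_univ _) fun i _ hi => ?_
    by_contra hne
    have hk1 : 1 ≤ k i := le_trans (Nat.one_le_iff_ne_zero.2 hne) (hL i)
    obtain ⟨a1, a2⟩ := h.act_of_k hk1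
    exact hi (Finset.mem_erase.2 ⟨a1, by simp [a2]⟩)
  have h2 : q * L.length ≤ (n + 1) * σ := by
    rw [h1, Finset.mul_sum, ← hScard]
    calc ∑ i ∈ S, q * L.count i ≤ ∑ _i ∈ S, σ :=
          Finset.sum_le_sum fun i _ => le_trans (Nat.mul_le_mul_left _ (hL i)) (h.hkσ i)
      _ = S.card * σ := by rw [Finset.sum_const, smul_eq_mul]
  have h3 : 32 * (n + 1) * L.length ≤ (n + 1) * σ := le_trans (Nat.mul_le_mul_right _ hq) h2
  have h4 : (n + 1) * (32 * L.length) ≤ (n + 1) * σ := by
    calc (n + 1) * (32 * L.length) = 32 * (n + 1) * L.length := by ring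
      _ ≤ _ := h3
  exact Nat.le_of_mul_le_mul_left h4 (by omega)

theorem RHyp.cnt (h : RHyp n M D' q b o σ w k) (L : List ι) (hL : ∀ i, L.count i ≤ k i) (i : ι) :
    32 * L.count i ≤ w i := by
  have hq := h.q32
  calc 32 * L.count i ≤ q * k i := Nat.mul_le_mul (by omega) (hL i)
    _ ≤ w i := h.hk i

theorem RHyp.ewo (h : RHyp n M D' q b o σ w k) (L : List ι) (hL : ∀ i, L.count i ≤ k i) :
    ew L w o = w o := by
  have := hL o
  rw [h.hko] at this
  unfold ew
  omega

theorem RHyp.pos (h : RHyp n M D' q b o σ w k) (L : List ι) (hL : ∀ i, L.count i ≤ k i) (i : ι) :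
    0 < ew L w i ↔ 0 < w i := by
  have := h.cnt L hL i
  unfold ew
  omega

theorem RHyp.actcard (h : RHyp n M D' q b o σ w k) (L : List ι) (hL : ∀ i, L.count i ≤ k i) :
    (univ.filter fun i => 0 < ew L w i).card = n + 2 := by
  rw [← h.hcard]
  congr 1
  ext i
  simp only [Finset.mem_filter, Finset.mem_univ, true_and]
  exact h.pos L hL i

theorem RHyp.wid (h : RHyp n M D' q b o σ w k) (L : List ι) (hL : ∀ i, L.count i ≤ k i) (i : ι)
    (hi : 0 < w i) : b ≤ ew L w i := by
  have h1 := h.cnt L hL i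
  have h2 := h.hwb i hi
  unfold ew
  omega

/-- The ratio between two states. -/
theorem RHyp.ratio (h : RHyp n M D' q b o σ w k) (L₁ L₂ : List ι)
    (hL : ∀ i, (L₁ ++ L₂).count i ≤ k i) (i : ι) (hio : i ≠ o) (hi : 0 < w i) :
    (8 * M - 1) * fc (σ - L₁.length) (ew L₁ w) i ≤
      8 * M * fc (σ - (L₁ ++ L₂).length) (ew (L₁ ++ L₂) w) i := by
  have hq := h.q32
  have hM := h.hM
  have hc : ∀ j, L₁.count j + L₂.count j ≤ k j := fun j => by
    have := hL j
    rwa [List.count_append] at this
  have hL1 : ∀ j, L₁.count j ≤ k j := fun j => le_trans (Nat.le_add_right _ _) (hc j)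
  have hlen := h.len L₁ hL1
  set q' := 16 * M * (n + 1) ^ 3 with hq'
  have hq'1 : 16 ≤ q' := by
    have : 16 * 1 * 1 ≤ 16 * M * (n + 1) ^ 3 :=
      Nat.mul_le_mul (Nat.mul_le_mul_left _ hM) (Nat.one_le_pow _ _ (by omega))
    omega
  have hqq : 2 * q' ≤ q := by
    have := h.hq
    rw [hq']
    calc 2 * (16 * M * (n + 1) ^ 3) = 32 * M * (n + 1) ^ 3 := by ring
      _ ≤ q := this
  have hkw : ∀ j, q' * L₂.count j ≤ ew L₁ w j := by
    intro j
    have h1 : 2 * q' * k j ≤ w j := le_trans (Nat.mul_le_mul_right _ hqq) (h.hk j)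
    have h2 : q' * (L₁.count j + L₂.count j) ≤ q' * k j := Nat.mul_le_mul_left _ (hc j)
    have h3 : 1 * L₁.count j ≤ q' * L₁.count j := Nat.mul_le_mul_right _ (by omega)
    have h4 : 2 * (q' * k j) ≤ w j := by
      calc 2 * (q' * k j) = 2 * q' * k j := by ring
        _ ≤ _ := h1
    rw [Nat.mul_add] at h2
    unfold ew
    omega
  have hks : ∀ j, q' * L₂.count j ≤ σ - L₁.length := by
    intro j
    have h1 : 2 * q' * k j ≤ σ := le_trans (Nat.mul_le_mul_right _ hqq) (h.hkσ j)
    have h2 : q' * L₂.count j ≤ q' * k j :=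
      Nat.mul_le_mul_left _ (le_trans (Nat.le_add_left _ _) (hc j))
    have h4 : 2 * (q' * k j) ≤ σ := by
      calc 2 * (q' * k j) = 2 * q' * k j := by ring
        _ ≤ _ := h1
    omega
  have hko2 : L₂.count o = 0 := by
    have := hc o
    rw [h.hko] at this
    omega
  have key := facet_ratio (n + 1) (by omega) o i (σ - L₁.length) (ew L₁ w)
    (fun j => L₂.count j) q' (by omega) (le_of_eq (h.actcard L₁ hL1)) hio
    ((h.pos L₁ hL1 i).2 hi)
    (by
      rw [h.ewo L₁ hL1]
      exact le_trans (Nat.sub_le _ _) (h.hwo i)) hko2 hkw hks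
  have e1 : σ - L₁.length - ∑ j, L₂.count j = σ - (L₁ ++ L₂).length := by
    rw [sum_count_univ, List.length_append, Nat.sub_sub]
  have e2 : (fun j => ew L₁ w j - L₂.count j) = ew (L₁ ++ L₂) w := by
    funext j
    unfold ew
    rw [List.count_append, Nat.sub_sub]
  rw [e1, e2] at key
  set x := fc (σ - L₁.length) (ew L₁ w) i
  set y := fc (σ - (L₁ ++ L₂).length) (ew (L₁ ++ L₂) w) i
  have hN3 : 0 < 2 * (n + 1) ^ 3 := by positivity
  refine Nat.le_of_mul_le_mul_left ?_ hN3
  have k1 : 2 * (n + 1) ^ 3 * ((8 * M - 1) * x) + 2 * (n + 1) ^ 3 * x = q' * x := by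
    have : 8 * M - 1 + 1 = 8 * M := by omega
    calc 2 * (n + 1) ^ 3 * ((8 * M - 1) * x) + 2 * (n + 1) ^ 3 * x
        = 2 * (n + 1) ^ 3 * ((8 * M - 1 + 1) * x) := by ring
      _ = q' * x := by rw [this, hq']; ring
  have k2 : 2 * (n + 1) ^ 3 * (8 * M * y) = q' * y := by rw [hq']; ring
  rw [k2]
  omega

/-- Facets are large. -/
theorem RHyp.fat (h : RHyp n M D' q b o σ w k) (L : List ι) (hL : ∀ i, L.count i ≤ k i) (l : ι)
    (hlo : l ≠ o) (hl : 0 < w l) :
    Fat n b (σ - L.length) (Function.update (ew L w) l 0) := by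
  have hlen := h.len L hL
  refine ⟨?_, ?_, ?_, ?_⟩
  · have : (univ.filter fun i => 0 < Function.update (ew L w) l 0 i) =
        (univ.filter fun i => 0 < ew L w i).erase l := by
      ext i
      simp only [Finset.mem_filter, Finset.mem_univ, true_and, Finset.mem_erase]
      by_cases hil : i = l
      · subst hil
        simp
      · rw [Function.update_of_ne hil]
        simp [hil]
    rw [this, Finset.card_erase_of_mem, h.actcard L hL]
    · rfl
    · simp only [Finset.mem_filter, Finset.mem_univ, true_and]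
      exact (h.pos L hL l).2 hl
  · have := h.hσb
    omega
  · intro i hi
    by_cases hil : i = l
    · subst hil
      rw [Function.update_self] at hi
      omega
    · rw [Function.update_of_ne hil] at hi ⊢
      exact h.wid L hL i ((h.pos L hL i).1 hi)
  · have h1 := h.hτ l hlo hl
    have h2 : ∑ i, Function.update (ew L w) l 0 i = ∑ i ∈ univ.erase l, ew L w i := by
      rw [← Finset.add_sum_erase univ _ (Finset.mem_univ l), Function.update_self, Nat.zero_add]
      refine Finset.sum_congr rfl fun i hi => ?_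
      rw [Function.update_of_ne (Finset.ne_of_mem_erase hi)]
    rw [h2]
    have h3 : ∑ i ∈ univ.erase l, w i =
        ∑ i ∈ univ.erase l, ew L w i + ∑ i ∈ univ.erase l, L.count i := by
      rw [← Finset.sum_add_distrib]
      refine Finset.sum_congr rfl fun i _ => ?_
      have := h.cnt L hL i
      unfold ew
      omega
    have h4 : ∑ i ∈ univ.erase l, L.count i ≤ L.length := by
      rw [← sum_count_univ L]
      exact Finset.sum_le_sum_of_subset (Finset.erase_subset _ _)
    omega

theorem RHyp.fcb (h : RHyp n M D' q b o σ w k) (L : List ι) (hL : ∀ i, L.count i ≤ k i) (l : ι)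
    (hlo : l ≠ o) (hl : 0 < w l) : b + 1 ≤ fc (σ - L.length) (ew L w) l := by
  obtain ⟨f1, f2, f3, f4⟩ := h.fat L hL l hlo hl
  have hn := h.hn
  have hcard2 : 1 < (univ.filter fun i => 0 < Function.update (ew L w) l 0 i).card := by omega
  obtain ⟨i, hi, j, hj, hij⟩ := Finset.one_lt_card.1 hcard2
  simp only [Finset.mem_filter, Finset.mem_univ, true_and] at hi hj
  exact card_ge _ _ b i j hij (f3 i hi) (f3 j hj) f2 f4

theorem RHyp.fcle (h : RHyp n M D' q b o σ w k) (L : List ι) (hL : ∀ i, L.count i ≤ k i) (l : ι)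
    (hl : 0 < w l) :
    fc (σ - L.length) (ew L w) l * b ≤ 2 * (n + 1) ^ 2 * (Rg (σ - L.length) (ew L w)).card := by
  have hlen := h.len L hL
  have hb := h.bpos
  have hσb := h.hσb
  exact facet_le (n + 1) (by omega) _ _ l b (le_of_eq (h.actcard L hL)) (h.wid L hL l hl)
    (by omega) (by omega)

/-- `4 M * nphi n M f ≤ 4 (M - 1) f + 4 M ell ^ 2`. -/
theorem nphi_le (n M f : ℕ) :
    4 * M * nphi n M f ≤ 4 * (M - 1) * f + 4 * M * ell n M ^ 2 := by
  unfold nphi
  have h1 : M * ((M - 1) * f / M) ≤ (M - 1) * f := Nat.mul_div_le _ _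
  calc 4 * M * ((M - 1) * f / M + ell n M ^ 2)
      = 4 * (M * ((M - 1) * f / M)) + 4 * M * ell n M ^ 2 := by ring
    _ ≤ 4 * ((M - 1) * f) + 4 * M * ell n M ^ 2 := by
        have := Nat.mul_le_mul_left 4 h1
        omega
    _ = _ := by ring

theorem round_arith (n M Φ E f g b F : ℕ)
    (hb2 : 2 * (n + 1) ^ 2 * (M * (n + 1) + 2 * E + 2) ≤ b)
    (hsum : Φ * b ≤ (n + 1) * (2 * (n + 1) ^ 2 * F)) (hf : f * b ≤ 2 * (n + 1) ^ 2 * F)
    (hg : g ≤ f) (hb : 0 < b) : M * Φ + E * (f + g) + f ≤ F := by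
  refine Nat.le_of_mul_le_mul_right ?_ hb
  have b1 : E * (f + g) * b ≤ E * (2 * (2 * (n + 1) ^ 2 * F)) := by
    have h1 : (f + g) * b ≤ 2 * (2 * (n + 1) ^ 2 * F) := by
      calc (f + g) * b ≤ (f + f) * b := Nat.mul_le_mul_right _ (by omega)
        _ = 2 * (f * b) := by ring
        _ ≤ 2 * (2 * (n + 1) ^ 2 * F) := Nat.mul_le_mul_left _ hf
    calc E * (f + g) * b = E * ((f + g) * b) := by ring
      _ ≤ _ := Nat.mul_le_mul_left _ h1
  have b2 : M * Φ * b ≤ M * ((n + 1) * (2 * (n + 1) ^ 2 * F)) := by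
    calc M * Φ * b = M * (Φ * b) := by ring
      _ ≤ _ := Nat.mul_le_mul_left _ hsum
  have b3 : (2 * (n + 1) ^ 2 * (M * (n + 1) + 2 * E + 2)) * F ≤ b * F :=
    Nat.mul_le_mul_right _ hb2
  calc (M * Φ + E * (f + g) + f) * b = M * Φ * b + E * (f + g) * b + f * b := by ring
    _ ≤ M * ((n + 1) * (2 * (n + 1) ^ 2 * F)) + E * (2 * (2 * (n + 1) ^ 2 * F)) +
        2 * (n + 1) ^ 2 * F := Nat.add_le_add (Nat.add_le_add b2 b1) hf
    _ ≤ M * ((n + 1) * (2 * (n + 1) ^ 2 * F)) + E * (2 * (2 * (n + 1) ^ 2 * F)) +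
        2 * (2 * (n + 1) ^ 2 * F) := by
        refine Nat.add_le_add_left ?_ _
        rw [Nat.two_mul (2 * (n + 1) ^ 2 * F)]
        exact Nat.le_add_left _ _
    _ = (2 * (n + 1) ^ 2 * (M * (n + 1) + 2 * E + 2)) * F := by ring
    _ ≤ b * F := b3
    _ = F * b := by ring

/-- The bound for the directions which occur. -/
theorem RHyp.eph_le (h : RHyp n M D' q b o σ w k) (L : List ι) (hL : ∀ i, L.count i ≤ k i)
    (φ : ι → ℕ) (i : ι) (hio : i ≠ o) (hi : 0 < w i) (hc : 1 ≤ L.count i) :
    4 * M * eph n M L σ w φ i ≤ (4 * M - 3) * fc (σ - L.length) (ew L w) i := by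
  have hM := h.hM
  obtain ⟨L₀, L₁, h1, h2⟩ := eph_mem n M L i hc σ w φ
  subst h1
  have hr := h.ratio L₀ L₁ hL i hio hi
  have hf := h.fcb (L₀ ++ L₁) hL i hio hi
  have hb3 := h.hb3
  rw [h2]
  refine le_trans (nphi_le n M _) ?_
  set x := fc (σ - L₀.length) (ew L₀ w) i
  set y := fc (σ - (L₀ ++ L₁).length) (ew (L₀ ++ L₁) w) i
  have he : 16 * M ^ 2 * ell n M ^ 2 ≤ y := by omega
  set e := ell n M ^ 2
  clear_value x y e
  obtain ⟨m, rfl⟩ : ∃ m, M = m + 1 := ⟨M - 1, by omega⟩
  have hr' : (8 * m + 7) * x ≤ 8 * (m + 1) * y := by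
    have : 8 * (m + 1) - 1 = 8 * m + 7 := by omega
    rwa [this] at hr
  have e1 : 4 * (m + 1) - 3 = 4 * m + 1 := by omega
  have e2 : m + 1 - 1 = m := by omega
  rw [e1, e2]
  have hpos : 0 < 8 * m + 7 := by omega
  refine Nat.le_of_mul_le_mul_left ?_ hpos
  have a1 : 4 * m * ((8 * m + 7) * x) ≤ 4 * m * (8 * (m + 1) * y) := Nat.mul_le_mul_left _ hr'
  nlinarith only [hf, hb3, a1]

end

/-- A short list of directions is good, in any order.

Write `R(k') = (σ - ∑ k', w - k')` for `k' ≤ k` and `f_i(k') = fc (R(k')) i`.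
(1) For `k' ≤ k'' ≤ k` and active `i ≠ o`: `(8 M - 1) f_i(k') ≤ 8 M f_i(k'')`.  This is `facet_ratio`
at `R(k')` with `k'' - k'` and `q / 2` (or `q' = 16 M N³ ≤ q / 2`): the widths at `R(k')` are at
least `w i - w i / q ≥ w i / 2` and `σ - ∑ k' ≥ σ - N σ / q ≥ σ / 2`, and `4 N³ / q ≤ 1 / (8 M)`.
(2) At every `R(k')` the widths (active coordinates) and `σ` are at least `b`, and
`∑_{i ≠ l} w i - σ ≥ b` for active `l ≠ o` (this difference never decreases because `k o = 0`).  So
all facets `l ≠ o` are `Fat n D'`, and `f_l ≥ b` by `card_ge` (`n ≥ 1`).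
(3) `f_l * b ≤ 2 N² |Rg|` by `facet_le`, so by `hb2`
`(M (n + 1) + 2 ell (n + 1) M + 2) * f_l ≤ |Rg|` for all active `l ≠ o`.
(4) Invariant along the list (with `k' = ` the counts so far, `φ'` the current bounds): for every
active `i ≠ o` either `k' i = 0` and `φ' i = φ i`, or `φ' i = nphi n M (f_i(k°))` for some
`k° ≤ k'`.  In both cases `4 M φ' i ≤ (4 M - 1) f_i(k')` (first case: `2 M φ i ≤ (2 M - 1) f_i(0)`;
second case: `nphi n M f ≤ (M - 1) / M f + f / (16 M²)`, so `4 M φ' i ≤ (4 M - 3) f_i(k')`), using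
(1) and `hb3`.  For `i = o` or `i` inactive, `φ' i = 0`.
(5) So the conditions of `Good` hold: `φ' l + g0 n M * ell n M ≤ f_l` since
`g0 n M * ell n M = M * ell n M ^ 2 ≤ f_l / (16 M)`, and the last one by (3), with
`g0 n M ≤ f_l` and `∑ φ' ≤ (n + 1) * max f`. -/
theorem round_good (n M D' q b : ℕ) (hn : 1 ≤ n) (hM : 1 ≤ M) (hq : 32 * M * (n + 1) ^ 3 ≤ q)
    (hb1 : D' ≤ b) (hb2 : 2 * (n + 1) ^ 2 * (M * (n + 1) + 2 * ell (n + 1) M + 2) ≤ b)
    (hb3 : 16 * M ^ 2 * ell n M ^ 2 ≤ b)
    (o : ι) (σ : ℕ) (w k : ι → ℕ)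
    (hcard : (univ.filter fun i => 0 < w i).card = n + 2) (ho : 0 < w o)
    (hwo : ∀ i, w i ≤ w o) (hk : ∀ i, q * k i ≤ w i) (hkσ : ∀ i, q * k i ≤ σ) (hko : k o = 0)
    (hwb : ∀ i, 0 < w i → 2 * b ≤ w i) (hσb : 2 * b ≤ σ)
    (hτ : ∀ l, l ≠ o → 0 < w l → σ + b ≤ ∑ i ∈ univ.erase l, w i)
    (φ : ι → ℕ) (hφ : ∀ i, i ≠ o → 0 < w i → 2 * M * φ i ≤ (2 * M - 1) * fc σ w i)
    (hφ0 : ∀ i, i = o ∨ w i = 0 → φ i = 0)
    (L : List ι) (hL : ∀ i, L.count i ≤ k i) :
    Good n M (Fat n D') L σ w φ ∧
    (∀ i, i ≠ o → 0 < w i → 1 ≤ L.count i →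
      4 * M * eph n M L σ w φ i ≤ (4 * M - 3) * fc (σ - L.length) (ew L w) i) ∧
    (∀ i, L.count i = 0 → eph n M L σ w φ i = φ i) ∧
    (∀ i, i ≠ o → 0 < w i →
      (8 * M - 1) * fc σ w i ≤ 8 * M * fc (σ - L.length) (ew L w) i) := by
  have h : RHyp n M D' q b o σ w k :=
    ⟨hn, hM, hq, hb1, hb2, hb3, hcard, ho, hwo, hk, hkσ, hko, hwb, hσb, hτ⟩
  refine ⟨?_, fun i hio hi hc => h.eph_le L hL φ i hio hi hc,
    fun i hi => eph_not_mem n M L i hi σ w φ, fun i hio hi => ?_⟩
  swap
  · have := h.ratio [] L hL i hio hi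
    rwa [ew_nil] at this
  -- goodness, by induction on the end of the list
  induction L using List.reverseRecOn with
  | nil => exact trivial
  | append_singleton L l ih =>
    have hL' : ∀ i, L.count i ≤ k i := fun i => by
      have := hL i
      rw [List.count_append] at this
      omega
    have hl1 : 1 ≤ k l := by
      have := hL l
      rw [List.count_append, List.count_singleton_self] at this
      omega
    obtain ⟨hlo, hl⟩ := h.act_of_k hl1
    rw [Good.append]
    refine ⟨ih hL', ?_⟩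
    have hlen := h.len L hL'
    have hb := h.bpos
    obtain ⟨f1, f2, f3, f4⟩ := h.fat L hL' l hlo hl
    have hfl := h.fcb L hL' l hlo hl
    -- all current bounds
    have hall : ∀ i, i ≠ o → 0 < w i →
        4 * M * eph n M L σ w φ i ≤ (4 * M - 1) * fc (σ - L.length) (ew L w) i := by
      intro i hio hi
      by_cases hc : 1 ≤ L.count i
      · refine le_trans (h.eph_le L hL' φ i hio hi hc) (Nat.mul_le_mul_right _ (by omega))
      · have hc0 : L.count i = 0 := by omega
        rw [eph_not_mem n M L i hc0]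
        have h1 := hφ i hio hi
        have h2 := h.ratio [] L (by simpa using hL') i hio hi
        rw [ew_nil] at h2
        simp only [List.nil_append, List.length_nil, Nat.sub_zero] at h2
        set x := fc σ w i
        set y := fc (σ - L.length) (ew L w) i
        set z := φ i
        clear_value x y z
        obtain ⟨m, rfl⟩ : ∃ m, M = m + 1 := ⟨M - 1, by omega⟩
        have e1 : 8 * (m + 1) - 1 = 8 * m + 7 := by omega
        have e2 : 4 * (m + 1) - 1 = 4 * m + 3 := by omega
        have e3 : 2 * (m + 1) - 1 = 2 * m + 1 := by omega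
        rw [e1] at h2
        rw [e3] at h1
        rw [e2]
        have hpos : 0 < 8 * m + 7 := by omega
        refine Nat.le_of_mul_le_mul_left ?_ hpos
        have a1 : (8 * m + 7) * (2 * (m + 1) * z) ≤ (8 * m + 7) * ((2 * m + 1) * x) :=
          Nat.mul_le_mul_left _ h1
        have a2 : (2 * m + 1) * ((8 * m + 7) * x) ≤ (2 * m + 1) * (8 * (m + 1) * y) :=
          Nat.mul_le_mul_left _ h2
        nlinarith only [a1, a2]
    have hzero : ∀ i, (i = o ∨ w i = 0) → eph n M L σ w φ i = 0 := by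
      intro i hi
      have hc0 : L.count i = 0 := by
        by_contra hne
        have hk1 : 1 ≤ k i := le_trans (Nat.one_le_iff_ne_zero.2 hne) (hL' i)
        obtain ⟨a1, a2⟩ := h.act_of_k hk1
        rcases hi with hi | hi
        · exact a1 hi
        · omega
      rw [eph_not_mem n M L i hc0]
      exact hφ0 i hi
    refine ⟨?_, ?_, ?_, ?_, ?_, trivial⟩
    · omega
    · exact (h.pos L hL' l).2 hl
    · exact ⟨f1, le_trans hb1 f2, fun i hi => le_trans hb1 (f3 i hi), by omega⟩
    · have h1 := hall l hlo hl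
      unfold g0
      set x := eph n M L σ w φ l
      set y := fc (σ - L.length) (ew L w) l
      set e := ell n M
      have he : 16 * M ^ 2 * e ^ 2 ≤ y := by omega
      clear_value x y e
      obtain ⟨m, rfl⟩ : ∃ m, M = m + 1 := ⟨M - 1, by omega⟩
      have e2 : 4 * (m + 1) - 1 = 4 * m + 3 := by omega
      rw [e2] at h1
      have hpos : 0 < 4 * (m + 1) := by omega
      refine Nat.le_of_mul_le_mul_left ?_ hpos
      nlinarith only [hb, hfl, hb3, h1]
    · set F := (Rg (σ - L.length) (ew L w)).card with hF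
      have hfb : ∀ i, 0 < w i → fc (σ - L.length) (ew L w) i * b ≤ 2 * (n + 1) ^ 2 * F :=
        fun i hi =>
        h.fcle L hL' i hi
      have hφb : ∀ i, i ≠ o → 0 < w i → eph n M L σ w φ i * b ≤ 2 * (n + 1) ^ 2 * F := by
        intro i hio hi
        refine le_trans (Nat.mul_le_mul_right _ ?_) (hfb i hi)
        have h1 := hall i hio hi
        have h2 : (4 * M - 1) * fc (σ - L.length) (ew L w) i ≤
            4 * M * fc (σ - L.length) (ew L w) i := Nat.mul_le_mul_right _ (by omega)
        exact Nat.le_of_mul_le_mul_left (le_trans h1 h2) (by omega)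
      have hsum : (∑ i, eph n M L σ w φ i) * b ≤ (n + 1) * (2 * (n + 1) ^ 2 * F) := by
        set S : Finset ι := (univ.filter fun i => 0 < w i).erase o with hS
        have hScard : S.card = n + 1 := by
          rw [hS, Finset.card_erase_of_mem (by simp [h.ho]), h.hcard]
          rfl
        have h1 : ∑ i, eph n M L σ w φ i = ∑ i ∈ S, eph n M L σ w φ i := by
          symm
          refine Finset.sum_subset (Finset.subset_univ _) fun i _ hi => ?_
          refine hzero i ?_
          by_contra hne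
          push Not at hne
          exact hi (Finset.mem_erase.2 ⟨hne.1, by
            simp only [Finset.mem_filter, Finset.mem_univ, true_and]
            exact Nat.pos_of_ne_zero hne.2⟩)
        rw [h1, Finset.sum_mul]
        calc ∑ i ∈ S, eph n M L σ w φ i * b ≤ ∑ _i ∈ S, 2 * (n + 1) ^ 2 * F := by
              refine Finset.sum_le_sum fun i hi => ?_
              rw [hS, Finset.mem_erase, Finset.mem_filter] at hi
              exact hφb i hi.1 hi.2.2
          _ = (n + 1) * (2 * (n + 1) ^ 2 * F) := by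
              rw [Finset.sum_const, smul_eq_mul, hScard]
      have hg0 : g0 n M ≤ fc (σ - L.length) (ew L w) l := by
        unfold g0
        have e1 : M * ell n M ≤ 16 * M ^ 2 * ell n M ^ 2 := by
          have a1 : M ≤ M ^ 2 := Nat.le_self_pow (by norm_num) _
          have a2 : ell n M ≤ ell n M ^ 2 := Nat.le_self_pow (by norm_num) _
          have a3 : M * ell n M ≤ M ^ 2 * ell n M ^ 2 := Nat.mul_le_mul a1 a2
          calc M * ell n M ≤ M ^ 2 * ell n M ^ 2 := a3
            _ ≤ 16 * (M ^ 2 * ell n M ^ 2) := by omega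
            _ = _ := by ring
        omega
      exact round_arith n M _ _ _ _ b F hb2 hsum (hfb l hl) hg0 (by omega)

end Pool.Agent.H18.Ex

end
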