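import Pool.Agent.H94.LP3.H18.Ex.Iter
import Pool.Agent.H94.LP3.M24
import Pool.Agent.H94.LP3.M40
import Pool.Agent.H94.LP3.M52

/-! The parts of this file: H18.Ex.Sched_1, H18.Pr.FinN_2. -/

section

/-!
# Module Sched: existence of the schedule
-/

namespace Pool.Agent.H18.Ex

open Finset

section

variable {ι : Type} [Fintype ι] [DecidableEq ι]

/-- `round_good` for an admissible state. -/
private theorem SchedX_round {n M D' q b : ℕ} (hn : 1 ≤ n) (hM : 1 ≤ M)
    (hq : 32 * M * (n + 1) ^ 3 ≤ q)
    (hb1 : D' ≤ b) (hb2 : 2 * (n + 1) ^ 2 * (M * (n + 1) + 2 * ell (n + 1) M + 2) ≤ b)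
    (hb3 : 16 * M ^ 2 * ell n M ^ 2 ≤ b) {o : ι} {w : ι → ℕ}
    (hcard : (univ.filter fun i => 0 < w i).card = n + 2) (ho : 0 < w o)
    {s : ℕ} {v : ι → ℕ} (hst : SchedX_St b o w s v) {φ : ι → ℕ} (hφ : SchedX_Ph M o w s v φ)
    (k : ι → ℕ) (hk : ∀ i, q * k i ≤ v i) (hkσ : ∀ i, q * k i ≤ s) (hko : k o = 0)
    (L : List ι) (hL : ∀ i, L.count i ≤ k i) :
    Good n M (Fat n D') L s v φ ∧
    (∀ i, i ≠ o → 0 < w i → 1 ≤ L.count i →
      4 * M * eph n M L s v φ i ≤ (4 * M - 3) * fc (s - L.length) (ew L v) i) ∧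
    (∀ i, L.count i = 0 → eph n M L s v φ i = φ i) ∧
    (∀ i, i ≠ o → 0 < w i →
      (8 * M - 1) * fc s v i ≤ 8 * M * fc (s - L.length) (ew L v) i) := by
  have hcard' : (univ.filter fun i => 0 < v i).card = n + 2 := by
    rw [← hcard]
    congr 1
    ext i
    simp only [mem_filter, mem_univ, true_and]
    exact hst.act i
  have h := round_good n M D' q b hn hM hq hb1 hb2 hb3 o s v k hcard' ((hst.act o).2 ho) hst.hvo
    hk hkσ hko (fun i hi => hst.hvb i ((hst.act i).1 hi)) hst.hsb
    (fun l hl hvl => hst.hτ l hl ((hst.act l).1 hvl)) φ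
    (fun i hi hvi => hφ.h1 i hi ((hst.act i).1 hvi))
    (fun i hi => hφ.h2 i (hi.imp id (fun h0 => by
      by_contra hne
      have := (hst.act i).2 (Nat.pos_of_ne_zero hne)
      omega))) L hL
  refine ⟨h.1, fun i hi hwi hc => h.2.1 i hi ((hst.act i).2 hwi) hc, h.2.2.1,
    fun i hi hwi => h.2.2.2 i hi ((hst.act i).2 hwi)⟩

omit [Fintype ι] in
private theorem SchedX_rk_le (q : ℕ) (o : ι) (s : ℕ) (v : ι → ℕ) (i : ι) :
    q * rk q o s v i ≤ v i ∧ q * rk q o s v i ≤ s ∧ rk q o s v i ≤ v i := by
  unfold rk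
  split_ifs with h
  · simp
  · have h1 : q * (min (v i) s / q) ≤ min (v i) s := Nat.mul_div_le _ _
    have h2 : min (v i) s / q ≤ min (v i) s := Nat.div_le_self _ _
    exact ⟨h1.trans (min_le_left _ _), h1.trans (min_le_right _ _), h2.trans (min_le_left _ _)⟩

private theorem SchedX_rounds (n M D' q b B : ℕ) (hn : 1 ≤ n) (hM : 1 ≤ M)
    (hq : 32 * M * (n + 1) ^ 3 ≤ q) (hqB : q ≤ B) (hB : 1 ≤ B) (hq0 : 0 < q)
    (hbB : 2 * b ≤ B) (hb1 : D' ≤ b)
    (hb2 : 2 * (n + 1) ^ 2 * (M * (n + 1) + 2 * ell (n + 1) M + 2) ≤ b)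
    (hb3 : 16 * M ^ 2 * ell n M ^ 2 ≤ b) (o : ι) (w : ι → ℕ)
    (hcard : (univ.filter fun i => 0 < w i).card = n + 2) (ho : 0 < w o)
    (hwo : ∀ i, w i ≤ w o) (s : ℕ) (w' : ι → ℕ) (hw' : ∀ i, w' i ≤ w i) (hw'o : w' o = w o)
    (hτ : ∀ l, l ≠ o → 0 < w l → s + b ≤ ∑ i ∈ univ.erase l, w' i) (φ : ι → ℕ)
    (hφ : SchedX_Ph M o w s w' φ) (T : ℕ)
    (hT : ∀ t ≤ T, B ≤ ((rnd q o)^[t] (s, w')).1 ∧
      ∀ i, 0 < w i → B ≤ ((rnd q o)^[t] (s, w')).2 i) :
    ∀ t ≤ T, ∃ L : List ι, (∀ i ∈ L, i ∈ dirs o w) ∧ Good n M (Fat n D') L s w' φ ∧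
      s - L.length = ((rnd q o)^[t] (s, w')).1 ∧ ew L w' = ((rnd q o)^[t] (s, w')).2 ∧
      SchedX_Ph M o w ((rnd q o)^[t] (s, w')).1 ((rnd q o)^[t] (s, w')).2
        (eph n M L s w' φ) ∧
      SchedX_St b o w ((rnd q o)^[t] (s, w')).1 ((rnd q o)^[t] (s, w')).2 := by
  intro t
  induction t with
  | zero =>
    intro ht
    have h0 := hT 0 ht
    simp only [Function.iterate_zero, id_eq] at h0 ⊢
    refine ⟨[], by simp, trivial, by simp, ?_, hφ, ?_, ?_, ?_, ?_, hτ⟩
    · funext i
      simp [ew]
    · intro i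
      constructor
      · intro h
        exact h.trans_le (hw' i)
      · intro h
        have := h0.2 i h
        omega
    · intro i
      rw [hw'o]
      exact (hw' i).trans (hwo i)
    · intro i hi
      exact hbB.trans (h0.2 i hi)
    · exact hbB.trans h0.1
  | succ t ih =>
    intro ht
    obtain ⟨L, hLd, hLg, hLl, hLe, hph, hst⟩ := ih (by omega)
    have ht1 := hT (t + 1) ht
    have ht0 := hT t (by omega)
    rw [Function.iterate_succ_apply'] at ht1 ⊢
    set p := (rnd q o)^[t] (s, w') with hp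
    set k := rk q o p.1 p.2 with hk
    have hkp : ∀ i, q * k i ≤ p.2 i ∧ q * k i ≤ p.1 ∧ k i ≤ p.2 i := fun i =>
      SchedX_rk_le q o p.1 p.2 i
    have hko : k o = 0 := by
      rw [hk]
      unfold rk
      rw [if_pos rfl]
    have hr1 : (rnd q o p).1 = p.1 - ∑ i, k i := rfl
    have hr2 : (rnd q o p).2 = fun i => p.2 i - k i := rfl
    set R : List ι := (dirs o w).flatMap fun x => List.replicate (k x) x with hR
    have hRc : ∀ i, R.count i = k i := by
      intro i
      rw [hR, SchedX_count_flat _ (SchedX_nodup o w)]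
      split_ifs with h
      · rfl
      · rw [SchedX_mem_dirs] at h
        by_cases hio : i = o
        · rw [hio, hko]
        · have h3 : w i = 0 := by
            by_contra hne
            exact h ⟨Nat.pos_of_ne_zero hne, hio⟩
          have h4 : p.2 i = 0 := by
            by_contra hne
            have := (hst.act i).1 (Nat.pos_of_ne_zero hne)
            omega
          have h5 := (hkp i).2.2
          omega
    have hRd : ∀ i ∈ R, i ∈ dirs o w := by
      intro i hi
      rw [hR, List.mem_flatMap] at hi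
      obtain ⟨x, hx, hix⟩ := hi
      rw [List.mem_replicate] at hix
      rw [hix.2]
      exact hx
    have hRl : R.length = ∑ i, k i := by
      rw [SchedX_length]
      exact sum_congr rfl fun i _ => hRc i
    have hrd := SchedX_round hn hM hq hb1 hb2 hb3 hcard ho hst hph k (fun i => (hkp i).1)
      (fun i => (hkp i).2.1) hko R (fun i => (hRc i).le)
    have hew : ew R p.2 = (rnd q o p).2 := by
      rw [hr2]
      funext i
      unfold ew
      rw [hRc]
    have hsl : p.1 - R.length = (rnd q o p).1 := by rw [hr1, hRl]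
    refine ⟨L ++ R, ?_, ?_, ?_, ?_, ?_, ?_⟩
    · intro i hi
      rcases List.mem_append.1 hi with h | h
      · exact hLd i h
      · exact hRd i h
    · rw [Good.append]
      refine ⟨hLg, ?_⟩
      rw [hLl, hLe]
      exact hrd.1
    · rw [List.length_append, ← Nat.sub_sub, hLl, hsl]
    · rw [ew_append, hLe, hew]
    · rw [eph_append, hLl, hLe]
      constructor
      · intro i hio hwi
        have hk1 : 1 ≤ k i := by
          rw [hk]
          unfold rk
          rw [if_neg hio]
          rw [Nat.le_div_iff_mul_le hq0, one_mul]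
          exact le_min (hqB.trans (ht0.2 i hwi)) (hqB.trans ht0.1)
        have h1 := hrd.2.1 i hio hwi (by rw [hRc]; exact hk1)
        rw [hsl, hew] at h1
        have h2 : (4 * M - 3) * fc (rnd q o p).1 (rnd q o p).2 i ≤
            2 * ((2 * M - 1) * fc (rnd q o p).1 (rnd q o p).2 i) := by
          rw [← mul_assoc]
          apply Nat.mul_le_mul_right
          omega
        have h3 : 2 * (2 * M * eph n M R p.1 p.2 (eph n M L s w' φ) i) =
            4 * M * eph n M R p.1 p.2 (eph n M L s w' φ) i := by ring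
        omega
      · intro i hi
        have hki : R.count i = 0 := by
          rw [hRc]
          rcases hi with hi | hi
          · rw [hi, hko]
          · have h4 : p.2 i = 0 := by
              by_contra hne
              have := (hst.act i).1 (Nat.pos_of_ne_zero hne)
              omega
            have h5 := (hkp i).2.2
            omega
        rw [hrd.2.2.1 i hki]
        exact hph.h2 i hi
    · have hpos : ∑ i, k i ≤ p.1 := by
        have h1 := ht1.1
        rw [hr1] at h1
        omega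
      refine ⟨?_, ?_, ?_, ?_, ?_⟩
      · intro i
        constructor
        · intro h
          rw [hr2] at h
          apply (hst.act i).1
          simp only at h
          omega
        · intro h
          have := ht1.2 i h
          omega
      · intro i
        rw [hr2]
        simp only
        rw [hko]
        have := hst.hvo i
        omega
      · intro i hi
        exact hbB.trans (ht1.2 i hi)
      · exact hbB.trans ht1.1
      · intro l hl hwl
        have h1 := hst.hτ l hl hwl
        rw [hr1, hr2]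
        simp only
        have h2 : ∑ i ∈ univ.erase l, (p.2 i - k i) + ∑ i ∈ univ.erase l, k i =
            ∑ i ∈ univ.erase l, p.2 i := by
          rw [← sum_add_distrib]
          apply sum_congr rfl
          intro i _
          have := (hkp i).2.2
          omega
        have h3 : ∑ i ∈ univ.erase l, k i ≤ ∑ i, k i :=
          sum_le_sum_of_subset (subset_univ _)
        omega

end

/-- The required width of the schedule. -/
def cD (n M D' C : ℕ) : ℕ :=
  cD0 n M (cq n M) C (cB n M D' C) + 2 * cB n M D' C + 2 * M + 2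

/-- The schedule.

`q = 32 M (n+1)³`, `b = D' + 2 (n+1)² (M (n+1) + 2 ell (n+1) M + 2) + 16 M² (ell n M)² + C`,
`B = 2 b + 2 q (M + 1) + ...`, `D` from `rounds_exist` and `D ≥ 2 B + 2 M + ...`.
For `Nrm (n+1) D o σ w` and active `l ≠ o`:
`2 (∑_{i ≠ l} w i - σ) ≥ (w o - w l) + ∑_{i ≠ o, l} w i ≥ n D ≥ D`, which gives `hτ` of `round_good` with
`b ≤ D / 2` (and the difference does not decrease along the way).
(a) `C ≤ fc σ w ls`: `card_ge` for the facet.
(b), (c): `round_good` at `(σ, w)` with `k = (M + 1)` at `ls`, `0` elsewhere, `φ = 0`.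
(d): let `T` be given by `rounds_exist` for `σ' = σ - j`, `w' = update w ls (w ls - j)`.
`L` = the concatenation of the rounds `0, …, T - 1`, the `t`-th round being
`(dirs o w).flatMap fun i => replicate (rk … i) i`; by induction on the number of rounds,
using `Good.append`, `eph_append`, `ew_append` and `round_good` for each round: all
`rk … i ≥ 1` for `i ∈ dirs o w`, so after every round `4 M eph i ≤ (4 M - 3) fc i`, which implies
`2 M eph i ≤ (2 M - 1) fc i`.  Finally `clean M (dirs o w)` is one more (short) round with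
`k i = M + 1` (`q * (M + 1) ≤ B`). -/
theorem schedule (n M D' C : ℕ) (hn : 1 ≤ n) (hM : 1 ≤ M) (hC : 1 ≤ C) :
    ∀ (ι : Type) [Fintype ι] [DecidableEq ι] (o ls : ι) (σ : ℕ) (w : ι → ℕ),
      Nrm (n + 1) (cD n M D' C) o σ w → ls ≠ o → 0 < w ls →
      (∀ i, i ≠ o → 0 < w i → w ls ≤ w i) →
      C ≤ fc σ w ls ∧
      Good n M (Fat n D') (List.replicate (M + 1) ls) σ w (fun _ => 0) ∧
      (∀ j, 1 ≤ j → j ≤ M + 1 → 4 * M * eph n M (List.replicate j ls) σ w (fun _ => 0) ls ≤
        (4 * M - 3) * fc (σ - j) (Function.update w ls (w ls - j)) ls) ∧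
      (∀ j, j ≤ M + 1 → (8 * M - 1) * fc σ w ls ≤
        8 * M * fc (σ - j) (Function.update w ls (w ls - j)) ls) ∧
      (∀ j, j ≤ M → ∀ φ : ι → ℕ, (∀ i, i ≠ ls → φ i = 0) →
        2 * M * φ ls ≤ (2 * M - 1) * fc (σ - j) (Function.update w ls (w ls - j)) ls →
        ∃ L : List ι, (∀ i ∈ L, i ∈ dirs o w) ∧
          Good n M (Fat n D') (L ++ clean M (dirs o w)) (σ - j)
            (Function.update w ls (w ls - j)) φ ∧
          C * (Rg (σ - j - L.length) (ew L (Function.update w ls (w ls - j)))).card ≤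
            fc σ w ls ∧
          ∑ i, eph n M L (σ - j) (Function.update w ls (w ls - j)) φ i ≤
            (n + 1) * (Rg (σ - j - L.length) (ew L (Function.update w ls (w ls - j)))).card) := by
  set q : ℕ := 32 * M * (n + 1) ^ 3 with hqdef
  set b : ℕ := D' + 2 * (n + 1) ^ 2 * (M * (n + 1) + 2 * ell (n + 1) M + 2) +
    16 * M ^ 2 * ell n M ^ 2 + C with hbdef
  set B : ℕ := 2 * b + q * (M + 1) + 1 with hBdef
  have hq0 : 0 < q := by positivity
  have hqN : 2 * (n + 1) ≤ q := by
    have h1 : 1 ≤ (n + 1) ^ 2 := Nat.one_le_pow _ _ (by omega)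
    calc 2 * (n + 1) = 2 * (n + 1) * 1 := by ring
      _ ≤ 2 * (n + 1) * (16 * M * (n + 1) ^ 2) := by
        apply Nat.mul_le_mul_left
        nlinarith only [hM, h1]
      _ = q := by rw [hqdef]; ring
  have hb1 : D' ≤ b := by omega
  have hb2 : 2 * (n + 1) ^ 2 * (M * (n + 1) + 2 * ell (n + 1) M + 2) ≤ b := by omega
  have hb3 : 16 * M ^ 2 * ell n M ^ 2 ≤ b := by omega
  have hbC : C ≤ b := by omega
  have hD₀ := rounds_exist n M q C B hn hqN hC
  intro ι _ _ o ls σ w hN hlso hls hthin
  have hcD : cD n M D' C = cD0 n M q C B + 2 * B + 2 * M + 2 := rfl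
  rw [hcD] at hN
  set D₀ := cD0 n M q C B with hD₀def
  have hNrm0 : Nrm (n + 1) D₀ o σ w :=
    ⟨hN.hcard, hN.ho, hN.hwo, hN.hwσ, hN.hσ, fun i hi => by have := hN.hD i hi; omega⟩
  have hcard : (univ.filter fun i => 0 < w i).card = n + 2 := hN.hcard
  have hwoD := hN.hD o hN.ho
  have hσD := hwoD.trans (hN.hwσ o)
  have hlsD := hN.hD ls hls
  have hqM : q * (M + 1) ≤ B := by omega
  have hthird : ∀ l, ∃ i, 0 < w i ∧ i ≠ o ∧ i ≠ l := by
    intro l
    by_contra hcon
    push Not at hcon
    have h3 : (univ.filter fun i => 0 < w i) ⊆ {o, l} := by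
      intro i hi
      rw [mem_filter] at hi
      rw [mem_insert, mem_singleton]
      by_cases h : i = o
      · exact Or.inl h
      · exact Or.inr (hcon i hi.2 h)
    have h4 := card_le_card h3
    have h5 := card_le_two (a := o) (b := l)
    omega
  have hτ : ∀ l, l ≠ o → 0 < w l → σ + b ≤ ∑ i ∈ univ.erase l, w i := by
    intro l hl hwl
    have h1 : w l + ∑ i ∈ univ.erase l, w i = ∑ i, w i := add_sum_erase _ _ (mem_univ l)
    have h2 := hN.hσ
    obtain ⟨i, hi, hio, hil⟩ := hthird l
    have h6 : w o + w i ≤ ∑ i ∈ univ.erase l, w i := by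
      rw [← sum_pair (Ne.symm hio)]
      apply sum_le_sum_of_subset
      intro x hx
      rw [mem_insert, mem_singleton] at hx
      rw [mem_erase]
      refine ⟨?_, mem_univ _⟩
      rcases hx with hx | hx
      · rw [hx]
        exact hl.symm
      · rw [hx]
        exact hil
    have h7 := hN.hD i hi
    have h8 := hN.hwo l
    omega
  have hst0 : SchedX_St b o w σ w :=
    ⟨fun _ => Iff.rfl, hN.hwo, fun i hi => by have := hN.hD i hi; omega, by omega, hτ⟩
  have hph0 : SchedX_Ph M o w σ w (fun _ => 0) :=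
    ⟨fun i _ _ => by simp, fun i _ => rfl⟩
  have hrep : ∀ j, j ≤ M + 1 → _ := fun j hj =>
    SchedX_round (D' := D') (q := q) hn hM le_rfl hb1 hb2 hb3 hcard hN.ho hst0 hph0
      (fun i => if i = ls then M + 1 else 0)
      (fun i => by
        split_ifs with h
        · rw [h]; omega
        · simp)
      (fun i => by
        split_ifs with h
        · omega
        · simp) (if_neg (Ne.symm hlso)) (List.replicate j ls)
      (fun i => by
        rw [List.count_replicate]
        by_cases h : i = ls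
        · simp [h, hj]
        · have h' : ls ≠ i := fun e => h e.symm
          simp [h, h'])
  have hewr : ∀ j, ew (List.replicate j ls) w = Function.update w ls (w ls - j) := by
    intro j
    funext i
    unfold ew
    rw [List.count_replicate]
    by_cases h : i = ls
    · subst h
      simp
    · have h' : ls ≠ i := fun e => h e.symm
      simp [h, h']
  refine ⟨?_, (hrep (M + 1) le_rfl).1, ?_, ?_, ?_⟩
  · obtain ⟨i, hi, hio, hil⟩ := hthird ls
    have h1 : Function.update w ls 0 o = w o := Function.update_of_ne hlso.symm _ _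
    have h2 : Function.update w ls 0 i = w i := Function.update_of_ne hil _ _
    have h3 : ∑ x, Function.update w ls 0 x = ∑ x ∈ univ.erase ls, w x := by
      rw [← add_sum_erase univ _ (mem_univ ls), Function.update_self, zero_add]
      apply sum_congr rfl
      intro x hx
      exact Function.update_of_ne (ne_of_mem_erase hx) _ _
    have h4 := card_ge σ (Function.update w ls 0) b o i hio.symm (by rw [h1]; omega)
      (by rw [h2]; have := hN.hD i hi; omega) (by omega)
      (by rw [h3]; exact hτ ls hlso hls)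
    unfold fc
    omega
  · intro j hj1 hj2
    have h1 := (hrep j hj2).2.1 ls hlso hls (by
      rw [List.count_replicate_self]; exact hj1)
    rwa [List.length_replicate, hewr] at h1
  · intro j hj
    have h1 := (hrep j hj).2.2.2 ls hlso hls
    rwa [List.length_replicate, hewr] at h1
  · intro j hj φ hφ0 hφ1
    set s := σ - j with hs
    set w' := Function.update w ls (w ls - j) with hw'
    have hw'le : ∀ i, w' i ≤ w i := by
      intro i
      rw [hw']
      by_cases h : i = ls
      · rw [h, Function.update_self]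
        omega
      · rw [Function.update_of_ne h]
    have hw'ge : ∀ i, w i ≤ w' i + (if i = ls then j else 0) := by
      intro i
      rw [hw']
      by_cases h : i = ls
      · rw [h, Function.update_self, if_pos rfl]
        omega
      · rw [Function.update_of_ne h]
        omega
    have hw'o : w' o = w o := Function.update_of_ne hlso.symm _ _
    have hτ' : ∀ l, l ≠ o → 0 < w l → s + b ≤ ∑ i ∈ univ.erase l, w' i := by
      intro l hl hwl
      have h1 := hτ l hl hwl
      have h2 : ∑ i ∈ univ.erase l, w i ≤ ∑ i ∈ univ.erase l, w' i + j := by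
        calc ∑ i ∈ univ.erase l, w i
            ≤ ∑ i ∈ univ.erase l, (w' i + (if i = ls then j else 0)) :=
              sum_le_sum fun i _ => hw'ge i
          _ = ∑ i ∈ univ.erase l, w' i + ∑ i ∈ univ.erase l, (if i = ls then j else 0) :=
              sum_add_distrib
          _ ≤ ∑ i ∈ univ.erase l, w' i + j := by
            apply Nat.add_le_add_left
            rw [sum_ite_eq']
            split_ifs <;> omega
      omega
    have hph' : SchedX_Ph M o w s w' φ := by
      constructor
      · intro i hio hwi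
        by_cases h : i = ls
        · rw [h]
          exact hφ1
        · rw [hφ0 i h]
          simp
      · intro i hi
        apply hφ0
        rintro rfl
        rcases hi with hi | hi
        · exact hlso hi
        · omega
    obtain ⟨T, hT1, hT2⟩ := hD₀ ι o ls σ w hNrm0 hlso hls hthin s w' (by omega) (by omega)
      (fun i => by
        have := hw'ge i
        split_ifs at this <;> omega) hw'le
    obtain ⟨L, hLd, hLg, hLl, hLe, hph, hst⟩ := SchedX_rounds n M D' q b B hn hM le_rfl
      (by nlinarith only [hBdef]) (by omega) hq0 (by omega) hb1 hb2 hb3 o w hcard hN.ho hN.hwo s w' hw'le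
      hw'o hτ' φ hph' T hT2 T le_rfl
    have hpT := hT2 T le_rfl
    set p := (rnd q o)^[T] (s, w') with hp
    have hcl := SchedX_round (q := q) hn hM le_rfl hb1 hb2 hb3 hcard hN.ho hst hph
      (fun i => if i ∈ dirs o w then M + 1 else 0)
      (fun i => by
        split_ifs with h
        · rw [SchedX_mem_dirs] at h
          exact hqM.trans (hpT.2 i h.1)
        · simp)
      (fun i => by
        split_ifs with h
        · exact hqM.trans hpT.1
        · simp)
      (if_neg (by rw [SchedX_mem_dirs]; simp)) (clean M (dirs o w))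
      (fun i => (SchedX_count_flat (dirs o w) (SchedX_nodup o w) (fun _ => M + 1) i).le)
    refine ⟨L, hLd, ?_, ?_, ?_⟩
    · rw [Good.append]
      refine ⟨hLg, ?_⟩
      rw [hLl, hLe]
      exact hcl.1
    · rw [hLl, hLe]
      exact hT1
    · rw [hLl, hLe]
      have h1 : ∑ i, eph n M L s w' φ i =
          ∑ i ∈ (univ.filter fun i => 0 < w i).erase o, eph n M L s w' φ i := by
        symm
        apply sum_subset (subset_univ _)
        intro i _ hi
        apply hph.h2
        rw [mem_erase, mem_filter] at hi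
        by_cases h : i = o
        · exact Or.inl h
        · right
          by_contra hne
          exact hi ⟨h, mem_univ _, Nat.pos_of_ne_zero hne⟩
      have h2 : ((univ.filter fun i => 0 < w i).erase o).card = n + 1 := by
        rw [card_erase_of_mem (by rw [mem_filter]; exact ⟨mem_univ _, hN.ho⟩), hcard]
        rfl
      rw [h1, ← h2]
      rw [← smul_eq_mul]
      apply sum_le_card_nsmul
      intro i hi
      rw [mem_erase, mem_filter] at hi
      have h3 := hph.h1 i hi.1 hi.2.2
      have h4 := fc_le p.1 p.2 i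
      have h5 : 2 * M * eph n M L s w' φ i ≤ 2 * M * fc p.1 p.2 i :=
        h3.trans (Nat.mul_le_mul_right _ (by omega))
      exact (Nat.le_of_mul_le_mul_left h5 (by omega)).trans h4

end Pool.Agent.H18.Ex

end

section

/-!
# Module FinN: the two endings (abstract version, traces of dimension `n`)
-/

namespace Pool.Agent.H18.Pr

open Finset Pool.Agent.H18.Ex Pool.Agent.H18.Cub

variable {Λ : Type} [Fintype Λ] [DecidableEq Λ] {n : ℕ}

/-- Ending (A). -/
theorem ending_AN (Y : SysN Λ n) (M : ℕ) (hn : 1 ≤ n) (hM : 1 ≤ M) (dirs L : List Λ) (hd : dirs ≠ [])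
    (hLd : ∀ l ∈ L, l ∈ dirs) (a φ : Λ → ℕ)
    (hG : GoodN Y M (L ++ clean M dirs) a φ)
    (hfull : FullN Y (ew (L ++ clean M dirs) a))
    (c : Cfg Λ) (hc : c.OK M) (htr : ∀ l, c.tr n l ≤ φ l) (hsz : Y.R a ≤ c.sz n)
    (hΦ : ∀ l ∉ dirs, c.Φ l = 0)
    (hs : (c.sz n : ℤ) + Y.R (ew L a) < c.s + Y.R a) :
    Y.K a c.kinds := by
  rw [GoodN.append] at hG
  rw [ew_append'] at hfull
  obtain ⟨hG1, hG2⟩ := hG
  obtain ⟨c₁, hc₁, hGM₁, htr₁, hsz₁, hs₁, -, -, -, -, hcnt₁⟩ :=
    runN Y M hn hM L a φ hG1 c hc htr hsz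
  apply hGM₁
  have hN₁ : c₁.N.card < g0 n M := by
    rcases hs₁ with h | h
    · exfalso
      have h1 : c₁.s ≤ c₁.sz n := by
        unfold Cfg.sz Cfg.nsz
        omega
      omega
    · exact h
  set a₁ := ew L a with ha₁
  set φ₁ := ephN Y M L a φ with hφ₁
  obtain ⟨d, ds, rfl⟩ := List.exists_cons_of_ne_nil hd
  have hclean : clean M (d :: ds) = [d] ++ (List.replicate M d ++ clean M ds) := by
    unfold clean
    rw [List.flatMap_cons, List.replicate_succ]
    rfl
  rw [hclean, GoodN.append] at hG2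
  rw [hclean, ew_append'] at hfull
  obtain ⟨hG3, hG4⟩ := hG2
  obtain ⟨c₂, hc₂, hGM₂, htr₂, hsz₂, -, -, hN₂, -, -, hcnt₂⟩ :=
    runN Y M hn hM [d] a₁ φ₁ hG3 c₁ hc₁ htr₁ (by omega)
  apply hGM₂
  have hN₂' : c₂.N = 0 := hN₂ (List.cons_ne_nil d []) hN₁
  obtain ⟨c₃, hc₃, hGM₃, -, hsz₃, -, -, -, hz₃, -, -⟩ :=
    runN Y M hn hM (List.replicate M d ++ clean M ds) _ _ hG4 c₂ hc₂ htr₂ (by omega)
  apply hGM₃
  obtain ⟨hN₃, hΦ₃⟩ := hz₃ hN₂'
  have hΦ₃' : ∀ l, c₃.Φ l = 0 := by
    intro l
    rw [hΦ₃ l]
    by_cases hl : l ∈ d :: ds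
    · have hcount : M ≤ (List.replicate M d ++ clean M ds).count l := by
        rw [List.count_append]
        rcases List.mem_cons.1 hl with h | h
        · subst h
          rw [List.count_replicate_self]
          exact Nat.le_add_right _ _
        · have := fin_count_clean M ds l h
          omega
      apply shf_iterate_eq_zero hcount
      intro x hx
      have := hc₂.hΦ l x hx
      exact ⟨this.1, this.2.2.1, this.2.2.2⟩
    · have h1 : L.count l = 0 := List.count_eq_zero_of_not_mem fun h => hl (hLd l h)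
      have h2 : c₁.Φ l = 0 := by rw [hcnt₁ l h1, hΦ l hl]
      have h3 : [d].count l = 0 := by
        apply List.count_eq_zero_of_not_mem
        intro h
        rw [List.mem_singleton] at h
        exact hl (h ▸ List.mem_cons_self)
      rw [hcnt₂ l h3, h2]
      apply fin_shf_aux
      intro x hx
      exact absurd hx (Multiset.notMem_zero x)
  rw [fin_kinds_simple hN₃ hΦ₃']
  apply hfull.of_card
  · intro m hm
    rw [Multiset.eq_of_mem_replicate hm]
  · rw [Multiset.card_replicate]
    have h1 : c₃.sz n = c₃.s := by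
      unfold Cfg.sz Cfg.nsz Cfg.fl
      rw [hN₃, Finset.sum_eq_zero (fun l _ => by rw [hΦ₃' l, Multiset.map_zero,
        Multiset.sum_zero])]
      simp
    omega

/-- Ending (B). -/
theorem ending_BN (Y : SysN Λ n) (M : ℕ) (hn : 1 ≤ n) (hM : 1 ≤ M) (L : List Λ) (a φ : Λ → ℕ)
    (hG : GoodN Y M L a φ) (hfull : FullN Y (ew L a))
    (c : Cfg Λ) (hc : c.OK M) (htr : ∀ l, c.tr n l ≤ φ l)
    (hs : (ell (n + 1) M : ℤ) * Y.R (ew L a) + ((M * ∑ l, ephN Y M L a φ l : ℕ) : ℤ) + Y.R a ≤
      c.sz n + Y.R (ew L a)) (hsz : Y.R a ≤ c.sz n) :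
    Y.K a c.kinds := by
  obtain ⟨c₁, hc₁, hGM₁, htr₁, hsz₁, -, -, -, -, -, -⟩ := runN Y M hn hM L a φ hG c hc htr hsz
  apply hGM₁
  have hfl : ∑ l, c₁.fl n l ≤ M * ∑ l, ephN Y M L a φ l := by
    rw [Finset.mul_sum]
    refine Finset.sum_le_sum fun l _ => ?_
    exact le_trans (Cfg.fl_le n M c₁ hc₁ l) (Nat.mul_le_mul_left _ (htr₁ l))
  have hszdef : c₁.sz n = c₁.nsz n + ∑ l, c₁.fl n l := rfl
  have hN : (c₁.N.map (ell (n + 1))).sum ≤ ell (n + 1) M * c₁.N.card := by
    have h1 : (c₁.N.map (ell (n + 1))).sum ≤ (c₁.N.map fun _ => ell (n + 1) M).sum := by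
      apply Multiset.sum_map_le_sum_map
      intro m hm
      exact ell_mono _ (hc₁.hN m hm).2
    rw [Multiset.map_const', Multiset.sum_replicate, smul_eq_mul, Nat.mul_comm] at h1
    exact h1
  have hell := ell_pos (n + 1) hM
  have hnsz : c₁.nsz n ≤ ell (n + 1) M * (c₁.N.card + c₁.s) := by
    unfold Cfg.nsz
    rw [Nat.mul_add]
    have h2 : c₁.s ≤ ell (n + 1) M * c₁.s := Nat.le_mul_of_pos_left _ hell
    omega
  have hcard : Y.R (ew L a) ≤ ((c₁.N.card + c₁.s : ℕ) : ℤ) := by
    have h3 : (ell (n + 1) M : ℤ) * Y.R (ew L a) ≤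
        (ell (n + 1) M : ℤ) * ((c₁.N.card + c₁.s : ℕ) : ℤ) := by
      have h4 : ((c₁.nsz n : ℕ) : ℤ) ≤ ((ell (n + 1) M * (c₁.N.card + c₁.s) : ℕ) : ℤ) :=
        Int.ofNat_le.2 hnsz
      have h5 : ((∑ l, c₁.fl n l : ℕ) : ℤ) ≤ ((M * ∑ l, ephN Y M L a φ l : ℕ) : ℤ) :=
        Int.ofNat_le.2 hfl
      rw [Nat.cast_mul] at h4
      omega
    exact le_of_mul_le_mul_left h3 (by exact_mod_cast hell)
  have h1 : c₁.kinds = (c₁.N + Multiset.replicate c₁.s 1).map Kind.free +
      ∑ l, (c₁.Φ l).map fun x => Kind.forced l x.1 x.2 := by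
    rw [Multiset.map_add, Multiset.map_replicate]
    rfl
  rw [h1]
  apply hfull.of_card
  · intro m hm
    rw [Multiset.mem_add] at hm
    rcases hm with hm | hm
    · have := hc₁.hN m hm
      omega
    · rw [Multiset.eq_of_mem_replicate hm]
  · rw [Multiset.card_add, Multiset.card_replicate]
    exact hcard

end Pool.Agent.H18.Pr

end
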