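import Pool.Agent.H94.LP3.H18.FatToric
import Pool.Agent.H94.LP3.H18.Ta.PosE
import Pool.Agent.H94.LP3.M10
import Pool.Agent.H94.LP3.M52
import Pool.Agent.H94.LP3.M55

/-! The parts of this file: H18.Ta.Core, H18.Ta.Geo, H18.Ta.Link, H18.Ta.PackOne, H18.Ta.PackMix, H18.Ta.Fill, H18.Ta.Asm. -/

section

/-!
# Module Core (TA): Lemma U

`F = ∑_{s < ℓ} y^s f_s(x)`, `f_s = ∑_{a < c s} f s a x^a`.  The point `i` is `(x i, y i)`, its multiplicity
is `μ i`.
-/

namespace Pool.Agent.H18.Ta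

open Finset

/-- Combinations of binomial coefficients. -/
private theorem Core_comb {R : Type*} [CommRing R] (ℓ h : ℕ) (T : ℕ → R)
    (hT : ∀ γ < h, ∑ s ∈ range ℓ, ((s.choose γ : ℕ) : R) * T s = 0) (S : Finset ℕ) :
    ∀ γ, S.card + γ < h →
      ∑ s ∈ range ℓ, (∏ u ∈ S, ((s : R) - (u : R))) * (((s.choose γ : ℕ) : R) * T s) = 0 := by
  induction S using Finset.induction_on with
  | empty =>
    intro γ hγ
    simpa using hT γ (by simpa using hγ)
  | insert u S hu ih =>
    intro γ hγ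
    rw [card_insert_of_notMem hu] at hγ
    have h1 := ih (γ + 1) (by omega)
    have h2 := ih γ (by omega)
    have h3 : ∀ s ∈ range ℓ,
        (∏ u' ∈ insert u S, ((s : R) - (u' : R))) * (((s.choose γ : ℕ) : R) * T s) =
        ((γ : R) + 1) * ((∏ u' ∈ S, ((s : R) - (u' : R))) * (((s.choose (γ + 1) : ℕ) : R) * T s)) +
        ((γ : R) - u) * ((∏ u' ∈ S, ((s : R) - (u' : R))) * (((s.choose γ : ℕ) : R) * T s)) := by
      intro s _
      rw [prod_insert hu]
      have h4 : ((s : R) - γ) * ((s.choose γ : ℕ) : R) = ((γ : R) + 1) * ((s.choose (γ + 1) : ℕ) : R) := by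
        have h5 := Nat.choose_succ_right_eq s γ
        rcases Nat.lt_or_ge s γ with h6 | h6
        · rw [Nat.choose_eq_zero_of_lt h6, Nat.choose_eq_zero_of_lt (by omega)]
          simp
        · have h7 : ((s.choose (γ + 1) * (γ + 1) : ℕ) : R) = ((s.choose γ * (s - γ) : ℕ) : R) := by
            rw [h5]
          rw [Nat.cast_mul, Nat.cast_mul, Nat.cast_sub h6] at h7
          push_cast at h7
          linear_combination -h7
      have h5 : ((s : R) - u) * ((s.choose γ : ℕ) : R) =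
          ((γ : R) + 1) * ((s.choose (γ + 1) : ℕ) : R) + ((γ : R) - u) * ((s.choose γ : ℕ) : R) := by
        rw [← h4]
        ring
      calc _ = (∏ u' ∈ S, ((s : R) - (u' : R))) * ((((s : R) - u) * ((s.choose γ : ℕ) : R)) * T s) := by
            ring
        _ = _ := by
            rw [h5]
            ring
    rw [sum_congr rfl h3, sum_add_distrib, ← mul_sum, ← mul_sum, h1, h2, mul_zero, mul_zero, add_zero]

/-- A polynomial of small degree with many zeros vanishes. -/
private theorem Core_zero {κ : Type} [Fintype κ] (x : κ → ℂ) (hx : Function.Injective x) (n : κ → ℕ)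
    (N : ℕ) (hN : N ≤ ∑ i, n i) (b : ℕ → ℂ)
    (h : ∀ i, ∀ α < n i, ∑ a ∈ range N, b a * ((a.choose α : ℕ) * x i ^ (a - α)) = 0) :
    ∀ a < N, b a = 0 := by
  classical
  set p : Polynomial ℂ := ∑ a ∈ range N, Polynomial.monomial a (b a) with hp
  have hcoeff : ∀ a < N, p.coeff a = b a := by
    intro a ha
    rw [hp, Polynomial.finsetSum_coeff]
    simp only [Polynomial.coeff_monomial]
    rw [sum_ite_eq' (range N) a b, if_pos (mem_range.2 ha)]
  have hdeg : p.degree < N := by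
    rw [Polynomial.degree_lt_iff_coeff_zero]
    intro k hk
    rw [hp, Polynomial.finsetSum_coeff]
    apply sum_eq_zero
    intro a ha
    rw [Polynomial.coeff_monomial, if_neg]
    rw [mem_range] at ha
    omega
  have hdvd : ∀ i, (Polynomial.X - Polynomial.C (x i)) ^ n i ∣ p := by
    intro i
    rw [Polynomial.X_sub_C_pow_dvd_iff, Polynomial.X_pow_dvd_iff]
    intro α hα
    have h1 : (p.comp (Polynomial.X + Polynomial.C (x i))).coeff α =
        (Polynomial.taylor (x i) p).coeff α := by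
      rw [Polynomial.taylor_apply]
    rw [h1, Polynomial.taylor_coeff, hp, map_sum, Polynomial.eval_finsetSum, ← h i α hα]
    refine sum_congr rfl fun a _ => ?_
    rw [Polynomial.hasseDeriv_monomial, Polynomial.eval_monomial]
    ring
  have hprod : (∏ i, (Polynomial.X - Polynomial.C (x i)) ^ n i) ∣ p := by
    apply Finset.prod_dvd_of_coprime
    · intro i _ j _ hij
      exact (Polynomial.pairwise_coprime_X_sub_C hx hij).pow
    · intro i _
      exact hdvd i
  have hp0 : p = 0 := by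
    by_contra hne
    have h1 := Polynomial.degree_le_of_dvd hprod hne
    have h2 : (∏ i, (Polynomial.X - Polynomial.C (x i)) ^ n i).degree = ((∑ i, n i : ℕ) : WithBot ℕ) := by
      rw [Polynomial.degree_prod]
      simp [Polynomial.degree_pow, Polynomial.degree_X_sub_C]
    rw [h2] at h1
    have h3 : ((∑ i, n i : ℕ) : WithBot ℕ) < N := lt_of_le_of_lt h1 hdeg
    have h4 : ∑ i, n i < N := by exact_mod_cast h3
    omega
  intro a ha
  rw [← hcoeff a ha, hp0, Polynomial.coeff_zero]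

/-- Lemma U. -/
theorem core {κ : Type} [Fintype κ] (ℓ : ℕ) (c : ℕ → ℕ) (μ : κ → ℕ) (rk : κ → ℕ → ℕ) (e : κ → ℕ)
    (kap : ℕ → ℕ) (x : κ → ℂ) (hx : Function.Injective x)
    (hinj : ∀ i, ∀ s < ℓ, ∀ t < ℓ, rk i s = rk i t → s = t)
    (hkey : ∀ i, ∀ s < ℓ, ∀ t < ℓ, rk i s < rk i t → e i * s + kap s < e i * t + kap t)
    (hc : ∀ s < ℓ, c s ≤ ∑ i, (μ i - rk i s)) :
    ∃ y : κ → ℂ, ∀ f : ℕ → ℕ → ℂ,
      (∀ i α γ, α + γ < μ i → ∑ s ∈ range ℓ, ∑ a ∈ range (c s),
        f s a * (((a.choose α : ℕ) * x i ^ (a - α)) * ((s.choose γ : ℕ) * y i ^ (s - γ))) = 0) →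
      ∀ s < ℓ, ∀ a < c s, f s a = 0 := by
  classical
  by_contra hcon
  push Not at hcon
  let A : Finset (Σ _ : ℕ, ℕ) := (range ℓ).sigma fun s => range (c s)
  let ρ : Type := (i : κ) × (Fin (μ i) × Fin (μ i))
  let Mx : ρ → (Σ _ : ℕ, ℕ) → Polynomial ℂ := fun r a =>
    if (r.2.1 : ℕ) + (r.2.2 : ℕ) < μ r.1 then
      Polynomial.C ((a.2.choose (r.2.1 : ℕ) : ℕ) * x r.1 ^ (a.2 - (r.2.1 : ℕ))) *
        ((((a.1.choose (r.2.2 : ℕ) : ℕ)) : Polynomial ℂ) *
          (Polynomial.X ^ (e r.1 * a.1 + kap a.1) * Polynomial.X))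
    else 0
  have hsol : ∀ t : ℂ, ∃ f : (Σ _ : ℕ, ℕ) → ℂ,
      (∀ r, ∑ a ∈ A, f a * (Mx r a).eval t = 0) ∧ ∃ a ∈ A, f a ≠ 0 := by
    intro t
    obtain ⟨f, hf, s₁, hs₁, a₁, ha₁, hne⟩ := hcon fun i => t ^ e i
    have hmem : (⟨s₁, a₁⟩ : Σ _ : ℕ, ℕ) ∈ A := mem_sigma.2 ⟨mem_range.2 hs₁, mem_range.2 ha₁⟩
    by_cases ht : t = 0
    · refine ⟨fun _ => 1, fun r => sum_eq_zero fun a _ => ?_, _, hmem, one_ne_zero⟩
      subst ht
      simp only [Mx]
      split_ifs
      · simp
      · simp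
    · refine ⟨fun a => f a.1 a.2 * (t ^ kap a.1)⁻¹, fun r => ?_, _, hmem, ?_⟩
      · by_cases hr : (r.2.1 : ℕ) + (r.2.2 : ℕ) < μ r.1
        · have h1 := hf r.1 r.2.1 r.2.2 hr
          rw [← sum_sigma (range ℓ) (fun s => range (c s)) (fun a : Σ _ : ℕ, ℕ => f a.1 a.2 *
            (((a.2.choose (r.2.1 : ℕ) : ℕ) * x r.1 ^ (a.2 - (r.2.1 : ℕ))) *
              ((a.1.choose (r.2.2 : ℕ) : ℕ) * (t ^ e r.1) ^ (a.1 - (r.2.2 : ℕ)))))] at h1
          have h2 : ∑ a ∈ A, f a.1 a.2 * (t ^ kap a.1)⁻¹ * (Mx r a).eval t =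
              (t ^ (e r.1 * (r.2.2 : ℕ)) * t) * ∑ a ∈ A, f a.1 a.2 *
                (((a.2.choose (r.2.1 : ℕ) : ℕ) * x r.1 ^ (a.2 - (r.2.1 : ℕ))) *
                  ((a.1.choose (r.2.2 : ℕ) : ℕ) * (t ^ e r.1) ^ (a.1 - (r.2.2 : ℕ)))) := by
            rw [mul_sum]
            refine sum_congr rfl fun a _ => ?_
            simp only [Mx]
            rw [if_pos hr]
            simp only [Polynomial.eval_mul, Polynomial.eval_C, Polynomial.eval_natCast,
              Polynomial.eval_pow, Polynomial.eval_X]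
            rcases Nat.lt_or_ge a.1 (r.2.2 : ℕ) with h3 | h3
            · rw [Nat.choose_eq_zero_of_lt h3]
              simp
            · have h4 : t ^ (e r.1 * a.1 + kap a.1) =
                  t ^ (e r.1 * (r.2.2 : ℕ)) * (t ^ e r.1) ^ (a.1 - (r.2.2 : ℕ)) * t ^ kap a.1 := by
                rw [← pow_mul, ← pow_add, pow_add, ← mul_add, Nat.add_sub_cancel' h3]
              rw [h4]
              have h5 : t ^ kap a.1 ≠ 0 := pow_ne_zero _ ht
              field_simp
          rw [h2, h1, mul_zero]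
        · refine sum_eq_zero fun a _ => ?_
          simp only [Mx]
          rw [if_neg hr, Polynomial.eval_zero, mul_zero]
      · exact mul_ne_zero hne (inv_ne_zero (pow_ne_zero _ ht))
  obtain ⟨F, hF, a₀, ha₀, hne⟩ := Pool.Agent.H18.Ex.exists_poly_solution A Mx hsol
  -- the equations without the factor `X`
  have heq : ∀ i α γ, α + γ < μ i → ∑ s ∈ range ℓ, ((s.choose γ : ℕ) : Polynomial ℂ) *
      (Polynomial.X ^ (e i * s + kap s) * ∑ a ∈ range (c s),
        F ⟨s, a⟩ * Polynomial.C ((a.choose α : ℕ) * x i ^ (a - α))) = 0 := by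
    intro i α γ hαγ
    have h1 := hF ⟨i, ⟨α, by omega⟩, ⟨γ, by omega⟩⟩
    have h2 : Polynomial.X * ∑ s ∈ range ℓ, ((s.choose γ : ℕ) : Polynomial ℂ) *
        (Polynomial.X ^ (e i * s + kap s) * ∑ a ∈ range (c s),
          F ⟨s, a⟩ * Polynomial.C ((a.choose α : ℕ) * x i ^ (a - α))) = 0 := by
      rw [← h1]
      show _ = ∑ a ∈ (range ℓ).sigma fun s => range (c s), _
      rw [sum_sigma, mul_sum]
      refine sum_congr rfl fun s _ => ?_
      rw [mul_sum, mul_sum, mul_sum]
      refine sum_congr rfl fun a _ => ?_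
      simp only [Mx]
      rw [if_pos hαγ]
      ring
    exact (mul_eq_zero.1 h2).resolve_left Polynomial.X_ne_zero
  -- the vanishing at zero
  have hkeyv : ∀ i, ∀ s₀ < ℓ, ∀ α < μ i - rk i s₀,
      ∑ a ∈ range (c s₀), (F ⟨s₀, a⟩).eval 0 * ((a.choose α : ℕ) * x i ^ (a - α)) = 0 := by
    intro i s₀ hs₀ α hα
    set h := μ i - α with hh
    set T : ℕ → Polynomial ℂ := fun s => Polynomial.X ^ (e i * s + kap s) * ∑ a ∈ range (c s),
        F ⟨s, a⟩ * Polynomial.C ((a.choose α : ℕ) * x i ^ (a - α)) with hT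
    set S : Finset ℕ := (range ℓ).filter fun s => s ≠ s₀ ∧ rk i s < h with hS
    have hScard : S.card + 0 < h := by
      have h1 : (insert s₀ S).card ≤ (range h).card := by
        apply card_le_card_of_injOn (rk i)
        · intro s hs
          rw [mem_coe, mem_insert] at hs
          rw [mem_coe, mem_range]
          rcases hs with rfl | hs
          · omega
          · exact (mem_filter.1 hs).2.2
        · intro s hs t ht hst
          have hlt : ∀ s ∈ insert s₀ S, s < ℓ := by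
            intro s hs
            rcases mem_insert.1 hs with rfl | hs
            · exact hs₀
            · exact mem_range.1 (mem_filter.1 hs).1
          exact hinj i s (hlt s hs) t (hlt t ht) hst
      rw [card_insert_of_notMem (by simp [hS]), card_range] at h1
      omega
    have h2 := Core_comb ℓ h T (fun γ hγ => heq i α γ (by omega)) S 0 hScard
    have h3 := congrArg (fun p => Polynomial.coeff p (e i * s₀ + kap s₀)) h2
    simp only [Polynomial.finsetSum_coeff, Polynomial.coeff_zero] at h3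
    rw [sum_eq_single s₀] at h3
    · -- the main term
      have h4 : (∏ u ∈ S, (((s₀ : ℕ) : Polynomial ℂ) - ((u : ℕ) : Polynomial ℂ))) =
          Polynomial.C (∏ u ∈ S, ((s₀ : ℂ) - (u : ℂ))) := by
        rw [map_prod]
        refine prod_congr rfl fun u _ => ?_
        rw [map_sub]
        simp
      rw [h4, Nat.choose_zero_right, Nat.cast_one, one_mul, Polynomial.coeff_C_mul, hT] at h3
      simp only at h3
      rw [Polynomial.coeff_X_pow_mul', if_pos le_rfl, Nat.sub_self] at h3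
      have h5 : (∏ u ∈ S, ((s₀ : ℂ) - (u : ℂ))) ≠ 0 := by
        rw [prod_ne_zero_iff]
        intro u hu
        rw [sub_ne_zero]
        intro h6
        have h7 : s₀ = u := by exact_mod_cast h6
        exact (mem_filter.1 hu).2.1 h7.symm
      have h6 := (mul_eq_zero.1 h3).resolve_left h5
      rw [Polynomial.coeff_zero_eq_eval_zero, Polynomial.eval_finsetSum] at h6
      refine Eq.trans (sum_congr rfl fun a _ => ?_) h6
      rw [Polynomial.eval_mul, Polynomial.eval_C]
    · -- the other terms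
      intro s hs hne
      rw [mem_range] at hs
      by_cases hsS : s ∈ S
      · rw [prod_eq_zero hsS (sub_self _), zero_mul, Polynomial.coeff_zero]
      · have h4 : h ≤ rk i s := by
          by_contra h5
          exact hsS (mem_filter.2 ⟨mem_range.2 hs, hne, by omega⟩)
        have h5 := hkey i s₀ hs₀ s hs (by omega)
        rw [Nat.choose_zero_right, Nat.cast_one, one_mul, hT]
        simp only
        rw [mul_left_comm, Polynomial.coeff_X_pow_mul', if_neg (by omega)]
    · intro hs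
      exact absurd (mem_range.2 hs₀) hs
  -- conclusion
  have hs₀ := mem_range.1 (mem_sigma.1 ha₀).1
  have ha₀' := mem_range.1 (mem_sigma.1 ha₀).2
  apply hne
  have := Core_zero x hx (fun i => μ i - rk i a₀.1) (c a₀.1) (hc a₀.1 hs₀)
    (fun a => (F ⟨a₀.1, a⟩).eval 0) (fun i α hα => hkeyv i a₀.1 hs₀ α hα) a₀.2 ha₀'
  exact this

end Pool.Agent.H18.Ta

end

section

/-!
# Module Geo (TA): from general injectivity to the dimension of the system

Proof.  As in `Pool.Agent.H18.Ex.exists_special` (file `Ex/Final.lean`), with only one coordinate point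
`p i₀ = (0 : 0 : 1)` (`Pi.single 2 1`), `w = ![d, d, b]`, `b = d - m i₀`: by `GM_iff` choose positions for the other
points and for `N - L` simple points, `N = (Rg d w).card`, `L = ∑_{i ≠ i₀} ell 2 (m i)`; the forms in
`fatForms 2 d p₀ m` are supported in `Rg d w` (`vanishes_coord_iff`), and evaluation at the simple points is
injective, so `finrank ≤ N - L`.  By `general_finrank_le` the same bound holds for general points, and
`finrank_fatForms_ge` gives `≥ v` (and `≥ 0`).  Finally `N = ∑_{s ≤ b} (d + 1 - s)` and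
`N + binom(m i₀ + 1, 2) = binom(d + 2, 2)` (`m i₀ + b = d`), so `v = N - L` in `ℤ`.
-/

namespace Pool.Agent.H18.Ta

open Finset Pool.Agent.H18.Ex Pool.Agent.H18.Fat

/-- The number of exponents. -/
theorem card_rg (b d : ℕ) (hbd : b ≤ d) :
    (Rg d (![d, d, b] : Fin 3 → ℕ)).card = ∑ s ∈ range (b + 1), (d + 1 - s) := by
  have h1 : ∑ s ∈ range (b + 1), (d + 1 - s) =
      ((range (b + 1)).sigma fun s => range (d + 1 - s)).card := by
    rw [card_sigma]
    exact sum_congr rfl fun s _ => (card_range _).symm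
  rw [h1]
  refine card_nbij' (fun a => ⟨a 2, a 0⟩) (fun x => ![x.2, d - x.1 - x.2, x.1]) ?_ ?_ ?_ ?_
  · intro a ha
    rw [mem_coe, Ex.mem_Rg, Fin.sum_univ_three] at ha
    rw [mem_coe, mem_sigma, mem_range, mem_range]
    have h2 := ha.1 2
    simp only [Matrix.cons_val] at h2
    obtain ⟨_, h3⟩ := ha
    constructor
    · show a 2 < b + 1
      omega
    · show a 0 < d + 1 - a 2
      omega
  · intro x hx
    rw [mem_coe, mem_sigma, mem_range, mem_range] at hx
    rw [mem_coe, Ex.mem_Rg, Fin.sum_univ_three]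
    obtain ⟨h2, h3⟩ := hx
    refine ⟨fun i => ?_, ?_⟩
    · fin_cases i
      · show x.2 ≤ d
        omega
      · show d - x.1 - x.2 ≤ d
        omega
      · show x.1 ≤ b
        omega
    · show x.2 + (d - x.1 - x.2) + x.1 = d
      omega
  · intro a ha
    rw [mem_coe, Ex.mem_Rg, Fin.sum_univ_three] at ha
    obtain ⟨_, h3⟩ := ha
    funext i
    fin_cases i
    · rfl
    · show d - a 2 - a 0 = a 1
      omega
    · rfl
  · rintro ⟨x, y⟩ _
    rfl

private theorem Geo_count (q b : ℕ) :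
    ∑ s ∈ range (b + 1), (q + b + 1 - s) + (q + 1).choose 2 = (q + b + 2).choose 2 := by
  induction b with
  | zero =>
    rw [sum_range_one]
    have h1 : (q + 0 + 2).choose 2 = (q + 1).choose 1 + (q + 1).choose 2 := rfl
    rw [h1, Nat.choose_one_right]
    omega
  | succ b ih =>
    rw [sum_range_succ']
    have h1 : ∑ s ∈ range (b + 1), (q + (b + 1) + 1 - (s + 1)) =
        ∑ s ∈ range (b + 1), (q + b + 1 - s) := sum_congr rfl fun s _ => by omega
    rw [h1]
    have h2 : (q + (b + 1) + 2).choose 2 = (q + b + 2) + (q + b + 2).choose 2 := by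
      have h3 : (q + (b + 1) + 2).choose 2 =
          (q + (b + 1) + 1).choose 1 + (q + (b + 1) + 1).choose 2 := rfl
      rw [h3, Nat.choose_one_right]
      rfl
    rw [h2]
    omega

/-- The special configuration. -/
private theorem Geo_special (k d b : ℕ) (m : Fin k → ℕ) (i₀ : Fin k) (hd : m i₀ + b = d)
    (h : GM (Rg d (![d, d, b] : Fin 3 → ℕ))
      (((univ.filter fun i => i ≠ i₀).val.map m +
        Multiset.replicate ((Rg d (![d, d, b] : Fin 3 → ℕ)).card -
          ∑ i ∈ univ.filter (fun i => i ≠ i₀), ell 2 (m i)) 1).map Kind.free)) :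
    ∃ p₀ : Fin k → Fin (2 + 1) → ℂ, Module.finrank ℂ (fatForms 2 d p₀ m) ≤
      (Rg d (![d, d, b] : Fin 3 → ℕ)).card -
          ∑ i ∈ univ.filter (fun i => i ≠ i₀), ell 2 (m i) := by
  classical
  set w : Fin 3 → ℕ := ![d, d, b] with hw
  set R : ℕ := (Rg d w).card - ∑ i ∈ univ.filter (fun i => i ≠ i₀), ell 2 (m i) with hR
  let I := {i : Fin k // i ≠ i₀}
  let kk : I ⊕ Fin R → Kind (Fin 3) :=
    Sum.elim (fun i => Kind.free (m i.1)) fun _ => Kind.free 1
  have hkk : (univ : Finset (I ⊕ Fin R)).val.map kk =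
      ((univ.filter fun i => i ≠ i₀).val.map m + Multiset.replicate R 1).map Kind.free := by
    have h1 : (univ : Finset (I ⊕ Fin R)).val =
        (univ : Finset I).val.map Sum.inl + (univ : Finset (Fin R)).val.map Sum.inr := rfl
    have h2 : (univ.filter fun i : Fin k => i ≠ i₀).val = (univ : Finset I).val.map Subtype.val := by
      have h3 : (univ.filter fun i : Fin k => i ≠ i₀) =
          (univ : Finset I).map (Function.Embedding.subtype _) := by
        ext i
        simp only [mem_filter, mem_univ, true_and, mem_map, Function.Embedding.coe_subtype]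
        constructor
        · intro hi
          exact ⟨⟨i, hi⟩, rfl⟩
        · rintro ⟨a, rfl⟩
          exact a.2
      rw [h3]
      rfl
    rw [h1, h2, Multiset.map_add, Multiset.map_map, Multiset.map_map, Multiset.map_add,
      Multiset.map_map, Multiset.map_map, Multiset.map_replicate]
    congr 1
    have h4 : ((univ : Finset (Fin R)).val.map (kk ∘ Sum.inr)) =
        (univ : Finset (Fin R)).val.map (Function.const (Fin R) (Kind.free 1)) := rfl
    rw [h4, Multiset.map_const]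
    simp
  have hGI : GI (Rg d w) kk := by
    rw [← GM_iff, hkk]
    exact h
  obtain ⟨pos, hpos⟩ := hGI
  let p₀ : Fin k → Fin (2 + 1) → ℂ := fun i =>
    if hi : i ≠ i₀ then pos (Sum.inl ⟨i, hi⟩) else Pi.single 2 1
  refine ⟨p₀, ?_⟩
  -- the support
  have hsupp : ∀ F ∈ fatForms 2 d p₀ m, ∀ α ∈ F.support, (⇑α : Fin (2 + 1) → ℕ) ∈ Rg d w := by
    intro F hF α hα
    rw [MvPolynomial.mem_support_iff] at hα
    have hαd : α ∈ mons (2 + 1) d := by
      rw [mem_mons]
      by_contra h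
      exact hα (hF.1.coeff_eq_zero h)
    rw [Ex.mem_Rg]
    have hdeg := mem_mons.1 hαd
    rw [Finsupp.degree_eq_sum] at hdeg
    have h3 := hF.2 i₀
    have hp : p₀ i₀ = Pi.single 2 1 := by
      simp only [p₀]
      rw [dif_neg (by simp)]
    rw [hp, ← exists_toPoly hF.1, vanishes_coord_iff] at h3
    have h4 : α 2 + m i₀ ≤ d := h3 ⟨α, hαd⟩ hα
    have hdeg' := hdeg
    rw [Fin.sum_univ_three] at hdeg'
    refine ⟨fun l => ?_, hdeg⟩
    fin_cases l
    · show α 0 ≤ d
      omega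
    · show α 1 ≤ d
      omega
    · show α 2 ≤ b
      omega
  let Ψ : fatForms 2 d p₀ m →ₗ[ℂ] (Fin R → ℂ) :=
    { toFun := fun F j => ∑ a ∈ Rg d w, cf F.1 a * tcr (pos (Sum.inr j)) a 0
      map_add' := fun F G => by
        funext j
        simp only [Submodule.coe_add, cf, MvPolynomial.coeff_add, Pi.add_apply, add_mul,
          sum_add_distrib]
      map_smul' := fun c F => by
        funext j
        simp only [Submodule.coe_smul, cf, MvPolynomial.coeff_smul, smul_eq_mul, RingHom.id_apply,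
          Pi.smul_apply, mul_sum, mul_assoc] }
  have hΨ : Function.Injective Ψ := by
    rw [← LinearMap.ker_eq_bot, LinearMap.ker_eq_bot']
    intro F hF
    have h1 : ∀ i, Sat (Rg d w) (cf F.1) (kk i) (pos i) := by
      rintro (i | j)
      · have h2 := F.2.2 i.1
        have h3 : p₀ i.1 = pos (Sum.inl i) := by
          simp only [p₀]
          rw [dif_pos i.2]
        rw [h3] at h2
        exact sat_of_vanishes (hsupp F.1 F.2) h2
      · intro b hb
        have hb0 : b = 0 := by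
          change ∑ i, b i < 1 at hb
          have h2 : ∑ i, b i = 0 := by omega
          rw [sum_eq_zero_iff] at h2
          funext i
          exact h2 i (mem_univ _)
        subst hb0
        exact congrFun hF j
    have h2 := hpos (cf F.1) h1
    apply Subtype.ext
    change F.1 = 0
    by_contra hne
    obtain ⟨α, hα⟩ := MvPolynomial.ne_zero_iff.1 hne
    have h3 := hsupp F.1 F.2 α (MvPolynomial.mem_support_iff.2 hα)
    have h4 := h2 _ h3
    unfold cf at h4
    rw [show Finsupp.equivFunOnFinite.symm (⇑α) = α from by ext; rfl] at h4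
    exact hα h4
  have := LinearMap.finrank_le_finrank_of_injective hΨ
  rwa [Module.finrank_fintype_fun_eq_card, Fintype.card_fin] at this

/-- The dimension for general points. -/
theorem geo (k d b : ℕ) (m : Fin k → ℕ) (i₀ : Fin k) (hd : m i₀ + b = d)
    (h : GM (Rg d (![d, d, b] : Fin 3 → ℕ))
      (((univ.filter fun i => i ≠ i₀).val.map m +
        Multiset.replicate ((Rg d (![d, d, b] : Fin 3 → ℕ)).card -
          ∑ i ∈ univ.filter (fun i => i ≠ i₀), ell 2 (m i)) 1).map Kind.free)) :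
    ForGeneralPoints 2 k fun p => ImposesMaximalConditions 2 d p m := by
  classical
  obtain ⟨p₀, hp₀⟩ := Geo_special k d b m i₀ hd h
  refine ((general_finrank_le d p₀ m).and (ForGeneralPoints.coord_ne_zero 2 k)).mono ?_
  rintro p ⟨hp1, hp0⟩
  have hge := finrank_fatForms_ge (d := d) (by omega : 1 ≤ 2) (fun i => hp0 i 0) m
  have hN : (Rg d (![d, d, b] : Fin 3 → ℕ)).card + (m i₀ + 1).choose 2 = (d + 2).choose 2 := by
    rw [card_rg b d (by omega), ← hd]
    exact Geo_count (m i₀) b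
  have hL : ∑ i, ((m i + 2 - 1).choose 2 : ℤ) =
      (((m i₀ + 1).choose 2 + ∑ i ∈ univ.filter (fun i => i ≠ i₀), ell 2 (m i) : ℕ) : ℤ) := by
    rw [filter_ne', ← add_sum_erase univ _ (mem_univ i₀)]
    push_cast
    rfl
  unfold ImposesMaximalConditions
  rw [hL] at hge ⊢
  rw [← hN] at hge ⊢
  generalize (Rg d (![d, d, b] : Fin 3 → ℕ)).card = N at *
  generalize ∑ i ∈ univ.filter (fun i => i ≠ i₀), ell 2 (m i) = L at *
  generalize (m i₀ + 1).choose 2 = Q at *
  have h1 : Module.finrank ℂ (fatForms 2 d p m) ≤ N - L := hp1.trans hp₀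
  generalize Module.finrank ℂ (fatForms 2 d p m) = f at *
  push_cast at hge ⊢
  omega

end Pool.Agent.H18.Ta

end

section

/-!
# Module Link (TA): from a packing to general injectivity
-/

namespace Pool.Agent.H18.Ta

open Finset Pool.Agent.H18.Ex

theorem gm_of_pack (b d : ℕ) (hbd : b ≤ d) (P : Multiset (ℕ × ℕ × ℕ))
    (hP : ∀ x ∈ P, x.2.1 + x.2.2 < b + 1)
    (hc : ∀ s < b + 1, d + 1 - s ≤ (P.map fun x => ld (b + 1) x.1 x.2.1 x.2.2 s).sum) :
    GM (Rg d (![d, d, b] : Fin 3 → ℕ)) ((P.map Prod.fst).map Kind.free) := by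
  obtain ⟨n, t, rfl⟩ := multi_exists_fin P
  have ht : ∀ i, (t i).2.1 + (t i).2.2 < b + 1 := fun i =>
    hP (t i) (Multiset.mem_map.2 ⟨i, (by rw [Finset.mem_val]; exact Finset.mem_univ _), rfl⟩)
  rw [Multiset.map_map, Multiset.map_map, GM_iff]
  obtain ⟨y, hy⟩ := core (b + 1) (fun s => d + 1 - s) (fun i => (t i).1)
    (fun i => rk (b + 1) (t i).2.1 (t i).2.2) (fun i => ex (b + 1) (t i).2.1 (t i).2.2)
    (kap (b + 1)) (fun i : Fin n => ((i : ℕ) : ℂ))
    (fun i j hij => Fin.ext (Nat.cast_injective (R := ℂ) hij))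
    (fun i s hs u hu he => rk_inj (ht i) hs hu he)
    (fun i s hs u hu hr => key_lt (ht i) hs hu hr)
    (fun s hs => by
      have := hc s hs
      rw [Multiset.map_map] at this
      exact this)
  refine ⟨fun i => ![1, ((i : ℕ) : ℂ), y i], fun f hf => ?_⟩
  have h1 := hy (fun s a => f ![d - s - a, a, s]) (fun i α γ hαγ => by
    have h2 := hf i ![0, α, γ] (by
      show ∑ j : Fin 3, (![0, α, γ] : Fin 3 → ℕ) j < (t i).1
      rw [Fin.sum_univ_three]
      show 0 + α + γ < (t i).1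
      omega)
    rw [rg_sum b d hbd] at h2
    refine Eq.trans (sum_congr rfl fun s _ => sum_congr rfl fun a _ => ?_) h2
    congr 1
    show _ = tcr (![1, ((i : ℕ) : ℂ), y i]) ![d - s - a, a, s] ![0, α, γ]
    unfold tcr
    rw [Fin.prod_univ_three]
    show _ = (((d - s - a).choose 0 : ℕ) : ℂ) * 1 ^ (d - s - a - 0) *
      (((a.choose α : ℕ) : ℂ) * ((i : ℕ) : ℂ) ^ (a - α)) *
      (((s.choose γ : ℕ) : ℂ) * y i ^ (s - γ))
    rw [Nat.choose_zero_right, Nat.cast_one, one_pow, one_mul, one_mul])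
  intro a ha
  rw [mem_rg3] at ha
  have h3 := h1 (a 2) (by omega) (a 1) (by omega)
  have h4 : (![d - a 2 - a 1, a 1, a 2] : Fin 3 → ℕ) = a := by
    funext i
    fin_cases i
    · show d - a 2 - a 1 = a 0
      omega
    · rfl
    · rfl
  rw [h4] at h3
  exact h3

end Pool.Agent.H18.Ta

end

section

/-!
# Module PackOne (TA): exact packing of points of one multiplicity

Proof.  Apply `greedy` to `c` and `n`.  The identity also holds for the last layer `s = ℓ - 1`: the sum over all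
layers `s < ℓ` of the right hand side is `∑_u (a u + 1) * ell 2 μ + (n - ∑_u (a u + 1)) * ell 2 μ = n * ell 2 μ`
by `sum_ld`, and this is `∑ c s`.  Put `x u = a u` for `u < ℓ - 1` and `x (ℓ - 1) = n - ∑ (a u + 1)`.
Then `∑_{u<ℓ} x u * ld ℓ μ u 0 s = c s - σ s` where `0 ≤ σ s = ∑_{u<ℓ-1} ld ℓ μ u (j u) s ≤ ℓ μ`.
With `g = c 0`, `E = B + ℓ μ` we get `|∑_u x u ld - g| ≤ E`, so by `bnd` `x u ≥ δ c 0 - C E ≥ 0` as soon as
`c 0 ≥ N ≥ C E / δ`.  So the `a u` and the rest are natural numbers and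
`P = ∑_{u<ℓ-1} (replicate (a u) (u, 0) + {(u, j u)}) + replicate (rest) (ℓ - 1, 0)`.
-/

namespace Pool.Agent.H18.Ta

open Finset Pool.Agent.H18.Ex

private theorem PackOne_multiset (K L r : ℕ) (a j : ℕ → ℕ) (hj : ∀ u < K, u + j u < L) (hL : K < L) :
    ∃ P : Multiset (ℕ × ℕ), P.card = ∑ u ∈ range K, (a u + 1) + r ∧ (∀ x ∈ P, x.1 + x.2 < L) ∧
      ∀ f : ℕ × ℕ → ℕ, (P.map f).sum = ∑ u ∈ range K, (a u * f (u, 0) + f (u, j u)) + r * f (K, 0) := by
  refine ⟨∑ u ∈ range K, (Multiset.replicate (a u) (u, 0) + {(u, j u)}) +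
    Multiset.replicate r (K, 0), ?_, ?_, ?_⟩
  · rw [Multiset.card_add, Multiset.card_sum, Multiset.card_replicate]
    congr 1
    refine sum_congr rfl fun u _ => ?_
    rw [Multiset.card_add, Multiset.card_replicate, Multiset.card_singleton]
  · intro x hx
    rcases Multiset.mem_add.1 hx with hx | hx
    · obtain ⟨u, hu, hx⟩ := Multiset.mem_sum.1 hx
      have hu' := hj u (mem_range.1 hu)
      rcases Multiset.mem_add.1 hx with hx | hx
      · rw [Multiset.eq_of_mem_replicate hx]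
        show u + 0 < L
        omega
      · rw [Multiset.mem_singleton.1 hx]
        exact hu'
    · rw [Multiset.eq_of_mem_replicate hx]
      exact hL
  · intro f
    have h : ∀ P : Multiset (ℕ × ℕ), (P.map f).sum =
        (Multiset.sumAddMonoidHom.comp (Multiset.mapAddMonoidHom f)) P := fun P => rfl
    rw [h, map_add, map_sum, ← h]
    rw [Multiset.map_replicate, Multiset.sum_replicate, smul_eq_mul]
    congr 1
    refine sum_congr rfl fun u _ => ?_
    rw [← h, Multiset.map_add, Multiset.sum_add, Multiset.map_replicate, Multiset.sum_replicate,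
      smul_eq_mul, Multiset.map_singleton, Multiset.sum_singleton]

/-- The bound in `pack_one`. -/
def nOne (ℓ B : ℕ) : ℕ := 4 * ℓ ^ 6 * (B + ℓ ^ 2)

/-- Exact packing, one multiplicity. -/
theorem pack_one (μ ℓ B : ℕ) (hμ : 1 ≤ μ) (hℓ : 2 * μ ≤ ℓ) :
    ∀ (c : ℕ → ℕ) (n : ℕ), (∀ s < ℓ, nOne ℓ B ≤ c s) → (∀ s < ℓ, ∀ t < ℓ, c s ≤ c t + B) →
      ∑ s ∈ range ℓ, c s = n * ell 2 μ →
      ∃ P : Multiset (ℕ × ℕ), P.card = n ∧ (∀ x ∈ P, x.1 + x.2 < ℓ) ∧
        ∀ s < ℓ, (P.map fun x => ld ℓ μ x.1 x.2 s).sum = c s := by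
  intro c n hN hB hsum
  obtain ⟨a, j, hg⟩ := greedy μ ℓ hμ (by omega) (fun s => (c s : ℤ)) n
  obtain ⟨L, rfl⟩ : ∃ L, ℓ = L + 1 := ⟨ℓ - 1, by omega⟩
  rw [Nat.add_sub_cancel] at hg
  set rest : ℤ := (n : ℤ) - ∑ u ∈ range L, (a u + 1) with hrest
  have hμL : μ ≤ L + 1 := by omega
  have hall : ∀ s < L + 1, (c s : ℤ) = ∑ u ∈ range L, (a u * (ld (L + 1) μ u 0 s : ℤ) +
      (ld (L + 1) μ u (j u) s : ℤ)) + rest * (ld (L + 1) μ L 0 s : ℤ) := by
    intro s hs
    rcases Nat.lt_or_ge s L with h | h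
    · exact (hg s h).2
    · obtain rfl : s = L := by omega
      have h2 : ∑ t ∈ range (s + 1), (∑ u ∈ range s, (a u * (ld (s + 1) μ u 0 t : ℤ) +
          (ld (s + 1) μ u (j u) t : ℤ)) + rest * (ld (s + 1) μ s 0 t : ℤ)) = n * ell 2 μ := by
        rw [sum_add_distrib, sum_comm, ← mul_sum]
        have h3 : ∀ u ∈ range s, ∑ t ∈ range (s + 1), (a u * (ld (s + 1) μ u 0 t : ℤ) +
            (ld (s + 1) μ u (j u) t : ℤ)) = (a u + 1) * ell 2 μ := by
          intro u hu
          have hu' := mem_range.1 hu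
          rw [sum_add_distrib, ← mul_sum, ← Nat.cast_sum, ← Nat.cast_sum,
            sum_ld (by omega) hμL, sum_ld (hg u hu').1 hμL]
          ring
        rw [sum_congr rfl h3, ← sum_mul, ← Nat.cast_sum, sum_ld (by omega) hμL, hrest]
        ring
      have h4 : ∑ t ∈ range (s + 1), (c t : ℤ) = n * ell 2 μ := by
        rw [← Nat.cast_sum, hsum]
        push_cast
        rfl
      rw [← h4, sum_range_succ, sum_range_succ] at h2
      have h5 : ∑ t ∈ range s, (∑ u ∈ range s, (a u * (ld (s + 1) μ u 0 t : ℤ) +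
          (ld (s + 1) μ u (j u) t : ℤ)) + rest * (ld (s + 1) μ s 0 t : ℤ)) =
          ∑ t ∈ range s, (c t : ℤ) :=
        sum_congr rfl fun t ht => ((hg t (mem_range.1 ht)).2).symm
      rw [h5] at h2
      exact (add_left_cancel h2).symm
  have hx : ∀ s < L + 1, (0 : ℝ) ≤ (fun u : ℕ => if u < L then ((a u : ℤ) : ℝ) else (rest : ℝ)) s := by
    intro s hs
    refine le_trans ?_ (bndE μ (L + 1) hμ hℓ
      (fun u : ℕ => if u < L then ((a u : ℤ) : ℝ) else (rest : ℝ)) (c 0)
      ((B : ℝ) + (L + 1 : ℕ) * μ) (Nat.cast_nonneg _) (by positivity) ?_ s hs)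
    · have h1 := hN 0 (Nat.succ_pos L)
      have h2 : ((nOne (L + 1) B : ℕ) : ℝ) ≤ (c 0 : ℝ) := by exact_mod_cast h1
      unfold nOne at h2
      have hL0 : (0 : ℝ) < ((L + 1 : ℕ) : ℝ) := by positivity
      have h3 : (μ : ℝ) ≤ ((L + 1 : ℕ) : ℝ) := by exact_mod_cast hμL
      rw [Nat.cast_mul, Nat.cast_mul, Nat.cast_add, Nat.cast_pow, Nat.cast_pow] at h2
      set X : ℝ := ((L + 1 : ℕ) : ℝ) with hX
      have h4 : X * μ ≤ X ^ 2 := by nlinarith
      have h5 : 4 * X ^ 6 * ((B : ℝ) + X * μ) ≤ c 0 := by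
        refine le_trans ?_ h2
        push_cast
        apply mul_le_mul_of_nonneg_left (by linarith) (by positivity)
      rw [sub_nonneg, le_div_iff₀ (by positivity)]
      have h6 : 4 * X ^ 3 * ((B : ℝ) + X * μ) * X ^ 3 = 4 * X ^ 6 * ((B : ℝ) + X * μ) := by ring
      rw [h6]
      exact h5
    · intro t ht
      have h1 : ∑ u ∈ range (L + 1), (fun u : ℕ => if u < L then ((a u : ℤ) : ℝ) else (rest : ℝ)) u *
          (ld (L + 1) μ u 0 t : ℝ) = (c t : ℝ) - ∑ u ∈ range L, (ld (L + 1) μ u (j u) t : ℝ) := by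
        rw [sum_range_succ]
        have h2 : ∑ u ∈ range L, (fun u : ℕ => if u < L then ((a u : ℤ) : ℝ) else (rest : ℝ)) u *
            (ld (L + 1) μ u 0 t : ℝ) = ∑ u ∈ range L, ((a u : ℤ) : ℝ) * (ld (L + 1) μ u 0 t : ℝ) := by
          refine sum_congr rfl fun u hu => ?_
          simp only
          rw [if_pos (mem_range.1 hu)]
        rw [h2]
        simp only
        rw [if_neg (lt_irrefl L)]
        have h3 : (c t : ℝ) = ((c t : ℤ) : ℝ) := by push_cast; rfl
        rw [h3, hall t ht]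
        push_cast
        rw [sum_add_distrib]
        ring
      rw [h1]
      have h4 : ∑ u ∈ range L, (ld (L + 1) μ u (j u) t : ℝ) ≤ (L + 1 : ℕ) * (μ : ℝ) := by
        calc ∑ u ∈ range L, (ld (L + 1) μ u (j u) t : ℝ) ≤ ∑ u ∈ range L, (μ : ℝ) := by
              refine sum_le_sum fun u _ => ?_
              exact_mod_cast Nat.sub_le _ _
          _ = L * (μ : ℝ) := by rw [sum_const, card_range, nsmul_eq_mul]
          _ ≤ (L + 1 : ℕ) * (μ : ℝ) := by
              apply mul_le_mul_of_nonneg_right _ (Nat.cast_nonneg _)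
              exact_mod_cast Nat.le_succ L
      have h5 : 0 ≤ ∑ u ∈ range L, (ld (L + 1) μ u (j u) t : ℝ) :=
        sum_nonneg fun u _ => Nat.cast_nonneg _
      have h6 : (c t : ℝ) ≤ c 0 + B := by exact_mod_cast hB t ht 0 (Nat.succ_pos L)
      have h7 : (c 0 : ℝ) ≤ c t + B := by exact_mod_cast hB 0 (Nat.succ_pos L) t ht
      rw [abs_le]
      constructor <;> linarith
  have ha : ∀ u < L, 0 ≤ a u := by
    intro u hu
    have h1 := hx u (by omega)
    simp only at h1
    rw [if_pos hu] at h1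
    exact_mod_cast h1
  have hr : 0 ≤ rest := by
    have h1 := hx L (Nat.lt_succ_self L)
    simp only at h1
    rw [if_neg (lt_irrefl L)] at h1
    exact_mod_cast h1
  obtain ⟨P, h1, h2, h3⟩ := PackOne_multiset L (L + 1) rest.toNat (fun u => (a u).toNat) j
    (fun u hu => (hg u hu).1) (Nat.lt_succ_self L)
  have ha' : ∀ u ∈ range L, (((a u).toNat : ℕ) : ℤ) = a u := fun u hu =>
    Int.toNat_of_nonneg (ha u (mem_range.1 hu))
  have hr' : ((rest.toNat : ℕ) : ℤ) = rest := Int.toNat_of_nonneg hr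
  refine ⟨P, ?_, h2, fun s hs => ?_⟩
  · rw [h1]
    have h4 : ((∑ u ∈ range L, ((a u).toNat + 1) + rest.toNat : ℕ) : ℤ) = n := by
      rw [Nat.cast_add, Nat.cast_sum, hr']
      have h5 : ∑ u ∈ range L, (((a u).toNat + 1 : ℕ) : ℤ) = ∑ u ∈ range L, (a u + 1) := by
        refine sum_congr rfl fun u hu => ?_
        rw [Nat.cast_add, ha' u hu, Nat.cast_one]
      rw [h5, hrest]
      ring
    exact_mod_cast h4
  · rw [h3]
    have h4 : ((∑ u ∈ range L, ((a u).toNat * ld (L + 1) μ u 0 s + ld (L + 1) μ u (j u) s) +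
        rest.toNat * ld (L + 1) μ L 0 s : ℕ) : ℤ) = c s := by
      rw [hall s hs, Nat.cast_add, Nat.cast_sum, Nat.cast_mul, hr']
      congr 1
      refine sum_congr rfl fun u hu => ?_
      rw [Nat.cast_add, Nat.cast_mul, ha' u hu]
    exact_mod_cast h4

end Pool.Agent.H18.Ta

end

section

/-!
# Module PackMix (TA): exact packing of points of several multiplicities

Proof.  For `1 ≤ μ ≤ h` let `N₁` be larger than all the bounds of `pack_one` for `(μ, ℓ, 1)`.  Put
`B = 1 + ℓ * N₁ * h + …` (a bound for the variation and for the excess over the average of the vectors `v^μ`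
below), `B₂ = E + h * B`, and let `N₂` be larger than all the bounds of `pack_one` for `(μ, ℓ, B₂)`; finally
`N = h * (N₂ + B₂)` (or larger).  Let `n μ` be the number of points of multiplicity `μ` in `G` and let `μ*` be
the multiplicity for which `n μ * ell 2 μ` is largest, so that `n μ* * ell 2 μ* ≥ ∑ c / h ≥ ℓ N / h`.
For `μ ≠ μ*` define the vector `v^μ`:
* if `n μ * ell 2 μ ≥ ℓ * N₁`: `v^μ s = (n μ * ell 2 μ + s) / ℓ`, `s < ℓ`; its sum over `s < ℓ` is
  `n μ * ell 2 μ` (Hermite), two entries differ by at most `1`, all entries are `≥ N₁`: packed by `pack_one`;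
* otherwise all points of multiplicity `μ` are put in the cell `(0, 0)`, `v^μ s = n μ * ld ℓ μ 0 0 s ≤ ℓ N₁ h`,
  sum `n μ * ell 2 μ` (`sum_ld`).
The rest `c s - ∑_{μ ≠ μ*} v^μ s` has sum `n μ* * ell 2 μ*`, variation at most `B₂`, so it is at least
`n μ* ell 2 μ* / ℓ - B₂ ≥ N / h - B₂ ≥ N₂`: packed by `pack_one` for `(μ*, ℓ, B₂)`.
-/

namespace Pool.Agent.H18.Ta

open Finset Pool.Agent.H18.Ex

private theorem PackMix_map_sum {α β : Type} (I : Finset ℕ) (Q : ℕ → Multiset α) (f : α → β) :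
    (∑ μ ∈ I, Q μ).map f = ∑ μ ∈ I, (Q μ).map f := by
  classical
  induction I using Finset.induction_on with
  | empty => simp
  | insert a I ha ih => rw [Finset.sum_insert ha, Finset.sum_insert ha, Multiset.map_add, ih]

private theorem PackMix_sum_sum {α : Type} (I : Finset ℕ) (Q : ℕ → Multiset α) (f : α → ℕ) :
    ((∑ μ ∈ I, Q μ).map f).sum = ∑ μ ∈ I, ((Q μ).map f).sum := by
  classical
  induction I using Finset.induction_on with
  | empty => simp
  | insert a I ha ih =>
    rw [Finset.sum_insert ha, Finset.sum_insert ha, Multiset.map_add, Multiset.sum_add, ih]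

private theorem PackMix_swap {ℓ : ℕ} (Q : Multiset (ℕ × ℕ)) (f : ℕ × ℕ → ℕ → ℕ) :
    ∑ s ∈ range ℓ, (Q.map fun x => f x s).sum = (Q.map fun x => ∑ s ∈ range ℓ, f x s).sum := by
  induction Q using Multiset.induction_on with
  | empty => simp
  | cons a Q ih => simp only [Multiset.map_cons, Multiset.sum_cons, Finset.sum_add_distrib, ih]

/-- The total load. -/
private theorem PackMix_total {ℓ μ : ℕ} (hμ : μ ≤ ℓ) (Q : Multiset (ℕ × ℕ))
    (hQ : ∀ x ∈ Q, x.1 + x.2 < ℓ) :
    ∑ s ∈ range ℓ, (Q.map fun x => ld ℓ μ x.1 x.2 s).sum = Q.card * ell 2 μ := by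
  rw [PackMix_swap Q fun x s => ld ℓ μ x.1 x.2 s]
  rw [Multiset.map_congr rfl fun x hx => sum_ld (hQ x hx) hμ]
  rw [Multiset.map_const', Multiset.sum_replicate, smul_eq_mul]

private theorem PackMix_hermite (A ℓ : ℕ) (hℓ : 0 < ℓ) :
    ∑ s ∈ range ℓ, (A + s) / ℓ = A := by
  induction A with
  | zero =>
    refine Finset.sum_eq_zero fun s hs => ?_
    rw [zero_add]
    exact Nat.div_eq_of_lt (mem_range.1 hs)
  | succ A ih =>
    obtain ⟨k, rfl⟩ : ∃ k, ℓ = k + 1 := ⟨ℓ - 1, by omega⟩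
    rw [Finset.sum_range_succ']  at ih
    rw [Finset.sum_range_succ]
    have h1 : (A + 1 + k) / (k + 1) = A / (k + 1) + 1 := by
      rw [show A + 1 + k = A + (k + 1) by ring, Nat.add_div_right _ hℓ]
    have h2 : ∑ s ∈ range k, (A + 1 + s) / (k + 1) = ∑ s ∈ range k, (A + (s + 1)) / (k + 1) := by
      refine Finset.sum_congr rfl fun s _ => ?_
      rw [show A + 1 + s = A + (s + 1) by ring]
    rw [h1, h2]
    rw [add_zero] at ih
    omega

/-- Packing with bounded variation, one multiplicity. -/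
private theorem PackMix_small (ℓ μ : ℕ) (hμ : 1 ≤ μ) (hℓ : 2 * μ ≤ ℓ) :
    ∀ n : ℕ, ∃ Q : Multiset (ℕ × ℕ), Q.card = n ∧ (∀ x ∈ Q, x.1 + x.2 < ℓ) ∧
      ∀ s < ℓ, ∀ t < ℓ, (Q.map fun x => ld ℓ μ x.1 x.2 s).sum ≤
        (Q.map fun x => ld ℓ μ x.1 x.2 t).sum + (1 + ℓ * nOne ℓ 1) := by
  have hN := pack_one μ ℓ 1 hμ hℓ
  set N := nOne ℓ 1 with hNdef
  have hℓ0 : 0 < ℓ := by omega
  intro n
  by_cases h : ℓ * N ≤ n * ell 2 μ
  · obtain ⟨Q, h1, h2, h3⟩ := hN (fun s => (n * ell 2 μ + s) / ℓ) n (fun s _ => by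
        rw [Nat.le_div_iff_mul_le hℓ0, mul_comm]
        omega)
      (fun s hs t _ => by
        have e1 : (n * ell 2 μ + s) / ℓ ≤ (n * ell 2 μ + ℓ) / ℓ := Nat.div_le_div_right (by omega)
        rw [Nat.add_div_right _ hℓ0] at e1
        have e2 : n * ell 2 μ / ℓ ≤ (n * ell 2 μ + t) / ℓ := Nat.div_le_div_right (by omega)
        omega)
      (PackMix_hermite _ _ hℓ0)
    refine ⟨Q, h1, h2, fun s hs t ht => ?_⟩
    rw [h3 s hs, h3 t ht]
    have e1 : (n * ell 2 μ + s) / ℓ ≤ (n * ell 2 μ + ℓ) / ℓ := Nat.div_le_div_right (by omega)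
    rw [Nat.add_div_right _ hℓ0] at e1
    have e2 : n * ell 2 μ / ℓ ≤ (n * ell 2 μ + t) / ℓ := Nat.div_le_div_right (by omega)
    omega
  · push Not at h
    have hQ : ∀ x ∈ Multiset.replicate n ((0 : ℕ), (0 : ℕ)), x.1 + x.2 < ℓ := by
      intro x hx
      rw [Multiset.eq_of_mem_replicate hx]
      exact hℓ0
    refine ⟨Multiset.replicate n (0, 0), Multiset.card_replicate _ _, hQ, fun s hs t ht => ?_⟩
    have h1 := PackMix_total (μ := μ) (by omega) _ hQ
    rw [Multiset.card_replicate] at h1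
    have h2 := Finset.single_le_sum
      (f := fun s => ((Multiset.replicate n ((0 : ℕ), (0 : ℕ))).map
        fun x => ld ℓ μ x.1 x.2 s).sum) (fun i _ => Nat.zero_le _) (mem_range.2 hs)
    omega

/-- The variation of the small packings. -/
def bMix (ℓ h : ℕ) : ℕ := h * (1 + ℓ * nOne ℓ 1)

/-- The bound in `pack_mix`. -/
def nMix (ℓ h E : ℕ) : ℕ := h * (h * nOne ℓ (E + bMix ℓ h) + E + bMix ℓ h)

/-- Exact packing, several multiplicities. -/
theorem pack_mix (ℓ h E : ℕ) (h1 : 1 ≤ h) (hh : 2 * h ≤ ℓ) :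
    ∀ (c : ℕ → ℕ) (G : Multiset ℕ), (∀ m ∈ G, 1 ≤ m ∧ m ≤ h) →
      (∀ s < ℓ, nMix ℓ h E ≤ c s) → (∀ s < ℓ, ∀ t < ℓ, c s ≤ c t + E) →
      ∑ s ∈ range ℓ, c s = (G.map (ell 2)).sum →
      ∃ P : Multiset (ℕ × ℕ × ℕ), P.map Prod.fst = G ∧ (∀ x ∈ P, x.2.1 + x.2.2 < ℓ) ∧
        ∀ s < ℓ, (P.map fun x => ld ℓ x.1 x.2.1 x.2.2 s).sum = c s := by
  classical
  set B : ℕ → ℕ := fun _ => 1 + ℓ * nOne ℓ 1 with hBdef
  have hB : ∀ μ, 1 ≤ μ → μ ≤ h → ∀ n : ℕ, ∃ Q : Multiset (ℕ × ℕ), Q.card = n ∧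
      (∀ x ∈ Q, x.1 + x.2 < ℓ) ∧ ∀ s < ℓ, ∀ t < ℓ, (Q.map fun x => ld ℓ μ x.1 x.2 s).sum ≤
        (Q.map fun x => ld ℓ μ x.1 x.2 t).sum + B μ :=
    fun μ hμ1 hμ2 => PackMix_small ℓ μ hμ1 (by omega)
  set I : Finset ℕ := Finset.Icc 1 h with hI
  have hIcard : I.card = h := by rw [hI, Nat.card_Icc]; omega
  set B' : ℕ := ∑ μ ∈ I, B μ with hB'
  have hB'eq : B' = bMix ℓ h := by
    rw [hB', hBdef, Finset.sum_const, hIcard, smul_eq_mul]
    rfl
  set N₂ : ℕ → ℕ := fun _ => nOne ℓ (E + B') with hN₂def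
  have hN₂ : ∀ μ, 1 ≤ μ → μ ≤ h → ∀ (c : ℕ → ℕ) (n : ℕ), (∀ s < ℓ, N₂ μ ≤ c s) →
      (∀ s < ℓ, ∀ t < ℓ, c s ≤ c t + (E + B')) → ∑ s ∈ range ℓ, c s = n * ell 2 μ →
      ∃ P : Multiset (ℕ × ℕ), P.card = n ∧ (∀ x ∈ P, x.1 + x.2 < ℓ) ∧
        ∀ s < ℓ, (P.map fun x => ld ℓ μ x.1 x.2 s).sum = c s :=
    fun μ hμ1 hμ2 => pack_one μ ℓ (E + B') hμ1 (by omega)
  set N' : ℕ := ∑ μ ∈ I, N₂ μ with hN'
  have hN'eq : N' = h * nOne ℓ (E + bMix ℓ h) := by
    rw [hN', hN₂def, Finset.sum_const, hIcard, smul_eq_mul, hB'eq]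
  have hℓ0 : 0 < ℓ := by omega
  intro c G hG hc hv hs
  have hnm : nMix ℓ h E = h * (N' + E + B') := by
    rw [hN'eq, hB'eq]
    rfl
  rw [hnm] at hc
  have hGI : G.toFinset ⊆ I := by
    intro m hm
    rw [Multiset.mem_toFinset] at hm
    rw [hI, Finset.mem_Icc]
    exact hG m hm
  have hsum : (G.map (ell 2)).sum = ∑ μ ∈ I, G.count μ * ell 2 μ := by
    rw [Finset.sum_multiset_map_count]
    simp only [smul_eq_mul]
    refine Finset.sum_subset hGI fun m _ hm => ?_
    rw [Multiset.mem_toFinset] at hm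
    rw [Multiset.count_eq_zero_of_notMem hm, zero_mul]
  have hGsum : ∑ μ ∈ I, Multiset.replicate (G.count μ) μ = G := by
    ext a
    rw [Multiset.count_sum']
    simp only [Multiset.count_replicate]
    by_cases ha : a ∈ I
    · rw [Finset.sum_eq_single a]
      · simp
      · intro b _ hb
        rw [if_neg hb]
      · intro hna
        exact absurd ha hna
    · rw [Finset.sum_eq_zero, Multiset.count_eq_zero_of_notMem]
      · intro hm
        exact ha (hGI (Multiset.mem_toFinset.2 hm))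
      · intro b hb
        rw [if_neg]
        rintro rfl
        exact ha hb
  have hne : I.Nonempty := ⟨1, by rw [hI, Finset.mem_Icc]; omega⟩
  obtain ⟨μ', hμ'I, hμ'⟩ := Finset.exists_max_image I (fun μ => G.count μ * ell 2 μ) hne
  have hμ'2 := Finset.mem_Icc.1 (hI ▸ hμ'I)
  -- the small packings
  have hQ : ∀ μ, ∃ Q : Multiset (ℕ × ℕ), μ ∈ I → Q.card = G.count μ ∧
      (∀ x ∈ Q, x.1 + x.2 < ℓ) ∧ ∀ s < ℓ, ∀ t < ℓ, (Q.map fun x => ld ℓ μ x.1 x.2 s).sum ≤
        (Q.map fun x => ld ℓ μ x.1 x.2 t).sum + B μ := by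
    intro μ
    by_cases hμ : μ ∈ I
    · obtain ⟨Q, k⟩ := hB μ (Finset.mem_Icc.1 (hI ▸ hμ)).1 (Finset.mem_Icc.1 (hI ▸ hμ)).2
        (G.count μ)
      exact ⟨Q, fun _ => k⟩
    · exact ⟨0, fun k => absurd k hμ⟩
  choose Q hQ using hQ
  set L : ℕ → ℕ → ℕ := fun μ s => ((Q μ).map fun x => ld ℓ μ x.1 x.2 s).sum with hL
  set w : ℕ → ℕ := fun s => ∑ μ ∈ I.erase μ', L μ s with hw
  have hwv : ∀ s < ℓ, ∀ t < ℓ, w s ≤ w t + B' := by
    intro s hs t ht
    have e1 : w s ≤ ∑ μ ∈ I.erase μ', (L μ t + B μ) :=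
      Finset.sum_le_sum fun μ hμ => (hQ μ (Finset.mem_of_mem_erase hμ)).2.2 s hs t ht
    rw [Finset.sum_add_distrib] at e1
    have e2 : ∑ μ ∈ I.erase μ', B μ ≤ B' :=
      Finset.sum_le_sum_of_subset (Finset.erase_subset _ _)
    have e3 : w t = ∑ μ ∈ I.erase μ', L μ t := rfl
    omega
  have hLt : ∀ μ ∈ I, ∑ s ∈ range ℓ, L μ s = G.count μ * ell 2 μ := by
    intro μ hμ
    have k := hQ μ hμ
    have k2 := Finset.mem_Icc.1 (hI ▸ hμ)
    rw [← k.1]
    exact PackMix_total (by omega) _ k.2.1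
  have hwt : ∑ s ∈ range ℓ, w s = ∑ μ ∈ I.erase μ', G.count μ * ell 2 μ := by
    rw [hw, Finset.sum_comm]
    exact Finset.sum_congr rfl fun μ hμ => hLt μ (Finset.mem_of_mem_erase hμ)
  have htot : ∑ s ∈ range ℓ, c s = G.count μ' * ell 2 μ' + ∑ s ∈ range ℓ, w s := by
    rw [hs, hsum, hwt]
    exact (Finset.add_sum_erase I (fun μ => G.count μ * ell 2 μ) hμ'I).symm
  have hbig : ℓ * (N' + E + B') ≤ G.count μ' * ell 2 μ' := by
    have e1 : ∑ μ ∈ I, G.count μ * ell 2 μ ≤ I.card • (G.count μ' * ell 2 μ') :=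
      Finset.sum_le_card_nsmul _ _ _ hμ'
    have e2 : I.card = h := by rw [hI, Nat.card_Icc]; omega
    have e3 : ℓ * (h * (N' + E + B')) ≤ ∑ s ∈ range ℓ, c s := by
      have := Finset.card_nsmul_le_sum (range ℓ) c (h * (N' + E + B'))
        fun s hs => hc s (mem_range.1 hs)
      rwa [Finset.card_range, smul_eq_mul] at this
    rw [hs, hsum] at e3
    rw [e2, smul_eq_mul] at e1
    have e4 : h * (ℓ * (N' + E + B')) ≤ h * (G.count μ' * ell 2 μ') := by
      calc h * (ℓ * (N' + E + B')) = ℓ * (h * (N' + E + B')) := by ring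
        _ ≤ _ := e3.trans e1
    exact Nat.le_of_mul_le_mul_left e4 (by omega)
  -- the rest
  have hrest : ∀ t < ℓ, w t + N' ≤ c t := by
    intro t ht
    have e1 : ∑ s ∈ range ℓ, (c s + w t) ≤ ∑ s ∈ range ℓ, (c t + w s + (E + B')) := by
      refine Finset.sum_le_sum fun s hs => ?_
      have k1 := hv s (mem_range.1 hs) t ht
      have k2 := hwv t ht s (mem_range.1 hs)
      omega
    rw [Finset.sum_add_distrib, Finset.sum_add_distrib, Finset.sum_add_distrib, Finset.sum_const,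
      Finset.sum_const, Finset.sum_const, Finset.card_range, smul_eq_mul, smul_eq_mul,
      smul_eq_mul, htot] at e1
    have e2 : ℓ * (w t + N') ≤ ℓ * c t := by
      have e3 : ℓ * (N' + E + B') = ℓ * N' + ℓ * (E + B') := by ring
      rw [e3] at hbig
      rw [mul_add]
      omega
    exact Nat.le_of_mul_le_mul_left e2 hℓ0
  obtain ⟨P', p1, p2, p3⟩ := hN₂ μ' hμ'2.1 hμ'2.2 (fun s => c s - w s) (G.count μ')
    (fun s hs => by
      have k1 := hrest s hs
      have k2 : N₂ μ' ≤ N' := Finset.single_le_sum (fun i _ => Nat.zero_le _) hμ'I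
      omega)
    (fun s hs t ht => by
      have k1 := hrest s hs
      have k2 := hrest t ht
      have k3 := hv s hs t ht
      have k4 := hwv t ht s hs
      omega)
    (by
      have e1 : ∑ s ∈ range ℓ, (c s - w s) + ∑ s ∈ range ℓ, w s = ∑ s ∈ range ℓ, c s := by
        rw [← Finset.sum_add_distrib]
        refine Finset.sum_congr rfl fun s hs => ?_
        have k1 := hrest s (mem_range.1 hs)
        omega
      omega)
  set R : ℕ → Multiset (ℕ × ℕ) := fun μ => if μ = μ' then P' else Q μ with hR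
  have hRcard : ∀ μ ∈ I, (R μ).card = G.count μ := by
    intro μ hμ
    simp only [hR]
    by_cases e : μ = μ'
    · rw [if_pos e, p1, e]
    · rw [if_neg e]
      exact (hQ μ hμ).1
  have hRcell : ∀ μ ∈ I, ∀ x ∈ R μ, x.1 + x.2 < ℓ := by
    intro μ hμ x hx
    simp only [hR] at hx
    by_cases e : μ = μ'
    · rw [if_pos e] at hx
      exact p2 x hx
    · rw [if_neg e] at hx
      exact (hQ μ hμ).2.1 x hx
  refine ⟨∑ μ ∈ I, (R μ).map fun x => (μ, x), ?_, ?_, ?_⟩
  · rw [PackMix_map_sum]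
    conv_rhs => rw [← hGsum]
    refine Finset.sum_congr rfl fun μ hμ => ?_
    rw [Multiset.map_map]
    have e1 : (Prod.fst ∘ fun x : ℕ × ℕ => (μ, x)) = fun _ => μ := rfl
    rw [e1, Multiset.map_const', hRcard μ hμ]
  · intro x hx
    rw [Multiset.mem_sum] at hx
    obtain ⟨μ, hμ, hx⟩ := hx
    rw [Multiset.mem_map] at hx
    obtain ⟨y, hy, rfl⟩ := hx
    exact hRcell μ hμ y hy
  · intro s hs'
    rw [PackMix_sum_sum]
    have e1 : ∀ μ ∈ I, (((R μ).map fun x => (μ, x)).map
        fun x => ld ℓ x.1 x.2.1 x.2.2 s).sum = if μ = μ' then c s - w s else L μ s := by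
      intro μ hμ
      rw [Multiset.map_map]
      by_cases e : μ = μ'
      · rw [if_pos e]
        have := p3 s hs'
        simp only [hR]
        rw [if_pos e, e]
        exact this
      · rw [if_neg e]
        simp only [hR]
        rw [if_neg e]
        rfl
    rw [Finset.sum_congr rfl e1, ← Finset.add_sum_erase _ _ hμ'I, if_pos rfl]
    have e2 : ∑ μ ∈ I.erase μ', (if μ = μ' then c s - w s else L μ s) = w s := by
      refine Finset.sum_congr rfl fun μ hμ => ?_
      rw [if_neg (Finset.ne_of_mem_erase hμ)]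
    rw [e2]
    have := hrest s hs'
    omega

end Pool.Agent.H18.Ta

end

section

/-!
# Module Fill (TA): filling the layers of a system

Proof.  `ℓ = b + 1`, `h = max 1 (b / 2)`, so `2 h ≤ ℓ` (`b ≥ 1`); `c s = d + 1 - s` varies by at most `b`.
Remove the zeros from `G`.  The point `m₀` (if `m₀ ≥ 1`) goes to the cell `(0, 0)` and loads the layer `s` by
`m₀ - s` (`rk (b+1) 0 0 s = s`).  Let `c' s = d + 1 - s - (m₀ - s)`, still large with variation at most `2 b`, and
`∑ c' ≤ ∑_{m ∈ G} ell 2 m` (as `∑ (m₀ - s) = ell 2 m₀`, `m₀ ≤ b < ℓ`).  Induction on `G` (or: take a sub-multiset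
`G₁ ≤ G` which is maximal with `∑_{G₁} ell 2 ≤ ∑ c'`) gives `G₁ ≤ G` with either `∑_{G₁} ell 2 = ∑ c'` or
`∑_{G₁} ell 2 < ∑ c' < ∑_{G₁} ell 2 + ell 2 m'` with `m' ∈ G - G₁`.  In the second case put `m'` in the cell
`(0, 0)`, choose natural numbers `v s ≤ m' - s` with sum `∑ c' - ∑_{G₁} ell 2` and replace `c'` by `c' - v`.  Now
apply `pack_mix` (for `(b + 1, h, 3 b)`) to `G₁`.
-/

namespace Pool.Agent.H18.Ta

open Finset Pool.Agent.H18.Ex

private lemma Fill_ld (l μ s : ℕ) : ld l μ 0 0 s = μ - s := by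
  unfold ld rk
  by_cases h : s = 0
  · subst h
    simp
  · have h1 : ¬ s ≤ 0 + 0 := by omega
    rw [if_neg (by omega), if_neg h, if_neg h1, Nat.sub_zero]

private lemma Fill_split (f : ℕ → ℕ) (n : ℕ) : ∀ R : ℕ, R ≤ ∑ s ∈ range n, f s →
    ∃ v : ℕ → ℕ, (∀ s, v s ≤ f s) ∧ ∑ s ∈ range n, v s = R := by
  induction n with
  | zero =>
    intro R hR
    refine ⟨fun _ => 0, fun _ => Nat.zero_le _, ?_⟩
    simp at hR
    simp [hR]
  | succ n ih =>
    intro R hR
    rw [sum_range_succ] at hR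
    rcases Nat.lt_or_ge (∑ s ∈ range n, f s) R with h | h
    · refine ⟨fun s => if s < n then f s else if s = n then R - ∑ s ∈ range n, f s else 0,
        fun s => ?_, ?_⟩
      · by_cases h1 : s < n
        · simp [h1]
        · by_cases h2 : s = n
          · subst h2
            simp only [lt_irrefl, if_false, if_true]
            omega
          · simp [h1, h2]
      · rw [sum_range_succ]
        have h3 : ∑ s ∈ range n, (if s < n then f s else
            if s = n then R - ∑ s ∈ range n, f s else 0) = ∑ s ∈ range n, f s :=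
          sum_congr rfl fun s hs => if_pos (mem_range.1 hs)
        rw [h3]
        simp only [lt_irrefl, if_false, if_true]
        omega
    · obtain ⟨v, hv1, hv2⟩ := ih R h
      refine ⟨fun s => if s < n then v s else 0, fun s => ?_, ?_⟩
      · by_cases h1 : s < n
        · simp [h1, hv1 s]
        · simp [h1]
      · rw [sum_range_succ]
        have h3 : ∑ s ∈ range n, (if s < n then v s else 0) = ∑ s ∈ range n, v s :=
          sum_congr rfl fun s hs => if_pos (mem_range.1 hs)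
        rw [h3, hv2]
        simp

private lemma Fill_sub (f : ℕ → ℕ) (G : Multiset ℕ) : ∀ T : ℕ, T ≤ (G.map f).sum →
    ∃ G₁ : Multiset ℕ, G₁ ≤ G ∧ ((G₁.map f).sum = T ∨
      ∃ m', m' ::ₘ G₁ ≤ G ∧ (G₁.map f).sum < T ∧ T < (G₁.map f).sum + f m') := by
  induction G using Multiset.induction_on with
  | empty =>
    intro T hT
    refine ⟨0, le_rfl, Or.inl ?_⟩
    simp at hT
    simp [hT]
  | cons a G ih =>
    intro T hT
    rw [Multiset.map_cons, Multiset.sum_cons] at hT
    rcases Nat.lt_or_ge (G.map f).sum T with h | h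
    · rcases Nat.lt_or_ge T ((G.map f).sum + f a) with h1 | h1
      · exact ⟨G, Multiset.le_cons_self _ _, Or.inr ⟨a, le_rfl, h, h1⟩⟩
      · refine ⟨a ::ₘ G, le_rfl, Or.inl ?_⟩
        rw [Multiset.map_cons, Multiset.sum_cons]
        omega
    · obtain ⟨G₁, h1, h2⟩ := ih T h
      refine ⟨G₁, h1.trans (Multiset.le_cons_self _ _), ?_⟩
      rcases h2 with h2 | ⟨m', h3, h4, h5⟩
      · exact Or.inl h2
      · exact Or.inr ⟨m', h3.trans (Multiset.le_cons_self _ _), h4, h5⟩

private lemma Fill_ell0 : ell 2 0 = 0 := by decide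

private lemma Fill_filter (G : Multiset ℕ) :
    ((G.filter fun m => 1 ≤ m).map (ell 2)).sum = (G.map (ell 2)).sum := by
  induction G using Multiset.induction_on with
  | empty => simp
  | cons a G ih =>
    by_cases h : 1 ≤ a
    · rw [Multiset.filter_cons_of_pos _ h, Multiset.map_cons, Multiset.sum_cons, Multiset.map_cons,
        Multiset.sum_cons, ih]
    · have h0 : a = 0 := by omega
      rw [Multiset.filter_cons_of_neg _ h, Multiset.map_cons, Multiset.sum_cons, ih, h0,
        Fill_ell0, zero_add]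

/-- The bound in `fill`. -/
def dFill (b : ℕ) : ℕ := nMix (b + 1) (max 1 (b / 2)) (3 * b) + 3 * b

/-- Filling all layers. -/
theorem fill (b : ℕ) (hb : 1 ≤ b) : ∀ (d m₀ : ℕ) (G : Multiset ℕ), dFill b ≤ d → m₀ ≤ b →
    (∀ m ∈ G, m ≤ max 1 (b / 2)) →
    ∑ s ∈ range (b + 1), (d + 1 - s) ≤ ell 2 m₀ + (G.map (ell 2)).sum →
    ∃ P : Multiset (ℕ × ℕ × ℕ), P.map Prod.fst ≤ m₀ ::ₘ G ∧ (∀ x ∈ P, x.2.1 + x.2.2 < b + 1) ∧
      ∀ s < b + 1, d + 1 - s ≤ (P.map fun x => ld (b + 1) x.1 x.2.1 x.2.2 s).sum := by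
  have hh : 2 * max 1 (b / 2) ≤ b + 1 := by omega
  have hhb : max 1 (b / 2) ≤ b := by omega
  have hN := pack_mix (b + 1) (max 1 (b / 2)) (3 * b) (le_max_left _ _) hh
  intro d m₀ G hd hm₀ hG hsum
  have hdF : dFill b = nMix (b + 1) (max 1 (b / 2)) (3 * b) + 3 * b := rfl
  rw [hdF] at hd
  set N := nMix (b + 1) (max 1 (b / 2)) (3 * b) with hNdef
  have hell : ∀ m, m ≤ b → ∑ s ∈ range (b + 1), (m - s) = ell 2 m := by
    intro m hm
    rw [← sum_ld (ℓ := b + 1) (μ := m) (u := 0) (j := 0) (by omega) (by omega)]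
    exact sum_congr rfl fun s _ => (Fill_ld _ _ _).symm
  set c' : ℕ → ℕ := fun s => d + 1 - s - (m₀ - s) with hc'
  have hc1 : ∀ s < b + 1, c' s + (m₀ - s) = d + 1 - s := by
    intro s hs
    simp only [hc']
    omega
  have hT : ∑ s ∈ range (b + 1), c' s + ell 2 m₀ = ∑ s ∈ range (b + 1), (d + 1 - s) := by
    rw [← hell m₀ hm₀, ← sum_add_distrib]
    exact sum_congr rfl fun s hs => hc1 s (mem_range.1 hs)
  have key : ∀ (v : ℕ → ℕ) (G₁ : Multiset ℕ), (∀ s, v s ≤ b) →
      (∀ m ∈ G₁, m ≤ max 1 (b / 2)) →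
      ∑ s ∈ range (b + 1), v s + (G₁.map (ell 2)).sum = ∑ s ∈ range (b + 1), c' s →
      ∃ P : Multiset (ℕ × ℕ × ℕ), P.map Prod.fst ≤ G₁ ∧ (∀ x ∈ P, x.2.1 + x.2.2 < b + 1) ∧
        ∀ s < b + 1, (P.map fun x => ld (b + 1) x.1 x.2.1 x.2.2 s).sum = c' s - v s := by
    intro v G₁ hv hG₁ hs₁
    have hvc : ∀ s < b + 1, v s ≤ c' s := by
      intro s hs
      have h1 := hv s
      simp only [hc']
      omega
    obtain ⟨P, hP1, hP2, hP3⟩ := hN (fun s => c' s - v s) (G₁.filter fun m => 1 ≤ m)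
      (fun m hm => by
        rw [Multiset.mem_filter] at hm
        exact ⟨hm.2, hG₁ m hm.1⟩)
      (fun s hs => by
        have h1 := hv s
        simp only [hc']
        omega)
      (fun s hs t ht => by
        have h1 := hv s
        have h2 := hv t
        simp only [hc']
        omega)
      (by
        rw [Fill_filter]
        have h1 : ∑ s ∈ range (b + 1), (c' s - v s) + ∑ s ∈ range (b + 1), v s =
            ∑ s ∈ range (b + 1), c' s := by
          rw [← sum_add_distrib]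
          exact sum_congr rfl fun s hs => Nat.sub_add_cancel (hvc s (mem_range.1 hs))
        omega)
    exact ⟨P, hP1.le.trans (Multiset.filter_le _ _), hP2, hP3⟩
  obtain ⟨G₁, hG1, hcase⟩ := Fill_sub (ell 2) G (∑ s ∈ range (b + 1), c' s) (by omega)
  have hG1m : ∀ m ∈ G₁, m ≤ max 1 (b / 2) := fun m hm => hG m (Multiset.mem_of_le hG1 hm)
  rcases hcase with hcase | ⟨m', h3, h4, h5⟩
  · obtain ⟨P, hP1, hP2, hP3⟩ := key (fun _ => 0) G₁ (fun _ => Nat.zero_le _) hG1m (by
      simp [hcase])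
    refine ⟨(m₀, 0, 0) ::ₘ P, ?_, ?_, ?_⟩
    · rw [Multiset.map_cons]
      exact Multiset.cons_le_cons _ (hP1.trans hG1)
    · intro x hx
      rcases Multiset.mem_cons.1 hx with rfl | hx
      · exact Nat.succ_pos b
      · exact hP2 x hx
    · intro s hs
      rw [Multiset.map_cons, Multiset.sum_cons, hP3 s hs]
      show d + 1 - s ≤ ld (b + 1) m₀ 0 0 s + (c' s - 0)
      rw [Fill_ld, Nat.sub_zero]
      have := hc1 s hs
      omega
  · have hm' : m' ≤ max 1 (b / 2) :=
      hG m' (Multiset.mem_of_le h3 (Multiset.mem_cons_self _ _))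
    have hm'b : m' ≤ b := hm'.trans hhb
    obtain ⟨v, hv1, hv2⟩ := Fill_split (fun s => m' - s) (b + 1)
      (∑ s ∈ range (b + 1), c' s - (G₁.map (ell 2)).sum) (by
        show _ ≤ ∑ s ∈ range (b + 1), (m' - s)
        rw [hell m' hm'b]
        omega)
    obtain ⟨P, hP1, hP2, hP3⟩ := key v G₁ (fun s => by
      have h6 : v s ≤ m' - s := hv1 s
      omega) hG1m (by omega)
    refine ⟨(m₀, 0, 0) ::ₘ (m', 0, 0) ::ₘ P, ?_, ?_, ?_⟩
    · rw [Multiset.map_cons, Multiset.map_cons]
      exact Multiset.cons_le_cons _ ((Multiset.cons_le_cons _ hP1).trans h3)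
    · intro x hx
      rcases Multiset.mem_cons.1 hx with rfl | hx
      · exact Nat.succ_pos b
      · rcases Multiset.mem_cons.1 hx with rfl | hx
        · exact Nat.succ_pos b
        · exact hP2 x hx
    · intro s hs
      rw [Multiset.map_cons, Multiset.sum_cons, Multiset.map_cons, Multiset.sum_cons, hP3 s hs]
      show d + 1 - s ≤ ld (b + 1) m₀ 0 0 s + (ld (b + 1) m' 0 0 s + (c' s - v s))
      rw [Fill_ld, Fill_ld]
      have h6 := hc1 s hs
      have h7 : v s ≤ m' - s := hv1 s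
      omega

/-- The bound is polynomial. -/
theorem dFill_le (b : ℕ) : dFill b ≤ 67 * (b + 1) ^ 18 := by
  unfold dFill
  set ℓ := b + 1 with hℓ
  have h1 : 1 ≤ ℓ := by omega
  have hh : max 1 (b / 2) ≤ ℓ := by omega
  set h := max 1 (b / 2) with hhd
  have hp : ∀ i j : ℕ, i ≤ j → ℓ ^ i ≤ ℓ ^ j := fun i j hij => Nat.pow_le_pow_right h1 hij
  have e1 : nOne ℓ 1 ≤ 8 * ℓ ^ 8 := by
    unfold nOne
    have := hp 0 2 (by norm_num)
    calc 4 * ℓ ^ 6 * (1 + ℓ ^ 2) ≤ 4 * ℓ ^ 6 * (2 * ℓ ^ 2) := by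
          apply Nat.mul_le_mul_left
          rw [pow_zero] at this
          omega
      _ = 8 * ℓ ^ 8 := by ring
  have e2 : bMix ℓ h ≤ 9 * ℓ ^ 10 := by
    unfold bMix
    have := hp 0 9 (by norm_num)
    calc h * (1 + ℓ * nOne ℓ 1) ≤ ℓ * (1 + ℓ * (8 * ℓ ^ 8)) := by gcongr
      _ = ℓ * (1 + 8 * ℓ ^ 9) := by ring
      _ ≤ ℓ * (9 * ℓ ^ 9) := by
          apply Nat.mul_le_mul_left
          rw [pow_zero] at this
          omega
      _ = 9 * ℓ ^ 10 := by ring
  have e3 : 3 * b ≤ 3 * ℓ ^ 10 := by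
    have := hp 1 10 (by norm_num)
    rw [pow_one] at this
    omega
  have e4 : nOne ℓ (3 * b + bMix ℓ h) ≤ 52 * ℓ ^ 16 := by
    unfold nOne
    have := hp 2 10 (by norm_num)
    calc 4 * ℓ ^ 6 * (3 * b + bMix ℓ h + ℓ ^ 2) ≤ 4 * ℓ ^ 6 * (13 * ℓ ^ 10) := by
          apply Nat.mul_le_mul_left
          omega
      _ = 52 * ℓ ^ 16 := by ring
  have e5 : nMix ℓ h (3 * b) ≤ 64 * ℓ ^ 18 := by
    unfold nMix
    have h2 := hp 11 18 (by norm_num)
    calc h * (h * nOne ℓ (3 * b + bMix ℓ h) + 3 * b + bMix ℓ h)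
        ≤ ℓ * (ℓ * (52 * ℓ ^ 16) + 3 * ℓ ^ 10 + 9 * ℓ ^ 10) := by gcongr
      _ = 52 * ℓ ^ 18 + 12 * ℓ ^ 11 := by ring
      _ ≤ 64 * ℓ ^ 18 := by omega
  have e6 := hp 10 18 (by norm_num)
  omega

end Pool.Agent.H18.Ta

end

section

/-!
# Module Asm (TA): Theorem A and the plane theorem
-/

namespace Pool.Agent.H18.Ta

open Finset Pool.Agent.H18.Ex Pool.Agent.H18.Fat

/-- Every region with bounded last exponent is exact for the multiplicities in question. -/
theorem gm_all (b : ℕ) : ∀ (d : ℕ) (T : Multiset ℕ), dFill b ≤ d → b ≤ d →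
    (∀ x ∈ T, x ≤ max 1 b) →
    (∀ x ∈ T, ∀ y ∈ T.erase x, max 1 (b / 2) < x → y ≤ max 1 (b / 2)) →
    ∑ s ∈ range (b + 1), (d + 1 - s) ≤ (T.map (ell 2)).sum →
    GM (Rg d (![d, d, b] : Fin 3 → ℕ)) (T.map Kind.free) := by
  rcases Nat.eq_zero_or_pos b with rfl | hb
  · intro d T _ _ hT _ hsum
    have h1 : ∀ x ∈ T, x ≤ 1 := by simpa using hT
    -- split the zeros off
    set T₁ := T.filter (fun x => 1 ≤ x) with hT₁
    have h2 : (T.map (ell 2)).sum = T₁.card := by
      have h3 : (T.map (ell 2)).sum = (T₁.map (ell 2)).sum := by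
        conv_lhs => rw [← Multiset.filter_add_not (fun x => 1 ≤ x) T]
        rw [Multiset.map_add, Multiset.sum_add]
        have h4 : ((T.filter (fun x => ¬ 1 ≤ x)).map (ell 2)).sum = 0 := by
          apply Multiset.sum_eq_zero
          intro y hy
          obtain ⟨x, hx, rfl⟩ := Multiset.mem_map.1 hy
          have h5 := (Multiset.mem_filter.1 hx).2
          have h6 : x = 0 := by omega
          subst h6
          rfl
        rw [h4, add_zero]
      rw [h3]
      have h4 : ∀ x ∈ T₁, ell 2 x = 1 := by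
        intro x hx
        have h5 := Multiset.mem_filter.1 hx
        have h6 := h1 x h5.1
        have h7 : x = 1 := by omega
        subst h7
        rfl
      rw [Multiset.map_congr rfl h4]
      simp
    have h3 : (Rg d (![d, d, 0] : Fin 3 → ℕ)).card ≤ T₁.card := by
      rw [card_rg 0 d (Nat.zero_le _), ← h2]
      exact hsum
    have h4 := GM.of_card (Rg d (![d, d, 0] : Fin 3 → ℕ)) T₁ 0
      (fun m hm => (Multiset.mem_filter.1 hm).2) h3
    rw [add_zero] at h4
    exact h4.mono (Multiset.map_le_map (Multiset.filter_le _ _))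
  · have hD := fill b hb
    intro d T hd hbd hT hpair hsum
    -- the largest multiplicity
    have hne : T ≠ 0 := by
      rintro rfl
      rw [Multiset.map_zero, Multiset.sum_zero] at hsum
      have h1 : d + 1 - 0 ≤ ∑ s ∈ range (b + 1), (d + 1 - s) :=
        single_le_sum (f := fun s => d + 1 - s) (fun _ _ => Nat.zero_le _)
          (mem_range.2 (Nat.succ_pos b))
      omega
    obtain ⟨x, hx, hmax⟩ : ∃ x ∈ T, ∀ y ∈ T, y ≤ x := by
      obtain ⟨x, hx⟩ := Multiset.exists_mem_of_ne_zero hne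
      have hn : T.toFinset.Nonempty := ⟨x, Multiset.mem_toFinset.2 hx⟩
      obtain ⟨x, hx, h⟩ := T.toFinset.exists_max_image id hn
      exact ⟨x, Multiset.mem_toFinset.1 hx, fun y hy => h y (Multiset.mem_toFinset.2 hy)⟩
    have hxb : x ≤ b := by
      have := hT x hx
      omega
    have hrest : ∀ y ∈ T.erase x, y ≤ max 1 (b / 2) := by
      intro y hy
      rcases Nat.lt_or_ge (max 1 (b / 2)) x with h | h
      · exact hpair x hx y hy h
      · exact (hmax y (Multiset.mem_of_mem_erase hy)).trans h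
    have hT' : x ::ₘ T.erase x = T := Multiset.cons_erase hx
    have hsum' : ∑ s ∈ range (b + 1), (d + 1 - s) ≤ ell 2 x + ((T.erase x).map (ell 2)).sum := by
      rw [← Multiset.sum_cons, ← Multiset.map_cons, hT']
      exact hsum
    obtain ⟨P, hP1, hP2, hP3⟩ := hD d x (T.erase x) hd hxb hrest hsum'
    rw [hT'] at hP1
    exact (gm_of_pack b d hbd P hP2 hP3).mono (Multiset.map_le_map hP1)

/-- Theorem A: one multiplicity `d - b`, `b` bounded. -/
theorem theoremA (b : ℕ) : ∀ (k d : ℕ) (m : Fin k → ℕ) (i₀ : Fin k), dFill b ≤ d →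
    m i₀ + b = d → (∀ i, i ≠ i₀ → m i ≤ b) →
    (∀ i j, i ≠ i₀ → j ≠ i₀ → i ≠ j → m i + m j ≤ b) →
    ForGeneralPoints 2 k fun p => ImposesMaximalConditions 2 d p m := by
  classical
  intro k d m i₀ hd hb h1 h2
  refine geo k d b m i₀ hb (gm_all b d _ hd (by omega) ?_ ?_ ?_)
  · intro x hx
    rcases Multiset.mem_add.1 hx with hx | hx
    · obtain ⟨i, hi, rfl⟩ := Multiset.mem_map.1 hx
      have h3 := (mem_filter.1 (show i ∈ univ.filter (fun i => i ≠ i₀) from hi)).2
      exact (h1 i h3).trans (le_max_right _ _)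
    · rw [Multiset.eq_of_mem_replicate hx]
      exact le_max_left _ _
  · intro x hx y hy hlt
    set S := (univ.filter fun i => i ≠ i₀).val with hS
    set R := Multiset.replicate ((Rg d (![d, d, b] : Fin 3 → ℕ)).card -
      ∑ i ∈ univ.filter (fun i => i ≠ i₀), ell 2 (m i)) 1 with hR
    -- x comes from the points
    have hxR : x ∉ R := by
      intro h
      rw [Multiset.eq_of_mem_replicate h] at hlt
      have := le_max_left 1 (b / 2)
      omega
    have hxS : x ∈ S.map m := by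
      rcases Multiset.mem_add.1 hx with h | h
      · exact h
      · exact absurd h hxR
    rw [Multiset.erase_add_left_pos _ hxS] at hy
    rcases Multiset.mem_add.1 hy with hy | hy
    · obtain ⟨i, hi, rfl⟩ := Multiset.mem_map.1 hxS
      have hi' := (mem_filter.1 (show i ∈ univ.filter (fun i => i ≠ i₀) from hi)).2
      rw [← Multiset.map_erase_of_mem m S hi] at hy
      obtain ⟨j, hj, rfl⟩ := Multiset.mem_map.1 hy
      have hnd : S.Nodup := (univ.filter fun i => i ≠ i₀).nodup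
      have hj1 := (hnd.mem_erase_iff.1 hj)
      have hj' := (mem_filter.1 (show j ∈ univ.filter (fun i => i ≠ i₀) from hj1.2)).2
      have h3 := h2 i j hi' hj' (fun h => hj1.1 h.symm)
      have h4 := le_max_right 1 (b / 2)
      omega
    · rw [Multiset.eq_of_mem_replicate hy]
      exact le_max_left _ _
  · rw [Multiset.map_add, Multiset.sum_add, Multiset.map_replicate, Multiset.sum_replicate,
      Multiset.map_map]
    have h3 : ((univ.filter fun i => i ≠ i₀).val.map (ell 2 ∘ m)).sum =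
        ∑ i ∈ univ.filter (fun i => i ≠ i₀), ell 2 (m i) := rfl
    have h4 : ell 2 1 = 1 := rfl
    rw [h3, h4, smul_eq_mul, mul_one, ← card_rg b d (by omega)]
    omega

/-- If at most six numbers have all sums of three at most `d`, their sum is at most `2 d`. -/
theorem sum_six {κ : Type} [DecidableEq κ] (m : κ → ℕ) (d : ℕ) (J : Finset κ) (hJ : J.card ≤ 6)
    (hS : ∀ S : Finset κ, S.card ≤ 3 → ∑ i ∈ S, m i ≤ d) : ∑ i ∈ J, m i ≤ 2 * d := by
  rcases Nat.lt_or_ge J.card 3 with h | h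
  · have := hS J (by omega)
    omega
  · obtain ⟨S, hSJ, hS3⟩ := exists_subset_card_eq h
    have h1 := hS S (by omega)
    have h2 := hS (J \ S) (by rw [card_sdiff_of_subset hSJ]; omega)
    rw [← sum_sdiff hSJ]
    omega

/-- If at most eight numbers have all sums of three at most `d`, three times their sum is at most
`8 d`. -/
theorem sum_eight {κ : Type} [DecidableEq κ] (m : κ → ℕ) (d : ℕ) (J : Finset κ) (hJ : J.card ≤ 8)
    (hS : ∀ S : Finset κ, S.card ≤ 3 → ∑ i ∈ S, m i ≤ d) : 3 * ∑ i ∈ J, m i ≤ 8 * d := by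
  rcases Nat.lt_or_ge J.card 7 with h | h
  · have := sum_six m d J (by omega) hS
    omega
  · obtain ⟨u, hu, humin⟩ := J.exists_min_image m (card_pos.1 (by omega))
    have hc1 : (J.erase u).card = J.card - 1 := card_erase_of_mem hu
    obtain ⟨v, hv, hvmin⟩ := (J.erase u).exists_min_image m (card_pos.1 (by omega))
    have hc2 : ((J.erase u).erase v).card = J.card - 1 - 1 := by
      rw [card_erase_of_mem hv, hc1]
    obtain ⟨w, hw⟩ := card_pos.1 (show 0 < ((J.erase u).erase v).card by omega)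
    have h1 := sum_six m d ((J.erase u).erase v) (by omega) hS
    have huv : u ≠ v := fun h => (mem_erase.1 hv).1 h.symm
    have hvw : v ≠ w := fun h => (mem_erase.1 hw).1 h.symm
    have hw' := (mem_erase.1 hw).2
    have huw : u ≠ w := fun h => (mem_erase.1 hw').1 h.symm
    have h2 := hS {u, v, w} (by rw [card_eq_three.2 ⟨u, v, w, huv, huw, hvw, rfl⟩])
    rw [sum_insert (by simp [huv, huw]), sum_pair hvw] at h2
    have h3 := humin v (mem_erase.1 hv).2
    have h4 := hvmin w hw'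
    rw [← add_sum_erase J m hu, ← add_sum_erase (J.erase u) m hv]
    omega

end Pool.Agent.H18.Ta

end
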