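import Pool.Agent.H94.LP3.H18.Cub.CremL
import Pool.Agent.H94.LP3.H18.Iso.Pair
import Pool.Agent.H94.LP3.H18.Pr.CremR
import Pool.Agent.H94.LP3.M15

/-! The parts of this file: H18.Sq.Ker, H18.Sq.Move, H18.Sq.Rev, H18.Sq.Tor, H18.Sq.Exact, H18.Sq.Node, H18.Sq.Chain, H18.Sq.Std. -/

section

/-!
# A kernel over the polynomial ring
-/

namespace Pool.Agent.H18.Sq

open MvPolynomial

/-- If a matrix with polynomial entries has a kernel at a dense set of parameters then it has a
kernel over the polynomial ring. -/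
theorem exists_ker {σ R K : Type*} [Fintype R] [Fintype K]
    (N : Matrix R K (MvPolynomial σ ℂ))
    (h : ∀ G : MvPolynomial σ ℂ, G ≠ 0 → ∃ a, eval a G ≠ 0 ∧
      ∃ f : K → ℂ, f ≠ 0 ∧ (N.map (eval a)).mulVec f = 0) :
    ∃ f : K → MvPolynomial σ ℂ, f ≠ 0 ∧ N.mulVec f = 0 := by
  classical
  by_contra hcon
  push Not at hcon
  have hcon' : ∀ f : K → MvPolynomial σ ℂ, N.mulVec f = 0 → f = 0 := by
    intro f hf
    by_contra hne
    exact hcon f hne hf
  set L := FractionRing (MvPolynomial σ ℂ) with hL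
  set ι := algebraMap (MvPolynomial σ ℂ) L with hι
  have hinj : Function.Injective ι := IsFractionRing.injective _ _
  have hker : LinearMap.ker (N.map ι).mulVecLin = ⊥ := by
    rw [LinearMap.ker_eq_bot']
    intro v hv
    rw [Matrix.mulVecLin_apply] at hv
    obtain ⟨b, hb⟩ := IsLocalization.exist_integer_multiples_of_finite
      (nonZeroDivisors (MvPolynomial σ ℂ)) v
    choose f hf using hb
    have hb0 : ι b ≠ 0 := by
      intro h0
      exact nonZeroDivisors.ne_zero b.2 (hinj (h0.trans (map_zero ι).symm))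
    have hf' : ∀ i, ι (f i) = ι b * v i := fun i => by
      rw [hf i, Algebra.smul_def]
    have h1 : N.mulVec f = 0 := by
      funext i
      apply hinj
      rw [Pi.zero_apply, map_zero]
      have h2 := congrFun hv i
      unfold Matrix.mulVec dotProduct at h2 ⊢
      rw [map_sum, Finset.sum_congr rfl fun j _ => by
        rw [map_mul, hf' j, mul_left_comm], ← Finset.mul_sum]
      rw [Pi.zero_apply] at h2
      have h3 : ∑ j, ι (N i j) * v j = 0 := h2
      rw [h3, mul_zero]
    have h2 := hcon' f h1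
    funext i
    have h3 := hf' i
    rw [h2, Pi.zero_apply, map_zero] at h3
    rcases mul_eq_zero.1 h3.symm with h4 | h4
    · exact absurd h4 hb0
    · exact h4
  obtain ⟨g, hg⟩ := LinearMap.exists_leftInverse_of_injective _ hker
  obtain ⟨B, hBg⟩ : ∃ B : Matrix K R L, Matrix.toLin' B = g := ⟨LinearMap.toMatrix' g, by simp⟩
  have hB : B * (N.map ι) = 1 := by
    apply Matrix.toLin'.injective
    rw [Matrix.toLin'_mul, hBg, Matrix.toLin'_one]
    exact hg
  obtain ⟨b, hb⟩ := IsLocalization.exist_integer_multiples_of_finite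
    (nonZeroDivisors (MvPolynomial σ ℂ)) (fun x : K × R => B x.1 x.2)
  choose B' hB' using hb
  have hB'' : ∀ i j, ι (B' (i, j)) = ι b * B i j := fun i j => by
    rw [hB' (i, j), Algebra.smul_def]
  obtain ⟨a, ha, f, hf, hNf⟩ := h b (nonZeroDivisors.ne_zero b.2)
  apply hf
  have h1 : ∀ i j, ∑ x, B' (i, x) * N x j = if i = j then (b : MvPolynomial σ ℂ) else 0 := by
    intro i j
    apply hinj
    have h2 := congrFun (congrFun hB i) j
    rw [Matrix.mul_apply, Matrix.one_apply] at h2
    rw [map_sum, Finset.sum_congr rfl fun x _ => by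
      rw [map_mul, hB'' i x, mul_assoc], ← Finset.mul_sum]
    have h3 : ∑ x, B i x * ι (N x j) = if i = j then 1 else 0 := h2
    rw [h3]
    split_ifs <;> simp
  funext i
  have h2 : ∑ x, eval a (B' (i, x)) * ((N.map (eval a)).mulVec f) x = 0 := by
    rw [hNf]
    simp
  have h3 : ∑ x, eval a (B' (i, x)) * ((N.map (eval a)).mulVec f) x =
      ∑ j, eval a (∑ x, B' (i, x) * N x j) * f j := by
    simp only [Matrix.mulVec, dotProduct, Matrix.map_apply, map_sum, map_mul, Finset.mul_sum,
      Finset.sum_mul]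
    rw [Finset.sum_comm]
    exact Finset.sum_congr rfl fun j _ => Finset.sum_congr rfl fun x _ => by ring
  rw [h3] at h2
  simp only [h1] at h2
  rw [Finset.sum_eq_single i] at h2
  · rw [if_pos rfl] at h2
    rcases mul_eq_zero.1 h2 with h4 | h4
    · exact absurd h4 ha
    · exact h4
  · intro j _ hj
    rw [if_neg (Ne.symm hj), map_zero, zero_mul]
  · intro h5
    exact absurd (Finset.mem_univ i) h5

end Pool.Agent.H18.Sq

end

section

/-!
# Moving `r + 1` general points to the coordinate points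
-/

namespace Pool.Agent.H18.Sq

open MvPolynomial Finset Pool.Agent.H18.Fat

open Classical in
/-- The configuration `y` with the points `J l` replaced by the coordinate points. -/
noncomputable def cnf {r k : ℕ} (J : Fin (r + 1) ↪ Fin k) (y : Fin k → Fin (r + 1) → ℂ) :
    Fin k → Fin (r + 1) → ℂ := fun i =>
  if h : ∃ l, J l = i then Pi.single h.choose 1 else y i

theorem cnf_J {r k : ℕ} (J : Fin (r + 1) ↪ Fin k) (y : Fin k → Fin (r + 1) → ℂ) (l : Fin (r + 1)) :
    cnf J y (J l) = Pi.single l 1 := by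
  have h : ∃ l', J l' = J l := ⟨l, rfl⟩
  unfold cnf
  rw [dif_pos h]
  congr 1
  exact J.injective h.choose_spec

theorem cnf_ne {r k : ℕ} (J : Fin (r + 1) ↪ Fin k) (y : Fin k → Fin (r + 1) → ℂ) {i : Fin k}
    (hi : ∀ l, J l ≠ i) : cnf J y i = y i := by
  have h : ¬ ∃ l, J l = i := by
    rintro ⟨l, hl⟩
    exact hi l hl
  unfold cnf
  rw [dif_neg h]

/-- Invariance under linear changes of coordinates. -/
def GLinv {r k : ℕ} (P : (Fin k → Fin (r + 1) → ℂ) → Prop) : Prop :=
  ∀ (A B : Matrix (Fin (r + 1)) (Fin (r + 1)) ℂ), A * B = 1 → ∀ p, P p →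
    P fun i => A.mulVec (p i)

theorem exists_eval_ne {σ : Type*} {G : MvPolynomial σ ℂ} (hG : G ≠ 0) : ∃ a, eval a G ≠ 0 := by
  by_contra hcon
  push Not at hcon
  exact hG (MvPolynomial.funext fun x => by rw [hcon x, map_zero])

/-- The matrix of the points `J l`. -/
def matJ {r k : ℕ} (J : Fin (r + 1) ↪ Fin k) (p : Fin k → Fin (r + 1) → ℂ) :
    Matrix (Fin (r + 1)) (Fin (r + 1)) ℂ := Matrix.of fun i l => p (J l) i

theorem matJ_single {r k : ℕ} (J : Fin (r + 1) ↪ Fin k) (p : Fin k → Fin (r + 1) → ℂ)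
    (l : Fin (r + 1)) : (matJ J p).mulVec (Pi.single l 1) = p (J l) := by
  funext j
  rw [Matrix.mulVec_single_one]
  rfl

theorem conf_of_general {r k : ℕ} (J : Fin (r + 1) ↪ Fin k)
    {P : (Fin k → Fin (r + 1) → ℂ) → Prop} (hP : GLinv P) (h : ForGeneralPoints r k P) :
    ForGeneralPoints r k fun y => P (cnf J y) := by
  classical
  obtain ⟨G, hG, hGP⟩ := h.and (Pool.Agent.H18.Cub.general_det r k J)
  obtain ⟨a₀, ha₀⟩ := exists_eval_ne hG
  set p₀ : Fin k → Fin (r + 1) → ℂ := fun i j => a₀ (i, j) with hp₀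
  obtain ⟨-, hdet⟩ := hGP p₀ ha₀
  have hunit : IsUnit (matJ J p₀) := by
    rw [Matrix.isUnit_iff_isUnit_det]
    exact isUnit_iff_ne_zero.2 hdet
  obtain ⟨B, hB⟩ := isUnit_iff_exists_inv.1 hunit
  have hBA : B * matJ J p₀ = 1 := mul_eq_one_comm.1 hB
  let g : Fin k × Fin (r + 1) → MvPolynomial (Fin k × Fin (r + 1)) ℂ := fun x =>
    if ∃ l, J l = x.1 then C (p₀ x.1 x.2) else ∑ t, C (matJ J p₀ x.2 t) * X (x.1, t)
  have hg : ∀ (y : Fin k → Fin (r + 1) → ℂ) (x : Fin k × Fin (r + 1)),
      eval (fun x => y x.1 x.2) (g x) = (matJ J p₀).mulVec (cnf J y x.1) x.2 := by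
    intro y x
    simp only [g]
    split_ifs with hx
    · obtain ⟨l, hl⟩ := hx
      rw [← hl, cnf_J, matJ_single, eval_C]
    · push Not at hx
      rw [cnf_ne J y hx, map_sum]
      simp only [Matrix.mulVec, dotProduct, map_mul, eval_C, eval_X]
  have hG' : ∀ y : Fin k → Fin (r + 1) → ℂ, eval (fun x => y x.1 x.2) (bind₁ g G) =
      eval (fun x : Fin k × Fin (r + 1) => (matJ J p₀).mulVec (cnf J y x.1) x.2) G := by
    intro y
    change eval₂Hom (RingHom.id ℂ) _ _ = _
    rw [eval₂Hom_bind₁]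
    have h1 : (fun x => (eval₂Hom (RingHom.id ℂ) fun x : Fin k × Fin (r + 1) => y x.1 x.2) (g x)) =
        fun x : Fin k × Fin (r + 1) => (matJ J p₀).mulVec (cnf J y x.1) x.2 := by
      funext x
      exact hg y x
    rw [h1]
    rfl
  refine ⟨bind₁ g G, ?_, ?_⟩
  · intro h0
    have h1 := hG' fun i => B.mulVec (p₀ i)
    rw [h0, map_zero] at h1
    apply ha₀
    rw [h1]
    congr 2
    funext x
    by_cases hx : ∃ l, J l = x.1
    · obtain ⟨l, hl⟩ := hx
      rw [← hl, cnf_J, matJ_single]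
      simp [hp₀, hl]
    · push Not at hx
      rw [cnf_ne _ _ hx, Matrix.mulVec_mulVec, hB, Matrix.one_mulVec]
  · intro y hy
    rw [hG'] at hy
    have h1 := (hGP (fun i => (matJ J p₀).mulVec (cnf J y i)) hy).1
    have h2 := hP B _ hBA _ h1
    have h3 : (fun i => B.mulVec ((matJ J p₀).mulVec (cnf J y i))) = cnf J y := by
      funext i
      rw [Matrix.mulVec_mulVec, hBA, Matrix.one_mulVec]
    rwa [h3] at h2

/-- Clearing a denominator. -/
theorem clear_denom {σ τ : Type*} (D : MvPolynomial σ ℂ) (g : τ → MvPolynomial σ ℂ)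
    (Q : MvPolynomial τ ℂ) : ∃ (Q' : MvPolynomial σ ℂ) (N : ℕ), ∀ (p : σ → ℂ) (y : τ → ℂ),
      (∀ x, eval p D * y x = eval p (g x)) → eval p Q' = (eval p D) ^ N * eval y Q := by
  induction Q using MvPolynomial.induction_on with
  | C c => exact ⟨C c, 0, fun p y _ => by simp⟩
  | add Q₁ Q₂ h₁ h₂ =>
    obtain ⟨Q₁', N₁, h₁⟩ := h₁
    obtain ⟨Q₂', N₂, h₂⟩ := h₂
    refine ⟨D ^ N₂ * Q₁' + D ^ N₁ * Q₂', N₁ + N₂, fun p y hpy => ?_⟩
    rw [map_add, map_mul, map_mul, map_pow, map_pow, h₁ p y hpy, h₂ p y hpy, map_add]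
    ring
  | mul_X Q x h =>
    obtain ⟨Q', N, h⟩ := h
    refine ⟨Q' * g x, N + 1, fun p y hpy => ?_⟩
    rw [map_mul, h p y hpy, ← hpy x, map_mul, eval_X]
    ring

theorem general_of_conf {r k : ℕ} (J : Fin (r + 1) ↪ Fin k)
    {P : (Fin k → Fin (r + 1) → ℂ) → Prop} (hP : GLinv P)
    (h : ForGeneralPoints r k fun y => P (cnf J y)) : ForGeneralPoints r k P := by
  classical
  obtain ⟨G, hG, hGP⟩ := h
  obtain ⟨y₀, hy₀⟩ := exists_eval_ne hG
  -- the generic matrix
  let M : Matrix (Fin (r + 1)) (Fin (r + 1)) (MvPolynomial (Fin k × Fin (r + 1)) ℂ) :=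
    Matrix.of fun i l => MvPolynomial.X (J l, i)
  have hMp : ∀ p : Fin k → Fin (r + 1) → ℂ,
      (eval (fun x : Fin k × Fin (r + 1) => p x.1 x.2)).mapMatrix M = matJ J p := by
    intro p
    ext i l
    simp [M, matJ]
  have hM : ∀ p : Fin k → Fin (r + 1) → ℂ, eval (fun x => p x.1 x.2) M.det = (matJ J p).det := by
    intro p
    rw [RingHom.map_det, hMp]
  have hadj : ∀ (p : Fin k → Fin (r + 1) → ℂ) (i j : Fin (r + 1)),
      eval (fun x => p x.1 x.2) (M.adjugate i j) = (matJ J p).adjugate i j := by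
    intro p i j
    rw [← hMp p, ← RingHom.map_adjugate]
    rfl
  let g : Fin k × Fin (r + 1) → MvPolynomial (Fin k × Fin (r + 1)) ℂ := fun x =>
    if ∃ l, J l = x.1 then M.det * C (y₀ x) else ∑ t, M.adjugate x.2 t * X (x.1, t)
  obtain ⟨Q, N, hQ⟩ := clear_denom M.det g G
  -- the values
  have hval : ∀ (p : Fin k → Fin (r + 1) → ℂ) (y : Fin k × Fin (r + 1) → ℂ),
      (∀ x, (∃ l, J l = x.1) → y x = y₀ x) →
      (∀ x : Fin k × Fin (r + 1), (¬ ∃ l, J l = x.1) →
        (matJ J p).det * y x = (matJ J p).adjugate.mulVec (p x.1) x.2) →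
      eval (fun x => p x.1 x.2) Q = (matJ J p).det ^ N * eval y G := by
    intro p y h1 h2
    rw [hQ (fun x => p x.1 x.2) y, hM]
    intro x
    rw [hM]
    simp only [g]
    split_ifs with hx
    · rw [map_mul, hM, eval_C, h1 x hx]
    · rw [h2 x hx, map_sum]
      simp only [Matrix.mulVec, dotProduct, map_mul, eval_X, hadj]
  refine ⟨Q * M.det, mul_ne_zero ?_ ?_, ?_⟩
  · -- `Q ≠ 0`
    intro h0
    set p₀ : Fin k → Fin (r + 1) → ℂ := cnf J fun i j => y₀ (i, j) with hp₀
    have hone : matJ J p₀ = 1 := by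
      ext i l
      change p₀ (J l) i = _
      rw [hp₀, cnf_J, Matrix.one_apply, Pi.single_apply]
    have h1 := hval p₀ y₀ (fun _ _ => rfl) fun x hx => by
      push Not at hx
      rw [hone, Matrix.det_one, one_mul, Matrix.adjugate_one, Matrix.one_mulVec, hp₀,
        cnf_ne _ _ hx]
    rw [h0, map_zero, hone, Matrix.det_one, one_pow, one_mul] at h1
    exact hy₀ h1.symm
  · intro h0
    have h1 := hM (cnf J fun i j => y₀ (i, j))
    rw [h0, map_zero] at h1
    have hone : matJ J (cnf J fun i j => y₀ (i, j)) = 1 := by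
      ext i l
      change cnf J (fun i j => y₀ (i, j)) (J l) i = _
      rw [cnf_J, Matrix.one_apply, Pi.single_apply]
    rw [hone, Matrix.det_one] at h1
    exact one_ne_zero h1.symm
  · intro p hp
    rw [map_mul, hM] at hp
    have hdet := right_ne_zero_of_mul hp
    have hQp := left_ne_zero_of_mul hp
    have hunit : IsUnit (matJ J p) := by
      rw [Matrix.isUnit_iff_isUnit_det]
      exact isUnit_iff_ne_zero.2 hdet
    obtain ⟨B, hB⟩ := isUnit_iff_exists_inv.1 hunit
    have hBA : B * matJ J p = 1 := mul_eq_one_comm.1 hB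
    have hadjB : (matJ J p).adjugate = (matJ J p).det • B := by
      calc (matJ J p).adjugate = (matJ J p).adjugate * (matJ J p * B) := by rw [hB, mul_one]
        _ = _ := by rw [← mul_assoc, Matrix.adjugate_mul, Matrix.smul_mul, one_mul]
    set y : Fin k × Fin (r + 1) → ℂ := fun x =>
      if ∃ l, J l = x.1 then y₀ x else B.mulVec (p x.1) x.2 with hy
    have h1 := hval p y (fun x hx => if_pos hx) fun x hx => by
      rw [hy]
      simp only
      rw [if_neg hx, hadjB, Matrix.smul_mulVec]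
      rfl
    rw [h1] at hQp
    have h2 := hGP (fun i j => y (i, j)) (right_ne_zero_of_mul hQp)
    have h3 := hP (matJ J p) B hB _ h2
    have h4 : (fun i => (matJ J p).mulVec (cnf J (fun i j => y (i, j)) i)) = p := by
      funext i
      by_cases hi : ∃ l, J l = i
      · obtain ⟨l, rfl⟩ := hi
        rw [cnf_J, matJ_single]
      · have h5 : (fun j => y (i, j)) = B.mulVec (p i) := by
          funext j
          rw [hy]
          simp only
          rw [if_neg hi]
        push Not at hi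
        rw [cnf_ne _ _ hi, h5, Matrix.mulVec_mulVec, hB, Matrix.one_mulVec]
    rwa [h4] at h3

end Pool.Agent.H18.Sq

end

section

/-!
# The inversion `x ↦ 1/x` of forms
-/

namespace Pool.Agent.H18.Sq

open MvPolynomial Finset Pool.Agent.H18.Fat Pool.Agent.H18.Ex Pool.Agent.H18.Cub

variable {n : ℕ}

/-- `F ↦ x^u F(1/x)`, on monomials `x^β ↦ x^(u - β)` (truncated subtraction). -/
noncomputable def rev (u : Fin n →₀ ℕ) : MvPolynomial (Fin n) ℂ →ₗ[ℂ] MvPolynomial (Fin n) ℂ :=
  (basisMonomials (Fin n) ℂ).constr ℂ fun β => monomial (u - β) 1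

theorem rev_monomial (u β : Fin n →₀ ℕ) (c : ℂ) :
    rev u (monomial β c) = monomial (u - β) c := by
  have h1 : (monomial β c : MvPolynomial (Fin n) ℂ) = c • basisMonomials (Fin n) ℂ β := by
    rw [coe_basisMonomials, smul_monomial, smul_eq_mul, mul_one]
  rw [h1, map_smul]
  unfold rev
  rw [Module.Basis.constr_basis, smul_monomial, smul_eq_mul, mul_one]

theorem rev_eq_sum (u : Fin n →₀ ℕ) (F : MvPolynomial (Fin n) ℂ) :
    rev u F = ∑ β ∈ F.support, monomial (u - β) (coeff β F) := by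
  conv_lhs => rw [F.as_sum]
  rw [map_sum]
  exact sum_congr rfl fun β _ => rev_monomial u β _

/-- All exponents of `F` are at most `u`. -/
def Le (u : Fin n →₀ ℕ) (F : MvPolynomial (Fin n) ℂ) : Prop := ∀ β ∈ F.support, β ≤ u

theorem coeff_rev {u : Fin n →₀ ℕ} {F : MvPolynomial (Fin n) ℂ} (h : Le u F) {γ : Fin n →₀ ℕ}
    (hγ : γ ≤ u) : coeff γ (rev u F) = coeff (u - γ) F := by
  classical
  rw [rev_eq_sum, coeff_sum]
  simp only [coeff_monomial]
  rw [sum_eq_single (u - γ)]
  · rw [tsub_tsub_cancel_of_le hγ, if_pos rfl]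
  · intro β hβ hne
    rw [if_neg]
    intro h1
    apply hne
    rw [← h1, tsub_tsub_cancel_of_le (h β hβ)]
  · intro h1
    rw [notMem_support_iff.1 h1, ite_self]

theorem le_rev (u : Fin n →₀ ℕ) (F : MvPolynomial (Fin n) ℂ) : Le u (rev u F) := by
  classical
  intro γ hγ
  rw [mem_support_iff, rev_eq_sum, coeff_sum] at hγ
  obtain ⟨β, -, hβ⟩ := exists_ne_zero_of_sum_ne_zero hγ
  rw [coeff_monomial] at hβ
  have h1 : u - β = γ := by
    by_contra hne
    exact hβ (if_neg hne)
  rw [← h1]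
  exact tsub_le_self

theorem rev_rev {u : Fin n →₀ ℕ} {F : MvPolynomial (Fin n) ℂ} (h : Le u F) :
    rev u (rev u F) = F := by
  ext γ
  by_cases hγ : γ ≤ u
  · rw [coeff_rev (le_rev u F) hγ, coeff_rev h tsub_le_self, tsub_tsub_cancel_of_le hγ]
  · rw [notMem_support_iff.1 fun h1 => hγ (le_rev _ _ _ h1),
      notMem_support_iff.1 fun h1 => hγ (h _ h1)]

theorem rev_mul {u v : Fin n →₀ ℕ} {F G : MvPolynomial (Fin n) ℂ} (hF : Le u F) (hG : Le v G) :
    rev (u + v) (F * G) = rev u F * rev v G := by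
  rw [rev_eq_sum u F, rev_eq_sum v G, sum_mul_sum]
  conv_lhs => rw [F.as_sum, G.as_sum, sum_mul_sum]
  rw [map_sum]
  refine sum_congr rfl fun β hβ => ?_
  rw [map_sum]
  refine sum_congr rfl fun γ hγ => ?_
  rw [monomial_mul, rev_monomial, monomial_mul]
  congr 1
  congr 1
  ext i
  have h1 := hF β hβ i
  have h2 := hG γ hγ i
  simp only [Finsupp.tsub_apply, Finsupp.add_apply]
  omega

theorem rev_eq_zero {u : Fin n →₀ ℕ} {F : MvPolynomial (Fin n) ℂ} (h : Le u F)
    (h0 : rev u F = 0) : F = 0 := by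
  rw [← rev_rev h, h0, map_zero]

/-- The vector of the degrees in the variables. -/
noncomputable def dg (F : MvPolynomial (Fin n) ℂ) : Fin n →₀ ℕ :=
  Finsupp.equivFunOnFinite.symm fun l => degreeOf l F

theorem dg_apply (F : MvPolynomial (Fin n) ℂ) (l : Fin n) : dg F l = degreeOf l F := rfl

theorem le_dg (F : MvPolynomial (Fin n) ℂ) : Le (dg F) F := fun _ hβ l => monomial_le_degreeOf l hβ

theorem dg_le {u : Fin n →₀ ℕ} {F : MvPolynomial (Fin n) ℂ} (h : Le u F) : dg F ≤ u := by
  intro l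
  rw [dg_apply]
  rw [degreeOf_eq_sup]
  exact Finset.sup_le fun β hβ => h β hβ l

theorem dg_mul {F G : MvPolynomial (Fin n) ℂ} (hF : F ≠ 0) (hG : G ≠ 0) :
    dg (F * G) = dg F + dg G := by
  ext l
  rw [Finsupp.add_apply, dg_apply, dg_apply, dg_apply, degreeOf_mul_eq hF hG]

theorem exists_deg {F : MvPolynomial (Fin n) ℂ} (hF : F ≠ 0) (l : Fin n) :
    ∃ β ∈ F.support, β l = dg F l := by
  rw [dg_apply, degreeOf_eq_sup]
  have h := F.support.exists_mem_eq_sup (support_nonempty.2 hF) fun β => β l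
  obtain ⟨β, hβ, h⟩ := h
  exact ⟨β, hβ, h.symm⟩

theorem mem_support_rev {u : Fin n →₀ ℕ} {F : MvPolynomial (Fin n) ℂ} (h : Le u F)
    {β : Fin n →₀ ℕ} : β ∈ (rev u F).support ↔ β ≤ u ∧ u - β ∈ F.support := by
  constructor
  · intro hβ
    have h1 := le_rev u F β hβ
    refine ⟨h1, ?_⟩
    rw [mem_support_iff] at hβ ⊢
    rwa [coeff_rev h h1] at hβ
  · rintro ⟨h1, h2⟩
    rw [mem_support_iff] at h2 ⊢
    rwa [coeff_rev h h1]

/-- `x_l` divides `F` iff all exponents at `l` are positive. -/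
theorem X_dvd_iff' {F : MvPolynomial (Fin n) ℂ} {l : Fin n} :
    X l ∣ F ↔ ∀ β ∈ F.support, β l ≠ 0 := by
  rw [X_dvd_iff_modMonomial_eq_zero]
  constructor
  · intro h β hβ h0
    have h2 : ¬ Finsupp.single l 1 ≤ β := by
      intro h2
      have h3 := h2 l
      rw [Finsupp.single_eq_same, h0] at h3
      exact absurd h3 (by norm_num)
    have h1 := coeff_modMonomial_of_not_le F h2
    rw [h, coeff_zero] at h1
    exact (mem_support_iff.1 hβ) h1.symm
  · intro h
    ext β
    rw [coeff_zero]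
    by_cases h1 : Finsupp.single l 1 ≤ β
    · exact coeff_modMonomial_of_le F h1
    · rw [coeff_modMonomial_of_not_le F h1]
      rw [Finsupp.single_le_iff] at h1
      by_contra h2
      exact h β (mem_support_iff.2 h2) (by omega)

theorem degree_of_hom {d : ℕ} {F : MvPolynomial (Fin n) ℂ} (hF : F.IsHomogeneous d)
    {β : Fin n →₀ ℕ} (hβ : β ∈ F.support) : ∑ i, β i = d := by
  by_contra h
  rw [mem_support_iff] at hβ
  apply hβ
  apply hF.coeff_eq_zero
  rw [Finsupp.degree_eq_sum]
  exact h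

theorem hom_of_degree {d : ℕ} {F : MvPolynomial (Fin n) ℂ}
    (hF : ∀ β ∈ F.support, ∑ i, β i = d) : F.IsHomogeneous d := by
  intro β hβ
  rw [← hF β (mem_support_iff.2 hβ)]
  simp [Finsupp.weight_apply, Finsupp.sum_fintype]

theorem rev_hom {u : Fin n →₀ ℕ} {F : MvPolynomial (Fin n) ℂ} {d e : ℕ}
    (hF : F.IsHomogeneous d) (h : Le u F) (he : ∑ i, u i = d + e) :
    (rev u F).IsHomogeneous e := by
  apply hom_of_degree
  intro β hβ
  rw [mem_support_rev h] at hβ
  have h1 := degree_of_hom hF hβ.2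
  have h2 : ∑ i, (u - β) i + ∑ i, β i = ∑ i, u i := by
    rw [← sum_add_distrib]
    refine sum_congr rfl fun i _ => ?_
    rw [Finsupp.tsub_apply]
    exact Nat.sub_add_cancel (hβ.1 i)
  omega

/-- Vanishing at a coordinate point. -/
theorem vanishes_single_iff {d m : ℕ} {F : MvPolynomial (Fin n) ℂ} (hF : F.IsHomogeneous d)
    (l : Fin n) : VanishesToOrder F (Pi.single l 1) m ↔ ∀ β ∈ F.support, β l + m ≤ d := by
  rw [← exists_toPoly hF, vanishes_coord_iff, exists_toPoly hF]
  constructor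
  · intro h β hβ
    have hβd : β ∈ mons n d := by
      rw [mem_mons, Finsupp.degree_eq_sum]
      exact degree_of_hom hF hβ
    exact h ⟨β, hβd⟩ (mem_support_iff.1 hβ)
  · intro h α hα
    exact h α.1 (mem_support_iff.2 hα)

theorem coeff_formOf {d : ℕ} {w : Fin n → ℕ} (f : (Fin n → ℕ) → ℂ) (β : Fin n →₀ ℕ)
    (hβ : (⇑β : Fin n → ℕ) ∈ Ex.Rg d w) : coeff β (formOf d w f) = f ⇑β := by
  classical
  have hβd : β ∈ mons n d := by
    rw [mem_mons, Finsupp.degree_eq_sum]
    exact (Ex.mem_Rg.1 hβ).2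
  unfold formOf
  rw [coeff_toPoly _ ⟨β, hβd⟩]
  exact if_pos hβ

/-- The order of vanishing at points of the torus. -/
theorem rev_vanishes {u : Fin n →₀ ℕ} {F : MvPolynomial (Fin n) ℂ} {d e m : ℕ}
    (hF : F.IsHomogeneous d) (h : Le u F) (he : ∑ i, u i = d + e) {q : Fin n → ℂ}
    (hq : ∀ i, q i ≠ 0) (hv : VanishesToOrder F (fun i => (q i)⁻¹) m) :
    VanishesToOrder (rev u F) q m := by
  have h1 : Sat (Ex.Rg d ⇑u) (Ex.cf F) (Kind.free m) fun i => (q i)⁻¹ := by
    refine sat_of_vanishes (fun β hβ => ?_) hv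
    rw [Ex.mem_Rg]
    exact ⟨fun i => h β hβ i, degree_of_hom hF hβ⟩
  have h2 := sat_reflect d ⇑u (by omega) (Ex.cf F) m _ (fun i => inv_ne_zero (hq i)) h1
  have h3 : ∑ i, u i - d = e := by omega
  rw [h3] at h2
  simp only [inv_inv] at h2
  have h4 := vanishes_formOf h2
  have h5 : formOf e ⇑u (fun a => Ex.cf F fun i => u i - a i) = rev u F := by
    ext β
    by_cases hβ : (⇑β : Fin n → ℕ) ∈ Ex.Rg e ⇑u
    · rw [coeff_formOf _ _ hβ, coeff_rev h (fun i => (Ex.mem_Rg.1 hβ).1 i)]
      unfold Ex.cf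
      congr 1
      ext i
      rfl
    · have h6 : coeff β (rev u F) = 0 := by
        rw [← notMem_support_iff]
        intro h7
        apply hβ
        rw [Ex.mem_Rg]
        exact ⟨fun i => le_rev u F β h7 i, degree_of_hom (rev_hom hF h he) h7⟩
      rw [h6]
      by_contra h7
      have h8 : (formOf e ⇑u (fun a => Ex.cf F fun i => u i - a i)).IsHomogeneous e :=
        toPoly_isHomogeneous _
      have h9 := degree_of_hom h8 (mem_support_iff.2 h7)
      have hβd : β ∈ mons n e := by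
        rw [mem_mons, Finsupp.degree_eq_sum]
        exact h9
      apply h7
      unfold formOf
      rw [coeff_toPoly _ ⟨β, hβd⟩]
      exact if_neg hβ
  rw [← h5]
  exact h4

end Pool.Agent.H18.Sq

end

section

/-!
# Double curves and quadratic transformations
-/

namespace Pool.Agent.H18.Sq

open MvPolynomial Finset Pool.Agent.H18.Fat

theorem sum_split {r k : ℕ} (J : Fin (r + 1) ↪ Fin k) (f : Fin k → ℕ) :
    ∑ i, f i = ∑ l, f (J l) + ∑ i ∈ univ.filter (fun i => ∀ l, J l ≠ i), f i := by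
  classical
  rw [← sum_filter_add_sum_filter_not univ (fun i => ∀ l, J l ≠ i), add_comm]
  congr 1
  have h : (univ.filter fun i => ¬ ∀ l, J l ≠ i) = univ.map J := by
    ext i
    simp
  rw [h, sum_map]

/-- All members of the system have a common double curve `A = 0`, where `A` is irreducible, of
degree `a` with multiplicities (at least) `μ i` at the points, `3 a - ∑ μ i ≤ 1`. -/
def Dbl {k : ℕ} (d : ℕ) (m : Fin k → ℕ) (p : Fin k → Fin 3 → ℂ) : Prop :=
  ∃ (A : MvPolynomial (Fin 3) ℂ) (a : ℕ) (μ : Fin k → ℕ), Irreducible A ∧ A.IsHomogeneous a ∧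
    (∀ i, VanishesToOrder A (p i) (μ i)) ∧ 3 * a ≤ 1 + ∑ i, μ i ∧
    ∀ F ∈ fatForms 2 d p m, A ^ 2 ∣ F

/-- The substitution as an equivalence. -/
noncomputable def linEquiv {n : ℕ} {A B : Matrix (Fin n) (Fin n) ℂ} (hAB : A * B = 1) :
    MvPolynomial (Fin n) ℂ ≃ₐ[ℂ] MvPolynomial (Fin n) ℂ :=
  AlgEquiv.ofAlgHom (linSubst A) (linSubst B)
    (by
      refine AlgHom.ext fun F => ?_
      rw [AlgHom.comp_apply, linSubst_comp, mul_eq_one_comm.1 hAB, linSubst_one]
      rfl)
    (by
      refine AlgHom.ext fun F => ?_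
      rw [AlgHom.comp_apply, linSubst_comp, hAB, linSubst_one]
      rfl)

theorem glinv_dbl {k : ℕ} (d : ℕ) (m : Fin k → ℕ) : GLinv (r := 2) (k := k) (Dbl d m) := by
  intro M B hMB p h
  have hBM : B * M = 1 := mul_eq_one_comm.1 hMB
  obtain ⟨A, a, μ, hA, hAa, hAμ, hnum, hdiv⟩ := h
  have hBp : ∀ i, B.mulVec (M.mulVec (p i)) = p i := fun i => by
    rw [Matrix.mulVec_mulVec, hBM, Matrix.one_mulVec]
  refine ⟨linSubst B A, a, μ, ?_, linSubst_isHomogeneous B hAa, fun i => ?_, hnum, fun F hF => ?_⟩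
  · exact (MulEquiv.irreducible_iff (linEquiv hBM)).2 hA
  · apply vanishes_linSubst
    rw [hBp]
    exact hAμ i
  · have h1 : linSubst M F ∈ fatForms 2 d p m :=
      ⟨linSubst_isHomogeneous M hF.1, fun i => vanishes_linSubst (hF.2 i)⟩
    have h2 := map_dvd (linSubst B) (hdiv _ h1)
    rw [linSubst_comp, hMB, linSubst_one, map_pow] at h2
    exact h2

theorem ne_unit_of_hom {n a : ℕ} {A : MvPolynomial (Fin n) ℂ} (hA : Irreducible A)
    (hAa : A.IsHomogeneous a) : 1 ≤ a := by
  by_contra hcon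
  have h0 : a = 0 := by omega
  subst h0
  have h1 : A = C (coeff 0 A) := by
    rw [← totalDegree_eq_zero_iff_eq_C]
    exact Nat.le_zero.1 hAa.totalDegree_le
  apply hA.not_isUnit
  rw [h1]
  refine (isUnit_iff_ne_zero.2 fun h0 => ?_).map C
  apply hA.ne_zero
  rw [h1, h0, map_zero]

theorem eq_monomial_of_isUnit {n : ℕ} {A : MvPolynomial (Fin n) ℂ} (hA : IsUnit A) :
    ∃ c, A = monomial 0 c := by
  obtain ⟨c, -, hc⟩ := MvPolynomial.isUnit_iff_eq_C_of_isReduced.1 hA
  exact ⟨c, hc⟩

/-- Inversion preserves irreducible forms which are not divisible by a variable. -/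
theorem irreducible_rev {n : ℕ} {A : MvPolynomial (Fin n) ℂ} (hA : Irreducible A)
    (hX : ∀ l, ¬ X l ∣ A) : Irreducible (rev (dg A) A) ∧ dg (rev (dg A) A) = dg A := by
  classical
  set u := dg A with hu
  have hLe : Le u A := le_dg A
  have hne : rev u A ≠ 0 := fun h0 => hA.ne_zero (rev_eq_zero hLe h0)
  have hdg : dg (rev u A) = u := by
    apply le_antisymm (dg_le (le_rev u A))
    intro l
    have h1 := hX l
    rw [X_dvd_iff'] at h1
    push Not at h1
    obtain ⟨β, hβ, hβl⟩ := h1
    have h2 : u - β ∈ (rev u A).support := by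
      rw [mem_support_rev hLe]
      refine ⟨tsub_le_self, ?_⟩
      rw [tsub_tsub_cancel_of_le (hLe β hβ)]
      exact hβ
    have h3 := le_dg (rev u A) _ h2 l
    rw [Finsupp.tsub_apply, hβl, Nat.sub_zero] at h3
    exact h3
  -- a factor with a unit as its inversion
  have key : ∀ B D : MvPolynomial (Fin n) ℂ, rev u A = B * D → IsUnit (rev (dg B) B) →
      IsUnit B := by
    intro B D hBD hunit
    obtain ⟨c, hc⟩ := eq_monomial_of_isUnit hunit
    have h1 : B = monomial (dg B) c := by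
      have h2 := rev_rev (le_dg B)
      rw [hc, rev_monomial, tsub_zero] at h2
      exact h2.symm
    have hB0 : B ≠ 0 := by
      rintro rfl
      rw [zero_mul] at hBD
      exact hne hBD
    have hc0 : c ≠ 0 := by
      rintro rfl
      rw [monomial_zero] at h1
      exact hB0 h1
    have h3 : dg B = 0 := by
      by_contra hne0
      obtain ⟨l, hl⟩ : ∃ l, dg B l ≠ 0 := by
        by_contra hcon
        push Not at hcon
        exact hne0 (Finsupp.ext hcon)
      have h4 : X l ∣ B := by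
        rw [X_dvd_iff']
        intro β hβ
        rw [h1, support_monomial, if_neg hc0, mem_singleton] at hβ
        rw [hβ]
        exact hl
      have h5 : X l ∣ rev u A := by
        rw [hBD]
        exact h4.mul_right D
      rw [X_dvd_iff'] at h5
      obtain ⟨β, hβ, hβl⟩ := exists_deg hA.ne_zero l
      have h6 : u - β ∈ (rev u A).support := by
        rw [mem_support_rev hLe]
        refine ⟨tsub_le_self, ?_⟩
        rw [tsub_tsub_cancel_of_le (hLe β hβ)]
        exact hβ
      apply h5 _ h6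
      rw [Finsupp.tsub_apply, hβl, Nat.sub_self]
    rw [h3] at h1
    rw [h1]
    exact (isUnit_iff_ne_zero.2 hc0).map C
  refine ⟨?_, hdg⟩
  rw [irreducible_iff]
  constructor
  · intro hunit
    obtain ⟨c, hc⟩ := eq_monomial_of_isUnit hunit
    have h1 : A = monomial u c := by
      have h2 := rev_rev hLe
      rw [hc, rev_monomial, tsub_zero] at h2
      exact h2.symm
    have hc0 : c ≠ 0 := by
      rintro rfl
      rw [monomial_zero] at h1
      exact hA.ne_zero h1
    by_cases hu0 : u = 0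
    · apply hA.not_isUnit
      rw [h1, hu0]
      exact (isUnit_iff_ne_zero.2 hc0).map C
    · obtain ⟨l, hl⟩ : ∃ l, u l ≠ 0 := by
        by_contra hcon
        push Not at hcon
        exact hu0 (Finsupp.ext hcon)
      apply hX l
      rw [X_dvd_iff']
      intro β hβ
      rw [h1, support_monomial, if_neg hc0, mem_singleton] at hβ
      rw [hβ]
      exact hl
  · intro B D hBD
    have hB0 : B ≠ 0 := by
      rintro rfl
      rw [zero_mul] at hBD
      exact hne hBD
    have hD0 : D ≠ 0 := by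
      rintro rfl
      rw [mul_zero] at hBD
      exact hne hBD
    have h1 : A = rev (dg B) B * rev (dg D) D := by
      rw [← rev_mul (le_dg B) (le_dg D), ← dg_mul hB0 hD0, ← hBD, hdg, rev_rev hLe]
    rcases hA.isUnit_or_isUnit h1 with h2 | h2
    · exact Or.inl (key B D hBD h2)
    · exact Or.inr (key D B (hBD.trans (mul_comm _ _)) h2)

/-- The members of the transformed system. -/
theorem rev_mem {k d d₁ : ℕ} {m m₁ : Fin k → ℕ} (J : Fin 3 ↪ Fin k) (hJ : ∀ l, m (J l) ≤ d)
    (hd : ∑ l, m (J l) + d₁ = 2 * d) (hm : ∀ l, m₁ (J l) = d₁ + m (J l) - d)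
    (hm' : ∀ i, (∀ l, J l ≠ i) → m₁ i = m i) {y : Fin k → Fin 3 → ℂ} (hy : ∀ i j, y i j ≠ 0)
    {w : Fin 3 →₀ ℕ} (hw : ∀ l, w l = d - m (J l)) {F : MvPolynomial (Fin 3) ℂ}
    (hF : F ∈ fatForms 2 d (cnf J y) m) :
    Le w F ∧ rev w F ∈ fatForms 2 d₁ (cnf J fun i j => (y i j)⁻¹) m₁ := by
  have hsum : ∑ l, w l = d + d₁ := by
    rw [Fin.sum_univ_three] at hd ⊢
    rw [hw, hw, hw]
    have h0 := hJ 0
    have h1 := hJ 1
    have h2 := hJ 2
    omega
  have hLe : Le w F := by
    intro β hβ l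
    have h1 := hF.2 (J l)
    rw [cnf_J, vanishes_single_iff hF.1] at h1
    have h2 := h1 β hβ
    rw [hw]
    omega
  have hhom := rev_hom hF.1 hLe hsum
  refine ⟨hLe, hhom, fun i => ?_⟩
  by_cases hi : ∃ l, J l = i
  · obtain ⟨l, rfl⟩ := hi
    rw [cnf_J, vanishes_single_iff hhom]
    intro β hβ
    have h1 := le_rev w F β hβ l
    have h2 : β l ≤ d₁ := by
      rw [← degree_of_hom hhom hβ]
      exact single_le_sum (f := fun i => β i) (fun _ _ => Nat.zero_le _) (mem_univ l)
    rw [hw] at h1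
    rw [hm]
    have h3 := hJ l
    omega
  · push Not at hi
    rw [cnf_ne _ _ hi, hm' i hi]
    refine rev_vanishes hF.1 hLe hsum (fun j => inv_ne_zero (hy i j)) ?_
    have h1 := hF.2 i
    rw [cnf_ne _ _ hi] at h1
    simpa only [inv_inv] using h1

/-- A common double curve of the transformed system gives a common double curve of the system. -/
theorem dbl_step {k d d₁ : ℕ} {m m₁ : Fin k → ℕ} (J : Fin 3 ↪ Fin k) (hJ : ∀ l, m (J l) ≤ d)
    (hd : ∑ l, m (J l) + d₁ = 2 * d) (hm : ∀ l, m₁ (J l) = d₁ + m (J l) - d)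
    (hm' : ∀ i, (∀ l, J l ≠ i) → m₁ i = m i) {y : Fin k → Fin 3 → ℂ} (hy : ∀ i j, y i j ≠ 0)
    (hex : ∀ l, ∃ F ∈ fatForms 2 d (cnf J y) m, ¬ VanishesToOrder F (Pi.single l 1) (m (J l) + 1))
    (hD : Dbl d₁ m₁ (cnf J fun i j => (y i j)⁻¹)) : Dbl d m (cnf J y) := by
  classical
  obtain ⟨A, a, μ, hA, hAa, hAμ, hnum, hdiv⟩ := hD
  set w : Fin 3 →₀ ℕ := Finsupp.equivFunOnFinite.symm fun l => d - m (J l) with hw
  have hwl : ∀ l, w l = d - m (J l) := fun l => rfl
  have hmem := fun F hF => rev_mem J hJ hd hm hm' hy hwl (F := F) hF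
  -- `A` is not divisible by a variable
  have hX : ∀ l, ¬ X l ∣ A := by
    intro l hl
    obtain ⟨F, hF, hFl⟩ := hex l
    obtain ⟨hLe, hF'⟩ := hmem F hF
    apply hFl
    rw [vanishes_single_iff hF.1]
    intro β hβ
    have h1 : X l ∣ rev w F := hl.trans ((dvd_pow_self A two_ne_zero).trans (hdiv _ hF'))
    rw [X_dvd_iff'] at h1
    have h2 : w - β ∈ (rev w F).support := by
      rw [mem_support_rev hLe]
      refine ⟨tsub_le_self, ?_⟩
      rw [tsub_tsub_cancel_of_le (hLe β hβ)]
      exact hβ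
    have h3 := h1 _ h2
    rw [Finsupp.tsub_apply, hwl] at h3
    omega
  obtain ⟨hirr, hdg⟩ := irreducible_rev hA hX
  set u := dg A with hu
  set B := rev u A with hB
  have hAu : a ≤ ∑ l, u l := by
    obtain ⟨β, hβ⟩ := support_nonempty.2 hA.ne_zero
    rw [← degree_of_hom hAa hβ]
    exact sum_le_sum fun l _ => le_dg A β hβ l
  obtain ⟨b, hb⟩ := Nat.exists_eq_add_of_le hAu
  have hBhom : B.IsHomogeneous b := rev_hom hAa (le_dg A) hb
  have hub : ∀ l, u l ≤ b := by
    intro l
    obtain ⟨β, hβ, hβl⟩ := exists_deg hirr.ne_zero l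
    rw [hdg] at hβl
    rw [← hβl, ← degree_of_hom hBhom hβ]
    exact single_le_sum (f := fun i => β i) (fun _ _ => Nat.zero_le _) (mem_univ l)
  have hua : ∀ l, μ (J l) + u l ≤ a := by
    intro l
    obtain ⟨β, hβ, hβl⟩ := exists_deg hA.ne_zero l
    have h1 := hAμ (J l)
    rw [cnf_J, vanishes_single_iff hAa] at h1
    have h2 := h1 β hβ
    rw [hβl, ← hu] at h2
    omega
  let ν : Fin k → ℕ := fun i => if h : ∃ l, J l = i then b - u h.choose else μ i
  have hνJ : ∀ l, ν (J l) = b - u l := by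
    intro l
    have h : ∃ l', J l' = J l := ⟨l, rfl⟩
    simp only [ν]
    rw [dif_pos h, J.injective h.choose_spec]
  have hνne : ∀ i, (∀ l, J l ≠ i) → ν i = μ i := by
    intro i hi
    have h : ¬ ∃ l, J l = i := by
      rintro ⟨l, hl⟩
      exact hi l hl
    simp only [ν]
    rw [dif_neg h]
  refine ⟨B, b, ν, hirr, hBhom, fun i => ?_, ?_, fun F hF => ?_⟩
  · by_cases hi : ∃ l, J l = i
    · obtain ⟨l, rfl⟩ := hi
      rw [cnf_J, vanishes_single_iff hBhom, hνJ]
      intro β hβ
      have h1 := le_rev u A β hβ l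
      have h2 := hub l
      omega
    · push Not at hi
      rw [cnf_ne _ _ hi, hνne i hi]
      refine rev_vanishes hAa (le_dg A) hb (hy i) ?_
      have h1 := hAμ i
      rwa [cnf_ne _ _ hi] at h1
  · have e1 : ∑ i, μ i = ∑ l : Fin 3, μ (J l) +
        ∑ i ∈ univ.filter (fun i => ∀ l : Fin 3, J l ≠ i), μ i := sum_split (r := 2) J μ
    have e2 : ∑ i, ν i = ∑ l : Fin 3, ν (J l) +
        ∑ i ∈ univ.filter (fun i => ∀ l : Fin 3, J l ≠ i), ν i := sum_split (r := 2) J ν
    have h1 : ∑ i ∈ univ.filter (fun i => ∀ l : Fin 3, J l ≠ i), ν i =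
        ∑ i ∈ univ.filter (fun i => ∀ l : Fin 3, J l ≠ i), μ i :=
      sum_congr rfl fun i hi => hνne i (mem_filter.1 hi).2
    rw [Fin.sum_univ_three] at e1 e2
    rw [h1, hνJ, hνJ, hνJ] at e2
    rw [Fin.sum_univ_three] at hb
    have h2 := hub 0
    have h3 := hub 1
    have h4 := hub 2
    have h5 := hua 0
    have h6 := hua 1
    have h7 := hua 2
    omega
  · obtain ⟨hLe, hF'⟩ := hmem F hF
    by_cases hF0 : F = 0
    · rw [hF0]
      exact dvd_zero _
    obtain ⟨G, hG⟩ := hdiv _ hF'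
    have hne : rev w F ≠ 0 := fun h0 => hF0 (rev_eq_zero hLe h0)
    have hG0 : G ≠ 0 := by
      rintro rfl
      rw [mul_zero] at hG
      exact hne hG
    have h1 : dg (rev w F) = u + u + dg G := by
      rw [hG, dg_mul (pow_ne_zero 2 hA.ne_zero) hG0, pow_two, dg_mul hA.ne_zero hA.ne_zero]
    have h2 : dg (rev w F) ≤ w := dg_le (le_rev w F)
    rw [h1] at h2
    have h3 : Le (w - (u + u)) G := by
      intro β hβ l
      have h4 := le_dg G β hβ l
      have h5 := h2 l
      simp only [Finsupp.add_apply, Finsupp.tsub_apply] at h5 ⊢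
      omega
    have h4 : F = B * B * rev (w - (u + u)) G := by
      have h5 : w = u + u + (w - (u + u)) := by
        ext l
        have h6 := h2 l
        simp only [Finsupp.add_apply, Finsupp.tsub_apply] at h6 ⊢
        omega
      have h6 : Le (u + u) (A * A) := by
        intro β hβ
        have h7 := le_dg (A * A) β hβ
        rwa [dg_mul hA.ne_zero hA.ne_zero] at h7
      calc F = rev w (rev w F) := (rev_rev hLe).symm
        _ = rev (u + u + (w - (u + u))) (A * A * G) := by rw [← h5, hG, pow_two]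
        _ = B * B * rev (w - (u + u)) G := by
            rw [rev_mul h6 h3, rev_mul (le_dg A) (le_dg A)]
    rw [h4, ← pow_two]
    exact dvd_mul_right _ _

end Pool.Agent.H18.Sq

end

section

/-!
# For general points the multiplicities of a general member are the assigned ones
-/

namespace Pool.Agent.H18.Sq

open MvPolynomial Finset Pool.Agent.H18.Fat

/-- The entries of the matrix of conditions. -/
noncomputable def tE {r k : ℕ} (i : Fin k) (β α : Fin (r + 1) → ℕ) :
    MvPolynomial (Fin k × Fin (r + 1)) ℂ :=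
  ∏ j, (C ((α j).choose (β j) : ℂ) * X (i, j) ^ (α j - β j))

theorem pderiv_prod_zero {σ ι : Type*} (x : σ) (S : Finset ι) (g : ι → MvPolynomial σ ℂ)
    (h : ∀ j ∈ S, pderiv x (g j) = 0) : pderiv x (∏ j ∈ S, g j) = 0 := by
  classical
  induction S using Finset.induction_on with
  | empty => rw [prod_empty, pderiv_one]
  | insert a S ha ih =>
    rw [prod_insert ha, pderiv_mul, h a (mem_insert_self _ _),
      ih fun j hj => h j (mem_insert_of_mem hj)]
    simp

theorem pderiv_tE_ne {r k : ℕ} {i l : Fin k} (hil : i ≠ l) (j : Fin (r + 1))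
    (β α : Fin (r + 1) → ℕ) : pderiv (l, j) (tE i β α) = 0 := by
  unfold tE
  refine pderiv_prod_zero _ _ _ fun j' _ => ?_
  rw [pderiv_C_mul, pderiv_pow, pderiv_X_of_ne, mul_zero, mul_zero]
  intro h
  exact hil (congrArg Prod.fst h)

theorem pderiv_tE {r k : ℕ} (l : Fin k) (j : Fin (r + 1)) (β α : Fin (r + 1) → ℕ) :
    pderiv (l, j) (tE l β α) =
      ((β j + 1 : ℕ) : MvPolynomial (Fin k × Fin (r + 1)) ℂ) *
        tE l (Function.update β j (β j + 1)) α := by
  classical
  unfold tE
  rw [← mul_prod_erase univ _ (mem_univ j), pderiv_mul, pderiv_prod_zero, mul_zero, add_zero,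
    ← mul_prod_erase univ (fun j' => C ((α j').choose ((Function.update β j (β j + 1)) j') : ℂ) *
      X (l, j') ^ (α j' - (Function.update β j (β j + 1)) j')) (mem_univ j), ← mul_assoc]
  · refine congrArg₂ (· * ·) ?_ ?_
    · rw [Function.update_self, pderiv_C_mul, pderiv_pow, pderiv_X_self, mul_one]
      have h1 := Nat.choose_succ_right_eq (α j) (β j)
      have h2 : (C ((α j).choose (β j) : ℂ) : MvPolynomial (Fin k × Fin (r + 1)) ℂ) *
          ((α j - β j : ℕ) : MvPolynomial (Fin k × Fin (r + 1)) ℂ) =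
          ((β j + 1 : ℕ) : MvPolynomial (Fin k × Fin (r + 1)) ℂ) *
            C ((α j).choose (β j + 1) : ℂ) := by
        rw [map_natCast, map_natCast]
        norm_cast
        rw [← h1, mul_comm]
      rw [Nat.sub_add_eq, ← mul_assoc, h2]
      ring
    · refine prod_congr rfl fun j' hj' => ?_
      rw [Function.update_of_ne (ne_of_mem_erase hj')]
  · intro j' hj'
    rw [pderiv_C_mul, pderiv_pow, pderiv_X_of_ne, mul_zero, mul_zero]
    intro h
    exact (ne_of_mem_erase hj') (congrArg Prod.snd h)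

/-- The `x`-th condition. -/
theorem genFullMat_mulVec {r d k : ℕ} (m : Fin k → ℕ)
    (f : mons (r + 1) d → MvPolynomial (Fin k × Fin (r + 1)) ℂ)
    (x : Σ i : Fin k, {β // β ∈ full (r + 1) (m i)}) :
    (genFullMat r d m).mulVec f x = ∑ α : mons (r + 1) d, tE x.1 ⇑x.2.1 ⇑α.1 * f α := rfl

theorem totalDegree_pderiv {σ : Type*} (i : σ) (f : MvPolynomial σ ℂ) (h : pderiv i f ≠ 0) :
    (pderiv i f).totalDegree < f.totalDegree := by
  classical
  have h1 : ∀ s ∈ (pderiv i f).support, (s.sum fun _ e => e) + 1 ≤ f.totalDegree := by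
    intro s hs
    rw [mem_support_iff, coeff_pderiv] at hs
    have h2 := le_totalDegree (mem_support_iff.2 (left_ne_zero_of_mul hs))
    rw [Finsupp.sum_add_index' (fun _ => rfl) (fun _ _ _ => rfl), Finsupp.sum_single_index rfl]
      at h2
    exact h2
  obtain ⟨s, hs⟩ := support_nonempty.2 h
  have h3 := h1 s hs
  have h4 : (pderiv i f).totalDegree ≤ f.totalDegree - 1 := by
    rw [totalDegree]
    refine Finset.sup_le fun s hs => ?_
    have := h1 s hs
    omega
  omega

/-- A polynomial with vanishing derivatives does not depend on the variables. -/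
theorem eval_eq_of_pderiv {r k : ℕ} (l : Fin k) (f : MvPolynomial (Fin k × Fin (r + 1)) ℂ)
    (h : ∀ j, pderiv (l, j) f = 0) (a a' : Fin k × Fin (r + 1) → ℂ)
    (ha : ∀ x : Fin k × Fin (r + 1), x.1 ≠ l → a x = a' x) : eval a f = eval a' f := by
  classical
  rw [eval_eq, eval_eq]
  refine sum_congr rfl fun s hs => ?_
  congr 1
  refine prod_congr rfl fun x hx => ?_
  by_cases hxl : x.1 = l
  · exfalso
    obtain ⟨i, j⟩ := x
    change i = l at hxl
    subst hxl
    have h1 := congrArg (coeff (s - Finsupp.single (i, j) 1)) (h j)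
    rw [coeff_pderiv, coeff_zero] at h1
    have h2 : s - Finsupp.single (i, j) 1 + Finsupp.single (i, j) 1 = s := by
      apply tsub_add_cancel_of_le
      rw [Finsupp.single_le_iff]
      have := Finsupp.mem_support_iff.1 hx
      omega
    rw [h2] at h1
    rcases mul_eq_zero.1 h1 with h3 | h3
    · exact (mem_support_iff.1 hs) h3
    · exact absurd h3 (Nat.cast_add_one_ne_zero _)
  · rw [ha x hxl]

/-- If, for general points, the multiplicity at `p l` is always larger than assigned then there is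
no nonzero polynomial family of forms. -/
theorem no_family {r d k : ℕ} (m : Fin k → ℕ) (l : Fin k)
    {G : MvPolynomial (Fin k × Fin (r + 1)) ℂ} (hG : G ≠ 0)
    (hEq : ∀ p : Fin k → Fin (r + 1) → ℂ, eval (fun x => p x.1 x.2) G ≠ 0 →
      fatForms r d p m ≤ fatForms r d p (Function.update m l (m l + 1))) :
    ∀ (n : ℕ) (f : mons (r + 1) d → MvPolynomial (Fin k × Fin (r + 1)) ℂ), f ≠ 0 →
      (genFullMat r d m).mulVec f = 0 → ∑ α, (f α).totalDegree ≠ n := by
  classical
  intro n
  induction n using Nat.strong_induction_on with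
  | _ n IH =>
  intro f hf0 hf hn
  -- the larger conditions hold identically
  have hplus : ∀ (i : Fin k) (β : Fin (r + 1) →₀ ℕ),
      β.degree < Function.update m l (m l + 1) i → ∑ α : mons (r + 1) d, tE i ⇑β ⇑α.1 * f α = 0 := by
    intro i β hβ
    have h1 : G * (∑ α : mons (r + 1) d, tE i ⇑β ⇑α.1 * f α) = 0 := by
      apply MvPolynomial.funext
      intro a
      rw [map_zero, map_mul]
      by_cases ha : eval a G = 0
      · rw [ha, zero_mul]
      · set p : Fin k → Fin (r + 1) → ℂ := fun i j => a (i, j) with hp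
        have hmem : toPoly (r + 1) d (fun α => eval a (f α)) ∈ fatForms r d p m := by
          rw [toPoly_mem_fatForms_full, ← genFullMat_map]
          funext x
          have h2 := congrArg (eval a) (congrFun hf x)
          rw [Pi.zero_apply, map_zero] at h2
          rw [Pi.zero_apply, ← h2, genFullMat_mulVec, map_sum]
          simp only [Matrix.mulVec, dotProduct, Matrix.map_apply, map_mul]
          rfl
        have hmem' := hEq p ha hmem
        rw [toPoly_mem_fatForms_full, ← genFullMat_map] at hmem'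
        have h3 := congrFun hmem' ⟨i, β, mem_full.2 hβ⟩
        have h4 : eval a (∑ α : mons (r + 1) d, tE i ⇑β ⇑α.1 * f α) = 0 := by
          rw [Pi.zero_apply] at h3
          rw [← h3, map_sum]
          simp only [Matrix.mulVec, dotProduct, Matrix.map_apply, map_mul]
          rfl
        rw [h4, mul_zero]
    rcases mul_eq_zero.1 h1 with h2 | h2
    · exact absurd h2 hG
    · exact h2
  -- the derivatives
  have hder : ∀ j : Fin (r + 1), (fun α => pderiv (l, j) (f α)) = 0 := by
    intro j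
    by_contra hne
    have hker : (genFullMat r d m).mulVec (fun α => pderiv (l, j) (f α)) = 0 := by
      funext x
      obtain ⟨i, β, hβ⟩ := x
      rw [genFullMat_mulVec, Pi.zero_apply]
      simp only
      have h1 : pderiv (l, j) (∑ α : mons (r + 1) d, tE i ⇑β ⇑α.1 * f α) = 0 := by
        have h2 := congrFun hf ⟨i, β, hβ⟩
        rw [genFullMat_mulVec, Pi.zero_apply] at h2
        simp only at h2
        rw [h2, map_zero]
      rw [map_sum] at h1
      simp only [pderiv_mul, sum_add_distrib] at h1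
      by_cases hil : i = l
      · subst hil
        have h3 : ∑ α : mons (r + 1) d, pderiv (i, j) (tE i ⇑β ⇑α.1) * f α = 0 := by
          have h4 := hplus i (β + Finsupp.single j 1) (by
            rw [Function.update_self, map_add, Finsupp.degree_single]
            have := mem_full.1 hβ
            omega)
          have h5 : (⇑(β + Finsupp.single j 1 : Fin (r + 1) →₀ ℕ) : Fin (r + 1) → ℕ) =
              Function.update ⇑β j (β j + 1) := by
            funext j'
            by_cases hj : j' = j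
            · subst hj
              simp
            · rw [Function.update_of_ne hj, Finsupp.add_apply, Finsupp.single_eq_of_ne hj, add_zero]
          rw [h5] at h4
          rw [sum_congr rfl fun α _ => by rw [pderiv_tE, mul_assoc], ← mul_sum, h4, mul_zero]
        rw [h3, zero_add] at h1
        exact h1
      · have h3 : ∑ α : mons (r + 1) d, pderiv (l, j) (tE i ⇑β ⇑α.1) * f α = 0 := by
          refine sum_eq_zero fun α _ => ?_
          rw [pderiv_tE_ne hil, zero_mul]
        rw [h3, zero_add] at h1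
        exact h1
    refine IH _ ?_ _ hne hker rfl
    rw [← hn]
    obtain ⟨α₀, hα₀⟩ : ∃ α, pderiv (l, j) (f α) ≠ 0 := by
      by_contra hcon
      push Not at hcon
      exact hne (funext hcon)
    refine sum_lt_sum (fun α _ => ?_) ⟨α₀, mem_univ _, totalDegree_pderiv _ _ hα₀⟩
    by_cases h0 : pderiv (l, j) (f α) = 0
    · rw [h0, totalDegree_zero]
      exact Nat.zero_le _
    · exact (totalDegree_pderiv _ _ h0).le
  -- the family does not depend on `p l` and vanishes at `p l`
  obtain ⟨α₀, hα₀⟩ : ∃ α, f α ≠ 0 := by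
    by_contra hcon
    push Not at hcon
    exact hf0 (funext hcon)
  obtain ⟨a, ha⟩ : ∃ a, eval a (f α₀) ≠ 0 := by
    by_contra hcon
    push Not at hcon
    exact hα₀ (MvPolynomial.funext fun x => by rw [hcon x, map_zero])
  apply ha
  have h1 : toPoly (r + 1) d (fun α => eval a (f α)) = 0 := by
    apply MvPolynomial.funext
    intro x
    rw [map_zero]
    have h2 := hplus l 0 (by
      rw [Function.update_self, map_zero]
      omega)
    set a' : Fin k × Fin (r + 1) → ℂ := fun y => if y.1 = l then x y.2 else a y with ha'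
    have h3 := congrArg (eval a') h2
    rw [map_zero, map_sum] at h3
    rw [toPoly_apply, map_sum, ← h3]
    refine sum_congr rfl fun α _ => ?_
    rw [map_mul, eval_monomial]
    have h4 : eval a' (f α) = eval a (f α) := by
      refine eval_eq_of_pderiv l (f α) (fun j => congrFun (hder j) α) _ _ fun y hy => ?_
      rw [ha']
      simp only
      rw [if_neg hy]
    rw [h4, mul_comm]
    congr 1
    unfold tE
    rw [map_prod, Finsupp.prod_fintype _ _ fun i => pow_zero _]
    refine prod_congr rfl fun j _ => ?_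
    simp [ha']
  have h2 := toPoly_injective _ _ (h1.trans (map_zero (toPoly (r + 1) d)).symm)
  exact congrFun h2 α₀

/-- If there are forms for general points, the general dimension drops when one multiplicity is
increased. -/
theorem generalDim_lt {r d k : ℕ} (m : Fin k → ℕ) (l : Fin k) (hne : Pool.Agent.H18.Fat.generalDim r d m ≠ 0) :
    generalDim r d (Function.update m l (m l + 1)) < generalDim r d m := by
  classical
  by_contra hcon
  push Not at hcon
  obtain ⟨G, hG, hGp⟩ := (Ub.generalDim_spec r d m).and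
    (Ub.generalDim_spec r d (Function.update m l (m l + 1)))
  have hEq : ∀ p : Fin k → Fin (r + 1) → ℂ, eval (fun x => p x.1 x.2) G ≠ 0 →
      fatForms r d p m ≤ fatForms r d p (Function.update m l (m l + 1)) := by
    intro p hp
    obtain ⟨h1, h2⟩ := hGp p hp
    have hle : fatForms r d p (Function.update m l (m l + 1)) ≤ fatForms r d p m := by
      rintro F ⟨hF1, hF2⟩
      refine ⟨hF1, fun i β hβ => hF2 i β (lt_of_lt_of_le hβ ?_)⟩
      by_cases hi : i = l
      · subst hi
        rw [Function.update_self]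
        omega
      · rw [Function.update_of_ne hi]
    have := Submodule.eq_of_le_of_finrank_le hle (by rw [h1, h2]; exact hcon)
    rw [this]
  obtain ⟨f, hf0, hf⟩ := exists_ker (genFullMat r d m) fun G' hG' => by
    obtain ⟨a, ha⟩ : ∃ a, eval a (G * G') ≠ 0 := by
      by_contra hcon
      push Not at hcon
      exact mul_ne_zero hG hG' (MvPolynomial.funext fun x => by rw [hcon x, map_zero])
    rw [map_mul] at ha
    refine ⟨a, right_ne_zero_of_mul ha, ?_⟩
    have h1 := (hGp (fun i j => a (i, j)) (left_ne_zero_of_mul ha)).1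
    have h2 : fatForms r d (fun i j => a (i, j)) m ≠ ⊥ := by
      intro h0
      rw [h0, finrank_bot] at h1
      exact hne h1.symm
    obtain ⟨F, hF, hF0⟩ := Submodule.exists_mem_ne_zero_of_ne_bot h2
    refine ⟨fun α => coeff α.1 F, ?_, ?_⟩
    · intro h3
      apply hF0
      rw [← exists_toPoly hF.1, h3, map_zero]
    · have h4 : toPoly (r + 1) d (fun α => coeff α.1 F) ∈ fatForms r d (fun i j => a (i, j)) m := by
        rw [exists_toPoly hF.1]
        exact hF
      rw [toPoly_mem_fatForms_full, ← genFullMat_map] at h4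
      exact h4
  exact no_family m l hG hEq _ f hf0 hf rfl

/-- For general points some member has exactly the assigned multiplicity at `p l`. -/
theorem exact_general {r d k : ℕ} (m : Fin k → ℕ) (l : Fin k) (hne : generalDim r d m ≠ 0) :
    ForGeneralPoints r k fun p => ∃ F ∈ fatForms r d p m, ¬ VanishesToOrder F (p l) (m l + 1) := by
  refine ((Ub.generalDim_spec r d m).and
    (Ub.generalDim_spec r d (Function.update m l (m l + 1)))).mono fun p hp => ?_
  obtain ⟨h1, h2⟩ := hp
  by_contra hcon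
  push Not at hcon
  have hle : fatForms r d p m ≤ fatForms r d p (Function.update m l (m l + 1)) := by
    intro F hF
    refine ⟨hF.1, fun i => ?_⟩
    by_cases hi : i = l
    · subst hi
      rw [Function.update_self]
      exact hcon F hF
    · rw [Function.update_of_ne hi]
      exact hF.2 i
  have h3 := Submodule.finrank_mono hle
  rw [h1, h2] at h3
  have h4 := generalDim_lt m l hne
  omega

end Pool.Agent.H18.Sq

end

section

/-!
# Common double curves and isolated singularities
-/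

namespace Pool.Agent.H18.Sq

open MvPolynomial Finset Pool.Agent.H18.Fat Pool.Agent.H18.Iso

theorem X_sq_dvd {n : ℕ} {F : MvPolynomial (Fin n) ℂ} {l : Fin n}
    (h : ∀ β ∈ F.support, 2 ≤ β l) : X l ^ 2 ∣ F := by
  rw [F.as_sum]
  refine Finset.dvd_sum fun β hβ => ?_
  refine ⟨monomial (β - Finsupp.single l 2) (coeff β F), ?_⟩
  rw [X_pow_eq_monomial, monomial_mul, one_mul, add_tsub_cancel_of_le]
  rw [Finsupp.single_le_iff]
  exact h β hβ

/-- A large pair gives a double line. -/
theorem dbl_pair {k d : ℕ} {m : Fin k → ℕ} (J : Fin 3 ↪ Fin k) (a b : Fin 3) (hab : a ≠ b)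
    (h : d + 2 ≤ m (J a) + m (J b)) (y : Fin k → Fin 3 → ℂ) : Dbl d m (cnf J y) := by
  classical
  obtain ⟨c, hca, hcb⟩ : ∃ c : Fin 3, c ≠ a ∧ c ≠ b := by
    fin_cases a <;> fin_cases b <;> simp at hab ⊢ <;> decide
  let μ : Fin k → ℕ := fun i => if i = J a ∨ i = J b then 1 else 0
  refine ⟨X c, 1, μ, ?_, isHomogeneous_X ℂ c, fun i => ?_, ?_, fun F hF => ?_⟩
  · exact X_prime.irreducible
  · by_cases hi : i = J a ∨ i = J b
    · simp only [μ]
      rw [if_pos hi]
      rcases hi with rfl | rfl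
      · rw [cnf_J, vanishesToOrder_one, eval_X, Pi.single_eq_of_ne hca]
      · rw [cnf_J, vanishesToOrder_one, eval_X, Pi.single_eq_of_ne hcb]
    · simp only [μ]
      rw [if_neg hi]
      exact vanishesToOrder_zero _ _
  · have h1 : ({J a, J b} : Finset (Fin k)).card = 2 :=
      card_pair fun h => hab (J.injective h)
    have h2 : ∑ i ∈ ({J a, J b} : Finset (Fin k)), μ i ≤ ∑ i, μ i :=
      sum_le_sum_of_subset (subset_univ _)
    have h3 : ∑ i ∈ ({J a, J b} : Finset (Fin k)), μ i = 2 := by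
      rw [← h1, card_eq_sum_ones]
      refine sum_congr rfl fun i hi => ?_
      simp only [mem_insert, mem_singleton] at hi
      simp only [μ]
      rw [if_pos hi]
    omega
  · apply X_sq_dvd
    intro β hβ
    have h1 := hF.2 (J a)
    have h2 := hF.2 (J b)
    rw [cnf_J, vanishes_single_iff hF.1] at h1 h2
    have h3 := h1 β hβ
    have h4 := h2 β hβ
    have h5 : ∑ i : Fin 3, β i = d := degree_of_hom hF.1 hβ
    have h6 : ∑ i : Fin 3, β i = β a + β b + β c := by
      rw [Fin.sum_univ_three]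
      fin_cases a <;> fin_cases b <;> fin_cases c <;> simp at hab hca hcb ⊢ <;> omega
    omega

/-- A member with a double curve through a point is not isolated there. -/
theorem not_isolated_of_sq {F A G : MvPolynomial (Fin 3) ℂ} (hF : F = A ^ 2 * G)
    (hA : Irreducible A) {a : ℕ} (hAa : A.IsHomogeneous a) {q : Fin 3 → ℂ} (hq : q 0 ≠ 0)
    (hAq : eval q A = 0) : ¬ IsolatedAt F q := by
  rintro ⟨e, g, -, hgq, hg⟩
  have ha := ne_unit_of_hom hA hAa
  -- the zeros of `A`
  have hz : ∀ x : Fin 3 → ℂ, eval x A = 0 → eval x g ≠ 0 → ∃ t : ℂ, x = t • q := by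
    intro x hx hgx
    refine hg x (fun j => ?_) hgx
    rw [hF, pderiv_mul, pow_two, pderiv_mul]
    simp only [map_add, map_mul, hx]
    ring
  let L : Fin 3 → MvPolynomial (Fin 3) ℂ := fun j => C (q 0) * X j - C (q j) * X 0
  have hdvd : ∀ j, A ∣ L j := by
    intro j
    have h1 : g * L j ∈ vanishingIdeal ℂ (zeroLocus ℂ (Ideal.span {A})) := by
      rw [mem_vanishingIdeal_iff]
      intro x hx
      have hAx : eval x A = 0 := (mem_zeroLocus_iff.1 hx) A (Ideal.subset_span rfl)
      have h2 : eval x (g * L j) = 0 := by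
        rw [map_mul]
        by_cases h0 : eval x g = 0
        · rw [h0, zero_mul]
        · obtain ⟨t, rfl⟩ := hz x hAx h0
          have : eval (t • q) (L j) = 0 := by
            simp only [L, map_sub, map_mul, eval_C, eval_X, Pi.smul_apply, smul_eq_mul]
            ring
          rw [this, mul_zero]
      exact h2
    rw [vanishingIdeal_zeroLocus_eq_radical] at h1
    obtain ⟨N, hN⟩ := h1
    rw [Ideal.mem_span_singleton] at hN
    have h2 := hA.prime.dvd_of_dvd_pow hN
    rcases hA.prime.dvd_or_dvd h2 with h3 | h3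
    · exfalso
      obtain ⟨D, hD⟩ := h3
      apply hgq
      rw [hD, map_mul, hAq, zero_mul]
    · exact h3
  have hne : ∀ j : Fin 3, j ≠ 0 → L j ≠ 0 := by
    intro j hj h0
    have h1 := congrArg (eval (Pi.single j 1 : Fin 3 → ℂ)) h0
    simp only [L, map_sub, map_mul, eval_C, eval_X, map_zero, Pi.single_eq_same,
      Pi.single_eq_of_ne (Ne.symm hj), mul_zero, sub_zero, mul_one] at h1
    exact hq h1
  have hdeg : ∀ j l : Fin 3, j ≠ 0 → l ≠ 0 → l ≠ j → degreeOf l A = 0 := by
    intro j l hj hl hlj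
    obtain ⟨D, hD⟩ := hdvd j
    have hD0 : D ≠ 0 := by
      rintro rfl
      rw [mul_zero] at hD
      exact hne j hj hD
    have h1 := degreeOf_mul_eq (n := l) hA.ne_zero hD0
    rw [← hD] at h1
    have h2 : degreeOf l (L j) = 0 := by
      rw [← Nat.le_zero]
      have h3 : degreeOf l (L j) ≤ max (degreeOf l (C (q 0) * X j)) (degreeOf l (C (q j) * X 0)) :=
        degreeOf_sub_le _ _ _
      refine h3.trans (max_le ?_ ?_)
      · refine (degreeOf_C_mul_le _ _ _).trans ?_
        rw [degreeOf_X_of_ne hlj]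
      · refine (degreeOf_C_mul_le _ _ _).trans ?_
        rw [degreeOf_X_of_ne hl]
    omega
  have h1 := hdeg 1 2 (by decide) (by decide) (by decide)
  have h2 := hdeg 2 1 (by decide) (by decide) (by decide)
  have h3 : X 0 ∣ A := by
    rw [X_dvd_iff']
    intro β hβ h0
    have h4 := degree_of_hom hAa hβ
    rw [Fin.sum_univ_three, h0] at h4
    have h5 := monomial_le_degreeOf 1 hβ
    have h6 := monomial_le_degreeOf 2 hβ
    omega
  obtain ⟨D, hD⟩ := h3.trans (hdvd 1)
  have h4 := congrArg (eval (Pi.single 1 1 : Fin 3 → ℂ)) hD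
  simp [L] at h4
  exact hq h4

/-- A common double curve through the points excludes members with isolated singularities. -/
theorem not_dbl_of_isolated {k d : ℕ} {m : Fin k → ℕ}
    (hiso : ForGeneralPoints 2 k fun p => ∃ F ∈ fatForms 2 d p m, ∀ i, IsolatedAt F (p i)) :
    ¬ ForGeneralPoints 2 k (Dbl d m) := by
  intro hD
  obtain ⟨p, ⟨⟨F, hF, hFi⟩, hDp⟩, hp0⟩ := Pool.Agent.H18.Cub.exists_of_general
    ((hiso.and hD).and (Pool.Agent.H18.Pr.general_ne_zero 2 k))
  obtain ⟨A, a, μ, hA, hAa, hAμ, hnum, hdiv⟩ := hDp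
  have ha := ne_unit_of_hom hA hAa
  obtain ⟨i, hi⟩ : ∃ i, μ i ≠ 0 := by
    by_contra hcon
    push Not at hcon
    rw [sum_eq_zero fun i _ => hcon i] at hnum
    omega
  obtain ⟨G, hG⟩ := hdiv F hF
  refine not_isolated_of_sq hG hA hAa (hp0 i) ?_ (hFi i)
  rw [← vanishesToOrder_one]
  intro β hβ
  exact hAμ i β (by omega)

end Pool.Agent.H18.Sq

end

section

/-!
# Isolated singularities and quadratic transformations of the plane
-/

namespace Pool.Agent.H18.Sq

open MvPolynomial Finset Pool.Agent.H18.Fat Pool.Agent.H18.Iso Pool.Agent.H18.Pr Pool.Agent.H18.Ub Pool.Agent.H18.Cub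

/-- Inverting the coordinates of general points. -/
theorem general_inv {r k : ℕ} {P : (Fin k → Fin (r + 1) → ℂ) → Prop}
    (h : ForGeneralPoints r k P) :
    ForGeneralPoints r k fun y => (∀ i j, y i j ≠ 0) ∧ P fun i j => (y i j)⁻¹ := by
  classical
  obtain ⟨G, hG, hGP⟩ := h
  let D : MvPolynomial (Fin k × Fin (r + 1)) ℂ := ∏ x, X x
  let g : Fin k × Fin (r + 1) → MvPolynomial (Fin k × Fin (r + 1)) ℂ := fun x =>
    ∏ x' ∈ univ.erase x, X x'
  have hD : ∀ a : Fin k × Fin (r + 1) → ℂ, eval a D = ∏ x, a x := by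
    intro a
    simp [D, map_prod]
  have hD0 : D ≠ 0 := prod_ne_zero_iff.2 fun x _ => X_ne_zero x
  obtain ⟨Q, N, hQ⟩ := clear_denom D g G
  have hQ' : ∀ a : Fin k × Fin (r + 1) → ℂ, (∀ x, a x ≠ 0) →
      eval a Q = (eval a D) ^ N * eval (fun x => (a x)⁻¹) G := by
    intro a ha
    refine hQ a _ fun x => ?_
    rw [hD, ← mul_prod_erase univ _ (mem_univ x)]
    simp only [g, map_prod, eval_X]
    field_simp [ha x]
  refine ⟨Q * D, mul_ne_zero ?_ hD0, fun y hy => ?_⟩
  · intro h0
    obtain ⟨a, ha⟩ := exists_eval_ne (mul_ne_zero hG hD0)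
    rw [map_mul, hD] at ha
    have ha' : ∀ x, a x ≠ 0 := fun x => prod_ne_zero_iff.1 (right_ne_zero_of_mul ha) x (mem_univ x)
    have h1 := hQ' (fun x => (a x)⁻¹) fun x => inv_ne_zero (ha' x)
    simp only [inv_inv] at h1
    rw [h0, map_zero, hD] at h1
    have h2 : (∏ x, (a x)⁻¹) ^ N ≠ 0 :=
      pow_ne_zero _ (prod_ne_zero_iff.2 fun x _ => inv_ne_zero (ha' x))
    exact mul_ne_zero h2 (left_ne_zero_of_mul ha) h1.symm
  · rw [map_mul] at hy
    have h1 := right_ne_zero_of_mul hy
    rw [hD] at h1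
    have h2 : ∀ x : Fin k × Fin (r + 1), y x.1 x.2 ≠ 0 := fun x =>
      prod_ne_zero_iff.1 h1 x (mem_univ x)
    have h3 := left_ne_zero_of_mul hy
    rw [hQ' _ h2] at h3
    exact ⟨fun i j => h2 (i, j), hGP (fun i j => (y i j)⁻¹) (right_ne_zero_of_mul h3)⟩

theorem glinv_exact {k : ℕ} (d : ℕ) (m : Fin k → ℕ) (i : Fin k) (n : ℕ) :
    GLinv (r := 2) (k := k) fun p => ∃ F ∈ fatForms 2 d p m, ¬ VanishesToOrder F (p i) n := by
  intro M B hMB p h
  have hBM : B * M = 1 := mul_eq_one_comm.1 hMB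
  obtain ⟨F, hF, hFn⟩ := h
  have hBp : ∀ i, B.mulVec (M.mulVec (p i)) = p i := fun i => by
    rw [Matrix.mulVec_mulVec, hBM, Matrix.one_mulVec]
  refine ⟨linSubst B F, ⟨linSubst_isHomogeneous B hF.1, fun i => ?_⟩, fun h => hFn ?_⟩
  · apply vanishes_linSubst
    rw [hBp]
    exact hF.2 i
  · have h1 := vanishes_linSubst (A := M) (q := p i) h
    rwa [linSubst_comp, hBM, linSubst_one] at h1

/-- A common double curve for the transformed system gives one for the system. -/
theorem general_dbl_step {k d d₁ : ℕ} {m m₁ : Fin k → ℕ} (J : Fin 3 ↪ Fin k)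
    (hJ : ∀ l, m (J l) ≤ d) (hd : ∑ l, m (J l) + d₁ = 2 * d)
    (hm : ∀ l, m₁ (J l) = d₁ + m (J l) - d) (hm' : ∀ i, (∀ l, J l ≠ i) → m₁ i = m i)
    (hne : generalDim 2 d m ≠ 0) (hD : ForGeneralPoints 2 k (Dbl d₁ m₁)) :
    ForGeneralPoints 2 k (Dbl d m) := by
  have h1 := general_inv (conf_of_general (r := 2) J (glinv_dbl d₁ m₁) hD)
  have h2 : ∀ l : Fin 3, ForGeneralPoints 2 k fun y => ∃ F ∈ fatForms 2 d (cnf (r := 2) J y) m,
      ¬ VanishesToOrder F (Pi.single l 1) (m (J l) + 1) := by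
    intro l
    have h3 := conf_of_general (r := 2) J (glinv_exact d m (J l) (m (J l) + 1))
      (exact_general m (J l) hne)
    refine h3.mono fun y hy => ?_
    rwa [cnf_J] at hy
  apply general_of_conf (r := 2) J (glinv_dbl d m)
  refine ((h1.and (h2 0)).and ((h2 1).and (h2 2))).mono fun y hy => ?_
  obtain ⟨⟨⟨hy0, hyD⟩, e0⟩, e1, e2⟩ := hy
  refine dbl_step J hJ hd hm hm' hy0 (fun l => ?_) hyD
  fin_cases l
  · exact e0
  · exact e1
  · exact e2

theorem choose_two (n : ℕ) : 2 * ((n.choose 2 : ℕ) : ℤ) = n * (n - 1) := by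
  induction n with
  | zero => simp
  | succ n ih =>
    rw [Nat.choose_succ_succ' n 1, Nat.choose_one_right]
    push_cast
    linear_combination ih

theorem sum_splitZ {k : ℕ} (J : Fin 3 ↪ Fin k) (f : Fin k → ℤ) :
    ∑ i, f i = ∑ l : Fin 3, f (J l) + ∑ i ∈ univ.filter (fun i => ∀ l, J l ≠ i), f i := by
  classical
  rw [← sum_filter_add_sum_filter_not univ (fun i => ∀ l, J l ≠ i), add_comm]
  congr 1
  have h : (univ.filter fun i => ¬ ∀ l, J l ≠ i) = univ.map J := by
    ext i
    simp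
  rw [h, sum_map]

/-- The virtual number of forms. -/
def virt {k : ℕ} (d : ℕ) (m : Fin k → ℕ) : ℤ :=
  ((d + 2).choose 2 : ℤ) - ∑ i, ((m i + 2 - 1).choose 2 : ℤ)

theorem virt_step {k d d₁ : ℕ} {m m₁ : Fin k → ℕ} (J : Fin 3 ↪ Fin k)
    (hd : ∑ l, m (J l) + d₁ = 2 * d) (hm : ∀ l, m₁ (J l) = d₁ + m (J l) - d)
    (hm' : ∀ i, (∀ l, J l ≠ i) → m₁ i = m i)
    (hpair : ∀ a b : Fin 3, a ≠ b → m (J a) + m (J b) ≤ d + 1) : virt d₁ m₁ = virt d m := by
  have h1 : ∑ i ∈ univ.filter (fun i => ∀ l, J l ≠ i), ((m₁ i + 2 - 1).choose 2 : ℤ) =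
      ∑ i ∈ univ.filter (fun i => ∀ l, J l ≠ i), ((m i + 2 - 1).choose 2 : ℤ) :=
    sum_congr rfl fun i hi => by rw [hm' i (mem_filter.1 hi).2]
  have hd3 : m (J 0) + m (J 1) + m (J 2) + d₁ = 2 * d := by
    rw [Fin.sum_univ_three] at hd
    exact hd
  have p01 := hpair 0 1 (by decide)
  have p02 := hpair 0 2 (by decide)
  have p12 := hpair 1 2 (by decide)
  have key : ∀ (t : ℤ) (n : ℕ), -1 ≤ t → ((n : ℤ) = t ∨ (n = 0 ∧ t = -1)) →
      2 * (((n + 2 - 1).choose 2 : ℕ) : ℤ) = (t + 1) * t := by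
    intro t n _ hn
    rw [choose_two]
    have e : n + 2 - 1 = n + 1 := by omega
    rw [e]
    push_cast
    rcases hn with hn | ⟨hn, ht⟩
    · rw [hn]
      ring
    · rw [hn, ht]
      norm_num
  have c0 := key ((d : ℤ) - m (J 1) - m (J 2)) (m₁ (J 0)) (by omega) (by
    have := hm 0
    omega)
  have c1 := key ((d : ℤ) - m (J 0) - m (J 2)) (m₁ (J 1)) (by omega) (by
    have := hm 1
    omega)
  have c2 := key ((d : ℤ) - m (J 0) - m (J 1)) (m₁ (J 2)) (by omega) (by
    have := hm 2
    omega)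
  have b0 := key (m (J 0)) (m (J 0)) (by omega) (Or.inl rfl)
  have b1 := key (m (J 1)) (m (J 1)) (by omega) (Or.inl rfl)
  have b2 := key (m (J 2)) (m (J 2)) (by omega) (Or.inl rfl)
  have e1 := choose_two (d₁ + 2)
  have e2 := choose_two (d + 2)
  have hd1 : (d₁ : ℤ) = 2 * d - m (J 0) - m (J 1) - m (J 2) := by omega
  unfold virt
  rw [sum_splitZ J fun i => ((m₁ i + 2 - 1).choose 2 : ℤ),
    sum_splitZ J fun i => ((m i + 2 - 1).choose 2 : ℤ), h1, Fin.sum_univ_three, Fin.sum_univ_three]
  push_cast at e1 e2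
  rw [hd1] at e1
  linarith [c0, c1, c2, b0, b1, b2, e1, e2]

/-- The general dimension is invariant. -/
theorem generalDim_step {k d d' : ℕ} {m m' : Fin k → ℕ} (h : Cremona 2 d m d' m') :
    generalDim 2 d' m' = generalDim 2 d m := by
  have h1 := (h.general (generalDim 2 d m)).1 (generalDim_spec 2 d m)
  obtain ⟨p, hp1, hp2⟩ := exists_of_general (h1.and (generalDim_spec 2 d' m'))
  exact hp2.symm.trans hp1

/-- Without a common double curve the virtual number does not change. -/
theorem virt_eq {k d d' : ℕ} {m m' : Fin k → ℕ} (h : Cremona 2 d m d' m')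
    (hne : generalDim 2 d m ≠ 0) (hD : ¬ ForGeneralPoints 2 k (Dbl d m)) :
    virt d' m' = virt d m := by
  induction h with
  | refl d m => rfl
  | @step d d₁ d' m m₁ m' J hJ hd hm hm' h ih =>
    have hpair : ∀ a b : Fin 3, a ≠ b → m (J a) + m (J b) ≤ d + 1 := by
      intro a b hab
      by_contra hcon
      apply hD
      apply general_of_conf (r := 2) J (glinv_dbl d m)
      refine ⟨1, one_ne_zero, fun y _ => dbl_pair J a b hab (by omega) y⟩
    have h1 := generalDim_step (Cremona.step J hJ hd hm hm' (Cremona.refl d₁ m₁))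
    rw [ih (by rwa [h1]) fun hD' => hD (general_dbl_step J hJ hd hm hm' hne hD'),
      virt_step J hd hm hm' hpair]

/-- If for general points some member has isolated singularities at all the points then the
virtual number does not change under quadratic transformations. -/
theorem virt_eq_of_isolated {k d d' : ℕ} {m m' : Fin k → ℕ} (h : Cremona 2 d m d' m')
    (hiso : ForGeneralPoints 2 k fun p => ∃ F ∈ fatForms 2 d p m, ∀ i, IsolatedAt F (p i)) :
    virt d' m' = virt d m := by
  rcases Nat.eq_zero_or_pos k with hk | hk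
  · subst hk
    cases h with
    | refl => rfl
    | step J => exact (J 0).elim0
  · refine virt_eq h (fun h0 => ?_) (not_dbl_of_isolated hiso)
    obtain ⟨p, ⟨⟨F, hF, hFi⟩, hp⟩, hp0⟩ := exists_of_general
      ((hiso.and (generalDim_spec 2 d m)).and (general_ne_zero 2 k))
    rw [h0, Submodule.finrank_eq_zero] at hp
    rw [hp, Submodule.mem_bot] at hF
    subst hF
    set i : Fin k := ⟨0, hk⟩
    obtain ⟨e, g, -, hgq, hg⟩ := hFi i
    let L : MvPolynomial (Fin 3) ℂ := C (p i 0) * X 1 - C (p i 1) * X 0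
    have hL : L ≠ 0 := by
      intro h1
      have h2 := congrArg (eval (Pi.single 1 1 : Fin 3 → ℂ)) h1
      simp [L] at h2
      exact hp0 i h2
    have hg0 : g ≠ 0 := by
      rintro rfl
      exact hgq (map_zero _)
    obtain ⟨x, hx⟩ := exists_eval_ne (mul_ne_zero hg0 hL)
    rw [map_mul] at hx
    obtain ⟨t, rfl⟩ := hg x (fun j => by rw [map_zero, map_zero]) (left_ne_zero_of_mul hx)
    apply right_ne_zero_of_mul hx
    simp only [L, map_sub, map_mul, eval_C, eval_X, Pi.smul_apply, smul_eq_mul]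
    ring

end Pool.Agent.H18.Sq

end

section

/-!
# Standard plane systems with isolated singularities
-/

namespace Pool.Agent.H18.Sq

open MvPolynomial Finset Pool.Agent.H18.Fat Pool.Agent.H18.Iso Pool.Agent.H18.Pr Pool.Agent.H18.Ub Pool.Agent.H18.Cub

theorem generalDim_le {r d k : ℕ} (m : Fin k → ℕ) (p : Fin k → Fin (r + 1) → ℂ) :
    generalDim r d m ≤ Module.finrank ℂ (fatForms r d p m) := Nat.sInf_le ⟨p, rfl⟩

/-- Effective systems: `m_i ≤ d` and the sum of three multiplicities is at most `2 d`. -/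
theorem bounds_of_ne {k d : ℕ} {m : Fin k → ℕ} (hne : generalDim 2 d m ≠ 0) (J : Fin 3 ↪ Fin k) :
    (∀ l, m (J l) ≤ d) ∧ ∑ l, m (J l) ≤ 2 * d := by
  have h1 := generalDim_le m (cnf (r := 2) J fun _ _ => 0) (d := d)
  have h2 : fatForms 2 d (cnf (r := 2) J fun _ _ => 0) m ≠ ⊥ := by
    intro h0
    rw [h0, finrank_bot] at h1
    omega
  obtain ⟨F, hF, hF0⟩ := Submodule.exists_mem_ne_zero_of_ne_bot h2
  obtain ⟨β, hβ⟩ := support_nonempty.2 hF0
  have h3 : ∀ l : Fin 3, β l + m (J l) ≤ d := by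
    intro l
    have h4 := hF.2 (J l)
    rw [cnf_J, vanishes_single_iff hF.1] at h4
    exact h4 β hβ
  have h5 : ∑ i : Fin 3, β i = d := degree_of_hom hF.1 hβ
  rw [Fin.sum_univ_three] at h5 ⊢
  have a0 := h3 0
  have a1 := h3 1
  have a2 := h3 2
  refine ⟨fun l => ?_, by omega⟩
  have := h3 l
  omega

/-- Reduction to the standard form. -/
theorem exists_standard {k : ℕ} (hk : 3 ≤ k) : ∀ (d : ℕ) (m : Fin k → ℕ),
    generalDim 2 d m ≠ 0 → ∃ (d' : ℕ) (m' : Fin k → ℕ), Cremona 2 d m d' m' ∧ d' ≤ d ∧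
      (∀ i, m' i ≤ m i) ∧ ∀ S : Finset (Fin k), S.card ≤ 3 → ∑ i ∈ S, m' i ≤ d' := by
  classical
  intro d
  induction d using Nat.strong_induction_on with
  | _ d IH =>
  intro m hne
  by_cases hS : ∀ S : Finset (Fin k), S.card ≤ 3 → ∑ i ∈ S, m i ≤ d
  · exact ⟨d, m, Cremona.refl d m, le_rfl, fun i => le_rfl, hS⟩
  push Not at hS
  obtain ⟨S, hS3, hSd⟩ := hS
  obtain ⟨T, hST, hT⟩ := Finset.exists_superset_card_eq hS3 (by rwa [Fintype.card_fin])
  let J : Fin 3 ↪ Fin k := (T.orderEmbOfFin hT).toEmbedding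
  have hJT : univ.map J = T := by
    ext i
    rw [mem_map]
    constructor
    · rintro ⟨l, -, rfl⟩
      exact T.orderEmbOfFin_mem hT l
    · intro hi
      have h1 : i ∈ Set.range (T.orderEmbOfFin hT) := by
        rw [T.range_orderEmbOfFin hT]
        exact hi
      obtain ⟨l, hl⟩ := h1
      exact ⟨l, mem_univ _, hl⟩
  have hsum : ∑ l, m (J l) = ∑ i ∈ T, m i := by
    rw [← hJT, sum_map]
  have hgt : d < ∑ l, m (J l) := by
    rw [hsum]
    exact lt_of_lt_of_le hSd (sum_le_sum_of_subset hST)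
  obtain ⟨hJ, hle⟩ := bounds_of_ne hne J
  obtain ⟨d₁, hd₁⟩ := Nat.exists_eq_add_of_le hle
  let m₁ : Fin k → ℕ := fun i => if ∃ l, J l = i then d₁ + m i - d else m i
  have hm : ∀ l, m₁ (J l) = d₁ + m (J l) - d := fun l => if_pos ⟨l, rfl⟩
  have hm' : ∀ i, (∀ l, J l ≠ i) → m₁ i = m i := fun i hi => if_neg (by
    rintro ⟨l, hl⟩
    exact hi l hl)
  have hstep := generalDim_step (Cremona.step J hJ hd₁.symm hm hm' (Cremona.refl d₁ m₁))
  obtain ⟨d', m', hcr, hdd, hle', hstd⟩ := IH d₁ (by omega) m₁ (by rwa [hstep])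
  refine ⟨d', m', Cremona.step J hJ hd₁.symm hm hm' hcr, by omega,
    fun i => (hle' i).trans ?_, hstd⟩
  simp only [m₁]
  split_ifs
  · omega
  · exact le_rfl

/-- Systems with a member with isolated singularities are effective. -/
theorem ne_zero_of_isolated {k d : ℕ} (hk : 1 ≤ k) {m : Fin k → ℕ}
    (hiso : ForGeneralPoints 2 k fun p => ∃ F ∈ fatForms 2 d p m, ∀ i, IsolatedAt F (p i)) :
    generalDim 2 d m ≠ 0 := by
  intro h0
  obtain ⟨p, ⟨⟨F, hF, hFi⟩, hp⟩, hp0⟩ := exists_of_general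
    ((hiso.and (generalDim_spec 2 d m)).and (general_ne_zero 2 k))
  rw [h0, Submodule.finrank_eq_zero] at hp
  rw [hp, Submodule.mem_bot] at hF
  subst hF
  set i : Fin k := ⟨0, hk⟩
  obtain ⟨e, g, -, hgq, hg⟩ := hFi i
  let L : MvPolynomial (Fin 3) ℂ := C (p i 0) * X 1 - C (p i 1) * X 0
  have hL : L ≠ 0 := by
    intro h1
    have h2 := congrArg (eval (Pi.single 1 1 : Fin 3 → ℂ)) h1
    simp [L] at h2
    exact hp0 i h2
  have hg0 : g ≠ 0 := by
    rintro rfl
    exact hgq (map_zero _)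
  obtain ⟨x, hx⟩ := exists_eval_ne (mul_ne_zero hg0 hL)
  rw [map_mul] at hx
  obtain ⟨t, rfl⟩ := hg x (fun j => by rw [map_zero, map_zero]) (left_ne_zero_of_mul hx)
  apply right_ne_zero_of_mul hx
  simp only [L, map_sub, map_mul, eval_C, eval_X, Pi.smul_apply, smul_eq_mul]
  ring

/-- The conclusion for `(d; m)` from the one for `(d'; m')`. -/
theorem maximal_of_cremona {k d d' : ℕ} {m m' : Fin k → ℕ} (hcr : Cremona 2 d m d' m')
    (hiso : ForGeneralPoints 2 k fun p => ∃ F ∈ fatForms 2 d p m, ∀ i, IsolatedAt F (p i))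
    (h : ForGeneralPoints 2 k fun p => ImposesMaximalConditions 2 d' p m') :
    ForGeneralPoints 2 k fun p => ImposesMaximalConditions 2 d p m := by
  have hv := virt_eq_of_isolated hcr hiso
  unfold virt at hv
  refine (cremona_final (by norm_num) hcr h).mono fun p hp => ?_
  unfold ImposesMaximalConditions
  rw [hp.1, hv]

end Pool.Agent.H18.Sq

end
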