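import Pool.Agent.H94.LP3.H74.BP.Red
import Pool.Agent.H94.LP3.M62
import Pool.Agent.H94.LP3.M81

/-! The parts of this file: H18.Sq.Fin8, H18.Sq.Big. -/

section

/-!
# Plane systems with at most nine large multiplicities
-/

namespace Pool.Agent.H18.Sq

open MvPolynomial Finset Pool.Agent.H18.Fat Pool.Agent.H18.Iso Pool.Agent.H18.Pr Pool.Agent.H18.Ub Pool.Agent.H18.Cub

/-- Either non-special or equivalent to a system of small degree (or, for nine large
multiplicities, of small anticanonical degree). -/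
theorem nine : ∃ K E : ℕ, ∀ M : ℕ, 1 ≤ M → ∀ (k d : ℕ) (m : Fin k → ℕ) (J : Finset (Fin k)),
    3 ≤ k → J.card ≤ 9 → (∀ i, i ∉ J → m i ≤ M) →
    (ForGeneralPoints 2 k fun p => ∃ F ∈ fatForms 2 d p m, ∀ i, IsolatedAt F (p i)) →
    (ForGeneralPoints 2 k fun p => ImposesMaximalConditions 2 d p m) ∨
      ∃ (d' : ℕ) (m' : Fin k → ℕ), Cremona 2 d m d' m' ∧ d' ≤ d ∧ (∀ i, m' i ≤ m i) ∧
        (∀ S : Finset (Fin k), S.card ≤ 3 → ∑ i ∈ S, m' i ≤ d') ∧
        (d' < K * M ^ E ∨ (J.card = 9 ∧ 3 * d' < ∑ i ∈ J, m' i + K * M ^ E)) := by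
  obtain ⟨K, E, H⟩ := Pool.Agent.H18.Ta.plane
  refine ⟨K, E, fun M hM k d m J hk hJ hsmall hiso => ?_⟩
  obtain ⟨d', m', hcr, hdd, hle, hstd⟩ :=
    exists_standard hk d m (ne_zero_of_isolated (by omega) hiso)
  by_cases hd' : K * M ^ E ≤ d' ∧ (J.card = 9 → ∑ i ∈ J, m' i + K * M ^ E ≤ 3 * d')
  · left
    exact maximal_of_cremona hcr hiso (H M hM k d' m' J hJ
      (fun i hi => (hle i).trans (hsmall i hi)) hstd hd'.1 hd'.2)
  · right
    refine ⟨d', m', hcr, hdd, hle, hstd, ?_⟩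
    rw [not_and_or, Classical.not_imp] at hd'
    rcases hd' with h | ⟨h1, h2⟩
    · exact Or.inl (by omega)
    · exact Or.inr ⟨h1, by omega⟩

theorem choose_lt (d D : ℕ) (h : d < D) : ((d + 2).choose 2 : ℤ) < ((D : ℤ) + 1) ^ 2 := by
  have h1 := choose_two (d + 2)
  push_cast at h1 ⊢
  have h2 : (d : ℤ) + 1 ≤ D := by exact_mod_cast h
  nlinarith only [h, h1]

theorem virt_le {k d : ℕ} (m : Fin k → ℕ) : virt d m ≤ ((d + 2).choose 2 : ℤ) := by
  unfold virt
  have : (0 : ℤ) ≤ ∑ i, ((m i + 2 - 1).choose 2 : ℤ) := sum_nonneg fun i _ => by positivity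
  linarith only [this]

/-- Nine multiplicities with small anticanonical degree. -/
theorem virt_nine {k d D : ℕ} (m : Fin k → ℕ) (J : Finset (Fin k)) (hJ : J.card = 9)
    (h : 3 * d < ∑ i ∈ J, m i + D) (hD : D ≤ 3 * d) :
    virt d m ≤ ((D : ℤ) + 1) * (d + 1) := by
  have h1 : virt d m ≤ ((d + 2).choose 2 : ℤ) - ∑ i ∈ J, ((m i + 2 - 1).choose 2 : ℤ) := by
    unfold virt
    have : ∑ i ∈ J, ((m i + 2 - 1).choose 2 : ℤ) ≤ ∑ i, ((m i + 2 - 1).choose 2 : ℤ) :=
      sum_le_sum_of_subset_of_nonneg (subset_univ J) fun i _ _ => by positivity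
    linarith only [this]
  have h2 : 2 * ∑ i ∈ J, ((m i + 2 - 1).choose 2 : ℤ) =
      ∑ i ∈ J, (m i : ℤ) ^ 2 + ∑ i ∈ J, (m i : ℤ) := by
    rw [mul_sum, ← sum_add_distrib]
    refine sum_congr rfl fun i _ => ?_
    rw [choose_two]
    have e : m i + 2 - 1 = m i + 1 := by omega
    rw [e]
    push_cast
    ring
  have h3 : (∑ i ∈ J, (m i : ℤ)) ^ 2 ≤ 9 * ∑ i ∈ J, (m i : ℤ) ^ 2 := by
    have := sq_sum_le_card_mul_sum_sq (s := J) (f := fun i => (m i : ℤ))
    rw [hJ] at this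
    exact_mod_cast this
  have h4 := choose_two (d + 2)
  push_cast at h4
  have h5 : 3 * (d : ℤ) < ∑ i ∈ J, (m i : ℤ) + D := by exact_mod_cast h
  have h6 : (D : ℤ) ≤ 3 * d := by exact_mod_cast hD
  set s : ℤ := ∑ i ∈ J, (m i : ℤ) with hs
  set q : ℤ := ∑ i ∈ J, (m i : ℤ) ^ 2 with hq
  have hD0 : (0 : ℤ) ≤ D := Int.natCast_nonneg _
  have hd0 : (0 : ℤ) ≤ d := Int.natCast_nonneg _
  have h7 : (3 * (d : ℤ) - D) ^ 2 ≤ s ^ 2 := by
    apply pow_le_pow_left₀ (by linarith) (by linarith only [h])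
  nlinarith only [h, h1, h4, h2, h3, h7, hD0, hd0, mul_nonneg hD0 hd0]

/-- Systems of large virtual dimension. -/
theorem nine_virt : ∃ K E : ℕ, ∀ M : ℕ, 1 ≤ M → ∀ (k d : ℕ) (m : Fin k → ℕ)
    (J : Finset (Fin k)), 3 ≤ k → J.card ≤ 9 → (∀ i, i ∉ J → m i ≤ M) →
    (ForGeneralPoints 2 k fun p => ∃ F ∈ fatForms 2 d p m, ∀ i, IsolatedAt F (p i)) →
    ((ForGeneralPoints 2 k fun p => ImposesMaximalConditions 2 d p m) ∨
      ∃ (d' : ℕ) (m' : Fin k → ℕ), Cremona 2 d m d' m' ∧ d' ≤ d ∧ (∀ i, m' i ≤ m i) ∧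
        (∀ S : Finset (Fin k), S.card ≤ 3 → ∑ i ∈ S, m' i ≤ d') ∧
        (d' < K * M ^ E ∨ (J.card = 9 ∧ 3 * d' < ∑ i ∈ J, m' i + K * M ^ E))) ∧
    (J.card ≤ 8 ∧ ((K * M ^ E : ℕ) : ℤ) ≤ virt d m ∨
        ((K * M ^ E * (d + 1) : ℕ) : ℤ) ≤ virt d m →
      ForGeneralPoints 2 k fun p => ImposesMaximalConditions 2 d p m) := by
  obtain ⟨K, E, H⟩ := nine
  refine ⟨(K + 2) ^ 2, 2 * E, fun M hM k d m J hk hJ hsmall hiso => ?_⟩
  set D := K * M ^ E with hD
  have hKM : D + 2 ≤ (K + 2) * M ^ E := by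
    have := Nat.one_le_pow E M hM
    rw [add_mul]
    omega
  have h3 : (D + 2) ^ 2 ≤ (K + 2) ^ 2 * M ^ (2 * E) := by
    calc (D + 2) ^ 2 ≤ ((K + 2) * M ^ E) ^ 2 := Nat.pow_le_pow_left hKM 2
      _ = _ := by rw [mul_pow, ← pow_mul, mul_comm E 2]
  generalize (K + 2) ^ 2 * M ^ (2 * E) = D' at h3
  have h30 : D ≤ D' := by nlinarith only [h3]
  have h3Z : ((D : ℤ) + 2) ^ 2 ≤ D' := by exact_mod_cast h3
  have hmain := H M hM k d m J hk hJ hsmall hiso
  refine ⟨?_, fun hv => ?_⟩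
  · rcases hmain with h | ⟨d', m', h1, h2, h4, h5, h6⟩
    · exact Or.inl h
    · refine Or.inr ⟨d', m', h1, h2, h4, h5, ?_⟩
      rcases h6 with h6 | ⟨h6, h7⟩
      · exact Or.inl (lt_of_lt_of_le h6 h30)
      · exact Or.inr ⟨h6, by omega⟩
  · rcases hmain with h | ⟨d', m', hcr, hdd, -, -, h5⟩
    · exact h
    · exfalso
      have hvv := virt_eq_of_isolated hcr hiso
      have hDv : ((D' : ℕ) : ℤ) ≤ virt d m := by
        rcases hv with ⟨-, hv⟩ | hv
        · exact hv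
        · refine le_trans ?_ hv
          exact_mod_cast Nat.le_mul_of_pos_right D' (Nat.succ_pos d)
      have hD0 : (0 : ℤ) ≤ D := Int.natCast_nonneg _
      have hsmallcase : ¬ d' < D := by
        intro hd'
        have h1 := choose_lt d' D hd'
        have h2 := virt_le (d := d') m'
        rw [hvv] at h2
        nlinarith only [h3, hDv, hd', h1, h2]
      rcases h5 with h5 | ⟨h5, h6⟩
      · exact hsmallcase h5
      · rcases hv with ⟨h8, -⟩ | hv
        · omega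
        · have h7 : virt d' m' ≤ ((D : ℤ) + 1) * (d' + 1) :=
            virt_nine m' J h5 h6 (by omega)
          rw [hvv] at h7
          have h8 : ((D : ℤ) + 1) * (d' + 1) ≤ ((D : ℤ) + 1) * (d + 1) := by
            have : (d' : ℤ) ≤ d := by exact_mod_cast hdd
            nlinarith only [hdd]
          have h9 : ((D : ℤ) + 2) ^ 2 * (d + 1) ≤ (D' : ℤ) * (d + 1) := by
            have : (0 : ℤ) ≤ (d : ℤ) + 1 := by positivity
            nlinarith only [h3]
          push_cast at hv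
          have h10 : ((D : ℤ) + 1) * (d + 1) < ((D : ℤ) + 2) ^ 2 * (d + 1) := by
            have : (0 : ℤ) < (d : ℤ) + 1 := by positivity
            nlinarith only [h3, hDv, h7, h9, hv, hdd]
          linarith only [h7, h8, h9, hv, h10]

end Pool.Agent.H18.Sq

end

section

/-!
# Plane systems of large virtual dimension with at most nine multiplicities of the order of `d`
-/

namespace Pool.Agent.H18.Sq

open MvPolynomial Finset Pool.Agent.H18.Fat Pool.Agent.H18.Iso Pool.Agent.H18.Pr Pool.Agent.H18.Ub Pool.Agent.H18.Cub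

/-- Parameter count. -/
theorem generalDim_ge {k d : ℕ} (m : Fin k → ℕ) : virt d m ≤ (generalDim 2 d m : ℤ) := by
  obtain ⟨p, hp, hp0⟩ := exists_of_general ((generalDim_spec 2 d m).and (general_ne_zero 2 k))
  have h1 := finrank_fatForms_ge (d := d) (r := 2) (by norm_num) hp0 m
  rw [hp] at h1
  exact h1

theorem generalDim_mono {k d : ℕ} {m m' : Fin k → ℕ} (h : ∀ i, m' i ≤ m i) :
    generalDim 2 d m ≤ generalDim 2 d m' := by
  obtain ⟨p, hp1, hp2⟩ := exists_of_general ((generalDim_spec 2 d m).and (generalDim_spec 2 d m'))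
  rw [← hp1, ← hp2]
  apply Submodule.finrank_mono
  intro F hF
  exact ⟨hF.1, fun i β hβ => hF.2 i β (lt_of_lt_of_le hβ (h i))⟩

theorem virt_sub {k d j : ℕ} (m : Fin k → ℕ) (hj : j ≤ d) :
    virt d m ≤ virt j m + ((d : ℤ) - j) * (d + 2) := by
  have h1 := choose_two (d + 2)
  have h2 := choose_two (j + 2)
  push_cast at h1 h2
  have h3 : (j : ℤ) ≤ d := by exact_mod_cast hj
  have h4 : (0 : ℤ) ≤ j := Int.natCast_nonneg _
  unfold virt
  nlinarith only [hj, h1, h2, mul_nonneg (sub_nonneg.2 h3) h4]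

/-- For systems with `vdim ≥ δ d²` only the multiplicities of the order of `d` matter. -/
theorem big_virt (δ : ℝ) (hδ : 0 < δ) : ∃ (ε : ℝ) (d₀ : ℕ), 0 < ε ∧
    ∀ (k d : ℕ) (m : Fin k → ℕ), 3 ≤ k → d₀ ≤ d → δ * d ^ 2 ≤ (virt d m : ℝ) →
    {i | ε * d < (m i : ℝ)}.ncard ≤ 9 →
    (ForGeneralPoints 2 k fun p => ∃ F ∈ fatForms 2 d p m, ∀ i, IsolatedAt F (p i)) →
    ForGeneralPoints 2 k fun p => ImposesMaximalConditions 2 d p m := by
  classical
  obtain ⟨K, E, hK⟩ := nine_virt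
  set η : ℝ := min (δ / 4) (1 / 2) with hη
  have hη0 : 0 < η := lt_min (by positivity) (by norm_num)
  have hη1 : η ≤ 1 / 2 := min_le_right _ _
  have hηδ : η ≤ δ / 4 := min_le_left _ _
  obtain ⟨d₁, hd₁⟩ := Pool.Agent.H74.BP.reduction 2 1 le_rfl le_rfl η hη0
  obtain ⟨d₂, hd₂⟩ := exists_nat_ge (8 / δ + 2 * K / δ + 1)
  refine ⟨η / 2, d₁ + d₂, by positivity, fun k d m hk hd hv hcard hiso => ?_⟩
  have hdd : (8 / δ + 2 * K / δ + 1 : ℝ) ≤ d := hd₂.trans (by
    exact_mod_cast (by omega : d₂ ≤ d))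
  have hK0 : (0 : ℝ) ≤ K := Nat.cast_nonneg K
  have hd8 : 8 / δ < (d : ℝ) := by
    have : (0 : ℝ) ≤ 2 * K / δ := by positivity
    linarith only [hη0, hη1, hdd, this]
  have hdK : 2 * K / δ ≤ (d : ℝ) := by
    have : (0 : ℝ) ≤ 8 / δ := by positivity
    linarith only [hη0, hη1, hdd, this]
  have hd1 : (1 : ℝ) ≤ d := by
    have : (0 : ℝ) ≤ 8 / δ := by positivity
    have : (0 : ℝ) ≤ 2 * K / δ := by positivity
    linarith
  rw [div_lt_iff₀ hδ] at hd8
  rw [div_le_iff₀ hδ] at hdK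
  set J := univ.filter fun i : Fin k => η / 2 * d < (m i : ℝ) with hJdef
  have hJ : ∀ i, i ∈ J ↔ η / 2 * d < (m i : ℝ) := by
    intro i
    rw [hJdef, mem_filter]
    exact ⟨fun h => h.2, fun h => ⟨mem_univ i, h⟩⟩
  have hJset : {i : Fin k | η / 2 * d < (m i : ℝ)} = (J : Set (Fin k)) := by
    ext i
    exact (hJ i).symm
  rw [hJset, Set.ncard_coe_finset] at hcard
  -- effective in a smaller degree
  set j : ℕ := ⌊(1 - η) * d⌋₊ with hj
  have hj0 : (0 : ℝ) ≤ (1 - η) * d := by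
    have : (0 : ℝ) ≤ 1 - η := by linarith only [hη0, hη1]
    positivity
  have hj1 : (j : ℝ) ≤ (1 - η) * d := Nat.floor_le hj0
  have hj2 : (1 - η) * d < (j : ℝ) + 1 := Nat.lt_floor_add_one _
  have hjd : j ≤ d := by
    have : (j : ℝ) ≤ d := hj1.trans (by nlinarith only [hη0])
    exact_mod_cast this
  have hvj : 0 < virt j m := by
    have h1 : ((virt d m : ℤ) : ℝ) ≤ (virt j m : ℝ) + ((d : ℝ) - j) * (d + 2) := by
      exact_mod_cast virt_sub m hjd
    have h2 : ((d : ℝ) - j) * (d + 2) < δ * d ^ 2 := by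
      have h3 : (d : ℝ) - j ≤ η * d + 1 := by linarith only [hj2]
      have h4 : ((d : ℝ) - j) * (d + 2) ≤ (η * d + 1) * (d + 2) :=
        mul_le_mul_of_nonneg_right h3 (by positivity)
      have h5 : (η * d + 1) * (d + 2) ≤ δ / 4 * d ^ 2 + 4 * d := by
        have h6 : η * (d : ℝ) ^ 2 ≤ δ / 4 * d ^ 2 := mul_le_mul_of_nonneg_right hηδ (by positivity)
        have h7 : η * (d : ℝ) ≤ 1 / 2 * d := mul_le_mul_of_nonneg_right hη1 (by positivity)
        nlinarith only [hd1, h6, h7]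
      have h6 : 4 * (d : ℝ) < δ / 2 * d ^ 2 := by nlinarith only [hδ, hη0, hd8, hη1]
      nlinarith only [hη0, hη1, hd1, h4, h5, h6]
    have h3 : (0 : ℝ) < (virt j m : ℝ) := by linarith only [hv, h1, h2]
    exact_mod_cast h3
  have heff : 0 < generalDim 2 j fun i => if 1 < m i then m i else 0 := by
    have h1 := generalDim_ge (d := j) m
    have h2 : generalDim 2 j m ≤ generalDim 2 j fun i => if 1 < m i then m i else 0 :=
      generalDim_mono fun i => by
        split_ifs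
        · exact le_rfl
        · exact Nat.zero_le _
    have h3 : (0 : ℤ) < (generalDim 2 j m : ℤ) := by linarith only [hvj, h1]
    have h4 : 0 < generalDim 2 j m := by exact_mod_cast h3
    omega
  obtain ⟨-, -, hred⟩ := hd₁ k d m J (by omega) hJ ⟨j, hj1, heff⟩
  apply hred
  have hle : ∀ i, (if i ∈ J then m i else 0) ≤ m i := fun i => by
    split_ifs
    · exact le_rfl
    · exact Nat.zero_le _
  refine (hK 1 le_rfl k d (fun i => if i ∈ J then m i else 0) J hk hcard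
    (fun i hi => by rw [if_neg hi]; exact Nat.zero_le _) ?_).2 (Or.inr ?_)
  · refine hiso.mono fun p hp => ?_
    obtain ⟨F, hF, hFi⟩ := hp
    exact ⟨F, ⟨hF.1, fun i β hβ => hF.2 i β (lt_of_lt_of_le hβ (hle i))⟩, hFi⟩
  · have h1 : virt d m ≤ virt d fun i => if i ∈ J then m i else 0 := by
      unfold virt
      have : ∑ i, (((if i ∈ J then m i else 0) + 2 - 1).choose 2 : ℤ) ≤
          ∑ i, ((m i + 2 - 1).choose 2 : ℤ) := by
        refine sum_le_sum fun i _ => ?_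
        exact_mod_cast Nat.choose_le_choose 2 (by have := hle i; omega)
      linarith only [this]
    refine le_trans ?_ h1
    have h2 : (((K * 1 ^ E * (d + 1) : ℕ) : ℤ) : ℝ) ≤ ((virt d m : ℤ) : ℝ) := by
      refine le_trans ?_ hv
      rw [one_pow, mul_one]
      push_cast
      have h3 : (K : ℝ) * (d + 1) ≤ K * (2 * d) := mul_le_mul_of_nonneg_left (by linarith only [hd1]) hK0
      nlinarith only [h3, hdK]
    exact_mod_cast h2

end Pool.Agent.H18.Sq

end
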