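import Pool.Agent.H94.LP3.H18.Ua.UNumb_1
import Pool.Agent.H94.LP3.M24
import Pool.Agent.H94.LP3.M28

/-! The parts of this file: H18.Ua.UBridge, H18.Ua.UBranch. -/

section

/-!
# Module UBridge (UA): bridging along many hyperplanes
-/

namespace Pool.Agent.H18.Ua

open Finset Pool.Agent.H18.Ex Pool.Agent.H18.Cub Pool.Agent.H18.Pr

variable {Λ : Type} [Fintype Λ] [DecidableEq Λ] {n : ℕ}

omit [Fintype Λ] in
private theorem cfg_ext {c c' : Cfg Λ} (h1 : c.N = c'.N) (h2 : c.s = c'.s) (h3 : c.Φ = c'.Φ) :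
    c = c' := by
  cases c; cases c'; simp_all

omit [Fintype Λ] in
private theorem br1 (c : Cfg Λ) (y : ℕ) {l : Λ} {P T : Finset Λ} (hl : l ∉ P) (hT : T ⊆ P) :
    brT (c.upd l (c.Φ l - Multiset.replicate y (1, 1)) (c.s + y)) y P T =
      brT c y (insert l P) T := by
  have hlT : l ∉ T := fun h => hl (hT h)
  refine cfg_ext rfl ?_ ?_
  · show c.s + y + y * (P \ T).card = c.s + y * (insert l P \ T).card
    rw [insert_sdiff_of_notMem _ hlT, card_insert_of_notMem (fun h => hl (mem_sdiff.1 h).1)]
    ring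
  · funext i
    show (if i ∈ T then shf (Function.update c.Φ l _ i - Multiset.replicate y (1, 1))
      else if i ∈ P then Function.update c.Φ l _ i - Multiset.replicate y (1, 1)
      else Function.update c.Φ l _ i) = (if i ∈ T then shf (c.Φ i - Multiset.replicate y (1, 1))
      else if i ∈ insert l P then c.Φ i - Multiset.replicate y (1, 1) else c.Φ i)
    by_cases hi : i = l
    · subst hi
      rw [if_neg hlT, if_neg hl, if_neg hlT, if_pos (mem_insert_self _ _), Function.update_self]
    · rw [Function.update_of_ne hi]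
      simp only [mem_insert, hi, false_or]

omit [Fintype Λ] in
private theorem br2 (c : Cfg Λ) (y : ℕ) {l : Λ} {P T : Finset Λ} (hl : l ∉ P) (hT : T ⊆ P) :
    brT (c.upd l (shf (c.Φ l - Multiset.replicate y (1, 1))) c.s) y P T =
      brT c y (insert l P) (insert l T) := by
  have hlT : l ∉ T := fun h => hl (hT h)
  refine cfg_ext rfl ?_ ?_
  · show c.s + y * (P \ T).card = c.s + y * (insert l P \ insert l T).card
    rw [insert_sdiff_insert, sdiff_insert_of_notMem hl]
  · funext i
    show (if i ∈ T then shf (Function.update c.Φ l _ i - Multiset.replicate y (1, 1))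
      else if i ∈ P then Function.update c.Φ l _ i - Multiset.replicate y (1, 1)
      else Function.update c.Φ l _ i) =
      (if i ∈ insert l T then shf (c.Φ i - Multiset.replicate y (1, 1))
      else if i ∈ insert l P then c.Φ i - Multiset.replicate y (1, 1) else c.Φ i)
    by_cases hi : i = l
    · subst hi
      rw [if_neg hlT, if_neg hl, if_pos (mem_insert_self _ _), Function.update_self]
    · rw [Function.update_of_ne hi]
      simp only [mem_insert, hi, false_or]

omit [Fintype Λ] in
private theorem dn1 (a : Λ → ℕ) {l : Λ} {T : Finset Λ} (hl : l ∉ T) :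
    dnT T (dn l a) = dnT (insert l T) a := by
  funext i
  unfold dnT dn
  by_cases hi : i = l
  · subst hi
    rw [if_neg hl, if_pos (mem_insert_self _ _), Function.update_self]
  · rw [Function.update_of_ne hi]
    simp only [mem_insert, hi, false_or]

/-- Induction on `P` (for all states and configurations) with `bridge_cfgN`. -/
theorem bridge_multi (Y : SysN Λ n) (y : ℕ) (P : Finset Λ) : ∀ (a : Λ → ℕ) (c : Cfg Λ),
    (∀ l ∈ P, 1 ≤ a l) → (∀ l ∈ P, Multiset.replicate y (1, 1) ≤ c.Φ l) →
    (∀ T ⊆ P, Y.K (dnT T a) (brT c y P T).kinds) → Y.K a c.kinds := by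
  induction P using Finset.induction_on with
  | empty =>
    intro a c _ _ h
    have h1 := h ∅ (Finset.Subset.refl _)
    have h2 : dnT (∅ : Finset Λ) a = a := by
      funext i; unfold dnT; simp
    have h3 : brT c y ∅ ∅ = c := by
      refine cfg_ext rfl ?_ ?_
      · show c.s + y * (∅ \ ∅ : Finset Λ).card = c.s
        simp
      · funext i
        unfold brT
        simp
    rw [h2, h3] at h1
    exact h1
  | insert l P hl ih =>
    intro a c ha hc h
    have hne : ∀ i ∈ P, i ≠ l := fun i hi h' => hl (h' ▸ hi)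
    apply bridge_cfgN Y c l y (hc l (mem_insert_self _ _)) a (ha l (mem_insert_self _ _))
    · apply ih a
      · exact fun i hi => ha i (mem_insert_of_mem hi)
      · intro i hi
        show _ ≤ Function.update c.Φ l _ i
        rw [Function.update_of_ne (hne i hi)]
        exact hc i (mem_insert_of_mem hi)
      · intro T hT
        rw [br1 c y hl hT]
        exact h T (hT.trans (subset_insert _ _))
    · apply ih (dn l a)
      · intro i hi
        show 1 ≤ Function.update a l _ i
        rw [Function.update_of_ne (hne i hi)]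
        exact ha i (mem_insert_of_mem hi)
      · intro i hi
        show _ ≤ Function.update c.Φ l _ i
        rw [Function.update_of_ne (hne i hi)]
        exact hc i (mem_insert_of_mem hi)
      · intro T hT
        rw [br2 c y hl hT, dn1 a (fun h' => hl (hT h'))]
        exact h _ (insert_subset_insert _ hT)

private theorem mem_shf {x : ℕ × ℕ} {S : Multiset (ℕ × ℕ)} (hx : x ∈ shf S) :
    ∃ y ∈ S, x = (y.1 - 1, y.2) ∧ y.2 ≤ y.1 - 1 := by
  unfold shf at hx
  rw [Multiset.mem_filter, Multiset.mem_map] at hx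
  obtain ⟨⟨y, hy, rfl⟩, h⟩ := hx
  exact ⟨y, hy, rfl, h⟩

private theorem shf_zero : shf 0 = 0 := rfl

private theorem shf_cons (x : ℕ × ℕ) (S : Multiset (ℕ × ℕ)) :
    shf (x ::ₘ S) = if x.2 ≤ x.1 - 1 then (x.1 - 1, x.2) ::ₘ shf S else shf S := by
  unfold shf
  rw [Multiset.map_cons]
  by_cases h : x.2 ≤ x.1 - 1
  · rw [if_pos h]
    exact Multiset.filter_cons_of_pos (p := fun y : ℕ × ℕ => y.2 ≤ y.1) _ h
  · rw [if_neg h]
    exact Multiset.filter_cons_of_neg (p := fun y : ℕ × ℕ => y.2 ≤ y.1) _ h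

private theorem trS_add (n : ℕ) (S T : Multiset (ℕ × ℕ)) : trS n (S + T) = trS n S + trS n T := by
  unfold trS
  rw [Multiset.map_add, Multiset.sum_add]

private theorem flS_add (n : ℕ) (S T : Multiset (ℕ × ℕ)) : flS n (S + T) = flS n S + flS n T := by
  unfold flS
  rw [Multiset.map_add, Multiset.sum_add]

private theorem trS_shf_le {n : ℕ} (S : Multiset (ℕ × ℕ)) : trS n (shf S) ≤ trS n S := by
  induction S using Multiset.induction_on with
  | empty => simp [shf_zero, trS]
  | cons x S ih =>
    have h1 : trS n (x ::ₘ S) = ell n x.1 + trS n S := by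
      unfold trS
      rw [Multiset.map_cons, Multiset.sum_cons]
    rw [shf_cons, h1]
    by_cases h : x.2 ≤ x.1 - 1
    · rw [if_pos h]
      have h2 : trS n ((x.1 - 1, x.2) ::ₘ shf S) = ell n (x.1 - 1) + trS n (shf S) := by
        unfold trS
        rw [Multiset.map_cons, Multiset.sum_cons]
      rw [h2]
      exact Nat.add_le_add (ell_mono n (Nat.sub_le _ _)) ih
    · rw [if_neg h]
      exact le_trans ih (Nat.le_add_left _ _)

private theorem trS_mono {n : ℕ} {S T : Multiset (ℕ × ℕ)} (h : S ≤ T) : trS n S ≤ trS n T := by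
  obtain ⟨U, rfl⟩ := Multiset.le_iff_exists_add.1 h
  rw [trS_add]
  exact Nat.le_add_right _ _

private theorem flS_shf {n M : ℕ} (S : Multiset (ℕ × ℕ))
    (hS : ∀ x ∈ S, 1 ≤ x.2 ∧ x.2 ≤ 2 ∧ x.2 ≤ x.1 ∧ x.1 ≤ M) :
    flS n S = flS n (shf S) + trS n S := by
  induction S using Multiset.induction_on with
  | empty => simp [shf_zero, trS, flS]
  | cons x S ih =>
    have ih' := ih fun y hy => hS y (Multiset.mem_cons_of_mem hy)
    obtain ⟨hx1, hx2, hx3, -⟩ := hS x (Multiset.mem_cons_self x S)
    have h1 : trS n (x ::ₘ S) = ell n x.1 + trS n S := by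
      unfold trS
      rw [Multiset.map_cons, Multiset.sum_cons]
    have h0 : flS n (x ::ₘ S) = (ell (n + 1) x.1 + 1 - x.2) + flS n S := by
      unfold flS
      rw [Multiset.map_cons, Multiset.sum_cons]
    have h5 := ell_succ n (x.1 - 1)
    have h4 : x.1 - 1 + 1 = x.1 := by omega
    rw [h4] at h5
    have h6 := ell_pos n (m := x.1) (by omega)
    rw [shf_cons, h1, h0, ih']
    by_cases h : x.2 ≤ x.1 - 1
    · rw [if_pos h]
      have h2 : flS n ((x.1 - 1, x.2) ::ₘ shf S) =
          (ell (n + 1) (x.1 - 1) + 1 - x.2) + flS n (shf S) := by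
        unfold flS
        rw [Multiset.map_cons, Multiset.sum_cons]
      rw [h2]
      have h7 := ell_pos (n + 1) (m := x.1 - 1) (by omega)
      omega
    · rw [if_neg h]
      have h8 : ell (n + 1) (x.1 - 1) = x.2 - 1 := by
        have h9 : x.1 = x.2 := by omega
        rw [h9]
        have h10 : x.2 = 1 ∨ x.2 = 2 := by omega
        rcases h10 with h10 | h10
        · rw [h10]
          exact ell_zero (by omega)
        · rw [h10]
          exact ell_one _
      omega

omit [Fintype Λ] in
/-- The branches are valid configurations. -/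
private theorem brT_OK' {M y : ℕ} {c : Cfg Λ} (hc : c.OK M) (P T : Finset Λ) :
    (brT c y P T).OK M := by
  refine ⟨hc.hN, fun l x hx => ?_⟩
  have hx' : x ∈ (if l ∈ T then shf (c.Φ l - Multiset.replicate y (1, 1))
    else if l ∈ P then c.Φ l - Multiset.replicate y (1, 1) else c.Φ l) := hx
  by_cases h1 : l ∈ T
  · rw [if_pos h1] at hx'
    obtain ⟨z, hz, rfl, h3⟩ := mem_shf hx'
    have h2 := hc.hΦ l z (Multiset.mem_of_le tsub_le_self hz)
    refine ⟨h2.1, h2.2.1, h3, ?_⟩
    show z.1 - 1 ≤ M
    omega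
  · rw [if_neg h1] at hx'
    by_cases h2 : l ∈ P
    · rw [if_pos h2] at hx'
      exact hc.hΦ l x (Multiset.mem_of_le tsub_le_self hx')
    · rw [if_neg h2] at hx'
      exact hc.hΦ l x hx'

/-- The branches are valid configurations. -/
theorem brT_OK {M y : ℕ} {c : Cfg Λ} (hc : c.OK M) (P T : Finset Λ) : (brT c y P T).OK M :=
  brT_OK' hc P T

theorem brT_tr_le {M y : ℕ} (hn : 1 ≤ n) {c : Cfg Λ} (hc : c.OK M) (P T : Finset Λ) (l : Λ) :
    (brT c y P T).tr n l ≤ c.tr n l := by
  show trS n (if l ∈ T then shf (c.Φ l - Multiset.replicate y (1, 1))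
    else if l ∈ P then c.Φ l - Multiset.replicate y (1, 1) else c.Φ l) ≤ trS n (c.Φ l)
  by_cases h1 : l ∈ T
  · rw [if_pos h1]
    exact (trS_shf_le _).trans (trS_mono tsub_le_self)
  · rw [if_neg h1]
    by_cases h2 : l ∈ P
    · rw [if_pos h2]
      exact trS_mono tsub_le_self
    · rw [if_neg h2]

/-- The size of a branch (`flS_shf`). -/
theorem brT_sz {M y : ℕ} (hn : 1 ≤ n) {c : Cfg Λ} (hc : c.OK M)
    (hy : ∀ l, Multiset.replicate y (1, 1) ≤ c.Φ l) (T : Finset Λ) :
    (brT c y univ T).sz n + ∑ l ∈ T, c.tr n l = c.sz n := by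
  have hfl : ∀ l, (brT c y univ T).fl n l + (if l ∈ T then c.tr n l else y) = c.fl n l := by
    intro l
    set S := c.Φ l - Multiset.replicate y (1, 1) with hS
    have hSe : c.Φ l = S + Multiset.replicate y (1, 1) := (tsub_add_cancel_of_le (hy l)).symm
    have e1 : c.fl n l = flS n S + y := by
      show flS n (c.Φ l) = _
      rw [hSe, flS_add]
      congr 1
      unfold flS
      rw [Multiset.map_replicate, Multiset.sum_replicate, smul_eq_mul]
      show y * (ell (n + 1) 1 + 1 - 1) = y
      rw [ell_one]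
      simp
    have e2 : c.tr n l = trS n S + y := by
      show trS n (c.Φ l) = _
      rw [hSe, trS_add]
      congr 1
      unfold trS
      rw [Multiset.map_replicate, Multiset.sum_replicate, smul_eq_mul]
      show y * ell n 1 = y
      rw [ell_one, mul_one]
    have e3 : flS n S = flS n (shf S) + trS n S :=
      flS_shf (M := M) S fun x hx => hc.hΦ l x (Multiset.mem_of_le tsub_le_self hx)
    have e4 : (brT c y univ T).fl n l = flS n (if l ∈ T then shf S
      else if l ∈ univ then S else c.Φ l) := rfl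
    by_cases h1 : l ∈ T
    · rw [e4, if_pos h1, if_pos h1, e1, e2, e3]
      ring
    · rw [e4, if_neg h1, if_pos (mem_univ l), if_neg h1, e1]
  have hsum : ∑ l, (if l ∈ T then c.tr n l else y) = ∑ l ∈ T, c.tr n l + y * (univ \ T).card := by
    rw [← sum_sdiff (subset_univ T), add_comm]
    congr 1
    · exact sum_congr rfl fun l hl => if_pos hl
    · rw [sum_congr rfl fun l hl => if_neg (mem_sdiff.1 hl).2, sum_const, smul_eq_mul, mul_comm]
  have htot : ∑ l, (brT c y univ T).fl n l + (∑ l ∈ T, c.tr n l + y * (univ \ T).card) =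
      ∑ l, c.fl n l := by
    rw [← hsum, ← sum_add_distrib]
    exact sum_congr rfl fun l _ => hfl l
  have h1 : (brT c y univ T).nsz n = c.nsz n + y * (univ \ T).card := by
    show (c.N.map (ell (n + 1))).sum + (c.s + y * (univ \ T).card) =
      (c.N.map (ell (n + 1))).sum + c.s + y * (univ \ T).card
    ring
  unfold Cfg.sz
  rw [h1, ← htot]
  ring

end Pool.Agent.H18.Ua

end

section

/-!
# Module UBranch (UA): the branches
-/

namespace Pool.Agent.H18.Ua

open Finset Pool.Agent.H18.Ex Pool.Agent.H18.Cub Pool.Agent.H18.Pr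

variable {Λ : Type} [Fintype Λ] [DecidableEq Λ] {n : ℕ}

omit [Fintype Λ] in
private theorem count_flat (M : ℕ) (L : List Λ) (hnd : L.Nodup) (l : Λ) :
    (L.flatMap fun l => List.replicate M l).count l = if l ∈ L then M else 0 := by
  induction L with
  | nil => simp
  | cons d ds ih =>
    rw [List.flatMap_cons, List.count_append, ih (List.nodup_cons.1 hnd).2, List.count_replicate]
    have h1 := (List.nodup_cons.1 hnd).1
    by_cases h : l = d
    · subst h
      rw [if_neg h1, if_pos List.mem_cons_self]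
      simp
    · have h2 : (d == l) = false := by simpa using fun h' => h h'.symm
      rw [h2]
      simp [h]

private theorem list_good (Y : SysN Λ n) {M t : ℕ} {N : Λ → ℕ} (H : NumU Y M t N)
    (L : List Λ) : ∀ (b φ : Λ → ℕ), (∀ i, φ i ≤ nphi n M t) →
      (∀ i, b i ≤ N i ∧ N i + L.count i ≤ b i + (2 * M + 1)) → GoodN Y M L b φ := by
  induction L with
  | nil =>
    intro b φ _ _
    trivial
  | cons l L ih =>
    intro b φ hφ hb
    have hreg : RegU M N b := fun i => ⟨(hb i).1, by have := (hb i).2; omega⟩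
    have hF := H.leF b l hreg
    have hFt := H.Fle b l hreg
    have hl := (hb l).2
    rw [List.count_cons_self] at hl
    have hNl := H.hN l
    have h1 : 1 ≤ b l := by omega
    refine ⟨h1, H.gd b l hreg, ?_, ?_, ?_⟩
    · exact (Nat.add_le_add_right (hφ l) _).trans (nphi_room H.hM H.ht hF)
    · refine le_trans (Int.ofNat_le.2 ?_) (H.leR b hreg)
      have h2 : ∑ i, φ i ≤ qU n M * t := by
        calc ∑ i, φ i ≤ ∑ _i : Λ, t :=
              sum_le_sum fun i _ => (hφ i).trans (nphi_le H.hM H.ht)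
          _ = qU n M * t := by rw [sum_const, card_univ, H.hq, smul_eq_mul]
      have h3 := leR_room (n := n) H.hM H.ht hFt
      have h4 := Nat.mul_le_mul_left M h2
      omega
    · refine ih _ _ ?_ ?_
      · intro i
        by_cases hi : i = l
        · subst hi
          rw [Function.update_self]
          exact nphi_mono M hFt
        · rw [Function.update_of_ne hi]
          exact hφ i
      · intro i
        have h2 := hb i
        by_cases hi : i = l
        · subst hi
          rw [dn_self]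
          omega
        · rw [dn_ne hi]
          rw [List.count_cons_of_ne (fun h => hi h.symm)] at h2
          exact h2

/-- The forced conditions alone are independent: with `x` simple points they kill the state, if the
total length is at least `R a`.  Apply `runN` to the configuration `⟨0, x, Φ⟩` and the list
`(univ : Finset Λ).toList.flatMap fun l => List.replicate M l`: at the end there are only simple points
left.  Here `φ ≤ nphi n M t` for all directions. -/
theorem forced_indep (Y : SysN Λ n) {M t : ℕ} {N : Λ → ℕ} (H : NumU Y M t N) (a : Λ → ℕ)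
    (ha : ∀ i, a i ≤ N i ∧ N i ≤ a i + (M + 1)) (c : Cfg Λ) (hc : c.OK M) (hN0 : c.N = 0)
    (htr : ∀ l, c.tr n l ≤ nphi n M t) (hsz : Y.R a ≤ c.sz n) : Y.K a c.kinds := by
  set L : List Λ := (univ : Finset Λ).toList.flatMap fun l => List.replicate M l with hL
  have hcount : ∀ l, L.count l = M := by
    intro l
    rw [hL, count_flat M _ (nodup_toList _), if_pos (mem_toList.2 (mem_univ l))]
  have hG : GoodN Y M L a (fun _ => nphi n M t) := by
    refine list_good Y H L a _ (fun _ => le_rfl) fun i => ?_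
    rw [hcount]
    have := ha i
    omega
  obtain ⟨c', hc', hK, -, hsz', -, -, -, h0, -, -⟩ :=
    runN Y M H.hn H.hM L a (fun _ => nphi n M t) hG c hc htr hsz
  obtain ⟨h1, h2⟩ := h0 hN0
  have hΦ : ∀ l, c'.Φ l = 0 := by
    intro l
    rw [h2 l, hcount]
    exact shf_iterate_eq_zero le_rfl _ fun x hx =>
      ⟨(hc.hΦ l x hx).1, (hc.hΦ l x hx).2.2.1, (hc.hΦ l x hx).2.2.2⟩
  have hkinds : c'.kinds = Multiset.replicate c'.s (Kind.free 1) := by
    unfold Cfg.kinds
    rw [h1]
    simp [hΦ]
  have hsz2 : c'.sz n = c'.s := by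
    unfold Cfg.sz Cfg.nsz Cfg.fl
    rw [h1]
    simp [hΦ]
  apply hK
  rw [hkinds]
  have hreg : RegU M N (ew L a) := by
    intro i
    have h3 : ew L a i = a i - M := by
      show a i - L.count i = a i - M
      rw [hcount]
    rw [h3]
    have := ha i
    omega
  refine (H.full _ hreg).2 _ ?_
  rw [hsz2] at hsz'
  omega

omit [Fintype Λ] in
private theorem dnT_insert {T : Finset Λ} {l : Λ} (hl : l ∉ T) (a : Λ → ℕ) :
    dnT (insert l T) a = dn l (dnT T a) := by
  funext i
  unfold dnT
  by_cases hi : i = l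
  · subst hi
    rw [dn_self, if_pos (mem_insert_self _ _), if_neg hl]
  · rw [dn_ne hi]
    by_cases h : i ∈ T
    · rw [if_pos (mem_insert_of_mem h), if_pos h]
    · rw [if_neg h, if_neg (by rw [mem_insert]; push Not; exact ⟨hi, h⟩)]

omit [Fintype Λ] in
private theorem dnT_bd {M : ℕ} {N a : Λ → ℕ} (ha : ∀ i, a i ≤ N i ∧ N i ≤ a i + M)
    (T : Finset Λ) : ∀ i, dnT T a i ≤ N i ∧ N i ≤ dnT T a i + (M + 1) := by
  intro i
  have h1 := ha i
  unfold dnT
  split_ifs
  · omega
  · omega

private theorem dnT_R (Y : SysN Λ n) {M t : ℕ} {N : Λ → ℕ} (H : NumU Y M t N) (a : Λ → ℕ)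
    (ha : ∀ i, a i ≤ N i ∧ N i ≤ a i + M) (T : Finset Λ) :
    2 * M * Y.R (dnT T a) + (T.card * (t + 2 * M * nphi n M t) : ℕ) ≤ 2 * M * Y.R a := by
  induction T using Finset.induction_on with
  | empty =>
    have h1 : dnT (∅ : Finset Λ) a = a := by
      funext i
      unfold dnT
      rw [if_neg (notMem_empty i)]
    rw [h1]
    simp
  | insert l T hl ih =>
    have hbd := dnT_bd ha T
    have hreg : RegU M N (dnT T a) := fun i => by
      have := hbd i
      omega
    have hM := H.hM
    have hF := H.leF _ l hreg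
    have h1 := nphi_margin (n := n) H.hM H.ht hF
    have h2 : 1 ≤ dnT T a l := by
      have h3 := H.hN l
      have h4 := hbd l
      omega
    have ht : 1 ≤ t := by
      have h3 := H.ht
      unfold TU at h3
      have h4 : 1 ≤ 8 * M * (M + 1) * ell n M ^ 2 :=
        Nat.mul_pos (Nat.mul_pos (by omega) (by omega)) (Nat.pow_pos (ell_pos n hM))
      omega
    have hF1 : 1 ≤ Y.F l (dnT T a) := by
      by_contra h
      have h3 : Y.F l (dnT T a) = 0 := by omega
      rw [h3] at h1
      omega
    have hcount := Y.count _ l h2 hF1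
    rw [dnT_insert hl, card_insert_of_notMem hl]
    have h5 : ((t + 2 * M * nphi n M t : ℕ) : ℤ) ≤ 2 * M * (Y.F l (dnT T a) : ℤ) := by
      exact_mod_cast h1
    rw [hcount] at ih
    have h6 : (((T.card + 1) * (t + 2 * M * nphi n M t) : ℕ) : ℤ) =
        ((T.card * (t + 2 * M * nphi n M t) : ℕ) : ℤ) + ((t + 2 * M * nphi n M t : ℕ) : ℤ) := by
      push_cast
      ring
    rw [h6]
    linarith

/-- The branch `T`: the forced conditions are independent (`forced_indep`), then use `NumU.kill`; the
surplus is `R a - R (dnT T a) - ∑ l ∈ T, c.tr n l ≥ T.card * (t / (2 M))` (`nphi_margin`), and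
`branch_cases`. -/
theorem branch (Y : SysN Λ n) {M t : ℕ} {N : Λ → ℕ} (H : NumU Y M t N) (a : Λ → ℕ)
    (ha : ∀ i, a i ≤ N i ∧ N i ≤ a i + M) (c : Cfg Λ) (hc : c.OK M)
    (htr : ∀ l, c.tr n l ≤ nphi n M t) (hsz : Y.R a ≤ c.sz n)
    (hy : ∀ l, Multiset.replicate (yU n M t) (1, 1) ≤ c.Φ l) (T : Finset Λ) :
    Y.K (dnT T a) (brT c (yU n M t) univ T).kinds := by
  have hM := H.hM
  set y := yU n M t with hydef
  set c₁ := brT c y univ T with hc₁def
  set a₁ := dnT T a with ha₁def
  have hbd : ∀ i, a₁ i ≤ N i ∧ N i ≤ a₁ i + (M + 1) := dnT_bd ha T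
  have hreg : RegU M N a₁ := fun i => by
    have := hbd i
    omega
  have hc₁ : c₁.OK M := brT_OK hc univ T
  have htr₁ : ∀ l, c₁.tr n l ≤ nphi n M t := fun l =>
    (brT_tr_le H.hn hc univ T l).trans (htr l)
  have hsz₁ : c₁.sz n + ∑ l ∈ T, c.tr n l = c.sz n := brT_sz H.hn hc hy T
  have hR := dnT_R Y H a ha T
  rw [← ha₁def] at hR
  have hsumT : ∑ l ∈ T, c.tr n l ≤ T.card * nphi n M t := by
    calc ∑ l ∈ T, c.tr n l ≤ ∑ _l ∈ T, nphi n M t := sum_le_sum fun l _ => htr l
      _ = T.card * nphi n M t := by rw [sum_const, smul_eq_mul]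
  -- the surplus
  have hsur : 2 * M * Y.R a₁ + (T.card * t : ℕ) ≤ 2 * M * (c₁.sz n : ℤ) := by
    have h1 : (c₁.sz n : ℤ) + ((∑ l ∈ T, c.tr n l : ℕ) : ℤ) = c.sz n := by exact_mod_cast hsz₁
    have h2 : ((∑ l ∈ T, c.tr n l : ℕ) : ℤ) ≤ ((T.card * nphi n M t : ℕ) : ℤ) := by
      exact_mod_cast hsumT
    have h3 : 2 * (M : ℤ) * Y.R a ≤ 2 * M * c.sz n :=
      mul_le_mul_of_nonneg_left hsz (by positivity)
    have h4 : 2 * (M : ℤ) * ((∑ l ∈ T, c.tr n l : ℕ) : ℤ) ≤
        2 * M * ((T.card * nphi n M t : ℕ) : ℤ) :=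
      mul_le_mul_of_nonneg_left h2 (by positivity)
    have h5 : ((T.card * (t + 2 * M * nphi n M t) : ℕ) : ℤ) =
        ((T.card * t : ℕ) : ℤ) + 2 * M * ((T.card * nphi n M t : ℕ) : ℤ) := by
      push_cast
      ring
    rw [h5] at hR
    rw [← h1] at h3
    linarith
  have hRle : Y.R a₁ ≤ c₁.sz n := by
    have h1 : 2 * (M : ℤ) * Y.R a₁ ≤ 2 * M * (c₁.sz n : ℤ) := by
      have : (0 : ℤ) ≤ (T.card * t : ℕ) := by positivity
      linarith
    exact le_of_mul_le_mul_left h1 (by positivity)
  -- the forced conditions are few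
  have hfl : ∑ l, c₁.fl n l ≤ 4 * M * qU n M * t := by
    calc ∑ l, c₁.fl n l ≤ ∑ _l : Λ, M * t := by
          refine sum_le_sum fun l _ => (Cfg.fl_le n M c₁ hc₁ l).trans ?_
          exact Nat.mul_le_mul_left _ ((htr₁ l).trans (nphi_le H.hM H.ht))
      _ = M * qU n M * t := by
          rw [sum_const, card_univ, H.hq, smul_eq_mul]
          ring
      _ ≤ 4 * M * qU n M * t := by
          apply Nat.mul_le_mul_right
          apply Nat.mul_le_mul_right
          omega
  have hflR : ((∑ l, c₁.fl n l : ℕ) : ℤ) ≤ Y.R a₁ :=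
    le_trans (by exact_mod_cast hfl) (H.leR a₁ hreg)
  obtain ⟨x, hx⟩ : ∃ x : ℕ, (x : ℤ) = Y.R a₁ - ((∑ l, c₁.fl n l : ℕ) : ℤ) :=
    ⟨(Y.R a₁ - ((∑ l, c₁.fl n l : ℕ) : ℤ)).toNat, Int.toNat_of_nonneg (by omega)⟩
  set S : Multiset (Kind Λ) := ∑ l, (c₁.Φ l).map fun x => Kind.forced l x.1 x.2 with hS
  have hind : Y.K a₁ (S + Multiset.replicate x (Kind.free 1)) := by
    have h1 := forced_indep Y H a₁ hbd ⟨0, x, c₁.Φ⟩ ⟨fun m hm => absurd hm (Multiset.notMem_zero m),
      hc₁.hΦ⟩ rfl htr₁ (by
        have h2 : (⟨0, x, c₁.Φ⟩ : Cfg Λ).sz n = x + ∑ l, c₁.fl n l := by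
          unfold Cfg.sz Cfg.nsz
          simp [Cfg.fl]
        rw [h2]
        push_cast
        push_cast at hx
        omega)
    have h2 : (⟨0, x, c₁.Φ⟩ : Cfg Λ).kinds = S + Multiset.replicate x (Kind.free 1) := by
      unfold Cfg.kinds
      rw [Multiset.map_zero, zero_add, add_comm]
    rwa [h2] at h1
  have hszdef : c₁.sz n = (c₁.N.map (ell (n + 1))).sum + c₁.s + ∑ l, c₁.fl n l := rfl
  have hkill := H.kill a₁ hreg S x c₁.s c₁.N (fun m hm => by
    have := hc₁.hN m hm
    omega) hind (by omega) ?_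
  · have h1 : c₁.kinds = S + c₁.N.map Kind.free + Multiset.replicate c₁.s (Kind.free 1) := by
      unfold Cfg.kinds
      rw [← hS]
      abel
    rw [h1]
    exact hkill
  · have hjle : T.card ≤ qU n M := by
      rw [← H.hq]
      exact card_le_univ T
    rcases branch_cases (n := n) H.hM H.ht T.card hjle with h | h
    · left
      have h1 : c₁.s = c.s + y * (univ \ T).card := rfl
      have h2 : (univ \ T).card = qU n M - T.card := by
        rw [← H.hq, card_univ_sdiff]
      rw [h1, h2]
      exact h.trans (Nat.le_add_left _ _)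
    · right
      have h1 : 2 * (M : ℤ) * ((ell (n + 1) M * (M * t) : ℕ) : ℤ) ≤
          2 * M * ((c₁.sz n : ℤ) - Y.R a₁) := by
        have h2 : ((2 * M * (ell (n + 1) M * (M * t)) : ℕ) : ℤ) ≤ ((T.card * t : ℕ) : ℤ) := by
          exact_mod_cast h
        have h3 : ((2 * M * (ell (n + 1) M * (M * t)) : ℕ) : ℤ) =
            2 * (M : ℤ) * ((ell (n + 1) M * (M * t) : ℕ) : ℤ) := by
          push_cast
          ring
        rw [h3] at h2
        linarith
      have h2 := le_of_mul_le_mul_left h1 (by positivity)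
      omega

end Pool.Agent.H18.Ua

end
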