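import Pool.Agent.H94.LP3.M08
import Pool.Agent.H94.LP3.M13

/-! The parts of this file: H18.Ua.UDeh, H18.Ua.UMul, H74.CT.Jump. -/

section

/-!
# Module UDeh (UA): dehomogenisation
-/

namespace Pool.Agent.H18.Ua

open Finset Pool.Agent.H18.Ex Pool.Agent.H18.Cub Pool.Agent.H18.Fat

variable {r : ℕ}

/-- `F(X_0, …, X_r) ↦ F(1, x_0, …, x_{r - 1})`. -/
noncomputable def dehA (r : ℕ) :
    MvPolynomial (Fin (r + 1)) ℂ →ₐ[ℂ] MvPolynomial (Fin r) ℂ :=
  MvPolynomial.aeval (Fin.cons 1 MvPolynomial.X)

/-- The exponent of the dehomogenised monomial. -/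
private noncomputable def dexp (s : Fin (r + 1) →₀ ℕ) : Fin r →₀ ℕ :=
  Finsupp.equivFunOnFinite.symm fun i => s i.succ

private theorem dehA_monomial (s : Fin (r + 1) →₀ ℕ) (c : ℂ) :
    dehA r (MvPolynomial.monomial s c) = MvPolynomial.monomial (dexp s) c := by
  rw [dehA, MvPolynomial.aeval_monomial, Finsupp.prod_fintype _ _ (fun i => pow_zero _),
    Fin.prod_univ_succ, MvPolynomial.monomial_eq,
    Finsupp.prod_fintype _ _ (fun i => pow_zero _), MvPolynomial.algebraMap_eq]
  simp [dexp]

private theorem dehA_eq (F : MvPolynomial (Fin (r + 1)) ℂ) :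
    dehA r F = ∑ s ∈ F.support, MvPolynomial.monomial (dexp s) (F.coeff s) := by
  conv_lhs => rw [F.as_sum]
  rw [map_sum]
  exact sum_congr rfl fun s _ => dehA_monomial s _

private theorem dexp_degree {d : ℕ} {F : MvPolynomial (Fin (r + 1)) ℂ} (hF : F.IsHomogeneous d)
    {s : Fin (r + 1) →₀ ℕ} (hs : F.coeff s ≠ 0) : s 0 + ∑ i, dexp s i = d := by
  have h1 := hF hs
  rw [← h1, Finsupp.weight_apply, Finsupp.sum_fintype _ _ (fun i => by simp),
    Fin.sum_univ_succ]
  simp [dexp]

theorem dehA_degree (F : MvPolynomial (Fin (r + 1)) ℂ) (δ : ℕ) (hF : F.IsHomogeneous δ) :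
    (dehA r F).totalDegree ≤ δ := by
  rw [dehA_eq]
  refine (MvPolynomial.totalDegree_finsetSum _ _).trans ?_
  refine Finset.sup_le fun s hs => ?_
  refine (MvPolynomial.totalDegree_monomial_le _ _).trans ?_
  have h1 := dexp_degree hF (MvPolynomial.mem_support_iff.1 hs)
  rw [Finsupp.sum_fintype _ _ (fun i => rfl)]
  change ∑ i, dexp s i ≤ δ
  omega

theorem dehA_injective (F : MvPolynomial (Fin (r + 1)) ℂ) (δ : ℕ) (hF : F.IsHomogeneous δ)
    (h : dehA r F = 0) : F = 0 := by
  by_contra hne
  obtain ⟨s, hs⟩ := MvPolynomial.ne_zero_iff.1 hne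
  have h1 : (dehA r F).coeff (dexp s) = F.coeff s := by
    rw [dehA_eq, MvPolynomial.coeff_sum, sum_eq_single s]
    · rw [MvPolynomial.coeff_monomial, if_pos rfl]
    · intro t ht hts
      rw [MvPolynomial.coeff_monomial, if_neg]
      intro heq
      apply hts
      have h2 := dexp_degree hF (MvPolynomial.mem_support_iff.1 ht)
      have h3 := dexp_degree hF hs
      rw [heq] at h2
      ext i
      refine Fin.cases ?_ (fun i => ?_) i
      · omega
      · have h4 := DFunLike.congr_fun heq i
        simpa [dexp] using h4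
    · intro hns
      exact absurd (MvPolynomial.mem_support_iff.2 hs) hns
  rw [h, MvPolynomial.coeff_zero] at h1
  exact hs h1.symm

/-- The exponent of the homogenised monomial. -/
private noncomputable def hexp (δ : ℕ) (s : Fin r →₀ ℕ) : Fin (r + 1) →₀ ℕ :=
  Finsupp.equivFunOnFinite.symm (Fin.cons (δ - ∑ i, s i) fun i => s i)

private theorem dexp_hexp (δ : ℕ) (s : Fin r →₀ ℕ) : dexp (hexp δ s) = s := by
  ext i
  simp [dexp, hexp]

theorem dehA_surjective (f : MvPolynomial (Fin r) ℂ) (δ : ℕ) (hf : f.totalDegree ≤ δ) :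
    ∃ F : MvPolynomial (Fin (r + 1)) ℂ, F.IsHomogeneous δ ∧ dehA r F = f := by
  refine ⟨∑ s ∈ f.support, MvPolynomial.monomial (hexp δ s) (f.coeff s), ?_, ?_⟩
  · apply MvPolynomial.IsHomogeneous.sum
    intro s hs
    apply MvPolynomial.isHomogeneous_monomial
    have h1 := MvPolynomial.le_totalDegree hs
    rw [Finsupp.sum_fintype _ _ (fun i => rfl)] at h1
    change ∑ i, s i ≤ f.totalDegree at h1
    rw [Finsupp.degree_eq_sum, Fin.sum_univ_succ]
    simp only [hexp, Finsupp.equivFunOnFinite_symm_apply_apply, Fin.cons_zero, Fin.cons_succ]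
    omega
  · rw [map_sum]
    conv_rhs => rw [f.as_sum]
    refine sum_congr rfl fun s _ => ?_
    rw [dehA_monomial, dexp_hexp]

/-- As `deh_vanish` in `Pool.Agent.H18.Cub.Trans`. -/
theorem dehA_vanish (F : MvPolynomial (Fin (r + 1)) ℂ) (P : Fin r → ℂ) (m : ℕ)
    (h : VanishesToOrder F (Fin.cons 1 P) m) (β : Fin r → ℕ) (hβ : ∑ i, β i < m) :
    tay (dehA r F) P β = 0 := by
  rw [vanishesToOrder_iff_mem_ideal_pow] at h
  set J : Ideal (MvPolynomial (Fin r) ℂ) := Ideal.span (Set.range fun j =>
    (MvPolynomial.X j - MvPolynomial.C (P j) : MvPolynomial (Fin r) ℂ)) with hJ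
  have hC : ∀ c : ℂ, dehA r (MvPolynomial.C c) = MvPolynomial.C c := fun c => (dehA r).commutes c
  have hle : Ideal.map (dehA r) (Ideal.span (Set.range fun j =>
      (MvPolynomial.X j - MvPolynomial.C ((Fin.cons 1 P : Fin (r + 1) → ℂ) j) :
        MvPolynomial (Fin (r + 1)) ℂ))) ≤ J := by
    rw [Ideal.map_span, Ideal.span_le]
    rintro _ ⟨_, ⟨j, rfl⟩, rfl⟩
    refine Fin.cases ?_ (fun i => ?_) j
    · have h0 : dehA r (MvPolynomial.X 0 - MvPolynomial.C 1) = 0 := by
        rw [map_sub, hC]
        simp [dehA]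
      change dehA r (MvPolynomial.X 0 - MvPolynomial.C 1) ∈ J
      rw [h0]
      exact J.zero_mem
    · have h0 : dehA r (MvPolynomial.X i.succ - MvPolynomial.C (P i)) =
          MvPolynomial.X i - MvPolynomial.C (P i) := by
        rw [map_sub, hC]
        simp [dehA]
      change dehA r (MvPolynomial.X i.succ - MvPolynomial.C (P i)) ∈ J
      rw [h0]
      exact Ideal.subset_span ⟨i, rfl⟩
  have h1 : dehA r F ∈ J ^ m := by
    have h2 := Ideal.mem_map_of_mem (dehA r) h
    rw [Ideal.map_pow] at h2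
    exact Ideal.pow_right_mono hle m h2
  have h2 : VanishesToOrder (dehA r F) P m := by
    rw [vanishesToOrder_iff_mem_ideal_pow]
    exact h1
  refine h2 (Finsupp.equivFunOnFinite.symm β) ?_
  rw [Finsupp.degree_eq_sum]
  simpa using hβ

private theorem coeff_zero_shift {n : ℕ} (L : MvPolynomial (Fin n) ℂ) (q : Fin n → ℂ) :
    MvPolynomial.coeff 0 (shift q L) = MvPolynomial.eval q L := by
  rw [← MvPolynomial.constantCoeff_eq, shift]
  induction L using MvPolynomial.induction_on with
  | C a => simp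
  | add p q hp hq => rw [map_add, map_add, hp, hq, map_add]
  | mul_X p i hp =>
    rw [map_mul, map_mul, hp, map_mul, MvPolynomial.aeval_X]
    simp

/-- Units may be cancelled. -/
theorem vanishes_of_mul {n : ℕ} (L F : MvPolynomial (Fin n) ℂ) (q : Fin n → ℂ) (m : ℕ)
    (hL : MvPolynomial.eval q L ≠ 0) (h : VanishesToOrder (L * F) q m) :
    VanishesToOrder F q m := by
  have hmul : shift q (L * F) = shift q L * shift q F := by
    rw [shift, shift, shift, map_mul]
  have key : ∀ k : ℕ, ∀ β : Fin n →₀ ℕ, β.degree = k → β.degree < m →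
      MvPolynomial.coeff β (shift q F) = 0 := by
    intro k
    induction k using Nat.strong_induction_on with
    | _ k ih =>
      intro β hk hβ
      have h1 := h β hβ
      rw [hmul, MvPolynomial.coeff_mul, Finset.sum_eq_single (0, β)] at h1
      · rw [coeff_zero_shift] at h1
        exact (mul_eq_zero.1 h1).resolve_left hL
      · rintro ⟨a, b⟩ hab hne
        rw [Finset.HasAntidiagonal.mem_antidiagonal] at hab
        have hab' : a + b = β := hab
        have hdeg : a.degree + b.degree = β.degree := by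
          rw [← hab', map_add]
        have ha : a ≠ 0 := by
          intro h0
          apply hne
          rw [h0, zero_add] at hab'
          rw [h0, hab']
        have ha' : 0 < a.degree := by
          rw [Nat.pos_iff_ne_zero, Ne, Finsupp.degree_eq_zero_iff]
          exact ha
        have hb : MvPolynomial.coeff b (shift q F) = 0 :=
          ih b.degree (by omega) b rfl (by omega)
        simp only
        rw [hb, mul_zero]
      · intro hn
        exact absurd (Finset.HasAntidiagonal.mem_antidiagonal.2 (zero_add β)) hn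
  exact fun β hβ => key _ β rfl hβ

theorem vanishes_mul {n : ℕ} (L F : MvPolynomial (Fin n) ℂ) (q : Fin n → ℂ) (m : ℕ)
    (h : VanishesToOrder F q m) : VanishesToOrder (L * F) q m := by
  rw [vanishesToOrder_iff_mem_ideal_pow] at h ⊢
  exact Ideal.mul_mem_left _ _ h

/-- Homogeneous coordinates may be scaled. -/
theorem vanishes_smul {n : ℕ} (F : MvPolynomial (Fin n) ℂ) (δ : ℕ) (hF : F.IsHomogeneous δ)
    (q : Fin n → ℂ) (c : ℂ) (hc : c ≠ 0) (m : ℕ) (h : VanishesToOrder F q m) :
    VanishesToOrder F (c • q) m := by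
  rw [vanishesToOrder_iff_mem_ideal_pow] at h ⊢
  set φ : MvPolynomial (Fin n) ℂ →ₐ[ℂ] MvPolynomial (Fin n) ℂ :=
    MvPolynomial.aeval (fun j => MvPolynomial.C c⁻¹ * MvPolynomial.X j) with hφ
  have hC : ∀ c : ℂ, φ (MvPolynomial.C c) = MvPolynomial.C c := fun c => φ.commutes c
  have hle : Ideal.map φ (Ideal.span (Set.range fun j =>
      (MvPolynomial.X j - MvPolynomial.C (q j) : MvPolynomial (Fin n) ℂ))) ≤
      Ideal.span (Set.range fun j =>
      (MvPolynomial.X j - MvPolynomial.C ((c • q) j) : MvPolynomial (Fin n) ℂ)) := by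
    rw [Ideal.map_span, Ideal.span_le]
    rintro _ ⟨_, ⟨j, rfl⟩, rfl⟩
    have h0 : φ (MvPolynomial.X j - MvPolynomial.C (q j)) =
        MvPolynomial.C c⁻¹ * (MvPolynomial.X j - MvPolynomial.C ((c • q) j)) := by
      rw [map_sub, hC, hφ, MvPolynomial.aeval_X, mul_sub, ← MvPolynomial.C_mul, Pi.smul_apply,
        smul_eq_mul, inv_mul_cancel_left₀ hc]
    change φ (MvPolynomial.X j - MvPolynomial.C (q j)) ∈ _
    rw [h0]
    exact Ideal.mul_mem_left _ _ (Ideal.subset_span ⟨j, rfl⟩)
  have h1 := Ideal.mem_map_of_mem φ h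
  rw [Ideal.map_pow] at h1
  have h2 := Ideal.pow_right_mono hle m h1
  have h3 : φ F = MvPolynomial.C (c⁻¹ ^ δ) * F := by
    conv_lhs => rw [F.as_sum]
    conv_rhs => rw [F.as_sum]
    rw [map_sum, Finset.mul_sum]
    refine Finset.sum_congr rfl fun s hs => ?_
    have hd : s.degree = δ := by
      have h5 := hF (MvPolynomial.mem_support_iff.1 hs)
      rw [← h5, Finsupp.weight_apply, Finsupp.sum_fintype _ _ (fun i => by simp),
        Finsupp.degree_eq_sum]
      simp
    rw [hφ, MvPolynomial.aeval_monomial, MvPolynomial.monomial_eq]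
    have h6 : (s.prod fun i k => (MvPolynomial.C c⁻¹ * MvPolynomial.X i :
        MvPolynomial (Fin n) ℂ) ^ k) =
        MvPolynomial.C (c⁻¹ ^ δ) * s.prod fun i k => (MvPolynomial.X i :
          MvPolynomial (Fin n) ℂ) ^ k := by
      simp only [mul_pow]
      rw [Finsupp.prod_mul]
      congr 1
      rw [Finsupp.prod_fintype _ _ (fun i => pow_zero _), Finset.prod_pow_eq_pow_sum,
        ← Finsupp.degree_eq_sum, hd, ← map_pow]
    rw [h6, MvPolynomial.algebraMap_eq]
    ring
  rw [h3] at h2
  have h4 := Ideal.mul_mem_left _ (MvPolynomial.C (c ^ δ)) h2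
  rw [← mul_assoc, ← MvPolynomial.C_mul, ← mul_pow, mul_inv_cancel₀ hc, one_pow, map_one,
    one_mul] at h4
  exact h4

end Pool.Agent.H18.Ua

end

section

/-!
# Module UMul (UA): conditions and products
-/

namespace Pool.Agent.H18.Ua

open Finset Pool.Agent.H18.Ex Pool.Agent.H18.Cub

variable {ι Λ : Type} [Fintype ι] [DecidableEq ι]

/-- The index sets of the conditions are closed under passing to smaller multi-indices. -/
theorem idx_down (g : Lines Λ ι) (k : Kind Λ) {b b' : ι → ℕ} (hb : g.Idx k b)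
    (h : ∀ i, b' i ≤ b i) : g.Idx k b' := by
  cases k with
  | free m =>
    have h1 : ∑ i, b i < m := hb
    have h2 : ∑ i, b' i ≤ ∑ i, b i := sum_le_sum fun i _ => h i
    exact (show ∑ i, b' i < m by omega)
  | forced l c e =>
    have h1 : ∑ i, b i < c ∧ b (g.co l) + e ≤ c := hb
    have h2 : ∑ i, b' i ≤ ∑ i, b i := sum_le_sum fun i _ => h i
    have h3 := h (g.co l)
    exact (show ∑ i, b' i < c ∧ b' (g.co l) + e ≤ c by omega)

/-- The product formula for Taylor coefficients. -/
private theorem tay_mul (Q F : MvPolynomial ι ℂ) (q : ι → ℂ) (b : ι → ℕ) :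
    tay (Q * F) q b = ∑ x ∈ antidiagonal (Finsupp.equivFunOnFinite.symm b),
      tay Q q (⇑x.1) * tay F q (⇑x.2) := by
  rw [tay, map_mul, MvPolynomial.coeff_mul]
  refine sum_congr rfl fun x _ => ?_
  have h : ∀ a : ι →₀ ℕ, Finsupp.equivFunOnFinite.symm (⇑a : ι → ℕ) = a := by
    intro a; ext i; simp
  rw [tay, tay, h, h]

private theorem anti_le {b : ι → ℕ} {x : (ι →₀ ℕ) × (ι →₀ ℕ)}
    (hx : x ∈ antidiagonal (Finsupp.equivFunOnFinite.symm b)) (i : ι) : x.1 i + x.2 i = b i := by
  rw [HasAntidiagonal.mem_antidiagonal] at hx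
  have h := DFunLike.congr_fun hx i
  simpa using h

theorem satP_mul (g : Lines Λ ι) (Q F : MvPolynomial ι ℂ) (k : Kind Λ) (q : ι → ℂ)
    (h : SatP g F k q) : SatP g (Q * F) k q := by
  intro b hb
  rw [tay_mul]
  refine sum_eq_zero fun x hx => ?_
  rw [h (⇑x.2) (idx_down g k hb fun i => by have := anti_le hx i; omega), mul_zero]

/-- Units may be cancelled (induction on `∑ i, b i`). -/
theorem satP_of_mul (g : Lines Λ ι) (Q F : MvPolynomial ι ℂ) (k : Kind Λ) (q : ι → ℂ)
    (hQ : MvPolynomial.eval (g.pt k q) Q ≠ 0) (h : SatP g (Q * F) k q) : SatP g F k q := by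
  have key : ∀ N : ℕ, ∀ b : ι → ℕ, ∑ i, b i < N → g.Idx k b → tay F (g.pt k q) b = 0 := by
    intro N
    induction N with
    | zero => intro b hb; omega
    | succ N ih =>
      intro b hN hb
      have h1 := h b hb
      rw [tay_mul] at h1
      have h2 : ((0 : ι →₀ ℕ), Finsupp.equivFunOnFinite.symm b) ∈
          antidiagonal (Finsupp.equivFunOnFinite.symm b) := by
        rw [HasAntidiagonal.mem_antidiagonal, zero_add]
      rw [sum_eq_single_of_mem _ h2] at h1
      · have h3 : tay Q (g.pt k q) (⇑(0 : ι →₀ ℕ)) = MvPolynomial.eval (g.pt k q) Q := by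
          have h4 : (⇑(0 : ι →₀ ℕ) : ι → ℕ) = 0 := by funext i; rfl
          rw [h4, tay_zero_right]
        have h5 : (⇑(Finsupp.equivFunOnFinite.symm b) : ι → ℕ) = b := by funext i; simp
        simp only at h1
        rw [h3, h5] at h1
        exact (mul_eq_zero.1 h1).resolve_left hQ
      · intro x hx hne
        have h6 : ∀ i, x.1 i + x.2 i = b i := anti_le hx
        rw [ih (⇑x.2) ?_ (idx_down g k hb fun i => by have := h6 i; omega), mul_zero]
        have h7 : ∑ i, x.1 i + ∑ i, x.2 i = ∑ i, b i := by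
          rw [← sum_add_distrib]
          exact sum_congr rfl fun i _ => h6 i
        have h8 : 0 < ∑ i, x.1 i := by
          by_contra h9
          apply hne
          have h10 : ∑ i, x.1 i = 0 := by omega
          rw [sum_eq_zero_iff] at h10
          have h11 : x.1 = 0 := by
            ext i
            exact h10 i (mem_univ i)
          have h12 : x.2 = Finsupp.equivFunOnFinite.symm b := by
            ext i
            have := h6 i
            rw [h11] at this
            simpa using this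
          exact Prod.ext h11 h12
        omega
  intro b hb
  exact key _ b (Nat.lt_succ_self _) hb

private theorem totalDegree_trl (F : MvPolynomial ι ℂ) (q : ι → ℂ) :
    (trl q F).totalDegree ≤ F.totalDegree := by
  conv_lhs => rw [F.as_sum]
  rw [map_sum]
  refine MvPolynomial.totalDegree_finsetSum_le fun a ha => ?_
  rw [trl, MvPolynomial.aeval_monomial]
  refine (MvPolynomial.totalDegree_mul _ _).trans ?_
  rw [MvPolynomial.algebraMap_eq, MvPolynomial.totalDegree_C, zero_add]
  refine le_trans ?_ (MvPolynomial.le_totalDegree ha)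
  rw [Finsupp.prod]
  refine (MvPolynomial.totalDegree_finsetProd _ _).trans ?_
  rw [Finsupp.sum]
  refine sum_le_sum fun i _ => ?_
  refine (MvPolynomial.totalDegree_pow _ _).trans ?_
  have h1 : (MvPolynomial.X i + MvPolynomial.C (q i) : MvPolynomial ι ℂ).totalDegree ≤ 1 := by
    refine (MvPolynomial.totalDegree_add _ _).trans ?_
    rw [MvPolynomial.totalDegree_X, MvPolynomial.totalDegree_C]
    simp
  calc a i * (MvPolynomial.X i + MvPolynomial.C (q i) : MvPolynomial ι ℂ).totalDegree ≤ a i * 1 :=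
        Nat.mul_le_mul_left _ h1
    _ = a i := mul_one _

private theorem trl_inj (q : ι → ℂ) : Function.Injective (trl q : MvPolynomial ι ℂ →ₐ[ℂ] _) := by
  have h : (trl (fun i => -q i)).comp (trl q) = AlgHom.id ℂ (MvPolynomial ι ℂ) := by
    apply MvPolynomial.algHom_ext
    intro i
    have h1 : trl (fun i => -q i) (MvPolynomial.C (q i) : MvPolynomial ι ℂ) =
        (MvPolynomial.C (q i) : MvPolynomial ι ℂ) := by
      rw [← MvPolynomial.algebraMap_eq, AlgHom.commutes]
    rw [AlgHom.comp_apply, show trl q (MvPolynomial.X i : MvPolynomial ι ℂ) =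
      MvPolynomial.X i + MvPolynomial.C (q i) from by simp [trl], map_add, h1,
      show trl (fun i => -q i) (MvPolynomial.X i : MvPolynomial ι ℂ) =
      MvPolynomial.X i + MvPolynomial.C (-q i) from by simp [trl], MvPolynomial.C_neg]
    simp
  intro F G hFG
  have h2 := congrArg (trl (fun i => -q i)) hFG
  rw [← AlgHom.comp_apply, ← AlgHom.comp_apply, h] at h2
  exact h2

/-- A polynomial of degree less than `m` vanishing to order `m` at a point is zero. -/
theorem eq_zero_of_vanish (F : MvPolynomial ι ℂ) (q : ι → ℂ) (m : ℕ) (hdeg : F.totalDegree < m)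
    (h : ∀ b : ι → ℕ, ∑ i, b i < m → tay F q b = 0) : F = 0 := by
  apply trl_inj q
  rw [map_zero]
  ext a
  rw [MvPolynomial.coeff_zero]
  by_contra hne
  have h1 : a ∈ (trl q F).support := MvPolynomial.mem_support_iff.2 hne
  have h2 := MvPolynomial.le_totalDegree h1
  have h3 := totalDegree_trl F q
  have h4 : ∑ i, a i < m := by
    have h5 : (a.sum fun _ e => e) = ∑ i, a i := Finsupp.sum_fintype _ _ (by intro i; rfl)
    rw [h5] at h2
    omega
  apply hne
  have h6 := h (⇑a) h4
  rw [tay] at h6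
  have h7 : Finsupp.equivFunOnFinite.symm (⇑a : ι → ℕ) = a := by ext i; simp
  rwa [h7] at h6

end Pool.Agent.H18.Ua

end

section

/-!
# The jumps of the growth of the general dimension are rare
-/

namespace Pool.Agent.H74.CT

open MvPolynomial Pool.Agent.H18.Fat Pool.Agent.H22.LU

section seq

variable {t : ℕ → ℕ} {C E : ℕ}

end seq

theorem mulgen {n : ℕ} (G : MvPolynomial (Fin n) ℂ) (A A' B B' : Submodule ℂ (MvPolynomial (Fin n) ℂ))
    [FiniteDimensional ℂ A'] [FiniteDimensional ℂ B'] (hA : A ≤ A') (hB : B ≤ B')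
    (h1 : ∀ R ∈ A', G * R ∈ B') (h2 : ∀ R ∈ A', G * R ∈ B → R ∈ A) :
    Module.finrank ℂ B + Module.finrank ℂ A' ≤ Module.finrank ℂ B' + Module.finrank ℂ A := by
  have iB : FiniteDimensional ℂ B := Submodule.finiteDimensional_of_le hB
  have iA : FiniteDimensional ℂ A := Submodule.finiteDimensional_of_le hA
  let f : (A' × B) →ₗ[ℂ] B' :=
    { toFun := fun x => ⟨G * x.1.1 + x.2.1, B'.add_mem (h1 _ x.1.2) (hB x.2.2)⟩
      map_add' := by
        intro x y
        apply Subtype.ext
        simp only [Prod.fst_add, Prod.snd_add, Submodule.coe_add, mul_add]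
        abel
      map_smul' := by
        intro c x
        apply Subtype.ext
        simp only [Prod.smul_fst, Prod.smul_snd, Submodule.coe_smul, RingHom.id_apply, smul_add,
          mul_smul_comm] }
  have hker : ∀ x ∈ LinearMap.ker f, x.1.1 ∈ A := by
    intro x hx
    rw [LinearMap.mem_ker] at hx
    have h3 : G * x.1.1 + x.2.1 = 0 := congrArg Subtype.val hx
    have h4 : G * x.1.1 = -x.2.1 := eq_neg_of_add_eq_zero_left h3
    refine h2 _ x.1.2 ?_
    rw [h4]
    exact B.neg_mem x.2.2
  let g : LinearMap.ker f →ₗ[ℂ] A :=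
    { toFun := fun x => ⟨x.1.1.1, hker x.1 x.2⟩
      map_add' := fun x y => rfl
      map_smul' := fun c x => rfl }
  have hg : Function.Injective g := by
    intro x y hxy
    have e1 : x.1.1.1 = y.1.1.1 := by
      have h0 : (g x).1 = (g y).1 := by rw [hxy]
      exact h0
    have e2 : G * x.1.1.1 + x.1.2.1 = 0 := by
      have h0 : (f x.1).1 = 0 := by
        rw [LinearMap.mem_ker.1 x.2]
        rfl
      exact h0
    have e3 : G * y.1.1.1 + y.1.2.1 = 0 := by
      have h0 : (f y.1).1 = 0 := by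
        rw [LinearMap.mem_ker.1 y.2]
        rfl
      exact h0
    rw [e1, ← e3] at e2
    have e4 : x.1.2.1 = y.1.2.1 := add_left_cancel e2
    apply Subtype.ext
    apply Prod.ext
    · exact Subtype.ext e1
    · exact Subtype.ext e4
  have e1 := LinearMap.finrank_le_finrank_of_injective hg
  have e2 := LinearMap.finrank_range_add_finrank_ker f
  rw [Module.finrank_prod] at e2
  have e3 : Module.finrank ℂ (LinearMap.range f) ≤ Module.finrank ℂ B' := Submodule.finrank_le _
  omega

theorem van_div {n : ℕ} {ℓ R : MvPolynomial (Fin n) ℂ} {q : Fin n → ℂ} {a : ℕ}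
    (hℓ : eval q ℓ ≠ 0) (h : VanishesToOrder (ℓ * R) q a) : VanishesToOrder R q a := by
  have h1 := vanishes_of_mul (a := 0) (A := ℓ) (fun h2 => hℓ (vanishes_one_iff.1 h2)) h
  exact h1

theorem grow_le {r j : ℕ} {ι : Type*} (p : ι → Fin (r + 1) → ℂ) (hp : ∀ l, p l 0 ≠ 0)
    (w : ι → ℕ) : Module.finrank ℂ (fatForms r (j + 1) p w) +
      Module.finrank ℂ (fatForms r j p fun _ => 0) ≤
      Module.finrank ℂ (fatForms r (j + 1) p fun _ => 0) + Module.finrank ℂ (fatForms r j p w) := by
  have i1 := fin_fatForms r j p fun _ => 0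
  have i2 := fin_fatForms r (j + 1) p fun _ => 0
  refine mulgen (X 0) _ _ _ _ (fun F hF => ⟨hF.1, fun l => vanishes_zero _ _⟩)
    (fun F hF => ⟨hF.1, fun l => vanishes_zero _ _⟩) (fun R hR => ⟨?_, fun l => vanishes_zero _ _⟩)
    fun R hR h => ⟨hR.1, fun l => van_div ?_ (h.2 l)⟩
  · rw [Nat.add_comm j 1]
    exact (isHomogeneous_X ℂ 0).mul hR.1
  · rw [eval_X]
    exact hp l

theorem hom_div {n j : ℕ} {i : Fin n} {R : MvPolynomial (Fin n) ℂ}
    (h : (X i * R).IsHomogeneous (j + 1)) : R.IsHomogeneous j := by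
  intro β hβ
  have h1 := @h (Finsupp.single i 1 + β) (by
    rw [coeff_X_mul]
    exact hβ)
  rw [map_add, Finsupp.weight_single] at h1
  have h2 : (1 : ℕ) • (1 : Fin n → ℕ) i = 1 := by simp
  rw [h2] at h1
  omega

theorem grow_zero {r j : ℕ} {ι : Type*} (p : ι → Fin (r + 1) → ℂ) (w : ι → ℕ) :
    Module.finrank ℂ (fatForms r j p w) ≤ Module.finrank ℂ (fatForms r (j + 1) p w) := by
  have i1 := fin_fatForms r (j + 1) p w
  have i2 := fin_fatForms r j p w
  have h1 := mulgen (X 0) ⊥ (fatForms r j p w) ⊥ (fatForms r (j + 1) p w) bot_le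
    bot_le (fun R hR => ⟨by
      rw [Nat.add_comm j 1]
      exact (isHomogeneous_X ℂ 0).mul hR.1, fun l => by
      have h1 := van_mul (vanishes_zero (p l) (X 0)) (hR.2 l)
      rwa [Nat.zero_add] at h1⟩) fun R _ h => by
      rw [Submodule.mem_bot] at h ⊢
      rcases mul_eq_zero.1 h with h2 | h2
      · exact absurd h2 (X_ne_zero 0)
      · exact h2
  rw [finrank_bot, Nat.zero_add] at h1
  exact h1

end Pool.Agent.H74.CT

end
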