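import Pool.Agent.H94.LP3.H18.Pr.CremR
import Pool.Agent.H94.LP3.M15
import Pool.Agent.H94.LP3.M24

/-! The parts of this file: H18.Ub.VRun, H74.CT.Slow. -/

section

/-!
# Module VRun (UB): running along a good list of directions, with at least `w` simple layers
-/

namespace Pool.Agent.H18.Ub

open Finset Pool.Agent.H18.Ex Pool.Agent.H18.Cub Pool.Agent.H18.Pr Pool.Agent.H18.Ua

variable {Λ : Type} [Fintype Λ] [DecidableEq Λ] {n : ℕ}

/-- A list of directions along which the state can be peeled; `φ` bounds the traces of the forced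
conditions. -/
def GoodW (Y : SysN Λ n) (M w : ℕ) : List Λ → (Λ → ℕ) → (Λ → ℕ) → Prop
  | [], _, _ => True
  | l :: L, a, φ =>
    1 ≤ a l ∧ Gw Y M w l a ∧ φ l + w + 1 ≤ Y.F l a ∧
    ((M * ∑ i, φ i + ell (n + 1) M * (Y.F l a + g0w n M w) + Y.F l a : ℕ) : ℤ) ≤ Y.R a ∧
    GoodW Y M w L (dn l a) (Function.update φ l (nphiw n M w (Y.F l a)))

/-- The bounds at the end of a list of directions. -/
def ephW (Y : SysN Λ n) (M w : ℕ) : List Λ → (Λ → ℕ) → (Λ → ℕ) → (Λ → ℕ)
  | [], _, φ => φ
  | l :: L, a, φ => ephW Y M w L (dn l a) (Function.update φ l (nphiw n M w (Y.F l a)))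

private theorem shf_mono {S T : Multiset (ℕ × ℕ)} (h : S ≤ T) : shf S ≤ shf T :=
  Multiset.filter_le_filter _ (Multiset.map_le_map h)

theorem shf_iterate_mono (k : ℕ) {S T : Multiset (ℕ × ℕ)} (h : S ≤ T) :
    shf^[k] S ≤ shf^[k] T := by
  induction k generalizing S T with
  | zero => exact h
  | succ k ih =>
    rw [Function.iterate_succ_apply, Function.iterate_succ_apply]
    exact ih (shf_mono h)

end Pool.Agent.H18.Ub

end

section

/-!
# Any number of large multiplicities with sum at most `r d - D` and pair sums at most `d + 1`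
-/

namespace Pool.Agent.H74.CT

open Pool.Agent.H18.Fat Pool.Agent.H18.Ub Finset

theorem generalDim_ge {r : ℕ} (hr : 1 ≤ r) (d : ℕ) {k : ℕ} (m : Fin k → ℕ) :
    ((d + r).choose r : ℤ) - ∑ i, ((m i + r - 1).choose r : ℤ) ≤ generalDim r d m := by
  obtain ⟨p, hp1, hp2⟩ := Pool.Agent.H18.Cub.exists_of_general
    ((generalDim_spec r d m).and (Pool.Agent.H18.Pr.general_ne_zero r k))
  have := finrank_fatForms_ge (d := d) hr hp2 m
  rw [hp1] at this
  exact this

end Pool.Agent.H74.CT

end
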