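import Pool.Agent.H94.LP3.H18.Ub.VNumb
import Pool.Agent.H94.LP3.M18
import Pool.Agent.H94.LP3.M25
import Pool.Agent.H94.LP3.M28
import Pool.Agent.H94.LP3.M37

/-! The parts of this file: H18.Ua.UKill_1, H18.Ub.VBranch. -/

section

/-!
# Module UKill (UA): one more point
-/

namespace Pool.Agent.H18.Ua

open Finset Pool.Agent.H18.Ex Pool.Agent.H18.Cub Pool.Agent.H18.Pr

variable {n : ℕ} {Λ : Type}

namespace UKillX

end UKillX

open UKillX

/-- If the conditions `S` do not kill `W δ` then one more free point of multiplicity `m` imposes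
`ell (n + 1) m` conditions on the elements of `W (δ + (m - 1))` satisfying `S`: choose positions with
`finrank (kerP (W (δ + (m - 1))) …) ≤ x` and a nonzero `G ∈ W δ` satisfying `S` there, a point `p` with
`G(p) ≠ 0`; the products `Q * G` with `deg Q ≤ m - 1` form a subspace of dimension `ell (n + 1) m` meeting
the subspace of the elements vanishing to order `m` at `p` in `0` only (`satP_of_mul`,
`eq_zero_of_vanish`). -/
theorem kill_step (A : Fam n) (g : Lines Λ (Fin (n + 1))) (δ m x : ℕ) (hm : 1 ≤ m)
    (S : Multiset (Kind Λ)) (hS : ¬ GMP g (A.W δ) S)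
    (h : GMP g (A.W (δ + (m - 1))) (S + Multiset.replicate x (Kind.free 1))) :
    ell (n + 1) m ≤ x ∧ GMP g (A.W (δ + (m - 1)))
      (S + {Kind.free m} + Multiset.replicate (x - ell (n + 1) m) (Kind.free 1)) := by
  obtain ⟨N, k, rfl⟩ := multi_exists_fin S
  obtain ⟨pos, hpos⟩ := exists_pos_finrank g (A.W (δ + (m - 1))) k x h
  rw [GMP_iff] at hS
  have h1 : ¬ InjP g (A.W δ) k pos := fun hI => hS ⟨pos, hI⟩
  unfold InjP at h1
  push Not at h1
  obtain ⟨G, hGW, hGs, hG0⟩ := h1
  obtain ⟨p, hp⟩ : ∃ p : Fin (n + 1) → ℂ, MvPolynomial.eval p G ≠ 0 := by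
    by_contra hcon
    push Not at hcon
    exact hG0 (MvPolynomial.funext fun v => by rw [hcon v, map_zero])
  let V := kerP g (A.W (δ + (m - 1))) k pos
  let k' : Fin N ⊕ Unit → Kind Λ := Sum.elim k fun _ => Kind.free m
  let pos' : Fin N ⊕ Unit → Fin (n + 1) → ℂ := Sum.elim pos fun _ => p
  let U := kerP g (A.W (δ + (m - 1))) k' pos'
  let P := (MvPolynomial.restrictTotalDegree (Fin (n + 1)) ℂ (m - 1)).map (LinearMap.mulLeft ℂ G)
  have hfV : FiniteDimensional ℂ V := Submodule.finiteDimensional_of_le kerP_le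
  have hPV : P ≤ V := by
    rintro _ ⟨Q, hQ, rfl⟩
    rw [SetLike.mem_coe, MvPolynomial.mem_restrictTotalDegree] at hQ
    rw [LinearMap.mulLeft_apply, mul_comm]
    exact mem_kerP.2 ⟨A.mul δ (m - 1) G hGW Q hQ, fun i => satP_mul g Q G (k i) (pos i) (hGs i)⟩
  have hUV : U ≤ V := by
    intro F hF
    rw [mem_kerP] at hF
    exact mem_kerP.2 ⟨hF.1, fun i => hF.2 (Sum.inl i)⟩
  have hPU : P ⊓ U = ⊥ := by
    rw [eq_bot_iff]
    rintro F ⟨⟨Q, hQ, rfl⟩, hF⟩
    rw [SetLike.mem_coe, MvPolynomial.mem_restrictTotalDegree] at hQ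
    rw [LinearMap.mulLeft_apply] at hF ⊢
    have h2 : SatP g (G * Q) (Kind.free m) p := (mem_kerP.1 hF).2 (Sum.inr ())
    have h3 := satP_of_mul g G Q (Kind.free m) p hp h2
    have h4 : Q = 0 := eq_zero_of_vanish Q p m (by omega) fun b hb => h3 b hb
    rw [h4, mul_zero]
    exact Submodule.zero_mem _
  have h5 := finrank_add_le P U V hPV hUV hPU
  have h6 : Module.finrank ℂ P = ell (n + 1) m := by
    rw [finrank_mul G hG0, finrank_totalDegree n m hm]
  rw [h6] at h5
  have h7 : Module.finrank ℂ V ≤ x := hpos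
  refine ⟨by omega, ?_⟩
  have h8 := gmp_of_pos g (A.W (δ + (m - 1))) k' (x - ell (n + 1) m) pos' (by
    change Module.finrank ℂ U ≤ _
    omega)
  rw [multi_map_sum] at h8
  exact h8

/-- If the conditions `S` kill `W δ` then the elements of `W (δ + i)` satisfying `S` form a space of
dimension at most `h (δ + i) - h δ`: it meets `(X 0 - C v) ^ i * W δ` in `0` only, for general `v`. -/
theorem kill_dim (A : Fam n) (g : Lines Λ (Fin (n + 1))) (δ i x : ℕ) (S : Multiset (Kind Λ))
    (hS : GMP g (A.W δ) S) (hx : A.h (δ + i) ≤ A.h δ + x) :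
    GMP g (A.W (δ + i)) (S + Multiset.replicate x (Kind.free 1)) := by
  obtain ⟨N, k, rfl⟩ := multi_exists_fin S
  rw [GMP_iff] at hS
  obtain ⟨pos, hpos⟩ := hS
  obtain ⟨v, hv⟩ : ∃ v : ℂ, v ∉ (univ : Finset (Fin N)).image fun j => g.pt (k j) (pos j) 0 :=
    Infinite.exists_notMem_finset _
  let L : MvPolynomial (Fin (n + 1)) ℂ := (MvPolynomial.X 0 - MvPolynomial.C v) ^ i
  have hev : ∀ j, MvPolynomial.eval (g.pt (k j) (pos j)) L ≠ 0 := by
    intro j
    simp only [L, map_pow, map_sub, MvPolynomial.eval_X, MvPolynomial.eval_C]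
    refine pow_ne_zero _ (sub_ne_zero.2 ?_)
    intro hcon
    exact hv (mem_image.2 ⟨j, mem_univ _, hcon⟩)
  have hL0 : L ≠ 0 := by
    refine pow_ne_zero _ ?_
    intro hcon
    have := congrArg (MvPolynomial.eval fun _ => v + 1) hcon
    simp at this
  have hLd : L.totalDegree ≤ i := by
    refine (MvPolynomial.totalDegree_pow _ _).trans ?_
    have : (MvPolynomial.X (0 : Fin (n + 1)) - MvPolynomial.C v :
        MvPolynomial (Fin (n + 1)) ℂ).totalDegree ≤ 1 := by
      refine (MvPolynomial.totalDegree_sub _ _).trans ?_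
      simp
    calc i * _ ≤ i * 1 := Nat.mul_le_mul_left _ this
      _ = i := mul_one i
  let V := kerP g (A.W (δ + i)) k pos
  let P := (A.W δ).map (LinearMap.mulLeft ℂ L)
  have hPW : P ≤ A.W (δ + i) := by
    rintro _ ⟨F, hF, rfl⟩
    rw [LinearMap.mulLeft_apply]
    exact A.mul δ i F hF L hLd
  have hPV : P ⊓ V = ⊥ := by
    rw [eq_bot_iff]
    rintro _ ⟨⟨F, hF, rfl⟩, hV⟩
    rw [LinearMap.mulLeft_apply] at hV ⊢
    have h3 : F = 0 := hpos F hF fun j =>
      satP_of_mul g L F (k j) (pos j) (hev j) ((mem_kerP.1 hV).2 j)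
    rw [h3, mul_zero]
    exact Submodule.zero_mem _
  have h5 := finrank_add_le P V (A.W (δ + i)) hPW kerP_le hPV
  have h6 : Module.finrank ℂ P = A.h δ := finrank_mul L hL0 _
  rw [h6] at h5
  refine gmp_of_pos g (A.W (δ + i)) k x pos ?_
  change Module.finrank ℂ V ≤ x
  change A.h δ + Module.finrank ℂ V ≤ A.h (δ + i) at h5
  omega

/-- Many points.  Induction on `G`: if `W (d - (m - 1))` is not killed use `kill_step`; otherwise the
dimension is at most `T` by `kill_dim`, and there are at least `T` points left. -/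
theorem kill_all (A : Fam n) (g : Lines Λ (Fin (n + 1))) (d M T : ℕ) (hM : 1 ≤ M)
    (hd : M - 1 ≤ d) (hT : A.h d ≤ A.h (d - (M - 1)) + T) (G : Multiset ℕ)
    (hG : ∀ m ∈ G, 1 ≤ m ∧ m ≤ M) : ∀ (S : Multiset (Kind Λ)) (x s : ℕ),
    GMP g (A.W d) (S + Multiset.replicate x (Kind.free 1)) →
    x ≤ (G.map (ell (n + 1))).sum + s →
    (T ≤ s ∨ x + ell (n + 1) M * T ≤ (G.map (ell (n + 1))).sum + s) →
    GMP g (A.W d) (S + G.map Kind.free + Multiset.replicate s (Kind.free 1)) := by
  induction G using Multiset.induction_on with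
  | empty =>
    intro S x s h hx _
    rw [Multiset.map_zero, Multiset.sum_zero, zero_add] at hx
    rw [Multiset.map_zero, add_zero]
    exact GMP.mono (add_le_add_right (Multiset.replicate_le_replicate _ |>.2 hx) _) h
  | cons m G ih =>
    intro S x s h hx hor
    have hm := hG m (Multiset.mem_cons_self m G)
    have hG' : ∀ m' ∈ G, 1 ≤ m' ∧ m' ≤ M := fun m' hm' => hG m' (Multiset.mem_cons_of_mem hm')
    rw [Multiset.map_cons, Multiset.sum_cons] at hx hor
    have hdd : d - (m - 1) + (m - 1) = d := by omega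
    by_cases hk : GMP g (A.W (d - (m - 1))) S
    · -- the conditions `S` kill the smaller space
      have h1 : A.h (d - (m - 1) + (m - 1)) ≤ A.h (d - (m - 1)) + T := by
        rw [hdd]
        have := A.h_mono' (show d - (M - 1) ≤ d - (m - 1) by omega)
        omega
      have h2 := kill_dim A g (d - (m - 1)) (m - 1) T S hk h1
      rw [hdd] at h2
      have hTs : T ≤ (m ::ₘ G).card + s := by
        rcases hor with hor | hor
        · omega
        · have h3 : ((m ::ₘ G).map (ell (n + 1))).sum ≤ (m ::ₘ G).card * ell (n + 1) M := by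
            have := Multiset.sum_le_card_nsmul ((m ::ₘ G).map (ell (n + 1))) (ell (n + 1) M) (by
              intro y hy
              obtain ⟨m', hm', rfl⟩ := Multiset.mem_map.1 hy
              exact ell_mono (n + 1) (hG m' hm').2)
            rw [Multiset.card_map, smul_eq_mul] at this
            exact this
          rw [Multiset.map_cons, Multiset.sum_cons] at h3
          have h4 : 1 ≤ ell (n + 1) M := ell_pos (n + 1) hM
          have h5 : ell (n + 1) M * T ≤ ell (n + 1) M * ((m ::ₘ G).card + s) := by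
            calc ell (n + 1) M * T ≤ (ell (n + 1) m + (G.map (ell (n + 1))).sum) + s := by omega
              _ ≤ (m ::ₘ G).card * ell (n + 1) M + ell (n + 1) M * s :=
                  add_le_add h3 (Nat.le_mul_of_pos_left s h4)
              _ = ell (n + 1) M * ((m ::ₘ G).card + s) := by ring
          exact Nat.le_of_mul_le_mul_left h5 h4
      have h6 : GMP g (A.W d) (Multiset.replicate (m ::ₘ G).card (Kind.free 1) +
          (S + Multiset.replicate s (Kind.free 1))) := by
        refine GMP.mono ?_ h2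
        have h7 : Multiset.replicate T (Kind.free 1 : Kind Λ) ≤
            Multiset.replicate ((m ::ₘ G).card + s) (Kind.free 1) :=
          (Multiset.replicate_le_replicate _).2 hTs
        rw [Multiset.replicate_add] at h7
        calc S + Multiset.replicate T (Kind.free 1 : Kind Λ) ≤
            S + (Multiset.replicate (m ::ₘ G).card (Kind.free 1) +
              Multiset.replicate s (Kind.free 1)) := by
              exact Multiset.add_le_add_left h7
          _ = Multiset.replicate (m ::ₘ G).card (Kind.free 1) +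
            (S + Multiset.replicate s (Kind.free 1)) := by
              rw [← add_assoc, add_comm S, add_assoc]
      have h8 := GMP.free_mono (m ::ₘ G) (fun m' hm' => (hG m' hm').1) _ h6
      rw [← add_assoc, add_comm ((m ::ₘ G).map Kind.free) S] at h8
      exact h8
    · have h0 : GMP g (A.W (d - (m - 1) + (m - 1))) (S + Multiset.replicate x (Kind.free 1)) := by
        rw [hdd]
        exact h
      obtain ⟨h1, h2⟩ := kill_step A g (d - (m - 1)) m x hm.1 S hk h0
      rw [hdd] at h2
      have h3 := ih hG' (S + {Kind.free m}) (x - ell (n + 1) m) s h2 (by omega) (by omega)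
      rw [Multiset.map_cons, ← Multiset.singleton_add, ← add_assoc]
      exact h3

end Pool.Agent.H18.Ua

end

section

/-!
# Module VBranch (UB): the branches
-/

namespace Pool.Agent.H18.Ub

open Finset Pool.Agent.H18.Ex Pool.Agent.H18.Cub Pool.Agent.H18.Pr Pool.Agent.H18.Ua

variable {Λ : Type} [Fintype Λ] [DecidableEq Λ] {n : ℕ}

theorem list_goodW (Y : SysN Λ n) {M t w : ℕ} {N : Λ → ℕ} (H : NumV Y M t w N)
    (L : List Λ) : ∀ (b φ : Λ → ℕ), (∀ i, φ i ≤ nphiw n M w t) →
      (∀ i, b i ≤ N i ∧ N i + L.count i ≤ b i + (2 * M + 1)) → GoodW Y M w L b φ := by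
  induction L with
  | nil =>
    intro b φ _ _
    trivial
  | cons l L ih =>
    intro b φ hφ hb
    have hreg : RegU M N b := fun i => ⟨(hb i).1, by have := (hb i).2; omega⟩
    have hF := H.leF b l hreg
    have hFt := H.Fle b l hreg
    have hl := (hb l).2
    rw [List.count_cons_self] at hl
    have hNl := H.hN l
    have h1 : 1 ≤ b l := by omega
    refine ⟨h1, H.gd b l hreg, ?_, ?_, ?_⟩
    · have h2 := nphiw_room H.hM H.ht H.hw hF
      have h3 := hφ l
      omega
    · refine le_trans (Int.ofNat_le.2 ?_) (H.leR b hreg)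
      have h2 : ∑ i, φ i ≤ qU n M * t := by
        calc ∑ i, φ i ≤ ∑ _i : Λ, t :=
              sum_le_sum fun i _ => (hφ i).trans (nphiw_le H.hM H.ht H.hw)
          _ = qU n M * t := by rw [sum_const, card_univ, H.hq, smul_eq_mul]
      have h3 := leR_room_w (n := n) H.hM H.ht H.hw hFt
      have h4 := Nat.mul_le_mul_left M h2
      omega
    · refine ih _ _ ?_ ?_
      · intro i
        by_cases hi : i = l
        · subst hi
          rw [Function.update_self]
          exact nphiw_mono M w hFt
        · rw [Function.update_of_ne hi]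
          exact hφ i
      · intro i
        have h2 := hb i
        by_cases hi : i = l
        · subst hi
          rw [dn_self]
          omega
        · rw [dn_ne hi]
          rw [List.count_cons_of_ne (fun h => hi h.symm)] at h2
          exact h2

end Pool.Agent.H18.Ub

end
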