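import Pool.Agent.H94.LP3.H18.Pr.CremR
import Pool.Agent.H94.LP3.M15
import Pool.Agent.H94.LP3.M16
import Pool.Agent.H94.LP3.M18
import Pool.Agent.H94.LP3.M37

/-! The parts of this file: H18.Ua.UFat, H18.Ub.VGen_2, H74.BP.Few, H74.BP.Sg, H74.BP.Big. -/

section

/-!
# Module UFat (UA): the family of a scheme of fat points
-/

namespace Pool.Agent.H18.Ua

open Finset Pool.Agent.H18.Ex Pool.Agent.H18.Cub Pool.Agent.H18.Pr Pool.Agent.H18.Fat

variable {n k : ℕ}

/-- The points with homogeneous coordinates `(1, P i)`. -/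
def affP (P : Fin k → Fin (n + 1) → ℂ) : Fin k → Fin (n + 1 + 1) → ℂ := fun i => Fin.cons 1 (P i)

private theorem ufat_coeff (v : ℂ) : MvPolynomial.coeff (Finsupp.single 0 1)
    (MvPolynomial.X 0 - MvPolynomial.C v : MvPolynomial (Fin (n + 1)) ℂ) = 1 := by
  rw [MvPolynomial.coeff_sub, MvPolynomial.coeff_X, if_pos rfl, MvPolynomial.coeff_C, if_neg,
    sub_zero]
  intro h2
  have := DFunLike.congr_fun h2 0
  simp at this

/-- Degree of a cofactor. -/
private theorem ufat_degree (F : MvPolynomial (Fin (n + 1)) ℂ) (v : ℂ) (δ : ℕ)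
    (h : ((MvPolynomial.X 0 - MvPolynomial.C v) * F).totalDegree ≤ δ + 1) :
    F.totalDegree ≤ δ := by
  rcases eq_or_ne F 0 with rfl | hF
  · simp
  have hne : (MvPolynomial.X 0 - MvPolynomial.C v : MvPolynomial (Fin (n + 1)) ℂ) ≠ 0 := by
    intro h0
    have h1 := ufat_coeff (n := n) v
    rw [h0, MvPolynomial.coeff_zero] at h1
    exact one_ne_zero h1.symm
  rw [MvPolynomial.totalDegree_mul_of_isDomain hne hF] at h
  have h1 : 1 ≤ (MvPolynomial.X 0 - MvPolynomial.C v :
      MvPolynomial (Fin (n + 1)) ℂ).totalDegree := by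
    have h2 : (Finsupp.single 0 1 : Fin (n + 1) →₀ ℕ) ∈
        (MvPolynomial.X 0 - MvPolynomial.C v : MvPolynomial (Fin (n + 1)) ℂ).support := by
      rw [MvPolynomial.mem_support_iff, ufat_coeff]
      exact one_ne_zero
    have h3 := MvPolynomial.le_totalDegree h2
    rwa [Finsupp.sum_single_index rfl] at h3
  omega

/-- The homogeneous linear form of the hyperplane `x_0 = v`. -/
private noncomputable def ufatL (n : ℕ) (v : ℂ) : MvPolynomial (Fin (n + 1 + 1)) ℂ :=
  MvPolynomial.X 1 - MvPolynomial.C v * MvPolynomial.X 0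

private theorem ufatL_hom (n : ℕ) (v : ℂ) : (ufatL n v).IsHomogeneous 1 := by
  apply MvPolynomial.IsHomogeneous.sub
  · exact MvPolynomial.isHomogeneous_X _ _
  · have := (MvPolynomial.isHomogeneous_C (Fin (n + 1 + 1)) v).mul
      (MvPolynomial.isHomogeneous_X ℂ (0 : Fin (n + 1 + 1)))
    simpa using this

private theorem ufatL_deh (n : ℕ) (v : ℂ) :
    dehA (n + 1) (ufatL n v) = MvPolynomial.X 0 - MvPolynomial.C v := by
  have hC : dehA (n + 1) (MvPolynomial.C v) = MvPolynomial.C v := (dehA (n + 1)).commutes v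
  have h0 : dehA (n + 1) (MvPolynomial.X 0) = 1 := by
    simp [dehA]
  have h1 : dehA (n + 1) (MvPolynomial.X 1) = MvPolynomial.X 0 := by
    rw [dehA, MvPolynomial.aeval_X]
    rfl
  rw [ufatL, map_sub, map_mul, hC, h0, h1, mul_one]

private theorem ufatL_eval (v : ℂ) (P : Fin (n + 1) → ℂ) :
    MvPolynomial.eval (Fin.cons 1 P : Fin (n + 1 + 1) → ℂ) (ufatL n v) = P 0 - v := by
  rw [ufatL, map_sub, map_mul, MvPolynomial.eval_X, MvPolynomial.eval_X, MvPolynomial.eval_C]
  have h1 : (Fin.cons 1 P : Fin (n + 1 + 1) → ℂ) 1 = P 0 := rfl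
  have h0 : (Fin.cons 1 P : Fin (n + 1 + 1) → ℂ) 0 = 1 := rfl
  rw [h0, h1, mul_one]

/-- The family of the dehomogenised forms vanishing at the points `P i` to order `m i`. -/
noncomputable def fatFam (P : Fin k → Fin (n + 1) → ℂ) (m : Fin k → ℕ) : Fam n where
  W := fun δ => (fatForms (n + 1) δ (affP P) m).map (dehA (n + 1)).toLinearMap
  deg := by
    rintro δ _ ⟨F, hF, rfl⟩
    exact dehA_degree F δ hF.1
  mul := by
    rintro δ j _ ⟨F, hF, rfl⟩ Q hQ
    obtain ⟨Q', hQ', rfl⟩ := dehA_surjective Q j hQ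
    refine ⟨Q' * F, ⟨?_, fun i => vanishes_mul Q' F _ _ (hF.2 i)⟩, ?_⟩
    · rw [add_comm δ j]
      exact hQ'.mul hF.1
    · simp
  bad := univ.image fun i => P i 0
  res := by
    intro δ v hv F hF
    obtain ⟨G, hG, hGF⟩ := hF
    have hGF' : dehA (n + 1) G = (MvPolynomial.X 0 - MvPolynomial.C v) * F := hGF
    have hdeg : F.totalDegree ≤ δ := by
      apply ufat_degree F v δ
      rw [← hGF']
      exact dehA_degree G (δ + 1) hG.1
    obtain ⟨F', hF', rfl⟩ := dehA_surjective F δ hdeg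
    have hL : (ufatL n v * F').IsHomogeneous (δ + 1) := by
      rw [add_comm δ 1]
      exact (ufatL_hom n v).mul hF'
    have heq : ufatL n v * F' = G := by
      rw [← sub_eq_zero]
      apply dehA_injective _ (δ + 1) (hL.sub hG.1)
      rw [map_sub, map_mul, ufatL_deh, hGF', sub_self]
    refine ⟨F', ⟨hF', fun i => ?_⟩, rfl⟩
    apply vanishes_of_mul (ufatL n v) F'
    · change MvPolynomial.eval (Fin.cons 1 (P i) : Fin (n + 1 + 1) → ℂ) (ufatL n v) ≠ 0
      rw [ufatL_eval, sub_ne_zero]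
      intro h
      exact hv (mem_image.2 ⟨i, mem_univ _, h⟩)
    · rw [heq]
      exact hG.2 i

theorem fatFam_h (P : Fin k → Fin (n + 1) → ℂ) (m : Fin k → ℕ) (δ : ℕ) :
    (fatFam P m).h δ = Module.finrank ℂ (fatForms (n + 1) δ (affP P) m) := by
  have h1 : (fatFam P m).W δ =
      LinearMap.range ((dehA (n + 1)).toLinearMap.domRestrict
        (fatForms (n + 1) δ (affP P) m)) := by
    rw [LinearMap.range_domRestrict]
    rfl
  rw [Fam.h, h1]
  apply LinearMap.finrank_range_of_inj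
  rw [← LinearMap.ker_eq_bot, LinearMap.ker_eq_bot']
  intro F hF
  apply Subtype.ext
  exact dehA_injective F.1 δ F.2.1 hF

/-- Points with nonzero first coordinate may be normalised. -/
theorem finrank_normalise {r δ : ℕ} (p : Fin k → Fin (r + 1) → ℂ) (hp : ∀ i, p i 0 ≠ 0)
    (m : Fin k → ℕ) :
    Module.finrank ℂ (fatForms r δ (fun i => Fin.cons 1 fun j => p i j.succ / p i 0) m) =
      Module.finrank ℂ (fatForms r δ p m) := by
  have hq : ∀ i, (Fin.cons 1 fun j => p i j.succ / p i 0 : Fin (r + 1) → ℂ) =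
      (p i 0)⁻¹ • p i := by
    intro i
    funext j
    refine Fin.cases ?_ (fun j => ?_) j
    · rw [Fin.cons_zero, Pi.smul_apply, smul_eq_mul, inv_mul_cancel₀ (hp i)]
    · rw [Fin.cons_succ, Pi.smul_apply, smul_eq_mul, div_eq_inv_mul]
  have hiff : ∀ (F : MvPolynomial (Fin (r + 1)) ℂ), F.IsHomogeneous δ → ∀ i,
      (VanishesToOrder F (Fin.cons 1 fun j => p i j.succ / p i 0 : Fin (r + 1) → ℂ) (m i) ↔
        VanishesToOrder F (p i) (m i)) := by
    intro F hF i
    rw [hq i]
    constructor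
    · intro h
      have := vanishes_smul F δ hF _ (p i 0) (hp i) (m i) h
      rwa [smul_smul, mul_inv_cancel₀ (hp i), one_smul] at this
    · exact vanishes_smul F δ hF _ _ (inv_ne_zero (hp i)) (m i)
  have h : fatForms r δ (fun i => Fin.cons 1 fun j => p i j.succ / p i 0) m =
      fatForms r δ p m := by
    ext F
    constructor
    · rintro ⟨h1, h2⟩
      exact ⟨h1, fun i => (hiff F h1 i).1 (h2 i)⟩
    · rintro ⟨h1, h2⟩
      exact ⟨h1, fun i => (hiff F h1 i).2 (h2 i)⟩
  rw [h]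

/-- The special configuration: if the points outside `J` and `x` simple points kill the space of degree
`d` of the family of the points of `J` (the others having multiplicity `0`) then there is a
configuration with first coordinates `1` and `dim V_d ≤ x`. -/
theorem special_of_fatFam (P : Fin k → Fin (n + 1) → ℂ) (m : Fin k → ℕ) (J : Finset (Fin k))
    (d x : ℕ)
    (h : Fk ((fatFam P fun i => if i ∈ J then m i else 0).W d)
      ((univ : Finset ({i : Fin k // i ∉ J} ⊕ Fin x)).val.map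
        (Sum.elim (fun i => m i.1) fun _ => 1))) :
    ∃ p₀ : Fin k → Fin (n + 1 + 1) → ℂ, (∀ i, p₀ i 0 = 1) ∧
      Module.finrank ℂ (fatForms (n + 1) d p₀ m) ≤ x := by
  classical
  rw [Fk_iff (gU n (fun i : Fin 0 => (i.elim0 : ℂ))), Multiset.map_map, GMP_iff] at h
  obtain ⟨pos, hpos⟩ := h
  let p₀ : Fin k → Fin (n + 1 + 1) → ℂ := fun i =>
    if hi : i ∈ J then Fin.cons 1 (P i) else Fin.cons 1 (pos (Sum.inl ⟨i, hi⟩))
  refine ⟨p₀, fun i => ?_, ?_⟩
  · simp only [p₀]
    split_ifs <;> rfl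
  let Ψ : fatForms (n + 1) d p₀ m →ₗ[ℂ] (Fin x → ℂ) :=
    { toFun := fun F j => tay (dehA (n + 1) F.1) (pos (Sum.inr j)) 0
      map_add' := fun F G => by
        funext j
        simp only [Submodule.coe_add, map_add, tay_add, Pi.add_apply]
      map_smul' := fun c F => by
        funext j
        simp only [Submodule.coe_smul, map_smul, tay_smul, RingHom.id_apply, Pi.smul_apply,
          smul_eq_mul, Algebra.algebraMap_self] }
  have hΨ : Function.Injective Ψ := by
    rw [← LinearMap.ker_eq_bot, LinearMap.ker_eq_bot']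
    intro F hF
    have hFh : F.1.IsHomogeneous d := F.2.1
    apply Subtype.ext
    change F.1 = 0
    apply dehA_injective F.1 d hFh
    apply hpos
    · refine ⟨F.1, ⟨hFh, fun i => ?_⟩, rfl⟩
      by_cases hi : i ∈ J
      · simp only [if_pos hi]
        have h1 := F.2.2 i
        have h2 : p₀ i = Fin.cons 1 (P i) := by
          simp only [p₀]
          rw [dif_pos hi]
        rw [h2] at h1
        exact h1
      · simp only [if_neg hi]
        intro β hβ
        exact absurd hβ (Nat.not_lt_zero _)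
    · rintro (i | j)
      · have h1 := F.2.2 i.1
        have h2 : p₀ i.1 = Fin.cons 1 (pos (Sum.inl i)) := by
          simp only [p₀]
          rw [dif_neg i.2]
        rw [h2] at h1
        intro α hα
        exact dehA_vanish F.1 _ (m i.1) h1 α hα
      · intro α hα
        have hα0 : α = 0 := by
          change ∑ i, α i < 1 at hα
          have h2 : ∑ i, α i = 0 := by omega
          rw [sum_eq_zero_iff] at h2
          funext i
          exact h2 i (mem_univ _)
        subst hα0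
        exact congrFun hF j
  have := LinearMap.finrank_le_finrank_of_injective hΨ
  rwa [Module.finrank_fintype_fun_eq_card, Fintype.card_fin] at this

end Pool.Agent.H18.Ua

end

section

/-!
# Module VGen (UB): general points
-/

namespace Pool.Agent.H18.Ub

open Finset Pool.Agent.H18.Ex Pool.Agent.H18.Cub Pool.Agent.H18.Pr Pool.Agent.H18.Ua Pool.Agent.H18.Fat

/-- From exactness to general points. -/
theorem general_of_exactV {n k : ℕ} (P : Fin k → Fin (n + 1) → ℂ) (m : Fin k → ℕ)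
    (J : Finset (Fin k)) {M : ℕ} (hM : 1 ≤ M) (hJ : ∀ i, i ∉ J → m i ≤ M) (d : ℕ)
    (h : ∀ G : Multiset ℕ, (∀ μ ∈ G, μ ≤ M) →
      (fatFam P fun i => if i ∈ J then m i else 0).h d ≤ (G.map (ell (n + 1))).sum →
      Fk ((fatFam P fun i => if i ∈ J then m i else 0).W d) G) (v : ℕ)
    (hv : ((fatFam P fun i => if i ∈ J then m i else 0).h d : ℤ) ≤
      v + ∑ i ∈ univ.filter (fun i => i ∉ J), ((m i + (n + 1) - 1).choose (n + 1) : ℤ)) :
    ∃ p₀ : Fin k → Fin (n + 1 + 1) → ℂ, (∀ i, p₀ i 0 = 1) ∧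
      Module.finrank ℂ (fatForms (n + 1) d p₀ m) ≤ v := by
  classical
  apply special_of_fatFam P m J d v
  apply h
  · intro μ hμ
    obtain ⟨x, _, rfl⟩ := Multiset.mem_map.1 hμ
    rcases x with i | j
    · exact hJ i.1 i.2
    · exact hM
  · rw [Multiset.map_map]
    change _ ≤ ∑ x : {i : Fin k // i ∉ J} ⊕ Fin v,
      (ell (n + 1) ∘ Sum.elim (fun i : {i : Fin k // i ∉ J} => m i.1) fun _ => 1) x
    rw [Fintype.sum_sum_type]
    have h1 : ∑ j : Fin v, (ell (n + 1) ∘ Sum.elim (fun i : {i : Fin k // i ∉ J} => m i.1)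
        fun _ => 1) (Sum.inr j) = v := by
      simp [ell_one]
    have h2 : ∑ i : {i : Fin k // i ∉ J}, (ell (n + 1) ∘ Sum.elim
        (fun i : {i : Fin k // i ∉ J} => m i.1) fun _ : Fin v => 1) (Sum.inl i) =
        ∑ i ∈ univ.filter (fun i => i ∉ J), ell (n + 1) (m i) := by
      rw [sum_subtype (p := fun i => i ∉ J) (univ.filter fun i => i ∉ J) (by simp)
        (fun i => ell (n + 1) (m i))]
      rfl
    have h9 : ∑ i ∈ univ.filter (fun i => i ∉ J), ((m i + (n + 1) - 1).choose (n + 1) : ℤ) =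
        ((∑ i ∈ univ.filter (fun i => i ∉ J), ell (n + 1) (m i) : ℕ) : ℤ) := by
      push_cast
      rfl
    rw [h1, h2]
    rw [h9] at hv
    omega

theorem ell_le_succ (n : ℕ) (M : ℕ) : ell n M ≤ ell (n + 1) M + 0 ∨ M = 0 := by
  rcases Nat.eq_zero_or_pos M with h | h
  · exact Or.inr h
  · left
    have h1 := ell_succ n (M - 1)
    rw [Nat.sub_add_cancel h] at h1
    omega

/-- The constants. -/
theorem consts_le (n : ℕ) {M : ℕ} (hM : 1 ≤ M) :
    EV (n + 1) M ≤ 16 * M ^ 2 * ell (n + 2) M ∧ CU (n + 1) M ≤ 66 * M ^ 3 * ell (n + 2) M := by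
  have hB : ell (n + 1) M ≤ ell (n + 2) M := by
    have := (ell_le_succ (n + 1) M).resolve_right (by omega)
    exact this
  constructor
  · unfold EV
    calc 8 * M * (M + 1) * ell (n + 1) M ≤ 8 * M * (2 * M) * ell (n + 2) M :=
          Nat.mul_le_mul (Nat.mul_le_mul_left _ (by omega)) hB
      _ = 16 * M ^ 2 * ell (n + 2) M := by ring
  · unfold CU qU
    have h1 : M ≤ M ^ 2 := Nat.le_self_pow (by norm_num) M
    have h2 : 4 * M * ell (n + 1) M ≤ 4 * M ^ 2 * ell (n + 2) M :=
      Nat.mul_le_mul (Nat.mul_le_mul_left _ h1) hB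
    calc 11 * M * (2 * M ^ 2 * ell (n + 1 + 1) M + 4 * M * ell (n + 1) M) ≤
          11 * M * (2 * M ^ 2 * ell (n + 2) M + 4 * M ^ 2 * ell (n + 2) M) :=
          Nat.mul_le_mul_left _ (Nat.add_le_add_left h2 _)
      _ = 66 * M ^ 3 * ell (n + 2) M := by ring

end Pool.Agent.H18.Ub

end

section

/-!
# A form of degree `e < s m` has fewer than `s ^ r` general points of multiplicity `m`
-/

namespace Pool.Agent.H74.BP

open MvPolynomial Pool.Agent.H18.Fat Pool.Agent.H18.Ub Pool.Agent.H22.LU Pool.Agent.H74.CT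

theorem perf_le {r s e n : ℕ} (hs : 0 < s) (b : Fin r → Fin s) (h : e < s * n) :
    perf e b ≤ n := by
  unfold perf
  split_ifs
  · have h1 : (e - gsum b) / s ≤ e / s := Nat.div_le_div_right (Nat.sub_le _ _)
    have h2 : e / s < n := (Nat.div_lt_iff_lt_mul hs).2 (by rwa [Nat.mul_comm])
    omega
  · exact Nat.zero_le _

theorem few_big (r s : ℕ) (hr : 1 ≤ r) (hs : 1 ≤ s) (k e : ℕ) (m : Fin k → ℕ)
    (J : Finset (Fin k)) (hJ : ∀ i ∈ J, e < s * m i)
    (hpos : 1 ≤ generalDim r e fun i => if i ∈ J then m i else 0) : J.card < s ^ r := by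
  classical
  by_contra hcon
  push Not at hcon
  have hζ := Complex.isPrimitiveRoot_exp s (by omega)
  set ζ := Complex.exp (2 * Real.pi * Complex.I / (s : ℂ)) with hζdef
  have hcard : Fintype.card (Fin r → Fin s) ≤ Fintype.card J := by
    rw [Fintype.card_fun, Fintype.card_fin, Fintype.card_fin, Fintype.card_coe]
    exact hcon
  obtain ⟨ψ⟩ := Function.Embedding.nonempty_of_card_le hcard
  set φ : (Fin r → Fin s) → Fin k := fun b => (ψ b).1 with hφ
  have hφi : Function.Injective φ := fun b b' h => ψ.injective (Subtype.ext h)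
  set p₀ : Fin k → Fin (r + 1) → ℂ := Function.extend φ (fun b => gridPt ζ b) fun _ => 0 with hp₀
  have h1 : fatForms r e p₀ (fun i => if i ∈ J then m i else 0) = ⊥ := by
    have h2 : fatForms r e (fun b : Fin r → Fin s => gridPt ζ b) (perf e) = ⊥ := by
      have h3 := finrank_of_surjective hr (fun b : Fin r → Fin s => gridPt_ne ζ b)
        (grid_surjective e hr (by omega) hζ)
      rw [sum_perf hr (by omega)] at h3
      have h4 : Module.finrank ℂ (fatForms r e (fun b : Fin r → Fin s => gridPt ζ b) (perf e)) = 0 :=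
        Nat.add_left_cancel (h3.trans (Nat.add_zero _).symm)
      have := fin_fatForms r e (fun b : Fin r → Fin s => gridPt ζ b) (perf e)
      exact Submodule.finrank_eq_zero.1 h4
    rw [eq_bot_iff, ← h2]
    intro F hF
    refine ⟨hF.1, fun b => ?_⟩
    have h3 := hF.2 (φ b)
    dsimp only at h3
    rw [if_pos (ψ b).2, hp₀, hφi.extend_apply] at h3
    exact van_mono h3 (perf_le (by omega) b (hJ _ (ψ b).2))
  have h2 : generalDim r e (fun i => if i ∈ J then m i else 0) ≤ 0 := by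
    refine Nat.sInf_le ⟨p₀, ?_⟩
    rw [h1, finrank_bot]
  omega

end Pool.Agent.H74.BP

end

section

/-!
# The semigroup of multiplicities and leading exponents
-/

namespace Pool.Agent.H74.BP

open MvPolynomial Pool.Agent.H18.Fat Pool.Agent.H22.LU Pool.Agent.H74.CT

/-- Restriction to the hyperplane `x_0 = 0`. -/
noncomputable def res (s : ℕ) : MvPolynomial (Fin (s + 1)) ℂ →ₐ[ℂ] MvPolynomial (Fin s) ℂ :=
  aeval (Fin.cons 0 X : Fin (s + 1) → MvPolynomial (Fin s) ℂ)

theorem res_monomial (s : ℕ) (α : Fin (s + 1) →₀ ℕ) (c : ℂ) :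
    res s (monomial α c) = if α 0 = 0 then monomial (Finsupp.tail α) c else 0 := by
  unfold res
  rw [aeval_monomial, Finsupp.prod_fintype _ _ fun _ => pow_zero _, Fin.prod_univ_succ,
    Fin.cons_zero]
  by_cases h : α 0 = 0
  · rw [if_pos h, h, pow_zero, one_mul, monomial_eq, algebraMap_eq,
      Finsupp.prod_fintype _ _ fun _ => pow_zero _]
    congr 1
  · rw [if_neg h, zero_pow h, zero_mul, mul_zero]

theorem coeff_res (s : ℕ) (F : MvPolynomial (Fin (s + 1)) ℂ) (β : Fin s →₀ ℕ) :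
    coeff β (res s F) = coeff (Finsupp.cons 0 β) F := by
  classical
  induction F using MvPolynomial.induction_on' with
  | monomial α c =>
    rw [res_monomial, coeff_monomial]
    by_cases h : α 0 = 0
    · rw [if_pos h, coeff_monomial]
      by_cases h1 : Finsupp.tail α = β
      · rw [if_pos h1, if_pos]
        rw [← h1, ← h, Finsupp.cons_tail]
      · rw [if_neg h1, if_neg]
        intro h2
        apply h1
        rw [h2, Finsupp.tail_cons]
    · rw [if_neg h, coeff_zero, if_neg]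
      intro h2
      apply h
      rw [h2, Finsupp.cons_zero]
  | add p q hp hq => rw [map_add, coeff_add, coeff_add, hp, hq]

theorem dvd_of_res (s : ℕ) {F : MvPolynomial (Fin (s + 1)) ℂ} (h : res s F = 0) : X 0 ∣ F := by
  rw [X_dvd_iff_modMonomial_eq_zero]
  ext α
  rw [coeff_zero]
  by_cases hα : Finsupp.single 0 1 ≤ α
  · exact coeff_modMonomial_of_le _ hα
  · rw [coeff_modMonomial_of_not_le _ hα]
    have h0 : α 0 = 0 := by
      by_contra hc
      apply hα
      rw [Finsupp.single_le_iff]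
      omega
    have h1 := coeff_res s F (Finsupp.tail α)
    rw [h, coeff_zero, ← h0, Finsupp.cons_tail] at h1
    exact h1.symm

theorem res_X_zero (s : ℕ) : res s (X 0) = 0 := by
  unfold res
  rw [aeval_X, Fin.cons_zero]

theorem res_X_succ (s : ℕ) (i : Fin s) : res s (X i.succ) = X i := by
  unfold res
  rw [aeval_X, Fin.cons_succ]

theorem res_hom (s d : ℕ) {F : MvPolynomial (Fin (s + 1)) ℂ} (hF : F.IsHomogeneous d) :
    (res s F).IsHomogeneous d := by
  intro β hβ
  rw [coeff_res] at hβ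
  have h1 := hF hβ
  rw [Finsupp.weight_apply, Finsupp.sum_fintype _ _ (fun _ => by simp)] at h1 ⊢
  rw [Fin.sum_univ_succ] at h1
  simpa using h1

theorem finrank_res (s : ℕ) (V V' : Submodule ℂ (MvPolynomial (Fin (s + 1)) ℂ))
    [FiniteDimensional ℂ V] (h1 : ∀ F ∈ V', X 0 * F ∈ V) (h2 : ∀ F, X 0 * F ∈ V → F ∈ V') :
    Module.finrank ℂ (Submodule.map (res s).toLinearMap V) + Module.finrank ℂ V' =
      Module.finrank ℂ V := by
  let μ : MvPolynomial (Fin (s + 1)) ℂ →ₗ[ℂ] MvPolynomial (Fin (s + 1)) ℂ :=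
    LinearMap.mulLeft ℂ (X 0)
  have hμ : Function.Injective μ := fun a b hab => mul_left_cancel₀ (X_ne_zero 0) hab
  have hle : Submodule.map μ V' ≤ V := by
    rintro F ⟨R, hR, rfl⟩
    exact h1 R hR
  have e1 : Module.finrank ℂ (Submodule.map μ V') = Module.finrank ℂ V' :=
    (Submodule.equivMapOfInjective μ hμ V').finrank_eq.symm
  have e2 : LinearMap.ker ((res s).toLinearMap.domRestrict V) =
      Submodule.comap V.subtype (Submodule.map μ V') := by
    ext F
    rw [LinearMap.mem_ker, Submodule.mem_comap]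
    constructor
    · intro h
      obtain ⟨R, hR⟩ := dvd_of_res s (F := F.1) h
      refine ⟨R, h2 R ?_, hR.symm⟩
      rw [← hR]
      exact F.2
    · rintro ⟨R, -, hR⟩
      change res s F.1 = 0
      have h3 : X 0 * R = F.1 := hR
      rw [← h3, map_mul, res_X_zero, zero_mul]
  have e3 := LinearMap.finrank_range_add_finrank_ker ((res s).toLinearMap.domRestrict V)
  rw [LinearMap.range_domRestrict, e2, (Submodule.comapSubtypeEquivOfLe hle).finrank_eq, e1] at e3
  exact e3

/-- The semigroup. -/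
def GS {s a : ℕ} (p : Fin a → Fin (s + 1 + 1) → ℂ) (m : Fin a → ℤ) (α : Fin (s + 1) → ℕ) : Prop :=
  ∃ F ∈ fatForms (s + 1) (∑ i, α i) p (fun l => (m l).toNat), res (s + 1) F ≠ 0 ∧
    ∀ i, (MonomialOrder.lex (σ := Fin (s + 1))).degree (res (s + 1) F) i = α i

variable {s a : ℕ} {p : Fin a → Fin (s + 1 + 1) → ℂ}

theorem sem_GS (hp : ∀ l, p l 0 ≠ 0) : Sem a s (GS p) where
  add := by
    rintro m α m' α' ⟨F, hF, hF0, hFα⟩ ⟨G, hG, hG0, hGα⟩
    refine ⟨F * G, ⟨?_, fun l => ?_⟩, ?_, fun i => ?_⟩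
    · have h1 := hF.1.mul hG.1
      rw [← Finset.sum_add_distrib] at h1
      exact h1
    · refine van_mono (van_mul (hF.2 l) (hG.2 l)) ?_
      change ((m + m') l).toNat ≤ (m l).toNat + (m' l).toNat
      rw [Pi.add_apply]
      omega
    · rw [map_mul]
      exact mul_ne_zero hF0 hG0
    · rw [map_mul, MonomialOrder.degree_mul hF0 hG0, Finsupp.add_apply, hFα, hGα]
      rfl
  mono := by
    rintro m m' α ⟨F, hF, hF0, hFα⟩ hle
    refine ⟨F, ⟨hF.1, fun l => van_mono (hF.2 l) ?_⟩, hF0, hFα⟩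
    have h9 : m' l ≤ m l := hle l
    exact Int.toNat_le_toNat h9
  zero := by
    refine ⟨1, ⟨?_, fun l => ?_⟩, ?_, fun i => ?_⟩
    · have : ∑ i : Fin (s + 1), (0 : Fin (s + 1) → ℕ) i = 0 := by simp
      rw [this]
      exact isHomogeneous_one _ _
    · exact vanishes_zero _ _
    · rw [map_one]
      exact one_ne_zero
    · rw [map_one, MonomialOrder.degree_one]
      rfl
  unit := by
    intro i
    refine ⟨X i.succ, ⟨?_, fun l => ?_⟩, ?_, fun j => ?_⟩
    · rw [Finset.sum_pi_single' i 1 Finset.univ, if_pos (Finset.mem_univ i)]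
      exact isHomogeneous_X ℂ i.succ
    · exact vanishes_zero _ _
    · rw [res_X_succ]
      exact X_ne_zero i
    · rw [res_X_succ, MonomialOrder.degree_X, Finsupp.single_eq_pi_single]
  lin := by
    intro l
    have h1 : res (s + 1) (C (p l 0) * X 1 - C (p l 1) * X 0) = C (p l 0) * X 0 := by
      rw [map_sub, map_mul, map_mul, res_X_zero, mul_zero, sub_zero]
      have h2 : (1 : Fin (s + 1 + 1)) = (0 : Fin (s + 1)).succ := rfl
      rw [h2, res_X_succ]
      congr 1
      unfold res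
      rw [aeval_C]
      rfl
    have hC : (C (p l 0) : MvPolynomial (Fin (s + 1)) ℂ) ≠ 0 := by
      rw [Ne, C_eq_zero]
      exact hp l
    refine ⟨C (p l 0) * X 1 - C (p l 1) * X 0, ⟨?_, fun l' => ?_⟩, ?_, fun j => ?_⟩
    · rw [Finset.sum_pi_single' 0 1 Finset.univ, if_pos (Finset.mem_univ 0)]
      refine IsHomogeneous.sub ?_ ?_
      · simpa using (isHomogeneous_C _ (p l 0)).mul (isHomogeneous_X ℂ (1 : Fin (s + 1 + 1)))
      · simpa using (isHomogeneous_C _ (p l 1)).mul (isHomogeneous_X ℂ (0 : Fin (s + 1 + 1)))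
    · by_cases h2 : l' = l
      · subst h2
        change VanishesToOrder _ _ ((Pi.single l' (1 : ℤ) : Fin a → ℤ) l').toNat
        rw [Pi.single_eq_same]
        change VanishesToOrder _ _ 1
        rw [vanishes_one_iff]
        simp only [map_sub, map_mul, eval_C, eval_X]
        ring
      · change VanishesToOrder _ _ ((Pi.single l (1 : ℤ) : Fin a → ℤ) l').toNat
        rw [Pi.single_eq_of_ne h2]
        exact vanishes_zero _ _
    · rw [h1]
      exact mul_ne_zero hC (X_ne_zero 0)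
    · rw [h1, MonomialOrder.degree_mul hC (X_ne_zero 0), MonomialOrder.degree_C,
        MonomialOrder.degree_X, zero_add, Finsupp.single_eq_pi_single]

theorem GS_le (m : Fin a → ℤ) (α : Fin (s + 1) → ℕ) (h : GS p m α) (l : Fin a) :
    m l ≤ ((∑ i, α i : ℕ) : ℤ) := by
  obtain ⟨F, hF, hF0, -⟩ := h
  by_contra hc
  push Not at hc
  apply hF0
  have h1 : F = 0 := by
    refine Pool.Agent.H18.Nef.eq_zero_of_vanishes (m := (m l).toNat) F hF.1 (p l) ?_ (hF.2 l)
    omega
  rw [h1, map_zero]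

/-- The number of the exponents. -/
theorem ncard_GS (hp : ∀ l, p l 0 ≠ 0) (m : Fin a → ℕ) (d : ℕ) :
    {α : Fin (s + 1) → ℕ | ∑ i, α i = d + 1 ∧ GS p (fun l => (m l : ℤ)) α}.ncard +
      Module.finrank ℂ (fatForms (s + 1) d p m) =
      Module.finrank ℂ (fatForms (s + 1) (d + 1) p m) := by
  have i1 := fin_fatForms (s + 1) (d + 1) p m
  set V := fatForms (s + 1) (d + 1) p m with hV
  set W := Submodule.map (res (s + 1)).toLinearMap V with hW
  have i2 : FiniteDimensional ℂ W := by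
    rw [hW]
    infer_instance
  obtain ⟨-, h2⟩ := ncard_LM W
  have hset : {α : Fin (s + 1) → ℕ | ∑ i, α i = d + 1 ∧ GS p (fun l => (m l : ℤ)) α} =
      (fun α : Fin (s + 1) →₀ ℕ => (α : Fin (s + 1) → ℕ)) '' LM W := by
    ext α
    constructor
    · rintro ⟨h3, F, hF, hF0, hFα⟩
      rw [h3] at hF
      refine ⟨(MonomialOrder.lex (σ := Fin (s + 1))).degree (res (s + 1) F),
        ⟨res (s + 1) F, ⟨F, ⟨hF.1, fun l => hF.2 l⟩, rfl⟩, hF0, rfl⟩, ?_⟩
      funext i
      exact hFα i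
    · rintro ⟨β, ⟨G, ⟨F, hF, hFG⟩, hG0, hGβ⟩, rfl⟩
      have hFG' : res (s + 1) F = G := hFG
      subst hFG'
      have h3 : ∑ i, β i = d + 1 := by
        have h4 := res_hom (s + 1) (d + 1) hF.1
          ((MonomialOrder.lex (σ := Fin (s + 1))).coeff_degree_ne_zero_iff.2 hG0)
        rw [hGβ, Finsupp.weight_apply, Finsupp.sum_fintype _ _ (fun _ => by simp)] at h4
        simpa using h4
      refine ⟨h3, F, ?_, hG0, fun i => by rw [hGβ]⟩
      rw [h3]
      exact ⟨hF.1, fun l => hF.2 l⟩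
  rw [hset, Set.ncard_image_of_injective _ DFunLike.coe_injective, h2]
  refine finrank_res (s + 1) V _ (fun F hF => ⟨?_, fun l => ?_⟩) fun F hF =>
    ⟨hom_div hF.1, fun l => van_div (by rw [eval_X]; exact hp l) (hF.2 l)⟩
  · rw [Nat.add_comm d 1]
    exact (isHomogeneous_X ℂ 0).mul hF.1
  · have h1 := van_mul (vanishes_zero (p l) (X 0)) (hF.2 l)
    rwa [Nat.zero_add] at h1

/-- A form not divisible by `x_0`. -/
theorem exists_GS (hp : ∀ l, p l 0 ≠ 0) (m : Fin a → ℕ) : ∀ (e : ℕ),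
    (∃ F ∈ fatForms (s + 1) e p m, F ≠ 0) →
    ∃ β : Fin (s + 1) → ℕ, GS p (fun l => (m l : ℤ)) β ∧ ∑ i, β i ≤ e := by
  intro e
  induction e with
  | zero =>
    rintro ⟨F, hF, hF0⟩
    refine ⟨0, ⟨F, ?_, ?_, fun i => ?_⟩, by simp⟩
    · have : ∑ i : Fin (s + 1), (0 : Fin (s + 1) → ℕ) i = 0 := by simp
      rw [this]
      exact ⟨hF.1, fun l => hF.2 l⟩
    · intro h
      obtain ⟨R, rfl⟩ := dvd_of_res (s + 1) h
      have h1 := hF.1.totalDegree hF0
      rw [totalDegree_mul_of_isDomain (X_ne_zero 0) (right_ne_zero_of_mul hF0),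
        totalDegree_X] at h1
      omega
    · have h1 : F = C (coeff 0 F) := by
        have h2 := hF.1.totalDegree hF0
        exact totalDegree_eq_zero_iff_eq_C.1 h2
      rw [h1]
      have h2 : res (s + 1) (C (coeff 0 F)) = C (coeff 0 F) := by
        unfold res
        rw [aeval_C]
        rfl
      rw [h2, MonomialOrder.degree_C]
      rfl
  | succ e ih =>
    rintro ⟨F, hF, hF0⟩
    by_cases h : res (s + 1) F = 0
    · obtain ⟨R, rfl⟩ := dvd_of_res (s + 1) h
      obtain ⟨β, h1, h2⟩ := ih ⟨R, ⟨hom_div hF.1, fun l =>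
        van_div (by rw [eval_X]; exact hp l) (hF.2 l)⟩, right_ne_zero_of_mul hF0⟩
      exact ⟨β, h1, by omega⟩
    · set β : Fin (s + 1) → ℕ := fun i =>
        (MonomialOrder.lex (σ := Fin (s + 1))).degree (res (s + 1) F) i with hβ
      have h3 : ∑ i, β i = e + 1 := by
        have h4 := res_hom (s + 1) (e + 1) hF.1
          ((MonomialOrder.lex (σ := Fin (s + 1))).coeff_degree_ne_zero_iff.2 h)
        rw [Finsupp.weight_apply, Finsupp.sum_fintype _ _ (fun _ => by simp)] at h4
        simpa using h4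
      refine ⟨β, ⟨F, ?_, h, fun i => rfl⟩, h3.le⟩
      rw [h3]
      exact ⟨hF.1, fun l => hF.2 l⟩

end Pool.Agent.H74.BP

end

section

/-!
# The growth condition for big classes
-/

namespace Pool.Agent.H74.BP

open MvPolynomial Pool.Agent.H18.Fat Pool.Agent.H18.Ub Pool.Agent.H22.LU Pool.Agent.H74.CT

theorem big_growth_fin (s a : ℕ) (hs : 1 ≤ s) (C E T : ℕ) (hE : 1 ≤ E) (hT : 1 ≤ T) :
    ∃ d₀ : ℕ, ∀ d, d₀ ≤ d → ∀ m : Fin a → ℕ,
      (∃ e, T * e + d ≤ T * d ∧ 1 ≤ generalDim (s + 1) e m) →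
      E * ((generalDim (s + 1) d m - generalDim (s + 1) (d - 1) m) -
        (generalDim (s + 1) (d - C) m - generalDim (s + 1) (d - C - 1) m)) ≤
      generalDim (s + 1) d m - generalDim (s + 1) (d - 1) m := by
  classical
  obtain ⟨f, hf⟩ := exists_surjective_nat (ℕ × (Fin a → ℕ))
  obtain ⟨p, hp⟩ := exists_veryGeneral (r := s + 1) (k := a) (P := fun n p =>
    Module.finrank ℂ (fatForms (s + 1) (f n).1 p (f n).2) = generalDim (s + 1) (f n).1 (f n).2 ∧
      ∀ i, p i 0 ≠ 0) fun n =>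
    (generalDim_spec (s + 1) (f n).1 (f n).2).and
      (Pool.Agent.H18.Pr.general_ne_zero (s + 1) a)
  have hp0 : ∀ l, p l 0 ≠ 0 := (hp 0).2
  have hdim : ∀ (d : ℕ) (m : Fin a → ℕ),
      Module.finrank ℂ (fatForms (s + 1) d p m) = generalDim (s + 1) d m := by
    intro d m
    obtain ⟨n, hn⟩ := hf (d, m)
    have h1 := (hp n).1
    rw [hn] at h1
    exact h1
  have hsem := sem_GS hp0
  obtain ⟨d₁, h1⟩ := hsem.slow hs (fun m α h => GS_le m α h) C E T hE hT
  refine ⟨d₁ + C + 1, fun d hd m hm => ?_⟩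
  obtain ⟨e, he, hpos⟩ := hm
  have hne : fatForms (s + 1) e p m ≠ ⊥ := by
    intro h
    rw [← hdim, h, finrank_bot] at hpos
    omega
  obtain ⟨F, hF, hF0⟩ := Submodule.exists_mem_ne_zero_of_ne_bot hne
  obtain ⟨β, hβ1, hβ2⟩ := exists_GS hp0 m e ⟨F, hF, hF0⟩
  have h2 := h1 d (by omega) m ⟨β, hβ1, by
    have : T * ∑ i, β i ≤ T * e := Nat.mul_le_mul_left _ hβ2
    omega⟩
  obtain ⟨d', rfl⟩ : ∃ d', d = d' + 1 := ⟨d - 1, by omega⟩
  obtain ⟨d'', hd''⟩ : ∃ d'', d' + 1 - C = d'' + 1 := ⟨d' + 1 - C - 1, by omega⟩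
  have h3 := ncard_GS hp0 m d'
  have h4 := ncard_GS hp0 m d''
  rw [hdim, hdim] at h3 h4
  rw [hd''] at h2 ⊢
  have e1 : d' + 1 - 1 = d' := rfl
  have e2 : d'' + 1 - 1 = d'' := rfl
  rw [e1, e2]
  have h5 : generalDim (s + 1) (d' + 1) m - generalDim (s + 1) d' m =
      {α : Fin (s + 1) → ℕ | ∑ i, α i = d' + 1 ∧ GS p (fun l => (m l : ℤ)) α}.ncard := by omega
  have h6 : generalDim (s + 1) (d'' + 1) m - generalDim (s + 1) d'' m =
      {α : Fin (s + 1) → ℕ | ∑ i, α i = d'' + 1 ∧ GS p (fun l => (m l : ℤ)) α}.ncard := by omega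
  rw [h5, h6]
  exact h2

theorem fatForms_pad (r j : ℕ) {k a : ℕ} (p : Fin k → Fin (r + 1) → ℂ) (m : Fin k → ℕ)
    (J : Finset (Fin k)) (hJ : J.card = a) :
    fatForms r j p (fun i => if i ∈ J then m i else 0) =
      fatForms r j (fun l => p (J.orderEmbOfFin hJ l)) (fun l => m (J.orderEmbOfFin hJ l)) := by
  ext F
  constructor
  · rintro ⟨h1, h2⟩
    refine ⟨h1, fun l => ?_⟩
    have h3 := h2 (J.orderEmbOfFin hJ l)
    dsimp only at h3
    rw [if_pos (J.orderEmbOfFin_mem hJ l)] at h3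
    exact h3
  · rintro ⟨h1, h2⟩
    refine ⟨h1, fun i => ?_⟩
    dsimp only
    by_cases hi : i ∈ J
    · rw [if_pos hi]
      have h3 : i ∈ Set.range (J.orderEmbOfFin hJ) := by
        rw [Finset.range_orderEmbOfFin]
        exact hi
      obtain ⟨l, rfl⟩ := h3
      exact h2 l
    · rw [if_neg hi]
      exact vanishes_zero _ _

theorem generalDim_pad (r j : ℕ) {k a : ℕ} (m : Fin k → ℕ) (J : Finset (Fin k))
    (hJ : J.card = a) :
    generalDim r j (fun i => if i ∈ J then m i else 0) =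
      generalDim r j (fun l => m (J.orderEmbOfFin hJ l)) := by
  classical
  unfold generalDim
  congr 1
  ext x
  constructor
  · rintro ⟨p, hp⟩
    refine ⟨fun l => p (J.orderEmbOfFin hJ l), ?_⟩
    rw [← fatForms_pad]
    exact hp
  · rintro ⟨p', hp'⟩
    refine ⟨Function.extend (J.orderEmbOfFin hJ) p' fun _ => 0, ?_⟩
    rw [fatForms_pad r j _ m J hJ]
    have h1 : (fun l => Function.extend (J.orderEmbOfFin hJ) p' (fun _ => 0)
        (J.orderEmbOfFin hJ l)) = p' := by
      funext l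
      exact (J.orderEmbOfFin hJ).injective.extend_apply _ _ _
    rw [h1]
    exact hp'

/-- The growth condition for big classes, uniformly in the multiplicities. -/
theorem big_growth (r a : ℕ) (hr : 2 ≤ r) (C E T : ℕ) (hE : 1 ≤ E) (hT : 1 ≤ T) :
    ∃ d₀ : ℕ, ∀ d, d₀ ≤ d → ∀ (k : ℕ) (m : Fin k → ℕ) (J : Finset (Fin k)), J.card ≤ a →
      ∀ h : ℕ → ℕ, (∀ j, h j = generalDim r j fun i => if i ∈ J then m i else 0) →
      (∃ e, T * e + d ≤ T * d ∧ 1 ≤ h e) →
      E * ((h d - h (d - 1)) - (h (d - C) - h (d - C - 1))) ≤ h d - h (d - 1) := by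
  obtain ⟨s, rfl⟩ : ∃ s, r = s + 1 := ⟨r - 1, by omega⟩
  choose f hf using fun a => big_growth_fin s a (by omega) C E T hE hT
  refine ⟨(Finset.range (a + 1)).sup f, fun d hd k m J hJ h hh he => ?_⟩
  have h1 : f J.card ≤ d := (Finset.le_sup (f := f) (Finset.mem_range.2 (by omega))).trans hd
  have h2 : ∀ j, h j = generalDim (s + 1) j fun l => m (J.orderEmbOfFin rfl l) := fun j => by
    rw [hh, generalDim_pad (s + 1) j m J rfl]
  obtain ⟨e, he1, he2⟩ := he
  rw [h2] at he2
  rw [h2, h2, h2, h2]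
  exact hf J.card d h1 _ ⟨e, he1, he2⟩

end Pool.Agent.H74.BP

end
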