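import Pool.Agent.H94.LP3.M25
import Pool.Agent.H94.LP3.M28

/-! The parts of this file: H74.CT.Grid, H74.CT.Gain, H74.CT.Two_1. -/

section

/-!
# The grid configuration: `2 ^ r` points of multiplicity about `t / 2` in degree `t`
-/

namespace Pool.Agent.H74.CT

open Pool.Agent.H18.Fat Pool.Agent.H18.Ub Finset

/-- Multiplicities dominated by the perfect grid impose independent conditions. -/
theorem grid_general (r t k : ℕ) (hr : 1 ≤ r) (w : Fin k → ℕ) (b : Fin k → Fin r → Fin 2)
    (J : Finset (Fin k)) (hb : ∀ i ∈ J, ∀ j ∈ J, b i = b j → i = j)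
    (hw : ∀ i ∈ J, w i = 0 ∨ 2 * (w i - 1) + gsum (b i) ≤ t) (h0 : ∀ i, i ∉ J → w i = 0) :
    generalDim r t w + ∑ i, (w i + r - 1).choose r = (t + r).choose r := by
  classical
  have hζ := Complex.isPrimitiveRoot_exp 2 two_ne_zero
  set ζ := Complex.exp (2 * Real.pi * Complex.I / ((2 : ℕ) : ℂ)) with hζdef
  let κ := {i : Fin k // i ∈ J}
  let φ : κ → (Fin r → Fin 2) := fun i => b i.1
  have hφ : Function.Injective φ := fun i j hij => Subtype.ext (hb i.1 i.2 j.1 j.2 hij)
  have hsurj := surjective_of_sub (grid_surjective t hr two_pos hζ) φ hφ (fun i => w i.1)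
    (fun i => by
      rcases hw i.1 i.2 with h | h
      · rw [h]
        exact Nat.zero_le _
      · exact le_perf two_pos (b i.1) h)
  have hfr := finrank_of_surjective hr (fun i : κ => gridPt_ne ζ (φ i)) hsurj
  let p₀ : Fin k → Fin (r + 1) → ℂ := fun i => gridPt ζ (b i)
  have heq : fatForms r t p₀ w = fatForms r t (fun i : κ => gridPt ζ (φ i)) (fun i => w i.1) := by
    ext F
    constructor
    · rintro ⟨h1, h2⟩
      exact ⟨h1, fun i => h2 i.1⟩
    · rintro ⟨h1, h2⟩
      refine ⟨h1, fun i => ?_⟩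
      by_cases h : i ∈ J
      · exact h2 ⟨i, h⟩
      · rw [h0 i h]
        exact fun β hβ => absurd hβ (Nat.not_lt_zero _)
  have hsum : ∑ i : κ, (w i.1 + r - 1).choose r = ∑ i, (w i + r - 1).choose r := by
    refine (Finset.sum_coe_sort J fun i => (w i + r - 1).choose r).trans ?_
    refine sum_subset (subset_univ J) fun i _ hi => ?_
    rw [h0 i hi, Nat.choose_eq_zero_of_lt (by omega)]
  rw [hsum, ← heq] at hfr
  have hle : generalDim r t w ≤ Module.finrank ℂ (fatForms r t p₀ w) := Nat.sInf_le ⟨p₀, rfl⟩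
  have hge := generalDim_ge hr t w
  have hc : ((∑ i, (w i + r - 1).choose r : ℕ) : ℤ) = ∑ i, ((w i + r - 1).choose r : ℤ) := by
    push_cast
    rfl
  rw [← hc] at hge
  omega

/-- The indicator of a set. -/
def ind {r : ℕ} (S : Finset (Fin r)) : Fin r → Fin 2 := fun j => if j ∈ S then 1 else 0

theorem gsum_ind {r : ℕ} (S : Finset (Fin r)) : gsum (ind S) = S.card := by
  unfold gsum ind
  have h : ∀ j : Fin r, (((if j ∈ S then (1 : Fin 2) else 0) : Fin 2) : ℕ) =
      if j ∈ S then 1 else 0 := by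
    intro j
    split_ifs <;> rfl
  rw [sum_congr rfl fun j _ => h j, ← sum_filter]
  simp

theorem ind_injective {r : ℕ} {S T : Finset (Fin r)} (h : ind S = ind T) : S = T := by
  ext j
  have h1 := congrFun h j
  unfold ind at h1
  by_cases hS : j ∈ S <;> by_cases hT : j ∈ T <;> simp [hS, hT] at h1 ⊢

/-- The number of the sets with at most `e` elements. -/
theorem card_small (r e : ℕ) :
    (univ.filter fun S : Finset (Fin r) => S.card ≤ e).card = ∑ t ∈ range (e + 1), r.choose t := by
  classical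
  have h : ∀ S ∈ univ.filter (fun S : Finset (Fin r) => S.card ≤ e), S.card ∈ range (e + 1) := by
    intro S hS
    rw [mem_filter] at hS
    rw [mem_range]
    omega
  rw [card_eq_sum_card_fiberwise h]
  refine sum_congr rfl fun t ht => ?_
  rw [mem_range] at ht
  have h1 : (univ.filter fun S : Finset (Fin r) => S.card ≤ e).filter (fun S => S.card = t) =
      powersetCard t univ := by
    ext S
    rw [mem_filter, mem_filter, mem_powersetCard]
    constructor
    · rintro ⟨_, h3⟩
      exact ⟨subset_univ S, h3⟩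
    · rintro ⟨_, h3⟩
      exact ⟨⟨mem_univ S, by omega⟩, h3⟩
  rw [h1, card_powersetCard, card_univ, Fintype.card_fin]

/-- A labelling of the points of `J` by the vertices of the cube, `P` being labelled by zero. -/
theorem exists_labels {r k e : ℕ} (J : Finset (Fin k)) {P : Fin k} (hP : P ∈ J)
    (hJ : J.card ≤ ∑ t ∈ range (e + 1), r.choose t) :
    ∃ b : Fin k → Fin r → Fin 2, (∀ i ∈ J, ∀ j ∈ J, b i = b j → i = j) ∧ gsum (b P) = 0 ∧
      ∀ i, gsum (b i) ≤ e := by
  classical
  set 𝒮 := univ.filter fun S : Finset (Fin r) => S.card ≤ e with h𝒮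
  have hcard : J.card ≤ 𝒮.card := by
    rw [h𝒮, card_small]
    exact hJ
  obtain ⟨f, hf, hinj⟩ : ∃ f : Fin k → Finset (Fin r), (∀ i ∈ J, f i ∈ 𝒮) ∧
      Set.InjOn f J := by
    have h1 : (J : Set (Fin k)).encard ≤ (𝒮 : Set (Finset (Fin r))).encard := by
      rw [Set.encard_coe_eq_coe_finsetCard, Set.encard_coe_eq_coe_finsetCard]
      exact_mod_cast hcard
    obtain ⟨f, hf1, hf2⟩ := Set.Finite.exists_injOn_of_encard_le (J.finite_toSet) h1
    exact ⟨f, fun i hi => by simpa using hf1 hi, hf2⟩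
  have hempty : (∅ : Finset (Fin r)) ∈ 𝒮 := by
    rw [h𝒮, mem_filter]
    exact ⟨mem_univ _, by simp⟩
  set g : Fin k → Finset (Fin r) := fun i => if i ∈ J then Equiv.swap (f P) ∅ (f i) else ∅ with hg
  have hgm : ∀ i, g i ∈ 𝒮 := by
    intro i
    rw [hg]
    dsimp only
    split_ifs with hi
    · rcases eq_or_ne (f i) (f P) with h2 | h2
      · rw [h2, Equiv.swap_apply_left]
        exact hempty
      · rcases eq_or_ne (f i) ∅ with h3 | h3
        · rw [h3, Equiv.swap_apply_right]
          exact hf P hP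
        · rw [Equiv.swap_apply_of_ne_of_ne h2 h3]
          exact hf i hi
    · exact hempty
  refine ⟨fun i => ind (g i), fun i hi j hj hij => ?_, ?_, fun i => ?_⟩
  · have h2 := ind_injective hij
    rw [hg] at h2
    dsimp only at h2
    rw [if_pos hi, if_pos hj] at h2
    exact hinj hi hj ((Equiv.swap (f P) ∅).injective h2)
  · rw [gsum_ind, hg]
    dsimp only
    rw [if_pos hP, Equiv.swap_apply_left, card_empty]
  · rw [gsum_ind]
    have h2 := hgm i
    rw [h𝒮, mem_filter] at h2
    exact h2.2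

/-- Multiplicity `i` at `P`, `q` at the other points of `J`. -/
def WW {k : ℕ} (J : Finset (Fin k)) (P : Fin k) (q i : ℕ) : Fin k → ℕ :=
  fun l => if l ∈ J then (if l = P then i else q) else 0

theorem sum_WW {r k : ℕ} (J : Finset (Fin k)) {P : Fin k} (hP : P ∈ J) (q i : ℕ) :
    ∑ l, (WW J P q i l + (r + 1) - 1).choose (r + 1) =
      (i + (r + 1) - 1).choose (r + 1) +
        ∑ l, ((if l ∈ J ∧ l ≠ P then q else 0) + (r + 1) - 1).choose (r + 1) := by
  classical
  rw [← add_sum_erase univ _ (mem_univ P), ← add_sum_erase univ (fun l =>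
    ((if l ∈ J ∧ l ≠ P then q else 0) + (r + 1) - 1).choose (r + 1)) (mem_univ P)]
  have h1 : WW J P q i P = i := by
    unfold WW
    rw [if_pos hP, if_pos rfl]
  have h2 : (if P ∈ J ∧ P ≠ P then q else 0) = 0 := if_neg fun h => h.2 rfl
  have h3 : ∑ l ∈ univ.erase P, (WW J P q i l + (r + 1) - 1).choose (r + 1) =
      ∑ l ∈ univ.erase P, ((if l ∈ J ∧ l ≠ P then q else 0) + (r + 1) - 1).choose (r + 1) := by
    refine sum_congr rfl fun l hl => ?_
    have hlP : l ≠ P := ne_of_mem_erase hl
    congr 2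
    congr 1
    unfold WW
    by_cases hlJ : l ∈ J
    · rw [if_pos hlJ, if_neg hlP, if_pos ⟨hlJ, hlP⟩]
    · rw [if_neg hlJ, if_neg fun h => hlJ h.1]
  rw [h1, h2, h3, Nat.choose_eq_zero_of_lt (by omega : 0 + (r + 1) - 1 < r + 1), zero_add]

/-- Raising the multiplicity of `P` from `i` to `i + 1` imposes `binom(i + r, r)` conditions. -/
theorem grid_step (r t k c : ℕ) (J : Finset (Fin k)) {P : Fin k} (hP : P ∈ J)
    (hJ : J.card ≤ ∑ u ∈ range (c + 2 + 1), (r + 1).choose u) (q i : ℕ) (hq : 2 * q + c ≤ t)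
    (hi : i ≤ q) :
    generalDim (r + 1) t (WW J P q i) =
      generalDim (r + 1) t (WW J P q (i + 1)) + (i + r).choose r := by
  obtain ⟨b, hb1, hb2, hb3⟩ := exists_labels J hP hJ
  have key : ∀ i ≤ q + 1, generalDim (r + 1) t (WW J P q i) +
      ∑ l, (WW J P q i l + (r + 1) - 1).choose (r + 1) = (t + (r + 1)).choose (r + 1) := by
    intro i hi
    refine grid_general (r + 1) t k (by omega) _ b J hb1 (fun l hl => ?_) fun l hl => ?_
    · unfold WW
      rw [if_pos hl]
      by_cases hlP : l = P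
      · rw [if_pos hlP, hlP, hb2]
        omega
      · rw [if_neg hlP]
        have := hb3 l
        omega
    · unfold WW
      rw [if_neg hl]
  have h1 := key i (by omega)
  have h2 := key (i + 1) (by omega)
  rw [sum_WW J hP] at h1 h2
  have h3 : (i + 1 + (r + 1) - 1).choose (r + 1) =
      (i + r).choose r + (i + (r + 1) - 1).choose (r + 1) := by
    have h4 : i + 1 + (r + 1) - 1 = (i + r) + 1 := by omega
    have h5 : i + (r + 1) - 1 = i + r := by omega
    rw [h4, h5, Nat.choose_succ_succ']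
  omega

end Pool.Agent.H74.CT

end

section

/-!
# Forms of degree `2 q` with multiplicity more than `q` at fewer than `2 ^ r` points
-/

namespace Pool.Agent.H74.CT

open MvPolynomial Pool.Agent.H18.Fat Pool.Agent.H18.Ub Finset

/-- `ν` on `J` and `a` at `P`. -/
def onu {k : ℕ} (J : Finset (Fin k)) (P : Fin k) (ν a : ℕ) : Fin k → ℕ :=
  fun l => if l = P then a else if l ∈ J then ν else 0

/-- A form not vanishing at `P`. -/
theorem exists_G0 {r q ν : ℕ} {k : ℕ} (J : Finset (Fin k)) (P : Fin k)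
    (hpos : 1 ≤ generalDim r (2 * q) (onu J P ν 0)) :
    ForGeneralPoints r k fun p => ∃ G : MvPolynomial (Fin (r + 1)) ℂ, G.IsHomogeneous (2 * q) ∧
      (∀ l ∈ J, l ≠ P → VanishesToOrder G (p l) ν) ∧ ¬ VanishesToOrder G (p P) 1 := by
  classical
  have hlt : generalDim r (2 * q) (onu J P ν 1) < generalDim r (2 * q) (onu J P ν 0) := by
    obtain ⟨p₀, hp₀⟩ := Pool.Agent.H18.Cub.exists_of_general
      (generalDim_spec r (2 * q) (onu J P ν 0))
    have hne : fatForms r (2 * q) p₀ (onu J P ν 0) ≠ ⊥ := by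
      intro h
      rw [h, finrank_bot] at hp₀
      omega
    obtain ⟨F, hF, hF0⟩ := Submodule.exists_mem_ne_zero_of_ne_bot hne
    obtain ⟨x, hx⟩ : ∃ x, eval x F ≠ 0 := by
      by_contra hall
      push Not at hall
      apply hF0
      apply MvPolynomial.funext
      intro x
      rw [hall x, map_zero]
    set p' : Fin k → Fin (r + 1) → ℂ := Function.update p₀ P x with hp'
    have heq : fatForms r (2 * q) p' (onu J P ν 0) = fatForms r (2 * q) p₀ (onu J P ν 0) := by
      have h1 : ∀ (G : MvPolynomial (Fin (r + 1)) ℂ) (l : Fin k),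
          VanishesToOrder G (p' l) (onu J P ν 0 l) ↔ VanishesToOrder G (p₀ l) (onu J P ν 0 l) := by
        intro G l
        by_cases hl : l = P
        · have h2 : onu J P ν 0 l = 0 := by
            unfold onu
            rw [if_pos hl]
          rw [h2]
          exact ⟨fun _ => vanishesToOrder_zero _ _, fun _ => vanishesToOrder_zero _ _⟩
        · rw [hp', Function.update_of_ne hl]
      ext G
      exact ⟨fun h => ⟨h.1, fun l => (h1 G l).1 (h.2 l)⟩, fun h => ⟨h.1, fun l => (h1 G l).2 (h.2 l)⟩⟩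
    have hsub : fatForms r (2 * q) p' (onu J P ν 1) < fatForms r (2 * q) p' (onu J P ν 0) := by
      refine lt_of_le_of_ne (fun G hG => ⟨hG.1, fun l => van_mono (hG.2 l) ?_⟩) fun h => ?_
      · unfold onu
        split_ifs <;> omega
      · have h1 : F ∈ fatForms r (2 * q) p' (onu J P ν 1) := by
          rw [h, heq]
          exact hF
        have h2 := h1.2 P
        have h3 : onu J P ν 1 P = 1 := by
          unfold onu
          rw [if_pos rfl]
        rw [h3, vanishesToOrder_one, hp', Function.update_self] at h2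
        exact hx h2
    have hfin := fin_fatForms r (2 * q) p' (onu J P ν 0)
    have h1 := Submodule.finrank_lt_finrank_of_lt hsub
    rw [heq, hp₀] at h1
    exact lt_of_le_of_lt (Nat.sInf_le ⟨p', rfl⟩) h1
  refine ((generalDim_spec r (2 * q) (onu J P ν 1)).and
    (generalDim_spec r (2 * q) (onu J P ν 0))).mono fun p hp => ?_
  obtain ⟨hp1, hp2⟩ := hp
  by_contra hcon
  push Not at hcon
  have h1 : fatForms r (2 * q) p (onu J P ν 0) ≤ fatForms r (2 * q) p (onu J P ν 1) := by
    intro G hG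
    refine ⟨hG.1, fun l => ?_⟩
    unfold onu
    by_cases hl : l = P
    · rw [if_pos hl, hl]
      refine hcon G hG.1 fun l hl hlP => ?_
      have h2 := hG.2 l
      unfold onu at h2
      rw [if_neg hlP, if_pos hl] at h2
      exact h2
    · have h2 := hG.2 l
      unfold onu at h2
      rw [if_neg hl] at h2 ⊢
      exact h2
  have hfin := fin_fatForms r (2 * q) p (onu J P ν 1)
  have h2 := Submodule.finrank_mono h1
  omega

end Pool.Agent.H74.CT

end

section

/-!
# General points and the second stage lemma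
-/

namespace Pool.Agent.H74.CT

open MvPolynomial Pool.Agent.H18.Fat Pool.Agent.H18.Ub Pool.Agent.H22.LU Finset

theorem exists_gen (s k N q ν : ℕ) (J : Finset (Fin k))
    (hpos : ∀ P ∈ J, 1 ≤ generalDim (s + 1) (2 * q) (onu J P ν 0)) :
    ∃ p, Gen s k N q ν J p := by
  classical
  have h1 : ForGeneralPoints (s + 1) k fun p => ∀ t ∈ range (N + 1),
      ∀ w ∈ (univ : Finset (Fin k → Fin (N + 2))),
      Module.finrank ℂ (fatForms (s + 1) t p fun l => (w l : ℕ)) =
        generalDim (s + 1) t fun l => (w l : ℕ) :=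
    general_all _ fun t _ => general_all _ fun w _ => generalDim_spec (s + 1) t _
  have h2 : ForGeneralPoints (s + 1) k fun p => ∀ x ∈ (univ : Finset (Fin k × Fin k)).filter
      (fun x => x.1 ≠ x.2), ∃ L : MvPolynomial (Fin (s + 1 + 1)) ℂ,
      L.IsHomogeneous 1 ∧ VanishesToOrder L (p x.1) 1 ∧ ¬ VanishesToOrder L (p x.2) 1 :=
    general_all _ fun x hx => general_line (mem_filter.1 hx).2
  have h3 : ForGeneralPoints (s + 1) k fun p => ∀ P ∈ J,
      ∃ G : MvPolynomial (Fin (s + 1 + 1)) ℂ, G.IsHomogeneous (2 * q) ∧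
      (∀ l ∈ J, l ≠ P → VanishesToOrder G (p l) ν) ∧ ¬ VanishesToOrder G (p P) 1 :=
    general_all _ fun P hP => exists_G0 J P (hpos P hP)
  obtain ⟨p, hp1, hp2, hp3⟩ := Pool.Agent.H18.Cub.exists_of_general (h1.and (h2.and h3))
  refine ⟨p, ⟨fun t ht w hw => ?_, fun P l hl => ?_, hp3⟩⟩
  · exact hp1 t (mem_range.2 (by omega)) (fun l => ⟨w l, by
      have := hw l
      omega⟩) (mem_univ _)
  · exact hp2 (l, P) (mem_filter.2 ⟨mem_univ _, hl⟩)

/-- Second stage lemma. -/
theorem stage2 {s k N q₀ ν₀ : ℕ} {J : Finset (Fin k)} {p : Fin k → Fin (s + 1 + 1) → ℂ}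
    (hp : Gen s k N q₀ ν₀ J p) (c : ℕ)
    (hJ : J.card ≤ ∑ u ∈ range (c + 2 + 1), (s + 1).choose u) {A : Finset (Fin k)} (hAJ : A ⊆ J)
    {P : Fin k} (hPJ : P ∈ J) (hPA : P ∉ A) (m : Fin k → ℕ)
    {G : MvPolynomial (Fin (s + 1 + 1)) ℂ} {g ν μ x i j : ℕ} (hG : G.IsHomogeneous g)
    (hGA : ∀ l ∈ A, VanishesToOrder G (p l) ν) (hGP : VanishesToOrder G (p P) μ)
    (hGn : ¬ VanishesToOrder G (p P) (μ + 1)) (hj : g + x + c = j) (hjN : j ≤ N)
    (h1 : ∀ a ∈ A, ∀ b ∈ A, a ≠ b → (m a - ν) + (m b - ν) ≤ x)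
    (h2 : ∀ a ∈ A, (m a - ν) + i ≤ x) (h3 : 2 * i ≤ x) :
    Module.finrank ℂ (fatForms (s + 1) j p (mf A m P (i + μ + 1))) + (i + s).choose s ≤
      Module.finrank ℂ (fatForms (s + 1) j p (mf A m P (i + μ))) := by
  classical
  -- the form, the multiplicity and the degree
  obtain ⟨G', e, q, t, hG', hGP', hGn', het, hqt, hqx, hiq, hGl⟩ :
      ∃ (G' : MvPolynomial (Fin (s + 1 + 1)) ℂ) (e q t : ℕ), G'.IsHomogeneous e ∧
      VanishesToOrder G' (p P) μ ∧ ¬ VanishesToOrder G' (p P) (μ + 1) ∧ e + t = j ∧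
      2 * q + c ≤ t ∧ q ≤ x ∧ i ≤ q ∧ ∀ l ∈ A, VanishesToOrder G' (p l) (m l - q) := by
    by_cases htop : ∀ a ∈ A, 2 * (m a - ν) ≤ x
    · refine ⟨G, g, x / 2, x + c, hG, hGP, hGn, by omega, by omega, by omega, by omega,
        fun l hl => van_mono (hGA l hl) ?_⟩
      have := htop l hl
      omega
    · push Not at htop
      obtain ⟨a, ha, hax⟩ := htop
      have haP : a ≠ P := fun h => hPA (h ▸ ha)
      obtain ⟨L, hL1, hL2, hL3⟩ := hp.line P a haP
      have h4 := h2 a ha
      have hLP : eval (p P) L ≠ 0 := fun h => hL3 (vanishes_one_iff.2 h)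
      refine ⟨G * L ^ (2 * (m a - ν) - x), g + (2 * (m a - ν) - x), x - (m a - ν),
        2 * (x - (m a - ν)) + c, ?_, ?_, ?_, by omega, le_rfl, by omega, by omega, fun l hl => ?_⟩
      · have h5 := hG.mul (hL1.pow (2 * (m a - ν) - x))
        rwa [one_mul] at h5
      · exact van_mono (van_mul hGP (vanishes_zero (p P) (L ^ (2 * (m a - ν) - x))))
          (Nat.le_add_right _ _)
      · intro h5
        have h6 := vanishes_of_mul hGn h5
        have h7 : μ + 1 - μ = 1 := by omega
        rw [h7, vanishes_one_iff, map_pow] at h6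
        exact pow_ne_zero _ hLP h6
      · by_cases hla : l = a
        · subst hla
          have h5 := van_pow hL2 (2 * (m l - ν) - x)
          refine van_mono (van_mul (hGA l hl) h5) ?_
          omega
        · have h5 := h1 l hl a ha hla
          refine van_mono (van_mul (hGA l hl) (vanishes_zero (p l) (L ^ (2 * (m a - ν) - x)))) ?_
          omega
  have hst := mult_stage p P hG' het μ hGP' hGn' (WW J P q i) (WW J P q (i + 1))
    (mf A m P (i + μ)) (mf A m P (i + μ + 1)) (fun l hl => by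
      unfold WW
      rw [if_neg hl, if_neg hl]) (by
      unfold WW
      rw [if_pos hPJ, if_pos rfl, if_pos hPJ, if_pos rfl]) (fun l hl => by
      unfold mf
      rw [if_neg hl, if_neg hl]) (by
      unfold mf
      rw [if_neg hPA, if_pos rfl, if_neg hPA, if_pos rfl]) (by
      unfold mf WW
      rw [if_neg hPA, if_pos rfl, if_pos hPJ, if_pos rfl]) (fun l hl => by
      unfold mf WW
      by_cases hlA : l ∈ A
      · rw [if_pos hlA, if_pos (hAJ hlA), if_neg hl]
        exact hGl l hlA
      · rw [if_neg hlA, if_neg hl, Nat.zero_sub]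
        exact vanishes_zero _ _)
  have hw : ∀ i', i' ≤ q + 1 → ∀ l, WW J P q i' l ≤ N + 1 := by
    intro i' hi' l
    unfold WW
    split_ifs <;> omega
  rw [hp.sim t (by omega) _ (hw i (by omega)), hp.sim t (by omega) _ (hw (i + 1) (by omega)),
    grid_step s t k c J hPJ hJ q i hqt hiq] at hst
  omega

end Pool.Agent.H74.CT

end
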