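import Pool.Agent.H94.LP3.H74.CT.Gain_1
import Pool.Agent.H94.LP3.M29
import Pool.Agent.H94.LP3.M38
import Pool.Agent.H94.LP3.M48

/-! The parts of this file: H74.CT.Near2, H74.BP.Elem, H74.BP.All, H74.BP.Dec. -/

section

/-!
# The dimension in the degrees slightly below `d`: fewer than `2 ^ r` points
-/

namespace Pool.Agent.H74.CT

open MvPolynomial Pool.Agent.H18.Fat Pool.Agent.H18.Ub Pool.Agent.H22.LU Finset

/-- The number of the extra multiplicities. -/
def kap (s C : ℕ) : ℕ := C + (s + 2)

/-- Half the degree of the extra form. -/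
def qq (s C : ℕ) : ℕ := (s + 2) * 2 ^ (s + 2) * (kap s C + (s + 2))

/-- The error. -/
def WE (s C : ℕ) : ℕ := 2 ^ (s + 2) * ((qq s C + kap s C) * (2 * qq s C))

theorem near2 (s C k d D δ : ℕ) (m : Fin k → ℕ) (J : Finset (Fin k)) (hδ : δ ≤ C + 1)
    (hD : 4 * (3 * qq s C + kap s C + s + δ + 1) ≤ D) (hDd : D ≤ d)
    (h1 : ∀ i ∈ J, m i + D ≤ d) (h2 : J.card < 2 ^ (s + 2))
    (h3 : ∀ a ∈ J, ∀ b ∈ J, a ≠ b → m a + m b ≤ d + 1) :
    (generalDim (s + 2) (d - δ) fun i => if i ∈ J then m i else 0) +
        ∑ i ∈ J, (m i + (s + 2) - 1).choose (s + 2) ≤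
      (d - δ + (s + 2)).choose (s + 2) + WE s C * (d + s).choose s := by
  classical
  set κ := kap s C with hκ
  set q := qq s C with hq
  set ν := q + κ with hν
  have hκ1 : κ = C + (s + 2) := rfl
  have hpos : ∀ m' : Fin k → ℕ, (∀ l, l ∉ J → m' l = 0) → (∀ l, m' l ≤ ν) →
      1 ≤ generalDim (s + 1 + 1) (2 * q) m' := by
    intro m' h0 hm'
    exact generalDim_pos (r := s + 2) (κ := κ) (by omega) J h2 m' h0 hm'
  obtain ⟨p, hp⟩ := exists_gen (s + 1) k d q ν J fun P hP => hpos _ (fun l hl => by
    unfold onu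
    rw [if_neg hl]
    split_ifs <;> rfl) fun l => by
    unfold onu
    split_ifs <;> omega
  have hpos1 := hpos (fun l => if l ∈ J then ν else 0) (fun l hl => if_neg hl) fun l => by
    split_ifs <;> omega
  have hJc : J.card ≤ ∑ u ∈ range (s + 2 + 1), (s + 1 + 1).choose u := by
    have h4 : ∑ u ∈ range (s + 2 + 1), (s + 1 + 1).choose u = 2 ^ (s + 2) :=
      Nat.sum_range_choose (s + 2)
    rw [h4]
    exact h2.le
  set γ : Fin k → ℕ → ℕ := fun P i => if i + ν ≤ m P ∨ 2 * m P ≤ D then 0 else 2 * q with hγ
  have hγi : ∀ P, ∀ i < m P, γ P i ≤ i := by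
    intro P i hi
    rw [hγ]
    dsimp only
    split_ifs with h
    · exact Nat.zero_le _
    · push Not at h
      omega
  have hup := upper2 hp (j := d - δ) (Nat.sub_le _ _) m γ (fun P hP => by
    have := h1 P hP
    omega) fun P hP A hAJ hPA hA hmin i hi => by
    obtain ⟨a₀, ha₀⟩ := hA
    have ha₀P : a₀ ≠ P := fun h => hPA (h ▸ ha₀)
    have e1 := h1 a₀ (hAJ ha₀)
    have e2 := hmin a₀ ha₀
    have e3 := h3 a₀ (hAJ ha₀) P hP ha₀P
    have e4 := h1 P hP
    have hpair : ∀ a ∈ A, ∀ b ∈ A, a ≠ b → (m a - ν) + (m b - ν) ≤ d - δ - 2 * q - s := by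
      intro a ha b hb hab
      have f1 := h1 a (hAJ ha)
      have f2 := h1 b (hAJ hb)
      have f3 := h3 a (hAJ ha) b (hAJ hb) hab
      omega
    by_cases hc : i + ν ≤ m P ∨ 2 * m P ≤ D
    · -- no loss
      obtain ⟨G, hG1, hG2, hG3⟩ := hp.g0 P hP
      have h5 := stage2 hp s hJc hAJ hP hPA m (G := G) (g := 2 * q) (ν := ν) (μ := 0)
        (x := d - δ - 2 * q - s) (i := i) (j := d - δ) hG1
        (fun l hl => hG2 l (hAJ hl) fun h => hPA (h ▸ hl)) (vanishes_zero _ _) hG3 (by omega)
        (Nat.sub_le _ _) hpair (fun a ha => by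
          have haP : a ≠ P := fun h => hPA (h ▸ ha)
          have f1 := h1 a (hAJ ha)
          have f2 := hmin a ha
          have f3 := h3 a (hAJ ha) P hP haP
          rcases hc with hc | hc <;> omega) (by
          rcases hc with hc | hc <;> omega)
      have h6 : γ P i = 0 := by
        rw [hγ]
        dsimp only
        rw [if_pos hc]
      rw [h6, Nat.sub_zero]
      exact h5
    · -- near the boundary
      have h6 : γ P i = 2 * q := by
        rw [hγ]
        dsimp only
        rw [if_neg hc]
      push Not at hc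
      obtain ⟨G, μ, hG1, hμ1, hμ2, hG2, hG3, hG4⟩ := exists_G1 J hpos1 p hP
      have h5 := stage2 hp s hJc hAJ hP hPA m (G := G) (g := 2 * q) (ν := ν) (μ := μ)
        (x := d - δ - 2 * q - s) (i := i - μ) (j := d - δ) hG1
        (fun l hl => hG2 l (hAJ hl)) hG3 hG4 (by omega)
        (Nat.sub_le _ _) hpair (fun a ha => by
          have haP : a ≠ P := fun h => hPA (h ▸ ha)
          have f1 := h1 a (hAJ ha)
          have f2 := hmin a ha
          have f3 := h3 a (hAJ ha) P hP haP
          omega) (by omega)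
      have h7 : i - μ + μ = i := by omega
      rw [h7] at h5
      rw [h6]
      refine le_trans (Nat.add_le_add_left (Nat.choose_le_choose _ ?_) _) h5
      omega
  have h4 : (generalDim (s + 2) (d - δ) fun i => if i ∈ J then m i else 0) ≤
      Module.finrank ℂ (fatForms (s + 2) (d - δ) p fun l => if l ∈ J then m l else 0) :=
    Nat.sInf_le ⟨p, rfl⟩
  have h5 : ∑ i ∈ J, (m i + (s + 2) - 1).choose (s + 2) ≤
      ∑ P ∈ J, ∑ i ∈ range (m P), (i - γ P i + (s + 1)).choose (s + 1) +
      ∑ P ∈ J, ∑ i ∈ range (m P), γ P i * (i + s).choose s := by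
    rw [← sum_add_distrib]
    refine sum_le_sum fun P hP => ?_
    rw [← hockey, ← sum_add_distrib]
    refine sum_le_sum fun i hi => ?_
    rw [mem_range] at hi
    exact choose_drop s i _ (hγi P i hi)
  have h6 : ∑ P ∈ J, ∑ i ∈ range (m P), γ P i * (i + s).choose s ≤
      WE s C * (d + s).choose s := by
    have hinner : ∀ P ∈ J, ∑ i ∈ range (m P), γ P i * (i + s).choose s ≤
        ν * (2 * q * (d + s).choose s) := by
      intro P hP
      have hterm : ∀ i ∈ range (m P), γ P i * (i + s).choose s ≤
          if m P < i + ν then 2 * q * (d + s).choose s else 0 := by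
        intro i hi
        rw [mem_range] at hi
        have e4 := h1 P hP
        by_cases hc : i + ν ≤ m P ∨ 2 * m P ≤ D
        · have h6 : γ P i = 0 := by
            rw [hγ]
            dsimp only
            rw [if_pos hc]
          rw [h6, Nat.zero_mul]
          exact Nat.zero_le _
        · have h6 : γ P i = 2 * q := by
            rw [hγ]
            dsimp only
            rw [if_neg hc]
          push Not at hc
          rw [h6, if_pos hc.1]
          exact Nat.mul_le_mul_left _ (Nat.choose_le_choose _ (by omega))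
      refine (sum_le_sum hterm).trans ?_
      rw [← sum_filter, sum_const, smul_eq_mul]
      refine Nat.mul_le_mul_right _ ?_
      have h5 : (range (m P)).filter (fun i => m P < i + ν) ⊆ Ico (m P - ν) (m P) := by
        intro i hi
        rw [mem_filter, mem_range] at hi
        rw [mem_Ico]
        omega
      refine (card_le_card h5).trans ?_
      rw [Nat.card_Ico]
      omega
    calc ∑ P ∈ J, ∑ i ∈ range (m P), γ P i * (i + s).choose s ≤
        ∑ _P ∈ J, ν * (2 * q * (d + s).choose s) := sum_le_sum hinner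
      _ = J.card * (ν * (2 * q * (d + s).choose s)) := by rw [sum_const, smul_eq_mul]
      _ ≤ 2 ^ (s + 2) * (ν * (2 * q * (d + s).choose s)) := Nat.mul_le_mul_right _ h2.le
      _ = 2 ^ (s + 2) * (ν * (2 * q)) * (d + s).choose s := by ring
      _ = _ := rfl
  have hup' : Module.finrank ℂ (fatForms (s + 2) (d - δ) p fun l => if l ∈ J then m l else 0) +
      ∑ P ∈ J, ∑ i ∈ range (m P), (i - γ P i + (s + 1)).choose (s + 1) ≤
      (d - δ + (s + 2)).choose (s + 2) := hup
  omega

/-- The exact dimension. -/
theorem exact2 (s c k d : ℕ) (m : Fin k → ℕ) (J : Finset (Fin k)) (hcd : c ≤ d)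
    (h1 : ∀ i ∈ J, m i ≤ d + 1)
    (h2 : J.card ≤ ∑ u ∈ range (c + 2 + 1), (s + 2).choose u)
    (h3 : ∀ a ∈ J, ∀ b ∈ J, a ≠ b → m a + m b + c ≤ d) :
    (generalDim (s + 2) d fun i => if i ∈ J then m i else 0) +
        ∑ i ∈ J, (m i + (s + 2) - 1).choose (s + 2) ≤
      (d + (s + 2)).choose (s + 2) := by
  classical
  obtain ⟨p, hp⟩ := exists_gen (s + 1) k d 0 0 J fun P hP => by
    have h4 := generalDim_ge (r := s + 1 + 1) (by omega) (2 * 0) (onu J P 0 0)
    have h5 : ∀ i, ((onu J P 0 0 i + (s + 1 + 1) - 1).choose (s + 1 + 1) : ℤ) = 0 := by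
      intro i
      have h6 : onu J P 0 0 i = 0 := by
        unfold onu
        split_ifs <;> rfl
      rw [h6, Nat.choose_eq_zero_of_lt (by omega)]
      rfl
    rw [sum_congr rfl fun i _ => h5 i, sum_const_zero, Nat.mul_zero, Nat.zero_add,
      Nat.choose_self] at h4
    rw [Nat.mul_zero]
    omega
  have hup := upper2 hp (j := d) le_rfl m (fun _ _ => 0) (fun P hP => h1 P hP)
    fun P hP A hAJ hPA hA hmin i hi => by
    obtain ⟨a₀, ha₀⟩ := hA
    have ha₀P : a₀ ≠ P := fun h => hPA (h ▸ ha₀)
    have e2 := hmin a₀ ha₀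
    have e3 := h3 a₀ (hAJ ha₀) P hP ha₀P
    have h5 := stage2 hp c h2 hAJ hP hPA m (G := 1) (g := 0) (ν := 0) (μ := 0)
      (x := d - c) (i := i) (j := d) (isHomogeneous_one _ _)
      (fun l hl => vanishes_zero _ _) (vanishes_zero _ _) (by
        rw [vanishes_one_iff, map_one]
        exact one_ne_zero) (by omega)
      le_rfl (fun a ha b hb hab => by
        have f3 := h3 a (hAJ ha) b (hAJ hb) hab
        omega) (fun a ha => by
        have haP : a ≠ P := fun h => hPA (h ▸ ha)
        have f2 := hmin a ha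
        have f3 := h3 a (hAJ ha) P hP haP
        omega) (by omega)
    exact h5
  have h4 : (generalDim (s + 2) d fun i => if i ∈ J then m i else 0) ≤
      Module.finrank ℂ (fatForms (s + 2) d p fun l => if l ∈ J then m l else 0) :=
    Nat.sInf_le ⟨p, rfl⟩
  have h5 : ∑ i ∈ J, (m i + (s + 2) - 1).choose (s + 2) =
      ∑ P ∈ J, ∑ i ∈ range (m P), (i - 0 + (s + 1)).choose (s + 1) := by
    refine sum_congr rfl fun P hP => ?_
    rw [← hockey]
    rfl
  rw [h5]
  exact le_trans (Nat.add_le_add_right h4 _) hup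

end Pool.Agent.H74.CT

end

section

/-!
# The elementary two-sided bound

If some form of degree `e` has the given multiplicities, then a further general point of multiplicity at
most `d - e + 1` imposes independent conditions in degree `d`.  Hence points of multiplicity at most `M`,
of total length `S`, impose independent conditions on the forms of degree `d` with multiplicities `m` on
`J`, if `S ≤ h(d - M + 1)`, and no such form has them, if `S ≥ h(d + M - 1)`.
-/

namespace Pool.Agent.H74.BP

open MvPolynomial Pool.Agent.H18.Fat Pool.Agent.H18.Ub Pool.Agent.H22.LU Pool.Agent.H74.CT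

/-- Larger multiplicities, smaller dimension. -/
theorem generalDim_anti {r d k : ℕ} {w w' : Fin k → ℕ} (h : ∀ i, w i ≤ w' i) :
    generalDim r d w' ≤ generalDim r d w := by
  obtain ⟨p, hp1, hp2⟩ := Pool.Agent.H18.Cub.exists_of_general
    ((generalDim_spec r d w).and (generalDim_spec r d w'))
  rw [← hp1, ← hp2]
  have := fin_fatForms r d p w
  exact Submodule.finrank_mono fun F hF => ⟨hF.1, fun i => van_mono (hF.2 i) (h i)⟩

theorem generalDim_up (r j : ℕ) {k : ℕ} (w : Fin k → ℕ) :
    generalDim r j w ≤ generalDim r (j + 1) w := by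
  obtain ⟨p, hp2, hp3⟩ := Pool.Agent.H18.Cub.exists_of_general
    ((generalDim_spec r j w).and (generalDim_spec r (j + 1) w))
  rw [← hp2, ← hp3]
  exact grow_zero p w

theorem generalDim_deg {r k : ℕ} (w : Fin k → ℕ) : Monotone fun j => generalDim r j w :=
  monotone_nat_of_le_succ fun j => generalDim_up r j w

theorem simple_lt {r e k : ℕ} (w : Fin k → ℕ) (P : Fin k) (hP : w P = 0)
    (hpos : 1 ≤ generalDim r e w) :
    generalDim r e (Function.update w P 1) < generalDim r e w := by
  classical
  obtain ⟨p₀, hp₀⟩ := Pool.Agent.H18.Cub.exists_of_general (generalDim_spec r e w)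
  have hne : fatForms r e p₀ w ≠ ⊥ := by
    intro h
    rw [h, finrank_bot] at hp₀
    omega
  obtain ⟨F, hF, hF0⟩ := Submodule.exists_mem_ne_zero_of_ne_bot hne
  obtain ⟨x, hx⟩ : ∃ x, eval x F ≠ 0 := by
    by_contra hall
    push Not at hall
    apply hF0
    apply MvPolynomial.funext
    intro x
    rw [hall x, map_zero]
  set p' : Fin k → Fin (r + 1) → ℂ := Function.update p₀ P x with hp'
  have heq : fatForms r e p' w = fatForms r e p₀ w := by
    have h1 : ∀ (G : MvPolynomial (Fin (r + 1)) ℂ) (l : Fin k),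
        VanishesToOrder G (p' l) (w l) ↔ VanishesToOrder G (p₀ l) (w l) := by
      intro G l
      by_cases hl : l = P
      · rw [hl, hP]
        exact ⟨fun _ => vanishesToOrder_zero _ _, fun _ => vanishesToOrder_zero _ _⟩
      · rw [hp', Function.update_of_ne hl]
    ext G
    exact ⟨fun h => ⟨h.1, fun l => (h1 G l).1 (h.2 l)⟩, fun h => ⟨h.1, fun l => (h1 G l).2 (h.2 l)⟩⟩
  have hsub : fatForms r e p' (Function.update w P 1) < fatForms r e p' w := by
    refine lt_of_le_of_ne (fun G hG => ⟨hG.1, fun l => van_mono (hG.2 l) ?_⟩) fun h => ?_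
    · by_cases hl : l = P
      · rw [hl, hP]
        exact Nat.zero_le _
      · rw [Function.update_of_ne hl]
    · have h1 : F ∈ fatForms r e p' (Function.update w P 1) := by
        rw [h, heq]
        exact hF
      have h2 := h1.2 P
      rw [Function.update_self, vanishesToOrder_one, hp', Function.update_self] at h2
      exact hx h2
  have hfin := fin_fatForms r e p' w
  have h1 := Submodule.finrank_lt_finrank_of_lt hsub
  rw [heq, hp₀] at h1
  exact lt_of_le_of_lt (Nat.sInf_le ⟨p', rfl⟩) h1

/-- A form with the given multiplicities, not vanishing at a further point. -/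
theorem exists_form {r e k : ℕ} (w : Fin k → ℕ) (P : Fin k) (hP : w P = 0)
    (hpos : 1 ≤ generalDim r e w) :
    ForGeneralPoints r k fun p => ∃ G ∈ fatForms r e p w, eval (p P) G ≠ 0 := by
  classical
  refine ((generalDim_spec r e (Function.update w P 1)).and (generalDim_spec r e w)).mono
    fun p hp => ?_
  obtain ⟨hp1, hp2⟩ := hp
  by_contra hcon
  push Not at hcon
  have h1 : fatForms r e p w ≤ fatForms r e p (Function.update w P 1) := by
    intro G hG
    refine ⟨hG.1, fun l => ?_⟩
    by_cases hl : l = P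
    · rw [hl, Function.update_self, vanishesToOrder_one]
      exact hcon G hG
    · rw [Function.update_of_ne hl]
      exact hG.2 l
  have hfin := fin_fatForms r e p (Function.update w P 1)
  have h2 := Submodule.finrank_mono h1
  rw [hp1, hp2] at h2
  have h3 := simple_lt w P hP hpos
  omega

/-- A further point imposes independent conditions. -/
theorem add_point (s k d e a : ℕ) (w : Fin k → ℕ) (P : Fin k) (hP : w P = 0)
    (he : 1 ≤ generalDim (s + 2) e w) (hd : e + a ≤ d + 1) :
    generalDim (s + 2) d (Function.update w P a) + (a + (s + 2) - 1).choose (s + 2) ≤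
      generalDim (s + 2) d w := by
  classical
  rcases Nat.eq_zero_or_pos a with ha | ha
  · subst ha
    rw [Nat.choose_eq_zero_of_lt (by omega), Nat.add_zero]
    refine generalDim_anti fun i => ?_
    by_cases hi : i = P
    · rw [hi, hP]
      exact Nat.zero_le _
    · rw [Function.update_of_ne hi]
  obtain ⟨t, rfl⟩ : ∃ t, d = e + t := ⟨d - e, by omega⟩
  obtain ⟨p, ⟨G, hG, hGP⟩, hp1, hp2, hp3⟩ := Pool.Agent.H18.Cub.exists_of_general
    ((exists_form w P hP he).and ((generalDim_spec (s + 2) (e + t) (Function.update w P a)).and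
      ((generalDim_spec (s + 2) (e + t) w).and
        (generalDim_spec (s + 2) t fun l => if l ∈ ({P} : Finset (Fin k)) then a else 0))))
  have i1 := fin_fatForms (s + 2) t p fun _ => 0
  have i2 := fin_fatForms (s + 2) (e + t) p w
  have h1 := mulgen G (fatForms (s + 2) t p fun l => if l ∈ ({P} : Finset (Fin k)) then a else 0)
    (fatForms (s + 2) t p fun _ => 0) (fatForms (s + 2) (e + t) p (Function.update w P a))
    (fatForms (s + 2) (e + t) p w) (fun R hR => ⟨hR.1, fun l => vanishes_zero _ _⟩)
    (fun R hR => ⟨hR.1, fun l => van_mono (hR.2 l) (by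
      by_cases hl : l = P
      · rw [hl, hP]
        exact Nat.zero_le _
      · rw [Function.update_of_ne hl])⟩)
    (fun R hR => ⟨hG.1.mul hR.1, fun l => van_mul (hG.2 l) (vanishes_zero (p l) R)⟩)
    fun R hR h => ⟨hR.1, fun l => by
      dsimp only
      by_cases hl : l = P
      · subst hl
        rw [if_pos (Finset.mem_singleton_self l)]
        have h2 := h.2 l
        rw [Function.update_self] at h2
        exact van_div hGP h2
      · rw [if_neg fun h2 => hl (Finset.mem_singleton.1 h2)]
        exact vanishes_zero _ _⟩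
  rw [hp1, hp2, hp3] at h1
  have h3 : (t + (s + 2)).choose (s + 2) ≤
      Module.finrank ℂ (fatForms (s + 2) t p fun _ => 0) := by
    have h4 := generalDim_ge (r := s + 2) (by omega) t (fun _ : Fin k => 0)
    have h5 : ∀ i : Fin k, ((0 + (s + 2) - 1).choose (s + 2) : ℤ) = 0 := by
      intro i
      rw [Nat.choose_eq_zero_of_lt (by omega)]
      rfl
    have h6 : generalDim (s + 2) t (fun _ : Fin k => 0) ≤
        Module.finrank ℂ (fatForms (s + 2) t p fun _ => 0) := Nat.sInf_le ⟨p, rfl⟩
    rw [Finset.sum_congr rfl fun i _ => h5 i, Finset.sum_const_zero] at h4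
    omega
  have h4 := exact2 s 0 k t (fun _ => a) {P} (Nat.zero_le _) (fun i _ => by omega) (by
    rw [Finset.card_singleton]
    have := Finset.single_le_sum (f := fun u => (s + 2).choose u) (fun _ _ => Nat.zero_le _)
      (Finset.mem_range.2 (show 0 < 0 + 2 + 1 by omega))
    rw [Nat.choose_zero_right] at this
    exact this) (fun x hx y hy hxy => by
    rw [Finset.mem_singleton] at hx hy
    exact absurd (hx.trans hy.symm) hxy)
  rw [Finset.sum_singleton] at h4
  omega

section sum

variable {k : ℕ}

/-- The multiplicities on `J`. -/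
theorem on_union (m : Fin k → ℕ) (J A : Finset (Fin k)) (P : Fin k) (hPJ : P ∉ J) (hPA : P ∉ A) :
    (fun i => if i ∈ J ∪ insert P A then m i else 0) =
      Function.update (fun i => if i ∈ J ∪ A then m i else 0) P (m P) := by
  classical
  funext i
  by_cases hi : i = P
  · subst hi
    rw [Function.update_self, if_pos (Finset.mem_union_right _ (Finset.mem_insert_self _ _))]
  · rw [Function.update_of_ne hi]
    have : i ∈ J ∪ insert P A ↔ i ∈ J ∪ A := by
      rw [Finset.mem_union, Finset.mem_union, Finset.mem_insert]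
      tauto
    simp only [this]

theorem dim_lower {r : ℕ} (hr : 1 ≤ r) (d : ℕ) (m : Fin k → ℕ) (J A : Finset (Fin k))
    (hA : Disjoint J A) :
    (generalDim r d fun i => if i ∈ J then m i else 0) ≤
      (generalDim r d fun i => if i ∈ J ∪ A then m i else 0) +
        ∑ i ∈ A, (m i + r - 1).choose r := by
  classical
  obtain ⟨p, hp0, hp1, hp2⟩ := Pool.Agent.H18.Cub.exists_of_general
    ((Pool.Agent.H18.Pr.general_ne_zero r k).and
      ((generalDim_spec r d fun i => if i ∈ J then m i else 0).and
        (generalDim_spec r d fun i => if i ∈ J ∪ A then m i else 0)))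
  have h1 := finrank_ge_add (r := r) (d := d) hr hp0 (fun i => if i ∈ J ∪ A then m i else 0) J
  have h2 : (fun i => if i ∈ J then (if i ∈ J ∪ A then m i else 0) else 0) =
      fun i => if i ∈ J then m i else 0 := by
    funext i
    by_cases hi : i ∈ J
    · rw [if_pos hi, if_pos hi, if_pos (Finset.mem_union_left _ hi)]
    · rw [if_neg hi, if_neg hi]
  have h3 : ∑ i ∈ Finset.univ.filter (fun i => i ∉ J),
      (((if i ∈ J ∪ A then m i else 0) + r - 1).choose r : ℤ) =
        ((∑ i ∈ A, (m i + r - 1).choose r : ℕ) : ℤ) := by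
    push_cast
    have h4 : A ⊆ Finset.univ.filter (fun i => i ∉ J) := fun i hi =>
      Finset.mem_filter.2 ⟨Finset.mem_univ _, fun h => Finset.disjoint_left.1 hA h hi⟩
    rw [← Finset.sum_subset h4]
    · refine Finset.sum_congr rfl fun i hi => ?_
      rw [if_pos (Finset.mem_union_right _ hi)]
    · intro i hi1 hi2
      rw [Finset.mem_filter] at hi1
      rw [if_neg (by
        rw [Finset.mem_union]
        rintro (h3 | h3)
        · exact hi1.2 h3
        · exact hi2 h3), Nat.choose_eq_zero_of_lt (by omega)]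
      rfl
  rw [h2, hp1, hp2, h3] at h1
  omega

/-- Independent conditions. -/
theorem elem_below (s d e M : ℕ) (m : Fin k → ℕ) (J A : Finset (Fin k)) (hA : Disjoint J A)
    (hM : ∀ i ∈ A, m i ≤ M) (hde : e + M ≤ d + 1)
    (hS : ∑ i ∈ A, (m i + (s + 2) - 1).choose (s + 2) ≤
      generalDim (s + 2) e fun i => if i ∈ J then m i else 0) :
    (generalDim (s + 2) d fun i => if i ∈ J ∪ A then m i else 0) +
        ∑ i ∈ A, (m i + (s + 2) - 1).choose (s + 2) =
      generalDim (s + 2) d fun i => if i ∈ J then m i else 0 := by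
  classical
  induction A using Finset.induction_on with
  | empty =>
    rw [Finset.union_empty, Finset.sum_empty, Nat.add_zero]
  | insert P A hP ih =>
    rw [Finset.disjoint_insert_right] at hA
    rw [Finset.sum_insert hP] at hS ⊢
    have ih' := ih hA.2 (fun i hi => hM i (Finset.mem_insert_of_mem hi)) (by omega)
    have hlow := dim_lower (r := s + 2) (by omega) d m J (insert P A)
      (Finset.disjoint_insert_right.2 hA)
    rw [Finset.sum_insert hP] at hlow
    refine le_antisymm ?_ hlow
    rw [on_union m J A P hA.1 hP]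
    rcases Nat.eq_zero_or_pos (m P) with h0 | h0
    · have h1 : (m P + (s + 2) - 1).choose (s + 2) = 0 := Nat.choose_eq_zero_of_lt (by omega)
      have h2 : (generalDim (s + 2) d
          (Function.update (fun i => if i ∈ J ∪ A then m i else 0) P (m P))) ≤
          generalDim (s + 2) d fun i => if i ∈ J ∪ A then m i else 0 := by
        refine generalDim_anti fun i => ?_
        by_cases hi : i = P
        · rw [hi, Function.update_self]
          split_ifs <;> omega
        · rw [Function.update_of_ne hi]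
      omega
    · have h1 : 1 ≤ (m P + (s + 2) - 1).choose (s + 2) := Nat.choose_pos (by omega)
      have h2 := dim_lower (r := s + 2) (by omega) e m J A hA.2
      have h3 := add_point s k d e (m P) (fun i => if i ∈ J ∪ A then m i else 0) P
        (if_neg (by
          rw [Finset.mem_union]
          rintro (h | h)
          · exact hA.1 h
          · exact hP h)) (by omega) (by
        have := hM P (Finset.mem_insert_self P A)
        omega)
      omega

/-- Independent conditions in the degree `D`, if `V_d` is not zero. -/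
theorem elem_above (s d D M : ℕ) (m : Fin k → ℕ) (J A : Finset (Fin k)) (hA : Disjoint J A)
    (hM : ∀ i ∈ A, m i ≤ M) (hdD : d + M ≤ D + 1)
    (hpos : 1 ≤ generalDim (s + 2) d fun i => if i ∈ J ∪ A then m i else 0) :
    (generalDim (s + 2) D fun i => if i ∈ J ∪ A then m i else 0) +
        ∑ i ∈ A, (m i + (s + 2) - 1).choose (s + 2) =
      generalDim (s + 2) D fun i => if i ∈ J then m i else 0 := by
  classical
  induction A using Finset.induction_on with
  | empty =>
    rw [Finset.union_empty, Finset.sum_empty, Nat.add_zero]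
  | insert P A hP ih =>
    rw [Finset.disjoint_insert_right] at hA
    have hpos' : 1 ≤ generalDim (s + 2) d fun i => if i ∈ J ∪ A then m i else 0 := by
      refine hpos.trans (generalDim_anti fun i => ?_)
      by_cases hi : i ∈ J ∪ A
      · have h1 : i ∈ J ∪ insert P A := by
          rw [Finset.mem_union] at hi ⊢
          rcases hi with hi | hi
          · exact Or.inl hi
          · exact Or.inr (Finset.mem_insert_of_mem hi)
        rw [if_pos hi, if_pos h1]
      · rw [if_neg hi]
        exact Nat.zero_le _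
    have ih' := ih hA.2 (fun i hi => hM i (Finset.mem_insert_of_mem hi)) hpos'
    have hlow := dim_lower (r := s + 2) (by omega) D m J (insert P A)
      (Finset.disjoint_insert_right.2 hA)
    rw [Finset.sum_insert hP] at hlow ⊢
    refine le_antisymm ?_ hlow
    rw [on_union m J A P hA.1 hP]
    have h3 := add_point s k D d (m P) (fun i => if i ∈ J ∪ A then m i else 0) P
      (if_neg (by
        rw [Finset.mem_union]
        rintro (h | h)
        · exact hA.1 h
        · exact hP h)) hpos' (by
      have := hM P (Finset.mem_insert_self P A)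
      omega)
    omega

end sum

end Pool.Agent.H74.BP

end

section

/-!
# Slow growth for all big classes

The number of the points is arbitrary: the small points of `J` impose independent conditions in all
degrees near `d`.
-/

namespace Pool.Agent.H74.BP

open MvPolynomial Pool.Agent.H18.Fat Pool.Agent.H18.Ub Pool.Agent.H22.LU Pool.Agent.H74.CT

/-- Slow growth for the part `I` of `J` implies slow growth for `J`. -/
theorem slow_transfer (s k d C E e μ : ℕ) (m : Fin k → ℕ) (I J : Finset (Fin k)) (hIJ : I ⊆ J)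
    (hM : ∀ i ∈ J \ I, m i ≤ μ) (he : e + μ + C ≤ d) (g h : ℕ → ℕ)
    (hg : ∀ j, g j = generalDim (s + 2) j fun i => if i ∈ I then m i else 0)
    (hh : ∀ j, h j = generalDim (s + 2) j fun i => if i ∈ J then m i else 0)
    (hS : ∑ i ∈ J \ I, (m i + (s + 2) - 1).choose (s + 2) ≤ g e)
    (hslow : E * ((g d - g (d - 1)) - (g (d - C) - g (d - C - 1))) ≤ g d - g (d - 1)) :
    E * ((h d - h (d - 1)) - (h (d - C) - h (d - C - 1))) ≤ h d - h (d - 1) := by
  have hval : ∀ j, e + μ ≤ j + 1 →
      h j + ∑ i ∈ J \ I, (m i + (s + 2) - 1).choose (s + 2) = g j := by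
    intro j hj
    have h1 := elem_below s j e μ m I (J \ I) Finset.disjoint_sdiff hM hj (by
      rw [← hg]
      exact hS)
    rw [Finset.union_sdiff_of_subset hIJ, ← hg, ← hh] at h1
    exact h1
  have h1 := hval d (by omega)
  have h2 := hval (d - 1) (by omega)
  have h3 := hval (d - C) (by omega)
  have h4 := hval (d - C - 1) (by omega)
  have h5 : h d - h (d - 1) = g d - g (d - 1) := by omega
  have h6 : h (d - C) - h (d - C - 1) = g (d - C) - g (d - C - 1) := by omega
  rw [h5, h6]
  exact hslow

/-- The growth condition for all big classes. -/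
theorem big_all (r : ℕ) (hr : 2 ≤ r) (C E T : ℕ) (hE : 1 ≤ E) (hT : 1 ≤ T) :
    ∃ d₀ : ℕ, ∀ d, d₀ ≤ d → ∀ (k : ℕ) (m : Fin k → ℕ) (J : Finset (Fin k)) (h : ℕ → ℕ),
      (∀ j, h j = generalDim r j fun i => if i ∈ J then m i else 0) →
      (∃ e, T * e + d ≤ T * d ∧ 1 ≤ h e) →
      E * ((h d - h (d - 1)) - (h (d - C) - h (d - C - 1))) ≤ h d - h (d - 1) := by
  classical
  obtain ⟨s, rfl⟩ : ∃ s, r = s + 2 := ⟨r - 2, by omega⟩
  obtain ⟨d₀, hd₀⟩ := big_growth (s + 2) ((4 * T) ^ (s + 2)) hr C E T hE hT
  refine ⟨d₀ + 2 * T * C + 1, fun d hd k m J h hh he => ?_⟩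
  obtain ⟨e, he1, he2⟩ := he
  have hed : e < d := by
    have h1 : T * e < T * d := by omega
    exact Nat.lt_of_mul_lt_mul_left h1
  set I := J.filter fun i => d ≤ 4 * T * m i with hI
  have hIJ : I ⊆ J := Finset.filter_subset _ _
  set g : ℕ → ℕ := fun j => generalDim (s + 2) j fun i => if i ∈ I then m i else 0 with hg
  have hmem : ∀ i ∈ I, d ≤ 4 * T * m i := fun i hi => (Finset.mem_filter.1 hi).2
  have hge : ∀ j, h j ≤ g j := by
    intro j
    rw [hh]
    refine generalDim_anti fun i => ?_
    by_cases hi : i ∈ I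
    · rw [if_pos hi, if_pos (hIJ hi)]
    · rw [if_neg hi]
      exact Nat.zero_le _
  have hgpos : 1 ≤ g e := he2.trans (hge e)
  have hcard : I.card ≤ (4 * T) ^ (s + 2) :=
    (few_big (s + 2) (4 * T) (by omega) (by omega) k e m I
      (fun i hi => lt_of_lt_of_le hed (hmem i hi)) hgpos).le
  have hslow := hd₀ d (by omega) k m I hcard g (fun _ => rfl) ⟨e, he1, hgpos⟩
  set μ := d / (4 * T) with hμ
  have hμd : 4 * T * μ ≤ d := Nat.mul_div_le d (4 * T)
  have hM : ∀ i ∈ J \ I, m i ≤ μ := by
    intro i hi
    rw [Finset.mem_sdiff] at hi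
    have h1 : ¬ d ≤ 4 * T * m i := fun h2 => hi.2 (Finset.mem_filter.2 ⟨hi.1, h2⟩)
    rw [hμ, Nat.le_div_iff_mul_le (by omega), Nat.mul_comm]
    omega
  have habove := elem_above s e (e + μ) μ m I (J \ I) Finset.disjoint_sdiff hM (by omega) (by
    rw [Finset.union_sdiff_of_subset hIJ, ← hh]
    exact he2)
  refine slow_transfer s k d C E (e + μ) μ m I J hIJ hM ?_ g h (fun _ => rfl) hh ?_ hslow
  · by_contra hcon
    push Not at hcon
    have h1 : 2 * T * (d + 1) ≤ 2 * T * (e + μ + μ + C) := Nat.mul_le_mul_left _ (by omega)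
    have h2 : 2 * T * (d + 1) = 2 * (T * d) + 2 * T := by ring
    have h3 : 2 * T * (e + μ + μ + C) = 2 * (T * e) + 4 * T * μ + 2 * T * C := by ring
    omega
  · have h1 : g (e + μ) = generalDim (s + 2) (e + μ) fun i => if i ∈ I then m i else 0 := rfl
    rw [h1, ← habove]
    exact Nat.le_add_left _ _

/-- The points outside `J` impose independent conditions, or no form is left. -/
theorem elem (r M : ℕ) (hr : 2 ≤ r) (k d : ℕ) (m : Fin k → ℕ) (J : Finset (Fin k))
    (hJ : ∀ i, i ∉ J → m i ≤ M) (h : ℕ → ℕ)
    (hh : ∀ j, h j = generalDim r j fun i => if i ∈ J then m i else 0) (S : ℕ)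
    (hS : S = ∑ i ∈ Finset.univ.filter (fun i => i ∉ J), (m i + r - 1).choose r)
    (hor : (∃ e, e + M ≤ d + 1 ∧ S ≤ h e) ∨ (∃ e, d + M ≤ e + 1 ∧ h e ≤ S) ∧ 1 ≤ M) :
    ForGeneralPoints r k fun p => (Module.finrank ℂ (fatForms r d p m) : ℤ) =
      max 0 ((h d : ℤ) - S) := by
  classical
  obtain ⟨s, rfl⟩ : ∃ s, r = s + 2 := ⟨r - 2, by omega⟩
  set U := Finset.univ.filter (fun i : Fin k => i ∉ J) with hU
  have hdis : Disjoint J U := by
    rw [Finset.disjoint_left]
    intro i hi1 hi2
    rw [hU, Finset.mem_filter] at hi2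
    exact hi2.2 hi1
  have huni : J ∪ U = Finset.univ := by
    ext i
    rw [Finset.mem_union, hU, Finset.mem_filter]
    have := Finset.mem_univ i
    tauto
  have hm : (fun i => if i ∈ J ∪ U then m i else 0) = m := by
    funext i
    rw [huni, if_pos (Finset.mem_univ i)]
  have hMU : ∀ i ∈ U, m i ≤ M := fun i hi => hJ i (Finset.mem_filter.1 hi).2
  rcases hor with ⟨e, he1, he2⟩ | ⟨⟨e, he1, he2⟩, hM⟩
  · have h1 := elem_below s d e M m J U hdis hMU he1 (by
      rw [← hh, ← hS]
      exact he2)
    rw [hm, ← hh, ← hS] at h1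
    refine (generalDim_spec (s + 2) d m).mono fun p hp => ?_
    rw [hp, max_eq_right] <;> omega
  · have h0 : generalDim (s + 2) d m = 0 := by
      by_contra hcon
      have h1 := elem_above s d e M m J U hdis hMU he1 (by
        rw [hm]
        omega)
      rw [hm, ← hh, ← hS] at h1
      have h2 : generalDim (s + 2) d m ≤ generalDim (s + 2) e m :=
        generalDim_deg m (by omega)
      omega
    have h3 : h d ≤ h e := by
      rw [hh, hh]
      exact generalDim_deg _ (by omega)
    refine (generalDim_spec (s + 2) d m).mono fun p hp => ?_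
    rw [hp, h0, max_eq_left] <;> omega

end Pool.Agent.H74.BP

end

section

/-!
# The large part decides, with points of medium multiplicity

`J` is any set of the points, `μ` bounds the multiplicities outside `J`.
-/

namespace Pool.Agent.H74.BP

open Finset Pool.Agent.H18.Fat Pool.Agent.H18.Ub Pool.Agent.H22.LU Pool.Agent.H74.CT

/-- The number of the conditions of the points of `A`. -/
def len (r : ℕ) {k : ℕ} (m : Fin k → ℕ) (A : Finset (Fin k)) : ℕ := ∑ i ∈ A, (m i + r - 1).choose r

/-- The points outside `J` impose maximal conditions. -/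
def Max (r d : ℕ) {k : ℕ} (m : Fin k → ℕ) (J : Finset (Fin k)) : Prop :=
  ForGeneralPoints r k fun p => (Module.finrank ℂ (fatForms r d p m) : ℤ) =
    max 0 (((generalDim r d fun i => if i ∈ J then m i else 0) : ℤ) -
      len r m (univ.filter fun i => i ∉ J))

theorem len_cast (r : ℕ) {k : ℕ} (m : Fin k → ℕ) (A : Finset (Fin k)) :
    ((len r m A : ℕ) : ℤ) = ∑ i ∈ A, ((m i + r - 1).choose r : ℤ) := by
  unfold len
  push_cast
  rfl

theorem len_split (r : ℕ) {k : ℕ} (m : Fin k → ℕ) {J L : Finset (Fin k)} (h : J ⊆ L) :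
    len r m (univ.filter fun i => i ∉ J) =
      len r m (L \ J) + len r m (univ.filter fun i => i ∉ L) := by
  classical
  unfold len
  rw [← sum_union]
  · refine sum_congr ?_ fun _ _ => rfl
    ext i
    rw [mem_filter, mem_union, mem_sdiff, mem_filter]
    have := @h i
    have := mem_univ i
    tauto
  · rw [disjoint_left]
    intro i hi1 hi2
    rw [mem_sdiff] at hi1
    rw [mem_filter] at hi2
    exact hi2.2 hi1.1

/-- From `L` to `J`. -/
theorem max_of_max (s k d e μ : ℕ) (m : Fin k → ℕ) (J L : Finset (Fin k)) (hJL : J ⊆ L)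
    (hM : ∀ i ∈ L \ J, m i ≤ μ) (he : e + μ ≤ d + 1)
    (hS : len (s + 2) m (L \ J) ≤ generalDim (s + 2) e fun i => if i ∈ J then m i else 0)
    (hL : Max (s + 2) d m L) : Max (s + 2) d m J := by
  classical
  have h1 := elem_below s d e μ m J (L \ J) disjoint_sdiff hM he hS
  rw [union_sdiff_of_subset hJL] at h1
  have h2 := len_split (s + 2) m hJL
  have h3 : (generalDim (s + 2) d fun i => if i ∈ L then m i else 0) + len (s + 2) m (L \ J) =
      generalDim (s + 2) d fun i => if i ∈ J then m i else 0 := h1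
  refine hL.mono fun p hp => ?_
  rw [hp, ← h3, h2]
  congr 1
  push_cast
  ring

/-- The points of `J` and the points with multiplicity more than `M`. -/
def med {k : ℕ} (M : ℕ) (m : Fin k → ℕ) (J : Finset (Fin k)) : Finset (Fin k) :=
  J ∪ univ.filter fun i => M < m i

theorem med_sub {k : ℕ} (M : ℕ) (m : Fin k → ℕ) (J : Finset (Fin k)) : J ⊆ med M m J :=
  subset_union_left

theorem med_le {k M : ℕ} {m : Fin k → ℕ} {J : Finset (Fin k)} {i : Fin k}
    (hi : i ∉ med M m J) : m i ≤ M := by
  unfold med at hi
  rw [mem_union, mem_filter] at hi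
  by_contra hcon
  exact hi (Or.inr ⟨mem_univ i, by omega⟩)

theorem med_sdiff {k M : ℕ} {m : Fin k → ℕ} {J : Finset (Fin k)} :
    med M m J \ J = univ.filter fun i => i ∉ J ∧ M < m i := by
  unfold med
  ext i
  rw [mem_sdiff, mem_union, mem_filter, mem_filter]
  have := mem_univ i
  tauto

end Pool.Agent.H74.BP

end
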