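import Pool.Agent.H94.LP3.M01
import Pool.Agent.H94.LP3.M15
import Pool.Agent.H94.LP3.M16

/-! The parts of this file: H18.Tl.Orb, H22.LU.Defs, H74.KV.Col, H74.KV.Def, H74.KV.Dya, H74.KV.Dya2, H74.KV.Gen. -/

section

/-!
# Module Orb (TL): orbits

`common`: the polynomials `∑_κ a κ ∏ X_l^(κ_l)` (`MvPolynomial.monomial`, different exponents for different `κ`) are not zero,
so their product is not zero and has a non-root (`MvPolynomial.funext`).

`(tz b c').mulVec v` at `zb b` is `∑_β v β ∏ c'_l^(β_l)`.  The vector `u = (rv b * tz b c').mulVec v` has this value at the exponent `b`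
(`rb (zb b)`).  For any `ψ`, `u`: `ψ ⬝ᵥ (tz b c).mulVec u = ∑_κ A κ ∏ c_l^(κ_l)`, `A κ = ∑_{γ, γ + κ ≤ b} ψ γ (∏ binom(γ_l + κ_l, γ_l)) u (γ + κ)`.  If
`ψ ≠ 0` and `u (rb (zb b)) ≠ 0`, then `A ≠ 0`: let `γ*` be an exponent with `ψ γ* ≠ 0` and `dg γ*` minimal, `κ = rb γ*`; in `A κ` only the
`γ ≤ γ*` occur, so only `γ = γ*`: `A κ = ψ γ* binom(b, γ*) u b ≠ 0`.  If `ψ (zb b) ≠ 0` and `u ≠ 0`, then `A ≠ 0`: let `κ` be an
exponent with `u κ ≠ 0` and `dg κ` maximal: only `γ = 0` contributes (for `γ ≠ 0` the exponent `γ + κ` has a larger degree).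
`orb`: choose `c'` with `((tz b c').mulVec v) (zb b) ≠ 0` and `ξ ᵥ* tz b (-c') * rv b` not `0` at `zb b`: the latter is
`∑_γ ξ γ (tz b (-c')) γ (rb (zb b)) = ∑_γ ξ γ binom(b, γ) ∏ (-c'_l)^(b_l - γ_l)`, a nonzero polynomial in `c'` (`common` with
`a κ = ± ξ (rb κ) binom(b, rb κ)`).  Then choose `c` by `common` for the two families `A`, the second one at `-c` (sign `(-1)^(dg κ)`).
`orb2`: choose `c'` for `v`, then `c` by `common` for `ψ₁`, `ψ₂` and `u`.
-/

namespace Pool.Agent.H18.Tl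

open Finset Polynomial Matrix

variable {τ : Type} [Fintype τ] [DecidableEq τ] {b : τ → ℕ}

/-- the exponent of a box as a finitely supported function -/
private noncomputable def Orb_e (κ : Box b) : τ →₀ ℕ :=
  Finsupp.equivFunOnFinite.symm fun l => (κ l : ℕ)

omit [DecidableEq τ] in
private theorem Orb_e_inj (κ κ' : Box b) (h : Orb_e κ = Orb_e κ') : κ = κ' := by
  funext l
  have h1 := DFunLike.congr_fun h l
  exact Fin.ext h1

/-- the polynomial with the coefficients `A` -/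
private noncomputable def Orb_p (A : Box b → ℂ) : MvPolynomial τ ℂ :=
  ∑ κ, MvPolynomial.monomial (Orb_e κ) (A κ)

private theorem Orb_p_eval (A : Box b → ℂ) (c : τ → ℂ) :
    MvPolynomial.eval c (Orb_p A) = ∑ κ, A κ * ∏ l, c l ^ (κ l : ℕ) := by
  unfold Orb_p
  rw [map_sum]
  refine Finset.sum_congr rfl fun κ _ => ?_
  rw [MvPolynomial.eval_monomial, Finsupp.prod_fintype _ _ (fun i => pow_zero _)]
  rfl

private theorem Orb_p_ne (A : Box b → ℂ) (hA : A ≠ 0) : Orb_p A ≠ 0 := by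
  obtain ⟨κ, hκ⟩ := Function.ne_iff.mp hA
  intro h
  apply hκ
  have h1 : (Orb_p A).coeff (Orb_e κ) = A κ := by
    classical
    unfold Orb_p
    rw [MvPolynomial.coeff_sum, Finset.sum_eq_single κ]
    · rw [MvPolynomial.coeff_monomial, if_pos rfl]
    · intro κ' _ hne
      rw [MvPolynomial.coeff_monomial, if_neg]
      intro h2
      exact hne (Orb_e_inj _ _ h2)
    · intro h2
      exact absurd (Finset.mem_univ κ) h2
  rw [← h1, h]
  rfl

theorem common (A A' : Box b → ℂ) (hA : A ≠ 0) (hA' : A' ≠ 0) :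
    ∃ c : τ → ℂ, ∑ κ, A κ * ∏ l, c l ^ (κ l : ℕ) ≠ 0 ∧ ∑ κ, A' κ * ∏ l, c l ^ (κ l : ℕ) ≠ 0 := by
  have h := mul_ne_zero (Orb_p_ne A hA) (Orb_p_ne A' hA')
  by_contra hc
  push Not at hc
  apply h
  refine MvPolynomial.funext fun c => ?_
  rw [map_mul, Orb_p_eval, Orb_p_eval, map_zero]
  by_cases h1 : ∑ κ, A κ * ∏ l, c l ^ (κ l : ℕ) = 0
  · rw [h1, zero_mul]
  · rw [hc c h1, mul_zero]

/-- the coefficients of the polynomial `c ↦ ψ ⬝ᵥ (tz b c).mulVec u` -/
private noncomputable def Orb_A (ψ u : Box b → ℂ) (κ : Box b) : ℂ :=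
  ∑ γ : Box b, ∑ β : Box b, if ∀ l, (γ l : ℕ) + κ l = β l then
    ψ γ * (∏ l, (((β l : ℕ).choose (γ l : ℕ) : ℕ) : ℂ)) * u β else 0

private theorem Orb_A_eq (ψ u : Box b → ℂ) (c : τ → ℂ) :
    ψ ⬝ᵥ (tz b c).mulVec u = ∑ κ, Orb_A ψ u κ * ∏ l, c l ^ (κ l : ℕ) := by
  have h1 : ∀ γ β : Box b, ψ γ * (tz b c γ β * u β) =
      ∑ κ : Box b, (if ∀ l, (γ l : ℕ) + κ l = β l then
        ψ γ * (∏ l, (((β l : ℕ).choose (γ l : ℕ) : ℕ) : ℂ)) * u β else 0) *
          ∏ l, c l ^ (κ l : ℕ) := by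
    intro γ β
    by_cases h : ∀ l, (γ l : ℕ) ≤ β l
    · have hb : ∀ l, (β l : ℕ) - (γ l : ℕ) < b l + 1 := fun l => by
        have := (β l).isLt
        omega
      rw [Finset.sum_eq_single (fun l => (⟨(β l : ℕ) - (γ l : ℕ), hb l⟩ : Fin (b l + 1)))]
      · rw [if_pos (fun l => by
          have := h l
          show (γ l : ℕ) + ((β l : ℕ) - (γ l : ℕ)) = β l
          omega)]
        unfold tz
        rw [Finset.prod_mul_distrib]
        ring
      · intro κ _ hne
        rw [if_neg, zero_mul]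
        intro h2
        apply hne
        funext l
        apply Fin.ext
        have := h2 l
        show (κ l : ℕ) = (β l : ℕ) - (γ l : ℕ)
        omega
      · intro h2
        exact absurd (Finset.mem_univ _) h2
    · rw [tz_eq_zero c γ β h, zero_mul, mul_zero]
      symm
      refine Finset.sum_eq_zero fun κ _ => ?_
      rw [if_neg, zero_mul]
      intro h2
      exact h fun l => by
        have := h2 l
        omega
  calc ψ ⬝ᵥ (tz b c).mulVec u = ∑ γ, ∑ β, ψ γ * (tz b c γ β * u β) := by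
        simp only [dotProduct, mulVec, Finset.mul_sum]
    _ = ∑ γ, ∑ β, ∑ κ : Box b, (if ∀ l, (γ l : ℕ) + κ l = β l then
        ψ γ * (∏ l, (((β l : ℕ).choose (γ l : ℕ) : ℕ) : ℂ)) * u β else 0) *
          ∏ l, c l ^ (κ l : ℕ) :=
        Finset.sum_congr rfl fun γ _ => Finset.sum_congr rfl fun β _ => h1 γ β
    _ = ∑ κ : Box b, ∑ γ, ∑ β, (if ∀ l, (γ l : ℕ) + κ l = β l then
        ψ γ * (∏ l, (((β l : ℕ).choose (γ l : ℕ) : ℕ) : ℂ)) * u β else 0) *
          ∏ l, c l ^ (κ l : ℕ) := by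
        rw [Finset.sum_congr rfl fun (γ : Box b) _ => Finset.sum_comm]
        exact Finset.sum_comm
    _ = _ := by
        refine Finset.sum_congr rfl fun κ _ => ?_
        unfold Orb_A
        rw [Finset.sum_mul]
        exact Finset.sum_congr rfl fun γ _ => (Finset.sum_mul _ _ _).symm

omit [DecidableEq τ] in
private theorem Orb_choose_ne (β γ : Box b) (h : ∀ l, (γ l : ℕ) ≤ β l) :
    (∏ l, (((β l : ℕ).choose (γ l : ℕ) : ℕ) : ℂ)) ≠ 0 :=
  Finset.prod_ne_zero_iff.mpr fun l _ => Nat.cast_ne_zero.mpr (Nat.choose_pos (h l)).ne'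

omit [DecidableEq τ] in
private theorem Orb_dg_lt {γ β : Box b} (h : ∀ l, (γ l : ℕ) ≤ β l) (hne : γ ≠ β) :
    dg γ < dg β := by
  obtain ⟨l, hl⟩ := Function.ne_iff.mp hne
  refine Finset.sum_lt_sum (fun l _ => h l) ⟨l, Finset.mem_univ l, ?_⟩
  exact lt_of_le_of_ne (h l) fun h2 => hl (Fin.ext h2)

private theorem Orb_A_ne1 (ψ u : Box b → ℂ) (hψ : ψ ≠ 0) (hu : u (rb (zb b)) ≠ 0) :
    Orb_A ψ u ≠ 0 := by
  classical
  obtain ⟨γ₁, hγ₁⟩ := Function.ne_iff.mp hψ
  obtain ⟨γ, hγ, hmin⟩ := Finset.exists_min_image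
    (Finset.univ.filter fun γ : Box b => ψ γ ≠ 0) dg ⟨γ₁, by simpa using hγ₁⟩
  have hγ0 : ψ γ ≠ 0 := (Finset.mem_filter.mp hγ).2
  intro h
  have h1 := congrFun h (rb γ)
  have hval : ∀ (δ : Box b) (l : τ), ((rb δ l : Fin (b l + 1)) : ℕ) = b l - δ l := by
    intro δ l
    unfold rb
    rw [Fin.val_rev]
    omega
  have h2 : Orb_A ψ u (rb γ) =
      ψ γ * (∏ l, ((((rb (zb b) : Box b) l : ℕ).choose (γ l : ℕ) : ℕ) : ℂ)) * u (rb (zb b)) := by
    unfold Orb_A
    rw [Finset.sum_eq_single γ, Finset.sum_eq_single (rb (zb b))]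
    · rw [if_pos]
      intro l
      rw [hval, hval]
      have := (γ l).isLt
      show (γ l : ℕ) + (b l - γ l) = b l - 0
      omega
    · intro β _ hne
      rw [if_neg]
      intro h3
      apply hne
      funext l
      apply Fin.ext
      have h4 := h3 l
      rw [hval] at h4
      rw [hval]
      have := (γ l).isLt
      show (β l : ℕ) = b l - 0
      omega
    · intro h3
      exact absurd (Finset.mem_univ _) h3
    · intro δ _ hne
      refine Finset.sum_eq_zero fun β _ => ?_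
      split_ifs with h3
      · have h4 : ∀ l, (δ l : ℕ) ≤ γ l := by
          intro l
          have h5 := h3 l
          rw [hval] at h5
          have h6 := (β l).isLt
          have h7 := (γ l).isLt
          omega
        have h5 := Orb_dg_lt h4 hne
        have h6 : ψ δ = 0 := by
          by_contra h7
          have h8 := hmin δ (Finset.mem_filter.mpr ⟨Finset.mem_univ _, h7⟩)
          omega
        rw [h6, zero_mul, zero_mul]
      · rfl
    · intro h3
      exact absurd (Finset.mem_univ _) h3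
  rw [h2] at h1
  refine mul_ne_zero (mul_ne_zero hγ0 (Orb_choose_ne _ _ fun l => ?_)) hu h1
  rw [hval]
  have := (γ l).isLt
  show (γ l : ℕ) ≤ b l - 0
  omega

private theorem Orb_A_ne2 (ψ u : Box b → ℂ) (hψ : ψ (zb b) ≠ 0) (hu : u ≠ 0) :
    Orb_A ψ u ≠ 0 := by
  classical
  obtain ⟨κ₁, hκ₁⟩ := Function.ne_iff.mp hu
  obtain ⟨κ, hκ, hmax⟩ := Finset.exists_max_image
    (Finset.univ.filter fun κ : Box b => u κ ≠ 0) dg ⟨κ₁, by simpa using hκ₁⟩
  have hκ0 : u κ ≠ 0 := (Finset.mem_filter.mp hκ).2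
  intro h
  have h1 := congrFun h κ
  have hz : ∀ l, ((zb b l : Fin (b l + 1)) : ℕ) = 0 := fun l => rfl
  have h2 : Orb_A ψ u κ = ψ (zb b) * (∏ l, (((κ l : ℕ).choose (zb b l : ℕ) : ℕ) : ℂ)) * u κ := by
    unfold Orb_A
    rw [Finset.sum_eq_single (zb b), Finset.sum_eq_single κ]
    · rw [if_pos]
      intro l
      rw [hz, zero_add]
    · intro β _ hne
      rw [if_neg]
      intro h3
      apply hne
      funext l
      apply Fin.ext
      have h4 := h3 l
      rw [hz, zero_add] at h4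
      exact h4.symm
    · intro h3
      exact absurd (Finset.mem_univ _) h3
    · intro δ _ hne
      refine Finset.sum_eq_zero fun β _ => ?_
      split_ifs with h3
      · have h4 : ∀ l, (κ l : ℕ) ≤ β l := fun l => by
          have := h3 l
          omega
        have h5 : κ ≠ β := by
          rintro rfl
          apply hne
          funext l
          apply Fin.ext
          have := h3 l
          rw [hz]
          omega
        have h6 := Orb_dg_lt h4 h5
        have h7 : u β = 0 := by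
          by_contra h8
          have h9 := hmax β (Finset.mem_filter.mpr ⟨Finset.mem_univ _, h8⟩)
          omega
        rw [h7, mul_zero]
      · rfl
    · intro h3
      exact absurd (Finset.mem_univ _) h3
  rw [h2] at h1
  refine mul_ne_zero (mul_ne_zero hψ (Orb_choose_ne _ _ fun l => ?_)) hκ0 h1
  rw [hz]
  exact Nat.zero_le _

private theorem Orb_neg (A : Box b → ℂ) (c : τ → ℂ) :
    ∑ κ, A κ * ∏ l, (-c) l ^ (κ l : ℕ) =
      ∑ κ, (A κ * ∏ l, (-1 : ℂ) ^ (κ l : ℕ)) * ∏ l, c l ^ (κ l : ℕ) := by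
  refine Finset.sum_congr rfl fun κ _ => ?_
  rw [mul_assoc, ← Finset.prod_mul_distrib]
  congr 1
  refine Finset.prod_congr rfl fun l _ => ?_
  rw [Pi.neg_apply, neg_pow]

omit [DecidableEq τ] in
private theorem Orb_neg_ne (A : Box b → ℂ) (hA : A ≠ 0) :
    (fun κ : Box b => A κ * ∏ l, (-1 : ℂ) ^ (κ l : ℕ)) ≠ 0 := by
  obtain ⟨κ, hκ⟩ := Function.ne_iff.mp hA
  refine Function.ne_iff.mpr ⟨κ, mul_ne_zero hκ (Finset.prod_ne_zero_iff.mpr fun l _ => ?_)⟩
  exact pow_ne_zero _ (neg_ne_zero.mpr one_ne_zero)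

private theorem Orb_v (v : Box b → ℂ) (c : τ → ℂ) :
    (tz b c).mulVec v (zb b) = ∑ κ, v κ * ∏ l, c l ^ (κ l : ℕ) := by
  simp only [mulVec, dotProduct]
  refine Finset.sum_congr rfl fun κ _ => ?_
  rw [mul_comm]
  congr 1
  unfold tz
  refine Finset.prod_congr rfl fun l _ => ?_
  show ((((κ l : ℕ).choose 0 : ℕ) : ℂ) * c l ^ ((κ l : ℕ) - 0)) = _
  rw [Nat.choose_zero_right, Nat.sub_zero, Nat.cast_one, one_mul]

private theorem Orb_u (v : Box b → ℂ) (c : τ → ℂ) :
    (rv b * tz b c).mulVec v (rb (zb b)) = ∑ κ, v κ * ∏ l, c l ^ (κ l : ℕ) := by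
  rw [← mulVec_mulVec, rv_mulVec, rb_rb, Orb_v]

private theorem Orb_xi (ξ : Box b → ℂ) (c : τ → ℂ) :
    (ξ ᵥ* (tz b c * rv b)) (zb b) = ∑ κ, (ξ (rb κ) *
      ∏ l, ((((rb (zb b) : Box b) l : ℕ).choose ((rb κ : Box b) l : ℕ) : ℕ) : ℂ)) *
        ∏ l, c l ^ (κ l : ℕ) := by
  rw [← vecMul_vecMul]
  have h1 : ∀ (w : Box b → ℂ), (w ᵥ* rv b) (zb b) = w (rb (zb b)) := by
    intro w
    simp only [vecMul, dotProduct, rv, mul_ite, mul_one, mul_zero]
    rw [Finset.sum_ite_eq' Finset.univ, if_pos (Finset.mem_univ _)]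
  rw [h1]
  simp only [vecMul, dotProduct]
  rw [← Equiv.sum_comp (Function.Involutive.toPerm rb rb_rb)]
  refine Finset.sum_congr rfl fun κ _ => ?_
  show ξ (rb κ) * tz b c (rb κ) (rb (zb b)) = _
  rw [mul_assoc]
  congr 1
  unfold tz
  rw [← Finset.prod_mul_distrib]
  refine Finset.prod_congr rfl fun l _ => ?_
  congr 2
  unfold rb
  rw [Fin.val_rev, Fin.val_rev]
  have := (κ l).isLt
  show b l + 1 - (0 + 1) - (b l + 1 - ((κ l : ℕ) + 1)) = κ l
  omega

theorem orb (v w ψ ξ : Box b → ℂ) (hv : v ≠ 0) (hw : w ≠ 0) (hψ : ψ ≠ 0) (hξ : ξ ≠ 0) :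
    ∃ c c' : τ → ℂ, ψ ⬝ᵥ (tz b c * rv b * tz b c').mulVec v ≠ 0 ∧
      ξ ⬝ᵥ (tz b (-c') * rv b * tz b (-c)).mulVec w ≠ 0 := by
  have hv' : ∃ c' : τ → ℂ, ∑ κ, v κ * ∏ l, c' l ^ (κ l : ℕ) ≠ 0 ∧
      (ξ ᵥ* (tz b (-c') * rv b)) (zb b) ≠ 0 := by
    have h1 : (fun κ : Box b => ξ (rb κ) *
        ∏ l, ((((rb (zb b) : Box b) l : ℕ).choose ((rb κ : Box b) l : ℕ) : ℕ) : ℂ)) ≠ 0 := by
      obtain ⟨γ, hγ⟩ := Function.ne_iff.mp hξ
      refine Function.ne_iff.mpr ⟨rb γ, mul_ne_zero ?_ (Orb_choose_ne _ _ fun l => ?_)⟩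
      · rw [rb_rb]
        exact hγ
      · unfold rb
        rw [Fin.val_rev, Fin.val_rev]
        show _ ≤ b l + 1 - (0 + 1)
        omega
    obtain ⟨c', h2, h3⟩ := common v _ hv (Orb_neg_ne _ h1)
    refine ⟨c', h2, ?_⟩
    rw [Orb_xi, Orb_neg]
    exact h3
  obtain ⟨c', h1, h2⟩ := hv'
  have h3 : Orb_A ψ ((rv b * tz b c').mulVec v) ≠ 0 := by
    refine Orb_A_ne1 _ _ hψ ?_
    rw [Orb_u]
    exact h1
  have h4 : Orb_A (ξ ᵥ* (tz b (-c') * rv b)) w ≠ 0 := Orb_A_ne2 _ _ h2 hw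
  obtain ⟨c, h5, h6⟩ := common _ _ h3 (Orb_neg_ne _ h4)
  refine ⟨c, c', ?_, ?_⟩
  · rw [mul_assoc, ← mulVec_mulVec, Orb_A_eq]
    exact h5
  · rw [← mulVec_mulVec, dotProduct_mulVec, Orb_A_eq, Orb_neg]
    exact h6

theorem orb2 (v ψ₁ ψ₂ : Box b → ℂ) (hv : v ≠ 0) (hψ₁ : ψ₁ ≠ 0) (hψ₂ : ψ₂ ≠ 0) :
    ∃ c c' : τ → ℂ, ψ₁ ⬝ᵥ (tz b c * rv b * tz b c').mulVec v ≠ 0 ∧
      ψ₂ ⬝ᵥ (tz b c * rv b * tz b c').mulVec v ≠ 0 := by
  obtain ⟨c', h1, -⟩ := common v v hv hv
  have h2 : (rv b * tz b c').mulVec v (rb (zb b)) ≠ 0 := by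
    rw [Orb_u]
    exact h1
  obtain ⟨c, h3, h4⟩ := common _ _ (Orb_A_ne1 ψ₁ _ hψ₁ h2) (Orb_A_ne1 ψ₂ _ hψ₂ h2)
  refine ⟨c, c', ?_, ?_⟩
  · rw [mul_assoc, ← mulVec_mulVec, Orb_A_eq]
    exact h3
  · rw [mul_assoc, ← mulVec_mulVec, Orb_A_eq]
    exact h4

end Pool.Agent.H18.Tl

end

section

/-!
# Nine points in `ℙ³`: definitions

`fatW w N P m` is the space of the polynomials in `n` variables all of whose monomials have
`w`-weight at most `N` and which vanish to order at least `m i` at the point `P i`.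

`LL d m`: three variables `x, y, z`, total degree at most `d`, the points `(t, t², t⁴)` with
`t = 1, …, 9`.  They are on the surface `y = x²`.
`VV N m`: two variables `x, z` of weights `1, 2`, weight at most `N`, the points `(t, t⁴)`.
-/

namespace Pool.Agent.H22.LU

open MvPolynomial Pool.Agent.H18.Fat

/-- The numerical conditions. -/
structure Cond (d : ℕ) (m : Fin 9 → ℕ) : Prop where
  anti : Antitone m
  top : m 0 ≤ d
  four : m 0 + m 1 + m 2 + m 3 ≤ 2 * d
  nine : ∑ i, m i ≤ 4 * d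

end Pool.Agent.H22.LU

end

section

/-!
# Points collapsing to a point
-/

namespace Pool.Agent.H74.KV

open Finset MvPolynomial Pool.Agent.H18.Fat

variable {r : ℕ}

/-- The conditions at the points of `I` are independent on the polynomials of degree at most `d`. -/
def Srj (r d : ℕ) {ι : Type*} (I : Finset ι) (x : ι → Fin r → ℂ) (m : ι → ℕ) : Prop :=
  ∀ u : ι → (Fin r →₀ ℕ) → ℂ, ∃ f : MvPolynomial (Fin r) ℂ, f.totalDegree ≤ d ∧
    ∀ i ∈ I, ∀ γ : Fin r →₀ ℕ, γ.degree < m i → coeff γ (shift (x i) f) = u i γ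

theorem Srj.mono {d d' : ℕ} {ι : Type*} {I : Finset ι} {x : ι → Fin r → ℂ} {m m' : ι → ℕ}
    (h : Srj r d I x m) (hd : d ≤ d') (hm : ∀ i ∈ I, m' i ≤ m i) : Srj r d' I x m' := by
  intro u
  obtain ⟨f, hf, h1⟩ := h u
  exact ⟨f, hf.trans hd, fun i hi γ hγ => h1 i hi γ (lt_of_lt_of_le hγ (hm i hi))⟩

theorem Srj.congr {d : ℕ} {ι : Type*} {I : Finset ι} {x x' : ι → Fin r → ℂ} {m : ι → ℕ}
    (h : Srj r d I x m) (hx : ∀ i ∈ I, x' i = x i) : Srj r d I x' m := by
  intro u
  obtain ⟨f, hf, h1⟩ := h u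
  exact ⟨f, hf, fun i hi γ hγ => by rw [hx i hi]; exact h1 i hi γ hγ⟩

theorem shift_shift' {n : ℕ} (x y : Fin n → ℂ) (F : MvPolynomial (Fin n) ℂ) :
    shift (x + y) F = shift y (shift x F) := by
  unfold shift
  rw [← AlgHom.comp_apply]
  congr 1
  apply algHom_ext
  intro i
  rw [AlgHom.comp_apply, aeval_X, aeval_X, map_add, aeval_X, aeval_C, Pi.add_apply, map_add,
    algebraMap_eq]
  ring

theorem tc_smul {n : ℕ} (t : ℂ) (y : Fin n → ℂ) (δ γ : Fin n →₀ ℕ) :
    t ^ γ.degree * tc (t • y) δ γ = t ^ δ.degree * tc y δ γ := by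
  unfold tc
  rw [Finsupp.degree_eq_sum, Finsupp.degree_eq_sum, ← prod_pow_eq_pow_sum, ← prod_pow_eq_pow_sum,
    ← prod_mul_distrib, ← prod_mul_distrib]
  refine prod_congr rfl fun j _ => ?_
  rcases Nat.lt_or_ge (δ j) (γ j) with h | h
  · rw [Nat.choose_eq_zero_of_lt h]
    simp
  · obtain ⟨e, he⟩ := Nat.exists_eq_add_of_le h
    have h1 : δ j - γ j = e := by omega
    rw [h1, he, Pi.smul_apply, smul_eq_mul, mul_pow, pow_add]
    ring

/-- A single point. -/
theorem srj_single {d : ℕ} {ι : Type*} {I : Finset ι} (hI : I.card ≤ 1) {m : ι → ℕ}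
    (hm : ∀ i ∈ I, m i ≤ d + 1) : Srj r d I (fun _ => 0) m := by
  classical
  intro u
  rcases Finset.eq_empty_or_nonempty I with h0 | ⟨i, hi⟩
  · subst h0
    exact ⟨0, by simp, fun i hi => absurd hi (notMem_empty i)⟩
  · refine ⟨∑ γ ∈ full r (m i), monomial γ (u i γ), ?_, ?_⟩
    · refine totalDegree_finsetSum_le fun γ hγ => ?_
      refine (totalDegree_monomial_le _ _).trans ?_
      have h1 := mem_full.1 hγ
      have h2 := hm i hi
      have h3 : (γ.sum fun _ => id) = γ.degree := rfl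
      rw [h3]
      omega
    · intro j hj γ hγ
      have hij : j = i := card_le_one.1 hI j hj i hi
      subst hij
      have h1 : shift (0 : Fin r → ℂ) (∑ γ ∈ full r (m j), monomial γ (u j γ)) =
          ∑ γ ∈ full r (m j), monomial γ (u j γ) := by
        unfold shift
        have h2 : (fun j => X j + C ((0 : Fin r → ℂ) j) : Fin r → MvPolynomial (Fin r) ℂ) = X := by
          funext l
          simp
        rw [h2]
        exact aeval_X_left_apply _
      change coeff γ (shift (0 : Fin r → ℂ) _) = _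
      rw [h1, coeff_sum]
      simp_rw [coeff_monomial]
      rw [sum_ite_eq' (full r (m j)) γ, if_pos (mem_full.2 hγ)]

/-- Several points of the same multiplicity `a` are replaced by clusters. -/
theorem collapse {κ ι : Type*} [Fintype κ] [DecidableEq κ] {d a : ℕ} (ha : 1 ≤ a)
    (X' : κ → Fin r → ℂ) (hX : Srj r d univ X' fun _ => a) (φ : ι → κ) (I : Finset ι)
    (y : ι → Fin r → ℂ) (m : ι → ℕ)
    (hy : ∀ c, Srj r (a - 1) (I.filter fun i => φ i = c) y m) :
    ∃ t : ℂ, t ≠ 0 ∧ Srj r d I (fun i => X' (φ i) + t • y i) m := by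
  classical
  have hf' : ∀ (c : κ) (β : Fin r →₀ ℕ), ∃ f : MvPolynomial (Fin r) ℂ, f.totalDegree ≤ d ∧
      ∀ c' (γ : Fin r →₀ ℕ), γ.degree < a →
        coeff γ (shift (X' c') f) = if c' = c ∧ γ = β then 1 else 0 := by
    intro c β
    obtain ⟨f, h1, h2⟩ := hX fun c' γ => if c' = c ∧ γ = β then 1 else 0
    exact ⟨f, h1, fun c' γ hγ => h2 c' (mem_univ _) γ hγ⟩
  choose f hfd hfc using hf'
  let N : Matrix (Σ i : I, {γ // γ ∈ full r (m i)}) (κ × {β // β ∈ full r a})
      (MvPolynomial Unit ℂ) := fun x z =>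
    ∑ δ ∈ (shift (X' (φ x.1)) (f z.1 z.2.1)).support,
      C (coeff δ (shift (X' (φ x.1)) (f z.1 z.2.1)) * tc (y x.1) δ x.2.1) *
        X () ^ (δ.degree - (z.2.1 : Fin r →₀ ℕ).degree)
  have hN : ∀ (τ : Unit → ℂ) x z, (N.map (eval τ)) x z =
      ∑ δ ∈ (shift (X' (φ x.1)) (f z.1 z.2.1)).support,
        coeff δ (shift (X' (φ x.1)) (f z.1 z.2.1)) * tc (y x.1) δ x.2.1 *
          τ () ^ (δ.degree - (z.2.1 : Fin r →₀ ℕ).degree) := by
    intro τ x z
    rw [Matrix.map_apply]
    change eval τ (∑ δ ∈ (shift (X' (φ x.1)) (f z.1 z.2.1)).support,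
      C (coeff δ (shift (X' (φ x.1)) (f z.1 z.2.1)) * tc (y x.1) δ x.2.1) *
        X () ^ (δ.degree - (z.2.1 : Fin r →₀ ℕ).degree)) = _
    rw [map_sum]
    exact sum_congr rfl fun δ _ => by rw [map_mul, eval_C, map_pow, eval_X]
  have hsupp : ∀ (i : ι) (c : κ) (β : Fin r →₀ ℕ), β.degree < a →
      ∀ δ ∈ (shift (X' (φ i)) (f c β)).support, β.degree ≤ δ.degree ∧
        (δ.degree ≤ β.degree → φ i = c ∧ δ = β) := by
    intro i c β hβ δ hδ
    rw [mem_support_iff] at hδ
    have h1 : δ.degree < a → φ i = c ∧ δ = β := by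
      intro h
      rw [hfc c β (φ i) δ h] at hδ
      by_contra hcon
      rw [if_neg hcon] at hδ
      exact hδ rfl
    constructor
    · by_contra hcon
      push Not at hcon
      rw [(h1 (hcon.trans hβ)).2] at hcon
      exact lt_irrefl _ hcon
    · exact fun h => h1 (lt_of_le_of_lt h hβ)
  -- the special value
  have hspec : Function.Surjective (N.map (eval fun _ => (0 : ℂ))).mulVec := by
    have h0 : ∀ x z, (N.map (eval fun _ => (0 : ℂ))) x z =
        if φ x.1 = z.1 then tc (y x.1) z.2.1 x.2.1 else 0 := by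
      intro x z
      rw [hN]
      have hβ := mem_full.1 z.2.2
      by_cases hc : φ x.1 = z.1
      · rw [if_pos hc]
        have h1 : coeff z.2.1 (shift (X' (φ x.1)) (f z.1 z.2.1)) = 1 := by
          rw [hfc _ _ _ _ hβ, if_pos ⟨hc, rfl⟩]
        rw [sum_eq_single z.2.1]
        · rw [h1, Nat.sub_self, pow_zero, one_mul, mul_one]
        · intro δ hδ hne
          obtain ⟨h2, h3⟩ := hsupp x.1 z.1 z.2.1 hβ δ hδ
          have h4 : δ.degree - (z.2.1 : Fin r →₀ ℕ).degree ≠ 0 := by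
            intro h5
            exact hne (h3 (by omega)).2
          rw [zero_pow h4, mul_zero]
        · intro h2
          rw [notMem_support_iff, h1] at h2
          exact absurd h2 one_ne_zero
      · rw [if_neg hc]
        refine sum_eq_zero fun δ hδ => ?_
        obtain ⟨h2, h3⟩ := hsupp x.1 z.1 z.2.1 hβ δ hδ
        have h4 : δ.degree - (z.2.1 : Fin r →₀ ℕ).degree ≠ 0 := by
          intro h5
          exact hc (h3 (by omega)).1
        rw [zero_pow h4, mul_zero]
    intro v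
    choose g hg1 hg2 using fun c => hy c fun i γ =>
      if h : i ∈ I ∧ γ ∈ full r (m i) then v ⟨⟨i, h.1⟩, ⟨γ, h.2⟩⟩ else 0
    refine ⟨fun z => coeff z.2.1 (g z.1), ?_⟩
    funext x
    unfold Matrix.mulVec dotProduct
    rw [Fintype.sum_prod_type]
    rw [sum_eq_single (φ x.1)]
    · have h1 := hg2 (φ x.1) x.1 (mem_filter.2 ⟨x.1.2, rfl⟩) x.2.1 (mem_full.1 x.2.2)
      rw [dif_pos ⟨x.1.2, x.2.2⟩, coeff_shift] at h1
      rw [← h1]
      have h2 : (g (φ x.1)).support ⊆ full r a := by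
        intro δ hδ
        rw [mem_full]
        have h3 := le_totalDegree hδ
        have h4 : (δ.sum fun _ => id) = δ.degree := rfl
        have h5 : (δ.sum fun _ e => e) = δ.degree := rfl
        have h6 := hg1 (φ x.1)
        rw [h5] at h3
        omega
      rw [sum_subset h2 fun δ _ hδ => by rw [notMem_support_iff.1 hδ, zero_mul]]
      rw [← sum_coe_sort (full r a)]
      refine sum_congr rfl fun β _ => ?_
      change (N.map (eval fun _ => (0 : ℂ))) x (φ x.1, β) * coeff β.1 (g (φ x.1)) = _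
      rw [h0, if_pos rfl, mul_comm]
    · intro c _ hc
      refine sum_eq_zero fun β _ => ?_
      change (N.map (eval fun _ => (0 : ℂ))) x (c, β) * coeff β.1 (g c) = _
      rw [h0, if_neg (Ne.symm hc), zero_mul]
    · exact fun h => absurd (mem_univ _) h
  obtain ⟨G, hG, hG'⟩ := exists_poly_surjective N (fun _ => 0) hspec
  obtain ⟨τ, hτ, hGτ⟩ := exists_ne_zero_eval hG
  have hsurj := hG' τ hGτ
  refine ⟨τ (), hτ, fun u => ?_⟩
  obtain ⟨s, hs⟩ := hsurj fun x => τ () ^ (x.2.1 : Fin r →₀ ℕ).degree * u x.1 x.2.1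
  refine ⟨∑ z : κ × {β // β ∈ full r a},
    C (s z * (τ () ^ (z.2.1 : Fin r →₀ ℕ).degree)⁻¹) * f z.1 z.2.1, ?_, ?_⟩
  · refine totalDegree_finsetSum_le fun z _ => ?_
    refine (totalDegree_mul _ _).trans ?_
    rw [totalDegree_C, zero_add]
    exact hfd _ _
  · intro i hi γ hγ
    have hrow := congrFun hs ⟨⟨i, hi⟩, ⟨γ, mem_full.2 hγ⟩⟩
    unfold Matrix.mulVec dotProduct at hrow
    dsimp only at hrow
    have hτγ : τ () ^ γ.degree ≠ 0 := pow_ne_zero _ hτ
    apply mul_left_cancel₀ hτγ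
    rw [← hrow]
    have hsum : coeff γ (shift (X' (φ i) + τ () • y i) (∑ z : κ × {β // β ∈ full r a},
        C (s z * (τ () ^ (z.2.1 : Fin r →₀ ℕ).degree)⁻¹) * f z.1 z.2.1)) =
        ∑ z : κ × {β // β ∈ full r a}, s z * (τ () ^ (z.2.1 : Fin r →₀ ℕ).degree)⁻¹ *
          coeff γ (shift (X' (φ i) + τ () • y i) (f z.1 z.2.1)) := by
      unfold shift
      rw [map_sum, coeff_sum]
      refine sum_congr rfl fun z _ => ?_
      rw [map_mul, aeval_C, algebraMap_eq, coeff_C_mul]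
    rw [hsum, mul_sum]
    refine sum_congr rfl fun z _ => ?_
    rw [hN]
    have hβ := mem_full.1 z.2.2
    have hτβ : τ () ^ (z.2.1 : Fin r →₀ ℕ).degree ≠ 0 := pow_ne_zero _ hτ
    have h1 : τ () ^ γ.degree * coeff γ (shift (X' (φ i) + τ () • y i) (f z.1 z.2.1)) =
        τ () ^ (z.2.1 : Fin r →₀ ℕ).degree *
          ∑ δ ∈ (shift (X' (φ i)) (f z.1 z.2.1)).support,
            coeff δ (shift (X' (φ i)) (f z.1 z.2.1)) * tc (y i) δ γ *
              τ () ^ (δ.degree - (z.2.1 : Fin r →₀ ℕ).degree) := by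
      rw [shift_shift', coeff_shift, mul_sum, mul_sum]
      refine sum_congr rfl fun δ hδ => ?_
      obtain ⟨h2, _⟩ := hsupp i z.1 z.2.1 hβ δ hδ
      have h3 := tc_smul (τ ()) (y i) δ γ
      have h4 : τ () ^ δ.degree = τ () ^ (z.2.1 : Fin r →₀ ℕ).degree *
          τ () ^ (δ.degree - (z.2.1 : Fin r →₀ ℕ).degree) := by
        rw [← pow_add]
        congr 1
        omega
      calc τ () ^ γ.degree * (coeff δ (shift (X' (φ i)) (f z.1 z.2.1)) * tc (τ () • y i) δ γ) =
          coeff δ (shift (X' (φ i)) (f z.1 z.2.1)) *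
            (τ () ^ γ.degree * tc (τ () • y i) δ γ) := by ring
        _ = _ := by
          rw [h3, h4]
          ring
    calc τ () ^ γ.degree * (s z * (τ () ^ (z.2.1 : Fin r →₀ ℕ).degree)⁻¹ *
        coeff γ (shift (X' (φ i) + τ () • y i) (f z.1 z.2.1))) =
        s z * (τ () ^ (z.2.1 : Fin r →₀ ℕ).degree)⁻¹ * (τ () ^ γ.degree *
          coeff γ (shift (X' (φ i) + τ () • y i) (f z.1 z.2.1))) := by ring
      _ = _ := by
        rw [h1]
        field_simp

end Pool.Agent.H74.KV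

end

section

/-!
# Deforming a point: a multiplicity can be lowered
-/

namespace Pool.Agent.H74.KV

open Finset MvPolynomial Pool.Agent.H18.Fat Pool.Agent.H18.Ub

/-- A first-order statement on matrices of locally constant rank. -/
theorem la {R K : Type*} [Fintype R] [Fintype K] (N : Matrix R K (MvPolynomial Unit ℂ))
    (f : K → ℂ) (w : R → MvPolynomial Unit ℂ)
    (hw : ∀ τ : Unit → ℂ, (N.map (eval τ)).mulVec f = fun r => τ () * eval τ (w r))
    (hrank : ∀ τ : Unit → ℂ, Module.finrank ℂ (LinearMap.range (N.map (eval τ)).mulVecLin) ≤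
      Module.finrank ℂ (LinearMap.range (N.map (eval fun _ => (0 : ℂ))).mulVecLin)) :
    ∃ g : K → ℂ, (N.map (eval fun _ => (0 : ℂ))).mulVec g = fun r => eval (fun _ => 0) (w r) := by
  classical
  by_contra hcon
  set V := LinearMap.range (N.map (eval fun _ => (0 : ℂ))).mulVecLin with hV
  have hw0 : (fun r => eval (fun _ => (0 : ℂ)) (w r)) ∉ V := by
    rintro ⟨g, hg⟩
    exact hcon ⟨g, hg⟩
  set ρ := Module.finrank ℂ V with hρ
  let b : Module.Basis (Fin ρ) ℂ V := Module.finBasis ℂ V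
  have hb : ∀ j, ∃ v : K → ℂ, (N.map (eval fun _ => (0 : ℂ))).mulVec v = (b j : R → ℂ) :=
    fun j => (b j).2
  choose v hv using hb
  let P : Matrix R (Fin (ρ + 1)) (MvPolynomial Unit ℂ) := fun r =>
    Fin.cons (w r) fun j => ∑ k, N r k * C (v j k)
  have hP0 : ∀ (τ : Unit → ℂ) r, (P.map (eval τ)) r 0 = eval τ (w r) := fun τ r => rfl
  have hPs : ∀ (τ : Unit → ℂ) r (j : Fin ρ), (P.map (eval τ)) r j.succ =
      (N.map (eval τ)).mulVec (v j) r := by
    intro τ r j
    have h1 : (P.map (eval τ)) r j.succ = eval τ (∑ k, N r k * C (v j k)) := rfl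
    rw [h1, map_sum]
    unfold Matrix.mulVec dotProduct
    exact sum_congr rfl fun k _ => by rw [map_mul, eval_C]; rfl
  have hmul : ∀ (τ : Unit → ℂ) (c : Fin (ρ + 1) → ℂ) r, (P.map (eval τ)).mulVec c r =
      eval τ (w r) * c 0 + ∑ j : Fin ρ, (N.map (eval τ)).mulVec (v j) r * c j.succ := by
    intro τ c r
    unfold Matrix.mulVec dotProduct
    rw [Fin.sum_univ_succ]
    congr 1
    exact sum_congr rfl fun j _ => by
      change (P.map (eval τ)) r j.succ * c j.succ = _
      rw [hPs]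
      rfl
  have hker : LinearMap.ker (P.map (eval fun _ => (0 : ℂ))).mulVecLin = ⊥ := by
    rw [LinearMap.ker_eq_bot']
    intro c hc
    rw [Matrix.mulVecLin_apply] at hc
    have h1 : (c 0) • (fun r => eval (fun _ => (0 : ℂ)) (w r)) +
        ∑ j : Fin ρ, (c j.succ) • (b j : R → ℂ) = 0 := by
      funext r
      have h2 := congrFun hc r
      rw [hmul] at h2
      rw [Pi.add_apply, Pi.smul_apply, Finset.sum_apply, smul_eq_mul, Pi.zero_apply]
      rw [Pi.zero_apply] at h2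
      refine Eq.trans ?_ h2
      rw [mul_comm]
      congr 1
      exact sum_congr rfl fun j _ => by
        rw [Pi.smul_apply, smul_eq_mul, hv, mul_comm]
    have h2 : c 0 = 0 := by
      by_contra hne
      apply hw0
      have h3 : (fun r => eval (fun _ => (0 : ℂ)) (w r)) =
          -((c 0)⁻¹ • ∑ j : Fin ρ, (c j.succ) • (b j : R → ℂ)) := by
        have h4 : (c 0)⁻¹ • ((c 0) • (fun r => eval (fun _ => (0 : ℂ)) (w r)) +
            ∑ j : Fin ρ, (c j.succ) • (b j : R → ℂ)) = (c 0)⁻¹ • (0 : R → ℂ) := by rw [h1]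
        rw [smul_add, smul_smul, inv_mul_cancel₀ hne, one_smul, smul_zero] at h4
        exact eq_neg_of_add_eq_zero_left h4
      rw [h3]
      exact V.neg_mem (V.smul_mem _ (V.sum_mem fun j _ => V.smul_mem _ (b j).2))
    rw [h2, zero_smul, zero_add] at h1
    have h3 : ∑ j : Fin ρ, (c j.succ) • b j = 0 := by
      apply Subtype.ext
      rw [V.coe_sum, V.coe_zero]
      exact h1
    have h4 := Fintype.linearIndependent_iff.1 b.linearIndependent (fun j => c j.succ) h3
    funext j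
    refine Fin.cases ?_ (fun j => ?_) j
    · exact h2
    · exact h4 j
  obtain ⟨G, hG, hG'⟩ := exists_poly_injective P (fun _ => 0) hker
  obtain ⟨τ, hτ, hGτ⟩ := exists_ne_zero_eval hG
  have hinj := hG' τ hGτ
  have h1 : LinearMap.range (P.map (eval τ)).mulVecLin ≤
      LinearMap.range (N.map (eval τ)).mulVecLin := by
    rintro _ ⟨c, rfl⟩
    refine ⟨(c 0 * (τ ())⁻¹) • f + ∑ j : Fin ρ, c j.succ • v j, ?_⟩
    rw [map_add, map_smul, map_sum]
    funext r
    rw [Matrix.mulVecLin_apply, Matrix.mulVecLin_apply, hmul, Pi.add_apply, Pi.smul_apply, hw,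
      Finset.sum_apply, smul_eq_mul]
    congr 1
    · field_simp
    · exact sum_congr rfl fun j _ => by
        rw [map_smul, Matrix.mulVecLin_apply, Pi.smul_apply, smul_eq_mul, mul_comm]
  have h2 := Submodule.finrank_mono h1
  rw [LinearMap.finrank_range_of_inj (LinearMap.ker_eq_bot.1 hinj),
    Module.finrank_fintype_fun_eq_card, Fintype.card_fin] at h2
  have h3 := hrank τ
  omega

theorem tc_single {n : ℕ} (l : Fin n) (τ : ℂ) (δ β : Fin n →₀ ℕ) :
    tc (Pi.single l τ) δ β = if ∀ j, j ≠ l → δ j = β j then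
      ((δ l).choose (β l) : ℂ) * τ ^ (δ l - β l) else 0 := by
  classical
  unfold tc
  rw [← mul_prod_erase univ _ (mem_univ l), Pi.single_eq_same]
  split_ifs with h
  · rw [prod_eq_one, mul_one]
    intro j hj
    rw [h j (ne_of_mem_erase hj), Nat.choose_self, Nat.sub_self, pow_zero]
    simp
  · push Not at h
    obtain ⟨j, hj, hne⟩ := h
    rw [prod_eq_zero (mem_erase.2 ⟨hj, mem_univ j⟩), mul_zero]
    rw [Pi.single_eq_of_ne hj]
    rcases Nat.lt_or_gt_of_ne hne with h1 | h1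
    · rw [Nat.choose_eq_zero_of_lt h1]
      simp
    · rw [zero_pow (by omega)]
      simp

/-- At general points some form has a smaller multiplicity at one of the points. -/
theorem exists_drop {r e k : ℕ} {p : Fin k → Fin (r + 1) → ℂ} (hp : ∀ i, p i 0 = 1)
    (κ : Fin k → ℕ) (hdim : Module.finrank ℂ (fatForms r e p κ) = generalDim r e κ)
    {F : MvPolynomial (Fin (r + 1)) ℂ} (hF : F ∈ fatForms r e p κ) {i : Fin k} (hi : 1 ≤ κ i)
    (hmult : ¬ VanishesToOrder F (p i) (κ i + 1)) :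
    ∃ G : MvPolynomial (Fin (r + 1)) ℂ, G.IsHomogeneous e ∧
      (∀ j, j ≠ i → VanishesToOrder G (p j) (κ j)) ∧ VanishesToOrder G (p i) (κ i - 1) ∧
      ¬ VanishesToOrder G (p i) (κ i) := by
  classical
  have hp0 : ∀ i, p i 0 ≠ 0 := fun i => by
    rw [hp]
    exact one_ne_zero
  set f : mons (r + 1) e → ℂ := fun α => coeff α.1 F with hf
  have hfF : toPoly (r + 1) e f = F := exists_toPoly hF.1
  -- a direction
  obtain ⟨β₀, l, hl0, hβ₀, hβ₀d, hcoef⟩ : ∃ (β₀ : Fin (r + 1) →₀ ℕ) (l : Fin (r + 1)), l ≠ 0 ∧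
      β₀ 0 = 0 ∧ β₀.degree + 1 = κ i ∧ coeff (β₀ + Finsupp.single l 1) (shift (p i) F) ≠ 0 := by
    have h1 : ∃ β : Fin (r + 1) →₀ ℕ, β 0 = 0 ∧ β.degree < κ i + 1 ∧
        coeff β (shift (p i) F) ≠ 0 := by
      by_contra hcon
      push Not at hcon
      apply hmult
      rw [← hfF]
      refine vanishes_of_affine (hp0 i) f fun β hβ0 hβ => ?_
      rw [hfF]
      exact hcon β hβ0 hβ
    obtain ⟨β, hβ0, hβ, hc⟩ := h1
    have h2 : β.degree = κ i := by
      by_contra hne
      exact hc (hF.2 i β (by omega))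
    obtain ⟨l, hl⟩ : ∃ l, β l ≠ 0 := by
      by_contra hcon
      push Not at hcon
      have h3 : β = 0 := by
        ext j
        exact hcon j
      rw [h3] at h2
      simp at h2
      omega
    have hl0 : l ≠ 0 := by
      rintro rfl
      exact hl hβ0
    have h3 : β - Finsupp.single l 1 + Finsupp.single l 1 = β := by
      ext j
      simp only [Finsupp.add_apply, Finsupp.tsub_apply]
      by_cases hj : j = l
      · subst hj
        simp
        omega
      · simp [Finsupp.single_eq_of_ne hj]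
    refine ⟨β - Finsupp.single l 1, l, hl0, ?_, ?_, ?_⟩
    · rw [Finsupp.tsub_apply, hβ0, Nat.zero_sub]
    · have h4 := congrArg Finsupp.degree h3
      rw [map_add, Finsupp.degree_single, h2] at h4
      exact h4
    · rw [h3]
      exact hc
  -- the deformed matrix
  let g : Fin k × Fin (r + 1) → MvPolynomial Unit ℂ := fun x =>
    C (p x.1 x.2) + C (if x.1 = i ∧ x.2 = l then 1 else 0) * X ()
  let N : Matrix (Cond r κ) (mons (r + 1) e) (MvPolynomial Unit ℂ) :=
    (genMat r e κ).map (aeval g)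
  let pt : ℂ → Fin k → Fin (r + 1) → ℂ := fun τ j => p j + if j = i then Pi.single l τ else 0
  have hN : ∀ τ : Unit → ℂ, N.map (eval τ) = condMat r e (pt (τ ())) κ := by
    intro τ
    have key : ∀ Q : MvPolynomial (Fin k × Fin (r + 1)) ℂ,
        eval τ (aeval g Q) = eval (fun x => pt (τ ()) x.1 x.2) Q := by
      intro Q
      induction Q using MvPolynomial.induction_on with
      | C c => rw [aeval_C, algebraMap_eq, eval_C, eval_C]
      | add a b ha hb => rw [map_add, map_add, map_add, ha, hb]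
      | mul_X a y ha =>
        rw [map_mul, map_mul, map_mul, ha, aeval_X, eval_X]
        congr 1
        have h0 : pt (τ ()) y.1 y.2 = p y.1 y.2 +
            (if y.1 = i then Pi.single l (τ ()) else 0 : Fin (r + 1) → ℂ) y.2 := rfl
        have h00 : g y = C (p y.1 y.2) + C (if y.1 = i ∧ y.2 = l then 1 else 0) * X () := rfl
        rw [h0, h00, map_add, map_mul, eval_C, eval_C, eval_X]
        congr 1
        by_cases h1 : y.1 = i
        · rw [if_pos h1]
          by_cases h2 : y.2 = l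
          · rw [if_pos ⟨h1, h2⟩, h2, Pi.single_eq_same, one_mul]
          · rw [if_neg (fun h => h2 h.2), Pi.single_eq_of_ne h2, zero_mul]
        · rw [if_neg (fun h => h1 h.1), if_neg h1, zero_mul, Pi.zero_apply]
    rw [← genMat_map]
    ext x α
    rw [Matrix.map_apply, Matrix.map_apply]
    exact key (genMat r e κ x α)
  have hpt0 : ∀ τ j, pt τ j 0 ≠ 0 := by
    intro τ j
    change (p j + if j = i then Pi.single l τ else 0 : Fin (r + 1) → ℂ) 0 ≠ 0
    rw [Pi.add_apply, hp]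
    split_ifs
    · rw [Pi.single_eq_of_ne hl0.symm, add_zero]
      exact one_ne_zero
    · rw [Pi.zero_apply, add_zero]
      exact one_ne_zero
  have hpt : pt 0 = p := by
    funext j
    change (p j + if j = i then Pi.single l 0 else 0) = p j
    split_ifs
    · rw [Pi.single_zero, add_zero]
    · rw [add_zero]
  -- the coefficients at the deformed point
  set S := (shift (p i) F).support with hS
  let w : Cond r κ → MvPolynomial Unit ℂ := fun x =>
    if x.1 = i then
      ∑ δ ∈ S, if (∀ j, j ≠ l → δ j = (x.2.1 : Fin (r + 1) →₀ ℕ) j) ∧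
          (x.2.1 : Fin (r + 1) →₀ ℕ) l < δ l then
        C (coeff δ (shift (p i) F) * ((δ l).choose ((x.2.1 : Fin (r + 1) →₀ ℕ) l) : ℂ)) *
          X () ^ (δ l - (x.2.1 : Fin (r + 1) →₀ ℕ) l - 1) else 0
    else 0
  have hrow : ∀ (τ : ℂ) (x : Cond r κ), (condMat r e (pt τ) κ).mulVec f x =
      coeff x.2.1 (shift (pt τ x.1) F) := by
    intro τ x
    rw [← hfF, coeff_shift_toPoly]
    unfold Matrix.mulVec dotProduct condMat
    exact sum_congr rfl fun α _ => mul_comm _ _
  obtain ⟨γ, hγ⟩ := la N f w (fun τ => by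
    funext x
    rw [hN, hrow]
    by_cases hx : x.1 = i
    · have h1 : pt (τ ()) x.1 = p i + Pi.single l (τ ()) := by
        change (p x.1 + if x.1 = i then Pi.single l (τ ()) else 0) = _
        rw [if_pos hx, hx]
      have h2 : w x = ∑ δ ∈ S, if (∀ j, j ≠ l → δ j = (x.2.1 : Fin (r + 1) →₀ ℕ) j) ∧
          (x.2.1 : Fin (r + 1) →₀ ℕ) l < δ l then
        C (coeff δ (shift (p i) F) * ((δ l).choose ((x.2.1 : Fin (r + 1) →₀ ℕ) l) : ℂ)) *
          X () ^ (δ l - (x.2.1 : Fin (r + 1) →₀ ℕ) l - 1) else 0 := if_pos hx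
      rw [h1, shift_shift', coeff_shift, h2, map_sum, mul_sum]
      refine sum_congr rfl fun δ hδ => ?_
      rw [tc_single]
      by_cases h3 : ∀ j, j ≠ l → δ j = (x.2.1 : Fin (r + 1) →₀ ℕ) j
      · rw [if_pos h3]
        rcases Nat.lt_trichotomy ((x.2.1 : Fin (r + 1) →₀ ℕ) l) (δ l) with h4 | h4 | h4
        · rw [if_pos ⟨h3, h4⟩, map_mul, eval_C, map_pow, eval_X]
          obtain ⟨c, hc⟩ : ∃ c, δ l - (x.2.1 : Fin (r + 1) →₀ ℕ) l = c + 1 :=
            ⟨δ l - (x.2.1 : Fin (r + 1) →₀ ℕ) l - 1, by omega⟩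
          rw [hc, Nat.add_sub_cancel, pow_succ]
          ring
        · -- the coefficient vanishes
          exfalso
          have h5 : δ = x.2.1 := by
            ext j
            by_cases hj : j = l
            · rw [hj, h4]
            · exact h3 j hj
          rw [hS, mem_support_iff, h5] at hδ
          apply hδ
          have h6 := (mem_aff.1 x.2.2).2
          have h7 : κ x.1 = κ i := by rw [hx]
          exact hF.2 i _ (by omega)
        · rw [if_neg (fun h => by omega), map_zero, Nat.choose_eq_zero_of_lt h4]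
          simp
      · rw [if_neg h3, if_neg (fun h => h3 h.1), map_zero, mul_zero, mul_zero]
    · have h1 : pt (τ ()) x.1 = p x.1 := by
        change (p x.1 + if x.1 = i then Pi.single l (τ ()) else 0) = _
        rw [if_neg hx, add_zero]
      have h2 : w x = 0 := if_neg hx
      rw [h1, h2, map_zero, mul_zero]
      exact hF.2 x.1 _ (mem_aff.1 x.2.2).2) (fun τ => by
    rw [hN, hN, hpt]
    have h1 := rank_add_finrank (d := e) (hpt0 (τ ())) κ
    have h2 := rank_add_finrank (d := e) hp0 κ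
    have h3 : generalDim r e κ ≤ Module.finrank ℂ (fatForms r e (pt (τ ())) κ) :=
      Nat.sInf_le ⟨_, rfl⟩
    rw [hdim] at h2
    omega)
  rw [hN, hpt] at hγ
  have hG : ∀ x : Cond r κ, coeff x.2.1 (shift (p x.1) (toPoly (r + 1) e γ)) =
      eval (fun _ => 0) (w x) := by
    intro x
    rw [← congrFun hγ x, coeff_shift_toPoly]
    unfold Matrix.mulVec dotProduct condMat
    exact sum_congr rfl fun α _ => mul_comm _ _
  -- the value of `w` at zero
  have hw0 : ∀ x : Cond r κ, x.1 = i → eval (fun _ => (0 : ℂ)) (w x) =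
      coeff ((x.2.1 : Fin (r + 1) →₀ ℕ) + Finsupp.single l 1) (shift (p i) F) *
        ((x.2.1 : Fin (r + 1) →₀ ℕ) l + 1) := by
    intro x hx
    have h2 : w x = ∑ δ ∈ S, if (∀ j, j ≠ l → δ j = (x.2.1 : Fin (r + 1) →₀ ℕ) j) ∧
        (x.2.1 : Fin (r + 1) →₀ ℕ) l < δ l then
      C (coeff δ (shift (p i) F) * ((δ l).choose ((x.2.1 : Fin (r + 1) →₀ ℕ) l) : ℂ)) *
        X () ^ (δ l - (x.2.1 : Fin (r + 1) →₀ ℕ) l - 1) else 0 := if_pos hx
    rw [h2, map_sum, sum_eq_single ((x.2.1 : Fin (r + 1) →₀ ℕ) + Finsupp.single l 1)]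
    · rw [if_pos, map_mul, eval_C, map_pow, eval_X]
      · have h3 : ((x.2.1 : Fin (r + 1) →₀ ℕ) + Finsupp.single l 1 : Fin (r + 1) →₀ ℕ) l =
            (x.2.1 : Fin (r + 1) →₀ ℕ) l + 1 := by
          rw [Finsupp.add_apply, Finsupp.single_eq_same]
        rw [h3, Nat.choose_succ_self_right]
        have h4 : (x.2.1 : Fin (r + 1) →₀ ℕ) l + 1 - (x.2.1 : Fin (r + 1) →₀ ℕ) l - 1 = 0 := by
          omega
        rw [h4, pow_zero]
        push_cast
        ring
      · constructor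
        · intro j hj
          rw [Finsupp.add_apply, Finsupp.single_eq_of_ne hj, add_zero]
        · rw [Finsupp.add_apply, Finsupp.single_eq_same]
          omega
    · intro δ _ hne
      split_ifs with h3
      · rw [map_mul, map_pow, eval_X, zero_pow, mul_zero]
        intro h4
        apply hne
        ext j
        by_cases hj : j = l
        · rw [hj, Finsupp.add_apply, Finsupp.single_eq_same]
          have := h3.2
          omega
        · rw [Finsupp.add_apply, Finsupp.single_eq_of_ne hj, add_zero]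
          exact h3.1 j hj
      · exact map_zero _
    · intro h3
      rw [hS, notMem_support_iff] at h3
      split_ifs
      · rw [h3, zero_mul, C_0, zero_mul, map_zero]
      · exact map_zero _
  refine ⟨toPoly (r + 1) e γ, toPoly_isHomogeneous γ, fun j hj => ?_, ?_, fun hcon => ?_⟩
  · refine vanishes_of_affine (hp0 j) γ fun β hβ0 hβ => ?_
    have h1 := hG ⟨j, ⟨β, mem_aff.2 ⟨hβ0, hβ⟩⟩⟩
    have h2 : w ⟨j, ⟨β, mem_aff.2 ⟨hβ0, hβ⟩⟩⟩ = 0 := if_neg hj
    have h3 : eval (fun _ => (0 : ℂ)) (w ⟨j, ⟨β, mem_aff.2 ⟨hβ0, hβ⟩⟩⟩) = 0 := by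
      rw [h2]
      exact map_zero _
    exact h1.trans h3
  · refine vanishes_of_affine (hp0 i) γ fun β hβ0 hβ => ?_
    have hβ' : β.degree < κ i := by omega
    have h1 := hG ⟨i, ⟨β, mem_aff.2 ⟨hβ0, hβ'⟩⟩⟩
    rw [hw0 _ rfl] at h1
    dsimp only at h1
    rw [h1, hF.2 i (β + Finsupp.single l 1) (by
      rw [map_add, Finsupp.degree_single]
      omega), zero_mul]
  · have hmem : β₀ ∈ aff r (κ i) := mem_aff.2 ⟨hβ₀, by omega⟩
    have h1 := hG ⟨i, ⟨β₀, hmem⟩⟩
    rw [hw0 _ rfl] at h1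
    dsimp only at h1
    rw [hcon β₀ (by omega)] at h1
    have h2 : ((β₀ l : ℂ) + 1) ≠ 0 := Nat.cast_add_one_ne_zero (β₀ l)
    exact mul_ne_zero hcoef h2 h1.symm

end Pool.Agent.H74.KV

end

section

/-!
# Dyadic packings
-/

namespace Pool.Agent.H74.KV

open Finset MvPolynomial Pool.Agent.H18.Fat

variable {r : ℕ}

theorem degree_tail (α : Fin (r + 1) →₀ ℕ) : α.degree = α 0 + (Finsupp.tail α).degree := by
  rw [Finsupp.degree_eq_sum, Finsupp.degree_eq_sum, Fin.sum_univ_succ]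
  rfl

theorem degree_cons' (a : ℕ) (γ : Fin r →₀ ℕ) : (Finsupp.cons a γ).degree = a + γ.degree := by
  rw [degree_tail, Finsupp.cons_zero, Finsupp.tail_cons]

theorem tc_tail {q : Fin (r + 1) → ℂ} (hq : q 0 = 1) (α β : Fin (r + 1) →₀ ℕ) (hβ : β 0 = 0) :
    tc q α β = tc (fun j => q j.succ) (Finsupp.tail α) (Finsupp.tail β) := by
  unfold tc
  rw [Fin.prod_univ_succ, hq, hβ, Nat.choose_zero_right, one_pow, Nat.cast_one, one_mul, one_mul]
  rfl

/-- From the condition matrix to polynomials of bounded degree. -/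
theorem srj_of_condMat {d : ℕ} {ι : Type*} [Fintype ι] {p : ι → Fin (r + 1) → ℂ}
    (hp : ∀ i, p i 0 = 1) {m : ι → ℕ} (h : Function.Surjective (condMat r d p m).mulVec) :
    Srj r d univ (fun i j => p i j.succ) m := by
  classical
  intro u
  obtain ⟨F, hF⟩ := h fun x => u x.1 (Finsupp.tail x.2.1)
  refine ⟨∑ α : mons (r + 1) d, monomial (Finsupp.tail α.1) (F α), ?_, ?_⟩
  · refine totalDegree_finsetSum_le fun α _ => ?_
    refine (totalDegree_monomial_le _ _).trans ?_
    have h3 : ((Finsupp.tail α.1).sum fun _ => id) = (Finsupp.tail α.1).degree := rfl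
    rw [h3]
    have h4 := degree_tail α.1
    have h5 := mem_mons.1 α.2
    omega
  · intro i _ γ hγ
    have hmem : Finsupp.cons 0 γ ∈ aff r (m i) := mem_aff.2 ⟨Finsupp.cons_zero _ _, by
      rw [degree_cons', zero_add]
      exact hγ⟩
    have h1 := congrFun hF ⟨i, ⟨Finsupp.cons 0 γ, hmem⟩⟩
    dsimp only at h1
    rw [Finsupp.tail_cons] at h1
    rw [← h1]
    unfold shift
    rw [map_sum, coeff_sum]
    unfold Matrix.mulVec dotProduct condMat
    refine sum_congr rfl fun α _ => ?_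
    have h2 := coeff_shift_monomial (fun j => p i j.succ) (Finsupp.tail α.1) γ (F α)
    unfold shift at h2
    rw [h2]
    dsimp only
    rw [tc_tail (hp i) α.1 _ (Finsupp.cons_zero _ _), Finsupp.tail_cons]
    ring

/-- From polynomials of bounded degree to the condition matrix. -/
theorem condMat_of_srj {d : ℕ} {ι : Type*} [Fintype ι] {x : ι → Fin r → ℂ} {m : ι → ℕ}
    (h : Srj r d univ x m) :
    Function.Surjective (condMat r d (fun i => Fin.cons 1 (x i)) m).mulVec := by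
  classical
  intro v
  obtain ⟨f, hf, h1⟩ := h fun i γ =>
    if h : Finsupp.cons 0 γ ∈ aff r (m i) then v ⟨i, ⟨Finsupp.cons 0 γ, h⟩⟩ else 0
  refine ⟨fun α => coeff (Finsupp.tail α.1) f, ?_⟩
  funext z
  obtain ⟨i, β, hβ⟩ := z
  obtain ⟨hβ0, hβm⟩ := mem_aff.1 hβ
  have hcons : Finsupp.cons 0 (Finsupp.tail β) = β := by
    rw [← hβ0]
    exact Finsupp.cons_tail β
  have hdeg : (Finsupp.tail β).degree < m i := by
    have := degree_tail β
    omega
  have h2 := h1 i (mem_univ i) (Finsupp.tail β) hdeg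
  have hmem : Finsupp.cons 0 (Finsupp.tail β) ∈ aff r (m i) := by
    rw [hcons]
    exact hβ
  rw [dif_pos hmem] at h2
  have h3 : v ⟨i, ⟨Finsupp.cons 0 (Finsupp.tail β), hmem⟩⟩ = v ⟨i, ⟨β, hβ⟩⟩ := by
    congr 3
  rw [h3] at h2
  rw [← h2, coeff_shift]
  unfold Matrix.mulVec dotProduct condMat
  dsimp only
  have h4 : ∀ α : mons (r + 1) d, tc (Fin.cons 1 (x i)) α.1 β * coeff (Finsupp.tail α.1) f =
      (fun δ => coeff δ f * tc (x i) δ (Finsupp.tail β)) (Finsupp.tail α.1) := by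
    intro α
    rw [tc_tail (Fin.cons_zero _ _) α.1 β hβ0, mul_comm]
    rfl
  rw [sum_congr rfl fun α _ => h4 α]
  symm
  have hdf : ∀ δ ∈ f.support, δ.degree ≤ d := by
    intro δ hδ
    have h5 := le_totalDegree hδ
    have h6 : (δ.sum fun _ e => e) = δ.degree := rfl
    rw [h6] at h5
    omega
  refine sum_bij_ne_zero (fun δ hδ _ => (⟨Finsupp.cons (d - δ.degree) δ, mem_mons.2 (by
      rw [degree_cons']
      have := hdf δ hδ
      omega)⟩ : mons (r + 1) d)) (fun _ _ _ => mem_univ _) ?_ ?_ ?_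
  · intro δ hδ _ δ' hδ' _ he
    have h5 := congrArg (fun z : mons (r + 1) d => Finsupp.tail z.1) he
    simpa [Finsupp.tail_cons] using h5
  · intro α _ hα
    have h5 : coeff (Finsupp.tail α.1) f ≠ 0 := fun h => hα (by
      dsimp only
      rw [h, zero_mul])
    refine ⟨Finsupp.tail α.1, mem_support_iff.2 h5, hα, ?_⟩
    apply Subtype.ext
    dsimp only
    have h6 := degree_tail α.1
    have h7 := mem_mons.1 α.2
    have h8 : d - (Finsupp.tail α.1).degree = α.1 0 := by omega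
    rw [h8]
    exact Finsupp.cons_tail α.1
  · intro δ hδ _
    dsimp only
    rw [Finsupp.tail_cons]

/-- The vertices of the cube. -/
theorem srj_grid (hr : 1 ≤ r) (a : ℕ) :
    ∃ X' : (Fin r → Fin 2) → Fin r → ℂ, Srj r (2 * (a - 1) + r) univ X' fun _ => a := by
  have hζ : IsPrimitiveRoot (-1 : ℂ) 2 := IsPrimitiveRoot.neg_one 0 (by norm_num)
  have h1 := grid_surjective (r := r) (s := 2) (2 * (a - 1) + r) hr (by norm_num) hζ
  refine ⟨_, (srj_of_condMat (fun b => gridPt_zero (-1) b) h1).mono le_rfl fun b _ => ?_⟩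
  refine le_perf (by norm_num) b ?_
  have h2 : gsum b ≤ r := by
    unfold gsum
    calc ∑ j, (b j : ℕ) ≤ ∑ _j : Fin r, 1 := sum_le_sum fun j _ => by omega
      _ = r := by simp
  omega

end Pool.Agent.H74.KV

end

section

/-!
# The dyadic criterion for independent conditions
-/

namespace Pool.Agent.H74.KV

open Finset MvPolynomial Pool.Agent.H18.Fat

variable {r : ℕ}

theorem exists_sub {ι : Type*} (b L : ℕ) (hb : 1 ≤ b) (w : ι → ℕ) (I : Finset ι)
    (hw : ∀ i ∈ I, w i ≤ L) (hI : b ^ L ≤ ∑ i ∈ I, b ^ w i) :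
    ∃ I' ⊆ I, ∑ i ∈ I', b ^ w i = b ^ L := by
  classical
  have hne : (I.powerset.filter fun A => b ^ L ≤ ∑ i ∈ A, b ^ w i).Nonempty :=
    ⟨I, mem_filter.2 ⟨mem_powerset_self I, hI⟩⟩
  obtain ⟨A, hA, hmin⟩ := exists_min_image _ Finset.card hne
  obtain ⟨hAI, hAs⟩ := mem_filter.1 hA
  rw [mem_powerset] at hAI
  refine ⟨A, hAI, ?_⟩
  have hbL : 1 ≤ b ^ L := Nat.one_le_pow _ _ hb
  have hAne : A.Nonempty := by
    rw [nonempty_iff_ne_empty]
    rintro rfl
    rw [sum_empty] at hAs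
    omega
  obtain ⟨i₀, hi₀, hi₀min⟩ := exists_min_image A w hAne
  have h1 : ∑ i ∈ A.erase i₀, b ^ w i < b ^ L := by
    by_contra hcon
    push Not at hcon
    have h2 := hmin (A.erase i₀) (mem_filter.2 ⟨mem_powerset.2 ((erase_subset _ _).trans hAI), hcon⟩)
    rw [card_erase_of_mem hi₀] at h2
    have := card_pos.2 hAne
    omega
  have h2 := add_sum_erase A (fun i => b ^ w i) hi₀
  have h3 : b ^ w i₀ ∣ ∑ i ∈ A, b ^ w i := dvd_sum fun i hi => pow_dvd_pow b (hi₀min i hi)
  have h4 : b ^ w i₀ ∣ b ^ L := pow_dvd_pow b (hw i₀ (hAI hi₀))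
  obtain ⟨u, hu⟩ := h3
  obtain ⟨v, hv⟩ := h4
  have hq : 1 ≤ b ^ w i₀ := Nat.one_le_pow _ _ hb
  have h5 : u ≤ v := by
    by_contra hcon
    push Not at hcon
    have h6 : b ^ w i₀ * (v + 1) ≤ b ^ w i₀ * u := Nat.mul_le_mul_left _ hcon
    rw [Nat.mul_add, Nat.mul_one, ← hv, ← hu] at h6
    omega
  have h6 : b ^ w i₀ * u ≤ b ^ w i₀ * v := Nat.mul_le_mul_left _ h5
  rw [← hu, ← hv] at h6
  omega

theorem bins {ι κ : Type*} [DecidableEq κ] (b L : ℕ) (hb : 1 ≤ b) (w : ι → ℕ) :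
    ∀ (N : ℕ) (S : Finset κ), S.card = N + 1 → ∀ I : Finset ι, (∀ i ∈ I, w i ≤ L) →
    ∑ i ∈ I, b ^ w i ≤ S.card * b ^ L → ∃ φ : ι → κ, (∀ i ∈ I, φ i ∈ S) ∧
      ∀ c, ∑ i ∈ I.filter (fun i => φ i = c), b ^ w i ≤ b ^ L := by
  classical
  intro N
  induction N with
  | zero =>
    intro S hS I _ hI
    obtain ⟨c, rfl⟩ := card_eq_one.1 hS
    rw [card_singleton, Nat.one_mul] at hI
    refine ⟨fun _ => c, fun _ _ => mem_singleton_self c, fun c' => ?_⟩
    exact (sum_le_sum_of_subset (filter_subset _ _)).trans hI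
  | succ N ih =>
    intro S hS I hw hI
    obtain ⟨c, hc⟩ := card_pos.1 (by omega : 0 < S.card)
    rcases Nat.lt_or_ge (b ^ L) (∑ i ∈ I, b ^ w i) with h | h
    · obtain ⟨A, hAI, hA⟩ := exists_sub b L hb w I hw h.le
      have h1 : (S.erase c).card = N + 1 := by
        rw [card_erase_of_mem hc]
        omega
      have h2 := sum_sdiff (f := fun i => b ^ w i) hAI
      obtain ⟨φ, hφ1, hφ2⟩ := ih (S.erase c) h1 (I \ A)
        (fun i hi => hw i (mem_sdiff.1 hi).1) (by
          rw [h1]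
          rw [hS, Nat.add_mul (N + 1) 1, Nat.one_mul] at hI
          omega)
      refine ⟨fun i => if i ∈ A then c else φ i, fun i hi => ?_, fun c' => ?_⟩
      · dsimp only
        split_ifs with hiA
        · exact hc
        · exact mem_of_mem_erase (hφ1 i (mem_sdiff.2 ⟨hi, hiA⟩))
      · by_cases hcc : c' = c
        · subst hcc
          have h3 : I.filter (fun i => (if i ∈ A then c' else φ i) = c') ⊆ A := by
            intro i hi
            rw [mem_filter] at hi
            by_contra hiA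
            rw [if_neg hiA] at hi
            exact ne_of_mem_erase (hφ1 i (mem_sdiff.2 ⟨hi.1, hiA⟩)) hi.2
          exact (sum_le_sum_of_subset h3).trans hA.le
        · have h3 : I.filter (fun i => (if i ∈ A then c else φ i) = c') ⊆
              (I \ A).filter fun i => φ i = c' := by
            intro i hi
            rw [mem_filter] at hi
            by_cases hiA : i ∈ A
            · rw [if_pos hiA] at hi
              exact absurd hi.2.symm hcc
            · rw [if_neg hiA] at hi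
              exact mem_filter.2 ⟨mem_sdiff.2 ⟨hi.1, hiA⟩, hi.2⟩
          exact (sum_le_sum_of_subset h3).trans (hφ2 c')
    · refine ⟨fun _ => c, fun _ _ => hc, fun c' => ?_⟩
      exact (sum_le_sum_of_subset (filter_subset _ _)).trans h

/-- The dyadic multiplicities. -/
def AA (r a : ℕ) : ℕ → ℕ
  | 0 => a
  | w + 1 => 2 * AA r a w + (r - 1)

theorem AA_eq (r a w : ℕ) : AA r a w + (r - 1) = 2 ^ w * (a + (r - 1)) := by
  induction w with
  | zero => simp [AA]
  | succ w ih =>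
    have h1 : AA r a (w + 1) = 2 * AA r a w + (r - 1) := rfl
    rw [h1, pow_succ, Nat.mul_comm (2 ^ w) 2, Nat.mul_assoc, ← ih]
    ring

theorem AA_pos {r a : ℕ} (ha : 1 ≤ a) (w : ℕ) : 1 ≤ AA r a w := by
  induction w with
  | zero => exact ha
  | succ w ih =>
    have h1 : AA r a (w + 1) = 2 * AA r a w + (r - 1) := rfl
    omega

theorem dyadic {ι : Type*} (hr : 1 ≤ r) {a : ℕ} (ha : 1 ≤ a) (w : ι → ℕ) : ∀ (K : ℕ)
    (I : Finset ι), ∑ i ∈ I, (2 ^ r) ^ w i ≤ (2 ^ r) ^ K →
    ∃ y : ι → Fin r → ℂ, Srj r (AA r a K - 1) I y fun i => AA r a (w i) := by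
  classical
  have hb2 : 2 ≤ 2 ^ r := by
    calc 2 = 2 ^ 1 := rfl
      _ ≤ 2 ^ r := Nat.pow_le_pow_right (by norm_num) hr
  intro K
  induction K with
  | zero =>
    intro I hI
    rw [pow_zero] at hI
    have hpos : ∀ i ∈ I, 1 ≤ (2 ^ r) ^ w i := fun i _ => Nat.one_le_pow _ _ (by omega)
    have hcard : I.card ≤ 1 := by
      have h1 : ∑ _i ∈ I, 1 ≤ ∑ i ∈ I, (2 ^ r) ^ w i := sum_le_sum hpos
      rw [sum_const, smul_eq_mul, Nat.mul_one] at h1
      omega
    refine ⟨fun _ => 0, srj_single hcard fun i hi => ?_⟩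
    have h1 : (2 ^ r) ^ w i ≤ 1 := (single_le_sum (f := fun i => (2 ^ r) ^ w i)
      (fun _ _ => Nat.zero_le _) hi).trans hI
    have h2 : w i = 0 := by
      by_contra hne
      have h3 : (2 ^ r) ^ 1 ≤ (2 ^ r) ^ w i := Nat.pow_le_pow_right (by omega) (by omega)
      rw [pow_one] at h3
      omega
    rw [h2]
    have := AA_pos (r := r) ha 0
    omega
  | succ K ih =>
    intro I hI
    by_cases hbig : ∃ i ∈ I, K + 1 ≤ w i
    · obtain ⟨i, hi, hiK⟩ := hbig
      have h1 : (2 ^ r) ^ (K + 1) ≤ (2 ^ r) ^ w i := Nat.pow_le_pow_right (by omega) hiK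
      have hcard : I.card ≤ 1 := by
        rw [card_le_one]
        intro j hj l hl
        by_contra hne
        have h2 : ∃ l' ∈ I, l' ≠ i := by
          by_cases hji : j = i
          · exact ⟨l, hl, fun h => hne (hji.trans h.symm)⟩
          · exact ⟨j, hj, hji⟩
        obtain ⟨l', hl', hl'i⟩ := h2
        have h3 : ∑ x ∈ {i, l'}, (2 ^ r) ^ w x ≤ ∑ x ∈ I, (2 ^ r) ^ w x :=
          sum_le_sum_of_subset fun x hx => by
            rcases mem_insert.1 hx with h | h
            · rw [h]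
              exact hi
            · rw [mem_singleton.1 h]
              exact hl'
        rw [sum_pair (Ne.symm hl'i)] at h3
        have h4 : 1 ≤ (2 ^ r) ^ w l' := Nat.one_le_pow _ _ (by omega)
        omega
      refine ⟨fun _ => 0, srj_single hcard fun j hj => ?_⟩
      have h2 : (2 ^ r) ^ w j ≤ (2 ^ r) ^ (K + 1) := (single_le_sum
        (f := fun i => (2 ^ r) ^ w i) (fun _ _ => Nat.zero_le _) hj).trans hI
      have h3 : w j ≤ K + 1 := (Nat.pow_le_pow_iff_right (by omega)).1 h2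
      have hmono : Monotone (AA r a) := monotone_nat_of_le_succ fun w => by
        have h1 : AA r a (w + 1) = 2 * AA r a w + (r - 1) := rfl
        omega
      have h4 := hmono h3
      have := AA_pos (r := r) ha (K + 1)
      omega
    · push Not at hbig
      have hcard : (univ : Finset (Fin r → Fin 2)).card = (2 ^ r - 1) + 1 := by
        rw [card_univ, Fintype.card_fun, Fintype.card_fin, Fintype.card_fin]
        omega
      obtain ⟨φ, _, hφ⟩ := bins (2 ^ r) K (by omega) w (2 ^ r - 1)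
        (univ : Finset (Fin r → Fin 2)) hcard I (fun i hi => by
          have := hbig i hi
          omega) (by
          rw [hcard]
          have h1 : 2 ^ r - 1 + 1 = 2 ^ r := by omega
          rw [h1, ← pow_succ']
          exact hI)
      choose y hy using fun c => ih (I.filter fun i => φ i = c) (hφ c)
      obtain ⟨X', hX'⟩ := srj_grid hr (AA r a K)
      obtain ⟨t, _, ht⟩ := collapse (AA_pos ha K) X' hX' φ I (fun i => y (φ i) i)
        (fun i => AA r a (w i)) fun c => (hy c).congr fun i hi => by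
          rw [(mem_filter.1 hi).2]
      refine ⟨_, ht.mono ?_ fun _ _ => le_rfl⟩
      have h1 : AA r a (K + 1) = 2 * AA r a K + (r - 1) := rfl
      have h2 := AA_pos (r := r) ha K
      omega

/-- Multiplicities of the order of the degree, filling less than the `2 ^ r`-th part of the space. -/
theorem srj_num (hr : 1 ≤ r) (ε : ℝ) (hε : 0 < ε) : ∃ d₀ : ℕ, ∀ (k d : ℕ) (m : Fin k → ℕ)
    (I : Finset (Fin k)), d₀ ≤ d → (∀ i ∈ I, ε * d ≤ m i) →
    2 ^ r * ∑ i ∈ I, (m i : ℝ) ^ r ≤ ((1 - ε) * d) ^ r →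
    ε ≤ 1 → ∃ x : Fin k → Fin r → ℂ, Srj r d I x m := by
  classical
  obtain ⟨K, hK⟩ := exists_nat_ge (2 / ε)
  set ρ : ℕ := r - 1 with hρ
  set η : ℝ := ε / 3 with hη
  have hηpos : 0 < η := by positivity
  obtain ⟨d₁, hd₁⟩ := exists_nat_ge (ρ / (η * ε) + 2 ^ K / η)
  refine ⟨d₁ + 2 ^ K * (ρ + 3) + ρ + 1, fun k d m I hd hI hsum hε1 => ?_⟩
  have hd0 : (0 : ℝ) < d := by exact_mod_cast (by omega : 0 < d)
  have hdd : (ρ / (η * ε) + 2 ^ K / η : ℝ) ≤ d := hd₁.trans (by
    exact_mod_cast (by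
      have : 0 ≤ 2 ^ K * (ρ + 3) := Nat.zero_le _
      omega : d₁ ≤ d))
  have hρd : (ρ : ℝ) ≤ η * (ε * d) := by
    have h1 : (ρ / (η * ε) : ℝ) ≤ d := by
      have : (0 : ℝ) ≤ 2 ^ K / η := by positivity
      linarith only [hdd, this]
    rw [div_le_iff₀ (by positivity)] at h1
    linarith only [h1]
  have hKd : (2 : ℝ) ^ K ≤ η * d := by
    have h1 : (2 ^ K / η : ℝ) ≤ d := by
      have : (0 : ℝ) ≤ ρ / (η * ε) := by positivity
      linarith only [hdd, this]
    rw [div_le_iff₀ hηpos] at h1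
    linarith only [h1]
  have h2K : (2 : ℝ) / ε ≤ 2 ^ K := by
    refine hK.trans ?_
    exact_mod_cast (Nat.lt_two_pow_self (n := K)).le
  have h2Kpos : 0 < 2 ^ K := by positivity
  set q := (d + 1 + ρ) / 2 ^ K with hq
  have hq1 : 2 ^ K * q ≤ d + 1 + ρ := Nat.mul_div_le _ _
  have hq2 : d + 1 + ρ < 2 ^ K * q + 2 ^ K := Nat.lt_mul_div_succ _ h2Kpos
  have hqρ : ρ + 1 ≤ q := by
    by_contra hcon
    push Not at hcon
    have h1 : 2 ^ K * q ≤ 2 ^ K * ρ := Nat.mul_le_mul_left _ (by omega)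
    have h2 : 2 ^ K * (ρ + 3) = 2 ^ K * ρ + 3 * 2 ^ K := by ring
    omega
  obtain ⟨a, ha⟩ : ∃ a, q = a + ρ := ⟨q - ρ, by omega⟩
  have ha1 : 1 ≤ a := by omega
  have hAK : AA r a K ≤ d + 1 := by
    have h1 := AA_eq r a K
    rw [← hρ, ← ha] at h1
    omega
  -- the levels
  have hex : ∀ i, ∃ w, m i ≤ AA r a w := by
    intro i
    refine ⟨m i, ?_⟩
    have h1 := AA_eq r a (m i)
    have h2 : m i + ρ ≤ 2 ^ m i * (a + ρ) := by
      have h3 : m i + 1 ≤ 2 ^ m i := Nat.lt_two_pow_self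
      have h4 : (m i + 1) * (a + ρ) ≤ 2 ^ m i * (a + ρ) := Nat.mul_le_mul_right _ h3
      have h5 : m i * 1 + 1 * ρ ≤ (m i + 1) * (a + ρ) := by
        have h6 : (m i + 1) * (a + ρ) = m i * (a + ρ) + (a + ρ) := by ring
        have h7 : m i * 1 ≤ m i * (a + ρ) := Nat.mul_le_mul_left _ (by omega)
        omega
      omega
    rw [← hρ] at h1
    omega
  set w : Fin k → ℕ := fun i => Nat.find (hex i) with hw
  have hw1 : ∀ i, m i ≤ AA r a (w i) := fun i => Nat.find_spec (hex i)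
  have hw2 : ∀ i ∈ I, 2 ^ w i * q ≤ 2 * (m i + ρ) := by
    intro i hi
    rcases Nat.eq_zero_or_pos (w i) with h0 | h0
    · rw [h0, pow_zero, Nat.one_mul]
      have h1 : (q : ℝ) * 2 ^ K ≤ d + 1 + ρ := by
        have : ((2 ^ K * q : ℕ) : ℝ) ≤ ((d + 1 + ρ : ℕ) : ℝ) := by exact_mod_cast hq1
        push_cast at this
        linarith only [this]
      have h2 : (q : ℝ) * (2 / ε) ≤ d + 1 + ρ :=
        (mul_le_mul_of_nonneg_left h2K (Nat.cast_nonneg q)).trans h1
      have h3 : (q : ℝ) * 2 ≤ ε * (d + 1 + ρ) := by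
        have h4 : (q : ℝ) * (2 / ε) = (q * 2) / ε := by ring
        rw [h4, div_le_iff₀ hε] at h2
        linarith only [h2]
      have h4 : (d : ℝ) + 1 + ρ ≤ 2 * d := by
        have : d + 1 + ρ ≤ 2 * d := by omega
        exact_mod_cast this
      have h5 : ε * ((d : ℝ) + 1 + ρ) ≤ ε * (2 * d) := mul_le_mul_of_nonneg_left h4 hε.le
      have h6 := hI i hi
      have h7 : (q : ℝ) ≤ m i := by linarith only [h3, h5, h6]
      have h8 : q ≤ m i := by exact_mod_cast h7
      omega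
    · have h1 : ¬ m i ≤ AA r a (w i - 1) := Nat.find_min (hex i) (by
        change w i - 1 < w i
        omega)
      have h2 := AA_eq r a (w i - 1)
      rw [← hρ, ← ha] at h2
      have h3 : 2 ^ w i * q = 2 * (2 ^ (w i - 1) * q) := by
        obtain ⟨v, hv⟩ : ∃ v, w i = v + 1 := ⟨w i - 1, by omega⟩
        rw [hv, Nat.add_sub_cancel, pow_succ]
        ring
      rw [h3]
      omega
  have hsumw : ∑ i ∈ I, (2 ^ r) ^ w i ≤ (2 ^ r) ^ K := by
    have hq0 : (0 : ℝ) < q := by exact_mod_cast (by omega : 0 < q)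
    have h1 : ∑ i ∈ I, ((2 : ℝ) ^ w i * q) ^ r ≤ ((2 : ℝ) ^ K * q) ^ r := by
      calc ∑ i ∈ I, ((2 : ℝ) ^ w i * q) ^ r ≤ ∑ i ∈ I, (2 * ((1 + η) * m i)) ^ r := by
            refine sum_le_sum fun i hi => pow_le_pow_left₀ (by positivity) ?_ r
            have h2 : ((2 ^ w i * q : ℕ) : ℝ) ≤ ((2 * (m i + ρ) : ℕ) : ℝ) := by
              exact_mod_cast hw2 i hi
            push_cast at h2
            have h3 := hI i hi
            have h4 : (ρ : ℝ) ≤ η * m i := hρd.trans (mul_le_mul_of_nonneg_left h3 hηpos.le)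
            linarith only [h2, h4]
        _ = (1 + η) ^ r * (2 ^ r * ∑ i ∈ I, (m i : ℝ) ^ r) := by
            rw [mul_sum, mul_sum]
            refine sum_congr rfl fun i _ => ?_
            rw [mul_pow, mul_pow]
            ring
        _ ≤ (1 + η) ^ r * ((1 - ε) * d) ^ r := mul_le_mul_of_nonneg_left hsum (by positivity)
        _ = ((1 + η) * ((1 - ε) * d)) ^ r := by rw [← mul_pow]
        _ ≤ ((1 - η) * d) ^ r := by
            refine pow_le_pow_left₀ ?_ ?_ r
            · have : 0 ≤ 1 - ε := by linarith only [hε1]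
              positivity
            · have h2 : (1 + η) * (1 - ε) ≤ 1 - η := by
                rw [hη]
                nlinarith only [hε]
              nlinarith only [hρd, hε, hη]
        _ ≤ ((2 : ℝ) ^ K * q) ^ r := by
            refine pow_le_pow_left₀ ?_ ?_ r
            · have : 0 ≤ 1 - η := by
                rw [hη]
                linarith only [hε1]
              positivity
            · have h2 : ((d + 1 + ρ : ℕ) : ℝ) < ((2 ^ K * q + 2 ^ K : ℕ) : ℝ) := by
                exact_mod_cast hq2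
              push_cast at h2
              have h3 : (0 : ℝ) ≤ ρ := Nat.cast_nonneg ρ
              linarith only [hKd, h2]
    have h2 : ∀ x : ℕ, ((2 : ℝ) ^ x * q) ^ r = (((2 ^ r) ^ x : ℕ) : ℝ) * (q : ℝ) ^ r := by
      intro x
      push_cast
      rw [mul_pow, ← pow_mul, ← pow_mul, Nat.mul_comm]
    rw [h2, sum_congr rfl fun i _ => h2 (w i), ← sum_mul] at h1
    have h3 := le_of_mul_le_mul_right h1 (by positivity)
    exact_mod_cast h3
  obtain ⟨y, hy⟩ := dyadic hr ha1 w K I hsumw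
  exact ⟨y, hy.mono (by omega) fun i _ => hw1 i⟩

end Pool.Agent.H74.KV

end

section

/-!
# Large points imposing independent conditions with a margin
-/

namespace Pool.Agent.H74.KV

open Finset Pool.Agent.H18.Fat Pool.Agent.H18.Ub

/-- The points of `J` impose independent conditions in degree `j`. -/
def Exact (r j : ℕ) {k : ℕ} (m : Fin k → ℕ) (J : Finset (Fin k)) : Prop :=
  (generalDim r j fun i => if i ∈ J then m i else 0) + ∑ i ∈ J, (m i + r - 1).choose r =
    (j + r).choose r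

end Pool.Agent.H74.KV

end
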