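import Pool.Agent.H94.LP3.H18.Nef.NefC
import Pool.Agent.H94.LP3.M16
import Pool.Agent.H94.LP3.M25

/-! The parts of this file: H74.BP.Plane, H74.BP.Eight, H74.BP.PlaneT. -/

section

/-!
# The plane: at most eight arbitrary multiplicities, and points of medium multiplicity
-/

namespace Pool.Agent.H74.BP

open Finset Pool.Agent.H18.Fat Pool.Agent.H18.Ub

/-- Independent conditions from the dimension. -/
theorem imposes_of_exact {r d k : ℕ} (hr : 1 ≤ r) (m : Fin k → ℕ) (J : Finset (Fin k))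
    (h : (generalDim r d fun i => if i ∈ J then m i else 0) +
      ∑ i ∈ J, (m i + r - 1).choose r = (d + r).choose r) :
    ForGeneralPoints r k fun p =>
      ImposesMaximalConditions r d p fun i => if i ∈ J then m i else 0 := by
  classical
  refine (generalDim_spec r d fun i => if i ∈ J then m i else 0).mono fun p hp => ?_
  unfold ImposesMaximalConditions
  have h1 : ∑ i, (((if i ∈ J then m i else 0) + r - 1).choose r : ℤ) =
      ((∑ i ∈ J, (m i + r - 1).choose r : ℕ) : ℤ) := by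
    push_cast
    rw [← sum_subset (subset_univ J)]
    · exact sum_congr rfl fun i hi => by rw [if_pos hi]
    · intro i _ hi
      rw [if_neg hi, Nat.choose_eq_zero_of_lt (by omega)]
      rfl
  rw [hp, h1, ← h, max_eq_right] <;> push_cast <;> omega

theorem choose_two_succ (d : ℕ) : (d + 1 + 2).choose 2 = (d + 2).choose 2 + (d + 2) := by
  have h1 : d + 1 + 2 = (d + 2) + 1 := by omega
  rw [h1, Nat.choose_succ_succ' (d + 2) 1, Nat.choose_one_right]
  exact Nat.add_comm _ _

/-- The growth, for a class in standard form with large multiplicities at three to eight points. -/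
theorem slow_eight {K : ℕ} (hK : ∀ (n d y x : ℕ) (m : Fin n → ℕ) (J : Finset (Fin n)),
    3 ≤ J.card → J.card ≤ 8 → (∀ i ∈ J, y ≤ m i) →
    (∀ S ⊆ J, S.card = 3 → ∑ i ∈ S, m i ≤ d) → 6 * (x + K) + 8 ≤ y →
    (generalDim 2 (d - x) fun i => if i ∈ J then m i else 0) +
      ∑ i ∈ J, (m i + 2 - 1).choose 2 = (d - x + 2).choose 2)
    (n d y C E : ℕ) (m : Fin n → ℕ) (J : Finset (Fin n)) (hJ3 : 3 ≤ J.card) (hJ8 : J.card ≤ 8)
    (hy : ∀ i ∈ J, y ≤ m i) (hstd : ∀ S ⊆ J, S.card = 3 → ∑ i ∈ S, m i ≤ d)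
    (hCy : 6 * (C + 1 + K) + 8 ≤ y) (hEC : E * C ≤ d + 1) (h : ℕ → ℕ)
    (hh : ∀ j, h j = generalDim 2 j fun i => if i ∈ J then m i else 0) :
    E * ((h d - h (d - 1)) - (h (d - C) - h (d - C - 1))) ≤ h d - h (d - 1) := by
  classical
  have hCd : C + 1 ≤ d := by
    obtain ⟨S, hS, hSc⟩ := exists_subset_card_eq hJ3
    have h1 := hstd S hS hSc
    have h2 : ∑ _i ∈ S, y ≤ ∑ i ∈ S, m i := sum_le_sum fun i hi => hy i (hS hi)
    rw [sum_const, hSc, smul_eq_mul] at h2
    omega
  have h0 := hK n d y 0 m J hJ3 hJ8 hy hstd (by omega)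
  have h1 := hK n d y 1 m J hJ3 hJ8 hy hstd (by omega)
  have h2 := hK n d y C m J hJ3 hJ8 hy hstd (by omega)
  have h3 := hK n d y (C + 1) m J hJ3 hJ8 hy hstd (by omega)
  rw [← hh] at h0 h1 h2 h3
  obtain ⟨z, rfl⟩ : ∃ z, d = z + C + 1 := ⟨d - C - 1, by omega⟩
  have e0 : z + C + 1 - 0 = z + C + 1 := rfl
  have e1 : z + C + 1 - 1 = z + C := rfl
  have e2 : z + C + 1 - C = z + 1 := by omega
  have e3 : z + C + 1 - (C + 1) = z := by omega
  have e4 : z + 1 - 1 = z := rfl
  rw [e0] at h0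
  rw [e1] at h1
  rw [e2] at h2
  rw [e3] at h3
  rw [e1, e2, e4]
  have c1 := choose_two_succ (z + C)
  have c2 := choose_two_succ z
  have g1 : h (z + C + 1) - h (z + C) = z + C + 2 := by omega
  have g2 : h (z + 1) - h z = z + 2 := by omega
  rw [g1, g2]
  have g3 : z + C + 2 - (z + 2) = C := by omega
  rw [g3]
  omega

/-- The threshold for the large multiplicities. -/
def YY (K M : ℕ) : ℕ := 6 * (66 * M ^ 3 * (M + 2 - 1).choose 2 + 1 + K) + 8

theorem YY_le (K M : ℕ) (hM : 1 ≤ M) : YY K M ≤ (410 + 6 * K) * M ^ 5 := by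
  have h1 := Pool.Agent.H74.CT.choose_le_pow M hM 2
  have h2 : 66 * M ^ 3 * (M + 2 - 1).choose 2 ≤ 66 * M ^ 5 := by
    calc 66 * M ^ 3 * (M + 2 - 1).choose 2 ≤ 66 * M ^ 3 * M ^ 2 := Nat.mul_le_mul_left _ h1
      _ = 66 * M ^ 5 := by ring
  have h3 : 1 ≤ M ^ 5 := Nat.one_le_pow _ _ hM
  unfold YY
  nlinarith

theorem le_YY (K M : ℕ) (hM : 1 ≤ M) : M ≤ YY K M := by
  have h1 : 1 ≤ (M + 2 - 1).choose 2 := Nat.choose_pos (by omega)
  have h2 : M ^ 1 ≤ M ^ 3 := Nat.pow_le_pow_right hM (by norm_num)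
  have h3 : M ^ 3 * 1 ≤ M ^ 3 * (M + 2 - 1).choose 2 := Nat.mul_le_mul_left _ h1
  unfold YY
  nlinarith

/-- Raising the threshold a bounded number of times separates the large multiplicities. -/
theorem thresholds (K n : ℕ) : ∃ A E : ℕ, ∀ M : ℕ, 1 ≤ M → ∀ (k : ℕ) (m : Fin k → ℕ)
    (J : Finset (Fin k)), J.card ≤ n → ∃ (M' : ℕ) (J' : Finset (Fin k)), J' ⊆ J ∧ M ≤ M' ∧
      M' ≤ A * M ^ E ∧ (∀ i ∈ J', YY K M' ≤ m i) ∧ ∀ i ∈ J, i ∉ J' → m i ≤ M' := by
  classical
  induction n with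
  | zero =>
    refine ⟨1, 1, fun M hM k m J hJ => ⟨M, ∅, empty_subset _, le_rfl, by simp, ?_, ?_⟩⟩
    · intro i hi
      exact absurd hi (notMem_empty i)
    · intro i hi
      rw [card_eq_zero.1 (Nat.le_zero.1 hJ)] at hi
      exact absurd hi (notMem_empty i)
  | succ n ih =>
    obtain ⟨A, E, hA⟩ := ih
    refine ⟨A * (410 + 6 * K) ^ E + 1, 5 * E + 1, fun M hM k m J hJ => ?_⟩
    by_cases hall : ∀ i ∈ J, YY K M ≤ m i
    · refine ⟨M, J, subset_rfl, le_rfl, ?_, hall, fun i hi hi' => absurd hi hi'⟩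
      have h1 : M ^ 1 ≤ M ^ (5 * E + 1) := Nat.pow_le_pow_right hM (by omega)
      rw [pow_one] at h1
      nlinarith [Nat.zero_le (A * (410 + 6 * K) ^ E * M ^ (5 * E + 1))]
    · push Not at hall
      obtain ⟨i₀, hi₀, hlt⟩ := hall
      set J₁ := J.filter fun i => YY K M ≤ m i with hJ₁
      have hc : J₁.card < J.card := card_lt_card (by
        rw [hJ₁, filter_ssubset]
        exact ⟨i₀, hi₀, by omega⟩)
      have hM₁ : 1 ≤ YY K M := hM.trans (le_YY K M hM)
      obtain ⟨M', J', h1, h2, h3, h4, h5⟩ := hA (YY K M) hM₁ k m J₁ (by omega)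
      refine ⟨M', J', h1.trans (filter_subset _ _), (le_YY K M hM).trans h2, ?_, h4,
        fun i hi hi' => ?_⟩
      · have h6 := YY_le K M hM
        calc M' ≤ A * YY K M ^ E := h3
          _ ≤ A * ((410 + 6 * K) * M ^ 5) ^ E :=
            Nat.mul_le_mul_left _ (Nat.pow_le_pow_left h6 _)
          _ = A * (410 + 6 * K) ^ E * M ^ (5 * E) := by rw [mul_pow, ← pow_mul, mul_assoc]
          _ ≤ (A * (410 + 6 * K) ^ E + 1) * M ^ (5 * E + 1) :=
            Nat.mul_le_mul (Nat.le_succ _) (Nat.pow_le_pow_right hM (Nat.le_succ _))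
      · by_cases hi1 : i ∈ J₁
        · exact h5 i hi1 hi'
        · have h6 : ¬ YY K M ≤ m i := fun h => hi1 (mem_filter.2 ⟨hi, h⟩)
          omega

end Pool.Agent.H74.BP

end

section

/-!
# The class `(17; 6 ^ 8)` and nef classes on at most eight points
-/

namespace Pool.Agent.H74.BP

open Finset Pool.Agent.H18.Cub Pool.Agent.H18.Pr Pool.Agent.H18.Fat Pool.Agent.H18.Ub Pool.Agent.H18.Nef

/-- The class `(17; 6 ^ 8)` is a Cremona image of a line. -/
theorem lineImage17 : LineImage (n := 8) 17 fun _ => 6 := by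
  have h1 : LineImage (n := 8) 2 ![0, 0, 1, 0, 0, 1, 0, 1] := by
    have h := LineImage.step (n := 8) (s := 2) (a := 2) (b := 5) (c := 7) LineImage.line
      (by decide) (by decide) (by decide) (by decide) (by decide) (by decide) (by decide)
    convert h using 1
    funext i
    fin_cases i <;> rfl
  have h2 : LineImage (n := 8) 3 ![0, 0, 2, 1, 1, 1, 0, 1] := by
    have h := LineImage.step (n := 8) (s := 3) (a := 2) (b := 3) (c := 4) h1
      (by decide) (by decide) (by decide) (by decide) (by decide) (by decide) (by decide)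
    convert h using 1
    funext i
    fin_cases i <;> rfl
  have h3 : LineImage (n := 8) 5 ![2, 2, 2, 1, 1, 1, 0, 3] := by
    have h := LineImage.step (n := 8) (s := 5) (a := 7) (b := 0) (c := 1) h2
      (by decide) (by decide) (by decide) (by decide) (by decide) (by decide) (by decide)
    convert h using 1
    funext i
    fin_cases i <;> rfl
  have h4 : LineImage (n := 8) 8 ![2, 2, 2, 1, 4, 4, 3, 3] := by
    have h := LineImage.step (n := 8) (s := 8) (a := 4) (b := 5) (c := 6) h3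
      (by decide) (by decide) (by decide) (by decide) (by decide) (by decide) (by decide)
    convert h using 1
    funext i
    fin_cases i <;> rfl
  have h5 : LineImage (n := 8) 11 ![2, 5, 5, 4, 4, 4, 3, 3] := by
    have h := LineImage.step (n := 8) (s := 11) (a := 1) (b := 2) (c := 3) h4
      (by decide) (by decide) (by decide) (by decide) (by decide) (by decide) (by decide)
    convert h using 1
    funext i
    fin_cases i <;> rfl
  have h6 : LineImage (n := 8) 14 ![5, 5, 5, 4, 4, 4, 6, 6] := by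
    have h := LineImage.step (n := 8) (s := 14) (a := 6) (b := 7) (c := 0) h5
      (by decide) (by decide) (by decide) (by decide) (by decide) (by decide) (by decide)
    convert h using 1
    funext i
    fin_cases i <;> rfl
  have h7 : LineImage (n := 8) 16 ![5, 5, 5, 6, 6, 6, 6, 6] := by
    have h := LineImage.step (n := 8) (s := 16) (a := 3) (b := 4) (c := 5) h6
      (by decide) (by decide) (by decide) (by decide) (by decide) (by decide) (by decide)
    convert h using 1
    funext i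
    fin_cases i <;> rfl
  have h := LineImage.step (n := 8) (s := 17) (a := 0) (b := 1) (c := 2) h7
    (by decide) (by decide) (by decide) (by decide) (by decide) (by decide) (by decide)
  convert h using 1
  funext i
  fin_cases i <;> rfl

variable {n : ℕ}

/-- The multiplicities at eight points of an effective class. -/
theorem sum_eight_le {e : ℕ} {k : Fin n → ℕ} (hk : 1 ≤ generalDim 2 e k) (J : Finset (Fin n))
    (hJ : J.card ≤ 8) : 6 * ∑ i ∈ J, k i ≤ 17 * e := by
  classical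
  obtain ⟨ψ⟩ : Nonempty ({i : Fin n // i ∈ J} ↪ Fin 8) := by
    apply Function.Embedding.nonempty_of_card_le
    rw [Fintype.card_coe, Fintype.card_fin]
    exact hJ
  set K8 : Fin 8 → ℕ := fun l => if h : ∃ i, ψ i = l then k (h.choose).1 else 0 with hK8
  have hval : ∀ i, K8 (ψ i) = k i.1 := by
    intro i
    have h1 : ∃ j, ψ j = ψ i := ⟨i, rfl⟩
    have h2 := h1.choose_spec
    rw [hK8]
    dsimp only
    rw [dif_pos h1, ψ.injective h2]
  have hsum : ∑ l, K8 l = ∑ i ∈ J, k i := by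
    have h1 := Fintype.sum_of_injective (fun i => ψ i) ψ.injective (fun i => k i.1) K8
      (fun l hl => by
        rw [hK8]
        dsimp only
        rw [dif_neg]
        rintro ⟨i, hi⟩
        exact hl ⟨i, hi⟩) (fun i => (hval i).symm)
    rw [← h1]
    exact Finset.sum_coe_sort J k
  have heff : 1 ≤ generalDim 2 e K8 := by
    obtain ⟨p8, hp8⟩ : ∃ p : Fin 8 → Fin (2 + 1) → ℂ,
        Module.finrank ℂ (fatForms 2 e p K8) = generalDim 2 e K8 := by
      obtain ⟨p, hp⟩ := Pool.Agent.H18.Cub.exists_of_general (generalDim_spec 2 e K8)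
      exact ⟨p, hp⟩
    set p : Fin n → Fin (2 + 1) → ℂ := fun i => if h : i ∈ J then p8 (ψ ⟨i, h⟩) else 0 with hp
    have h1 : generalDim 2 e k ≤ Module.finrank ℂ (fatForms 2 e p k) := Nat.sInf_le ⟨p, rfl⟩
    have i1 := Pool.Agent.H74.CT.fin_fatForms 2 e p8 K8
    have h2 : Module.finrank ℂ (fatForms 2 e p k) ≤ Module.finrank ℂ (fatForms 2 e p8 K8) := by
      refine Submodule.finrank_mono fun F hF => ⟨hF.1, fun l => ?_⟩
      by_cases h : ∃ i, ψ i = l
      · obtain ⟨i, rfl⟩ := h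
        have h3 := hF.2 i.1
        rw [hval]
        have h4 : p i.1 = p8 (ψ i) := by
          rw [hp]
          dsimp only
          rw [dif_pos i.2]
        rw [h4] at h3
        exact h3
      · have h3 : K8 l = 0 := by
          rw [hK8]
          dsimp only
          rw [dif_neg h]
        rw [h3]
        exact Pool.Agent.H22.LU.vanishes_zero _ _
    omega
  have h1 := (lineImage17.nef).1 e K8 heff
  have h2 : ∑ i : Fin 8, 6 * K8 i = 6 * ∑ i ∈ J, k i := by
    rw [← mul_sum, hsum]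
  rw [← h2]
  exact h1

/-- The fractional knapsack. -/
theorem knapsack (m k : Fin n → ℕ) (J : Finset (Fin n)) (hJ : 3 ≤ J.card) (D e : ℕ)
    (hstd : ∀ S ⊆ J, S.card = 3 → ∑ i ∈ S, m i ≤ D) (hke : ∀ i, k i ≤ e)
    (hk : ∑ i ∈ J, k i ≤ 3 * e) : ∑ i ∈ J, m i * k i ≤ D * e := by
  classical
  obtain ⟨S₀, hS₀, hS₀c⟩ := exists_subset_card_eq hJ
  have hne : (J.powersetCard 3).Nonempty := ⟨S₀, mem_powersetCard.2 ⟨hS₀, hS₀c⟩⟩
  obtain ⟨S, hS, hmax⟩ := exists_max_image (J.powersetCard 3) (fun S => ∑ i ∈ S, m i) hne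
  rw [mem_powersetCard] at hS
  obtain ⟨hSJ, hSc⟩ := hS
  have hSne : S.Nonempty := card_pos.1 (by omega)
  obtain ⟨j₀, hj₀, hmin⟩ := exists_min_image S m hSne
  have hout : ∀ i ∈ J \ S, m i ≤ m j₀ := by
    intro i hi
    rw [mem_sdiff] at hi
    have h1 : insert i (S.erase j₀) ∈ J.powersetCard 3 := by
      rw [mem_powersetCard]
      refine ⟨fun x hx => ?_, ?_⟩
      · rcases mem_insert.1 hx with h | h
        · rw [h]
          exact hi.1
        · exact hSJ (mem_of_mem_erase h)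
      · rw [card_insert_of_notMem fun h => hi.2 (mem_of_mem_erase h), card_erase_of_mem hj₀]
        omega
    have h2 := hmax _ h1
    rw [sum_insert fun h => hi.2 (mem_of_mem_erase h)] at h2
    have h3 := add_sum_erase S m hj₀
    omega
  have hsplit : ∀ f : Fin n → ℕ, ∑ i ∈ J, f i = ∑ i ∈ J \ S, f i + ∑ i ∈ S, f i := fun f =>
    (sum_sdiff hSJ).symm
  have h1 : ∑ i ∈ J \ S, k i ≤ ∑ i ∈ S, (e - k i) := by
    rw [hsplit] at hk
    have h2 : ∑ i ∈ S, (e - k i) + ∑ i ∈ S, k i = 3 * e := by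
      rw [← sum_add_distrib, ← hSc, ← smul_eq_mul, ← sum_const]
      exact sum_congr rfl fun i _ => by
        have := hke i
        omega
    omega
  rw [hsplit]
  calc ∑ i ∈ J \ S, m i * k i + ∑ i ∈ S, m i * k i ≤
      ∑ i ∈ J \ S, m j₀ * k i + ∑ i ∈ S, m i * k i :=
        Nat.add_le_add_right (sum_le_sum fun i hi => Nat.mul_le_mul_right _ (hout i hi)) _
    _ = m j₀ * ∑ i ∈ J \ S, k i + ∑ i ∈ S, m i * k i := by rw [mul_sum]
    _ ≤ m j₀ * ∑ i ∈ S, (e - k i) + ∑ i ∈ S, m i * k i :=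
        Nat.add_le_add_right (Nat.mul_le_mul_left _ h1) _
    _ = ∑ i ∈ S, (m j₀ * (e - k i) + m i * k i) := by rw [mul_sum, sum_add_distrib]
    _ ≤ ∑ i ∈ S, m i * e := sum_le_sum fun i hi => by
        have h2 := hmin i hi
        have h3 : m j₀ * (e - k i) ≤ m i * (e - k i) := Nat.mul_le_mul_right _ h2
        have h4 : m i * (e - k i) + m i * k i = m i * e := by
          rw [← Nat.mul_add, Nat.sub_add_cancel (hke i)]
        omega
    _ = (∑ i ∈ S, m i) * e := by rw [sum_mul]
    _ ≤ D * e := Nat.mul_le_mul_right _ (hstd S hSJ hSc)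

/-- A class in standard form with multiplicities at least `y` at three to eight points. -/
theorem nef_eight (m : Fin n → ℕ) (J : Finset (Fin n)) (hJ3 : 3 ≤ J.card) (hJ8 : J.card ≤ 8)
    (d y : ℕ) (hy : ∀ i ∈ J, y ≤ m i) (hstd : ∀ S ⊆ J, S.card = 3 → ∑ i ∈ S, m i ≤ d)
    {e : ℕ} {k : Fin n → ℕ} (hk : 1 ≤ generalDim 2 e k) :
    6 * ∑ i ∈ J, m i * k i + y * e ≤ 6 * d * e := by
  classical
  have h17 := sum_eight_le hk J hJ8
  have hke : ∀ i, k i ≤ e := fun i => le_of_effective k hk i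
  have h3y : 3 * y ≤ d := by
    obtain ⟨S, hS, hSc⟩ := exists_subset_card_eq hJ3
    have h1 := hstd S hS hSc
    have h2 : ∑ _i ∈ S, y ≤ ∑ i ∈ S, m i := sum_le_sum fun i hi => hy i (hS hi)
    rw [sum_const, hSc, smul_eq_mul] at h2
    omega
  have hknap := knapsack (fun i => m i - y) k J hJ3 (d - 3 * y) e (fun S hS hSc => by
    have h1 := hstd S hS hSc
    have h2 : ∑ i ∈ S, (m i - y) + 3 * y = ∑ i ∈ S, m i := by
      rw [← hSc, ← smul_eq_mul, ← sum_const, ← sum_add_distrib]
      exact sum_congr rfl fun i hi => by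
        have := hy i (hS hi)
        omega
    omega) hke (by omega)
  have hsum : ∑ i ∈ J, m i * k i = ∑ i ∈ J, (m i - y) * k i + y * ∑ i ∈ J, k i := by
    rw [mul_sum, ← sum_add_distrib]
    exact sum_congr rfl fun i hi => by
      rw [← Nat.add_mul, Nat.sub_add_cancel (hy i hi)]
  have h5 : (d - 3 * y) * e + 3 * y * e = d * e := by
    rw [← Nat.add_mul, Nat.sub_add_cancel h3y]
  have h6 : y * (6 * ∑ i ∈ J, k i) ≤ y * (17 * e) := Nat.mul_le_mul_left _ h17
  rw [hsum]
  nlinarith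

/-- The number of the conditions of a class in standard form. -/
theorem length_eight (m : Fin n → ℕ) (J : Finset (Fin n)) (hJ3 : 3 ≤ J.card) (hJ8 : J.card ≤ 8)
    (d y x : ℕ) (hy : ∀ i ∈ J, y ≤ m i) (hstd : ∀ S ⊆ J, S.card = 3 → ∑ i ∈ S, m i ≤ d)
    (hx : 6 * x + 8 ≤ y) : ∑ i ∈ J, (m i + 2 - 1).choose 2 ≤ (d - x + 2).choose 2 := by
  classical
  have hone : ∀ i ∈ J, m i ≤ d := by
    intro i hi
    obtain ⟨S, hS1, hS2, hSc⟩ := exists_subsuperset_card_eq (s := {i}) (t := J)
      (singleton_subset_iff.2 hi) (n := 3) (by rw [card_singleton]; norm_num) hJ3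
    have h1 := hstd S hS2 hSc
    have h2 : m i ≤ ∑ i ∈ S, m i := single_le_sum (f := m) (fun _ _ => Nat.zero_le _)
      (hS1 (mem_singleton_self i))
    omega
  have h3y : 3 * y ≤ d := by
    obtain ⟨S, hS, hSc⟩ := exists_subset_card_eq hJ3
    have h1 := hstd S hS hSc
    have h2 : ∑ _i ∈ S, y ≤ ∑ i ∈ S, m i := sum_le_sum fun i hi => hy i (hS hi)
    rw [sum_const, hSc, smul_eq_mul] at h2
    omega
  -- the sum of the multiplicities
  set m' : Fin n → ℕ := fun i => if i ∈ J then m i else 0 with hm'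
  have hm'J : ∀ f : ℕ → ℕ, ∑ i ∈ J, f (m' i) = ∑ i ∈ J, f (m i) := fun f =>
    sum_congr rfl fun i hi => by
      rw [hm']
      dsimp only
      rw [if_pos hi]
  have hsum3 : 3 * ∑ i ∈ J, m i ≤ 8 * d := by
    -- knapsack with equal weights
    have h1 := knapsack m (fun _ => 3) J hJ3 d 8 (fun S hS hSc => hstd S hS hSc)
      (fun _ => by norm_num) (by
        rw [sum_const, smul_eq_mul]
        omega)
    rw [← sum_mul] at h1
    omega
  have hsq : ∑ i ∈ J, (m i - y) * m i ≤ (d - 3 * y) * d := by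
    have h1 := knapsack (fun i => m i - y) m' J hJ3 (d - 3 * y) d (fun S hS hSc => by
      have h1 := hstd S hS hSc
      have h2 : ∑ i ∈ S, (m i - y) + 3 * y = ∑ i ∈ S, m i := by
        rw [← hSc, ← smul_eq_mul, ← sum_const, ← sum_add_distrib]
        exact sum_congr rfl fun i hi => by
          have := hy i (hS hi)
          omega
      omega) (fun i => by
      rw [hm']
      dsimp only
      split_ifs with h
      · exact hone i h
      · exact Nat.zero_le _) (by
      have := hm'J (fun x => x)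
      rw [this]
      omega)
    refine le_trans (le_of_eq (sum_congr rfl fun i hi => ?_)) h1
    rw [hm']
    dsimp only
    rw [if_pos hi]
  have hsq' : ∑ i ∈ J, m i * m i = ∑ i ∈ J, (m i - y) * m i + y * ∑ i ∈ J, m i := by
    rw [mul_sum, ← sum_add_distrib]
    exact sum_congr rfl fun i hi => by
      rw [← Nat.add_mul, Nat.sub_add_cancel (hy i hi)]
  have h2 : ∀ z : ℕ, (z + 2 - 1).choose 2 * 2 = z * (z + 1) := by
    intro z
    have h4 : z + 2 - 1 = z + 1 := by omega
    rw [h4, Nat.choose_two_right, Nat.add_sub_cancel,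
      Nat.div_mul_cancel (by
        rw [Nat.mul_comm]
        exact (Nat.even_mul_succ_self z).two_dvd)]
    ring
  have h3 : (d - x + 2).choose 2 * 2 = (d - x + 1) * (d - x + 2) := by
    have := h2 (d - x + 1)
    have h4 : d - x + 1 + 2 - 1 = d - x + 2 := by omega
    rw [h4] at this
    rw [this]
  have h4 : (∑ i ∈ J, (m i + 2 - 1).choose 2) * 2 = ∑ i ∈ J, m i * m i + ∑ i ∈ J, m i := by
    rw [sum_mul, ← sum_add_distrib]
    exact sum_congr rfl fun i _ => by
      rw [h2]
      ring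
  have h5 : (∑ i ∈ J, (m i + 2 - 1).choose 2) * 2 ≤ (d - x + 2).choose 2 * 2 := by
    rw [h3, h4, hsq']
    obtain ⟨z, rfl⟩ : ∃ z, d = z + 3 * y := ⟨d - 3 * y, by omega⟩
    obtain ⟨u, hu⟩ : ∃ u, z + 3 * y = u + x := ⟨z + 3 * y - x, by omega⟩
    have e1 : z + 3 * y - 3 * y = z := by omega
    have e2 : z + 3 * y - x = u := by omega
    rw [e1] at hsq
    rw [e2]
    generalize ∑ i ∈ J, (m i - y) * m i = A at hsq ⊢
    generalize ∑ i ∈ J, m i = B at hsum3 ⊢
    -- A ≤ z (z + 3 y), 3 B ≤ 8 (z + 3 y)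
    have h6 : 3 * (y * B) ≤ 8 * (y * (z + 3 * y)) := by
      have := Nat.mul_le_mul_left y hsum3
      nlinarith
    have h7 : 3 * (A + y * B + B) ≤ 3 * (z * (z + 3 * y)) + 8 * (y * (z + 3 * y)) +
        8 * (z + 3 * y) := by omega
    have h8 : 3 * (z * (z + 3 * y)) + 8 * (y * (z + 3 * y)) + 8 * (z + 3 * y) +
        (y - 8) * (z + 3 * y) = 3 * ((z + 3 * y) * (z + 3 * y)) := by
      obtain ⟨w, rfl⟩ : ∃ w, y = w + 8 := ⟨y - 8, by omega⟩
      rw [Nat.add_sub_cancel]
      ring
    have h9 : 6 * x * (z + 3 * y) ≤ (y - 8) * (z + 3 * y) := Nat.mul_le_mul_right _ (by omega)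
    rw [hu] at h7 h8 h9
    nlinarith
  omega

end Pool.Agent.H74.BP

end

section

/-!
# The plane theorem in terms of the number of the conditions
-/

namespace Pool.Agent.H74.BP

open Finset Pool.Agent.H18.Cub Pool.Agent.H18.Pr Pool.Agent.H18.Fat Pool.Agent.H18.Ub

theorem imposes_of_zero {r d k : ℕ} (hr : 1 ≤ r) (m : Fin k → ℕ) (h : generalDim r d m = 0) :
    ForGeneralPoints r k fun p => ImposesMaximalConditions r d p m := by
  refine (generalDim_spec r d m).mono fun p hp => ?_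
  have h1 := Pool.Agent.H74.CT.generalDim_ge hr d m
  unfold ImposesMaximalConditions
  rw [hp, h]
  rw [h] at h1
  rw [max_eq_left (by exact_mod_cast h1)]
  rfl

end Pool.Agent.H74.BP

end
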