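import Pool.Agent.H94.LP3.M29
import Pool.Agent.H94.LP3.M42

/-! The parts of this file: H18.Ua.USys, H18.Ua.USys_1, H18.Ub.VTrace_1. -/

section

/-!
# Module USys (UA): the Horace system of a family
-/

namespace Pool.Agent.H18.Ua

open Finset Pool.Agent.H18.Ex Pool.Agent.H18.Cub Pool.Agent.H18.Pr

variable {n q : ℕ}

private theorem USys_sep (v : Fin q → ℂ) (hv : Function.Injective v) (l : Fin q) :
    (gU n v).Sep l := by
  intro l' h
  right
  intro h1
  exact h (hv h1)

private theorem USys_sum_dn (a : Fin q → ℕ) (l : Fin q) (hl : 1 ≤ a l) :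
    ∑ i, dn l a i + 1 = ∑ i, a i := by
  have h1 : ∑ i ∈ univ.erase l, dn l a i = ∑ i ∈ univ.erase l, a i :=
    sum_congr rfl fun i hi => Function.update_of_ne (ne_of_mem_erase hi) _ _
  have h2 : dn l a l = a l - 1 := Function.update_self _ _ _
  rw [← add_sum_erase univ _ (mem_univ l), ← add_sum_erase univ (fun i => a i) (mem_univ l), h1, h2]
  omega

private theorem USys_resid (A : Fam n) (v : Fin q → ℂ) (hb : ∀ l, v l ∉ A.bad) (a : Fin q → ℕ)
    (l : Fin q) (hl : 1 ≤ a l) :
    ResW (gU n v) l (A.W (∑ i, a i)) (A.W (∑ i, dn l a i)) := by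
  have h := A.resW v l (hb l) (∑ i, dn l a i)
  rwa [USys_sum_dn a l hl] at h

private theorem USys_map_layer {Λ : Type} (S : Multiset (Role Λ)) :
    (S.map fun r => (Kind.free r.layer : Kind Λ)) = (S.map Role.layer).map Kind.free := by
  rw [Multiset.map_map]
  rfl

/-- The Horace system of a family; the state `a` stands for the degree `∑ l, a l`.
(`count`: if `1 ≤ F l a` then `h (δ - 1) ≠ 0`, so `h δ ≠ 0`; `base`: `W 0` consists of
constants.) -/
noncomputable def sysU (A : Fam n) (v : Fin q → ℂ) (hv : Function.Injective v)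
    (hb : ∀ l, v l ∉ A.bad) : SysN (Fin q) n where
  K := fun a S => GMP (gU n v) (A.W (∑ l, a l)) S
  F := fun _ a => if A.h (∑ l, a l - 1) = 0 then 0 else A.h (∑ l, a l) - A.h (∑ l, a l - 1)
  R := fun a => if A.h (∑ l, a l) = 0 then 1 else (A.h (∑ l, a l) : ℤ)
  tr := fun l a S => GMP (gU n v) (trW (gU n v) l (A.W (∑ l, a l))) (S.map Kind.free)
  mono := by
    intro a S S' h hS
    exact GMP.mono h hS
  free_mono := by
    intro a T S hT h
    exact GMP.free_mono T hT S h
  tr_mono := by
    intro l a S S' h hS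
    exact GMP.mono (Multiset.map_le_map h) hS
  count := by
    intro a l hl hF
    have h1 := USys_sum_dn a l hl
    have h2 : ∑ i, dn l a i = ∑ i, a i - 1 := by omega
    rw [h2]
    by_cases h0 : A.h (∑ i, a i - 1) = 0
    · rw [if_pos h0] at hF
      omega
    · rw [if_neg h0, if_neg h0]
      have h3 : A.h (∑ i, a i - 1) ≤ A.h (∑ i, a i) := A.h_mono' (Nat.sub_le _ _)
      rw [if_neg (by omega), Nat.cast_sub h3]
      ring
  step := by
    intro a l hl μ hμ S hS htr h
    refine GMP.step (gU n v) l (USys_sep v hv l) _ _ (USys_resid A v hb a l hl) μ hμ S hS ?_ h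
    rw [USys_map_layer]
    exact htr
  bridge := by
    intro a l hl S m h1 h2
    exact GMP.bridge (gU n v) l (USys_sep v hv l) _ _ (USys_resid A v hb a l hl) S m h1 h2
  base := by
    have h0 : ∑ l : Fin q, (0 : Fin q → ℕ) l = 0 := by simp
    rw [h0]
    exact gmp_simple (gU n v) (A.W 0) 1 A.h_zero_le
  base_R := by
    have h0 : ∑ l : Fin q, (0 : Fin q → ℕ) l = 0 := by simp
    rw [h0]
    have h1 := A.h_zero_le
    split_ifs with h
    · rfl
    · have : A.h 0 = 1 := by omega
      rw [this]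
      rfl

/-- Simple points (`gmp_simple`). -/
theorem sysU_full (A : Fam n) (v : Fin q → ℂ) (hv : Function.Injective v)
    (hb : ∀ l, v l ∉ A.bad) (a : Fin q → ℕ) : FullN (sysU A v hv hb) a := by
  constructor
  · change (1 : ℤ) ≤ if A.h (∑ l, a l) = 0 then 1 else (A.h (∑ l, a l) : ℤ)
    split_ifs with h
    · exact le_refl _
    · omega
  · intro x hx
    change (if A.h (∑ l, a l) = 0 then 1 else (A.h (∑ l, a l) : ℤ)) ≤ x at hx
    change GMP (gU n v) (A.W (∑ l, a l)) _
    apply gmp_simple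
    change A.h (∑ l, a l) ≤ x
    split_ifs at hx with h <;> omega

theorem sysU_gd (A : Fam n) (v : Fin q → ℂ) (hv : Function.Injective v)
    (hb : ∀ l, v l ∉ A.bad) (M : ℕ) (a : Fin q → ℕ) (l : Fin q)
    (h0 : A.h (∑ l, a l - 1) ≠ 0) (h : TrEx A M (∑ l, a l)) : (sysU A v hv hb).Gd M l a := by
  intro S hS hF
  change (if A.h (∑ l, a l - 1) = 0 then 0 else A.h (∑ l, a l) - A.h (∑ l, a l - 1)) ≤ _ at hF
  rw [if_neg h0] at hF
  change GMP (gU n v) (trW (gU n v) l (A.W (∑ l, a l))) (S.map Kind.free)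
  have h1 := h (v l) (hb l) S hS (by omega)
  exact (Fk_iff (gU n v) _ S).1 h1

/-- The differences increase. -/
theorem USys_diff_mono (A : Fam n) {δ d : ℕ} (hδ : δ ≤ d) :
    A.h δ - A.h (δ - 1) ≤ A.h d - A.h (d - 1) := by
  induction d, hδ using Nat.le_induction with
  | base => exact le_refl _
  | succ d _ ih =>
    refine ih.trans ?_
    rw [Nat.add_sub_cancel]
    rcases Nat.eq_zero_or_pos d with rfl | hd
    · simp
    · have h1 := A.t_mono d hd
      omega

theorem USys_up (A : Fam n) {δ d : ℕ} (hδ : δ ≤ d) (k : ℕ) :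
    A.h δ ≤ A.h (δ - k) + k * (A.h d - A.h (d - 1)) := by
  induction k with
  | zero => simp
  | succ k ih =>
    have h1 := USys_diff_mono A (show δ - k ≤ d by omega)
    rw [Nat.sub_sub] at h1
    rw [add_mul, one_mul]
    omega

theorem USys_low (A : Fam n) (M C d : ℕ) (hM : 1 ≤ M) (hC : C ≤ d)
    (hslow : ∀ i < C, (4 * M - 1) * (A.h d - A.h (d - 1)) ≤
      4 * M * (A.h (d - i) - A.h (d - i - 1))) {δ : ℕ} (hδ : δ ≤ d) (k : ℕ)
    (hk : d - δ + k ≤ C) :
    2 * A.h (δ - k) + k * (A.h d - A.h (d - 1)) ≤ 2 * A.h δ := by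
  induction k with
  | zero => simp
  | succ k ih =>
    have h1 := ih (by omega)
    have h2 := hslow (d - δ + k) (by omega)
    have h3 : d - (d - δ + k) = δ - k := by omega
    rw [h3, Nat.sub_sub] at h2
    have h4 : A.h d - A.h (d - 1) ≤ 2 * (A.h (δ - k) - A.h (δ - (k + 1))) := by
      have h5 : 2 * M * (A.h d - A.h (d - 1)) ≤ (4 * M - 1) * (A.h d - A.h (d - 1)) :=
        Nat.mul_le_mul_right _ (by omega)
      have h6 := h5.trans h2
      have h7 : 4 * M * (A.h (δ - k) - A.h (δ - (k + 1))) =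
          2 * M * (2 * (A.h (δ - k) - A.h (δ - (k + 1)))) := by ring
      rw [h7] at h6
      exact Nat.le_of_mul_le_mul_left h6 (by omega)
    have h8 : A.h (δ - (k + 1)) ≤ A.h (δ - k) := A.h_mono' (by omega)
    rw [add_mul, one_mul]
    omega

theorem USys_q_pos (n M : ℕ) (hM : 1 ≤ M) : 1 ≤ qU n M := by
  unfold qU
  have h1 : 1 ≤ ell n M := by
    unfold ell
    exact Nat.choose_pos (by omega)
  have h2 : 1 * 1 ≤ 4 * M * ell n M := Nat.mul_le_mul (by omega) h1
  omega

/-- The degree of a state `a` with `RegU M N a`. -/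
theorem USys_reg (M : ℕ) (N a : Fin q → ℕ) (h : RegU M N a) :
    ∑ l, a l ≤ ∑ l, N l ∧ ∑ l, N l ≤ ∑ l, a l + q * (2 * M + 1) := by
  constructor
  · exact sum_le_sum fun l _ => (h l).1
  · have h1 : ∑ l, N l ≤ ∑ l, (a l + (2 * M + 1)) := sum_le_sum fun l _ => (h l).2
    rw [sum_add_distrib, sum_const, card_univ, Fintype.card_fin, smul_eq_mul] at h1
    exact h1

end Pool.Agent.H18.Ua

end

section

/-!
# Module USys (UA): the Horace system of a family
-/

namespace Pool.Agent.H18.Ua

open Finset Pool.Agent.H18.Ex Pool.Agent.H18.Cub Pool.Agent.H18.Pr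

variable {n q : ℕ}

/-- The numerical properties: the degree of a state `a` with `RegU M N a`, `∑ l, N l = d`, is at
least `d - q (2 M + 1)`, and `A.h (d - q (2 M + 1))` is at least the sum of `8 M q` differences, each
at least `t / 2`. -/
theorem sysU_num (A : Fam n) (M : ℕ) (v : Fin (qU n M) → ℂ) (hv : Function.Injective v)
    (hb : ∀ l, v l ∉ A.bad) (hn : 1 ≤ n) (hM : 1 ≤ M) (d : ℕ) (hd : CU n M ≤ d)
    (hbig : TU n M ≤ A.h d - A.h (d - 1))
    (hslow : ∀ i < CU n M, (4 * M - 1) * (A.h d - A.h (d - 1)) ≤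
      4 * M * (A.h (d - i) - A.h (d - i - 1)))
    (htr : ∀ i < CU n M, TrEx A M (d - i)) (N : Fin (qU n M) → ℕ) (hN : ∑ l, N l = d)
    (hN' : ∀ l, 2 * M + 2 ≤ N l) : NumU (sysU A v hv hb) M (A.h d - A.h (d - 1)) N := by
  have hq := USys_q_pos n M hM
  have hMq : M ≤ M * qU n M := Nat.le_mul_of_pos_right M hq
  have hqM : qU n M ≤ M * qU n M := Nat.le_mul_of_pos_left (qU n M) hM
  have hCU : CU n M = 11 * (M * qU n M) := by unfold CU; ring
  have h21 : qU n M * (2 * M + 1) = 2 * (M * qU n M) + qU n M := by ring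
  have ht : 1 ≤ A.h d - A.h (d - 1) := by
    refine le_trans ?_ hbig
    unfold TU
    have h1 : 1 ≤ ell n M := by
      unfold ell
      exact Nat.choose_pos (by omega)
    have h2 : 1 ≤ ell n M ^ 2 := Nat.one_le_pow _ _ h1
    have h3 : 1 * 1 ≤ 8 * M * (M + 1) := Nat.mul_le_mul (by omega) (by omega)
    have h4 : (1 * 1) * 1 ≤ 8 * M * (M + 1) * ell n M ^ 2 := Nat.mul_le_mul h3 h2
    omega
  -- the degree of a regular state
  have hdeg : ∀ a, RegU M N a → ∑ l, a l ≤ d ∧ d ≤ ∑ l, a l + 2 * (M * qU n M) + qU n M := by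
    intro a ha
    have h1 := USys_reg M N a ha
    rw [hN, h21] at h1
    omega
  have hne : ∀ a, RegU M N a → A.h (∑ l, a l - 1) ≠ 0 := by
    intro a ha h0
    have h1 := hdeg a ha
    have h2 := USys_low A M (CU n M) d hM hd hslow (δ := ∑ l, a l - 1) (by omega) 1 (by omega)
    omega
  refine ⟨hn, hM, hbig, Fintype.card_fin _, hN', ?_, ?_, ?_, ?_, fun a _ => sysU_full A v hv hb a,
    ?_⟩
  · -- `Fle`
    intro a l ha
    change (if A.h (∑ l, a l - 1) = 0 then 0 else A.h (∑ l, a l) - A.h (∑ l, a l - 1)) ≤ _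
    rw [if_neg (hne a ha)]
    exact USys_diff_mono A (hdeg a ha).1
  · -- `leF`
    intro a l ha
    change _ ≤ 4 * M *
      (if A.h (∑ l, a l - 1) = 0 then 0 else A.h (∑ l, a l) - A.h (∑ l, a l - 1))
    rw [if_neg (hne a ha)]
    have h1 := hdeg a ha
    have h2 := hslow (d - ∑ l, a l) (by omega)
    have h3 : d - (d - ∑ l, a l) = ∑ l, a l := by omega
    rw [h3] at h2
    exact h2
  · -- `gd`
    intro a l ha
    refine sysU_gd A v hv hb M a l (hne a ha) ?_
    have h1 := hdeg a ha
    have h2 := htr (d - ∑ l, a l) (by omega)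
    have h3 : d - (d - ∑ l, a l) = ∑ l, a l := by omega
    rw [h3] at h2
    exact h2
  · -- `leR`
    intro a ha
    change _ ≤ if A.h (∑ l, a l) = 0 then 1 else (A.h (∑ l, a l) : ℤ)
    have h1 := hdeg a ha
    have h2 := USys_low A M (CU n M) d hM hd hslow (δ := ∑ l, a l) h1.1 (8 * (M * qU n M))
      (by omega)
    have h3 : 4 * M * qU n M * (A.h d - A.h (d - 1)) ≤ A.h (∑ l, a l) := by
      have h4 : 8 * (M * qU n M) * (A.h d - A.h (d - 1)) =
          2 * (4 * M * qU n M * (A.h d - A.h (d - 1))) := by ring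
      omega
    have h5 : A.h (∑ l, a l) ≠ 0 := by
      have h6 : 1 ≤ 4 * M * qU n M * (A.h d - A.h (d - 1)) := by
        have h7 : 1 * 1 ≤ 4 * M * qU n M := Nat.mul_le_mul (by omega) hq
        have h8 : (1 * 1) * 1 ≤ 4 * M * qU n M * (A.h d - A.h (d - 1)) := Nat.mul_le_mul h7 ht
        omega
      omega
    rw [if_neg h5]
    exact_mod_cast h3
  · -- `kill`
    intro a ha S x s G hG hK hx hs
    have h1 := hdeg a ha
    refine kill_all A (gU n v) (∑ l, a l) M (M * (A.h d - A.h (d - 1))) hM (by omega) ?_ G hG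
      S x s hK hx hs
    refine (USys_up A h1.1 (M - 1)).trans (Nat.add_le_add_left ?_ _)
    exact Nat.mul_le_mul_right _ (by omega)

end Pool.Agent.H18.Ua

end

section

/-!
# Module VTrace (UB): the traces are killed with enough simple points
-/

namespace Pool.Agent.H18.Ub

open Finset Pool.Agent.H18.Ex Pool.Agent.H18.Cub Pool.Agent.H18.Pr Pool.Agent.H18.Ua

/-! ### Restriction to `x_0 = 0` -/

section

variable {n : ℕ}

end

/-! ### Families closed under multiplication -/

variable {n : ℕ} {Λ : Type}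

open UKillX

/-- If the conditions `S` do not kill `W δ` then one more free point of multiplicity `m` imposes
`ell (n + 1) m` conditions on the elements of `W (δ + (m - 1))` satisfying `S`: choose positions with
`finrank (kerP (W (δ + (m - 1))) …) ≤ x` and a nonzero `G ∈ W δ` satisfying `S` there, a point `p` with
`G(p) ≠ 0`; the products `Q * G` with `deg Q ≤ m - 1` form a subspace of dimension `ell (n + 1) m` meeting
the subspace of the elements vanishing to order `m` at `p` in `0` only (`satP_of_mul`,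
`eq_zero_of_vanish`). -/
theorem pkill_step (A : PFam n) (g : Lines Λ (Fin (n + 1))) (δ m x : ℕ) (hm : 1 ≤ m)
    (S : Multiset (Kind Λ)) (hS : ¬ GMP g (A.W δ) S)
    (h : GMP g (A.W (δ + (m - 1))) (S + Multiset.replicate x (Kind.free 1))) :
    ell (n + 1) m ≤ x ∧ GMP g (A.W (δ + (m - 1)))
      (S + {Kind.free m} + Multiset.replicate (x - ell (n + 1) m) (Kind.free 1)) := by
  obtain ⟨N, k, rfl⟩ := multi_exists_fin S
  obtain ⟨pos, hpos⟩ := exists_pos_finrank g (A.W (δ + (m - 1))) k x h
  rw [GMP_iff] at hS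
  have h1 : ¬ InjP g (A.W δ) k pos := fun hI => hS ⟨pos, hI⟩
  unfold InjP at h1
  push Not at h1
  obtain ⟨G, hGW, hGs, hG0⟩ := h1
  obtain ⟨p, hp⟩ : ∃ p : Fin (n + 1) → ℂ, MvPolynomial.eval p G ≠ 0 := by
    by_contra hcon
    push Not at hcon
    exact hG0 (MvPolynomial.funext fun v => by rw [hcon v, map_zero])
  let V := kerP g (A.W (δ + (m - 1))) k pos
  let k' : Fin N ⊕ Unit → Kind Λ := Sum.elim k fun _ => Kind.free m
  let pos' : Fin N ⊕ Unit → Fin (n + 1) → ℂ := Sum.elim pos fun _ => p
  let U := kerP g (A.W (δ + (m - 1))) k' pos'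
  let P := (MvPolynomial.restrictTotalDegree (Fin (n + 1)) ℂ (m - 1)).map (LinearMap.mulLeft ℂ G)
  have hfV : FiniteDimensional ℂ V := Submodule.finiteDimensional_of_le kerP_le
  have hPV : P ≤ V := by
    rintro _ ⟨Q, hQ, rfl⟩
    rw [SetLike.mem_coe, MvPolynomial.mem_restrictTotalDegree] at hQ
    rw [LinearMap.mulLeft_apply, mul_comm]
    exact mem_kerP.2 ⟨A.mul δ (m - 1) G hGW Q hQ, fun i => satP_mul g Q G (k i) (pos i) (hGs i)⟩
  have hUV : U ≤ V := by
    intro F hF
    rw [mem_kerP] at hF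
    exact mem_kerP.2 ⟨hF.1, fun i => hF.2 (Sum.inl i)⟩
  have hPU : P ⊓ U = ⊥ := by
    rw [eq_bot_iff]
    rintro F ⟨⟨Q, hQ, rfl⟩, hF⟩
    rw [SetLike.mem_coe, MvPolynomial.mem_restrictTotalDegree] at hQ
    rw [LinearMap.mulLeft_apply] at hF ⊢
    have h2 : SatP g (G * Q) (Kind.free m) p := (mem_kerP.1 hF).2 (Sum.inr ())
    have h3 := satP_of_mul g G Q (Kind.free m) p hp h2
    have h4 : Q = 0 := eq_zero_of_vanish Q p m (by omega) fun b hb => h3 b hb
    rw [h4, mul_zero]
    exact Submodule.zero_mem _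
  have h5 := finrank_add_le P U V hPV hUV hPU
  have h6 : Module.finrank ℂ P = ell (n + 1) m := by
    rw [finrank_mul G hG0, finrank_totalDegree n m hm]
  rw [h6] at h5
  have h7 : Module.finrank ℂ V ≤ x := hpos
  refine ⟨by omega, ?_⟩
  have h8 := gmp_of_pos g (A.W (δ + (m - 1))) k' (x - ell (n + 1) m) pos' (by
    change Module.finrank ℂ U ≤ _
    omega)
  rw [multi_map_sum] at h8
  exact h8

/-- If the conditions `S` kill `W δ` then the elements of `W (δ + i)` satisfying `S` form a space of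
dimension at most `h (δ + i) - h δ`: it meets `(X 0 - C v) ^ i * W δ` in `0` only, for general `v`. -/
theorem pkill_dim (A : PFam n) (g : Lines Λ (Fin (n + 1))) (δ i x : ℕ) (S : Multiset (Kind Λ))
    (hS : GMP g (A.W δ) S) (hx : A.h (δ + i) ≤ A.h δ + x) :
    GMP g (A.W (δ + i)) (S + Multiset.replicate x (Kind.free 1)) := by
  obtain ⟨N, k, rfl⟩ := multi_exists_fin S
  rw [GMP_iff] at hS
  obtain ⟨pos, hpos⟩ := hS
  obtain ⟨v, hv⟩ : ∃ v : ℂ, v ∉ (univ : Finset (Fin N)).image fun j => g.pt (k j) (pos j) 0 :=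
    Infinite.exists_notMem_finset _
  let L : MvPolynomial (Fin (n + 1)) ℂ := (MvPolynomial.X 0 - MvPolynomial.C v) ^ i
  have hev : ∀ j, MvPolynomial.eval (g.pt (k j) (pos j)) L ≠ 0 := by
    intro j
    simp only [L, map_pow, map_sub, MvPolynomial.eval_X, MvPolynomial.eval_C]
    refine pow_ne_zero _ (sub_ne_zero.2 ?_)
    intro hcon
    exact hv (mem_image.2 ⟨j, mem_univ _, hcon⟩)
  have hL0 : L ≠ 0 := by
    refine pow_ne_zero _ ?_
    intro hcon
    have := congrArg (MvPolynomial.eval fun _ => v + 1) hcon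
    simp at this
  have hLd : L.totalDegree ≤ i := by
    refine (MvPolynomial.totalDegree_pow _ _).trans ?_
    have : (MvPolynomial.X (0 : Fin (n + 1)) - MvPolynomial.C v :
        MvPolynomial (Fin (n + 1)) ℂ).totalDegree ≤ 1 := by
      refine (MvPolynomial.totalDegree_sub _ _).trans ?_
      simp
    calc i * _ ≤ i * 1 := Nat.mul_le_mul_left _ this
      _ = i := mul_one i
  let V := kerP g (A.W (δ + i)) k pos
  let P := (A.W δ).map (LinearMap.mulLeft ℂ L)
  have hPW : P ≤ A.W (δ + i) := by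
    rintro _ ⟨F, hF, rfl⟩
    rw [LinearMap.mulLeft_apply]
    exact A.mul δ i F hF L hLd
  have hPV : P ⊓ V = ⊥ := by
    rw [eq_bot_iff]
    rintro _ ⟨⟨F, hF, rfl⟩, hV⟩
    rw [LinearMap.mulLeft_apply] at hV ⊢
    have h3 : F = 0 := hpos F hF fun j =>
      satP_of_mul g L F (k j) (pos j) (hev j) ((mem_kerP.1 hV).2 j)
    rw [h3, mul_zero]
    exact Submodule.zero_mem _
  have h5 := finrank_add_le P V (A.W (δ + i)) hPW kerP_le hPV
  have h6 : Module.finrank ℂ P = A.h δ := finrank_mul L hL0 _
  rw [h6] at h5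
  refine gmp_of_pos g (A.W (δ + i)) k x pos ?_
  change Module.finrank ℂ V ≤ x
  change A.h δ + Module.finrank ℂ V ≤ A.h (δ + i) at h5
  omega

/-- Many points.  Induction on `G`: if `W (d - (m - 1))` is not killed use `kill_step`; otherwise the
dimension is at most `T` by `kill_dim`, and there are at least `T` points left. -/
theorem pkill_all (A : PFam n) (g : Lines Λ (Fin (n + 1))) (d M T : ℕ) (hM : 1 ≤ M)
    (hd : M - 1 ≤ d) (hT : A.h d ≤ A.h (d - (M - 1)) + T) (G : Multiset ℕ)
    (hG : ∀ m ∈ G, 1 ≤ m ∧ m ≤ M) : ∀ (S : Multiset (Kind Λ)) (x s : ℕ),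
    GMP g (A.W d) (S + Multiset.replicate x (Kind.free 1)) →
    x ≤ (G.map (ell (n + 1))).sum + s →
    (T ≤ s ∨ x + ell (n + 1) M * T ≤ (G.map (ell (n + 1))).sum + s) →
    GMP g (A.W d) (S + G.map Kind.free + Multiset.replicate s (Kind.free 1)) := by
  induction G using Multiset.induction_on with
  | empty =>
    intro S x s h hx _
    rw [Multiset.map_zero, Multiset.sum_zero, zero_add] at hx
    rw [Multiset.map_zero, add_zero]
    exact GMP.mono (add_le_add_right (Multiset.replicate_le_replicate _ |>.2 hx) _) h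
  | cons m G ih =>
    intro S x s h hx hor
    have hm := hG m (Multiset.mem_cons_self m G)
    have hG' : ∀ m' ∈ G, 1 ≤ m' ∧ m' ≤ M := fun m' hm' => hG m' (Multiset.mem_cons_of_mem hm')
    rw [Multiset.map_cons, Multiset.sum_cons] at hx hor
    have hdd : d - (m - 1) + (m - 1) = d := by omega
    by_cases hk : GMP g (A.W (d - (m - 1))) S
    · -- the conditions `S` kill the smaller space
      have h1 : A.h (d - (m - 1) + (m - 1)) ≤ A.h (d - (m - 1)) + T := by
        rw [hdd]
        have := A.h_mono' (show d - (M - 1) ≤ d - (m - 1) by omega)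
        omega
      have h2 := pkill_dim A g (d - (m - 1)) (m - 1) T S hk h1
      rw [hdd] at h2
      have hTs : T ≤ (m ::ₘ G).card + s := by
        rcases hor with hor | hor
        · omega
        · have h3 : ((m ::ₘ G).map (ell (n + 1))).sum ≤ (m ::ₘ G).card * ell (n + 1) M := by
            have := Multiset.sum_le_card_nsmul ((m ::ₘ G).map (ell (n + 1))) (ell (n + 1) M) (by
              intro y hy
              obtain ⟨m', hm', rfl⟩ := Multiset.mem_map.1 hy
              exact ell_mono (n + 1) (hG m' hm').2)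
            rw [Multiset.card_map, smul_eq_mul] at this
            exact this
          rw [Multiset.map_cons, Multiset.sum_cons] at h3
          have h4 : 1 ≤ ell (n + 1) M := ell_pos (n + 1) hM
          have h5 : ell (n + 1) M * T ≤ ell (n + 1) M * ((m ::ₘ G).card + s) := by
            calc ell (n + 1) M * T ≤ (ell (n + 1) m + (G.map (ell (n + 1))).sum) + s := by omega
              _ ≤ (m ::ₘ G).card * ell (n + 1) M + ell (n + 1) M * s :=
                  add_le_add h3 (Nat.le_mul_of_pos_left s h4)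
              _ = ell (n + 1) M * ((m ::ₘ G).card + s) := by ring
          exact Nat.le_of_mul_le_mul_left h5 h4
      have h6 : GMP g (A.W d) (Multiset.replicate (m ::ₘ G).card (Kind.free 1) +
          (S + Multiset.replicate s (Kind.free 1))) := by
        refine GMP.mono ?_ h2
        have h7 : Multiset.replicate T (Kind.free 1 : Kind Λ) ≤
            Multiset.replicate ((m ::ₘ G).card + s) (Kind.free 1) :=
          (Multiset.replicate_le_replicate _).2 hTs
        rw [Multiset.replicate_add] at h7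
        calc S + Multiset.replicate T (Kind.free 1 : Kind Λ) ≤
            S + (Multiset.replicate (m ::ₘ G).card (Kind.free 1) +
              Multiset.replicate s (Kind.free 1)) := by
              exact Multiset.add_le_add_left h7
          _ = Multiset.replicate (m ::ₘ G).card (Kind.free 1) +
            (S + Multiset.replicate s (Kind.free 1)) := by
              rw [← add_assoc, add_comm S, add_assoc]
      have h8 := GMP.free_mono (m ::ₘ G) (fun m' hm' => (hG m' hm').1) _ h6
      rw [← add_assoc, add_comm ((m ::ₘ G).map Kind.free) S] at h8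
      exact h8
    · have h0 : GMP g (A.W (d - (m - 1) + (m - 1))) (S + Multiset.replicate x (Kind.free 1)) := by
        rw [hdd]
        exact h
      obtain ⟨h1, h2⟩ := pkill_step A g (d - (m - 1)) m x hm.1 S hk h0
      rw [hdd] at h2
      have h3 := ih hG' (S + {Kind.free m}) (x - ell (n + 1) m) s h2 (by omega) (by omega)
      rw [Multiset.map_cons, ← Multiset.singleton_add, ← add_assoc]
      exact h3

/-! ### The traces -/

/-- Points of multiplicities at most `M` and `x` simple points kill the trace if `x` is at least the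
growth of the traces in `M - 1` degrees. -/
theorem trace_kill (A : Fam (n + 1)) (M δ : ℕ) (hM : 1 ≤ M) (hδ : M ≤ δ) (v : ℂ)
    (hv : v ∉ A.bad) (S : Multiset ℕ) (hS : ∀ m ∈ S, m ≤ M) (x : ℕ)
    (hx : A.h δ - A.h (δ - 1) ≤ A.h (δ - (M - 1)) - A.h (δ - (M - 1) - 1) + x)
    (hsum : A.h δ ≤ A.h (δ - 1) + ((S.map (ell (n + 1))).sum + x)) :
    Fk ((A.W δ).map (sub1 0 v).toLinearMap) (S + Multiset.replicate x 1) := by
  classical
  set T := traceP A v with hT
  have h1 := traceP_h A v hv δ (by omega)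
  have h2 := traceP_h A v hv (δ - (M - 1)) (by omega)
  rw [← hT] at h1 h2
  have g : Lines Empty (Fin (n + 1)) := ⟨Empty.elim, Empty.elim⟩
  -- remove the points of multiplicity `0`
  set S' := S.filter fun m => 1 ≤ m with hS'
  have hsum' : (S'.map (ell (n + 1))).sum = (S.map (ell (n + 1))).sum := by
    rw [hS']
    clear hsum hS hS'
    induction S using Multiset.induction_on with
    | empty => rfl
    | cons m S ih =>
      by_cases hm : 1 ≤ m
      · rw [Multiset.filter_cons_of_pos _ hm, Multiset.map_cons, Multiset.map_cons,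
          Multiset.sum_cons, Multiset.sum_cons, ih]
      · rw [Multiset.filter_cons_of_neg _ hm, Multiset.map_cons, Multiset.sum_cons, ih]
        have h0 : m = 0 := by omega
        rw [h0, ell_zero (by omega), zero_add]
  have h3 := pkill_all T g δ M x hM (by omega) (by omega) S'
    (fun m hm => ⟨(Multiset.mem_filter.1 hm).2, hS m (Multiset.mem_filter.1 hm).1⟩)
    0 (T.h δ) x (by
      rw [zero_add]
      exact gmp_simple g (T.W δ) (T.h δ) le_rfl) (by omega) (Or.inl le_rfl)
  rw [zero_add] at h3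
  have h4 : Fk (T.W δ) (S' + Multiset.replicate x 1) := by
    rw [Fk_iff g, Multiset.map_add, Multiset.map_replicate]
    exact h3
  have h5 : Fk (T.W δ) (S + Multiset.replicate x 1) :=
    Fk.mono (add_le_add_left (Multiset.filter_le _ _) _) h4
  refine vtr_transfer _ (T.W δ) (vtr_trace_degreeOf A δ v) ?_ h5
  rintro F ⟨G, hG, rfl⟩
  exact ⟨G, hG, rfl⟩

end Pool.Agent.H18.Ub

end
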