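import Pool.Agent.H94.LP3.M28

/-! The parts of this file: H18.Ua.UChoose, H18.Ua.UTrace. -/

section

/-!
# Module UChoose (UA): numbers for complete traces
-/

namespace Pool.Agent.H18.Ua

open Finset Pool.Agent.H18.Ex Pool.Agent.H18.Cub

/-- The number of degrees in dimension `r`. -/
def DU (r M : ℕ) : ℕ := 300 * r * M ^ (r + 4)

theorem ell_le_pow (n M : ℕ) (hM : 1 ≤ M) : ell n M ≤ M ^ n := by
  unfold ell
  induction n with
  | zero => simp
  | succ k ih =>
    have h1 : M + (k + 1) - 1 = (M + k - 1) + 1 := by omega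
    rw [h1]
    have h2 := Nat.add_one_mul_choose_eq (M + k - 1) k
    have h3 : M + k - 1 + 1 ≤ (k + 1) * M := by
      have : k ≤ k * M := Nat.le_mul_of_pos_right k hM
      nlinarith [Nat.sub_add_cancel (show 1 ≤ M + k by omega)]
    have h4 : (M + k - 1 + 1).choose (k + 1) * (k + 1) ≤ M ^ (k + 1) * (k + 1) := by
      rw [← h2]
      calc (M + k - 1 + 1) * (M + k - 1).choose k ≤ ((k + 1) * M) * M ^ k :=
            Nat.mul_le_mul h3 ih
        _ = M ^ (k + 1) * (k + 1) := by ring
    exact Nat.le_of_mul_le_mul_right h4 (Nat.succ_pos k)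

theorem CU_le (n M : ℕ) (hM : 1 ≤ M) : CU n M ≤ 66 * M ^ (n + 4) := by
  unfold CU qU
  have h1 := ell_le_pow (n + 1) M hM
  have h2 := ell_le_pow n M hM
  have h3 : M ^ (n + 2) ≤ M ^ (n + 4) := Nat.pow_le_pow_right hM (by omega)
  calc 11 * M * (2 * M ^ 2 * ell (n + 1) M + 4 * M * ell n M)
      ≤ 11 * M * (2 * M ^ 2 * M ^ (n + 1) + 4 * M * M ^ n) := by gcongr
    _ = 22 * M ^ (n + 4) + 44 * M ^ (n + 2) := by ring
    _ ≤ 66 * M ^ (n + 4) := by omega

private theorem pow_step (n M : ℕ) (hM : 1 ≤ M) : M ^ (n + 4) ≤ M ^ (n + 5) :=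
  Nat.pow_le_pow_right hM (by omega)

private theorem DU_succ (n M : ℕ) : DU (n + 1) M = 300 * (n * M ^ (n + 5)) + 300 * M ^ (n + 5) := by
  unfold DU
  ring

theorem DU_sub {n M d i : ℕ} (hM : 1 ≤ M) (hd : DU (n + 1) M ≤ d) (hi : i < CU n M) :
    DU n M ≤ d - i := by
  have h1 := CU_le n M hM
  have h2 := pow_step n M hM
  have h3 : n * M ^ (n + 4) ≤ n * M ^ (n + 5) := Nat.mul_le_mul_left n h2
  have h4 : DU n M = 300 * (n * M ^ (n + 4)) := by unfold DU; ring
  rw [DU_succ] at hd
  rw [h4]
  omega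

theorem CU_le_DU {n M : ℕ} (hM : 1 ≤ M) : CU n M + 1 ≤ DU (n + 1) M := by
  have h1 := CU_le n M hM
  have h2 := pow_step n M hM
  have h3 : 1 ≤ M ^ (n + 4) := Nat.one_le_pow _ _ hM
  rw [DU_succ]
  omega

private theorem choose_le_add (e i k : ℕ) :
    (e + i + k + 1).choose (k + 1) ≤ (e + k + 1).choose (k + 1) + i * (e + i + k).choose k := by
  induction i with
  | zero => simp
  | succ j ih =>
    have h1 : (e + (j + 1) + k + 1).choose (k + 1)
        = (e + (j + 1) + k).choose k + (e + (j + 1) + k).choose (k + 1) := Nat.choose_succ_succ _ _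
    have h2 : (e + (j + 1) + k).choose (k + 1) = (e + j + k + 1).choose (k + 1) := by
      congr 1; omega
    have h3 : (e + j + k).choose k ≤ (e + (j + 1) + k).choose k :=
      Nat.choose_le_choose k (by omega)
    rw [h1, h2]
    have h4 := Nat.mul_le_mul_left j h3
    calc (e + (j + 1) + k).choose k + (e + j + k + 1).choose (k + 1)
        ≤ (e + (j + 1) + k).choose k + ((e + k + 1).choose (k + 1) + j * (e + j + k).choose k) :=
          Nat.add_le_add_left ih _
      _ ≤ (e + (j + 1) + k).choose k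
            + ((e + k + 1).choose (k + 1) + j * (e + (j + 1) + k).choose k) := by gcongr
      _ = (e + k + 1).choose (k + 1) + (j + 1) * (e + (j + 1) + k).choose k := by ring

/-- `binom (d + n) n - binom (d - i + n) n ≤ i n / (d + n) * binom (d + n) n`. -/
theorem slow_choose {n M d i : ℕ} (hn : 1 ≤ n) (hM : 1 ≤ M) (hd : DU (n + 1) M ≤ d)
    (hi : i < CU n M) :
    (4 * M - 1) * (d + n).choose n ≤ 4 * M * (d - i + n).choose n := by
  obtain ⟨k, rfl⟩ : ∃ k, n = k + 1 := ⟨n - 1, by omega⟩
  have hc := CU_le (k + 1) M hM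
  have hcd := CU_le_DU (n := k + 1) hM
  have hid : i ≤ d := by omega
  obtain ⟨e, rfl⟩ : ∃ e, d = e + i := ⟨d - i, by omega⟩
  have he : e + i - i = e := by omega
  rw [he]
  have h1 := choose_le_add e i k
  have h2 := Nat.add_one_mul_choose_eq (e + i + k) k
  rw [DU_succ] at hd
  have h3 : 4 * M * i * (k + 1) ≤ e + i + k + 1 := by
    have h4 : i ≤ 66 * M ^ (k + 1 + 4) := by omega
    calc 4 * M * i * (k + 1) ≤ 4 * M * (66 * M ^ (k + 1 + 4)) * (k + 1) := by gcongr
      _ = 264 * ((k + 1) * M ^ (k + 1 + 5)) := by ring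
      _ ≤ e + i + k + 1 := by omega
  set X := (e + i + k + 1).choose (k + 1) with hX
  set Z := (e + i + k).choose k with hZ
  set Y := (e + k + 1).choose (k + 1) with hY
  have h5 : 4 * M * (i * Z) ≤ X := by
    have h6 : 4 * M * (i * Z) * (k + 1) ≤ X * (k + 1) := by
      rw [← h2]
      calc 4 * M * (i * Z) * (k + 1) = (4 * M * i * (k + 1)) * Z := by ring
        _ ≤ (e + i + k + 1) * Z := Nat.mul_le_mul_right Z h3
    exact Nat.le_of_mul_le_mul_right h6 (Nat.succ_pos k)
  have h7 : (e + i + (k + 1)).choose (k + 1) = X := by rw [hX]; congr 1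
  have h8 : (e + (k + 1)).choose (k + 1) = Y := by rw [hY]; congr 1
  rw [h7, h8]
  have h9 : 4 * M * X ≤ 4 * M * (Y + i * Z) := Nat.mul_le_mul_left _ h1
  have h10 : (4 * M - 1) * X = 4 * M * X - X := by
    rw [Nat.sub_mul, one_mul]
  rw [h10, Nat.sub_le_iff_le_add]
  calc 4 * M * X ≤ 4 * M * (Y + i * Z) := h9
    _ = 4 * M * Y + 4 * M * (i * Z) := by ring
    _ ≤ 4 * M * Y + X := Nat.add_le_add_left h5 _

theorem TU_le_choose {n M d : ℕ} (hn : 1 ≤ n) (hM : 1 ≤ M) (hd : DU (n + 1) M ≤ d) :
    TU n M ≤ (d + n).choose n := by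
  have h1 : TU n M ≤ 16 * M ^ (2 * n + 2) := by
    unfold TU
    have h2 := ell_le_pow n M hM
    calc 8 * M * (M + 1) * ell n M ^ 2 ≤ 8 * M * (M + M) * (M ^ n) ^ 2 := by gcongr
      _ = 16 * M ^ (2 * n + 2) := by ring
  refine h1.trans ?_
  rw [DU_succ] at hd
  have hd1 : 300 * M ^ (n + 5) ≤ d := by omega
  rcases Nat.lt_or_ge n 2 with hn2 | hn2
  · obtain rfl : n = 1 := by omega
    have h3 : M ^ (2 * 1 + 2) ≤ M ^ (1 + 5) := Nat.pow_le_pow_right hM (by omega)
    rw [Nat.choose_one_right]
    omega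
  · have h3 : (d + 2).choose 2 ≤ (d + n).choose n := by
      calc (d + 2).choose 2 = (d + 2).choose d := (Nat.choose_symm_add).symm
        _ ≤ (d + n).choose d := Nat.choose_le_choose d (by omega)
        _ = (d + n).choose n := Nat.choose_symm_add
    refine le_trans ?_ h3
    have h4 := Nat.add_one_mul_choose_eq (d + 1) 1
    simp only [Nat.choose_one_right] at h4
    have h5 : M ^ (2 * n + 2) ≤ (M ^ (n + 5)) ^ 2 := by
      rw [← pow_mul]
      exact Nat.pow_le_pow_right hM (by omega)
    have h6 : 300 * M ^ (n + 5) * (300 * M ^ (n + 5)) ≤ (d + 1 + 1) * (d + 1) :=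
      Nat.mul_le_mul (by omega) (by omega)
    have h7 : (d + 2).choose 2 = (d + 1 + 1).choose (1 + 1) := rfl
    rw [h7]
    nlinarith [h4, h5, h6]

end Pool.Agent.H18.Ua

end

section

/-!
# Module UTrace (UA): exactness of the traces
-/

namespace Pool.Agent.H18.Ua

open Finset Pool.Agent.H18.Ex Pool.Agent.H18.Cub Pool.Agent.H18.Pr

/-- Complete linear systems: points of multiplicities at most `M` whose lengths suffice kill the
polynomials of degree at most `δ` in `n` variables. -/
def AHx (n M δ : ℕ) : Prop :=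
  ∀ S : Multiset ℕ, (∀ m ∈ S, m ≤ M) → (δ + n).choose n ≤ (S.map (ell n)).sum →
    Fk (MvPolynomial.restrictTotalDegree (Fin n) ℂ δ) S

/-! ### Polynomials in one variable -/

section

open Polynomial

/-- Two polynomials with the same logarithmic derivative are proportional. -/
private theorem utr_prop {P Q : ℂ[X]} (hQ : Q ≠ 0)
    (h : derivative P * Q = P * derivative Q) : ∃ c : ℂ, P = c • Q := by
  -- a nonzero solution has the degree of `Q`
  have key : ∀ R : ℂ[X], derivative R * Q = R * derivative Q → R ≠ 0 →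
      R.natDegree = Q.natDegree := by
    intro R hR hR0
    have h1 := congrArg (fun T => T.coeff (R.natDegree + Q.natDegree - 1)) hR
    by_cases hz : R.natDegree = 0 ∧ Q.natDegree = 0
    · rw [hz.1, hz.2]
    · have hpos : 0 < R.natDegree + Q.natDegree := by omega
      -- multiply by `X`
      have h2 : (X * derivative R) * Q = R * (X * derivative Q) := by
        linear_combination (X : ℂ[X]) * hR
      have hd : ∀ T : ℂ[X], (X * derivative T).natDegree ≤ T.natDegree := by
        intro T
        rw [natDegree_le_iff_coeff_eq_zero]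
        intro N hN
        cases N with
        | zero => simp
        | succ N =>
          rw [coeff_X_mul, coeff_derivative, coeff_eq_zero_of_natDegree_lt hN, zero_mul]
      have hc : ∀ T : ℂ[X], (X * derivative T).coeff T.natDegree =
          T.natDegree * T.leadingCoeff := by
        intro T
        cases hT : T.natDegree with
        | zero => simp
        | succ N =>
          rw [coeff_X_mul, coeff_derivative, leadingCoeff, hT]
          push_cast
          ring
      have h3 := congrArg (fun T => T.coeff (R.natDegree + Q.natDegree)) h2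
      beta_reduce at h3
      rw [coeff_mul_add_eq_of_natDegree_le (hd R) le_rfl,
        coeff_mul_add_eq_of_natDegree_le le_rfl (hd Q), hc, hc] at h3
      have h4 : (R.natDegree : ℂ) * (R.leadingCoeff * Q.leadingCoeff) =
          Q.natDegree * (R.leadingCoeff * Q.leadingCoeff) := by
        have e1 : Q.coeff Q.natDegree = Q.leadingCoeff := rfl
        have e2 : R.coeff R.natDegree = R.leadingCoeff := rfl
        rw [e1, e2] at h3
        linear_combination h3
      have h5 : R.leadingCoeff * Q.leadingCoeff ≠ 0 :=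
        mul_ne_zero (leadingCoeff_ne_zero.2 hR0) (leadingCoeff_ne_zero.2 hQ)
      exact_mod_cast mul_right_cancel₀ h5 h4
  refine ⟨P.coeff Q.natDegree / Q.leadingCoeff, ?_⟩
  set c := P.coeff Q.natDegree / Q.leadingCoeff with hc
  by_contra hne
  have hR0 : P - c • Q ≠ 0 := sub_ne_zero.2 hne
  have hR : derivative (P - c • Q) * Q = (P - c • Q) * derivative Q := by
    rw [derivative_sub, derivative_smul, sub_mul, sub_mul, h, smul_mul_assoc, smul_mul_assoc,
      mul_comm (derivative Q) Q]
  have hdeg := key _ hR hR0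
  have hco : (P - c • Q).coeff Q.natDegree = 0 := by
    rw [coeff_sub, coeff_smul, smul_eq_mul, hc]
    have : Q.coeff Q.natDegree = Q.leadingCoeff := rfl
    rw [this, div_mul_cancel₀ _ (leadingCoeff_ne_zero.2 hQ), sub_self]
  rw [← hdeg] at hco
  exact hR0 (leadingCoeff_eq_zero.1 hco)

/-- At a general point no nonzero element of a space of dimension `N` vanishes to order `N`. -/
private theorem utr_order : ∀ (N : ℕ) (V : Submodule ℂ ℂ[X]) [FiniteDimensional ℂ V],
    Module.finrank ℂ V ≤ N → ∃ B : Finset ℂ, ∀ p, p ∉ B → ∀ P ∈ V, (X - C p) ^ N ∣ P → P = 0 := by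
  intro N
  induction N with
  | zero =>
    intro V _ hV
    refine ⟨∅, fun p _ P hP _ => ?_⟩
    have h1 : V = ⊥ := Submodule.finrank_eq_zero.1 (Nat.le_zero.1 hV)
    rw [h1] at hP
    exact (Submodule.mem_bot ℂ).1 hP
  | succ N ih =>
    intro V _ hV
    by_cases hb : V = ⊥
    · refine ⟨∅, fun p _ P hP _ => ?_⟩
      rw [hb] at hP
      exact (Submodule.mem_bot ℂ).1 hP
    · obtain ⟨Q, hQV, hQ0⟩ := Submodule.exists_mem_ne_zero_of_ne_bot hb
      let L : ℂ[X] →ₗ[ℂ] ℂ[X] :=
        { toFun := fun P => derivative P * Q - P * derivative Q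
          map_add' := fun P R => by rw [derivative_add]; ring
          map_smul' := fun c P => by
            rw [derivative_smul, RingHom.id_apply, smul_mul_assoc, smul_mul_assoc, smul_sub] }
      let LV : V →ₗ[ℂ] ℂ[X] := L.domRestrict V
      have hr : Module.finrank ℂ (LinearMap.range LV) ≤ N := by
        have h1 := LinearMap.finrank_range_add_finrank_ker LV
        have h2 : 0 < Module.finrank ℂ (LinearMap.ker LV) := by
          have hk : (⟨Q, hQV⟩ : V) ∈ LinearMap.ker LV := by
            rw [LinearMap.mem_ker]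
            change derivative Q * Q - Q * derivative Q = 0
            ring
          have hnt : Nontrivial (LinearMap.ker LV) := by
            refine ⟨⟨⟨⟨Q, hQV⟩, hk⟩, 0, fun h3 => hQ0 ?_⟩⟩
            exact congrArg (fun t : LinearMap.ker LV => ((t : V) : ℂ[X])) h3
          exact Module.finrank_pos (R := ℂ) (M := LinearMap.ker LV)
        omega
      obtain ⟨B, hB⟩ := ih (LinearMap.range LV) hr
      classical
      refine ⟨B ∪ Q.roots.toFinset, fun p hp P hP hdvd => ?_⟩
      rw [mem_union, not_or] at hp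
      have hQp : ¬ (X - C p) ∣ Q := by
        intro h1
        apply hp.2
        rw [Multiset.mem_toFinset, mem_roots hQ0]
        exact dvd_iff_isRoot.1 h1
      have h1 : derivative P * Q - P * derivative Q = 0 := by
        refine hB p hp.1 _ ⟨⟨P, hP⟩, rfl⟩ ?_
        refine dvd_sub ?_ ?_
        · refine Dvd.dvd.mul_right ?_ _
          obtain ⟨T, hT⟩ := hdvd
          rw [hT, derivative_mul, derivative_pow]
          refine dvd_add ?_ ?_
          · refine Dvd.dvd.mul_right ?_ _
            refine Dvd.dvd.mul_right ?_ _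
            refine Dvd.dvd.mul_left ?_ _
            rw [Nat.add_sub_cancel]
          · exact Dvd.dvd.mul_right (pow_dvd_pow _ (Nat.le_succ N)) _
        · exact Dvd.dvd.mul_right (dvd_trans (pow_dvd_pow _ (Nat.le_succ N)) hdvd) _
      obtain ⟨c, hc⟩ := utr_prop hQ0 (sub_eq_zero.1 h1)
      by_cases hc0 : c = 0
      · rw [hc, hc0, zero_smul]
      · exfalso
        apply hQp
        have h2 : (X - C p) ∣ c • Q := by
          rw [← hc]
          exact dvd_trans (dvd_pow_self _ (Nat.succ_ne_zero N)) hdvd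
        rw [smul_eq_C_mul] at h2
        exact ((isUnit_C.2 (isUnit_iff_ne_zero.2 hc0)).dvd_mul_left).1 h2

private theorem utr_dvd {p : ℂ} {P : ℂ[X]} {m : ℕ}
    (h : ∀ i < m, (taylor p P).coeff i = 0) : (X - C p) ^ m ∣ P := by
  have h1 : X ^ m ∣ taylor p P := X_pow_dvd_iff.2 h
  obtain ⟨T, hT⟩ := h1
  refine ⟨taylor (-p) T, ?_⟩
  have h2 : taylor (-p) (taylor p P) = P := by
    rw [taylor_taylor, neg_add_cancel, taylor_zero]
  rw [← h2, hT, taylor_mul, taylor_pow, taylor_X, C_neg]
  ring

/-- One point. -/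
private theorem utr_point (V : Submodule ℂ ℂ[X]) [FiniteDimensional ℂ V] (m : ℕ) :
    ∃ p : ℂ, ∀ V' : Submodule ℂ ℂ[X], V' ≤ V →
      (∀ P ∈ V', ∀ i < m, (taylor p P).coeff i = 0) →
      Module.finrank ℂ V' ≤ Module.finrank ℂ V - m := by
  obtain ⟨B, hB⟩ := utr_order (Module.finrank ℂ V) V le_rfl
  obtain ⟨p, hp⟩ := Infinite.exists_notMem_finset B
  refine ⟨p, fun V' hV' hv => ?_⟩
  -- the remaining Taylor coefficients
  let L : V' →ₗ[ℂ] (Fin (Module.finrank ℂ V - m) → ℂ) :=
    { toFun := fun P i => (taylor p P.1).coeff (m + i)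
      map_add' := fun P R => by
        funext i
        simp
      map_smul' := fun c P => by
        funext i
        simp }
  have hinj : Function.Injective L := by
    rw [← LinearMap.ker_eq_bot, LinearMap.ker_eq_bot']
    intro P hP
    apply Subtype.ext
    refine hB p hp P.1 (hV' P.2) (utr_dvd fun i hi => ?_)
    by_cases him : i < m
    · exact hv P.1 P.2 i him
    · have h1 := congrFun hP ⟨i - m, by omega⟩
      have h2 : m + (i - m) = i := by omega
      change (taylor p P.1).coeff (m + (i - m)) = 0 at h1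
      rwa [h2] at h1
  have h2 := LinearMap.finrank_le_finrank_of_injective hinj
  simpa using h2

/-- The elements of `V` vanishing to order `m` at `p`. -/
private noncomputable def utr_sub (V : Submodule ℂ ℂ[X]) (p : ℂ) (m : ℕ) : Submodule ℂ ℂ[X] where
  carrier := {P | P ∈ V ∧ ∀ i < m, (taylor p P).coeff i = 0}
  add_mem' := by
    rintro P R ⟨h1, h2⟩ ⟨h3, h4⟩
    refine ⟨V.add_mem h1 h3, fun i hi => ?_⟩
    rw [map_add, coeff_add, h2 i hi, h4 i hi, add_zero]
  zero_mem' := ⟨V.zero_mem, fun i _ => by rw [map_zero, coeff_zero]⟩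
  smul_mem' := by
    rintro c P ⟨h1, h2⟩
    refine ⟨V.smul_mem c h1, fun i hi => ?_⟩
    rw [map_smul, coeff_smul, h2 i hi, smul_zero]

/-- Several points. -/
private theorem utr_multi (S : Multiset ℕ) : ∀ (V : Submodule ℂ ℂ[X]) [FiniteDimensional ℂ V],
    Module.finrank ℂ V ≤ S.sum →
    ∃ (k : ℕ) (s : Fin k → ℕ), (univ : Finset (Fin k)).val.map s = S ∧ ∃ pos : Fin k → ℂ,
      ∀ P ∈ V, (∀ i, ∀ b < s i, (taylor (pos i) P).coeff b = 0) → P = 0 := by
  induction S using Multiset.induction with
  | empty =>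
    intro V _ hV
    refine ⟨0, fun i => i.elim0, by simp, fun i => i.elim0, fun P hP _ => ?_⟩
    have h1 : V = ⊥ := Submodule.finrank_eq_zero.1 (Nat.le_zero.1 (by simpa using hV))
    rw [h1] at hP
    exact (Submodule.mem_bot ℂ).1 hP
  | cons m S ih =>
    intro V _ hV
    obtain ⟨p, hp⟩ := utr_point V m
    have hle : utr_sub V p m ≤ V := fun P hP => hP.1
    have : FiniteDimensional ℂ (utr_sub V p m) := Submodule.finiteDimensional_of_le hle
    have h1 := hp (utr_sub V p m) hle (fun P hP => hP.2)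
    rw [Multiset.sum_cons] at hV
    obtain ⟨k, s, hs, pos, hpos⟩ := ih (utr_sub V p m) (by omega)
    refine ⟨k + 1, Fin.cons m s, ?_, Fin.cons p pos, fun P hP h => ?_⟩
    · rw [Fin.univ_succ, Finset.cons_val, Multiset.map_cons, Finset.map_val, Multiset.map_map,
        Fin.cons_zero, ← hs]
      congr 1
    · refine hpos P ⟨hP, ?_⟩ fun i b hb => ?_
      · intro i hi
        have := h 0 i
        rw [Fin.cons_zero, Fin.cons_zero] at this
        exact this hi
      · have := h i.succ b
        rw [Fin.cons_succ, Fin.cons_succ] at this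
        exact this hb

end

/-! ### Restriction to `x_0 = 0` -/

section

variable {n : ℕ}

/-- Substitute `x_0 = 0`. -/
private noncomputable def utr_psi (n : ℕ) :
    MvPolynomial (Fin (n + 1)) ℂ →ₐ[ℂ] MvPolynomial (Fin n) ℂ :=
  MvPolynomial.aeval (Fin.cons 0 MvPolynomial.X : Fin (n + 1) → MvPolynomial (Fin n) ℂ)

private theorem utr_psi_coeff (G : MvPolynomial (Fin (n + 1)) ℂ) (β : Fin n → ℕ) :
    (utr_psi n G).coeff (Finsupp.equivFunOnFinite.symm β) =
      G.coeff (Finsupp.equivFunOnFinite.symm (Fin.cons 0 β)) := by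
  induction G using MvPolynomial.induction_on' with
  | monomial a c =>
    unfold utr_psi
    rw [MvPolynomial.aeval_monomial, MvPolynomial.algebraMap_eq, MvPolynomial.coeff_C_mul,
      Finsupp.prod_fintype _ _ (by intro i; simp), Fin.prod_univ_succ, Fin.cons_zero,
      MvPolynomial.coeff_monomial]
    simp only [Fin.cons_succ]
    by_cases ha : a 0 = 0
    · rw [ha, pow_zero, one_mul]
      have h1 : (∏ j : Fin n, (MvPolynomial.X j : MvPolynomial (Fin n) ℂ) ^ a j.succ) =
          MvPolynomial.monomial (Finsupp.equivFunOnFinite.symm fun j => a j.succ) 1 := by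
        rw [MvPolynomial.monomial_eq, MvPolynomial.C_1, one_mul,
          Finsupp.prod_fintype _ _ (by intro i; simp)]
        rfl
      rw [h1, MvPolynomial.coeff_monomial]
      by_cases h2 : (fun j : Fin n => a j.succ) = β
      · have h3 : a = Finsupp.equivFunOnFinite.symm (Fin.cons 0 β) := by
          ext j
          refine Fin.cases ?_ (fun j => ?_) j
          · simpa using ha
          · simpa using congrFun h2 j
        rw [if_pos (by rw [h2]), if_pos h3, mul_one]
      · have h3 : ¬ a = Finsupp.equivFunOnFinite.symm (Fin.cons 0 β) := by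
          intro h3
          apply h2
          funext j
          rw [h3]
          simp
        rw [if_neg (fun h4 => h2 (Finsupp.equivFunOnFinite.symm.injective h4)), if_neg h3,
          mul_zero]
    · have h3 : ¬ a = Finsupp.equivFunOnFinite.symm (Fin.cons 0 β) := by
        intro h3
        apply ha
        rw [h3]
        simp
      rw [zero_pow ha, zero_mul, MvPolynomial.coeff_zero, mul_zero, if_neg h3]
  | add P Q hP hQ => rw [map_add, MvPolynomial.coeff_add, hP, hQ, MvPolynomial.coeff_add]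

private theorem utr_psi_tay (F : MvPolynomial (Fin (n + 1)) ℂ) (q : Fin n → ℂ) (β : Fin n → ℕ) :
    tay (utr_psi n F) q β = tay F (Fin.cons 0 q) (Fin.cons 0 β) := by
  have h : (trl q).comp (utr_psi n) = (utr_psi n).comp (trl (Fin.cons 0 q : Fin (n + 1) → ℂ)) := by
    apply MvPolynomial.algHom_ext
    intro i
    refine Fin.cases ?_ (fun i => ?_) i
    · simp [utr_psi, trl]
    · simp [utr_psi, trl]
  rw [tay, tay, ← utr_psi_coeff, ← AlgHom.comp_apply, h]
  rfl

private theorem utr_psi_zero (F : MvPolynomial (Fin (n + 1)) ℂ) (h0 : F.degreeOf 0 = 0)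
    (h : utr_psi n F = 0) : F = 0 := by
  ext a
  rw [MvPolynomial.coeff_zero]
  by_cases ha : a 0 = 0
  · have h1 : a = Finsupp.equivFunOnFinite.symm (Fin.cons 0 (fun j : Fin n => a j.succ)) := by
      ext j
      refine Fin.cases ?_ (fun j => ?_) j
      · simpa using ha
      · simp
    rw [h1, ← utr_psi_coeff, h, MvPolynomial.coeff_zero]
  · by_contra hc
    apply ha
    have h2 : a 0 ≤ F.degreeOf 0 := MvPolynomial.monomial_le_degreeOf 0
      (MvPolynomial.mem_support_iff.2 hc)
    omega

private theorem utr_psi_deg (F : MvPolynomial (Fin (n + 1)) ℂ) :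
    (utr_psi n F).totalDegree ≤ F.totalDegree := by
  rw [MvPolynomial.totalDegree]
  refine Finset.sup_le fun b hb => ?_
  have h1 : b = Finsupp.equivFunOnFinite.symm ⇑b := by
    ext j; simp
  rw [h1, MvPolynomial.mem_support_iff, utr_psi_coeff, ← MvPolynomial.mem_support_iff] at hb
  have h2 := MvPolynomial.le_totalDegree hb
  refine le_trans (le_of_eq ?_) h2
  rw [Finsupp.sum_fintype _ _ (fun _ => rfl), Finsupp.sum_fintype _ _ (fun _ => rfl),
    Fin.sum_univ_succ]
  simp

/-- Transfer of the free points. -/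
private theorem utr_transfer (U : Submodule ℂ (MvPolynomial (Fin (n + 1)) ℂ))
    (U' : Submodule ℂ (MvPolynomial (Fin n) ℂ)) (h0 : ∀ F ∈ U, F.degreeOf 0 = 0)
    (hU : ∀ F ∈ U, utr_psi n F ∈ U') {S : Multiset ℕ} (h : Fk U' S) : Fk U S := by
  obtain ⟨k, s, hs, pos, hpos⟩ := h
  refine ⟨k, s, hs, fun i => Fin.cons 0 (pos i), fun F hF hv => ?_⟩
  refine utr_psi_zero F (h0 F hF) (hpos _ (hU F hF) fun i β hβ => ?_)
  rw [utr_psi_tay]
  refine hv i _ ?_
  rw [Fin.sum_univ_succ, Fin.cons_zero, zero_add]
  simpa using hβ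

end

/-! ### One variable -/

/-- The polynomial in one variable. -/
private noncomputable def utr_chi : MvPolynomial (Fin 1) ℂ →ₐ[ℂ] Polynomial ℂ :=
  MvPolynomial.aeval (fun _ => Polynomial.X)

private theorem utr_chi_coeff (G : MvPolynomial (Fin 1) ℂ) (b : ℕ) :
    (utr_chi G).coeff b = G.coeff (Finsupp.equivFunOnFinite.symm fun _ => b) := by
  induction G using MvPolynomial.induction_on' with
  | monomial a c =>
    unfold utr_chi
    rw [MvPolynomial.aeval_monomial, Polynomial.algebraMap_eq, Polynomial.coeff_C_mul,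
      Finsupp.prod_fintype _ _ (by intro i; simp), Fin.prod_univ_one,
      MvPolynomial.coeff_monomial, Polynomial.coeff_X_pow]
    by_cases h : b = a 0
    · have h1 : a = Finsupp.equivFunOnFinite.symm fun _ : Fin 1 => b := by
        refine Finsupp.ext fun j => ?_
        rw [Subsingleton.elim j 0]
        simp [h]
      rw [if_pos h, if_pos h1, mul_one]
    · have h1 : ¬ a = Finsupp.equivFunOnFinite.symm fun _ : Fin 1 => b := by
        intro h1
        apply h
        rw [h1]
        simp
      rw [if_neg h, if_neg h1, mul_zero]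
  | add P Q hP hQ => rw [map_add, Polynomial.coeff_add, hP, hQ, MvPolynomial.coeff_add]

private theorem utr_chi_tay (F : MvPolynomial (Fin 1) ℂ) (p : ℂ) (b : ℕ) :
    (Polynomial.taylor p (utr_chi F)).coeff b = tay F (fun _ => p) (fun _ => b) := by
  have h : (Polynomial.taylorAlgHom p).comp (utr_chi) =
      ((utr_chi).comp (trl (fun _ : Fin 1 => p)) : MvPolynomial (Fin 1) ℂ →ₐ[ℂ] Polynomial ℂ) := by
    apply MvPolynomial.algHom_ext
    intro i
    simp [utr_chi, trl]
  rw [tay, ← utr_chi_coeff]
  have h2 := DFunLike.congr_fun h F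
  rw [AlgHom.comp_apply, AlgHom.comp_apply] at h2
  rw [← h2]
  rfl

private theorem utr_chi_zero (F : MvPolynomial (Fin 1) ℂ) (h : utr_chi F = 0) : F = 0 := by
  ext a
  have h1 : a = Finsupp.equivFunOnFinite.symm fun _ : Fin 1 => a 0 := by
    refine Finsupp.ext fun j => ?_
    rw [Subsingleton.elim j 0]
    simp
  rw [h1, ← utr_chi_coeff, h]
  simp

private theorem utr_fk (U : Submodule ℂ (MvPolynomial (Fin 1) ℂ)) (V : Submodule ℂ (Polynomial ℂ))
    [FiniteDimensional ℂ V] (hUV : ∀ F ∈ U, utr_chi F ∈ V) (S : Multiset ℕ)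
    (h : Module.finrank ℂ V ≤ S.sum) : Fk U S := by
  obtain ⟨k, s, hs, pos, hpos⟩ := utr_multi S V h
  refine ⟨k, s, hs, fun i _ => pos i, fun F hF hv => ?_⟩
  refine utr_chi_zero F (hpos _ (hUV F hF) fun i b hb => ?_)
  rw [utr_chi_tay]
  exact hv i _ (by simpa using hb)

private theorem utr_ell_one (S : Multiset ℕ) : (S.map (ell 1)).sum = S.sum := by
  have h1 : S.map (ell 1) = S := by
    conv_rhs => rw [← Multiset.map_id S]
    exact Multiset.map_congr rfl fun m _ => by simp [ell]
  rw [h1]

private theorem utr_trace_degreeOf {n : ℕ} (A : Fam n) (δ : ℕ) (v : ℂ)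
    (F : MvPolynomial (Fin (n + 1)) ℂ) (hF : F ∈ (A.W δ).map (sub1 0 v).toLinearMap) :
    F.degreeOf 0 = 0 := by
  obtain ⟨G, -, rfl⟩ := hF
  rw [← Nat.le_zero, MvPolynomial.degreeOf_le_iff]
  intro a ha
  by_contra hc
  have hi : (0 : Fin (n + 1)) ∈ (sub1 0 v G).vars :=
    (MvPolynomial.mem_vars_iff_mem_support _).2 ⟨a, ha, Finsupp.mem_support_iff.2 fun h => hc (by omega)⟩
  have h1 : sub1 0 v G = MvPolynomial.bind₁ (Function.update
    (MvPolynomial.X : Fin (n + 1) → MvPolynomial (Fin (n + 1)) ℂ) 0 (MvPolynomial.C v)) G := rfl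
  rw [h1] at hi
  have h2 := MvPolynomial.vars_bind₁ _ _ hi
  rw [mem_biUnion] at h2
  obtain ⟨k, hk, hik⟩ := h2
  by_cases hkj : k = 0
  · subst hkj
    rw [Function.update_self, MvPolynomial.vars_C] at hik
    exact absurd hik (notMem_empty _)
  · rw [Function.update_of_ne hkj, MvPolynomial.vars_X, mem_singleton] at hik
    exact hkj hik.symm

private theorem utr_sub1_deg {n : ℕ} (v : ℂ) (F : MvPolynomial (Fin (n + 1)) ℂ) :
    (sub1 0 v F).totalDegree ≤ F.totalDegree := by
  have hf : ∀ i, (Function.update (MvPolynomial.X : Fin (n + 1) → MvPolynomial (Fin (n + 1)) ℂ) 0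
      (MvPolynomial.C v) i).totalDegree ≤ 1 := by
    intro i
    by_cases hi : i = 0
    · subst hi
      rw [Function.update_self, MvPolynomial.totalDegree_C]
      omega
    · rw [Function.update_of_ne hi, MvPolynomial.totalDegree_X]
  unfold sub1
  rw [MvPolynomial.aeval_def, MvPolynomial.eval₂_eq']
  refine (MvPolynomial.totalDegree_finsetSum _ _).trans (Finset.sup_le fun a ha => ?_)
  refine (MvPolynomial.totalDegree_mul _ _).trans ?_
  rw [MvPolynomial.algebraMap_eq, MvPolynomial.totalDegree_C, zero_add]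
  refine (MvPolynomial.totalDegree_finsetProd _ _).trans ?_
  refine le_trans ?_ (MvPolynomial.le_totalDegree ha)
  rw [Finsupp.sum_fintype _ _ (fun _ => rfl)]
  refine sum_le_sum fun i _ => ?_
  refine (MvPolynomial.totalDegree_pow _ _).trans ?_
  calc a i * _ ≤ a i * 1 := Nat.mul_le_mul_left _ (hf i)
    _ = a i := mul_one _

/-- Complete traces: the trace is contained in the polynomials of degree at most `δ` in
`x_1, …, x_n` (transfer the positions with `Fin.cons 0`). -/
theorem trex_full {n : ℕ} (A : Fam n) (M δ : ℕ)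
    (h : A.h (δ - 1) + (δ + n).choose n ≤ A.h δ) (hA : AHx n M δ) : TrEx A M δ := by
  intro v hv S hS hlen
  refine utr_transfer _ (MvPolynomial.restrictTotalDegree (Fin n) ℂ δ) (utr_trace_degreeOf A δ v)
    ?_ (hA S hS (by omega))
  rintro F ⟨G, hG, rfl⟩
  rw [MvPolynomial.mem_restrictTotalDegree]
  exact (utr_psi_deg _).trans ((utr_sub1_deg v G).trans (A.deg δ G hG))

/-- One variable: a nonzero polynomial of degree at most `δ` has at most `δ` zeros. -/
theorem ahx_one (M δ : ℕ) : AHx 1 M δ := by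
  intro S _ hlen
  rw [utr_ell_one, Nat.choose_one_right] at hlen
  have : FiniteDimensional ℂ (Polynomial.degreeLT ℂ (δ + 1)) :=
    Module.Finite.equiv (Polynomial.degreeLTEquiv ℂ (δ + 1)).symm
  refine utr_fk _ (Polynomial.degreeLT ℂ (δ + 1)) (fun F hF => ?_) S ?_
  · rw [MvPolynomial.mem_restrictTotalDegree] at hF
    rw [Polynomial.mem_degreeLT, Polynomial.degree_lt_iff_coeff_zero]
    intro m hm
    rw [utr_chi_coeff]
    by_contra hc
    have h1 := MvPolynomial.le_totalDegree (MvPolynomial.mem_support_iff.2 hc)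
    rw [Finsupp.sum_fintype _ _ (fun _ => rfl), Fin.sum_univ_one] at h1
    simp at h1
    omega
  · rw [LinearEquiv.finrank_eq (Polynomial.degreeLTEquiv ℂ (δ + 1))]
    simpa using hlen

end Pool.Agent.H18.Ua

end
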