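import Pool.Agent.H94.LP3.H74.CT.Slow_1
import Pool.Agent.H94.LP3.H74.KV.Pos
import Pool.Agent.H94.LP3.M26

/-! The parts of this file: H74.KV.Inv, H74.KV.Inv2, H74.KV.Reidx. -/

section

/-!
# Dependent conditions stay dependent: derivatives and inverse systems

If the fat points `m_i p_i` do not impose independent conditions on the forms of degree `d`, then the
fat points `(m_i + t) p_i` fail by at least the number of forms of degree `t` to impose independent
conditions on the forms of degree `d + t`.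
-/

namespace Pool.Agent.H74.KV

open MvPolynomial Pool.Agent.H18.Fat Pool.Agent.H18.Ub Pool.Agent.H22.LU Pool.Agent.H74.CT

variable {n : ℕ}

/-- The numbers `∏ j, α j (α j - 1) ⋯ (α j - γ j + 1)`. -/
def wt (α γ : Fin n →₀ ℕ) : ℕ := ∏ j, (α j).descFactorial (γ j)

/-- The numbers `∏ j, (α j)!`. -/
def fct (α : Fin n →₀ ℕ) : ℕ := ∏ j, (α j).factorial

theorem fct_pos (α : Fin n →₀ ℕ) : 0 < fct α := Finset.prod_pos fun j _ => (α j).factorial_pos

theorem fct_add (γ β : Fin n →₀ ℕ) : fct β * wt (γ + β) γ = fct (γ + β) := by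
  unfold fct wt
  rw [← Finset.prod_mul_distrib]
  refine Finset.prod_congr rfl fun j _ => ?_
  have h := Nat.factorial_mul_descFactorial (n := (γ + β) j) (k := γ j) (by simp)
  have h2 : (γ + β) j - γ j = β j := by simp
  rwa [h2] at h

/-- The derivative `∂^γ`. -/
noncomputable def DD (γ : Fin n →₀ ℕ) : MvPolynomial (Fin n) ℂ →ₗ[ℂ] MvPolynomial (Fin n) ℂ :=
  (basisMonomials (Fin n) ℂ).constr ℂ fun α => monomial (α - γ) (wt α γ : ℂ)

theorem DD_monomial (γ α : Fin n →₀ ℕ) (c : ℂ) :
    DD γ (monomial α c) = monomial (α - γ) (c * wt α γ) := by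
  have h1 : monomial α c = c • basisMonomials (Fin n) ℂ α := by
    rw [coe_basisMonomials, smul_monomial, smul_eq_mul, mul_one]
  rw [h1, map_smul]
  unfold DD
  rw [Module.Basis.constr_basis, smul_monomial, smul_eq_mul]

theorem coeff_shift_DD (γ β : Fin n →₀ ℕ) (q : Fin n → ℂ) (F : MvPolynomial (Fin n) ℂ) :
    coeff β (shift q (DD γ F)) = wt (γ + β) γ * coeff (γ + β) (shift q F) := by
  induction F using MvPolynomial.induction_on' with
  | monomial α c =>
    rw [DD_monomial, coeff_shift_monomial, coeff_shift_monomial]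
    have h : (wt α γ : ℂ) * tc q (α - γ) β = wt (γ + β) γ * tc q α (γ + β) := by
      unfold wt tc
      rw [Nat.cast_prod, Nat.cast_prod, ← Finset.prod_mul_distrib, ← Finset.prod_mul_distrib]
      refine Finset.prod_congr rfl fun j _ => ?_
      have h1 : (α - γ) j = α j - γ j := rfl
      have h2 : (γ + β) j = γ j + β j := rfl
      have h3 : α j - γ j - β j = α j - (γ j + β j) := Nat.sub_sub _ _ _
      rw [h1, h2, h3, ← mul_assoc, ← mul_assoc]
      congr 1
      have h4 := Nat.choose_mul (n := α j) (k := γ j + β j) (s := γ j) (Nat.le_add_right _ _)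
      rw [Nat.add_sub_cancel_left] at h4
      have h5 : (α j).descFactorial (γ j) * (α j - γ j).choose (β j) =
          (γ j + β j).descFactorial (γ j) * (α j).choose (γ j + β j) := by
        rw [Nat.descFactorial_eq_factorial_mul_choose, Nat.descFactorial_eq_factorial_mul_choose,
          mul_assoc, mul_assoc, ← h4]
        ring
      exact_mod_cast h5
    rw [mul_assoc, h]
    ring
  | add p q' hp hq =>
    unfold shift at *
    rw [map_add, map_add, coeff_add, hp, hq, map_add, coeff_add]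
    ring

theorem DD_vanish {γ : Fin n →₀ ℕ} {q : Fin n → ℂ} {F : MvPolynomial (Fin n) ℂ} {m : ℕ}
    (h : VanishesToOrder F q (m + γ.degree)) : VanishesToOrder (DD γ F) q m := by
  intro β hβ
  rw [coeff_shift_DD, h (γ + β) (by
    rw [map_add]
    omega), mul_zero]

theorem wt_eq_zero {α γ : Fin n →₀ ℕ} (h : ¬ γ ≤ α) : wt α γ = 0 := by
  rw [Finsupp.le_def] at h
  push Not at h
  obtain ⟨j, hj⟩ := h
  exact Finset.prod_eq_zero (Finset.mem_univ j) (Nat.descFactorial_of_lt hj)

theorem DD_hom {γ : Fin n →₀ ℕ} {F : MvPolynomial (Fin n) ℂ} {d t : ℕ} (hγ : γ.degree = t)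
    (h : F.IsHomogeneous (d + t)) : (DD γ F).IsHomogeneous d := by
  rw [F.as_sum, map_sum]
  refine IsHomogeneous.sum _ _ _ fun α hα => ?_
  rw [DD_monomial]
  by_cases hle : γ ≤ α
  · refine isHomogeneous_monomial _ ?_
    have h1 : α.degree = d + t := by
      have := h (mem_support_iff.1 hα)
      rw [Finsupp.degree_eq_weight_one]
      exact this
    have h2 : (α - γ + γ).degree = α.degree := by rw [tsub_add_cancel_of_le hle]
    rw [map_add] at h2
    omega
  · rw [wt_eq_zero hle, Nat.cast_zero, mul_zero, monomial_zero]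
    exact isHomogeneous_zero _ _ _

/-- A functional, as a form. -/
noncomputable def dualForm (d : ℕ) (L : MvPolynomial (Fin n) ℂ →ₗ[ℂ] ℂ) :
    MvPolynomial (Fin n) ℂ :=
  toPoly n d fun β => L (monomial β.1 1) / fct β.1

theorem dualForm_eq_zero {d : ℕ} {L : MvPolynomial (Fin n) ℂ →ₗ[ℂ] ℂ} (h : dualForm d L = 0)
    {F : MvPolynomial (Fin n) ℂ} (hF : F.IsHomogeneous d) : L F = 0 := by
  have h1 : (fun β : mons n d => L (monomial β.1 1) / (fct β.1 : ℂ)) = 0 := by
    apply toPoly_injective n d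
    rw [map_zero]
    exact h
  rw [← exists_toPoly hF, toPoly_apply, map_sum]
  refine Finset.sum_eq_zero fun β _ => ?_
  have h2 := congrFun h1 β
  have h3 : (fct β.1 : ℂ) ≠ 0 := by
    have := fct_pos β.1
    exact_mod_cast this.ne'
  have h4 : L (monomial β.1 1) = 0 := by
    rcases div_eq_zero_iff.1 h2 with h5 | h5
    · exact h5
    · exact absurd h5 h3
  have h5 : (monomial β.1 (coeff β.1 F) : MvPolynomial (Fin n) ℂ) =
      coeff β.1 F • monomial β.1 1 := by
    rw [smul_monomial, smul_eq_mul, mul_one]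
  rw [h5, map_smul, h4, smul_zero]

theorem apply_DD {d t : ℕ} (L : MvPolynomial (Fin n) ℂ →ₗ[ℂ] ℂ) (g : mons n t → ℂ)
    {α : Fin n →₀ ℕ} (hα : α.degree = d + t) :
    ∑ γ : mons n t, g γ * L (DD γ.1 (monomial α 1)) =
      fct α * coeff α (toPoly n t g * dualForm d L) := by
  classical
  rw [coeff_mul]
  have h1 : ∀ γ : mons n t, g γ * L (DD γ.1 (monomial α 1)) =
      if γ.1 ≤ α then g γ * (wt α γ.1 * L (monomial (α - γ.1) 1)) else 0 := by
    intro γ
    rw [DD_monomial, one_mul]
    split_ifs with h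
    · have h5 : (monomial (α - γ.1) (wt α γ.1 : ℂ) : MvPolynomial (Fin n) ℂ) =
          (wt α γ.1 : ℂ) • monomial (α - γ.1) 1 := by
        rw [smul_monomial, smul_eq_mul, mul_one]
      rw [h5, map_smul, smul_eq_mul]
    · rw [wt_eq_zero h, Nat.cast_zero, monomial_zero, map_zero, mul_zero]
  rw [Finset.sum_congr rfl fun γ _ => h1 γ, ← Finset.sum_filter]
  rw [Finset.mul_sum]
  have hcoeff : ∀ γ : Fin n →₀ ℕ, (hγ : γ ∉ mons n t) → coeff γ (toPoly n t g) = 0 := by
    intro γ hγ
    rw [mem_mons] at hγ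
    exact (toPoly_isHomogeneous g).coeff_eq_zero hγ
  have h2 : ∑ x ∈ Finset.HasAntidiagonal.antidiagonal α, (fct α : ℂ) *
      (coeff x.1 (toPoly n t g) * coeff x.2 (dualForm d L)) =
      ∑ x ∈ (Finset.HasAntidiagonal.antidiagonal α).filter (fun x => x.1 ∈ mons n t), (fct α : ℂ) *
        (coeff x.1 (toPoly n t g) * coeff x.2 (dualForm d L)) := by
    rw [Finset.sum_filter_of_ne]
    intro x _ hx
    by_contra hcon
    apply hx
    rw [hcoeff _ hcon, zero_mul, mul_zero]
  rw [h2]
  refine Finset.sum_bij (fun γ _ => (γ.1, α - γ.1)) ?_ ?_ ?_ ?_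
  · intro γ hγ
    rw [Finset.mem_filter] at hγ ⊢
    refine ⟨?_, γ.2⟩
    rw [Finset.HasAntidiagonal.mem_antidiagonal]
    exact add_tsub_cancel_of_le hγ.2
  · intro γ _ γ' _ h
    exact Subtype.ext (congrArg Prod.fst h)
  · rintro ⟨γ, β⟩ hx
    rw [Finset.mem_filter, Finset.HasAntidiagonal.mem_antidiagonal] at hx
    obtain ⟨h3, h4⟩ := hx
    dsimp only at h3 h4
    refine ⟨⟨γ, h4⟩, ?_, ?_⟩
    · rw [Finset.mem_filter]
      refine ⟨Finset.mem_univ _, ?_⟩
      rw [← h3]
      exact le_self_add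
    · dsimp only
      rw [← h3, add_tsub_cancel_left]
  · intro γ hγ
    rw [Finset.mem_filter] at hγ
    have hβ : (α - γ.1).degree = d := by
      have h3 := mem_mons.1 γ.2
      have h4 : (α - γ.1 + γ.1).degree = α.degree := by rw [tsub_add_cancel_of_le hγ.2]
      rw [map_add] at h4
      omega
    have h3 := coeff_toPoly g γ
    have h4 : coeff (α - γ.1) (dualForm d L) =
        L (monomial (α - γ.1) 1) / fct (α - γ.1) := by
      unfold dualForm
      exact coeff_toPoly (fun β : mons n d => L (monomial β.1 1) / (fct β.1 : ℂ))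
        ⟨α - γ.1, mem_mons.2 hβ⟩
    dsimp only
    rw [h3, h4]
    have h5 := fct_add γ.1 (α - γ.1)
    rw [add_tsub_cancel_of_le hγ.2] at h5
    have h6 : (fct (α - γ.1) : ℂ) ≠ 0 := by
      have := fct_pos (α - γ.1)
      exact_mod_cast this.ne'
    rw [← h5]
    push_cast
    field_simp

/-- The forms killed by the derivatives of a nonzero functional. -/
theorem finrank_ker_DD {r d t : ℕ} {ι : Type*} (p : ι → Fin (r + 1) → ℂ)
    (L : MvPolynomial (Fin (r + 1)) ℂ →ₗ[ℂ] ℂ)
    (K : Submodule ℂ (MvPolynomial (Fin (r + 1)) ℂ)) (hK : K ≤ fatForms r (d + t) p fun _ => 0)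
    (hL : ∃ F : MvPolynomial (Fin (r + 1)) ℂ, F.IsHomogeneous d ∧ L F ≠ 0)
    (hKL : ∀ F ∈ K, ∀ γ ∈ mons (r + 1) t, L (DD γ F) = 0) :
    Module.finrank ℂ K + (t + r).choose r ≤ (d + t + r).choose r := by
  classical
  set H := fatForms r (d + t) p fun _ => 0 with hH
  have iH := fin_fatForms r (d + t) p fun _ => 0
  let Θ : H →ₗ[ℂ] (mons (r + 1) t → ℂ) :=
    { toFun := fun F γ => L (DD γ.1 F.1)
      map_add' := fun F G => by
        funext γ
        simp
      map_smul' := fun c F => by
        funext γ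
        simp }
  have hsurj : LinearMap.range Θ = ⊤ := by
    by_contra hne
    obtain ⟨f, hf1, hf2⟩ := Submodule.exists_le_ker_of_lt_top _ (lt_top_iff_ne_top.2 hne)
    set g : mons (r + 1) t → ℂ := fun γ => f (Pi.single γ 1) with hg
    have hfg : ∀ v : mons (r + 1) t → ℂ, f v = ∑ γ, g γ * v γ := by
      intro v
      conv_lhs => rw [pi_eq_sum_univ' v]
      rw [map_sum]
      refine Finset.sum_congr rfl fun γ _ => ?_
      rw [map_smul, smul_eq_mul, mul_comm]
    have hG : toPoly (r + 1) t g * dualForm d L = 0 := by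
      ext α
      rw [coeff_zero]
      by_cases hα : α.degree = d + t
      · have hmem : (monomial α 1 : MvPolynomial (Fin (r + 1)) ℂ) ∈ H :=
          ⟨isHomogeneous_monomial _ hα, fun i => vanishes_zero _ _⟩
        have h1 := hf2 (LinearMap.mem_range_self Θ ⟨_, hmem⟩)
        rw [LinearMap.mem_ker, hfg] at h1
        have h2 := apply_DD (d := d) L g hα
        have h3 : ∑ γ : mons (r + 1) t, g γ * L (DD γ.1 (monomial α 1)) = 0 := h1
        rw [h3] at h2
        have h4 : (fct α : ℂ) ≠ 0 := by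
          have := fct_pos α
          exact_mod_cast this.ne'
        rcases mul_eq_zero.1 h2.symm with h5 | h5
        · exact absurd h5 h4
        · exact h5
      · have h1 : (toPoly (r + 1) t g * dualForm d L).IsHomogeneous (t + d) :=
          (toPoly_isHomogeneous g).mul (toPoly_isHomogeneous _)
        exact h1.coeff_eq_zero (by omega)
    rcases mul_eq_zero.1 hG with h | h
    · apply hf1
      have hg0 : g = 0 := by
        apply toPoly_injective (r + 1) t
        rw [h, map_zero]
      ext v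
      rw [LinearMap.comp_apply, hfg, hg0]
      simp
    · obtain ⟨F, hF1, hF2⟩ := hL
      exact hF2 (dualForm_eq_zero h hF1)
  have h1 := LinearMap.finrank_range_add_finrank_ker Θ
  rw [hsurj, finrank_top, Module.finrank_fintype_fun_eq_card, Fintype.card_coe, card_mons,
    finrank_all] at h1
  have h2 : Module.finrank ℂ K ≤ Module.finrank ℂ (LinearMap.ker Θ) := by
    let g : K →ₗ[ℂ] LinearMap.ker Θ :=
      { toFun := fun F => ⟨⟨F.1, hK F.2⟩, by
          rw [LinearMap.mem_ker]
          funext γ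
          exact hKL _ F.2 _ γ.2⟩
        map_add' := fun F G => rfl
        map_smul' := fun c F => rfl }
    exact LinearMap.finrank_le_finrank_of_injective (f := g) fun F G h => by
      have h3 : (g F).1.1 = (g G).1.1 := by rw [h]
      exact Subtype.ext h3
  omega

end Pool.Agent.H74.KV

end

section

/-!
# Dependent conditions: the growth of the defect
-/

namespace Pool.Agent.H74.KV

open MvPolynomial Pool.Agent.H18.Fat Pool.Agent.H18.Ub Pool.Agent.H22.LU Pool.Agent.H74.CT

theorem fat_inf {r d : ℕ} {ι : Type*} (p : ι → Fin (r + 1) → ℂ) (b b' : ι → ℕ) :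
    fatForms r d p b ⊓ fatForms r d p b' = fatForms r d p fun i => max (b i) (b' i) := by
  ext F
  constructor
  · rintro ⟨h1, h2⟩
    refine ⟨h1.1, fun i => ?_⟩
    rcases le_total (b i) (b' i) with h | h
    · dsimp only
      rw [max_eq_right h]
      exact h2.2 i
    · dsimp only
      rw [max_eq_left h]
      exact h1.2 i
  · intro h
    exact ⟨⟨h.1, fun i => van_mono (h.2 i) (le_max_left _ _)⟩,
      ⟨h.1, fun i => van_mono (h.2 i) (le_max_right _ _)⟩⟩

theorem fat_ge {r d : ℕ} (hr : 1 ≤ r) {ι : Type*} [Fintype ι] (p : ι → Fin (r + 1) → ℂ)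
    (hp : ∀ i, p i 0 ≠ 0) (b : ι → ℕ) : (d + r).choose r ≤
      Module.finrank ℂ (fatForms r d p b) + ∑ i, (b i + r - 1).choose r := by
  have h := finrank_fatForms_ge (d := d) hr hp b
  have h2 : ((∑ i, (b i + r - 1).choose r : ℕ) : ℤ) = ∑ i, ((b i + r - 1).choose r : ℤ) := by
    push_cast
    rfl
  omega

theorem inv {r d t : ℕ} (hr : 1 ≤ r) {ι : Type*} [Fintype ι] (p : ι → Fin (r + 1) → ℂ)
    (hp : ∀ i, p i 0 ≠ 0) (m : ι → ℕ) (hm : ∀ i, m i ≤ d + 1)
    (hfail : (d + r).choose r <
      Module.finrank ℂ (fatForms r d p m) + ∑ i, (m i + r - 1).choose r) :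
    (d + t + r).choose r + (t + r).choose r ≤
      Module.finrank ℂ (fatForms r (d + t) p fun i => m i + t) +
        ∑ i, (m i + t + r - 1).choose r := by
  classical
  -- the first dependent point
  obtain ⟨S, i, hiS, hS, hi⟩ : ∃ (S : Finset ι) (i : ι), i ∉ S ∧
      (Module.finrank ℂ (fatForms r d p fun l => if l ∈ S then m l else 0) +
        ∑ l ∈ S, (m l + r - 1).choose r ≤ (d + r).choose r) ∧
      (d + r).choose r <
        Module.finrank ℂ (fatForms r d p fun l => if l ∈ insert i S then m l else 0) +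
        ∑ l ∈ insert i S, (m l + r - 1).choose r := by
    by_contra hcon
    push Not at hcon
    have key : ∀ S : Finset ι,
        Module.finrank ℂ (fatForms r d p fun l => if l ∈ S then m l else 0) +
          ∑ l ∈ S, (m l + r - 1).choose r ≤ (d + r).choose r := by
      intro S
      induction S using Finset.induction_on with
      | empty =>
        rw [Finset.sum_empty, Nat.add_zero]
        exact finrank_le_all _ _ _ _
      | insert i S hi ih => exact hcon S i hi ih
    have h1 := key Finset.univ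
    have h2 : (fun l => if l ∈ (Finset.univ : Finset ι) then m l else 0) = m := by
      funext l
      rw [if_pos (Finset.mem_univ l)]
    rw [h2] at h1
    omega
  set U := fatForms r d p fun l => if l = i then m i else 0 with hU
  set W := fatForms r d p fun l => if l ∈ S then m l else 0 with hW
  have iU : FiniteDimensional ℂ U := fin_fatForms _ _ _ _
  have iW : FiniteDimensional ℂ W := fin_fatForms _ _ _ _
  have hUW : U ⊓ W = fatForms r d p fun l => if l ∈ insert i S then m l else 0 := by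
    rw [hU, hW, fat_inf]
    congr 1
    funext l
    by_cases hl : l = i
    · subst hl
      rw [if_pos rfl, if_neg hiS, if_pos (Finset.mem_insert_self _ _)]
      exact max_eq_left (Nat.zero_le _)
    · rw [if_neg hl]
      by_cases hlS : l ∈ S
      · rw [if_pos hlS, if_pos (Finset.mem_insert_of_mem hlS)]
        exact max_eq_right (Nat.zero_le _)
      · rw [if_neg hlS, if_neg fun h => (Finset.mem_insert.1 h).elim hl hlS]
        rfl
  have e1 := Submodule.finrank_sup_add_finrank_inf_eq U W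
  rw [hUW] at e1
  have e2 := one_le' r d (m i) hr (hm i) p i (hp i)
  rw [← hU] at e2
  rw [Finset.sum_insert hiS] at hi
  set H := fatForms r d p fun _ => 0 with hH
  have iH : FiniteDimensional ℂ H := fin_fatForms _ _ _ _
  have e3 : Module.finrank ℂ H = (d + r).choose r := finrank_all r d p
  have hle : U ⊔ W ≤ H := sup_le (fun F hF => ⟨hF.1, fun l => vanishes_zero _ _⟩)
    fun F hF => ⟨hF.1, fun l => vanishes_zero _ _⟩
  obtain ⟨x, hxH, hx⟩ : ∃ x ∈ H, x ∉ U ⊔ W := by
    by_contra hcon
    push Not at hcon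
    have h1 := Submodule.finrank_mono (s := H) (t := U ⊔ W) fun F hF => hcon F hF
    omega
  obtain ⟨L, hL1, hL2⟩ := Submodule.exists_dual_map_eq_bot_of_notMem hx inferInstance
  have hL3 : ∀ F ∈ U ⊔ W, L F = 0 := by
    intro F hF
    have h1 : L F ∈ (U ⊔ W).map L := ⟨F, hF, rfl⟩
    rwa [hL2, Submodule.mem_bot] at h1
  -- the derivatives
  set U' := fatForms r (d + t) p fun l => if l = i then m i + t else 0 with hU'
  set W' := fatForms r (d + t) p fun l => if l ∈ S then m l + t else 0 with hW'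
  have iU' : FiniteDimensional ℂ U' := fin_fatForms _ _ _ _
  have iW' : FiniteDimensional ℂ W' := fin_fatForms _ _ _ _
  have hUW' : U' ⊓ W' = fatForms r (d + t) p fun l => if l ∈ insert i S then m l + t else 0 := by
    rw [hU', hW', fat_inf]
    congr 1
    funext l
    by_cases hl : l = i
    · subst hl
      rw [if_pos rfl, if_neg hiS, if_pos (Finset.mem_insert_self _ _)]
      exact max_eq_left (Nat.zero_le _)
    · rw [if_neg hl]
      by_cases hlS : l ∈ S
      · rw [if_pos hlS, if_pos (Finset.mem_insert_of_mem hlS)]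
        exact max_eq_right (Nat.zero_le _)
      · rw [if_neg hlS, if_neg fun h => (Finset.mem_insert.1 h).elim hl hlS]
        rfl
  have hDU : ∀ F ∈ U', ∀ γ ∈ mons (r + 1) t, DD γ F ∈ U := by
    intro F hF γ hγ
    refine ⟨DD_hom (mem_mons.1 hγ) hF.1, fun l => ?_⟩
    dsimp only
    split_ifs with hl
    · subst hl
      apply DD_vanish
      have h1 := hF.2 l
      dsimp only at h1
      rw [if_pos rfl] at h1
      rw [mem_mons.1 hγ]
      exact h1
    · exact vanishes_zero _ _
  have hDW : ∀ F ∈ W', ∀ γ ∈ mons (r + 1) t, DD γ F ∈ W := by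
    intro F hF γ hγ
    refine ⟨DD_hom (mem_mons.1 hγ) hF.1, fun l => ?_⟩
    dsimp only
    split_ifs with hl
    · apply DD_vanish
      have h1 := hF.2 l
      dsimp only at h1
      rw [if_pos hl] at h1
      rw [mem_mons.1 hγ]
      exact h1
    · exact vanishes_zero _ _
  have e4 := finrank_ker_DD (r := r) (d := d) (t := t) p L (U' ⊔ W')
    (sup_le (fun F hF => ⟨hF.1, fun l => vanishes_zero _ _⟩)
      fun F hF => ⟨hF.1, fun l => vanishes_zero _ _⟩) ⟨x, hxH.1, hL1⟩ (fun F hF γ hγ => by
      obtain ⟨A, hA, B, hB, rfl⟩ := Submodule.mem_sup.1 hF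
      rw [map_add, map_add, hL3 _ (Submodule.mem_sup_left (hDU A hA γ hγ)),
        hL3 _ (Submodule.mem_sup_right (hDW B hB γ hγ)), add_zero])
  have e5 := Submodule.finrank_sup_add_finrank_inf_eq U' W'
  rw [hUW'] at e5
  have e6 := fat_ge (d := d + t) hr p hp fun l => if l = i then m i + t else 0
  have e7 := fat_ge (d := d + t) hr p hp fun l => if l ∈ S then m l + t else 0
  have e8 := raise (d := d + t) hr p hp (fun l => if l ∈ insert i S then m l + t else 0)
    (fun l => m l + t) fun l => by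
      split_ifs
      · exact le_rfl
      · exact Nat.zero_le _
  have z0 : (0 + r - 1).choose r = 0 := Nat.choose_eq_zero_of_lt (by omega)
  have s1 : ∑ l, ((if l = i then m i + t else 0) + r - 1).choose r = (m i + t + r - 1).choose r := by
    rw [Finset.sum_eq_single i]
    · rw [if_pos rfl]
    · intro l _ hl
      rw [if_neg hl, z0]
    · intro h
      exact absurd (Finset.mem_univ i) h
  have s2 : ∀ S : Finset ι, ∑ l, ((if l ∈ S then m l + t else 0) + r - 1).choose r =
      ∑ l ∈ S, (m l + t + r - 1).choose r := by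
    intro S
    rw [← Finset.sum_subset (Finset.subset_univ S)]
    · exact Finset.sum_congr rfl fun l hl => by rw [if_pos hl]
    · intro l _ hl
      rw [if_neg hl, z0]
  rw [s1, ← hU'] at e6
  rw [s2, ← hW'] at e7
  rw [s2, Finset.sum_insert hiS] at e8
  omega

end Pool.Agent.H74.KV

end

section

/-!
# Reindexing, the components of a curve, nine points
-/

namespace Pool.Agent.H74.KV

open MvPolynomial Pool.Agent.H18.Fat Pool.Agent.H18.Ub Pool.Agent.H22.LU Pool.Agent.H74.CT Pool.Agent.H18.Nef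

theorem fat_comp {r e : ℕ} {ι κ : Type*} (σ : ι → κ) (P : κ → Fin (r + 1) → ℂ) (k : κ → ℕ)
    (hk : ∀ i, i ∉ Set.range σ → k i = 0) :
    fatForms r e (fun i => P (σ i)) (fun i => k (σ i)) = fatForms r e P k := by
  ext F
  constructor
  · intro h
    refine ⟨h.1, fun i => ?_⟩
    by_cases hi : i ∈ Set.range σ
    · obtain ⟨j, rfl⟩ := hi
      exact h.2 j
    · rw [hk i hi]
      exact vanishes_zero _ _
  · exact fun h => ⟨h.1, fun i => h.2 (σ i)⟩

theorem generalDim_comp {r e n N : ℕ} (σ : Fin n → Fin N) (hσ : Function.Injective σ)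
    (k : Fin N → ℕ) (hk : ∀ i, i ∉ Set.range σ → k i = 0) :
    generalDim r e (fun i => k (σ i)) = generalDim r e k := by
  classical
  unfold generalDim
  congr 1
  ext x
  constructor
  · rintro ⟨p, hp⟩
    refine ⟨fun j => if h : ∃ i, σ i = j then p h.choose else 0, ?_⟩
    rw [← fat_comp σ _ k hk, ← hp]
    have h1 : (fun i => (if h : ∃ i', σ i' = σ i then p h.choose else 0)) = p := by
      funext i
      have h2 : ∃ i', σ i' = σ i := ⟨i, rfl⟩
      rw [dif_pos h2]
      congr 1
      exact hσ h2.choose_spec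
    rw [h1]
  · rintro ⟨P, hP⟩
    exact ⟨fun i => P (σ i), by rw [fat_comp σ P k hk]; exact hP⟩

/-- A class pairs non-negatively with a curve if it does so with the components. -/
theorem pair_of_irred {ι : Type*} [Fintype ι] {p : ι → Fin (2 + 1) → ℂ} (a : ℕ) (m : ι → ℕ) :
    ∀ (f : ℕ) (F : MvPolynomial (Fin (2 + 1)) ℂ), F ≠ 0 → F.IsHomogeneous f →
    (∀ (A : MvPolynomial (Fin (2 + 1)) ℂ) (e : ℕ) (κ : ι → ℕ), Irreducible A → A ∣ F →
      A.IsHomogeneous e → 1 ≤ e → e ≤ f →
      (∀ i, VanishesToOrder A (p i) (κ i) ∧ ¬ VanishesToOrder A (p i) (κ i + 1)) →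
      ∑ i, m i * κ i ≤ a * e) →
    ∀ k : ι → ℕ, (∀ i, VanishesToOrder F (p i) (k i)) → ∑ i, m i * k i ≤ a * f := by
  classical
  intro f
  induction f using Nat.strong_induction_on with
  | _ f ih =>
    intro F hF0 hFf H k hk
    rcases Nat.eq_zero_or_pos f with h0 | hpos
    · subst h0
      refine le_of_eq_of_le (Finset.sum_eq_zero fun i _ => ?_) (Nat.zero_le _)
      by_cases hki : k i = 0
      · rw [hki, Nat.mul_zero]
      · exfalso
        exact hF0 (eq_zero_of_vanishes F hFf _ (Nat.pos_of_ne_zero hki) (hk i))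
    · have hnu : ¬ IsUnit F := by
        intro h
        have h1 := ((MvPolynomial.isUnit_iff_totalDegree_of_isReduced (R := ℂ)).1 h).2
        rw [hFf.totalDegree hF0] at h1
        omega
      obtain ⟨A, hA, G, hG⟩ := WfDvdMonoid.exists_irreducible_factor hnu hF0
      have hA0 := hA.ne_zero
      have hG0 : G ≠ 0 := by
        rintro rfl
        exact hF0 (by rw [hG, mul_zero])
      obtain ⟨e, g, hAe, hGg, heg⟩ := hom_of_mul (hG ▸ hFf) hA0 hG0
      have he : 1 ≤ e := by
        by_contra hcon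
        have h1 : e = 0 := by omega
        subst h1
        have h2 := totalDegree_eq_zero_iff_eq_C.1 (hAe.totalDegree hA0)
        apply hA.not_isUnit
        rw [h2]
        refine (isUnit_iff_ne_zero.2 fun h3 => hA0 ?_).map (C : ℂ →+* MvPolynomial (Fin (2 + 1)) ℂ)
        rw [h2, h3, map_zero]
      choose κ hκe hκ1 hκ2 using fun i => exists_mult hAe hA0 (p i)
      have h1 := H A e κ hA ⟨G, hG⟩ hAe he (by omega) fun i => ⟨hκ1 i, hκ2 i⟩
      have h2 := ih g (by omega) G hG0 hGg
        (fun A' e' κ' hA' hA'G hA'e he' he'g hκ' => H A' e' κ' hA'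
          (hA'G.trans ⟨A, by rw [hG, mul_comm]⟩) hA'e he' (by omega) hκ')
        (fun i => k i - κ i) fun i => vanishes_of_mul (hκ2 i) (hG ▸ hk i)
      have h3 : ∑ i, m i * k i ≤ ∑ i, m i * κ i + ∑ i, m i * (k i - κ i) := by
        rw [← Finset.sum_add_distrib]
        refine Finset.sum_le_sum fun i _ => ?_
        rw [← Nat.mul_add]
        exact Nat.mul_le_mul_left _ (by omega)
      have h4 : a * f = a * e + a * g := by rw [← heg, Nat.mul_add]
      omega

/-- The nine points of the grid. -/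
noncomputable def grid9 (x : Fin 3 × Fin 3) : Fin (2 + 1) → ℂ := ![1, (x.1 : ℕ), (x.2 : ℕ)]

theorem grid9_inj : Function.Injective grid9 := by
  intro x y h
  have h1 := congrFun h 1
  have h2 := congrFun h 2
  simp only [grid9] at h1 h2
  have e1 : ((x.1 : ℕ) : ℂ) = ((y.1 : ℕ) : ℂ) := h1
  have e2 : ((x.2 : ℕ) : ℂ) = ((y.2 : ℕ) : ℂ) := h2
  have e3 : (x.1 : ℕ) = (y.1 : ℕ) := by exact_mod_cast e1
  have e4 : (x.2 : ℕ) = (y.2 : ℕ) := by exact_mod_cast e2
  exact Prod.ext (Fin.ext e3) (Fin.ext e4)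

/-- The cubic `x (x - z) (x - 2 z)`. -/
noncomputable def cub (c : Fin (2 + 1)) : MvPolynomial (Fin (2 + 1)) ℂ :=
  ∏ j : Fin 3, (X c - C ((j : ℕ) : ℂ) * X 0)

theorem lin_hom (c : Fin (2 + 1)) (a : ℂ) :
    (X c - C a * X 0 : MvPolynomial (Fin (2 + 1)) ℂ).IsHomogeneous 1 := by
  refine (isHomogeneous_X ℂ c).sub ?_
  have := (isHomogeneous_C (Fin (2 + 1)) a).mul (isHomogeneous_X ℂ (0 : Fin (2 + 1)))
  rwa [Nat.zero_add] at this

theorem cub_hom (c : Fin (2 + 1)) : (cub c).IsHomogeneous 3 := by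
  have h := IsHomogeneous.prod (Finset.univ : Finset (Fin 3))
    (fun j => (X c - C ((j : ℕ) : ℂ) * X 0 : MvPolynomial (Fin (2 + 1)) ℂ)) (fun _ => 1)
    fun j _ => lin_hom c _
  have h3 : ∑ _j : Fin 3, 1 = 3 := by decide
  rw [h3] at h
  exact h

theorem cub_van (x : Fin 3 × Fin 3) : VanishesToOrder (cub 1) (grid9 x) 1 ∧
    VanishesToOrder (cub 2) (grid9 x) 1 := by
  constructor
  · rw [vanishes_one_iff]
    unfold cub
    rw [map_prod]
    refine Finset.prod_eq_zero (Finset.mem_univ x.1) ?_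
    have h1 : grid9 x 0 = 1 := rfl
    have h2 : grid9 x 1 = ((x.1 : ℕ) : ℂ) := rfl
    rw [map_sub, map_mul, eval_X, eval_X, eval_C, h1, h2]
    ring
  · rw [vanishes_one_iff]
    unfold cub
    rw [map_prod]
    refine Finset.prod_eq_zero (Finset.mem_univ x.2) ?_
    have h1 : grid9 x 0 = 1 := rfl
    have h2 : grid9 x 2 = ((x.2 : ℕ) : ℂ) := rfl
    rw [map_sub, map_mul, eval_X, eval_X, eval_C, h1, h2]
    ring

/-- No irreducible curve is a component of both cubics. -/
theorem not_dvd_both {A : MvPolynomial (Fin (2 + 1)) ℂ} (hA : Irreducible A) :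
    ¬ A ∣ cub 1 ∨ ¬ A ∣ cub 2 := by
  by_contra hcon
  push Not at hcon
  obtain ⟨h1, h2⟩ := hcon
  unfold cub at h1 h2
  obtain ⟨i, _, hi⟩ := (hA.prime.dvd_finsetProd_iff _).1 h1
  obtain ⟨j, _, hj⟩ := (hA.prime.dvd_finsetProd_iff _).1 h2
  -- the two lines are not proportional
  have hne : ∀ (c : Fin (2 + 1)) (a : ℂ), c ≠ 0 →
      (X c - C a * X 0 : MvPolynomial (Fin (2 + 1)) ℂ) ≠ 0 := by
    intro c a hc h
    have h3 := congrArg (eval fun l : Fin (2 + 1) => if l = c then (1 : ℂ) else 0) h
    rw [map_sub, map_mul, eval_X, eval_X, eval_C, if_pos rfl, if_neg hc.symm, map_zero] at h3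
    norm_num at h3
  have hunit : ∀ (c : Fin (2 + 1)) (a : ℂ), c ≠ 0 →
      A ∣ (X c - C a * X 0 : MvPolynomial (Fin (2 + 1)) ℂ) →
      ∃ u : ℂ, u ≠ 0 ∧ (X c - C a * X 0 : MvPolynomial (Fin (2 + 1)) ℂ) = A * C u := by
    intro c a hc h
    obtain ⟨B, hB⟩ := h
    have hB0 : B ≠ 0 := by
      rintro rfl
      exact hne c a hc (by rw [hB, mul_zero])
    obtain ⟨e, b, he, hb, heb⟩ := hom_of_mul (hB ▸ lin_hom c a) hA.ne_zero hB0
    have he1 : e ≠ 0 := by
      rintro rfl
      have h2 := totalDegree_eq_zero_iff_eq_C.1 (he.totalDegree hA.ne_zero)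
      apply hA.not_isUnit
      rw [h2]
      refine (isUnit_iff_ne_zero.2 fun h3 => hA.ne_zero ?_).map
        (C : ℂ →+* MvPolynomial (Fin (2 + 1)) ℂ)
      rw [h2, h3, map_zero]
    have hb0 : b = 0 := by omega
    subst hb0
    have h2 := totalDegree_eq_zero_iff_eq_C.1 (hb.totalDegree hB0)
    refine ⟨coeff 0 B, fun h3 => hB0 (by rw [h2, h3, map_zero]), ?_⟩
    rw [← h2]
    exact hB
  obtain ⟨u, hu, e1⟩ := hunit 1 _ (by decide) hi
  obtain ⟨v, hv, e2⟩ := hunit 2 _ (by decide) hj
  have e3 := congrArg (eval fun l : Fin (2 + 1) => if l = 2 then (1 : ℂ) else 0) e1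
  have e4 := congrArg (eval fun l : Fin (2 + 1) => if l = 2 then (1 : ℂ) else 0) e2
  rw [map_sub, map_mul, eval_X, eval_X, eval_C, map_mul, eval_C, if_neg (by decide),
    if_neg (by decide)] at e3
  rw [map_sub, map_mul, eval_X, eval_X, eval_C, map_mul, eval_C, if_pos rfl,
    if_neg (by decide)] at e4
  have e5 : (eval fun l : Fin (2 + 1) => if l = 2 then (1 : ℂ) else 0) A = 0 := by
    have : (eval fun l : Fin (2 + 1) => if l = 2 then (1 : ℂ) else 0) A * u = 0 := by
      rw [← e3]
      ring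
    exact (mul_eq_zero.1 this).resolve_right hu
  rw [e5] at e4
  norm_num at e4

/-- The multiplicities of an effective class at nine points. -/
theorem nine {n e : ℕ} {k : Fin n → ℕ} (h : 1 ≤ generalDim 2 e k) (S : Finset (Fin n))
    (hS : S.card ≤ 9) : ∑ i ∈ S, k i ≤ 3 * e := by
  classical
  -- an injection of `S` into the grid
  have hcard : Fintype.card S ≤ Fintype.card (Fin 3 × Fin 3) := by
    rw [Fintype.card_coe, Fintype.card_prod, Fintype.card_fin]
    exact hS
  obtain ⟨g⟩ := Function.Embedding.nonempty_of_card_le hcard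
  -- the points
  set P : Fin n → Fin (2 + 1) → ℂ := fun i => if hi : i ∈ S then grid9 (g ⟨i, hi⟩) else 0 with hP
  have h1 : 1 ≤ Module.finrank ℂ (fatForms 2 e P k) :=
    h.trans (Nat.sInf_le ⟨P, rfl⟩)
  obtain ⟨F, hF, hF0⟩ : ∃ F ∈ fatForms 2 e P k, F ≠ 0 := by
    by_contra hcon
    push Not at hcon
    have h2 : fatForms 2 e P k = ⊥ := by
      rw [eq_bot_iff]
      intro F hF
      rw [Submodule.mem_bot]
      exact hcon F hF
    rw [h2, finrank_bot] at h1
    omega
  have h2 := pair_of_irred (p := fun i : S => grid9 (g i)) 3 (fun _ => 1) e F hF0 hF.1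
    (fun A e' κ hA _ hAe _ _ hκ => by
      have key : ∀ c : Fin (2 + 1), (∀ x, VanishesToOrder (cub c) (grid9 x) 1) → ¬ A ∣ cub c →
          ∑ i : S, κ i * 1 ≤ e' * 3 := by
        intro c hc hdvd
        exact bezout (fun i : S => grid9 (g i)) (fun i => by
          have : grid9 (g i) 0 = 1 := rfl
          rw [this]
          exact one_ne_zero) (sep_of_affine (fun i => rfl) fun i j hij =>
            g.injective (grid9_inj hij)) hA hAe (cub_hom c) hdvd κ (fun _ => 1)
          (fun i => (hκ i).1) fun i => hc _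
      have h3 : ∑ i : S, κ i * 1 ≤ e' * 3 := by
        rcases not_dvd_both hA with h4 | h4
        · exact key 1 (fun x => (cub_van x).1) h4
        · exact key 2 (fun x => (cub_van x).2) h4
      have h4 : ∑ i : S, 1 * κ i = ∑ i : S, κ i * 1 :=
        Finset.sum_congr rfl fun i _ => Nat.mul_comm _ _
      rw [h4]
      omega) (fun i => k i) fun i => by
      have h3 := hF.2 i
      have h4 : P i = grid9 (g i) := by
        rw [hP]
        dsimp only
        rw [dif_pos i.2]
      rw [h4] at h3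
      exact h3
  have h3 : ∑ i : S, 1 * k i = ∑ i ∈ S, k i := by
    rw [← Finset.sum_coe_sort S]
    exact Finset.sum_congr rfl fun i _ => Nat.one_mul _
  rw [h3] at h2
  exact h2

end Pool.Agent.H74.KV

end
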