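import Pool.Agent.H94.LP3.M30
import Pool.Agent.H94.LP3.M32
import Pool.Agent.H94.LP3.M49

/-! The parts of this file: H74.KV.VolV, H74.KV.Van. -/

section

/-!
# The dimension of a nef system, uniformly
-/

namespace Pool.Agent.H74.KV

open MvPolynomial Pool.Agent.H18.Fat Pool.Agent.H18.Ub Pool.Agent.H22.LU Pool.Agent.H74.CT Pool.Agent.H74.BP Pool.Agent.H18.Nef

theorem volU (n : ℕ) (δ : ℝ) (hδ : 0 < δ) : ∃ a₀ : ℕ, ∀ (a : ℕ) (m : Fin n → ℕ), a₀ ≤ a →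
    NefC a m → 2 * (generalDim 2 a m : ℝ) + ∑ i, (m i : ℝ) ^ 2 ≤ (1 + δ) * (a : ℝ) ^ 2 := by
  classical
  obtain ⟨T, hT⟩ := exists_nat_ge (max 1 (2 * (3 + 2 * n) / δ))
  have hT1 : (1 : ℝ) ≤ T := (le_max_left _ _).trans hT
  have hT1' : 1 ≤ T := by exact_mod_cast hT1
  have hT2 : 2 * (3 + 2 * (n : ℝ)) / δ ≤ T := (le_max_right _ _).trans hT
  have hCex : ∀ μ : Fin n → Fin (T + 2), ∃ C : ℕ, NefC (T + 1) (fun i => (μ i : ℕ)) →
      ∀ k : ℕ, 2 * generalDim 2 (k * (T + 1)) (fun i => k * (μ i : ℕ)) +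
        k ^ 2 * ∑ i, (μ i : ℕ) ^ 2 ≤ k ^ 2 * (T + 1) ^ 2 + C * (k + 1) := by
    intro μ
    by_cases h : NefC (T + 1) fun i => (μ i : ℕ)
    · obtain ⟨C, hC⟩ := vol h
      exact ⟨C, fun _ => hC⟩
    · exact ⟨0, fun h' => absurd h' h⟩
  choose Cf hCf using hCex
  set C := ∑ μ, Cf μ with hC
  obtain ⟨a₁, ha₁⟩ := exists_nat_ge (4 * C / δ)
  refine ⟨T * T + a₁, fun a m ha hnef => ?_⟩
  set k := a / T with hk
  have hkT : T ≤ k := by
    rw [hk, Nat.le_div_iff_mul_le (by omega)]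
    omega
  have hk1 : k * T ≤ a := Nat.div_mul_le_self a T
  have hk2 : a < k * (T + 1) := by
    have h1 := Nat.lt_div_mul_add (a := a) (b := T) (by omega)
    rw [← hk] at h1
    calc a < k * T + T := h1
      _ ≤ k * T + k := by omega
      _ = k * (T + 1) := by ring
  have hkpos : 0 < k := by omega
  have hma : ∀ i, m i ≤ a := fun i => hnef.one i
  have hμlt : ∀ i, m i / k < T + 2 := by
    intro i
    have h1 : m i / k < T + 1 := by
      rw [Nat.div_lt_iff_lt_mul hkpos]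
      have := hma i
      rw [Nat.mul_comm]
      omega
    omega
  set μ : Fin n → Fin (T + 2) := fun i => ⟨m i / k, hμlt i⟩ with hμ
  have hμ1 : ∀ i, k * (μ i : ℕ) ≤ m i := fun i => Nat.mul_div_le (m i) k
  have hμ2 : ∀ i, m i < k * (μ i : ℕ) + k := by
    intro i
    have h1 := Nat.lt_div_mul_add (a := m i) (b := k) hkpos
    have h2 : (μ i : ℕ) = m i / k := rfl
    rw [h2, Nat.mul_comm]
    exact h1
  have hnefμ : NefC (T + 1) fun i => (μ i : ℕ) := by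
    intro e κ he
    have h1 := hnef e κ he
    have h2 : k * ∑ i, (μ i : ℕ) * κ i ≤ ∑ i, m i * κ i := by
      rw [Finset.mul_sum]
      refine Finset.sum_le_sum fun i _ => ?_
      rw [← Nat.mul_assoc]
      exact Nat.mul_le_mul_right _ (hμ1 i)
    have h3 : a * e ≤ k * ((T + 1) * e) := by
      rw [← Nat.mul_assoc]
      exact Nat.mul_le_mul_right _ hk2.le
    exact Nat.le_of_mul_le_mul_left ((h2.trans h1).trans h3) hkpos
  have h1 := hCf μ hnefμ k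
  have h2 : generalDim 2 a m ≤ generalDim 2 (k * (T + 1)) fun i => k * (μ i : ℕ) :=
    (generalDim_anti hμ1).trans (generalDim_deg (fun i => k * (μ i : ℕ)) hk2.le)
  have h3 : Cf μ ≤ C := Finset.single_le_sum (f := Cf) (fun _ _ => Nat.zero_le _)
    (Finset.mem_univ μ)
  have h4 : ((2 * generalDim 2 a m + k ^ 2 * ∑ i, (μ i : ℕ) ^ 2 : ℕ) : ℝ) ≤
      ((k ^ 2 * (T + 1) ^ 2 + C * (k + 1) : ℕ) : ℝ) := by
    have h5 := Nat.mul_le_mul_right (k + 1) h3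
    exact_mod_cast (by omega : 2 * generalDim 2 a m + k ^ 2 * ∑ i, (μ i : ℕ) ^ 2 ≤
      k ^ 2 * (T + 1) ^ 2 + C * (k + 1))
  push_cast at h4
  -- real estimates
  have hTpos : (0 : ℝ) < T := by linarith only [hT1]
  have hkT' : (k : ℝ) * T ≤ a := by exact_mod_cast hk1
  have hkr : (k : ℝ) ≤ a / T := by
    rw [le_div_iff₀ hTpos]
    exact hkT'
  have hk0 : (0 : ℝ) ≤ k := by positivity
  have ha0 : (0 : ℝ) ≤ a := by positivity
  have e1 : (k : ℝ) * (T + 1) ≤ a + a / T := by linarith only [hkT', hkr]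
  have e2 : (k : ℝ) ^ 2 * (T + 1) ^ 2 ≤ (a : ℝ) ^ 2 * (1 + 3 / T) := by
    have h5 : ((k : ℝ) * (T + 1)) ^ 2 ≤ (a + a / T) ^ 2 := by
      have h6 : 0 ≤ (k : ℝ) * (T + 1) := by positivity
      exact pow_le_pow_left₀ h6 e1 2
    have h6 : ((a : ℝ) + a / T) ^ 2 = (a : ℝ) ^ 2 * (1 + 2 / T + (1 / T) * (1 / T)) := by
      field_simp
      ring
    have h7 : (1 / (T : ℝ)) * (1 / T) ≤ 1 / T := by
      have h8 : 1 / (T : ℝ) ≤ 1 := by
        rw [div_le_one hTpos]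
        exact hT1
      have h9 : (0 : ℝ) ≤ 1 / T := by positivity
      nlinarith only [h8, h9]
    have h8 : (a : ℝ) ^ 2 * (1 + 2 / T + (1 / T) * (1 / T)) ≤ (a : ℝ) ^ 2 * (1 + 3 / T) := by
      refine mul_le_mul_of_nonneg_left ?_ (by positivity)
      have h9 : (3 : ℝ) / T = 2 / T + 1 / T := by ring
      linarith only [h7, h9]
    calc (k : ℝ) ^ 2 * (T + 1) ^ 2 = (k * (T + 1)) ^ 2 := by ring
      _ ≤ _ := h5
      _ = _ := h6
      _ ≤ _ := h8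
  have e3 : ∑ i, (m i : ℝ) ^ 2 ≤ (k : ℝ) ^ 2 * ∑ i, ((μ i : ℕ) : ℝ) ^ 2 +
      n * (2 * (a : ℝ) ^ 2 / T) := by
    have h5 : ∀ i, (m i : ℝ) ^ 2 ≤ (k : ℝ) ^ 2 * ((μ i : ℕ) : ℝ) ^ 2 + 2 * (a : ℝ) ^ 2 / T := by
      intro i
      have h6 : (m i : ℝ) ≤ k * ((μ i : ℕ) : ℝ) + k := by exact_mod_cast (hμ2 i).le
      have h7 : (k : ℝ) * ((μ i : ℕ) : ℝ) ≤ m i := by exact_mod_cast hμ1 i
      have h8 : (m i : ℝ) ≤ a := by exact_mod_cast hma i
      have h9 : (0 : ℝ) ≤ k * ((μ i : ℕ) : ℝ) := by positivity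
      have h10 : (0 : ℝ) ≤ m i := by positivity
      have h11 : (m i : ℝ) ^ 2 - (k * ((μ i : ℕ) : ℝ)) ^ 2 ≤ k * (2 * m i) := by nlinarith only [h7, h6, h9]
      have h12 : (k : ℝ) * (2 * m i) ≤ (a / T) * (2 * a) :=
        mul_le_mul hkr (by linarith only [h8]) (by positivity) (by positivity)
      have h13 : ((a : ℝ) / T) * (2 * a) = 2 * (a : ℝ) ^ 2 / T := by ring
      have h14 : ((k : ℝ) * ((μ i : ℕ) : ℝ)) ^ 2 = (k : ℝ) ^ 2 * ((μ i : ℕ) : ℝ) ^ 2 := by ring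
      linarith only [h11, h12, h13]
    refine (Finset.sum_le_sum fun i _ => h5 i).trans ?_
    rw [Finset.sum_add_distrib, ← Finset.mul_sum, Finset.sum_const, Finset.card_univ,
      Fintype.card_fin, nsmul_eq_mul]
  have hkone : (1 : ℝ) ≤ k := by exact_mod_cast hkpos
  have e4 : (C : ℝ) * (k + 1) ≤ δ / 2 * (a : ℝ) ^ 2 := by
    have h5 : (k : ℝ) + 1 ≤ 2 * a := by
      have h6 : (k : ℝ) * 1 ≤ k * T := mul_le_mul_of_nonneg_left hT1 hk0
      linarith only [hkT', hkone, h6]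
    have h6 : (C : ℝ) * (k + 1) ≤ C * (2 * a) := mul_le_mul_of_nonneg_left h5 (by positivity)
    have h7 : 4 * (C : ℝ) / δ ≤ a := ha₁.trans (by exact_mod_cast (by omega : a₁ ≤ a))
    rw [div_le_iff₀ hδ] at h7
    have h8 : (C : ℝ) * (2 * a) ≤ δ / 2 * (a : ℝ) ^ 2 := by nlinarith only [h7]
    linarith only [h6, h8]
  have e5 : (3 + 2 * (n : ℝ)) / T ≤ δ / 2 := by
    rw [div_le_iff₀ hδ] at hT2
    rw [div_le_iff₀ hTpos]
    linarith only [hT2]
  have e6 : (a : ℝ) ^ 2 * ((3 + 2 * (n : ℝ)) / T) ≤ (a : ℝ) ^ 2 * (δ / 2) :=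
    mul_le_mul_of_nonneg_left e5 (by positivity)
  have e7 : (a : ℝ) ^ 2 * ((3 + 2 * (n : ℝ)) / T) = (a : ℝ) ^ 2 * (3 / T) +
      n * (2 * (a : ℝ) ^ 2 / T) := by
    field_simp
  nlinarith only [h4, e2, e3, e4, e6, e7]

end Pool.Agent.H74.KV

end

section

/-!
# Vanishing for nef classes of large degree
-/

namespace Pool.Agent.H74.KV

open MvPolynomial Pool.Agent.H18.Fat Pool.Agent.H18.Ub Pool.Agent.H22.LU Pool.Agent.H74.CT Pool.Agent.H74.BP Pool.Agent.H18.Nef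

theorem nef_exact (n : ℕ) (ε : ℝ) (hε : 0 < ε) : ∃ d₀ : ℕ, ∀ (d a : ℕ) (m : Fin n → ℕ),
    d₀ ≤ d → NefC a m → (a : ℝ) ≤ (1 - ε) * d →
    generalDim 2 d m + ∑ i, (m i + 2 - 1).choose 2 = (d + 2).choose 2 := by
  classical
  set N : ℝ := n + 1 with hN
  have hNpos : 0 < N := by positivity
  set δ : ℝ := ε ^ 2 / (32 * N ^ 2) with hδ
  have hδpos : 0 < δ := by positivity
  obtain ⟨a₀, ha₀⟩ := volU n δ hδpos
  obtain ⟨d₁, hd₁⟩ := exists_nat_gt (max (2 * N / ε) (16 * N * N ^ 2 / ε ^ 2))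
  have hd₁a : 2 * N / ε < d₁ := (le_max_left _ _).trans_lt hd₁
  have hd₁b : 16 * N * N ^ 2 / ε ^ 2 < d₁ := (le_max_right _ _).trans_lt hd₁
  refine ⟨a₀ + d₁ + 1, fun d a m hd hnef ha => ?_⟩
  have hdr : (d₁ : ℝ) ≤ d := by exact_mod_cast (by omega : d₁ ≤ d)
  have hd0 : (0 : ℝ) < d := by exact_mod_cast (by omega : 0 < d)
  have had : a ≤ d := by
    have h1 : (a : ℝ) ≤ d := by nlinarith only [ha, hε]
    exact_mod_cast h1
  obtain ⟨t, ht1, ht2⟩ : ∃ t, t * (n + 1) ≤ d - a ∧ d - a < t * (n + 1) + (n + 1) :=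
    ⟨(d - a) / (n + 1), Nat.div_mul_le_self _ _, Nat.lt_div_mul_add (by omega)⟩
  have hma : ∀ i, m i ≤ a := fun i => hnef.one i
  have htd : t ≤ d := by
    have : t * 1 ≤ t * (n + 1) := Nat.mul_le_mul_left _ (by omega)
    omega
  -- the class `(d + t; m + t)` is nef
  have hnef' : NefC (d + t) fun i => m i + t := by
    intro e κ he
    have h1 := hnef e κ he
    have h2 : ∀ i, κ i ≤ e := fun i => le_of_effective κ he i
    have h3 : ∑ i, (m i + t) * κ i = ∑ i, m i * κ i + ∑ i, t * κ i := by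
      rw [← Finset.sum_add_distrib]
      exact Finset.sum_congr rfl fun i _ => Nat.add_mul _ _ _
    have h4 : ∑ i, t * κ i ≤ t * (n * e) := by
      rw [← Finset.mul_sum]
      refine Nat.mul_le_mul_left _ ?_
      refine (Finset.sum_le_sum fun i _ => h2 i).trans ?_
      rw [Finset.sum_const, Finset.card_univ, Fintype.card_fin, smul_eq_mul]
    have h5 : a * e + t * (n * e) ≤ (d + t) * e := by
      have h6 : a + t * n ≤ d + t := by
        have : t * (n + 1) = t * n + t := by ring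
        omega
      calc a * e + t * (n * e) = (a + t * n) * e := by ring
        _ ≤ (d + t) * e := Nat.mul_le_mul_right _ h6
    change ∑ i, (m i + t) * κ i ≤ (d + t) * e
    omega
  have hge := Pool.Agent.H74.CT.generalDim_ge (r := 2) (by norm_num) d m
  have hs : ((∑ i, (m i + 2 - 1).choose 2 : ℕ) : ℤ) = ∑ i, ((m i + 2 - 1).choose 2 : ℤ) := by
    push_cast
    rfl
  by_contra hcon
  have hfail : (d + 2).choose 2 < generalDim 2 d m + ∑ i, (m i + 2 - 1).choose 2 := by omega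
  obtain ⟨p, hp0, hp1, hp2⟩ := Pool.Agent.H18.Cub.exists_of_general
    ((Pool.Agent.H18.Pr.general_ne_zero 2 n).and ((generalDim_spec 2 d m).and
      (generalDim_spec 2 (d + t) fun i => m i + t)))
  have h1 := inv (r := 2) (d := d) (t := t) (by norm_num) p hp0 m (fun i => by
    have := hma i
    omega) (by
    rw [hp1]
    exact hfail)
  rw [hp2] at h1
  have h2 := ha₀ (d + t) (fun i => m i + t) (by omega) hnef'
  -- estimates
  have h3 : (((d + t + 2).choose 2 + (t + 2).choose 2 : ℕ) : ℤ) ≤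
      ((generalDim 2 (d + t) (fun i => m i + t) + ∑ i, (m i + t + 2 - 1).choose 2 : ℕ) : ℤ) := by
    exact_mod_cast h1
  have h4 := two_choose (d + t)
  have h5 := two_choose t
  have h6 : 2 * ((∑ i, (m i + t + 2 - 1).choose 2 : ℕ) : ℤ) =
      ∑ i, (((m i + t : ℕ) : ℤ) + 1) * ((m i + t : ℕ) : ℤ) := by
    rw [Nat.cast_sum, Finset.mul_sum]
    exact Finset.sum_congr rfl fun i _ => two_len _
  have h7 : ∑ i, (((m i + t : ℕ) : ℤ) + 1) * ((m i + t : ℕ) : ℤ) ≤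
      ∑ i, ((m i + t : ℕ) : ℤ) ^ 2 + n * (2 * d) := by
    have h8 : ∀ i ∈ (Finset.univ : Finset (Fin n)), (((m i + t : ℕ) : ℤ) + 1) * ((m i + t : ℕ) : ℤ) ≤
        ((m i + t : ℕ) : ℤ) ^ 2 + 2 * d := by
      intro i _
      have h9 : ((m i + t : ℕ) : ℤ) ≤ 2 * d := by
        have := hma i
        exact_mod_cast (by omega : m i + t ≤ 2 * d)
      nlinarith only [h9]
    refine (Finset.sum_le_sum h8).trans ?_
    rw [Finset.sum_add_distrib, Finset.sum_const, Finset.card_univ, Fintype.card_fin,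
      nsmul_eq_mul]
  have h8 : ((d + t : ℕ) : ℤ) ^ 2 + (t : ℤ) ^ 2 ≤
      2 * (generalDim 2 (d + t) (fun i => m i + t) : ℤ) + ∑ i, ((m i + t : ℕ) : ℤ) ^ 2 +
        n * (2 * d) := by
    push_cast at h3 h4 h5 h6 h7 ⊢
    nlinarith only [hd, h5, h3, h4, h6, h7]
  have h9 : ((d + t : ℕ) : ℝ) ^ 2 + (t : ℝ) ^ 2 ≤
      2 * (generalDim 2 (d + t) (fun i => m i + t) : ℝ) + ∑ i, ((m i + t : ℕ) : ℝ) ^ 2 +
        n * (2 * d) := by exact_mod_cast h8
  have h10 : (t : ℝ) ^ 2 ≤ δ * ((d + t : ℕ) : ℝ) ^ 2 + n * (2 * d) := by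
    have h11 : (1 + δ) * ((d + t : ℕ) : ℝ) ^ 2 = ((d + t : ℕ) : ℝ) ^ 2 +
        δ * ((d + t : ℕ) : ℝ) ^ 2 := by ring
    rw [h11] at h2
    linarith only [h2, h9]
  have h11 : ((d + t : ℕ) : ℝ) ^ 2 ≤ 4 * (d : ℝ) ^ 2 := by
    have h12 : ((d + t : ℕ) : ℝ) ≤ 2 * d := by exact_mod_cast (by omega : d + t ≤ 2 * d)
    have h13 : (0 : ℝ) ≤ ((d + t : ℕ) : ℝ) := by positivity
    nlinarith only [h12]
  have h12 : δ * ((d + t : ℕ) : ℝ) ^ 2 ≤ δ * (4 * (d : ℝ) ^ 2) :=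
    mul_le_mul_of_nonneg_left h11 hδpos.le
  -- the lower bound for `t`
  have h13 : ε * d < t * N + N := by
    have h14 : (((d - a : ℕ) : ℕ) : ℝ) < ((t * (n + 1) + (n + 1) : ℕ) : ℝ) := by exact_mod_cast ht2
    rw [Nat.cast_sub had] at h14
    push_cast at h14
    rw [hN]
    linarith only [ha, h14]
  have h14 : 2 * N ≤ ε * d := by
    rw [div_lt_iff₀ hε] at hd₁a
    nlinarith only [hd₁a, hε, hdr]
  have h15 : ε * d ≤ 2 * N * t := by nlinarith only [h13, h14]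
  have h16 : ε ^ 2 * (d : ℝ) ^ 2 ≤ 4 * N ^ 2 * (t : ℝ) ^ 2 := by
    have h17 : (ε * d) ^ 2 ≤ (2 * N * t) ^ 2 := pow_le_pow_left₀ (by positivity) h15 2
    nlinarith only [h17]
  have h17 : 4 * N ^ 2 * δ * 4 = ε ^ 2 / 2 := by
    rw [hδ]
    field_simp
    ring
  have h18 : ε ^ 2 * (d : ℝ) ^ 2 ≤ ε ^ 2 / 2 * (d : ℝ) ^ 2 + 4 * N ^ 2 * (N * (2 * d)) := by
    have h19 : (t : ℝ) ^ 2 ≤ δ * (4 * (d : ℝ) ^ 2) + N * (2 * d) := by
      have h20 : (n : ℝ) * (2 * d) ≤ N * (2 * d) :=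
        mul_le_mul_of_nonneg_right (by rw [hN]; linarith only) (by positivity)
      linarith only [ha, h2, h9, h12, h14]
    have h20 : 4 * N ^ 2 * (t : ℝ) ^ 2 ≤ 4 * N ^ 2 * (δ * (4 * (d : ℝ) ^ 2) + N * (2 * d)) :=
      mul_le_mul_of_nonneg_left h19 (by positivity)
    have h21 : 4 * N ^ 2 * (δ * (4 * (d : ℝ) ^ 2) + N * (2 * d)) =
        (4 * N ^ 2 * δ * 4) * (d : ℝ) ^ 2 + 4 * N ^ 2 * (N * (2 * d)) := by ring
    rw [h21, h17] at h20
    linarith only [h16, h20]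
  have h19 : 16 * N * N ^ 2 < ε ^ 2 * d := by
    rw [div_lt_iff₀ (by positivity)] at hd₁b
    nlinarith only [hd₁b, hdr]
  nlinarith only [h16, ha, h2, h9, h12, h14, h17, h19]

end Pool.Agent.H74.KV

end
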