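import Mathlib

/-! The parts of this file: H18.Tl.Defs, H18.Tl.Dm, H18.Tl.Lin, H18.Tl.LinD, H18.Tl.Tz, H18.Tl.Rv, H18.Tl.Vn, H18.Tl.Qt, H18.Tl.Dv. -/

section

/-!
# Project TL (MP_1dafdd_ag): definitions

Thin systems: polynomials `F(t, y) = ∑_β F_β(t) y^β` in one long variable `t` and variables `y_l`, `l : τ`, with the
exponents `β_l ≤ b_l` (`Box b`), as vectors `F : Box b → ℂ[X]` of polynomials in `t`.

`tz b z` is the matrix of `F(t, y) ↦ F(t, y + z)`.  A point `p : Pt τ` has the multiplicity `p.m` and the coordinates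
`t = p.x`, `y = p.z`; `van b p` are the `F` vanishing to order `p.m` at `p`: the coefficient of `y^γ` of
`F(t, y + p.z)` is divisible by `(t - p.x)^(p.m - |γ|)` for all `γ`.

`Ve b e`: total degree at most `e`.  `U b a`: degree less than `a` in `t`.  `Sol b e L`: the elements of `Ve b e`
vanishing at the points of `L`; `h0` is its dimension.  `Lm b μ`: the number of conditions imposed by a point of
multiplicity `μ`; `Lm b (e + 1)` is also the dimension of `Ve b e`.

`Blk b μ a L`: `L` is an exact block, i.e. `L` consists of points of multiplicity `μ` with distinct `x`, the number of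
conditions is `a * Pc b = dim U b a` and only `0 ∈ U b a` satisfies them.  `Ph b a L Φ`: `Φ` is the monic matrix
of degree `a` whose columns vanish at `L`.  `cf Φ j` is the coefficient of `t^j`.  `Ds b μ s` is the span of the
sub-leading coefficients `cf Φ (a - 1)` of the exact blocks with `s` points.
-/

namespace Pool.Agent.H18.Tl

open Finset Polynomial

variable {τ : Type} [Fintype τ] [DecidableEq τ]

/-- The box of exponents. -/
abbrev Box (b : τ → ℕ) : Type := (l : τ) → Fin (b l + 1)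

/-- The degree of an exponent. -/
def dg {b : τ → ℕ} (β : Box b) : ℕ := ∑ l, (β l : ℕ)

/-- The exponent `0`. -/
def zb (b : τ → ℕ) : Box b := fun _ => 0

/-- The exponent `b - β`. -/
def rb {b : τ → ℕ} (β : Box b) : Box b := fun l => Fin.rev (β l)

/-- Polynomials in `t` and `y` with exponents in the box, as vectors of polynomials in `t`. -/
abbrev V (b : τ → ℕ) : Type := Box b → ℂ[X]

/-- Square matrices with complex entries. -/
abbrev Mt (b : τ → ℕ) : Type := Matrix (Box b) (Box b) ℂ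

/-- The matrix of the translation `F(t, y) ↦ F(t, y + z)`. -/
noncomputable def tz (b : τ → ℕ) (z : τ → ℂ) : Mt b :=
  fun γ β => ∏ l, ((((β l : ℕ).choose (γ l : ℕ) : ℕ) : ℂ) * z l ^ ((β l : ℕ) - (γ l : ℕ)))

/-- The matrix of the reversal `F(t, y) ↦ y^b F(t, 1/y)`. -/
def rv (b : τ → ℕ) : Mt b := fun γ β => if γ = rb β then 1 else 0

/-- A constant matrix acts on `V b`. -/
noncomputable def act {b : τ → ℕ} (A : Mt b) : V b →ₗ[ℂ[X]] V b := (A.map C).mulVecLin

theorem act_apply {b : τ → ℕ} (A : Mt b) (F : V b) (γ : Box b) :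
    act A F γ = ∑ β, C (A γ β) * F β := rfl

/-- A point with a multiplicity. -/
structure Pt (τ : Type) : Type where
  /-- the multiplicity -/
  m : ℕ
  /-- the coordinate `t` -/
  x : ℂ
  /-- the coordinates `y` -/
  z : τ → ℂ

/-- Vanishing at the point `p`. -/
noncomputable def van (b : τ → ℕ) (p : Pt τ) : Submodule ℂ[X] (V b) where
  carrier := {F | ∀ γ, (X - C p.x) ^ (p.m - dg γ) ∣ act (tz b p.z) F γ}
  add_mem' := by
    intro F G hF hG γ
    rw [map_add]
    exact dvd_add (hF γ) (hG γ)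
  zero_mem' := by
    intro γ
    rw [map_zero]
    exact dvd_zero _
  smul_mem' := by
    intro q F hF γ
    rw [map_smul]
    exact Dvd.dvd.mul_left (hF γ) q

theorem mem_van {b : τ → ℕ} {p : Pt τ} {F : V b} :
    F ∈ van b p ↔ ∀ γ, (X - C p.x) ^ (p.m - dg γ) ∣ act (tz b p.z) F γ := Iff.rfl

/-- Vanishing at the points of a list. -/
noncomputable def vanL (b : τ → ℕ) (L : List (Pt τ)) : Submodule ℂ[X] (V b) where
  carrier := {F | ∀ p ∈ L, F ∈ van b p}
  add_mem' := fun hF hG p hp => (van b p).add_mem (hF p hp) (hG p hp)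
  zero_mem' := fun p _ => (van b p).zero_mem
  smul_mem' := fun q _ hF p hp => (van b p).smul_mem q (hF p hp)

theorem mem_vanL {b : τ → ℕ} {L : List (Pt τ)} {F : V b} :
    F ∈ vanL b L ↔ ∀ p ∈ L, F ∈ van b p := Iff.rfl

/-- Total degree at most `e`. -/
def Ve (b : τ → ℕ) (e : ℕ) : Submodule ℂ (V b) where
  carrier := {F | ∀ β j, e < j + dg β → (F β).coeff j = 0}
  add_mem' := by
    intro F G hF hG β j h
    rw [Pi.add_apply, coeff_add, hF β j h, hG β j h, add_zero]
  zero_mem' := fun _ _ _ => rfl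
  smul_mem' := by
    intro c F hF β j h
    rw [Pi.smul_apply, coeff_smul, hF β j h, smul_zero]

omit [DecidableEq τ] in
theorem mem_Ve {b : τ → ℕ} {e : ℕ} {F : V b} :
    F ∈ Ve b e ↔ ∀ β j, e < j + dg β → (F β).coeff j = 0 := Iff.rfl

/-- Degree less than `a` in `t`. -/
def U (b : τ → ℕ) (a : ℕ) : Submodule ℂ (V b) where
  carrier := {F | ∀ β j, a ≤ j → (F β).coeff j = 0}
  add_mem' := by
    intro F G hF hG β j h
    rw [Pi.add_apply, coeff_add, hF β j h, hG β j h, add_zero]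
  zero_mem' := fun _ _ _ => rfl
  smul_mem' := by
    intro c F hF β j h
    rw [Pi.smul_apply, coeff_smul, hF β j h, smul_zero]

omit [Fintype τ] [DecidableEq τ] in
theorem mem_U {b : τ → ℕ} {a : ℕ} {F : V b} :
    F ∈ U b a ↔ ∀ β j, a ≤ j → (F β).coeff j = 0 := Iff.rfl

/-- The forms of degree at most `e` vanishing at `L`. -/
noncomputable def Sol (b : τ → ℕ) (e : ℕ) (L : List (Pt τ)) : Submodule ℂ (V b) :=
  Ve b e ⊓ (vanL b L).restrictScalars ℂ

theorem mem_Sol {b : τ → ℕ} {e : ℕ} {L : List (Pt τ)} {F : V b} :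
    F ∈ Sol b e L ↔ F ∈ Ve b e ∧ F ∈ vanL b L := Iff.rfl

/-- The dimension. -/
noncomputable def h0 (b : τ → ℕ) (e : ℕ) (L : List (Pt τ)) : ℕ := Module.finrank ℂ (Sol b e L)

/-- The number of conditions imposed by a point of multiplicity `μ`. -/
def Lm (b : τ → ℕ) (μ : ℕ) : ℕ := ∑ γ : Box b, (μ - dg γ)

/-- The number of exponents in the box. -/
def Pc (b : τ → ℕ) : ℕ := Fintype.card (Box b)

/-- The largest degree in the box. -/
def Bs (b : τ → ℕ) : ℕ := ∑ l, b l

/-- The number of conditions imposed by `L`. -/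
def cL (b : τ → ℕ) (L : List (Pt τ)) : ℕ := (L.map fun p => Lm b p.m).sum

/-- `L` is an exact block of points of multiplicity `μ` and height `a`. -/
structure Blk (b : τ → ℕ) (μ a : ℕ) (L : List (Pt τ)) : Prop where
  mult : ∀ p ∈ L, p.m = μ
  dist : (L.map Pt.x).Nodup
  cnt : L.length * Lm b μ = a * Pc b
  inj : ∀ F ∈ U b a, F ∈ vanL b L → F = 0

/-- `Φ` is monic of degree `a` and its columns vanish at `L`. -/
structure Ph (b : τ → ℕ) (a : ℕ) (L : List (Pt τ)) (Φ : Matrix (Box b) (Box b) ℂ[X]) : Prop where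
  van : ∀ β, (fun γ => Φ γ β) ∈ vanL b L
  top : ∀ γ β, (Φ γ β).coeff a = if γ = β then 1 else 0
  deg : ∀ γ β j, a < j → (Φ γ β).coeff j = 0

/-- The coefficient matrix of `t^j`. -/
def cf {b : τ → ℕ} (Φ : Matrix (Box b) (Box b) ℂ[X]) (j : ℕ) : Mt b := fun γ β => (Φ γ β).coeff j

/-- The value at `t = x`. -/
noncomputable def ev {b : τ → ℕ} (Φ : Matrix (Box b) (Box b) ℂ[X]) (x : ℂ) : Mt b :=
  fun γ β => (Φ γ β).eval x

/-- The span of the sub-leading coefficients of the exact blocks with `s` points. -/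
noncomputable def Ds (b : τ → ℕ) (μ s : ℕ) : Submodule ℂ (Mt b) :=
  Submodule.span ℂ {Y | ∃ (a : ℕ) (L : List (Pt τ)) (Φ : Matrix (Box b) (Box b) ℂ[X]),
    Blk b μ a L ∧ L.length = s ∧ Ph b a L Φ ∧ Y = cf Φ (a - 1)}

/-- `F ↦ F(t + c, y)`. -/
noncomputable def sh {b : τ → ℕ} (c : ℂ) : V b →ₗ[ℂ] V b :=
  LinearMap.pi fun γ => (taylor c) ∘ₗ LinearMap.proj γ

omit [Fintype τ] [DecidableEq τ] in
theorem sh_apply {b : τ → ℕ} (c : ℂ) (F : V b) (γ : Box b) : sh c F γ = taylor c (F γ) := rfl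

/-- Translation in the direction of `t`. -/
def shL (c : ℂ) (L : List (Pt τ)) : List (Pt τ) := L.map fun p => ⟨p.m, p.x + c, p.z⟩

/-- Scaling in the direction of `t`. -/
def scL (δ : ℂ) (L : List (Pt τ)) : List (Pt τ) := L.map fun p => ⟨p.m, δ * p.x, p.z⟩

/-- Translation in the direction of `y`. -/
def tzL (c : τ → ℂ) (L : List (Pt τ)) : List (Pt τ) := L.map fun p => ⟨p.m, p.x, p.z + c⟩

/-- Inversion of the coordinates `y`. -/
noncomputable def rvL (L : List (Pt τ)) : List (Pt τ) :=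
  L.map fun p => ⟨p.m, p.x, fun l => (p.z l)⁻¹⟩

/-- A constant vector as an element of `V b`. -/
noncomputable def cv {b : τ → ℕ} (w : Box b → ℂ) : V b := fun β => C (w β)

/-- The value at `t = 0`. -/
def e0 {b : τ → ℕ} (F : V b) : Box b → ℂ := fun β => (F β).coeff 0

end Pool.Agent.H18.Tl

end

section

/-!
# Module Dm (TL): dimensions

`Ve b e` is linearly equivalent to the functions on `Σ β, Fin (e + 1 - dg β)` (coefficients), `U b a` to the functions on
`Box b × Fin a` (or `Module.finrank_pi_fintype` with `degreeLT`).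

`h0_le`, `h0_eq_zero`: `Sol b e L ≤ Ve b e`, `Submodule.finrank_mono`, `Submodule.finrank_eq_zero`.
-/

namespace Pool.Agent.H18.Tl

open Finset Polynomial

variable {τ : Type} [Fintype τ] [DecidableEq τ] {b : τ → ℕ}

/-- The submodule of the vectors with bounded degrees. -/
private def Dm_W (b : τ → ℕ) (n : Box b → ℕ) : Submodule ℂ (V b) where
  carrier := {F | ∀ β j, n β ≤ j → (F β).coeff j = 0}
  add_mem' := by
    intro F G hF hG β j h
    rw [Pi.add_apply, coeff_add, hF β j h, hG β j h, add_zero]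
  zero_mem' := fun _ _ _ => rfl
  smul_mem' := by
    intro c F hF β j h
    rw [Pi.smul_apply, coeff_smul, hF β j h, smul_zero]

/-- The coefficients. -/
private noncomputable def Dm_equiv (n : Box b → ℕ) :
    Dm_W b n ≃ₗ[ℂ] ((β : Box b) → (Polynomial.degreeLT ℂ (n β))) where
  toFun F := fun β => ⟨F.1 β, by
    rw [Polynomial.mem_degreeLT, Polynomial.degree_lt_iff_coeff_zero]
    exact fun j hj => F.2 β j hj⟩
  map_add' _ _ := rfl
  map_smul' _ _ := rfl
  invFun G := ⟨fun β => (G β).1, by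
    intro β j hj
    have := (G β).2
    rw [Polynomial.mem_degreeLT, Polynomial.degree_lt_iff_coeff_zero] at this
    exact this j hj⟩
  left_inv _ := rfl
  right_inv _ := rfl

/-- The coefficients. -/
private noncomputable def Dm_equiv2 (n : Box b → ℕ) :
    Dm_W b n ≃ₗ[ℂ] ((β : Box b) → (Fin (n β) → ℂ)) :=
  (Dm_equiv n).trans (LinearEquiv.piCongrRight fun β => Polynomial.degreeLTEquiv ℂ (n β))

private theorem Dm_finite (n : Box b → ℕ) : FiniteDimensional ℂ (Dm_W b n) :=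
  Module.Finite.equiv (Dm_equiv2 n).symm

private theorem Dm_finrank (n : Box b → ℕ) : Module.finrank ℂ (Dm_W b n) = ∑ β, n β := by
  rw [(Dm_equiv2 n).finrank_eq, Module.finrank_pi_fintype]
  simp

omit [DecidableEq τ] in
private theorem Dm_Ve (e : ℕ) : Ve b e = Dm_W b (fun β => e + 1 - dg β) := by
  ext F
  constructor
  · intro h β j hj
    have hj' : e + 1 - dg β ≤ j := hj
    exact h β j (by omega)
  · intro h β j hj
    exact h β j (show e + 1 - dg β ≤ j by omega)

omit [Fintype τ] [DecidableEq τ] in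
private theorem Dm_U (a : ℕ) : U b a = Dm_W b (fun _ => a) := rfl

instance (e : ℕ) : FiniteDimensional ℂ (Ve b e) := by
  rw [Dm_Ve]
  exact Dm_finite _

instance (a : ℕ) : FiniteDimensional ℂ (U b a) := by
  rw [Dm_U]
  exact Dm_finite _

instance (e : ℕ) (L : List (Pt τ)) : FiniteDimensional ℂ (Sol b e L) :=
  Submodule.finiteDimensional_of_le (inf_le_left : Sol b e L ≤ Ve b e)

theorem finrank_Ve (e : ℕ) : Module.finrank ℂ (Ve b e) = Lm b (e + 1) := by
  rw [Dm_Ve, Dm_finrank, Lm]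

theorem finrank_U (a : ℕ) : Module.finrank ℂ (U b a) = a * Pc b := by
  rw [Dm_U, Dm_finrank, Finset.sum_const, Finset.card_univ, smul_eq_mul, Pc, mul_comm]

theorem h0_le (e : ℕ) (L : List (Pt τ)) : h0 b e L ≤ Lm b (e + 1) := by
  rw [← finrank_Ve]
  exact Submodule.finrank_mono (inf_le_left : Sol b e L ≤ Ve b e)

/-- `h0 = 0` means that only `0` is a solution. -/
theorem h0_eq_zero (e : ℕ) (L : List (Pt τ)) : h0 b e L = 0 ↔ ∀ F ∈ Sol b e L, F = 0 := by
  rw [h0, Submodule.finrank_eq_zero, Submodule.eq_bot_iff]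

end Pool.Agent.H18.Tl

end

section

/-!
# Module Lin (TL): families depending polynomially on one parameter

`mem_of_poly`.  Let `k₀ < n`, `c k₀ ∉ D`.  There is a linear functional `ψ` with `ψ = 0` on `D`, `ψ (c k₀) ≠ 0`
(e.g. `Submodule.exists_dual_map_eq_bot_of_notMem` or `Submodule.exists_le_ker_of_notMem`).  The polynomial
`∑_{k<n} ψ (c k) X^k` vanishes at all `δ ∉ T`, infinitely many, so it is `0` (`Polynomial.eq_zero_of_infinite_isRoot`),
a contradiction.

`inj_of_inj`.  Choose a left inverse `g` of `M 0` (`LinearMap.exists_leftInverse_of_injective`).  In a basis of `E` the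
endomorphisms `g ∘ M k` are matrices `A k`, `A 0 = 1`; the polynomial `det (∑ X^k A k)` has the value `1` at `0`, so it has
only finitely many roots; outside of them `g ∘ ∑ δ^k M k` is injective.

`ker_le`.  Choose a complement `E'` of `ker (M 0)` (`Submodule.exists_isCompl`); `M 0` is injective on `E'`; by `inj_of_inj`
(for the restrictions to `E'`) for almost all `δ` the kernel of `M(δ)` meets `E'` in `0`, so its dimension is at most
`dim E - dim E' = dim ker (M 0)`.

`ker_lt`.  Let `E'' = ℂ v ⊕ E'` (`v ∈ ker (M 0)`).  The family `N(δ) : ℂ × E' → Q`, `N(δ)(c, w) = c ∑_{1 ≤ k < n} δ^(k-1) M k v +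
∑_{k<n} δ^k M k w`, is injective at `δ = 0`: if `c M 1 v + M 0 w = 0` then `c = 0` by `h1` (divide by `c`), so `w = 0`.  So for
almost all `δ ≠ 0` the map `M(δ)` is injective on `E''`, of dimension `dim E - dim ker (M 0) + 1`.
-/

namespace Pool.Agent.H18.Tl

open Finset

theorem mem_of_poly {N : Type*} [AddCommGroup N] [Module ℂ N] (D : Submodule ℂ N) (n : ℕ)
    (c : ℕ → N) (T : Set ℂ) (hT : T.Finite) (h : ∀ δ : ℂ, δ ∉ T → ∑ k ∈ range n, δ ^ k • c k ∈ D) :
    ∀ k < n, c k ∈ D := by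
  intro k₀ hk₀
  by_contra hc
  obtain ⟨ψ, hψ, hD⟩ := Submodule.exists_le_ker_of_notMem hc
  have hP : (∑ k ∈ range n, Polynomial.C (ψ (c k)) * Polynomial.X ^ k : Polynomial ℂ) = 0 := by
    apply Polynomial.eq_zero_of_infinite_isRoot
    refine Set.Infinite.mono ?_ hT.infinite_compl
    intro δ hδ
    have h1 := hD (h δ hδ)
    rw [LinearMap.mem_ker, map_sum] at h1
    change Polynomial.eval δ _ = 0
    rw [Polynomial.eval_finsetSum, ← h1]
    refine Finset.sum_congr rfl fun k _ => ?_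
    rw [Polynomial.eval_mul, Polynomial.eval_C, Polynomial.eval_pow, Polynomial.eval_X, map_smul,
      smul_eq_mul, mul_comm]
  have h2 : (∑ k ∈ range n, Polynomial.C (ψ (c k)) * Polynomial.X ^ k : Polynomial ℂ).coeff k₀ =
      ψ (c k₀) := by
    rw [Polynomial.finsetSum_coeff]
    simp only [Polynomial.coeff_C_mul, Polynomial.coeff_X_pow, mul_ite, mul_one, mul_zero]
    rw [Finset.sum_ite_eq, if_pos (Finset.mem_range.2 hk₀)]
  rw [hP, Polynomial.coeff_zero] at h2
  exact hψ h2.symm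

theorem inj_of_inj {E Q : Type*} [AddCommGroup E] [Module ℂ E] [FiniteDimensional ℂ E]
    [AddCommGroup Q] [Module ℂ Q] (M : ℕ → E →ₗ[ℂ] Q) (n : ℕ) (hn : 1 ≤ n)
    (hM : ∀ v, M 0 v = 0 → v = 0) :
    ∃ T : Set ℂ, T.Finite ∧ ∀ δ : ℂ, δ ∉ T → ∀ v : E, ∑ k ∈ range n, δ ^ k • M k v = 0 → v = 0 := by
  classical
  obtain ⟨g, hg⟩ := LinearMap.exists_leftInverse_of_injective (M 0)
    (LinearMap.ker_eq_bot'.2 hM)
  let b := Module.finBasis ℂ E
  let A : ℕ → Matrix (Fin (Module.finrank ℂ E)) (Fin (Module.finrank ℂ E)) ℂ :=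
    fun k => LinearMap.toMatrix b b (g ∘ₗ M k)
  let B : Matrix (Fin (Module.finrank ℂ E)) (Fin (Module.finrank ℂ E)) (Polynomial ℂ) :=
    ∑ k ∈ range n, (Polynomial.X ^ k : Polynomial ℂ) • (A k).map Polynomial.C
  have hB : ∀ δ : ℂ, B.det.eval δ = LinearMap.det (∑ k ∈ range n, δ ^ k • (g ∘ₗ M k)) := by
    intro δ
    rw [← LinearMap.det_toMatrix b, map_sum]
    have h1 : B.det.eval δ = (Polynomial.evalRingHom δ) B.det := rfl
    rw [h1, RingHom.map_det]
    congr 1
    ext i j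
    simp only [B, RingHom.mapMatrix_apply, Matrix.map_apply, Matrix.sum_apply, Matrix.smul_apply,
      smul_eq_mul, map_sum, Polynomial.coe_evalRingHom, map_smul]
    refine Finset.sum_congr rfl fun k _ => ?_
    rw [Polynomial.eval_mul, Polynomial.eval_pow, Polynomial.eval_X, Polynomial.eval_C]
  have h0 : B.det.eval 0 = 1 := by
    rw [hB 0]
    have h1 : ∑ k ∈ range n, (0 : ℂ) ^ k • (g ∘ₗ M k) = LinearMap.id := by
      rw [Finset.sum_eq_single_of_mem 0 (Finset.mem_range.2 hn)]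
      · rw [pow_zero, one_smul, hg]
      · intro k _ hk
        rw [zero_pow hk, zero_smul]
    rw [h1, LinearMap.det_id]
  have hne : B.det ≠ 0 := by
    intro hz
    rw [hz, Polynomial.eval_zero] at h0
    exact zero_ne_one h0
  refine ⟨{δ | B.det.IsRoot δ}, Polynomial.finite_setOfPred_isRoot hne, ?_⟩
  intro δ hδ v hv
  have hd : LinearMap.det (∑ k ∈ range n, δ ^ k • (g ∘ₗ M k)) ≠ 0 := by
    rw [← hB δ]
    exact hδ
  have hk : (∑ k ∈ range n, δ ^ k • (g ∘ₗ M k)) v = 0 := by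
    have h2 := congrArg g hv
    rw [map_zero, map_sum] at h2
    rw [LinearMap.sum_apply, ← h2]
    refine Finset.sum_congr rfl fun k _ => ?_
    rw [LinearMap.smul_apply, LinearMap.comp_apply, map_smul]
  have hki := (LinearMap.equivOfDetNeZero (∑ k ∈ range n, δ ^ k • (g ∘ₗ M k)) hd).injective
  apply hki
  rw [map_zero]
  exact hk

theorem ker_le {E Q : Type*} [AddCommGroup E] [Module ℂ E] [FiniteDimensional ℂ E]
    [AddCommGroup Q] [Module ℂ Q] (M : ℕ → E →ₗ[ℂ] Q) (n : ℕ) (hn : 1 ≤ n) :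
    ∃ T : Set ℂ, T.Finite ∧ ∀ δ : ℂ, δ ∉ T →
      Module.finrank ℂ (LinearMap.ker (∑ k ∈ range n, δ ^ k • M k)) ≤
        Module.finrank ℂ (LinearMap.ker (M 0)) := by
  obtain ⟨E', hE'⟩ := Submodule.exists_isCompl (LinearMap.ker (M 0))
  obtain ⟨T, hT, h⟩ := inj_of_inj (fun k => (M k).domRestrict E') n hn (by
    intro w hw
    have h1 : (w : E) ∈ LinearMap.ker (M 0) ⊓ E' := ⟨hw, w.2⟩
    rw [hE'.inf_eq_bot] at h1
    exact Subtype.ext ((Submodule.mem_bot ℂ).1 h1))
  refine ⟨T, hT, fun δ hδ => ?_⟩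
  have hd : Disjoint (LinearMap.ker (∑ k ∈ range n, δ ^ k • M k)) E' := by
    rw [Submodule.disjoint_def]
    intro x hx hx'
    have h2 := h δ hδ ⟨x, hx'⟩ (by
      rw [LinearMap.mem_ker, LinearMap.sum_apply] at hx
      exact hx)
    exact congrArg Subtype.val h2
  have h3 := Submodule.finrank_add_finrank_le_of_disjoint hd
  have h4 := Submodule.finrank_add_eq_of_isCompl hE'
  omega

theorem ker_lt {E Q : Type*} [AddCommGroup E] [Module ℂ E] [FiniteDimensional ℂ E]
    [AddCommGroup Q] [Module ℂ Q] (M : ℕ → E →ₗ[ℂ] Q) (n : ℕ) (hn : 2 ≤ n) (v : E)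
    (hv : M 0 v = 0) (h1 : ∀ w, M 0 w + M 1 v ≠ 0) :
    ∃ T : Set ℂ, T.Finite ∧ ∀ δ : ℂ, δ ∉ T →
      Module.finrank ℂ (LinearMap.ker (∑ k ∈ range n, δ ^ k • M k)) + 1 ≤
        Module.finrank ℂ (LinearMap.ker (M 0)) := by
  obtain ⟨E', hE'⟩ := Submodule.exists_isCompl (LinearMap.ker (M 0))
  let u : ℕ → Q := fun k => if k + 1 < n then M (k + 1) v else 0
  let N : ℕ → (ℂ × E') →ₗ[ℂ] Q := fun k =>
    (LinearMap.fst ℂ ℂ E').smulRight (u k) + (M k).domRestrict E' ∘ₗ LinearMap.snd ℂ ℂ E'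
  have hN : ∀ k c w, N k (c, w) = c • u k + M k (w : E) := fun k c w => rfl
  obtain ⟨T, hT, h⟩ := inj_of_inj N n (by omega) (by
    rintro ⟨c, w⟩ hw
    rw [hN] at hw
    have hu : u 0 = M 1 v := if_pos (by omega)
    rw [hu] at hw
    have hc : c = 0 := by
      by_contra hc
      apply h1 (c⁻¹ • (w : E))
      rw [map_smul]
      have h2 := congrArg (fun x => c⁻¹ • x) hw
      simp only [smul_add, smul_zero, inv_smul_smul₀ hc] at h2
      rw [add_comm]
      exact h2
    subst hc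
    rw [zero_smul, zero_add] at hw
    have h3 : (w : E) ∈ LinearMap.ker (M 0) ⊓ E' := ⟨hw, w.2⟩
    rw [hE'.inf_eq_bot] at h3
    have h4 : w = 0 := Subtype.ext ((Submodule.mem_bot ℂ).1 h3)
    rw [h4]
    rfl)
  refine ⟨insert 0 T, hT.insert 0, fun δ hδ => ?_⟩
  have hδ0 : δ ≠ 0 := fun h0 => hδ (Set.mem_insert_iff.2 (Or.inl h0))
  have hδT : δ ∉ T := fun h0 => hδ (Set.mem_insert_of_mem 0 h0)
  let J : (ℂ × E') →ₗ[ℂ] E :=
    (LinearMap.fst ℂ ℂ E').smulRight (δ⁻¹ • v) + E'.subtype ∘ₗ LinearMap.snd ℂ ℂ E'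
  have hJ : ∀ c w, J (c, w) = c • δ⁻¹ • v + (w : E) := fun c w => rfl
  have hMJ : ∀ x, (∑ k ∈ range n, δ ^ k • M k) (J x) = ∑ k ∈ range n, δ ^ k • N k x := by
    rintro ⟨c, w⟩
    rw [hJ, LinearMap.sum_apply]
    simp only [LinearMap.smul_apply, map_add, map_smul, smul_add, hN, Finset.sum_add_distrib]
    congr 1
    obtain ⟨m, rfl⟩ : ∃ m, n = m + 1 := ⟨n - 1, by omega⟩
    rw [Finset.sum_range_succ', Finset.sum_range_succ, hv]
    have hum : u m = 0 := if_neg (by omega)
    rw [hum, smul_zero, smul_zero, smul_zero, smul_zero, add_zero, add_zero]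
    refine Finset.sum_congr rfl fun k hk => ?_
    have huk : u k = M (k + 1) v := if_pos (by have := Finset.mem_range.1 hk; omega)
    rw [huk, smul_smul, smul_smul, smul_smul]
    congr 1
    rw [pow_succ]
    field_simp
  have hinj : ∀ x, (∑ k ∈ range n, δ ^ k • M k) (J x) = 0 → x = 0 := fun x hx =>
    h δ hδT x (by rw [← hMJ]; exact hx)
  have hJi : Function.Injective J := by
    rw [← LinearMap.ker_eq_bot, LinearMap.ker_eq_bot']
    intro x hx
    exact hinj x (by rw [hx, map_zero])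
  have hd : Disjoint (LinearMap.ker (∑ k ∈ range n, δ ^ k • M k)) (LinearMap.range J) := by
    rw [Submodule.disjoint_def]
    rintro _ hx ⟨x, rfl⟩
    rw [hinj x hx, map_zero]
  have h3 := Submodule.finrank_add_finrank_le_of_disjoint hd
  have h4 := Submodule.finrank_add_eq_of_isCompl hE'
  have h5 : Module.finrank ℂ (LinearMap.range J) = 1 + Module.finrank ℂ E' := by
    rw [LinearMap.finrank_range_of_inj hJi, Module.finrank_prod, Module.finrank_self]
  omega

end Pool.Agent.H18.Tl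

end

section

/-!
# Module LinD (TL): first order solutions of a family of linear systems

Proof.  Let `g'` be a left inverse of `M 0` (`LinearMap.exists_leftInverse_of_injective`), `A k = g' ∘ M k : E → E`, so
`A 0 = 1`, and `A(δ) = ∑_{k<n} δ^k A k`.  With a basis of `E` let `𝔸` be the matrix over `ℂ[X]` of `∑ X^k A k`, `Δ = det 𝔸`,
`Δ(0) = 1`, `adj 𝔸` the adjugate, so `adj 𝔸 * 𝔸 = Δ`, `adj 𝔸 (0) = 1`.  For `δ ∉ T` let `v` be as in `h`: then
`Δ(δ) v = adj 𝔸(δ) A(δ) v = adj 𝔸(δ) g' (g(δ))`.  So the polynomial family `p(δ) = ℓ (adj 𝔸(δ) g' (g(δ))) + Δ(δ) c` has values in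
`D` for `δ ∉ T`; by `mem_of_poly` its coefficients `p_0`, `p_1` are in `D`.  Let `u(δ) = adj 𝔸(δ) g' (g(δ)) = u_0 + δ u_1 + …`.
From `𝔸 u = Δ g' g`: `u_0 = g' g_0 = v₀` and `u_1 + A_1 u_0 = g' g_1 + Δ_1 g' g_0`, and `v₁ + A_1 v₀ = g' g_1`, so
`u_1 = v₁ + Δ_1 v₀`.  So `p_0 = ℓ v₀ + c` and `p_1 = ℓ v₁ + Δ_1 (ℓ v₀ + c)`.

(Alternative without matrices: it is enough to show `ψ (ℓ v₀ + c) = 0` and `ψ (ℓ v₁) = 0` for all functionals `ψ` that
vanish on `D`; Cramer's rule is only used to have a polynomial `u(δ)` and a polynomial `Δ(δ)`, `Δ(0) ≠ 0`, with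
`M(δ) (u(δ)) = Δ(δ) g(δ)`.)
-/

namespace Pool.Agent.H18.Tl

open Finset

/-- A polynomial family `∑ i, u i (δ) • a i + Δ(δ) • c` with values in `D` off a finite set has coefficients in `D`. -/
private theorem LinD_coeff_mem {N : Type*} [AddCommGroup N] [Module ℂ N] (D : Submodule ℂ N)
    {ι : Type*} [Fintype ι] (u : ι → Polynomial ℂ) (a : ι → N) (Δ : Polynomial ℂ) (c : N)
    (T : Set ℂ) (hT : T.Finite)
    (h : ∀ δ : ℂ, δ ∉ T → ∑ i, (u i).eval δ • a i + Δ.eval δ • c ∈ D) (k : ℕ) :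
    ∑ i, (u i).coeff k • a i + Δ.coeff k • c ∈ D := by
  classical
  set B : ℕ := (∑ i, (u i).natDegree) + Δ.natDegree + k + 1 with hB
  have hu : ∀ i, (u i).natDegree < B := by
    intro i
    have h0 : (u i).natDegree ≤ ∑ i, (u i).natDegree :=
      Finset.single_le_sum (f := fun i => (u i).natDegree) (fun j _ => Nat.zero_le _)
        (Finset.mem_univ i)
    omega
  have hΔ : Δ.natDegree < B := by omega
  refine mem_of_poly D B (fun k => ∑ i, (u i).coeff k • a i + Δ.coeff k • c) T hT ?_ k (by omega)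
  intro δ hδ
  have h1 := h δ hδ
  have h2 : ∑ k ∈ range B, δ ^ k • (∑ i, (u i).coeff k • a i + Δ.coeff k • c) =
      ∑ i, (u i).eval δ • a i + Δ.eval δ • c := by
    simp_rw [smul_add, Finset.smul_sum, Finset.sum_add_distrib, smul_smul]
    rw [Finset.sum_comm]
    refine congrArg₂ _ ?_ ?_
    · refine Finset.sum_congr rfl fun i _ => ?_
      rw [← Finset.sum_smul, Polynomial.eval_eq_sum_range' (hu i)]
      simp_rw [mul_comm]
    · rw [← Finset.sum_smul, Polynomial.eval_eq_sum_range' hΔ]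
      simp_rw [mul_comm]
  rw [h2]
  exact h1

theorem diff_lemma {E Q N : Type*} [AddCommGroup E] [Module ℂ E] [FiniteDimensional ℂ E]
    [AddCommGroup Q] [Module ℂ Q] [AddCommGroup N] [Module ℂ N] (M : ℕ → E →ₗ[ℂ] Q) (g : ℕ → Q)
    (n : ℕ) (hn : 2 ≤ n) (hM : ∀ v, M 0 v = 0 → v = 0) (ℓ : E →ₗ[ℂ] N) (c : N)
    (D : Submodule ℂ N) (T : Set ℂ) (hT : T.Finite)
    (h : ∀ δ : ℂ, δ ∉ T → ∃ v : E,
      ∑ k ∈ range n, δ ^ k • M k v = ∑ k ∈ range n, δ ^ k • g k ∧ ℓ v + c ∈ D)
    (v₀ v₁ : E) (h₀ : M 0 v₀ = g 0) (h₁ : M 0 v₁ + M 1 v₀ = g 1) :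
    ℓ v₀ + c ∈ D ∧ ℓ v₁ ∈ D := by
  classical
  obtain ⟨g', hg'⟩ := LinearMap.exists_leftInverse_of_injective (M 0)
    (LinearMap.ker_eq_bot'.2 hM)
  have hg0 : ∀ v, g' (M 0 v) = v := fun v => by
    have := LinearMap.congr_fun hg' v
    simpa using this
  let b := Module.finBasis ℂ E
  let A : ℕ → Matrix (Fin (Module.finrank ℂ E)) (Fin (Module.finrank ℂ E)) ℂ :=
    fun k => LinearMap.toMatrix b b (g' ∘ₗ M k)
  let P : Matrix (Fin (Module.finrank ℂ E)) (Fin (Module.finrank ℂ E)) (Polynomial ℂ) :=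
    Matrix.of fun i j => ∑ k ∈ range n, Polynomial.monomial k (A k i j)
  let G : Fin (Module.finrank ℂ E) → Polynomial ℂ :=
    fun i => ∑ k ∈ range n, Polynomial.monomial k (b.repr (g' (g k)) i)
  let u : Fin (Module.finrank ℂ E) → Polynomial ℂ := P.adjugate.mulVec G
  have hPu : P.mulVec u = P.det • G := by
    simp only [u, Matrix.mulVec_mulVec, Matrix.mul_adjugate, Matrix.smul_mulVec, Matrix.one_mulVec]
  -- coefficients
  have hPc : ∀ i j k, k < n → (P i j).coeff k = A k i j := by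
    intro i j k hk
    simp only [P, Matrix.of_apply, Polynomial.finsetSum_coeff, Polynomial.coeff_monomial]
    rw [Finset.sum_ite_eq' (range n) k (fun k => A k i j), if_pos (mem_range.2 hk)]
  have hGc : ∀ i k, k < n → (G i).coeff k = b.repr (g' (g k)) i := by
    intro i k hk
    simp only [G, Polynomial.finsetSum_coeff, Polynomial.coeff_monomial]
    rw [Finset.sum_ite_eq' (range n) k (fun k => b.repr (g' (g k)) i), if_pos (mem_range.2 hk)]
  have hA0 : A 0 = 1 := by
    simp only [A, hg', LinearMap.toMatrix_id]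
  have hAv : ∀ k v i, ∑ j, A k i j * b.repr v j = b.repr (g' (M k v)) i := by
    intro k v i
    have := congrFun (LinearMap.toMatrix_mulVec_repr b b (g' ∘ₗ M k) v) i
    simpa [Matrix.mulVec, dotProduct] using this
  have hΔ0 : P.det.coeff 0 = 1 := by
    rw [Polynomial.coeff_zero_eq_eval_zero, ← Polynomial.coe_evalRingHom, RingHom.map_det]
    have : (Polynomial.evalRingHom (0 : ℂ)).mapMatrix P = 1 := by
      ext i j
      rw [RingHom.mapMatrix_apply, Matrix.map_apply, Polynomial.coe_evalRingHom,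
        ← Polynomial.coeff_zero_eq_eval_zero, hPc i j 0 (by omega), hA0]
    rw [this, Matrix.det_one]
  have hu0 : ∀ i, (u i).coeff 0 = b.repr v₀ i := by
    intro i
    have h2 := congrArg (fun q : Polynomial ℂ => q.coeff 0) (congrFun hPu i)
    simp only [Matrix.mulVec, dotProduct, Polynomial.finsetSum_coeff, Polynomial.mul_coeff_zero,
      Pi.smul_apply, smul_eq_mul] at h2
    rw [hΔ0, one_mul, hGc i 0 (by omega), ← h₀, hg0] at h2
    rw [← h2]
    simp_rw [hPc i _ 0 (by omega), hA0, Matrix.one_apply]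
    simp
  have hu1 : ∀ i, (u i).coeff 1 = b.repr v₁ i + P.det.coeff 1 * b.repr v₀ i := by
    intro i
    have h2 := congrArg (fun q : Polynomial ℂ => q.coeff 1) (congrFun hPu i)
    simp only [Matrix.mulVec, dotProduct, Polynomial.finsetSum_coeff, Polynomial.mul_coeff_one,
      Pi.smul_apply, smul_eq_mul] at h2
    rw [hΔ0, one_mul, hGc i 0 (by omega), hGc i 1 (by omega), ← h₀, hg0, ← h₁, map_add, hg0,
      map_add, Finsupp.add_apply, Finset.sum_add_distrib] at h2
    have h3 : ∑ j, (P i j).coeff 0 * (u j).coeff 1 = (u i).coeff 1 := by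
      simp_rw [hPc i _ 0 (by omega), hA0, Matrix.one_apply]
      simp
    have h4 : ∑ j, (P i j).coeff 1 * (u j).coeff 0 = b.repr (g' (M 1 v₀)) i := by
      simp_rw [hPc i _ 1 (by omega), hu0]
      exact hAv 1 v₀ i
    linear_combination h2 - h3 - h4
  -- values
  have hval : ∀ δ : ℂ, δ ∉ T →
      ∑ i, (u i).eval δ • ℓ (b i) + P.det.eval δ • c ∈ D := by
    intro δ hδ
    obtain ⟨v, hv1, hv2⟩ := h δ hδ
    have e1 : ∀ i, ∑ j, (P i j).eval δ * b.repr v j = (G i).eval δ := by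
      intro i
      have e2 := congrArg (fun w => b.repr (g' w) i) hv1
      simp only [map_sum, map_smul, Finsupp.coe_finsetSum, Finset.sum_apply, Finsupp.coe_smul,
        Pi.smul_apply, smul_eq_mul] at e2
      have e3 : (G i).eval δ = ∑ k ∈ range n, δ ^ k * b.repr (g' (g k)) i := by
        simp only [G, Polynomial.eval_finsetSum, Polynomial.eval_monomial]
        exact Finset.sum_congr rfl fun k _ => mul_comm _ _
      rw [e3, ← e2]
      simp only [P, Matrix.of_apply, Polynomial.eval_finsetSum, Polynomial.eval_monomial,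
        Finset.sum_mul]
      rw [Finset.sum_comm]
      refine Finset.sum_congr rfl fun k _ => ?_
      rw [← hAv k v i, Finset.mul_sum]
      exact Finset.sum_congr rfl fun j _ => by ring
    have e4 : ((Polynomial.evalRingHom δ).mapMatrix P).mulVec (fun j => b.repr v j) =
        fun i => (G i).eval δ := by
      funext i
      simpa [Matrix.mulVec, dotProduct] using e1 i
    have e5 : ((Polynomial.evalRingHom δ).mapMatrix P).det = P.det.eval δ := by
      rw [← RingHom.map_det, Polynomial.coe_evalRingHom]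
    have e6 : ∀ i, (u i).eval δ = P.det.eval δ * b.repr v i := by
      intro i
      have e7 := congrArg (fun w => ((Polynomial.evalRingHom δ).mapMatrix P).adjugate.mulVec w i) e4
      simp only [Matrix.mulVec_mulVec, Matrix.adjugate_mul, Matrix.smul_mulVec, Matrix.one_mulVec,
        Pi.smul_apply, smul_eq_mul, e5] at e7
      rw [e7]
      simp only [u, Matrix.mulVec, dotProduct, Polynomial.eval_finsetSum, Polynomial.eval_mul]
      refine Finset.sum_congr rfl fun j _ => ?_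
      rw [← RingHom.map_adjugate, RingHom.mapMatrix_apply, Matrix.map_apply,
        Polynomial.coe_evalRingHom]
    have e8 : ∑ i, (u i).eval δ • ℓ (b i) = P.det.eval δ • ℓ v := by
      conv_rhs => rw [← b.sum_repr v, map_sum]
      rw [Finset.smul_sum]
      refine Finset.sum_congr rfl fun i _ => ?_
      rw [e6 i, map_smul, smul_smul]
    rw [e8, ← smul_add]
    exact D.smul_mem _ hv2
  have hk := LinD_coeff_mem D u (fun i => ℓ (b i)) P.det c T hT hval
  have hsum : ∀ v : E, ∑ i, b.repr v i • ℓ (b i) = ℓ v := by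
    intro v
    conv_rhs => rw [← b.sum_repr v, map_sum]
    simp_rw [map_smul]
  have k0 : ℓ v₀ + c ∈ D := by
    have := hk 0
    simp_rw [hu0, hΔ0, one_smul] at this
    rwa [hsum] at this
  refine ⟨k0, ?_⟩
  have k1 := hk 1
  simp_rw [hu1, add_smul, Finset.sum_add_distrib, mul_smul] at k1
  rw [hsum, ← Finset.smul_sum, hsum, add_assoc, ← smul_add] at k1
  exact (Submodule.add_mem_iff_left D (D.smul_mem _ k0)).1 k1

end Pool.Agent.H18.Tl

end

section

/-!
# Module Tz (TL): translations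

`tz_add`: the entry `(γ, β)` of the product is `∏_l` of the sums over `κ_l` (`Finset.prod_univ_sum`,
`Fintype.piFinset_univ`), and `∑_κ binom(κ,γ) z^(κ-γ) binom(β,κ) w^(β-κ) = binom(β,γ) (z+w)^(β-γ)` (coefficient of `Y^γ` in
`((Y + z) + w)^β`, or `Nat.choose_mul`).  `tz_eq_zero`: a factor `binom(β_l, γ_l)` vanishes.
`van_tz`: `act (tz b p.z) (act (tz b c) F) = act (tz b (p.z + c)) F`.
`tz_mem_Ve`: `tz b z γ β = 0` unless `γ ≤ β`, so `dg γ ≤ dg β`.
-/

namespace Pool.Agent.H18.Tl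

open Finset Polynomial

variable {τ : Type} [Fintype τ] [DecidableEq τ] {b : τ → ℕ}

theorem act_mul (A B : Mt b) (F : V b) : act (A * B) F = act A (act B F) := by
  unfold act
  rw [Matrix.map_mul, Matrix.mulVecLin_mul, LinearMap.comp_apply]

theorem act_one (F : V b) : act (1 : Mt b) F = F := by
  unfold act
  rw [Matrix.map_one _ (map_zero C) (map_one C), Matrix.mulVecLin_one, LinearMap.id_apply]

theorem coeff_act (A : Mt b) (F : V b) (γ : Box b) (j : ℕ) :
    (act A F γ).coeff j = ∑ β, A γ β * (F β).coeff j := by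
  rw [act_apply, finsetSum_coeff]
  exact Finset.sum_congr rfl fun β _ => by rw [coeff_C_mul]

theorem tz_eq_zero (z : τ → ℂ) (γ β : Box b) (h : ¬ ∀ l, (γ l : ℕ) ≤ β l) : tz b z γ β = 0 := by
  push Not at h
  obtain ⟨l, hl⟩ := h
  unfold tz
  refine Finset.prod_eq_zero (Finset.mem_univ l) ?_
  rw [Nat.choose_eq_zero_of_lt hl, Nat.cast_zero, zero_mul]

theorem tz_zero : tz b 0 = 1 := by
  ext γ β
  by_cases h : γ = β
  · subst h
    rw [Matrix.one_apply_eq]
    unfold tz
    refine Finset.prod_eq_one fun l _ => ?_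
    rw [Nat.choose_self, Nat.sub_self, pow_zero, Nat.cast_one, mul_one]
  · rw [Matrix.one_apply_ne h]
    by_cases h2 : ∀ l, (γ l : ℕ) ≤ β l
    · obtain ⟨l, hl⟩ : ∃ l, γ l ≠ β l := by
        by_contra hcon
        push Not at hcon
        exact h (funext hcon)
      unfold tz
      refine Finset.prod_eq_zero (Finset.mem_univ l) ?_
      have h3 : (β l : ℕ) - (γ l : ℕ) ≠ 0 := by
        have h4 := h2 l
        have h5 : (γ l : ℕ) ≠ β l := fun e => hl (Fin.ext e)
        omega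
      rw [Pi.zero_apply, zero_pow h3, mul_zero]
    · exact tz_eq_zero 0 γ β h2

private theorem Tz_one (n g m : ℕ) (hg : g ≤ n) (hm : m ≤ n) (z w : ℂ) :
    ∑ k : Fin (n + 1), ((((k : ℕ).choose g : ℕ) : ℂ) * z ^ ((k : ℕ) - g)) * (((m.choose (k : ℕ) : ℕ) : ℂ) * w ^ (m - (k : ℕ))) =
      ((m.choose g : ℕ) : ℂ) * (z + w) ^ (m - g) := by
  obtain ⟨f, hf⟩ : ∃ f : ℕ → ℂ, f = fun k => (((k.choose g : ℕ) : ℂ) * z ^ (k - g)) * (((m.choose k : ℕ) : ℂ) * w ^ (m - k)) := ⟨_, rfl⟩
  have h1 : ∑ k : Fin (n + 1), ((((k : ℕ).choose g : ℕ) : ℂ) * z ^ ((k : ℕ) - g)) *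
      (((m.choose (k : ℕ) : ℕ) : ℂ) * w ^ (m - (k : ℕ))) = ∑ k ∈ Finset.range (n + 1), f k := by
    rw [Finset.sum_range, hf]
  rw [h1]
  rcases lt_or_ge m g with hmg | hmg
  · rw [Nat.choose_eq_zero_of_lt hmg, Nat.cast_zero, zero_mul]
    refine Finset.sum_eq_zero fun k _ => ?_
    rw [hf]
    rcases lt_or_ge k g with h | h
    · simp only [Nat.choose_eq_zero_of_lt h, Nat.cast_zero, zero_mul]
    · simp only [Nat.choose_eq_zero_of_lt (show m < k by omega), Nat.cast_zero, zero_mul, mul_zero]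
  · have h2 : n + 1 = g + (m - g + 1) + (n - m) := by omega
    rw [h2, Finset.sum_range_add, Finset.sum_range_add]
    have h3 : ∑ k ∈ Finset.range g, f k = 0 := by
      refine Finset.sum_eq_zero fun k hk => ?_
      rw [hf]
      simp only [Nat.choose_eq_zero_of_lt (Finset.mem_range.1 hk), Nat.cast_zero, zero_mul]
    have h4 : ∑ k ∈ Finset.range (n - m), f (g + (m - g + 1) + k) = 0 := by
      refine Finset.sum_eq_zero fun k hk => ?_
      rw [hf]
      simp only [Nat.choose_eq_zero_of_lt (show m < g + (m - g + 1) + k by omega), Nat.cast_zero, zero_mul, mul_zero]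
    rw [h3, h4, zero_add, add_zero, add_pow, Finset.mul_sum]
    refine Finset.sum_congr rfl fun i hi => ?_
    rw [hf]
    simp only
    have hi' : i ≤ m - g := Nat.lt_succ_iff.1 (Finset.mem_range.1 hi)
    have h5 := Nat.choose_mul (n := m) (k := g + i) (s := g) (by omega)
    have h6 : g + i - g = i := by omega
    have h7 : m - (g + i) = m - g - i := by omega
    rw [h6] at h5
    rw [h6, h7]
    have h8 : ((m.choose (g + i) : ℕ) : ℂ) * (((g + i).choose g : ℕ) : ℂ) = ((m.choose g : ℕ) : ℂ) * (((m - g).choose i : ℕ) : ℂ) := by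
      exact_mod_cast h5
    calc (((g + i).choose g : ℕ) : ℂ) * z ^ i * (((m.choose (g + i) : ℕ) : ℂ) * w ^ (m - g - i)) =
        (((m.choose (g + i) : ℕ) : ℂ) * (((g + i).choose g : ℕ) : ℂ)) * (z ^ i * w ^ (m - g - i)) := by ring
      _ = _ := by rw [h8]; ring

theorem tz_add (z w : τ → ℂ) : tz b (z + w) = tz b z * tz b w := by
  ext γ β
  rw [Matrix.mul_apply]
  unfold tz
  simp only [← Finset.prod_mul_distrib]
  rw [← Fintype.piFinset_univ (α := τ) (β := fun l => Fin (b l + 1)), ← Finset.prod_univ_sum (fun l => (Finset.univ : Finset (Fin (b l + 1))))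
    (fun l (k : Fin (b l + 1)) => ((((k : ℕ).choose (γ l : ℕ) : ℕ) : ℂ) * z l ^ ((k : ℕ) - (γ l : ℕ))) *
      ((((β l : ℕ).choose (k : ℕ) : ℕ) : ℂ) * w l ^ ((β l : ℕ) - (k : ℕ))))]
  refine Finset.prod_congr rfl fun l _ => ?_
  rw [Tz_one (b l) (γ l) (β l) (Nat.lt_succ_iff.1 (γ l).2) (Nat.lt_succ_iff.1 (β l).2), Pi.add_apply]

theorem tz_neg_mul (z : τ → ℂ) : tz b (-z) * tz b z = 1 := by
  rw [← tz_add, neg_add_cancel, tz_zero]

theorem tz_mul_neg (z : τ → ℂ) : tz b z * tz b (-z) = 1 := by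
  rw [← tz_add, add_neg_cancel, tz_zero]

theorem van_tz (c : τ → ℂ) (p : Pt τ) (F : V b) :
    act (tz b c) F ∈ van b p ↔ F ∈ van b ⟨p.m, p.x, p.z + c⟩ := by
  rw [mem_van, mem_van]
  simp only [← act_mul, ← tz_add]

theorem act_mem_U (A : Mt b) (a : ℕ) (F : V b) (hF : F ∈ U b a) : act A F ∈ U b a := by
  rw [mem_U] at hF ⊢
  intro β j h
  rw [coeff_act]
  exact Finset.sum_eq_zero fun γ _ => by rw [hF γ j h, mul_zero]

theorem tz_mem_Ve (z : τ → ℂ) (e : ℕ) (F : V b) (hF : F ∈ Ve b e) : act (tz b z) F ∈ Ve b e := by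
  rw [mem_Ve] at hF ⊢
  intro γ j h
  rw [coeff_act]
  refine Finset.sum_eq_zero fun β _ => ?_
  by_cases h2 : ∀ l, (γ l : ℕ) ≤ β l
  · have h3 : dg γ ≤ dg β := Finset.sum_le_sum fun l _ => h2 l
    rw [hF β j (by omega), mul_zero]
  · rw [tz_eq_zero z γ β h2, zero_mul]

end Pool.Agent.H18.Tl

end

section

/-!
# Module Rv (TL): the reversal

Let `z_l ≠ 0` for all `l`, `z' = 1/z`.  Claim: `tz b z' * rv b = N * tz b z` with a matrix `N` such that `N γ κ = 0` unless
`κ ≤ γ`: `N γ κ = ∏_l (-1)^(κ_l) z_l^(κ_l + γ_l - b_l) binom(b_l - κ_l, γ_l - κ_l)` for `κ ≤ γ` (use `z_l^(κ_l + γ_l) / z_l^(b_l)`).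
In one variable the entry `(γ, β)` of the right side is `z^(γ+β-b) ∑_κ (-1)^κ binom(b-κ, γ-κ) binom(β, κ)` and of the
left side it is `binom(b-β, γ) z^(γ+β-b)`; and `∑_{κ ≤ γ} (-1)^κ binom(b-κ, γ-κ) binom(β, κ) = binom(b-β, γ)` for `β ≤ b`: it is the
coefficient of `η^γ` in `∑_κ binom(β,κ) (-η)^κ (1+η)^(b-κ) = (1+η)^(b-β) ((1+η)-η)^β = (1+η)^(b-β)`.  In several variables take
the product over `l` (`Finset.prod_univ_sum`).

`van_rv`: `act (tz b z') (act (rv b) F) γ = ∑_{κ ≤ γ} N γ κ • act (tz b z) F κ`, and `(X - C x)^(m - dg κ)` is divisible by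
`(X - C x)^(m - dg γ)` if `κ ≤ γ`.
-/

namespace Pool.Agent.H18.Tl

open Finset Polynomial

variable {τ : Type} [Fintype τ] [DecidableEq τ] {b : τ → ℕ}

theorem rb_rb (β : Box b) : rb (rb β) = β := by
  funext l
  simp only [rb, Fin.rev_rev]

private theorem Rv_dg (β : Box b) : dg (rb β) + dg β = Bs b := by
  unfold dg Bs
  rw [← Finset.sum_add_distrib]
  refine Finset.sum_congr rfl fun l _ => ?_
  have h : ((rb β l : Fin (b l + 1)) : ℕ) = b l + 1 - ((β l : ℕ) + 1) := by
    simp only [rb, Fin.val_rev]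
  have h2 := (β l).isLt
  omega

theorem dg_rb (β : Box b) : dg (rb β) + dg β = Bs b := Rv_dg β

private theorem Rv_eq (γ β : Box b) : γ = rb β ↔ β = rb γ := by
  constructor
  · intro h
    rw [h, rb_rb]
  · intro h
    rw [h, rb_rb]

theorem rv_mul_rv : rv b * rv b = 1 := by
  ext γ β
  rw [Matrix.mul_apply, Finset.sum_eq_single (rb β)]
  · simp only [rv, rb_rb, if_true, mul_one, Matrix.one_apply]
  · intro κ _ hκ
    simp only [rv, if_neg hκ, mul_zero]
  · intro h
    exact absurd (Finset.mem_univ _) h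

theorem rv_mulVec (w : Box b → ℂ) (γ : Box b) : (rv b).mulVec w γ = w (rb γ) := by
  rw [Matrix.mulVec, dotProduct, Finset.sum_eq_single (rb γ)]
  · simp only [rv, rb_rb, if_true, one_mul]
  · intro κ _ hκ
    have h : ¬ γ = rb κ := fun h => hκ ((Rv_eq γ κ).1 h)
    simp only [rv, if_neg h, zero_mul]
  · intro h
    exact absurd (Finset.mem_univ _) h

/-- The binomial identity. -/
private theorem Rv_binom (B β g : ℕ) (hβ : β ≤ B) :
    (((B - β).choose g : ℕ) : ℂ) = ∑ k ∈ range (β + 1),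
      (if k ≤ g then ((-1) ^ k * (((B - k).choose (g - k) : ℕ) : ℂ)) else 0) *
        ((β.choose k : ℕ) : ℂ) := by
  have h1 : ((1 + X : ℂ[X])) ^ (B - β) = ∑ k ∈ range (β + 1),
      C ((-1) ^ k * ((β.choose k : ℕ) : ℂ)) * (X ^ k * (1 + X) ^ (B - k)) := by
    have h2 : ((-X + (1 + X)) : ℂ[X]) ^ β = 1 := by
      have : (-X + (1 + X) : ℂ[X]) = 1 := by ring
      rw [this, one_pow]
    rw [add_pow] at h2
    have h5 : (1 + X : ℂ[X]) ^ (B - β) = (∑ m ∈ range (β + 1),
        (-X) ^ m * (1 + X) ^ (β - m) * ((β.choose m : ℕ) : ℂ[X])) * (1 + X) ^ (B - β) := by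
      rw [h2, one_mul]
    rw [h5, Finset.sum_mul]
    refine Finset.sum_congr rfl fun k hk => ?_
    have hk' : k ≤ β := Nat.lt_succ_iff.1 (Finset.mem_range.1 hk)
    have h3 : (1 + X : ℂ[X]) ^ (B - k) = (1 + X) ^ (β - k) * (1 + X) ^ (B - β) := by
      rw [← pow_add]
      congr 1
      omega
    rw [h3, neg_pow, C_mul, C_pow, C_neg, C_1, C_eq_natCast]
    ring
  have h4 := congrArg (fun p : ℂ[X] => p.coeff g) h1
  rw [coeff_one_add_X_pow, finsetSum_coeff] at h4
  rw [h4]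
  refine Finset.sum_congr rfl fun k _ => ?_
  rw [coeff_C_mul, coeff_X_pow_mul', coeff_one_add_X_pow]
  split_ifs <;> ring

/-- One factor of the matrix `N`. -/
private noncomputable def Rv_n (z : ℂ) (B g k : ℕ) : ℂ :=
  if k ≤ g then (-1) ^ k * (((B - k).choose (g - k) : ℕ) : ℂ) * z ^ (k + g) * (z ^ B)⁻¹ else 0

private theorem Rv_one (z : ℂ) (hz : z ≠ 0) (B β g : ℕ) (hβ : β ≤ B) :
    (((B - β).choose g : ℕ) : ℂ) * z⁻¹ ^ (B - β - g) =
      ∑ k : Fin (B + 1), Rv_n z B g (k : ℕ) * (((β.choose (k : ℕ) : ℕ) : ℂ) * z ^ (β - (k : ℕ))) := by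
  have h1 : ∑ k : Fin (B + 1),
      Rv_n z B g (k : ℕ) * (((β.choose (k : ℕ) : ℕ) : ℂ) * z ^ (β - (k : ℕ))) =
      ∑ k ∈ range (B + 1), Rv_n z B g k * (((β.choose k : ℕ) : ℂ) * z ^ (β - k)) :=
    Fin.sum_univ_eq_sum_range
      (fun k => Rv_n z B g k * (((β.choose k : ℕ) : ℂ) * z ^ (β - k))) (B + 1)
  have h2 : ∑ k ∈ range (B + 1), Rv_n z B g k * (((β.choose k : ℕ) : ℂ) * z ^ (β - k)) =
      ∑ k ∈ range (β + 1), Rv_n z B g k * (((β.choose k : ℕ) : ℂ) * z ^ (β - k)) := by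
    symm
    refine Finset.sum_subset (Finset.range_mono (by omega)) fun k _ hk => ?_
    have hk' : β < k := by
      rw [Finset.mem_range] at hk
      omega
    rw [Nat.choose_eq_zero_of_lt hk', Nat.cast_zero, zero_mul, mul_zero]
  have h3 : ∀ k ∈ range (β + 1), Rv_n z B g k * (((β.choose k : ℕ) : ℂ) * z ^ (β - k)) =
      (z ^ (β + g) * (z ^ B)⁻¹) *
        ((if k ≤ g then ((-1) ^ k * (((B - k).choose (g - k) : ℕ) : ℂ)) else 0) *
          ((β.choose k : ℕ) : ℂ)) := by
    intro k hk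
    have hk' : k ≤ β := Nat.lt_succ_iff.1 (Finset.mem_range.1 hk)
    unfold Rv_n
    split_ifs
    · have h4 : z ^ (β + g) = z ^ (k + g) * z ^ (β - k) := by
        rw [← pow_add]
        congr 1
        omega
      rw [h4]
      ring
    · ring
  rw [h1, h2, Finset.sum_congr rfl h3, ← Finset.mul_sum, ← Rv_binom B β g hβ]
  by_cases hg : g ≤ B - β
  · have h5 : z ^ B = z ^ (β + g) * z ^ (B - β - g) := by
      rw [← pow_add]
      congr 1
      omega
    rw [h5, mul_inv, ← mul_assoc (z ^ (β + g)), mul_inv_cancel₀ (pow_ne_zero _ hz), one_mul,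
      inv_pow, mul_comm]
  · rw [Nat.choose_eq_zero_of_lt (not_le.1 hg), Nat.cast_zero, zero_mul, mul_zero]

/-- The matrix `N`. -/
private noncomputable def Rv_N (b : τ → ℕ) (z : τ → ℂ) : Mt b :=
  fun γ κ => ∏ l, Rv_n (z l) (b l) (γ l : ℕ) (κ l : ℕ)

private theorem Rv_mul (z : τ → ℂ) (hz : ∀ l, z l ≠ 0) :
    tz b (fun l => (z l)⁻¹) * rv b = Rv_N b z * tz b z := by
  ext γ β
  rw [Matrix.mul_apply, Finset.sum_eq_single (rb β), Matrix.mul_apply]
  · have h1 : tz b (fun l => (z l)⁻¹) γ (rb β) * rv b (rb β) β =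
        ∏ l, ((((b l - (β l : ℕ)).choose (γ l : ℕ) : ℕ) : ℂ) *
          (z l)⁻¹ ^ (b l - (β l : ℕ) - (γ l : ℕ))) := by
      have h2 : rv b (rb β) β = 1 := by
        simp only [rv, if_true]
      rw [h2, mul_one]
      unfold tz
      refine Finset.prod_congr rfl fun l _ => ?_
      have h3 : ((rb β l : Fin (b l + 1)) : ℕ) = b l - (β l : ℕ) := by
        simp only [rb, Fin.val_rev]
        omega
      rw [h3]
    rw [h1]
    have h4 : ∀ κ : Box b, Rv_N b z γ κ * tz b z κ β = ∏ l, (Rv_n (z l) (b l) (γ l : ℕ) (κ l : ℕ) *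
        ((((β l : ℕ).choose (κ l : ℕ) : ℕ) : ℂ) * z l ^ ((β l : ℕ) - (κ l : ℕ)))) := by
      intro κ
      rw [Finset.prod_mul_distrib]
      rfl
    rw [Finset.sum_congr rfl fun κ _ => h4 κ]
    have h5 : (Finset.univ : Finset (Box b)) =
        Fintype.piFinset fun l => (Finset.univ : Finset (Fin (b l + 1))) :=
      Fintype.piFinset_univ.symm
    have h6 := Finset.prod_univ_sum (fun l => (Finset.univ : Finset (Fin (b l + 1))))
      (fun l k => Rv_n (z l) (b l) (γ l : ℕ) (k : ℕ) *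
        ((((β l : ℕ).choose (k : ℕ) : ℕ) : ℂ) * z l ^ ((β l : ℕ) - (k : ℕ))))
    rw [h5]
    refine Eq.trans (Finset.prod_congr rfl fun l _ => ?_) h6
    exact Rv_one (z l) (hz l) (b l) (β l : ℕ) (γ l : ℕ) (Nat.lt_succ_iff.1 (β l).isLt)
  · intro κ _ hκ
    simp only [rv, if_neg hκ, mul_zero]
  · intro h
    exact absurd (Finset.mem_univ _) h

theorem van_rv (p : Pt τ) (hz : ∀ l, p.z l ≠ 0) (F : V b) (hF : F ∈ van b p) :
    act (rv b) F ∈ van b ⟨p.m, p.x, fun l => (p.z l)⁻¹⟩ := by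
  rw [mem_van] at hF ⊢
  intro γ
  show (X - C p.x) ^ (p.m - dg γ) ∣ act (tz b fun l => (p.z l)⁻¹) (act (rv b) F) γ
  rw [← act_mul, Rv_mul p.z hz, act_mul, act_apply]
  refine Finset.dvd_sum fun κ _ => ?_
  by_cases h : ∀ l, (κ l : ℕ) ≤ (γ l : ℕ)
  · have h1 : dg κ ≤ dg γ := Finset.sum_le_sum fun l _ => h l
    exact Dvd.dvd.mul_left ((pow_dvd_pow _ (by omega)).trans (hF κ)) _
  · push Not at h
    obtain ⟨l, hl⟩ := h
    have h2 : Rv_N b p.z γ κ = 0 := by
      refine Finset.prod_eq_zero (Finset.mem_univ l) ?_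
      unfold Rv_n
      rw [if_neg (not_le.2 hl)]
    rw [h2, C_0, zero_mul]
    exact dvd_zero _

end Pool.Agent.H18.Tl

end

section

/-!
# Module Vn (TL): vanishing conditions

`van_unit`: `act A (q • F) = q • act A F`, and `q`, `X - C x` are coprime (`(X - C x)^k ∣ q * G → (X - C x)^k ∣ G`,
`IsCoprime.pow_left`, `isCoprime` from `q.eval x ≠ 0`: `Polynomial.isCoprime_X_sub_C...` or `(prime_X_sub_C x).coprime_iff_not_dvd`).
`van_sh`, `van_sc`: `taylor c` and `comp (C δ * X)` are ring automorphisms of `ℂ[X]` fixing the constants (`δ ≠ 0`), so they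
commute with `act A` and preserve divisibility in both directions (use the inverse automorphism).
`van_iff`: `X_sub_C_pow_dvd_iff` and `X_pow_dvd_iff`; `taylor r f = f.comp (X + C r)`.
`van_zero_iff`: `tz_zero`, `act_one`.
-/

namespace Pool.Agent.H18.Tl

open Finset Polynomial

variable {τ : Type} [Fintype τ] [DecidableEq τ] {b : τ → ℕ}

private theorem Vn_coprime (q : ℂ[X]) (x : ℂ) (hq : q.eval x ≠ 0) (k : ℕ) (G : ℂ[X])
    (h : (X - C x) ^ k ∣ q * G) : (X - C x) ^ k ∣ G := by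
  have h1 : IsCoprime (X - C x) q := by
    rw [(prime_X_sub_C x).irreducible.coprime_iff_not_dvd, dvd_iff_isRoot]
    exact hq
  exact (h1.pow_left).dvd_of_dvd_mul_left h

theorem van_unit (p : Pt τ) (q : ℂ[X]) (hq : q.eval p.x ≠ 0) (F : V b) (h : q • F ∈ van b p) :
    F ∈ van b p := by
  rw [mem_van] at h ⊢
  intro γ
  have h1 := h γ
  rw [map_smul, Pi.smul_apply, smul_eq_mul] at h1
  exact Vn_coprime q p.x hq _ _ h1

theorem vanL_unit (L : List (Pt τ)) (q : ℂ[X]) (hq : ∀ p ∈ L, q.eval p.x ≠ 0) (F : V b)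
    (h : q • F ∈ vanL b L) : F ∈ vanL b L := by
  rw [mem_vanL] at h ⊢
  intro p hp
  exact van_unit p q (hq p hp) F (h p hp)

theorem vanL_append (L L' : List (Pt τ)) (F : V b) :
    F ∈ vanL b (L ++ L') ↔ F ∈ vanL b L ∧ F ∈ vanL b L' := by
  rw [mem_vanL, mem_vanL, mem_vanL]
  constructor
  · intro h
    exact ⟨fun p hp => h p (List.mem_append_left _ hp), fun p hp => h p (List.mem_append_right _ hp)⟩
  · rintro ⟨h1, h2⟩ p hp
    rcases List.mem_append.1 hp with hp | hp
    · exact h1 p hp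
    · exact h2 p hp

private theorem Vn_taylor_mul (c : ℂ) (f g : ℂ[X]) : taylor c (f * g) = taylor c f * taylor c g := by
  rw [taylor_apply, taylor_apply, taylor_apply, mul_comp]

private theorem Vn_taylor_act (c : ℂ) (A : Mt b) (F : V b) (γ : Box b) :
    act A (sh c F) γ = taylor c (act A F γ) := by
  rw [act_apply, act_apply, map_sum]
  refine Finset.sum_congr rfl fun β _ => ?_
  rw [Vn_taylor_mul, taylor_C, sh_apply]

private theorem Vn_taylor_dvd (c x : ℂ) (k : ℕ) (G : ℂ[X]) :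
    (X - C x) ^ k ∣ taylor c G ↔ (X - C (x + c)) ^ k ∣ G := by
  rw [X_sub_C_pow_dvd_iff, X_sub_C_pow_dvd_iff, taylor_apply, comp_assoc]
  have h : (X + C c : ℂ[X]).comp (X + C x) = X + C (x + c) := by
    rw [add_comp, X_comp, C_comp, add_assoc, ← C_add]
  rw [h]

theorem van_sh (c : ℂ) (p : Pt τ) (F : V b) :
    sh c F ∈ van b p ↔ F ∈ van b ⟨p.m, p.x + c, p.z⟩ := by
  rw [mem_van, mem_van]
  refine forall_congr' fun γ => ?_
  rw [Vn_taylor_act]
  exact Vn_taylor_dvd c p.x _ _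

private theorem Vn_sc_act (δ : ℂ) (A : Mt b) (F : V b) (γ : Box b) :
    act A (fun γ => (F γ).comp (C δ * X)) γ = (act A F γ).comp (C δ * X) := by
  rw [act_apply, act_apply, Polynomial.sum_comp]
  refine Finset.sum_congr rfl fun β _ => ?_
  rw [mul_comp, C_comp]

private theorem Vn_sc_fwd (δ x : ℂ) (k : ℕ) (G : ℂ[X])
    (h : (X - C (δ * x)) ^ k ∣ G) : (X - C x) ^ k ∣ G.comp (C δ * X) := by
  obtain ⟨H, rfl⟩ := h
  rw [mul_comp, pow_comp, sub_comp, X_comp, C_comp]
  have h1 : (C δ * X - C (δ * x) : ℂ[X]) = C δ * (X - C x) := by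
    rw [C_mul]; ring
  rw [h1, mul_pow]
  exact Dvd.dvd.mul_right (Dvd.dvd.mul_left dvd_rfl _) _

private theorem Vn_sc_comp (δ : ℂ) (hδ : δ ≠ 0) (G : ℂ[X]) :
    (G.comp (C δ * X)).comp (C δ⁻¹ * X) = G := by
  rw [comp_assoc, mul_comp, C_comp, X_comp, ← mul_assoc, ← C_mul, mul_inv_cancel₀ hδ, C_1, one_mul,
    comp_X]

private theorem Vn_sc_dvd (δ : ℂ) (hδ : δ ≠ 0) (x : ℂ) (k : ℕ) (G : ℂ[X]) :
    (X - C x) ^ k ∣ G.comp (C δ * X) ↔ (X - C (δ * x)) ^ k ∣ G := by
  constructor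
  · intro h
    have h1 : (X - C (δ⁻¹ * (δ * x))) ^ k ∣ G.comp (C δ * X) := by
      rwa [← mul_assoc, inv_mul_cancel₀ hδ, one_mul]
    have h2 := Vn_sc_fwd δ⁻¹ (δ * x) k _ h1
    rwa [Vn_sc_comp δ hδ] at h2
  · exact Vn_sc_fwd δ x k G

theorem van_sc (δ : ℂ) (hδ : δ ≠ 0) (p : Pt τ) (F : V b) :
    (fun γ => (F γ).comp (C δ * X)) ∈ van b p ↔ F ∈ van b ⟨p.m, δ * p.x, p.z⟩ := by
  rw [mem_van, mem_van]
  refine forall_congr' fun γ => ?_
  rw [Vn_sc_act]
  exact Vn_sc_dvd δ hδ p.x _ _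

theorem van_iff (p : Pt τ) (F : V b) :
    F ∈ van b p ↔ ∀ (γ : Box b) (j : ℕ), j + dg γ < p.m →
      (taylor p.x (act (tz b p.z) F γ)).coeff j = 0 := by
  rw [mem_van]
  refine forall_congr' fun γ => ?_
  rw [X_sub_C_pow_dvd_iff, X_pow_dvd_iff, taylor_apply]
  refine forall_congr' fun j => ?_
  rw [lt_tsub_iff_right]

/-- Vanishing at a point with `y = 0`. -/
theorem van_zero_iff (m : ℕ) (x : ℂ) (F : V b) :
    F ∈ van b ⟨m, x, 0⟩ ↔ ∀ γ, (X - C x) ^ (m - dg γ) ∣ F γ := by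
  rw [mem_van]
  refine forall_congr' fun γ => ?_
  show (X - C x) ^ (m - dg γ) ∣ act (tz b 0) F γ ↔ _
  rw [tz_zero, act_one]

end Pool.Agent.H18.Tl

end

section

/-!
# Module Qt (TL): the number of conditions

`quot_le`: the linear map from `V b` to the functions on `{(i, γ, j) : i < L.length, j < (L i).m - dg γ}` given by the
coefficients of `van_iff` (`(taylor x (act (tz b z) F γ)).coeff j`) has the kernel `vanL b L` (as a `ℂ`-subspace), so the
quotient embeds into a space of dimension `cL b L` (`LinearMap.quotKerEquivRange`, `Submodule.finrank_le`; or induction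
on `L`: `vanL b (p :: L) = van b p ⊓ vanL b L`).
-/

namespace Pool.Agent.H18.Tl

open Finset Polynomial

variable {τ : Type} [Fintype τ] [DecidableEq τ] {b : τ → ℕ}

/-- The index set of the conditions. -/
private abbrev Qt_Ix (b : τ → ℕ) (L : List (Pt τ)) : Type :=
  (i : Fin L.length) × (γ : Box b) × Fin ((L.get i).m - dg γ)

/-- The conditions. -/
private noncomputable def Qt_map (b : τ → ℕ) (L : List (Pt τ)) : V b →ₗ[ℂ] (Qt_Ix b L → ℂ) :=
  LinearMap.pi fun k => (Polynomial.lcoeff ℂ (k.2.2 : ℕ)) ∘ₗ (taylor (L.get k.1).x) ∘ₗ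
    (LinearMap.proj k.2.1 : V b →ₗ[ℂ] ℂ[X]) ∘ₗ ((act (tz b (L.get k.1).z)).restrictScalars ℂ)

private theorem Qt_map_apply (L : List (Pt τ)) (F : V b) (k : Qt_Ix b L) :
    Qt_map b L F k = (taylor (L.get k.1).x (act (tz b (L.get k.1).z) F k.2.1)).coeff (k.2.2 : ℕ) := rfl

private theorem Qt_ker (L : List (Pt τ)) :
    LinearMap.ker (Qt_map b L) = (vanL b L).restrictScalars ℂ := by
  ext F
  rw [LinearMap.mem_ker, Submodule.restrictScalars_mem, mem_vanL]
  constructor
  · intro h p hp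
    obtain ⟨i, rfl⟩ := List.get_of_mem hp
    rw [van_iff]
    intro γ j hj
    have := congrFun h ⟨i, γ, ⟨j, by omega⟩⟩
    rw [Qt_map_apply] at this
    exact this
  · intro h
    funext k
    rw [Qt_map_apply]
    have h1 := (van_iff (L.get k.1) F).mp (h _ (List.get_mem L k.1)) k.2.1 (k.2.2 : ℕ) (by
      have := k.2.2.isLt
      omega)
    exact h1

private theorem Qt_card (L : List (Pt τ)) : Fintype.card (Qt_Ix b L) = cL b L := by
  simp only [Qt_Ix, Fintype.card_sigma, Fintype.card_fin]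
  unfold cL Lm
  rw [← List.sum_ofFn]
  congr 1
  apply List.ext_getElem
  · simp
  · intro n h1 h2
    simp

instance (L : List (Pt τ)) : FiniteDimensional ℂ (V b ⧸ (vanL b L).restrictScalars ℂ) := by
  rw [← Qt_ker]
  exact Module.Finite.equiv (LinearMap.quotKerEquivRange (Qt_map b L)).symm

theorem quot_le (L : List (Pt τ)) :
    Module.finrank ℂ (V b ⧸ (vanL b L).restrictScalars ℂ) ≤ cL b L := by
  rw [← Qt_ker, LinearEquiv.finrank_eq (LinearMap.quotKerEquivRange (Qt_map b L)), ← Qt_card L,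
    ← Module.finrank_fintype_fun_eq_card (R := ℂ)]
  exact Submodule.finrank_le _

end Pool.Agent.H18.Tl

end

section

/-!
# Module Dv (TL): division by an exact block

`exists_rho`: the quotient map `U b a → V b ⧸ vanL b L` is injective (`h.inj`); the dimensions are `a * Pc b` and at most
`cL b L = L.length * Lm b μ = a * Pc b`, so it is bijective; `ρ` is minus its inverse composed with the quotient map.
`exists_ph`: the column `β` of `Φ` is `G + ρ G`, `G = X^a` at `β`, `0` elsewhere.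
`Ph.uniq`: the difference of two columns is in `U b a` and vanishes at `L`.
`Ph.eq_mul`: the difference is in `U b a` and vanishes at `L`.
`Ph.ev_inj`: let `G = Φ w` (`G γ = ∑_β Φ γ β * C (w β)`), in `vanL b L`, with top coefficient `w`.  If `G` vanishes at `t = x₀`, then
`G = (X - C x₀) • G'`, `G' ∈ U b a`, and `G' ∈ vanL b L` by `vanL_unit`; so `G' = 0`, `G = 0`, `w = 0`.
`Blk.pos`: `Lm b μ ≥ μ - dg (zb b) = μ ≥ 1`, so `0 < L.length * Lm b μ = a * Pc b`.
-/

namespace Pool.Agent.H18.Tl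

open Finset Polynomial

variable {τ : Type} [Fintype τ] [DecidableEq τ] {b : τ → ℕ} {μ a : ℕ} {L : List (Pt τ)}
  {Φ : Matrix (Box b) (Box b) ℂ[X]}

private theorem Dv_Lm_pos (hμ : 1 ≤ μ) : 1 ≤ Lm b μ := by
  have h1 : μ - dg (zb b) ≤ ∑ γ : Box b, (μ - dg γ) :=
    Finset.single_le_sum (f := fun γ : Box b => μ - dg γ) (fun _ _ => Nat.zero_le _)
      (Finset.mem_univ (zb b))
  have h2 : dg (zb b) = 0 := by simp [dg, zb]
  unfold Lm
  omega

theorem Blk.pos (h : Blk b μ a L) (hμ : 1 ≤ μ) (hL : L ≠ []) : 1 ≤ a := by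
  rcases Nat.eq_zero_or_pos a with h0 | h0
  · exfalso
    have h1 := h.cnt
    rw [h0, Nat.zero_mul] at h1
    have h2 : 0 < L.length := List.length_pos_of_ne_nil hL
    have h3 : 1 ≤ Lm b μ := Dv_Lm_pos hμ
    have h4 : 0 < L.length * Lm b μ := Nat.mul_pos h2 h3
    omega
  · exact h0

private theorem Dv_cL (h : Blk b μ a L) : cL b L = L.length * Lm b μ := by
  have h1 : (L.map fun p => Lm b p.m) = L.map fun _ => Lm b μ := by
    apply List.map_congr_left
    intro p hp
    rw [h.mult p hp]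
  unfold cL
  rw [h1]
  simp

theorem exists_rho (h : Blk b μ a L) :
    ∃ ρ : V b →ₗ[ℂ] V b, (∀ G, ρ G ∈ U b a) ∧ ∀ G, G + ρ G ∈ vanL b L := by
  set q : V b →ₗ[ℂ] V b ⧸ (vanL b L).restrictScalars ℂ := ((vanL b L).restrictScalars ℂ).mkQ
    with hq
  let φ : U b a →ₗ[ℂ] V b ⧸ (vanL b L).restrictScalars ℂ := q ∘ₗ (U b a).subtype
  have hinj : Function.Injective φ := by
    rw [← LinearMap.ker_eq_bot, LinearMap.ker_eq_bot']
    intro F hF
    have h1 : (F : V b) ∈ (vanL b L).restrictScalars ℂ := by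
      have h2 : q (F : V b) = 0 := hF
      rw [hq, Submodule.mkQ_apply, Submodule.Quotient.mk_eq_zero] at h2
      exact h2
    exact Subtype.ext (h.inj F F.2 h1)
  have hfr : Module.finrank ℂ (U b a) = Module.finrank ℂ (V b ⧸ (vanL b L).restrictScalars ℂ) := by
    apply le_antisymm
    · exact LinearMap.finrank_le_finrank_of_injective hinj
    · calc Module.finrank ℂ (V b ⧸ (vanL b L).restrictScalars ℂ) ≤ cL b L := quot_le L
        _ = a * Pc b := by rw [Dv_cL h, h.cnt]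
        _ = Module.finrank ℂ (U b a) := (finrank_U a).symm
  have hsurj : Function.Surjective φ :=
    (LinearMap.injective_iff_surjective_of_finrank_eq_finrank hfr).1 hinj
  let e : U b a ≃ₗ[ℂ] V b ⧸ (vanL b L).restrictScalars ℂ := LinearEquiv.ofBijective φ ⟨hinj, hsurj⟩
  refine ⟨-((U b a).subtype ∘ₗ e.symm.toLinearMap ∘ₗ q), ?_, ?_⟩
  · intro G
    rw [LinearMap.neg_apply]
    exact (U b a).neg_mem (e.symm (q G)).2
  · intro G
    have h1 : q (((e.symm (q G) : U b a) : V b)) = q G := e.apply_symm_apply (q G)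
    have h2 : q (G + (-((U b a).subtype ∘ₗ e.symm.toLinearMap ∘ₗ q)) G) = 0 := by
      rw [map_add, LinearMap.neg_apply, map_neg]
      change q G + -(q ((e.symm (q G) : U b a) : V b)) = 0
      rw [h1, add_neg_cancel]
    rw [hq, Submodule.mkQ_apply, Submodule.Quotient.mk_eq_zero] at h2
    exact h2

theorem exists_ph (h : Blk b μ a L) : ∃ Φ : Matrix (Box b) (Box b) ℂ[X], Ph b a L Φ := by
  obtain ⟨ρ, h1, h2⟩ := exists_rho h
  let G : Box b → V b := fun β => Pi.single β (X ^ a)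
  have hG : ∀ β γ : Box b, G β γ = if γ = β then X ^ a else 0 := by
    intro β γ
    simp only [G, Pi.single_apply]
  refine ⟨fun γ β => (G β + ρ (G β)) γ, ?_, ?_, ?_⟩
  · intro β
    exact h2 (G β)
  · intro γ β
    change ((G β γ) + (ρ (G β) γ)).coeff a = _
    rw [coeff_add, h1 (G β) γ a le_rfl, add_zero, hG]
    split_ifs with h3
    · rw [coeff_X_pow, if_pos rfl]
    · rw [coeff_zero]
  · intro γ β j hj
    change ((G β γ) + (ρ (G β) γ)).coeff j = _
    rw [coeff_add, h1 (G β) γ j hj.le, add_zero, hG]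
    split_ifs with h3
    · rw [coeff_X_pow, if_neg (by omega)]
    · rw [coeff_zero]

private theorem Dv_coeff (w : Box b → ℂ) (β : Box b) (j : ℕ) :
    (Φ.mulVec (cv w) β).coeff j = (cf Φ j).mulVec w β := by
  simp only [Matrix.mulVec, dotProduct, cv, cf, finsetSum_coeff, coeff_mul_C]

/-- The combination of the columns with constant coefficients `w`. -/
theorem Ph.comb (hΦ : Ph b a L Φ) (w : Box b → ℂ) :
    Φ.mulVec (cv w) ∈ vanL b L ∧ Φ.mulVec (cv w) ∈ U b (a + 1) ∧
      (∀ β, (Φ.mulVec (cv w) β).coeff a = w β) ∧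
      ∀ β j, (Φ.mulVec (cv w) β).coeff j = (cf Φ j).mulVec w β := by
  refine ⟨?_, ?_, ?_, fun β j => Dv_coeff w β j⟩
  · have h1 : Φ.mulVec (cv w) = ∑ β, C (w β) • (fun γ => Φ γ β : V b) := by
      funext γ
      rw [Finset.sum_apply]
      simp only [Matrix.mulVec, dotProduct, cv, Pi.smul_apply, smul_eq_mul]
      exact Finset.sum_congr rfl fun β _ => mul_comm _ _
    rw [h1]
    exact (vanL b L).sum_mem fun β _ => (vanL b L).smul_mem _ (hΦ.van β)
  · intro β j hj
    rw [Dv_coeff]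
    simp only [Matrix.mulVec, dotProduct, cf]
    apply Finset.sum_eq_zero
    intro γ _
    rw [hΦ.deg β γ j (by omega), zero_mul]
  · intro β
    rw [Dv_coeff]
    simp only [Matrix.mulVec, dotProduct, cf, hΦ.top]
    simp

theorem Ph.ev_inj (h : Blk b μ a L) (hΦ : Ph b a L Φ) (x₀ : ℂ) (hx : ∀ p ∈ L, p.x ≠ x₀)
    (w : Box b → ℂ) (hw : (ev Φ x₀).mulVec w = 0) : w = 0 := by
  obtain ⟨h1, h2, h3, -⟩ := hΦ.comb w
  have hd : ∀ β, ∃ g : ℂ[X], Φ.mulVec (cv w) β = (X - C x₀) * g := by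
    intro β
    have h4 : (Φ.mulVec (cv w) β).eval x₀ = 0 := by
      have h5 := congrFun hw β
      simp only [Matrix.mulVec, dotProduct, ev, Pi.zero_apply] at h5
      simp only [Matrix.mulVec, dotProduct, cv, eval_finsetSum, eval_mul, eval_C]
      exact h5
    exact dvd_iff_isRoot.2 h4
  choose g hg using hd
  have hG : Φ.mulVec (cv w) = (X - C x₀) • (g : V b) := by
    funext β
    rw [hg β]
    rfl
  have hgv : (g : V b) ∈ vanL b L := by
    apply vanL_unit L (X - C x₀) _ g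
    · rw [← hG]
      exact h1
    · intro p hp
      rw [eval_sub, eval_X, eval_C]
      exact sub_ne_zero.2 (hx p hp)
  have hgU : (g : V b) ∈ U b a := by
    intro β j hj
    by_contra hne
    have hg0 : g β ≠ 0 := by
      intro h0
      rw [h0, coeff_zero] at hne
      exact hne rfl
    have hle : j ≤ (g β).natDegree := le_natDegree_of_ne_zero hne
    have hdeg : (Φ.mulVec (cv w) β).natDegree = 1 + (g β).natDegree := by
      rw [hg β, natDegree_mul (X_sub_C_ne_zero x₀) hg0, natDegree_X_sub_C]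
    have hne0 : Φ.mulVec (cv w) β ≠ 0 := by
      rw [hg β]
      exact mul_ne_zero (X_sub_C_ne_zero x₀) hg0
    have hz := h2 β (Φ.mulVec (cv w) β).natDegree (by omega)
    rw [coeff_natDegree, leadingCoeff_eq_zero] at hz
    exact hne0 hz
  have hg0 : (g : V b) = 0 := h.inj g hgU hgv
  funext β
  rw [← h3 β, hG, hg0, smul_zero]
  rfl

theorem Ph.isUnit (h : Blk b μ a L) (hΦ : Ph b a L Φ) (x₀ : ℂ) (hx : ∀ p ∈ L, p.x ≠ x₀) :
    IsUnit (ev Φ x₀) := by
  rw [← Matrix.mulVec_injective_iff_isUnit]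
  intro v w hvw
  have h1 : (ev Φ x₀).mulVec (v - w) = 0 := by
    rw [Matrix.mulVec_sub]
    exact sub_eq_zero.2 hvw
  exact sub_eq_zero.1 (Ph.ev_inj h hΦ x₀ hx (v - w) h1)

end Pool.Agent.H18.Tl

end
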