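import Pool.Agent.H94.LP3.M02

/-! The parts of this file: H18.Ex.Tay, H18.Ex.Tay_1, H18.FatLin, H18.Ex.Gen. -/

section

/-!
# Module Tay: Taylor coefficients, traces and residuals

Throughout `A'` is the residual of `A` along `x_l = 0`: `a ∈ A' ↔ a + e_l ∈ A`.
-/

namespace Pool.Agent.H18.Ex

open Finset

variable {ι : Type} [Fintype ι] [DecidableEq ι] {R : Type*} [CommRing R]

/-- Splitting off the factor of the coordinate `l`. -/
lemma tcr_eq (q : ι → R) (a b : ι → ℕ) (l : ι) :
    tcr q a b = (((a l).choose (b l) : ℕ) : R) * q l ^ (a l - b l) *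
      ∏ i ∈ univ.erase l, (((a i).choose (b i) : ℕ) : R) * q i ^ (a i - b i) := by
  unfold tcr
  rw [mul_prod_erase univ (fun i => (((a i).choose (b i) : ℕ) : R) * q i ^ (a i - b i))
    (mem_univ l)]

/-- The product of the other factors only depends on the other coordinates. -/
lemma rest_congr {q q' : ι → R} {a a' b b' : ι → ℕ} {l : ι} (hq : ∀ i, i ≠ l → q i = q' i)
    (ha : ∀ i, i ≠ l → a i = a' i) (hb : ∀ i, i ≠ l → b i = b' i) :
    ∏ i ∈ univ.erase l, (((a i).choose (b i) : ℕ) : R) * q i ^ (a i - b i) =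
      ∏ i ∈ univ.erase l, (((a' i).choose (b' i) : ℕ) : R) * q' i ^ (a' i - b' i) := by
  apply prod_congr rfl
  intro i hi
  have h := ne_of_mem_erase hi
  rw [hq i h, ha i h, hb i h]

omit [Fintype ι] in
lemma update_other {β : Type} (f : ι → β) (l : ι) (v : β) : ∀ i, i ≠ l → Function.update f l v i = f i :=
  fun _ hi => Function.update_of_ne hi _ _

omit [Fintype ι] in
lemma sum_shift (A A' : Finset (ι → ℕ)) (l : ι)
    (hA : ∀ a, a ∈ A' ↔ Function.update a l (a l + 1) ∈ A) (g : (ι → ℕ) → R)
    (hg : ∀ a ∈ A, a l = 0 → g a = 0) :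
    ∑ a ∈ A, g a = ∑ a ∈ A', g (Function.update a l (a l + 1)) := by
  symm
  apply sum_of_injOn (fun a => Function.update a l (a l + 1))
  · intro a _ a' _ h
    funext i
    have h1 : Function.update a l (a l + 1) i = Function.update a' l (a' l + 1) i := congrFun h i
    by_cases hi : i = l
    · subst hi
      simp only [Function.update_self] at h1
      omega
    · rwa [Function.update_of_ne hi, Function.update_of_ne hi] at h1
  · intro a ha
    exact (hA a).mp ha
  · intro a ha hna
    apply hg a ha
    by_contra h0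
    apply hna
    have h1 : Function.update (Function.update a l (a l - 1)) l
        (Function.update a l (a l - 1) l + 1) = a := by
      rw [Function.update_self, Function.update_idem, Nat.sub_add_cancel (Nat.pos_of_ne_zero h0),
        Function.update_eq_self]
    refine ⟨Function.update a l (a l - 1), ?_, h1⟩
    rw [mem_coe, hA, h1]
    exact ha
  · intro a _
    rfl

lemma tcr_up_up (q : ι → R) (a b : ι → ℕ) (l : ι) :
    tcr q (Function.update a l (a l + 1)) (Function.update b l (b l + 1)) =
      q l * tcr q a (Function.update b l (b l + 1)) + tcr q a b := by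
  rw [tcr_eq q (Function.update a l (a l + 1)) _ l, tcr_eq q a (Function.update b l (b l + 1)) l,
    tcr_eq q a b l,
    rest_congr (q' := q) (a' := a) (b' := b) (fun _ _ => rfl)
      (update_other a l _) (update_other b l _),
    rest_congr (q' := q) (a := a) (a' := a) (b' := b) (fun _ _ => rfl)
      (fun _ _ => rfl) (update_other b l _), Function.update_self, Function.update_self,
    Nat.choose_succ_succ, Nat.add_sub_add_right]
  rcases Nat.lt_or_ge (a l) (b l + 1) with h | h
  · rw [Nat.choose_eq_zero_of_lt h]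
    simp only [Nat.cast_zero, add_zero, zero_mul, mul_zero, zero_add]
  · have e : a l - b l = (a l - (b l + 1)) + 1 := by omega
    rw [e, pow_succ, Nat.cast_add]
    ring

lemma tcr_up_up_zero (q : ι → R) (a b : ι → ℕ) (l : ι) (hq : q l = 0) :
    tcr q (Function.update a l (a l + 1)) (Function.update b l (b l + 1)) = tcr q a b := by
  rw [tcr_up_up, hq, zero_mul, zero_add]

/-- Residual.  If `q l = 0`, the Taylor coefficient at `b + e_l` only sees exponents with
`a l = b l + 1`; substitute `a = a' + e_l`. -/
theorem resid_sum (A A' : Finset (ι → ℕ)) (l : ι)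
    (hA : ∀ a, a ∈ A' ↔ Function.update a l (a l + 1) ∈ A)
    (f : (ι → ℕ) → R) (q : ι → R) (hq : q l = 0) (b : ι → ℕ) :
    ∑ a ∈ A, f a * tcr q a (Function.update b l (b l + 1)) =
      ∑ a ∈ A', f (Function.update a l (a l + 1)) * tcr q a b := by
  rw [sum_shift A A' l hA (fun a => f a * tcr q a (Function.update b l (b l + 1)))]
  · apply sum_congr rfl
    intro a _
    rw [tcr_up_up_zero q a b l hq]
  · intro a _ h0
    rw [tcr_eq q a _ l, Function.update_self, h0, Nat.choose_zero_succ, Nat.cast_zero, zero_mul,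
      zero_mul, mul_zero]

end Pool.Agent.H18.Ex

end

section

/-!
# Module Tay: Taylor coefficients, traces and residuals

Throughout `A'` is the residual of `A` along `x_l = 0`: `a ∈ A' ↔ a + e_l ∈ A`.
-/

namespace Pool.Agent.H18.Ex

open Finset

variable {ι : Type} [Fintype ι] [DecidableEq ι] {R : Type*} [CommRing R]

lemma tcr_up_zero (q : ι → R) (a b : ι → ℕ) (l : ι) (hb : b l = 0) :
    tcr q (Function.update a l (a l + 1)) b = q l * tcr q a b := by
  rw [tcr_eq q _ b l, tcr_eq q a b l, rest_congr (q' := q) (a' := a) (b' := b) (fun _ _ => rfl)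
    (update_other a l _) (fun _ _ => rfl), Function.update_self, hb]
  simp only [Nat.choose_zero_right, Nat.sub_zero, Nat.cast_one, one_mul, pow_succ]
  ring

/-- Trace.  If `q l = 0` and `b l = 0` only the exponents with `a l = 0` contribute
(`0 ^ (a l) = 0` for `a l > 0`). -/
theorem layer_sum (A : Finset (ι → ℕ)) (l : ι) (f : (ι → ℕ) → R) (q : ι → R) (hq : q l = 0)
    (b : ι → ℕ) (hb : b l = 0) :
    ∑ a ∈ A, f a * tcr q a b = ∑ a ∈ A.filter (fun a => a l = 0), f a * tcr q a b := by
  rw [sum_filter_of_ne]
  intro a _ h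
  by_contra h0
  apply h
  rw [tcr_eq q a b l, hq, hb, Nat.sub_zero, zero_pow h0, mul_zero, zero_mul, mul_zero]

/-- If the layer part of `f` vanishes, conditions at points off the hyperplane pass to the
residual.  Proof: Pascal, `tcr q (a + e_l) b = q l * tcr q a b + tcr q a (b - e_l)` (second term
absent if `b l = 0`), so `0 = ∑_{a ∈ A} f a tcr q a b = q l * T b + T (b - e_l)`, where
`T b = ∑_{a ∈ A'} f (a + e_l) tcr q a b`; induct on `b l`, the set of indices being closed under
`b ↦ b - e_l`.  (Here `(k.pt q) l = q l ≠ 0` because `k` is not forced to `x_l = 0`.) -/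
theorem sat_resid_of_notAt (A A' : Finset (ι → ℕ)) (l : ι)
    (hA : ∀ a, a ∈ A' ↔ Function.update a l (a l + 1) ∈ A)
    (f : (ι → ℕ) → ℂ) (h0 : ∀ a ∈ A, a l = 0 → f a = 0) (k : Kind ι) (hk : k.NotAt l)
    (q : ι → ℂ) (hq : q l ≠ 0) (h : Sat A f k q) :
    Sat A' (fun a => f (Function.update a l (a l + 1))) k q := by
  have hp : k.pt q l = q l := by
    cases k with
    | free m => rfl
    | forced l' c e =>
      have h1 : l' ≠ l := hk
      exact Function.update_of_ne (Ne.symm h1) _ _
  have hIdx : ∀ b : ι → ℕ, k.Idx (Function.update b l (b l + 1)) → k.Idx b := by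
    intro b hb
    have hle : ∑ i, b i ≤ ∑ i, Function.update b l (b l + 1) i := by
      apply sum_le_sum
      intro i _
      by_cases hi : i = l
      · subst hi; rw [Function.update_self]; omega
      · rw [Function.update_of_ne hi]
    cases k with
    | free m => exact lt_of_le_of_lt hle hb
    | forced l' c e =>
      have h1 : l' ≠ l := hk
      obtain ⟨h2, h3⟩ := hb
      rw [Function.update_of_ne h1] at h3
      exact ⟨lt_of_le_of_lt hle h2, h3⟩
  have key : ∀ (n : ℕ) (b : ι → ℕ), b l = n → k.Idx b →
      ∑ a ∈ A', f (Function.update a l (a l + 1)) * tcr (k.pt q) a b = 0 := by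
    intro n
    induction n with
    | zero =>
      intro b hb hI
      have h1 := h b hI
      rw [sum_shift A A' l hA (fun a => f a * tcr (k.pt q) a b)
        (fun a ha h2 => by rw [h0 a ha h2, zero_mul])] at h1
      have h2 : ∀ a ∈ A', f (Function.update a l (a l + 1)) *
          tcr (k.pt q) (Function.update a l (a l + 1)) b =
          k.pt q l * (f (Function.update a l (a l + 1)) * tcr (k.pt q) a b) := by
        intro a _
        rw [tcr_up_zero _ a b l hb]
        ring
      rw [sum_congr rfl h2, ← mul_sum, hp] at h1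
      exact (mul_eq_zero.mp h1).resolve_left hq
    | succ n ih =>
      intro b hb hI
      obtain ⟨b', hb', rfl⟩ : ∃ b' : ι → ℕ, b' l = n ∧ Function.update b' l (b' l + 1) = b := by
        refine ⟨Function.update b l n, Function.update_self _ _ _, ?_⟩
        rw [Function.update_self, Function.update_idem, ← hb, Function.update_eq_self]
      have h3 := ih b' hb' (hIdx b' hI)
      have h1 := h _ hI
      rw [sum_shift A A' l hA
        (fun a => f a * tcr (k.pt q) a (Function.update b' l (b' l + 1)))
        (fun a ha h2 => by rw [h0 a ha h2, zero_mul])] at h1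
      have h2 : ∀ a ∈ A', f (Function.update a l (a l + 1)) *
          tcr (k.pt q) (Function.update a l (a l + 1)) (Function.update b' l (b' l + 1)) =
          k.pt q l * (f (Function.update a l (a l + 1)) *
            tcr (k.pt q) a (Function.update b' l (b' l + 1))) +
          f (Function.update a l (a l + 1)) * tcr (k.pt q) a b' := by
        intro a _
        rw [tcr_up_up]
        ring
      rw [sum_congr rfl h2, sum_add_distrib, h3, add_zero, ← mul_sum, hp] at h1
      exact (mul_eq_zero.mp h1).resolve_left hq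
  intro b hI
  exact key (b l) b rfl hI

lemma tcr_layer_congr (q q' : ι → R) (a b : ι → ℕ) (l : ι) (hq : ∀ i, i ≠ l → q i = q' i)
    (ha : a l = 0) : tcr q a b = tcr q' a b := by
  rw [tcr_eq q a b l, tcr_eq q' a b l, rest_congr hq (fun _ _ => rfl) (fun _ _ => rfl), ha]
  simp only [Nat.zero_sub, pow_zero]

/-- Conditions forced to the hyperplane: the residual (`resid_sum`). -/
theorem sat_resid_forced (A A' : Finset (ι → ℕ)) (l : ι)
    (hA : ∀ a, a ∈ A' ↔ Function.update a l (a l + 1) ∈ A)
    (f : (ι → ℕ) → R) (c e : ℕ) (q : ι → R) (h : Sat A f (Kind.forced l c e) q) :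
    Sat A' (fun a => f (Function.update a l (a l + 1))) (Kind.forced l (c - 1) e) q := by
  intro b hb
  obtain ⟨h1, h2⟩ := hb
  have hq : Function.update q l 0 l = 0 := Function.update_self _ _ _
  change ∑ a ∈ A', f (Function.update a l (a l + 1)) * tcr (Function.update q l 0) a b = 0
  rw [← resid_sum A A' l hA f _ hq b]
  apply h
  refine ⟨?_, ?_⟩
  · have h3 : ∑ i, Function.update b l (b l + 1) i = ∑ i, b i + 1 := by
      rw [← add_sum_erase univ _ (mem_univ l), ← add_sum_erase univ b (mem_univ l),
        Function.update_self]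
      have h4 : ∑ x ∈ univ.erase l, Function.update b l (b l + 1) x = ∑ x ∈ univ.erase l, b x := by
        apply sum_congr rfl
        intro i hi
        exact Function.update_of_ne (ne_of_mem_erase hi) _ _
      rw [h4]
      ring
    rw [h3]
    omega
  · rw [Function.update_self]
    omega

/-- Conditions forced to the hyperplane: the trace (`layer_sum`; the value `q l` is irrelevant on
the layer, and for `b l > 0` every term vanishes). -/
theorem sat_layer_forced (A : Finset (ι → ℕ)) (l : ι) (f : (ι → ℕ) → R) (c e : ℕ) (q : ι → R)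
    (h : Sat A f (Kind.forced l c e) q) :
    Sat (A.filter fun a => a l = 0) f (Kind.free (if e ≤ c then c else 0)) q := by
  intro b hb
  change ∑ i, b i < (if e ≤ c then c else 0) at hb
  have hec : e ≤ c := by
    by_contra hec
    rw [if_neg hec] at hb
    omega
  rw [if_pos hec] at hb
  change ∑ a ∈ A.filter (fun a => a l = 0), f a * tcr q a b = 0
  by_cases hbl : b l = 0
  · have h1 := h b ⟨hb, by omega⟩
    change ∑ a ∈ A, f a * tcr (Function.update q l 0) a b = 0 at h1
    rw [layer_sum A l f _ (Function.update_self _ _ _) b hbl] at h1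
    refine Eq.trans (sum_congr rfl ?_) h1
    intro a ha
    congr 1
    exact tcr_layer_congr _ _ a b l (fun i hi => (Function.update_of_ne hi _ _).symm)
      (mem_filter.mp ha).2
  · apply sum_eq_zero
    intro a ha
    have h0 : a l = 0 := (mem_filter.mp ha).2
    rw [tcr_eq q a b l, h0, Nat.choose_eq_zero_of_lt (by omega), Nat.cast_zero, zero_mul,
      zero_mul, mul_zero]

/-- A free point placed on the hyperplane is a forced point. -/
theorem sat_forced_one_iff (A : Finset (ι → ℕ)) (l : ι) (f : (ι → ℕ) → R) (m : ℕ) (q : ι → R) :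
    Sat A f (Kind.forced l m 1) q ↔ Sat A f (Kind.free m) (Function.update q l 0) := by
  constructor
  · intro h b hb
    refine h b ⟨hb, ?_⟩
    have h1 : b l ≤ ∑ i, b i := single_le_sum (fun i _ => Nat.zero_le (b i)) (mem_univ l)
    have h2 : ∑ i, b i < m := hb
    omega
  · intro h b hb
    exact h b hb.1

end Pool.Agent.H18.Ex

end

section

namespace Pool.Agent.H18.Fat

open MvPolynomial Finset

section

variable {ι : Type*} [Fintype ι]

end

/-- Injectivity of a matrix with polynomial entries is an open condition. -/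
theorem exists_poly_injective {σ R K : Type*} [Fintype R] [Fintype K]
    (N : Matrix R K (MvPolynomial σ ℂ)) (a₀ : σ → ℂ)
    (h : LinearMap.ker (N.map (eval a₀)).mulVecLin = ⊥) :
    ∃ G : MvPolynomial σ ℂ, eval a₀ G ≠ 0 ∧
      ∀ a, eval a G ≠ 0 → LinearMap.ker (N.map (eval a)).mulVecLin = ⊥ := by
  classical
  obtain ⟨g, hg⟩ := LinearMap.exists_leftInverse_of_injective _ h
  obtain ⟨B, hBg⟩ : ∃ B : Matrix K R ℂ, Matrix.toLin' B = g := ⟨LinearMap.toMatrix' g, by simp⟩
  have hB : B * (N.map (eval a₀)) = 1 := by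
    apply Matrix.toLin'.injective
    rw [Matrix.toLin'_mul, hBg, Matrix.toLin'_one]
    exact hg
  have hB' : ∀ a : σ → ℂ, (B.map (C : ℂ → MvPolynomial σ ℂ)).map (eval a) = B := by
    intro a
    ext i j
    simp
  let D : Matrix K K (MvPolynomial σ ℂ) := (B.map (C : ℂ → MvPolynomial σ ℂ)) * N
  have hD : ∀ a : σ → ℂ, eval a D.det = (B * (N.map (eval a))).det := by
    intro a
    rw [RingHom.map_det, RingHom.mapMatrix_apply]
    congr 1
    change ((B.map (C : ℂ → MvPolynomial σ ℂ)) * N).map (eval a) = _
    rw [Matrix.map_mul, hB']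
  refine ⟨D.det, ?_, ?_⟩
  · rw [hD, hB, Matrix.det_one]
    exact one_ne_zero
  · intro a ha
    rw [hD] at ha
    have hunit : IsUnit (B * (N.map (eval a))) := by
      rw [Matrix.isUnit_iff_isUnit_det]
      exact isUnit_iff_ne_zero.2 ha
    rw [LinearMap.ker_eq_bot']
    intro f hf
    rw [Matrix.mulVecLin_apply] at hf
    obtain ⟨E, hE⟩ := isUnit_iff_exists_inv'.1 hunit
    have h11 : (E * (B * N.map (eval a))).mulVec f = 0 := by
      rw [← Matrix.mulVec_mulVec, ← Matrix.mulVec_mulVec, hf, Matrix.mulVec_zero,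
        Matrix.mulVec_zero]
    rwa [hE, Matrix.one_mulVec] at h11

end Pool.Agent.H18.Fat

end

section

/-!
# Module Gen: injectivity is an open condition on the positions
-/

namespace Pool.Agent.H18.Ex

open Finset

variable {ι : Type} [Fintype ι] [DecidableEq ι]

/-- A bound for the multi-indices of a condition. -/
def Kind.bd (k : Kind ι) : ℕ :=
  match k with
  | .free m => m
  | .forced _ c _ => c

omit [DecidableEq ι] in
theorem Kind.Idx.lt {k : Kind ι} {b : ι → ℕ} (h : k.Idx b) (i : ι) : b i < k.bd := by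
  have hle : b i ≤ ∑ j, b j := single_le_sum (fun j _ => Nat.zero_le (b j)) (mem_univ i)
  cases k with
  | free m => exact lt_of_le_of_lt hle h
  | forced l c e => exact lt_of_le_of_lt hle h.1

open Classical in
/-- The finite set of the multi-indices of a condition. -/
noncomputable def Kind.idxs (k : Kind ι) : Finset (ι → ℕ) :=
  (Fintype.piFinset fun _ => range k.bd).filter fun b => k.Idx b

open Classical in
theorem Kind.mem_idxs {k : Kind ι} {b : ι → ℕ} : b ∈ k.idxs ↔ k.Idx b := by
  unfold Kind.idxs
  rw [mem_filter, Fintype.mem_piFinset]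
  constructor
  · exact fun h => h.2
  · exact fun h => ⟨fun i => mem_range.2 (h.lt i), h⟩

/-- The matrix of the conditions. -/
noncomputable def cmat {R : Type} [CommRing R] {κ : Type} (A : Finset (ι → ℕ)) (k : κ → Kind ι)
    (pos : κ → ι → R) : Matrix (Σ i : κ, {b // b ∈ (k i).idxs}) A R :=
  fun x a => tcr ((k x.1).pt (pos x.1)) a.1 x.2.1

theorem ker_cmat {κ : Type} (A : Finset (ι → ℕ)) (k : κ → Kind ι) (pos : κ → ι → ℂ) :
    LinearMap.ker (cmat A k pos).mulVecLin = ⊥ ↔ InjAt A k pos := by
  classical
  rw [LinearMap.ker_eq_bot']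
  constructor
  · intro h f hf a ha
    have h1 := h (fun a : A => f a.1) ?_
    · exact congrFun h1 ⟨a, ha⟩
    · rw [Matrix.mulVecLin_apply]
      funext x
      have h2 := hf x.1 x.2.1 (Kind.mem_idxs.1 x.2.2)
      rw [← sum_coe_sort A (fun a => f a * tcr ((k x.1).pt (pos x.1)) a x.2.1)] at h2
      show ∑ a : A, tcr ((k x.1).pt (pos x.1)) a.1 x.2.1 * f a.1 = 0
      rw [← h2]
      exact sum_congr rfl fun a _ => mul_comm _ _
  · intro h f hf
    rw [Matrix.mulVecLin_apply] at hf
    have h1 := h (fun a => if ha : a ∈ A then f ⟨a, ha⟩ else 0) ?_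
    · funext a
      have h2 := h1 a.1 a.2
      rw [dif_pos a.2] at h2
      exact h2
    · intro i b hb
      have h2 := congrFun hf ⟨i, b, Kind.mem_idxs.2 hb⟩
      rw [← sum_coe_sort A]
      have h3 : ∑ a : A, tcr ((k i).pt (pos i)) a.1 b * f a = 0 := h2
      refine Eq.trans (sum_congr rfl fun a _ => ?_) h3
      beta_reduce
      rw [dif_pos a.2]
      exact mul_comm _ _

omit [DecidableEq ι] in
theorem tcr_map {R S : Type} [CommRing R] [CommRing S] (φ : R →+* S) (q : ι → R) (a b : ι → ℕ) :
    φ (tcr q a b) = tcr (fun i => φ (q i)) a b := by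
  unfold tcr
  rw [map_prod]
  refine prod_congr rfl fun i _ => ?_
  rw [map_mul, map_natCast, map_pow]

omit [Fintype ι] in
theorem pt_map {R S : Type} [CommRing R] [CommRing S] (φ : R →+* S) (k : Kind ι) (q : ι → R) :
    (fun i => φ (k.pt q i)) = k.pt fun i => φ (q i) := by
  cases k with
  | free m => rfl
  | forced l c e =>
    funext i
    show φ (Function.update q l 0 i) = Function.update (fun i => φ (q i)) l 0 i
    by_cases hi : i = l
    · subst hi
      rw [Function.update_self, Function.update_self, map_zero]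
    · rw [Function.update_of_ne hi, Function.update_of_ne hi]

/-- The general matrix. -/
noncomputable def gmat {κ : Type} (A : Finset (ι → ℕ)) (k : κ → Kind ι) :
    Matrix (Σ i : κ, {b // b ∈ (k i).idxs}) A (MvPolynomial (κ × ι) ℂ) :=
  cmat A k fun i j => MvPolynomial.X (i, j)

theorem gmat_map {κ : Type} (A : Finset (ι → ℕ)) (k : κ → Kind ι) (x : κ × ι → ℂ) :
    (gmat A k).map (MvPolynomial.eval x) = cmat A k fun i j => x (i, j) := by
  ext r a
  show MvPolynomial.eval x (tcr ((k r.1).pt fun j => MvPolynomial.X (r.1, j)) a.1 r.2.1) =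
    tcr ((k r.1).pt fun j => x (r.1, j)) a.1 r.2.1
  rw [tcr_map, pt_map]
  simp only [MvPolynomial.eval_X]

/-- Openness.  Proof: for every `i : κ` the multi-indices `b` with `(k i).Idx b` form a finite set
(`∑ b < m`), so `InjAt A k pos` says that the kernel of the finite matrix with rows
`(i, b)`, columns `a ∈ A` and entries `tcr ((k i).pt (pos i)) a b` is trivial.  The entries are
the values at `pos` of the polynomials
`∏ j, C ((a j).choose (b j)) * Y j ^ (a j - b j)`, where `Y j = X (i, j)`, except `Y l = 0` when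
`k i = forced l _ _`.  Apply `Pool.Agent.H18.Fat.exists_poly_injective` (file `FatLin`). -/
theorem GI.general {κ : Type} [Fintype κ] {A : Finset (ι → ℕ)} {k : κ → Kind ι} (h : GI A k) :
    ∃ G : MvPolynomial (κ × ι) ℂ, G ≠ 0 ∧
      ∀ pos : κ → ι → ℂ, MvPolynomial.eval (fun x => pos x.1 x.2) G ≠ 0 → InjAt A k pos := by
  obtain ⟨pos₀, h₀⟩ := h
  have h1 : LinearMap.ker
      ((gmat A k).map (MvPolynomial.eval fun x : κ × ι => pos₀ x.1 x.2)).mulVecLin = ⊥ := by
    rw [gmat_map, ker_cmat]
    exact h₀
  obtain ⟨G, hG, hG'⟩ := Pool.Agent.H18.Fat.exists_poly_injective _ _ h1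
  refine ⟨G, ?_, ?_⟩
  · rintro rfl
    exact hG (map_zero _)
  · intro pos hpos
    have h2 := hG' _ hpos
    rw [gmat_map, ker_cmat] at h2
    exact h2

/-- Two open conditions can be satisfied at the same time, with all coordinates nonzero.
Proof: multiply the two polynomials of `GI.general` and `∏ x, X x`; a nonzero polynomial over the
infinite field `ℂ` has a non-root (`MvPolynomial.funext`). -/
theorem GI.exists_common {κ : Type} [Fintype κ] {A A' : Finset (ι → ℕ)} {k k' : κ → Kind ι}
    (h : GI A k) (h' : GI A' k') :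
    ∃ pos : κ → ι → ℂ, InjAt A k pos ∧ InjAt A' k' pos ∧ ∀ i j, pos i j ≠ 0 := by
  obtain ⟨G, hG, hG'⟩ := h.general
  obtain ⟨H, hH, hH'⟩ := h'.general
  have hX : (∏ x : κ × ι, (MvPolynomial.X x : MvPolynomial (κ × ι) ℂ)) ≠ 0 :=
    prod_ne_zero_iff.2 fun x _ => MvPolynomial.X_ne_zero x
  have hne : G * H * ∏ x : κ × ι, (MvPolynomial.X x : MvPolynomial (κ × ι) ℂ) ≠ 0 :=
    mul_ne_zero (mul_ne_zero hG hH) hX
  obtain ⟨x, hx⟩ : ∃ x : κ × ι → ℂ, MvPolynomial.eval x
      (G * H * ∏ x : κ × ι, (MvPolynomial.X x : MvPolynomial (κ × ι) ℂ)) ≠ 0 := by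
    by_contra hcon
    push Not at hcon
    exact hne (MvPolynomial.funext fun x => by rw [hcon x, map_zero])
  rw [map_mul, map_mul] at hx
  have h1 := left_ne_zero_of_mul (left_ne_zero_of_mul hx)
  have h2 := right_ne_zero_of_mul (left_ne_zero_of_mul hx)
  have h3 := right_ne_zero_of_mul hx
  rw [map_prod] at h3
  refine ⟨fun i j => x (i, j), hG' _ h1, hH' _ h2, fun i j => ?_⟩
  have h4 := prod_ne_zero_iff.1 h3 (i, j) (mem_univ _)
  rw [MvPolynomial.eval_X] at h4
  exact h4

end Pool.Agent.H18.Ex

end
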