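import Pool.Agent.H94.LP3.M01

/-! The parts of this file: H18.Tl.ShB, H18.Tl.Loc, H18.Tl.Sym, H18.Tl.Td, H18.Tl.CmpB, H18.Tl.Cmp. -/

section

/-!
# Module ShB (TL): transformations of blocks

`van_sh`, `van_sc`, `van_tz`, `van_rv` give the membership in `vanL` for the transformed lists; `sh c`, `comp (C δ * X)`
(`δ ≠ 0`) and `act A` preserve `U b a` and (for the injectivity) have inverses of the same kind (`sh (-c)`, `δ⁻¹`, `tz_neg_mul`,
`rv_mul_rv`; for `rv`, the inverse transformation is again an inversion, `(1/z)⁻¹ = z`).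
Shifting: `F ∈ vanL b (shL c L) ↔ sh c F ∈ vanL b L`; so the columns of `Φ.map (taylor (-c))` vanish at `shL c L`; the
coefficient of `t^(a-1)` of `Φ(t - c)` is `cf Φ (a - 1) - a c • 1`.
-/

namespace Pool.Agent.H18.Tl

open Finset Polynomial

variable {τ : Type} [Fintype τ] [DecidableEq τ] {b : τ → ℕ} {μ a : ℕ} {L : List (Pt τ)}
  {Φ : Matrix (Box b) (Box b) ℂ[X]}

private theorem ShB_tay0 (r : ℂ) (f : ℂ[X]) (n : ℕ) (h : ∀ i, n ≤ i → f.coeff i = 0) :
    (taylor r f).coeff n = 0 := by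
  rw [taylor_coeff]
  have h0 : hasseDeriv n f = 0 := by
    ext i
    rw [hasseDeriv_coeff, h (i + n) (Nat.le_add_left n i), mul_zero, coeff_zero]
  rw [h0, eval_zero]

private theorem ShB_tay (r : ℂ) (f : ℂ[X]) (a n : ℕ) (hn : n ≤ a)
    (h : ∀ i, a < i → f.coeff i = 0) :
    (taylor r f).coeff n =
      ∑ i ∈ Finset.range (a - n + 1), (((i + n).choose n : ℕ) : ℂ) * f.coeff (i + n) * r ^ i := by
  rw [taylor_coeff]
  have h1 : f.natDegree ≤ a := natDegree_le_iff_coeff_eq_zero.2 fun i hi => h i hi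
  have h2 : (hasseDeriv n f).natDegree < a - n + 1 :=
    lt_of_le_of_lt (natDegree_hasseDeriv_le f n) (by omega)
  rw [eval_eq_sum_range' h2]
  refine Finset.sum_congr rfl fun i _ => ?_
  rw [hasseDeriv_coeff]

omit [Fintype τ] [DecidableEq τ] in
private theorem ShB_sh_sh (c d : ℂ) (F : V b) : Tl.sh c (Tl.sh d F) = Tl.sh (d + c) F := by
  funext γ
  rw [sh_apply, sh_apply, sh_apply, taylor_taylor, add_comm]

omit [Fintype τ] [DecidableEq τ] in
private theorem ShB_sh_zero (F : V b) : Tl.sh 0 F = F := by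
  funext γ
  rw [sh_apply, taylor_zero]

omit [Fintype τ] [DecidableEq τ] in
private theorem ShB_sh_U (c : ℂ) (F : V b) (hF : F ∈ U b a) : Tl.sh c F ∈ U b a := by
  intro β j hj
  rw [sh_apply]
  exact ShB_tay0 c (F β) j fun i hi => hF β i (le_trans hj hi)

omit [DecidableEq τ] in
private theorem ShB_sh_Ve (c : ℂ) (e : ℕ) (F : V b) (hF : F ∈ Ve b e) : Tl.sh c F ∈ Ve b e := by
  intro β j hj
  rw [sh_apply]
  exact ShB_tay0 c (F β) j fun i hi => hF β i (by omega)

theorem vanL_sh (c : ℂ) (L : List (Pt τ)) (F : V b) :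
    sh c F ∈ vanL b L ↔ F ∈ vanL b (shL c L) := by
  rw [mem_vanL, mem_vanL]
  constructor
  · intro h q hq
    obtain ⟨p, hp, rfl⟩ := List.mem_map.1 hq
    exact (van_sh c p F).1 (h p hp)
  · intro h p hp
    exact (van_sh c p F).2 (h _ (List.mem_map.2 ⟨p, hp, rfl⟩))

theorem Blk.sh (h : Blk b μ a L) (c : ℂ) : Blk b μ a (shL c L) := by
  refine ⟨?_, ?_, ?_, ?_⟩
  · intro q hq
    obtain ⟨p, hp, rfl⟩ := List.mem_map.1 hq
    exact h.mult p hp
  · have h1 : (shL c L).map Pt.x = (L.map Pt.x).map fun x => x + c := by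
      rw [shL, List.map_map, List.map_map]
      rfl
    rw [h1]
    exact h.dist.map (add_left_injective c)
  · rw [shL, List.length_map]
    exact h.cnt
  · intro F hU hF
    have h1 : Tl.sh c F = 0 := h.inj _ (ShB_sh_U c F hU) ((vanL_sh c L F).2 hF)
    have h2 : Tl.sh (-c) (Tl.sh c F) = F := by
      rw [ShB_sh_sh, add_neg_cancel, ShB_sh_zero]
    rw [← h2, h1, map_zero]

theorem Blk.sc (h : Blk b μ a L) (δ : ℂ) (hδ : δ ≠ 0) : Blk b μ a (scL δ L) := by
  refine ⟨?_, ?_, ?_, ?_⟩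
  · intro q hq
    obtain ⟨p, hp, rfl⟩ := List.mem_map.1 hq
    exact h.mult p hp
  · have h1 : (scL δ L).map Pt.x = (L.map Pt.x).map fun x => δ * x := by
      rw [scL, List.map_map, List.map_map]
      rfl
    rw [h1]
    exact h.dist.map (mul_right_injective₀ hδ)
  · rw [scL, List.length_map]
    exact h.cnt
  · intro F hU hF
    have hc : ∀ (f : ℂ[X]) (j : ℕ), (f.comp (C δ * X)).coeff j = f.coeff j * δ ^ j := fun f j =>
      comp_C_mul_X_coeff
    have h1 : (fun γ => (F γ).comp (C δ * X)) = (0 : V b) := by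
      refine h.inj _ ?_ ?_
      · intro β j hj
        change ((F β).comp (C δ * X)).coeff j = 0
        rw [hc, hU β j hj, zero_mul]
      · intro p hp
        exact (van_sc δ hδ p F).2 (hF _ (List.mem_map.2 ⟨p, hp, rfl⟩))
    funext β
    ext j
    have h2 : ((F β).comp (C δ * X)).coeff j = 0 := by
      have h3 := congrFun h1 β
      change (F β).comp (C δ * X) = 0 at h3
      rw [h3, coeff_zero]
    rw [hc] at h2
    rw [Pi.zero_apply, coeff_zero]
    exact (mul_eq_zero.1 h2).resolve_right (pow_ne_zero j hδ)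

theorem Blk.tz (h : Blk b μ a L) (c : τ → ℂ) : Blk b μ a (tzL c L) := by
  refine ⟨?_, ?_, ?_, ?_⟩
  · intro q hq
    obtain ⟨p, hp, rfl⟩ := List.mem_map.1 hq
    exact h.mult p hp
  · have h1 : (tzL c L).map Pt.x = L.map Pt.x := by
      rw [tzL, List.map_map]
      rfl
    rw [h1]
    exact h.dist
  · rw [tzL, List.length_map]
    exact h.cnt
  · intro F hU hF
    have h1 : act (Tl.tz b c) F = 0 := by
      refine h.inj _ (act_mem_U _ a F hU) ?_
      intro p hp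
      exact (van_tz c p F).2 (hF _ (List.mem_map.2 ⟨p, hp, rfl⟩))
    have h2 : act (Tl.tz b (-c)) (act (Tl.tz b c) F) = F := by
      rw [← act_mul, tz_neg_mul, act_one]
    rw [← h2, h1, map_zero]

theorem Blk.rv (h : Blk b μ a L) (hz : ∀ p ∈ L, ∀ l, p.z l ≠ 0) : Blk b μ a (rvL L) := by
  refine ⟨?_, ?_, ?_, ?_⟩
  · intro q hq
    obtain ⟨p, hp, rfl⟩ := List.mem_map.1 hq
    exact h.mult p hp
  · have h1 : (rvL L).map Pt.x = L.map Pt.x := by
      rw [rvL, List.map_map]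
      rfl
    rw [h1]
    exact h.dist
  · rw [rvL, List.length_map]
    exact h.cnt
  · intro F hU hF
    have h1 : act (Tl.rv b) F = 0 := by
      refine h.inj _ (act_mem_U _ a F hU) ?_
      intro p hp
      have h3 := van_rv (b := b) ⟨p.m, p.x, fun l => (p.z l)⁻¹⟩ (fun l => inv_ne_zero (hz p hp l)) F
        (hF _ (List.mem_map.2 ⟨p, hp, rfl⟩))
      have h4 : (⟨p.m, p.x, fun l => ((p.z l)⁻¹)⁻¹⟩ : Pt τ) = p := by
        simp only [inv_inv]
      rw [← h4]
      exact h3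
    have h2 : act (Tl.rv b) (act (Tl.rv b) F) = F := by
      rw [← act_mul, rv_mul_rv, act_one]
    rw [← h2, h1, map_zero]

theorem Ph.sh (hΦ : Ph b a L Φ) (c : ℂ) : Ph b a (shL c L) (Φ.map (taylor (-c))) := by
  refine ⟨?_, ?_, ?_⟩
  · intro β
    have h1 : (fun γ => (Φ.map (taylor (-c))) γ β) = Tl.sh (-c) fun γ => Φ γ β := rfl
    rw [h1, ← vanL_sh, ShB_sh_sh, neg_add_cancel, ShB_sh_zero]
    exact hΦ.van β
  · intro γ β
    rw [Matrix.map_apply, ShB_tay (-c) (Φ γ β) a a le_rfl (hΦ.deg γ β), Nat.sub_self, zero_add,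
      Finset.sum_range_one, zero_add, Nat.choose_self, Nat.cast_one, one_mul, pow_zero, mul_one]
    exact hΦ.top γ β
  · intro γ β j hj
    rw [Matrix.map_apply]
    exact ShB_tay0 _ _ _ fun i hi => hΦ.deg γ β i (lt_of_lt_of_le hj hi)

theorem cf_sh (hΦ : Ph b a L Φ) (ha : 1 ≤ a) (c : ℂ) :
    cf (Φ.map (taylor (-c))) (a - 1) = cf Φ (a - 1) - ((a : ℂ) * c) • (1 : Mt b) := by
  obtain ⟨n, rfl⟩ : ∃ n, a = n + 1 := ⟨a - 1, by omega⟩
  funext γ β
  have h1 := ShB_tay (-c) (Φ γ β) (n + 1) n (Nat.le_succ n) (hΦ.deg γ β)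
  have h2 : n + 1 - n + 1 = 2 := by omega
  rw [h2, Finset.sum_range_succ, Finset.sum_range_one, zero_add, Nat.choose_self, Nat.cast_one,
    one_mul, pow_zero, mul_one, pow_one, add_comm 1 n, hΦ.top γ β, Nat.choose_succ_self_right] at h1
  rw [Matrix.sub_apply, Matrix.smul_apply, Matrix.one_apply]
  change (taylor (-c) (Φ γ β)).coeff (n + 1 - 1) = (Φ γ β).coeff (n + 1 - 1) - _
  rw [Nat.add_sub_cancel, h1, smul_eq_mul]
  ring

theorem ev_sh (Φ : Matrix (Box b) (Box b) ℂ[X]) (c x : ℂ) :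
    ev (Φ.map (taylor (-c))) x = ev Φ (x - c) := by
  funext γ β
  change (taylor (-c) (Φ γ β)).eval x = (Φ γ β).eval (x - c)
  rw [taylor_eval, sub_eq_add_neg]

private theorem ShB_col (A B : Mt b) (Φ : Matrix (Box b) (Box b) ℂ[X]) (β : Box b) :
    (fun γ => (A.map C * Φ * B.map C) γ β) = act A (Φ.mulVec (cv fun κ => B κ β)) := by
  rw [Matrix.mul_assoc]
  rfl

private theorem ShB_topdeg (A B : Mt b) (hAB : A * B = 1) (hΦ : Ph b a L Φ) :
    (∀ γ β, ((A.map C * Φ * B.map C) γ β).coeff a = if γ = β then 1 else 0) ∧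
      ∀ γ β j, a < j → ((A.map C * Φ * B.map C) γ β).coeff j = 0 := by
  constructor
  · intro γ β
    obtain ⟨-, -, h3, -⟩ := hΦ.comb fun κ => B κ β
    rw [show (A.map C * Φ * B.map C) γ β = act A (Φ.mulVec (cv fun κ => B κ β)) γ from
      congrFun (ShB_col A B Φ β) γ, coeff_act]
    have h4 : ∑ κ, A γ κ * (Φ.mulVec (cv fun κ => B κ β) κ).coeff a = (A * B) γ β := by
      rw [Matrix.mul_apply]
      exact Finset.sum_congr rfl fun κ _ => by rw [h3 κ]
    rw [h4, hAB, Matrix.one_apply]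
  · intro γ β j hj
    obtain ⟨-, h2, -, -⟩ := hΦ.comb fun κ => B κ β
    rw [show (A.map C * Φ * B.map C) γ β = act A (Φ.mulVec (cv fun κ => B κ β)) γ from
      congrFun (ShB_col A B Φ β) γ, coeff_act]
    refine Finset.sum_eq_zero fun κ _ => ?_
    rw [h2 κ j hj, mul_zero]

theorem Ph.tz (hΦ : Ph b a L Φ) (c : τ → ℂ) :
    Ph b a (tzL c L) ((Tl.tz b (-c)).map C * Φ * (Tl.tz b c).map C) := by
  obtain ⟨h1, h2⟩ := ShB_topdeg (Tl.tz b (-c)) (Tl.tz b c) (tz_neg_mul c) hΦ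
  refine ⟨?_, h1, h2⟩
  intro β q hq
  obtain ⟨p, hp, rfl⟩ := List.mem_map.1 hq
  rw [ShB_col]
  refine (van_tz c p _).1 ?_
  rw [← act_mul, tz_mul_neg, act_one]
  exact (hΦ.comb fun κ => Tl.tz b c κ β).1 p hp

theorem Ph.rv (hΦ : Ph b a L Φ) (hz : ∀ p ∈ L, ∀ l, p.z l ≠ 0) :
    Ph b a (rvL L) ((Tl.rv b).map C * Φ * (Tl.rv b).map C) := by
  obtain ⟨h1, h2⟩ := ShB_topdeg (Tl.rv b) (Tl.rv b) rv_mul_rv hΦ
  refine ⟨?_, h1, h2⟩
  intro β q hq
  obtain ⟨p, hp, rfl⟩ := List.mem_map.1 hq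
  rw [ShB_col]
  exact van_rv p (hz p hp) _ ((hΦ.comb fun κ => Tl.rv b κ β).1 p hp)

theorem cf_conj (A B : Mt b) (Φ : Matrix (Box b) (Box b) ℂ[X]) (j : ℕ) :
    cf (A.map C * Φ * B.map C) j = A * cf Φ j * B := by
  funext γ β
  change ((A.map C * Φ * B.map C) γ β).coeff j = (A * cf Φ j * B) γ β
  rw [Matrix.mul_apply, Matrix.mul_apply, finsetSum_coeff]
  refine Finset.sum_congr rfl fun κ _ => ?_
  rw [Matrix.map_apply, coeff_mul_C, Matrix.mul_apply, Matrix.mul_apply, finsetSum_coeff]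
  congr 1
  refine Finset.sum_congr rfl fun ι _ => ?_
  rw [Matrix.map_apply, coeff_C_mul]
  rfl

/-- Solutions after a translation. -/
private theorem ShB_sh_mem_Sol (c : ℂ) (e : ℕ) (L : List (Pt τ)) (F : V b) :
    Tl.sh c F ∈ Sol b e L ↔ F ∈ Sol b e (shL c L) := by
  rw [mem_Sol, mem_Sol, vanL_sh]
  refine and_congr_left fun _ => ⟨fun h => ?_, ShB_sh_Ve c e F⟩
  have h2 : Tl.sh (-c) (Tl.sh c F) = F := by
    rw [ShB_sh_sh, add_neg_cancel, ShB_sh_zero]
  rw [← h2]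
  exact ShB_sh_Ve (-c) e _ h

/-- Translations of the whole configuration do not change the dimension. -/
theorem h0_sh (c : ℂ) (e : ℕ) (L : List (Pt τ)) : h0 b e (shL c L) = h0 b e L := by
  let E : V b ≃ₗ[ℂ] V b := LinearEquiv.ofLinearMap (Tl.sh c) (Tl.sh (-c))
    (LinearMap.ext fun F => by
      rw [LinearMap.comp_apply, ShB_sh_sh, neg_add_cancel, ShB_sh_zero, LinearMap.id_apply])
    (LinearMap.ext fun F => by
      rw [LinearMap.comp_apply, ShB_sh_sh, add_neg_cancel, ShB_sh_zero, LinearMap.id_apply])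
  have h1 : (Sol b e (shL c L)).map (E : V b →ₗ[ℂ] V b) = Sol b e L := by
    ext G
    rw [Submodule.mem_map]
    constructor
    · rintro ⟨F, hF, rfl⟩
      exact (ShB_sh_mem_Sol c e L F).2 hF
    · intro hG
      refine ⟨E.symm G, (ShB_sh_mem_Sol c e L _).1 ?_, E.apply_symm_apply G⟩
      have h3 : Tl.sh c (E.symm G) = G := E.apply_symm_apply G
      rw [h3]
      exact hG
  rw [h0, h0, ← h1]
  exact (E.submoduleMap (Sol b e (shL c L))).finrank_eq

/-- Solutions after a translation. -/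
theorem sh_mem_Sol (c : ℂ) (e : ℕ) (L : List (Pt τ)) (F : V b) :
    sh c F ∈ Sol b e L ↔ F ∈ Sol b e (shL c L) :=
  ShB_sh_mem_Sol c e L F

theorem cL_sh (c : ℂ) (L : List (Pt τ)) : cL b (shL c L) = cL b L := by
  rw [cL, cL, shL, List.map_map]
  rfl

end Pool.Agent.H18.Tl

end

section

/-!
# Module Loc (TL): the local form of `Φ` at a point of the block

`loc`: the column `β` of `Φ` vanishes at `⟨μ, 0, 0⟩`, so `X^(μ - dg γ) ∣ Φ γ β` (`van_zero_iff`, `C 0 = 0`); this defines `H`.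
`det ≠ 0`: otherwise `(ev H 0).mulVec w = 0` with `w ≠ 0` (`Matrix.exists_mulVec_eq_zero_iff`); `H.mulVec (cv w)` vanishes at `0`, so it
is `X • g`; `G γ = X^(μ - dg γ) * g γ` satisfies `X • G = Φ.mulVec (cv w)` (`Ph.comb`), so `G ∈ U b a`, `G` vanishes at the point
`⟨μ, 0, 0⟩` (`van_zero_iff`) and at the points of `L₀` (`vanL_unit` with `q = X`: their `x` are `≠ 0` by `h.dist`), so `G = 0`, and
`Φ.mulVec (cv w) = 0`, `w = 0` (top coefficient).

`exists_orig`: take the first point `p` of `L`, `shL (-p.x)`, `tzL (-p.z)` (`Blk.sh`, `Blk.tz`).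
-/

namespace Pool.Agent.H18.Tl

open Finset Polynomial

variable {τ : Type} [Fintype τ] [DecidableEq τ] {b : τ → ℕ} {μ a : ℕ} {L₀ : List (Pt τ)}
  {Φ : Matrix (Box b) (Box b) ℂ[X]}

theorem Blk.ne_zero (h : Blk b μ a (⟨μ, 0, 0⟩ :: L₀)) : ∀ p ∈ L₀, p.x ≠ 0 := by
  intro p hp h0
  have h1 := h.dist
  rw [List.map_cons, List.nodup_cons] at h1
  apply h1.1
  rw [List.mem_map]
  exact ⟨p, hp, h0⟩

theorem loc (h : Blk b μ a (⟨μ, 0, 0⟩ :: L₀)) (hΦ : Ph b a (⟨μ, 0, 0⟩ :: L₀) Φ) :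
    ∃ H : Matrix (Box b) (Box b) ℂ[X], (∀ γ β, Φ γ β = X ^ (μ - dg γ) * H γ β) ∧
      (ev H 0).det ≠ 0 := by
  have hdv : ∀ γ β, X ^ (μ - dg γ) ∣ Φ γ β := by
    intro γ β
    have h1 := hΦ.van β ⟨μ, 0, 0⟩ (List.mem_cons_self ..)
    have h2 := (van_zero_iff μ 0 _).1 h1 γ
    simpa using h2
  choose H hH using hdv
  refine ⟨fun γ β => H γ β, hH, ?_⟩
  intro hdet
  obtain ⟨w, hw0, hw⟩ := Matrix.exists_mulVec_eq_zero_iff.2 hdet
  have hK : ∀ γ, X ∣ ∑ β, H γ β * C (w β) := by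
    intro γ
    rw [X_dvd_iff, coeff_zero_eq_eval_zero, eval_finsetSum]
    simpa [ev, Matrix.mulVec, dotProduct] using congrFun hw γ
  choose g hg using hK
  set G : V b := fun γ => X ^ (μ - dg γ) * g γ with hG
  have hGX : (X : ℂ[X]) • G = Φ.mulVec (cv w) := by
    funext γ
    have e1 : Φ.mulVec (cv w) γ = ∑ β, Φ γ β * C (w β) := rfl
    rw [e1, Pi.smul_apply, smul_eq_mul, hG]
    have e2 : ∑ β, Φ γ β * C (w β) = X ^ (μ - dg γ) * ∑ β, H γ β * C (w β) := by
      rw [Finset.mul_sum]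
      refine Finset.sum_congr rfl fun β _ => ?_
      rw [hH γ β]
      ring
    rw [e2, hg γ]
    ring
  obtain ⟨c1, c2, c3, -⟩ := hΦ.comb w
  have hGU : G ∈ U b a := by
    intro β j hj
    have h3 : (Φ.mulVec (cv w) β).coeff (j + 1) = 0 := c2 β (j + 1) (by omega)
    rw [← hGX, Pi.smul_apply, smul_eq_mul, coeff_X_mul] at h3
    exact h3
  have hGv : G ∈ vanL b (⟨μ, 0, 0⟩ :: L₀) := by
    intro p hp
    rcases List.mem_cons.1 hp with rfl | hp
    · rw [van_zero_iff]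
      intro γ
      rw [C_0, sub_zero, hG]
      exact dvd_mul_right _ _
    · refine vanL_unit L₀ X (fun q hq => ?_) G (fun q hq => ?_) p hp
      · rw [eval_X]
        exact h.ne_zero q hq
      · rw [hGX]
        exact c1 q (List.mem_cons_of_mem _ hq)
  have hG0 := h.inj G hGU hGv
  apply hw0
  funext β
  have h4 := c3 β
  rw [← hGX, hG0, smul_zero] at h4
  simpa using h4.symm

/-- There is a block with the same number of points, one of them at the origin. -/
theorem exists_orig (hex : ∃ a L, Blk b μ a L ∧ L ≠ []) :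
    ∃ a L₀, Blk b μ a (⟨μ, 0, 0⟩ :: L₀) := by
  obtain ⟨a, L, h, hL⟩ := hex
  cases L with
  | nil => exact absurd rfl hL
  | cons p L' =>
    have h1 := (h.sh (-p.x)).tz (-p.z)
    have h2 : p.m = μ := h.mult p (List.mem_cons_self ..)
    refine ⟨a, tzL (-p.z) (shL (-p.x) L'), ?_⟩
    have h3 : tzL (-p.z) (shL (-p.x) (p :: L')) =
        (⟨μ, 0, 0⟩ : Pt τ) :: tzL (-p.z) (shL (-p.x) L') := by
      simp only [tzL, shL, List.map_cons, add_neg_cancel, h2]
    rw [h3] at h1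
    exact h1

end Pool.Agent.H18.Tl

end

section

/-!
# Module Sym (TL): symmetries of the spans `Ds`

`Ds_one`: for a block `L` with matrix `Φ` the generators of `L` and of `shL (-1) L` (`Ph.sh`, `cf_sh`) differ by `a • 1`, `a ≥ 1`.
`Ds_tz`: by `Submodule.span_induction` (or `Submodule.map_span_le`) for a generator: `Blk.tz`, `Ph.tz`, `cf_conj`.
`Ds_rv`: for a generator `Y = cf Φ (a - 1)` of the block `L`: for `δ` with `δ + p.z l ≠ 0` for all `p ∈ L`, `l` (almost all `δ`) the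
block `tzL (fun _ => δ) L` satisfies the hypothesis of `Blk.rv`, so `rv * tz (-c) * Y * tz c * rv ∈ Ds b μ s`, `c = fun _ => δ`.  The
entries of `tz b (fun _ => δ)` are `∏ binom * δ ^ (dg β - dg γ)`, so this is a polynomial family `∑_{k<n} δ^k • C k` of matrices with
`C 0` = the value at `δ = 0`, i.e. `rv * Y * rv` (`tz_zero`); apply `mem_of_poly` (`k = 0`).
-/

namespace Pool.Agent.H18.Tl

open Finset Polynomial

variable {τ : Type} [Fintype τ] [DecidableEq τ] {b : τ → ℕ} {μ s : ℕ}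

/-- The translations by `(δ, …, δ)` form a polynomial family. -/
theorem tz_poly (b : τ → ℕ) : ∃ (n : ℕ) (A : ℕ → Mt b), 1 ≤ n ∧ A 0 = 1 ∧
    ∀ δ : ℂ, tz b (fun _ => δ) = ∑ k ∈ range n, δ ^ k • A k := by
  classical
  let A : ℕ → Mt b := fun k γ β =>
    if ∑ l, ((β l : ℕ) - (γ l : ℕ)) = k then ∏ l, (((β l : ℕ).choose (γ l : ℕ) : ℕ) : ℂ) else 0
  have hA : ∀ δ : ℂ, tz b (fun _ => δ) = ∑ k ∈ range (Bs b + 1), δ ^ k • A k := by
    intro δ
    ext γ β
    have h1 : ∑ l, ((β l : ℕ) - (γ l : ℕ)) < Bs b + 1 := by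
      refine Nat.lt_succ_of_le ?_
      unfold Bs
      refine Finset.sum_le_sum fun l _ => ?_
      have := (β l).isLt
      omega
    rw [Matrix.sum_apply]
    have h2 : ∀ k ∈ range (Bs b + 1), (δ ^ k • A k) γ β =
        if ∑ l, ((β l : ℕ) - (γ l : ℕ)) = k then
          δ ^ k * ∏ l, (((β l : ℕ).choose (γ l : ℕ) : ℕ) : ℂ) else 0 := by
      intro k _
      rw [Matrix.smul_apply, smul_eq_mul]
      show δ ^ k * (if ∑ l, ((β l : ℕ) - (γ l : ℕ)) = k then
        ∏ l, (((β l : ℕ).choose (γ l : ℕ) : ℕ) : ℂ) else 0) = _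
      split_ifs <;> simp
    rw [Finset.sum_congr rfl h2, Finset.sum_ite_eq, if_pos (Finset.mem_range.2 h1)]
    unfold tz
    rw [Finset.prod_mul_distrib, Finset.prod_pow_eq_pow_sum, mul_comm]
  refine ⟨Bs b + 1, A, by omega, ?_, hA⟩
  have h0 := hA 0
  rw [Finset.sum_range_succ'] at h0
  have h3 : ∀ k ∈ range (Bs b), (0 : ℂ) ^ (k + 1) • A (k + 1) = 0 := by
    intro k _
    rw [zero_pow (Nat.succ_ne_zero k), zero_smul]
  rw [Finset.sum_congr rfl h3, Finset.sum_const_zero, zero_add, pow_zero, one_smul] at h0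
  rw [← h0]
  exact tz_zero

private theorem Sym_gen {a : ℕ} {L : List (Pt τ)} {Φ : Matrix (Box b) (Box b) ℂ[X]}
    (hB : Blk b μ a L) (hl : L.length = s) (hΦ : Ph b a L Φ) : cf Φ (a - 1) ∈ Ds b μ s :=
  Submodule.subset_span ⟨a, L, Φ, hB, hl, hΦ, rfl⟩

theorem Ds_one (hμ : 1 ≤ μ) (hs : 1 ≤ s) (h : ∃ a L, Blk b μ a L ∧ L.length = s) :
    (1 : Mt b) ∈ Ds b μ s := by
  obtain ⟨a, L, hB, hl⟩ := h
  have hL : L ≠ [] := by
    intro h0
    rw [h0] at hl
    simp at hl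
    omega
  have ha : 1 ≤ a := hB.pos hμ hL
  obtain ⟨Φ, hΦ⟩ := exists_ph hB
  have h1 : cf Φ (a - 1) ∈ Ds b μ s := Sym_gen hB hl hΦ
  have h2 : cf (Φ.map (taylor (-(-1 : ℂ)))) (a - 1) ∈ Ds b μ s :=
    Sym_gen (hB.sh (-1)) (by rw [shL, List.length_map, hl]) (hΦ.sh (-1))
  rw [cf_sh hΦ ha (-1)] at h2
  have h3 := (Ds b μ s).sub_mem h2 h1
  have h4 : cf Φ (a - 1) - ((a : ℂ) * (-1)) • (1 : Mt b) - cf Φ (a - 1) = (a : ℂ) • (1 : Mt b) := by
    rw [mul_neg_one, neg_smul]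
    abel
  rw [h4] at h3
  have ha' : (a : ℂ) ≠ 0 := by
    exact_mod_cast (by omega : a ≠ 0)
  have h5 := (Ds b μ s).smul_mem ((a : ℂ)⁻¹) h3
  rwa [smul_smul, inv_mul_cancel₀ ha', one_smul] at h5

theorem Ds_tz (c : τ → ℂ) (Y : Mt b) (hY : Y ∈ Ds b μ s) :
    tz b (-c) * Y * tz b c ∈ Ds b μ s := by
  unfold Ds at hY
  refine Submodule.span_induction (p := fun Y _ => tz b (-c) * Y * tz b c ∈ Ds b μ s) ?_ ?_ ?_ ?_ hY
  · rintro _ ⟨a, L, Φ, hB, hl, hΦ, rfl⟩
    rw [← cf_conj]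
    exact Sym_gen (hB.tz c) (by rw [tzL, List.length_map, hl]) (hΦ.tz c)
  · rw [mul_zero, zero_mul]
    exact (Ds b μ s).zero_mem
  · intro Y Z _ _ h1 h2
    rw [mul_add, add_mul]
    exact (Ds b μ s).add_mem h1 h2
  · intro r Y _ h1
    rw [Matrix.mul_smul, Matrix.smul_mul]
    exact (Ds b μ s).smul_mem r h1

private theorem Sym_rv_gen {a : ℕ} {L : List (Pt τ)} {Φ : Matrix (Box b) (Box b) ℂ[X]}
    (hB : Blk b μ a L) (hl : L.length = s) (hΦ : Ph b a L Φ) :
    rv b * cf Φ (a - 1) * rv b ∈ Ds b μ s := by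
  classical
  obtain ⟨n, A, hn, hA0, hA⟩ := tz_poly b
  set Y : Mt b := cf Φ (a - 1) with hY
  let T : Set ℂ := ⋃ p ∈ {p | p ∈ L}, ⋃ l : τ, {-(p.z l)}
  have hT : T.Finite := by
    refine Set.Finite.biUnion (List.finite_toSet L) fun p _ => ?_
    exact Set.finite_iUnion fun l => Set.finite_singleton _
  -- the members for good parameters
  have key : ∀ δ : ℂ, δ ∉ T →
      rv b * (tz b (-(fun _ => δ)) * Y * tz b (fun _ => δ)) * rv b ∈ Ds b μ s := by
    intro δ hδ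
    have hz : ∀ p ∈ tzL (fun _ => δ) L, ∀ l, p.z l ≠ 0 := by
      intro p hp l
      unfold tzL at hp
      rw [List.mem_map] at hp
      obtain ⟨p', hp', rfl⟩ := hp
      intro h0
      apply hδ
      have h1 : p'.z l + δ = 0 := h0
      refine Set.mem_biUnion (show p' ∈ {p | p ∈ L} from hp') ?_
      refine Set.mem_iUnion.2 ⟨l, ?_⟩
      rw [Set.mem_singleton_iff]
      exact eq_neg_of_add_eq_zero_right h1
    have h1 := hB.tz (fun _ => δ)
    have h2 := hΦ.tz (fun _ => δ)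
    have h3 := h1.rv hz
    have h4 := h2.rv hz
    have h5 : cf ((Tl.rv b).map C * ((Tl.tz b (-(fun _ => δ))).map C * Φ *
        (Tl.tz b (fun _ => δ)).map C) * (Tl.rv b).map C) (a - 1) ∈ Ds b μ s :=
      Sym_gen h3 (by rw [rvL, List.length_map, tzL, List.length_map, hl]) h4
    rw [cf_conj, cf_conj] at h5
    exact h5
  let Cf : ℕ → Mt b := fun k =>
    ∑ q ∈ (range n ×ˢ range n) with q.1 + q.2 = k, (-1 : ℂ) ^ q.1 • (rv b * (A q.1 * Y * A q.2) * rv b)
  have hsum : ∀ δ : ℂ, rv b * (tz b (-(fun _ => δ)) * Y * tz b (fun _ => δ)) * rv b =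
      ∑ k ∈ range (2 * n), δ ^ k • Cf k := by
    intro δ
    have hneg : (-(fun _ : τ => δ)) = (fun _ : τ => -δ) := rfl
    rw [hneg, hA δ, hA (-δ)]
    have h1 : rv b * ((∑ k ∈ range n, (-δ) ^ k • A k) * Y * ∑ k ∈ range n, δ ^ k • A k) * rv b =
        ∑ q ∈ range n ×ˢ range n,
          δ ^ (q.1 + q.2) • ((-1 : ℂ) ^ q.1 • (rv b * (A q.1 * Y * A q.2) * rv b)) := by
      rw [Finset.sum_mul, Finset.sum_mul_sum, Finset.mul_sum, Finset.sum_mul, Finset.sum_product]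
      refine Finset.sum_congr rfl fun i _ => ?_
      rw [Finset.mul_sum, Finset.sum_mul]
      refine Finset.sum_congr rfl fun j _ => ?_
      rw [Matrix.smul_mul, Matrix.smul_mul, Matrix.mul_smul, Matrix.mul_smul, Matrix.mul_smul,
        Matrix.smul_mul, Matrix.smul_mul, smul_smul, smul_smul]
      congr 1
      rw [neg_pow, pow_add]
      ring
    rw [h1, ← Finset.sum_fiberwise_of_maps_to (s := range n ×ˢ range n) (t := range (2 * n))
      (g := fun q => q.1 + q.2) (fun q hq => by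
        rw [Finset.mem_product, Finset.mem_range, Finset.mem_range] at hq
        rw [Finset.mem_range]
        omega)]
    refine Finset.sum_congr rfl fun k _ => ?_
    rw [Finset.smul_sum]
    refine Finset.sum_congr rfl fun q hq => ?_
    rw [(Finset.mem_filter.1 hq).2]
  have hmem := mem_of_poly (Ds b μ s) (2 * n) Cf T hT (fun δ hδ => by
    rw [← hsum δ]
    exact key δ hδ) 0 (by omega)
  have h0 : Cf 0 = rv b * Y * rv b := by
    have hf : ((range n ×ˢ range n).filter fun q => q.1 + q.2 = 0) = {((0 : ℕ), (0 : ℕ))} := by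
      ext ⟨i, j⟩
      simp only [Finset.mem_filter, Finset.mem_product, Finset.mem_range, Finset.mem_singleton,
        Prod.mk.injEq]
      omega
    show ∑ q ∈ (range n ×ˢ range n) with q.1 + q.2 = 0,
      (-1 : ℂ) ^ q.1 • (rv b * (A q.1 * Y * A q.2) * rv b) = _
    rw [hf, Finset.sum_singleton, hA0, pow_zero, one_smul, one_mul, mul_one]
  rw [h0] at hmem
  exact hmem

theorem Ds_rv (Y : Mt b) (hY : Y ∈ Ds b μ s) : rv b * Y * rv b ∈ Ds b μ s := by
  unfold Ds at hY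
  refine Submodule.span_induction (p := fun Y _ => rv b * Y * rv b ∈ Ds b μ s) ?_ ?_ ?_ ?_ hY
  · rintro _ ⟨a, L, Φ, hB, hl, hΦ, rfl⟩
    exact Sym_rv_gen hB hl hΦ
  · rw [mul_zero, zero_mul]
    exact (Ds b μ s).zero_mem
  · intro Y Z _ _ h1 h2
    rw [mul_add, add_mul]
    exact (Ds b μ s).add_mem h1 h2
  · intro r Y _ h1
    rw [Matrix.mul_smul, Matrix.smul_mul]
    exact (Ds b μ s).smul_mem r h1

end Pool.Agent.H18.Tl

end

section

/-!
# Module Td (TL): tiny blocks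

Let `ρ` be as in `exists_rho`.  Put `Pk 0 s = X^a • s` and for `k ≥ 1`
`Pk k s γ = ∑_{i < a, a ≤ k + i} C ((ρ (X^(k+i) • cv (fun β => (s β).coeff (k+i-a))) γ).coeff i) * X^i`.
`Pk k s = 0` for `k ≥ a + n` since `k + i - a ≥ n`.
`Pk 1 s`: only `i = a - 1`, and `ρ (X^a • cv w) = Φ.mulVec (cv w) - X^a • cv w` (both sides are in `U b a` and vanish at `L`
after adding `X^a • cv w`; `h.inj`), whose coefficient of `t^(a-1)` is `(cf Φ (a-1)).mulVec w`.
Vanishing: let `G = ∑_{k < a+n} δ^k Pk k s`.  By `van_sc`, `G ∈ vanL b (scL δ L)` iff `G(δ t) ∈ vanL b L`, and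
`G(δ t) = δ^a t^a s(δ t) + ∑_{k ≥ 1} ∑_i δ^(k+i) t^i ρ_i(t^(k+i) s_(k+i-a)) = ∑_{j<n} δ^(a+j) (t^(a+j) s_j + ρ (t^(a+j) s_j))`
(`j = k + i - a`; for given `j < n`, `i < a` the index `k = a + j - i` satisfies `1 ≤ k < a + n`; `s_j = cv (coefficients of t^j)`).
-/

namespace Pool.Agent.H18.Tl

open Finset Polynomial

variable {τ : Type} [Fintype τ] [DecidableEq τ] {b : τ → ℕ} {μ a : ℕ} {L : List (Pt τ)}
  {Φ : Matrix (Box b) (Box b) ℂ[X]}

private theorem Td_cv_add (w w' : Box b → ℂ) : (cv (w + w') : V b) = cv w + cv w' := by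
  funext β
  simp [cv]

private theorem Td_cv_smul (c : ℂ) (w : Box b → ℂ) : (cv (c • w) : V b) = c • cv w := by
  funext β
  simp [cv, smul_eq_C_mul]

private theorem Td_cv_zero : (cv (0 : Box b → ℂ) : V b) = 0 := by
  funext β
  simp [cv]

/-- The coefficient vector of `t^j`. -/
private def Td_sc (j : ℕ) (s : V b) : Box b → ℂ := fun β => (s β).coeff j

omit [Fintype τ] [DecidableEq τ] in
private theorem Td_sc_add (j : ℕ) (s s' : V b) :
    Td_sc j (s + s') = Td_sc j s + Td_sc j s' := by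
  funext β
  simp [Td_sc]

omit [Fintype τ] [DecidableEq τ] in
private theorem Td_sc_smul (j : ℕ) (c : ℂ) (s : V b) :
    Td_sc j (c • s) = c • Td_sc j s := by
  funext β
  simp [Td_sc]

private theorem Td_arg_add (m j : ℕ) (s s' : V b) :
    (X : ℂ[X]) ^ m • (cv (Td_sc j (s + s')) : V b) =
      (X : ℂ[X]) ^ m • cv (Td_sc j s) + (X : ℂ[X]) ^ m • cv (Td_sc j s') := by
  rw [Td_sc_add, Td_cv_add, smul_add]

private theorem Td_arg_smul (m j : ℕ) (c : ℂ) (s : V b) :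
    (X : ℂ[X]) ^ m • (cv (Td_sc j (c • s)) : V b) =
      c • ((X : ℂ[X]) ^ m • cv (Td_sc j s)) := by
  rw [Td_sc_smul, Td_cv_smul, smul_comm]

/-- The maps `P_k`, `k ≥ 1`. -/
private noncomputable def Td_P (a : ℕ) (ρ : V b →ₗ[ℂ] V b) (k : ℕ) : V b →ₗ[ℂ] V b where
  toFun s := fun γ => ∑ i ∈ range a,
    if a ≤ k + i then
      C ((ρ ((X : ℂ[X]) ^ (k + i) • cv (Td_sc (k + i - a) s)) γ).coeff i) * X ^ i
    else 0
  map_add' := by
    intro s s'
    funext γ
    rw [Pi.add_apply, ← sum_add_distrib]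
    refine sum_congr rfl fun i _ => ?_
    split_ifs with h
    · rw [Td_arg_add, map_add, Pi.add_apply, coeff_add, C_add, add_mul]
    · rw [add_zero]
  map_smul' := by
    intro c s
    funext γ
    rw [RingHom.id_apply, Pi.smul_apply, Finset.smul_sum]
    refine sum_congr rfl fun i _ => ?_
    split_ifs with h
    · rw [Td_arg_smul, map_smul, Pi.smul_apply, coeff_smul, smul_eq_mul, C_mul, smul_eq_C_mul,
        mul_assoc]
    · rw [smul_zero]

private theorem Td_P_apply (a : ℕ) (ρ : V b →ₗ[ℂ] V b) (k : ℕ) (s : V b) (γ : Box b) :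
    Td_P a ρ k s γ = ∑ i ∈ range a,
      if a ≤ k + i then
        C ((ρ ((X : ℂ[X]) ^ (k + i) • cv (Td_sc (k + i - a) s)) γ).coeff i) * X ^ i
      else 0 := rfl

private theorem Td_P_coeff (a : ℕ) (ρ : V b →ₗ[ℂ] V b) (k : ℕ) (s : V b) (γ : Box b) (i : ℕ) :
    (Td_P a ρ k s γ).coeff i = if i < a ∧ a ≤ k + i then
      (ρ ((X : ℂ[X]) ^ (k + i) • cv (Td_sc (k + i - a) s)) γ).coeff i else 0 := by
  rw [Td_P_apply, finsetSum_coeff]
  have hterm : ∀ j ∈ range a, (if a ≤ k + j then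
      C ((ρ ((X : ℂ[X]) ^ (k + j) • cv (Td_sc (k + j - a) s)) γ).coeff j) * X ^ j
      else (0 : ℂ[X])).coeff i =
      if i = j then (if a ≤ k + i then
        (ρ ((X : ℂ[X]) ^ (k + i) • cv (Td_sc (k + i - a) s)) γ).coeff i else 0) else 0 := by
    intro j _
    by_cases hij : i = j
    · subst hij
      rw [if_pos rfl]
      split_ifs with h
      · rw [coeff_C_mul, coeff_X_pow, if_pos rfl, mul_one]
      · rw [coeff_zero]
    · rw [if_neg hij]
      split_ifs with h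
      · rw [coeff_C_mul, coeff_X_pow, if_neg hij, mul_zero]
      · rw [coeff_zero]
  rw [sum_congr rfl hterm, Finset.sum_ite_eq]
  by_cases hi : i < a
  · rw [if_pos (mem_range.2 hi)]
    by_cases hk : a ≤ k + i
    · rw [if_pos hk, if_pos ⟨hi, hk⟩]
    · rw [if_neg hk, if_neg fun h => hk h.2]
  · rw [if_neg fun h => hi (mem_range.1 h), if_neg fun h => hi h.1]

/-- The maps `P_k`. -/
private noncomputable def Td_Q (a : ℕ) (ρ : V b →ₗ[ℂ] V b) (k : ℕ) : V b →ₗ[ℂ] V b :=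
  if k = 0 then (LinearMap.lsmul ℂ[X] (V b) ((X : ℂ[X]) ^ a)).restrictScalars ℂ else Td_P a ρ k

private theorem Td_Q_zero (a : ℕ) (ρ : V b →ₗ[ℂ] V b) (s : V b) :
    Td_Q a ρ 0 s = (X : ℂ[X]) ^ a • s := by
  rw [Td_Q, if_pos rfl]
  rfl

private theorem Td_Q_pos (a : ℕ) (ρ : V b →ₗ[ℂ] V b) {k : ℕ} (hk : 1 ≤ k) :
    Td_Q a ρ k = Td_P a ρ k := by
  rw [Td_Q, if_neg (by omega)]

private theorem Td_rho_top (h : Blk b μ a L) (hΦ : Ph b a L Φ) (ρ : V b →ₗ[ℂ] V b)
    (h1 : ∀ G, ρ G ∈ U b a) (h2 : ∀ G, G + ρ G ∈ vanL b L) (w : Box b → ℂ) :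
    ρ ((X : ℂ[X]) ^ a • cv w) = Φ.mulVec (cv w) - (X : ℂ[X]) ^ a • cv w := by
  obtain ⟨hc1, hc2, hc3, _⟩ := hΦ.comb w
  have hsub : ρ ((X : ℂ[X]) ^ a • cv w) - (Φ.mulVec (cv w) - (X : ℂ[X]) ^ a • cv w) = 0 := by
    apply h.inj
    · apply Submodule.sub_mem _ (h1 _)
      rw [mem_U]
      intro β j hj
      rw [Pi.sub_apply, coeff_sub, Pi.smul_apply, smul_eq_mul, mul_comm, cv, coeff_mul_X_pow']
      rw [if_pos hj, coeff_C]
      rcases Nat.eq_or_lt_of_le hj with hj' | hj'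
      · subst hj'
        rw [Nat.sub_self, if_pos rfl]
        have := hc3 β
        rw [this, sub_self]
      · rw [if_neg (by omega), mem_U.1 hc2 β j hj', sub_zero]
    · have h3 := (vanL b L).sub_mem (h2 ((X : ℂ[X]) ^ a • cv w)) hc1
      have h4 : ρ ((X : ℂ[X]) ^ a • cv w) - (Φ.mulVec (cv w) - (X : ℂ[X]) ^ a • cv w) =
          (X : ℂ[X]) ^ a • cv w + ρ ((X : ℂ[X]) ^ a • cv w) - Φ.mulVec (cv w) := by
        abel
      rw [h4]
      exact h3
  exact sub_eq_zero.1 hsub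

private theorem Td_sum_shift {f : ℕ → ℂ} (a n i : ℕ) (hi : i < a) (hf : ∀ j, n ≤ j → f j = 0) :
    (∑ k ∈ range (a + n), if a ≤ k + i then f (k + i - a) else 0) = ∑ j ∈ range n, f j := by
  have h1 : a + n = (a - i) + (n + i) := by omega
  rw [h1, Finset.sum_range_add, Finset.sum_range_add (fun x => if a ≤ a - i + x + i then
    f (a - i + x + i - a) else 0)]
  have h2 : (∑ x ∈ range (a - i), if a ≤ x + i then f (x + i - a) else 0) = 0 := by
    apply sum_eq_zero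
    intro x hx
    rw [mem_range] at hx
    rw [if_neg (by omega)]
  have h3 : (∑ x ∈ range i, if a ≤ a - i + (n + x) + i then f (a - i + (n + x) + i - a) else 0)
      = 0 := by
    apply sum_eq_zero
    intro x hx
    rw [mem_range] at hx
    rw [if_pos (by omega)]
    exact hf _ (by omega)
  rw [h2, h3, zero_add, add_zero]
  refine sum_congr rfl fun x hx => ?_
  rw [if_pos (by omega)]
  congr 1
  omega

private theorem Td_main (ha : 1 ≤ a) (ρ : V b →ₗ[ℂ] V b)
    (h1 : ∀ G, ρ G ∈ U b a) (n : ℕ) (s : V b) (hs : s ∈ U b n) (δ : ℂ) (γ : Box b) :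
    ((∑ k ∈ range (a + n), δ ^ k • Td_Q a ρ k s) γ).comp (C δ * X) =
      (∑ j ∈ range n, C (δ ^ (a + j)) • ((X : ℂ[X]) ^ (a + j) • cv (Td_sc j s) +
        ρ ((X : ℂ[X]) ^ (a + j) • cv (Td_sc j s)))) γ := by
  ext i
  rw [comp_C_mul_X_coeff, Finset.sum_apply, Finset.sum_apply, finsetSum_coeff, finsetSum_coeff]
  by_cases hi : i < a
  · have hl : ∀ k ∈ range (a + n), ((δ ^ k • Td_Q a ρ k s) γ).coeff i * δ ^ i =
        if a ≤ k + i then (fun j => δ ^ (a + j) *
          (ρ ((X : ℂ[X]) ^ (a + j) • cv (Td_sc j s)) γ).coeff i) (k + i - a) else 0 := by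
      intro k _
      rw [Pi.smul_apply, coeff_smul, smul_eq_mul]
      rcases Nat.eq_zero_or_pos k with hk | hk
      · subst hk
        rw [Td_Q_zero, Pi.smul_apply, smul_eq_mul, mul_comm (X ^ a) (s γ), coeff_mul_X_pow',
          if_neg (by omega), if_neg (by omega), mul_zero, zero_mul]
      · rw [Td_Q_pos a ρ hk, Td_P_coeff]
        by_cases hk2 : a ≤ k + i
        · rw [if_pos ⟨hi, hk2⟩, if_pos hk2]
          have h3 : a + (k + i - a) = k + i := by omega
          simp only [h3]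
          rw [pow_add]
          ring
        · rw [if_neg fun h => hk2 h.2, if_neg hk2, mul_zero, zero_mul]
    rw [Finset.sum_mul, sum_congr rfl hl]
    refine (Td_sum_shift (f := fun j => δ ^ (a + j) *
      (ρ ((X : ℂ[X]) ^ (a + j) • cv (Td_sc j s)) γ).coeff i) a n i hi ?_).trans ?_
    rotate_left
    · refine sum_congr rfl fun j _ => ?_
      rw [Pi.smul_apply, Pi.add_apply, smul_eq_mul, coeff_C_mul, coeff_add, Pi.smul_apply,
        smul_eq_mul, mul_comm (X ^ (a + j)) (cv (Td_sc j s) γ), coeff_mul_X_pow',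
        if_neg (by omega), zero_add]
    · intro j hj
      have h4 : Td_sc j s = 0 := by
        funext β
        exact mem_U.1 hs β j hj
      show δ ^ (a + j) * (ρ ((X : ℂ[X]) ^ (a + j) • cv (Td_sc j s)) γ).coeff i = 0
      rw [h4, Td_cv_zero, smul_zero, map_zero, Pi.zero_apply, coeff_zero, mul_zero]
  · have hi' : a ≤ i := by omega
    have hl : ∀ k ∈ range (a + n), ((δ ^ k • Td_Q a ρ k s) γ).coeff i =
        if 0 = k then (s γ).coeff (i - a) else 0 := by
      intro k _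
      rw [Pi.smul_apply, coeff_smul, smul_eq_mul]
      rcases Nat.eq_zero_or_pos k with hk | hk
      · subst hk
        rw [Td_Q_zero, Pi.smul_apply, smul_eq_mul, mul_comm (X ^ a) (s γ), coeff_mul_X_pow',
          if_pos hi', pow_zero, one_mul, if_pos rfl]
      · rw [Td_Q_pos a ρ hk, Td_P_coeff, if_neg fun h => hi h.1, if_neg (by omega), mul_zero]
    have hr : ∀ j ∈ range n, ((C (δ ^ (a + j)) • ((X : ℂ[X]) ^ (a + j) • cv (Td_sc j s) +
        ρ ((X : ℂ[X]) ^ (a + j) • cv (Td_sc j s)))) γ).coeff i =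
        if i - a = j then δ ^ i * (s γ).coeff (i - a) else 0 := by
      intro j _
      rw [Pi.smul_apply, Pi.add_apply, smul_eq_mul, coeff_C_mul, coeff_add,
        mem_U.1 (h1 _) γ i hi', add_zero, Pi.smul_apply,
        smul_eq_mul, mul_comm (X ^ (a + j)) (cv (Td_sc j s) γ), coeff_mul_X_pow', cv, coeff_C]
      by_cases hj : i - a = j
      · subst hj
        have h5 : a + (i - a) = i := by omega
        rw [h5, if_pos le_rfl, Nat.sub_self, if_pos rfl, if_pos rfl]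
        rfl
      · rw [if_neg hj]
        by_cases h6 : a + j ≤ i
        · rw [if_pos h6, if_neg (by omega), mul_zero]
        · rw [if_neg h6, mul_zero]
    rw [sum_congr rfl hl, sum_congr rfl hr, Finset.sum_ite_eq, Finset.sum_ite_eq,
      if_pos (mem_range.2 (by omega))]
    by_cases h7 : i - a < n
    · rw [if_pos (mem_range.2 h7), mul_comm]
    · rw [if_neg fun h => h7 (mem_range.1 h), mem_U.1 hs γ (i - a) (by omega), zero_mul]

theorem exists_td (h : Blk b μ a L) (hΦ : Ph b a L Φ) (ha : 1 ≤ a) :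
    ∃ Pk : ℕ → V b →ₗ[ℂ] V b,
      (∀ s, Pk 0 s = (X : ℂ[X]) ^ a • s) ∧
      (∀ s, Pk 1 s = (X : ℂ[X]) ^ (a - 1) • cv ((cf Φ (a - 1)).mulVec (e0 s))) ∧
      (∀ k s, 1 ≤ k → Pk k s ∈ U b a) ∧
      (∀ (n : ℕ) (s : V b), s ∈ U b n → ∀ k, a + n ≤ k → Pk k s = 0) ∧
      ∀ (n : ℕ) (s : V b), s ∈ U b n → ∀ δ : ℂ, δ ≠ 0 →
        ∑ k ∈ range (a + n), δ ^ k • Pk k s ∈ vanL b (scL δ L) := by
  obtain ⟨ρ, h1, h2⟩ := exists_rho h
  refine ⟨Td_Q a ρ, Td_Q_zero a ρ, ?_, ?_, ?_, ?_⟩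
  · intro s
    rw [Td_Q_pos a ρ le_rfl]
    funext γ
    ext i
    rw [Td_P_coeff, Pi.smul_apply, smul_eq_mul,
      mul_comm (X ^ (a - 1)) (cv ((cf Φ (a - 1)).mulVec (e0 s)) γ), coeff_mul_X_pow', cv, coeff_C]
    by_cases hi : i = a - 1
    · subst hi
      have h3 : 1 + (a - 1) = a := by omega
      rw [if_pos ⟨by omega, by omega⟩, if_pos le_rfl, Nat.sub_self, if_pos rfl, h3, Nat.sub_self]
      have h4 : Td_sc 0 s = e0 s := rfl
      rw [h4, Td_rho_top h hΦ ρ h1 h2, Pi.sub_apply, coeff_sub, Pi.smul_apply, smul_eq_mul,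
        mul_comm (X ^ a) (cv (e0 s) γ), coeff_mul_X_pow', if_neg (by omega), sub_zero]
      exact (hΦ.comb (e0 s)).2.2.2 γ (a - 1)
    · rw [if_neg (by omega)]
      by_cases h6 : a - 1 ≤ i
      · rw [if_pos h6, if_neg (by omega)]
      · rw [if_neg h6]
  · intro k s hk
    rw [Td_Q_pos a ρ hk, mem_U]
    intro β j hj
    rw [Td_P_coeff, if_neg (by omega)]
  · intro n s hs k hk
    rw [Td_Q_pos a ρ (by omega)]
    funext γ
    ext i
    rw [Td_P_coeff, Pi.zero_apply, coeff_zero]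
    by_cases h3 : i < a ∧ a ≤ k + i
    · rw [if_pos h3]
      have h4 : Td_sc (k + i - a) s = 0 := by
        funext β
        exact mem_U.1 hs β _ (by omega)
      rw [h4, Td_cv_zero, smul_zero, map_zero, Pi.zero_apply, coeff_zero]
    · rw [if_neg h3]
  · intro n s hs δ hδ
    rw [mem_vanL]
    intro p' hp'
    rw [scL, List.mem_map] at hp'
    obtain ⟨p, hp, rfl⟩ := hp'
    rw [← van_sc δ hδ p]
    have h3 : (fun γ => ((∑ k ∈ range (a + n), δ ^ k • Td_Q a ρ k s) γ).comp (C δ * X)) =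
        ∑ j ∈ range n, C (δ ^ (a + j)) • ((X : ℂ[X]) ^ (a + j) • cv (Td_sc j s) +
        ρ ((X : ℂ[X]) ^ (a + j) • cv (Td_sc j s))) := by
      funext γ
      exact Td_main ha ρ h1 n s hs δ γ
    rw [h3]
    apply (van b p).sum_mem
    intro j _
    exact (van b p).smul_mem _ (h2 _ p hp)

private theorem Td_iter (a : ℕ) (p : ℂ[X]) (j : ℕ) :
    ((divX (R := ℂ))^[a] p).coeff j = p.coeff (j + a) := by
  induction a generalizing j with
  | zero => rfl
  | succ a ih =>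
    rw [Function.iterate_succ_apply', coeff_divX, ih]
    congr 1
    omega

/-- Every element of `V b` is `X^a • s + r`, `r ∈ U b a`. -/
theorem exists_div (a : ℕ) (G : V b) : ∃ s : V b, G - (X : ℂ[X]) ^ a • s ∈ U b a ∧
    ∀ β j, (s β).coeff j = (G β).coeff (j + a) := by
  refine ⟨fun β => (divX (R := ℂ))^[a] (G β), ?_, fun β j => Td_iter a (G β) j⟩
  rw [mem_U]
  intro β j hj
  rw [Pi.sub_apply, coeff_sub, Pi.smul_apply, smul_eq_mul, mul_comm, coeff_mul_X_pow', if_pos hj,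
    Td_iter, Nat.sub_add_cancel hj, sub_self]

end Pool.Agent.H18.Tl

end

section

/-!
# Module CmpB (TL): the union of an exact block and a tiny exact block at `t = 0` is exact

Let `Pk` be as in `exists_td` for the block `L'` (height `a'`).

`cmp_blk`: let `F ∈ U b (a + a')` vanish at `L ++ scL δ L'`, `δ ≠ 0`.  `F = X^a' s + r`, `s ∈ U b a` (`exists_div`), and
`F = ∑_{k < a'+a} δ^k Pk k s` (the difference is in `U b a'` and vanishes at `scL δ L'`).  The maps
`M k : U b a → V b ⧸ vanL b L`, `s ↦ [Pk k s]`, satisfy `M 0 s = [X^a' s]`, injective (`vanL_unit`, `h.inj`).  So by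
`inj_of_inj` for almost all `δ` we get `s = 0`, `F = 0`.  The `x` are distinct if `δ ≠ 0` and `δ p'.x ≠ p.x` for all `p ∈ L`, `p' ∈ L'`
(finitely many `δ` are excluded, since `p.x ≠ 0`).
-/

namespace Pool.Agent.H18.Tl

open Finset Polynomial

variable {τ : Type} [Fintype τ] [DecidableEq τ] {b : τ → ℕ} {μ a a' : ℕ} {L L' : List (Pt τ)}

theorem cmp_blk (h : Blk b μ a L) (h' : Blk b μ a' L') (hx : ∀ p ∈ L, p.x ≠ 0) (ha' : 1 ≤ a') :
    ∃ T : Set ℂ, T.Finite ∧ ∀ δ : ℂ, δ ∉ T → Blk b μ (a + a') (L ++ scL δ L') := by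
  classical
  obtain ⟨Φ, hΦ⟩ := exists_ph h'
  obtain ⟨Pk, hP0, -, hPU, -, hPv⟩ := exists_td h' hΦ ha'
  let W : Submodule ℂ (V b) := (vanL b L).restrictScalars ℂ
  let M : ℕ → U b a →ₗ[ℂ] V b ⧸ W := fun k => W.mkQ ∘ₗ Pk k ∘ₗ (U b a).subtype
  have hMk : ∀ k v, M k v = W.mkQ (Pk k (v : V b)) := fun _ _ => rfl
  have hM : ∀ v, M 0 v = 0 → v = 0 := by
    intro v hv
    have h1 : (X : ℂ[X]) ^ a' • (v : V b) ∈ vanL b L := by
      rw [hMk, Submodule.mkQ_apply, Submodule.Quotient.mk_eq_zero, hP0] at hv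
      exact hv
    have h3 : (v : V b) ∈ vanL b L := by
      refine vanL_unit L _ (fun p hp => ?_) _ h1
      rw [eval_pow, eval_X]
      exact pow_ne_zero _ (hx p hp)
    exact Subtype.ext (h.inj _ v.2 h3)
  obtain ⟨T, hT, hTi⟩ := inj_of_inj M (a' + a) (by omega) hM
  let T3 : Set ℂ :=
    (fun q : ℂ × ℂ => q.1 / q.2) '' ({x | x ∈ L.map Pt.x} ×ˢ {x | x ∈ L'.map Pt.x})
  have hT3 : T3.Finite :=
    (Set.Finite.prod (List.finite_toSet (L.map Pt.x)) (List.finite_toSet (L'.map Pt.x))).image _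
  refine ⟨(T ∪ {0}) ∪ T3, (hT.union (Set.finite_singleton 0)).union hT3, fun δ hδ => ?_⟩
  have hδT : δ ∉ T := fun hc => hδ (Or.inl (Or.inl hc))
  have hδ0 : δ ≠ 0 := fun hc => hδ (Or.inl (Or.inr hc))
  have hδ3 : δ ∉ T3 := fun hc => hδ (Or.inr hc)
  have hsc : Blk b μ a' (scL δ L') := Blk.sc h' δ hδ0
  refine ⟨?_, ?_, ?_, ?_⟩
  · intro p hp
    rcases List.mem_append.1 hp with hp | hp
    · exact h.mult p hp
    · exact hsc.mult p hp
  · rw [List.map_append, List.nodup_append]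
    refine ⟨h.dist, hsc.dist, ?_⟩
    intro x hxL y hy hxy
    subst hxy
    obtain ⟨q, hq, hqx⟩ := List.mem_map.1 hy
    obtain ⟨p', hp', rfl⟩ := List.mem_map.1 hq
    have hqx' : δ * p'.x = x := hqx
    obtain ⟨p, hp, hpx⟩ := List.mem_map.1 hxL
    have hx0 : x ≠ 0 := by
      rw [← hpx]
      exact hx p hp
    have hp0 : p'.x ≠ 0 := by
      intro hc
      rw [hc, mul_zero] at hqx'
      exact hx0 hqx'.symm
    refine hδ3 ⟨(x, p'.x), ⟨hxL, List.mem_map.2 ⟨p', hp', rfl⟩⟩, ?_⟩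
    change x / p'.x = δ
    rw [← hqx', mul_div_assoc, div_self hp0, mul_one]
  · have h1 := h.cnt
    have h2 := hsc.cnt
    rw [List.length_append, Nat.add_mul, Nat.add_mul, h1, h2]
  · intro F hFU hFL
    rw [vanL_append] at hFL
    obtain ⟨hFL1, hFL2⟩ := hFL
    obtain ⟨s, hsr, hsc'⟩ := exists_div (b := b) a' F
    have hsU : s ∈ U b a := by
      rw [mem_U]
      intro β j hj
      rw [hsc', mem_U.1 hFU β (j + a') (by omega)]
    have hG := hPv a s hsU δ hδ0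
    set G : V b := ∑ k ∈ range (a' + a), δ ^ k • Pk k s with hGdef
    have hG0 : G - (X : ℂ[X]) ^ a' • s ∈ U b a' := by
      have h1 : G = ∑ k ∈ range (a' + a - 1), δ ^ (k + 1) • Pk (k + 1) s +
          (X : ℂ[X]) ^ a' • s := by
        have h2 : a' + a = (a' + a - 1) + 1 := by omega
        rw [hGdef]
        conv_lhs => rw [h2, Finset.sum_range_succ']
        rw [pow_zero, one_smul, hP0]
      rw [h1, add_sub_cancel_right]
      refine Submodule.sum_mem _ (fun k _ => Submodule.smul_mem _ _ (hPU _ _ (by omega)))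
    have hFG : F = G := by
      have h1 : F - G ∈ U b a' := by
        have h2 := (U b a').sub_mem hsr hG0
        rwa [sub_sub_sub_cancel_right] at h2
      have h2 : F - G ∈ vanL b (scL δ L') := (vanL b (scL δ L')).sub_mem hFL2 hG
      exact sub_eq_zero.1 (hsc.inj _ h1 h2)
    have h0 : ∑ k ∈ range (a' + a), δ ^ k • M k ⟨s, hsU⟩ = 0 := by
      have h1 : ∑ k ∈ range (a' + a), δ ^ k • M k ⟨s, hsU⟩ = W.mkQ G := by
        rw [hGdef, map_sum]
        refine Finset.sum_congr rfl (fun k _ => ?_)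
        rw [map_smul, hMk]
      rw [h1, Submodule.mkQ_apply, Submodule.Quotient.mk_eq_zero, ← hFG]
      exact hFL1
    have hs0 : s = 0 := congrArg Subtype.val (hTi δ hδT _ h0)
    rw [hFG, hGdef]
    refine Finset.sum_eq_zero (fun k _ => ?_)
    rw [hs0, map_zero, smul_zero]

end Pool.Agent.H18.Tl

end

section

/-!
# Module Cmp (TL): the union of an exact block and a tiny exact block at `t = 0`

Let `Pk` be as in `exists_td` for the block `L'` (height `a'`).

`cmp`: apply `diff_lemma` with `E = Box b → U b a`, `Q = Box b → V b ⧸ vanL b L`, `M k v β = [Pk k (v β)]`, `n = a' + a + 1`,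
`g k β = -[Pk k (X^a • cv (Pi.single β 1))]`, `N = Mt b`, `ℓ v γ β = (v β γ).coeff (a - 1)`, `c = 0`, `D = Ds b μ (L.length + L'.length)`.  For
almost all `δ` the block `L ++ scL δ L'` has a `Ψ` (`exists_ph`), and its column `β` is `∑ δ^k Pk k (s β)`, `s β = X^a • e_β + v β`; the
coefficient of `t^(a+a'-1)` of the column is the coefficient of `t^(a-1)` of `v β` (`a, a' ≥ 1`; the `Pk k`, `k ≥ 1`, have values in `U b a'`).
`v₀ β = Φ e_β - X^a e_β`.  `v₁`: `X • v₁ β = Φ Z e_β - cv (ev Φ 0 * Z) e_β`, i.e. `v₁ β = divX` of `Φ.mulVec (cv (Z column β))`: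
`M 0 v₁ + M 1 (s₀) = [X^a' v₁ β + X^(a'-1) cv (Φ'₁ (ev Φ 0) e_β)] = [X^(a'-1) Φ Z e_β] = 0`, and `ℓ v₁ = Z`, `ℓ v₀ = cf Φ (a-1)`.
-/

namespace Pool.Agent.H18.Tl

open Finset Polynomial

variable {τ : Type} [Fintype τ] [DecidableEq τ] {b : τ → ℕ} {μ a a' : ℕ} {L L' : List (Pt τ)}
  {Φ Φ' : Matrix (Box b) (Box b) ℂ[X]}

omit [Fintype τ] [DecidableEq τ] in
/-- Only the term `k = 0` counts. -/
private theorem Cmp_coeff_sum (n : ℕ) (f : ℕ → V b) (γ : Box b) (j : ℕ) (δ : ℂ)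
    (hf : ∀ k, 1 ≤ k → (f k γ).coeff j = 0) :
    ((∑ k ∈ range (n + 1), δ ^ k • f k) γ).coeff j = (f 0 γ).coeff j := by
  rw [Finset.sum_apply, Polynomial.finsetSum_coeff, Finset.sum_range_succ']
  have h0 : ∑ k ∈ range n, ((δ ^ (k + 1) • f (k + 1)) γ).coeff j = 0 := by
    refine Finset.sum_eq_zero fun k _ => ?_
    rw [Pi.smul_apply, coeff_smul, hf (k + 1) (by omega), smul_zero]
  rw [h0, zero_add, pow_zero, one_smul]

omit [DecidableEq τ] in
/-- The coefficients of `X^a` at the place `β`. -/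
private theorem Cmp_single_coeff (a : ℕ) (β γ : Box b) (j : ℕ) :
    (((X : ℂ[X]) ^ a • (cv (Pi.single β 1) : V b)) γ).coeff j =
      if γ = β ∧ j = a then 1 else 0 := by
  rw [Pi.smul_apply, smul_eq_mul, cv, mul_comm, coeff_C_mul_X_pow, Pi.single_apply]
  by_cases h1 : γ = β <;> by_cases h2 : j = a <;> simp [h1, h2]

/-- The column `β` of `Ψ`. -/
private theorem Cmp_col (h : Blk b μ a L) (h' : Blk b μ a' L')
    (Pk : ℕ → V b →ₗ[ℂ] V b) (P0 : ∀ s, Pk 0 s = (X : ℂ[X]) ^ a' • s)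
    (PU : ∀ k s, 1 ≤ k → Pk k s ∈ U b a')
    (Pv : ∀ (n : ℕ) (s : V b), s ∈ U b n → ∀ δ : ℂ, δ ≠ 0 →
        ∑ k ∈ range (a' + n), δ ^ k • Pk k s ∈ vanL b (scL δ L')) (ha' : 1 ≤ a')
    (δ : ℂ) (hδ : δ ≠ 0) {Ψ : Matrix (Box b) (Box b) ℂ[X]}
    (hΨ : Ph b (a + a') (L ++ scL δ L') Ψ) (β : Box b) :
    ∃ v ∈ U b a, (∀ γ, (v γ).coeff (a - 1) = (Ψ γ β).coeff (a - 1 + a') ∨ a = 0) ∧
      ∑ k ∈ range (a' + (a + 1)), δ ^ k • Pk k (v + (X : ℂ[X]) ^ a • (cv (Pi.single β 1) : V b))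
        ∈ vanL b L := by
  obtain ⟨s, hs1, hs2⟩ := exists_div (b := b) a' (fun γ => Ψ γ β)
  have hsU : s ∈ U b (a + 1) := by
    intro γ j hj
    rw [hs2]
    exact hΨ.deg γ β _ (by omega)
  refine ⟨s - (X : ℂ[X]) ^ a • (cv (Pi.single β 1) : V b), ?_, ?_, ?_⟩
  · intro γ j hj
    rw [Pi.sub_apply, coeff_sub, Cmp_single_coeff, hs2]
    rcases Nat.eq_or_lt_of_le hj with h1 | h1
    · subst h1
      have := hΨ.top γ β
      simp only [this]
      by_cases h2 : γ = β <;> simp [h2]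
    · rw [hΨ.deg γ β (j + a') (by omega)]
      have : ¬ (γ = β ∧ j = a) := by omega
      rw [if_neg this, sub_zero]
  · intro γ
    rcases Nat.eq_zero_or_pos a with h1 | h1
    · right; exact h1
    · left
      rw [Pi.sub_apply, coeff_sub, Cmp_single_coeff, hs2]
      have : ¬ (γ = β ∧ a - 1 = a) := by omega
      rw [if_neg this, sub_zero]
  · rw [sub_add_cancel]
    have hv := (vanL_append (b := b) L (scL δ L') (fun γ => Ψ γ β)).1 (hΨ.van β)
    have hH := Pv (a + 1) s hsU δ hδ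
    have hz : (∑ k ∈ range (a' + (a + 1)), δ ^ k • Pk k s) - (fun γ => Ψ γ β) = 0 := by
      refine (h'.sc δ hδ).inj _ ?_ ((vanL b (scL δ L')).sub_mem hH hv.2)
      intro γ j hj
      rw [Pi.sub_apply, coeff_sub, show a' + (a + 1) = (a' + a) + 1 by ring,
        Cmp_coeff_sum _ (fun k => Pk k s) γ j δ (fun k hk => PU k s hk γ j hj), P0]
      have := hs1 γ j hj
      rw [Pi.sub_apply, coeff_sub] at this
      rw [← neg_sub, this, neg_zero]
    rw [sub_eq_zero.1 hz]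
    exact hv.1

theorem cmp (h : Blk b μ a L) (hΦ : Ph b a L Φ) (h' : Blk b μ a' L') (hΦ' : Ph b a' L' Φ')
    (hx : ∀ p ∈ L, p.x ≠ 0) (ha : 1 ≤ a) (ha' : 1 ≤ a') (Z : Mt b)
    (hZ : ev Φ 0 * Z = cf Φ' (a' - 1) * ev Φ 0) :
    cf Φ (a - 1) ∈ Ds b μ (L.length + L'.length) ∧ Z ∈ Ds b μ (L.length + L'.length) := by
  obtain ⟨Pk, P0, P1, PU, -, Pv⟩ := exists_td h' hΦ' ha'
  obtain ⟨T, hT, hTB⟩ := cmp_blk h h' hx ha'
  -- the maps
  set S : Submodule ℂ (V b) := (vanL b L).restrictScalars ℂ with hS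
  let M : ℕ → (Box b → U b a) →ₗ[ℂ] (Box b → V b ⧸ S) := fun k =>
    LinearMap.pi fun β => S.mkQ ∘ₗ Pk k ∘ₗ (U b a).subtype ∘ₗ LinearMap.proj β
  have hMk : ∀ k v β, M k v β = S.mkQ (Pk k (v β : V b)) := fun k v β => rfl
  let g : ℕ → (Box b → V b ⧸ S) := fun k β =>
    - S.mkQ (Pk k ((X : ℂ[X]) ^ a • (cv (Pi.single β 1) : V b)))
  have hgk : ∀ k β, g k β = - S.mkQ (Pk k ((X : ℂ[X]) ^ a • (cv (Pi.single β 1) : V b))) :=
    fun k β => rfl
  let ℓ : (Box b → U b a) →ₗ[ℂ] Mt b :=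
    { toFun := fun v γ β => ((v β : V b) γ).coeff (a - 1)
      map_add' := by
        intro v w
        funext γ β
        change (((v β : V b) + (w β : V b)) γ).coeff (a - 1) = _
        rw [Pi.add_apply, coeff_add]
        rfl
      map_smul' := by
        intro c v
        funext γ β
        change ((c • (v β : V b)) γ).coeff (a - 1) = _
        rw [Pi.smul_apply, coeff_smul]
        rfl }
  have hℓ : ∀ v γ β, ℓ v γ β = ((v β : V b) γ).coeff (a - 1) := fun v γ β => rfl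
  have hmk : ∀ G : V b, S.mkQ G = 0 ↔ G ∈ vanL b L := by
    intro G
    rw [← LinearMap.mem_ker, Submodule.ker_mkQ, hS, Submodule.restrictScalars_mem]
  -- v₀
  have hcol : ∀ β : Box b, (fun γ => Φ γ β) ∈ vanL b L := hΦ.van
  have hv0 : ∀ β : Box b, ((fun γ => Φ γ β) - (X : ℂ[X]) ^ a • (cv (Pi.single β 1) : V b) : V b)
      ∈ U b a := by
    intro β γ j hj
    rw [Pi.sub_apply, coeff_sub, Cmp_single_coeff]
    rcases Nat.eq_or_lt_of_le hj with h1 | h1
    · subst h1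
      rw [hΦ.top γ β]
      by_cases h2 : γ = β <;> simp [h2]
    · rw [hΦ.deg γ β j h1]
      have : ¬ (γ = β ∧ j = a) := by omega
      rw [if_neg this, sub_zero]
  -- v₁
  have hcomb := fun β : Box b => hΦ.comb (fun κ => Z κ β)
  have hv1 : ∀ β : Box b, ((fun γ => divX (Φ.mulVec (cv fun κ => Z κ β) γ)) : V b) ∈ U b a := by
    intro β γ j hj
    change (divX (Φ.mulVec (cv fun κ => Z κ β) γ)).coeff j = 0
    rw [coeff_divX]
    exact (hcomb β).2.1 γ (j + 1) (by omega)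
  let v₀ : Box b → U b a := fun β => ⟨_, hv0 β⟩
  let v₁ : Box b → U b a := fun β => ⟨_, hv1 β⟩
  have hv₀ : ∀ β, (v₀ β : V b) = (fun γ => Φ γ β) - (X : ℂ[X]) ^ a • (cv (Pi.single β 1) : V b) :=
    fun β => rfl
  have hv₁ : ∀ β, (v₁ β : V b) = fun γ => divX (Φ.mulVec (cv fun κ => Z κ β) γ) := fun β => rfl
  have key := diff_lemma M g (a' + (a + 1)) (by omega) (by
      intro v hv
      funext β
      have h1 : S.mkQ (Pk 0 (v β : V b)) = 0 := by rw [← hMk, hv]; rfl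
      rw [hmk, P0] at h1
      have h2 := vanL_unit L ((X : ℂ[X]) ^ a') (by
        intro p hp
        rw [eval_pow, eval_X]
        exact pow_ne_zero _ (hx p hp)) _ h1
      have h3 := h.inj _ (v β).2 h2
      exact Subtype.ext h3) ℓ 0 (Ds b μ (L.length + L'.length)) (T ∪ {0})
      (hT.union (Set.finite_singleton 0)) (by
      intro δ hδ
      rw [Set.mem_union, not_or, Set.mem_singleton_iff] at hδ
      obtain ⟨Ψ, hΨ⟩ := exists_ph (hTB δ hδ.1)
      have hc := fun β => Cmp_col h h' Pk P0 PU Pv ha' δ hδ.2 hΨ β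
      choose v hvU hvc hvv using hc
      refine ⟨fun β => ⟨v β, hvU β⟩, ?_, ?_⟩
      · funext β
        rw [Finset.sum_apply, Finset.sum_apply]
        have h1 := (hmk _).2 (hvv β)
        rw [map_sum] at h1
        rw [← sub_eq_zero, ← Finset.sum_sub_distrib, ← h1]
        refine Finset.sum_congr rfl fun k _ => ?_
        rw [Pi.smul_apply, Pi.smul_apply, hMk, hgk, smul_neg, sub_neg_eq_add,
          (S.mkQ).map_smul (δ ^ k), (Pk k).map_add, (S.mkQ).map_add, smul_add]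
      · rw [add_zero]
        refine Submodule.subset_span ⟨a + a', L ++ scL δ L', Ψ, hTB δ hδ.1, ?_, hΨ, ?_⟩
        · rw [List.length_append, scL, List.length_map]
        · funext γ β
          rw [hℓ]
          rcases hvc β γ with h1 | h1
          · change (v β γ).coeff (a - 1) = (Ψ γ β).coeff (a + a' - 1)
            rw [h1]
            congr 1
            omega
          · omega) v₀ v₁ (by
      funext β
      rw [hMk, hgk, P0, P0, hv₀, smul_sub, map_sub]
      have : S.mkQ ((X : ℂ[X]) ^ a' • (fun γ => Φ γ β : V b)) = 0 :=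
        (hmk _).2 ((vanL b L).smul_mem _ (hcol β))
      rw [this, zero_sub]) (by
      funext β
      rw [Pi.add_apply, hMk, hMk, hgk, P0, ← add_eq_zero_iff_eq_neg, add_assoc, ← map_add, ← map_add,
        ← map_add, hmk, hv₀, sub_add_cancel, P1, hv₁]
      have hF := (hcomb β).1
      set F : V b := Φ.mulVec (cv fun κ => Z κ β) with hFdef
      have he : (cf Φ' (a' - 1)).mulVec (e0 (fun γ => Φ γ β)) = e0 F := by
        have e1 : e0 (fun γ => Φ γ β : V b) = fun κ => ev Φ 0 κ β := by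
          funext κ
          rw [e0, ev, coeff_zero_eq_eval_zero]
        have e2 : e0 F = fun γ => (ev Φ 0 * Z) γ β := by
          funext γ
          rw [e0, hFdef, (hcomb β).2.2.2 γ 0, Matrix.mul_apply, Matrix.mulVec, dotProduct]
          refine Finset.sum_congr rfl fun κ _ => ?_
          rw [cf, ev, coeff_zero_eq_eval_zero]
        rw [e1, e2, hZ]
        rfl
      rw [he]
      have hX : (X : ℂ[X]) ^ a' • (fun γ => divX (F γ) : V b) + (X : ℂ[X]) ^ (a' - 1) • cv (e0 F) =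
          (X : ℂ[X]) ^ (a' - 1) • F := by
        funext γ
        rw [Pi.add_apply, Pi.smul_apply, Pi.smul_apply, Pi.smul_apply, smul_eq_mul, smul_eq_mul,
          smul_eq_mul, cv, e0]
        nth_rewrite 3 [← divX_mul_X_add (F γ)]
        obtain ⟨a'', rfl⟩ : ∃ a'', a' = a'' + 1 := ⟨a' - 1, by omega⟩
        rw [Nat.add_sub_cancel, pow_succ]
        ring
      rw [hX]
      exact (vanL b L).smul_mem _ hF)
  constructor
  · have h1 := key.1
    rw [add_zero] at h1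
    convert h1 using 1
    funext γ β
    rw [hℓ, hv₀, Pi.sub_apply, coeff_sub, Cmp_single_coeff]
    have : ¬ (γ = β ∧ a - 1 = a) := by omega
    rw [if_neg this, sub_zero]
    rfl
  · convert key.2 using 1
    funext γ β
    rw [hℓ, hv₁]
    change Z γ β = (divX (Φ.mulVec (cv fun κ => Z κ β) γ)).coeff (a - 1)
    rw [coeff_divX, Nat.sub_add_cancel ha, (hcomb β).2.2.1 γ]

end Pool.Agent.H18.Tl

end
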