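import Pool.Agent.H94.LP3.H74.KV.Pos
import Pool.Agent.H94.LP3.M17
import Pool.Agent.H94.LP3.M20

/-! The parts of this file: H18.Tl.Mov, H74.KV.Cone. -/

section

/-!
# Module Mov (TL): moving one point of a block gives a matrix which is not scalar

Let `Φ` be the matrix of the block `L = ⟨μ, 0, 0⟩ :: L₀` and `L_δ = ⟨μ, δ, 0⟩ :: L₀`.
`Q = (V b ⧸ vanL b L₀) × (Box b × Fin μ → ℂ)`, `cond k : V b → Q` linear: `cond 0 F = ([F], (γ, j) ↦ (F γ).coeff j if j + dg γ < μ, else 0)`,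
`cond k F = (0, (γ, j) ↦ binom(j + k, k) (F γ).coeff (j + k) if j + dg γ < μ, else 0)` for `k ≥ 1`.  For `F ∈ U b (a + 1)` the sum
`∑_{k ≤ a+1} δ^k cond k F` is `([F], (γ, j) ↦ (taylor δ (F γ)).coeff j)` (`Polynomial.taylor_coeff`, `hasseDeriv_coeff`), so it is zero
iff `F ∈ vanL b L_δ` (`van_iff`, `tz_zero`).
Exactness for almost all `δ`: `inj_of_inj` for `cond k` on `U b a` (`h.inj`).
`diff_lemma` with `E = Box b → U b a`, `M k v β = cond k (v β)`, `g k β = - cond k (X^a e_β)`, `ℓ v γ β = (v β γ).coeff (a - 1)`, `c = 0`,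
`D = Ds b μ (L₀.length + 1)`.  `v₀ β = Φ e_β - X^a e_β`.  `Φ = X^(μ - dg γ) H` (`loc`), `Y = - (ev H 0)⁻¹ Δ (ev H 0)`, `Δ` diagonal with entries
`μ - dg γ`.  `v₁ β = divX` of `Φ.mulVec (cv (Y e_β))`: its constant coefficient is `0` (entry `γ`: if `μ - dg γ ≥ 1` clear; if
`μ - dg γ = 0` it is `(ev H 0 * Y) γ β = - (Δ ev H 0) γ β = 0`), so `X • v₁ β = Φ Y e_β`, `v₁ β ∈ U b a`, it vanishes at `L₀` (`vanL_unit`), and the
coefficient of `t^j` of `v₁ β γ`, `j < λ = μ - dg γ`, is `0` for `j < λ - 1` and `(ev H 0 * Y) γ β = -λ (ev H 0) γ β` for `j = λ - 1`, i.e.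
`= -(j + 1) (Φ γ β).coeff (j + 1)`: this is `M 0 v₁ + M 1 v₀ = g 1`.  `ℓ v₁ = Y`.
`Y` is not scalar: `Y = c • 1` gives `Δ = -c • 1`, but the entries of `Δ` at `zb b` (`μ ≥ 1`) and at the maximal exponent
(`μ - Bs b < μ`) are different.
-/

namespace Pool.Agent.H18.Tl

open Finset Polynomial

variable {τ : Type} [Fintype τ] [DecidableEq τ] {b : τ → ℕ} {μ a : ℕ} {L₀ : List (Pt τ)}

/-- the target of the conditions -/
private abbrev Mov_Q (b : τ → ℕ) (μ : ℕ) (L₀ : List (Pt τ)) : Type :=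
  (V b ⧸ (vanL b L₀).restrictScalars ℂ) × (Box b × Fin μ → ℂ)

/-- the conditions, by powers of `δ` -/
private noncomputable def Mov_cond (b : τ → ℕ) (μ : ℕ) (L₀ : List (Pt τ)) (k : ℕ) :
    V b →ₗ[ℂ] Mov_Q b μ L₀ :=
  LinearMap.prod (if k = 0 then Submodule.mkQ ((vanL b L₀).restrictScalars ℂ) else 0)
    (LinearMap.pi fun q : Box b × Fin μ => if (q.2 : ℕ) + dg q.1 < μ then
      ((((k + q.2).choose q.2 : ℕ) : ℂ) • ((lcoeff ℂ (k + q.2)) ∘ₗ
        (LinearMap.proj q.1 : V b →ₗ[ℂ] ℂ[X]))) else 0)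

private theorem Mov_cond_fst (k : ℕ) (F : V b) : (Mov_cond b μ L₀ k F).1 =
    if k = 0 then Submodule.Quotient.mk F else 0 := by
  unfold Mov_cond
  rw [LinearMap.prod_apply]
  split_ifs with h
  · rfl
  · rfl

private theorem Mov_cond_snd (k : ℕ) (F : V b) (q : Box b × Fin μ) :
    (Mov_cond b μ L₀ k F).2 q = if (q.2 : ℕ) + dg q.1 < μ then
      (((k + q.2).choose q.2 : ℕ) : ℂ) * (F q.1).coeff (k + q.2) else 0 := by
  unfold Mov_cond
  rw [LinearMap.prod_apply]
  show (LinearMap.pi _ F) q = _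
  rw [LinearMap.pi_apply]
  split_ifs with h
  · rfl
  · rfl

private theorem Mov_iff (δ : ℂ) (F : V b) (hF : F ∈ U b (a + 1)) :
    ∑ k ∈ range (a + 2), δ ^ k • Mov_cond b μ L₀ k F = 0 ↔ F ∈ vanL b (⟨μ, δ, 0⟩ :: L₀) := by
  have h1 : (∑ k ∈ range (a + 2), δ ^ k • Mov_cond b μ L₀ k F).1 =
      Submodule.Quotient.mk F := by
    rw [Prod.fst_sum, Finset.sum_eq_single 0]
    · rw [Prod.smul_fst, Mov_cond_fst, if_pos rfl, pow_zero, one_smul]
    · intro k _ hk
      rw [Prod.smul_fst, Mov_cond_fst, if_neg hk, smul_zero]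
    · intro h
      exact absurd (mem_range.mpr (by omega)) h
  have h2 : ∀ q : Box b × Fin μ,
      (∑ k ∈ range (a + 2), δ ^ k • Mov_cond b μ L₀ k F).2 q =
        if (q.2 : ℕ) + dg q.1 < μ then (taylor δ (F q.1)).coeff q.2 else 0 := by
    intro q
    rw [Prod.snd_sum, Finset.sum_apply]
    simp only [Prod.smul_snd, Pi.smul_apply, smul_eq_mul, Mov_cond_snd]
    by_cases hq : (q.2 : ℕ) + dg q.1 < μ
    · simp only [if_pos hq]
      have hd : (F q.1).natDegree ≤ a := by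
        rw [natDegree_le_iff_coeff_eq_zero]
        intro N hN
        exact hF q.1 N hN
      have hd2 : (hasseDeriv (q.2 : ℕ) (F q.1)).natDegree < a + 2 := by
        have := natDegree_hasseDeriv_le (F q.1) (q.2 : ℕ)
        omega
      rw [taylor_coeff, eval_eq_sum_range' hd2]
      refine Finset.sum_congr rfl fun k _ => ?_
      rw [hasseDeriv_coeff]
      ring
    · simp only [if_neg hq, mul_zero, Finset.sum_const_zero]
  have h3 : F ∈ vanL b (⟨μ, δ, 0⟩ :: L₀) ↔ F ∈ van b ⟨μ, δ, 0⟩ ∧ F ∈ vanL b L₀ := by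
    constructor
    · intro h
      exact ⟨h _ List.mem_cons_self, fun p hp => h p (List.mem_cons_of_mem _ hp)⟩
    · rintro ⟨h, h'⟩ p hp
      rcases List.mem_cons.mp hp with rfl | hp
      · exact h
      · exact h' p hp
  rw [h3, van_iff]
  constructor
  · intro h
    constructor
    · intro γ j hj
      have h4 := h2 (γ, ⟨j, by
        change j + dg γ < μ at hj
        omega⟩)
      rw [h] at h4
      change (0 : ℂ) = if j + dg γ < μ then _ else 0 at h4
      rw [if_pos hj] at h4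
      change (taylor δ (act (tz b 0) F γ)).coeff j = 0
      rw [tz_zero, act_one]
      exact h4.symm
    · rw [h] at h1
      have h4 := (Submodule.Quotient.mk_eq_zero _).mp h1.symm
      exact h4
  · rintro ⟨h, h'⟩
    refine Prod.ext ?_ (funext fun q => ?_)
    · rw [h1]
      exact (Submodule.Quotient.mk_eq_zero _).mpr h'
    · rw [h2]
      split_ifs with hq
      · have h4 := h q.1 q.2 hq
        change (taylor δ (act (tz b 0) F q.1)).coeff q.2 = 0 at h4
        rw [tz_zero, act_one] at h4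
        exact h4
      · rfl

private theorem Mov_iff0 (F : V b) (hF : F ∈ U b (a + 1)) :
    Mov_cond b μ L₀ 0 F = 0 ↔ F ∈ vanL b (⟨μ, 0, 0⟩ :: L₀) := by
  rw [← Mov_iff 0 F hF, Finset.sum_eq_single 0]
  · rw [pow_zero, one_smul]
  · intro k _ hk
    rw [zero_pow hk, zero_smul]
  · intro h
    exact absurd (mem_range.mpr (by omega)) h

omit [Fintype τ] [DecidableEq τ] in
private theorem Mov_U_le (F : V b) (hF : F ∈ U b a) : F ∈ U b (a + 1) := fun β j hj =>
  hF β j (by omega)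

/-- `t^a` at the position `β` -/
private noncomputable def Mov_X (a : ℕ) (β : Box b) : V b := fun γ => if γ = β then X ^ a else 0

omit [DecidableEq τ] in
private theorem Mov_X_coeff (β γ : Box b) (j : ℕ) (hj : j ≠ a) :
    (Mov_X a β γ).coeff j = 0 := by
  unfold Mov_X
  split_ifs
  · rw [coeff_X_pow, if_neg hj]
  · exact coeff_zero j

private theorem Mov_col {L : List (Pt τ)} {Φ : Matrix (Box b) (Box b) ℂ[X]} (hΦ : Ph b a L Φ)
    (β : Box b) : (fun γ => Φ γ β) - Mov_X a β ∈ U b a := by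
  intro γ j hj
  rw [Pi.sub_apply, coeff_sub]
  rcases Nat.lt_or_ge a j with h | h
  · rw [hΦ.deg γ β j h, Mov_X_coeff β γ j (by omega), sub_zero]
  · have : j = a := le_antisymm h hj
    subst this
    rw [hΦ.top]
    unfold Mov_X
    split_ifs
    · rw [coeff_X_pow, if_pos rfl, sub_self]
    · rw [coeff_zero, sub_zero]

/-- the sub-leading coefficients -/
private noncomputable def Mov_l (b : τ → ℕ) (a : ℕ) : (Box b → U b a) →ₗ[ℂ] Mt b where
  toFun v := fun γ β => ((v β : V b) γ).coeff (a - 1)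
  map_add' v w := by
    funext γ β
    exact coeff_add _ _ _
  map_smul' c v := by
    funext γ β
    exact coeff_smul _ _ _

/-- the linear systems -/
private noncomputable def Mov_M (b : τ → ℕ) (μ a : ℕ) (L₀ : List (Pt τ)) (k : ℕ) :
    (Box b → U b a) →ₗ[ℂ] (Box b → Mov_Q b μ L₀) :=
  LinearMap.pi fun β => (Mov_cond b μ L₀ k) ∘ₗ (U b a).subtype ∘ₗ LinearMap.proj β

/-- the right sides -/
private noncomputable def Mov_g (b : τ → ℕ) (μ a : ℕ) (L₀ : List (Pt τ)) (k : ℕ) :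
    Box b → Mov_Q b μ L₀ := fun β => -Mov_cond b μ L₀ k (Mov_X a β)

private theorem Mov_blk (h : Blk b μ a (⟨μ, 0, 0⟩ :: L₀)) : ∃ T : Set ℂ, T.Finite ∧
    ∀ δ : ℂ, δ ∉ T → Blk b μ a (⟨μ, δ, 0⟩ :: L₀) := by
  obtain ⟨T, hT, hT2⟩ := inj_of_inj (E := U b a) (Q := Mov_Q b μ L₀)
    (fun k => (Mov_cond b μ L₀ k) ∘ₗ (U b a).subtype) (a + 2) (by omega) (by
      intro v hv
      have h1 : (v : V b) ∈ vanL b (⟨μ, 0, 0⟩ :: L₀) :=
        (Mov_iff0 _ (Mov_U_le _ v.2)).mp hv
      exact Subtype.ext (h.inj _ v.2 h1))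
  refine ⟨T ∪ {x | x ∈ L₀.map Pt.x}, hT.union (List.finite_toSet _), fun δ hδ => ?_⟩
  have hδ1 : δ ∉ T := fun h1 => hδ (Or.inl h1)
  have hδ2 : δ ∉ L₀.map Pt.x := fun h1 => hδ (Or.inr h1)
  refine ⟨?_, ?_, ?_, ?_⟩
  · intro p hp
    rcases List.mem_cons.mp hp with rfl | hp
    · rfl
    · exact h.mult p (List.mem_cons_of_mem _ hp)
  · have h1 := h.dist
    rw [List.map_cons, List.nodup_cons] at h1 ⊢
    exact ⟨hδ2, h1.2⟩
  · exact h.cnt
  · intro F hF hv
    have h1 := hT2 δ hδ1 ⟨F, hF⟩ ((Mov_iff δ F (Mov_U_le _ hF)).mpr hv)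
    exact congrArg Subtype.val h1

theorem mov (hμ : 1 ≤ μ) (hB : 1 ≤ Bs b) (h : Blk b μ a (⟨μ, 0, 0⟩ :: L₀)) :
    ∃ Y ∈ Ds b μ (L₀.length + 1), ∀ c : ℂ, Y ≠ c • (1 : Mt b) := by
  have ha : 1 ≤ a := h.pos hμ (List.cons_ne_nil _ _)
  obtain ⟨Φ, hΦ⟩ := exists_ph h
  obtain ⟨H, hH, hdet⟩ := loc h hΦ
  obtain ⟨T, hT, hT2⟩ := Mov_blk h
  have hunit : IsUnit (ev H 0).det := isUnit_iff_ne_zero.mpr hdet
  set Δ : Mt b := Matrix.diagonal fun γ => ((μ - dg γ : ℕ) : ℂ) with hΔ
  set Y : Mt b := -((ev H 0)⁻¹ * Δ * ev H 0) with hY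
  have hHY : ev H 0 * Y = -(Δ * ev H 0) := by
    rw [hY, mul_neg, mul_assoc, ← mul_assoc (ev H 0), Matrix.mul_nonsing_inv _ hunit, one_mul]
  have hcol : ∀ β, (fun γ => Φ γ β) ∈ U b (a + 1) := fun β γ j hj => hΦ.deg γ β j (by omega)
  -- the columns of `Φ Y`
  have hcomb := fun β : Box b => hΦ.comb (fun κ => Y κ β)
  set G : Box b → V b := fun β => Φ.mulVec (cv fun κ => Y κ β) with hG
  have hGc : ∀ (β γ : Box b) (j : ℕ), j ≤ μ - dg γ → (G β γ).coeff j =
      if j = μ - dg γ then -(((μ - dg γ : ℕ) : ℂ) * ev H 0 γ β) else 0 := by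
    intro β γ j hj
    rw [hG]
    show (Φ.mulVec (cv fun κ => Y κ β) γ).coeff j = _
    rw [(hcomb β).2.2.2 γ j]
    show ∑ κ, (Φ γ κ).coeff j * Y κ β = _
    split_ifs with hj2
    · have h1 : ∀ κ, (Φ γ κ).coeff j = ev H 0 γ κ := by
        intro κ
        rw [hH, hj2, coeff_X_pow_mul', if_pos le_rfl, Nat.sub_self, coeff_zero_eq_eval_zero]
        rfl
      simp only [h1]
      have h2 := congrFun (congrFun hHY γ) β
      rw [Matrix.mul_apply, Matrix.neg_apply, hΔ, Matrix.diagonal_mul] at h2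
      exact h2
    · refine Finset.sum_eq_zero fun κ _ => ?_
      rw [hH, coeff_X_pow_mul', if_neg (by omega), zero_mul]
  have hG0 : ∀ β γ, (G β γ).coeff 0 = 0 := by
    intro β γ
    rw [hGc β γ 0 (Nat.zero_le _)]
    split_ifs with h1
    · rw [← h1, Nat.cast_zero, zero_mul, neg_zero]
    · rfl
  have hGX : ∀ β, (X : ℂ[X]) • (fun γ => divX (G β γ)) = G β := by
    intro β
    funext γ
    show X * divX (G β γ) = G β γ
    have h1 := X_mul_divX_add (G β γ)
    rw [hG0, C_0, add_zero] at h1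
    exact h1
  have hv1U : ∀ β, (fun γ => divX (G β γ)) ∈ U b a := by
    intro β γ j hj
    show (divX (G β γ)).coeff j = 0
    rw [coeff_divX]
    exact (hcomb β).2.1 γ (j + 1) (by omega)
  have hv1L : ∀ β, (fun γ => divX (G β γ)) ∈ vanL b L₀ := by
    intro β
    refine vanL_unit L₀ X (fun p hp => ?_) _ ?_
    · rw [eval_X]
      exact h.ne_zero p hp
    · rw [hGX]
      exact fun p hp => (hcomb β).1 p (List.mem_cons_of_mem _ hp)
  let v₀ : Box b → U b a := fun β => ⟨(fun γ => Φ γ β) - Mov_X a β, Mov_col hΦ β⟩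
  let v₁ : Box b → U b a := fun β => ⟨fun γ => divX (G β γ), hv1U β⟩
  have hkey := diff_lemma (E := Box b → U b a) (Q := Box b → Mov_Q b μ L₀) (N := Mt b)
    (Mov_M b μ a L₀) (Mov_g b μ a L₀) (a + 2) (by omega) (by
      intro v hv
      funext β
      have h1 : Mov_cond b μ L₀ 0 (v β : V b) = 0 := congrFun hv β
      have h2 := (Mov_iff0 _ (Mov_U_le _ (v β).2)).mp h1
      exact Subtype.ext (h.inj _ (v β).2 h2)) (Mov_l b a) 0 (Ds b μ (L₀.length + 1)) T hT (by
      intro δ hδ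
      have hblk := hT2 δ hδ
      obtain ⟨Ψ, hΨ⟩ := exists_ph hblk
      refine ⟨fun β => ⟨(fun γ => Ψ γ β) - Mov_X a β, Mov_col hΨ β⟩, ?_, ?_⟩
      · funext β
        rw [Finset.sum_apply, Finset.sum_apply]
        show ∑ k ∈ range (a + 2), δ ^ k • Mov_cond b μ L₀ k ((fun γ => Ψ γ β) - Mov_X a β) =
          ∑ k ∈ range (a + 2), δ ^ k • -Mov_cond b μ L₀ k (Mov_X a β)
        rw [← sub_eq_zero, ← Finset.sum_sub_distrib]
        have h1 : ∑ k ∈ range (a + 2), δ ^ k • Mov_cond b μ L₀ k (fun γ => Ψ γ β) = 0 :=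
          (Mov_iff δ _ (fun γ j hj => hΨ.deg γ β j (by omega))).mpr (hΨ.van β)
        rw [← h1]
        refine Finset.sum_congr rfl fun k _ => ?_
        rw [← smul_sub, map_sub]
        congr 1
        abel
      · rw [add_zero]
        refine Submodule.subset_span ⟨a, _, Ψ, hblk, List.length_cons, hΨ, ?_⟩
        funext γ β
        show ((fun γ => Ψ γ β) γ - Mov_X a β γ).coeff (a - 1) = (Ψ γ β).coeff (a - 1)
        rw [coeff_sub, Mov_X_coeff β γ (a - 1) (by omega), sub_zero]) v₀ v₁ (by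
      funext β
      show Mov_cond b μ L₀ 0 ((fun γ => Φ γ β) - Mov_X a β) = -Mov_cond b μ L₀ 0 (Mov_X a β)
      rw [map_sub, (Mov_iff0 _ (hcol β)).mpr (hΦ.van β), zero_sub]) (by
      funext β
      show Mov_cond b μ L₀ 0 (fun γ => divX (G β γ)) +
        Mov_cond b μ L₀ 1 ((fun γ => Φ γ β) - Mov_X a β) = -Mov_cond b μ L₀ 1 (Mov_X a β)
      rw [map_sub, ← sub_eq_zero]
      have h1 : Mov_cond b μ L₀ 0 (fun γ => divX (G β γ)) +
          Mov_cond b μ L₀ 1 (fun γ => Φ γ β) = 0 := by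
        refine Prod.ext ?_ (funext fun q => ?_)
        · rw [Prod.fst_add, Mov_cond_fst, Mov_cond_fst, if_pos rfl, if_neg one_ne_zero, add_zero]
          exact (Submodule.Quotient.mk_eq_zero _).mpr (hv1L β)
        · rw [Prod.snd_add, Pi.add_apply, Mov_cond_snd, Mov_cond_snd]
          show _ = (0 : ℂ)
          by_cases hq : (q.2 : ℕ) + dg q.1 < μ
          · rw [if_pos hq, if_pos hq, zero_add, Nat.choose_self, Nat.cast_one, one_mul,
              coeff_divX, hGc β q.1 _ (by omega), hH, coeff_X_pow_mul']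
            by_cases hj : (q.2 : ℕ) + 1 = μ - dg q.1
            · rw [if_pos hj, if_pos (by omega), show 1 + (q.2 : ℕ) - (μ - dg q.1) = 0 by omega,
                coeff_zero_eq_eval_zero, ← hj, show 1 + (q.2 : ℕ) = (q.2 : ℕ) + 1 by omega,
                Nat.choose_succ_self_right]
              show -((((q.2 : ℕ) + 1 : ℕ) : ℂ) * ev H 0 q.1 β) +
                (((q.2 : ℕ) + 1 : ℕ) : ℂ) * ev H 0 q.1 β = 0
              ring
            · rw [if_neg hj, if_neg (by omega), mul_zero, add_zero]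
          · rw [if_neg hq, if_neg hq, add_zero]
      rw [← h1]
      abel)
  refine ⟨Y, ?_, ?_⟩
  · have h1 := hkey.2
    have h2 : Mov_l b a v₁ = Y := by
      funext γ β
      show (divX (G β γ)).coeff (a - 1) = Y γ β
      rw [coeff_divX, show a - 1 + 1 = a by omega]
      exact (hcomb β).2.2.1 γ
    rwa [h2] at h1
  · intro c hc
    have h1 : ev H 0 * Y = c • ev H 0 := by
      rw [hc, mul_smul_comm, mul_one]
    rw [hHY] at h1
    have h2 : Δ = (-c) • (1 : Mt b) := by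
      have h3 : Δ * ev H 0 = ((-c) • (1 : Mt b)) * ev H 0 := by
        rw [smul_mul_assoc, one_mul, neg_smul, ← h1, neg_neg]
      have h4 := congrArg (fun M => M * (ev H 0)⁻¹) h3
      simp only [mul_assoc, Matrix.mul_nonsing_inv _ hunit, mul_one] at h4
      exact h4
    have h3 : ∀ γ : Box b, ((μ - dg γ : ℕ) : ℂ) = -c := by
      intro γ
      have h4 := congrFun (congrFun h2 γ) γ
      rw [hΔ, Matrix.diagonal_apply_eq, Matrix.smul_apply, Matrix.one_apply_eq, smul_eq_mul,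
        mul_one] at h4
      exact h4
    have h4 := (h3 (zb b)).trans (h3 (rb (zb b))).symm
    have h5 : μ - dg (zb b) = μ - dg (rb (zb b)) := Nat.cast_injective h4
    have h6 : dg (zb b) = 0 := Finset.sum_eq_zero fun l _ => rfl
    have h7 := dg_rb (zb b)
    omega

end Pool.Agent.H18.Tl

end

section

/-!
# Coplanar points, and independent conditions in all dimensions
-/

namespace Pool.Agent.H74.KV

open Finset MvPolynomial Pool.Agent.H18.Fat Pool.Agent.H18.Ub Pool.Agent.H22.LU Pool.Agent.H74.CT Pool.Agent.H18.Nef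

variable {r : ℕ}

theorem tc_cons (x : Fin r → ℂ) (b b' : ℕ) (δ γ : Fin r →₀ ℕ) :
    tc (Fin.cons 0 x : Fin (r + 1) → ℂ) (Finsupp.cons b δ) (Finsupp.cons b' γ) =
      if b = b' then tc x δ γ else 0 := by
  unfold tc
  rw [Fin.prod_univ_succ, Finsupp.cons_zero, Finsupp.cons_zero, Fin.cons_zero]
  have h1 : ∏ j : Fin r, ((((Finsupp.cons b δ) j.succ).choose ((Finsupp.cons b' γ) j.succ) : ℂ) *
      (Fin.cons 0 x : Fin (r + 1) → ℂ) j.succ ^ ((Finsupp.cons b δ) j.succ -
        (Finsupp.cons b' γ) j.succ)) = ∏ j, (((δ j).choose (γ j) : ℂ) * x j ^ (δ j - γ j)) := by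
    refine prod_congr rfl fun j _ => ?_
    rw [Finsupp.cons_succ, Finsupp.cons_succ, Fin.cons_succ]
  rw [h1]
  split_ifs with h
  · subst h
    rw [Nat.choose_self, Nat.sub_self, pow_zero, Nat.cast_one, one_mul, one_mul]
  · rcases Nat.lt_or_gt_of_ne h with h2 | h2
    · rw [Nat.choose_eq_zero_of_lt h2]
      simp
    · rw [zero_pow (by omega)]
      simp

/-- The cone. -/
theorem cone {d : ℕ} {ι : Type*} {I : Finset ι} {x : ι → Fin r → ℂ} {m : ι → ℕ}
    (hm : ∀ i ∈ I, m i ≤ d + 1) (h : ∀ b ≤ d, Srj r (d - b) I x fun i => m i - b) :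
    Srj (r + 1) d I (fun i => Fin.cons 0 (x i)) m := by
  classical
  intro u
  have h' : ∀ b, ∃ f : MvPolynomial (Fin r) ℂ, b ≤ d → (f.totalDegree ≤ d - b ∧
      ∀ i ∈ I, ∀ γ : Fin r →₀ ℕ, γ.degree < m i - b →
        coeff γ (shift (x i) f) = u i (Finsupp.cons b γ)) := by
    intro b
    by_cases hb : b ≤ d
    · obtain ⟨f, h1, h2⟩ := h b hb fun i γ => u i (Finsupp.cons b γ)
      exact ⟨f, fun _ => ⟨h1, h2⟩⟩
    · exact ⟨0, fun h => absurd h hb⟩
  choose f hf using h'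
  refine ⟨∑ b ∈ range (d + 1), ∑ δ ∈ (f b).support, monomial (Finsupp.cons b δ) (coeff δ (f b)),
    ?_, ?_⟩
  · refine totalDegree_finsetSum_le fun b hb => totalDegree_finsetSum_le fun δ hδ => ?_
    have hb' : b ≤ d := by
      have := mem_range.1 hb
      omega
    refine (totalDegree_monomial_le _ _).trans ?_
    have h3 : ((Finsupp.cons b δ).sum fun _ => id) = (Finsupp.cons b δ).degree := rfl
    rw [h3, degree_cons']
    have h4 := le_totalDegree hδ
    have h5 : (δ.sum fun _ e => e) = δ.degree := rfl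
    rw [h5] at h4
    have h6 := (hf b hb').1
    omega
  · intro i hi γ hγ
    have hcons : Finsupp.cons (γ 0) (Finsupp.tail γ) = γ := Finsupp.cons_tail γ
    have hdeg := degree_tail γ
    have hmi := hm i hi
    have hb' : γ 0 ≤ d := by omega
    have h1 := (hf (γ 0) hb').2 i hi (Finsupp.tail γ) (by omega)
    rw [hcons] at h1
    rw [← h1, coeff_shift (x i) (Finsupp.tail γ) (f (γ 0))]
    unfold shift
    rw [map_sum, coeff_sum]
    rw [sum_eq_single (γ 0)]
    · rw [map_sum, coeff_sum]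
      refine sum_congr rfl fun δ _ => ?_
      have h2 := coeff_shift_monomial (Fin.cons 0 (x i) : Fin (r + 1) → ℂ)
        (Finsupp.cons (γ 0) δ) γ (coeff δ (f (γ 0)))
      unfold shift at h2
      rw [h2]
      congr 1
      conv_lhs => rw [← hcons]
      rw [Finsupp.cons_zero, tc_cons, if_pos rfl]
    · intro b _ hb
      rw [map_sum, coeff_sum]
      refine sum_eq_zero fun δ _ => ?_
      have h2 := coeff_shift_monomial (Fin.cons 0 (x i) : Fin (r + 1) → ℂ)
        (Finsupp.cons b δ) γ (coeff δ (f b))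
      unfold shift at h2
      rw [h2]
      conv_lhs => rw [← hcons]
      rw [tc_cons, if_neg hb, mul_zero]
    · intro hb
      exact absurd (mem_range.2 (by omega)) hb

theorem cones {d : ℕ} {ι : Type*} {I : Finset ι} {m : ι → ℕ} (hm : ∀ i ∈ I, m i ≤ d + 1) :
    ∀ s : ℕ, (∃ x : ι → Fin r → ℂ, ∀ b ≤ d, Srj r (d - b) I x fun i => m i - b) →
      ∃ x : ι → Fin (r + s) → ℂ, ∀ b ≤ d, Srj (r + s) (d - b) I x fun i => m i - b := by
  intro s
  induction s with
  | zero => exact fun h => h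
  | succ s ih =>
    intro h
    obtain ⟨x, hx⟩ := ih h
    refine ⟨fun i => Fin.cons 0 (x i), fun b hb => ?_⟩
    refine cone (fun i hi => ?_) fun b' hb' => ?_
    · have := hm i hi
      omega
    · have h1 := hx (b + b') (by omega)
      have h2 : d - (b + b') = d - b - b' := by omega
      rw [h2] at h1
      exact h1.mono le_rfl fun i _ => by omega

/-- Independent conditions at special points from general ones. -/
theorem srj_of_exact {n D d : ℕ} {p : Fin n → Fin (2 + 1) → ℂ} (hp : Good n D p) (hd : d ≤ D)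
    {m : Fin n → ℕ} (hm : ∀ i, m i ≤ D)
    (h : generalDim 2 d m + ∑ i, (m i + 2 - 1).choose 2 = (d + 2).choose 2) :
    Srj 2 d univ (fun i j => p i j.succ) m := by
  classical
  refine srj_of_condMat hp.one ?_
  have h1 := rank_add_finrank (d := d) hp.ne m
  rw [hp.dim d hd m hm] at h1
  have h2 : Module.finrank ℂ (LinearMap.range (condMat 2 d p m).mulVecLin) =
      Module.finrank ℂ (Cond 2 m → ℂ) := by
    rw [Module.finrank_fintype_fun_eq_card, card_cond (by norm_num)]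
    omega
  have h3 := Submodule.eq_top_of_finrank_eq h2
  exact LinearMap.range_eq_top.1 h3

end Pool.Agent.H74.KV

end
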