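import Mathlib

/-! The parts of this file: H18.Nef.LineImage, H18.Nef.NefB. -/

section

/-!
# The Cremona images of the class of a line
-/

namespace Pool.Agent.H18.Nef

/-- The Cremona images `F = e H - ∑ k_i E_i` of the class `H` of a line: `H` itself, and with `F` its
image under the quadratic transformation based at three points `a, b, c`, which replaces `e` by
`s = 2 e - k_a - k_b - k_c` and `k_i` by `s + k_i - e` for `i = a, b, c`. -/
inductive LineImage {n : ℕ} : ℕ → (Fin n → ℕ) → Prop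
  | line : LineImage 1 fun _ => 0
  | step {e s : ℕ} {k : Fin n → ℕ} {a b c : Fin n} (h : LineImage e k) (hab : a ≠ b) (hac : a ≠ c)
      (hbc : b ≠ c) (hka : k b + k c ≤ e) (hkb : k a + k c ≤ e) (hkc : k a + k b ≤ e)
      (hs : k a + k b + k c + s = 2 * e) :
      LineImage s fun i => if i = a ∨ i = b ∨ i = c then s + k i - e else k i

end Pool.Agent.H18.Nef

end

section

/-!
# Nef classes with at most nine large multiplicities
-/

namespace Pool.Agent.H18.Nef

open Finset

variable {n : ℕ}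

/-- The virtual dimension (of the space of forms). -/
def virt (d : ℕ) (m : Fin n → ℕ) : ℤ :=
  ((d + 2).choose 2 : ℤ) - ∑ i, ((m i + 2 - 1).choose 2 : ℤ)

theorem sum_three {α : Type*} [AddCommMonoid α] (f : Fin n → α) {a b c : Fin n} (hab : a ≠ b)
    (hac : a ≠ c) (hbc : b ≠ c) :
    ∑ i, f i = f a + f b + f c + ∑ i ∈ univ \ {a, b, c}, f i := by
  rw [← sum_sdiff (subset_univ {a, b, c}), add_comm]
  congr 1
  rw [sum_insert (by simp [hab, hac]), sum_insert (by simp [hbc]), sum_singleton, add_assoc]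

theorem choose_two_cast (x : ℕ) : 2 * ((x + 1).choose 2 : ℤ) = (x : ℤ) * (x + 1) := by
  induction x with
  | zero => simp
  | succ x ih =>
    rw [Nat.choose_succ_succ, Nat.choose_one_right]
    push_cast
    push_cast at ih
    linarith

/-- The new multiplicities. -/
def crm (d : ℕ) (m : Fin n → ℕ) (a b c : Fin n) (s : ℕ) : Fin n → ℕ := fun i =>
  if i = a ∨ i = b ∨ i = c then s + m i - d else m i

theorem crm_out {d : ℕ} {m : Fin n → ℕ} {a b c : Fin n} {s : ℕ} {i : Fin n}
    (hi : i ∈ univ \ ({a, b, c} : Finset (Fin n))) : crm d m a b c s i = m i := by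
  rw [mem_sdiff, mem_insert, mem_insert, mem_singleton] at hi
  exact if_neg hi.2

theorem emb3 {a b c : Fin n} (hab : a ≠ b) (hac : a ≠ c) (hbc : b ≠ c) :
    ∃ J : Fin (2 + 1) ↪ Fin n, J 0 = a ∧ J 1 = b ∧ J 2 = c ∧
      ∀ i, (∀ l, J l ≠ i) ↔ ¬ (i = a ∨ i = b ∨ i = c) := by
  refine ⟨⟨![a, b, c], ?_⟩, rfl, rfl, rfl, ?_⟩
  · intro x y hxy
    fin_cases x <;> fin_cases y <;> simp_all
  · intro i
    constructor
    · intro h h'
      rcases h' with h' | h' | h'
      · exact h 0 h'.symm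
      · exact h 1 h'.symm
      · exact h 2 h'.symm
    · intro h l hl
      apply h
      fin_cases l
      · exact Or.inl hl.symm
      · exact Or.inr (Or.inl hl.symm)
      · exact Or.inr (Or.inr hl.symm)

/-- The intersection numbers. -/
theorem pairing {d e s s' : ℕ} {m k : Fin n → ℕ} {a b c : Fin n} (hab : a ≠ b) (hac : a ≠ c)
    (hbc : b ≠ c) (hμ : m a + m b + m c + s = 2 * d) (hK : k a + k b + k c + s' = 2 * e)
    (hma : m b + m c ≤ d) (hmb : m a + m c ≤ d) (hmc : m a + m b ≤ d) :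
    (d : ℤ) * s' - ∑ i, (m i : ℤ) * (crm e k a b c s' i : ℤ) ≤
      (s : ℤ) * e - ∑ i, (crm d m a b c s i : ℤ) * (k i : ℤ) := by
  have h1 : ∀ x, (x = a ∨ x = b ∨ x = c) → ((s' : ℤ) + k x - e) ≤ (crm e k a b c s' x : ℤ) := by
    intro x hx
    have : crm e k a b c s' x = s' + k x - e := if_pos hx
    rw [this]
    omega
  have h2 : ∀ x, (x = a ∨ x = b ∨ x = c) → (crm d m a b c s x : ℤ) = (s : ℤ) + m x - d := by
    intro x hx
    have : crm d m a b c s x = s + m x - d := if_pos hx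
    rw [this]
    rcases hx with rfl | rfl | rfl <;> omega
  rw [sum_three (fun i => (m i : ℤ) * (crm e k a b c s' i : ℤ)) hab hac hbc,
    sum_three (fun i => (crm d m a b c s i : ℤ) * (k i : ℤ)) hab hac hbc]
  have h3 : ∑ i ∈ univ \ {a, b, c}, (m i : ℤ) * (crm e k a b c s' i : ℤ) =
      ∑ i ∈ univ \ {a, b, c}, (crm d m a b c s i : ℤ) * (k i : ℤ) :=
    sum_congr rfl fun i hi => by rw [crm_out hi, crm_out hi]
  rw [h3, h2 a (Or.inl rfl), h2 b (Or.inr (Or.inl rfl)), h2 c (Or.inr (Or.inr rfl))]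
  have ha := mul_le_mul_of_nonneg_left (h1 a (Or.inl rfl)) (Int.natCast_nonneg (m a))
  have hb := mul_le_mul_of_nonneg_left (h1 b (Or.inr (Or.inl rfl))) (Int.natCast_nonneg (m b))
  have hc := mul_le_mul_of_nonneg_left (h1 c (Or.inr (Or.inr rfl))) (Int.natCast_nonneg (m c))
  have hs : (s : ℤ) = 2 * d - m a - m b - m c := by omega
  have hs' : (s' : ℤ) = 2 * e - k a - k b - k c := by omega
  rw [hs'] at ha hb hc
  rw [hs, hs']
  rw [hs'] at *
  nlinarith only [ha, hb, hc]

/-- Cremona transformations preserve the virtual dimension. -/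
theorem virt_crm {d s : ℕ} {m : Fin n → ℕ} {a b c : Fin n} (hab : a ≠ b) (hac : a ≠ c)
    (hbc : b ≠ c) (hμ : m a + m b + m c + s = 2 * d)
    (hma : m b + m c ≤ d) (hmb : m a + m c ≤ d) (hmc : m a + m b ≤ d) :
    virt s (crm d m a b c s) = virt d m := by
  have h2 : ∀ x, (x = a ∨ x = b ∨ x = c) → (crm d m a b c s x : ℤ) = (s : ℤ) + m x - d := by
    intro x hx
    have : crm d m a b c s x = s + m x - d := if_pos hx
    rw [this]
    rcases hx with rfl | rfl | rfl <;> omega
  unfold virt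
  rw [sum_three (fun i => ((crm d m a b c s i + 2 - 1).choose 2 : ℤ)) hab hac hbc,
    sum_three (fun i => ((m i + 2 - 1).choose 2 : ℤ)) hab hac hbc]
  have h3 : ∑ i ∈ univ \ {a, b, c}, ((crm d m a b c s i + 2 - 1).choose 2 : ℤ) =
      ∑ i ∈ univ \ {a, b, c}, ((m i + 2 - 1).choose 2 : ℤ) :=
    sum_congr rfl fun i hi => by rw [crm_out hi]
  rw [h3]
  have e1 : ∀ x : ℕ, 2 * ((x + 2 - 1).choose 2 : ℤ) = (x : ℤ) * (x + 1) := fun x =>
    choose_two_cast x
  have e2 : ∀ x : ℕ, 2 * ((x + 2).choose 2 : ℤ) = ((x : ℤ) + 1) * (x + 2) := fun x => by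
    have := choose_two_cast (x + 1)
    push_cast at this
    push_cast
    linarith only [this]
  have hs : (s : ℤ) = 2 * d - m a - m b - m c := by omega
  have ea := e1 (crm d m a b c s a)
  have eb := e1 (crm d m a b c s b)
  have ec := e1 (crm d m a b c s c)
  rw [h2 a (Or.inl rfl)] at ea
  rw [h2 b (Or.inr (Or.inl rfl))] at eb
  rw [h2 c (Or.inr (Or.inr rfl))] at ec
  have fa := e1 (m a)
  have fb := e1 (m b)
  have fc := e1 (m c)
  have gd := e2 d
  have gs := e2 s
  rw [hs] at ea eb ec gs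
  nlinarith only [ea, eb, ec, fa, fb, fc, gd, gs]

theorem sum_J_crm {d s : ℕ} {m : Fin n → ℕ} {a b c : Fin n} (hab : a ≠ b) (hac : a ≠ c)
    (hbc : b ≠ c) (hμ : m a + m b + m c + s = 2 * d)
    (hma : m b + m c ≤ d) (hmb : m a + m c ≤ d) (hmc : m a + m b ≤ d) (J : Finset (Fin n))
    (ha : a ∈ J) (hb : b ∈ J) (hc : c ∈ J) :
    ∑ i ∈ J, crm d m a b c s i + 3 * d = ∑ i ∈ J, m i + 3 * s := by
  have h2 : ∀ x, (x = a ∨ x = b ∨ x = c) → crm d m a b c s x + d = s + m x := by
    intro x hx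
    have : crm d m a b c s x = s + m x - d := if_pos hx
    rw [this]
    rcases hx with rfl | rfl | rfl <;> omega
  have hsub : ({a, b, c} : Finset (Fin n)) ⊆ J := by
    intro x hx
    rw [mem_insert, mem_insert, mem_singleton] at hx
    rcases hx with rfl | rfl | rfl <;> assumption
  have hsum : ∀ f : Fin n → ℕ, ∑ i ∈ J, f i = ∑ i ∈ J \ {a, b, c}, f i + (f a + f b + f c) := by
    intro f
    rw [← sum_sdiff hsub]
    congr 1
    rw [sum_insert (by simp [hab, hac]), sum_insert (by simp [hbc]), sum_singleton, add_assoc]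
  rw [hsum, hsum m]
  have h3 : ∑ i ∈ J \ {a, b, c}, crm d m a b c s i = ∑ i ∈ J \ {a, b, c}, m i :=
    sum_congr rfl fun i hi => crm_out (by
      rw [mem_sdiff] at hi ⊢
      exact ⟨mem_univ i, hi.2⟩)
  rw [h3]
  have := h2 a (Or.inl rfl)
  have := h2 b (Or.inr (Or.inl rfl))
  have := h2 c (Or.inr (Or.inr rfl))
  omega

end Pool.Agent.H18.Nef

end
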