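import Pool.Agent.H94.LP3.M17
import Pool.Agent.H94.LP3.M20
import Pool.Agent.H94.LP3.M32

/-! The parts of this file: H18.Tl.Mx, H18.Tl.CaseA, H18.Tl.CaseB, H74.KV.Xu, H74.KV.Xu2. -/

section

/-!
# Module Mx (TL): the maximal span

Proof of `exists_max`.  Let `I` be the set of the `s ≥ 1` such that a block with `s` points exists; `I` is not empty.  Choose
`S ∈ I` with `finrank (Ds b μ S)` maximal (bounded by `finrank (Mt b)`; e.g. `Nat.findGreatest` or
`exists_max` for the bounded set of the values).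
(1) `s, s' ∈ I → s + s' ∈ I` and `Ds b μ s ≤ Ds b μ (s + s')`: let `L`, `L'` be blocks with `s`, `s'` points, `Φ` the matrix of `L`; choose
`c` with `p.x + c ≠ 0` for `p ∈ L`; `cmp` for `shL c L` (`Blk.sh`, `Ph.sh`), `L'` (with `Z = (ev Φ 0)⁻¹ Φ'₁ ev Φ 0`, `Ph.isUnit`) gives
`cf Φ (a - 1) - (a c) • 1 ∈ Ds b μ (s + s')` (`cf_sh`), and `1 ∈ Ds b μ (s + s')` (`cmp_blk`, `Ds_one`).
(2) So `Ds b μ S = Ds b μ (S + s)` for `s ∈ I` (`Submodule.eq_of_le_of_finrank_le`), and `Ds b μ s ≤ Ds b μ (s + S) = Ds b μ S`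
(for `s ∉ I`, `s ≥ 1`, `Ds b μ s = ⊥`).
(3) `ad`: for a block `L` with `s` points and `Φ`, all `x ≠ 0`, `R = ev Φ 0` is invertible (`Ph.isUnit`); `Z = R⁻¹ Y R` is linear in `Y`; for a
generator `Y` of `Ds b μ S` it is in `Ds b μ (s + S) = Ds b μ S` by `cmp`.
-/

namespace Pool.Agent.H18.Tl

open Finset Polynomial

variable {τ : Type} [Fintype τ] [DecidableEq τ]

omit [Fintype τ] [DecidableEq τ] in
/-- There is a shift with nonzero coordinates. -/
private theorem Mx_shift (L : List (Pt τ)) : ∃ c : ℂ, ∀ p ∈ L, p.x + c ≠ 0 := by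
  classical
  obtain ⟨c, hc⟩ := Infinite.exists_notMem_finset (L.map fun p => -p.x).toFinset
  refine ⟨c, fun p hp h => hc ?_⟩
  rw [List.mem_toFinset, List.mem_map]
  exact ⟨p, hp, by linear_combination -h⟩

omit [Fintype τ] [DecidableEq τ] in
private theorem Mx_sh_ne (L : List (Pt τ)) (c : ℂ) (hc : ∀ p ∈ L, p.x + c ≠ 0) :
    ∀ p ∈ shL c L, p.x ≠ 0 := by
  intro p hp
  rw [shL, List.mem_map] at hp
  obtain ⟨q, hq, rfl⟩ := hp
  exact hc q hq

/-- The sum of two block lengths is a block length. -/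
private theorem Mx_blk {b : τ → ℕ} {μ a a' : ℕ} {L L' : List (Pt τ)} (hμ : 1 ≤ μ)
    (h : Blk b μ a L) (h' : Blk b μ a' L') (hL' : L' ≠ []) :
    ∃ a'' L'', Blk b μ a'' L'' ∧ L''.length = L.length + L'.length := by
  obtain ⟨c, hc⟩ := Mx_shift L
  obtain ⟨T, hT, hδ⟩ := cmp_blk (h.sh c) h' (Mx_sh_ne L c hc) (h'.pos hμ hL')
  obtain ⟨δ, hδT⟩ := hT.exists_notMem
  refine ⟨_, _, hδ δ hδT, ?_⟩
  simp [shL, scL]

/-- The span grows. -/
private theorem Mx_le {b : τ → ℕ} {μ s a' : ℕ} {L' : List (Pt τ)} (hμ : 1 ≤ μ) (hs : 1 ≤ s)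
    (h' : Blk b μ a' L') (hL' : L' ≠ []) : Ds b μ s ≤ Ds b μ (s + L'.length) := by
  refine Submodule.span_le.2 ?_
  rintro Y ⟨a, L, Φ, h, hLs, hΦ, rfl⟩
  have hL : L ≠ [] := by
    rintro rfl
    rw [List.length_nil] at hLs
    omega
  obtain ⟨c, hc⟩ := Mx_shift L
  have hx := Mx_sh_ne L c hc
  obtain ⟨Φ', hΦ'⟩ := exists_ph h'
  have hu := (hΦ.sh c).isUnit (h.sh c) 0 hx
  obtain ⟨u, hu⟩ := hu
  have h1 := (cmp (h.sh c) (hΦ.sh c) h' hΦ' hx (h.pos hμ hL) (h'.pos hμ hL')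
    (((u⁻¹ : (Mt b)ˣ) : Mt b) * (cf Φ' (a' - 1) * (u : Mt b))) (by
      rw [← hu, ← mul_assoc, Units.mul_inv, one_mul])).1
  rw [cf_sh hΦ (h.pos hμ hL)] at h1
  have hlen : (shL c L).length = s := by
    rw [shL, List.length_map, hLs]
  rw [hlen] at h1
  have h2 : (1 : Mt b) ∈ Ds b μ (s + L'.length) := by
    refine Ds_one hμ (by omega) ?_
    obtain ⟨a'', L'', h'', h3⟩ := Mx_blk hμ h h' hL'
    exact ⟨a'', L'', h'', by rw [h3, hLs]⟩
  have h3 := (Ds b μ (s + L'.length)).add_mem h1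
    ((Ds b μ (s + L'.length)).smul_mem ((a : ℂ) * c) h2)
  rw [sub_add_cancel] at h3
  exact h3

/-- A length with the largest span. -/
private theorem Mx_choice {b : τ → ℕ} {μ : ℕ} (hex : ∃ a L, Blk b μ a L ∧ L ≠ []) :
    ∃ S, 1 ≤ S ∧ (∃ a L, Blk b μ a L ∧ L.length = S) ∧
      ∀ s, (∃ a L, Blk b μ a L ∧ L.length = s) → 1 ≤ s →
        Module.finrank ℂ (Ds b μ s) ≤ Module.finrank ℂ (Ds b μ S) := by
  classical
  have hmain : ∀ n : ℕ, ∀ s, (∃ a L, Blk b μ a L ∧ L.length = s) → 1 ≤ s →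
      Module.finrank ℂ (Mt b) ≤ Module.finrank ℂ (Ds b μ s) + n →
      ∃ S, 1 ≤ S ∧ (∃ a L, Blk b μ a L ∧ L.length = S) ∧
      ∀ s, (∃ a L, Blk b μ a L ∧ L.length = s) → 1 ≤ s →
        Module.finrank ℂ (Ds b μ s) ≤ Module.finrank ℂ (Ds b μ S) := by
    intro n
    induction n with
    | zero =>
      intro s hs h1 h2
      refine ⟨s, h1, hs, fun t _ _ => ?_⟩
      exact (Submodule.finrank_le _).trans h2
    | succ n ih =>
      intro s hs h1 h2
      by_cases hh : ∀ t, (∃ a L, Blk b μ a L ∧ L.length = t) → 1 ≤ t →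
          Module.finrank ℂ (Ds b μ t) ≤ Module.finrank ℂ (Ds b μ s)
      · exact ⟨s, h1, hs, hh⟩
      · push Not at hh
        obtain ⟨t, ht, ht1, ht2⟩ := hh
        exact ih t ht ht1 (by omega)
  obtain ⟨a, L, h, hL⟩ := hex
  exact hmain (Module.finrank ℂ (Mt b)) L.length ⟨a, L, h, rfl⟩
    (Nat.one_le_iff_ne_zero.2 (by simpa using hL)) (by omega)

/-- The properties of the maximal span. -/
structure Mxl (b : τ → ℕ) (μ : ℕ) (D : Submodule ℂ (Mt b)) : Prop where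
  one : (1 : Mt b) ∈ D
  tz : ∀ Y ∈ D, ∀ c : τ → ℂ, tz b (-c) * Y * tz b c ∈ D
  rv : ∀ Y ∈ D, rv b * Y * rv b ∈ D
  ad : ∀ (a : ℕ) (L : List (Pt τ)) (Φ : Matrix (Box b) (Box b) ℂ[X]), Blk b μ a L → Ph b a L Φ →
    L ≠ [] → (∀ p ∈ L, p.x ≠ 0) → ∀ Y ∈ D, ∀ Z, ev Φ 0 * Z = Y * ev Φ 0 → Z ∈ D
  ds : ∀ s, 1 ≤ s → Ds b μ s ≤ D

theorem exists_max {b : τ → ℕ} {μ : ℕ} (hμ : 1 ≤ μ) (hex : ∃ a L, Blk b μ a L ∧ L ≠ []) :
    ∃ S, 1 ≤ S ∧ (∃ a L, Blk b μ a L ∧ L.length = S) ∧ Mxl b μ (Ds b μ S) := by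
  obtain ⟨S, hS1, hS, hmax⟩ := Mx_choice hex
  have hadd : ∀ s, (∃ a L, Blk b μ a L ∧ L.length = s) → 1 ≤ s →
      Ds b μ (s + S) = Ds b μ S := by
    intro s hs hs1
    obtain ⟨a₀, L₀, h₀, hL₀⟩ := hS
    obtain ⟨a₁, L₁, h₁, hL₁⟩ := hs
    have hne : L₁ ≠ [] := by
      rintro rfl
      rw [List.length_nil] at hL₁
      omega
    have h1 : Ds b μ S ≤ Ds b μ (S + s) := by
      have := Mx_le (s := S) hμ hS1 h₁ hne
      rwa [hL₁] at this
    have h2 := hmax (S + s) (by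
      obtain ⟨a'', L'', h'', h3⟩ := Mx_blk hμ h₀ h₁ hne
      exact ⟨a'', L'', h'', by rw [h3, hL₀, hL₁]⟩) (by omega)
    rw [add_comm s S]
    exact (Submodule.eq_of_le_of_finrank_le h1 h2).symm
  refine ⟨S, hS1, hS, ?_, ?_, ?_, ?_, ?_⟩
  · exact Ds_one hμ hS1 hS
  · intro Y hY c
    exact Ds_tz c Y hY
  · intro Y hY
    exact Ds_rv Y hY
  · intro a L Φ h hΦ hL hx Y hY Z hZ
    obtain ⟨u, hu⟩ := hΦ.isUnit h 0 hx
    rw [← hu] at hZ
    have hZ' : Z = ((u⁻¹ : (Mt b)ˣ) : Mt b) * Y * (u : Mt b) := by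
      rw [mul_assoc, ← hZ, ← mul_assoc, Units.inv_mul, one_mul]
    rw [hZ']
    have hle : Ds b μ S ≤ (Ds b μ S).comap
        ((LinearMap.mulLeft ℂ ((u⁻¹ : (Mt b)ˣ) : Mt b)) ∘ₗ
          (LinearMap.mulRight ℂ (u : Mt b))) := by
      rw [Ds]
      refine Submodule.span_le.2 ?_
      rintro Y ⟨a', L', Φ', h', hLs, hΦ', rfl⟩
      have hL' : L' ≠ [] := by
        rintro rfl
        rw [List.length_nil] at hLs
        omega
      have h1 := (cmp h hΦ h' hΦ' hx (h.pos hμ hL) (h'.pos hμ hL')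
        (((u⁻¹ : (Mt b)ˣ) : Mt b) * (cf Φ' (a' - 1) * (u : Mt b))) (by
          rw [← hu, ← mul_assoc, Units.mul_inv, one_mul])).2
      rw [hLs, hadd L.length ⟨a, L, h, rfl⟩
        (Nat.one_le_iff_ne_zero.2 (by simpa using hL))] at h1
      exact h1
    have h2 := hle hY
    rw [Submodule.mem_comap, LinearMap.comp_apply, LinearMap.mulLeft_apply,
      LinearMap.mulRight_apply, ← mul_assoc] at h2
    exact h2
  · intro s hs
    conv_lhs => rw [Ds]
    refine Submodule.span_le.2 ?_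
    rintro Y ⟨a, L, Φ, h, hLs, hΦ, hY⟩
    obtain ⟨a₀, L₀, h₀, hL₀⟩ := hS
    have hne : L₀ ≠ [] := by
      rintro rfl
      rw [List.length_nil] at hL₀
      omega
    have h1 := Mx_le (s := s) hμ hs h₀ hne
    rw [hL₀, hadd s ⟨a, L, h, hLs⟩ hs] at h1
    exact h1 (Submodule.subset_span ⟨a, L, Φ, h, hLs, hΦ, hY⟩)

/-- Conjugation by the values of `Φ` at all points. -/
theorem Mxl.adx {b : τ → ℕ} {μ : ℕ} {D : Submodule ℂ (Mt b)} (hD : Mxl b μ D) {a : ℕ}
    {L : List (Pt τ)} {Φ : Matrix (Box b) (Box b) ℂ[X]} (h : Blk b μ a L) (hΦ : Ph b a L Φ)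
    (hL : L ≠ []) (x : ℂ) (hx : ∀ p ∈ L, p.x ≠ x) (Y : Mt b) (hY : Y ∈ D) (Z : Mt b)
    (hZ : ev Φ x * Z = Y * ev Φ x) : Z ∈ D := by
  have h1 := hD.ad a (shL (-x) L) (Φ.map (taylor (-(-x)))) (h.sh (-x)) (hΦ.sh (-x)) (by
    intro h2
    rw [shL, List.map_eq_nil_iff] at h2
    exact hL h2) (Mx_sh_ne L (-x) (fun p hp h2 => hx p hp (by linear_combination h2))) Y hY Z
  rw [ev_sh, zero_sub, neg_neg] at h1
  exact h1 hZ

/-- The inverse conjugation (`Y ↦ (ev Φ x)⁻¹ * Y * ev Φ x` is injective on the finite dimensional space `D`, so it is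
surjective). -/
theorem Mxl.adx' {b : τ → ℕ} {μ : ℕ} {D : Submodule ℂ (Mt b)} (hD : Mxl b μ D) {a : ℕ}
    {L : List (Pt τ)} {Φ : Matrix (Box b) (Box b) ℂ[X]} (h : Blk b μ a L) (hΦ : Ph b a L Φ)
    (hL : L ≠ []) (x : ℂ) (hx : ∀ p ∈ L, p.x ≠ x) (Y : Mt b) (hY : Y ∈ D) (Z : Mt b)
    (hZ : Z * ev Φ x = ev Φ x * Y) : Z ∈ D := by
  obtain ⟨u, hu⟩ := hΦ.isUnit h x hx
  rw [← hu] at hZ
  have hstab : ∀ W ∈ D, ((LinearMap.mulLeft ℂ ((u⁻¹ : (Mt b)ˣ) : Mt b)) ∘ₗ
      (LinearMap.mulRight ℂ (u : Mt b))) W ∈ D := by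
    intro W hW
    refine hD.adx h hΦ hL x hx W hW _ ?_
    rw [LinearMap.comp_apply, LinearMap.mulLeft_apply, LinearMap.mulRight_apply, ← hu,
      ← mul_assoc, Units.mul_inv, one_mul]
  have hinj : Function.Injective (((LinearMap.mulLeft ℂ ((u⁻¹ : (Mt b)ˣ) : Mt b)) ∘ₗ
      (LinearMap.mulRight ℂ (u : Mt b))).restrict hstab) := by
    rw [injective_iff_map_eq_zero]
    rintro ⟨W, hW⟩ h0
    have h1 : ((u⁻¹ : (Mt b)ˣ) : Mt b) * (W * (u : Mt b)) = 0 := congrArg Subtype.val h0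
    rw [Units.mul_right_eq_zero, Units.mul_left_eq_zero] at h1
    exact Subtype.ext h1
  obtain ⟨⟨W, hW⟩, hWY⟩ := LinearMap.surjective_of_injective hinj ⟨Y, hY⟩
  have h1 : ((u⁻¹ : (Mt b)ˣ) : Mt b) * (W * (u : Mt b)) = Y := congrArg Subtype.val hWY
  have h2 : W * (u : Mt b) = (u : Mt b) * Y := by
    rw [← h1, ← mul_assoc, Units.mul_inv, one_mul]
  have h3 : Z = W := by
    rw [← Units.mul_left_inj u, hZ, h2]
  rw [h3]
  exact hW

end Pool.Agent.H18.Tl

end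

section

/-!
# Module CaseA (TL): a matrix of rank one

Let `Φ γ β = X^(μ - dg γ) H γ β` (`loc`), `R = H.adjugate`, `P γ β = C (Y γ β) * X^(μ - (μ - dg γ) + (μ - dg β))` (polynomial, since
`μ - dg γ ≤ μ`), `Q = R * P * H`.  For all `x` different from `0` and the `p.x` the matrix `ev Φ x` is invertible and
`ev Φ x * ev Q x = x^μ det(ev H x) • (Y * ev Φ x)` (`ev Φ x = Λ ev H x`, `Λ` diagonal with entries `x^(μ - dg γ)`, `Λ * ev P x = x^μ • (Y * Λ)`,
`ev H x * ev R x = det (ev H x) • 1`).  So `ev Q x ∈ D` (`Mxl.adx` for `Y' = x^μ det(ev H x) • Y`).  By `mem_of_poly` (coefficients `cf Q k`)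
`cf Q 0 = ev Q 0 ∈ D`.  `ev P 0 γ β = Y γ β` if `μ - (μ - dg γ) + (μ - dg β) = 0`, i.e. `γ = zb b` (`dg γ = 0`) and `μ ≤ dg β`, and `0` otherwise; so
`ev P 0 = vecMulVec (Pi.single (zb b) 1) y`, `y β = Y (zb b) β` if `μ ≤ dg β`, else `0`; `y ≠ 0`; and
`ev Q 0 = vecMulVec (adj(ev H 0) e_0) (y ᵥ* ev H 0)`; both vectors are not zero since `det (ev H 0) ≠ 0`.

`ev_mem`: the evaluation of a polynomial matrix at almost all points is in `D` implies that the coefficients are in `D`.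
-/

namespace Pool.Agent.H18.Tl

open Finset Polynomial Matrix

variable {τ : Type} [Fintype τ] [DecidableEq τ] {b : τ → ℕ} {μ a : ℕ} {L₀ : List (Pt τ)}

theorem cf_mem_of_ev (D : Submodule ℂ (Mt b)) (Q : Matrix (Box b) (Box b) ℂ[X]) (T : Set ℂ)
    (hT : T.Finite) (h : ∀ x : ℂ, x ∉ T → ev Q x ∈ D) (k : ℕ) : cf Q k ∈ D := by
  have hdeg : ∀ γ β : Box b,
      (Q γ β).natDegree < k + 1 + ∑ γ' : Box b, ∑ β' : Box b, (Q γ' β').natDegree := by
    intro γ β
    have h1 : (Q γ β).natDegree ≤ ∑ β' : Box b, (Q γ β').natDegree :=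
      Finset.single_le_sum (f := fun β' => (Q γ β').natDegree) (fun _ _ => Nat.zero_le _)
        (Finset.mem_univ β)
    have h2 : ∑ β' : Box b, (Q γ β').natDegree ≤
        ∑ γ' : Box b, ∑ β' : Box b, (Q γ' β').natDegree :=
      Finset.single_le_sum (f := fun γ' => ∑ β' : Box b, (Q γ' β').natDegree)
        (fun _ _ => Nat.zero_le _) (Finset.mem_univ γ)
    omega
  refine mem_of_poly D (k + 1 + ∑ γ' : Box b, ∑ β' : Box b, (Q γ' β').natDegree)
    (fun j => cf Q j) T hT ?_ k (by omega)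
  intro δ hδ
  have heq : ∑ j ∈ range (k + 1 + ∑ γ' : Box b, ∑ β' : Box b, (Q γ' β').natDegree),
      δ ^ j • cf Q j = ev Q δ := by
    ext γ β
    rw [Matrix.sum_apply]
    simp only [Matrix.smul_apply, cf, ev, smul_eq_mul]
    rw [Polynomial.eval_eq_sum_range' (hdeg γ β)]
    exact Finset.sum_congr rfl fun j _ => mul_comm _ _
  rw [heq]
  exact h δ hδ

private theorem CaseA_ev_mul (A B : Matrix (Box b) (Box b) ℂ[X]) (x : ℂ) :
    ev (A * B) x = ev A x * ev B x :=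
  map_mul (evalRingHom x).mapMatrix A B

private theorem CaseA_ev_adj (A : Matrix (Box b) (Box b) ℂ[X]) (x : ℂ) :
    ev A.adjugate x = (ev A x).adjugate :=
  (evalRingHom x).map_adjugate A

/-- The conjugated matrix multiplied by the powers of `t`. -/
private noncomputable def CaseA_P (μ : ℕ) (Y : Mt b) : Matrix (Box b) (Box b) ℂ[X] :=
  fun γ β => C (Y γ β) * X ^ (μ - (μ - dg γ) + (μ - dg β))

private theorem CaseA_conj (Φ H : Matrix (Box b) (Box b) ℂ[X])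
    (hH : ∀ γ β, Φ γ β = X ^ (μ - dg γ) * H γ β) (Y : Mt b) (x : ℂ) :
    ev Φ x * ev (H.adjugate * CaseA_P μ Y * H) x =
      ((x ^ μ * (ev H x).det) • Y) * ev Φ x := by
  have h1 : ev Φ x = Matrix.diagonal (fun γ : Box b => x ^ (μ - dg γ)) * ev H x := by
    ext γ β
    rw [Matrix.diagonal_mul]
    simp only [ev, hH γ β, eval_mul, eval_pow, eval_X]
  have h2 : Matrix.diagonal (fun γ : Box b => x ^ (μ - dg γ)) * ev (CaseA_P μ Y) x =
      (x ^ μ) • (Y * Matrix.diagonal (fun γ : Box b => x ^ (μ - dg γ))) := by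
    ext γ β
    rw [Matrix.diagonal_mul, Matrix.smul_apply, Matrix.mul_diagonal]
    simp only [ev, CaseA_P, eval_mul, eval_pow, eval_X, eval_C, smul_eq_mul]
    have h3 : x ^ (μ - dg γ) * (Y γ β * x ^ (μ - (μ - dg γ) + (μ - dg β))) =
        Y γ β * x ^ ((μ - dg γ) + (μ - (μ - dg γ) + (μ - dg β))) := by
      rw [pow_add x (μ - dg γ)]
      ring
    have h4 : (μ - dg γ) + (μ - (μ - dg γ) + (μ - dg β)) = μ + (μ - dg β) := by omega
    rw [h3, h4, pow_add]
    ring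
  rw [CaseA_ev_mul, CaseA_ev_mul, CaseA_ev_adj, h1]
  calc Matrix.diagonal (fun γ : Box b => x ^ (μ - dg γ)) * ev H x *
        ((ev H x).adjugate * ev (CaseA_P μ Y) x * ev H x)
      = Matrix.diagonal (fun γ : Box b => x ^ (μ - dg γ)) * (ev H x * (ev H x).adjugate) *
        ev (CaseA_P μ Y) x * ev H x := by simp only [Matrix.mul_assoc]
    _ = (ev H x).det • ((Matrix.diagonal (fun γ : Box b => x ^ (μ - dg γ)) *
        ev (CaseA_P μ Y) x) * ev H x) := by
          rw [Matrix.mul_adjugate, Matrix.mul_smul, Matrix.mul_one, Matrix.smul_mul,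
            Matrix.smul_mul]
    _ = (ev H x).det • (((x ^ μ) • (Y * Matrix.diagonal (fun γ : Box b => x ^ (μ - dg γ)))) *
        ev H x) := by rw [h2]
    _ = ((x ^ μ * (ev H x).det) • Y) *
        (Matrix.diagonal (fun γ : Box b => x ^ (μ - dg γ)) * ev H x) := by
          rw [Matrix.smul_mul, Matrix.smul_mul, smul_smul, mul_comm ((ev H x).det),
            Matrix.mul_assoc]

private theorem CaseA_dg_eq_zero (γ : Box b) (h : dg γ = 0) : γ = zb b := by
  funext l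
  have h1 := (Finset.sum_eq_zero_iff.mp h) l (Finset.mem_univ l)
  exact Fin.ext h1

private theorem CaseA_dg_zb : dg (zb b) = 0 := by
  simp [dg, zb]

private theorem CaseA_P_zero (hμ : 1 ≤ μ) (Y : Mt b) :
    ev (CaseA_P μ Y) 0 = vecMulVec (Pi.single (zb b) 1 : Box b → ℂ)
      (fun β => if μ ≤ dg β then Y (zb b) β else 0) := by
  ext γ β
  rw [vecMulVec_apply]
  simp only [ev, CaseA_P, eval_mul, eval_pow, eval_X, eval_C]
  by_cases hγ : γ = zb b
  · subst hγ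
    rw [Pi.single_eq_same, one_mul, CaseA_dg_zb]
    by_cases hβ : μ ≤ dg β
    · rw [if_pos hβ]
      have h1 : μ - (μ - 0) + (μ - dg β) = 0 := by omega
      rw [h1, pow_zero, mul_one]
    · rw [if_neg hβ]
      have h1 : μ - (μ - 0) + (μ - dg β) ≠ 0 := by omega
      rw [zero_pow h1, mul_zero]
  · have h0 : dg γ ≠ 0 := fun h => hγ (CaseA_dg_eq_zero γ h)
    rw [Pi.single_eq_of_ne hγ, zero_mul]
    have h1 : μ - (μ - dg γ) + (μ - dg β) ≠ 0 := by omega
    rw [zero_pow h1, mul_zero]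

theorem caseA {D : Submodule ℂ (Mt b)} (hD : Mxl b μ D) (hμ : 1 ≤ μ)
    (h : Blk b μ a (⟨μ, 0, 0⟩ :: L₀)) (Y : Mt b) (hY : Y ∈ D) (β : Box b) (hβ : μ ≤ dg β)
    (hβ' : Y (zb b) β ≠ 0) : ∃ v ξ : Box b → ℂ, v ≠ 0 ∧ ξ ≠ 0 ∧ vecMulVec v ξ ∈ D := by
  obtain ⟨Φ, hΦ⟩ := exists_ph h
  obtain ⟨H, hH, hdet⟩ := loc h hΦ
  have hfin : ({x : ℂ | ∃ p ∈ ((⟨μ, 0, 0⟩ : Pt τ) :: L₀), p.x = x} : Set ℂ).Finite := by
    have h1 : ({x : ℂ | ∃ p ∈ ((⟨μ, 0, 0⟩ : Pt τ) :: L₀), p.x = x} : Set ℂ) =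
        {x : ℂ | x ∈ (((⟨μ, 0, 0⟩ : Pt τ) :: L₀).map Pt.x)} := by
      ext x
      simp only [Set.mem_setOf_eq, List.mem_map]
    rw [h1]
    exact List.finite_toSet _
  have hmem : cf (H.adjugate * CaseA_P μ Y * H) 0 ∈ D := by
    refine cf_mem_of_ev D _ _ hfin ?_ 0
    intro x hx
    have hx' : ∀ p ∈ ((⟨μ, 0, 0⟩ : Pt τ) :: L₀), p.x ≠ x := fun p hp h1 => hx ⟨p, hp, h1⟩
    exact hD.adx h hΦ (List.cons_ne_nil _ _) x hx' _
      (D.smul_mem (x ^ μ * (ev H x).det) hY) _ (CaseA_conj Φ H hH Y x)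
  have hcf : cf (H.adjugate * CaseA_P μ Y * H) 0 = ev (H.adjugate * CaseA_P μ Y * H) 0 := by
    ext γ β
    simp only [cf, ev, coeff_zero_eq_eval_zero]
  rw [hcf, CaseA_ev_mul, CaseA_ev_mul, CaseA_ev_adj, CaseA_P_zero hμ Y,
    Matrix.mul_vecMulVec, Matrix.vecMulVec_mul] at hmem
  refine ⟨_, _, ?_, ?_, hmem⟩
  · intro h1
    have h2 : (ev H 0).mulVec ((ev H 0).adjugate.mulVec (Pi.single (zb b) 1 : Box b → ℂ)) = 0 := by
      rw [h1, Matrix.mulVec_zero]
    rw [Matrix.mulVec_mulVec, Matrix.mul_adjugate, Matrix.smul_mulVec, Matrix.one_mulVec] at h2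
    have h3 := congrFun h2 (zb b)
    rw [Pi.smul_apply, Pi.single_eq_same, smul_eq_mul, mul_one] at h3
    exact hdet h3
  · intro h1
    have h2 : ((fun β : Box b => if μ ≤ dg β then Y (zb b) β else 0) ᵥ* ev H 0) ᵥ*
        (ev H 0).adjugate = 0 := by
      rw [h1, Matrix.zero_vecMul]
    rw [Matrix.vecMul_vecMul, Matrix.mul_adjugate, Matrix.vecMul_smul, Matrix.vecMul_one] at h2
    have h3 := congrFun h2 β
    rw [Pi.smul_apply, smul_eq_mul, if_pos hβ] at h3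
    exact (mul_ne_zero hdet hβ') h3

end Pool.Agent.H18.Tl

end

section

/-!
# Module CaseB (TL): a common eigenvector

Assume `Y (zb b) β = 0` for all `Y ∈ D`, `μ ≤ dg β`.

`jet`: `(tz b c * Y).mulVec w (zb b) = ∑_β (tz b c * Y * tz b (-c)) (zb b) β * ((tz b c).mulVec w) β`, and the terms with `μ ≤ dg β`
vanish (`hD.tz` for `-c`).  So if `((tz b c).mulVec w) β = 0` for `dg β < μ` …

`kill`: let `Y ∈ D` and let the columns `κ` of `Y` with `Bs b + 1 ≤ dg κ + μ` be zero.  `Z = rv b * Y * rv b ∈ D` has zero columns for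
`dg κ < μ` (`dg (rb κ) = Bs b - dg κ`).  For all `c`, `w`: `(Z.mulVec w)(c) := ((tz b c).mulVec (Z.mulVec w)) (zb b) =
∑_{dg β < μ} (tz b c * Z * tz b (-c)) (zb b) β * ((tz b c).mulVec w) β`, and the column `β`, `dg β < μ`, of `Z * tz b (-c)` is a
combination of the columns `κ ≤ β` of `Z` (`tz_eq_zero`), so it is zero.  So `∑_κ (Z.mulVec w) κ ∏ c_l^(κ_l) = 0` for all `c`, so `Z.mulVec w = 0`
(`common`), `Z = 0`, `Y = 0`.

`caseB`: let `Φ γ β = X^(μ - dg γ) H γ β` (`loc`), `R = H.adjugate`, `Y ∈ D`,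
`Q γ κ = X^((μ - dg γ) + (μ - (μ - dg κ))) * (H * Y.map C * R) γ κ`.  For all `x` different from `0` and the `p.x`:
`ev Q x * ev Φ x = x^μ det(ev H x) • (ev Φ x * Y)`, so `ev Q x ∈ D` (`Mxl.adx'`), so `cf Q k ∈ D` (`cf_mem_of_ev`).  The columns `κ` with
`μ ≤ dg κ` of `Q` are divisible by `X^μ`; they include the columns with `Bs b + 1 ≤ dg κ + μ` since `2 μ ≤ Bs b + 1`.  By `kill`,
`cf Q k = 0` for `k < μ`.  The column `zb b`: `X^(μ - dg γ) * N γ (zb b)`, `N = H * Y.map C * R`; for `γ ≠ zb b` we have `μ - dg γ < μ`, so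
`(N γ (zb b)).coeff 0 = 0`: `ev N 0 = ev H 0 * Y * adj(ev H 0)` maps `e_0` to a multiple of `e_0`.  So `u = adj(ev H 0) e_0 ≠ 0` satisfies
`ev H 0 (Y u) = χ e_0`, and `ev H 0 u = det • e_0`: `Y u = (χ / det) u`.  (`u` does not depend on `Y`.)
-/

namespace Pool.Agent.H18.Tl

open Finset Polynomial Matrix

variable {τ : Type} [Fintype τ] [DecidableEq τ] {b : τ → ℕ} {μ a : ℕ} {L₀ : List (Pt τ)}

omit [DecidableEq τ] in
private theorem CaseB_dg_eq_zero (γ : Box b) (h : dg γ = 0) : γ = zb b := by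
  funext l
  have h1 := (Finset.sum_eq_zero_iff.mp h) l (Finset.mem_univ l)
  exact Fin.ext h1

omit [DecidableEq τ] in
private theorem CaseB_dg_zb : dg (zb b) = 0 := by
  simp [dg, zb]

private theorem CaseB_rv_conj (Y : Mt b) (γ κ : Box b) :
    (rv b * Y * rv b) γ κ = Y (rb γ) (rb κ) := by
  rw [Matrix.mul_apply, Finset.sum_eq_single (rb κ)]
  · have h1 : rv b (rb κ) κ = 1 := by simp [rv]
    rw [h1, mul_one, Matrix.mul_apply, Finset.sum_eq_single (rb γ)]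
    · have h2 : rv b γ (rb γ) = 1 := by simp [rv, rb_rb]
      rw [h2, one_mul]
    · intro κ' _ hne
      have h2 : rv b γ κ' = 0 := by
        unfold rv
        rw [if_neg]
        intro h3
        exact hne (by rw [h3, rb_rb])
      rw [h2, zero_mul]
    · intro h3
      exact absurd (Finset.mem_univ _) h3
  · intro κ' _ hne
    have h2 : rv b κ' κ = 0 := by
      unfold rv
      rw [if_neg hne]
    rw [h2, mul_zero]
  · intro h3
    exact absurd (Finset.mem_univ _) h3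

omit [DecidableEq τ] in
private theorem CaseB_tz_zb (c : τ → ℂ) (κ : Box b) :
    tz b c (zb b) κ = ∏ l, c l ^ (κ l : ℕ) := by
  unfold tz zb
  refine Finset.prod_congr rfl fun l _ => ?_
  simp

theorem kill {D : Submodule ℂ (Mt b)} (hD : Mxl b μ D)
    (h0 : ∀ Y ∈ D, ∀ β : Box b, μ ≤ dg β → Y (zb b) β = 0) (Y : Mt b) (hY : Y ∈ D)
    (hk : ∀ γ κ : Box b, Bs b + 1 ≤ dg κ + μ → Y γ κ = 0) : Y = 0 := by
  classical
  set Z : Mt b := rv b * Y * rv b with hZdef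
  have hZD : Z ∈ D := hD.rv Y hY
  have hZcol : ∀ γ κ : Box b, dg κ < μ → Z γ κ = 0 := by
    intro γ κ hκ
    rw [hZdef, CaseB_rv_conj]
    refine hk _ _ ?_
    have h1 := dg_rb κ
    omega
  have hrow : ∀ c : τ → ℂ, ∀ β : Box b, (tz b c * Z) (zb b) β = 0 := by
    intro c β
    have hM : tz b c * Z * tz b (-c) ∈ D := by
      have h1 := hD.tz Z hZD (-c)
      rwa [neg_neg] at h1
    have hMrow : ∀ β' : Box b, (tz b c * Z * tz b (-c)) (zb b) β' = 0 := by
      intro β'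
      by_cases hβ : μ ≤ dg β'
      · exact h0 _ hM β' hβ
      · rw [Matrix.mul_assoc, Matrix.mul_apply]
        refine Finset.sum_eq_zero fun γ _ => ?_
        have h2 : (Z * tz b (-c)) γ β' = 0 := by
          rw [Matrix.mul_apply]
          refine Finset.sum_eq_zero fun κ _ => ?_
          by_cases hκ : ∀ l, (κ l : ℕ) ≤ β' l
          · have h3 : dg κ ≤ dg β' := Finset.sum_le_sum fun l _ => hκ l
            rw [hZcol γ κ (by omega), zero_mul]
          · rw [tz_eq_zero _ _ _ hκ, mul_zero]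
        rw [h2, mul_zero]
    have h4 : tz b c * Z = tz b c * Z * tz b (-c) * tz b c := by
      rw [Matrix.mul_assoc (tz b c * Z), tz_neg_mul, Matrix.mul_one]
    rw [h4, Matrix.mul_apply]
    refine Finset.sum_eq_zero fun κ _ => ?_
    rw [hMrow κ, zero_mul]
  have hZ0 : Z = 0 := by
    ext γ β
    by_contra hne
    have hA : (fun κ : Box b => Z κ β) ≠ 0 := fun h1 => hne (congrFun h1 γ)
    obtain ⟨c, hc, -⟩ := common (fun κ : Box b => Z κ β) (fun κ : Box b => Z κ β) hA hA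
    apply hc
    have h5 := hrow c β
    rw [Matrix.mul_apply] at h5
    rw [← h5]
    refine Finset.sum_congr rfl fun κ _ => ?_
    rw [CaseB_tz_zb]
    ring
  have h6 : Y = rv b * Z * rv b := by
    rw [hZdef, ← Matrix.mul_assoc, ← Matrix.mul_assoc, rv_mul_rv, Matrix.one_mul,
      Matrix.mul_assoc, rv_mul_rv, Matrix.mul_one]
  rw [h6, hZ0, Matrix.mul_zero, Matrix.zero_mul]

private theorem CaseB_ev_mul (A B : Matrix (Box b) (Box b) ℂ[X]) (x : ℂ) :
    ev (A * B) x = ev A x * ev B x :=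
  map_mul (evalRingHom x).mapMatrix A B

private theorem CaseB_ev_adj (A : Matrix (Box b) (Box b) ℂ[X]) (x : ℂ) :
    ev A.adjugate x = (ev A x).adjugate :=
  (evalRingHom x).map_adjugate A

omit [Fintype τ] [DecidableEq τ] in
private theorem CaseB_ev_C (Y : Mt b) (x : ℂ) :
    ev (Y.map C) x = Y := by
  ext γ β
  simp [ev]

/-- The matrix `Q`. -/
private noncomputable def CaseB_Q (μ : ℕ) (N : Matrix (Box b) (Box b) ℂ[X]) :
    Matrix (Box b) (Box b) ℂ[X] :=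
  fun γ κ => X ^ ((μ - dg γ) + (μ - (μ - dg κ))) * N γ κ

private theorem CaseB_conj (Φ H : Matrix (Box b) (Box b) ℂ[X])
    (hH : ∀ γ β, Φ γ β = X ^ (μ - dg γ) * H γ β) (Y : Mt b) (x : ℂ) :
    ev (CaseB_Q μ (H * Y.map C * H.adjugate)) x * ev Φ x =
      ev Φ x * ((x ^ μ * (ev H x).det) • Y) := by
  have h1 : ev Φ x = Matrix.diagonal (fun γ : Box b => x ^ (μ - dg γ)) * ev H x := by
    ext γ β
    rw [Matrix.diagonal_mul]
    simp only [ev, hH γ β, eval_mul, eval_pow, eval_X]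
  have h2 : ev (CaseB_Q μ (H * Y.map C * H.adjugate)) x =
      Matrix.diagonal (fun γ : Box b => x ^ (μ - dg γ)) * ev (H * Y.map C * H.adjugate) x *
        Matrix.diagonal (fun κ : Box b => x ^ (μ - (μ - dg κ))) := by
    ext γ β
    rw [Matrix.mul_diagonal, Matrix.diagonal_mul]
    simp only [ev, CaseB_Q, eval_mul, eval_pow, eval_X, pow_add]
    ring
  have h3 : Matrix.diagonal (fun κ : Box b => x ^ (μ - (μ - dg κ))) *
      Matrix.diagonal (fun γ : Box b => x ^ (μ - dg γ)) = (x ^ μ) • (1 : Mt b) := by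
    rw [Matrix.diagonal_mul_diagonal, ← Matrix.diagonal_one, ← Matrix.diagonal_smul]
    congr 1
    funext κ
    rw [← pow_add, Pi.smul_apply, smul_eq_mul, mul_one]
    congr 1
    omega
  rw [h2, h1, CaseB_ev_mul, CaseB_ev_mul, CaseB_ev_adj, CaseB_ev_C]
  calc Matrix.diagonal (fun γ : Box b => x ^ (μ - dg γ)) *
          (ev H x * Y * (ev H x).adjugate) *
          Matrix.diagonal (fun κ : Box b => x ^ (μ - (μ - dg κ))) *
        (Matrix.diagonal (fun γ : Box b => x ^ (μ - dg γ)) * ev H x)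
      = Matrix.diagonal (fun γ : Box b => x ^ (μ - dg γ)) * ev H x * Y *
          ((ev H x).adjugate *
          (Matrix.diagonal (fun κ : Box b => x ^ (μ - (μ - dg κ))) *
        Matrix.diagonal (fun γ : Box b => x ^ (μ - dg γ))) * ev H x) := by
          simp only [Matrix.mul_assoc]
    _ = Matrix.diagonal (fun γ : Box b => x ^ (μ - dg γ)) * ev H x *
        ((x ^ μ * (ev H x).det) • Y) := by
          rw [h3, Matrix.mul_smul, Matrix.mul_one, Matrix.smul_mul, Matrix.adjugate_mul,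
            smul_smul, Matrix.mul_smul, Matrix.mul_one, Matrix.mul_smul]

theorem caseB {D : Submodule ℂ (Mt b)} (hD : Mxl b μ D) (hμ : 1 ≤ μ) (hμB : 2 * μ ≤ Bs b + 1)
    (h : Blk b μ a (⟨μ, 0, 0⟩ :: L₀)) (h0 : ∀ Y ∈ D, ∀ β : Box b, μ ≤ dg β → Y (zb b) β = 0) :
    ∃ u : Box b → ℂ, u ≠ 0 ∧ ∀ Y ∈ D, ∃ χ : ℂ, Y.mulVec u = χ • u := by
  obtain ⟨Φ, hΦ⟩ := exists_ph h
  obtain ⟨H, hH, hdet⟩ := loc h hΦ
  have hfin : ({x : ℂ | ∃ p ∈ ((⟨μ, 0, 0⟩ : Pt τ) :: L₀), p.x = x} : Set ℂ).Finite := by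
    have h1 : ({x : ℂ | ∃ p ∈ ((⟨μ, 0, 0⟩ : Pt τ) :: L₀), p.x = x} : Set ℂ) =
        {x : ℂ | x ∈ (((⟨μ, 0, 0⟩ : Pt τ) :: L₀).map Pt.x)} := by
      ext x
      simp only [Set.mem_ofPred_eq, List.mem_map]
    rw [h1]
    exact List.finite_toSet _
  have hu : (ev H 0).mulVec ((ev H 0).adjugate.mulVec (Pi.single (zb b) 1 : Box b → ℂ)) =
      (ev H 0).det • (Pi.single (zb b) 1 : Box b → ℂ) := by
    rw [Matrix.mulVec_mulVec, Matrix.mul_adjugate, Matrix.smul_mulVec, Matrix.one_mulVec]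
  refine ⟨(ev H 0).adjugate.mulVec (Pi.single (zb b) 1 : Box b → ℂ), ?_, ?_⟩
  · intro h1
    rw [h1, Matrix.mulVec_zero] at hu
    have h3 := congrFun hu (zb b)
    rw [Pi.smul_apply, Pi.single_eq_same, smul_eq_mul, mul_one] at h3
    exact hdet h3.symm
  · intro Y hY
    have hQ : ∀ k, cf (CaseB_Q μ (H * Y.map C * H.adjugate)) k ∈ D := by
      intro k
      refine cf_mem_of_ev D _ _ hfin ?_ k
      intro x hx
      have hx' : ∀ p ∈ ((⟨μ, 0, 0⟩ : Pt τ) :: L₀), p.x ≠ x := fun p hp h1 => hx ⟨p, hp, h1⟩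
      exact hD.adx' h hΦ (List.cons_ne_nil _ _) x hx' _
        (D.smul_mem (x ^ μ * (ev H x).det) hY) _ (CaseB_conj Φ H hH Y x)
    have hQ0 : ∀ k, k < μ → cf (CaseB_Q μ (H * Y.map C * H.adjugate)) k = 0 := by
      intro k hk
      refine kill hD h0 _ (hQ k) ?_
      intro γ κ hκ
      simp only [cf, CaseB_Q]
      rw [coeff_X_pow_mul']
      rw [if_neg]
      omega
    have hN : ∀ γ : Box b, γ ≠ zb b →
        ev (H * Y.map C * H.adjugate) 0 γ (zb b) = 0 := by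
      intro γ hγ
      have hd : dg γ ≠ 0 := fun h1 => hγ (CaseB_dg_eq_zero γ h1)
      have h2 := congrFun (congrFun (hQ0 (μ - dg γ) (by omega)) γ) (zb b)
      simp only [cf, CaseB_Q] at h2
      rw [coeff_X_pow_mul', CaseB_dg_zb, if_pos (by omega)] at h2
      have h3 : μ - dg γ - (μ - dg γ + (μ - (μ - 0))) = 0 := by omega
      rw [h3] at h2
      simp only [ev]
      rw [← coeff_zero_eq_eval_zero]
      exact h2
    have hcol : (ev (H * Y.map C * H.adjugate) 0).mulVec (Pi.single (zb b) 1 : Box b → ℂ) =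
        (ev (H * Y.map C * H.adjugate) 0 (zb b) (zb b)) • (Pi.single (zb b) 1 : Box b → ℂ) := by
      rw [Matrix.mulVec_single_one]
      funext γ
      rw [Pi.smul_apply, smul_eq_mul]
      by_cases hγ : γ = zb b
      · rw [hγ, Pi.single_eq_same, mul_one]
        rfl
      · rw [Pi.single_eq_of_ne hγ, mul_zero]
        exact hN γ hγ
    rw [CaseB_ev_mul, CaseB_ev_mul, CaseB_ev_adj, CaseB_ev_C] at hcol
    generalize hχ : ((ev H 0 * Y * (ev H 0).adjugate) (zb b) (zb b)) = χ at hcol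
    refine ⟨χ / (ev H 0).det, ?_⟩
    have hinj : ∀ w : Box b → ℂ, (ev H 0).mulVec w = 0 → w = 0 := by
      intro w hw
      have h4 : (ev H 0).adjugate.mulVec ((ev H 0).mulVec w) = 0 := by
        rw [hw, Matrix.mulVec_zero]
      rw [Matrix.mulVec_mulVec, Matrix.adjugate_mul, Matrix.smul_mulVec, Matrix.one_mulVec] at h4
      exact (smul_eq_zero.mp h4).resolve_left hdet
    rw [← sub_eq_zero]
    apply hinj
    rw [Matrix.mulVec_sub, Matrix.mulVec_smul, hu, Matrix.mulVec_mulVec, Matrix.mulVec_mulVec,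
      hcol, smul_smul, div_mul_cancel₀ _ hdet, sub_self]

end Pool.Agent.H18.Tl

end

section

/-!
# Curves through ten or more general points
-/

namespace Pool.Agent.H74.KV

open Finset MvPolynomial Pool.Agent.H18.Fat Pool.Agent.H18.Ub Pool.Agent.H22.LU Pool.Agent.H74.CT Pool.Agent.H18.Nef

variable {n : ℕ}

theorem Good.sep {D : ℕ} {p : Fin n → Fin (2 + 1) → ℂ} (h : Good n D p) : Sep p :=
  sep_of_affine h.one h.inj

end Pool.Agent.H74.KV

end

section

/-!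
# The lemma of Xu, nefness and emptiness in standard form
-/

namespace Pool.Agent.H74.KV

open Finset MvPolynomial Pool.Agent.H18.Fat Pool.Agent.H18.Ub Pool.Agent.H22.LU Pool.Agent.H74.CT Pool.Agent.H18.Nef

variable {n : ℕ}

theorem eff_of_mem {D e : ℕ} {p : Fin n → Fin (2 + 1) → ℂ} (hp : Good n D p) (he : e ≤ D)
    {A : MvPolynomial (Fin (2 + 1)) ℂ} (hA0 : A ≠ 0) (hAe : A.IsHomogeneous e)
    (κ : Fin n → ℕ) (hκ : ∀ j, VanishesToOrder A (p j) (κ j)) : 1 ≤ generalDim 2 e κ := by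
  have hle : ∀ j, κ j ≤ e := by
    intro j
    by_contra hcon
    push Not at hcon
    exact hA0 (eq_zero_of_vanishes A hAe (p j) hcon (hκ j))
  rw [← hp.dim e he κ fun j => (hle j).trans he]
  have hfin := fin_fatForms 2 e p κ
  have hmem : A ∈ fatForms 2 e p κ := ⟨hAe, hκ⟩
  by_contra hcon
  have h2 : Module.finrank ℂ (fatForms 2 e p κ) = 0 := by omega
  rw [Submodule.finrank_eq_zero] at h2
  rw [h2, Submodule.mem_bot] at hmem
  exact hA0 hmem

/-- The lemma of Xu. -/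
theorem xu {D e : ℕ} {p : Fin n → Fin (2 + 1) → ℂ} (hp : Good n D p) (he : e ≤ D)
    {A : MvPolynomial (Fin (2 + 1)) ℂ} (hA : Irreducible A) (hAe : A.IsHomogeneous e)
    (κ : Fin n → ℕ)
    (hκ : ∀ j, VanishesToOrder A (p j) (κ j) ∧ ¬ VanishesToOrder A (p j) (κ j + 1))
    {i : Fin n} (hi : 1 ≤ κ i) : ∑ j, κ j ^ 2 ≤ e ^ 2 + κ i := by
  classical
  have hA0 := hA.ne_zero
  have hle : ∀ j, κ j ≤ e := by
    intro j
    by_contra hcon
    push Not at hcon
    exact hA0 (eq_zero_of_vanishes A hAe (p j) hcon (hκ j).1)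
  obtain ⟨G, hGe, hG1, hG2, hG3⟩ := exists_drop hp.one κ
    (hp.dim e he κ fun j => (hle j).trans he) ⟨hAe, fun j => (hκ j).1⟩ hi (hκ i).2
  have hG0 : G ≠ 0 := by
    rintro rfl
    exact hG3 fun β _ => by
      unfold shift
      rw [map_zero, coeff_zero]
  have hdvd : ¬ A ∣ G := by
    rintro ⟨B, rfl⟩
    apply hG3
    have hB0 : B ≠ 0 := by
      rintro rfl
      exact hG0 (mul_zero A)
    obtain ⟨a, b, ha, hb, hab⟩ := hom_of_mul hGe hA0 hB0
    have hae : a = e := ha.inj_right hAe hA0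
    have hb0 : b = 0 := by omega
    subst hb0
    have h4 := totalDegree_eq_zero_iff_eq_C.1 (hb.totalDegree hB0)
    intro β hβ
    rw [h4]
    have h5 : shift (p i) (A * C (coeff 0 B)) = shift (p i) A * C (coeff 0 B) := by
      unfold shift
      rw [map_mul, aeval_C, algebraMap_eq]
    rw [h5, mul_comm, coeff_C_mul, (hκ i).1 β hβ, mul_zero]
  have h4 := bezout p hp.ne hp.sep hA hAe hGe hdvd κ (fun j => if j = i then κ i - 1 else κ j)
    (fun j => (hκ j).1) fun j => by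
      by_cases hj : j = i
      · rw [if_pos hj, hj]
        exact hG2
      · rw [if_neg hj]
        exact hG1 j hj
  have h5 : ∑ j, κ j ^ 2 ≤ ∑ j, κ j * (if j = i then κ i - 1 else κ j) + κ i := by
    rw [← add_sum_erase univ (fun j => κ j ^ 2) (mem_univ i),
      ← add_sum_erase univ (fun j => κ j * (if j = i then κ i - 1 else κ j)) (mem_univ i)]
    have h6 : ∑ j ∈ univ.erase i, κ j ^ 2 =
        ∑ j ∈ univ.erase i, κ j * (if j = i then κ i - 1 else κ j) := by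
      refine sum_congr rfl fun j hj => ?_
      rw [if_neg (ne_of_mem_erase hj), sq]
    have h7 : κ i ^ 2 = κ i * (κ i - 1) + κ i := by
      obtain ⟨c, hc⟩ : ∃ c, κ i = c + 1 := ⟨κ i - 1, by omega⟩
      rw [hc, Nat.add_sub_cancel]
      ring
    rw [if_pos rfl, h6, h7]
    omega
  have h6 : e * e = e ^ 2 := by ring
  omega

/-- The pairing with the components, over the real numbers. -/
theorem pair_real {ι : Type*} [Fintype ι] {p : ι → Fin (2 + 1) → ℂ} (a : ℝ) (m : ι → ℕ)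
    {f : ℕ} {F : MvPolynomial (Fin (2 + 1)) ℂ} (hF0 : F ≠ 0) (hFf : F.IsHomogeneous f)
    (H : ∀ (A : MvPolynomial (Fin (2 + 1)) ℂ) (e : ℕ) (κ : ι → ℕ), Irreducible A →
      A.IsHomogeneous e → 1 ≤ e → e ≤ f →
      (∀ i, VanishesToOrder A (p i) (κ i) ∧ ¬ VanishesToOrder A (p i) (κ i + 1)) →
      ∑ i, (m i : ℝ) * κ i ≤ a * e)
    {k : ι → ℕ} (hk : ∀ i, VanishesToOrder F (p i) (k i)) :
    ∑ i, (m i : ℝ) * k i ≤ a * f := by
  have hall : ∀ N : ℕ, 1 ≤ N → (N : ℝ) * ∑ i, (m i : ℝ) * k i ≤ (N * a + 1) * f ∨ a < 0 := by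
    intro N hN
    rcases lt_or_ge a 0 with ha | ha
    · exact Or.inr ha
    · left
      have hc : (N : ℝ) * a ≤ ⌈(N : ℝ) * a⌉₊ := Nat.le_ceil _
      have hc2 : (⌈(N : ℝ) * a⌉₊ : ℝ) < N * a + 1 := Nat.ceil_lt_add_one (by positivity)
      have h1 := pair_of_irred (p := p) ⌈(N : ℝ) * a⌉₊ (fun i => N * m i) f F hF0 hFf
        (fun A e κ hA _ hAe he hef hκ => by
          have h2 := H A e κ hA hAe he hef hκ
          have h3 : ((∑ i, N * m i * κ i : ℕ) : ℝ) ≤ ((⌈(N : ℝ) * a⌉₊ * e : ℕ) : ℝ) := by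
            push_cast
            have h4 : ∑ i, (N : ℝ) * (m i : ℝ) * (κ i : ℝ) = N * ∑ i, (m i : ℝ) * κ i := by
              rw [mul_sum]
              exact sum_congr rfl fun i _ => by ring
            rw [h4]
            have he0 : (0 : ℝ) ≤ e := Nat.cast_nonneg e
            have hN0 : (0 : ℝ) ≤ N := Nat.cast_nonneg N
            calc (N : ℝ) * ∑ i, (m i : ℝ) * κ i ≤ N * (a * e) := mul_le_mul_of_nonneg_left h2 hN0
              _ = (N * a) * e := by ring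
              _ ≤ _ := mul_le_mul_of_nonneg_right hc he0
          exact_mod_cast h3) k hk
      have h5 : ((∑ i, N * m i * k i : ℕ) : ℝ) ≤ ((⌈(N : ℝ) * a⌉₊ * f : ℕ) : ℝ) := by
        exact_mod_cast h1
      push_cast at h5
      have h4 : ∑ i, (N : ℝ) * (m i : ℝ) * (k i : ℝ) = N * ∑ i, (m i : ℝ) * k i := by
        rw [mul_sum]
        exact sum_congr rfl fun i _ => by ring
      rw [h4] at h5
      have hf0 : (0 : ℝ) ≤ f := Nat.cast_nonneg f
      exact h5.trans (mul_le_mul_of_nonneg_right hc2.le hf0)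
  rcases lt_or_ge a 0 with ha | ha
  · -- no component
    rcases Nat.eq_zero_or_pos f with h0 | h0
    · subst h0
      rw [Nat.cast_zero, mul_zero]
      refine le_of_eq (sum_eq_zero fun i _ => ?_)
      have : k i = 0 := by
        by_contra hne
        exact hF0 (eq_zero_of_vanishes F hFf _ (Nat.pos_of_ne_zero hne) (hk i))
      rw [this, Nat.cast_zero, mul_zero]
    · exfalso
      have hnu : ¬ IsUnit F := by
        intro h
        have h1 := ((MvPolynomial.isUnit_iff_totalDegree_of_isReduced (R := ℂ)).1 h).2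
        rw [hFf.totalDegree hF0] at h1
        omega
      obtain ⟨A, hA, G, hG⟩ := WfDvdMonoid.exists_irreducible_factor hnu hF0
      have hG0 : G ≠ 0 := by
        rintro rfl
        exact hF0 (by rw [hG, mul_zero])
      obtain ⟨e, g, hAe, hGg, heg⟩ := hom_of_mul (hG ▸ hFf) hA.ne_zero hG0
      have he : 1 ≤ e := by
        by_contra hcon
        have h1 : e = 0 := by omega
        subst h1
        have h2 := totalDegree_eq_zero_iff_eq_C.1 (hAe.totalDegree hA.ne_zero)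
        apply hA.not_isUnit
        rw [h2]
        refine (isUnit_iff_ne_zero.2 fun h3 => hA.ne_zero ?_).map
          (C : ℂ →+* MvPolynomial (Fin (2 + 1)) ℂ)
        rw [h2, h3, map_zero]
      choose κ hκe hκ1 hκ2 using fun i => exists_mult hAe hA.ne_zero (p i)
      have h1 := H A e κ hA hAe he (by omega) fun i => ⟨hκ1 i, hκ2 i⟩
      have h2 : (0 : ℝ) ≤ ∑ i, (m i : ℝ) * κ i := sum_nonneg fun _ _ => by positivity
      have h3 : (1 : ℝ) ≤ e := by exact_mod_cast he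
      nlinarith
  · by_contra hcon
    push Not at hcon
    set s := ∑ i, (m i : ℝ) * k i with hs
    obtain ⟨N, hN⟩ := exists_nat_gt (f / (s - a * f))
    have hpos : 0 < s - a * f := by linarith
    rw [div_lt_iff₀ hpos] at hN
    rcases hall (N + 1) (by omega) with h | h
    · push_cast at h
      nlinarith
    · linarith

end Pool.Agent.H74.KV

end
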