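import Pool.Agent.H94.LP3.H18.Ub.VBranch_1
import Pool.Agent.H94.LP3.H18.Ub.VPhase
import Pool.Agent.H94.LP3.M38
import Pool.Agent.H94.LP3.M43

/-! The parts of this file: H18.Ub.VSys, H18.Ub.VMain, H18.Ub.VFinal, H18.Ub.VGen_1. -/

section

/-!
# Module VSys (UB): the Horace system of a family
-/

namespace Pool.Agent.H18.Ub

open Finset Pool.Agent.H18.Ex Pool.Agent.H18.Cub Pool.Agent.H18.Pr Pool.Agent.H18.Ua

variable {n q : ℕ}

/-- The differences increase. -/
theorem VSys_diff_mono (A : Fam n) {δ d : ℕ} (hδ : δ ≤ d) :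
    A.h δ - A.h (δ - 1) ≤ A.h d - A.h (d - 1) := by
  induction d, hδ using Nat.le_induction with
  | base => exact le_refl _
  | succ d _ ih =>
    refine ih.trans ?_
    rw [Nat.add_sub_cancel]
    rcases Nat.eq_zero_or_pos d with rfl | hd
    · simp
    · have h1 := A.t_mono d hd
      omega

private theorem VSys_up (A : Fam n) {δ d : ℕ} (hδ : δ ≤ d) (k : ℕ) :
    A.h δ ≤ A.h (δ - k) + k * (A.h d - A.h (d - 1)) := by
  induction k with
  | zero => simp
  | succ k ih =>
    have h1 := VSys_diff_mono A (show δ - k ≤ d by omega)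
    rw [Nat.sub_sub] at h1
    rw [add_mul, one_mul]
    omega

private theorem VSys_low (A : Fam n) (M C d : ℕ) (hM : 1 ≤ M) (hC : C ≤ d)
    (hslow : ∀ i < C, (EV n M - 1) * (A.h d - A.h (d - 1)) ≤
      EV n M * (A.h (d - i) - A.h (d - i - 1))) {δ : ℕ} (hδ : δ ≤ d) (k : ℕ)
    (hk : d - δ + k ≤ C) :
    2 * A.h (δ - k) + k * (A.h d - A.h (d - 1)) ≤ 2 * A.h δ := by
  induction k with
  | zero => simp
  | succ k ih =>
    have h1 := ih (by omega)
    have h2 := hslow (d - δ + k) (by omega)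
    have h3 : d - (d - δ + k) = δ - k := by omega
    rw [h3, Nat.sub_sub] at h2
    have h4 : A.h d - A.h (d - 1) ≤ 2 * (A.h (δ - k) - A.h (δ - (k + 1))) := by
      have h5 := F_ge_half (n := n) hM h2
      omega
    have h8 : A.h (δ - (k + 1)) ≤ A.h (δ - k) := A.h_mono' (by omega)
    rw [add_mul, one_mul]
    omega

private theorem VSys_q_pos (n M : ℕ) (hM : 1 ≤ M) : 1 ≤ qU n M := by
  unfold qU
  have h1 : 1 ≤ ell n M := by
    unfold ell
    exact Nat.choose_pos (by omega)
  have h2 : 1 * 1 ≤ 4 * M * ell n M := Nat.mul_le_mul (by omega) h1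
  omega

/-- The degree of a state `a` with `RegU M N a`. -/
private theorem VSys_reg (M : ℕ) (N a : Fin q → ℕ) (h : RegU M N a) :
    ∑ l, a l ≤ ∑ l, N l ∧ ∑ l, N l ≤ ∑ l, a l + q * (2 * M + 1) := by
  constructor
  · exact sum_le_sum fun l _ => (h l).1
  · have h1 : ∑ l, N l ≤ ∑ l, (a l + (2 * M + 1)) := sum_le_sum fun l _ => (h l).2
    rw [sum_add_distrib, sum_const, card_univ, Fintype.card_fin, smul_eq_mul] at h1
    exact h1

/-- The numerical properties. -/
theorem sysV_num {n : ℕ} (A : Fam (n + 1)) (M : ℕ) (v : Fin (qU (n + 1) M) → ℂ)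
    (hv : Function.Injective v) (hb : ∀ l, v l ∉ A.bad) (hM : 1 ≤ M) (d : ℕ)
    (hd : CU (n + 1) M ≤ d) (hbig : TU (n + 1) M ≤ A.h d - A.h (d - 1))
    (hslow : ∀ i < CU (n + 1) M, (EV (n + 1) M - 1) * (A.h d - A.h (d - 1)) ≤
      EV (n + 1) M * (A.h (d - i) - A.h (d - i - 1)))
    (N : Fin (qU (n + 1) M) → ℕ) (hN : ∑ l, N l = d) (hN' : ∀ l, 2 * M + 2 ≤ N l) :
    NumV (sysU A v hv hb) M (A.h d - A.h (d - 1))
      ((A.h d - A.h (d - 1)) / EV (n + 1) M) N := by
  have hq := VSys_q_pos (n + 1) M hM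
  have hMq : M ≤ M * qU (n + 1) M := Nat.le_mul_of_pos_right M hq
  have hqM : qU (n + 1) M ≤ M * qU (n + 1) M := Nat.le_mul_of_pos_left (qU (n + 1) M) hM
  have hCU : CU (n + 1) M = 11 * (M * qU (n + 1) M) := by unfold CU; ring
  have h21 : qU (n + 1) M * (2 * M + 1) = 2 * (M * qU (n + 1) M) + qU (n + 1) M := by ring
  have ht : 1 ≤ A.h d - A.h (d - 1) := by
    refine le_trans ?_ hbig
    unfold TU
    have h1 : 1 ≤ ell (n + 1) M := by
      unfold ell
      exact Nat.choose_pos (by omega)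
    have h2 : 1 ≤ ell (n + 1) M ^ 2 := Nat.one_le_pow _ _ h1
    have h3 : 1 * 1 ≤ 8 * M * (M + 1) := Nat.mul_le_mul (by omega) (by omega)
    have h4 : (1 * 1) * 1 ≤ 8 * M * (M + 1) * ell (n + 1) M ^ 2 := Nat.mul_le_mul h3 h2
    omega
  have hEpos : 1 ≤ EV (n + 1) M := by
    unfold EV
    have h1 := ell_pos (n + 1) hM
    have h3 : 1 * 1 ≤ 8 * M * (M + 1) := Nat.mul_le_mul (by omega) (by omega)
    have h4 : (1 * 1) * 1 ≤ 8 * M * (M + 1) * ell (n + 1) M := Nat.mul_le_mul h3 h1
    omega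
  -- the degree of a regular state
  have hdeg : ∀ a, RegU M N a → ∑ l, a l ≤ d ∧ d ≤ ∑ l, a l + 2 * (M * qU (n + 1) M) +
      qU (n + 1) M := by
    intro a ha
    have h1 := VSys_reg M N a ha
    rw [hN, h21] at h1
    omega
  have hne : ∀ a, RegU M N a → A.h (∑ l, a l - 1) ≠ 0 := by
    intro a ha h0
    have h1 := hdeg a ha
    have h2 := VSys_low A M (CU (n + 1) M) d hM hd hslow (δ := ∑ l, a l - 1) (by omega) 1
      (by omega)
    omega
  refine ⟨by omega, hM, hbig, Nat.mul_div_le _ _, Fintype.card_fin _, hN', ?_, ?_, ?_, ?_,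
    fun a _ => sysU_full A v hv hb a, ?_⟩
  · -- `Fle`
    intro a l ha
    change (if A.h (∑ l, a l - 1) = 0 then 0 else A.h (∑ l, a l) - A.h (∑ l, a l - 1)) ≤ _
    rw [if_neg (hne a ha)]
    exact VSys_diff_mono A (hdeg a ha).1
  · -- `leF`
    intro a l ha
    change _ ≤ EV (n + 1) M *
      (if A.h (∑ l, a l - 1) = 0 then 0 else A.h (∑ l, a l) - A.h (∑ l, a l - 1))
    rw [if_neg (hne a ha)]
    have h1 := hdeg a ha
    have h2 := hslow (d - ∑ l, a l) (by omega)
    have h3 : d - (d - ∑ l, a l) = ∑ l, a l := by omega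
    rw [h3] at h2
    exact h2
  · -- `gd`
    intro a l ha S hS x hx hF
    change (if A.h (∑ l, a l - 1) = 0 then 0 else A.h (∑ l, a l) - A.h (∑ l, a l - 1)) ≤ _ at hF
    rw [if_neg (hne a ha)] at hF
    change GMP (gU (n + 1) v) (trW (gU (n + 1) v) l (A.W (∑ l, a l)))
      ((S + Multiset.replicate x 1).map Kind.free)
    have h1 := hdeg a ha
    set δ := ∑ l, a l with hδ
    have h2 := hslow (d - (δ - (M - 1))) (by omega)
    have h3 : d - (d - (δ - (M - 1))) = δ - (M - 1) := by omega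
    rw [h3] at h2
    have h4 := VSys_diff_mono A h1.1
    have h5 : A.h δ - A.h (δ - 1) ≤ A.h (δ - (M - 1)) - A.h (δ - (M - 1) - 1) + x := by
      refine h4.trans ?_
      refine le_trans ?_ (Nat.add_le_add_left hx _)
      generalize A.h (δ - (M - 1)) - A.h (δ - (M - 1) - 1) = u at h2
      generalize A.h d - A.h (d - 1) = t at h2
      -- `(E - 1) t ≤ E u` gives `t - u ≤ t / E`
      rw [← Nat.sub_le_iff_le_add', Nat.le_div_iff_mul_le hEpos]
      obtain ⟨e, he⟩ : ∃ e, EV (n + 1) M = e + 1 := ⟨EV (n + 1) M - 1, by omega⟩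
      rw [he] at h2 ⊢
      rw [Nat.add_sub_cancel] at h2
      rw [Nat.sub_mul, Nat.sub_le_iff_le_add]
      calc t * (e + 1) = e * t + t := by ring
        _ ≤ (e + 1) * u + t := Nat.add_le_add_right h2 _
        _ = t + u * (e + 1) := by ring
    have h6 := trace_kill A M δ hM (by omega) (v l) (hb l) S hS x h5 (by omega)
    exact (Fk_iff (gU (n + 1) v) _ _).1 h6
  · -- `leR`
    intro a ha
    change _ ≤ if A.h (∑ l, a l) = 0 then 1 else (A.h (∑ l, a l) : ℤ)
    have h1 := hdeg a ha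
    have h2 := VSys_low A M (CU (n + 1) M) d hM hd hslow (δ := ∑ l, a l) h1.1
      (8 * (M * qU (n + 1) M)) (by omega)
    have h3 : 4 * M * qU (n + 1) M * (A.h d - A.h (d - 1)) ≤ A.h (∑ l, a l) := by
      have h4 : 8 * (M * qU (n + 1) M) * (A.h d - A.h (d - 1)) =
          2 * (4 * M * qU (n + 1) M * (A.h d - A.h (d - 1))) := by ring
      omega
    have h5 : A.h (∑ l, a l) ≠ 0 := by
      have h6 : 1 ≤ 4 * M * qU (n + 1) M * (A.h d - A.h (d - 1)) := by
        have h7 : 1 * 1 ≤ 4 * M * qU (n + 1) M := Nat.mul_le_mul (by omega) hq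
        have h8 : (1 * 1) * 1 ≤ 4 * M * qU (n + 1) M * (A.h d - A.h (d - 1)) :=
          Nat.mul_le_mul h7 ht
        omega
      omega
    rw [if_neg h5]
    exact_mod_cast h3
  · -- `kill`
    intro a ha S x s G hG hK hx hs
    have h1 := hdeg a ha
    refine kill_all A (gU (n + 1) v) (∑ l, a l) M (M * (A.h d - A.h (d - 1))) hM (by omega) ?_ G hG
      S x s hK hx hs
    refine (VSys_up A h1.1 (M - 1)).trans (Nat.add_le_add_left ?_ _)
    exact Nat.mul_le_mul_right _ (by omega)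

end Pool.Agent.H18.Ub

end

section

/-!
# Module VMain (UB): exactness
-/

namespace Pool.Agent.H18.Ub

open Finset Pool.Agent.H18.Ex Pool.Agent.H18.Cub Pool.Agent.H18.Pr Pool.Agent.H18.Ua

variable {Λ : Type} [Fintype Λ] [DecidableEq Λ] {n : ℕ}

/-- Removing the points of multiplicity `0` and separating the simple points. -/
private theorem split_G (G : Multiset ℕ) {M : ℕ} (hG : ∀ m ∈ G, m ≤ M) :
    ∃ (G₂ : Multiset ℕ) (s : ℕ), (∀ m ∈ G₂, 2 ≤ m ∧ m ≤ M) ∧
      G₂ + Multiset.replicate s 1 ≤ G ∧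
      (G.map (ell (n + 1))).sum = (G₂.map (ell (n + 1))).sum + s := by
  induction G using Multiset.induction_on with
  | empty => exact ⟨0, 0, by simp, by simp, by simp⟩
  | cons m G ih =>
    obtain ⟨G₂, s, h1, h2, h3⟩ := ih fun m' hm' => hG m' (Multiset.mem_cons_of_mem hm')
    have hm := hG m (Multiset.mem_cons_self m G)
    rw [Multiset.map_cons, Multiset.sum_cons, h3]
    by_cases h : 2 ≤ m
    · refine ⟨m ::ₘ G₂, s, ?_, ?_, ?_⟩
      · intro m' hm'
        rcases Multiset.mem_cons.1 hm' with rfl | hm'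
        · exact ⟨h, hm⟩
        · exact h1 m' hm'
      · rw [Multiset.cons_add]
        exact Multiset.cons_le_cons m h2
      · rw [Multiset.map_cons, Multiset.sum_cons]
        ring
    · by_cases h' : m = 1
      · subst h'
        refine ⟨G₂, s + 1, h1, ?_, ?_⟩
        · rw [Multiset.replicate_succ, Multiset.add_cons]
          exact Multiset.cons_le_cons 1 h2
        · rw [ell_one]
          ring
      · have h0 : m = 0 := by omega
        subst h0
        refine ⟨G₂, s, h1, h2.trans (Multiset.le_cons_self _ _), ?_⟩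
        rw [ell_zero (by omega)]
        ring

/-- Exactness for a state with the numerical properties.  Remove the points of multiplicity `0`; let
`s` be the number of simple points.  If `M * t ≤ s` use `NumU.kill` with `S = 0` and simple points
(`FullN`).  Otherwise `phase_all`, `bridge_multi` and `branch`. -/
theorem numV_exact (Y : SysN Λ n) {M t w : ℕ} {N : Λ → ℕ} (H : NumV Y M t w N) (G : Multiset ℕ)
    (hG : ∀ m ∈ G, m ≤ M) (hsum : Y.R N ≤ ((G.map (ell (n + 1))).sum : ℕ)) :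
    Y.K N (G.map Kind.free) := by
  obtain ⟨G₂, s, h1, h2, h3⟩ := split_G (n := n) G hG
  have hreg : RegU M N N := fun i => ⟨le_rfl, by omega⟩
  rw [h3] at hsum
  have hkey : Y.K N (G₂.map Kind.free + Multiset.replicate s (Kind.free 1)) := by
    by_cases hs : M * t ≤ s
    · obtain ⟨hR1, hR2⟩ := H.full N hreg
      have hx : Y.R N ≤ ((Y.R N).toNat : ℕ) := Int.self_le_toNat _
      have h4 := H.kill N hreg 0 (Y.R N).toNat s G₂
        (fun m hm => ⟨by have := (h1 m hm).1; omega, (h1 m hm).2⟩)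
        (by rw [zero_add]; exact hR2 _ hx)
        (by omega) (Or.inl hs)
      rwa [zero_add] at h4
    · push Not at hs
      set c : Cfg Λ := ⟨G₂, s, fun _ => 0⟩ with hc
      have hcOK : c.OK M := ⟨h1, fun l x hx => absurd hx (Multiset.notMem_zero x)⟩
      have hsz0 : c.sz n = (G₂.map (ell (n + 1))).sum + s := by
        unfold Cfg.sz Cfg.nsz Cfg.fl
        simp [hc]
      have hsz : Y.R N ≤ c.sz n := by
        rw [hsz0]
        exact hsum
      have hkinds : c.kinds = G₂.map Kind.free + Multiset.replicate s (Kind.free 1) := by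
        unfold Cfg.kinds
        simp [hc]
      rw [← hkinds]
      obtain ⟨a, c', ha, -, hc', hK, -, htr, hy, -, hsz'⟩ :=
        phase_all Y H c hcOK (fun _ => rfl) hs hsz univ
      apply hK
      have hsa : Y.R a ≤ c'.sz n := by
        have := hsz
        linarith
      refine bridge_multi Y (yU n M t) univ a c' (fun l _ => ?_) (fun l hl => hy l hl)
        (fun T _ => branch Y H a ha c' hc' htr hsa (fun l => hy l (mem_univ l)) T)
      have h5 := (ha l).2
      have h6 := H.hN l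
      omega
  refine Y.mono _ _ _ ?_ hkey
  have h4 : G₂.map (Kind.free : ℕ → Kind Λ) + Multiset.replicate s (Kind.free 1) =
      (G₂ + Multiset.replicate s 1).map Kind.free := by
    rw [Multiset.map_add, Multiset.map_replicate]
  rw [h4]
  exact Multiset.map_le_map h2

private theorem exists_val (s : Finset ℂ) (q : ℕ) :
    ∃ v : Fin q → ℂ, Function.Injective v ∧ ∀ l, v l ∉ s := by
  have hinf : Infinite {z : ℂ // z ∉ s} := by
    have h1 : (((s : Set ℂ)ᶜ) : Set ℂ).Infinite := s.finite_toSet.infinite_compl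
    exact h1.to_subtype
  let f := Infinite.natEmbedding {z : ℂ // z ∉ s}
  exact ⟨fun l => (f l.val).1, fun a b hab => Fin.ext (f.injective (Subtype.ext hab)),
    fun l => (f l.val).2⟩

/-- General points of multiplicities at most `M` kill `W d` as soon as their lengths suffice, if the
dimensions of the hyperplane sections grow slowly. -/
theorem exactV {n : ℕ} {M : ℕ} (hM : 1 ≤ M) (A : Fam (n + 1)) (d : ℕ) (hd : CU (n + 1) M ≤ d)
    (hbig : TU (n + 1) M ≤ A.h d - A.h (d - 1))
    (hslow : (EV (n + 1) M - 1) * (A.h d - A.h (d - 1)) ≤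
      EV (n + 1) M * (A.h (d - CU (n + 1) M + 1) - A.h (d - CU (n + 1) M)))
    (G : Multiset ℕ) (hG : ∀ m ∈ G, m ≤ M)
    (hsum : A.h d ≤ (G.map (ell (n + 2))).sum) : Fk (A.W d) G := by
  obtain ⟨v, hv, hb⟩ := exists_val A.bad (qU (n + 1) M)
  have hell : 1 ≤ ell (n + 1) M := ell_pos (n + 1) hM
  have hq : 1 ≤ qU (n + 1) M := by
    unfold qU
    have h1 : 1 ≤ 4 * M * ell (n + 1) M := Nat.mul_pos (by omega) hell
    omega
  have hC : qU (n + 1) M * (2 * M + 2) ≤ d := by
    refine le_trans ?_ hd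
    unfold CU
    have h1 : 2 * M + 2 ≤ 11 * M := by omega
    calc qU (n + 1) M * (2 * M + 2) ≤ qU (n + 1) M * (11 * M) := Nat.mul_le_mul_left _ h1
      _ = 11 * M * qU (n + 1) M := by ring
  have hC1 : 1 ≤ CU (n + 1) M := by
    unfold CU
    have : 1 * 1 ≤ 11 * M * qU (n + 1) M := Nat.mul_le_mul (by omega) hq
    omega
  have hslow' : ∀ i < CU (n + 1) M, (EV (n + 1) M - 1) * (A.h d - A.h (d - 1)) ≤
      EV (n + 1) M * (A.h (d - i) - A.h (d - i - 1)) := by
    intro i hi
    refine hslow.trans (Nat.mul_le_mul_left _ ?_)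
    have h1 := VSys_diff_mono A (show d - CU (n + 1) M + 1 ≤ d - i by omega)
    rw [Nat.add_sub_cancel] at h1
    exact h1
  let i₀ : Fin (qU (n + 1) M) := ⟨0, hq⟩
  let N : Fin (qU (n + 1) M) → ℕ := fun l =>
    if l = i₀ then d - (qU (n + 1) M - 1) * (2 * M + 2) else 2 * M + 2
  have hC' : (qU (n + 1) M - 1) * (2 * M + 2) + (2 * M + 2) ≤ d := by
    refine le_trans (le_of_eq ?_) hC
    obtain ⟨k, hk⟩ := Nat.exists_eq_add_of_le' hq
    rw [hk, Nat.add_sub_cancel]
    ring
  have hN : ∑ l, N l = d := by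
    rw [← Finset.sum_erase_add univ N (mem_univ i₀)]
    have h1 : ∑ l ∈ univ.erase i₀, N l = (qU (n + 1) M - 1) * (2 * M + 2) := by
      rw [Finset.sum_congr rfl fun l hl => if_neg (Finset.ne_of_mem_erase hl),
        Finset.sum_const, Finset.card_erase_of_mem (mem_univ _), Finset.card_univ,
        Fintype.card_fin, smul_eq_mul]
    have h2 : N i₀ = d - (qU (n + 1) M - 1) * (2 * M + 2) := if_pos rfl
    rw [h1, h2]
    omega
  have hN' : ∀ l, 2 * M + 2 ≤ N l := by
    intro l
    by_cases h : l = i₀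
    · have h2 : N l = d - (qU (n + 1) M - 1) * (2 * M + 2) := if_pos h
      rw [h2]
      omega
    · have h2 : N l = 2 * M + 2 := if_neg h
      rw [h2]
  have H := sysV_num A M v hv hb hM d hd hbig hslow' N hN hN'
  have hT : 1 ≤ TU (n + 1) M := by
    unfold TU
    exact Nat.mul_pos (Nat.mul_pos (by omega) (by omega)) (pow_pos (by omega) 2)
  have h0 : A.h d ≠ 0 := by omega
  have hR : (sysU A v hv hb).R N = A.h d := by
    show (if A.h (∑ l, N l) = 0 then (1 : ℤ) else (A.h (∑ l, N l) : ℤ)) = A.h d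
    rw [hN, if_neg h0]
  have h1 := numV_exact (sysU A v hv hb) H G hG (by rw [hR]; exact_mod_cast hsum)
  have h2 : GMP (gU (n + 1) v) (A.W (∑ l, N l)) (G.map Kind.free) := h1
  rw [hN] at h2
  exact (Fk_iff (gU (n + 1) v) (A.W d) G).2 h2

end Pool.Agent.H18.Ub

end

section

/-!
# Module VFinal (UB): the theorem for general points
-/

namespace Pool.Agent.H18.Ub

open Finset Pool.Agent.H18.Ex Pool.Agent.H18.Cub Pool.Agent.H18.Pr Pool.Agent.H18.Ua Pool.Agent.H18.Fat

/-! ### Strict growth -/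

theorem PFam.strict {n : ℕ} (A : PFam n) (δ : ℕ) (h : 1 ≤ A.h δ) : A.h δ + 1 ≤ A.h (δ + 1) := by
  by_contra hcon
  have h1 := A.mono (Nat.le_succ δ)
  have h2 : A.W δ = A.W (δ + 1) := Submodule.eq_of_le_of_finrank_le h1 (by
    change A.h (δ + 1) ≤ A.h δ
    omega)
  obtain ⟨F, hF, hF0⟩ : ∃ F ∈ A.W δ, F ≠ 0 := by
    refine Submodule.exists_mem_ne_zero_of_ne_bot fun hb => ?_
    unfold PFam.h at h
    rw [hb, finrank_bot] at h
    omega
  have h3 : ∀ j : ℕ, MvPolynomial.X 0 ^ j * F ∈ A.W δ := by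
    intro j
    induction j with
    | zero => simpa using hF
    | succ j ih =>
      have h4 := A.mul δ 1 _ ih (MvPolynomial.X 0) (by rw [MvPolynomial.totalDegree_X])
      rw [h2, pow_succ', mul_assoc]
      exact h4
  have h4 := A.deg δ _ (h3 (δ + 1))
  rw [MvPolynomial.totalDegree_mul_of_isDomain
    (pow_ne_zero _ (MvPolynomial.X_ne_zero _)) hF0, MvPolynomial.totalDegree_X_pow] at h4
  omega

theorem fam_strict {n : ℕ} (A : Fam n) (δ : ℕ) (h : 1 ≤ A.h δ) : A.h δ + 1 ≤ A.h (δ + 1) :=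
  PFam.strict ⟨A.W, A.deg, A.mul⟩ δ h

theorem tau_strict {n : ℕ} (A : Fam (n + 1)) (δ : ℕ) (hδ : 1 ≤ δ) (h : A.h (δ - 1) + 1 ≤ A.h δ) :
    A.h δ + A.h δ + 1 ≤ A.h (δ + 1) + A.h (δ - 1) := by
  obtain ⟨v, hv, -⟩ := A.exists_good ∅
  have h1 := traceP_h A v hv δ hδ
  have h2 := traceP_h A v hv (δ + 1) (by omega)
  rw [Nat.add_sub_cancel] at h2
  have h3 := (traceP A v).strict δ (by omega)
  omega

theorem tau_grow {n : ℕ} (A : Fam (n + 1)) (δ : ℕ) (hδ : 1 ≤ δ) (h : A.h (δ - 1) + 1 ≤ A.h δ)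
    (j : ℕ) : A.h δ - A.h (δ - 1) + j ≤ A.h (δ + j) - A.h (δ + j - 1) := by
  induction j with
  | zero => exact le_rfl
  | succ j ih =>
    have h1 := tau_strict A (δ + j) (by omega) (by omega)
    have h2 : δ + (j + 1) - 1 = δ + j := by omega
    have h3 : δ + (j + 1) = δ + j + 1 := by omega
    rw [h2, h3]
    omega

/-- Spaces of dimension at most `1`. -/
theorem fk_of_le_one {n : ℕ} (W : Submodule ℂ (MvPolynomial (Fin (n + 1)) ℂ))
    [FiniteDimensional ℂ W] (h1 : Module.finrank ℂ W ≤ 1) (G : Multiset ℕ)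
    (hG : Module.finrank ℂ W ≤ (G.map (ell (n + 1))).sum) : Fk W G := by
  have g : Lines Empty (Fin (n + 1)) := ⟨Empty.elim, Empty.elim⟩
  rw [Fk_iff g]
  rcases Nat.eq_zero_or_pos (Module.finrank ℂ W) with h0 | h0
  · have h2 := gmp_simple g W 0 (by omega)
    exact GMP.mono (Multiset.zero_le _) h2
  · obtain ⟨m, hm, hm1⟩ : ∃ m ∈ G, 1 ≤ m := by
      by_contra hcon
      push Not at hcon
      have h2 : (G.map (ell (n + 1))).sum = 0 := by
        apply Multiset.sum_eq_zero
        intro x hx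
        obtain ⟨m, hm, rfl⟩ := Multiset.mem_map.1 hx
        have h3 := hcon m hm
        have h4 : m = 0 := by omega
        rw [h4]
        exact ell_zero (by omega)
      omega
    have h2 := gmp_simple g W 1 h1
    have h3 := GMP.free_mono ({m} : Multiset ℕ) (fun m' hm' => by
      rw [Multiset.mem_singleton] at hm'
      omega) (0 : Multiset (Kind Empty)) (by
        rw [add_zero]
        exact h2)
    refine GMP.mono ?_ h3
    rw [add_zero]
    exact Multiset.map_le_map (Multiset.singleton_le.2 hm)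

/-- Exactness if the dimensions of the hyperplane sections grow slowly. -/
theorem exactS {n : ℕ} {M : ℕ} (hM : 1 ≤ M) (A : Fam (n + 1)) (d E C : ℕ)
    (hE : EV (n + 1) M ≤ E) (hC : CU (n + 1) M ≤ C)
    (hslow : E * (A.h d - A.h (d - 1)) ≤
      E * (A.h (d - C) - A.h (d - C - 1)) + (A.h d - A.h (d - 1)))
    (G : Multiset ℕ) (hG : ∀ m ∈ G, m ≤ M)
    (hsum : A.h d ≤ (G.map (ell (n + 2))).sum) : Fk (A.W d) G := by
  have hell : 1 ≤ ell (n + 1) M := ell_pos (n + 1) hM
  have hEV : 16 ≤ EV (n + 1) M := by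
    unfold EV
    have h1 : 8 * 1 * 2 * 1 ≤ 8 * M * (M + 1) * ell (n + 1) M :=
      Nat.mul_le_mul (Nat.mul_le_mul (Nat.mul_le_mul_left _ hM) (by omega)) hell
    omega
  have hCU : 1 ≤ CU (n + 1) M := by
    unfold CU qU
    have h1 : 1 ≤ 4 * M * ell (n + 1) M := Nat.mul_pos (by omega) hell
    have h2 : 1 * 1 ≤ 11 * M * (2 * M ^ 2 * ell (n + 1 + 1) M + 4 * M * ell (n + 1) M) :=
      Nat.mul_le_mul (by omega) (by omega)
    omega
  by_cases h0 : A.h d - A.h (d - 1) = 0
  · have hle : A.h d ≤ 1 := by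
      rcases Nat.eq_zero_or_pos d with rfl | hd
      · exact A.h_zero_le
      · by_contra hcon
        have h1 : 1 ≤ A.h (d - 1) := by omega
        have h2 := fam_strict A (d - 1) h1
        rw [Nat.sub_add_cancel hd] at h2
        omega
    exact fk_of_le_one (A.W d) hle G hsum
  · -- `τ (d - C) ≥ 1`
    have h1 : 1 ≤ A.h (d - C) - A.h (d - C - 1) := by
      by_contra hcon
      have h2 : A.h (d - C) - A.h (d - C - 1) = 0 := by omega
      rw [h2, mul_zero, zero_add] at hslow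
      have h3 : 2 * (A.h d - A.h (d - 1)) ≤ E * (A.h d - A.h (d - 1)) :=
        Nat.mul_le_mul_right _ (by omega)
      omega
    have hdC : 1 ≤ d - C := by
      by_contra hcon
      have h2 : d - C = 0 := by omega
      rw [h2, Nat.zero_sub] at h1
      omega
    have h2 := tau_grow A (d - C) hdC (by omega) C
    have h3 : d - C + C = d := by omega
    rw [h3] at h2
    -- the section is large
    have h4 : E * C ≤ A.h d - A.h (d - 1) := by
      have h5 : E * (A.h (d - C) - A.h (d - C - 1) + C) ≤ E * (A.h d - A.h (d - 1)) :=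
        Nat.mul_le_mul_left _ h2
      rw [Nat.mul_add] at h5
      omega
    have h5 : TU (n + 1) M ≤ A.h d - A.h (d - 1) := by
      refine le_trans ?_ h4
      refine le_trans ?_ (Nat.mul_le_mul hE hC)
      unfold TU EV CU qU
      have h6 : ell (n + 1) M ≤ 11 * M * (2 * M ^ 2 * ell (n + 1 + 1) M + 4 * M * ell (n + 1) M) := by
        have h7 : 1 * (1 * ell (n + 1) M) ≤
            11 * M * (2 * M ^ 2 * ell (n + 1 + 1) M + 4 * M * ell (n + 1) M) :=
          Nat.mul_le_mul (by omega) (le_trans (Nat.mul_le_mul_right _ (by omega))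
            (Nat.le_add_left _ _))
        omega
      calc 8 * M * (M + 1) * ell (n + 1) M ^ 2 =
          8 * M * (M + 1) * ell (n + 1) M * ell (n + 1) M := by ring
        _ ≤ _ := Nat.mul_le_mul_left _ h6
    refine exactV hM A d (by omega) h5 ?_ G hG hsum
    -- slow growth
    have h6 := VSys_diff_mono A (show d - C ≤ d - CU (n + 1) M + 1 by omega)
    rw [Nat.add_sub_cancel] at h6
    have h7 := VSys_diff_mono A (show d - C ≤ d by omega)
    set t := A.h d - A.h (d - 1)
    set u := A.h (d - C) - A.h (d - C - 1)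
    set u' := A.h (d - CU (n + 1) M + 1) - A.h (d - CU (n + 1) M)
    obtain ⟨s, hs⟩ := Nat.exists_eq_add_of_le h7
    have h8 : E * s ≤ t := by
      have h9 : E * (u + s) ≤ E * u + t := by
        rw [← hs]
        exact hslow
      rw [Nat.mul_add] at h9
      omega
    have h9 : EV (n + 1) M * s ≤ t := (Nat.mul_le_mul_right _ hE).trans h8
    refine le_trans ?_ (Nat.mul_le_mul_left _ h6)
    obtain ⟨e, he⟩ : ∃ e, EV (n + 1) M = e + 1 := ⟨EV (n + 1) M - 1, by omega⟩
    rw [he] at h9 ⊢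
    rw [Nat.add_sub_cancel]
    have h10 : (e + 1) * (u + s) ≤ (e + 1) * u + t := by
      rw [Nat.mul_add]
      omega
    rw [← hs] at h10
    have h11 : (e + 1) * t = e * t + t := by ring
    omega

end Pool.Agent.H18.Ub

end

section

/-!
# Module VGen (UB): general points
-/

namespace Pool.Agent.H18.Ub

open Finset Pool.Agent.H18.Ex Pool.Agent.H18.Cub Pool.Agent.H18.Pr Pool.Agent.H18.Ua Pool.Agent.H18.Fat

/-- The general dimension is determined by the large part if the dimensions of its hyperplane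
sections grow slowly. -/
theorem general_dim (r : ℕ) (hr : 2 ≤ r) (M : ℕ) (hM : 1 ≤ M) (k d : ℕ) (m : Fin k → ℕ)
    (J : Finset (Fin k)) (hJ : ∀ i, i ∉ J → m i ≤ M) (h : ℕ → ℕ)
    (hh : ∀ j ≤ d, ForGeneralPoints r k fun p =>
      Module.finrank ℂ (fatForms r j p fun i => if i ∈ J then m i else 0) = h j)
    (E C : ℕ) (hE : 16 * M ^ 2 * (M + r - 1).choose r ≤ E)
    (hC : 66 * M ^ 3 * (M + r - 1).choose r ≤ C)
    (hslow : E * (h d - h (d - 1)) ≤ E * (h (d - C) - h (d - C - 1)) + (h d - h (d - 1))) :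
    ForGeneralPoints r k fun p => (Module.finrank ℂ (fatForms r d p m) : ℤ) =
      max 0 ((h d : ℤ) - ∑ i ∈ univ.filter (fun i => i ∉ J), ((m i + r - 1).choose r : ℤ)) := by
  classical
  obtain ⟨n, rfl⟩ : ∃ n, r = n + 2 := ⟨r - 2, by omega⟩
  have hgen := (general_all (range (d + 1)) fun j hj => hh j (by
    have := mem_range.1 hj
    omega)).and (general_ne_zero (n + 2) k)
  obtain ⟨p, hp, hp0⟩ := exists_of_general hgen
  set P : Fin k → Fin (n + 1 + 1) → ℂ := fun i j => p i j.succ / p i 0 with hP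
  set A := fatFam P fun i => if i ∈ J then m i else 0 with hA
  have hAh : ∀ j ≤ d, A.h j = h j := by
    intro j hj
    rw [hA, fatFam_h, ← hp j (mem_range.2 (by omega))]
    exact finrank_normalise p hp0 _
  obtain ⟨hc1, hc2⟩ := consts_le n hM
  have hex : ∀ G : Multiset ℕ, (∀ μ ∈ G, μ ≤ M) → A.h d ≤ (G.map (ell (n + 1 + 1))).sum →
      Fk (A.W d) G := by
    intro G hG hsum
    refine exactS hM A d E C (hc1.trans hE) (hc2.trans hC) ?_ G hG hsum
    rw [hAh d le_rfl, hAh _ (by omega), hAh _ (by omega), hAh _ (by omega)]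
    exact hslow
  set X : ℤ := (h d : ℤ) -
    ∑ i ∈ univ.filter (fun i => i ∉ J), ((m i + (n + 2) - 1).choose (n + 2) : ℤ) with hX
  obtain ⟨v, hv⟩ : ∃ v : ℕ, (v : ℤ) = max 0 X :=
    ⟨(max 0 X).toNat, Int.toNat_of_nonneg (le_max_left _ _)⟩
  obtain ⟨p₀, hp₀1, hp₀2⟩ := general_of_exactV P m J hM hJ d hex v (by
    rw [← hA, hAh d le_rfl, hv]
    have h1 := le_max_right 0 X
    rw [hX] at h1
    rw [hX]
    change (h d : ℤ) ≤ max 0 ((h d : ℤ) -
      ∑ i ∈ univ.filter (fun i => i ∉ J), ((m i + (n + 2) - 1).choose (n + 2) : ℤ)) +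
      ∑ i ∈ univ.filter (fun i => i ∉ J), ((m i + (n + 2) - 1).choose (n + 2) : ℤ)
    omega)
  refine (((general_finrank_le d p₀ m).and (hh d le_rfl)).and (general_ne_zero (n + 2) k)).mono
    fun q hq => ?_
  obtain ⟨⟨hq1, hq2⟩, hq3⟩ := hq
  have h6 := finrank_ge_add (d := d) (by omega : 1 ≤ n + 2) hq3 m J
  rw [hq2] at h6
  rw [← hv]
  have h7 : (v : ℤ) ≤ Module.finrank ℂ (fatForms (n + 2) d q m) := by
    rw [hv]
    exact max_le (Int.natCast_nonneg _) h6
  have h8 : Module.finrank ℂ (fatForms (n + 2) d q m) ≤ v := hq1.trans hp₀2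
  omega

end Pool.Agent.H18.Ub

end
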