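import Pool.Agent.H94.LP3.M31
import Pool.Agent.H94.LP3.M34
import Pool.Agent.H94.LP3.M49

/-! The parts of this file: H74.KV.Sw, H74.KV.Xu3. -/

section

/-!
# Irreducible curves through nine or more general points: the ratio of the squares
-/

namespace Pool.Agent.H74.KV

open Finset MvPolynomial Pool.Agent.H18.Fat Pool.Agent.H18.Ub Pool.Agent.H22.LU Pool.Agent.H74.CT Pool.Agent.H74.BP Pool.Agent.H18.Nef

variable {n : ℕ}

/-- Two points are exchanged. -/
theorem swap_sq {D e : ℕ} {p : Fin n → Fin (2 + 1) → ℂ} (hp : Good n D p) (he : e ≤ D)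
    {A : MvPolynomial (Fin (2 + 1)) ℂ} (hA : Irreducible A) (hAe : A.IsHomogeneous e)
    (κ : Fin n → ℕ)
    (hκ : ∀ j, VanishesToOrder A (p j) (κ j) ∧ ¬ VanishesToOrder A (p j) (κ j + 1))
    {i l : Fin n} (hil : κ l < κ i) : ∑ j, κ j ^ 2 ≤ e ^ 2 + (κ i - κ l) ^ 2 := by
  classical
  have hA0 := hA.ne_zero
  have hne : i ≠ l := by
    rintro rfl
    omega
  have hle : ∀ j, κ j ≤ e := by
    intro j
    by_contra hcon
    push Not at hcon
    exact hA0 (eq_zero_of_vanishes A hAe (p j) hcon (hκ j).1)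
  set κ' : Fin n → ℕ := fun j => κ (Equiv.swap i l j) with hκ'
  have h1 : 1 ≤ generalDim 2 e κ := eff_of_mem hp he hA0 hAe κ fun j => (hκ j).1
  have h2 : generalDim 2 e κ' = generalDim 2 e κ :=
    generalDim_comp (fun j => Equiv.swap i l j) (Equiv.swap i l).injective κ
      fun j hj => absurd ⟨Equiv.swap i l j, by simp⟩ hj
  have h3 : 1 ≤ Module.finrank ℂ (fatForms 2 e p κ') := by
    rw [hp.dim e he κ' fun j => (hle _).trans he, h2]
    exact h1
  obtain ⟨G, hG, hG0⟩ : ∃ G ∈ fatForms 2 e p κ', G ≠ 0 := by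
    by_contra hcon
    push Not at hcon
    have h4 : fatForms 2 e p κ' = ⊥ := by
      rw [eq_bot_iff]
      intro F hF
      rw [Submodule.mem_bot]
      exact hcon F hF
    rw [h4, finrank_bot] at h3
    omega
  have hκ'i : κ' i = κ l := by
    rw [hκ']
    simp
  have hκ'l : κ' l = κ i := by
    rw [hκ']
    simp
  -- `A` does not divide `G`
  have hdvd : ¬ A ∣ G := by
    rintro ⟨B, rfl⟩
    have hB0 : B ≠ 0 := by
      rintro rfl
      exact hG0 (mul_zero A)
    obtain ⟨a, b, ha, hb, hab⟩ := hom_of_mul hG.1 hA0 hB0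
    have hae : a = e := (ha.inj_right hAe hA0)
    have hb0 : b = 0 := by omega
    subst hb0
    have h4 := totalDegree_eq_zero_iff_eq_C.1 (hb.totalDegree hB0)
    have hc : coeff 0 B ≠ 0 := by
      intro h
      rw [h, map_zero] at h4
      exact hB0 h4
    apply (hκ l).2
    intro β hβ
    have h5 := hG.2 l β (by
      rw [hκ'l]
      omega)
    rw [h4] at h5
    have h6 : shift (p l) (A * C (coeff 0 B)) = shift (p l) A * C (coeff 0 B) := by
      unfold shift
      rw [map_mul, aeval_C, algebraMap_eq]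
    rw [h6, mul_comm, coeff_C_mul] at h5
    exact (mul_eq_zero.1 h5).resolve_left hc
  have h4 := bezout p hp.ne hp.sep hA hAe hG.1 hdvd κ κ' (fun j => (hκ j).1) fun j => hG.2 j
  have hl : l ∈ univ.erase i := mem_erase.2 ⟨hne.symm, mem_univ l⟩
  have h5 : ∀ f : Fin n → ℕ, ∑ j, f j = f i + (f l + ∑ j ∈ (univ.erase i).erase l, f j) := by
    intro f
    rw [add_sum_erase _ f hl, add_sum_erase _ f (mem_univ i)]
  rw [h5] at h4
  rw [h5]
  have h6 : ∑ j ∈ (univ.erase i).erase l, κ j * κ' j = ∑ j ∈ (univ.erase i).erase l, κ j ^ 2 := by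
    refine sum_congr rfl fun j hj => ?_
    have hjl := ne_of_mem_erase hj
    have hji := ne_of_mem_erase (mem_of_mem_erase hj)
    have h7 : κ' j = κ j := by
      rw [hκ']
      dsimp only
      rw [Equiv.swap_apply_of_ne_of_ne hji hjl]
    rw [h7, sq]
  rw [h6, hκ'i, hκ'l] at h4
  obtain ⟨c, hc⟩ : ∃ c, κ i = κ l + c := ⟨κ i - κ l, by omega⟩
  rw [hc] at h4 ⊢
  rw [Nat.add_sub_cancel_left]
  nlinarith only [h4]

/-- Points on a grid. -/
theorem grid_ub {s d : ℕ} (hs : 0 < s) (κ : Fin n → ℕ) (B : Finset (Fin n))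
    (ψ : {i // i ∈ B} ↪ (Fin 2 → Fin s))
    (hψ : ∀ i, κ i.1 ≤ perf d (ψ i)) :
    generalDim 2 d κ + ∑ i ∈ B, (κ i + 1).choose 2 ≤ (d + 2).choose 2 := by
  classical
  have hζ := Complex.isPrimitiveRoot_exp s (by omega)
  set ζ := Complex.exp (2 * Real.pi * Complex.I / (s : ℂ)) with hζdef
  have h1 := surjective_of_sub (grid_surjective (r := 2) d (by norm_num) hs hζ) ψ ψ.injective
    (fun i : {i // i ∈ B} => κ i.1) hψ
  have h2 := finrank_of_surjective (by norm_num) (fun i => gridPt_ne ζ (ψ i)) h1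
  set p : Fin n → Fin (2 + 1) → ℂ := fun i => if h : i ∈ B then gridPt ζ (ψ ⟨i, h⟩) else 0 with hp
  have h3 : generalDim 2 d κ ≤ Module.finrank ℂ (fatForms 2 d p κ) := Nat.sInf_le ⟨p, rfl⟩
  have h4 : Module.finrank ℂ (fatForms 2 d p κ) ≤
      Module.finrank ℂ (fatForms 2 d (fun i : {i // i ∈ B} => gridPt ζ (ψ i)) fun i => κ i.1) := by
    refine Submodule.finrank_mono fun F hF => ⟨hF.1, fun l => ?_⟩
    have h5 := hF.2 l.1
    have h6 : p l.1 = gridPt ζ (ψ l) := by
      rw [hp]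
      dsimp only
      rw [dif_pos l.2]
    rw [h6] at h5
    exact h5
  have h5 : ∑ i : {i // i ∈ B}, (κ i.1 + 2 - 1).choose 2 = ∑ i ∈ B, (κ i + 1).choose 2 :=
    Finset.sum_coe_sort B fun i => (κ i + 1).choose 2
  omega

/-- The simple points impose one condition each. -/
theorem drop_simple {r e : ℕ} (κ : Fin n → ℕ) (h : 1 ≤ generalDim r e κ) :
    (univ.filter fun i => κ i = 1).card + generalDim r e κ ≤
      generalDim r e fun i => if 2 ≤ κ i then κ i else 0 := by
  classical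
  have key : ∀ S : Finset (Fin n), (∀ i ∈ S, κ i = 1) →
      S.card + generalDim r e κ ≤ generalDim r e fun i => if i ∈ S then 0 else κ i := by
    intro S
    induction S using Finset.induction_on with
    | empty =>
      intro _
      simp
    | insert P S hP ih =>
      intro hS
      have h1 := ih fun i hi => hS i (mem_insert_of_mem hi)
      have h2 := simple_lt (r := r) (e := e) (fun i => if i ∈ insert P S then 0 else κ i) P
        (if_pos (mem_insert_self P S)) (h.trans (generalDim_anti fun i => by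
          split_ifs
          · exact Nat.zero_le _
          · exact le_rfl))
      have h3 : Function.update (fun i => if i ∈ insert P S then 0 else κ i) P 1 =
          fun i => if i ∈ S then 0 else κ i := by
        funext i
        by_cases hi : i = P
        · rw [hi, Function.update_self, if_neg hP, hS P (mem_insert_self P S)]
        · rw [Function.update_of_ne hi]
          by_cases h4 : i ∈ S
          · rw [if_pos h4, if_pos (mem_insert_of_mem h4)]
          · rw [if_neg h4, if_neg (fun h' => h4 ((mem_insert.1 h').resolve_left hi))]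
      rw [h3] at h2
      rw [card_insert_of_notMem hP]
      omega
  have h1 := key (univ.filter fun i => κ i = 1) fun i hi => (mem_filter.1 hi).2
  have h2 : (fun i => if i ∈ univ.filter (fun i => κ i = 1) then 0 else κ i) =
      fun i => if 2 ≤ κ i then κ i else 0 := by
    funext i
    by_cases h3 : κ i = 1
    · rw [if_pos (mem_filter.2 ⟨mem_univ i, h3⟩), if_neg (by omega)]
    · have h4 : i ∉ univ.filter fun i => κ i = 1 := fun h => h3 (mem_filter.1 h).2
      rw [if_neg h4]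
      split_ifs
      · rfl
      · omega
  rw [h2] at h1
  exact h1

theorem emb_of_card {s d t b : ℕ} (B : Finset (Fin n)) (hB : B.card ≤ b)
    (hb : b ≤ (univ.filter fun x : Fin 2 → Fin s => t ≤ perf d x).card) :
    ∃ ψ : {i // i ∈ B} ↪ (Fin 2 → Fin s), ∀ i, t ≤ perf d (ψ i) := by
  classical
  obtain ⟨ψ⟩ : Nonempty ({i // i ∈ B} ↪
      {x : Fin 2 → Fin s // x ∈ univ.filter fun x : Fin 2 → Fin s => t ≤ perf d x}) := by
    apply Function.Embedding.nonempty_of_card_le
    rw [Fintype.card_coe, Fintype.card_coe]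
    omega
  exact ⟨ψ.trans (Function.Embedding.subtype _), fun i => (mem_filter.1 (ψ i).2).2⟩

/-- Small curves. -/
theorem small_curve {e : ℕ} {κ : Fin n → ℕ} (he : e ≤ 5) (hX : ∑ i, κ i ^ 2 = e ^ 2 + 1)
    (hs : 3 * e + 1 ≤ ∑ i, κ i) : generalDim 2 e κ = 0 := by
  classical
  by_contra hcon
  have h1 : 1 ≤ generalDim 2 e κ := by omega
  set B : Finset (Fin n) := univ.filter fun i => 2 ≤ κ i with hB
  have hdrop := drop_simple κ h1
  set S := (univ : Finset (Fin n)).filter fun i => κ i = 1 with hS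
  -- the sum of `κ (κ - 1)`
  have hpair : ∀ i, κ i * (κ i - 1) + κ i = κ i ^ 2 := by
    intro i
    rcases Nat.eq_zero_or_pos (κ i) with h | h
    · rw [h]
      rfl
    · obtain ⟨c, hc⟩ : ∃ c, κ i = c + 1 := ⟨κ i - 1, by omega⟩
      rw [hc, Nat.add_sub_cancel]
      ring
  have hsum : ∑ i, κ i * (κ i - 1) + ∑ i, κ i = ∑ i, κ i ^ 2 := by
    rw [← sum_add_distrib]
    exact sum_congr rfl fun i _ => hpair i
  have hBsum : ∑ i ∈ B, κ i * (κ i - 1) ≤ ∑ i, κ i * (κ i - 1) :=
    sum_le_sum_of_subset (subset_univ B)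
  have hBcard : 2 * B.card ≤ ∑ i ∈ B, κ i * (κ i - 1) := by
    have h2 : ∑ _i ∈ B, 2 ≤ ∑ i ∈ B, κ i * (κ i - 1) := sum_le_sum fun i hi => by
      have h3 := (mem_filter.1 hi).2
      have h4 : 2 * 1 ≤ κ i * (κ i - 1) := Nat.mul_le_mul h3 (by omega)
      omega
    rw [sum_const, smul_eq_mul, Nat.mul_comm] at h2
    exact h2
  have hthree : ∀ u ∈ B, 3 ≤ κ u → 2 * B.card + 4 ≤ ∑ i ∈ B, κ i * (κ i - 1) := by
    intro u hu hu3
    have h2 : ∑ _i ∈ B.erase u, 2 ≤ ∑ i ∈ B.erase u, κ i * (κ i - 1) := sum_le_sum fun i hi => by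
      have h3 := (mem_filter.1 (mem_of_mem_erase hi)).2
      have h4 : 2 * 1 ≤ κ i * (κ i - 1) := Nat.mul_le_mul h3 (by omega)
      omega
    rw [sum_const, smul_eq_mul, card_erase_of_mem hu] at h2
    have h3 := add_sum_erase B (fun i => κ i * (κ i - 1)) hu
    have h4 : 3 * 2 ≤ κ u * (κ u - 1) := Nat.mul_le_mul hu3 (by omega)
    have h5 : 1 ≤ B.card := card_pos.2 ⟨u, hu⟩
    have h6 : (B.card - 1) * 2 = 2 * B.card - 2 := by omega
    omega
  have hfour : ∀ u ∈ B, 4 ≤ κ u → 12 ≤ ∑ i ∈ B, κ i * (κ i - 1) := by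
    intro u hu hu4
    have h3 := single_le_sum (f := fun i => κ i * (κ i - 1)) (fun _ _ => Nat.zero_le _) hu
    have h4 : 4 * 3 ≤ κ u * (κ u - 1) := Nat.mul_le_mul hu4 (by omega)
    omega
  -- the number of all conditions
  have hlen : 2 * (S.card + ∑ i ∈ B, (κ i + 1).choose 2) = ∑ i, κ i ^ 2 + ∑ i, κ i := by
    have h2 : ∀ x : ℕ, 2 * (x + 1).choose 2 = x ^ 2 + x := by
      intro x
      rw [Nat.choose_two_right, Nat.add_sub_cancel, Nat.mul_div_cancel' (by
        have := Nat.even_mul_succ_self x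
        rw [Nat.mul_comm]
        exact even_iff_two_dvd.1 this)]
      ring
    have h3 : ∑ i, κ i ^ 2 + ∑ i, κ i = ∑ i, (κ i ^ 2 + κ i) := (sum_add_distrib).symm
    rw [h3, ← sum_filter_add_sum_filter_not univ (fun i => 2 ≤ κ i), ← hB]
    have h4 : ∑ i ∈ B, (κ i ^ 2 + κ i) = 2 * ∑ i ∈ B, (κ i + 1).choose 2 := by
      rw [mul_sum]
      exact sum_congr rfl fun i _ => (h2 _).symm
    have h5 : ∑ i ∈ univ.filter (fun i => ¬ 2 ≤ κ i), (κ i ^ 2 + κ i) = 2 * S.card := by
      have h6 : S ⊆ univ.filter fun i => ¬ 2 ≤ κ i := fun i hi => by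
        rw [hS, mem_filter] at hi
        exact mem_filter.2 ⟨mem_univ i, by omega⟩
      rw [← sum_subset h6]
      · rw [sum_congr rfl (g := fun _ => 2) fun i hi => by rw [(mem_filter.1 hi).2]; rfl, sum_const,
          smul_eq_mul, Nat.mul_comm]
      · intro i hi hi'
        have h7 := (mem_filter.1 hi).2
        have h8 : κ i = 0 := by
          by_contra h
          exact hi' (mem_filter.2 ⟨mem_univ i, by omega⟩)
        rw [h8]
        rfl
    rw [h4, h5]
    ring
  have hsumB : ∑ i ∈ B, ((if 2 ≤ κ i then κ i else 0) + 1).choose 2 =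
      ∑ i ∈ B, (κ i + 1).choose 2 := sum_congr rfl fun i hi => by rw [if_pos (mem_filter.1 hi).2]
  -- the bound for the big points
  have hub : generalDim 2 e (fun i => if 2 ≤ κ i then κ i else 0) +
      ∑ i ∈ B, (κ i + 1).choose 2 ≤ (e + 2).choose 2 := by
    rw [← hsumB]
    have hval : ∀ i ∈ B, (if 2 ≤ κ i then κ i else 0) = κ i := fun i hi =>
      if_pos (mem_filter.1 hi).2
    have hcase : e = 3 ∨ e = 4 ∨ e = 5 := by
      rcases Nat.eq_zero_or_pos e with h0 | h0
      · exfalso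
        subst h0
        have h3 : ∑ i, κ i = 0 := sum_eq_zero fun i _ =>
          Nat.le_zero.1 (le_of_effective κ h1 i)
        omega
      · interval_cases e <;> omega
    rcases hcase with rfl | rfl | rfl
    · have hB0 : B.card ≤ 0 := by omega
      obtain ⟨ψ, hψ⟩ := emb_of_card (s := 1) (d := 3) (t := 0) (b := 0) B hB0 (Nat.zero_le _)
      refine grid_ub (by norm_num) _ B ψ fun i => ?_
      exfalso
      have := card_pos.2 ⟨i.1, i.2⟩
      omega
    · have hB2 : B.card ≤ 2 := by omega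
      obtain ⟨ψ, hψ⟩ := emb_of_card (s := 2) (d := 4) (t := 2) (b := 2) B hB2 (by decide)
      refine grid_ub (by norm_num) _ B ψ fun i => ?_
      rw [hval i.1 i.2]
      refine le_trans ?_ (hψ i)
      by_contra h
      have := hthree i.1 i.2 (by omega)
      have := card_pos.2 ⟨i.1, i.2⟩
      omega
    · by_cases h3 : ∃ u ∈ B, 3 ≤ κ u
      · obtain ⟨u, hu, hu3⟩ := h3
        have h4 := hthree u hu hu3
        have hB3 : B.card ≤ 3 := by omega
        obtain ⟨ψ, hψ⟩ := emb_of_card (s := 2) (d := 5) (t := 3) (b := 3) B hB3 (by decide)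
        refine grid_ub (by norm_num) _ B ψ fun i => ?_
        rw [hval i.1 i.2]
        refine le_trans ?_ (hψ i)
        by_contra h
        have := hfour i.1 i.2 (by omega)
        omega
      · push Not at h3
        have hB5 : B.card ≤ 5 := by omega
        obtain ⟨ψ, hψ⟩ := emb_of_card (s := 3) (d := 5) (t := 2) (b := 5) B hB5 (by decide)
        refine grid_ub (by norm_num) _ B ψ fun i => ?_
        rw [hval i.1 i.2]
        refine le_trans ?_ (hψ i)
        have := h3 i.1 i.2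
        omega
  have h2 : 2 * (e + 2).choose 2 = e ^ 2 + 3 * e + 2 := by
    interval_cases e <;> rfl
  omega

end Pool.Agent.H74.KV

end

section

/-!
# Nefness and emptiness in standard form: 36 / 37
-/

namespace Pool.Agent.H74.KV

open Finset MvPolynomial Pool.Agent.H18.Fat Pool.Agent.H18.Ub Pool.Agent.H22.LU Pool.Agent.H74.CT Pool.Agent.H74.BP Pool.Agent.H18.Nef

variable {n : ℕ}

theorem sq_mod_four (x : ℕ) (h : x % 2 = 1) : x ^ 2 % 4 = 1 := by
  obtain ⟨c, hc⟩ : ∃ c, x = 2 * c + 1 := ⟨x / 2, by omega⟩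
  rw [hc]
  have : (2 * c + 1) ^ 2 = 4 * (c ^ 2 + c) + 1 := by ring
  omega

/-- The squares of the multiplicities of a curve through nine or more general points. -/
theorem ratio {D e : ℕ} {p : Fin n → Fin (2 + 1) → ℂ} (hp : Good n D p) (he : e ≤ D)
    {A : MvPolynomial (Fin (2 + 1)) ℂ} (hA : Irreducible A) (hAe : A.IsHomogeneous e)
    (κ : Fin n → ℕ)
    (hκ : ∀ j, VanishesToOrder A (p j) (κ j) ∧ ¬ VanishesToOrder A (p j) (κ j + 1))
    (hT9 : 9 ≤ (univ.filter fun i => 1 ≤ κ i).card) (hor : 3 * e ≤ ∑ i, κ i ∨ 12 ≤ e) :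
    36 * ∑ i, κ i ^ 2 ≤ 37 * e ^ 2 := by
  classical
  set T := univ.filter fun i => 1 ≤ κ i with hT
  have hTsum : ∀ f : ℕ → ℕ, f 0 = 0 → ∑ i ∈ T, f (κ i) = ∑ i, f (κ i) := by
    intro f hf
    refine sum_subset (subset_univ T) fun i _ hi => ?_
    have h1 : κ i = 0 := by
      by_contra h
      exact hi (mem_filter.2 ⟨mem_univ i, by omega⟩)
    rw [h1, hf]
  have hX := hTsum (fun x => x ^ 2) rfl
  have hY := hTsum (fun x => x) rfl
  have hTne : T.Nonempty := card_pos.1 (by omega)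
  obtain ⟨i₀, hi₀, hmin⟩ := exists_min_image T κ hTne
  have hq1 : 1 ≤ κ i₀ := (mem_filter.1 hi₀).2
  have hxu := xu hp he hA hAe κ hκ hq1
  have heff : 1 ≤ generalDim 2 e κ := eff_of_mem hp he hA.ne_zero hAe κ fun j => (hκ j).1
  have hswap : ∀ i l, κ l < κ i → ∑ j, κ j ^ 2 ≤ e ^ 2 + (κ i - κ l) ^ 2 := fun i l h =>
    swap_sq hp he hA hAe κ hκ h
  set X := ∑ i, κ i ^ 2 with hXdef
  set Y := ∑ i, κ i with hYdef
  set N := T.card with hN
  have hlow : N * κ i₀ ^ 2 ≤ X := by
    rw [← hX]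
    have h1 : ∑ _j ∈ T, κ i₀ ^ 2 ≤ ∑ j ∈ T, κ j ^ 2 :=
      sum_le_sum fun j hj => Nat.pow_le_pow_left (hmin j hj) 2
    rw [sum_const, smul_eq_mul] at h1
    exact h1
  have hlowY : N * κ i₀ ≤ Y := by
    rw [← hY]
    have h1 : ∑ _j ∈ T, κ i₀ ≤ ∑ j ∈ T, κ j := sum_le_sum fun j hj => hmin j hj
    rw [sum_const, smul_eq_mul] at h1
    exact h1
  -- parity
  have hpar : X % 2 = Y % 2 := by
    have h1 : X = ∑ i, κ i * (κ i - 1) + Y := by
      rw [hXdef, hYdef, ← sum_add_distrib]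
      refine sum_congr rfl fun i _ => ?_
      rcases Nat.eq_zero_or_pos (κ i) with h | h
      · rw [h]
        rfl
      · obtain ⟨c, hc⟩ : ∃ c, κ i = c + 1 := ⟨κ i - 1, by omega⟩
        rw [hc, Nat.add_sub_cancel]
        ring
    have h2 : 2 ∣ ∑ i, κ i * (κ i - 1) := dvd_sum fun i _ => by
      rcases Nat.eq_zero_or_pos (κ i) with h | h
      · rw [h]
        exact ⟨0, rfl⟩
      · obtain ⟨c, hc⟩ : ∃ c, κ i = c + 1 := ⟨κ i - 1, by omega⟩
        rw [hc, Nat.add_sub_cancel, Nat.mul_comm]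
        exact even_iff_two_dvd.1 (Nat.even_mul_succ_self c)
    omega
  -- one or two large terms
  have hone : ∀ u ∈ T, ∀ a b : ℕ, a ≤ κ u ^ 2 → (∀ i ∈ T, b ≤ κ i ^ 2) →
      a + (N - 1) * b ≤ X := by
    intro u hu a b ha hb
    rw [← hX, ← add_sum_erase T (fun i => κ i ^ 2) hu]
    have h1 : ∑ _j ∈ T.erase u, b ≤ ∑ j ∈ T.erase u, κ j ^ 2 :=
      sum_le_sum fun j hj => hb j (mem_of_mem_erase hj)
    rw [sum_const, smul_eq_mul, card_erase_of_mem hu, ← hN] at h1
    omega
  have htwo : ∀ u ∈ T, ∀ v ∈ T, v ≠ u → ∀ a a' b : ℕ, a ≤ κ u ^ 2 → a' ≤ κ v ^ 2 →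
      (∀ i ∈ T, b ≤ κ i ^ 2) → a + a' + (N - 2) * b ≤ X := by
    intro u hu v hv hvu a a' b ha ha' hb
    have hv' : v ∈ T.erase u := mem_erase.2 ⟨hvu, hv⟩
    rw [← hX, ← add_sum_erase T (fun i => κ i ^ 2) hu,
      ← add_sum_erase (T.erase u) (fun i => κ i ^ 2) hv']
    have h1 : ∑ _j ∈ (T.erase u).erase v, b ≤ ∑ j ∈ (T.erase u).erase v, κ j ^ 2 :=
      sum_le_sum fun j hj => hb j (mem_of_mem_erase (mem_of_mem_erase hj))
    rw [sum_const, smul_eq_mul, card_erase_of_mem hv', card_erase_of_mem hu, ← hN] at h1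
    have h2 : N - 1 - 1 = N - 2 := by omega
    rw [h2] at h1
    omega
  by_contra hcon
  push Not at hcon
  -- small numbers
  have hq4 : κ i₀ ≤ 4 := by
    by_contra h
    have h1 : 9 * κ i₀ ^ 2 ≤ N * κ i₀ ^ 2 := Nat.mul_le_mul_right _ hT9
    nlinarith only [hxu, hlow, h, h1, hq1, hcon]
  have he11 : e ≤ 11 := by
    by_contra h
    have h1 : 12 ^ 2 ≤ e ^ 2 := Nat.pow_le_pow_left (by omega) 2
    omega
  have hY3 : 3 * e ≤ Y := by
    rcases hor with h | h
    · exact h
    · omega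
  have hle : ∀ a b : ℕ, a ≤ b → a ^ 2 ≤ b ^ 2 := fun a b h => Nat.pow_le_pow_left h 2
  set q := κ i₀ with hq
  have hmin2 : ∀ i ∈ T, q ^ 2 ≤ κ i ^ 2 := fun i hi => hle _ _ (hmin i hi)
  rcases Nat.lt_or_ge N 10 with h9 | h10
  · -- nine points
    have hN9 : N = 9 := by omega
    have h1 := nine heff T (by omega)
    rw [hY] at h1
    have hYe : Y = 3 * e := by omega
    have hqe : 3 * q ≤ e := by
      rw [hN9] at hlowY
      omega
    have hXe : ∃ c, X = e ^ 2 + 2 * c ∧ 1 ≤ c := by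
      have h2 : e ^ 2 % 2 = e % 2 := by
        have : e ^ 2 = e * (e - 1) + e := by
          rcases Nat.eq_zero_or_pos e with h | h
          · rw [h]; rfl
          · obtain ⟨c, hc⟩ : ∃ c, e = c + 1 := ⟨e - 1, by omega⟩
            rw [hc, Nat.add_sub_cancel]
            ring
        have h3 : 2 ∣ e * (e - 1) := by
          rcases Nat.eq_zero_or_pos e with h | h
          · rw [h]; exact ⟨0, rfl⟩
          · obtain ⟨c, hc⟩ : ∃ c, e = c + 1 := ⟨e - 1, by omega⟩
            rw [hc, Nat.add_sub_cancel, Nat.mul_comm]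
            exact even_iff_two_dvd.1 (Nat.even_mul_succ_self c)
        omega
      refine ⟨(X - e ^ 2) / 2, by omega, by omega⟩
    obtain ⟨c, hc, hc1⟩ := hXe
    have hq2 : 2 ≤ q := by omega
    have hqle : q ≤ 3 := by omega
    have hc1' : c = 1 := by omega
    subst hc1'
    -- `e ≤ 8`
    have he8 : e ≤ 8 := by
      by_contra h
      have := hle 9 e (by omega)
      omega
    have hqeq : q = 2 := by omega
    -- the differences
    have hdiff : ∀ i ∈ T, κ i = 2 ∨ 4 ≤ κ i := by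
      intro i hi
      have h2 := hmin i hi
      rcases Nat.lt_or_ge q (κ i) with h3 | h3
      · right
        have h4 := hswap i i₀ (by omega)
        by_contra h5
        have h6 : κ i - κ i₀ = 1 := by omega
        rw [h6] at h4
        omega
      · left
        omega
    have h2 : ∑ i ∈ T, 6 * κ i ≤ ∑ i ∈ T, (κ i ^ 2 + 8) := sum_le_sum fun i hi => by
      rcases hdiff i hi with h3 | h3
      · rw [h3]
        norm_num
      · nlinarith only [h3]
    rw [← mul_sum, hY, sum_add_distrib, hX, sum_const, smul_eq_mul, ← hN, hN9] at h2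
    have he6 : e = 6 := by
      have : 6 ≤ e := by omega
      interval_cases e <;> omega
    subst he6
    -- all multiplicities are two
    have h3 : ∀ i ∈ T, κ i = 2 := by
      intro i hi
      by_contra hne
      have h4 : ∑ _j ∈ T, 2 < ∑ j ∈ T, κ j :=
        sum_lt_sum (fun l hl => by
          have := hmin l hl
          omega) ⟨i, hi, by
            have := hmin i hi
            omega⟩
      rw [sum_const, smul_eq_mul, ← hN, hN9, hY] at h4
      omega
    have h4 : ∑ i ∈ T, κ i ^ 2 = ∑ _i ∈ T, 4 := sum_congr rfl fun i hi => by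
      rw [h3 i hi]
      rfl
    rw [sum_const, smul_eq_mul, ← hN, hN9, hX] at h4
    omega
  · -- ten or more points
    have h10X : 10 * q ^ 2 ≤ X := (Nat.mul_le_mul_right _ h10).trans hlow
    interval_cases hqq : q
    · -- a simple point
      have he5 : e ≤ 5 := by
        by_contra h
        have := hle 6 e (by omega)
        omega
      have hXe : X = e ^ 2 + 1 := by omega
      have hYe : 3 * e + 1 ≤ Y := by
        by_contra h
        have h1 : Y = 3 * e := by omega
        interval_cases e <;> omega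
      have := small_curve he5 hXe hYe
      omega
    · -- double points
      have he7 : 7 ≤ e := by
        by_contra h
        have := hle e 6 (by omega)
        omega
      have he8 : e ≤ 8 := by
        by_contra h
        have := hle 9 e (by omega)
        omega
      have hdiff : ∀ i ∈ T, κ i = 2 ∨ 4 ≤ κ i := by
        intro i hi
        have h2 := hmin i hi
        rcases Nat.lt_or_ge 2 (κ i) with h3 | h3
        · right
          have h4 := hswap i i₀ (by omega)
          by_contra h5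
          have h6 : κ i - κ i₀ = 1 := by omega
          rw [h6] at h4
          interval_cases e <;> omega
        · left
          omega
      have hX2 : X = e ^ 2 + 2 := by
        interval_cases e <;> omega
      -- an odd multiplicity
      obtain ⟨u, hu, hodd⟩ : ∃ u ∈ T, κ u % 2 = 1 := by
        by_contra hcon'
        push Not at hcon'
        have h1 : 4 ∣ ∑ i ∈ T, κ i ^ 2 := dvd_sum fun i hi => by
          have := hcon' i hi
          obtain ⟨c, hc⟩ : ∃ c, κ i = 2 * c := ⟨κ i / 2, by omega⟩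
          rw [hc]
          exact ⟨c ^ 2, by ring⟩
        rw [hX] at h1
        interval_cases e <;> omega
      have hu5 : 5 ≤ κ u := by
        rcases hdiff u hu with h | h <;> omega
      have hu25 := hle 5 (κ u) hu5
      have hrest : ∀ v ∈ T.erase u, κ v ^ 2 = 4 := by
        intro v hv
        rcases hdiff v (mem_of_mem_erase hv) with h | h
        · rw [h]
          rfl
        · exfalso
          have h1 := htwo u hu v (mem_of_mem_erase hv) (ne_of_mem_erase hv) 25 16 4 hu25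
            (hle 4 _ h) hmin2
          have h2 : 8 * 4 ≤ (N - 2) * 4 := Nat.mul_le_mul_right _ (by omega)
          interval_cases e <;> omega
      have h1 : X = κ u ^ 2 + (N - 1) * 4 := by
        rw [← hX, ← add_sum_erase T (fun i => κ i ^ 2) hu, sum_congr rfl hrest, sum_const,
          smul_eq_mul, card_erase_of_mem hu, ← hN]
      have h2 := sq_mod_four (κ u) hodd
      interval_cases e <;> omega
    · -- triple points
      have he10 : e = 10 := by
        have h1 : 10 ≤ e := by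
          by_contra h
          have := hle e 9 (by omega)
          omega
        have h2 : e ≤ 10 := by
          by_contra h
          have := hle 11 e (by omega)
          omega
        omega
      subst he10
      by_cases h3 : ∀ i ∈ T, κ i = 3
      · have h4 : ∑ i ∈ T, κ i ^ 2 = ∑ _i ∈ T, 9 := sum_congr rfl fun i hi => by
          rw [h3 i hi]
          rfl
        rw [sum_const, smul_eq_mul, ← hN, hX] at h4
        omega
      · push Not at h3
        obtain ⟨u, hu, hne⟩ := h3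
        have h4 := hmin u hu
        have h5 : 5 ≤ κ u := by
          by_contra h
          have h6 := hswap u i₀ (by omega)
          have h7 : κ u - κ i₀ = 1 := by omega
          rw [h7] at h6
          omega
        have h6 := hone u hu 25 9 (hle 5 _ h5) hmin2
        have h7 : 9 * 9 ≤ (N - 1) * 9 := Nat.mul_le_mul_right _ (by omega)
        omega
    · -- quadruple points
      have := hle e 11 he11
      omega

/-- Curves with small sum of the multiplicities in the pairing with a class in standard form. -/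
theorem margin (m k : Fin n → ℕ) (J : Finset (Fin n)) (hJ3 : 3 ≤ J.card) (d y : ℕ)
    (hy : ∀ i ∈ J, y ≤ m i) (hstd : ∀ S ⊆ J, S.card = 3 → ∑ i ∈ S, m i ≤ d) {e : ℕ}
    (hke : ∀ i, k i ≤ e) (hk : ∑ i ∈ J, k i + 1 ≤ 3 * e) : ∑ i ∈ J, m i * k i + y ≤ d * e := by
  classical
  have h3y : 3 * y ≤ d := by
    obtain ⟨S, hS, hSc⟩ := exists_subset_card_eq hJ3
    have h1 := hstd S hS hSc
    have h2 : ∑ _i ∈ S, y ≤ ∑ i ∈ S, m i := sum_le_sum fun i hi => hy i (hS hi)
    rw [sum_const, hSc, smul_eq_mul] at h2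
    omega
  have hknap := knapsack (fun i => m i - y) k J hJ3 (d - 3 * y) e (fun S hS hSc => by
    have h1 := hstd S hS hSc
    have h2 : ∑ i ∈ S, (m i - y) + 3 * y = ∑ i ∈ S, m i := by
      rw [← hSc, ← smul_eq_mul, ← sum_const, ← sum_add_distrib]
      exact sum_congr rfl fun i hi => by
        have := hy i (hS hi)
        omega
    omega) hke (by omega)
  have hsum : ∑ i ∈ J, m i * k i = ∑ i ∈ J, (m i - y) * k i + y * ∑ i ∈ J, k i := by
    rw [mul_sum, ← sum_add_distrib]
    exact sum_congr rfl fun i hi => by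
      rw [← Nat.add_mul, Nat.sub_add_cancel (hy i hi)]
  have h5 : (d - 3 * y) * e + 3 * y * e = d * e := by
    rw [← Nat.add_mul, Nat.sub_add_cancel h3y]
  have h6 : y * (∑ i ∈ J, k i + 1) ≤ y * (3 * e) := Nat.mul_le_mul_left _ hk
  rw [hsum]
  nlinarith only [hknap, h5, h6]

/-- A component of a curve in the pairing with a class in standard form. -/
theorem comp_le36 {D e : ℕ} {p : Fin n → Fin (2 + 1) → ℂ} (hp : Good n D p) (he : e ≤ D)
    {A : MvPolynomial (Fin (2 + 1)) ℂ} (hA : Irreducible A) (hAe : A.IsHomogeneous e)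
    (κ : Fin n → ℕ)
    (hκ : ∀ j, VanishesToOrder A (p j) (κ j) ∧ ¬ VanishesToOrder A (p j) (κ j + 1))
    {m : Fin n → ℕ} {J : Finset (Fin n)} (hJ3 : 3 ≤ J.card) {d y : ℕ} (hy : ∀ i ∈ J, y ≤ m i)
    (hstd : ∀ S ⊆ J, S.card = 3 → ∑ i ∈ S, m i ≤ d) :
    12 * ∑ i ∈ J, m i * κ i + y * e ≤ 12 * d * e ∨
      36 * (∑ i ∈ J, m i * κ i) ^ 2 ≤ 37 * (∑ i ∈ J, m i ^ 2) * e ^ 2 := by
  classical
  have heff : 1 ≤ generalDim 2 e κ := eff_of_mem hp he hA.ne_zero hAe κ fun j => (hκ j).1
  have hle : ∀ i, κ i ≤ e := fun i => le_of_effective κ heff i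
  set S := J.filter fun i => 1 ≤ κ i with hS
  have hSJ : S ⊆ J := filter_subset _ _
  have hout : ∀ i ∈ J, i ∉ S → κ i = 0 := by
    intro i hi hi'
    rw [hS, mem_filter] at hi'
    by_contra hne
    exact hi' ⟨hi, by omega⟩
  rcases Nat.lt_or_ge S.card 9 with hS8 | hS9
  · left
    obtain ⟨J', hSJ', hJ'J, hJ'3, hJ'8⟩ : ∃ J' : Finset (Fin n), S ⊆ J' ∧ J' ⊆ J ∧
        3 ≤ J'.card ∧ J'.card ≤ 8 := by
      rcases Nat.lt_or_ge S.card 3 with h | h
      · obtain ⟨J', h5, h6, h7⟩ := exists_subsuperset_card_eq hSJ (n := 3) (by omega) hJ3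
        exact ⟨J', h5, h6, by omega, by omega⟩
      · exact ⟨S, Subset.rfl, hSJ, h, by omega⟩
    have h6 := nef_eight m J' hJ'3 hJ'8 d y (fun i hi => hy i (hJ'J hi))
      (fun T hT hTc => hstd T (hT.trans hJ'J) hTc) heff
    have h7 : ∑ i ∈ J, m i * κ i = ∑ i ∈ J', m i * κ i := by
      refine (sum_subset hJ'J fun i hi hi' => ?_).symm
      rw [hout i hi fun h => hi' (hSJ' h), Nat.mul_zero]
    rw [h7]
    have h8 : 12 * d * e = 2 * (6 * d * e) := by ring
    omega
  · by_cases hcase : ∑ i ∈ S, κ i + 1 ≤ 3 * e ∧ e ≤ 11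
    · left
      have h1 : ∑ i ∈ J, κ i = ∑ i ∈ S, κ i :=
        (sum_subset hSJ fun i hi hi' => hout i hi hi').symm
      have h2 := margin m κ J hJ3 d y hy hstd hle (by rw [h1]; exact hcase.1)
      have h3 : y * e ≤ y * 12 := Nat.mul_le_mul_left _ (by omega)
      have h4 : 12 * d * e = 12 * (d * e) := by ring
      omega
    · right
      have hST : S ⊆ univ.filter fun i => 1 ≤ κ i := fun i hi => by
        rw [hS, mem_filter] at hi
        exact mem_filter.2 ⟨mem_univ i, hi.2⟩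
      have hSall : ∑ i ∈ S, κ i ≤ ∑ i, κ i := sum_le_sum_of_subset (subset_univ S)
      have h5 := ratio hp he hA hAe κ hκ (hS9.trans (card_le_card hST)) (by omega)
      have h6 : ∑ i ∈ J, m i * κ i = ∑ i ∈ S, m i * κ i := by
        refine (sum_subset hSJ fun i hi hi' => ?_).symm
        rw [hout i hi hi', Nat.mul_zero]
      have h7 : (∑ i ∈ S, m i * κ i) ^ 2 ≤ (∑ i ∈ S, m i ^ 2) * ∑ i ∈ S, κ i ^ 2 :=
        sum_mul_sq_le_sq_mul_sq _ _ _
      have h8 : ∑ i ∈ S, m i ^ 2 ≤ ∑ i ∈ J, m i ^ 2 := sum_le_sum_of_subset hSJ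
      have h9 : ∑ i ∈ S, κ i ^ 2 ≤ ∑ i, κ i ^ 2 := sum_le_sum_of_subset (subset_univ S)
      rw [h6]
      calc 36 * (∑ i ∈ S, m i * κ i) ^ 2 ≤ 36 * ((∑ i ∈ S, m i ^ 2) * ∑ i ∈ S, κ i ^ 2) :=
            Nat.mul_le_mul_left _ h7
        _ = (∑ i ∈ S, m i ^ 2) * (36 * ∑ i ∈ S, κ i ^ 2) := by ring
        _ ≤ (∑ i ∈ J, m i ^ 2) * (37 * e ^ 2) := Nat.mul_le_mul h8
            ((Nat.mul_le_mul_left _ h9).trans h5)
        _ = 37 * (∑ i ∈ J, m i ^ 2) * e ^ 2 := by ring

/-- Numerical criterion for nefness: at least three points, all multiplicities at least `y`, standard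
form. -/
theorem nef_num36 {ε : ℝ} (hε : 0 < ε) {m : Fin n → ℕ} {J : Finset (Fin n)} (hJ3 : 3 ≤ J.card)
    {d y a : ℕ} (hy : ∀ i ∈ J, y ≤ m i) (hstd : ∀ S ⊆ J, S.card = 3 → ∑ i ∈ S, m i ≤ d)
    (hsq : ∑ i ∈ J, (m i : ℝ) ^ 2 ≤ (36 / 37 - ε) * d ^ 2)
    (ha1 : 12 * d ≤ 12 * a + y) (ha2 : (1 - 37 / 72 * ε) * d ≤ a) :
    NefC a fun i => if i ∈ J then m i else 0 := by
  classical
  intro f k hk
  have hkf : ∀ i, k i ≤ f := fun i => le_of_effective k hk i
  obtain ⟨p, hp⟩ := exists_good n f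
  obtain ⟨F, hF, hF0⟩ : ∃ F ∈ fatForms 2 f p k, F ≠ 0 := by
    rw [← hp.dim f le_rfl k hkf] at hk
    by_contra hcon
    push Not at hcon
    have h4 : fatForms 2 f p k = ⊥ := by
      rw [eq_bot_iff]
      intro F hF
      rw [Submodule.mem_bot]
      exact hcon F hF
    rw [h4, finrank_bot] at hk
    omega
  refine pair_of_irred (p := p) a (fun i => if i ∈ J then m i else 0) f F hF0 hF.1
    (fun A e κ hA _ hAe he hef hκ => ?_) k fun i => hF.2 i
  have h0 : ∑ i, (if i ∈ J then m i else 0) * κ i = ∑ i ∈ J, m i * κ i := by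
    rw [← sum_subset (subset_univ J)]
    · exact sum_congr rfl fun i hi => by rw [if_pos hi]
    · intro i _ hi
      rw [if_neg hi, Nat.zero_mul]
  rw [h0]
  rcases comp_le36 hp hef hA hAe κ hκ hJ3 hy hstd with h1 | h1
  · have h8 : 12 * d * e ≤ (12 * a + y) * e := Nat.mul_le_mul_right _ ha1
    have h9 : (12 * a + y) * e = 12 * (a * e) + y * e := by ring
    omega
  · have h2 : (36 : ℝ) * (((∑ i ∈ J, m i * κ i : ℕ) : ℝ)) ^ 2 ≤
        37 * (∑ i ∈ J, (m i : ℝ) ^ 2) * (e : ℝ) ^ 2 := by exact_mod_cast h1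
    have he0 : (0 : ℝ) < e := by exact_mod_cast he
    have hd0 : (0 : ℝ) ≤ d := Nat.cast_nonneg d
    have ha0 : (0 : ℝ) ≤ a := Nat.cast_nonneg a
    have h3 : (37 : ℝ) * (∑ i ∈ J, (m i : ℝ) ^ 2) * (e : ℝ) ^ 2 ≤
        37 * ((36 / 37 - ε) * d ^ 2) * (e : ℝ) ^ 2 :=
      mul_le_mul_of_nonneg_right (mul_le_mul_of_nonneg_left hsq (by norm_num)) (sq_nonneg _)
    have h4 : (37 : ℝ) * ((36 / 37 - ε) * d ^ 2) ≤ 36 * (a : ℝ) ^ 2 := by
      rcases le_or_gt 0 (1 - 37 / 72 * ε) with h14 | h14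
      · have h15 : ((1 - 37 / 72 * ε) * (d : ℝ)) ^ 2 ≤ (a : ℝ) ^ 2 :=
          pow_le_pow_left₀ (mul_nonneg h14 hd0) ha2 2
        have h17 : 36 * ((1 - 37 / 72 * ε) * (d : ℝ)) ^ 2 =
            37 * ((36 / 37 - ε) * d ^ 2) + 36 * (37 / 72 * ε * d) ^ 2 := by ring
        have := sq_nonneg (37 / 72 * ε * (d : ℝ))
        linarith only [h15, this]
      · have h16 : 36 / 37 - ε ≤ 0 := by linarith only [h14]
        have h17 : (0 : ℝ) ≤ (d : ℝ) ^ 2 := sq_nonneg _
        have h18 : (0 : ℝ) ≤ (a : ℝ) ^ 2 := sq_nonneg _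
        nlinarith only [hε, h14]
    have h5 : (((∑ i ∈ J, m i * κ i : ℕ) : ℝ)) ^ 2 ≤ ((a : ℝ) * e) ^ 2 := by
      rw [mul_pow]
      have h6 : 37 * ((36 / 37 - ε) * (d : ℝ) ^ 2) * (e : ℝ) ^ 2 ≤ 36 * (a : ℝ) ^ 2 * (e : ℝ) ^ 2 :=
        mul_le_mul_of_nonneg_right h4 (sq_nonneg _)
      linarith only [h2, h3, h6]
    have h6 := (abs_le_of_sq_le_sq' h5 (by positivity)).2
    exact_mod_cast h6

/-- Emptiness in standard form. -/
theorem xu_empty36 {d : ℕ} {m : Fin n → ℕ} (hstd : ∀ S : Finset (Fin n), S.card ≤ 3 →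
    ∑ i ∈ S, m i ≤ d) (h : 37 * d ^ 2 < 36 * ∑ i, m i ^ 2) : generalDim 2 d m = 0 := by
  classical
  by_contra hcon
  have hk : 1 ≤ generalDim 2 d m := by omega
  have hkf : ∀ i, m i ≤ d := fun i => le_of_effective m hk i
  -- at least three points
  have hn : 3 ≤ (univ : Finset (Fin n)).card := by
    by_contra hlt
    have h1 := hstd univ (by omega)
    have h2 : ∑ i, m i ^ 2 ≤ (∑ i, m i) ^ 2 := by
      rw [sq (∑ i, m i), sum_mul]
      refine sum_le_sum fun i _ => ?_
      rw [sq]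
      exact Nat.mul_le_mul_left _ (single_le_sum (f := m) (fun _ _ => Nat.zero_le _) (mem_univ i))
    have h3 : (∑ i, m i) ^ 2 ≤ d ^ 2 := Nat.pow_le_pow_left h1 2
    omega
  obtain ⟨p, hp⟩ := exists_good n d
  obtain ⟨F, hF, hF0⟩ : ∃ F ∈ fatForms 2 d p m, F ≠ 0 := by
    rw [← hp.dim d le_rfl m hkf] at hk
    by_contra hcon
    push Not at hcon
    have h4 : fatForms 2 d p m = ⊥ := by
      rw [eq_bot_iff]
      intro F hF
      rw [Submodule.mem_bot]
      exact hcon F hF
    rw [h4, finrank_bot] at hk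
    omega
  set X' : ℝ := ∑ i, (m i : ℝ) ^ 2 with hX'
  have hX0 : 0 ≤ X' := sum_nonneg fun _ _ => sq_nonneg _
  have hX : 37 * (d : ℝ) ^ 2 < 36 * X' := by
    rw [hX']
    exact_mod_cast h
  set A' : ℝ := Real.sqrt (37 / 36 * X') with hA'
  have hA'sq : A' ^ 2 = 37 / 36 * X' := Real.sq_sqrt (by positivity)
  have hA'0 : 0 ≤ A' := Real.sqrt_nonneg _
  have hd0 : (0 : ℝ) ≤ d := Nat.cast_nonneg d
  have hdA : (d : ℝ) ≤ A' := by
    refine (abs_le_of_sq_le_sq' ?_ hA'0).2
    rw [hA'sq]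
    nlinarith only [hX, sq_nonneg (d : ℝ)]
  have h1 := pair_real (p := p) A' m hF0 hF.1 (fun A e κ hA hAe he hed hκ => by
    have he0 : (0 : ℝ) ≤ e := Nat.cast_nonneg e
    rcases comp_le36 hp hed hA hAe κ hκ hn (d := d) (y := 0) (fun _ _ => Nat.zero_le _)
      (fun S _ hS => hstd S hS.le) with h2 | h2
    · have h3 : ((12 * ∑ i, m i * κ i + 0 * e : ℕ) : ℝ) ≤ ((12 * d * e : ℕ) : ℝ) := by
        exact_mod_cast h2
      push_cast at h3
      have h4 : (d : ℝ) * e ≤ A' * e := mul_le_mul_of_nonneg_right hdA he0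
      linarith only [h3, h4]
    · have h3 : (36 : ℝ) * (∑ i, (m i : ℝ) * κ i) ^ 2 ≤ 37 * X' * (e : ℝ) ^ 2 := by
        rw [hX']
        exact_mod_cast h2
      have h4 : (∑ i, (m i : ℝ) * κ i) ^ 2 ≤ (A' * e) ^ 2 := by
        rw [mul_pow, hA'sq]
        linarith only [h3]
      exact (abs_le_of_sq_le_sq' h4 (by positivity)).2) hF.2
  have h2 : ∑ i, (m i : ℝ) * (m i : ℝ) = X' := by
    rw [hX']
    exact sum_congr rfl fun i _ => (sq _).symm
  rw [h2] at h1
  have h3 : X' ^ 2 ≤ (A' * d) ^ 2 := pow_le_pow_left₀ hX0 h1 2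
  rw [mul_pow, hA'sq] at h3
  have hXpos : 0 < X' := by
    have : (0 : ℝ) ≤ (d : ℝ) ^ 2 := sq_nonneg _
    linarith only [hX, this]
  nlinarith only [h3, hX]

end Pool.Agent.H74.KV

end
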