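import Pool.Agent.H94.LP3.H74.KV.Gen_1
import Pool.Agent.H94.LP3.H74.KV.Uni
import Pool.Agent.H94.LP3.M21
import Pool.Agent.H94.LP3.M33

/-! The parts of this file: H74.KV.Cone_1, H74.KV.GenN. -/

section

/-!
# Coplanar points, and independent conditions in all dimensions
-/

namespace Pool.Agent.H74.KV

open Finset MvPolynomial Pool.Agent.H18.Fat Pool.Agent.H18.Ub Pool.Agent.H22.LU Pool.Agent.H74.CT Pool.Agent.H18.Nef Pool.Agent.H74.BP

variable {r : ℕ}

/-- Independent conditions at general points. -/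
theorem exact_of_srj (hr : 2 ≤ r) {j k : ℕ} {m : Fin k → ℕ} {J : Finset (Fin k)}
    {x : Fin k → Fin r → ℂ} (h : Srj r j J x m) : Exact r j m J := by
  classical
  have h1 : Srj r j univ x fun i => if i ∈ J then m i else 0 := by
    intro u
    obtain ⟨f, hf, h2⟩ := h u
    refine ⟨f, hf, fun i _ γ hγ => ?_⟩
    by_cases hi : i ∈ J
    · have hγ' : γ.degree < if i ∈ J then m i else 0 := hγ
      rw [if_pos hi] at hγ'
      exact h2 i hi γ hγ'
    · have hγ' : γ.degree < if i ∈ J then m i else 0 := hγ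
      rw [if_neg hi] at hγ'
      omega
  have h2 := finrank_of_surjective (by omega)
    (p := fun i => (Fin.cons 1 (x i) : Fin (r + 1) → ℂ)) (fun i => by
      rw [Fin.cons_zero]
      exact one_ne_zero) (condMat_of_srj h1)
  have h3 : generalDim r j (fun i => if i ∈ J then m i else 0) ≤
      Module.finrank ℂ (fatForms r j (fun i => (Fin.cons 1 (x i) : Fin (r + 1) → ℂ))
        fun i => if i ∈ J then m i else 0) := Nat.sInf_le ⟨_, rfl⟩
  obtain ⟨s, rfl⟩ : ∃ s, r = s + 2 := ⟨r - 2, by omega⟩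
  have h4 := Pool.Agent.H74.CT.dim_ge s j k m J
  have h5 : ∑ i, ((if i ∈ J then m i else 0) + (s + 2) - 1).choose (s + 2) =
      ∑ i ∈ J, (m i + (s + 2) - 1).choose (s + 2) := by
    rw [← sum_subset (subset_univ J)]
    · exact sum_congr rfl fun i hi => by rw [if_pos hi]
    · intro i _ hi
      rw [if_neg hi, Nat.choose_eq_zero_of_lt (by omega)]
  unfold Exact
  rw [h5] at h2
  omega

theorem Exact.up (hr : 2 ≤ r) {j j' k : ℕ} {m : Fin k → ℕ} {J : Finset (Fin k)}
    {x : Fin k → Fin r → ℂ} (h : Srj r j J x m) (hj : j ≤ j') : Exact r j' m J :=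
  exact_of_srj hr (h.mono hj fun _ _ => le_rfl)

/-- Nef classes in the plane give independent conditions in all dimensions. -/
theorem srj_of_nef (r : ℕ) (hr : 2 ≤ r) (ε : ℝ) (hε : 0 < ε) : ∃ d₀ : ℕ,
    ∀ (k d a : ℕ) (m : Fin k → ℕ) (J : Finset (Fin k)), d₀ ≤ d → (∀ i ∈ J, ε * d ≤ m i) →
    (NefC a fun i => if i ∈ J then m i else 0) → (a : ℝ) ≤ (1 - ε) * d →
    ∃ x : Fin k → Fin r → ℂ, Srj r d J x m := by
  classical
  obtain ⟨d₀, hd₀⟩ := nef_exact_on ⌈1 / ε ^ 2⌉₊ (ε / 2) (by positivity)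
  obtain ⟨d₁, hd₁⟩ := exists_nat_ge (d₀ / ε + 2 / ε ^ 2)
  obtain ⟨s, rfl⟩ : ∃ s, r = 2 + s := ⟨r - 2, by omega⟩
  refine ⟨d₁ + 1, fun k d a m J hd hJ hnef ha => ?_⟩
  have hd0 : (0 : ℝ) < d := by exact_mod_cast (by omega : 0 < d)
  have ha0 : (0 : ℝ) ≤ a := Nat.cast_nonneg a
  have hε1 : ε ≤ 1 := by
    by_contra hcon
    push Not at hcon
    nlinarith
  have had : a ≤ d := by
    have : (a : ℝ) ≤ d := by nlinarith
    exact_mod_cast this
  have hcard := card_le_of_nef hε (by omega) hJ hnef had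
  have hdd : (d₀ / ε + 2 / ε ^ 2 : ℝ) ≤ d := hd₁.trans (by exact_mod_cast (by omega : d₁ ≤ d))
  have hmul : (d₀ : ℝ) + 2 / ε ≤ ε * d := by
    have h1 : (d₀ / ε + 2 / ε ^ 2 : ℝ) * ε ≤ d * ε := mul_le_mul_of_nonneg_right hdd hε.le
    have h2 : (d₀ / ε + 2 / ε ^ 2 : ℝ) * ε = d₀ + 2 / ε := by
      field_simp
    linarith
  set m' : Fin k → ℕ := fun i => if i ∈ J then m i else 0 with hm'
  have hm'a : ∀ i, m' i ≤ a := fun i => hnef.one i
  have hma : ∀ i ∈ J, m i ≤ a := by
    intro i hi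
    have h1 := hm'a i
    rw [hm'] at h1
    dsimp only at h1
    rw [if_pos hi] at h1
    exact h1
  obtain ⟨p, hp⟩ := exists_good k (d + 1)
  have hplane : ∀ b ≤ d, Srj 2 (d - b) J (fun i j => p i j.succ) fun i => m i - b := by
    intro b hb
    by_cases hall : ∀ i ∈ J, m i ≤ b
    · intro u
      refine ⟨0, by simp, fun i hi γ hγ => ?_⟩
      have := hall i hi
      have h5 : γ.degree < m i - b := hγ
      omega
    · push Not at hall
      obtain ⟨i₀, hi₀, hbi⟩ := hall
      have hba : b ≤ a := by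
        have := hma i₀ hi₀
        omega
      have hbar : (b : ℝ) ≤ a := by exact_mod_cast hba
      have hdb : ((d - b : ℕ) : ℝ) = (d : ℝ) - b := Nat.cast_sub hb
      have hdb1 : ε * d ≤ ((d - b : ℕ) : ℝ) := by
        rw [hdb]
        linarith
      set a' := ⌈(1 - ε) * ((d - b : ℕ) : ℝ)⌉₊ with ha'
      have ha'1 : (1 - ε) * ((d - b : ℕ) : ℝ) ≤ a' := Nat.le_ceil _
      have ha'2 : (a' : ℝ) < (1 - ε) * ((d - b : ℕ) : ℝ) + 1 := Nat.ceil_lt_add_one (by
        have : 0 ≤ 1 - ε := by linarith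
        positivity)
      have hnef' : NefC a' fun i => m' i - b := by
        intro e κ hκ
        have h1 := hnef e κ hκ
        have h2 : (∑ i, (((m' i - b : ℕ) : ℝ)) * (κ i : ℝ)) * d ≤
            ((d - b : ℕ) : ℝ) * (∑ i, (m' i : ℝ) * (κ i : ℝ)) := by
          rw [sum_mul, mul_sum]
          refine sum_le_sum fun i _ => ?_
          have h3 : ((m' i - b : ℕ) : ℝ) * d ≤ ((d - b : ℕ) : ℝ) * m' i := by
            rcases Nat.le_total (m' i) b with h4 | h4
            · rw [Nat.sub_eq_zero_of_le h4]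
              simp only [Nat.cast_zero, zero_mul]
              positivity
            · rw [Nat.cast_sub h4, hdb]
              have h5 : (m' i : ℝ) ≤ d := by exact_mod_cast (hm'a i).trans had
              have h6 : (0 : ℝ) ≤ b := Nat.cast_nonneg b
              nlinarith
          have h4 : (0 : ℝ) ≤ κ i := Nat.cast_nonneg _
          nlinarith [mul_le_mul_of_nonneg_right h3 h4]
        have h3 : (∑ i, (m' i : ℝ) * (κ i : ℝ)) ≤ (a : ℝ) * e := by exact_mod_cast h1
        have h4 : (0 : ℝ) ≤ e := Nat.cast_nonneg e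
        have h5 : (0 : ℝ) ≤ ((d - b : ℕ) : ℝ) := Nat.cast_nonneg _
        have h6 : ((d - b : ℕ) : ℝ) * ((a : ℝ) * e) ≤ ((a' : ℝ) * e) * d := by
          have h7 : ((d - b : ℕ) : ℝ) * ((a : ℝ) * e) ≤
              ((d - b : ℕ) : ℝ) * (((1 - ε) * d) * e) :=
            mul_le_mul_of_nonneg_left (mul_le_mul_of_nonneg_right ha h4) h5
          have h8 : ((d - b : ℕ) : ℝ) * (((1 - ε) * d) * e) =
              ((1 - ε) * ((d - b : ℕ) : ℝ)) * (e * d) := by ring
          have h9 : ((1 - ε) * ((d - b : ℕ) : ℝ)) * (e * d) ≤ (a' : ℝ) * (e * d) :=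
            mul_le_mul_of_nonneg_right ha'1 (by positivity)
          have h10 : (a' : ℝ) * (e * d) = ((a' : ℝ) * e) * d := by ring
          linarith
        have h7 : (∑ i, (((m' i - b : ℕ) : ℝ)) * (κ i : ℝ)) * d ≤ ((a' : ℝ) * e) * d :=
          h2.trans ((mul_le_mul_of_nonneg_left h3 h5).trans h6)
        have h8 := le_of_mul_le_mul_right h7 hd0
        exact_mod_cast h8
      have hεinv : (2 : ℝ) / ε ≤ ε * d := by
        have : (0 : ℝ) ≤ d₀ := Nat.cast_nonneg d₀
        linarith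
      have h1 := hd₀ k (d - b) a' (fun i => m' i - b) J hcard (fun i hi => by
          rw [hm']
          dsimp only
          rw [if_neg hi, Nat.zero_sub]) (by
          have h2 : (d₀ : ℝ) ≤ ((d - b : ℕ) : ℝ) := by
            have : (0 : ℝ) ≤ 2 / ε := by positivity
            linarith
          exact_mod_cast h2) hnef' (by
          have h2 : (1 : ℝ) ≤ ε / 2 * ((d - b : ℕ) : ℝ) := by
            have h3 : (2 : ℝ) / ε ≤ ((d - b : ℕ) : ℝ) := hεinv.trans hdb1
            rw [div_le_iff₀ hε] at h3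
            linarith
          linarith)
      have h2 := srj_of_exact hp (by omega) (fun i => by
        have := hm'a i
        omega) h1
      intro u
      obtain ⟨f, hf, h3⟩ := h2 u
      refine ⟨f, hf, fun i hi γ hγ => h3 i (mem_univ i) γ ?_⟩
      rw [hm']
      dsimp only
      rw [if_pos hi]
      exact hγ
  obtain ⟨x, hx⟩ := cones (fun i hi => by
    have := hma i hi
    omega) s ⟨_, hplane⟩
  exact ⟨x, hx 0 (Nat.zero_le d)⟩

end Pool.Agent.H74.KV

end

section

/-!
# Large points filling a small part of the space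
-/

namespace Pool.Agent.H74.KV

open Finset Pool.Agent.H18.Fat Pool.Agent.H18.Ub Pool.Agent.H18.Nef Pool.Agent.H74.BP

/-- The number of the conditions is off the window. -/
def OffR (r D M d μ : ℕ) {k : ℕ} (m : Fin k → ℕ) (J : Finset (Fin k)) : Prop :=
  μ ≤ M ∨
    (D + μ ≤ d ∧ ∑ i ∈ univ.filter (fun i => i ∈ J ∨ M < m i), (m i + r - 1).choose r ≤
      (d - D - μ + r).choose r) ∨
    (d + μ - 1 + r).choose r ≤
      ∑ i ∈ univ.filter (fun i => i ∈ J ∨ M < m i), (m i + r - 1).choose r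

theorem OffR.mono {r D D' M d μ k : ℕ} {m : Fin k → ℕ} {J : Finset (Fin k)}
    (h : OffR r D' M d μ m J) (hD : D ≤ D') : OffR r D M d μ m J := by
  rcases h with h | ⟨h1, h2⟩ | h
  · exact Or.inl h
  · exact Or.inr (Or.inl ⟨by omega, h2.trans (Nat.choose_le_choose r (by omega))⟩)
  · exact Or.inr (Or.inr h)

theorem OffR.off {D M d μ k : ℕ} {m : Fin k → ℕ} {J : Finset (Fin k)}
    (h : OffR 2 D M d μ m J) (hd : 1 ≤ d) : Off D M d μ m J := by
  rcases h with h | h | h
  · exact Or.inl h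
  · exact Or.inr (Or.inl h)
  · refine Or.inr (Or.inr ?_)
    have h1 : d + μ - 1 + 2 = d + μ + 1 := by omega
    rw [h1] at h
    exact h

/-- The points of `J` impose independent conditions with slack. -/
theorem srj_large (r : ℕ) (hr : 2 ≤ r) (ε : ℝ) (hε : 0 < ε) : ∃ d₀ : ℕ,
    ∀ (k d : ℕ) (m : Fin k → ℕ) (J : Finset (Fin k)), d₀ ≤ d → (∀ i ∈ J, ε * d ≤ m i) →
    (2 ^ r * ∑ i ∈ J, (m i : ℝ) ^ r ≤ ((1 - ε) * d) ^ r ∨
      ∃ a : ℕ, (a : ℝ) ≤ (1 - ε) * d ∧ NefC a fun i => if i ∈ J then m i else 0) →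
    ∃ x : Fin k → Fin r → ℂ, Srj r d J x m := by
  classical
  obtain ⟨d₁, hd₁⟩ := srj_num (r := r) (by omega) ε hε
  obtain ⟨d₂, hd₂⟩ := srj_of_nef r hr ε hε
  refine ⟨d₁ + d₂ + 1, fun k d m J hd hJ hor => ?_⟩
  have hd0 : (0 : ℝ) < d := by exact_mod_cast (by omega : 0 < d)
  rcases hor with h | ⟨a, ha, hnef⟩
  · rcases le_or_gt ε 1 with hε1 | hε1
    · exact hd₁ k d m J (by omega) hJ h hε1
    · rcases J.eq_empty_or_nonempty with h0 | ⟨i, hi⟩
      · subst h0
        exact ⟨fun _ => 0, fun u => ⟨0, by simp, fun i hi => absurd hi (notMem_empty i)⟩⟩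
      · exfalso
        have h1 : (2 * (m i : ℝ)) ^ r ≤ ((1 - ε) * d) ^ r := by
          refine le_trans ?_ h
          rw [mul_pow]
          refine mul_le_mul_of_nonneg_left ?_ (by positivity)
          exact single_le_sum (f := fun i => (m i : ℝ) ^ r) (fun _ _ => by positivity) hi
        have h2 : |(1 - ε) * (d : ℝ)| = (ε - 1) * d := by
          rw [abs_mul, abs_of_neg (by linarith), abs_of_pos hd0]
          ring
        have h3 : ((1 - ε) * (d : ℝ)) ^ r ≤ ((ε - 1) * d) ^ r := by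
          rw [← h2, ← abs_pow]
          exact le_abs_self _
        have h4 : 2 * (m i : ℝ) ≤ (ε - 1) * d :=
          le_of_pow_le_pow_left₀ (by omega) (by
            have : 0 ≤ ε - 1 := by linarith
            positivity) (h1.trans h3)
        have h5 := hJ i hi
        nlinarith
  · exact hd₂ k d a m J (by omega) hJ hnef ha

/-- The main theorem for large points with slack, in all dimensions. -/
theorem gen_large (r M : ℕ) (hr : 2 ≤ r) (hM : 1 ≤ M) (ε : ℝ) (hε : 0 < ε) : ∃ d₀ : ℕ,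
    ∀ (k d μ : ℕ) (m : Fin k → ℕ) (J : Finset (Fin k)), d₀ ≤ d → (∀ i ∈ J, ε * d ≤ m i) →
    (∀ i, i ∉ J → m i ≤ μ) →
    (2 ^ r * ∑ i ∈ J, (m i : ℝ) ^ r ≤ ((1 - ε) * d) ^ r ∨
      ∃ a : ℕ, (a : ℝ) ≤ (1 - ε) * d ∧ NefC a fun i => if i ∈ J then m i else 0) →
    OffR r (300 * r * M ^ (r + 4)) M d μ m J →
    ForGeneralPoints r k fun p => ImposesMaximalConditions r d p m := by
  classical
  set F := 300 * r * M ^ (r + 4) with hF
  obtain ⟨d₀, hd₀⟩ := srj_large r hr (ε / 2) (by positivity)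
  obtain ⟨d₁, hd₁⟩ := exists_nat_ge (2 * F / ε)
  refine ⟨d₀ + F + d₁ + 1, fun k d μ m J hd hJ hμ hor hoff => ?_⟩
  have hd0 : (0 : ℝ) < d := by exact_mod_cast (by omega : 0 < d)
  have hFd : (F : ℝ) ≤ ε / 2 * d := by
    have h1 : (2 * F / ε : ℝ) ≤ d := hd₁.trans (by exact_mod_cast (by omega : d₁ ≤ d))
    rw [div_le_iff₀ hε] at h1
    linarith
  have hcast : ((d - F : ℕ) : ℝ) = (d : ℝ) - F := Nat.cast_sub (by omega)
  have hF0 : (0 : ℝ) ≤ F := Nat.cast_nonneg F
  -- the slack in degree `d - F`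
  have hx : ∃ x : Fin k → Fin r → ℂ, Srj r (d - F) J x m := by
    rcases le_or_gt ε 1 with hε1 | hε1
    · have hlin : (1 - ε) * (d : ℝ) ≤ (1 - ε / 2) * ((d - F : ℕ) : ℝ) := by
        rw [hcast]
        have h1 : (1 - ε / 2) * ((d : ℝ) - ε / 2 * d) ≤ (1 - ε / 2) * (d - F) :=
          mul_le_mul_of_nonneg_left (by linarith) (by linarith)
        have h2 : (1 - ε / 2) * ((d : ℝ) - ε / 2 * d) = (1 - ε) * d + ε ^ 2 / 4 * d := by ring
        have h3 : (0 : ℝ) ≤ ε ^ 2 / 4 * d := by positivity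
        linarith
      refine hd₀ k (d - F) m J (by omega) (fun i hi => ?_) ?_
      · refine le_trans ?_ (hJ i hi)
        rw [hcast]
        have h1 : ε / 2 * ((d : ℝ) - F) ≤ ε / 2 * d := mul_le_mul_of_nonneg_left (by linarith)
          (by positivity)
        have h2 : ε / 2 * (d : ℝ) ≤ ε * d := by
          have : 0 ≤ ε / 2 * (d : ℝ) := by positivity
          linarith
        linarith
      · rcases hor with h | ⟨a, ha, hnef⟩
        · refine Or.inl (h.trans (pow_le_pow_left₀ ?_ hlin r))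
          have : 0 ≤ 1 - ε := by linarith
          positivity
        · exact Or.inr ⟨a, ha.trans hlin, hnef⟩
    · -- no large points
      rcases J.eq_empty_or_nonempty with h0 | ⟨i, hi⟩
      · subst h0
        exact ⟨fun _ => 0, fun u => ⟨0, by simp, fun i hi => absurd hi (notMem_empty i)⟩⟩
      · exfalso
        have h5 := hJ i hi
        rcases hor with h | ⟨a, ha, hnef⟩
        · have h1 : (2 * (m i : ℝ)) ^ r ≤ ((1 - ε) * d) ^ r := by
            refine le_trans ?_ h
            rw [mul_pow]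
            refine mul_le_mul_of_nonneg_left ?_ (by positivity)
            exact single_le_sum (f := fun i => (m i : ℝ) ^ r) (fun _ _ => by positivity) hi
          have h2 : |(1 - ε) * (d : ℝ)| = (ε - 1) * d := by
            rw [abs_mul, abs_of_neg (by linarith), abs_of_pos hd0]
            ring
          have h3 : ((1 - ε) * (d : ℝ)) ^ r ≤ ((ε - 1) * d) ^ r := by
            rw [← h2, ← abs_pow]
            exact le_abs_self _
          have h4 : 2 * (m i : ℝ) ≤ (ε - 1) * d :=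
            le_of_pow_le_pow_left₀ (by omega) (by
              have : 0 ≤ ε - 1 := by linarith
              positivity) (h1.trans h3)
          nlinarith
        · have h1 : (0 : ℝ) ≤ a := Nat.cast_nonneg a
          nlinarith
  obtain ⟨x, hx⟩ := hx
  exact of_exact r M hr hM k d μ m J hμ (by omega) (fun j hj => Exact.up hr hx (by omega)) hoff

end Pool.Agent.H74.KV

end
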