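import Pool.Agent.H94.LP3.M05
import Pool.Agent.H94.LP3.M06

/-! The parts of this file: H18.Tj.Defs, H18.Tk.ChooseN, H18.Tk.Defs. -/

section

/-!
# Project TJ (MP_1dafdd_ag): definitions

`Lens`: the numbers of conditions imposed by points of multiplicity `m ≤ M` on the traces.
`Cf`: configurations of free points and points forced to one fixed hyperplane.
`SysL`: an abstract Horace system along one hyperplane (`R k` = size of the state `k`, `F k` = size of
its trace).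
`Lx w m`: the number of conditions imposed by a point of multiplicity `m` on the forms with
exponents at most `w`.  `NE`: near-exactness.
-/

namespace Pool.Agent.H18.Tj

open Finset Pool.Agent.H18.Ex

/-- Lengths of the traces of the points of multiplicity at most `M`. -/
structure Lens (M : ℕ) : Type where
  /-- the length of the trace of a point of multiplicity `m` -/
  lo : ℕ → ℕ
  lo_zero : lo 0 = 0
  lo_one : lo 1 = 1
  ratio : ∀ c, c + 1 ≤ M → (c + 1) * lo c ≤ c * lo (c + 1)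

/-- The length of a point of multiplicity `m`. -/
def Lens.hi {M : ℕ} (L : Lens M) (m : ℕ) : ℕ := ∑ i ∈ range m, L.lo (i + 1)

/-- A configuration: multiplicities (at least two) of the free points, number of the simple points,
forced conditions `(c, e)`. -/
structure Cf : Type where
  /-- multiplicities of the free points of multiplicity at least two -/
  N : Multiset ℕ
  /-- number of the free simple points -/
  s : ℕ
  /-- forced conditions -/
  Φ : Multiset (ℕ × ℕ)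

/-- Validity. -/
structure Cf.OK (M : ℕ) (c : Cf) : Prop where
  hN : ∀ m ∈ c.N, 2 ≤ m ∧ m ≤ M
  hΦ : ∀ x ∈ c.Φ, 1 ≤ x.2 ∧ x.2 ≤ 2 ∧ x.2 ≤ x.1 ∧ x.1 ≤ M

/-- Length of the traces of the forced conditions. -/
def trT {M : ℕ} (L : Lens M) (S : Multiset (ℕ × ℕ)) : ℕ := (S.map fun x => L.lo x.1).sum

/-- Length of the forced conditions. -/
def flT {M : ℕ} (L : Lens M) (S : Multiset (ℕ × ℕ)) : ℕ := (S.map fun x => L.hi x.1 + 1 - x.2).sum

/-- Length of the free points. -/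
def Cf.nsz {M : ℕ} (L : Lens M) (c : Cf) : ℕ := (c.N.map L.hi).sum + c.s

/-- Total length. -/
def Cf.sz {M : ℕ} (L : Lens M) (c : Cf) : ℕ := c.nsz L + flT L c.Φ

/-- The constant. -/
def cE {M : ℕ} (L : Lens M) : ℕ := 64 * M * (M + 1) * (L.lo M + 1) ^ 2 * (L.hi M + 1)

section

variable {ι : Type} [Fintype ι] [DecidableEq ι]

/-- The number of conditions imposed by a point of multiplicity `m` on the forms with exponents at
most `w` (`|b| = m - 1`, `b ≤ w`). -/
def Lx (w : ι → ℕ) (m : ℕ) : ℕ := if m = 0 then 0 else (Rg (m - 1) w).card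

/-- Near-exactness: points of multiplicities at most `M` together with at least `x₀` simple points
kill the forms as soon as the lengths suffice. -/
def NE (M x₀ σ : ℕ) (w : ι → ℕ) : Prop :=
  ∀ S : Multiset ℕ, (∀ m ∈ S, m ≤ M) → ∀ x : ℕ, x₀ ≤ x →
    (Rg σ w).card ≤ (S.map (Lx w)).sum + x →
    GM (Rg σ w) ((S + Multiset.replicate x 1).map Kind.free)

end

/-- A bound for `cE`. -/
def cQ (q M : ℕ) : ℕ := 64 * M * (M + 1) * (M ^ q + 1) ^ 2 * (M ^ (q + 1) + 1)

end Pool.Agent.H18.Tj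

end

section

/-!
# Module C9 (TK): the numbers of steps

`R = w2 / w1 + 1` (so `R ≥ 2`, `w2 < R w1`, `R w1 ≤ 2 w2`), `β = 4 B R`, `σ' = σ - (M + 1)`,
`n1 = min (w1 - (M + 1) - B) ((σ' - β) / 2)`, `n2 = min (w2 - β) (σ' - β - n1)`, `a = w1 - (M + 1) - n1`, `b = w2 - n2`,
`s = σ' - n1 - n2`, `g = (n1 + n2) / n1`, `J = (M + 1) (g + 3)`.  (Checked numerically.)  `β w1 ≤ 8 B w2`, so
`β ≤ w2 / 8`; `b ≥ β`, `s ≥ β`, and `b = β` or `s = β`.
* If `n1 = w1 - (M + 1) - B`: `a = B`, `n1 ≥ (31 / 32) w1`, `n2 ≤ w2 ≤ R w1`, `g ≤ 2 R + 1 ≤ 3 R`, `Q g ≤ (B / 2) 3 R ≤ β`;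
  `J ≤ (M + 1) (3 R + 3) ≤ 6 B R`; `min a … + 1 ≤ B + 4 (M + 1) + 1 ≤ 6 B`, `min b s + J + 1 ≤ 4 B R + 6 B R + 1 ≤ 11 B R`:
  the product is at most `66 B² R ≤ 132 B² w2 / w1`, and `C (132 B² w2 / w1 + X) ≤ w2`.
* If `n1 = (σ' - β) / 2 < w1 - (M + 1) - B`: `n2 ≤ n1 + 1`, `g ≤ 3`; `n1 ≥ (2 / 5) w2`, so `R ≤ 3`; `J ≤ 6 B R`; either
  `s = β`, or `b = β` and `s ≤ 2 β` (`w2 - β ≤ n1 + 1`, `w2 ≥ w1 > n1 + B + M + 1`, `σ' ≤ 2 n1 + 1 + β`): the product is at
  most `(15 B R) (11 B R) ≤ 1485 B²`, and `C (1485 B² + X) ≤ w1 ≤ w2`.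
* `n1 ≤ 2 n2`: if `n2 = σ' - β - n1` then `n2 ≥ n1`; if `n2 = w2 - β` then `n2 ≥ (7 / 8) w2`, `n1 ≤ w1 ≤ w2`.
* `J ≤ n1 + n2`: `(M + 1) (g + 3) ≤ 4 (M + 1) g ≤ n1 g ≤ n1 + n2`.
-/

namespace Pool.Agent.H18.Tk

/-- The bound. -/
def dC (B C X : ℕ) : ℕ := 3000 * C * B ^ 2 + 2 * C * X + 100 * B + 8

/-- The final assembly: `g = (n1 + n2) / n1` is at most `G`. -/
private theorem ChooseN_fin (M B Q C X w2 n1 n2 a b s β G K : ℕ) (_hB : 1 ≤ B) (hQB : 2 * Q ≤ B)
    (hMB : M + 1 ≤ B) (hn1 : 4 * B ≤ n1) (hG : (n1 + n2) / n1 ≤ G) (hβG : B * G ≤ 2 * β)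
    (hb : β ≤ b) (hs : β ≤ s) (hbs : b = β ∨ s = β)
    (hK : min (a + 4 * (M + 1)) (s + B * (G + 3)) + 1 ≤ K)
    (hfin : C * (K * (β + B * (G + 3) + 1) + X) ≤ w2) :
    Q * ((n1 + n2) / n1) ≤ b ∧ Q * ((n1 + n2) / n1) ≤ s ∧
      (M + 1) * ((n1 + n2) / n1 + 3) ≤ n1 + n2 ∧
      C * ((min (a + 4 * (M + 1)) (s + (M + 1) * ((n1 + n2) / n1 + 3)) + 1) *
        (min b s + (M + 1) * ((n1 + n2) / n1 + 3) + 1) + X) ≤ w2 := by
  have hn0 : 0 < n1 := by omega
  obtain ⟨g, hg⟩ : ∃ g, g = (n1 + n2) / n1 := ⟨_, rfl⟩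
  have hg1 : 1 ≤ g := by
    rw [hg]
    exact Nat.div_pos (by omega) hn0
  have hg2 : g * n1 ≤ n1 + n2 := by
    rw [hg]
    exact Nat.div_mul_le_self _ _
  rw [← hg] at hG ⊢
  have hQ : Q * g ≤ β := by
    have h1 : 2 * (Q * g) ≤ B * G := by
      calc 2 * (Q * g) = (2 * Q) * g := by ring
        _ ≤ B * G := Nat.mul_le_mul hQB hG
    omega
  have hJ : (M + 1) * (g + 3) ≤ B * (G + 3) := Nat.mul_le_mul hMB (by omega)
  refine ⟨hQ.trans hb, hQ.trans hs, ?_, ?_⟩
  · have h1 : (M + 1) * (g + 3) ≤ B * (4 * g) := Nat.mul_le_mul hMB (by omega)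
    have h2 : B * (4 * g) = g * (4 * B) := by ring
    have h3 : g * (4 * B) ≤ g * n1 := Nat.mul_le_mul_left _ hn1
    omega
  · refine le_trans (Nat.mul_le_mul_left _ (Nat.add_le_add_right (Nat.mul_le_mul ?_ ?_) _)) hfin
    · refine le_trans (Nat.add_le_add_right (min_le_min le_rfl (Nat.add_le_add_left hJ _)) _) hK
    · have h1 : min b s ≤ β := by
        rcases hbs with h | h
        · exact (min_le_left _ _).trans h.le
        · exact (min_le_right _ _).trans h.le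
      omega

theorem choose_n (M B Q C X w1 w2 σ : ℕ) (hQB : 2 * Q ≤ B) (hMB : M + 1 ≤ B)
    (hD : dC B C X ≤ w1) (h12 : w1 ≤ w2) (h2 : w2 ≤ σ) :
    ∃ n1 n2 a b s : ℕ, a + n1 + (M + 1) = w1 ∧ b + n2 = w2 ∧ s + n1 + n2 + (M + 1) = σ ∧
      1 ≤ n1 ∧ n1 ≤ 2 * n2 ∧ B ≤ a ∧ B ≤ b ∧ B ≤ s ∧
      Q * ((n1 + n2) / n1) ≤ b ∧ Q * ((n1 + n2) / n1) ≤ s ∧
      (M + 1) * ((n1 + n2) / n1 + 3) ≤ n1 + n2 ∧
      C * ((min (a + 4 * (M + 1)) (s + (M + 1) * ((n1 + n2) / n1 + 3)) + 1) *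
        (min b s + (M + 1) * ((n1 + n2) / n1 + 3) + 1) + X) ≤ w2 := by
  unfold dC at hD
  have hB : 1 ≤ B := by omega
  have hw1 : 0 < w1 := by omega
  have hBw : 100 * B + 8 ≤ w1 := by omega
  obtain ⟨R, hR⟩ : ∃ R, R = w2 / w1 + 1 := ⟨_, rfl⟩
  have hR2 : 2 ≤ R := by
    have h := Nat.div_pos h12 hw1
    omega
  have hRlt : w2 < R * w1 := by
    rw [hR, mul_comm]
    exact Nat.lt_mul_div_succ w2 hw1
  have hRle : R * w1 ≤ 2 * w2 := by
    have h := Nat.div_mul_le_self w2 w1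
    rw [hR, add_mul, one_mul]
    omega
  obtain ⟨β, hβ⟩ : ∃ β, β = 4 * B * R := ⟨_, rfl⟩
  have hBR : B ≤ B * R := Nat.le_mul_of_pos_right _ (by omega)
  have hBR2 : 2 * B ≤ B * R := by
    rw [mul_comm]
    exact Nat.mul_le_mul_left _ hR2
  have hβ4 : β = 4 * (B * R) := by rw [hβ]; ring
  have hβw : 25 * β ≤ 2 * w2 := by
    have h1 : B * (100 * β) ≤ B * (8 * w2) := by
      calc B * (100 * β) = (100 * B) * β := by ring
        _ ≤ w1 * β := Nat.mul_le_mul_right _ (by omega)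
        _ = (4 * B) * (R * w1) := by rw [hβ]; ring
        _ ≤ (4 * B) * (2 * w2) := Nat.mul_le_mul_left _ hRle
        _ = B * (8 * w2) := by ring
    have h2 := Nat.le_of_mul_le_mul_left h1 hB
    omega
  have hCB : 3000 * C * B ^ 2 + 2 * C * X ≤ w1 := by omega
  rcases le_total (w1 - (M + 1) - B) ((σ - (M + 1) - β) / 2) with hA | hA
  · -- the first case
    have hfin : C * (6 * B * (β + B * (2 * R + 1 + 3) + 1) + X) ≤ w2 := by
      have h1 : β + B * (2 * R + 1 + 3) + 1 ≤ 11 * (B * R) := by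
        have h3 : B * (2 * R + 1 + 3) = 2 * (B * R) + 4 * B := by ring
        rw [h3]
        omega
      have h2 : 6 * B * (β + B * (2 * R + 1 + 3) + 1) ≤ 66 * (B ^ 2 * R) := by
        calc 6 * B * (β + B * (2 * R + 1 + 3) + 1) ≤ 6 * B * (11 * (B * R)) :=
              Nat.mul_le_mul_left _ h1
          _ = 66 * (B ^ 2 * R) := by ring
      have h3 : C * (6 * B * (β + B * (2 * R + 1 + 3) + 1) + X) ≤ 66 * (C * B ^ 2 * R) + C * X := by
        calc C * (6 * B * (β + B * (2 * R + 1 + 3) + 1) + X) ≤ C * (66 * (B ^ 2 * R) + X) :=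
              Nat.mul_le_mul_left _ (by omega)
          _ = 66 * (C * B ^ 2 * R) + C * X := by ring
      have h4 : 3000 * (C * B ^ 2 * R) ≤ 2 * w2 := by
        calc 3000 * (C * B ^ 2 * R) = R * (3000 * C * B ^ 2) := by ring
          _ ≤ R * w1 := Nat.mul_le_mul_left _ (by omega)
          _ ≤ 2 * w2 := hRle
      have h5 : 2 * (C * X) ≤ w2 := by
        have h6 : 2 * (C * X) = 2 * C * X := by ring
        omega
      omega
    have hG : ∀ n1 n2 : ℕ, n1 = w1 - (M + 1) - B → n2 ≤ w2 → (n1 + n2) / n1 ≤ 2 * R + 1 := by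
      intro n1 n2 h1 h2
      have h3 : w1 ≤ 2 * n1 := by omega
      have h4 : n1 + n2 ≤ (2 * R + 1) * n1 := by
        have h5 : R * w1 ≤ R * (2 * n1) := Nat.mul_le_mul_left _ h3
        have h6 : (2 * R + 1) * n1 = R * (2 * n1) + n1 := by ring
        omega
      exact Nat.div_le_of_le_mul (by rw [mul_comm]; exact h4)
    have hβG : B * (2 * R + 1) ≤ 2 * β := by
      have h3 : B * (2 * R + 1) = 2 * (B * R) + B := by ring
      omega
    rcases le_total (w2 - β) (σ - (M + 1) - β - (w1 - (M + 1) - B)) with hn | hn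
    · refine ⟨w1 - (M + 1) - B, w2 - β, B, β, σ - (M + 1) - (w1 - (M + 1) - B) - (w2 - β),
        by omega, by omega, by omega, by omega, by omega, by omega, by omega, by omega, ?_⟩
      refine ChooseN_fin M B Q C X w2 _ _ _ _ _ β (2 * R + 1) (6 * B) hB hQB hMB (by omega)
        (hG _ _ rfl (by omega)) hβG (by omega) (by omega) (by omega) ?_ hfin
      refine le_trans (Nat.add_le_add_right (min_le_left _ _) _) ?_
      omega
    · refine ⟨w1 - (M + 1) - B, σ - (M + 1) - β - (w1 - (M + 1) - B), B,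
        w2 - (σ - (M + 1) - β - (w1 - (M + 1) - B)), β,
        by omega, by omega, by omega, by omega, by omega, by omega, by omega, by omega, ?_⟩
      refine ChooseN_fin M B Q C X w2 _ _ _ _ _ β (2 * R + 1) (6 * B) hB hQB hMB (by omega)
        (hG _ _ rfl (by omega)) hβG (by omega) (by omega) (by omega) ?_ hfin
      refine le_trans (Nat.add_le_add_right (min_le_left _ _) _) ?_
      omega
  · -- the second case
    obtain ⟨n1, hn1⟩ : ∃ n1, n1 = (σ - (M + 1) - β) / 2 := ⟨_, rfl⟩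
    have hn1a : 2 * n1 ≤ σ - (M + 1) - β := by omega
    have hn1b : σ - (M + 1) - β ≤ 2 * n1 + 1 := by omega
    have hn1c : 2 * w2 ≤ 5 * n1 := by omega
    have hR3 : R ≤ 3 := by
      have h1 : w2 / w1 ≤ 2 := by
        have h2 : w2 / w1 < 3 := by
          rw [Nat.div_lt_iff_lt_mul hw1]
          omega
        omega
      omega
    have hBR3 : B * R ≤ 3 * B := by
      rw [mul_comm 3 B]
      exact Nat.mul_le_mul_left _ hR3
    have hfin : C * (45 * B * (β + B * (3 + 3) + 1) + X) ≤ w2 := by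
      have h1 : β + B * (3 + 3) + 1 ≤ 33 * B := by omega
      have h2 : 45 * B * (β + B * (3 + 3) + 1) ≤ 1485 * B ^ 2 := by
        calc 45 * B * (β + B * (3 + 3) + 1) ≤ 45 * B * (33 * B) := Nat.mul_le_mul_left _ h1
          _ = 1485 * B ^ 2 := by ring
      have h3 : C * (45 * B * (β + B * (3 + 3) + 1) + X) ≤ 1485 * (C * B ^ 2) + C * X := by
        calc C * (45 * B * (β + B * (3 + 3) + 1) + X) ≤ C * (1485 * B ^ 2 + X) :=
              Nat.mul_le_mul_left _ (by omega)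
          _ = 1485 * (C * B ^ 2) + C * X := by ring
      have h4 : 3000 * C * B ^ 2 = 3000 * (C * B ^ 2) := by ring
      have h5 : 2 * C * X = 2 * (C * X) := by ring
      omega
    have hG : ∀ n2 : ℕ, n2 ≤ n1 + 1 → (n1 + n2) / n1 ≤ 3 := by
      intro n2 h2
      exact Nat.div_le_of_le_mul (by omega)
    have hβG : B * 3 ≤ 2 * β := by omega
    rw [← hn1] at hA
    rcases le_total (w2 - β) (σ - (M + 1) - β - n1) with hn | hn
    · refine ⟨n1, w2 - β, w1 - (M + 1) - n1, β, σ - (M + 1) - n1 - (w2 - β),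
        by omega, by omega, by omega, by omega, by omega, by omega, by omega, by omega, ?_⟩
      refine ChooseN_fin M B Q C X w2 _ _ _ _ _ β 3 (45 * B) hB hQB hMB (by omega)
        (hG _ (by omega)) hβG (by omega) (by omega) (by omega) ?_ hfin
      refine le_trans (Nat.add_le_add_right (min_le_right _ _) _) ?_
      omega
    · refine ⟨n1, σ - (M + 1) - β - n1, w1 - (M + 1) - n1, w2 - (σ - (M + 1) - β - n1), β,
        by omega, by omega, by omega, by omega, by omega, by omega, by omega, by omega, ?_⟩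
      refine ChooseN_fin M B Q C X w2 _ _ _ _ _ β 3 (45 * B) hB hQB hMB (by omega)
        (hG _ (by omega)) hβG (by omega) (by omega) (by omega) ?_ hfin
      refine le_trans (Nat.add_le_add_right (min_le_right _ _) _) ?_
      omega

end Pool.Agent.H18.Tk

end

section

/-!
# Project TK (MP_1dafdd_ag): definitions

The states of a Horace system are numbered from below along one path: the step from the state `k + 1` to
the state `k` is along the hyperplane `dir (k + 1)`.  Everything else is as in project TJ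
(`Pool/Agent/H18/Tj`), whose `Lens`, `trT`, `flT`, `cE`, `Lx`, `NE` are used.

`wS δ dir w₀ j`: the widths of the state `j` of the concrete system: `w₀` plus, for every coordinate, the number of the
steps along it below the state `j`; its degree is `σ₀ + j`.
`hS l j`: the size of the trace of the state `j` on `x_{δ l} = 0`.  `pS l j = hS l i` for the largest `i ≤ j` with
`dir i = l` (`0` if there is none): the size of the trace at the next step along `l`.
-/

namespace Pool.Agent.H18.Tk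

open Finset Function Pool.Agent.H18.Ex Pool.Agent.H18.Tj

section

variable {Λ : Type} [Fintype Λ]

/-- Length of the free points. -/
def nszP {M : ℕ} (L : Lens M) (c : Cfg Λ) : ℕ := (c.N.map L.hi).sum + c.s

/-- Total length. -/
def szP {M : ℕ} (L : Lens M) (c : Cfg Λ) : ℕ := nszP L c + ∑ l, flT L (c.Φ l)

end

/-- An abstract Horace system along a path. -/
structure SysP (Λ : Type) [DecidableEq Λ] : Type where
  /-- the configuration kills the space of the state `k` -/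
  K : ℕ → Cfg Λ → Prop
  /-- the direction of the step from the state `k` to the state `k - 1` -/
  dir : ℕ → Λ
  /-- the size of the trace in this direction -/
  F : ℕ → ℕ
  /-- the size -/
  R : ℕ → ℕ
  /-- the points with multiplicities `S` kill the trace -/
  tr : ℕ → Multiset ℕ → Prop
  mono : ∀ (k : ℕ) (c c' : Cfg Λ), c.N ≤ c'.N → c.s ≤ c'.s → (∀ l, c.Φ l ≤ c'.Φ l) →
    K k c → K k c'
  one : ∀ (k : ℕ) (N : Multiset ℕ) (s : ℕ) (Φ : Λ → Multiset (ℕ × ℕ)), K k ⟨N, s + 1, Φ⟩ →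
    K k ⟨1 ::ₘ N, s, Φ⟩
  count : ∀ k, R (k + 1) = R k + F (k + 1)
  step : ∀ (k : ℕ) (N I : Multiset ℕ) (μ t s u : ℕ) (Φ : Λ → Multiset (ℕ × ℕ)), 1 ≤ μ →
    (∀ x ∈ Φ (dir (k + 1)), x.2 ≤ x.1) →
    tr (k + 1) ((Φ (dir (k + 1))).map Prod.fst + I + Multiset.replicate (t + u) 1) →
    K k ⟨N, s, update Φ (dir (k + 1)) (shf (Φ (dir (k + 1))) + I.map (fun m => (m - 1, 1)) +
      Multiset.replicate t (μ, 2))⟩ →
    K (k + 1) ⟨N + I + Multiset.replicate t μ, s + u, Φ⟩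
  bridge : ∀ (k : ℕ) (N : Multiset ℕ) (s s₀ : ℕ) (Φ : Λ → Multiset (ℕ × ℕ)),
    K (k + 1) ⟨N, s + s₀, Φ⟩ →
    K k ⟨N, s, update Φ (dir (k + 1)) (shf (Φ (dir (k + 1))))⟩ →
    K (k + 1) ⟨N, s, update Φ (dir (k + 1)) (Φ (dir (k + 1)) + Multiset.replicate s₀ (1, 1))⟩
  full : ∀ (k : ℕ) (N : Multiset ℕ) (s : ℕ) (Φ : Λ → Multiset (ℕ × ℕ)), (∀ m ∈ N, 1 ≤ m) →
    R k ≤ N.card + s → K k ⟨N, s, Φ⟩

/-- The number of the steps along `l` below the state `j`. -/
def ct {Λ : Type} [DecidableEq Λ] (dir : ℕ → Λ) (l : Λ) (j : ℕ) : ℕ :=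
  ((range j).filter fun i => dir (i + 1) = l).card

section

variable {Λ : Type} [Fintype Λ] [DecidableEq Λ]

/-- The trace of the state `k` is killed by points of multiplicity at most `M` and at least `w` simple
points as soon as the lengths suffice. -/
def GxP {M : ℕ} (L : Lens M) (Y : SysP Λ) (w k : ℕ) : Prop :=
  ∀ S : Multiset ℕ, (∀ m ∈ S, m ≤ M) → ∀ x : ℕ, w ≤ x → Y.F k ≤ (S.map L.lo).sum + x →
    Y.tr k (S + Multiset.replicate x 1)

/-- The numerical properties of the states `0, …, kt`; `P l k` bounds the trace at the next step along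
`l`. -/
structure NumP {M : ℕ} (L : Lens M) (Y : SysP Λ) (E kt : ℕ) (P : Λ → ℕ → ℕ) : Prop where
  hM : 1 ≤ M
  hΛ : Fintype.card Λ ≤ 2
  hE : 2 * cE L ≤ E
  floor : ∀ l k, k ≤ kt → cE L ≤ P l k
  low : ∀ l k, k ≤ kt → E * P l k ≤ Y.R k
  top : ∀ k, k + 1 ≤ kt → P (Y.dir (k + 1)) (k + 1) = Y.F (k + 1)
  keep : ∀ l k, k + 1 ≤ kt → l ≠ Y.dir (k + 1) → P l (k + 1) ≤ P l k
  slow : ∀ k, k + 1 ≤ kt → E * Y.F (k + 1) ≤ E * P (Y.dir (k + 1)) k + Y.F (k + 1)
  gd : ∀ k, k + 1 ≤ kt → GxP L Y (Y.F (k + 1) / E + 1) (k + 1)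

/-- The forced conditions are bounded. -/
def InvP {M : ℕ} (L : Lens M) (P : Λ → ℕ → ℕ) (k : ℕ) (c : Cfg Λ) : Prop :=
  ∀ l, 2 * M * trT L (c.Φ l) ≤ (2 * M - 1) * P l k

end

/-! ### The concrete system -/

section

variable {Λ : Type} [DecidableEq Λ] {ι : Type} [DecidableEq ι]

/-- The widths of the state `j`. -/
def wS (δ : Λ → ι) (dir : ℕ → Λ) (w₀ : ι → ℕ) (j : ℕ) : ι → ℕ :=
  fun i => w₀ i + ((range j).filter fun t => δ (dir (t + 1)) = i).card

variable [Fintype ι]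

/-- The size of the trace of the state `j` on `x_{δ l} = 0`. -/
def hS (δ : Λ → ι) (dir : ℕ → Λ) (σ₀ : ℕ) (w₀ : ι → ℕ) (l : Λ) (j : ℕ) : ℕ :=
  (Rg (σ₀ + j) (update (wS δ dir w₀ j) (δ l) 0)).card

/-- The size of the trace at the next step along `l`. -/
def pS (δ : Λ → ι) (dir : ℕ → Λ) (σ₀ : ℕ) (w₀ : ι → ℕ) (l : Λ) : ℕ → ℕ
  | 0 => hS δ dir σ₀ w₀ l 0
  | j + 1 => if dir (j + 1) = l then hS δ dir σ₀ w₀ l (j + 1) else pS δ dir σ₀ w₀ l j

/-- The conditions of a configuration. -/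
def kindsS [Fintype Λ] (δ : Λ → ι) (c : Cfg Λ) : Multiset (Kind ι) :=
  c.N.map Kind.free + Multiset.replicate c.s (Kind.free 1) +
    ∑ l, (c.Φ l).map fun x => Kind.forced (δ l) x.1 x.2

/-- Near-exactness of all regions with the widths `w`. -/
def NEr (M E D : ℕ) (w : ι → ℕ) : Prop :=
  ∀ σ, D ≤ σ → σ + D ≤ ∑ i, w i → ∀ x₀, (Rg σ w).card ≤ E * x₀ → NE M x₀ σ w

end

end Pool.Agent.H18.Tk

end
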