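import Pool.Agent.H94.LP3.H18.FatToric
import Pool.Agent.H94.LP3.M10
import Pool.Agent.H94.LP3.M12
import Pool.Agent.H94.LP3.M55
import Pool.Agent.H94.LP3.M68

/-! The parts of this file: H18.Tj.Bal, H18.Tj.GeoB, H18.Tj.Online, H18.Tk.Bres, H18.Tk.SizeK, H18.Tk.Slab. -/

section

/-!
# Module T2 (TJ): balanced distribution

`rk ℓ u 0 s` is `ℓ - 1 - s` for `s < u` and `s - u` for `s ≥ u`.

`exists_weights`: let `W` be decreasing and convex, `d i = W i - W (i + 1)` (`≥ 0`, decreasing).  There are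
`a_u ≥ 0`, `∑ a_u = 1`, such that `∑_u a_u W (rk ℓ u 0 s)` does not depend on `s < ℓ` (so it is `(∑_{t<ℓ} W t) / ℓ`,
sum over `s`).  If `d 0 = 0` then `W` is constant and every `a` is good.  Let `d 0 > 0`, so `W 0 > W i` for `i ≥ 1`, and
`ℓ ≥ 2`.  With `R_{s+1} = ∑_{u > s} a_u` the difference of the values at `s` and `s + 1` is
`X_s - a_{s+1} (W 0 - W (ℓ - 2 - s))`, where `X_s = ∑_{u ≤ s} a_u d (s - u) - R_{s+1} d (ℓ - 2 - s)`.
For given `a_0` define (greedy) `R_1 = 1 - a_0` and `a_{s+1} = X_s / (W 0 - W (ℓ - 2 - s))`, `R_{s+2} = R_{s+1} - a_{s+1}`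
for `s ≤ ℓ - 3`, finally `a_{ℓ-1} = R_{ℓ-1}`; then `∑ a = 1` and all differences vanish except possibly the
last one, which is `X_{ℓ-2}`.
(1) If `a_0 = 1`: all `a_s ≥ 0` (`s ≤ ℓ - 2`) and all `R_s ≤ 0`, so `X_{ℓ-2} ≥ 0`.  (2) If `a_0 = 0`: `X_0 ≤ 0`, all `a_s ≤ 0`
(`1 ≤ s ≤ ℓ - 2`), all `R_s ≥ 1`, `X_{ℓ-2} ≤ 0`.  Everything is linear, so a convex combination of the two solutions
has `X_{ℓ-2} = 0`.  (3) Then all `a_s ≥ 0`: let `a_{s+1} < 0` be the first negative one, `s + 1 ≤ ℓ - 2`; then `X_s < 0`, so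
`R_{s+1} > 0`, and by induction `a_{t+1} ≤ 0`, `R_{t+1} ≥ R_{s+1}`, `X_t ≤ X_s < 0` for all `t ≥ s` (the `d (t - u)`,
`u ≤ s`, decrease, `d (ℓ - 2 - t)` increases), a contradiction at `t = ℓ - 2`.  Finally `X_{ℓ-2} = 0` reads
`∑_{u ≤ ℓ-2} a_u d (ℓ - 2 - u) = a_{ℓ-1} d 0`, so `a_{ℓ-1} ≥ 0`.

`bal`: `∑_u a_u ∑_s y s (ℓ W (rk ℓ u 0 s) - ∑ W) = 0`, so one of the terms is `≤ 0`.
-/

namespace Pool.Agent.H18.Tj

open Finset Pool.Agent.H18.Ta

/-- The difference of the values at `s` and `s + 1`, up to the term with `a (s + 1)`. -/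
private def Bal_X (ℓ : ℕ) (d a : ℕ → ℝ) (s : ℕ) : ℝ :=
  ∑ u ∈ range (s + 1), a u * d (s - u) - (1 - ∑ u ∈ range (s + 1), a u) * d (ℓ - 2 - s)

private theorem Bal_X_congr (ℓ : ℕ) (d : ℕ → ℝ) {a b : ℕ → ℝ} {s : ℕ}
    (h : ∀ u ≤ s, a u = b u) : Bal_X ℓ d a s = Bal_X ℓ d b s := by
  unfold Bal_X
  have h1 : ∑ u ∈ range (s + 1), a u * d (s - u) = ∑ u ∈ range (s + 1), b u * d (s - u) :=
    sum_congr rfl fun u hu => by rw [h u (by rw [mem_range] at hu; omega)]
  have h2 : ∑ u ∈ range (s + 1), a u = ∑ u ∈ range (s + 1), b u :=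
    sum_congr rfl fun u hu => by rw [h u (by rw [mem_range] at hu; omega)]
  rw [h1, h2]

/-- Greedy sequences. -/
private theorem Bal_greedy (ℓ : ℕ) (W d : ℕ → ℝ) (p : ℝ) (n : ℕ)
    (hpos : ∀ s < n, W 0 - W (ℓ - 2 - s) ≠ 0) :
    ∃ a : ℕ → ℝ, a 0 = p ∧ ∀ s < n, a (s + 1) * (W 0 - W (ℓ - 2 - s)) = Bal_X ℓ d a s := by
  induction n with
  | zero => exact ⟨fun _ => p, rfl, fun s hs => absurd hs (Nat.not_lt_zero s)⟩
  | succ n ih =>
    obtain ⟨a, ha0, ha⟩ := ih fun s hs => hpos s (by omega)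
    refine ⟨Function.update a (n + 1) (Bal_X ℓ d a n / (W 0 - W (ℓ - 2 - n))), ?_, ?_⟩
    · rw [Function.update_of_ne (by omega), ha0]
    · intro s hs
      rcases Nat.lt_succ_iff_lt_or_eq.1 hs with h | h
      · rw [Function.update_of_ne (by omega), ha s h]
        apply Bal_X_congr
        intro u hu
        rw [Function.update_of_ne (by omega)]
      · subst h
        rw [Function.update_self, div_mul_cancel₀ _ (hpos s (by omega))]
        apply Bal_X_congr
        intro u hu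
        rw [Function.update_of_ne (by omega)]

private theorem Bal_anti {d : ℕ → ℝ} (hd : ∀ i, d (i + 1) ≤ d i) {i j : ℕ} (h : i ≤ j) :
    d j ≤ d i := antitone_nat_of_succ_le hd h

/-- The value at the layer `s`. -/
private theorem Bal_value (ℓ : ℕ) (W a : ℕ → ℝ) {s : ℕ} (hs : s < ℓ)
    (hsum : ∑ u ∈ range ℓ, a u = 1) :
    ∑ u ∈ range ℓ, a u * W (rk ℓ u 0 s) =
      ∑ u ∈ range (s + 1), a u * W (s - u) + (1 - ∑ u ∈ range (s + 1), a u) * W (ℓ - 1 - s) := by
  have h1 : range ℓ = range (s + 1) ∪ (range ℓ \ range (s + 1)) := by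
    rw [union_sdiff_of_subset]
    exact range_subset_range.2 (by omega)
  have hdis : Disjoint (range (s + 1)) (range ℓ \ range (s + 1)) := disjoint_sdiff
  have h2 : ∑ u ∈ range ℓ \ range (s + 1), a u = 1 - ∑ u ∈ range (s + 1), a u := by
    rw [h1, sum_union hdis] at hsum
    linarith
  conv_lhs => rw [h1, sum_union hdis]
  rw [← h2, sum_mul]
  congr 1
  · refine sum_congr rfl fun u hu => ?_
    rw [mem_range] at hu
    congr 2
    unfold rk
    rw [if_neg (by omega)]
    split_ifs <;> omega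
  · refine sum_congr rfl fun u hu => ?_
    rw [mem_sdiff, mem_range, mem_range] at hu
    congr 2
    unfold rk
    rw [if_pos (by omega)]

private theorem Bal_total (ℓ : ℕ) (W a : ℕ → ℝ) (hsum : ∑ u ∈ range ℓ, a u = 1) :
    ∑ s ∈ range ℓ, ∑ u ∈ range ℓ, a u * W (rk ℓ u 0 s) = ∑ t ∈ range ℓ, W t := by
  rw [sum_comm]
  have h1 : ∀ u ∈ range ℓ, ∑ s ∈ range ℓ, a u * W (rk ℓ u 0 s) = a u * ∑ t ∈ range ℓ, W t := by
    intro u hu
    rw [mem_range] at hu
    rw [← mul_sum]
    congr 1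
    have hinj : Set.InjOn (rk ℓ u 0) (range ℓ : Finset ℕ) := by
      intro s hs t ht he
      exact rk_inj (by omega) (mem_range.1 hs) (mem_range.1 ht) he
    have himg : (range ℓ).image (rk ℓ u 0) = range ℓ := by
      apply eq_of_subset_of_card_le
      · intro k hk
        obtain ⟨s, hs, rfl⟩ := mem_image.1 hk
        exact mem_range.2 (rk_lt (by omega) (mem_range.1 hs))
      · rw [card_image_of_injOn hinj]
    conv_rhs => rw [← himg, sum_image hinj]
  rw [sum_congr rfl h1, ← sum_mul, hsum, one_mul]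

/-- The combinatorial core: signs of the combination of two greedy solutions. -/
private theorem Bal_signs (n : ℕ) (W d c : ℕ → ℝ) (hd0 : ∀ i, 0 ≤ d i)
    (hdd : ∀ i, d (i + 1) ≤ d i) (hpos : ∀ s < n, 0 < W 0 - W (n - s))
    (hc0 : 0 ≤ c 0) (hc : ∀ s < n, c (s + 1) * (W 0 - W (n - s)) = Bal_X (n + 2) d c s)
    (hX : Bal_X (n + 2) d c n = 0) : ∀ u ≤ n, 0 ≤ c u := by
  by_contra hcon
  push Not at hcon
  classical
  have hex : ∃ u, u ≤ n ∧ c u < 0 := by
    obtain ⟨u, hu, hlt⟩ := hcon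
    exact ⟨u, hu, hlt⟩
  obtain ⟨hm1, hm2⟩ := Nat.find_spec hex
  have hmin : ∀ v < Nat.find hex, 0 ≤ c v := by
    intro v hv
    have h1 := Nat.find_min hex hv
    push Not at h1
    exact h1 (by omega)
  obtain ⟨s, hs⟩ : ∃ s, Nat.find hex = s + 1 := by
    rcases Nat.eq_zero_or_pos (Nat.find hex) with h | h
    · rw [h] at hm2
      linarith
    · exact ⟨Nat.find hex - 1, by omega⟩
  rw [hs] at hm1 hm2 hmin
  have hXs : Bal_X (n + 2) d c s < 0 := by
    rw [← hc s (by omega)]
    exact mul_neg_of_neg_of_pos hm2 (hpos s (by omega))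
  have hsum0 : ∀ t, s ≤ t → 0 ≤ ∑ u ∈ range (s + 1), c u * d (t - u) := fun t _ =>
    sum_nonneg fun u hu => mul_nonneg (hmin u (by rw [mem_range] at hu; omega)) (hd0 _)
  have hR : 0 < 1 - ∑ u ∈ range (s + 1), c u := by
    unfold Bal_X at hXs
    have h1 := hsum0 s le_rfl
    by_contra h2
    push Not at h2
    have h3 := mul_nonpos_of_nonpos_of_nonneg h2 (hd0 (n + 2 - 2 - s))
    linarith
  -- induction
  have key : ∀ t, s ≤ t → t ≤ n → (Bal_X (n + 2) d c t ≤ Bal_X (n + 2) d c s) ∧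
      (1 - ∑ u ∈ range (s + 1), c u ≤ 1 - ∑ u ∈ range (t + 1), c u) ∧
      (∀ v, s < v → v ≤ t → c v ≤ 0) := by
    intro t ht
    induction t, ht using Nat.le_induction with
    | base =>
      intro _
      exact ⟨le_rfl, le_rfl, fun v h1 h2 => by omega⟩
    | succ t ht ih =>
      intro htn
      obtain ⟨h1, h2, h3⟩ := ih (by omega)
      have h4 : c (t + 1) ≤ 0 := by
        have h5 := hc t (by omega)
        have h6 : c (t + 1) * (W 0 - W (n - t)) < 0 := by
          rw [h5]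
          linarith
        by_contra h7
        push Not at h7
        have h8 := mul_nonneg h7.le (hpos t (by omega)).le
        linarith
      have h5 : ∀ v, s < v → v ≤ t + 1 → c v ≤ 0 := by
        intro v hv1 hv2
        rcases Nat.lt_or_ge t v with h6 | h6
        · have : v = t + 1 := by omega
          rw [this]
          exact h4
        · exact h3 v hv1 h6
      have h6 : 1 - ∑ u ∈ range (s + 1), c u ≤ 1 - ∑ u ∈ range (t + 1 + 1), c u := by
        rw [sum_range_succ c (t + 1)]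
        linarith
      refine ⟨?_, h6, h5⟩
      -- the comparison
      have hsplit : range (t + 1 + 1) = range (s + 1) ∪ (range (t + 1 + 1) \ range (s + 1)) := by
        rw [union_sdiff_of_subset]
        exact range_subset_range.2 (by omega)
      have hdis : Disjoint (range (s + 1)) (range (t + 1 + 1) \ range (s + 1)) := disjoint_sdiff
      have h7 : ∑ u ∈ range (t + 1 + 1), c u * d (t + 1 - u) ≤
          ∑ u ∈ range (s + 1), c u * d (s - u) := by
        rw [hsplit, sum_union hdis]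
        have h8 : ∑ u ∈ range (t + 1 + 1) \ range (s + 1), c u * d (t + 1 - u) ≤ 0 := by
          apply sum_nonpos
          intro u hu
          rw [mem_sdiff, mem_range, mem_range] at hu
          exact mul_nonpos_of_nonpos_of_nonneg (h5 u (by omega) (by omega)) (hd0 _)
        have h9 : ∑ u ∈ range (s + 1), c u * d (t + 1 - u) ≤
            ∑ u ∈ range (s + 1), c u * d (s - u) := by
          apply sum_le_sum
          intro u hu
          rw [mem_range] at hu
          exact mul_le_mul_of_nonneg_left (Bal_anti hdd (by omega)) (hmin u (by omega))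
        linarith
      have h8 : (1 - ∑ u ∈ range (s + 1), c u) * d (n + 2 - 2 - s) ≤
          (1 - ∑ u ∈ range (t + 1 + 1), c u) * d (n + 2 - 2 - (t + 1)) :=
        mul_le_mul h6 (Bal_anti hdd (by omega)) (hd0 _) (by linarith)
      unfold Bal_X
      linarith
  obtain ⟨h1, _, _⟩ := key n (by omega) le_rfl
  rw [hX] at h1
  linarith

private theorem Bal_const {W : ℕ → ℝ} (h : ∀ i, W (i + 1) = W i) : ∀ i, W i = W 0 := by
  intro i
  induction i with
  | zero => rfl
  | succ i ih => rw [h, ih]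

theorem exists_weights (ℓ : ℕ) (hℓ : 1 ≤ ℓ) (W : ℕ → ℝ) (hdec : ∀ i, W (i + 1) ≤ W i)
    (hconv : ∀ i, 2 * W (i + 1) ≤ W i + W (i + 2)) :
    ∃ a : ℕ → ℝ, (∀ u < ℓ, 0 ≤ a u) ∧ ∑ u ∈ range ℓ, a u = 1 ∧
      ∀ s < ℓ, ∑ u ∈ range ℓ, a u * W (rk ℓ u 0 s) = (∑ t ∈ range ℓ, W t) / ℓ := by
  have hℓ0 : (ℓ : ℝ) ≠ 0 := by
    have : (1 : ℝ) ≤ ℓ := by exact_mod_cast hℓ
    linarith
  -- it suffices that the values are constant
  have hfin : ∀ a : ℕ → ℝ, (∀ u < ℓ, 0 ≤ a u) → ∑ u ∈ range ℓ, a u = 1 →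
      (∀ s, s + 1 < ℓ → ∑ u ∈ range ℓ, a u * W (rk ℓ u 0 s) =
        ∑ u ∈ range ℓ, a u * W (rk ℓ u 0 (s + 1))) →
      ∃ a : ℕ → ℝ, (∀ u < ℓ, 0 ≤ a u) ∧ ∑ u ∈ range ℓ, a u = 1 ∧
      ∀ s < ℓ, ∑ u ∈ range ℓ, a u * W (rk ℓ u 0 s) = (∑ t ∈ range ℓ, W t) / ℓ := by
    intro a h1 h2 h3
    refine ⟨a, h1, h2, ?_⟩
    have h4 : ∀ s, s < ℓ → ∑ u ∈ range ℓ, a u * W (rk ℓ u 0 s) =
        ∑ u ∈ range ℓ, a u * W (rk ℓ u 0 0) := by
      intro s
      induction s with
      | zero => intro _; rfl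
      | succ s ih => intro hs; rw [← h3 s hs, ih (by omega)]
    have h5 := Bal_total ℓ W a h2
    rw [sum_congr rfl fun s hs => h4 s (mem_range.1 hs), sum_const, card_range, nsmul_eq_mul] at h5
    intro s hs
    rw [h4 s hs, ← h5]
    field_simp
  by_cases hW : W 1 = W 0
  · -- `W` is constant
    have h1 : ∀ i, W (i + 1) = W i := by
      intro i
      induction i with
      | zero => exact hW
      | succ i ih =>
        have h2 := hconv i
        have h3 := hdec (i + 1)
        linarith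
    have h2 := Bal_const h1
    refine hfin (fun u => if u = 0 then 1 else 0) ?_ ?_ ?_
    · intro u _
      split_ifs <;> norm_num
    · rw [sum_ite_eq' (range ℓ) 0, if_pos (mem_range.2 (by omega))]
    · intro s _
      refine sum_congr rfl fun u _ => ?_
      rw [h2 (rk ℓ u 0 s), h2 (rk ℓ u 0 (s + 1))]
  rcases Nat.lt_or_ge ℓ 2 with hℓ2 | hℓ2
  · have h1 : ℓ = 1 := by omega
    subst h1
    refine hfin (fun _ => 1) (fun _ _ => by norm_num) (by simp) ?_
    intro s hs
    omega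
  obtain ⟨n, rfl⟩ : ∃ n, ℓ = n + 2 := ⟨ℓ - 2, by omega⟩
  set d : ℕ → ℝ := fun i => W i - W (i + 1) with hd
  have hd0 : ∀ i, 0 ≤ d i := fun i => by rw [hd]; beta_reduce; linarith [hdec i]
  have hdd : ∀ i, d (i + 1) ≤ d i := fun i => by
    rw [hd]; beta_reduce
    have := hconv i
    linarith
  have hd00 : 0 < d 0 := by
    have h1 : W 1 < W 0 := lt_of_le_of_ne (hdec 0) hW
    rw [hd]
    beta_reduce
    linarith
  have hWanti : ∀ {i j : ℕ}, i ≤ j → W j ≤ W i := fun h => antitone_nat_of_succ_le hdec h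
  have hpos : ∀ s < n, 0 < W 0 - W (n - s) := by
    intro s hs
    have h1 : W (n - s) ≤ W 1 := hWanti (by omega)
    have h2 : W 1 < W 0 := lt_of_le_of_ne (hdec 0) hW
    linarith
  -- the two solutions
  obtain ⟨a1, ha10, ha1⟩ := Bal_greedy (n + 2) W d 1 n (fun s hs => by
    have h := hpos s hs
    rw [show n + 2 - 2 - s = n - s by omega]
    exact h.ne')
  obtain ⟨a0, ha00, ha0⟩ := Bal_greedy (n + 2) W d 0 n (fun s hs => by
    have h := hpos s hs
    rw [show n + 2 - 2 - s = n - s by omega]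
    exact h.ne')
  have e : ∀ s, n + 2 - 2 - s = n - s := fun s => by omega
  have hA1 : ∀ t, t ≤ n → (∀ u ≤ t, 0 ≤ a1 u) ∧ 1 - ∑ u ∈ range (t + 1), a1 u ≤ 0 ∧
      0 ≤ Bal_X (n + 2) d a1 t := by
    have hX : ∀ t, (∀ u ≤ t, 0 ≤ a1 u) → 1 - ∑ u ∈ range (t + 1), a1 u ≤ 0 →
        0 ≤ Bal_X (n + 2) d a1 t := by
      intro t h1 h2
      unfold Bal_X
      have h3 : 0 ≤ ∑ u ∈ range (t + 1), a1 u * d (t - u) :=
        sum_nonneg fun u hu => mul_nonneg (h1 u (by rw [mem_range] at hu; omega)) (hd0 _)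
      have h4 := mul_nonpos_of_nonpos_of_nonneg h2 (hd0 (n + 2 - 2 - t))
      linarith
    intro t
    induction t with
    | zero =>
      intro _
      have h1 : ∀ u ≤ 0, 0 ≤ a1 u := by
        intro u hu
        rw [Nat.le_zero.1 hu, ha10]
        norm_num
      have h2 : 1 - ∑ u ∈ range (0 + 1), a1 u ≤ 0 := by
        rw [zero_add, sum_range_one, ha10]
        norm_num
      exact ⟨h1, h2, hX 0 h1 h2⟩
    | succ t ih =>
      intro ht
      obtain ⟨h1, h2, h3⟩ := ih (by omega)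
      have h4 : 0 ≤ a1 (t + 1) := by
        have h5 := ha1 t (by omega)
        have h6 := hpos t (by omega)
        rw [e] at h5
        by_contra h7
        push Not at h7
        have h8 := mul_neg_of_neg_of_pos h7 h6
        linarith
      have h5 : ∀ u ≤ t + 1, 0 ≤ a1 u := by
        intro u hu
        rcases Nat.lt_or_ge t u with h6 | h6
        · rw [show u = t + 1 by omega]
          exact h4
        · exact h1 u h6
      have h6 : 1 - ∑ u ∈ range (t + 1 + 1), a1 u ≤ 0 := by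
        rw [sum_range_succ]
        linarith
      exact ⟨h5, h6, hX _ h5 h6⟩
  have hA0 : ∀ t, t ≤ n → (∀ u ≤ t, a0 u ≤ 0) ∧ 1 ≤ 1 - ∑ u ∈ range (t + 1), a0 u ∧
      Bal_X (n + 2) d a0 t ≤ 0 := by
    have hX : ∀ t, (∀ u ≤ t, a0 u ≤ 0) → 1 ≤ 1 - ∑ u ∈ range (t + 1), a0 u →
        Bal_X (n + 2) d a0 t ≤ 0 := by
      intro t h1 h2
      unfold Bal_X
      have h3 : ∑ u ∈ range (t + 1), a0 u * d (t - u) ≤ 0 :=
        sum_nonpos fun u hu => mul_nonpos_of_nonpos_of_nonneg
          (h1 u (by rw [mem_range] at hu; omega)) (hd0 _)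
      have h4 : 0 ≤ (1 - ∑ u ∈ range (t + 1), a0 u) * d (n + 2 - 2 - t) :=
        mul_nonneg (by linarith) (hd0 _)
      linarith
    intro t
    induction t with
    | zero =>
      intro _
      have h1 : ∀ u ≤ 0, a0 u ≤ 0 := by
        intro u hu
        rw [Nat.le_zero.1 hu, ha00]
      have h2 : 1 ≤ 1 - ∑ u ∈ range (0 + 1), a0 u := by
        rw [zero_add, sum_range_one, ha00]
        norm_num
      exact ⟨h1, h2, hX 0 h1 h2⟩
    | succ t ih =>
      intro ht
      obtain ⟨h1, h2, h3⟩ := ih (by omega)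
      have h4 : a0 (t + 1) ≤ 0 := by
        have h5 := ha0 t (by omega)
        have h6 := hpos t (by omega)
        rw [e] at h5
        by_contra h7
        push Not at h7
        have h8 := mul_pos h7 h6
        linarith
      have h5 : ∀ u ≤ t + 1, a0 u ≤ 0 := by
        intro u hu
        rcases Nat.lt_or_ge t u with h6 | h6
        · rw [show u = t + 1 by omega]
          exact h4
        · exact h1 u h6
      have h6 : 1 ≤ 1 - ∑ u ∈ range (t + 1 + 1), a0 u := by
        rw [sum_range_succ]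
        linarith
      exact ⟨h5, h6, hX _ h5 h6⟩
  have hx1 := (hA1 n le_rfl).2.2
  have hx0 := (hA0 n le_rfl).2.2
  obtain ⟨lam, hl0, hl1, hlX⟩ : ∃ lam : ℝ, 0 ≤ lam ∧ lam ≤ 1 ∧
      lam * Bal_X (n + 2) d a1 n + (1 - lam) * Bal_X (n + 2) d a0 n = 0 := by
    rcases eq_or_lt_of_le (show Bal_X (n + 2) d a0 n ≤ Bal_X (n + 2) d a1 n by linarith) with h | h
    · refine ⟨1, by norm_num, le_rfl, ?_⟩
      have : Bal_X (n + 2) d a1 n = 0 := by linarith
      rw [this]
      ring
    · have h1 : 0 < Bal_X (n + 2) d a1 n - Bal_X (n + 2) d a0 n := by linarith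
      refine ⟨-Bal_X (n + 2) d a0 n / (Bal_X (n + 2) d a1 n - Bal_X (n + 2) d a0 n), ?_, ?_, ?_⟩
      · exact div_nonneg (by linarith) h1.le
      · rw [div_le_one h1]
        linarith
      · field_simp
        ring
  set c : ℕ → ℝ := fun u => lam * a1 u + (1 - lam) * a0 u with hcdef
  have hXlin : ∀ t, Bal_X (n + 2) d c t =
      lam * Bal_X (n + 2) d a1 t + (1 - lam) * Bal_X (n + 2) d a0 t := by
    intro t
    unfold Bal_X
    have h1 : ∑ u ∈ range (t + 1), c u * d (t - u) =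
        lam * ∑ u ∈ range (t + 1), a1 u * d (t - u) +
          (1 - lam) * ∑ u ∈ range (t + 1), a0 u * d (t - u) := by
      rw [mul_sum, mul_sum, ← sum_add_distrib]
      exact sum_congr rfl fun u _ => by rw [hcdef]; ring
    have h2 : ∑ u ∈ range (t + 1), c u =
        lam * ∑ u ∈ range (t + 1), a1 u + (1 - lam) * ∑ u ∈ range (t + 1), a0 u := by
      rw [mul_sum, mul_sum, ← sum_add_distrib]
    rw [h1, h2]
    ring
  have hc0 : 0 ≤ c 0 := by
    rw [hcdef]
    beta_reduce
    rw [ha10, ha00]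
    linarith
  have hc : ∀ s < n, c (s + 1) * (W 0 - W (n - s)) = Bal_X (n + 2) d c s := by
    intro s hs
    have h1 := ha1 s hs
    have h0 := ha0 s hs
    rw [e] at h1 h0
    rw [hXlin, ← h1, ← h0, hcdef]
    ring
  have hcX : Bal_X (n + 2) d c n = 0 := by rw [hXlin]; exact hlX
  have hcn := Bal_signs n W d c hd0 hdd hpos hc0 hc hcX
  -- the weights
  set a : ℕ → ℝ := fun u => if u = n + 1 then 1 - ∑ v ∈ range (n + 1), c v else c u with hadef
  have hac : ∀ u ≤ n, a u = c u := fun u hu => by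
    rw [hadef]
    beta_reduce
    rw [if_neg (by omega)]
  have hasum : ∀ t ≤ n, ∑ u ∈ range (t + 1), a u = ∑ u ∈ range (t + 1), c u := fun t ht =>
    sum_congr rfl fun u hu => hac u (by rw [mem_range] at hu; omega)
  have hatot : ∑ u ∈ range (n + 2), a u = 1 := by
    rw [sum_range_succ, hasum n le_rfl, hadef]
    beta_reduce
    rw [if_pos rfl]
    ring
  have haX : ∀ t ≤ n, Bal_X (n + 2) d a t = Bal_X (n + 2) d c t := fun t ht =>
    Bal_X_congr _ _ fun u hu => hac u (by omega)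
  refine hfin a ?_ hatot ?_
  · intro u hu
    rcases Nat.lt_or_ge u (n + 1) with h | h
    · rw [hac u (by omega)]
      exact hcn u (by omega)
    · have h1 : u = n + 1 := by omega
      rw [h1, hadef]
      beta_reduce
      rw [if_pos rfl]
      have h2 := hcX
      unfold Bal_X at h2
      rw [show n + 2 - 2 - n = 0 by omega] at h2
      have h3 : 0 ≤ ∑ u ∈ range (n + 1), c u * d (n - u) :=
        sum_nonneg fun u hu => mul_nonneg (hcn u (by rw [mem_range] at hu; omega)) (hd0 _)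
      by_contra h4
      push Not at h4
      have h5 := mul_neg_of_neg_of_pos h4 hd00
      linarith
  · intro s hs
    rw [Bal_value (n + 2) W a (by omega) hatot, Bal_value (n + 2) W a hs hatot,
      sum_range_succ (fun u => a u * W (s + 1 - u)) (s + 1), sum_range_succ a (s + 1), Nat.sub_self]
    rw [show n + 2 - 1 - (s + 1) = n - s by omega, show n + 2 - 1 - s = n - s + 1 by omega]
    have h1 : ∑ u ∈ range (s + 1), a u * W (s + 1 - u) =
        ∑ u ∈ range (s + 1), a u * W (s - u) - ∑ u ∈ range (s + 1), a u * d (s - u) := by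
      rw [← sum_sub_distrib]
      refine sum_congr rfl fun u hu => ?_
      rw [mem_range] at hu
      rw [hd, show s + 1 - u = s - u + 1 by omega]
      ring
    rw [h1]
    have h2 : d (n - s) = W (n - s) - W (n - s + 1) := rfl
    have h3 : a (s + 1) * (W 0 - W (n - s)) = Bal_X (n + 2) d a s := by
      rw [haX s (by omega)]
      rcases Nat.lt_or_ge s n with h4 | h4
      · rw [hac (s + 1) (by omega)]
        exact hc s h4
      · have h5 : s = n := by omega
        rw [h5, Nat.sub_self, sub_self, mul_zero, hcX]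
    unfold Bal_X at h3
    rw [e, h2] at h3
    linarith

theorem bal (ℓ : ℕ) (hℓ : 1 ≤ ℓ) (W : ℕ → ℕ) (hdec : ∀ i, W (i + 1) ≤ W i)
    (hconv : ∀ i, 2 * W (i + 1) ≤ W i + W (i + 2)) (y : ℕ → ℤ) :
    ∃ u < ℓ, ∑ s ∈ range ℓ, y s * ((ℓ : ℤ) * W (rk ℓ u 0 s) - ∑ t ∈ range ℓ, (W t : ℤ)) ≤ 0 := by
  obtain ⟨a, ha0, hasum, ha⟩ := exists_weights ℓ hℓ (fun i => (W i : ℝ))
    (fun i => by exact_mod_cast hdec i) (fun i => by exact_mod_cast hconv i)
  by_contra hcon
  push Not at hcon
  have hℓ0 : (ℓ : ℝ) ≠ 0 := by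
    have : (1 : ℝ) ≤ ℓ := by exact_mod_cast hℓ
    linarith
  have h1 : ∀ u < ℓ, (0 : ℝ) < ∑ s ∈ range ℓ, (y s : ℝ) *
      ((ℓ : ℝ) * (W (rk ℓ u 0 s) : ℝ) - ∑ t ∈ range ℓ, (W t : ℝ)) := by
    intro u hu
    have h2 := hcon u hu
    have h3 : ((0 : ℤ) : ℝ) < ((∑ s ∈ range ℓ, y s * ((ℓ : ℤ) * W (rk ℓ u 0 s) -
        ∑ t ∈ range ℓ, (W t : ℤ)) : ℤ) : ℝ) := by exact_mod_cast h2
    push_cast at h3
    exact h3
  have h2 : ∑ u ∈ range ℓ, a u * ∑ s ∈ range ℓ, (y s : ℝ) *
      ((ℓ : ℝ) * (W (rk ℓ u 0 s) : ℝ) - ∑ t ∈ range ℓ, (W t : ℝ)) = 0 := by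
    have h3 : ∑ u ∈ range ℓ, a u * ∑ s ∈ range ℓ, (y s : ℝ) *
        ((ℓ : ℝ) * (W (rk ℓ u 0 s) : ℝ) - ∑ t ∈ range ℓ, (W t : ℝ)) =
        ∑ s ∈ range ℓ, (y s : ℝ) * ((ℓ : ℝ) * (∑ u ∈ range ℓ, a u * (W (rk ℓ u 0 s) : ℝ)) -
          (∑ u ∈ range ℓ, a u) * ∑ t ∈ range ℓ, (W t : ℝ)) := by
      generalize ∑ t ∈ range ℓ, (W t : ℝ) = T
      rw [sum_congr rfl fun u _ => mul_sum (range ℓ) _ (a u), sum_comm]
      refine sum_congr rfl fun s _ => ?_
      rw [mul_sum, sum_mul, ← sum_sub_distrib, mul_sum]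
      refine sum_congr rfl fun u _ => ?_
      ring
    rw [h3]
    apply sum_eq_zero
    intro s hs
    rw [ha s (mem_range.1 hs), hasum]
    field_simp
    ring
  have h3 : ∃ u ∈ range ℓ, 0 < a u := by
    by_contra h4
    push Not at h4
    have h5 : ∑ u ∈ range ℓ, a u ≤ 0 := sum_nonpos h4
    linarith
  obtain ⟨u, hu, hau⟩ := h3
  have h4 : 0 < ∑ u ∈ range ℓ, a u * ∑ s ∈ range ℓ, (y s : ℝ) *
      ((ℓ : ℝ) * (W (rk ℓ u 0 s) : ℝ) - ∑ t ∈ range ℓ, (W t : ℝ)) := by
    apply sum_pos'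
    · intro v hv
      exact mul_nonneg (ha0 v (mem_range.1 hv)) (h1 v (mem_range.1 hv)).le
    · exact ⟨u, hu, mul_pos hau (h1 u (mem_range.1 hu))⟩
  linarith

end Pool.Agent.H18.Tj

end

section

/-!
# Module G1b (TJ), `upper`:: the dimension of the fat point systems

`bw r d s b`: width `b l` at the coordinates `l < s`, width `d` at the others.

`upper`: as `Geo_special` in `Pool/Agent/H18/Ta/Geo.lean` and `exists_special` in `Pool/Agent/H18/Ex/Final.lean`:
`p₀ (J l)` is the coordinate point `Pi.single l 1` (`l < s`), the other `p₀ i` and the `N - L` simple points are the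
positions given by `GM_iff`; the forms are supported in `Rg d w` (`vanishes_coord_iff`); `general_finrank_le`.

`toric_ge` (for arbitrary positions): the conditions `Kind.free m` on the functions supported in `Rg d w`, `m ≤ d`
(`m - 1 < d` suffices), follow from the conditions with `|b| = m - 1`, `b ≤ w`, of which there are `Lx w m`:
for `|b| < d` the Euler relation `(d - |b|) D_b = ∑_j (b_j + 1) q_j D_{b + e_j}`, `D_b = ∑_a f a * tcr q a b`
(`binom (a_j, b_j) (a_j - b_j) = (b_j + 1) binom (a_j, b_j + 1)`, `∑_j (a_j - b_j) = d - |b|`), gives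
`D_b = 0` for all `|b| < m` by descending induction on `|b|`; and `D_b = 0` if some `b_j > w_j` (`binom (a_j, b_j) = 0`).
So the space of solutions has dimension at least `card - ∑ Lx w (m i)` (rank-nullity).

`lower`: for general `p` the points `p (J l)` and the coordinate points `e_l`, `s ≤ l ≤ r`, are linearly independent
(the determinant is a nonzero polynomial, see `general_det` in `Pool/Agent/H18/TileFinal.lean`); `finrank_linear`
(`Pool/Agent/H18/Cub/CremL.lean`; or `finrank_linSubst`) moves `p (J l)` to `e_l`; then `toric_ge` for the images of the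
other points, and the polynomials with coefficients in the space of solutions are in `fatForms`
(`finrank_coord_ge` in `TileFinal.lean` shows how to construct the injection; `vanishes_coord_iff`).
-/

namespace Pool.Agent.H18.Tj

open Finset Function Pool.Agent.H18.Ex Pool.Agent.H18.Fat

/-- The widths. -/
def bw (r d s : ℕ) (b : Fin s → ℕ) : Fin (r + 1) → ℕ :=
  fun l => if h : l.val < s then b ⟨l.val, h⟩ else d

/-- The special configuration. -/
private theorem GeoB_special {r k d s : ℕ} (hs : s ≤ r + 1) (m : Fin k → ℕ)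
    (J : Fin s ↪ Fin k) (hJ : ∀ l, m (J l) ≤ d) (R : ℕ)
    (h : GM (Ex.Rg d (bw r d s fun l => d - m (J l)))
      ((((univ.filter fun i => ∀ l, J l ≠ i).val.map m) + Multiset.replicate R 1).map
        Kind.free)) :
    ∃ p₀ : Fin k → Fin (r + 1) → ℂ, Module.finrank ℂ (fatForms r d p₀ m) ≤ R := by
  classical
  set w : Fin (r + 1) → ℕ := bw r d s fun l => d - m (J l) with hw
  let I := {i : Fin k // ∀ l, J l ≠ i}
  let kk : I ⊕ Fin R → Kind (Fin (r + 1)) :=
    Sum.elim (fun i => Kind.free (m i.1)) fun _ => Kind.free 1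
  have hkk : (univ : Finset (I ⊕ Fin R)).val.map kk =
      (((univ.filter fun i => ∀ l, J l ≠ i).val.map m) + Multiset.replicate R 1).map
        Kind.free := by
    have h1 : (univ : Finset (I ⊕ Fin R)).val =
        (univ : Finset I).val.map Sum.inl + (univ : Finset (Fin R)).val.map Sum.inr := rfl
    have h2 : (univ.filter fun i : Fin k => ∀ l, J l ≠ i).val =
        (univ : Finset I).val.map Subtype.val := by
      have h3 : (univ.filter fun i : Fin k => ∀ l, J l ≠ i) =
          (univ : Finset I).map (Function.Embedding.subtype _) := by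
        ext i
        simp only [mem_filter, mem_univ, true_and, mem_map, Function.Embedding.coe_subtype]
        constructor
        · intro hi
          exact ⟨⟨i, hi⟩, rfl⟩
        · rintro ⟨a, rfl⟩
          exact a.2
      rw [h3]
      rfl
    rw [h1, h2, Multiset.map_add, Multiset.map_map, Multiset.map_map, Multiset.map_add,
      Multiset.map_map, Multiset.map_map, Multiset.map_replicate]
    congr 1
    have h4 : ((univ : Finset (Fin R)).val.map (kk ∘ Sum.inr)) =
        (univ : Finset (Fin R)).val.map (Function.const (Fin R) (Kind.free 1)) := rfl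
    rw [h4, Multiset.map_const]
    simp
  have hGI : GI (Ex.Rg d w) kk := by
    rw [← GM_iff, hkk]
    exact h
  obtain ⟨pos, hpos⟩ := hGI
  have hex : ∀ i : Fin k, ¬ (∀ l, J l ≠ i) → ∃ l, J l = i := fun i hi => by
    push Not at hi
    exact hi
  let p₀ : Fin k → Fin (r + 1) → ℂ := fun i =>
    if hi : ∀ l, J l ≠ i then pos (Sum.inl ⟨i, hi⟩)
    else Pi.single (Fin.castLE hs (hex i hi).choose) 1
  have hp₀ : ∀ l : Fin s, p₀ (J l) = Pi.single (Fin.castLE hs l) 1 := by
    intro l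
    have hi : ¬ ∀ l', J l' ≠ J l := fun h => h l rfl
    simp only [p₀]
    rw [dif_neg hi, J.injective (hex _ hi).choose_spec]
  refine ⟨p₀, ?_⟩
  -- the support
  have hsupp : ∀ F ∈ fatForms r d p₀ m, ∀ α ∈ F.support,
      (⇑α : Fin (r + 1) → ℕ) ∈ Ex.Rg d w := by
    intro F hF α hα
    rw [MvPolynomial.mem_support_iff] at hα
    have hαd : α ∈ mons (r + 1) d := by
      rw [mem_mons]
      by_contra h
      exact hα (hF.1.coeff_eq_zero h)
    rw [Ex.mem_Rg]
    have hdeg := mem_mons.1 hαd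
    rw [Finsupp.degree_eq_sum] at hdeg
    refine ⟨fun l => ?_, hdeg⟩
    have hle : α l ≤ d := by
      rw [← hdeg]
      exact single_le_sum (f := fun i => α i) (fun _ _ => Nat.zero_le _) (mem_univ l)
    by_cases hl : l.val < s
    · have h3 := hF.2 (J ⟨l.val, hl⟩)
      rw [hp₀ ⟨l.val, hl⟩, ← exists_toPoly hF.1, vanishes_coord_iff] at h3
      have h4 := h3 ⟨α, hαd⟩ hα
      have h5 : Fin.castLE hs ⟨l.val, hl⟩ = l := Fin.ext rfl
      rw [h5] at h4
      have h6 := hJ ⟨l.val, hl⟩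
      have h7 : w l = d - m (J ⟨l.val, hl⟩) := by
        rw [hw]
        unfold bw
        rw [dif_pos hl]
      rw [h7]
      change α l + m (J ⟨l.val, hl⟩) ≤ d at h4
      omega
    · have h7 : w l = d := by
        rw [hw]
        unfold bw
        rw [dif_neg hl]
      rw [h7]
      exact hle
  let Ψ : fatForms r d p₀ m →ₗ[ℂ] (Fin R → ℂ) :=
    { toFun := fun F j => ∑ a ∈ Ex.Rg d w, cf F.1 a * tcr (pos (Sum.inr j)) a 0
      map_add' := fun F G => by
        funext j
        simp only [Submodule.coe_add, cf, MvPolynomial.coeff_add, Pi.add_apply, add_mul,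
          sum_add_distrib]
      map_smul' := fun c F => by
        funext j
        simp only [Submodule.coe_smul, cf, MvPolynomial.coeff_smul, smul_eq_mul, RingHom.id_apply,
          Pi.smul_apply, mul_sum, mul_assoc] }
  have hΨ : Function.Injective Ψ := by
    rw [← LinearMap.ker_eq_bot, LinearMap.ker_eq_bot']
    intro F hF
    have h1 : ∀ i, Sat (Ex.Rg d w) (cf F.1) (kk i) (pos i) := by
      rintro (i | j)
      · have h2 := F.2.2 i.1
        have h3 : p₀ i.1 = pos (Sum.inl i) := by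
          simp only [p₀]
          rw [dif_pos i.2]
        rw [h3] at h2
        exact sat_of_vanishes (hsupp F.1 F.2) h2
      · intro b hb
        have hb0 : b = 0 := by
          change ∑ i, b i < 1 at hb
          have h2 : ∑ i, b i = 0 := by omega
          rw [sum_eq_zero_iff] at h2
          funext i
          exact h2 i (mem_univ _)
        subst hb0
        exact congrFun hF j
    have h2 := hpos (cf F.1) h1
    apply Subtype.ext
    change F.1 = 0
    by_contra hne
    obtain ⟨α, hα⟩ := MvPolynomial.ne_zero_iff.1 hne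
    have h3 := hsupp F.1 F.2 α (MvPolynomial.mem_support_iff.2 hα)
    have h4 := h2 _ h3
    unfold cf at h4
    rw [show Finsupp.equivFunOnFinite.symm (⇑α) = α from by ext; rfl] at h4
    exact hα h4
  have := LinearMap.finrank_le_finrank_of_injective hΨ
  rwa [Module.finrank_fintype_fun_eq_card, Fintype.card_fin] at this

theorem upper {r k d s : ℕ} (hr : 1 ≤ r) (hs : s ≤ r + 1) (m : Fin k → ℕ) (J : Fin s ↪ Fin k)
    (hJ : ∀ l, m (J l) ≤ d) (R : ℕ)
    (h : GM (Ex.Rg d (bw r d s fun l => d - m (J l)))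
      ((((univ.filter fun i => ∀ l, J l ≠ i).val.map m) + Multiset.replicate R 1).map
        Kind.free)) :
    ForGeneralPoints r k fun p => Module.finrank ℂ (fatForms r d p m) ≤ R := by
  obtain ⟨p₀, hp₀⟩ := GeoB_special hs m J hJ R h
  exact (general_finrank_le d p₀ m).mono fun p hp => hp.trans hp₀

end Pool.Agent.H18.Tj

end

section

/-!
# Module T3 (TJ): assignment of the points to the cells

Induction on the number of points (`Multiset.induction_on` or on `k`): let `D s` be the deviation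
`ℓ L_s - ∑_i ∑_t W_i t` of the assignment for the first `k` points, and choose the cell of the new point by `bal` with
`y = D`: the square norm grows by at most `∑_s (ℓ W (rk ℓ u 0 s) - ∑ W)^2 ≤ ℓ (ℓ V)^2`.
-/

namespace Pool.Agent.H18.Tj

open Finset Pool.Agent.H18.Ta

theorem assign (ℓ V : ℕ) (hℓ : 1 ≤ ℓ) (k : ℕ) (W : Fin k → ℕ → ℕ)
    (hdec : ∀ j i, W j (i + 1) ≤ W j i) (hconv : ∀ j i, 2 * W j (i + 1) ≤ W j i + W j (i + 2))
    (hV : ∀ j, W j 0 ≤ V) :
    ∃ u : Fin k → ℕ, (∀ j, u j < ℓ) ∧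
      ∑ s ∈ range ℓ, ((ℓ : ℤ) * ∑ j, (W j (rk ℓ (u j) 0 s) : ℤ) -
        ∑ j, ∑ t ∈ range ℓ, (W j t : ℤ)) ^ 2 ≤ (k : ℤ) * (ℓ : ℤ) ^ 3 * (V : ℤ) ^ 2 := by
  induction k with
  | zero =>
    refine ⟨fun j => j.elim0, fun j => j.elim0, ?_⟩
    simp
  | succ k ih =>
    obtain ⟨u', hu', hs'⟩ := ih (fun j => W j.castSucc) (fun j i => hdec _ i) (fun j i => hconv _ i)
      (fun j => hV _)
    set D : ℕ → ℤ := fun s => (ℓ : ℤ) * ∑ j : Fin k, (W j.castSucc (rk ℓ (u' j) 0 s) : ℤ) -
      ∑ j : Fin k, ∑ t ∈ range ℓ, (W j.castSucc t : ℤ) with hD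
    obtain ⟨u₀, hu₀, hb⟩ := bal ℓ hℓ (W (Fin.last k)) (hdec _) (hconv _) D
    set E : ℕ → ℤ := fun s => (ℓ : ℤ) * W (Fin.last k) (rk ℓ u₀ 0 s) -
      ∑ t ∈ range ℓ, (W (Fin.last k) t : ℤ) with hE
    have hW : ∀ i, (W (Fin.last k) i : ℤ) ≤ V := by
      intro i
      have h1 : W (Fin.last k) i ≤ W (Fin.last k) 0 := antitone_nat_of_succ_le (hdec _) (Nat.zero_le i)
      exact_mod_cast h1.trans (hV _)
    have hW0 : ∀ i, (0 : ℤ) ≤ (W (Fin.last k) i : ℤ) := fun i => Int.natCast_nonneg _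
    have hℓ0 : (0 : ℤ) ≤ (ℓ : ℤ) := Int.natCast_nonneg _
    have hEb : ∀ s, E s ^ 2 ≤ ((ℓ : ℤ) * V) ^ 2 := by
      intro s
      have h1 : (ℓ : ℤ) * W (Fin.last k) (rk ℓ u₀ 0 s) ≤ ℓ * V := mul_le_mul_of_nonneg_left (hW _) hℓ0
      have h2 : (0 : ℤ) ≤ (ℓ : ℤ) * W (Fin.last k) (rk ℓ u₀ 0 s) := mul_nonneg hℓ0 (hW0 _)
      have h3 : ∑ t ∈ range ℓ, (W (Fin.last k) t : ℤ) ≤ ℓ * V := by
        calc ∑ t ∈ range ℓ, (W (Fin.last k) t : ℤ) ≤ ∑ _t ∈ range ℓ, (V : ℤ) :=
              sum_le_sum fun t _ => hW t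
          _ = ℓ * V := by rw [sum_const, card_range, nsmul_eq_mul]
      have h4 : (0 : ℤ) ≤ ∑ t ∈ range ℓ, (W (Fin.last k) t : ℤ) := sum_nonneg fun t _ => hW0 t
      apply sq_le_sq'
      · simp only [hE]
        linarith
      · simp only [hE]
        linarith
    refine ⟨Fin.snoc (α := fun _ => ℕ) u' u₀, ?_, ?_⟩
    · intro j
      refine Fin.lastCases ?_ ?_ j
      · rw [Fin.snoc_last]
        exact hu₀
      · intro i
        rw [Fin.snoc_castSucc]
        exact hu' i
    · have h1 : ∀ s, ((ℓ : ℤ) * ∑ j : Fin (k + 1), (W j (rk ℓ ((Fin.snoc (α := fun _ => ℕ) u' u₀ :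
          Fin (k + 1) → ℕ) j) 0 s) : ℤ) - ∑ j : Fin (k + 1), ∑ t ∈ range ℓ, (W j t : ℤ)) = D s + E s := by
        intro s
        rw [Fin.sum_univ_castSucc, Fin.sum_univ_castSucc, Fin.snoc_last]
        simp only [Fin.snoc_castSucc, hD, hE]
        ring
      calc ∑ s ∈ range ℓ, ((ℓ : ℤ) * ∑ j : Fin (k + 1), (W j (rk ℓ ((Fin.snoc (α := fun _ => ℕ) u' u₀ :
          Fin (k + 1) → ℕ) j) 0 s) : ℤ) - ∑ j : Fin (k + 1), ∑ t ∈ range ℓ, (W j t : ℤ)) ^ 2
          = ∑ s ∈ range ℓ, (D s + E s) ^ 2 := sum_congr rfl fun s _ => by rw [h1 s]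
        _ = ∑ s ∈ range ℓ, D s ^ 2 + 2 * ∑ s ∈ range ℓ, D s * E s + ∑ s ∈ range ℓ, E s ^ 2 := by
            rw [mul_sum, ← sum_add_distrib, ← sum_add_distrib]
            exact sum_congr rfl fun s _ => by ring
        _ ≤ (k : ℤ) * (ℓ : ℤ) ^ 3 * (V : ℤ) ^ 2 + 2 * 0 + ∑ _s ∈ range ℓ, ((ℓ : ℤ) * V) ^ 2 := by
            have h2 : ∑ s ∈ range ℓ, E s ^ 2 ≤ ∑ _s ∈ range ℓ, ((ℓ : ℤ) * V) ^ 2 :=
              sum_le_sum fun s _ => hEb s
            have h3 : ∑ s ∈ range ℓ, D s ^ 2 ≤ (k : ℤ) * (ℓ : ℤ) ^ 3 * (V : ℤ) ^ 2 := hs'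
            linarith
        _ = ((k + 1 : ℕ) : ℤ) * (ℓ : ℤ) ^ 3 * (V : ℤ) ^ 2 := by
            rw [sum_const, card_range, nsmul_eq_mul]
            push_cast
            ring

end Pool.Agent.H18.Tj

end

section

/-!
# Module C10 (TK): the schedule

`n1` steps in the direction `true` and `n - n1` steps in the direction `false`, evenly distributed, below `n`; above `n` all
steps are in the direction `true`.
* `ctB_true`: induction on `j` (`ct_succ`): `(j + 1) n1 / n - j n1 / n ∈ {0, 1}` since `n1 ≤ n`.  `ctB_false`: `ct true + ct false = j`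
  (induction).  `ctB_top`: induction on `t`.
* `windowB`: let `l = dir (j + 1)`.  If `l = true` and `j ≤ n`: `i n1 / n = j n1 / n`, so `(j - i) n1 < n`; the other steps in
  `(i, j]` are in the direction `false`, there are `j - i ≤ n / n1` of them.  If `j > n` then `dir j = true`, so `i = j`.  If
  `l = false` then `j + 1 ≤ n`, and `ct false i = ct false j` gives `j n1 / n = i n1 / n + (j - i)`, so
  `(j - i) (n - n1) < n ≤ 3 (n - n1)` and `j - i ≤ 2`.
* `tailB`: `p = n / n1 + 3`, `p n1 ≥ n`: `(t + 1) p n1 / n ≥ t p n1 / n + 1`; for `false`: a window of length `p ≥ 4` without a step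
  in the direction `false` would give `p (n - n1) < n ≤ 3 (n - n1)`.  So `ct l (t p) ≥ t` by induction on `t`.
* `ctB_end`: `(M + 1) p n1 / n ≤ (M + 1) (n + 3 n1) / n ≤ 4 (M + 1)` (`(n / n1) n1 ≤ n`).
-/

namespace Pool.Agent.H18.Tk

open Finset Function

/-- The schedule. -/
def dirB (n1 n : ℕ) (j : ℕ) : Bool :=
  if n < j then true else decide (j * n1 / n ≠ (j - 1) * n1 / n)

private theorem Bres_ct_succ (dir : ℕ → Bool) (l : Bool) (j : ℕ) :
    ct dir l (j + 1) = ct dir l j + (if dir (j + 1) = l then 1 else 0) := by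
  unfold ct
  rw [Finset.range_add_one, Finset.filter_insert]
  by_cases h : dir (j + 1) = l
  · rw [if_pos h, if_pos h, Finset.card_insert_of_notMem]
    intro hm
    have := (Finset.mem_filter.1 hm).1
    simp at this
  · rw [if_neg h, if_neg h, Nat.add_zero]

private theorem Bres_ct_zero (dir : ℕ → Bool) (l : Bool) : ct dir l 0 = 0 := by
  unfold ct
  simp

private theorem Bres_sum (dir : ℕ → Bool) (j : ℕ) : ct dir true j + ct dir false j = j := by
  induction j with
  | zero => rw [Bres_ct_zero, Bres_ct_zero]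
  | succ j ih =>
    rw [Bres_ct_succ, Bres_ct_succ]
    cases dir (j + 1) <;> simp <;> omega

private theorem Bres_le (dir : ℕ → Bool) (l : Bool) {i j : ℕ} (h : i ≤ j) :
    ct dir l i ≤ ct dir l j := by
  induction j, h using Nat.le_induction with
  | base => exact le_refl _
  | succ j _ ih => rw [Bres_ct_succ]; omega

private theorem Bres_floor {n1 n : ℕ} (hn : 0 < n) (h1 : n1 ≤ n) (j : ℕ) :
    (j + 1) * n1 / n = j * n1 / n ∨ (j + 1) * n1 / n = j * n1 / n + 1 := by
  have ha : j * n1 / n ≤ (j + 1) * n1 / n := by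
    apply Nat.div_le_div_right
    apply Nat.mul_le_mul_right
    omega
  have hb : (j + 1) * n1 / n ≤ j * n1 / n + 1 := by
    calc (j + 1) * n1 / n ≤ (j * n1 + n) / n := by
          apply Nat.div_le_div_right
          rw [Nat.add_mul, Nat.one_mul]
          omega
      _ = j * n1 / n + 1 := Nat.add_div_right _ hn
  omega

theorem ctB_true {n1 n : ℕ} (hn : 0 < n) (h1 : n1 ≤ n) (j : ℕ) (hj : j ≤ n) :
    ct (dirB n1 n) true j = j * n1 / n := by
  induction j with
  | zero => rw [Bres_ct_zero]; simp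
  | succ j ih =>
    rw [Bres_ct_succ, ih (by omega)]
    have hd : dirB n1 n (j + 1) = decide ((j + 1) * n1 / n ≠ j * n1 / n) := by
      unfold dirB
      rw [if_neg (by omega), Nat.add_sub_cancel]
    rw [hd]
    rcases Bres_floor hn h1 j with h | h
    · rw [h]; simp
    · rw [h]; simp

theorem ctB_false {n1 n : ℕ} (hn : 0 < n) (h1 : n1 ≤ n) (j : ℕ) (hj : j ≤ n) :
    ct (dirB n1 n) false j = j - j * n1 / n := by
  have h := Bres_sum (dirB n1 n) j
  rw [ctB_true hn h1 j hj] at h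
  omega

theorem ctB_top {n1 n : ℕ} (hn : 0 < n) (h1 : n1 ≤ n) (t : ℕ) :
    ct (dirB n1 n) true (n + t) = n1 + t ∧ ct (dirB n1 n) false (n + t) = n - n1 := by
  induction t with
  | zero =>
    have hq : n * n1 / n = n1 := Nat.mul_div_cancel_left _ hn
    constructor
    · rw [Nat.add_zero, Nat.add_zero, ctB_true hn h1 n le_rfl, hq]
    · rw [Nat.add_zero, ctB_false hn h1 n le_rfl, hq]
  | succ t ih =>
    have hd : dirB n1 n (n + t + 1) = true := by
      unfold dirB
      rw [if_pos (by omega)]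
    obtain ⟨ih1, ih2⟩ := ih
    constructor
    · rw [← Nat.add_assoc, Bres_ct_succ, hd, ih1]; simp; omega
    · rw [← Nat.add_assoc, Bres_ct_succ, hd, ih2]; simp

theorem windowB {n1 n2 : ℕ} (h1 : 1 ≤ n1) (h2 : n1 ≤ 2 * n2) (i j : ℕ) (hij : i ≤ j)
    (h : ct (dirB n1 (n1 + n2)) (dirB n1 (n1 + n2) (j + 1)) i =
      ct (dirB n1 (n1 + n2)) (dirB n1 (n1 + n2) (j + 1)) j) :
    ct (dirB n1 (n1 + n2)) true (j + 1) - ct (dirB n1 (n1 + n2)) true i ≤ 2 ∧
    ct (dirB n1 (n1 + n2)) false (j + 1) - ct (dirB n1 (n1 + n2)) false i ≤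
      (n1 + n2) / n1 := by
  have hn : 0 < n1 + n2 := by omega
  have hle : n1 ≤ n1 + n2 := by omega
  have hq1 : 1 ≤ (n1 + n2) / n1 := by
    rw [Nat.le_div_iff_mul_le (by omega)]; omega
  have hs := Bres_ct_succ (dirB n1 (n1 + n2))
  cases hl : dirB n1 (n1 + n2) (j + 1) with
  | true =>
    rw [hl] at h
    have ht := hs true j
    have hf := hs false j
    rw [hl] at ht hf
    simp only [if_true] at ht
    have hf' : ct (dirB n1 (n1 + n2)) false (j + 1) = ct (dirB n1 (n1 + n2)) false j := by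
      rw [hf]; simp
    refine ⟨by omega, ?_⟩
    rw [hf']
    by_cases hj : j ≤ n1 + n2
    · have e1 := ctB_true hn hle j hj
      have e2 := ctB_true hn hle i (by omega)
      have hqi : i * n1 / (n1 + n2) = j * n1 / (n1 + n2) := by rw [← e1, ← e2]; exact h
      have s1 := Bres_sum (dirB n1 (n1 + n2)) j
      have s2 := Bres_sum (dirB n1 (n1 + n2)) i
      have hd : ct (dirB n1 (n1 + n2)) false j - ct (dirB n1 (n1 + n2)) false i = j - i := by
        omega
      rw [hd, Nat.le_div_iff_mul_le (by omega)]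
      have a1 := Nat.lt_mul_div_succ (j * n1) hn
      have a2 := Nat.mul_div_le (i * n1) (n1 + n2)
      rw [hqi] at a2
      rw [Nat.sub_mul]
      rw [Nat.mul_add, Nat.mul_one] at a1
      omega
    · have hij' : i = j := by
        by_contra hne
        have hlt : i ≤ j - 1 := by omega
        have hm := Bres_le (dirB n1 (n1 + n2)) true hlt
        have hs2 := hs true (j - 1)
        have hd : dirB n1 (n1 + n2) (j - 1 + 1) = true := by
          unfold dirB
          rw [if_pos (by omega)]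
        rw [hd] at hs2
        simp only [if_true] at hs2
        have hj1 : j - 1 + 1 = j := by omega
        rw [hj1] at hs2
        omega
      subst hij'
      omega
  | false =>
    rw [hl] at h
    have ht := hs true j
    have hf := hs false j
    rw [hl] at ht hf
    simp only [if_true] at hf
    have ht' : ct (dirB n1 (n1 + n2)) true (j + 1) = ct (dirB n1 (n1 + n2)) true j := by
      rw [ht]; simp
    have hj : j + 1 ≤ n1 + n2 := by
      by_contra hc
      have hd : dirB n1 (n1 + n2) (j + 1) = true := by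
        unfold dirB
        rw [if_pos (by omega)]
      rw [hd] at hl
      exact Bool.noConfusion hl
    refine ⟨?_, by omega⟩
    rw [ht']
    have e1 := ctB_true hn hle j (by omega)
    have e2 := ctB_true hn hle i (by omega)
    have s1 := Bres_sum (dirB n1 (n1 + n2)) j
    have s2 := Bres_sum (dirB n1 (n1 + n2)) i
    have hd : ct (dirB n1 (n1 + n2)) true j - ct (dirB n1 (n1 + n2)) true i = j - i := by
      omega
    rw [hd]
    have hq : j * n1 / (n1 + n2) = i * n1 / (n1 + n2) + (j - i) := by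
      rw [← e1, ← e2]; omega
    have a1 := Nat.lt_mul_div_succ (i * n1) hn
    have a2 := Nat.mul_div_le (j * n1) (n1 + n2)
    rw [hq] at a2
    obtain ⟨k, rfl⟩ := Nat.exists_eq_add_of_le hij
    rw [Nat.add_sub_cancel_left] at a2 ⊢
    by_contra hk
    have hk3 : 3 ≤ k := by omega
    -- `k (n1 + n2) < k n1 + n1 + n2`
    have a3 : k * (n1 + n2) < k * n1 + (n1 + n2) := by
      have b1 : (n1 + n2) * (i * n1 / (n1 + n2) + k) =
          (n1 + n2) * (i * n1 / (n1 + n2)) + k * (n1 + n2) := by ring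
      have b2 : (i + k) * n1 = i * n1 + k * n1 := by ring
      have b3 : (n1 + n2) * (i * n1 / (n1 + n2) + 1) =
          (n1 + n2) * (i * n1 / (n1 + n2)) + (n1 + n2) := by ring
      omega
    have a4 : 3 * n2 ≤ k * n2 := Nat.mul_le_mul_right _ hk3
    have a5 : k * (n1 + n2) = k * n1 + k * n2 := by ring
    omega

theorem tailB {n1 n2 : ℕ} (M : ℕ) (h1 : 1 ≤ n1) (h2 : n1 ≤ 2 * n2)
    (hM : (M + 1) * ((n1 + n2) / n1 + 3) ≤ n1 + n2) (l : Bool) :
    M ≤ ct (dirB n1 (n1 + n2)) l (M * ((n1 + n2) / n1 + 3)) ∧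
    ct (dirB n1 (n1 + n2)) l (M * ((n1 + n2) / n1 + 3)) <
      ct (dirB n1 (n1 + n2)) l ((M + 1) * ((n1 + n2) / n1 + 3)) := by
  have hn : 0 < n1 + n2 := by omega
  have hle : n1 ≤ n1 + n2 := by omega
  have hq1 : 1 ≤ (n1 + n2) / n1 := by
    rw [Nat.le_div_iff_mul_le (by omega)]; omega
  obtain ⟨p, hp⟩ : ∃ p, p = (n1 + n2) / n1 + 3 := ⟨_, rfl⟩
  rw [← hp] at hM ⊢
  have hp4 : 4 ≤ p := by omega
  have hpn : n1 + n2 ≤ p * n1 := by
    have := Nat.lt_mul_div_succ (n1 + n2) (show 0 < n1 by omega)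
    have h3 : p * n1 = n1 * ((n1 + n2) / n1 + 1) + 2 * n1 := by rw [hp]; ring
    omega
  have hpm : p * n1 ≤ (p - 1) * (n1 + n2) := by
    obtain ⟨r, rfl⟩ : ∃ r, p = r + 1 := ⟨p - 1, by omega⟩
    rw [Nat.add_sub_cancel]
    have h4 : 3 * n2 ≤ r * n2 := Nat.mul_le_mul_right _ (by omega)
    have h5 : (r + 1) * n1 = r * n1 + n1 := by ring
    have h6 : r * (n1 + n2) = r * n1 + r * n2 := by ring
    omega
  have hMp : M * p ≤ n1 + n2 := by
    have : (M + 1) * p = M * p + p := by ring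
    omega
  have f1 : M ≤ M * p * n1 / (n1 + n2) := by
    rw [Nat.le_div_iff_mul_le hn, Nat.mul_assoc]
    exact Nat.mul_le_mul_left _ hpn
  have f2 : M * p * n1 / (n1 + n2) + 1 ≤ (M + 1) * p * n1 / (n1 + n2) := by
    rw [← Nat.add_div_right _ hn]
    apply Nat.div_le_div_right
    have : (M + 1) * p * n1 = M * p * n1 + p * n1 := by ring
    omega
  have f3 : M * p * n1 / (n1 + n2) ≤ M * (p - 1) := by
    apply Nat.div_le_of_le_mul
    calc M * p * n1 = M * (p * n1) := by ring
      _ ≤ M * ((p - 1) * (n1 + n2)) := Nat.mul_le_mul_left _ hpm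
      _ = (n1 + n2) * (M * (p - 1)) := by ring
  have f4 : (M + 1) * p * n1 / (n1 + n2) ≤ M * p * n1 / (n1 + n2) + (p - 1) := by
    rw [← Nat.add_mul_div_right _ _ hn]
    apply Nat.div_le_div_right
    have : (M + 1) * p * n1 = M * p * n1 + p * n1 := by ring
    omega
  have g1 : M * p = M * (p - 1) + M := by
    obtain ⟨r, rfl⟩ : ∃ r, p = r + 1 := ⟨p - 1, by omega⟩
    rw [Nat.add_sub_cancel]; ring
  have g2 : (M + 1) * p = M * p + p := by ring
  cases l with
  | true =>
    rw [ctB_true hn hle _ hMp, ctB_true hn hle _ hM]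
    exact ⟨f1, by omega⟩
  | false =>
    rw [ctB_false hn hle _ hMp, ctB_false hn hle _ hM]
    exact ⟨by omega, by omega⟩

theorem ctB_end {n1 n2 : ℕ} (M : ℕ) (h1 : 1 ≤ n1)
    (hM : (M + 1) * ((n1 + n2) / n1 + 3) ≤ n1 + n2) :
    ct (dirB n1 (n1 + n2)) true ((M + 1) * ((n1 + n2) / n1 + 3)) ≤ 4 * (M + 1) := by
  have hn : 0 < n1 + n2 := by omega
  have hle : n1 ≤ n1 + n2 := by omega
  rw [ctB_true hn hle _ hM]
  apply Nat.div_le_of_le_mul
  have h3 : ((n1 + n2) / n1 + 3) * n1 ≤ 4 * (n1 + n2) := by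
    have := Nat.mul_div_le (n1 + n2) n1
    have h4 : ((n1 + n2) / n1 + 3) * n1 = n1 * ((n1 + n2) / n1) + 3 * n1 := by ring
    omega
  calc (M + 1) * ((n1 + n2) / n1 + 3) * n1 = (M + 1) * (((n1 + n2) / n1 + 3) * n1) := by ring
    _ ≤ (M + 1) * (4 * (n1 + n2)) := Nat.mul_le_mul_left _ h3
    _ = (n1 + n2) * (4 * (M + 1)) := by ring

end Pool.Agent.H18.Tk

end

section

/-!
# Module C11 (TK): sizes

* `card_small`: `card_le_prod` (`Pool/Agent/H18/Ex/Box.lean`); split off the factors for `l`, `l'`, and `min (w i) σ ≤ w i`.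
* `facet_big`: `box_lower` (same file) with `D = 1` and `N + 1` = the number of the active coordinates (`≥ 3`, as `o`, `l`, `l'`
  are active; `w o ≥ w l'`): `∏_{i active, ≠ o, l} w i ≤ N ^ (N - 1) fc σ w l`.  The factor for `l'` is `w l'`; for the other
  active `i` we have `w i + 1 ≤ 2 w i`, the inactive ones contribute `1`; there are at most `q` factors, and `N ≤ q`.
-/

namespace Pool.Agent.H18.Tk

open Finset Function Pool.Agent.H18.Ex

variable {ι : Type} [Fintype ι] [DecidableEq ι]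

theorem card_small (o l l' : ι) (hlo : l ≠ o) (hl'o : l' ≠ o) (hll' : l ≠ l') (σ : ℕ)
    (w : ι → ℕ) : (Rg σ w).card ≤ (min (w l) σ + 1) * (min (w l') σ + 1) *
      ∏ i ∈ univ.filter (fun i => i ≠ o ∧ i ≠ l ∧ i ≠ l'), (w i + 1) := by
  refine (card_le_prod o σ w).trans ?_
  have h1 : l ∈ univ.erase o := mem_erase.2 ⟨hlo, mem_univ _⟩
  have h2 : l' ∈ (univ.erase o).erase l := mem_erase.2 ⟨hll'.symm, mem_erase.2 ⟨hl'o, mem_univ _⟩⟩
  rw [← mul_prod_erase _ _ h1, ← mul_prod_erase _ _ h2, mul_assoc]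
  refine Nat.mul_le_mul_left _ (Nat.mul_le_mul_left _ ?_)
  have h3 : ((univ.erase o).erase l).erase l' =
      univ.filter (fun i => i ≠ o ∧ i ≠ l ∧ i ≠ l') := by
    ext i
    simp only [mem_erase, mem_univ, mem_filter, true_and, and_true]
    tauto
  rw [h3]
  exact prod_le_prod (fun _ _ => Nat.zero_le _) fun i _ => by
    have := min_le_left (w i) σ
    omega

theorem facet_big {q : ℕ} (hq : Fintype.card ι ≤ q) (o l l' : ι) (hlo : l ≠ o) (hl'o : l' ≠ o)
    (hll' : l ≠ l') (σ : ℕ) (w : ι → ℕ) (hwo : ∀ i, w i ≤ w o) (hwσ : ∀ i, w i ≤ σ)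
    (h2 : 2 * σ ≤ ∑ i, w i) (hl : 0 < w l) (hl' : 0 < w l') :
    w l' * ∏ i ∈ univ.filter (fun i => i ≠ o ∧ i ≠ l ∧ i ≠ l'), (w i + 1) ≤
      (2 * q) ^ q * fc σ w l := by
  have ho : 0 < w o := hl.trans_le (hwo l)
  -- the active coordinates
  have hA3 : 3 ≤ (univ.filter fun i => 0 < w i).card := by
    have hsub : ({o, l, l'} : Finset ι) ⊆ univ.filter fun i => 0 < w i := by
      intro i hi
      simp only [mem_insert, mem_singleton] at hi
      simp only [mem_filter, mem_univ, true_and]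
      rcases hi with rfl | rfl | rfl <;> assumption
    have hc : ({o, l, l'} : Finset ι).card = 3 := by
      rw [card_insert_of_notMem, card_insert_of_notMem, card_singleton]
      · simpa using hll'
      · simp only [mem_insert, mem_singleton, not_or]
        exact ⟨hlo.symm, hl'o.symm⟩
    rw [← hc]
    exact card_le_card hsub
  obtain ⟨N, hN⟩ : ∃ N, (univ.filter fun i => 0 < w i).card = N + 1 :=
    ⟨(univ.filter fun i => 0 < w i).card - 1, by omega⟩
  have hN2 : 2 ≤ N := by omega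
  have hNq : N + 1 ≤ q := by
    rw [← hN]
    exact (card_le_univ _).trans hq
  have hNrm : Nrm N 1 o σ w := ⟨hN, ho, hwo, hwσ, h2, fun i hi => hi⟩
  have hbox := box_lower N hN2 1 o l σ w hNrm hlo hl
  -- split off `l'`
  have hl'mem : l' ∈ univ.filter (fun i => 0 < w i ∧ i ≠ o ∧ i ≠ l) := by
    simp only [mem_filter, mem_univ, true_and]
    exact ⟨hl', hl'o, hll'.symm⟩
  rw [← mul_prod_erase _ _ hl'mem] at hbox
  set P := (univ.filter (fun i => 0 < w i ∧ i ≠ o ∧ i ≠ l)).erase l' with hP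
  have hPcard : P.card ≤ N := by
    have h1 : P.card ≤ ((univ.filter fun i => 0 < w i)).card - 1 := by
      have hs : P ⊆ (univ.filter fun i => 0 < w i).erase l := by
        intro i hi
        simp only [hP, mem_erase, mem_filter, mem_univ, true_and] at hi ⊢
        exact ⟨hi.2.2.2, hi.2.1⟩
      have hlm : l ∈ univ.filter fun i => 0 < w i := by
        simp only [mem_filter, mem_univ, true_and]
        exact hl
      rw [← card_erase_of_mem hlm]
      exact card_le_card hs
    omega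
  have hprod : ∏ i ∈ univ.filter (fun i => i ≠ o ∧ i ≠ l ∧ i ≠ l'), (w i + 1) =
      ∏ i ∈ P, (w i + 1) := by
    symm
    refine prod_subset ?_ ?_
    · intro i hi
      simp only [hP, mem_erase, mem_filter, mem_univ, true_and] at hi ⊢
      exact ⟨hi.2.2.1, hi.2.2.2, hi.1⟩
    · intro i hi hi'
      simp only [hP, mem_erase, mem_filter, mem_univ, true_and] at hi hi'
      have h0 : w i = 0 := by
        by_contra hne
        exact hi' ⟨hi.2.2, Nat.pos_of_ne_zero hne, hi.1, hi.2.1⟩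
      rw [h0, zero_add]
  have hP2 : ∏ i ∈ P, (w i + 1) ≤ 2 ^ N * ∏ i ∈ P, w i := by
    calc ∏ i ∈ P, (w i + 1) ≤ ∏ i ∈ P, (2 * w i) := by
          refine prod_le_prod (fun _ _ => Nat.zero_le _) fun i hi => ?_
          simp only [hP, mem_erase, mem_filter, mem_univ, true_and] at hi
          have := hi.2.1
          omega
      _ = 2 ^ P.card * ∏ i ∈ P, w i := by rw [prod_mul_distrib, prod_const]
      _ ≤ 2 ^ N * ∏ i ∈ P, w i :=
          Nat.mul_le_mul_right _ (Nat.pow_le_pow_right (by norm_num) hPcard)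
  rw [hprod]
  calc w l' * ∏ i ∈ P, (w i + 1) ≤ w l' * (2 ^ N * ∏ i ∈ P, w i) :=
        Nat.mul_le_mul_left _ hP2
    _ = 2 ^ N * (w l' * ∏ i ∈ P, w i) := by ring
    _ ≤ 2 ^ N * (N ^ (N - 1) * fc σ w l) := Nat.mul_le_mul_left _ hbox
    _ = 2 ^ N * N ^ (N - 1) * fc σ w l := by ring
    _ ≤ (2 * q) ^ q * fc σ w l := by
        refine Nat.mul_le_mul_right _ ?_
        rw [mul_pow]
        refine Nat.mul_le_mul (Nat.pow_le_pow_right (by norm_num) (by omega)) ?_
        calc N ^ (N - 1) ≤ q ^ (N - 1) := Nat.pow_le_pow_left (by omega) _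
          _ ≤ q ^ q := Nat.pow_le_pow_right (by omega) (by omega)

end Pool.Agent.H18.Tk

end

section

/-!
# Module C5 (TK): the bottom slab

The region `Rg (σ - t) (update w l (w l - t))` is in bijection with `{a ∈ Rg σ w : t ≤ a l}` (subtract `t e_l`), and by
`a ↦ w - a` (`refl_mem`, `refl_mem'`, `refl_refl` in `Pool/Agent/H18/Ex/Refl.lean`) with
`{a ∈ Rg (∑ w - σ) w : a l < w l - t + 1}`.  Apply `frac` (`Pool/Agent/H18/Ex/Frac.lean`) with `N = q`, `v = w l`,
`k = w l - t + 1` (`w l ≤ σ ≤ ∑ w - σ`), and `card_reflect`.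
-/

namespace Pool.Agent.H18.Tk

open Finset Function Pool.Agent.H18.Ex

variable {ι : Type} [Fintype ι] [DecidableEq ι]

theorem slab {q : ℕ} (hq : Fintype.card ι ≤ q) (l : ι) (σ : ℕ) (w : ι → ℕ) (t : ℕ)
    (ht : t ≤ w l) (hwσ : w l ≤ σ) (h2 : 2 * σ ≤ ∑ i, w i) (hk : 2 * (w l - t + 1) ≤ w l) :
    (Rg (σ - t) (update w l (w l - t))).card * w l ≤
      2 * q ^ 2 * (w l - t + 1) * (Rg σ w).card := by
  classical
  have hq1 : 1 ≤ q := by
    have h : 0 < Fintype.card ι := Fintype.card_pos_iff.2 ⟨l⟩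
    omega
  have hcard : (univ.filter fun i => 0 < w i).card ≤ q + 1 := by
    have h := card_filter_le (univ : Finset ι) (fun i => 0 < w i)
    rw [card_univ] at h
    omega
  have hmem : ∀ b ∈ Rg (σ - t) (update w l (w l - t)), update b l (b l + t) ∈ Rg σ w := by
    intro b hb
    rw [mem_Rg] at hb ⊢
    obtain ⟨hb1, hb2⟩ := hb
    constructor
    · intro i
      have h3 := hb1 i
      by_cases hi : i = l
      · subst hi
        rw [update_self] at h3 ⊢
        omega
      · rw [update_of_ne hi] at h3 ⊢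
        exact h3
    · have h3 := sum_update_of_mem (mem_univ l) b (b l + t)
      have h4 := sum_update_of_mem (mem_univ l) b (b l)
      rw [update_eq_self] at h4
      omega
  have hle : (Rg (σ - t) (update w l (w l - t))).card ≤
      ((Rg (∑ i, w i - σ) w).filter fun x => x l < w l - t + 1).card := by
    refine card_le_card_of_injOn (fun b i => w i - update b l (b l + t) i) ?_ ?_
    · intro b hb
      have hb' : b ∈ Rg (σ - t) (update w l (w l - t)) := hb
      refine mem_coe.2 (mem_filter.2 ⟨refl_mem (hmem b hb'), ?_⟩)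
      change w l - update b l (b l + t) l < w l - t + 1
      rw [update_self]
      omega
    · intro b hb b' hb' h
      have hb1 : b ∈ Rg (σ - t) (update w l (w l - t)) := hb
      have hb1' : b' ∈ Rg (σ - t) (update w l (w l - t)) := hb'
      have h3 := (mem_Rg.1 (hmem b hb1)).1
      have h4 := (mem_Rg.1 (hmem b' hb1')).1
      funext i
      have h5 : w i - update b l (b l + t) i = w i - update b' l (b' l + t) i := congrFun h i
      have h6 := h3 i
      have h7 := h4 i
      by_cases hi : i = l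
      · subst hi
        rw [update_self] at h5 h6 h7
        rw [update_self] at h5
        omega
      · rw [update_of_ne hi] at h5 h6 h7
        rw [update_of_ne hi] at h5
        omega
  have h3 := frac q hq1 (∑ i, w i - σ) w l (w l - t + 1) (w l) hcard le_rfl (by omega) hk
  rw [card_reflect σ w (by omega)] at h3
  exact (Nat.mul_le_mul_right _ hle).trans h3

/-- The facets have margins in normalised regions. -/
theorem margin_nrm (l o : ι) (hlo : l ≠ o) (σ : ℕ) (w : ι → ℕ) (hwo : ∀ i, w i ≤ w o)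
    (h2 : 2 * σ ≤ ∑ i, w i) (u : ι) (huo : u ≠ o) (hul : u ≠ l) :
    2 * σ + w u ≤ 2 * ∑ i, update w l 0 i := by
  have h3 := sum_update_of_mem (mem_univ l) w 0
  have h4 := sum_update_of_mem (mem_univ l) w (w l)
  rw [update_eq_self] at h4
  have h5 : w o + w u ≤ ∑ x ∈ univ \ {l}, w x := by
    have h6 : ({o, u} : Finset ι) ⊆ univ \ {l} := by
      intro x hx
      rw [mem_insert, mem_singleton] at hx
      rw [mem_sdiff, mem_singleton]
      refine ⟨mem_univ _, ?_⟩
      rcases hx with rfl | rfl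
      · exact fun h => hlo h.symm
      · exact hul
    have h7 := sum_le_sum_of_subset (f := w) h6
    rwa [sum_pair huo.symm] at h7
  have h8 := hwo l
  omega

end Pool.Agent.H18.Tk

end
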