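import Pool.Agent.H94.LP3.M01
import Pool.Agent.H94.LP3.M55
import Pool.Agent.H94.LP3.M68

/-! The parts of this file: H18.Tl.BalQ, H18.Tl.Asm0, H18.Tl.LmC, H18.Tl.Greedy, H18.Tl.LxL, H18.Tl.Big, H18.Tl.Full, H18.Tl.GeoL. -/

section

/-!
# Module BalQ (TL): balanced weights over the rational numbers

`weightsQ`: copy `Pool/Agent/H18/Tj/Bal.lean` (`exists_weights` and the private lemmas it uses) with `ℝ` replaced by `ℚ`.

`weightsN`: common denominators: for each `m ≤ M` apply `weightsQ` to `W m`, and let `N` be the product of all denominators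
(`m ≤ M`, `u < ℓ`); `n m u = N * a_u` is a natural number (`a_u ≥ 0`).  Multiply the equations by `N ℓ`.
-/

namespace Pool.Agent.H18.Tl

open Finset Pool.Agent.H18.Ta

/-- The difference of the values at `s` and `s + 1`, up to the term with `a (s + 1)`. -/
private def BalQ_X (ℓ : ℕ) (d a : ℕ → ℚ) (s : ℕ) : ℚ :=
  ∑ u ∈ range (s + 1), a u * d (s - u) - (1 - ∑ u ∈ range (s + 1), a u) * d (ℓ - 2 - s)

private theorem BalQ_X_congr (ℓ : ℕ) (d : ℕ → ℚ) {a b : ℕ → ℚ} {s : ℕ}
    (h : ∀ u ≤ s, a u = b u) : BalQ_X ℓ d a s = BalQ_X ℓ d b s := by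
  unfold BalQ_X
  have h1 : ∑ u ∈ range (s + 1), a u * d (s - u) = ∑ u ∈ range (s + 1), b u * d (s - u) :=
    sum_congr rfl fun u hu => by rw [h u (by rw [mem_range] at hu; omega)]
  have h2 : ∑ u ∈ range (s + 1), a u = ∑ u ∈ range (s + 1), b u :=
    sum_congr rfl fun u hu => by rw [h u (by rw [mem_range] at hu; omega)]
  rw [h1, h2]

/-- Greedy sequences. -/
private theorem BalQ_greedy (ℓ : ℕ) (W d : ℕ → ℚ) (p : ℚ) (n : ℕ)
    (hpos : ∀ s < n, W 0 - W (ℓ - 2 - s) ≠ 0) :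
    ∃ a : ℕ → ℚ, a 0 = p ∧ ∀ s < n, a (s + 1) * (W 0 - W (ℓ - 2 - s)) = BalQ_X ℓ d a s := by
  induction n with
  | zero => exact ⟨fun _ => p, rfl, fun s hs => absurd hs (Nat.not_lt_zero s)⟩
  | succ n ih =>
    obtain ⟨a, ha0, ha⟩ := ih fun s hs => hpos s (by omega)
    refine ⟨Function.update a (n + 1) (BalQ_X ℓ d a n / (W 0 - W (ℓ - 2 - n))), ?_, ?_⟩
    · rw [Function.update_of_ne (by omega), ha0]
    · intro s hs
      rcases Nat.lt_succ_iff_lt_or_eq.1 hs with h | h
      · rw [Function.update_of_ne (by omega), ha s h]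
        apply BalQ_X_congr
        intro u hu
        rw [Function.update_of_ne (by omega)]
      · subst h
        rw [Function.update_self, div_mul_cancel₀ _ (hpos s (by omega))]
        apply BalQ_X_congr
        intro u hu
        rw [Function.update_of_ne (by omega)]

private theorem BalQ_anti {d : ℕ → ℚ} (hd : ∀ i, d (i + 1) ≤ d i) {i j : ℕ} (h : i ≤ j) :
    d j ≤ d i := antitone_nat_of_succ_le hd h

/-- The value at the layer `s`. -/
private theorem BalQ_value (ℓ : ℕ) (W a : ℕ → ℚ) {s : ℕ} (hs : s < ℓ)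
    (hsum : ∑ u ∈ range ℓ, a u = 1) :
    ∑ u ∈ range ℓ, a u * W (rk ℓ u 0 s) =
      ∑ u ∈ range (s + 1), a u * W (s - u) + (1 - ∑ u ∈ range (s + 1), a u) * W (ℓ - 1 - s) := by
  have h1 : range ℓ = range (s + 1) ∪ (range ℓ \ range (s + 1)) := by
    rw [union_sdiff_of_subset]
    exact range_subset_range.2 (by omega)
  have hdis : Disjoint (range (s + 1)) (range ℓ \ range (s + 1)) := disjoint_sdiff
  have h2 : ∑ u ∈ range ℓ \ range (s + 1), a u = 1 - ∑ u ∈ range (s + 1), a u := by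
    rw [h1, sum_union hdis] at hsum
    linarith
  conv_lhs => rw [h1, sum_union hdis]
  rw [← h2, sum_mul]
  congr 1
  · refine sum_congr rfl fun u hu => ?_
    rw [mem_range] at hu
    congr 2
    unfold rk
    rw [if_neg (by omega)]
    split_ifs <;> omega
  · refine sum_congr rfl fun u hu => ?_
    rw [mem_sdiff, mem_range, mem_range] at hu
    congr 2
    unfold rk
    rw [if_pos (by omega)]

private theorem BalQ_total (ℓ : ℕ) (W a : ℕ → ℚ) (hsum : ∑ u ∈ range ℓ, a u = 1) :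
    ∑ s ∈ range ℓ, ∑ u ∈ range ℓ, a u * W (rk ℓ u 0 s) = ∑ t ∈ range ℓ, W t := by
  rw [sum_comm]
  have h1 : ∀ u ∈ range ℓ, ∑ s ∈ range ℓ, a u * W (rk ℓ u 0 s) = a u * ∑ t ∈ range ℓ, W t := by
    intro u hu
    rw [mem_range] at hu
    rw [← mul_sum]
    congr 1
    have hinj : Set.InjOn (rk ℓ u 0) (range ℓ : Finset ℕ) := by
      intro s hs t ht he
      exact rk_inj (by omega) (mem_range.1 hs) (mem_range.1 ht) he
    have himg : (range ℓ).image (rk ℓ u 0) = range ℓ := by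
      apply eq_of_subset_of_card_le
      · intro k hk
        obtain ⟨s, hs, rfl⟩ := mem_image.1 hk
        exact mem_range.2 (rk_lt (by omega) (mem_range.1 hs))
      · rw [card_image_of_injOn hinj]
    conv_rhs => rw [← himg, sum_image hinj]
  rw [sum_congr rfl h1, ← sum_mul, hsum, one_mul]

/-- The combinatorial core: signs of the combination of two greedy solutions. -/
private theorem BalQ_signs (n : ℕ) (W d c : ℕ → ℚ) (hd0 : ∀ i, 0 ≤ d i)
    (hdd : ∀ i, d (i + 1) ≤ d i) (hpos : ∀ s < n, 0 < W 0 - W (n - s))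
    (hc0 : 0 ≤ c 0) (hc : ∀ s < n, c (s + 1) * (W 0 - W (n - s)) = BalQ_X (n + 2) d c s)
    (hX : BalQ_X (n + 2) d c n = 0) : ∀ u ≤ n, 0 ≤ c u := by
  by_contra hcon
  push Not at hcon
  classical
  have hex : ∃ u, u ≤ n ∧ c u < 0 := by
    obtain ⟨u, hu, hlt⟩ := hcon
    exact ⟨u, hu, hlt⟩
  obtain ⟨hm1, hm2⟩ := Nat.find_spec hex
  have hmin : ∀ v < Nat.find hex, 0 ≤ c v := by
    intro v hv
    have h1 := Nat.find_min hex hv
    push Not at h1
    exact h1 (by omega)
  obtain ⟨s, hs⟩ : ∃ s, Nat.find hex = s + 1 := by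
    rcases Nat.eq_zero_or_pos (Nat.find hex) with h | h
    · rw [h] at hm2
      linarith
    · exact ⟨Nat.find hex - 1, by omega⟩
  rw [hs] at hm1 hm2 hmin
  have hXs : BalQ_X (n + 2) d c s < 0 := by
    rw [← hc s (by omega)]
    exact mul_neg_of_neg_of_pos hm2 (hpos s (by omega))
  have hsum0 : ∀ t, s ≤ t → 0 ≤ ∑ u ∈ range (s + 1), c u * d (t - u) := fun t _ =>
    sum_nonneg fun u hu => mul_nonneg (hmin u (by rw [mem_range] at hu; omega)) (hd0 _)
  have hR : 0 < 1 - ∑ u ∈ range (s + 1), c u := by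
    unfold BalQ_X at hXs
    have h1 := hsum0 s le_rfl
    by_contra h2
    push Not at h2
    have h3 := mul_nonpos_of_nonpos_of_nonneg h2 (hd0 (n + 2 - 2 - s))
    linarith
  -- induction
  have key : ∀ t, s ≤ t → t ≤ n → (BalQ_X (n + 2) d c t ≤ BalQ_X (n + 2) d c s) ∧
      (1 - ∑ u ∈ range (s + 1), c u ≤ 1 - ∑ u ∈ range (t + 1), c u) ∧
      (∀ v, s < v → v ≤ t → c v ≤ 0) := by
    intro t ht
    induction t, ht using Nat.le_induction with
    | base =>
      intro _
      exact ⟨le_rfl, le_rfl, fun v h1 h2 => by omega⟩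
    | succ t ht ih =>
      intro htn
      obtain ⟨h1, h2, h3⟩ := ih (by omega)
      have h4 : c (t + 1) ≤ 0 := by
        have h5 := hc t (by omega)
        have h6 : c (t + 1) * (W 0 - W (n - t)) < 0 := by
          rw [h5]
          linarith
        by_contra h7
        push Not at h7
        have h8 := mul_nonneg h7.le (hpos t (by omega)).le
        linarith
      have h5 : ∀ v, s < v → v ≤ t + 1 → c v ≤ 0 := by
        intro v hv1 hv2
        rcases Nat.lt_or_ge t v with h6 | h6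
        · have : v = t + 1 := by omega
          rw [this]
          exact h4
        · exact h3 v hv1 h6
      have h6 : 1 - ∑ u ∈ range (s + 1), c u ≤ 1 - ∑ u ∈ range (t + 1 + 1), c u := by
        rw [sum_range_succ c (t + 1)]
        linarith
      refine ⟨?_, h6, h5⟩
      -- the comparison
      have hsplit : range (t + 1 + 1) = range (s + 1) ∪ (range (t + 1 + 1) \ range (s + 1)) := by
        rw [union_sdiff_of_subset]
        exact range_subset_range.2 (by omega)
      have hdis : Disjoint (range (s + 1)) (range (t + 1 + 1) \ range (s + 1)) := disjoint_sdiff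
      have h7 : ∑ u ∈ range (t + 1 + 1), c u * d (t + 1 - u) ≤
          ∑ u ∈ range (s + 1), c u * d (s - u) := by
        rw [hsplit, sum_union hdis]
        have h8 : ∑ u ∈ range (t + 1 + 1) \ range (s + 1), c u * d (t + 1 - u) ≤ 0 := by
          apply sum_nonpos
          intro u hu
          rw [mem_sdiff, mem_range, mem_range] at hu
          exact mul_nonpos_of_nonpos_of_nonneg (h5 u (by omega) (by omega)) (hd0 _)
        have h9 : ∑ u ∈ range (s + 1), c u * d (t + 1 - u) ≤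
            ∑ u ∈ range (s + 1), c u * d (s - u) := by
          apply sum_le_sum
          intro u hu
          rw [mem_range] at hu
          exact mul_le_mul_of_nonneg_left (BalQ_anti hdd (by omega)) (hmin u (by omega))
        linarith
      have h8 : (1 - ∑ u ∈ range (s + 1), c u) * d (n + 2 - 2 - s) ≤
          (1 - ∑ u ∈ range (t + 1 + 1), c u) * d (n + 2 - 2 - (t + 1)) :=
        mul_le_mul h6 (BalQ_anti hdd (by omega)) (hd0 _) (by linarith)
      unfold BalQ_X
      linarith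
  obtain ⟨h1, _, _⟩ := key n (by omega) le_rfl
  rw [hX] at h1
  linarith

private theorem BalQ_const {W : ℕ → ℚ} (h : ∀ i, W (i + 1) = W i) : ∀ i, W i = W 0 := by
  intro i
  induction i with
  | zero => rfl
  | succ i ih => rw [h, ih]

theorem weightsQ (ℓ : ℕ) (hℓ : 1 ≤ ℓ) (W : ℕ → ℚ) (hdec : ∀ i, W (i + 1) ≤ W i)
    (hconv : ∀ i, 2 * W (i + 1) ≤ W i + W (i + 2)) :
    ∃ a : ℕ → ℚ, (∀ u < ℓ, 0 ≤ a u) ∧ ∑ u ∈ range ℓ, a u = 1 ∧
      ∀ s < ℓ, ∑ u ∈ range ℓ, a u * W (rk ℓ u 0 s) = (∑ t ∈ range ℓ, W t) / ℓ := by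
  have hℓ0 : (ℓ : ℚ) ≠ 0 := by
    have : (1 : ℚ) ≤ ℓ := by exact_mod_cast hℓ
    linarith
  -- it suffices that the values are constant
  have hfin : ∀ a : ℕ → ℚ, (∀ u < ℓ, 0 ≤ a u) → ∑ u ∈ range ℓ, a u = 1 →
      (∀ s, s + 1 < ℓ → ∑ u ∈ range ℓ, a u * W (rk ℓ u 0 s) =
        ∑ u ∈ range ℓ, a u * W (rk ℓ u 0 (s + 1))) →
      ∃ a : ℕ → ℚ, (∀ u < ℓ, 0 ≤ a u) ∧ ∑ u ∈ range ℓ, a u = 1 ∧
      ∀ s < ℓ, ∑ u ∈ range ℓ, a u * W (rk ℓ u 0 s) = (∑ t ∈ range ℓ, W t) / ℓ := by
    intro a h1 h2 h3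
    refine ⟨a, h1, h2, ?_⟩
    have h4 : ∀ s, s < ℓ → ∑ u ∈ range ℓ, a u * W (rk ℓ u 0 s) =
        ∑ u ∈ range ℓ, a u * W (rk ℓ u 0 0) := by
      intro s
      induction s with
      | zero => intro _; rfl
      | succ s ih => intro hs; rw [← h3 s hs, ih (by omega)]
    have h5 := BalQ_total ℓ W a h2
    rw [sum_congr rfl fun s hs => h4 s (mem_range.1 hs), sum_const, card_range, nsmul_eq_mul] at h5
    intro s hs
    rw [h4 s hs, ← h5]
    field_simp
  by_cases hW : W 1 = W 0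
  · -- `W` is constant
    have h1 : ∀ i, W (i + 1) = W i := by
      intro i
      induction i with
      | zero => exact hW
      | succ i ih =>
        have h2 := hconv i
        have h3 := hdec (i + 1)
        linarith
    have h2 := BalQ_const h1
    refine hfin (fun u => if u = 0 then 1 else 0) ?_ ?_ ?_
    · intro u _
      split_ifs <;> norm_num
    · rw [sum_ite_eq' (range ℓ) 0, if_pos (mem_range.2 (by omega))]
    · intro s _
      refine sum_congr rfl fun u _ => ?_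
      rw [h2 (rk ℓ u 0 s), h2 (rk ℓ u 0 (s + 1))]
  rcases Nat.lt_or_ge ℓ 2 with hℓ2 | hℓ2
  · have h1 : ℓ = 1 := by omega
    subst h1
    refine hfin (fun _ => 1) (fun _ _ => by norm_num) (by simp) ?_
    intro s hs
    omega
  obtain ⟨n, rfl⟩ : ∃ n, ℓ = n + 2 := ⟨ℓ - 2, by omega⟩
  set d : ℕ → ℚ := fun i => W i - W (i + 1) with hd
  have hd0 : ∀ i, 0 ≤ d i := fun i => by rw [hd]; beta_reduce; linarith [hdec i]
  have hdd : ∀ i, d (i + 1) ≤ d i := fun i => by
    rw [hd]; beta_reduce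
    have := hconv i
    linarith
  have hd00 : 0 < d 0 := by
    have h1 : W 1 < W 0 := lt_of_le_of_ne (hdec 0) hW
    rw [hd]
    beta_reduce
    linarith
  have hWanti : ∀ {i j : ℕ}, i ≤ j → W j ≤ W i := fun h => antitone_nat_of_succ_le hdec h
  have hpos : ∀ s < n, 0 < W 0 - W (n - s) := by
    intro s hs
    have h1 : W (n - s) ≤ W 1 := hWanti (by omega)
    have h2 : W 1 < W 0 := lt_of_le_of_ne (hdec 0) hW
    linarith
  -- the two solutions
  obtain ⟨a1, ha10, ha1⟩ := BalQ_greedy (n + 2) W d 1 n (fun s hs => by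
    have h := hpos s hs
    rw [show n + 2 - 2 - s = n - s by omega]
    exact h.ne')
  obtain ⟨a0, ha00, ha0⟩ := BalQ_greedy (n + 2) W d 0 n (fun s hs => by
    have h := hpos s hs
    rw [show n + 2 - 2 - s = n - s by omega]
    exact h.ne')
  have e : ∀ s, n + 2 - 2 - s = n - s := fun s => by omega
  have hA1 : ∀ t, t ≤ n → (∀ u ≤ t, 0 ≤ a1 u) ∧ 1 - ∑ u ∈ range (t + 1), a1 u ≤ 0 ∧
      0 ≤ BalQ_X (n + 2) d a1 t := by
    have hX : ∀ t, (∀ u ≤ t, 0 ≤ a1 u) → 1 - ∑ u ∈ range (t + 1), a1 u ≤ 0 →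
        0 ≤ BalQ_X (n + 2) d a1 t := by
      intro t h1 h2
      unfold BalQ_X
      have h3 : 0 ≤ ∑ u ∈ range (t + 1), a1 u * d (t - u) :=
        sum_nonneg fun u hu => mul_nonneg (h1 u (by rw [mem_range] at hu; omega)) (hd0 _)
      have h4 := mul_nonpos_of_nonpos_of_nonneg h2 (hd0 (n + 2 - 2 - t))
      linarith
    intro t
    induction t with
    | zero =>
      intro _
      have h1 : ∀ u ≤ 0, 0 ≤ a1 u := by
        intro u hu
        rw [Nat.le_zero.1 hu, ha10]
        norm_num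
      have h2 : 1 - ∑ u ∈ range (0 + 1), a1 u ≤ 0 := by
        rw [zero_add, sum_range_one, ha10]
        norm_num
      exact ⟨h1, h2, hX 0 h1 h2⟩
    | succ t ih =>
      intro ht
      obtain ⟨h1, h2, h3⟩ := ih (by omega)
      have h4 : 0 ≤ a1 (t + 1) := by
        have h5 := ha1 t (by omega)
        have h6 := hpos t (by omega)
        rw [e] at h5
        by_contra h7
        push Not at h7
        have h8 := mul_neg_of_neg_of_pos h7 h6
        linarith
      have h5 : ∀ u ≤ t + 1, 0 ≤ a1 u := by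
        intro u hu
        rcases Nat.lt_or_ge t u with h6 | h6
        · rw [show u = t + 1 by omega]
          exact h4
        · exact h1 u h6
      have h6 : 1 - ∑ u ∈ range (t + 1 + 1), a1 u ≤ 0 := by
        rw [sum_range_succ]
        linarith
      exact ⟨h5, h6, hX _ h5 h6⟩
  have hA0 : ∀ t, t ≤ n → (∀ u ≤ t, a0 u ≤ 0) ∧ 1 ≤ 1 - ∑ u ∈ range (t + 1), a0 u ∧
      BalQ_X (n + 2) d a0 t ≤ 0 := by
    have hX : ∀ t, (∀ u ≤ t, a0 u ≤ 0) → 1 ≤ 1 - ∑ u ∈ range (t + 1), a0 u →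
        BalQ_X (n + 2) d a0 t ≤ 0 := by
      intro t h1 h2
      unfold BalQ_X
      have h3 : ∑ u ∈ range (t + 1), a0 u * d (t - u) ≤ 0 :=
        sum_nonpos fun u hu => mul_nonpos_of_nonpos_of_nonneg
          (h1 u (by rw [mem_range] at hu; omega)) (hd0 _)
      have h4 : 0 ≤ (1 - ∑ u ∈ range (t + 1), a0 u) * d (n + 2 - 2 - t) :=
        mul_nonneg (by linarith) (hd0 _)
      linarith
    intro t
    induction t with
    | zero =>
      intro _
      have h1 : ∀ u ≤ 0, a0 u ≤ 0 := by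
        intro u hu
        rw [Nat.le_zero.1 hu, ha00]
      have h2 : 1 ≤ 1 - ∑ u ∈ range (0 + 1), a0 u := by
        rw [zero_add, sum_range_one, ha00]
        norm_num
      exact ⟨h1, h2, hX 0 h1 h2⟩
    | succ t ih =>
      intro ht
      obtain ⟨h1, h2, h3⟩ := ih (by omega)
      have h4 : a0 (t + 1) ≤ 0 := by
        have h5 := ha0 t (by omega)
        have h6 := hpos t (by omega)
        rw [e] at h5
        by_contra h7
        push Not at h7
        have h8 := mul_pos h7 h6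
        linarith
      have h5 : ∀ u ≤ t + 1, a0 u ≤ 0 := by
        intro u hu
        rcases Nat.lt_or_ge t u with h6 | h6
        · rw [show u = t + 1 by omega]
          exact h4
        · exact h1 u h6
      have h6 : 1 ≤ 1 - ∑ u ∈ range (t + 1 + 1), a0 u := by
        rw [sum_range_succ]
        linarith
      exact ⟨h5, h6, hX _ h5 h6⟩
  have hx1 := (hA1 n le_rfl).2.2
  have hx0 := (hA0 n le_rfl).2.2
  obtain ⟨lam, hl0, hl1, hlX⟩ : ∃ lam : ℚ, 0 ≤ lam ∧ lam ≤ 1 ∧
      lam * BalQ_X (n + 2) d a1 n + (1 - lam) * BalQ_X (n + 2) d a0 n = 0 := by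
    rcases eq_or_lt_of_le (show BalQ_X (n + 2) d a0 n ≤ BalQ_X (n + 2) d a1 n by linarith) with h | h
    · refine ⟨1, by norm_num, le_rfl, ?_⟩
      have : BalQ_X (n + 2) d a1 n = 0 := by linarith
      rw [this]
      ring
    · have h1 : 0 < BalQ_X (n + 2) d a1 n - BalQ_X (n + 2) d a0 n := by linarith
      refine ⟨-BalQ_X (n + 2) d a0 n / (BalQ_X (n + 2) d a1 n - BalQ_X (n + 2) d a0 n), ?_, ?_, ?_⟩
      · exact div_nonneg (by linarith) h1.le
      · rw [div_le_one h1]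
        linarith
      · field_simp
        ring
  set c : ℕ → ℚ := fun u => lam * a1 u + (1 - lam) * a0 u with hcdef
  have hXlin : ∀ t, BalQ_X (n + 2) d c t =
      lam * BalQ_X (n + 2) d a1 t + (1 - lam) * BalQ_X (n + 2) d a0 t := by
    intro t
    unfold BalQ_X
    have h1 : ∑ u ∈ range (t + 1), c u * d (t - u) =
        lam * ∑ u ∈ range (t + 1), a1 u * d (t - u) +
          (1 - lam) * ∑ u ∈ range (t + 1), a0 u * d (t - u) := by
      rw [mul_sum, mul_sum, ← sum_add_distrib]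
      exact sum_congr rfl fun u _ => by rw [hcdef]; ring
    have h2 : ∑ u ∈ range (t + 1), c u =
        lam * ∑ u ∈ range (t + 1), a1 u + (1 - lam) * ∑ u ∈ range (t + 1), a0 u := by
      rw [mul_sum, mul_sum, ← sum_add_distrib]
    rw [h1, h2]
    ring
  have hc0 : 0 ≤ c 0 := by
    rw [hcdef]
    beta_reduce
    rw [ha10, ha00]
    linarith
  have hc : ∀ s < n, c (s + 1) * (W 0 - W (n - s)) = BalQ_X (n + 2) d c s := by
    intro s hs
    have h1 := ha1 s hs
    have h0 := ha0 s hs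
    rw [e] at h1 h0
    rw [hXlin, ← h1, ← h0, hcdef]
    ring
  have hcX : BalQ_X (n + 2) d c n = 0 := by rw [hXlin]; exact hlX
  have hcn := BalQ_signs n W d c hd0 hdd hpos hc0 hc hcX
  -- the weights
  set a : ℕ → ℚ := fun u => if u = n + 1 then 1 - ∑ v ∈ range (n + 1), c v else c u with hadef
  have hac : ∀ u ≤ n, a u = c u := fun u hu => by
    rw [hadef]
    beta_reduce
    rw [if_neg (by omega)]
  have hasum : ∀ t ≤ n, ∑ u ∈ range (t + 1), a u = ∑ u ∈ range (t + 1), c u := fun t ht =>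
    sum_congr rfl fun u hu => hac u (by rw [mem_range] at hu; omega)
  have hatot : ∑ u ∈ range (n + 2), a u = 1 := by
    rw [sum_range_succ, hasum n le_rfl, hadef]
    beta_reduce
    rw [if_pos rfl]
    ring
  have haX : ∀ t ≤ n, BalQ_X (n + 2) d a t = BalQ_X (n + 2) d c t := fun t ht =>
    BalQ_X_congr _ _ fun u hu => hac u (by omega)
  refine hfin a ?_ hatot ?_
  · intro u hu
    rcases Nat.lt_or_ge u (n + 1) with h | h
    · rw [hac u (by omega)]
      exact hcn u (by omega)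
    · have h1 : u = n + 1 := by omega
      rw [h1, hadef]
      beta_reduce
      rw [if_pos rfl]
      have h2 := hcX
      unfold BalQ_X at h2
      rw [show n + 2 - 2 - n = 0 by omega] at h2
      have h3 : 0 ≤ ∑ u ∈ range (n + 1), c u * d (n - u) :=
        sum_nonneg fun u hu => mul_nonneg (hcn u (by rw [mem_range] at hu; omega)) (hd0 _)
      by_contra h4
      push Not at h4
      have h5 := mul_neg_of_neg_of_pos h4 hd00
      linarith
  · intro s hs
    rw [BalQ_value (n + 2) W a (by omega) hatot, BalQ_value (n + 2) W a hs hatot,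
      sum_range_succ (fun u => a u * W (s + 1 - u)) (s + 1), sum_range_succ a (s + 1), Nat.sub_self]
    rw [show n + 2 - 1 - (s + 1) = n - s by omega, show n + 2 - 1 - s = n - s + 1 by omega]
    have h1 : ∑ u ∈ range (s + 1), a u * W (s + 1 - u) =
        ∑ u ∈ range (s + 1), a u * W (s - u) - ∑ u ∈ range (s + 1), a u * d (s - u) := by
      rw [← sum_sub_distrib]
      refine sum_congr rfl fun u hu => ?_
      rw [mem_range] at hu
      rw [hd, show s + 1 - u = s - u + 1 by omega]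
      ring
    rw [h1]
    have h2 : d (n - s) = W (n - s) - W (n - s + 1) := rfl
    have h3 : a (s + 1) * (W 0 - W (n - s)) = BalQ_X (n + 2) d a s := by
      rw [haX s (by omega)]
      rcases Nat.lt_or_ge s n with h4 | h4
      · rw [hac (s + 1) (by omega)]
        exact hc s h4
      · have h5 : s = n := by omega
        rw [h5, Nat.sub_self, sub_self, mul_zero, hcX]
    unfold BalQ_X at h3
    rw [e, h2] at h3
    linarith

private theorem BalQ_mul_den (q : ℚ) (hq : 0 ≤ q) (N : ℕ) (h : q.den ∣ N) :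
    (((N / q.den) * q.num.toNat : ℕ) : ℚ) = N * q := by
  obtain ⟨k, rfl⟩ := h
  have h1 : q.den * k / q.den = k := Nat.mul_div_cancel_left k q.den_pos
  have h2 : ((q.num.toNat : ℕ) : ℚ) = (q.num : ℚ) := by
    have h3 : ((q.num.toNat : ℕ) : ℤ) = q.num := Int.toNat_of_nonneg (Rat.num_nonneg.2 hq)
    exact_mod_cast h3
  have h4 : (q.num : ℚ) = q * q.den := (Rat.mul_den_eq_num q).symm
  rw [h1]
  push_cast
  rw [h2, h4]
  ring

theorem weightsN (ℓ M : ℕ) (hℓ : 1 ≤ ℓ) (W : ℕ → ℕ → ℕ) (hdec : ∀ m i, W m (i + 1) ≤ W m i)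
    (hconv : ∀ m i, 2 * W m (i + 1) ≤ W m i + W m (i + 2)) :
    ∃ (N : ℕ) (n : ℕ → ℕ → ℕ), 1 ≤ N ∧ ∀ m ≤ M, ∑ u ∈ range ℓ, n m u = N ∧
      ∀ s < ℓ, ℓ * ∑ u ∈ range ℓ, n m u * W m (rk ℓ u 0 s) = N * ∑ t ∈ range ℓ, W m t := by
  have hex : ∀ m, ∃ a : ℕ → ℚ, (∀ u < ℓ, 0 ≤ a u) ∧ ∑ u ∈ range ℓ, a u = 1 ∧
      ∀ s < ℓ, ∑ u ∈ range ℓ, a u * (W m (rk ℓ u 0 s) : ℚ) = (∑ t ∈ range ℓ, (W m t : ℚ)) / ℓ := fun m =>
    weightsQ ℓ hℓ (fun i => (W m i : ℚ)) (fun i => by exact_mod_cast hdec m i)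
      (fun i => by exact_mod_cast hconv m i)
  choose a ha0 ha1 ha using hex
  have hℓ0 : (ℓ : ℚ) ≠ 0 := by
    have : (1 : ℚ) ≤ ℓ := by exact_mod_cast hℓ
    linarith
  obtain ⟨N, hN⟩ : ∃ N : ℕ, N = ∏ m ∈ range (M + 1), ∏ u ∈ range ℓ, (a m u).den := ⟨_, rfl⟩
  have hN1 : 1 ≤ N := by
    rw [hN]
    exact Nat.one_le_iff_ne_zero.2 (prod_ne_zero_iff.2 fun m _ => prod_ne_zero_iff.2 fun u _ => (a m u).den_nz)
  have hdvd : ∀ m ≤ M, ∀ u < ℓ, (a m u).den ∣ N := by
    intro m hm u hu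
    rw [hN]
    exact (dvd_prod_of_mem (fun u => (a m u).den) (mem_range.2 hu)).trans
      (dvd_prod_of_mem (fun m => ∏ u ∈ range ℓ, (a m u).den) (mem_range.2 (by omega)))
  have hq : ∀ m ≤ M, ∀ u < ℓ, (((N / (a m u).den) * (a m u).num.toNat : ℕ) : ℚ) = N * a m u := fun m hm u hu =>
    BalQ_mul_den (a m u) (ha0 m u hu) N (hdvd m hm u hu)
  refine ⟨N, fun m u => (N / (a m u).den) * (a m u).num.toNat, hN1, fun m hm => ⟨?_, fun s hs => ?_⟩⟩
  · have h1 : ((∑ u ∈ range ℓ, (N / (a m u).den) * (a m u).num.toNat : ℕ) : ℚ) = N := by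
      rw [Nat.cast_sum, sum_congr rfl fun u hu => hq m hm u (mem_range.1 hu), ← mul_sum, ha1, mul_one]
    exact_mod_cast h1
  · have h1 : ((ℓ * ∑ u ∈ range ℓ, (N / (a m u).den) * (a m u).num.toNat * W m (rk ℓ u 0 s) : ℕ) : ℚ) =
        ((N * ∑ t ∈ range ℓ, W m t : ℕ) : ℚ) := by
      rw [Nat.cast_mul, Nat.cast_sum, Nat.cast_mul N, Nat.cast_sum]
      have h2 : ∑ u ∈ range ℓ, (((N / (a m u).den) * (a m u).num.toNat * W m (rk ℓ u 0 s) : ℕ) : ℚ) =
          N * ∑ u ∈ range ℓ, a m u * (W m (rk ℓ u 0 s) : ℚ) := by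
        rw [mul_sum]
        refine sum_congr rfl fun u hu => ?_
        rw [Nat.cast_mul, hq m hm u (mem_range.1 hu)]
        ring
      rw [h2, ha m s hs]
      field_simp
    exact_mod_cast h1

end Pool.Agent.H18.Tl

end

section

/-!
# Module Asm0 (TL): the case `b = 0`

`Box b` has one element `zb b`, `Lm b m = m`, `act (tz b z) F = F`.  Points with the multiplicities `S` and distinct `x_i`
(`S.toList`, `x_i = i`).  `F ∈ Sol b e L`: `F (zb b)` has degree `≤ e` and is divisible by `(X - x_i)^(m_i)` for all `i`, so by the product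
(pairwise coprime), of degree `∑ m_i ≥ e + 1`; so it is `0`.
-/

namespace Pool.Agent.H18.Tl

open Finset Polynomial

variable {τ : Type} [Fintype τ] [DecidableEq τ]

omit [DecidableEq τ] in
private lemma Asm0_bz {b : τ → ℕ} (hB : Bs b = 0) (l : τ) : b l = 0 := by
  have h := Finset.sum_eq_zero_iff.1 (show ∑ l, b l = 0 from hB)
  exact h l (Finset.mem_univ l)

omit [DecidableEq τ] in
private lemma Asm0_val {b : τ → ℕ} (hB : Bs b = 0) (γ : Box b) (l : τ) : (γ l : ℕ) = 0 := by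
  have h := (γ l).isLt
  have h2 := Asm0_bz hB l
  omega

omit [DecidableEq τ] in
private lemma Asm0_eq {b : τ → ℕ} (hB : Bs b = 0) (γ : Box b) : γ = zb b := by
  funext l
  apply Fin.ext
  rw [Asm0_val hB γ l]
  rfl

omit [DecidableEq τ] in
private lemma Asm0_dg {b : τ → ℕ} (hB : Bs b = 0) (γ : Box b) : dg γ = 0 := by
  unfold dg
  exact Finset.sum_eq_zero fun l _ => Asm0_val hB γ l

private lemma Asm0_univ {b : τ → ℕ} (hB : Bs b = 0) : (Finset.univ : Finset (Box b)) = {zb b} := by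
  ext γ
  simp only [Finset.mem_univ, Finset.mem_singleton, true_iff]
  exact Asm0_eq hB γ

private lemma Asm0_Lm {b : τ → ℕ} (hB : Bs b = 0) (μ : ℕ) : Lm b μ = μ := by
  unfold Lm
  rw [Asm0_univ hB, Finset.sum_singleton, Asm0_dg hB, Nat.sub_zero]

omit [DecidableEq τ] in
private lemma Asm0_tz {b : τ → ℕ} (hB : Bs b = 0) (z : τ → ℂ) (γ β : Box b) : tz b z γ β = 1 := by
  unfold tz
  apply Finset.prod_eq_one
  intro l _
  rw [Asm0_val hB γ l, Asm0_val hB β l]
  simp

private lemma Asm0_act {b : τ → ℕ} (hB : Bs b = 0) (z : τ → ℂ) (F : V b) (γ : Box b) :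
    act (tz b z) F γ = F γ := by
  rw [act_apply, Asm0_univ hB, Finset.sum_singleton, Asm0_tz hB, Asm0_eq hB γ]
  simp

theorem asm0 (b : τ → ℕ) (hB : Bs b = 0) (e : ℕ) (S : Multiset ℕ)
    (h : Lm b (e + 1) ≤ (S.map (Lm b)).sum) :
    ∃ L : List (Pt τ), (↑(L.map Pt.m) : Multiset ℕ) = S ∧ ∀ F ∈ Sol b e L, F = 0 := by
  have hmap : S.map (Lm b) = S := by
    conv_rhs => rw [← Multiset.map_id S]
    apply Multiset.map_congr rfl
    intro m _
    exact Asm0_Lm hB m
  rw [hmap, Asm0_Lm hB] at h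
  set l : List ℕ := S.toList with hl
  have hlS : (↑l : Multiset ℕ) = S := Multiset.coe_toList S
  refine ⟨List.ofFn (fun i : Fin l.length => (⟨l.get i, ((i : ℕ) : ℂ), 0⟩ : Pt τ)), ?_, ?_⟩
  · rw [List.map_ofFn]
    have h1 : (Pt.m ∘ fun i : Fin l.length => (⟨l.get i, ((i : ℕ) : ℂ), 0⟩ : Pt τ)) = l.get := rfl
    rw [h1, List.ofFn_get, hlS]
  · intro F hF
    rw [mem_Sol] at hF
    obtain ⟨hF1, hF2⟩ := hF
    funext γ
    have hdeg : ∀ j, e < j → (F γ).coeff j = 0 := by
      intro j hj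
      apply mem_Ve.1 hF1 γ j
      omega
    have hdvd : ∀ i : Fin l.length, (X - C (((i : ℕ) : ℂ))) ^ (l.get i) ∣ F γ := by
      intro i
      have h1 := mem_vanL.1 hF2 ⟨l.get i, ((i : ℕ) : ℂ), 0⟩ (by
        rw [List.mem_ofFn]
        exact ⟨i, rfl⟩)
      have h2 := mem_van.1 h1 γ
      rw [Asm0_act hB, Asm0_dg hB, Nat.sub_zero] at h2
      exact h2
    have hprod : (∏ i : Fin l.length, (X - C (((i : ℕ) : ℂ))) ^ (l.get i)) ∣ F γ := by
      apply Finset.prod_dvd_of_coprime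
      · intro i _ j _ hij
        apply IsCoprime.pow
        apply Polynomial.isCoprime_X_sub_C_of_isUnit_sub
        rw [isUnit_iff_ne_zero, sub_ne_zero]
        intro hc
        apply hij
        apply Fin.ext
        exact_mod_cast hc
      · intro i _
        exact hdvd i
    have hnd : (∏ i : Fin l.length, (X - C (((i : ℕ) : ℂ))) ^ (l.get i)).natDegree = S.sum := by
      rw [Polynomial.natDegree_prod_of_monic _ _ (fun i _ => (monic_X_sub_C _).pow _)]
      have h1 : ∀ i : Fin l.length,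
          ((X - C (((i : ℕ) : ℂ))) ^ (l.get i) : ℂ[X]).natDegree = l.get i := by
        intro i
        rw [Polynomial.natDegree_pow, natDegree_X_sub_C, mul_one]
      rw [Finset.sum_congr rfl (fun i _ => h1 i), ← List.sum_ofFn, List.ofFn_get, ← hlS,
        Multiset.sum_coe]
    show F γ = 0
    by_contra hne
    have h1 := Polynomial.natDegree_le_of_dvd hprod hne
    have h2 : (F γ).natDegree ≤ e := by
      rw [Polynomial.natDegree_le_iff_coeff_eq_zero]
      intro j hj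
      exact hdeg j hj
    omega

end Pool.Agent.H18.Tl

end

section

/-!
# Module LmC (TL): the numbers `Lm`

`Lm_split`: sum over the coordinate `y` of the exponent (`Box b ≃ Fin (b y + 1) × Box (update b y 0)`): for `γ` with `γ y = s` the
summand is `μ - s - dg γ'`.  (E.g. sum over the fibres of `γ ↦ γ y`; the fibre over `s` is in bijection with
`Box (Function.update b y 0)`.)  `Pc_split`: the same for the number of exponents, `Pc b = ∏ (b l + 1)`.
-/

namespace Pool.Agent.H18.Tl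

open Finset

variable {τ : Type} [Fintype τ] [DecidableEq τ]

private def LmC_equiv (b : τ → ℕ) (y : τ) :
    Fin (b y + 1) × Box (Function.update b y 0) ≃ Box b where
  toFun p := fun l => ⟨if l = y then (p.1 : ℕ) else (p.2 l : ℕ), by
    split_ifs with h
    · subst h; exact p.1.2
    · have h2 := (p.2 l).2
      simpa [Function.update_of_ne h] using h2⟩
  invFun γ := (γ y, fun l => ⟨if l = y then 0 else (γ l : ℕ), by
    split_ifs with h
    · exact Nat.succ_pos _
    · have h2 := (γ l).2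
      simpa [Function.update_of_ne h] using h2⟩)
  left_inv p := by
    ext l
    · simp
    · by_cases h : l = y
      · subst h
        have h2 : ((p.2 l : ℕ)) < Function.update b l 0 l + 1 := (p.2 l).2
        have h3 : Function.update b l 0 l = 0 := Function.update_self ..
        show (if l = l then 0 else _) = ((p.2 l : ℕ))
        rw [if_pos rfl]
        omega
      · simp [h]
  right_inv γ := by
    ext l
    by_cases h : l = y
    · subst h; simp
    · simp [h]

private theorem LmC_zero_coord (b : τ → ℕ) (y : τ) (γ : Box (Function.update b y 0)) :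
    (γ y : ℕ) = 0 := by
  have h2 : ((γ y : ℕ)) < Function.update b y 0 y + 1 := (γ y).2
  have h3 : Function.update b y 0 y = 0 := Function.update_self ..
  omega

private theorem LmC_dg (b : τ → ℕ) (y : τ) (p : Fin (b y + 1) × Box (Function.update b y 0)) :
    dg (LmC_equiv b y p) = (p.1 : ℕ) + dg p.2 := by
  unfold dg
  rw [← Finset.add_sum_erase univ (fun l => ((LmC_equiv b y p l : Fin (b l + 1)) : ℕ)) (mem_univ y),
    ← Finset.add_sum_erase univ (fun l => ((p.2 l : Fin _) : ℕ)) (mem_univ y)]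
  have h1 : ((LmC_equiv b y p y : Fin (b y + 1)) : ℕ) = p.1 := by simp [LmC_equiv]
  have h2 := LmC_zero_coord b y p.2
  rw [h1, h2, zero_add]
  congr 1
  refine Finset.sum_congr rfl ?_
  intro l hl
  have hly : l ≠ y := (Finset.mem_erase.mp hl).1
  simp [LmC_equiv, hly]

theorem Lm_zero (b : τ → ℕ) : Lm b 0 = 0 := by
  simp [Lm]

theorem Lm_mono (b : τ → ℕ) {m n : ℕ} (h : m ≤ n) : Lm b m ≤ Lm b n := by
  unfold Lm
  exact Finset.sum_le_sum fun γ _ => Nat.sub_le_sub_right h _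

theorem le_Lm (b : τ → ℕ) (m : ℕ) : m ≤ Lm b m := by
  have h1 : m - dg (zb b) = m := by simp [dg, zb]
  calc m = m - dg (zb b) := h1.symm
    _ ≤ Lm b m := Finset.single_le_sum (f := fun γ : Box b => m - dg γ)
        (fun _ _ => Nat.zero_le _) (mem_univ (zb b))

theorem Lm_dec (b : τ → ℕ) (m i : ℕ) : Lm b (m - (i + 1)) ≤ Lm b (m - i) :=
  Lm_mono b (by omega)

theorem Lm_conv (b : τ → ℕ) (m i : ℕ) :
    2 * Lm b (m - (i + 1)) ≤ Lm b (m - i) + Lm b (m - (i + 2)) := by
  unfold Lm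
  rw [Finset.mul_sum, ← Finset.sum_add_distrib]
  refine Finset.sum_le_sum fun γ _ => ?_
  omega

theorem Lm_split (b : τ → ℕ) (y : τ) (m : ℕ) :
    Lm b m = ∑ s ∈ range (b y + 1), Lm (Function.update b y 0) (m - s) := by
  rw [Finset.sum_range (fun s => Lm (Function.update b y 0) (m - s))]
  unfold Lm
  rw [← Equiv.sum_comp (LmC_equiv b y) (fun γ : Box b => m - dg γ), Fintype.sum_prod_type]
  refine Finset.sum_congr rfl fun s _ => Finset.sum_congr rfl fun γ _ => ?_
  rw [LmC_dg]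
  simp only
  omega

theorem Pc_pos (b : τ → ℕ) : 1 ≤ Pc b := by
  unfold Pc
  have : Nonempty (Box b) := ⟨zb b⟩
  exact Fintype.card_pos

theorem Pc_split (b : τ → ℕ) (y : τ) : Pc b = (b y + 1) * Pc (Function.update b y 0) := by
  unfold Pc
  rw [← Fintype.card_congr (LmC_equiv b y), Fintype.card_prod, Fintype.card_fin]

/-- In degrees `≥ Bs b - 1` the dimension grows by `Pc b`. -/
theorem Lm_succ (b : τ → ℕ) (m : ℕ) (h : Bs b ≤ m) : Lm b (m + 1) = Lm b m + Pc b := by
  unfold Lm Pc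
  rw [← Finset.card_univ, Finset.card_eq_sum_ones, ← Finset.sum_add_distrib]
  refine Finset.sum_congr rfl fun γ _ => ?_
  have h1 : dg γ ≤ Bs b := by
    unfold dg Bs
    exact Finset.sum_le_sum fun l _ => Nat.lt_succ_iff.mp (γ l).2
  omega

theorem Lm_add (b : τ → ℕ) (m a : ℕ) (h : Bs b ≤ m) : Lm b (m + a) = Lm b m + a * Pc b := by
  induction a with
  | zero => simp
  | succ a ih =>
    rw [← Nat.add_assoc, Lm_succ b (m + a) (by omega), ih]
    ring

end Pool.Agent.H18.Tl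

end

section

/-!
# Module Greedy (TL): extraction of blocks

Induction on `e` (strong) or on `S.card`: if `e < Bs b + A` or if `S.count μ < Sn μ` for all `μ` with `1 ≤ μ`, `2 μ ≤ Bs b + 1`, take `ms = []`,
`S' = S`.  Otherwise choose such a `μ` with `Sn μ ≤ S.count μ`, so `S = S₁ + replicate (Sn μ) μ`, and `e₁ = e - an μ ≥ Bs b`; from
`Lm b (e + 1) = Lm b (e₁ + 1) + an μ * Pc b` (`Lm_add`) and `heq`: `Lm b (e₁ + 1) ≤ X + (S₁.map (Lm b)).sum`; apply the induction hypothesis.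
-/

namespace Pool.Agent.H18.Tl

open Finset

variable {τ : Type} [Fintype τ] [DecidableEq τ]

theorem greedy (b : τ → ℕ) (Sn an : ℕ → ℕ) (A X : ℕ) (hpos : ∀ μ, 1 ≤ Sn μ ∧ 1 ≤ an μ)
    (hA : ∀ μ, 1 ≤ μ → 2 * μ ≤ Bs b + 1 → an μ ≤ A)
    (heq : ∀ μ, 1 ≤ μ → 2 * μ ≤ Bs b + 1 → Sn μ * Lm b μ = an μ * Pc b) :
    ∀ (e : ℕ) (S : Multiset ℕ), Bs b ≤ e → Lm b (e + 1) ≤ X + (S.map (Lm b)).sum →
      ∃ (ms : List ℕ) (S' : Multiset ℕ) (e₀ : ℕ), (∀ μ ∈ ms, 1 ≤ μ ∧ 2 * μ ≤ Bs b + 1) ∧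
        S = S' + (ms.map fun μ => Multiset.replicate (Sn μ) μ).sum ∧
        e = e₀ + (ms.map an).sum ∧ Bs b ≤ e₀ ∧ Lm b (e₀ + 1) ≤ X + (S'.map (Lm b)).sum ∧
        (e₀ < Bs b + A ∨ ∀ μ, 1 ≤ μ → 2 * μ ≤ Bs b + 1 → S'.count μ < Sn μ) := by
  intro e
  induction e using Nat.strong_induction_on with
  | _ e ih =>
    intro S hBe hL
    by_cases h1 : e < Bs b + A
    · exact ⟨[], S, e, by simp, by simp, by simp, hBe, hL, Or.inl h1⟩
    by_cases h2 : ∀ μ, 1 ≤ μ → 2 * μ ≤ Bs b + 1 → S.count μ < Sn μ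
    · exact ⟨[], S, e, by simp, by simp, by simp, hBe, hL, Or.inr h2⟩
    push Not at h1 h2
    obtain ⟨μ, hμ1, hμ2, hc⟩ := h2
    have haA : an μ ≤ A := hA μ hμ1 hμ2
    have ha1 : 1 ≤ an μ := (hpos μ).2
    obtain ⟨e₁, he₁⟩ : ∃ e₁, e = e₁ + an μ := ⟨e - an μ, by omega⟩
    have hle : Multiset.replicate (Sn μ) μ ≤ S := Multiset.le_count_iff_replicate_le.mp hc
    obtain ⟨S₁, hS₁⟩ := Multiset.le_iff_exists_add.mp hle
    have hBe₁ : Bs b ≤ e₁ := by omega
    have hlm : Lm b (e + 1) = Lm b (e₁ + 1) + an μ * Pc b := by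
      have hadd := Lm_add b (e₁ + 1) (an μ) (by omega)
      have hee : e + 1 = e₁ + 1 + an μ := by omega
      rw [hee]
      exact hadd
    have hsum : (S.map (Lm b)).sum = an μ * Pc b + (S₁.map (Lm b)).sum := by
      rw [hS₁, Multiset.map_add, Multiset.sum_add, Multiset.map_replicate, Multiset.sum_replicate,
        smul_eq_mul, heq μ hμ1 hμ2]
    have hL₁ : Lm b (e₁ + 1) ≤ X + (S₁.map (Lm b)).sum := by
      rw [hlm, hsum] at hL
      omega
    obtain ⟨ms, S', e₀, hms, hS', he₀, hB₀, hL₀, hor⟩ := ih e₁ (by omega) S₁ hBe₁ hL₁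
    refine ⟨μ :: ms, S', e₀, ?_, ?_, ?_, hB₀, hL₀, hor⟩
    · intro ν hν
      rcases List.mem_cons.mp hν with h | h
      · subst h
        exact ⟨hμ1, hμ2⟩
      · exact hms ν h
    · rw [hS₁, hS', List.map_cons, List.sum_cons]
      abel
    · rw [List.map_cons, List.sum_cons, he₁, he₀]
      omega

end Pool.Agent.H18.Tl

end

section

/-!
# Module LxL (TL): the numbers of conditions with two long coordinates

`h ≠ y` are coordinates with `w h, w y ≥ d`; the others (`τ = {i // i ≠ h ∧ i ≠ y}`) have the widths `b = w`.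
`Lx_eq`: an exponent of `Rg (m - 1) w` is determined by its values `γ` on `τ` (in `Box b`, `dg γ ≤ m - 1`) and its value
at `y` (any number `≤ m - 1 - dg γ`; the bounds `w y, w h ≥ d ≥ m - 1` hold): `m - dg γ` possibilities.
-/

namespace Pool.Agent.H18.Tl

open Finset Pool.Agent.H18.Ex

variable {ι : Type} [Fintype ι] [DecidableEq ι]

private theorem LxL_split (h y : ι) (hy : h ≠ y) (f : ι → ℕ) :
    ∑ i, f i = f h + f y + ∑ l : {i // i ≠ h ∧ i ≠ y}, f l.1 := by
  have h1 : ∑ l : {i // i ≠ h ∧ i ≠ y}, f l.1 = ∑ i ∈ univ.filter (fun i => i ≠ h ∧ i ≠ y), f i := by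
    rw [← Finset.sum_subtype (univ.filter (fun i => i ≠ h ∧ i ≠ y)) (fun x => by simp) f]
  have h2 : univ.filter (fun i : ι => ¬ (i ≠ h ∧ i ≠ y)) = {h, y} := by
    ext i
    simp only [mem_filter, mem_univ, true_and, mem_insert, mem_singleton]
    tauto
  have h3 : ∑ i ∈ univ.filter (fun i : ι => ¬ (i ≠ h ∧ i ≠ y)), f i = f h + f y := by
    rw [h2, Finset.sum_pair hy]
  rw [← Finset.sum_filter_add_sum_filter_not univ (fun i : ι => i ≠ h ∧ i ≠ y) f, h1, h3]
  ring

/-- The exponent with given values. -/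
private def LxL_mk (h y : ι) (γ : {i // i ≠ h ∧ i ≠ y} → ℕ) (s t : ℕ) : ι → ℕ :=
  fun i => if hi : i ≠ h ∧ i ≠ y then γ ⟨i, hi⟩ else if i = y then t else s

theorem Lx_eq (d : ℕ) (w : ι → ℕ) (h y : ι) (hy : h ≠ y) (hh : d ≤ w h) (hyw : d ≤ w y) (m : ℕ)
    (hm : m ≤ d + 1) : Tj.Lx w m = Lm (fun l : {i // i ≠ h ∧ i ≠ y} => w l.1) m := by
  classical
  unfold Tj.Lx Lm
  by_cases hm0 : m = 0
  · rw [if_pos hm0]
    simp [hm0]
  rw [if_neg hm0]
  set b : {i // i ≠ h ∧ i ≠ y} → ℕ := fun l => w l.1 with hb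
  -- the restriction
  let res : (ι → ℕ) → Box b := fun a l => ⟨min (a l.1) (b l), Nat.lt_succ_of_le (min_le_right _ _)⟩
  rw [Finset.card_eq_sum_card_fiberwise (s := Rg (m - 1) w) (f := res) (t := univ) (fun _ _ => mem_coe.2 (mem_univ _))]
  apply Finset.sum_congr rfl
  intro γ _
  have key : ((Rg (m - 1) w).filter (fun a => res a = γ)).card = (Finset.range (m - dg γ)).card := by
    apply Finset.card_bij' (fun a _ => a y)
      (fun t _ => LxL_mk h y (fun l => (γ l : ℕ)) (m - 1 - dg γ - t) t)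
    · intro a ha
      rw [mem_filter, mem_Rg] at ha
      obtain ⟨⟨ha1, ha2⟩, ha3⟩ := ha
      rw [mem_range]
      have e1 : ∑ l : {i // i ≠ h ∧ i ≠ y}, a l.1 = dg γ := by
        unfold dg
        apply Finset.sum_congr rfl
        intro l _
        rw [← ha3]
        show a l.1 = min (a l.1) (b l)
        exact (min_eq_left (ha1 l.1)).symm
      rw [LxL_split h y hy a, e1] at ha2
      omega
    · intro t ht
      rw [mem_range] at ht
      rw [mem_filter, mem_Rg]
      refine ⟨⟨?_, ?_⟩, ?_⟩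
      · intro i
        unfold LxL_mk
        split_ifs with h1 h2
        · exact Nat.le_of_lt_succ (γ ⟨i, h1⟩).2
        · rw [h2]
          omega
        · have : i = h := by
            by_contra hne
            exact h1 ⟨hne, h2⟩
          rw [this]
          omega
      · rw [LxL_split h y hy]
        have e1 : LxL_mk h y (fun l => (γ l : ℕ)) (m - 1 - dg γ - t) t h = m - 1 - dg γ - t := by
          unfold LxL_mk
          rw [dif_neg (by tauto), if_neg hy]
        have e2 : LxL_mk h y (fun l => (γ l : ℕ)) (m - 1 - dg γ - t) t y = t := by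
          unfold LxL_mk
          rw [dif_neg (by tauto), if_pos rfl]
        have e3 : ∑ l : {i // i ≠ h ∧ i ≠ y},
            LxL_mk h y (fun l => (γ l : ℕ)) (m - 1 - dg γ - t) t l.1 = dg γ := by
          unfold dg
          apply Finset.sum_congr rfl
          intro l _
          unfold LxL_mk
          rw [dif_pos l.2]
        rw [e1, e2, e3]
        omega
      · funext l
        apply Fin.ext
        show min (LxL_mk h y (fun l => (γ l : ℕ)) (m - 1 - dg γ - t) t l.1) (b l) = (γ l : ℕ)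
        unfold LxL_mk
        rw [dif_pos l.2]
        exact min_eq_left (Nat.le_of_lt_succ (γ l).2)
    · intro a ha
      rw [mem_filter, mem_Rg] at ha
      obtain ⟨⟨ha1, ha2⟩, ha3⟩ := ha
      have e0 : ∀ l : {i // i ≠ h ∧ i ≠ y}, a l.1 = (γ l : ℕ) := by
        intro l
        rw [← ha3]
        show a l.1 = min (a l.1) (b l)
        exact (min_eq_left (ha1 l.1)).symm
      have e1 : ∑ l : {i // i ≠ h ∧ i ≠ y}, a l.1 = dg γ := by
        unfold dg
        exact Finset.sum_congr rfl fun l _ => e0 l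
      rw [LxL_split h y hy a, e1] at ha2
      funext i
      unfold LxL_mk
      split_ifs with h1 h2
      · exact (e0 ⟨i, h1⟩).symm
      · rw [h2]
      · have : i = h := by
          by_contra hne
          exact h1 ⟨hne, h2⟩
        rw [this]
        omega
    · intro t ht
      show LxL_mk h y (fun l => (γ l : ℕ)) (m - 1 - dg γ - t) t y = t
      unfold LxL_mk
      rw [dif_neg (by tauto), if_pos rfl]
  rw [key, card_range]

end Pool.Agent.H18.Tl

end

section

/-!
# Module Big (TL): in large degree the conditions are independent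

`big_one`: one point.  By `h0_sh` and `act (tz b _)` (an automorphism of `Ve b e`, `tz_mem_Ve`, `van_tz`) we may assume `p = ⟨m, 0, 0⟩`; then
`Sol b e [p]` consists of the `F` with `(F γ).coeff j = 0` unless `m - dg γ ≤ j ≤ e - dg γ`, of dimension
`∑_γ ((e + 1 - dg γ) - (m - dg γ)) = Lm b (e + 1) - Lm b m` if `Bs b + m ≤ e + 1`.
`big`: induction on `L`, `L = p :: L'`.  Let `g = ∏_{p' ∈ L'} (X - C p'.x)^(p'.m)`, of degree `γ₀`, `g(p.x) ≠ 0`; `g • F ∈ vanL b L'` for all `F`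
(the coefficients of `act` are multiplied by `g`), and `g • F ∈ van b p ↔ F ∈ van b p` (`van_unit`).  The map `F ↦ g • F` from
`Ve b (e - γ₀)` to `Sol b e L' ⧸ Sol b e L` (quotient by the subspace `Sol b e L ≤ Sol b e L'`) has the kernel `Sol b (e - γ₀) [p]`, so
`Lm b (e - γ₀ + 1) - h0 b (e - γ₀) [p] ≤ h0 b e L' - h0 b e L`; the left side is `≥ Lm b p.m` by `big_one`.  So
`h0 b e L + Lm b p.m ≤ h0 b e L'`; `e₀` is the maximum of the bound for `L'` and `γ₀ + Bs b + p.m`.
-/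

namespace Pool.Agent.H18.Tl

open Finset Polynomial

variable {τ : Type} [Fintype τ] [DecidableEq τ] {b : τ → ℕ}

private theorem Big_taylor_coeff (x : ℂ) (f : ℂ[X]) (k : ℕ) (h : ∀ j, k ≤ j → f.coeff j = 0) :
    ∀ j, k ≤ j → (taylor x f).coeff j = 0 := by
  have h1 : f.degree < k := (degree_lt_iff_coeff_zero f k).mpr h
  have h2 : (taylor x f).degree < k := by rw [degree_taylor]; exact h1
  exact (degree_lt_iff_coeff_zero _ k).mp h2

omit [DecidableEq τ] in
private theorem Big_sh_mem_Ve (x : ℂ) (e : ℕ) (F : V b) (hF : F ∈ Ve b e) : sh x F ∈ Ve b e := by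
  intro γ j hj
  rw [sh_apply]
  refine Big_taylor_coeff x (F γ) (e + 1 - dg γ) (fun i hi => hF γ i (by omega)) j (by omega)

private theorem Big_act_back (z : τ → ℂ) (F : V b) : act (tz b (-z)) (act (tz b z) F) = F := by
  rw [← act_mul, tz_neg_mul, act_one]

private theorem Big_act_forth (z : τ → ℂ) (F : V b) : act (tz b z) (act (tz b (-z)) F) = F := by
  rw [← act_mul, tz_mul_neg, act_one]

/-- The coefficients below the diagonal. -/
private noncomputable def Big_coe (p : Pt τ) (lo hi : Box b → ℕ) :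
    V b →ₗ[ℂ] ((Σ γ : Box b, Fin (hi γ - lo γ)) → ℂ) :=
  LinearMap.pi fun i => (lcoeff ℂ (lo i.1 + (i.2 : ℕ))) ∘ₗ (taylor p.x) ∘ₗ
    (LinearMap.proj i.1 : V b →ₗ[ℂ] ℂ[X]) ∘ₗ ((act (tz b p.z)).restrictScalars ℂ)

private theorem Big_coe_apply (p : Pt τ) (lo hi : Box b → ℕ) (F : V b)
    (i : Σ γ : Box b, Fin (hi γ - lo γ)) :
    Big_coe p lo hi F i = (taylor p.x (act (tz b p.z) F i.1)).coeff (lo i.1 + (i.2 : ℕ)) := rfl

/-- Injectivity of the coefficients on the solutions. -/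
private theorem Big_inj (p : Pt τ) (e : ℕ) (F : V b) (hF : F ∈ Sol b e [p])
    (h0 : Big_coe p (fun γ => p.m - dg γ) (fun γ => e + 1 - dg γ) F = 0) : F = 0 := by
  have hv : F ∈ van b p := (mem_vanL.mp (mem_Sol.mp hF).2) p (List.mem_singleton.mpr rfl)
  have hV : act (tz b p.z) F ∈ Ve b e := tz_mem_Ve _ _ _ (mem_Sol.mp hF).1
  have h1 : act (tz b p.z) F = 0 := by
    funext γ
    apply taylor_injective p.x
    rw [Pi.zero_apply, map_zero]
    ext j
    rw [coeff_zero]
    by_cases hj : j + dg γ < p.m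
    · exact (van_iff p F).mp hv γ j hj
    · by_cases hj2 : e + 1 - dg γ ≤ j
      · exact Big_taylor_coeff p.x _ (e + 1 - dg γ) (fun i hi => hV γ i (by omega)) j hj2
      · have h2 := congrFun h0 ⟨γ, ⟨j - (p.m - dg γ), by omega⟩⟩
        rw [Big_coe_apply, Pi.zero_apply] at h2
        have h3 : p.m - dg γ + (j - (p.m - dg γ)) = j := by omega
        simpa only [h3] using h2
  rw [← Big_act_back p.z F, h1, map_zero]

private theorem Big_finite (e : ℕ) (L : List (Pt τ)) : Module.Finite ℂ (Sol b e L) := by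
  classical
  let f : Sol b e L →ₗ[ℂ] ((Σ γ : Box b, Fin ((e + 1 - dg γ) - (0 - dg γ))) → ℂ) :=
    (Big_coe (b := b) (⟨0, 0, 0⟩ : Pt τ) (fun γ => 0 - dg γ) (fun γ => e + 1 - dg γ)) ∘ₗ
      (Sol b e L).subtype
  apply Module.Finite.of_injective f
  rw [← LinearMap.ker_eq_bot, LinearMap.ker_eq_bot']
  rintro ⟨F, hF⟩ h
  apply Subtype.ext
  refine Big_inj (⟨0, 0, 0⟩ : Pt τ) e F ?_ h
  refine mem_Sol.mpr ⟨(mem_Sol.mp hF).1, ?_⟩
  intro q hq γ
  rw [List.mem_singleton.mp hq]
  simp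

theorem big_one (p : Pt τ) (e : ℕ) (he : Bs b + p.m ≤ e + 1) :
    h0 b e [p] + Lm b p.m ≤ Lm b (e + 1) := by
  classical
  let f : Sol b e [p] →ₗ[ℂ] ((Σ γ : Box b, Fin ((e + 1 - dg γ) - (p.m - dg γ))) → ℂ) :=
    (Big_coe (b := b) p (fun γ => p.m - dg γ) (fun γ => e + 1 - dg γ)) ∘ₗ
      (Sol b e [p]).subtype
  have hf : Function.Injective f := by
    rw [← LinearMap.ker_eq_bot, LinearMap.ker_eq_bot']
    rintro ⟨F, hF⟩ h
    exact Subtype.ext (Big_inj p e F hF h)
  have h1 := LinearMap.finrank_le_finrank_of_injective hf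
  rw [Module.finrank_fintype_fun_eq_card, Fintype.card_sigma] at h1
  simp only [Fintype.card_fin] at h1
  have h2 : ∑ γ : Box b, ((e + 1 - dg γ) - (p.m - dg γ)) + ∑ γ : Box b, (p.m - dg γ)
      = ∑ γ : Box b, (e + 1 - dg γ) := by
    rw [← Finset.sum_add_distrib]
    refine Finset.sum_congr rfl fun γ _ => ?_
    omega
  unfold h0 Lm
  omega

/-- The vector with prescribed Taylor coefficients at `p`. -/
private noncomputable def Big_th (p : Pt τ) :
    ((Σ γ : Box b, Fin (p.m - dg γ)) → ℂ) →ₗ[ℂ] V b :=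
  ((act (tz b (-p.z))).restrictScalars ℂ) ∘ₗ (sh (-p.x)) ∘ₗ
    (LinearMap.pi fun γ => ∑ i : Fin (p.m - dg γ),
      (monomial (R := ℂ) (i : ℕ)) ∘ₗ (LinearMap.proj (⟨γ, i⟩ : Σ γ : Box b, Fin (p.m - dg γ))))

/-- The prescribed polynomials. -/
private noncomputable def Big_g (p : Pt τ) (c : (Σ γ : Box b, Fin (p.m - dg γ)) → ℂ) : V b :=
  fun γ => ∑ i : Fin (p.m - dg γ), monomial (i : ℕ) (c ⟨γ, i⟩)

private theorem Big_th_eq (p : Pt τ) (c : (Σ γ : Box b, Fin (p.m - dg γ)) → ℂ) :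
    Big_th p c = act (tz b (-p.z)) (sh (-p.x) (Big_g p c)) := by
  have h : (LinearMap.pi fun γ => ∑ i : Fin (p.m - dg γ),
      (monomial (R := ℂ) (i : ℕ)) ∘ₗ
        (LinearMap.proj (⟨γ, i⟩ : Σ γ : Box b, Fin (p.m - dg γ)))) c = Big_g p c := by
    funext γ
    simp [Big_g, LinearMap.pi_apply, LinearMap.sum_apply]
  unfold Big_th
  rw [LinearMap.comp_apply, LinearMap.comp_apply, h]
  rfl

omit [DecidableEq τ] in
private theorem Big_g_coeff (p : Pt τ) (c : (Σ γ : Box b, Fin (p.m - dg γ)) → ℂ) (γ : Box b)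
    (j : ℕ) : (Big_g p c γ).coeff j = if h : j < p.m - dg γ then c ⟨γ, ⟨j, h⟩⟩ else 0 := by
  unfold Big_g
  rw [finsetSum_coeff]
  simp only [coeff_monomial]
  split_ifs with h
  · rw [Finset.sum_eq_single (⟨j, h⟩ : Fin (p.m - dg γ))]
    · simp
    · intro i _ hi
      rw [if_neg]
      intro h2
      exact hi (Fin.ext h2)
    · intro h2
      exact absurd (Finset.mem_univ _) h2
  · refine Finset.sum_eq_zero fun i _ => ?_
    rw [if_neg]
    intro h2
    exact h (h2 ▸ i.2)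

private theorem Big_th_taylor (p : Pt τ) (c : (Σ γ : Box b, Fin (p.m - dg γ)) → ℂ) (γ : Box b) :
    taylor p.x (act (tz b p.z) (Big_th p c) γ) = Big_g p c γ := by
  rw [Big_th_eq, Big_act_forth, sh_apply, taylor_taylor, add_neg_cancel, taylor_zero]

private theorem Big_th_mem_Ve (p : Pt τ) (c : (Σ γ : Box b, Fin (p.m - dg γ)) → ℂ) (e : ℕ)
    (he : p.m ≤ e + 1) : Big_th p c ∈ Ve b e := by
  rw [Big_th_eq]
  refine tz_mem_Ve _ _ _ (Big_sh_mem_Ve _ _ _ ?_)
  intro γ j hj
  rw [Big_g_coeff, dif_neg]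
  omega

private theorem Big_th_van (p : Pt τ) (c : (Σ γ : Box b, Fin (p.m - dg γ)) → ℂ)
    (h : Big_th p c ∈ van b p) : c = 0 := by
  funext i
  obtain ⟨γ, i⟩ := i
  have h1 := (van_iff p _).mp h γ i (by have := i.2; omega)
  rw [Big_th_taylor, Big_g_coeff, dif_pos i.2] at h1
  exact h1

private theorem Big_smul_van (q : ℂ[X]) (p : Pt τ) (hq : (X - C p.x) ^ p.m ∣ q) (F : V b) :
    q • F ∈ van b p := by
  intro γ
  rw [map_smul, Pi.smul_apply, smul_eq_mul]
  exact Dvd.dvd.mul_right ((pow_dvd_pow _ (Nat.sub_le _ _)).trans hq) _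

omit [DecidableEq τ] in
private theorem Big_smul_Ve (q : ℂ[X]) (e k : ℕ) (hq : q.natDegree ≤ k) (F : V b)
    (hF : F ∈ Ve b e) : q • F ∈ Ve b (e + k) := by
  intro γ j hj
  rw [Pi.smul_apply, smul_eq_mul, coeff_mul]
  refine Finset.sum_eq_zero fun x hx => ?_
  replace hx := Finset.HasAntidiagonal.mem_antidiagonal.mp hx
  by_cases h : k < x.1
  · rw [coeff_eq_zero_of_natDegree_lt (lt_of_le_of_lt hq h), zero_mul]
  · rw [hF γ x.2 (by omega), mul_zero]

/-- One more point. -/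
private theorem Big_step (p : Pt τ) (L : List (Pt τ)) (q : ℂ[X]) (hq0 : q.eval p.x ≠ 0)
    (hq : ∀ p' ∈ L, (X - C p'.x) ^ p'.m ∣ q) (e : ℕ) (he : q.natDegree + p.m ≤ e) :
    h0 b e (p :: L) + Lm b p.m ≤ h0 b e L := by
  classical
  have := Big_finite (b := b) e L
  have := Big_finite (b := b) e (p :: L)
  have hmem : ∀ c : (Σ γ : Box b, Fin (p.m - dg γ)) → ℂ, q • Big_th p c ∈ Sol b e L := by
    intro c
    refine mem_Sol.mpr ⟨?_, ?_⟩
    · have h1 := Big_smul_Ve q (e - q.natDegree) q.natDegree le_rfl (Big_th p c)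
        (Big_th_mem_Ve p c _ (by omega))
      rwa [Nat.sub_add_cancel (by omega)] at h1
    · intro p' hp'
      exact Big_smul_van q p' (hq p' hp') _
  have hsub : ∀ F : V b, F ∈ Sol b e (p :: L) → F ∈ Sol b e L := by
    intro F hF
    refine mem_Sol.mpr ⟨(mem_Sol.mp hF).1, ?_⟩
    intro p' hp'
    exact (mem_vanL.mp (mem_Sol.mp hF).2) p' (List.mem_cons_of_mem _ hp')
  let f1 : Sol b e (p :: L) →ₗ[ℂ] Sol b e L :=
    LinearMap.codRestrict _ (Sol b e (p :: L)).subtype fun F => hsub F F.2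
  let f2 : ((Σ γ : Box b, Fin (p.m - dg γ)) → ℂ) →ₗ[ℂ] Sol b e L :=
    LinearMap.codRestrict _ (((LinearMap.lsmul ℂ[X] (V b) q).restrictScalars ℂ) ∘ₗ Big_th p)
      fun c => hmem c
  let f : (Sol b e (p :: L) × ((Σ γ : Box b, Fin (p.m - dg γ)) → ℂ)) →ₗ[ℂ] Sol b e L :=
    LinearMap.coprod f1 f2
  have hf : Function.Injective f := by
    rw [← LinearMap.ker_eq_bot, LinearMap.ker_eq_bot']
    rintro ⟨F, c⟩ h
    have h1 : (F : V b) + q • Big_th p c = 0 := congrArg Subtype.val h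
    have h2 : (F : V b) ∈ van b p :=
      (mem_vanL.mp (mem_Sol.mp F.2).2) p List.mem_cons_self
    have h3 : q • Big_th p c ∈ van b p := by
      have h4 : q • Big_th p c = -(F : V b) := by
        rw [eq_neg_iff_add_eq_zero, add_comm]; exact h1
      rw [h4]
      exact (van b p).neg_mem h2
    have h5 : c = 0 := Big_th_van p c (van_unit p q hq0 _ h3)
    have h6 : (F : V b) = 0 := by
      rw [h5, map_zero, smul_zero, add_zero] at h1
      exact h1
    refine Prod.ext (Subtype.ext h6) h5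
  have h1 := LinearMap.finrank_le_finrank_of_injective hf
  rw [Module.finrank_prod, Module.finrank_fintype_fun_eq_card, Fintype.card_sigma] at h1
  simp only [Fintype.card_fin] at h1
  unfold h0 Lm
  exact h1

omit [Fintype τ] [DecidableEq τ] in
private theorem Big_prod (L : List (Pt τ)) :
    ∃ q : ℂ[X], (∀ p' ∈ L, (X - C p'.x) ^ p'.m ∣ q) ∧
      ∀ x : ℂ, x ∉ L.map Pt.x → q.eval x ≠ 0 := by
  induction L with
  | nil => exact ⟨1, by simp, by simp⟩
  | cons p L ih =>
    obtain ⟨q, h1, h2⟩ := ih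
    refine ⟨(X - C p.x) ^ p.m * q, ?_, ?_⟩
    · intro p' hp'
      rcases List.mem_cons.mp hp' with h | h
      · rw [h]; exact dvd_mul_right _ _
      · exact Dvd.dvd.mul_left (h1 p' h) _
    · intro x hx
      rw [List.map_cons, List.mem_cons, not_or] at hx
      rw [eval_mul, eval_pow, eval_sub, eval_X, eval_C]
      exact mul_ne_zero (pow_ne_zero _ (sub_ne_zero.mpr hx.1)) (h2 x hx.2)

theorem big (L : List (Pt τ)) (hd : (L.map Pt.x).Nodup) :
    ∃ e₀, ∀ e, e₀ ≤ e → h0 b e L + cL b L ≤ Lm b (e + 1) := by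
  induction L with
  | nil =>
    refine ⟨Bs b, fun e he => ?_⟩
    have h1 := big_one (b := b) (⟨0, 0, 0⟩ : Pt τ) e (by simpa using Nat.le_succ_of_le he)
    have h2 : Sol b e ([] : List (Pt τ)) = Sol b e [(⟨0, 0, 0⟩ : Pt τ)] := by
      ext F
      rw [mem_Sol, mem_Sol]
      refine and_congr_right fun _ => ⟨fun _ => ?_, fun _ => ?_⟩
      · intro q hq γ
        rw [List.mem_singleton.mp hq]
        simp
      · intro q hq
        exact absurd hq List.not_mem_nil
    have h3 : h0 b e ([] : List (Pt τ)) = h0 b e [(⟨0, 0, 0⟩ : Pt τ)] := by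
      unfold h0
      rw [h2]
    have h4 : cL b ([] : List (Pt τ)) = 0 := rfl
    rw [h3, h4]
    omega
  | cons p L ih =>
    rw [List.map_cons, List.nodup_cons] at hd
    obtain ⟨e₀, h⟩ := ih hd.2
    obtain ⟨q, h1, h2⟩ := Big_prod L
    refine ⟨max e₀ (q.natDegree + p.m), fun e he => ?_⟩
    have h3 := h e (le_trans (le_max_left _ _) he)
    have h4 := Big_step (b := b) p L q (h2 p.x hd.1) h1 e (le_trans (le_max_right _ _) he)
    have h5 : cL b (p :: L) = Lm b p.m + cL b L := by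
      unfold cL
      rw [List.map_cons, List.sum_cons]
    rw [h5]
    omega

end Pool.Agent.H18.Tl

end

section

/-!
# Module Full (TL): surjectivity at one point gives independent conditions

`full`: for `e' ≥ e` the map `e0` on `Sol b (e' + 1) L` is surjective (`Sol b (e + 1) L ≤ Sol b (e' + 1) L`) with the kernel
`X • Sol b e' L` (`vanL_unit`, `F γ` divisible by `X`), so `h0 b (e' + 1) L = h0 b e' L + Pc b`; also `Lm b (e' + 2) = Lm b (e' + 1) + Pc b`
(`e' + 1 ≥ Bs b ≥ dg γ`).  So `Lm b (e' + 1) - h0 b e' L` does not depend on `e' ≥ e`, and for large `e'` it is `≥ cL b L` by `big`.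
-/

namespace Pool.Agent.H18.Tl

open Finset Polynomial

variable {τ : Type} [Fintype τ] [DecidableEq τ] {b : τ → ℕ} {e : ℕ} {L : List (Pt τ)}

private theorem Full_finite (e : ℕ) (L : List (Pt τ)) : Module.Finite ℂ (Sol b e L) := by
  classical
  let f : Sol b e L →ₗ[ℂ] ((Σ γ : Box b, Fin (e + 1)) → ℂ) :=
    (LinearMap.pi fun i => (lcoeff ℂ (i.2 : ℕ)) ∘ₗ (LinearMap.proj i.1 : V b →ₗ[ℂ] ℂ[X])) ∘ₗ
      (Sol b e L).subtype
  apply Module.Finite.of_injective f
  rw [← LinearMap.ker_eq_bot, LinearMap.ker_eq_bot']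
  rintro ⟨F, hF⟩ h
  apply Subtype.ext
  funext γ
  ext j
  rw [Submodule.coe_zero, Pi.zero_apply, coeff_zero]
  by_cases hj : j < e + 1
  · exact congrFun h ⟨γ, ⟨j, hj⟩⟩
  · exact (mem_Sol.mp hF).1 γ j (by omega)

private theorem Full_mono (F : V b) {e e' : ℕ} (h : e ≤ e') (hF : F ∈ Sol b e L) :
    F ∈ Sol b e' L :=
  mem_Sol.mpr ⟨fun γ j hj => (mem_Sol.mp hF).1 γ j (by omega), (mem_Sol.mp hF).2⟩

private theorem Full_X (F : V b) {e : ℕ} (hF : F ∈ Sol b e L) :
    (X : ℂ[X]) • F ∈ Sol b (e + 1) L := by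
  refine mem_Sol.mpr ⟨?_, (vanL b L).smul_mem _ (mem_Sol.mp hF).2⟩
  intro γ j hj
  rw [Pi.smul_apply, smul_eq_mul]
  rcases j with _ | j
  · exact coeff_X_mul_zero _
  · rw [coeff_X_mul]
    exact (mem_Sol.mp hF).1 γ j (by omega)

private theorem Full_coeff (F : V b) (G : Box b → V b) (hG : ∀ β, e0 (G β) = Pi.single β 1)
    (v : Box b → ℂ) (h : (X : ℂ[X]) • F + ∑ β, v β • G β = 0) : v = 0 := by
  funext γ
  have h1 : (((X : ℂ[X]) • F + ∑ β, v β • G β) γ).coeff 0 = 0 := by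
    rw [h]
    rfl
  rw [Pi.add_apply, Pi.smul_apply, smul_eq_mul, coeff_add, coeff_X_mul_zero, zero_add,
    Finset.sum_apply, finsetSum_coeff] at h1
  have h2 : ∀ β ∈ (Finset.univ : Finset (Box b)),
      ((v β • G β) γ).coeff 0 = v β * (if γ = β then 1 else 0) := by
    intro β _
    have h5 := congrFun (hG β) γ
    rw [Pi.single_apply] at h5
    have h6 : (G β γ).coeff 0 = if γ = β then 1 else 0 := h5
    rw [Pi.smul_apply, coeff_smul, smul_eq_mul, h6]
  rw [Finset.sum_congr rfl h2] at h1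
  rw [Finset.sum_eq_single γ] at h1
  · rwa [if_pos rfl, mul_one] at h1
  · intro β _ hβ
    rw [if_neg (Ne.symm hβ), mul_zero]
  · intro h7
    exact absurd (Finset.mem_univ _) h7

omit [Fintype τ] [DecidableEq τ] in
private theorem Full_X_inj (F : V b) (h : (X : ℂ[X]) • F = 0) : F = 0 := by
  funext γ
  have h8 := congrFun h γ
  rw [Pi.smul_apply, smul_eq_mul, Pi.zero_apply] at h8
  exact (mul_eq_zero.mp h8).resolve_left X_ne_zero

/-- Multiplication by `X`. -/
private noncomputable def Full_mX : V b →ₗ[ℂ] V b :=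
  (LinearMap.lsmul ℂ[X] (V b) X).restrictScalars ℂ

omit [Fintype τ] [DecidableEq τ] in
private theorem Full_mX_apply (F : V b) : Full_mX F = (X : ℂ[X]) • F := rfl

/-- The combinations. -/
private noncomputable def Full_cmb (G : Box b → V b) : (Box b → ℂ) →ₗ[ℂ] V b :=
  Fintype.linearCombination ℂ G

private theorem Full_cmb_apply (G : Box b → V b) (v : Box b → ℂ) :
    Full_cmb G v = ∑ β, v β • G β := rfl

private theorem Full_cmb_mem (G : Box b → V b) (e' : ℕ) (hG : ∀ β, G β ∈ Sol b e' L)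
    (v : Box b → ℂ) : Full_cmb G v ∈ Sol b e' L := by
  rw [Full_cmb_apply]
  exact Submodule.sum_mem _ fun β _ => Submodule.smul_mem _ _ (hG β)

private theorem Full_mX_mem (e' : ℕ) (F : V b) (hF : F ∈ Sol b e' L) :
    Full_mX F ∈ Sol b (e' + 1) L := by
  rw [Full_mX_apply]
  exact Full_X F hF

private theorem Full_step (hs : ∀ v : Box b → ℂ, ∃ G ∈ Sol b (e + 1) L, e0 G = v) (e' : ℕ)
    (he : e ≤ e') : h0 b e' L + Pc b ≤ h0 b (e' + 1) L := by
  classical
  have hfin1 := Full_finite (b := b) e' L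
  have hfin2 := Full_finite (b := b) (e' + 1) L
  choose G hG1 hG2 using fun β : Box b => hs (Pi.single β 1)
  have hG3 : ∀ β, G β ∈ Sol b (e' + 1) L := fun β => Full_mono (G β) (by omega) (hG1 β)
  let f1 : Sol b e' L →ₗ[ℂ] Sol b (e' + 1) L :=
    LinearMap.codRestrict _ (Full_mX ∘ₗ (Sol b e' L).subtype) fun F => Full_mX_mem e' F.1 F.2
  let f2 : (Box b → ℂ) →ₗ[ℂ] Sol b (e' + 1) L :=
    LinearMap.codRestrict _ (Full_cmb G) fun v => Full_cmb_mem G (e' + 1) hG3 v
  let f : (Sol b e' L × (Box b → ℂ)) →ₗ[ℂ] Sol b (e' + 1) L := LinearMap.coprod f1 f2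
  have hf : Function.Injective f := by
    rw [← LinearMap.ker_eq_bot, LinearMap.ker_eq_bot']
    rintro ⟨F, v⟩ h
    obtain ⟨F, hF⟩ := F
    have h0 : Full_mX F + Full_cmb G v = 0 := congrArg Subtype.val h
    rw [Full_mX_apply, Full_cmb_apply] at h0
    have hv : v = 0 := Full_coeff F G hG2 v h0
    have h6 : (X : ℂ[X]) • F = 0 := by
      rw [hv] at h0
      have h9 : ∑ β, (0 : Box b → ℂ) β • G β = 0 :=
        Finset.sum_eq_zero fun β _ => by rw [Pi.zero_apply, zero_smul]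
      rwa [h9, add_zero] at h0
    exact Prod.ext (Subtype.ext (Full_X_inj _ h6)) hv
  have h1 := LinearMap.finrank_le_finrank_of_injective hf
  rw [Module.finrank_prod, Module.finrank_fintype_fun_eq_card] at h1
  exact h1

theorem full (hd : (L.map Pt.x).Nodup) (hB : Bs b ≤ e + 1) (hx : ∀ p ∈ L, p.x ≠ 0)
    (hs : ∀ v : Box b → ℂ, ∃ G ∈ Sol b (e + 1) L, e0 G = v) :
    h0 b e L + cL b L ≤ Lm b (e + 1) := by
  obtain ⟨e₀, h⟩ := big (b := b) L hd
  have h1 : ∀ k : ℕ, h0 b e L + k * Pc b ≤ h0 b (e + k) L := by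
    intro k
    induction k with
    | zero => simp
    | succ k ih =>
      have h2 := Full_step hs (e + k) (by omega)
      rw [add_mul, one_mul]
      rw [← add_assoc e k 1]
      omega
  have h2 := h (e + e₀) (by omega)
  have h3 := h1 e₀
  have h4 := Lm_add b (e + 1) e₀ hB
  have h5 : e + 1 + e₀ = e + e₀ + 1 := by ring
  rw [h5] at h4
  omega

end Pool.Agent.H18.Tl

end

section

/-!
# Module GeoL (TL): two long coordinates

`h ≠ y` are coordinates with `w h, w y ≥ d`; the others (`τ = {i // i ≠ h ∧ i ≠ y}`) have the widths `b = w`.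
`geoL`: positions `pos i = (1 at h, x_i at y, z_i on τ)` (`L.get i`, `GM_iff` or directly the definition of `GM` with `n = L.length`).  Let
`f` satisfy the conditions.  `F β = ∑_{j ≤ d - dg β} f(α(β, j)) t^j`, `α(β, j)` = the exponent with the values `β` on `τ`, `j` at `y` and
`d - dg β - j` at `h` (for `dg β ≤ d`, else `F β = 0`); `F ∈ Ve b d`.  By `van_iff`, `F` vanishes at the point `⟨m_i, x_i, z_i⟩`: for
`j + dg γ < m_i` the coefficient is `∑_{α ∈ Rg d w} f α * tcr (pos i) α c` with `c = (0 at h, j at y, γ on τ)` (`binom(α_h, 0) 1^(α_h) = 1`).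
So `F = 0`, `f = 0` on `Rg d w`.
-/

namespace Pool.Agent.H18.Tl

open Finset Pool.Agent.H18.Ex

variable {ι : Type} [Fintype ι] [DecidableEq ι]

/-- The function with the values `u` at `h`, `v` at `y` and `q` elsewhere. -/
private def GeoL_fn {M : Type} (h y : ι) (u v : M) (q : {i // i ≠ h ∧ i ≠ y} → M) : ι → M :=
  fun i => if hi : i = h then u else if hj : i = y then v else q ⟨i, hi, hj⟩

omit [Fintype ι] in
private theorem GeoL_fn_h {M : Type} (h y : ι) (u v : M) (q : {i // i ≠ h ∧ i ≠ y} → M) :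
    GeoL_fn h y u v q h = u := by
  simp [GeoL_fn]

omit [Fintype ι] in
private theorem GeoL_fn_y {M : Type} (h y : ι) (hy : h ≠ y) (u v : M)
    (q : {i // i ≠ h ∧ i ≠ y} → M) : GeoL_fn h y u v q y = v := by
  simp [GeoL_fn, hy.symm]

omit [Fintype ι] in
private theorem GeoL_fn_t {M : Type} (h y : ι) (u v : M) (q : {i // i ≠ h ∧ i ≠ y} → M)
    (l : {i // i ≠ h ∧ i ≠ y}) : GeoL_fn h y u v q l.1 = q l := by
  simp [GeoL_fn, l.2.1, l.2.2]

private theorem GeoL_prod {M : Type} [CommMonoid M] (h y : ι) (hy : h ≠ y) (g : ι → M) :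
    ∏ i, g i = g h * (g y * ∏ l : {i // i ≠ h ∧ i ≠ y}, g l.1) := by
  rw [← mul_prod_erase univ g (mem_univ h),
    ← mul_prod_erase (univ.erase h) g (mem_erase.2 ⟨hy.symm, mem_univ y⟩)]
  congr 2
  apply prod_subtype
  intro x
  simp only [mem_erase, mem_univ, and_true]
  exact and_comm

private theorem GeoL_sum {M : Type} [AddCommMonoid M] (h y : ι) (hy : h ≠ y) (g : ι → M) :
    ∑ i, g i = g h + (g y + ∑ l : {i // i ≠ h ∧ i ≠ y}, g l.1) := by
  rw [← add_sum_erase univ g (mem_univ h),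
    ← add_sum_erase (univ.erase h) g (mem_erase.2 ⟨hy.symm, mem_univ y⟩)]
  congr 2
  apply sum_subtype
  intro x
  simp only [mem_erase, mem_univ, and_true]
  exact and_comm

/-- The exponent `α(β, j)`. -/
private def GeoL_al (d : ℕ) (w : ι → ℕ) (h y : ι)
    (β : Box (fun l : {i // i ≠ h ∧ i ≠ y} => w l.1)) (j : ℕ) : ι → ℕ :=
  GeoL_fn h y (d - dg β - j) j (fun l => (β l : ℕ))

private theorem GeoL_tcr (d : ℕ) (w : ι → ℕ) (h y : ι) (hy : h ≠ y)
    (β γ : Box (fun l : {i // i ≠ h ∧ i ≠ y} => w l.1)) (k j : ℕ) (x : ℂ)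
    (z : {i // i ≠ h ∧ i ≠ y} → ℂ) :
    tcr (GeoL_fn h y 1 x z) (GeoL_al d w h y β k) (GeoL_fn h y 0 j (fun l => (γ l : ℕ)))
      = ((k.choose j : ℕ) : ℂ) * x ^ (k - j) * tz _ z γ β := by
  unfold tcr GeoL_al
  rw [GeoL_prod h y hy]
  simp only [GeoL_fn_h, GeoL_fn_y h y hy, GeoL_fn_t]
  rw [Nat.choose_zero_right, one_pow, Nat.cast_one, one_mul, one_mul]
  rfl

private theorem GeoL_mem (d : ℕ) (w : ι → ℕ) (h y : ι) (hy : h ≠ y) (hh : d ≤ w h)
    (hyw : d ≤ w y) (β : Box (fun l : {i // i ≠ h ∧ i ≠ y} => w l.1)) (k : ℕ)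
    (hk : k + dg β ≤ d) : GeoL_al d w h y β k ∈ Ex.Rg d w := by
  rw [mem_Rg]
  constructor
  · intro i
    by_cases hi : i = h
    · subst hi
      unfold GeoL_al
      rw [GeoL_fn_h]
      omega
    · by_cases hj : i = y
      · subst hj
        unfold GeoL_al
        rw [GeoL_fn_y _ _ hy]
        omega
      · have h1 := GeoL_fn_t h y (d - dg β - k) k (fun l => (β l : ℕ)) ⟨i, hi, hj⟩
        have h2 := (β ⟨i, hi, hj⟩).isLt
        unfold GeoL_al
        rw [h1]
        exact Nat.lt_succ_iff.1 h2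
  · rw [GeoL_sum h y hy]
    unfold GeoL_al
    simp only [GeoL_fn_h, GeoL_fn_y h y hy, GeoL_fn_t]
    have h3 : ∑ l : {i // i ≠ h ∧ i ≠ y}, (β l : ℕ) = dg β := rfl
    rw [h3]
    omega

/-- The box part of an exponent. -/
private def GeoL_be (w : ι → ℕ) (h y : ι) (a : ι → ℕ) :
    Box (fun l : {i // i ≠ h ∧ i ≠ y} => w l.1) :=
  fun l => ⟨min (a l.1) (w l.1), Nat.lt_succ_iff.2 (min_le_right _ _)⟩

omit [Fintype ι] [DecidableEq ι] in
private theorem GeoL_be_val (w : ι → ℕ) (h y : ι) (a : ι → ℕ) (ha : ∀ i, a i ≤ w i)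
    (l : {i // i ≠ h ∧ i ≠ y}) : ((GeoL_be w h y a l : Fin (w l.1 + 1)) : ℕ) = a l.1 :=
  min_eq_left (ha l.1)

private theorem GeoL_dg_be (d : ℕ) (w : ι → ℕ) (h y : ι) (hy : h ≠ y) (a : ι → ℕ)
    (ha : a ∈ Ex.Rg d w) : a h + (a y + dg (GeoL_be w h y a)) = d := by
  obtain ⟨h1, h2⟩ := mem_Rg.1 ha
  rw [GeoL_sum h y hy] at h2
  have h3 : dg (GeoL_be w h y a) = ∑ l : {i // i ≠ h ∧ i ≠ y}, a l.1 :=
    sum_congr rfl fun l _ => GeoL_be_val w h y a h1 l
  rw [h3]
  exact h2

private theorem GeoL_al_be (d : ℕ) (w : ι → ℕ) (h y : ι) (hy : h ≠ y) (a : ι → ℕ)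
    (ha : a ∈ Ex.Rg d w) : GeoL_al d w h y (GeoL_be w h y a) (a y) = a := by
  have h1 := (mem_Rg.1 ha).1
  have h2 := GeoL_dg_be d w h y hy a ha
  funext i
  unfold GeoL_al
  by_cases hi : i = h
  · subst hi
    rw [GeoL_fn_h]
    omega
  · by_cases hj : i = y
    · subst hj
      rw [GeoL_fn_y _ _ hy]
    · have h3 := GeoL_fn_t h y (d - dg (GeoL_be w h y a) - a y) (a y)
        (fun l => ((GeoL_be w h y a l : Fin (w l.1 + 1)) : ℕ)) ⟨i, hi, hj⟩
      exact h3.trans (GeoL_be_val w h y a h1 ⟨i, hi, hj⟩)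

private theorem GeoL_be_al (d : ℕ) (w : ι → ℕ) (h y : ι)
    (β : Box (fun l : {i // i ≠ h ∧ i ≠ y} => w l.1)) (k : ℕ) :
    GeoL_be w h y (GeoL_al d w h y β k) = β := by
  funext l
  apply Fin.ext
  show min (GeoL_al d w h y β k l.1) (w l.1) = (β l : ℕ)
  unfold GeoL_al
  rw [GeoL_fn_t]
  exact min_eq_left (Nat.lt_succ_iff.1 (β l).isLt)

private theorem GeoL_reindex (d : ℕ) (w : ι → ℕ) (h y : ι) (hy : h ≠ y) (hh : d ≤ w h)
    (hyw : d ≤ w y) (g : (ι → ℕ) → ℂ) :
    ∑ a ∈ Ex.Rg d w, g a = ∑ β : Box (fun l : {i // i ≠ h ∧ i ≠ y} => w l.1),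
      ∑ k ∈ range (d + 1), if k + dg β ≤ d then g (GeoL_al d w h y β k) else 0 := by
  rw [← sum_product', ← sum_filter (s := univ ×ˢ range (d + 1))
    (fun q : Box (fun l : {i // i ≠ h ∧ i ≠ y} => w l.1) × ℕ => q.2 + dg q.1 ≤ d)
    (fun q => g (GeoL_al d w h y q.1 q.2))]
  symm
  refine sum_nbij' (fun q => GeoL_al d w h y q.1 q.2) (fun a => (GeoL_be w h y a, a y))
    ?_ ?_ ?_ ?_ ?_
  · intro q hq
    exact GeoL_mem d w h y hy hh hyw q.1 q.2 (mem_filter.1 hq).2
  · intro a ha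
    have h2 := GeoL_dg_be d w h y hy a ha
    rw [mem_filter, mem_product, mem_range]
    refine ⟨⟨mem_univ _, ?_⟩, ?_⟩
    · show a y < d + 1
      omega
    · show a y + dg (GeoL_be w h y a) ≤ d
      omega
  · intro q _
    refine Prod.ext (GeoL_be_al d w h y q.1 q.2) ?_
    show GeoL_al d w h y q.1 q.2 y = q.2
    unfold GeoL_al
    rw [GeoL_fn_y _ _ hy]
  · intro a ha
    exact GeoL_al_be d w h y hy a ha
  · intro q _
    rfl

/-- The vector of polynomials attached to `f`. -/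
private noncomputable def GeoL_F (d : ℕ) (w : ι → ℕ) (h y : ι) (f : (ι → ℕ) → ℂ) :
    V (fun l : {i // i ≠ h ∧ i ≠ y} => w l.1) :=
  fun β => ∑ k ∈ range (d + 1),
    Polynomial.monomial k (if k + dg β ≤ d then f (GeoL_al d w h y β k) else 0)

private theorem GeoL_F_coeff (d : ℕ) (w : ι → ℕ) (h y : ι) (f : (ι → ℕ) → ℂ)
    (β : Box (fun l : {i // i ≠ h ∧ i ≠ y} => w l.1)) (k : ℕ) :
    (GeoL_F d w h y f β).coeff k = if k + dg β ≤ d then f (GeoL_al d w h y β k) else 0 := by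
  unfold GeoL_F
  rw [Polynomial.finsetSum_coeff]
  simp only [Polynomial.coeff_monomial]
  rw [sum_ite_eq' (range (d + 1)) k]
  by_cases hk : k ∈ range (d + 1)
  · rw [if_pos hk]
  · rw [if_neg hk, if_neg]
    rw [mem_range] at hk
    omega

private theorem GeoL_taylor (d : ℕ) (w : ι → ℕ) (h y : ι) (f : (ι → ℕ) → ℂ)
    (γ : Box (fun l : {i // i ≠ h ∧ i ≠ y} => w l.1)) (A : Mt _) (x : ℂ) (j : ℕ) :
    (Polynomial.taylor x (act A (GeoL_F d w h y f) γ)).coeff j
      = ∑ β : Box (fun l : {i // i ≠ h ∧ i ≠ y} => w l.1), ∑ k ∈ range (d + 1),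
        if k + dg β ≤ d then f (GeoL_al d w h y β k) *
          (((k.choose j : ℕ) : ℂ) * x ^ (k - j) * A γ β) else 0 := by
  rw [act_apply, map_sum, Polynomial.finsetSum_coeff]
  refine sum_congr rfl fun β _ => ?_
  rw [Polynomial.taylor_mul, Polynomial.taylor_C, Polynomial.coeff_C_mul]
  unfold GeoL_F
  rw [map_sum, Polynomial.finsetSum_coeff, mul_sum]
  refine sum_congr rfl fun k _ => ?_
  rw [Polynomial.taylor_monomial, Polynomial.coeff_C_mul, Polynomial.coeff_X_add_C_pow]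
  by_cases hk : k + dg β ≤ d
  · rw [if_pos hk, if_pos hk]
    ring
  · rw [if_neg hk, if_neg hk]
    ring

theorem geoL (d : ℕ) (w : ι → ℕ) (h y : ι) (hy : h ≠ y) (hh : d ≤ w h) (hyw : d ≤ w y)
    (L : List (Pt {i // i ≠ h ∧ i ≠ y}))
    (hL : ∀ F ∈ Sol (fun l : {i // i ≠ h ∧ i ≠ y} => w l.1) d L, F = 0) :
    GM (Ex.Rg d w) ((↑(L.map Pt.m) : Multiset ℕ).map Kind.free) := by
  refine ⟨L.length, fun i => Kind.free (L.get i).m, ?_,
    fun i => GeoL_fn h y 1 (L.get i).x (L.get i).z, ?_⟩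
  · rw [Fin.univ_val_map, Multiset.map_coe]
    congr 1
    rw [List.map_map]
    have h1 : (fun i => Kind.free (L.get i).m : Fin L.length → Kind ι)
        = (Kind.free ∘ Pt.m) ∘ L.get := rfl
    rw [h1, ← List.map_ofFn, List.ofFn_get]
  · intro f hf
    have hF : GeoL_F d w h y f = 0 := by
      apply hL
      rw [mem_Sol]
      constructor
      · rw [mem_Ve]
        intro β j hj
        rw [GeoL_F_coeff, if_neg]
        omega
      · rw [mem_vanL]
        intro p hp
        obtain ⟨i, hi⟩ := List.get_of_mem hp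
        rw [van_iff]
        intro γ j hj
        have h1 := hf i (GeoL_fn h y 0 j (fun l => (γ l : ℕ))) ?_
        · rw [GeoL_reindex d w h y hy hh hyw] at h1
          rw [GeoL_taylor]
          rw [← hi]
          refine Eq.trans ?_ h1
          refine sum_congr rfl fun β _ => sum_congr rfl fun k _ => ?_
          by_cases hk : k + dg β ≤ d
          · rw [if_pos hk, if_pos hk]
            congr 1
            exact (GeoL_tcr d w h y hy β γ k j (L.get i).x (L.get i).z).symm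
          · rw [if_neg hk, if_neg hk]
        · show ∑ i', GeoL_fn h y 0 j (fun l => (γ l : ℕ)) i' < (L.get i).m
          rw [GeoL_sum h y hy]
          simp only [GeoL_fn_h, GeoL_fn_y h y hy, GeoL_fn_t]
          rw [hi]
          have h3 : ∑ l : {i // i ≠ h ∧ i ≠ y}, (γ l : ℕ) = dg γ := rfl
          rw [h3]
          omega
    intro a ha
    have h2 := GeoL_dg_be d w h y hy a ha
    have h3 := GeoL_F_coeff d w h y f (GeoL_be w h y a) (a y)
    rw [hF, if_pos (by omega), GeoL_al_be d w h y hy a ha] at h3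
    rw [← h3]
    rfl

end Pool.Agent.H18.Tl

end
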