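import Pool.Agent.H94.LP3.M07
import Pool.Agent.H94.LP3.M09
import Pool.Agent.H94.LP3.M11
import Pool.Agent.H94.LP3.M55
import Pool.Agent.H94.LP3.M68

/-! The parts of this file: H18.Ex.Base, H18.Ex.Norm, H18.Tj.Defs_1, H18.Tj.Layer, H18.Tj.LensL, H18.Tj.Load, H18.Tj.Thin, H18.Tk.CntT, H18.Tk.PeelP, H18.Tk.StepP, H18.Tk.EndP, H18.Tk.EndQ, H18.Tk.MainPA. -/

section

/-!
# Module Base: dimension one
-/

namespace Pool.Agent.H18.Ex

open Finset

variable {ι : Type} [Fintype ι] [DecidableEq ι]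

lemma base_ell_one (m : ℕ) : ell 1 m = m := by
  unfold ell
  simp

/-- presentation of a multiset by a family on `Fin n` -/
lemma base_exists_fin (G : Multiset ℕ) :
    ∃ (n : ℕ) (m : Fin n → ℕ), (univ : Finset (Fin n)).val.map m = G := by
  induction G using Quotient.inductionOn with
  | h L =>
    refine ⟨L.length, L.get, ?_⟩
    rw [Fin.univ_val_map, List.ofFn_get]
    rfl

/-- The polynomial of one variable with coefficients `f`. -/
noncomputable def basePoly (A : Finset (ι → ℕ)) (f : (ι → ℕ) → ℂ) (u : ι) (i0 : ℕ) :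
    Polynomial ℂ :=
  ∑ a ∈ A, Polynomial.monomial (a u - i0) (f a)

lemma base_tcr (u : ι) (q : ℂ) (a : ι → ℕ) (β : ℕ) :
    tcr (Function.update (fun _ => (1 : ℂ)) u q) a (Function.update (fun _ => 0) u β) =
      (((a u).choose β : ℕ) : ℂ) * q ^ (a u - β) := by
  unfold tcr
  rw [← mul_prod_erase univ _ (mem_univ u), Function.update_self, Function.update_self]
  rw [prod_eq_one fun i hi => ?_, mul_one]
  have hi' : i ≠ u := (mem_erase.1 hi).1
  rw [Function.update_of_ne hi', Function.update_of_ne hi']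
  simp

lemma base_dvd (A : Finset (ι → ℕ)) (f : (ι → ℕ) → ℂ) (u : ι) (q : ℂ) (m : ℕ)
    (h : Sat A f (Kind.free m) (Function.update (fun _ => (1 : ℂ)) u q)) :
    (Polynomial.X - Polynomial.C q) ^ m ∣ basePoly A f u 0 := by
  rw [Polynomial.X_sub_C_pow_dvd_iff, ← Polynomial.taylor_apply, Polynomial.X_pow_dvd_iff]
  intro β hβ
  rw [Polynomial.taylor_coeff]
  have h1 := h (Function.update (fun _ => 0) u β) (by
    show ∑ i, Function.update (fun _ => 0) u β i < m
    rw [sum_update_of_mem (mem_univ u)]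
    simpa using hβ)
  unfold basePoly
  rw [map_sum, Polynomial.eval_finsetSum, ← h1]
  refine sum_congr rfl fun a _ => ?_
  rw [Polynomial.hasseDeriv_monomial, Polynomial.eval_monomial, Nat.sub_zero]
  show _ = f a * tcr (Function.update (fun _ => (1 : ℂ)) u q) a (Function.update (fun _ => 0) u β)
  rw [base_tcr]
  ring

/-- Dimension one is always exact.

Proof.  Let `u ≠ v` be the two active coordinates; every `a ∈ Rg σ w` is determined by `a u`,
which runs through an interval `[i₀, i₀ + N - 1]`, `N = |Rg σ w|`, `a v = σ - a u`.  Take positions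
with `q_v = 1` (and all inactive coordinates `1`), `q_u` pairwise distinct and nonzero.  For
`b = β e_u` the condition `∑_a f a tcr q a b = 0` says that the `β`-th Hasse derivative at `q_u` of
`P = ∑_a f a X^(a u)` vanishes; for `β < m` this gives `(X - q_u)^m ∣ P`
(`Polynomial.hasseDeriv`, `Polynomial.taylor`, e.g. `Polynomial.X_sub_C_pow_dvd_iff`
/ `Polynomial.taylor_coeff`).  `P = X^i₀ * P'` with `deg P' < N`; the pairwise coprime powers
`(X - q_i)^(m_i)` are coprime to `X` and divide `P'`, their product has degree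
`∑ m_i ≥ N`, so `P' = 0`.  (`ell 1 m = m`.) -/
theorem base_one (M σ : ℕ) (w : ι → ℕ) (h : (univ.filter fun i => 0 < w i).card = 2) :
    Exa 1 M (Rg σ w) := by
  intro G _ hG
  obtain ⟨n, m, hm⟩ := base_exists_fin G
  refine ⟨n, fun i => Kind.free (m i), ?_, ?_⟩
  · rw [← hm, Multiset.map_map]
    rfl
  have hsum : (Rg σ w).card ≤ ∑ i, m i := by
    refine hG.trans (le_of_eq ?_)
    rw [← hm, Multiset.map_map]
    show ∑ i, ell 1 (m i) = _
    exact sum_congr rfl fun i _ => base_ell_one _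
  obtain ⟨u, v, huv, hact⟩ := card_eq_two.1 h
  -- structure of the region
  have hzero : ∀ a ∈ Rg σ w, ∀ i, i ≠ u → i ≠ v → a i = 0 := by
    intro a ha i hiu hiv
    rw [mem_Rg] at ha
    have h1 : i ∉ univ.filter fun i => 0 < w i := by
      rw [hact]
      simp [hiu, hiv]
    simp only [mem_filter, mem_univ, true_and, not_lt, Nat.le_zero] at h1
    have := ha.1 i
    omega
  have huvsum : ∀ a ∈ Rg σ w, a u + a v = σ := by
    intro a ha
    have h1 : ∑ i, a i = a u + (a v + ∑ i ∈ (univ.erase u).erase v, a i) := by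
      rw [add_sum_erase _ _ (mem_erase.2 ⟨huv.symm, mem_univ v⟩), add_sum_erase _ _ (mem_univ u)]
    have h2 : ∑ i ∈ (univ.erase u).erase v, a i = 0 := by
      refine sum_eq_zero fun i hi => ?_
      rw [mem_erase, mem_erase] at hi
      exact hzero a ha i hi.2.1 hi.1
    have h3 := (mem_Rg.1 ha).2
    omega
  have hinj : ∀ a ∈ Rg σ w, ∀ a' ∈ Rg σ w, a u = a' u → a = a' := by
    intro a ha a' ha' he
    have h1 := huvsum a ha
    have h2 := huvsum a' ha'
    funext i
    by_cases hiu : i = u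
    · rw [hiu, he]
    · by_cases hiv : i = v
      · rw [hiv]; omega
      · rw [hzero a ha i hiu hiv, hzero a' ha' i hiu hiv]
  set i0 := σ - w v with hi0
  have hge : ∀ a ∈ Rg σ w, i0 ≤ a u := by
    intro a ha
    have h1 := huvsum a ha
    have h2 := (mem_Rg.1 ha).1 v
    omega
  have hlt : ∀ a ∈ Rg σ w, a u - i0 < (Rg σ w).card := by
    intro a ha
    have hsub : Icc i0 (min (w u) σ) ⊆ (Rg σ w).image fun x => x u := by
      intro t ht
      rw [mem_Icc] at ht
      have ht1 : t ≤ w u := ht.2.trans (min_le_left _ _)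
      have ht2 : t ≤ σ := ht.2.trans (min_le_right _ _)
      rw [mem_image]
      refine ⟨Function.update (Function.update (fun _ => 0) u t) v (σ - t), mem_Rg.2 ⟨?_, ?_⟩, ?_⟩
      · intro i
        by_cases hiv : i = v
        · rw [hiv, Function.update_self]; omega
        · rw [Function.update_of_ne hiv]
          by_cases hiu : i = u
          · rw [hiu, Function.update_self]; exact ht1
          · rw [Function.update_of_ne hiu]; exact Nat.zero_le _
      · rw [sum_update_of_mem (mem_univ v), ← erase_eq, ← add_sum_erase _ _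
          (mem_erase.2 ⟨huv, mem_univ u⟩ : u ∈ univ.erase v), Function.update_self,
          sum_eq_zero fun i hi => ?_]
        · omega
        · rw [mem_erase] at hi
          rw [Function.update_of_ne hi.1]
      · show Function.update (Function.update (fun _ => 0) u t) v (σ - t) u = t
        rw [Function.update_of_ne huv, Function.update_self]
    have h1 := (card_le_card hsub).trans card_image_le
    rw [Nat.card_Icc] at h1
    have h2 := huvsum a ha
    have h3 := (mem_Rg.1 ha).1 u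
    have h4 : a u ≤ min (w u) σ := le_min h3 (by omega)
    have h5 := hge a ha
    omega
  -- the positions
  refine ⟨fun i => Function.update (fun _ => (1 : ℂ)) u ((i : ℕ) + 1 : ℂ), ?_⟩
  intro f hf
  set P := basePoly (Rg σ w) f u 0 with hP
  set P' := basePoly (Rg σ w) f u i0 with hP'
  have hPP : P = Polynomial.X ^ i0 * P' := by
    rw [hP, hP']
    unfold basePoly
    rw [mul_sum]
    refine sum_congr rfl fun a ha => ?_
    rw [Polynomial.X_pow_eq_monomial, Polynomial.monomial_mul_monomial, one_mul, Nat.sub_zero,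
      Nat.add_sub_cancel' (hge a ha)]
  set s : Fin n → ℂ := fun i => ((i : ℕ) + 1 : ℂ) with hs
  have hsinj : Function.Injective s := by
    intro i j hij
    simp only [hs, add_left_inj, Nat.cast_inj] at hij
    exact Fin.ext hij
  have hs0 : ∀ i, s i ≠ 0 := fun i => Nat.cast_add_one_ne_zero _
  set D : Polynomial ℂ := ∏ i, (Polynomial.X - Polynomial.C (s i)) ^ m i with hD
  have hDdvd : D ∣ P := by
    rw [hD]
    refine prod_dvd_of_coprime ?_ fun i _ => base_dvd _ _ _ _ _ (hf i)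
    intro i _ j _ hij
    exact (Polynomial.pairwise_coprime_X_sub_C hsinj hij).pow
  have hcop : IsCoprime D (Polynomial.X ^ i0) := by
    rw [hD]
    refine IsCoprime.prod_left fun i _ => IsCoprime.pow ?_
    have h1 := Polynomial.isCoprime_X_sub_C_of_isUnit_sub (a := s i) (b := (0 : ℂ))
      (by simpa using hs0 i)
    simpa using h1
  have hDP' : D ∣ P' := by
    rw [hPP] at hDdvd
    exact hcop.dvd_of_dvd_mul_left hDdvd
  have hDmonic : D.Monic := by
    rw [hD]
    exact Polynomial.monic_prod_of_monic _ _ fun i _ => (Polynomial.monic_X_sub_C _).pow _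
  have hDdeg : D.natDegree = ∑ i, m i := by
    rw [hD, Polynomial.natDegree_prod_of_monic _ _ fun i _ => (Polynomial.monic_X_sub_C _).pow _]
    refine sum_congr rfl fun i _ => ?_
    rw [(Polynomial.monic_X_sub_C (s i)).natDegree_pow, Polynomial.natDegree_X_sub_C, mul_one]
  have hP'0 : P' = 0 := by
    refine Polynomial.eq_zero_of_dvd_of_degree_lt hDP' ?_
    rw [Polynomial.degree_eq_natDegree hDmonic.ne_zero, hDdeg]
    refine lt_of_lt_of_le ?_ (Nat.cast_le.2 hsum)
    rw [← Polynomial.mem_degreeLT]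
    refine Submodule.sum_mem _ fun a ha => ?_
    rw [Polynomial.mem_degreeLT]
    exact lt_of_le_of_lt (Polynomial.degree_monomial_le _ _) (Nat.cast_lt.2 (hlt a ha))
  intro a ha
  have hc : P.coeff (a u) = f a := by
    rw [hP]
    unfold basePoly
    rw [Polynomial.finsetSum_coeff, sum_eq_single_of_mem a ha]
    · rw [Nat.sub_zero, Polynomial.coeff_monomial, if_pos rfl]
    · intro a' ha' hne
      rw [Nat.sub_zero, Polynomial.coeff_monomial, if_neg fun he => hne (hinj a' ha' a ha he)]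
  rw [← hc, hPP, hP'0, mul_zero, Polynomial.coeff_zero]

end Pool.Agent.H18.Ex

end

section

/-!
# Module Norm: reduction to normalised regions and the induction on the dimension
-/

namespace Pool.Agent.H18.Ex

open Finset

section

variable {ι : Type} [Fintype ι] [DecidableEq ι]

theorem Rg_trunc (σ : ℕ) (w : ι → ℕ) : Rg σ (fun i => min (w i) σ) = Rg σ w := by
  ext a
  rw [mem_Rg, mem_Rg]
  constructor
  · rintro ⟨h1, h2⟩
    exact ⟨fun i => (h1 i).trans (min_le_left _ _), h2⟩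
  · rintro ⟨h1, h2⟩
    refine ⟨fun i => le_min (h1 i) ?_, h2⟩
    rw [← h2]
    exact single_le_sum (fun _ _ => Nat.zero_le _) (mem_univ i)

theorem two_le_sum (v : ι → ℕ) {a b : ι} (hab : a ≠ b) : v a + v b ≤ ∑ i, v i := by
  rw [← sum_pair hab]
  exact sum_le_sum_of_subset (subset_univ _)

end

/-! ### Polynomial growth -/

end Pool.Agent.H18.Ex

end

section

/-!
# Project TJ (MP_1dafdd_ag): definitions

`Lens`: the numbers of conditions imposed by points of multiplicity `m ≤ M` on the traces.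
`Cf`: configurations of free points and points forced to one fixed hyperplane.
`SysL`: an abstract Horace system along one hyperplane (`R k` = size of the state `k`, `F k` = size of
its trace).
`Lx w m`: the number of conditions imposed by a point of multiplicity `m` on the forms with
exponents at most `w`.  `NE`: near-exactness.
-/

namespace Pool.Agent.H18.Tj

open Finset Pool.Agent.H18.Ex

/-- An abstract Horace system along one hyperplane. -/
structure SysL : Type where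
  /-- the configuration kills the space of the state `k` -/
  K : ℕ → Cf → Prop
  /-- the size of the trace -/
  F : ℕ → ℕ
  /-- the size -/
  R : ℕ → ℕ
  /-- the points with multiplicities `S` kill the trace -/
  tr : ℕ → Multiset ℕ → Prop
  mono : ∀ k c c', c.N ≤ c'.N → c.s ≤ c'.s → c.Φ ≤ c'.Φ → K k c → K k c'
  one : ∀ k N s Φ, K k ⟨N, s + 1, Φ⟩ → K k ⟨1 ::ₘ N, s, Φ⟩
  count : ∀ k, R (k + 1) = R k + F (k + 1)
  step : ∀ k (N I : Multiset ℕ) (μ t s u : ℕ) (Φ : Multiset (ℕ × ℕ)), 1 ≤ μ →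
    (∀ x ∈ Φ, x.2 ≤ x.1) →
    tr (k + 1) (Φ.map Prod.fst + I + Multiset.replicate (t + u) 1) →
    K k ⟨N, s, shf Φ + I.map (fun m => (m - 1, 1)) + Multiset.replicate t (μ, 2)⟩ →
    K (k + 1) ⟨N + I + Multiset.replicate t μ, s + u, Φ⟩
  bridge : ∀ k (N : Multiset ℕ) (s s₀ : ℕ) (Φ : Multiset (ℕ × ℕ)),
    K (k + 1) ⟨N, s + s₀, Φ⟩ → K k ⟨N, s, shf Φ⟩ →
    K (k + 1) ⟨N, s, Φ + Multiset.replicate s₀ (1, 1)⟩
  full : ∀ k (N : Multiset ℕ) (s : ℕ) (Φ : Multiset (ℕ × ℕ)), (∀ m ∈ N, 1 ≤ m) →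
    R k ≤ N.card + s → K k ⟨N, s, Φ⟩

/-- The trace of the state `k` is killed by points of multiplicity at most `M` and at least `w` simple
points as soon as the lengths suffice. -/
def Gx {M : ℕ} (L : Lens M) (Y : SysL) (w k : ℕ) : Prop :=
  ∀ S : Multiset ℕ, (∀ m ∈ S, m ≤ M) → ∀ x : ℕ, w ≤ x → Y.F k ≤ (S.map L.lo).sum + x →
    Y.tr k (S + Multiset.replicate x 1)

/-- The number of free points needed for a step. -/
def g0T {M : ℕ} (L : Lens M) (w : ℕ) : ℕ := M * (L.lo M + w)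

/-- The numerical properties of the states `1, …, kt`. -/
structure NumL {M : ℕ} (L : Lens M) (Y : SysL) (E kt : ℕ) : Prop where
  hM : 1 ≤ M
  hE : cE L ≤ E
  floor : ∀ k, 1 ≤ k → k ≤ kt → cE L ≤ Y.F k
  mono : ∀ k, 1 ≤ k → k + 1 ≤ kt → Y.F k ≤ Y.F (k + 1)
  slow : ∀ k, 1 ≤ k → k + 1 ≤ kt → E * Y.F (k + 1) ≤ E * Y.F k + Y.F (k + 1)
  low : ∀ k, 1 ≤ k → k ≤ kt → E * Y.F k ≤ Y.R k
  gd : ∀ k, 1 ≤ k → k ≤ kt → Gx L Y (Y.F k / E + 1) k

section

variable {ι : Type} [Fintype ι] [DecidableEq ι]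

end

end Pool.Agent.H18.Tj

end

section

/-!
# Module T1 (TJ): the layer lemma

`lyr A y s`: the exponents of the layer `a y = s`, with the coordinate `y` replaced by `0`.

Proof of `layers` (compare `core` in `Pool/Agent/H18/Ta/Core.lean`, whose private lemma `Core_comb` can be
copied; the keys are `e i s + kap ℓ s` with `e i = ex ℓ (u i) 0`, and `key_lt` in `Pool/Agent/H18/Ta/Key.lean`).
By `GI.general` (`Pool/Agent/H18/Ex/Gen.lean`) and the product of the polynomials for `s < ℓ` there are common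
positions `pos` such that `InjAt (lyr A y s) (free (μ i - rk ℓ (u i) 0 s)) pos` for all `s < ℓ`.  Suppose `GI A` is
false.  For `t ≠ 0` use the positions `update (pos i) y (t ^ ex ℓ (u i) 0)`: there is a nonzero solution `f` on
`A`; the coefficients `f a * (t ^ kap ℓ (a y))⁻¹` solve the system of the equations `(i, b)`, `|b| < μ i`, with entries
`(binom (a y, b y) * tcr' ) * X ^ (e i * a y + kap ℓ (a y)) * X` evaluated at `t` (multiply the equation by
`t ^ (e i * b y) * t`), where `tcr' = tcr (pos i) (update a y 0) (update b y 0)`.  By `exists_poly_solution`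
(`Pool/Agent/H18/Ex/OnePar.lean`) there is a polynomial solution `F` with `(F a₀).eval 0 ≠ 0`.  Let
`s₀ = a₀ y` and `b` a multi-index with `b y = 0`, `|b| < μ i - rk ℓ (u i) 0 s₀`.  The equations for `update b y γ`,
`γ < μ i - |b|`, combined by `Core_comb` so that the layers `s ≠ s₀` with `rk < μ i - |b|` cancel, give, at the
coefficient `X ^ (e i * s₀ + kap ℓ s₀)`, `∑_{a ∈ A, a y = s₀} (F a).eval 0 * tcr (pos i) (update a y 0) b = 0`.  (For `b y ≠ 0`
this holds since `binom (0, b y) = 0`.)  So the values `(F a).eval 0` on the layer `s₀` satisfy the conditions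
`free (μ i - rk ℓ (u i) 0 s₀)` at `pos i`, hence vanish, a contradiction.
-/

namespace Pool.Agent.H18.Tj

open Finset Function Pool.Agent.H18.Ex Pool.Agent.H18.Ta

variable {ι : Type} [Fintype ι] [DecidableEq ι]

/-- The layer `a y = s`. -/
def lyr (A : Finset (ι → ℕ)) (y : ι) (s : ℕ) : Finset (ι → ℕ) :=
  (A.filter fun a => a y = s).image fun a => update a y 0

/-- Combinations of binomial coefficients. -/
private theorem Layer_comb {R : Type*} [CommRing R] (ℓ h : ℕ) (T : ℕ → R)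
    (hT : ∀ γ < h, ∑ s ∈ range ℓ, ((s.choose γ : ℕ) : R) * T s = 0) (S : Finset ℕ) :
    ∀ γ, S.card + γ < h →
      ∑ s ∈ range ℓ, (∏ u ∈ S, ((s : R) - (u : R))) * (((s.choose γ : ℕ) : R) * T s) = 0 := by
  induction S using Finset.induction_on with
  | empty =>
    intro γ hγ
    simpa using hT γ (by simpa using hγ)
  | insert u S hu ih =>
    intro γ hγ
    rw [card_insert_of_notMem hu] at hγ
    have h1 := ih (γ + 1) (by omega)
    have h2 := ih γ (by omega)
    have h3 : ∀ s ∈ range ℓ,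
        (∏ u' ∈ insert u S, ((s : R) - (u' : R))) * (((s.choose γ : ℕ) : R) * T s) =
        ((γ : R) + 1) * ((∏ u' ∈ S, ((s : R) - (u' : R))) * (((s.choose (γ + 1) : ℕ) : R) * T s)) +
        ((γ : R) - u) * ((∏ u' ∈ S, ((s : R) - (u' : R))) * (((s.choose γ : ℕ) : R) * T s)) := by
      intro s _
      rw [prod_insert hu]
      have h4 : ((s : R) - γ) * ((s.choose γ : ℕ) : R) = ((γ : R) + 1) * ((s.choose (γ + 1) : ℕ) : R) := by
        have h5 := Nat.choose_succ_right_eq s γ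
        rcases Nat.lt_or_ge s γ with h6 | h6
        · rw [Nat.choose_eq_zero_of_lt h6, Nat.choose_eq_zero_of_lt (by omega)]
          simp
        · have h7 : ((s.choose (γ + 1) * (γ + 1) : ℕ) : R) = ((s.choose γ * (s - γ) : ℕ) : R) := by
            rw [h5]
          rw [Nat.cast_mul, Nat.cast_mul, Nat.cast_sub h6] at h7
          push_cast at h7
          linear_combination -h7
      have h5 : ((s : R) - u) * ((s.choose γ : ℕ) : R) =
          ((γ : R) + 1) * ((s.choose (γ + 1) : ℕ) : R) + ((γ : R) - u) * ((s.choose γ : ℕ) : R) := by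
        rw [← h4]
        ring
      calc _ = (∏ u' ∈ S, ((s : R) - (u' : R))) * ((((s : R) - u) * ((s.choose γ : ℕ) : R)) * T s) := by
            ring
        _ = _ := by
            rw [h5]
            ring
    rw [sum_congr rfl h3, sum_add_distrib, ← mul_sum, ← mul_sum, h1, h2, mul_zero, mul_zero, add_zero]

/-- The factor of the coordinate `y`. -/
private theorem Layer_tcr {R : Type*} [CommRing R] (p : ι → R) (y : ι) (z : R) (a b : ι → ℕ) :
    tcr (update p y z) a b = (((a y).choose (b y) : ℕ) : R) * z ^ (a y - b y) *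
      tcr p (update a y 0) (update b y 0) := by
  unfold tcr
  rw [← mul_prod_erase univ _ (mem_univ y), ← mul_prod_erase univ
    (fun i => (((update a y 0 i).choose (update b y 0 i) : ℕ) : R) *
      p i ^ (update a y 0 i - update b y 0 i)) (mem_univ y)]
  simp only [update_self, Nat.choose_zero_right, Nat.cast_one, Nat.sub_zero, pow_zero, mul_one,
    one_mul]
  congr 1
  refine prod_congr rfl fun i hi => ?_
  have hi' := ne_of_mem_erase hi
  rw [update_of_ne hi', update_of_ne hi', update_of_ne hi']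

private theorem Layer_tcr_zero {R : Type*} [CommRing R] (p : ι → R) (y : ι) (a b : ι → ℕ)
    (hb : b y ≠ 0) : tcr p (update a y 0) b = 0 := by
  unfold tcr
  apply prod_eq_zero (mem_univ y)
  rw [update_self, Nat.choose_eq_zero_of_lt (Nat.pos_of_ne_zero hb), Nat.cast_zero, zero_mul]

private theorem Layer_sum (a : ι → ℕ) (y : ι) (z : ℕ) :
    ∑ i, update a y z i + a y = ∑ i, a i + z := by
  rw [← add_sum_erase univ (fun i => update a y z i) (mem_univ y),
    ← add_sum_erase univ a (mem_univ y), update_self]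
  have h : ∑ i ∈ univ.erase y, update a y z i = ∑ i ∈ univ.erase y, a i :=
    sum_congr rfl fun i hi => update_of_ne (ne_of_mem_erase hi) _ _
  rw [h]
  omega

theorem layers {κ : Type} [Fintype κ] (A : Finset (ι → ℕ)) (y : ι) (ℓ : ℕ)
    (hA : ∀ a ∈ A, a y < ℓ) (μ u : κ → ℕ) (hu : ∀ i, u i < ℓ)
    (h : ∀ s < ℓ, GI (lyr A y s) fun i => Kind.free (μ i - Ta.rk ℓ (u i) 0 s)) :
    GI A fun i => Kind.free (μ i) := by
  classical
  -- common positions
  obtain ⟨pos, hpos⟩ : ∃ pos : κ → ι → ℂ, ∀ s < ℓ,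
      InjAt (lyr A y s) (fun i => Kind.free (μ i - Ta.rk ℓ (u i) 0 s)) pos := by
    have h1 : ∀ s : ℕ, ∃ G : MvPolynomial (κ × ι) ℂ, G ≠ 0 ∧ (s < ℓ →
        ∀ pos : κ → ι → ℂ, MvPolynomial.eval (fun x => pos x.1 x.2) G ≠ 0 →
          InjAt (lyr A y s) (fun i => Kind.free (μ i - Ta.rk ℓ (u i) 0 s)) pos) := by
      intro s
      by_cases hs : s < ℓ
      · obtain ⟨G, hG, hG'⟩ := (h s hs).general
        exact ⟨G, hG, fun _ => hG'⟩
      · exact ⟨1, one_ne_zero, fun h => absurd h hs⟩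
    choose G hG hG' using h1
    have hne : (∏ s ∈ range ℓ, G s) ≠ 0 := prod_ne_zero_iff.2 fun s _ => hG s
    obtain ⟨x, hx⟩ : ∃ x : κ × ι → ℂ, MvPolynomial.eval x (∏ s ∈ range ℓ, G s) ≠ 0 := by
      by_contra hcon
      push Not at hcon
      exact hne (MvPolynomial.funext fun x => by rw [hcon x, map_zero])
    refine ⟨fun i j => x (i, j), fun s hs => hG' s hs _ ?_⟩
    rw [map_prod, prod_ne_zero_iff] at hx
    exact hx s (mem_range.2 hs)
  by_contra hcon
  have hcon' : ∀ p : κ → ι → ℂ, ∃ f : (ι → ℕ) → ℂ,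
      (∀ i, ∀ b : ι → ℕ, ∑ j, b j < μ i → ∑ a ∈ A, f a * tcr (p i) a b = 0) ∧
        ∃ a ∈ A, f a ≠ 0 := by
    intro p
    by_contra hp
    apply hcon
    refine ⟨p, fun f hf a ha => ?_⟩
    by_contra hfa
    exact hp ⟨f, fun i b hb => hf i b hb, a, ha, hfa⟩
  set e : κ → ℕ := fun i => ex ℓ (u i) 0 with he
  let ρ : Type := (i : κ) × {b // b ∈ (Kind.free (ι := ι) (μ i)).idxs}
  let Mx : ρ → (ι → ℕ) → Polynomial ℂ := fun r a =>
    Polynomial.C (tcr (pos r.1) (update a y 0) (update r.2.1 y 0)) *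
      ((((a y).choose (r.2.1 y) : ℕ) : Polynomial ℂ) *
        (Polynomial.X ^ (e r.1 * a y + kap ℓ (a y)) * Polynomial.X))
  have hsol : ∀ t : ℂ, ∃ f : (ι → ℕ) → ℂ,
      (∀ r, ∑ a ∈ A, f a * (Mx r a).eval t = 0) ∧ ∃ a ∈ A, f a ≠ 0 := by
    intro t
    obtain ⟨f, hf, a₁, ha₁, hne⟩ := hcon' fun i => update (pos i) y (t ^ e i)
    by_cases ht : t = 0
    · refine ⟨fun _ => 1, fun r => sum_eq_zero fun a _ => ?_, a₁, ha₁, one_ne_zero⟩
      subst ht
      simp only [Mx]
      simp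
    · refine ⟨fun a => f a * (t ^ kap ℓ (a y))⁻¹, fun r => ?_, a₁, ha₁, ?_⟩
      · have h1 := hf r.1 r.2.1 (Kind.mem_idxs.1 r.2.2)
        have h2 : ∑ a ∈ A, f a * (t ^ kap ℓ (a y))⁻¹ * (Mx r a).eval t =
            (t ^ (e r.1 * r.2.1 y) * t) *
              ∑ a ∈ A, f a * tcr (update (pos r.1) y (t ^ e r.1)) a r.2.1 := by
          rw [mul_sum]
          refine sum_congr rfl fun a _ => ?_
          rw [Layer_tcr]
          simp only [Mx]
          simp only [Polynomial.eval_mul, Polynomial.eval_C, Polynomial.eval_natCast,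
            Polynomial.eval_pow, Polynomial.eval_X]
          rcases Nat.lt_or_ge (a y) (r.2.1 y) with h3 | h3
          · rw [Nat.choose_eq_zero_of_lt h3]
            simp
          · have h4 : t ^ (e r.1 * a y + kap ℓ (a y)) =
                t ^ (e r.1 * r.2.1 y) * (t ^ e r.1) ^ (a y - r.2.1 y) * t ^ kap ℓ (a y) := by
              rw [← pow_mul, ← pow_add, pow_add, ← mul_add, Nat.add_sub_cancel' h3]
            rw [h4]
            have h5 : t ^ kap ℓ (a y) ≠ 0 := pow_ne_zero _ ht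
            field_simp
        rw [h2, h1, mul_zero]
      · exact mul_ne_zero hne (inv_ne_zero (pow_ne_zero _ ht))
  obtain ⟨F, hF, a₀, ha₀, hne⟩ := Pool.Agent.H18.Ex.exists_poly_solution A Mx hsol
  -- the layers
  set T : κ → (ι → ℕ) → ℕ → Polynomial ℂ := fun i b s =>
    Polynomial.X ^ (e i * s + kap ℓ s) * ∑ a ∈ A.filter (fun a => a y = s),
      F a * Polynomial.C (tcr (pos i) (update a y 0) b) with hT
  have heq : ∀ i (b : ι → ℕ) γ, b y = 0 → γ < μ i - ∑ j, b j →
      ∑ s ∈ range ℓ, ((s.choose γ : ℕ) : Polynomial ℂ) * T i b s = 0 := by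
    intro i b γ hb hγ
    have hsum : ∑ j, update b y γ j < μ i := by
      have h1 := Layer_sum b y γ
      omega
    have h1 := hF ⟨i, ⟨update b y γ, Kind.mem_idxs.2 hsum⟩⟩
    have h2 : Polynomial.X * ∑ s ∈ range ℓ, ((s.choose γ : ℕ) : Polynomial ℂ) * T i b s = 0 := by
      rw [← h1, ← sum_fiberwise_of_maps_to (t := range ℓ) (g := fun a : ι → ℕ => a y)
        (fun a ha => mem_range.2 (hA a ha)), mul_sum]
      refine sum_congr rfl fun s _ => ?_
      rw [hT]
      beta_reduce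
      rw [mul_sum, mul_sum, mul_sum]
      refine sum_congr rfl fun a ha => ?_
      have has : a y = s := (mem_filter.1 ha).2
      simp only [Mx]
      have h3 : update (update b y γ) y 0 = b := by
        rw [update_idem, ← hb, update_eq_self]
      rw [h3, update_self, has]
      ring
    exact (mul_eq_zero.1 h2).resolve_left Polynomial.X_ne_zero
  -- the vanishing at zero
  have hkeyv : ∀ i, ∀ s₀ < ℓ, ∀ b : ι → ℕ, b y = 0 → ∑ j, b j < μ i - Ta.rk ℓ (u i) 0 s₀ →
      ∑ a ∈ A.filter (fun a => a y = s₀),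
        (F a).eval 0 * tcr (pos i) (update a y 0) b = 0 := by
    intro i s₀ hs₀ b hb hα
    have hui : u i + 0 < ℓ := by have := hu i; omega
    set h' := μ i - ∑ j, b j with hh
    set S : Finset ℕ := (range ℓ).filter fun s => s ≠ s₀ ∧ Ta.rk ℓ (u i) 0 s < h' with hS
    have hScard : S.card + 0 < h' := by
      have h1 : (insert s₀ S).card ≤ (range h').card := by
        apply card_le_card_of_injOn (Ta.rk ℓ (u i) 0)
        · intro s hs
          rw [mem_coe, mem_insert] at hs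
          rw [mem_coe, mem_range]
          rcases hs with rfl | hs
          · omega
          · exact (mem_filter.1 hs).2.2
        · intro s hs t ht hst
          have hlt : ∀ s ∈ insert s₀ S, s < ℓ := by
            intro s hs
            rcases mem_insert.1 hs with rfl | hs
            · exact hs₀
            · exact mem_range.1 (mem_filter.1 hs).1
          exact Ta.rk_inj hui (hlt s hs) (hlt t ht) hst
      rw [card_insert_of_notMem (by simp [hS]), card_range] at h1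
      omega
    have h2 := Layer_comb ℓ h' (T i b) (fun γ hγ => heq i b γ hb hγ) S 0 hScard
    have h3 := congrArg (fun p => Polynomial.coeff p (e i * s₀ + kap ℓ s₀)) h2
    simp only [Polynomial.finsetSum_coeff, Polynomial.coeff_zero] at h3
    rw [sum_eq_single s₀] at h3
    · -- the main term
      have h4 : (∏ u ∈ S, (((s₀ : ℕ) : Polynomial ℂ) - ((u : ℕ) : Polynomial ℂ))) =
          Polynomial.C (∏ u ∈ S, ((s₀ : ℂ) - (u : ℂ))) := by
        rw [map_prod]
        refine prod_congr rfl fun u _ => ?_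
        rw [map_sub]
        simp
      rw [h4, Nat.choose_zero_right, Nat.cast_one, one_mul, Polynomial.coeff_C_mul, hT] at h3
      simp only at h3
      rw [Polynomial.coeff_X_pow_mul', if_pos le_rfl, Nat.sub_self] at h3
      have h5 : (∏ u ∈ S, ((s₀ : ℂ) - (u : ℂ))) ≠ 0 := by
        rw [prod_ne_zero_iff]
        intro u hu
        rw [sub_ne_zero]
        intro h6
        have h7 : s₀ = u := by exact_mod_cast h6
        exact (mem_filter.1 hu).2.1 h7.symm
      have h6 := (mul_eq_zero.1 h3).resolve_left h5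
      rw [Polynomial.coeff_zero_eq_eval_zero, Polynomial.eval_finsetSum] at h6
      refine Eq.trans (sum_congr rfl fun a _ => ?_) h6
      rw [Polynomial.eval_mul, Polynomial.eval_C]
    · -- the other terms
      intro s hs hne
      rw [mem_range] at hs
      by_cases hsS : s ∈ S
      · rw [prod_eq_zero hsS (sub_self _), zero_mul, Polynomial.coeff_zero]
      · have h4 : h' ≤ Ta.rk ℓ (u i) 0 s := by
          by_contra h5
          exact hsS (mem_filter.2 ⟨mem_range.2 hs, hne, by omega⟩)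
        have h5 := Ta.key_lt hui hs₀ hs (by omega)
        rw [Nat.choose_zero_right, Nat.cast_one, one_mul, hT]
        simp only
        rw [mul_left_comm, Polynomial.coeff_X_pow_mul', if_neg (by rw [he]; beta_reduce; omega)]
    · intro hs
      exact absurd (mem_range.2 hs₀) hs
  -- conclusion
  have hs₀ : a₀ y < ℓ := hA a₀ ha₀
  apply hne
  have hup : ∀ a ∈ A.filter (fun a => a y = a₀ y), update (update a y 0) y (a₀ y) = a := by
    intro a ha
    rw [update_idem, ← (mem_filter.1 ha).2, update_eq_self]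
  have hfin := hpos (a₀ y) hs₀ (fun c => (F (update c y (a₀ y))).eval 0) (by
    intro i b hb
    have hb' : ∑ j, b j < μ i - Ta.rk ℓ (u i) 0 (a₀ y) := hb
    show ∑ c ∈ lyr A y (a₀ y), (F (update c y (a₀ y))).eval 0 * tcr (pos i) c b = 0
    unfold lyr
    rw [sum_image]
    · by_cases hby : b y = 0
      · refine Eq.trans (sum_congr rfl fun a ha => ?_) (hkeyv i (a₀ y) hs₀ b hby hb')
        rw [hup a ha]
      · apply sum_eq_zero
        intro a _
        rw [Layer_tcr_zero _ _ _ _ hby, mul_zero]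
    · intro a ha a' ha' haa
      have h1 := hup a ha
      have h2 := hup a' ha'
      beta_reduce at haa
      rw [← h1, haa, h2]) (update a₀ y 0) (by
    unfold lyr
    exact mem_image_of_mem _ (mem_filter.2 ⟨ha₀, rfl⟩))
  beta_reduce at hfin
  rw [hup a₀ (mem_filter.2 ⟨ha₀, rfl⟩)] at hfin
  exact hfin

/-- The layers of a region. -/
theorem lyr_Rg (y : ι) (σ s : ℕ) (w : ι → ℕ) (hs : s ≤ w y) (hσ : s ≤ σ) :
    lyr (Rg σ w) y s = Rg (σ - s) (update w y 0) := by
  ext c
  unfold lyr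
  rw [mem_image, mem_Rg]
  constructor
  · rintro ⟨a, ha, rfl⟩
    rw [mem_filter, mem_Rg] at ha
    obtain ⟨⟨h1, h2⟩, h3⟩ := ha
    constructor
    · intro i
      by_cases hi : i = y
      · subst hi
        rw [update_self, update_self]
      · rw [update_of_ne hi, update_of_ne hi]
        exact h1 i
    · have h4 := Layer_sum a y 0
      omega
  · rintro ⟨h1, h2⟩
    have hcy : c y = 0 := by
      have h3 := h1 y
      rw [update_self] at h3
      omega
    refine ⟨update c y s, ?_, ?_⟩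
    · rw [mem_filter, mem_Rg]
      refine ⟨⟨?_, ?_⟩, update_self _ _ _⟩
      · intro i
        by_cases hi : i = y
        · subst hi
          rw [update_self]
          exact hs
        · have h3 := h1 i
          rw [update_of_ne hi] at h3 ⊢
          exact h3
      · have h4 := Layer_sum c y s
        omega
    · rw [update_idem, ← hcy, update_eq_self]

end Pool.Agent.H18.Tj

end

section

/-!
# Module M1 (TJ): properties of lengths

`ratioM`: from `(c + 1) lo c ≤ c lo (c + 1)` and `M c ≤ (M - 1) (c + 1)` for `c + 1 ≤ M` (multiply by `M`,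
divide by `c + 1`).  `trT_shf`, `flT_shf`, `flT_le`: as the private theorems `trS_shf`, `flS_shf` in
`Pool/Agent/H18/Ub/VPeel.lean` and `Cfg.fl_le` in `Pool/Agent/H18/Ex/Run.lean`, with `ell n` replaced by
`L.lo` and `ell (n + 1)` by `L.hi`.  `shf_iterate`: see `shf_iterate_eq_zero` (grep in `Pool/Agent/H18/Ex`).
-/

namespace Pool.Agent.H18.Tj

open Finset Pool.Agent.H18.Ex

variable {M : ℕ} (L : Lens M)

private theorem LensL_lo_succ {c : ℕ} (h : c + 1 ≤ M) : L.lo c ≤ L.lo (c + 1) := by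
  have h1 := L.ratio c h
  have h2 : c * L.lo (c + 1) ≤ (c + 1) * L.lo (c + 1) := Nat.mul_le_mul_right _ (Nat.le_succ c)
  exact Nat.le_of_mul_le_mul_left (le_trans h1 h2) (Nat.succ_pos c)

private theorem LensL_shf_zero : shf 0 = 0 := rfl

private theorem LensL_shf_cons (x : ℕ × ℕ) (S : Multiset (ℕ × ℕ)) :
    shf (x ::ₘ S) = if x.2 ≤ x.1 - 1 then (x.1 - 1, x.2) ::ₘ shf S else shf S := by
  unfold shf
  rw [Multiset.map_cons]
  by_cases h : x.2 ≤ x.1 - 1
  · rw [if_pos h]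
    exact Multiset.filter_cons_of_pos (p := fun y : ℕ × ℕ => y.2 ≤ y.1) _ h
  · rw [if_neg h]
    exact Multiset.filter_cons_of_neg (p := fun y : ℕ × ℕ => y.2 ≤ y.1) _ h

private theorem LensL_mem_shf {x : ℕ × ℕ} {S : Multiset (ℕ × ℕ)} (hx : x ∈ shf S) :
    ∃ y ∈ S, x = (y.1 - 1, y.2) ∧ y.2 ≤ y.1 - 1 := by
  unfold shf at hx
  rw [Multiset.mem_filter, Multiset.mem_map] at hx
  obtain ⟨⟨y, hy, rfl⟩, h⟩ := hx
  exact ⟨y, hy, rfl, h⟩

theorem Lens.lo_mono {m m' : ℕ} (h : m ≤ m') (h2 : m' ≤ M) : L.lo m ≤ L.lo m' := by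
  induction m', h using Nat.le_induction with
  | base => exact le_rfl
  | succ n hmn ih => exact le_trans (ih (by omega)) (LensL_lo_succ L h2)

theorem Lens.lo_pos {m : ℕ} (h1 : 1 ≤ m) (h2 : m ≤ M) : 1 ≤ L.lo m := by
  have h3 := L.lo_mono h1 h2
  rw [L.lo_one] at h3
  exact h3

theorem Lens.ratioM {c : ℕ} (h : c + 1 ≤ M) : M * L.lo c ≤ (M - 1) * L.lo (c + 1) := by
  have h1 := L.ratio c h
  have h2 : M * c ≤ (M - 1) * (c + 1) := by
    obtain ⟨k, rfl⟩ : ∃ k, M = k + 1 := ⟨M - 1, by omega⟩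
    rw [Nat.add_sub_cancel]
    have : c ≤ k := by omega
    nlinarith
  have h3 : (c + 1) * (M * L.lo c) ≤ (c + 1) * ((M - 1) * L.lo (c + 1)) := by
    calc (c + 1) * (M * L.lo c) = M * ((c + 1) * L.lo c) := by ring
      _ ≤ M * (c * L.lo (c + 1)) := Nat.mul_le_mul_left _ h1
      _ = M * c * L.lo (c + 1) := by ring
      _ ≤ (M - 1) * (c + 1) * L.lo (c + 1) := Nat.mul_le_mul_right _ h2
      _ = (c + 1) * ((M - 1) * L.lo (c + 1)) := by ring
  exact Nat.le_of_mul_le_mul_left h3 (Nat.succ_pos c)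

theorem Lens.hi_zero : L.hi 0 = 0 := by
  unfold Lens.hi
  simp

theorem Lens.hi_succ (m : ℕ) : L.hi (m + 1) = L.hi m + L.lo (m + 1) := by
  unfold Lens.hi
  rw [Finset.sum_range_succ]

theorem Lens.hi_one : L.hi 1 = 1 := by
  rw [L.hi_succ 0, L.hi_zero, zero_add, zero_add, L.lo_one]

theorem Lens.hi_mono {m m' : ℕ} (h : m ≤ m') : L.hi m ≤ L.hi m' := by
  induction m', h using Nat.le_induction with
  | base => exact le_rfl
  | succ n _ ih =>
    rw [L.hi_succ]
    exact le_trans ih (Nat.le_add_right _ _)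

theorem Lens.hi_pos {m : ℕ} (h : 1 ≤ m) : 1 ≤ L.hi m := by
  have h1 := L.hi_mono h
  rw [L.hi_one] at h1
  exact h1

theorem Lens.lo_le_hi (m : ℕ) : L.lo m ≤ L.hi m := by
  cases m with
  | zero => rw [L.lo_zero]; exact Nat.zero_le _
  | succ k =>
    rw [L.hi_succ]
    exact Nat.le_add_left _ _

theorem Lens.hi_le {m : ℕ} (h : m ≤ M) : L.hi m ≤ m * L.lo m := by
  unfold Lens.hi
  calc ∑ i ∈ range m, L.lo (i + 1) ≤ ∑ i ∈ range m, L.lo m := by
        refine Finset.sum_le_sum fun i hi => ?_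
        have h1 := Finset.mem_range.1 hi
        exact L.lo_mono (by omega) h
    _ = m * L.lo m := by rw [Finset.sum_const, Finset.card_range, smul_eq_mul]

theorem trT_add (S T : Multiset (ℕ × ℕ)) : trT L (S + T) = trT L S + trT L T := by
  unfold trT
  rw [Multiset.map_add, Multiset.sum_add]

theorem flT_add (S T : Multiset (ℕ × ℕ)) : flT L (S + T) = flT L S + flT L T := by
  unfold flT
  rw [Multiset.map_add, Multiset.sum_add]

private theorem LensL_trT_cons (x : ℕ × ℕ) (S : Multiset (ℕ × ℕ)) :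
    trT L (x ::ₘ S) = L.lo x.1 + trT L S := by
  unfold trT
  rw [Multiset.map_cons, Multiset.sum_cons]

private theorem LensL_flT_cons (x : ℕ × ℕ) (S : Multiset (ℕ × ℕ)) :
    flT L (x ::ₘ S) = (L.hi x.1 + 1 - x.2) + flT L S := by
  unfold flT
  rw [Multiset.map_cons, Multiset.sum_cons]

theorem trT_shf (S : Multiset (ℕ × ℕ)) (hS : ∀ x ∈ S, 1 ≤ x.2 ∧ x.2 ≤ 2 ∧ x.2 ≤ x.1 ∧ x.1 ≤ M) :
    M * trT L (shf S) ≤ (M - 1) * trT L S := by
  induction S using Multiset.induction_on with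
  | empty => simp [LensL_shf_zero, trT]
  | cons x S ih =>
    have ih' := ih fun y hy => hS y (Multiset.mem_cons_of_mem hy)
    have hx := hS x (Multiset.mem_cons_self x S)
    rw [LensL_shf_cons, LensL_trT_cons]
    by_cases h : x.2 ≤ x.1 - 1
    · rw [if_pos h, LensL_trT_cons]
      have h3 := L.ratioM (c := x.1 - 1) (by omega)
      have h4 : x.1 - 1 + 1 = x.1 := by omega
      rw [h4] at h3
      rw [Nat.mul_add, Nat.mul_add]
      exact Nat.add_le_add h3 ih'
    · rw [if_neg h, Nat.mul_add]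
      exact le_trans ih' (Nat.le_add_left _ _)

theorem flT_shf (S : Multiset (ℕ × ℕ)) (hS : ∀ x ∈ S, 1 ≤ x.2 ∧ x.2 ≤ 2 ∧ x.2 ≤ x.1 ∧ x.1 ≤ M) :
    flT L S = flT L (shf S) + trT L S := by
  induction S using Multiset.induction_on with
  | empty => simp [LensL_shf_zero, trT, flT]
  | cons x S ih =>
    have ih' := ih fun y hy => hS y (Multiset.mem_cons_of_mem hy)
    obtain ⟨hx1, hx2, hx3, hx4⟩ := hS x (Multiset.mem_cons_self x S)
    have h5 := L.hi_succ (x.1 - 1)
    have h4 : x.1 - 1 + 1 = x.1 := by omega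
    rw [h4] at h5
    have h6 := L.lo_pos (m := x.1) (by omega) hx4
    rw [LensL_shf_cons, LensL_trT_cons, LensL_flT_cons, ih']
    by_cases h : x.2 ≤ x.1 - 1
    · rw [if_pos h, LensL_flT_cons]
      have h7 := L.hi_pos (m := x.1 - 1) (by omega)
      change L.hi x.1 + 1 - x.2 + (flT L (shf S) + trT L S) =
        L.hi (x.1 - 1) + 1 - x.2 + flT L (shf S) + (L.lo x.1 + trT L S)
      omega
    · rw [if_neg h]
      have h8 : L.hi (x.1 - 1) = x.2 - 1 := by
        have h9 : x.1 = x.2 := by omega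
        rw [h9]
        have h10 : x.2 = 1 ∨ x.2 = 2 := by omega
        rcases h10 with h10 | h10
        · rw [h10]
          exact L.hi_zero
        · rw [h10]
          exact L.hi_one
      omega

theorem flT_le (S : Multiset (ℕ × ℕ)) (hS : ∀ x ∈ S, 1 ≤ x.2 ∧ x.2 ≤ 2 ∧ x.2 ≤ x.1 ∧ x.1 ≤ M) :
    flT L S ≤ M * trT L S := by
  induction S using Multiset.induction_on with
  | empty => simp [trT, flT]
  | cons x S ih =>
    have ih' := ih fun y hy => hS y (Multiset.mem_cons_of_mem hy)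
    obtain ⟨hx1, hx2, hx3, hx4⟩ := hS x (Multiset.mem_cons_self x S)
    rw [LensL_trT_cons, LensL_flT_cons, Nat.mul_add]
    refine Nat.add_le_add ?_ ih'
    have h1 := L.hi_le hx4
    have h2 : x.1 * L.lo x.1 ≤ M * L.lo x.1 := Nat.mul_le_mul_right _ hx4
    omega

theorem shf_ok {S : Multiset (ℕ × ℕ)} (hS : ∀ x ∈ S, 1 ≤ x.2 ∧ x.2 ≤ 2 ∧ x.2 ≤ x.1 ∧ x.1 ≤ M) :
    ∀ x ∈ shf S, 1 ≤ x.2 ∧ x.2 ≤ 2 ∧ x.2 ≤ x.1 ∧ x.1 ≤ M := by
  intro x hx
  obtain ⟨y, hy, rfl, h⟩ := LensL_mem_shf hx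
  obtain ⟨h1, h2, h3, h4⟩ := hS y hy
  refine ⟨h1, h2, h, ?_⟩
  change y.1 - 1 ≤ M
  omega

private theorem LensL_shf_iterate {S : Multiset (ℕ × ℕ)}
    (hS : ∀ x ∈ S, 1 ≤ x.2 ∧ x.2 ≤ 2 ∧ x.2 ≤ x.1 ∧ x.1 ≤ M) (k : ℕ) :
    ∀ x ∈ shf^[k] S, 1 ≤ x.2 ∧ x.2 ≤ x.1 ∧ x.1 + k ≤ M := by
  induction k with
  | zero =>
    intro x hx
    have h := hS x hx
    exact ⟨h.1, h.2.2.1, h.2.2.2⟩
  | succ k ih =>
    intro x hx
    rw [Function.iterate_succ_apply'] at hx
    obtain ⟨y, hy, rfl, h⟩ := LensL_mem_shf hx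
    obtain ⟨h1, h2, h3⟩ := ih y hy
    refine ⟨h1, h, ?_⟩
    change y.1 - 1 + (k + 1) ≤ M
    omega

theorem shf_iterate {S : Multiset (ℕ × ℕ)}
    (hS : ∀ x ∈ S, 1 ≤ x.2 ∧ x.2 ≤ 2 ∧ x.2 ≤ x.1 ∧ x.1 ≤ M) : shf^[M] S = 0 := by
  rw [Multiset.eq_zero_iff_forall_notMem]
  intro x hx
  obtain ⟨h1, h2, h3⟩ := LensL_shf_iterate hS M x hx
  omega

end Pool.Agent.H18.Tj

end

section

/-!
# Module T4 (TJ): distribution of the simple points

`β s` are the sizes of the layers, `L s` the loads by the points of multiplicity at least two (total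
`∑ L`), `x` the number of simple points; `N = ∑ β ≤ ∑ L + x ≤ N + V`.

Proof.  Put `xs s = β s - L s` for `s ≥ 1` and `xs 0 = x - ∑_{s ≥ 1} xs s`.  Claim: `x ≤ 2 ℓ (β s - L s)` (in `ℤ`) for all
`s < ℓ`.  `ℓ β s ≥ N - ℓ Δ` and with `δ = ℓ L s - ∑ L`, `δ² ≤ k ℓ³ V²`, `k ≤ ∑ L ≤ N + V`:
`2 ℓ (β s - L s) ≥ 2 (N - ∑ L) - 2 ℓ Δ - 2 δ ≥ 2 x - 2 V - 2 ℓ Δ - 2 δ`.  If this is `< x` then `x < 2 (V + ℓ Δ + |δ|)`,
`x² < 12 (V² + ℓ² Δ² + δ²) ≤ Z (N + 1)`, a contradiction (`Z ≥ 12 (V² + θ² Δ² + (1 + V) θ³ V²)`,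
`N + V ≤ (N + 1) (1 + V)`).  So all `xs s ≥ 0` are well defined, `xs 0 ≥ β 0 - L 0` as `N ≤ ∑ L + x`, and
`K' (β s + 1) ≤ K' (N + 1)`, `4 ℓ² K' (N + 1) ≤ x² ≤ 4 ℓ² (xs s)²`.
-/

namespace Pool.Agent.H18.Tj

open Finset

/-- The constant. -/
def zT (q θ V : ℕ) : ℕ :=
  12 * (V ^ 2 + θ ^ 2 * (θ ^ (q + 1)) ^ 2 + (1 + V) * (θ ^ 3 * V ^ 2))

private theorem Load_claim (q θ V ℓ k x N Λ b l : ℕ) (hθ : ℓ ≤ θ)
    (hb : N ≤ ℓ * (b + θ ^ (q + 1)))
    (hsum2 : Λ + x ≤ N + V) (hk : k ≤ Λ)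
    (hdev : ((ℓ : ℤ) * (l : ℤ) - (Λ : ℤ)) ^ 2 ≤ (k : ℤ) * (ℓ : ℤ) ^ 3 * (V : ℤ) ^ 2)
    (hx1 : zT q θ V * (N + 1) ≤ x ^ 2) :
    (x : ℤ) ≤ 2 * ℓ * ((b : ℤ) - l) := by
  by_contra hcon
  push Not at hcon
  obtain ⟨T, hT⟩ : ∃ T : ℕ, T = θ ^ (q + 1) := ⟨_, rfl⟩
  rw [← hT] at hb
  have hx1' : ((12 * (V ^ 2 + θ ^ 2 * T ^ 2 + (1 + V) * (θ ^ 3 * V ^ 2)) : ℕ) : ℤ) * ((N : ℤ) + 1)
      ≤ (x : ℤ) ^ 2 := by
    have : zT q θ V = 12 * (V ^ 2 + θ ^ 2 * T ^ 2 + (1 + V) * (θ ^ 3 * V ^ 2)) := by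
      rw [hT]; rfl
    rw [this] at hx1
    exact_mod_cast hx1
  push_cast at hx1'
  obtain ⟨d, hd⟩ : ∃ d : ℤ, d = |(ℓ : ℤ) * (l : ℤ) - (Λ : ℤ)| := ⟨_, rfl⟩
  have hd0 : 0 ≤ d := by rw [hd]; exact abs_nonneg _
  have hd1 : (ℓ : ℤ) * (l : ℤ) - (Λ : ℤ) ≤ d := by rw [hd]; exact le_abs_self _
  have hd2 : d ^ 2 ≤ (k : ℤ) * (ℓ : ℤ) ^ 3 * (V : ℤ) ^ 2 := by rw [hd, sq_abs]; exact hdev
  have hb' : (N : ℤ) ≤ ℓ * (b + T) := by exact_mod_cast hb
  have hs' : (Λ : ℤ) + x ≤ N + V := by exact_mod_cast hsum2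
  have hk' : (k : ℤ) ≤ N + V := by
    have : k ≤ N + V := by omega
    exact_mod_cast this
  have hθ' : (ℓ : ℤ) ≤ θ := by exact_mod_cast hθ
  have h1 : (x : ℤ) < 2 * (V + ℓ * T + d) := by nlinarith only [hsum2, hcon, hb, hd1]
  have hx0 : (0 : ℤ) ≤ x := by positivity
  have hl0 : (0 : ℤ) ≤ ℓ := by positivity
  have hV0 : (0 : ℤ) ≤ V := by positivity
  have hT0 : (0 : ℤ) ≤ T := by positivity
  have hN0 : (0 : ℤ) ≤ N := by positivity
  have hθ0 : (0 : ℤ) ≤ θ := by positivity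
  have h2 : (x : ℤ) ^ 2 < (2 * (V + ℓ * T + d)) ^ 2 := by
    have := mul_self_lt_mul_self hx0 h1
    nlinarith only [this]
  have h3 : (2 * ((V : ℤ) + ℓ * T + d)) ^ 2 ≤ 12 * (V ^ 2 + (ℓ * T) ^ 2 + d ^ 2) := by
    nlinarith only [sq_nonneg ((V : ℤ) - ℓ * T), sq_nonneg ((V : ℤ) - d), sq_nonneg ((ℓ : ℤ) * T - d)]
  have h4 : ((ℓ : ℤ) * T) ^ 2 ≤ θ ^ 2 * T ^ 2 := by
    rw [mul_pow]
    exact mul_le_mul_of_nonneg_right (pow_le_pow_left₀ hl0 hθ' 2) (by positivity)
  have h5 : (k : ℤ) * (ℓ : ℤ) ^ 3 * (V : ℤ) ^ 2 ≤ ((N : ℤ) + V) * (θ ^ 3 * V ^ 2) := by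
    have e1 : (ℓ : ℤ) ^ 3 ≤ θ ^ 3 := pow_le_pow_left₀ hl0 hθ' 3
    have e2 : (ℓ : ℤ) ^ 3 * V ^ 2 ≤ θ ^ 3 * V ^ 2 := mul_le_mul_of_nonneg_right e1 (by positivity)
    rw [mul_assoc]
    exact mul_le_mul hk' e2 (by positivity) (by positivity)
  have h6 : (V : ℤ) ^ 2 + θ ^ 2 * T ^ 2 ≤ (V ^ 2 + θ ^ 2 * T ^ 2) * (N + 1) := by
    have : (0 : ℤ) ≤ (V ^ 2 + θ ^ 2 * T ^ 2) * N := by positivity
    linarith only [this]
  have h7 : ((N : ℤ) + V) * (θ ^ 3 * V ^ 2) ≤ (1 + V) * (θ ^ 3 * V ^ 2) * (N + 1) := by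
    have : (0 : ℤ) ≤ (θ ^ 3 * V ^ 2) * (1 + V * N) := by positivity
    nlinarith only [hx1', hd2, h2, h3, h4, h5, h6, this]
  nlinarith only [hx1', hd2, h2, h3, h4, h5, h6, h7]

theorem distribute (q θ V ℓ k K' x : ℕ) (hℓ : 1 ≤ ℓ) (hθ : ℓ ≤ θ) (β L : ℕ → ℕ)
    (hβ : ∀ s < ℓ, ∀ t < ℓ, β s ≤ β t + θ ^ (q + 1))
    (hsum1 : ∑ s ∈ range ℓ, β s ≤ ∑ s ∈ range ℓ, L s + x)
    (hsum2 : ∑ s ∈ range ℓ, L s + x ≤ ∑ s ∈ range ℓ, β s + V)
    (hk : k ≤ ∑ s ∈ range ℓ, L s)
    (hdev : ∑ s ∈ range ℓ, ((ℓ : ℤ) * (L s : ℤ) - ∑ t ∈ range ℓ, (L t : ℤ)) ^ 2 ≤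
      (k : ℤ) * (ℓ : ℤ) ^ 3 * (V : ℤ) ^ 2)
    (hx1 : zT q θ V * (∑ s ∈ range ℓ, β s + 1) ≤ x ^ 2)
    (hx2 : 4 * θ ^ 2 * K' * (∑ s ∈ range ℓ, β s + 1) ≤ x ^ 2) :
    ∃ xs : ℕ → ℕ, ∑ s ∈ range ℓ, xs s = x ∧ (∀ s < ℓ, β s ≤ L s + xs s) ∧
      ∀ s < ℓ, K' * (β s + 1) ≤ xs s ^ 2 := by
  have claim : ∀ s < ℓ, (x : ℤ) ≤ 2 * ℓ * ((β s : ℤ) - L s) := by
    intro s hs
    refine Load_claim q θ V ℓ k x (∑ s ∈ range ℓ, β s) (∑ s ∈ range ℓ, L s) (β s) (L s) hθ ?_
      hsum2 hk ?_ hx1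
    · calc ∑ t ∈ range ℓ, β t ≤ ∑ _t ∈ range ℓ, (β s + θ ^ (q + 1)) :=
            sum_le_sum fun t ht => hβ t (mem_range.1 ht) s hs
        _ = ℓ * (β s + θ ^ (q + 1)) := by rw [sum_const, card_range, smul_eq_mul]
    · refine le_trans ?_ hdev
      have := single_le_sum (f := fun s => ((ℓ : ℤ) * (L s : ℤ) - ∑ t ∈ range ℓ, (L t : ℤ)) ^ 2)
        (fun i _ => sq_nonneg _) (mem_range.2 hs)
      push_cast
      exact this
  have hℓ0 : (0 : ℤ) < ℓ := by exact_mod_cast hℓ
  have hle : ∀ s < ℓ, L s ≤ β s := by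
    intro s hs
    have h1 := claim s hs
    have h2 : (0 : ℤ) ≤ 2 * ℓ * ((β s : ℤ) - L s) := le_trans (by positivity) h1
    have h3 : (0 : ℤ) ≤ (β s : ℤ) - L s := by
      by_contra h
      push Not at h
      have : 2 * (ℓ : ℤ) * ((β s : ℤ) - L s) < 0 := mul_neg_of_pos_of_neg (by linarith only [hℓ]) h
      linarith only [h1, this]
    omega
  obtain ⟨m, rfl⟩ : ∃ m, ℓ = m + 1 := ⟨ℓ - 1, by omega⟩
  have hs1 : ∑ s ∈ range (m + 1), β s = ∑ s ∈ range (m + 1), (β s - L s) +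
      ∑ s ∈ range (m + 1), L s := by
    rw [← sum_add_distrib]
    exact sum_congr rfl fun s hs => (Nat.sub_add_cancel (hle s (mem_range.1 hs))).symm
  have hs2 : ∑ s ∈ range (m + 1), (β s - L s) ≤ x := by omega
  rw [sum_range_succ'] at hs2
  refine ⟨fun s => if s = 0 then x - ∑ t ∈ range m, (β (t + 1) - L (t + 1)) else β s - L s,
    ?_, ?_, ?_⟩
  · rw [sum_range_succ']
    simp only [Nat.add_eq_zero_iff, one_ne_zero, and_false, if_false, if_true]
    omega
  · intro s hs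
    rcases Nat.eq_zero_or_pos s with h0 | h0
    · subst h0
      simp only [if_true]
      omega
    · simp only [h0.ne', if_false]
      have := hle s hs
      omega
  · intro s hs
    have h1 : ∃ y : ℕ, β s - L s ≤ y ∧ (if s = 0 then x - ∑ t ∈ range m, (β (t + 1) - L (t + 1))
        else β s - L s) = y := by
      refine ⟨_, ?_, rfl⟩
      rcases Nat.eq_zero_or_pos s with h0 | h0
      · subst h0
        simp only [if_true]
        omega
      · simp only [h0.ne', if_false, le_refl]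
    obtain ⟨y, hy, h2⟩ := h1
    show K' * (β s + 1) ≤ (if s = 0 then x - ∑ t ∈ range m, (β (t + 1) - L (t + 1))
        else β s - L s) ^ 2
    rw [h2]
    have h3 := claim s hs
    have h4 : (x : ℤ) ≤ ((2 * (m + 1) * y : ℕ) : ℤ) := by
      refine h3.trans ?_
      push_cast
      have h5 : (β s : ℤ) - L s ≤ y := by
        have := hle s hs
        omega
      have h6 : (0 : ℤ) ≤ 2 * ((m : ℤ) + 1) := by positivity
      exact mul_le_mul_of_nonneg_left h5 h6
    have h5 : x ≤ 2 * (m + 1) * y := by exact_mod_cast h4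
    have h6 : x ^ 2 ≤ (2 * (m + 1) * y) ^ 2 := Nat.pow_le_pow_left h5 2
    have h7 : β s ≤ ∑ s ∈ range (m + 1), β s :=
      single_le_sum (f := β) (fun i _ => Nat.zero_le _) (mem_range.2 hs)
    have h8 : 4 * (m + 1) ^ 2 * K' * (β s + 1) ≤
        4 * θ ^ 2 * K' * (∑ s ∈ range (m + 1), β s + 1) := by
      refine Nat.mul_le_mul (Nat.mul_le_mul_right _ (Nat.mul_le_mul_left _ ?_)) (by omega)
      exact Nat.pow_le_pow_left hθ 2
    have h9 : 4 * (m + 1) ^ 2 * (K' * (β s + 1)) ≤ 4 * (m + 1) ^ 2 * y ^ 2 := by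
      calc 4 * (m + 1) ^ 2 * (K' * (β s + 1)) = 4 * (m + 1) ^ 2 * K' * (β s + 1) := by ring
        _ ≤ x ^ 2 := h8.trans hx2
        _ ≤ (2 * (m + 1) * y) ^ 2 := h6
        _ = 4 * (m + 1) ^ 2 * y ^ 2 := by ring
    exact Nat.le_of_mul_le_mul_left h9 (by positivity)

end Pool.Agent.H18.Tj

end

section

/-!
# Module T5b (TJ): near-exactness if all coordinates other than `h`, `c` are thin

`kT q θ V n = (4 θ²)^n zT q θ V`; `n` bounds the number of the active coordinates other than `h`, `c`.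

`thin_step`: let `y ≠ h, c`, `ℓ = w y + 1 ≤ θ`, `w' = update w y 0`, `V = M ^ q` (`Lx_le_pow`).  Remove the zeros of
`S`.  If `card ≤ x` use `GM.of_card`.  Otherwise drop superfluous points (`exists_drop`, see
`Pool/Agent/H18/Pr/MainN.lean`): `card ≤ ∑ Lx w + x ≤ card + V`.  Write `S` as the family `μ : Fin k → ℕ` (`1 ≤ μ j ≤ M`).  The
layers `s < ℓ` are `Rg (σ - s) w'` (`lyr_Rg`, `s ≤ θ ≤ σ`), of sizes `β s`, `∑ β s = card` (`cnt_layer`),
`β s ≤ β t + θ ^ (q + 1)` (`cnt_thin` at most `ℓ` times for `w'`; `cnt_mono`).  `W j i = Lx w' (μ j - i)` is decreasing and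
convex (`Lx_mono`, `Lx_convex`; `M ≤ w h`, `M ≤ w c`), `∑_{t<ℓ} W j t = Lx w (μ j)` (`Lx_layer`).  `assign` gives the cells
`u j`; `L s = ∑_j W j (rk ℓ (u j) 0 s)`, `∑_s L s = ∑_j Lx w (μ j)` (`rk` is a permutation of `range ℓ`: `rk_lt`, `rk_inj`),
`k ≤ ∑ L s` (`Lx_pos`).  `distribute` gives `xs`.  Apply `layers` to the family of the points `j` (cell `u j`) and of
the simple points (`xs u` of them in the cell `u`, `u < ℓ`; load `1 - rk ℓ u 0 s`, which is `1` iff `s = u`).  On the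
layer `s` the hypothesis `ih` (with `S_s = {μ j - rk ℓ (u j) 0 s}`, `x = xs s`) gives `GM`, hence `GI` of the family
(`GM_iff`, `GI.of_comp`: the simple points of the other cells carry the empty condition `free 0`).

`thin`: induction on `n`.  If there is an active `y ≠ h, c` use `thin_step` (`w'` has one thin active coordinate
less), otherwise `base_one` (`Pool/Agent/H18/Ex/Base.lean`; exactly `h`, `c` are active) with `ell 1 m = m`
(`base_ell_one`) and `Lx_two`.
-/

namespace Pool.Agent.H18.Tj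

open Finset Function

variable {ι : Type} [Fintype ι] [DecidableEq ι]

/-- The constants. -/
def kT (q θ V n : ℕ) : ℕ := (4 * θ ^ 2) ^ n * zT q θ V

end Pool.Agent.H18.Tj

end

section

/-!
# Module T1 (TK): the number of exponents varies slowly with the degree if all coordinates but two are thin

`cnt_thin_up`: the `a ∈ Rg (σ + 1) w` with `a h ≥ 1` are mapped injectively to `Rg σ w` by `a ↦ a - e_h`; the others have
`a h = 0` and are determined by their coordinates other than `h`, `c`.  `cnt_thin_dn`: the `a ∈ Rg σ w` with `a h < w h` are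
mapped to `Rg (σ + 1) w` by `a ↦ a + e_h`; the others have `a h = w h` and are again determined by their coordinates other
than `h`, `c`.  See `cnt_thin` in `Pool/Agent/H18/Tj/CntL.lean`.
-/

namespace Pool.Agent.H18.Tk

open Finset Function Pool.Agent.H18.Ex

variable {ι : Type} [Fintype ι] [DecidableEq ι]

private theorem CntT_upd {a : ι → ℕ} (h : ι) (x : ℕ) :
    ∑ i, update a h x i = x + ∑ i ∈ univ.erase h, a i := by
  have h1 := sum_update_of_mem (mem_univ h) a x
  have h3 : (univ : Finset ι) \ {h} = univ.erase h := sdiff_singleton_eq_erase _ _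
  rw [h3] at h1
  exact h1

private theorem CntT_det {h c : ι} {σ θ q x : ℕ} {w : ι → ℕ} (hc : h ≠ c)
    (hq : Fintype.card ι ≤ q) (hθ : 1 ≤ θ) (hthin : ∀ i, i ≠ h → i ≠ c → w i < θ) :
    ((Rg σ w).filter fun a => a h = x).card ≤ θ ^ q := by
  have hcard : (Fintype.piFinset fun _ : ι => range θ).card ≤ θ ^ q := by
    rw [Fintype.card_piFinset, prod_const, card_range, card_univ]
    exact Nat.pow_le_pow_right hθ hq
  refine le_trans ?_ hcard
  refine card_le_card_of_injOn (fun a => update (update a h 0) c 0) ?_ ?_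
  · intro a ha
    rw [mem_coe, mem_filter, mem_Rg] at ha
    obtain ⟨⟨ha1, ha2⟩, ha3⟩ := ha
    rw [mem_coe, Fintype.mem_piFinset]
    intro i
    rw [mem_range]
    beta_reduce
    by_cases hi : i = c
    · subst hi
      rw [update_self]
      exact hθ
    · rw [update_of_ne hi]
      by_cases hi' : i = h
      · subst hi'
        rw [update_self]
        exact hθ
      · rw [update_of_ne hi']
        exact lt_of_le_of_lt (ha1 i) (hthin i hi' hi)
  · intro a ha b hb hab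
    rw [mem_coe, mem_filter, mem_Rg] at ha hb
    have hne : ∀ i, i ≠ c → a i = b i := by
      intro i hi
      by_cases hi' : i = h
      · subst hi'
        rw [ha.2, hb.2]
      · have h1 := congrFun hab i
        simpa only [update_of_ne hi, update_of_ne hi'] using h1
    funext i
    by_cases hi : i = c
    · subst hi
      have h1 := add_sum_erase univ a (mem_univ i)
      have h2 := add_sum_erase univ b (mem_univ i)
      have h3 : ∑ x ∈ univ.erase i, a x = ∑ x ∈ univ.erase i, b x :=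
        sum_congr rfl fun x hx => hne x (ne_of_mem_erase hx)
      have h4 := ha.1.2
      have h5 := hb.1.2
      omega
    · exact hne i hi

theorem cnt_thin_up {h c : ι} (hc : h ≠ c) {σ θ q : ℕ} {w : ι → ℕ} (hq : Fintype.card ι ≤ q)
    (hθ : 1 ≤ θ) (hthin : ∀ i, i ≠ h → i ≠ c → w i < θ) :
    (Rg (σ + 1) w).card ≤ (Rg σ w).card + θ ^ q := by
  rw [← card_filter_add_card_filter_not (s := Rg (σ + 1) w) (fun a => a h ≠ 0)]
  refine Nat.add_le_add ?_ ?_
  · refine card_le_card_of_injOn (fun a => update a h (a h - 1)) ?_ ?_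
    · intro a ha
      rw [mem_coe, mem_filter, mem_Rg] at ha
      obtain ⟨⟨ha1, ha2⟩, ha3⟩ := ha
      rw [mem_coe, mem_Rg]
      beta_reduce
      refine ⟨fun i => ?_, ?_⟩
      · by_cases hi : i = h
        · subst hi
          rw [update_self]
          exact (Nat.sub_le _ _).trans (ha1 _)
        · rw [update_of_ne hi]
          exact ha1 i
      · have h2 := add_sum_erase univ a (mem_univ h)
        rw [CntT_upd]
        have h4 : 1 ≤ a h := Nat.one_le_iff_ne_zero.2 ha3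
        omega
    · intro a ha b hb hab
      rw [mem_coe, mem_filter] at ha hb
      funext i
      have h1 := congrFun hab i
      by_cases hi : i = h
      · subst hi
        simp only [update_self] at h1
        have h4 : 1 ≤ a i := Nat.one_le_iff_ne_zero.2 ha.2
        have h5 : 1 ≤ b i := Nat.one_le_iff_ne_zero.2 hb.2
        omega
      · simpa only [update_of_ne hi] using h1
  · have h1 : ((Rg (σ + 1) w).filter fun a => ¬ a h ≠ 0) =
        (Rg (σ + 1) w).filter fun a => a h = 0 := by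
      refine filter_congr fun a _ => ?_
      rw [not_not]
    rw [h1]
    exact CntT_det hc hq hθ hthin

theorem cnt_thin_dn {h c : ι} (hc : h ≠ c) {σ θ q : ℕ} {w : ι → ℕ} (hq : Fintype.card ι ≤ q)
    (hθ : 1 ≤ θ) (hthin : ∀ i, i ≠ h → i ≠ c → w i < θ) :
    (Rg σ w).card ≤ (Rg (σ + 1) w).card + θ ^ q := by
  rw [← card_filter_add_card_filter_not (s := Rg σ w) (fun a => a h ≠ w h)]
  refine Nat.add_le_add ?_ ?_
  · refine card_le_card_of_injOn (fun a => update a h (a h + 1)) ?_ ?_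
    · intro a ha
      rw [mem_coe, mem_filter, mem_Rg] at ha
      obtain ⟨⟨ha1, ha2⟩, ha3⟩ := ha
      rw [mem_coe, mem_Rg]
      beta_reduce
      refine ⟨fun i => ?_, ?_⟩
      · by_cases hi : i = h
        · subst hi
          rw [update_self]
          have h4 := ha1 i
          omega
        · rw [update_of_ne hi]
          exact ha1 i
      · have h2 := add_sum_erase univ a (mem_univ h)
        rw [CntT_upd]
        omega
    · intro a ha b hb hab
      funext i
      have h1 := congrFun hab i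
      by_cases hi : i = h
      · subst hi
        simp only [update_self] at h1
        omega
      · simpa only [update_of_ne hi] using h1
  · have h1 : ((Rg σ w).filter fun a => ¬ a h ≠ w h) =
        (Rg σ w).filter fun a => a h = w h := by
      refine filter_congr fun a _ => ?_
      rw [not_not]
    rw [h1]
    exact CntT_det hc hq hθ hthin

end Pool.Agent.H18.Tk

end

section

/-!
# Module P1 (TK): one Horace step for configurations

Adapt the proof of `peelL` in `Pool/Agent/H18/Tj/PeelT.lean` (same system with one direction), with `d = Y.dir (k + 1)`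
and `c.Φ d` in place of `c.Φ`:
`c' = ⟨c.N - I - replicate t μ, c.s - u, update c.Φ d (shf (c.Φ d) + I.map (m ↦ (m - 1, 1)) + replicate t (μ, 2))⟩`.
For the total length split the sum over the directions at `d` (`Finset.add_sum_erase`).
-/

namespace Pool.Agent.H18.Tk

open Finset Function Pool.Agent.H18.Ex Pool.Agent.H18.Tj

variable {Λ : Type} [Fintype Λ] [DecidableEq Λ]

/-- The new configuration. -/
private def PeelP_c (c : Cfg Λ) (d : Λ) (I : Multiset ℕ) (μ t u : ℕ) : Cfg Λ :=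
  ⟨c.N - I - Multiset.replicate t μ, c.s - u,
    update c.Φ d (shf (c.Φ d) + I.map (fun m => (m - 1, 1)) + Multiset.replicate t (μ, 2))⟩

omit [Fintype Λ] in
private theorem PeelP_self (c : Cfg Λ) (d : Λ) (I : Multiset ℕ) (μ t u : ℕ) :
    (PeelP_c c d I μ t u).Φ d =
      shf (c.Φ d) + I.map (fun m => (m - 1, 1)) + Multiset.replicate t (μ, 2) := by
  unfold PeelP_c
  exact update_self _ _ _

omit [Fintype Λ] in
private theorem PeelP_ne (c : Cfg Λ) (d : Λ) (I : Multiset ℕ) (μ t u : ℕ) (l : Λ) (hl : l ≠ d) :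
    (PeelP_c c d I μ t u).Φ l = c.Φ l := by
  unfold PeelP_c
  exact update_of_ne hl _ _

omit [Fintype Λ] in
private theorem PeelP_OK {M : ℕ} {c : Cfg Λ} (hc : c.OK M) (d : Λ) {I : Multiset ℕ}
    (hI : I ≤ c.N) {μ t u : ℕ} (hμ : t ≠ 0 → 2 ≤ μ ∧ μ ≤ M) : (PeelP_c c d I μ t u).OK M := by
  refine ⟨fun m hm => hc.hN m ?_, fun l x hx => ?_⟩
  · exact Multiset.mem_of_le (le_trans tsub_le_self tsub_le_self) hm
  · by_cases hl : l = d
    · subst hl
      rw [PeelP_self, Multiset.mem_add, Multiset.mem_add] at hx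
      rcases hx with (hx | hx) | hx
      · exact shf_ok (hc.hΦ l) x hx
      · obtain ⟨m, hm, rfl⟩ := Multiset.mem_map.1 hx
        have h2 := hc.hN m (Multiset.mem_of_le hI hm)
        refine ⟨le_rfl, by norm_num, ?_, ?_⟩
        · change 1 ≤ m - 1
          omega
        · change m - 1 ≤ M
          omega
      · have h1 := Multiset.mem_replicate.1 hx
        have h2 := hμ h1.1
        rw [h1.2]
        exact ⟨by norm_num, le_rfl, h2.1, h2.2⟩
    · rw [PeelP_ne c d I μ t u l hl] at hx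
      exact hc.hΦ l x hx

omit [Fintype Λ] in
private theorem PeelP_K {M : ℕ} (L : Lens M) (Y : SysP Λ) (w k : ℕ) (hE : GxP L Y w (k + 1))
    (c : Cfg Λ) (hc : c.OK M) {I : Multiset ℕ} (hI : I ≤ c.N) {μ t u : ℕ} (hμ1 : 1 ≤ μ)
    (ht : Multiset.replicate t μ ≤ c.N - I) (hu : u ≤ c.s) (hw : w ≤ t + u)
    (hsum : trT L (c.Φ (Y.dir (k + 1))) + (I.map L.lo).sum + t + u = Y.F (k + 1))
    (h : Y.K k (PeelP_c c (Y.dir (k + 1)) I μ t u)) : Y.K (k + 1) c := by
  have h1 : (c.N - I - Multiset.replicate t μ) + I + Multiset.replicate t μ = c.N := by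
    rw [add_right_comm, tsub_add_cancel_of_le ht, tsub_add_cancel_of_le hI]
  have h2 : c.s - u + u = c.s := Nat.sub_add_cancel hu
  have h3 := Y.step k (c.N - I - Multiset.replicate t μ) I μ t (c.s - u) u c.Φ hμ1
    (fun x hx => (hc.hΦ _ x hx).2.2.1)
    (hE ((c.Φ (Y.dir (k + 1))).map Prod.fst + I) ?_ (t + u) hw ?_) h
  · rw [h1, h2] at h3
    exact h3
  · intro m hm
    rcases Multiset.mem_add.1 hm with hm | hm
    · obtain ⟨x, hx, rfl⟩ := Multiset.mem_map.1 hm
      exact (hc.hΦ _ x hx).2.2.2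
    · exact (hc.hN m (Multiset.mem_of_le hI hm)).2
  · rw [Multiset.map_add, Multiset.sum_add, Multiset.map_map]
    have h4 : ((c.Φ (Y.dir (k + 1))).map (L.lo ∘ Prod.fst)).sum =
      trT L (c.Φ (Y.dir (k + 1))) := rfl
    rw [h4]
    omega

omit [Fintype Λ] in
private theorem PeelP_tr {M : ℕ} (L : Lens M) {c : Cfg Λ} (hc : c.OK M) (d : Λ)
    {I : Multiset ℕ} (hI : I ≤ c.N) (μ t u : ℕ) :
    M * trT L ((PeelP_c c d I μ t u).Φ d) ≤ (M - 1) * (trT L (c.Φ d) + (I.map L.lo).sum) +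
      M * (t * L.lo μ) := by
  have h1 : trT L ((PeelP_c c d I μ t u).Φ d) = trT L (shf (c.Φ d)) +
      trT L (I.map (fun m => (m - 1, 1))) + trT L (Multiset.replicate t (μ, 2)) := by
    rw [PeelP_self, trT_add, trT_add]
  have h2 : trT L (Multiset.replicate t (μ, 2)) = t * L.lo μ := by
    unfold trT
    rw [Multiset.map_replicate, Multiset.sum_replicate, smul_eq_mul]
  have h3 := trT_shf L (c.Φ d) (fun x hx => hc.hΦ d x hx)
  have h5 : M * trT L (I.map (fun m => (m - 1, 1))) ≤ (M - 1) * (I.map L.lo).sum := by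
    have h6 : ∀ m ∈ I, 2 ≤ m ∧ m ≤ M := fun m hm => hc.hN m (Multiset.mem_of_le hI hm)
    clear h1 h2 h3 hI
    unfold trT
    rw [Multiset.map_map]
    induction I using Multiset.induction_on with
    | empty => simp
    | cons m I ih =>
      have ih' := ih fun m' hm' => h6 m' (Multiset.mem_cons_of_mem hm')
      have h7 := h6 m (Multiset.mem_cons_self m I)
      rw [Multiset.map_cons, Multiset.map_cons, Multiset.sum_cons, Multiset.sum_cons,
        Nat.mul_add, Nat.mul_add]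
      have h8 := L.ratioM (c := m - 1) (by omega)
      have h9 : m - 1 + 1 = m := by omega
      rw [h9] at h8
      exact Nat.add_le_add h8 ih'
  rw [h1, h2, Nat.mul_add, Nat.mul_add, Nat.mul_add]
  omega

omit [Fintype Λ] in
private theorem PeelP_sumN {M : ℕ} (L : Lens M) (c : Cfg Λ) {I : Multiset ℕ} (hI : I ≤ c.N)
    {μ t : ℕ} (ht : Multiset.replicate t μ ≤ c.N - I) :
    (c.N.map L.hi).sum = ((c.N - I - Multiset.replicate t μ).map L.hi).sum +
      (I.map L.hi).sum + t * L.hi μ := by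
  have h1 : c.N = (c.N - I - Multiset.replicate t μ) + I + Multiset.replicate t μ := by
    rw [add_right_comm, tsub_add_cancel_of_le ht, tsub_add_cancel_of_le hI]
  conv_lhs => rw [h1]
  rw [Multiset.map_add, Multiset.map_add, Multiset.sum_add, Multiset.sum_add,
    Multiset.map_replicate, Multiset.sum_replicate, smul_eq_mul]

private theorem PeelP_sz {M : ℕ} (L : Lens M) {c : Cfg Λ} (hc : c.OK M) (d : Λ)
    {I : Multiset ℕ} (hI : I ≤ c.N) {μ t u : ℕ} (hμ1 : 1 ≤ μ)
    (ht : Multiset.replicate t μ ≤ c.N - I) (hu : u ≤ c.s) :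
    szP L (PeelP_c c d I μ t u) + (trT L (c.Φ d) + (I.map L.lo).sum + t + u) = szP L c := by
  have h1 : flT L ((PeelP_c c d I μ t u).Φ d) = flT L (shf (c.Φ d)) +
      flT L (I.map (fun m => (m - 1, 1))) + flT L (Multiset.replicate t (μ, 2)) := by
    rw [PeelP_self, flT_add, flT_add]
  have h2 : flT L (Multiset.replicate t (μ, 2)) + t = t * L.hi μ := by
    unfold flT
    rw [Multiset.map_replicate, Multiset.sum_replicate, smul_eq_mul]
    have h3 := L.hi_pos hμ1
    change t * (L.hi μ + 1 - 2) + t = t * L.hi μ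
    have h4 : L.hi μ = (L.hi μ + 1 - 2) + 1 := by omega
    conv_rhs => rw [h4]
    ring
  have h3 := flT_shf L (c.Φ d) (fun x hx => hc.hΦ d x hx)
  have h5 : flT L (I.map (fun m => (m - 1, 1))) + (I.map L.lo).sum = (I.map L.hi).sum := by
    have h6 : ∀ m ∈ I, 2 ≤ m ∧ m ≤ M := fun m hm => hc.hN m (Multiset.mem_of_le hI hm)
    clear h1 h2 h3 hI ht
    unfold flT
    rw [Multiset.map_map]
    induction I using Multiset.induction_on with
    | empty => simp
    | cons m I ih =>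
      have ih' := ih fun m' hm' => h6 m' (Multiset.mem_cons_of_mem hm')
      have h7 := h6 m (Multiset.mem_cons_self m I)
      rw [Multiset.map_cons, Multiset.map_cons, Multiset.map_cons, Multiset.sum_cons,
        Multiset.sum_cons, Multiset.sum_cons, ← ih']
      have h8 := L.hi_succ (m - 1)
      have h9 : m - 1 + 1 = m := by omega
      rw [h9] at h8
      simp only [Function.comp_apply]
      omega
  have h8 := PeelP_sumN L c hI ht
  have h9 : nszP L (PeelP_c c d I μ t u) =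
      ((c.N - I - Multiset.replicate t μ).map L.hi).sum + (c.s - u) := rfl
  have h10 : nszP L c = (c.N.map L.hi).sum + c.s := rfl
  have h11 : ∑ l, flT L ((PeelP_c c d I μ t u).Φ l) =
      flT L ((PeelP_c c d I μ t u).Φ d) + ∑ l ∈ univ.erase d, flT L (c.Φ l) := by
    rw [← Finset.add_sum_erase univ (fun l => flT L ((PeelP_c c d I μ t u).Φ l)) (mem_univ d)]
    congr 1
    refine Finset.sum_congr rfl fun l hl => ?_
    rw [PeelP_ne c d I μ t u l (Finset.ne_of_mem_erase hl)]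
  have h12 : ∑ l, flT L (c.Φ l) = flT L (c.Φ d) + ∑ l ∈ univ.erase d, flT L (c.Φ l) :=
    (Finset.add_sum_erase univ (fun l => flT L (c.Φ l)) (mem_univ d)).symm
  unfold szP
  rw [h9, h10, h11, h12]
  omega

private theorem PeelP_sum_le {g : ℕ → ℕ} {C : ℕ} {I : Multiset ℕ}
    (hI : ∀ m ∈ I, g m ≤ C) : (I.map g).sum ≤ C * I.card := by
  induction I using Multiset.induction_on with
  | empty => simp
  | cons m I ih =>
    have ih' := ih fun m' hm' => hI m' (Multiset.mem_cons_of_mem hm')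
    have h7 := hI m (Multiset.mem_cons_self m I)
    rw [Multiset.card_cons, Multiset.map_cons, Multiset.sum_cons, Nat.mul_add, Nat.mul_one]
    omega

private theorem PeelP_card_le {M : ℕ} (L : Lens M) {I : Multiset ℕ}
    (hI : ∀ m ∈ I, 2 ≤ m ∧ m ≤ M) : I.card ≤ (I.map L.lo).sum := by
  induction I using Multiset.induction_on with
  | empty => simp
  | cons m I ih =>
    have ih' := ih fun m' hm' => hI m' (Multiset.mem_cons_of_mem hm')
    have h7 := hI m (Multiset.mem_cons_self m I)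
    rw [Multiset.card_cons, Multiset.map_cons, Multiset.sum_cons]
    have h8 := L.lo_pos (m := m) (by omega) h7.2
    omega

theorem peelP {M : ℕ} (L : Lens M) (hM : 1 ≤ M) (Y : SysP Λ) (w k : ℕ) (hE : GxP L Y w (k + 1))
    (c : Cfg Λ) (hc : c.OK M) (I₀ : Multiset ℕ) (hI₀ : I₀ ≤ c.N)
    (hroom : trT L (c.Φ (Y.dir (k + 1))) + (I₀.map L.lo).sum + w ≤ Y.F (k + 1))
    (hav : L.hi M * (Y.F (k + 1) + g0T L w) + Y.F (k + 1) ≤ nszP L c) :
    ∃ c' : Cfg Λ, c'.OK M ∧ (Y.K k c' → Y.K (k + 1) c) ∧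
      M * trT L (c'.Φ (Y.dir (k + 1))) ≤ (M - 1) * Y.F (k + 1) + M * ((L.lo M + w) * L.lo M) ∧
      (∀ l, l ≠ Y.dir (k + 1) → c'.Φ l = c.Φ l) ∧
      szP L c' + Y.F (k + 1) = szP L c ∧
      (c'.s = c.s ∨ c'.N.card < g0T L w) ∧
      c'.N.card ≤ c.N.card ∧
      (c.N.card * L.lo M + trT L (c.Φ (Y.dir (k + 1))) + w ≤ Y.F (k + 1) → c'.N = 0) ∧
      (c.N = 0 → c'.N = 0 ∧ c'.Φ (Y.dir (k + 1)) = shf (c.Φ (Y.dir (k + 1)))) ∧
      shf (c.Φ (Y.dir (k + 1))) + I₀.map (fun m => (m - 1, 1)) ≤ c'.Φ (Y.dir (k + 1)) ∧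
      c'.s ≤ c.s := by
  set d := Y.dir (k + 1) with hd
  set f := Y.F (k + 1) with hf
  obtain ⟨I, hI1, hI2, hI3, hI4⟩ := exists_maximal_fill c.N I₀ L.lo (f - trT L (c.Φ d) - w) hI₀
    (by omega)
  set ρ := f - trT L (c.Φ d) - (I.map L.lo).sum with hρ
  have hρw : w ≤ ρ := by omega
  have hIN : ∀ m ∈ I, 2 ≤ m ∧ m ≤ M := fun m hm => hc.hN m (Multiset.mem_of_le hI2 hm)
  have hcard := PeelP_card_le L hIN
  have hlo1 : 1 ≤ L.lo M := L.lo_pos hM le_rfl
  have hg0 : 1 ≤ g0T L w := by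
    unfold g0T
    exact Nat.mul_pos (by omega) (by omega)
  have hsub : (c.N - I).card = c.N.card - I.card := Multiset.card_sub hI2
  have hIc : I.card ≤ c.N.card := Multiset.card_le_card hI2
  have hmapI : shf (c.Φ d) + I₀.map (fun m => (m - 1, 1)) ≤
      shf (c.Φ d) + I.map (fun m => (m - 1, 1)) := by
    gcongr
  -- the output (7)
  have hall : c.N.card * L.lo M + trT L (c.Φ d) + w ≤ f → c.N - I = 0 := by
    intro h
    by_contra hne
    obtain ⟨m, hm⟩ := Multiset.exists_mem_of_ne_zero hne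
    have h1 := hI4 m hm
    have hmN := hc.hN m (Multiset.mem_of_le tsub_le_self hm)
    have h2 := L.lo_mono hmN.2 le_rfl
    have h3 : (I.map L.lo).sum ≤ L.lo M * I.card :=
      PeelP_sum_le fun m' hm' => L.lo_mono (hIN m' hm').2 le_rfl
    have h4 : 0 < (c.N - I).card := Multiset.card_pos.2 hne
    have h5 : I.card + 1 ≤ c.N.card := by omega
    have h6 : L.lo M * (I.card + 1) ≤ L.lo M * c.N.card := Nat.mul_le_mul_left _ h5
    rw [Nat.mul_add, Nat.mul_one] at h6
    rw [Nat.mul_comm (L.lo M) c.N.card] at h6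
    omega
  by_cases hcase : g0T L w ≤ (c.N - I).card
  · -- case (i)
    have hNI : ∀ m ∈ c.N - I, 1 ≤ m ∧ m ≤ M := by
      intro m hm
      have := hc.hN m (Multiset.mem_of_le tsub_le_self hm)
      omega
    obtain ⟨μ, hμ, hrep⟩ := exists_replicate_le (c.N - I) M (L.lo M + w) hNI hcase hM (by omega)
    have hμ2 := hc.hN μ (Multiset.mem_of_le tsub_le_self hμ)
    have hρle : ρ ≤ L.lo M + w := by
      have h1 := hI4 μ hμ
      have h2 := L.lo_mono hμ2.2 le_rfl
      omega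
    have ht : Multiset.replicate ρ μ ≤ c.N - I :=
      le_trans (Multiset.replicate_le_replicate μ |>.2 hρle) hrep
    have hsum : trT L (c.Φ d) + (I.map L.lo).sum + ρ + 0 = f := by omega
    refine ⟨PeelP_c c d I μ ρ 0, PeelP_OK hc d hI2 (fun _ => hμ2),
      PeelP_K L Y w k hE c hc hI2 (by omega) ht (Nat.zero_le _) (by omega) hsum,
      ?_, fun l hl => PeelP_ne c d I μ ρ 0 l hl, ?_, Or.inl rfl, ?_, ?_, ?_, ?_, Nat.sub_le _ _⟩
    · refine le_trans (PeelP_tr L hc d hI2 μ ρ 0) (Nat.add_le_add ?_ ?_)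
      · exact Nat.mul_le_mul_left _ (by omega)
      · apply Nat.mul_le_mul_left
        exact Nat.mul_le_mul hρle (L.lo_mono hμ2.2 le_rfl)
    · have h1 := PeelP_sz L hc d hI2 (by omega : 1 ≤ μ) ht (Nat.zero_le c.s)
      rw [hsum] at h1
      exact h1
    · exact Multiset.card_le_card (le_trans tsub_le_self tsub_le_self)
    · intro h
      have h1 := hall h
      rw [h1, Multiset.card_zero] at hcase
      omega
    · intro h
      rw [h] at hcase hsub
      rw [hsub] at hcase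
      simp at hcase
      omega
    · rw [PeelP_self]
      exact le_trans hmapI (Multiset.le_add_right _ _)
  · -- case (ii)
    push Not at hcase
    have hρs : ρ ≤ c.s := by
      have h1 : nszP L c ≤ L.hi M * c.N.card + c.s := by
        unfold nszP
        exact Nat.add_le_add_right
          (PeelP_sum_le fun m hm => L.hi_mono (hc.hN m hm).2) _
      have h2 : L.hi M * c.N.card ≤ L.hi M * (f + g0T L w) :=
        Nat.mul_le_mul_left _ (by omega)
      omega
    have hsum : trT L (c.Φ d) + (I.map L.lo).sum + 0 + ρ = f := by omega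
    have ht : Multiset.replicate 0 1 ≤ c.N - I := Multiset.zero_le _
    have hNeq : (PeelP_c c d I 1 0 ρ).N = c.N - I := by
      change c.N - I - Multiset.replicate 0 1 = c.N - I
      rw [Multiset.replicate_zero, tsub_zero]
    refine ⟨PeelP_c c d I 1 0 ρ, PeelP_OK hc d hI2 (fun h => absurd rfl h),
      PeelP_K L Y w k hE c hc hI2 le_rfl ht hρs (by omega) hsum,
      ?_, fun l hl => PeelP_ne c d I 1 0 ρ l hl, ?_, Or.inr ?_, ?_, ?_, ?_, ?_, Nat.sub_le _ _⟩
    · refine le_trans (PeelP_tr L hc d hI2 1 0 ρ) (Nat.add_le_add ?_ ?_)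
      · exact Nat.mul_le_mul_left _ (by omega)
      · rw [zero_mul, mul_zero]
        exact Nat.zero_le _
    · have h1 := PeelP_sz L hc d hI2 (le_refl 1) ht hρs
      rw [hsum] at h1
      exact h1
    · rw [hNeq]
      exact hcase
    · rw [hNeq]
      exact Multiset.card_le_card tsub_le_self
    · intro h
      rw [hNeq]
      exact hall h
    · intro h
      have hI0 : I = 0 := by
        rw [h] at hI2
        exact Multiset.le_zero.1 hI2
      refine ⟨?_, ?_⟩
      · rw [hNeq, h, hI0]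
        rfl
      · rw [PeelP_self, hI0]
        simp
    · rw [PeelP_self]
      exact le_trans hmapI (Multiset.le_add_right _ _)

end Pool.Agent.H18.Tk

end

section

/-!
# Module P2 (TK): one step, keeping the invariants

Adapt `step_inv` and `room_zero` in `Pool/Agent/H18/Tj/PhaseA.lean`.  Write `a = lo M`, `b = hi M`, `F = F (k + 1)`,
`d = dir (k + 1)`, `w = F / E + 1`; `E ≥ 2 cE L`, `F = P d (k + 1) ≥ cE L`, `cE L = 64 M (M + 1) (a + 1)^2 (b + 1)`.
* room: `2 M (F - tr) ≥ F ≥ 2 M w` (`top`);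
* availability: `nsz ≥ R (k + 1) - M ∑_l trT (Φ l) ≥ R - M ∑_l P l (k + 1) ≥ R - 2 M R / E ≥ R / 2` (`flT_le`, `hΛ`, `low`),
  and `R / 2 ≥ (E / 2) F ≥ (2 b + 1) F ≥ b (F + g0) + F` since `g0 = M (a + w) ≤ F`;
* new invariant in the direction `d`: `M tr' ≤ (M - 1) F + M (a + w) a`; `2 M (a + w) a ≤ F / 16`,
  `P d k ≥ (1 - 1 / E) F` (`slow`); in the other directions `Φ` is unchanged and `keep`;
* `4 M a card N' ≤ 4 M a M (a + w) ≤ F / 4 ≤ P d k`.
There is no upper bound of `P d k` in terms of `F` (distinguish the cases `F ≤ P d k` and `F > P d k`).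
-/

namespace Pool.Agent.H18.Tk

open Finset Function Pool.Agent.H18.Ex Pool.Agent.H18.Tj

variable {Λ : Type} [Fintype Λ] [DecidableEq Λ]

variable {M : ℕ} {L : Lens M} {Y : SysP Λ} {E kt : ℕ} {P : Λ → ℕ → ℕ}

/-- the numerical facts -/
private theorem StepP_num (M a b W F E : ℕ) (hM : 1 ≤ M) (ha : 1 ≤ a) (hb : 1 ≤ b)
    (hE : 2 * (64 * M * (M + 1) * (a + 1) ^ 2 * (b + 1)) ≤ E)
    (hF : 64 * M * (M + 1) * (a + 1) ^ 2 * (b + 1) ≤ F) (hW : W = F / E + 1) :
    4 * M * W ≤ F ∧ M * (a + W) ≤ F ∧ 64 * (M * ((a + W) * a)) ≤ F ∧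
      16 * (M * M * (a * (a + W))) ≤ F ∧ 2 * (M + 2 * b + 1) ≤ E ∧ 32 * (2 * M) ≤ E := by
  have hW1 : 1 ≤ W := by rw [hW]; exact Nat.le_add_left _ _
  have haW : a + W ≤ 2 * (a * W) := by nlinarith
  have hE1 : 64 * M * (M + 1) * (a + 1) ^ 2 * (b + 1) ≤ E := by omega
  have hWF : 32 * M * (M + 1) * (a + 1) ^ 2 * (b + 1) * W ≤ F := by
    have h1 : E * (F / E) ≤ F := Nat.mul_div_le F E
    have h2 : 64 * M * (M + 1) * (a + 1) ^ 2 * (b + 1) * (F / E) ≤ F :=
      (Nat.mul_le_mul_right _ hE1).trans h1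
    have h3 : 64 * M * (M + 1) * (a + 1) ^ 2 * (b + 1) * (F / E + 1) ≤ 2 * F := by
      rw [mul_add, mul_one]
      omega
    rw [← hW] at h3
    have h4 : 64 * M * (M + 1) * (a + 1) ^ 2 * (b + 1) * W =
        2 * (32 * M * (M + 1) * (a + 1) ^ 2 * (b + 1) * W) := by ring
    omega
  have ha2 : a ≤ (a + 1) ^ 2 := by nlinarith
  have ha3 : a * a ≤ (a + 1) ^ 2 := by nlinarith
  have ha4 : 1 ≤ (a + 1) ^ 2 := Nat.one_le_pow _ _ (Nat.succ_pos _)
  have hM1 : 1 ≤ M + 1 := Nat.le_add_left _ _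
  have hM2 : 2 ≤ M + 1 := by omega
  have hb1 : 1 ≤ b + 1 := Nat.le_add_left _ _
  have hb2 : 2 ≤ b + 1 := by omega
  refine ⟨?_, ?_, ?_, ?_, ?_, ?_⟩
  · refine le_trans ?_ hWF
    calc 4 * M * W = 4 * M * 1 * 1 * 1 * W := by ring
      _ ≤ 32 * M * (M + 1) * (a + 1) ^ 2 * (b + 1) * W := by
        gcongr
        norm_num
  · refine le_trans ?_ hWF
    calc M * (a + W) ≤ M * (2 * (a * W)) := Nat.mul_le_mul_left _ haW
      _ = 2 * M * 1 * a * 1 * W := by ring
      _ ≤ 32 * M * (M + 1) * (a + 1) ^ 2 * (b + 1) * W := by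
        gcongr
        norm_num
  · refine le_trans ?_ hWF
    calc 64 * (M * ((a + W) * a)) ≤ 64 * (M * ((2 * (a * W)) * a)) := by gcongr
      _ = 32 * M * 2 * (a * a) * 2 * W := by ring
      _ ≤ 32 * M * (M + 1) * (a + 1) ^ 2 * (b + 1) * W := by gcongr
  · refine le_trans ?_ hWF
    calc 16 * (M * M * (a * (a + W))) ≤ 16 * (M * M * (a * (2 * (a * W)))) := by gcongr
      _ = 32 * M * M * (a * a) * 1 * W := by ring
      _ ≤ 32 * M * (M + 1) * (a + 1) ^ 2 * (b + 1) * W := by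
        gcongr
        exact Nat.le_succ M
  · refine le_trans ?_ hE
    refine Nat.mul_le_mul_left 2 ?_
    have h1 : 64 * M * 2 * 1 * (b + 1) ≤ 64 * M * (M + 1) * (a + 1) ^ 2 * (b + 1) := by gcongr
    have h2 : b + 1 ≤ M * (b + 1) := Nat.le_mul_of_pos_left _ hM
    have h3 : M ≤ M * (b + 1) := Nat.le_mul_of_pos_right _ hb1
    have h4 : 64 * M * 2 * 1 * (b + 1) = 128 * (M * (b + 1)) := by ring
    omega
  · refine le_trans ?_ hE1
    calc 32 * (2 * M) = 64 * M * 1 * 1 * 1 := by ring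
      _ ≤ 64 * M * (M + 1) * (a + 1) ^ 2 * (b + 1) := by gcongr

private theorem StepP_all (H : NumP L Y E kt P) (k : ℕ) (hkt : k + 1 ≤ kt) :
    1 ≤ L.lo M ∧ 1 ≤ L.hi M ∧ 4 * M * (Y.F (k + 1) / E + 1) ≤ Y.F (k + 1) ∧
      M * (L.lo M + (Y.F (k + 1) / E + 1)) ≤ Y.F (k + 1) ∧
      64 * (M * ((L.lo M + (Y.F (k + 1) / E + 1)) * L.lo M)) ≤ Y.F (k + 1) ∧
      16 * (M * M * (L.lo M * (L.lo M + (Y.F (k + 1) / E + 1)))) ≤ Y.F (k + 1) ∧
      2 * (M + 2 * L.hi M + 1) ≤ E ∧ 32 * (2 * M) ≤ E := by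
  have ha := L.lo_pos H.hM le_rfl
  have hb := ha.trans (L.lo_le_hi M)
  have hE := H.hE
  have hF := H.floor (Y.dir (k + 1)) (k + 1) hkt
  rw [H.top k hkt] at hF
  unfold cE at hE hF
  exact ⟨ha, hb, StepP_num M (L.lo M) (L.hi M) _ _ E H.hM ha hb hE hF rfl⟩

/-- The forced conditions have at most half of the total length. -/
private theorem StepP_fl (H : NumP L Y E kt P) (k : ℕ) (hkt : k + 1 ≤ kt) (c : Cfg Λ)
    (hc : c.OK M) (htr : InvP L P (k + 1) c) :
    2 * ∑ l, flT L (c.Φ l) ≤ Y.R (k + 1) := by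
  obtain ⟨-, -, -, -, -, -, -, h6⟩ := StepP_all H k hkt
  have hM := H.hM
  have h1 : ∀ l, E * flT L (c.Φ l) ≤ M * Y.R (k + 1) := by
    intro l
    have e1 := flT_le L (c.Φ l) (hc.hΦ l)
    have e2 := htr l
    have e3 : trT L (c.Φ l) ≤ P l (k + 1) := by
      have e4 : 2 * M * trT L (c.Φ l) ≤ 2 * M * P l (k + 1) :=
        e2.trans (Nat.mul_le_mul_right _ (Nat.sub_le _ _))
      exact Nat.le_of_mul_le_mul_left e4 (by omega)
    have e5 := H.low l (k + 1) hkt
    calc E * flT L (c.Φ l) ≤ E * (M * P l (k + 1)) :=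
          Nat.mul_le_mul_left _ (e1.trans (Nat.mul_le_mul_left _ e3))
      _ = M * (E * P l (k + 1)) := by ring
      _ ≤ M * Y.R (k + 1) := Nat.mul_le_mul_left _ e5
  have h2 : E * ∑ l, flT L (c.Φ l) ≤ 2 * (M * Y.R (k + 1)) := by
    rw [Finset.mul_sum]
    refine (Finset.sum_le_card_nsmul univ _ (M * Y.R (k + 1)) fun l _ => h1 l).trans ?_
    rw [smul_eq_mul]
    exact Nat.mul_le_mul_right _ H.hΛ
  have h3 : 32 * (2 * M) * ∑ l, flT L (c.Φ l) ≤ E * ∑ l, flT L (c.Φ l) :=
    Nat.mul_le_mul_right _ h6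
  have h4 : 2 * M * (32 * ∑ l, flT L (c.Φ l)) ≤ 2 * M * Y.R (k + 1) := by
    have e1 : 2 * M * (32 * ∑ l, flT L (c.Φ l)) = 32 * (2 * M) * ∑ l, flT L (c.Φ l) := by ring
    have e2 : 2 * (M * Y.R (k + 1)) = 2 * M * Y.R (k + 1) := by ring
    omega
  have h5 := Nat.le_of_mul_le_mul_left h4 (by omega)
  omega

theorem step_invP (H : NumP L Y E kt P) (k : ℕ) (hkt : k + 1 ≤ kt) (c : Cfg Λ)
    (hc : c.OK M) (htr : InvP L P (k + 1) c)
    (hsz : Y.R (k + 1) ≤ szP L c) (I₀ : Multiset ℕ) (hI₀ : I₀ ≤ c.N)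
    (hroom : trT L (c.Φ (Y.dir (k + 1))) + (I₀.map L.lo).sum + (Y.F (k + 1) / E + 1) ≤
      Y.F (k + 1)) :
    ∃ c' : Cfg Λ, c'.OK M ∧ (Y.K k c' → Y.K (k + 1) c) ∧
      InvP L P k c' ∧ Y.R k ≤ szP L c' ∧
      szP L c' + Y.F (k + 1) = szP L c ∧
      (c'.s = c.s ∨ 4 * M * L.lo M * c'.N.card ≤ P (Y.dir (k + 1)) k) ∧
      (4 * M * L.lo M * c.N.card ≤ Y.F (k + 1) → c'.N = 0) ∧
      (c.N = 0 → c'.N = 0 ∧ c'.Φ (Y.dir (k + 1)) = shf (c.Φ (Y.dir (k + 1)))) ∧
      shf (c.Φ (Y.dir (k + 1))) + I₀.map (fun m => (m - 1, 1)) ≤ c'.Φ (Y.dir (k + 1)) ∧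
      (∀ l, l ≠ Y.dir (k + 1) → c'.Φ l = c.Φ l) ∧
      c'.N.card ≤ c.N.card ∧ c'.s ≤ c.s := by
  obtain ⟨ha, hb, h1, h2, h3, h4, h5, h6⟩ := StepP_all H k hkt
  have hM := H.hM
  have hslow := H.slow k hkt
  have hlow := H.low (Y.dir (k + 1)) (k + 1) hkt
  rw [H.top k hkt] at hlow
  have hcount := Y.count k
  have hfl := StepP_fl H k hkt c hc htr
  have hsz' : szP L c = nszP L c + ∑ l, flT L (c.Φ l) := rfl
  have hg0 : g0T L (Y.F (k + 1) / E + 1) = M * (L.lo M + (Y.F (k + 1) / E + 1)) := rfl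
  have htrd := htr (Y.dir (k + 1))
  rw [H.top k hkt] at htrd
  obtain ⟨w, hw⟩ : ∃ w, w = Y.F (k + 1) / E + 1 := ⟨_, rfl⟩
  rw [← hw] at h1 h2 h3 h4 hroom hg0
  obtain ⟨F', hF'⟩ : ∃ F', F' = Y.F (k + 1) := ⟨_, rfl⟩
  rw [← hF'] at h1 h2 h3 h4 hroom hslow hlow hcount htrd
  obtain ⟨F, hF⟩ : ∃ F, F = P (Y.dir (k + 1)) k := ⟨_, rfl⟩
  rw [← hF] at hslow
  have htr2 : 2 * M * trT L (c.Φ (Y.dir (k + 1))) + F' ≤ 2 * M * F' := by
    have e : (2 * M - 1) * F' + F' = 2 * M * F' := by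
      rw [← Nat.succ_mul]
      congr 1
      omega
    omega
  have hav : L.hi M * (Y.F (k + 1) + g0T L w) + Y.F (k + 1) ≤ nszP L c := by
    rw [← hF', hg0]
    have e1 : L.hi M * (F' + M * (L.lo M + w)) ≤ L.hi M * (2 * F') :=
      Nat.mul_le_mul_left _ (by omega)
    have e3 : 2 * (M + 2 * L.hi M + 1) * F' ≤ E * F' := Nat.mul_le_mul_right _ h5
    have e4 : 2 * (M + 2 * L.hi M + 1) * F' = 2 * (M * F' + L.hi M * (2 * F') + F') := by ring
    omega
  obtain ⟨c', hc', hK, htr', hΦl, hszc, hs, hNc, hN, hN0, hΦ, hss⟩ :=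
    peelP L hM Y w k (by rw [hw]; exact H.gd k hkt) c hc I₀ hI₀
      (by rw [← hF']; exact hroom) hav
  rw [← hF'] at htr' hszc hN ⊢
  rw [← hF]
  have hslow2 : F' ≤ 2 * F := by
    by_contra hlt
    push Not at hlt
    have e1 : 2 ≤ E := by omega
    have e2 : 2 * (F' - F) ≤ E * (F' - F) := Nat.mul_le_mul_right _ e1
    have e3 : E * (F' - F) = E * F' - E * F := Nat.mul_sub _ _ _
    omega
  refine ⟨c', hc', hK, ?_, ?_, hszc, ?_, ?_, hN0, hΦ, hΦl, hNc, hss⟩
  · intro l
    by_cases hl : l = Y.dir (k + 1)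
    · subst hl
      rw [← hF]
      obtain ⟨m, rfl⟩ : ∃ m, M = m + 1 := ⟨M - 1, by omega⟩
      have e5 : 2 * (m + 1) - 1 = 2 * m + 1 := by omega
      have e6 : m + 1 - 1 = m := by omega
      rw [e5]
      rw [e6] at htr'
      have e7 : 2 * (m + 1) * trT L (c'.Φ (Y.dir (k + 1))) =
          2 * ((m + 1) * trT L (c'.Φ (Y.dir (k + 1)))) := by ring
      rw [e7]
      rcases Nat.le_total F' F with hle | hle
      · have e1 : m * F' ≤ m * F := Nat.mul_le_mul_left _ hle
        have e2 : (2 * m + 1) * F = 2 * (m * F) + F := by ring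
        rw [e2]
        omega
      · have e1 : E * (F' - F) ≤ F' := by
          rw [Nat.mul_sub]
          omega
        have e2 : 32 * (2 * (m + 1)) * (F' - F) ≤ E * (F' - F) := Nat.mul_le_mul_right _ h6
        obtain ⟨d, hd⟩ : ∃ d, F' = F + d := ⟨F' - F, by omega⟩
        have hd' : F' - F = d := by omega
        rw [hd'] at e1 e2
        have e8 : 32 * (2 * (m + 1)) * d = 64 * (m * d) + 64 * d := by ring
        have e9 : m * F' = m * F + m * d := by rw [hd]; ring
        have e10 : (2 * m + 1) * F = 2 * (m * F) + F := by ring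
        rw [e10]
        omega
    · rw [hΦl l hl]
      exact (htr l).trans (Nat.mul_le_mul_left _ (H.keep l k hkt hl))
  · omega
  · rcases hs with h | h
    · exact Or.inl h
    · right
      rw [hg0] at h
      have e1 : 4 * M * L.lo M * c'.N.card ≤ 4 * M * L.lo M * (M * (L.lo M + w)) :=
        Nat.mul_le_mul_left _ h.le
      have e2 : 4 * (4 * M * L.lo M * (M * (L.lo M + w))) =
          16 * (M * M * (L.lo M * (L.lo M + w))) := by ring
      omega
  · intro h
    refine hN ?_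
    have e1 : 4 * M * L.lo M * c.N.card = 2 * (2 * M * (c.N.card * L.lo M)) := by ring
    have e2 : 4 * M * w = 2 * (2 * M * w) := by ring
    have e3 : 2 * M * (c.N.card * L.lo M + trT L (c.Φ (Y.dir (k + 1))) + w) ≤ 2 * M * F' := by
      rw [mul_add, mul_add]
      omega
    exact Nat.le_of_mul_le_mul_left e3 (by omega)

/-- The room for `I₀ = 0`. -/
theorem room_zeroP (H : NumP L Y E kt P) (k : ℕ) (hkt : k + 1 ≤ kt) (c : Cfg Λ)
    (htr : InvP L P (k + 1) c) :
    trT L (c.Φ (Y.dir (k + 1))) + (Y.F (k + 1) / E + 1) ≤ Y.F (k + 1) := by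
  obtain ⟨ha, hb, h1, h2, h3, h4, h5, h6⟩ := StepP_all H k hkt
  have hM := H.hM
  have htrd := htr (Y.dir (k + 1))
  rw [H.top k hkt] at htrd
  have e : (2 * M - 1) * Y.F (k + 1) + Y.F (k + 1) = 2 * M * Y.F (k + 1) := by
    rw [← Nat.succ_mul]
    congr 1
    omega
  have e2 : 4 * M * (Y.F (k + 1) / E + 1) = 2 * (2 * M * (Y.F (k + 1) / E + 1)) := by ring
  have e3 : 2 * M * (trT L (c.Φ (Y.dir (k + 1))) + (Y.F (k + 1) / E + 1)) ≤
      2 * M * Y.F (k + 1) := by
    rw [mul_add]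
    omega
  exact Nat.le_of_mul_le_mul_left e3 (by omega)

end Pool.Agent.H18.Tk

end

section

/-!
# Module P3a (TK): configurations with few points of multiplicity at least two

Compare `clean`, `few` in `Pool/Agent/H18/Tj/PhaseT.lean`.
* `cleanP`: induction on `k`, `step_invP` with `I₀ = 0`.  For `k = 0` (`ct _ _ 0 = 0`): `Φ = 0`, `N = 0`, so
  `s = szP ≥ R 0` and `Y.full`.  Step: `ct dir l (k + 1) = ct dir l k` for `l ≠ d` and `ct dir d (k + 1) = ct dir d k + 1`,
  `Function.iterate_succ_apply`.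
* `fewP`: induction on `k`; if `dir k = l` (`k = k' + 1`), the step gives `N = 0` (`top`), then `cleanP` at the state `k' ≥ j0`:
  `shf^[ct l' k'] = 0` as `ct l' k' ≥ ct l' j0 ≥ M` (`shf_iterate`).  Otherwise the step gives a configuration with at most
  as many points (`keep`: `P l k ≤ P l k'`), and `ct l k' = ct l k > ct l j0`, in particular `k' ≥ j0`.
  (`k = j0` is impossible by `hct`.)
-/

namespace Pool.Agent.H18.Tk

open Finset Function Pool.Agent.H18.Ex Pool.Agent.H18.Tj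

theorem ct_succ {Λ : Type} [DecidableEq Λ] (dir : ℕ → Λ) (l : Λ) (j : ℕ) :
    ct dir l (j + 1) = ct dir l j + if dir (j + 1) = l then 1 else 0 := by
  unfold ct
  rw [Finset.range_add_one, Finset.filter_insert]
  split_ifs with h
  · rw [Finset.card_insert_of_notMem]
    simp
  · simp

theorem ct_mono {Λ : Type} [DecidableEq Λ] (dir : ℕ → Λ) (l : Λ) {i j : ℕ} (h : i ≤ j) :
    ct dir l i ≤ ct dir l j := by
  unfold ct
  exact Finset.card_le_card (Finset.filter_subset_filter _ (Finset.range_subset_range.2 h))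

variable {Λ : Type} [Fintype Λ] [DecidableEq Λ]

variable {M : ℕ} {L : Lens M} {Y : SysP Λ} {E kt : ℕ} {P : Λ → ℕ → ℕ}

private theorem EndP_step0 (H : NumP L Y E kt P) (k : ℕ) (hkt : k + 1 ≤ kt) (c : Cfg Λ)
    (hc : c.OK M) (htr : InvP L P (k + 1) c) (hsz : Y.R (k + 1) ≤ szP L c) :
    ∃ c' : Cfg Λ, c'.OK M ∧ (Y.K k c' → Y.K (k + 1) c) ∧
      InvP L P k c' ∧ Y.R k ≤ szP L c' ∧
      (4 * M * L.lo M * c.N.card ≤ Y.F (k + 1) → c'.N = 0) ∧
      (c.N = 0 → c'.N = 0 ∧ c'.Φ (Y.dir (k + 1)) = shf (c.Φ (Y.dir (k + 1)))) ∧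
      (∀ l, l ≠ Y.dir (k + 1) → c'.Φ l = c.Φ l) ∧ c'.N.card ≤ c.N.card := by
  obtain ⟨c', h1, h2, h3, h4, -, -, h7, h8, -, h10, h11, -⟩ :=
    step_invP H k hkt c hc htr hsz 0 (Multiset.zero_le _)
      (by simpa using room_zeroP H k hkt c htr)
  exact ⟨c', h1, h2, h3, h4, h7, h8, h10, h11⟩

private theorem EndP_shf_zero : shf 0 = 0 := rfl

private theorem EndP_iter_zero (r : ℕ) : shf^[r] 0 = 0 := by
  induction r with
  | zero => rfl
  | succ r ih => rw [Function.iterate_succ_apply, EndP_shf_zero, ih]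

private theorem EndP_iter {S : Multiset (ℕ × ℕ)}
    (hS : ∀ x ∈ S, 1 ≤ x.2 ∧ x.2 ≤ 2 ∧ x.2 ≤ x.1 ∧ x.1 ≤ M) {r : ℕ} (hr : M ≤ r) :
    shf^[r] S = 0 := by
  obtain ⟨t, rfl⟩ := Nat.exists_eq_add_of_le' hr
  rw [Function.iterate_add_apply, shf_iterate hS, EndP_iter_zero]

theorem cleanP (H : NumP L Y E kt P) : ∀ k, k ≤ kt → ∀ c : Cfg Λ, c.OK M → c.N = 0 →
    (∀ l, shf^[ct Y.dir l k] (c.Φ l) = 0) → InvP L P k c → Y.R k ≤ szP L c → Y.K k c := by
  intro k
  induction k with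
  | zero =>
    intro _ c _ hN hΦ _ hsz
    have hΦ' : ∀ l, c.Φ l = 0 := by
      intro l
      have h := hΦ l
      have h0 : ct Y.dir l 0 = 0 := by simp [ct]
      rw [h0] at h
      simpa using h
    have hs : szP L c = c.s := by
      unfold szP nszP
      rw [hN, Finset.sum_eq_zero (fun l _ => by rw [hΦ' l]; simp [flT])]
      simp
    rw [hs] at hsz
    refine Y.full 0 c.N c.s c.Φ (by simp [hN]) ?_
    omega
  | succ k ih =>
    intro hkt c hc hN hΦ htr hsz
    obtain ⟨c', h1, h2, h3, h4, -, h8, h10, -⟩ := EndP_step0 H k hkt c hc htr hsz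
    obtain ⟨hN', hΦ'⟩ := h8 hN
    refine h2 (ih (by omega) c' h1 hN' ?_ h3 h4)
    intro l
    have h := hΦ l
    rw [ct_succ] at h
    by_cases hl : l = Y.dir (k + 1)
    · subst hl
      rw [if_pos rfl, Function.iterate_succ_apply] at h
      rw [hΦ']
      exact h
    · rw [if_neg (fun h' => hl h'.symm), Nat.add_zero] at h
      rw [h10 l hl]
      exact h

theorem fewP (H : NumP L Y E kt P) (j0 : ℕ) (hj0 : ∀ l, M ≤ ct Y.dir l j0) (l : Λ) :
    ∀ k, j0 ≤ k → k ≤ kt → ct Y.dir l j0 < ct Y.dir l k → ∀ c : Cfg Λ, c.OK M →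
      InvP L P k c → Y.R k ≤ szP L c → 4 * M * L.lo M * c.N.card ≤ P l k → Y.K k c := by
  intro k
  induction k with
  | zero =>
    intro _ _ hct
    have h0 : ct Y.dir l 0 = 0 := by simp [ct]
    omega
  | succ k ih =>
    intro hk hkt hct c hc htr hsz hN
    have hjk : j0 ≤ k := by
      by_contra hcon
      have h : j0 = k + 1 := by omega
      rw [h] at hct
      exact lt_irrefl _ hct
    obtain ⟨c', h1, h2, h3, h4, h7, -, -, h11⟩ := EndP_step0 H k hkt c hc htr hsz
    refine h2 ?_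
    by_cases hl : Y.dir (k + 1) = l
    · have hF : 4 * M * L.lo M * c.N.card ≤ Y.F (k + 1) := by
        rw [← H.top k hkt, hl]
        exact hN
      refine cleanP H k (by omega) c' h1 (h7 hF) ?_ h3 h4
      intro l'
      exact EndP_iter (h1.hΦ l') ((hj0 l').trans (ct_mono Y.dir l' hjk))
    · rw [ct_succ, if_neg hl, Nat.add_zero] at hct
      refine ih hjk (by omega) hct c' h1 h3 h4 ?_
      calc 4 * M * L.lo M * c'.N.card ≤ 4 * M * L.lo M * c.N.card := Nat.mul_le_mul_left _ h11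
        _ ≤ P l (k + 1) := hN
        _ ≤ P l k := H.keep l k hkt (fun h => hl h.symm)

end Pool.Agent.H18.Tk

end

section

/-!
# Module P3b (TK): the two endings

Compare `endA`, `endB` in `Pool/Agent/H18/Tj/PhaseT.lean`.
* `endAP`: induction on `k` from `jE`; for `k = jE` the hypothesis `hs` says `szP < s`, impossible.  Otherwise one step
  (`I₀ = 0`) from `k + 1` to `k ≥ jE`; either `s` is unchanged and the induction hypothesis applies (`Y.count`), or
  `4 M a card N' ≤ P (dir (k + 1)) k` and `fewP` with `l = dir (k + 1)` applies at the state `k ≥ jE` (`ct_mono`).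
* `endBP`: induction on `k` from `jE`; for `k = jE`:
  `b (card N + s) ≥ nszP ≥ szP - M ∑_l trT (Φ l) ≥ R + (b + 2 M) R - 2 M R ≥ b R` (`InvP`, `P l k ≤ R k` by `low` and
  `E ≥ 1`, `hΛ`), so `card N + s ≥ R` (`Y.full`; `b = L.hi M ≥ 1`).  Step: the surplus is unchanged.
-/

namespace Pool.Agent.H18.Tk

open Finset Function Pool.Agent.H18.Ex Pool.Agent.H18.Tj

variable {Λ : Type} [Fintype Λ] [DecidableEq Λ]

variable {M : ℕ} {L : Lens M} {Y : SysP Λ} {E kt : ℕ} {P : Λ → ℕ → ℕ}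

theorem endAP (H : NumP L Y E kt P) (j0 jE : ℕ) (hj : j0 ≤ jE) (hj0 : ∀ l, M ≤ ct Y.dir l j0)
    (hjE : ∀ l, ct Y.dir l j0 < ct Y.dir l jE) :
    ∀ k, jE ≤ k → k ≤ kt → ∀ c : Cfg Λ, c.OK M → InvP L P k c → Y.R k ≤ szP L c →
      szP L c + Y.R jE < c.s + Y.R k → Y.K k c := by
  intro k hk
  induction k, hk using Nat.le_induction with
  | base =>
    intro _ c _ _ _ hs
    exfalso
    have h : c.s ≤ szP L c := by
      unfold szP nszP
      omega
    omega
  | succ k hk ih =>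
    intro hkt c hc hinv hsz hs
    have hroom := room_zeroP H k hkt c hinv
    obtain ⟨c', h1, h2, h3, h4, h5, h6, -, -, -, -, -, -⟩ :=
      step_invP H k hkt c hc hinv hsz 0 (Multiset.zero_le _) (by simpa using hroom)
    have hcount := Y.count k
    rcases h6 with h6 | h6
    · exact h2 (ih (by omega) c' h1 h3 h4 (by omega))
    · refine h2 (fewP H j0 hj0 (Y.dir (k + 1)) k (by omega) (by omega) ?_ c' h1 h3 h4 h6)
      exact lt_of_lt_of_le (hjE _) (ct_mono Y.dir _ hk)

theorem endBP (H : NumP L Y E kt P) (jE : ℕ) :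
    ∀ k, jE ≤ k → k ≤ kt → ∀ c : Cfg Λ, c.OK M → InvP L P k c →
      Y.R k + (L.hi M + 2 * M) * Y.R jE ≤ szP L c → Y.K k c := by
  intro k hk
  induction k, hk using Nat.le_induction with
  | base =>
    intro hkt c hc hinv hsz
    refine Y.full jE c.N c.s c.Φ (fun m hm => le_trans (by norm_num) (hc.hN m hm).1) ?_
    have hM := H.hM
    have hb : 1 ≤ L.hi M := L.hi_pos hM
    have hE1 : 1 ≤ E := by
      refine le_trans ?_ H.hE
      have h0 : 0 < cE L := by
        unfold cE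
        positivity
      omega
    have hfl : ∀ l, flT L (c.Φ l) ≤ M * Y.R jE := by
      intro l
      have hPR : P l jE ≤ Y.R jE :=
        le_trans (Nat.le_mul_of_pos_left _ hE1) (H.low l jE hkt)
      have hT : trT L (c.Φ l) ≤ P l jE := by
        have h1 : (2 * M) * trT L (c.Φ l) ≤ (2 * M) * P l jE :=
          le_trans (hinv l) (Nat.mul_le_mul_right _ (Nat.sub_le _ _))
        exact Nat.le_of_mul_le_mul_left h1 (by omega)
      exact le_trans (flT_le L (c.Φ l) (hc.hΦ l)) (Nat.mul_le_mul_left _ (hT.trans hPR))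
    have hflsum : ∑ l, flT L (c.Φ l) ≤ 2 * M * Y.R jE := by
      have h1 : ∑ l, flT L (c.Φ l) ≤ (Finset.univ : Finset Λ).card • (M * Y.R jE) :=
        Finset.sum_le_card_nsmul _ _ _ fun l _ => hfl l
      rw [Finset.card_univ, smul_eq_mul] at h1
      have h2 : Fintype.card Λ * (M * Y.R jE) ≤ 2 * (M * Y.R jE) :=
        Nat.mul_le_mul_right _ H.hΛ
      rw [mul_assoc]
      exact h1.trans h2
    have hN : (c.N.map L.hi).sum ≤ L.hi M * c.N.card := by
      have h1 : (c.N.map L.hi).sum ≤ (c.N.map L.hi).card • L.hi M := by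
        refine Multiset.sum_le_card_nsmul _ _ ?_
        intro x hx
        obtain ⟨m, hm, rfl⟩ := Multiset.mem_map.1 hx
        exact L.hi_mono (hc.hN m hm).2
      rw [Multiset.card_map, smul_eq_mul, mul_comm] at h1
      exact h1
    have hsum : Y.R jE + (L.hi M + 2 * M) * Y.R jE ≤
        L.hi M * c.N.card + c.s + 2 * M * Y.R jE := by
      refine le_trans hsz ?_
      unfold szP nszP
      omega
    have h2 : L.hi M * Y.R jE ≤ L.hi M * (c.N.card + c.s) := by
      have h3 : c.s ≤ L.hi M * c.s := Nat.le_mul_of_pos_left _ hb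
      nlinarith
    exact Nat.le_of_mul_le_mul_left h2 hb
  | succ k hk ih =>
    intro hkt c hc hinv hsz
    have hsz1 : Y.R (k + 1) ≤ szP L c := le_trans (Nat.le_add_right _ _) hsz
    have hroom := room_zeroP H k hkt c hinv
    obtain ⟨c', h1, h2, h3, h4, h5, -, -, -, -, -, -, -⟩ :=
      step_invP H k hkt c hc hinv hsz1 0 (Multiset.zero_le _) (by simpa using hroom)
    have hcount := Y.count k
    exact h2 (ih (by omega) c' h1 h3 (by omega))

end Pool.Agent.H18.Tk

end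

section

/-!
# Module P4a (TK): near-exactness

As `of_multiset`, `near_of_num` in `Pool/Agent/H18/Tj/MainA.lean`.
-/

namespace Pool.Agent.H18.Tk

open Finset Function Pool.Agent.H18.Ex Pool.Agent.H18.Tj

variable {Λ : Type} [Fintype Λ] [DecidableEq Λ]

variable {M : ℕ} {L : Lens M} {Y : SysP Λ} {E kt : ℕ} {P : Λ → ℕ → ℕ}

private theorem MainPA_split (S : Multiset ℕ) :
    S = (S.filter fun m => 2 ≤ m) + Multiset.replicate (S.count 1) 1 +
      Multiset.replicate (S.count 0) 0 := by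
  ext a
  simp only [Multiset.count_add, Multiset.count_filter, Multiset.count_replicate]
  rcases Nat.lt_or_ge a 2 with h | h
  · interval_cases a <;> simp
  · rw [if_pos h, if_neg (by omega), if_neg (by omega)]
    omega

private theorem MainPA_sum (L : Lens M) (S : Multiset ℕ) :
    (S.map L.hi).sum = ((S.filter fun m => 2 ≤ m).map L.hi).sum + S.count 1 := by
  have h := congrArg (fun T : Multiset ℕ => (T.map L.hi).sum) (MainPA_split S)
  simp only [Multiset.map_add, Multiset.sum_add, Multiset.map_replicate,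
    Multiset.sum_replicate, L.hi_one, L.hi_zero, smul_eq_mul, mul_one, mul_zero, add_zero] at h
  exact h

private theorem MainPA_le (S : Multiset ℕ) :
    (S.filter fun m => 2 ≤ m) + Multiset.replicate (S.count 1) 1 ≤ S := by
  conv_rhs => rw [MainPA_split S]
  exact Multiset.le_add_right _ _

omit [Fintype Λ] in
private theorem MainPA_one (Y : SysP Λ) (k : ℕ) (N : Multiset ℕ) (Φ : Λ → Multiset (ℕ × ℕ))
    (n : ℕ) : ∀ x, Y.K k ⟨N, x + n, Φ⟩ → Y.K k ⟨N + Multiset.replicate n 1, x, Φ⟩ := by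
  induction n with
  | zero =>
    intro x h
    simpa using h
  | succ n ih =>
    intro x h
    have h1 := ih (x + 1) (by rwa [show x + 1 + n = x + (n + 1) by omega])
    have h2 := Y.one k _ x Φ h1
    rwa [Multiset.replicate_succ, Multiset.add_cons]

theorem of_multisetP (L : Lens M) (Y : SysP Λ) (k : ℕ) (S : Multiset ℕ) (hS : ∀ m ∈ S, m ≤ M)
    (x : ℕ) : ∃ c : Cfg Λ, c.OK M ∧ (c.Φ = fun _ => 0) ∧ x ≤ c.s ∧
      szP L c = (S.map L.hi).sum + x ∧ (Y.K k c → Y.K k ⟨S, x, fun _ => 0⟩) := by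
  refine ⟨⟨S.filter fun m => 2 ≤ m, x + S.count 1, fun _ => 0⟩, ⟨?_, ?_⟩, rfl,
    Nat.le_add_right _ _, ?_, ?_⟩
  · intro m hm
    have hm' := Multiset.mem_filter.1 hm
    exact ⟨hm'.2, hS m hm'.1⟩
  · intro l y hy
    exact absurd hy (Multiset.notMem_zero y)
  · have h1 := MainPA_sum L S
    have h2 : flT L (0 : Multiset (ℕ × ℕ)) = 0 := by simp [flT]
    unfold szP nszP
    simp only [h2, Finset.sum_const_zero, add_zero]
    rw [h1]
    omega
  · intro h
    have h1 := MainPA_one Y k (S.filter fun m => 2 ≤ m) (fun _ => 0) (S.count 1) x h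
    refine Y.mono k ⟨(S.filter fun m => 2 ≤ m) + Multiset.replicate (S.count 1) 1, x, fun _ => 0⟩
      ⟨S, x, fun _ => 0⟩ (MainPA_le S) le_rfl (fun _ => le_rfl) h1

theorem near_of_path (H : NumP L Y E kt P) (j0 jE : ℕ) (hj : j0 ≤ jE) (hkt : jE ≤ kt)
    (hj0 : ∀ l, M ≤ ct Y.dir l j0) (hjE : ∀ l, ct Y.dir l j0 < ct Y.dir l jE) (S : Multiset ℕ)
    (hS : ∀ m ∈ S, m ≤ M) (x : ℕ) (hx : Y.R jE + L.hi M + 1 ≤ x)
    (hsum : Y.R kt ≤ (S.map L.hi).sum + x) : Y.K kt ⟨S, x, fun _ => 0⟩ := by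
  by_cases hR : Y.R kt ≤ x
  · have h1 : Y.K kt ⟨0, x, fun _ => 0⟩ :=
      Y.full kt 0 x (fun _ => 0) (fun m hm => absurd hm (Multiset.notMem_zero m)) (by simpa using hR)
    exact Y.mono kt ⟨0, x, fun _ => 0⟩ ⟨S, x, fun _ => 0⟩ (Multiset.zero_le _) le_rfl
      (fun _ => le_rfl) h1
  · push Not at hR
    obtain ⟨S₁, hS₁, h1, h2, -⟩ := exists_drop L.hi (L.hi M) (Y.R kt - x) S
      (fun m hm => L.hi_mono (hS m hm)) (by omega)
    obtain ⟨c, hc, hcΦ, hcs, hcsz, hcK⟩ := of_multisetP L Y kt S₁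
      (fun m hm => hS m (Multiset.mem_of_le hS₁ hm)) x
    have h3 : Y.K kt c := by
      refine endAP H j0 jE hj hj0 hjE kt hkt le_rfl c hc ?_ ?_ ?_
      · intro l
        rw [hcΦ]
        simp [trT]
      · rw [hcsz]
        omega
      · rw [hcsz]
        omega
    exact Y.mono kt ⟨S₁, x, fun _ => 0⟩ ⟨S, x, fun _ => 0⟩ hS₁ le_rfl (fun _ => le_rfl) (hcK h3)

end Pool.Agent.H18.Tk

end
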