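import Pool.Agent.H94.LP3.H18.Cub.CremL
import Pool.Agent.H94.LP3.H18.Pr.CremR
import Pool.Agent.H94.LP3.H18.Tj.FinalT

/-! The parts of this file: H18.Tj.GeoA, H18.Tj.GeoT, H18.Tl.CntP, H18.Ub.VDim_2. -/

section

/-!
# Module G1a (TJ), `toric_ge`:: the dimension of the fat point systems

`bw r d s b`: width `b l` at the coordinates `l < s`, width `d` at the others.

`upper`: as `Geo_special` in `Pool/Agent/H18/Ta/Geo.lean` and `exists_special` in `Pool/Agent/H18/Ex/Final.lean`:
`p₀ (J l)` is the coordinate point `Pi.single l 1` (`l < s`), the other `p₀ i` and the `N - L` simple points are the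
positions given by `GM_iff`; the forms are supported in `Rg d w` (`vanishes_coord_iff`); `general_finrank_le`.

`toric_ge` (for arbitrary positions): the conditions `Kind.free m` on the functions supported in `Rg d w`, `m ≤ d`
(`m - 1 < d` suffices), follow from the conditions with `|b| = m - 1`, `b ≤ w`, of which there are `Lx w m`:
for `|b| < d` the Euler relation `(d - |b|) D_b = ∑_j (b_j + 1) q_j D_{b + e_j}`, `D_b = ∑_a f a * tcr q a b`
(`binom (a_j, b_j) (a_j - b_j) = (b_j + 1) binom (a_j, b_j + 1)`, `∑_j (a_j - b_j) = d - |b|`), gives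
`D_b = 0` for all `|b| < m` by descending induction on `|b|`; and `D_b = 0` if some `b_j > w_j` (`binom (a_j, b_j) = 0`).
So the space of solutions has dimension at least `card - ∑ Lx w (m i)` (rank-nullity).

`lower`: for general `p` the points `p (J l)` and the coordinate points `e_l`, `s ≤ l ≤ r`, are linearly independent
(the determinant is a nonzero polynomial, see `general_det` in `Pool/Agent/H18/TileFinal.lean`); `finrank_linear`
(`Pool/Agent/H18/Cub/CremL.lean`; or `finrank_linSubst`) moves `p (J l)` to `e_l`; then `toric_ge` for the images of the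
other points, and the polynomials with coefficients in the space of solutions are in `fatForms`
(`finrank_coord_ge` in `TileFinal.lean` shows how to construct the injection; `vanishes_coord_iff`).
-/

namespace Pool.Agent.H18.Tj

open Finset Function Pool.Agent.H18.Ex

/-- one factor of `tcr` -/
private noncomputable def GeoA_fac {ι : Type} (q : ι → ℂ) (a : ι → ℕ) (i : ι) (n : ℕ) : ℂ :=
  (((a i).choose n : ℕ) : ℂ) * q i ^ (a i - n)

private theorem GeoA_fac_succ {ι : Type} (q : ι → ℂ) (a : ι → ℕ) (i : ι) (n : ℕ) :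
    ((a i : ℂ) - n) * GeoA_fac q a i n = (n + 1) * q i * GeoA_fac q a i (n + 1) := by
  unfold GeoA_fac
  rcases Nat.lt_or_ge n (a i) with h | h
  · have h1 : (((a i).choose (n + 1) : ℕ) : ℂ) * (n + 1) = ((a i).choose n : ℕ) * ((a i : ℂ) - n) := by
      have h2 := Nat.choose_succ_right_eq (a i) n
      have h3 : ((((a i).choose (n + 1) * (n + 1) : ℕ)) : ℂ) = (((a i).choose n * (a i - n) : ℕ) : ℂ) := by
        rw [h2]
      rw [Nat.cast_mul, Nat.cast_mul, Nat.cast_sub h.le] at h3
      push_cast at h3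
      exact h3
    have h4 : a i - n = (a i - (n + 1)) + 1 := by omega
    rw [h4, pow_succ]
    linear_combination (-(q i ^ (a i - (n + 1)) * q i)) * h1
  · rw [Nat.choose_eq_zero_of_lt (show a i < n + 1 by omega)]
    rcases Nat.lt_or_ge (a i) n with h5 | h5
    · rw [Nat.choose_eq_zero_of_lt h5]
      simp
    · have h6 : a i = n := le_antisymm h h5
      rw [h6]
      simp

private theorem GeoA_tcr {ι : Type} [Fintype ι] (q : ι → ℂ) (a b : ι → ℕ) :
    tcr q a b = ∏ i, GeoA_fac q a i (b i) := rfl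

private theorem GeoA_euler {ι : Type} [Fintype ι] [DecidableEq ι] (q : ι → ℂ) (a b : ι → ℕ) :
    (∑ j, ((a j : ℂ) - b j)) * tcr q a b =
      ∑ j, ((b j : ℂ) + 1) * q j * tcr q a (Function.update b j (b j + 1)) := by
  rw [Finset.sum_mul]
  refine Finset.sum_congr rfl fun j _ => ?_
  rw [GeoA_tcr, GeoA_tcr, ← Finset.mul_prod_erase Finset.univ _ (Finset.mem_univ j),
    ← Finset.mul_prod_erase Finset.univ (fun i => GeoA_fac q a i (Function.update b j (b j + 1) i))
      (Finset.mem_univ j)]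
  have h1 : ∏ i ∈ Finset.univ.erase j, GeoA_fac q a i (Function.update b j (b j + 1) i) =
      ∏ i ∈ Finset.univ.erase j, GeoA_fac q a i (b i) := by
    refine Finset.prod_congr rfl fun i hi => ?_
    rw [Function.update_of_ne (Finset.ne_of_mem_erase hi)]
  rw [h1, Function.update_self, ← mul_assoc, GeoA_fac_succ, ← mul_assoc]

private theorem GeoA_zero {ι : Type} [Fintype ι] (q : ι → ℂ) (a b : ι → ℕ) (j : ι)
    (h : a j < b j) : tcr q a b = 0 := by
  rw [GeoA_tcr]
  refine Finset.prod_eq_zero (Finset.mem_univ j) ?_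
  unfold GeoA_fac
  rw [Nat.choose_eq_zero_of_lt h]
  simp

private theorem GeoA_sum_update {ι : Type} [Fintype ι] [DecidableEq ι] (b : ι → ℕ) (j : ι) :
    ∑ i, Function.update b j (b j + 1) i = ∑ i, b i + 1 := by
  rw [Finset.sum_update_of_mem (Finset.mem_univ j), Finset.sdiff_singleton_eq_erase,
    ← Finset.add_sum_erase Finset.univ b (Finset.mem_univ j)]
  ring

private theorem GeoA_desc {ι : Type} [Fintype ι] [DecidableEq ι] (d : ℕ) (w : ι → ℕ) (m : ℕ)
    (hm : m ≤ d) (q : ι → ℂ) (f : {a // a ∈ Rg d w} → ℂ)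
    (h : ∀ b : ι → ℕ, b ∈ Rg (m - 1) w → ∑ a : {a // a ∈ Rg d w}, f a * tcr q a.1 b = 0) :
    ∀ n : ℕ, ∀ b : ι → ℕ, ∑ j, b j + 1 + n = m →
      ∑ a : {a // a ∈ Rg d w}, f a * tcr q a.1 b = 0 := by
  intro n
  induction n with
  | zero =>
    intro b hb
    by_cases hw : ∀ i, b i ≤ w i
    · exact h b (mem_Rg.2 ⟨hw, by omega⟩)
    · push Not at hw
      obtain ⟨j, hj⟩ := hw
      refine Finset.sum_eq_zero fun a _ => ?_
      have h1 := (mem_Rg.1 a.2).1 j
      rw [GeoA_zero q a.1 b j (by omega), mul_zero]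
  | succ n ih =>
    intro b hb
    have h1 : ((d : ℂ) - ((∑ j, b j : ℕ) : ℂ)) * ∑ a : {a // a ∈ Rg d w}, f a * tcr q a.1 b = 0 := by
      calc ((d : ℂ) - ((∑ j, b j : ℕ) : ℂ)) * ∑ a : {a // a ∈ Rg d w}, f a * tcr q a.1 b
          = ∑ a : {a // a ∈ Rg d w}, f a * ((∑ j, ((a.1 j : ℂ) - b j)) * tcr q a.1 b) := by
            rw [Finset.mul_sum]
            refine Finset.sum_congr rfl fun a _ => ?_
            have h2 := (mem_Rg.1 a.2).2
            have h3 : (∑ j, ((a.1 j : ℂ) - b j)) = (d : ℂ) - ((∑ j, b j : ℕ) : ℂ) := by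
              have h4 : ((∑ i, a.1 i : ℕ) : ℂ) = (d : ℂ) := by rw [h2]
              rw [Finset.sum_sub_distrib, ← h4]
              push_cast
              rfl
            rw [h3]
            ring
        _ = ∑ a : {a // a ∈ Rg d w}, ∑ j, ((b j : ℂ) + 1) * q j *
              (f a * tcr q a.1 (Function.update b j (b j + 1))) := by
            refine Finset.sum_congr rfl fun a _ => ?_
            rw [GeoA_euler, Finset.mul_sum]
            refine Finset.sum_congr rfl fun j _ => ?_
            ring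
        _ = ∑ j, ((b j : ℂ) + 1) * q j *
              ∑ a : {a // a ∈ Rg d w}, f a * tcr q a.1 (Function.update b j (b j + 1)) := by
            rw [Finset.sum_comm]
            refine Finset.sum_congr rfl fun j _ => ?_
            rw [Finset.mul_sum]
        _ = 0 := by
            refine Finset.sum_eq_zero fun j _ => ?_
            rw [ih (Function.update b j (b j + 1)) (by rw [GeoA_sum_update]; omega), mul_zero]
    have h2 : ((d : ℂ) - ((∑ j, b j : ℕ) : ℂ)) ≠ 0 := by
      rw [sub_ne_zero]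
      intro h3
      have h4 : d = ∑ j, b j := by exact_mod_cast h3
      omega
    exact (mul_eq_zero.1 h1).resolve_left h2

theorem toric_ge {ι : Type} [Fintype ι] [DecidableEq ι] {κ : Type} [Fintype κ] (d : ℕ)
    (w : ι → ℕ) (m : κ → ℕ) (hm : ∀ i, m i ≤ d) (pos : κ → ι → ℂ) :
    ∃ V : Submodule ℂ ({a // a ∈ Rg d w} → ℂ),
      (Rg d w).card ≤ Module.finrank ℂ V + ∑ i, Lx w (m i) ∧
      ∀ f ∈ V, ∀ i (b : ι → ℕ), ∑ j, b j < m i →
        ∑ a : {a // a ∈ Rg d w}, f a * tcr (pos i) a.1 b = 0 := by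
  classical
  set B : κ → Finset (ι → ℕ) := fun i => if m i = 0 then ∅ else Rg (m i - 1) w with hB
  set T : ({a // a ∈ Rg d w} → ℂ) →ₗ[ℂ] ((Σ i : κ, {b // b ∈ B i}) → ℂ) :=
    LinearMap.pi fun x => fnl (Rg d w) (fun a => tcr (pos x.1) a x.2.1) with hT
  have hBc : ∀ i, (B i).card = Lx w (m i) := by
    intro i
    rw [hB]
    unfold Lx
    by_cases h0 : m i = 0
    · simp [h0]
    · simp [h0]
  refine ⟨LinearMap.ker T, ?_, ?_⟩
  · have h1 := LinearMap.finrank_range_add_finrank_ker T
    rw [Module.finrank_fintype_fun_eq_card, Fintype.card_coe] at h1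
    have h2 : Module.finrank ℂ (LinearMap.range T) ≤ ∑ i, Lx w (m i) := by
      calc Module.finrank ℂ (LinearMap.range T)
          ≤ Module.finrank ℂ ((Σ i : κ, {b // b ∈ B i}) → ℂ) := Submodule.finrank_le _
        _ = ∑ i, Lx w (m i) := by
            rw [Module.finrank_fintype_fun_eq_card, Fintype.card_sigma]
            refine Finset.sum_congr rfl fun i _ => ?_
            rw [Fintype.card_coe, hBc]
    omega
  · intro f hf i b hb
    rw [LinearMap.mem_ker] at hf
    have hmi : m i ≠ 0 := by omega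
    have h1 : ∀ b' : ι → ℕ, b' ∈ Rg (m i - 1) w →
        ∑ a : {a // a ∈ Rg d w}, f a * tcr (pos i) a.1 b' = 0 := by
      intro b' hb'
      have hb2 : b' ∈ B i := by
        rw [hB]
        simp only [hmi, if_false]
        exact hb'
      have h2 := congrFun hf ⟨i, ⟨b', hb2⟩⟩
      rw [hT] at h2
      simp only [LinearMap.pi_apply, Pi.zero_apply, fnl_apply] at h2
      exact h2
    exact GeoA_desc d w (m i) (hm i) (pos i) f h1 (m i - 1 - ∑ j, b j) b (by omega)

end Pool.Agent.H18.Tj

end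

section

/-!
# Module G1c (TJ), `lower`:: the dimension of the fat point systems

`bw r d s b`: width `b l` at the coordinates `l < s`, width `d` at the others.

`upper`: as `Geo_special` in `Pool/Agent/H18/Ta/Geo.lean` and `exists_special` in `Pool/Agent/H18/Ex/Final.lean`:
`p₀ (J l)` is the coordinate point `Pi.single l 1` (`l < s`), the other `p₀ i` and the `N - L` simple points are the
positions given by `GM_iff`; the forms are supported in `Rg d w` (`vanishes_coord_iff`); `general_finrank_le`.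

`toric_ge` (for arbitrary positions): the conditions `Kind.free m` on the functions supported in `Rg d w`, `m ≤ d`
(`m - 1 < d` suffices), follow from the conditions with `|b| = m - 1`, `b ≤ w`, of which there are `Lx w m`:
for `|b| < d` the Euler relation `(d - |b|) D_b = ∑_j (b_j + 1) q_j D_{b + e_j}`, `D_b = ∑_a f a * tcr q a b`
(`binom (a_j, b_j) (a_j - b_j) = (b_j + 1) binom (a_j, b_j + 1)`, `∑_j (a_j - b_j) = d - |b|`), gives
`D_b = 0` for all `|b| < m` by descending induction on `|b|`; and `D_b = 0` if some `b_j > w_j` (`binom (a_j, b_j) = 0`).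
So the space of solutions has dimension at least `card - ∑ Lx w (m i)` (rank-nullity).

`lower`: for general `p` the points `p (J l)` and the coordinate points `e_l`, `s ≤ l ≤ r`, are linearly independent
(the determinant is a nonzero polynomial, see `general_det` in `Pool/Agent/H18/TileFinal.lean`); `finrank_linear`
(`Pool/Agent/H18/Cub/CremL.lean`; or `finrank_linSubst`) moves `p (J l)` to `e_l`; then `toric_ge` for the images of the
other points, and the polynomials with coefficients in the space of solutions are in `fatForms`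
(`finrank_coord_ge` in `TileFinal.lean` shows how to construct the injection; `vanishes_coord_iff`).
-/

namespace Pool.Agent.H18.Tj

open Finset Function Pool.Agent.H18.Ex Pool.Agent.H18.Fat

private theorem GeoT_det {r k s : ℕ} (J : Fin s ↪ Fin k) :
    ForGeneralPoints r k fun p =>
      (Matrix.of fun j l : Fin (r + 1) => if h : l.val < s then p (J ⟨l.val, h⟩) j
        else (Pi.single l 1 : Fin (r + 1) → ℂ) j).det ≠ 0 := by
  classical
  let M : Matrix (Fin (r + 1)) (Fin (r + 1)) (MvPolynomial (Fin k × Fin (r + 1)) ℂ) :=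
    Matrix.of fun j l => if h : l.val < s then MvPolynomial.X (J ⟨l.val, h⟩, j)
        else MvPolynomial.C ((Pi.single l 1 : Fin (r + 1) → ℂ) j)
  have hM : ∀ p : Fin k → Fin (r + 1) → ℂ, MvPolynomial.eval (fun x => p x.1 x.2) M.det =
      (Matrix.of fun j l : Fin (r + 1) => if h : l.val < s then p (J ⟨l.val, h⟩) j
        else (Pi.single l 1 : Fin (r + 1) → ℂ) j).det := by
    intro p
    rw [RingHom.map_det]
    congr 1
    ext j l
    simp only [M, RingHom.mapMatrix_apply, Matrix.map_apply, Matrix.of_apply]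
    split_ifs <;> simp
  refine ⟨M.det, ?_, fun p hp => by rwa [hM] at hp⟩
  intro h0
  have h1 := hM fun a i => if ∃ l : Fin s, J l = a ∧ l.val = i.val then 1 else 0
  rw [h0, map_zero] at h1
  have h2 : (Matrix.of fun j l : Fin (r + 1) => if h : l.val < s then
      (if ∃ l' : Fin s, J l' = J ⟨l.val, h⟩ ∧ l'.val = j.val then (1 : ℂ) else 0)
        else (Pi.single l 1 : Fin (r + 1) → ℂ) j) =
      (1 : Matrix (Fin (r + 1)) (Fin (r + 1)) ℂ) := by
    ext j l
    rw [Matrix.of_apply, Matrix.one_apply]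
    by_cases hl : l.val < s
    · rw [dif_pos hl]
      by_cases hjl : j = l
      · rw [if_pos hjl, if_pos ⟨⟨l.val, hl⟩, rfl, by rw [hjl]⟩]
      · rw [if_neg hjl, if_neg]
        rintro ⟨l', h3, h4⟩
        have h5 := J.injective h3
        subst h5
        exact hjl (Fin.ext h4.symm)
    · rw [dif_neg hl]
      by_cases hjl : j = l
      · rw [if_pos hjl, hjl, Pi.single_eq_same]
      · rw [if_neg hjl, Pi.single_eq_of_ne hjl]
  rw [h2, Matrix.det_one] at h1
  exact zero_ne_one h1

/-- Coefficient vectors supported in `Rg d w` to coefficient vectors. -/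
private noncomputable def GeoT_ext {r d : ℕ} (w : Fin (r + 1) → ℕ) :
    ({a // a ∈ Ex.Rg d w} → ℂ) →ₗ[ℂ] (mons (r + 1) d → ℂ) where
  toFun c := fun α => if h : (⇑α.1 : Fin (r + 1) → ℕ) ∈ Ex.Rg d w then c ⟨_, h⟩ else 0
  map_add' c c' := by
    funext α
    by_cases h : (⇑α.1 : Fin (r + 1) → ℕ) ∈ Ex.Rg d w
    · simp [h]
    · simp [h]
  map_smul' t c := by
    funext α
    by_cases h : (⇑α.1 : Fin (r + 1) → ℕ) ∈ Ex.Rg d w
    · simp [h]
    · simp [h]

private theorem GeoT_ext_apply {r d : ℕ} (w : Fin (r + 1) → ℕ) (c : {a // a ∈ Ex.Rg d w} → ℂ)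
    (α : mons (r + 1) d) : GeoT_ext w c α =
      if h : (⇑α.1 : Fin (r + 1) → ℕ) ∈ Ex.Rg d w then c ⟨_, h⟩ else 0 := rfl

/-- The exponent of a point of the region. -/
private noncomputable def GeoT_e {r d : ℕ} (w : Fin (r + 1) → ℕ) (a : {a // a ∈ Ex.Rg d w}) :
    mons (r + 1) d :=
  ⟨Finsupp.equivFunOnFinite.symm a.1, by
    rw [mem_mons, Finsupp.degree_eq_sum]
    exact (Ex.mem_Rg.1 a.2).2⟩

private theorem GeoT_e_coe {r d : ℕ} (w : Fin (r + 1) → ℕ) (a : {a // a ∈ Ex.Rg d w}) :
    (⇑(GeoT_e w a).1 : Fin (r + 1) → ℕ) = a.1 := rfl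

private theorem GeoT_ext_e {r d : ℕ} (w : Fin (r + 1) → ℕ) (c : {a // a ∈ Ex.Rg d w} → ℂ)
    (a : {a // a ∈ Ex.Rg d w}) : GeoT_ext w c (GeoT_e w a) = c a := by
  rw [GeoT_ext_apply, dif_pos (by rw [GeoT_e_coe]; exact a.2)]
  rfl

private theorem GeoT_ext_injective {r d : ℕ} (w : Fin (r + 1) → ℕ) :
    Function.Injective (GeoT_ext (d := d) w) := by
  intro c c' h
  funext a
  rw [← GeoT_ext_e w c a, h, GeoT_ext_e]

private theorem GeoT_sum {r d : ℕ} (w : Fin (r + 1) → ℕ) (c : {a // a ∈ Ex.Rg d w} → ℂ)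
    (q : Fin (r + 1) → ℂ) (β : Fin (r + 1) →₀ ℕ) :
    ∑ α : mons (r + 1) d, GeoT_ext w c α * tc q α.1 β =
      ∑ a : {a // a ∈ Ex.Rg d w}, c a * tcr q a.1 ⇑β := by
  symm
  apply Fintype.sum_of_injective (GeoT_e w)
  · intro a a' h
    apply Subtype.ext
    rw [← GeoT_e_coe w a, h, GeoT_e_coe]
  · intro α hα
    rw [GeoT_ext_apply, dif_neg, zero_mul]
    intro h
    apply hα
    refine ⟨⟨_, h⟩, ?_⟩
    apply Subtype.ext
    ext j
    rfl
  · intro a
    rw [GeoT_ext_e]
    rfl

theorem lower {r k d s : ℕ} (hr : 1 ≤ r) (hs : s ≤ r + 1) (m : Fin k → ℕ) (J : Fin s ↪ Fin k)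
    (hJ : ∀ l, m (J l) ≤ d) (hm : ∀ i, (∀ l, J l ≠ i) → m i ≤ d) :
    ForGeneralPoints r k fun p =>
      (Ex.Rg d (bw r d s fun l => d - m (J l))).card ≤ Module.finrank ℂ (fatForms r d p m) +
        ∑ i ∈ univ.filter (fun i => ∀ l, J l ≠ i), Lx (bw r d s fun l => d - m (J l)) (m i) := by
  classical
  refine (GeoT_det J).mono ?_
  intro p hdet
  set w : Fin (r + 1) → ℕ := bw r d s fun l => d - m (J l) with hw
  set A : Matrix (Fin (r + 1)) (Fin (r + 1)) ℂ := Matrix.of fun j l : Fin (r + 1) =>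
    if h : l.val < s then p (J ⟨l.val, h⟩) j else (Pi.single l 1 : Fin (r + 1) → ℂ) j with hA
  have hunit : IsUnit A.det := isUnit_iff_ne_zero.2 hdet
  set p' : Fin k → Fin (r + 1) → ℂ := fun i => A⁻¹.mulVec (p i) with hp'
  -- the points after the change of coordinates
  have h1 : Module.finrank ℂ (fatForms r d p m) = Module.finrank ℂ (fatForms r d p' m) := by
    have h2 := Cub.finrank_linear (d := d) A hunit p' m
    have h3 : (fun i => A.mulVec (p' i)) = p := by
      funext i
      rw [hp', Matrix.mulVec_mulVec, Matrix.mul_nonsing_inv A hunit, Matrix.one_mulVec]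
    rwa [h3] at h2
  have hJp : ∀ l : Fin s, p' (J l) = Pi.single (⟨l.val, by omega⟩ : Fin (r + 1)) 1 := by
    intro l
    have h2 : A.mulVec (Pi.single (⟨l.val, by omega⟩ : Fin (r + 1)) 1) = p (J l) := by
      funext j
      rw [Matrix.mulVec_single_one]
      simp only [hA, Matrix.col_apply, Matrix.of_apply, dif_pos l.2]
    rw [hp']
    simp only
    rw [← h2, Matrix.mulVec_mulVec, Matrix.nonsing_inv_mul A hunit, Matrix.one_mulVec]
  obtain ⟨V, hV, hV'⟩ := toric_ge (κ := {i : Fin k // ∀ l, J l ≠ i}) d w (fun i => m i.1)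
    (fun i => hm i.1 i.2) (fun i => p' i.1)
  have h4 : ∑ i : {i : Fin k // ∀ l, J l ≠ i}, Lx w (m i.1) =
      ∑ i ∈ univ.filter (fun i => ∀ l, J l ≠ i), Lx w (m i) := by
    rw [sum_subtype (p := fun i => ∀ l, J l ≠ i) (univ.filter (fun i => ∀ l, J l ≠ i))
      (by simp) (fun i => Lx w (m i))]
  rw [h1, ← h4]
  refine hV.trans (Nat.add_le_add_right ?_ _)
  let Ψ : V →ₗ[ℂ] MvPolynomial (Fin (r + 1)) ℂ :=
    (toPoly (r + 1) d) ∘ₗ (GeoT_ext w) ∘ₗ V.subtype
  have hΨ : ∀ c : V, Ψ c = toPoly (r + 1) d (GeoT_ext w c.1) := fun _ => rfl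
  have hmem : ∀ c : V, Ψ c ∈ fatForms r d p' m := by
    intro c
    rw [hΨ]
    refine ⟨toPoly_isHomogeneous _, fun i => ?_⟩
    by_cases hi : ∀ l, J l ≠ i
    · intro β hβ
      rw [coeff_shift_toPoly, GeoT_sum]
      apply hV' c.1 c.2 ⟨i, hi⟩
      rw [Finsupp.degree_eq_sum] at hβ
      exact hβ
    · push Not at hi
      obtain ⟨l, rfl⟩ := hi
      rw [hJp l, vanishes_coord_iff]
      intro α hα
      rw [GeoT_ext_apply] at hα
      by_cases h : (⇑α.1 : Fin (r + 1) → ℕ) ∈ Ex.Rg d w
      · have h5 := (Ex.mem_Rg.1 h).1 ⟨l.val, by omega⟩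
        have h6 : w ⟨l.val, by omega⟩ = d - m (J l) := by
          simp only [hw, bw, dif_pos l.2]
        rw [h6] at h5
        have h7 := hJ l
        omega
      · rw [dif_neg h] at hα
        exact absurd rfl hα
  have hinj : Function.Injective (Ψ.codRestrict _ hmem) := by
    intro c c' h
    have h5 : Ψ c = Ψ c' := congrArg Subtype.val h
    rw [hΨ, hΨ] at h5
    exact Subtype.ext (GeoT_ext_injective w (toPoly_injective _ _ h5))
  exact LinearMap.finrank_le_finrank_of_injective hinj

end Pool.Agent.H18.Tj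

end

section

/-!
# Module CntP (TL): a part of the coordinates

`bwe`: the width `c l` at the coordinates `l < s` of the form `l = e l'`, the width `d` at the others.

`cnt_bwe`: let `σ` be a permutation of `Fin (r + 1)` with `σ l = e l` (as numbers) for `l < q` (extend the injection
`Fin q → Fin (r + 1)`; e.g. `Function.Embedding` / `Equiv.Perm` extension such as `Equiv.extendSubtype`, or
`Finset.exists_equiv_extend_of_card_eq`); then `α ↦ α ∘ σ` is a bijection from `Rg n (bwe …)` onto the set counted by `cnt r q (c ∘ e) n`.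
-/

namespace Pool.Agent.H18.Tl

open Finset Function Pool.Agent.H18.Tj

open Classical in
/-- The widths for a part of the coordinates. -/
noncomputable def bwe (r d s q : ℕ) (c : Fin s → ℕ) (e : Fin q ↪ Fin s) : Fin (r + 1) → ℕ :=
  fun i => if h : ∃ l, (e l).val = i.val then c (e h.choose) else d

theorem bwe_val {r d s q : ℕ} (c : Fin s → ℕ) (e : Fin q ↪ Fin s) (l : Fin q) (i : Fin (r + 1))
    (hi : (e l).val = i.val) : bwe r d s q c e i = c (e l) := by
  have h : ∃ l, (e l).val = i.val := ⟨l, hi⟩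
  unfold bwe
  rw [dif_pos h]
  have h1 := h.choose_spec
  have h2 : e h.choose = e l := Fin.ext (h1.trans hi.symm)
  rw [h2]

theorem bwe_of_ne {r d s q : ℕ} (c : Fin s → ℕ) (e : Fin q ↪ Fin s) (i : Fin (r + 1))
    (hi : ∀ l, (e l).val ≠ i.val) : bwe r d s q c e i = d := by
  unfold bwe
  rw [dif_neg]
  rintro ⟨l, hl⟩
  exact hi l hl

private theorem CntP_perm {r s q : ℕ} (hs : s ≤ r + 1) (e : Fin q ↪ Fin s) :
    ∃ σ : Equiv.Perm (Fin (r + 1)), ∀ (i : Fin (r + 1)) (h : i.val < q),
      (σ i).val = (e ⟨i.val, h⟩).val := by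
  classical
  let f : Fin (r + 1) → Fin (r + 1) := fun i =>
    if h : i.val < q then ⟨(e ⟨i.val, h⟩).val, lt_of_lt_of_le (e ⟨i.val, h⟩).2 hs⟩ else i
  have hf : ∀ (i : Fin (r + 1)) (h : i.val < q), (f i).val = (e ⟨i.val, h⟩).val := by
    intro i h
    show (if h : i.val < q then (⟨(e ⟨i.val, h⟩).val, lt_of_lt_of_le (e ⟨i.val, h⟩).2 hs⟩ :
      Fin (r + 1)) else i).val = _
    rw [dif_pos h]
  obtain ⟨g, hg⟩ := Finset.exists_equiv_extend_of_card_eq (α := Fin (r + 1)) (β := Fin (r + 1))
    (t := univ) (by rw [card_univ]) (s := univ.filter fun i : Fin (r + 1) => i.val < q) (f := f)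
    (subset_univ _) (by
      intro i hi j hj hij
      rw [mem_coe, mem_filter] at hi hj
      have h1 := hf i hi.2
      have h2 := hf j hj.2
      rw [hij, h2] at h1
      have h3 := e.injective (Fin.ext h1)
      rw [Fin.mk.injEq] at h3
      exact Fin.ext h3.symm)
  refine ⟨g.trans (Equiv.subtypeUnivEquiv fun x => mem_univ x), fun i h => ?_⟩
  have h1 := hg i (mem_filter.2 ⟨mem_univ _, h⟩)
  rw [Equiv.trans_apply, Equiv.subtypeUnivEquiv_apply, h1]
  exact hf i h

theorem cnt_bwe {r d s q n : ℕ} (hs : s ≤ r + 1) (hn : n ≤ d) (c : Fin s → ℕ)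
    (e : Fin q ↪ Fin s) : cnt r q (fun l => c (e l)) n = (Ex.Rg n (bwe r d s q c e)).card := by
  have hq : q ≤ s := by
    have := Fintype.card_le_of_embedding e
    rwa [Fintype.card_fin, Fintype.card_fin] at this
  rw [count_eq r q d n (hq.trans hs) hn]
  obtain ⟨σ, hσ⟩ := CntP_perm hs e
  have hw : ∀ i, bwe r d s q c e (σ i) = bw r d q (fun l => c (e l)) i := by
    intro i
    unfold bw
    split_ifs with h
    · exact bwe_val c e ⟨i.val, h⟩ (σ i) (hσ i h).symm
    · apply bwe_of_ne
      intro l hl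
      have h1 : l.val < r + 1 := lt_of_lt_of_le l.2 (hq.trans hs)
      have h2 := hσ ⟨l.val, h1⟩ l.2
      have h3 : σ ⟨l.val, h1⟩ = σ i := by
        apply Fin.ext
        rw [h2]
        exact hl
      have h4 := σ.injective h3
      rw [← h4] at h
      exact h l.2
  symm
  apply Finset.card_bij' (fun α _ => α ∘ σ) (fun α _ => α ∘ σ.symm)
  · intro α hα
    rw [Ex.mem_Rg] at hα ⊢
    refine ⟨fun i => ?_, ?_⟩
    · rw [← hw i]
      exact hα.1 (σ i)
    · rw [← hα.2]
      exact Equiv.sum_comp σ α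
  · intro α hα
    rw [Ex.mem_Rg] at hα ⊢
    refine ⟨fun i => ?_, ?_⟩
    · have h1 := hw (σ.symm i)
      rw [Equiv.apply_symm_apply] at h1
      rw [h1]
      exact hα.1 (σ.symm i)
    · rw [← hα.2]
      exact Equiv.sum_comp σ.symm α
  · intro α _
    funext i
    simp
  · intro α _
    funext i
    simp

end Pool.Agent.H18.Tl

end

section

/-!
# Module VDim (UB): the general dimension as a function
-/

namespace Pool.Agent.H18.Fat

end Pool.Agent.H18.Fat

namespace Pool.Agent.H18.Ub

open Finset Pool.Agent.H18.Ex Pool.Agent.H18.Cub Pool.Agent.H18.Pr Pool.Agent.H18.Fat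

/-- The failing tuples, from the dimension after a Cremona reduction. -/
theorem final_of_dim {r k d d' : ℕ} (hr : 1 ≤ r) {m m' : Fin k → ℕ} (hcr : Cremona r d m d' m')
    (v' : ℤ) (h' : ForGeneralPoints r k fun p =>
      (Module.finrank ℂ (fatForms r d' p m') : ℤ) = max 0 v') :
    ForGeneralPoints r k fun p =>
      (Module.finrank ℂ (fatForms r d p m) : ℤ) = max 0 v' ∧
      (¬ ImposesMaximalConditions r d p m ↔
        0 < v' ∧ ((d + r).choose r : ℤ) - ∑ i, ((m i + r - 1).choose r : ℤ) < v') := by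
  obtain ⟨v, hv⟩ : ∃ v : ℕ, (v : ℤ) = max 0 v' :=
    ⟨(max 0 v').toNat, Int.toNat_of_nonneg (le_max_left _ _)⟩
  have h3 : ForGeneralPoints r k fun p => Module.finrank ℂ (fatForms r d' p m') = v := by
    refine h'.mono fun p hp => ?_
    have h4 : ((Module.finrank ℂ (fatForms r d' p m') : ℕ) : ℤ) = v := by
      rw [hp, hv]
    exact_mod_cast h4
  have h5 := (hcr.general v).2 h3
  refine (h5.and (general_ne_zero r k)).mono fun p hp => ?_
  obtain ⟨hp, hp0⟩ := hp
  have hge := finrank_fatForms_ge (d := d) hr hp0 m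
  have h7 : (Module.finrank ℂ (fatForms r d p m) : ℤ) = max 0 v' := by
    rw [hp, hv]
  refine ⟨h7, ?_⟩
  rw [h7] at hge
  have h8 : ImposesMaximalConditions r d p m ↔ (Module.finrank ℂ (fatForms r d p m) : ℤ) =
      max 0 (((d + r).choose r : ℤ) - ∑ i, ((m i + r - 1).choose r : ℤ)) := Iff.rfl
  rw [h8, h7]
  generalize ((d + r).choose r : ℤ) - ∑ i, ((m i + r - 1).choose r : ℤ) = v₀ at hge ⊢
  rcases le_total 0 v' with h9 | h9 <;> rcases le_total 0 v₀ with h10 | h10
  · rw [max_eq_right h9] at hge ⊢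
    rw [max_eq_right h10]
    omega
  · rw [max_eq_right h9] at hge ⊢
    rw [max_eq_left h10]
    omega
  · rw [max_eq_left h9] at hge ⊢
    rw [max_eq_right h10]
    omega
  · rw [max_eq_left h9] at hge ⊢
    rw [max_eq_left h10]
    omega

end Pool.Agent.H18.Ub

end
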