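import Pool.Agent.H94.LP3.M20
import Pool.Agent.H94.LP3.M70
import Pool.Agent.H94.LP3.M71
import Pool.Agent.H94.LP3.M72

/-! The parts of this file: H18.Tl.CntJ, H18.Tl.ExZ, H18.Tl.FinalD, H18.Tl.ExB, H18.Tl.ExC, H18.Tl.Ins. -/

section

/-!
# Module CntJ (TL): the virtual dimension does not depend on the choice of `J`

`J : Fin s ↪ Fin k`, `J' = J ∘ e` a part of it; `m' i + m' j ≤ d'` for any two different points outside `J'`.
Let `c l = d' - m' (J l)`, `w = bw r d' s c`, `w' = bwe r d' s q c e` (`cnt_bwe`, `count_eq`).  `O` = the coordinates `i < s` not of the form `e l`;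
`w ≤ w'`, and `w = w'` outside `O`.
For `n ≤ d'`, `(Rg n w').card = (Rg n w).card + #{α ∈ Rg n w' : ∃ i ∈ O, w i < α i}`.  If `n = m' i - 1`, `i ∉ J`, the last set is empty:
`w j = d' - m' (J j) ≥ m' i > n ≥ α j`.  If `n = d'`, the sets `{α ∈ Rg d' w' : w i < α i}`, `i ∈ O`, are disjoint
(`α i + α j ≥ 2 d' - m' (J i) - m' (J j) + 2 > d'`), and the `i`-th one is in bijection with `Rg (m' (J i) - 1) w'` (subtract
`w i + 1 = d' - m' (J i) + 1` at the coordinate `i`) if `m' (J i) ≥ 1`, and empty if `m' (J i) = 0`.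
-/

namespace Pool.Agent.H18.Tl

open Finset Function Pool.Agent.H18.Tj

/-- the position of a coordinate -/
private def CntJ_pos {r s : ℕ} (hs : s ≤ r + 1) (l : Fin s) : Fin (r + 1) :=
  ⟨l.val, lt_of_lt_of_le l.2 hs⟩

private theorem CntJ_pos_inj {r s : ℕ} (hs : s ≤ r + 1) {l l' : Fin s}
    (h : CntJ_pos hs l = CntJ_pos hs l') : l = l' := by
  have h1 := congrArg Fin.val h
  exact Fin.ext h1

private theorem CntJ_w {r s d : ℕ} (hs : s ≤ r + 1) (c : Fin s → ℕ) (l : Fin s) :
    bw r d s c (CntJ_pos hs l) = c l := by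
  unfold bw CntJ_pos
  rw [dif_pos l.2]

private theorem CntJ_wO {r s d q : ℕ} (hs : s ≤ r + 1) (c : Fin s → ℕ) (e : Fin q ↪ Fin s)
    (l : Fin s) (hl : ∀ l', e l' ≠ l) : bwe r d s q c e (CntJ_pos hs l) = d :=
  bwe_of_ne c e _ fun l' h => hl l' (Fin.ext h)

private theorem CntJ_w_eq {r s d q : ℕ} (hs : s ≤ r + 1) (c : Fin s → ℕ) (e : Fin q ↪ Fin s)
    (i : Fin (r + 1)) (hi : ∀ l, (∀ l', e l' ≠ l) → CntJ_pos hs l ≠ i) :
    bw r d s c i = bwe r d s q c e i := by
  by_cases h : i.val < s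
  · have h1 : CntJ_pos hs ⟨i.val, h⟩ = i := Fin.ext rfl
    have h2 : ∃ l', e l' = ⟨i.val, h⟩ := by
      by_contra hcon
      push Not at hcon
      exact hi _ hcon h1
    obtain ⟨l', hl'⟩ := h2
    rw [bwe_val c e l' i (by rw [hl']), hl']
    unfold bw
    rw [dif_pos h]
  · rw [bwe_of_ne c e i fun l hl => h (hl ▸ (e l).2)]
    unfold bw
    rw [dif_neg h]

private theorem CntJ_le {r s d q : ℕ} (hs : s ≤ r + 1) (c : Fin s → ℕ) (hc : ∀ l, c l ≤ d)
    (e : Fin q ↪ Fin s) (i : Fin (r + 1)) : bw r d s c i ≤ bwe r d s q c e i := by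
  by_cases h : ∀ l, (∀ l', e l' ≠ l) → CntJ_pos hs l ≠ i
  · exact (CntJ_w_eq hs c e i h).le
  · push Not at h
    obtain ⟨l, hl, rfl⟩ := h
    rw [CntJ_w, CntJ_wO hs c e l hl]
    exact hc l

/-- one overflowing coordinate -/
private theorem CntJ_slice {r : ℕ} {d m : ℕ} (w : Fin (r + 1) → ℕ) (i : Fin (r + 1))
    (hw : w i = d) (hm : m ≤ d) :
    ((Ex.Rg d w).filter fun α => d - m < α i).card =
      if 1 ≤ m then (Ex.Rg (m - 1) w).card else 0 := by
  split_ifs with h1
  · symm
    refine Finset.card_bij (fun α _ => Function.update α i (α i + (d - m + 1))) ?_ ?_ ?_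
    · intro α hα
      rw [Ex.mem_Rg] at hα
      rw [mem_filter, Ex.mem_Rg]
      have hsum : ∑ j, Function.update α i (α i + (d - m + 1)) j = d := by
        rw [Finset.sum_update_of_mem (mem_univ i)]
        have h2 := Finset.add_sum_erase univ α (mem_univ i)
        rw [← Finset.sdiff_singleton_eq_erase] at h2
        rw [hα.2] at h2
        omega
      refine ⟨⟨fun j => ?_, hsum⟩, ?_⟩
      · by_cases hj : j = i
        · subst hj
          rw [hw]
          have h3 : Function.update α j (α j + (d - m + 1)) j ≤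
              ∑ l, Function.update α j (α j + (d - m + 1)) l :=
            single_le_sum (fun _ _ => Nat.zero_le _) (mem_univ j)
          omega
        · rw [Function.update_of_ne hj]
          exact hα.1 j
      · rw [Function.update_self]
        omega
    · intro α _ β _ h
      funext j
      have hj := congrFun h j
      by_cases hji : j = i
      · subst hji
        rw [Function.update_self, Function.update_self] at hj
        omega
      · rwa [Function.update_of_ne hji, Function.update_of_ne hji] at hj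
    · intro β hβ
      rw [mem_filter, Ex.mem_Rg] at hβ
      refine ⟨Function.update β i (β i - (d - m + 1)), ?_, ?_⟩
      · rw [Ex.mem_Rg]
        refine ⟨fun j => ?_, ?_⟩
        · by_cases hj : j = i
          · subst hj
            rw [Function.update_self]
            have := hβ.1.1 j
            omega
          · rw [Function.update_of_ne hj]
            exact hβ.1.1 j
        · rw [Finset.sum_update_of_mem (mem_univ i)]
          have h2 := Finset.add_sum_erase univ β (mem_univ i)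
          rw [← Finset.sdiff_singleton_eq_erase] at h2
          rw [hβ.1.2] at h2
          have h3 := hβ.2
          omega
      · funext j
        by_cases hj : j = i
        · subst hj
          rw [Function.update_self, Function.update_self]
          have h3 := hβ.2
          omega
        · rw [Function.update_of_ne hj, Function.update_of_ne hj]
  · rw [Finset.card_eq_zero, Finset.filter_eq_empty_iff]
    intro α hα
    rw [Ex.mem_Rg] at hα
    have := hα.1 i
    omega

theorem cntJ {r k d' s q : ℕ} (hs : s ≤ r + 1) (m' : Fin k → ℕ) (J : Fin s ↪ Fin k)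
    (e : Fin q ↪ Fin s) (hm : ∀ i, m' i ≤ d')
    (h2 : ∀ i j, i ≠ j → (∀ l, J (e l) ≠ i) → (∀ l, J (e l) ≠ j) → m' i + m' j ≤ d') :
    (cnt r s (fun l => d' - m' (J l)) d' : ℤ) -
        ∑ i ∈ univ.filter (fun i => (∀ l, J l ≠ i) ∧ 1 ≤ m' i),
          (cnt r s (fun l => d' - m' (J l)) (m' i - 1) : ℤ) =
      (cnt r q (fun l => d' - m' (J (e l))) d' : ℤ) -
        ∑ i ∈ univ.filter (fun i => (∀ l, J (e l) ≠ i) ∧ 1 ≤ m' i),
          (cnt r q (fun l => d' - m' (J (e l))) (m' i - 1) : ℤ) := by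
  classical
  set c : Fin s → ℕ := fun l => d' - m' (J l) with hc
  have hcd : ∀ l, c l ≤ d' := fun l => Nat.sub_le _ _
  set w : Fin (r + 1) → ℕ := bw r d' s c with hw
  set w' : Fin (r + 1) → ℕ := bwe r d' s q c e with hw'
  have hA : ∀ n, n ≤ d' → cnt r s c n = (Ex.Rg n w).card := fun n hn =>
    count_eq r s d' n hs hn c
  have hB : ∀ n, n ≤ d' → cnt r q (fun l => d' - m' (J (e l))) n = (Ex.Rg n w').card :=
    fun n hn => cnt_bwe hs hn c e
  -- the coordinates which are left out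
  set O : Finset (Fin s) := univ.filter fun l => ∀ l', e l' ≠ l with hO
  have hOm : ∀ l ∈ O, ∀ l', J (e l') ≠ J l := fun l hl l' h =>
    (mem_filter.1 hl).2 l' (J.injective h)
  -- sums
  have hsum : ∀ F : Fin k → ℤ,
      ∑ i ∈ univ.filter (fun i => (∀ l, J (e l) ≠ i) ∧ 1 ≤ m' i), F i =
        ∑ i ∈ univ.filter (fun i => (∀ l, J l ≠ i) ∧ 1 ≤ m' i), F i +
          ∑ l ∈ O, if 1 ≤ m' (J l) then F (J l) else 0 := by
    intro F
    rw [← Finset.sum_filter, ← Finset.sum_map (O.filter fun l => 1 ≤ m' (J l)) J F,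
      ← Finset.sum_union]
    · refine Finset.sum_congr ?_ fun _ _ => rfl
      ext i
      simp only [mem_filter, mem_univ, true_and, mem_union, mem_map, hO]
      constructor
      · rintro ⟨h3, h4⟩
        by_cases h5 : ∀ l, J l ≠ i
        · exact Or.inl ⟨h5, h4⟩
        · push Not at h5
          obtain ⟨l, rfl⟩ := h5
          exact Or.inr ⟨l, ⟨fun l' h6 => h3 l' (by rw [h6]), h4⟩, rfl⟩
      · rintro (⟨h3, h4⟩ | ⟨l, ⟨h3, h4⟩, rfl⟩)
        · exact ⟨fun l => h3 (e l), h4⟩
        · exact ⟨fun l' h => h3 l' (J.injective h), h4⟩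
    · rw [Finset.disjoint_left]
      intro i hi hi'
      rw [mem_filter] at hi
      rw [mem_map] at hi'
      obtain ⟨l, -, rfl⟩ := hi'
      exact hi.2.1 l rfl
  -- the points outside `J`
  have hout : ∀ i ∈ univ.filter (fun i => (∀ l, J l ≠ i) ∧ 1 ≤ m' i),
      Ex.Rg (m' i - 1) w = Ex.Rg (m' i - 1) w' := by
    intro i hi
    rw [mem_filter] at hi
    ext α
    rw [Ex.mem_Rg, Ex.mem_Rg]
    refine and_congr_left fun hα => ⟨fun h j => (h j).trans (CntJ_le hs c hcd e j),
      fun h j => ?_⟩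
    by_cases hj : ∀ l, (∀ l', e l' ≠ l) → CntJ_pos hs l ≠ j
    · rw [hw, CntJ_w_eq hs c e j hj]
      exact h j
    · push Not at hj
      obtain ⟨l, hl, rfl⟩ := hj
      rw [hw, CntJ_w]
      have h3 : α (CntJ_pos hs l) ≤ ∑ l, α l :=
        single_le_sum (fun _ _ => Nat.zero_le _) (mem_univ _)
      have h4 := h2 i (J l) (fun h => hi.2.1 l h.symm) (fun l' => hi.2.1 (e l'))
        (fun l' h => hl l' (J.injective h))
      have h5 : c l = d' - m' (J l) := rfl
      have h6 := hi.2.2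
      omega
  -- the region of degree `d'`
  have htop : (Ex.Rg d' w').card = (Ex.Rg d' w).card +
      ∑ l ∈ O, if 1 ≤ m' (J l) then (Ex.Rg (m' (J l) - 1) w').card else 0 := by
    have h3 : Ex.Rg d' w' = Ex.Rg d' w ∪ O.biUnion fun l =>
        (Ex.Rg d' w').filter fun α => d' - m' (J l) < α (CntJ_pos hs l) := by
      ext α
      rw [mem_union, mem_biUnion]
      constructor
      · intro hα
        by_cases h4 : ∃ l ∈ O, d' - m' (J l) < α (CntJ_pos hs l)
        · obtain ⟨l, hl, h5⟩ := h4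
          exact Or.inr ⟨l, hl, mem_filter.2 ⟨hα, h5⟩⟩
        · push Not at h4
          left
          rw [Ex.mem_Rg] at hα ⊢
          refine ⟨fun j => ?_, hα.2⟩
          by_cases hj : ∀ l, (∀ l', e l' ≠ l) → CntJ_pos hs l ≠ j
          · rw [hw, CntJ_w_eq hs c e j hj]
            exact hα.1 j
          · push Not at hj
            obtain ⟨l, hl, rfl⟩ := hj
            rw [hw, CntJ_w]
            exact h4 l (mem_filter.2 ⟨mem_univ _, hl⟩)
      · rintro (hα | ⟨l, -, hα⟩)
        · rw [Ex.mem_Rg] at hα ⊢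
          exact ⟨fun j => (hα.1 j).trans (CntJ_le hs c hcd e j), hα.2⟩
        · exact (mem_filter.1 hα).1
    have h4 : Disjoint (Ex.Rg d' w) (O.biUnion fun l =>
        (Ex.Rg d' w').filter fun α => d' - m' (J l) < α (CntJ_pos hs l)) := by
      rw [Finset.disjoint_left]
      intro α hα hα'
      rw [mem_biUnion] at hα'
      obtain ⟨l, -, hl⟩ := hα'
      have h5 := (mem_filter.1 hl).2
      have h6 := (Ex.mem_Rg.1 hα).1 (CntJ_pos hs l)
      rw [hw, CntJ_w] at h6
      have h7 : c l = d' - m' (J l) := rfl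
      omega
    have h5 : ∀ l ∈ O, ∀ l' ∈ O, l ≠ l' →
        Disjoint ((Ex.Rg d' w').filter fun α => d' - m' (J l) < α (CntJ_pos hs l))
          ((Ex.Rg d' w').filter fun α => d' - m' (J l') < α (CntJ_pos hs l')) := by
      intro l hl l' hl' hne
      rw [Finset.disjoint_left]
      intro α hα hα'
      rw [mem_filter] at hα hα'
      have h6 := h2 (J l) (J l') (fun h => hne (J.injective h)) (hOm l hl) (hOm l' hl')
      have h7 : CntJ_pos hs l ≠ CntJ_pos hs l' := fun h => hne (CntJ_pos_inj hs h)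
      have h8 : α (CntJ_pos hs l) + α (CntJ_pos hs l') ≤ ∑ j, α j := by
        rw [← Finset.sum_pair h7]
        exact Finset.sum_le_sum_of_subset (subset_univ _)
      have h9 := (Ex.mem_Rg.1 hα.1).2
      have h10 := hα.2
      have h11 := hα'.2
      have h12 := hm (J l)
      have h13 := hm (J l')
      omega
    conv_lhs => rw [h3]
    rw [card_union_of_disjoint h4, card_biUnion h5]
    congr 1
    refine Finset.sum_congr rfl fun l hl => ?_
    exact CntJ_slice w' (CntJ_pos hs l) (CntJ_wO hs c e l (mem_filter.1 hl).2) (hm (J l))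
  rw [hA d' le_rfl, hB d' le_rfl, hsum, htop]
  have h6 : ∑ i ∈ univ.filter (fun i => (∀ l, J l ≠ i) ∧ 1 ≤ m' i),
      (cnt r s c (m' i - 1) : ℤ) =
      ∑ i ∈ univ.filter (fun i => (∀ l, J l ≠ i) ∧ 1 ≤ m' i),
        (cnt r q (fun l => d' - m' (J (e l))) (m' i - 1) : ℤ) := by
    refine Finset.sum_congr rfl fun i hi => ?_
    have h7 : m' i - 1 ≤ d' := (Nat.sub_le _ _).trans (hm i)
    rw [hA _ h7, hB _ h7, hout i hi]
  have h7 : (∑ l ∈ O, if 1 ≤ m' (J l) then
      (cnt r q (fun l => d' - m' (J (e l))) (m' (J l) - 1) : ℤ) else 0) =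
      ((∑ l ∈ O, if 1 ≤ m' (J l) then (Ex.Rg (m' (J l) - 1) w').card else 0 : ℕ) : ℤ) := by
    rw [Nat.cast_sum]
    refine Finset.sum_congr rfl fun l _ => ?_
    split_ifs
    · rw [hB _ ((Nat.sub_le _ _).trans (hm _))]
    · rfl
  rw [h6, h7]
  push_cast
  ring

end Pool.Agent.H18.Tl

end

section

/-!
# Module ExZ (TL): boxes with one active coordinate

`bx b a`: the exponents `α : Option τ → ℕ` with `α none < a`, `α (some l) ≤ b l`.

`ExB_zero`: `b = 0`.  The elements of `bx b a` are the functions `α` with `α none = j < a` and `α (some l) = 0`.  With distinct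
`t`-coordinates `x_i` (e.g. `x_i = i`, all other coordinates arbitrary) the conditions `c` with `c none = j < m_i`, `c (some l) = 0`, say that
the polynomial `∑_{j<a} f_j t^j` of degree `< a` vanishes to order `m_i` at `x_i`; it is divisible by `∏ (t - x_i)^(m_i)`, of degree
`∑ m_i ≥ a`, so it is zero (compare `Core_zero` in `Pool/Agent/H18/Ta/Core.lean` and `Thin_base`, `ThinG_base` in `Tj/Thin.lean`,
`Tk/ThinG.lean`).
-/

namespace Pool.Agent.H18.Tl

open Finset Function Pool.Agent.H18.Ex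

variable {τ : Type} [Fintype τ] [DecidableEq τ]

/-- The exponents. -/
def bx (b : τ → ℕ) (a : ℕ) : Finset (Option τ → ℕ) :=
  Fintype.piFinset fun o => match o with
    | none => range a
    | some l => range (b l + 1)

theorem mem_bx {b : τ → ℕ} {a : ℕ} {α : Option τ → ℕ} :
    α ∈ bx b a ↔ α none < a ∧ ∀ l, α (some l) ≤ b l := by
  unfold bx
  rw [Fintype.mem_piFinset]
  constructor
  · intro h
    refine ⟨mem_range.1 (h none), fun l => ?_⟩
    exact Nat.lt_succ_iff.1 (mem_range.1 (h (some l)))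
  · rintro ⟨h1, h2⟩ o
    cases o with
    | none => exact mem_range.2 h1
    | some l => exact mem_range.2 (Nat.lt_succ_iff.2 (h2 l))

/-- A polynomial of small degree with many zeros vanishes. -/
private theorem ExZ_core {κ : Type} [Fintype κ] (x : κ → ℂ) (hx : Function.Injective x) (n : κ → ℕ)
    (N : ℕ) (hN : N ≤ ∑ i, n i) (b : ℕ → ℂ)
    (h : ∀ i, ∀ α < n i, ∑ a ∈ range N, b a * ((a.choose α : ℕ) * x i ^ (a - α)) = 0) :
    ∀ a < N, b a = 0 := by
  classical
  set p : Polynomial ℂ := ∑ a ∈ range N, Polynomial.monomial a (b a) with hp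
  have hcoeff : ∀ a < N, p.coeff a = b a := by
    intro a ha
    rw [hp, Polynomial.finsetSum_coeff]
    simp only [Polynomial.coeff_monomial]
    rw [sum_ite_eq' (range N) a b, if_pos (mem_range.2 ha)]
  have hdeg : p.degree < N := by
    rw [Polynomial.degree_lt_iff_coeff_zero]
    intro k hk
    rw [hp, Polynomial.finsetSum_coeff]
    apply sum_eq_zero
    intro a ha
    rw [Polynomial.coeff_monomial, if_neg]
    rw [mem_range] at ha
    omega
  have hdvd : ∀ i, (Polynomial.X - Polynomial.C (x i)) ^ n i ∣ p := by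
    intro i
    rw [Polynomial.X_sub_C_pow_dvd_iff, Polynomial.X_pow_dvd_iff]
    intro α hα
    have h1 : (p.comp (Polynomial.X + Polynomial.C (x i))).coeff α =
        (Polynomial.taylor (x i) p).coeff α := by
      rw [Polynomial.taylor_apply]
    rw [h1, Polynomial.taylor_coeff, hp, map_sum, Polynomial.eval_finsetSum, ← h i α hα]
    refine sum_congr rfl fun a _ => ?_
    rw [Polynomial.hasseDeriv_monomial, Polynomial.eval_monomial]
    ring
  have hprod : (∏ i, (Polynomial.X - Polynomial.C (x i)) ^ n i) ∣ p := by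
    apply Finset.prod_dvd_of_coprime
    · intro i _ j _ hij
      exact (Polynomial.pairwise_coprime_X_sub_C hx hij).pow
    · intro i _
      exact hdvd i
  have hp0 : p = 0 := by
    by_contra hne
    have h1 := Polynomial.degree_le_of_dvd hprod hne
    have h2 : (∏ i, (Polynomial.X - Polynomial.C (x i)) ^ n i).degree = ((∑ i, n i : ℕ) : WithBot ℕ) := by
      rw [Polynomial.degree_prod]
      simp [Polynomial.degree_pow, Polynomial.degree_X_sub_C]
    rw [h2] at h1
    have h3 : ((∑ i, n i : ℕ) : WithBot ℕ) < N := lt_of_le_of_lt h1 hdeg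
    have h4 : ∑ i, n i < N := by exact_mod_cast h3
    omega
  intro a ha
  rw [← hcoeff a ha, hp0, Polynomial.coeff_zero]

/-- the exponent `(j, 0)` -/
private def ExZ_e (j : ℕ) : Option τ → ℕ := fun o => o.elim j fun _ => 0

/-- the point `(x, 0)` -/
private def ExZ_pos (x : ℂ) : Option τ → ℂ := fun o => o.elim x fun _ => 0

theorem ExB_zero (b : τ → ℕ) (hb : ∀ l, b l = 0) (S : Multiset ℕ) (a : ℕ) (h : a ≤ S.sum) :
    GM (bx b a) (S.map Kind.free) := by
  classical
  obtain ⟨m, t, rfl⟩ := multi_exists_fin S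
  rw [Multiset.map_map, GM_iff]
  have hm : a ≤ ∑ i, t i := h
  refine ⟨fun i => ExZ_pos (i : ℂ), fun f hf => ?_⟩
  have hA : bx b a = (range a).image (ExZ_e (τ := τ)) := by
    ext α
    rw [mem_bx, mem_image]
    constructor
    · rintro ⟨h1, h2⟩
      refine ⟨α none, mem_range.2 h1, ?_⟩
      funext o
      cases o with
      | none => rfl
      | some l =>
        have h3 := h2 l
        rw [hb l] at h3
        show 0 = α (some l)
        omega
    · rintro ⟨j, hj, rfl⟩
      exact ⟨mem_range.1 hj, fun l => Nat.zero_le _⟩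
  have hinj : ∀ j ∈ range a, ∀ k ∈ range a, ExZ_e (τ := τ) j = ExZ_e k → j = k := by
    intro j _ k _ hjk
    exact congrFun hjk none
  have key := ExZ_core (κ := Fin m) (fun i => ((i : ℕ) : ℂ))
    (fun i j hij => Fin.ext (by
      have h0 : ((i : ℕ) : ℂ) = ((j : ℕ) : ℂ) := hij
      exact_mod_cast h0)) t a hm (fun j => f (ExZ_e j)) (by
      intro i α hα
      have h1 := hf i (ExZ_e α) (by
        show ∑ o, ExZ_e (τ := τ) α o < t i
        rw [Fintype.sum_option]
        have : ∑ l : τ, ExZ_e α (some l) = 0 := sum_eq_zero fun l _ => rfl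
        rw [this]
        exact hα)
      rw [hA, sum_image hinj] at h1
      rw [← h1]
      refine sum_congr rfl fun j _ => ?_
      congr 1
      unfold tcr
      rw [Fintype.prod_option]
      have h2 : ∀ l : τ, (((ExZ_e (τ := τ) j (some l)).choose (ExZ_e (τ := τ) α (some l)) : ℕ) : ℂ) *
          (Kind.free (t i)).pt (ExZ_pos (τ := τ) (i : ℂ)) (some l) ^
            (ExZ_e (τ := τ) j (some l) - ExZ_e (τ := τ) α (some l)) = 1 := by
        intro l
        simp [ExZ_e]
      show _ = _ * ∏ l : τ, (((ExZ_e (τ := τ) j (some l)).choose (ExZ_e (τ := τ) α (some l)) : ℕ) : ℂ) *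
          (Kind.free (t i)).pt (ExZ_pos (τ := τ) (i : ℂ)) (some l) ^
            (ExZ_e (τ := τ) j (some l) - ExZ_e (τ := τ) α (some l))
      rw [prod_congr rfl fun l _ => h2 l, prod_const_one, mul_one]
      rfl)
  intro α hα
  rw [hA, mem_image] at hα
  obtain ⟨j, hj, rfl⟩ := hα
  exact key j (mem_range.1 hj)

end Pool.Agent.H18.Tl

end

section

/-!
# Module FinalD (TL): the dimension from the exactness of the needed multisets

The proof is the one of the private theorem `FinalK_dim` in `Pool/Agent/H18/Tk/FinalK.lean` (there the hypothesis `hex` is assumed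
for all multisets `S` with elements `≤ M`, but only used for `S = … + replicate (N - L) 1`).
-/

namespace Pool.Agent.H18.Tl

open Finset Function Pool.Agent.H18.Ex Pool.Agent.H18.Fat Pool.Agent.H18.Tj

/-- A free point of multiplicity one has one condition. -/
private theorem FinalD_Lx_one {ι : Type} [Fintype ι] [DecidableEq ι] (w : ι → ℕ) :
    Lx w 1 = 1 := by
  have h1 : Ex.Rg 0 w = {fun _ => 0} := by
    ext a
    rw [Ex.mem_Rg, mem_singleton]
    refine ⟨fun h => ?_, fun h => ?_⟩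
    · funext i
      have h2 : a i ≤ ∑ l, a l := single_le_sum (fun _ _ => Nat.zero_le _) (mem_univ i)
      omega
    · subst h
      exact ⟨fun _ => Nat.zero_le _, sum_const_zero⟩
  unfold Lx
  rw [if_neg one_ne_zero, Nat.sub_self, h1, card_singleton]

/-- The dimension of the reduced system. -/
theorem finalL_dim {r k d' s M : ℕ} (hr : 2 ≤ r) (m' : Fin k → ℕ)
    (J : Fin s ↪ Fin k) (hs1 : s ≤ r + 1) (hm : ∀ i, (∀ l, J l ≠ i) → m' i ≤ M)
    (hJ : ∀ l, m' (J l) ≤ d') (hMd : M ≤ d')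
    (hex : ∀ x : ℕ, (Ex.Rg d' (bw r d' s fun l => d' - m' (J l))).card ≤
        (((univ.filter fun i => ∀ l, J l ≠ i).val.map m' + Multiset.replicate x 1).map
          (Lx (bw r d' s fun l => d' - m' (J l)))).sum →
      GM (Ex.Rg d' (bw r d' s fun l => d' - m' (J l)))
        (((univ.filter fun i => ∀ l, J l ≠ i).val.map m' + Multiset.replicate x 1).map
          Kind.free)) :
    ForGeneralPoints r k fun p =>
      (Module.finrank ℂ (fatForms r d' p m') : ℤ) =
        max 0 ((cnt r s (fun l => d' - m' (J l)) d' : ℤ) -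
          ∑ i ∈ univ.filter (fun i => (∀ l, J l ≠ i) ∧ 1 ≤ m' i),
            (cnt r s (fun l => d' - m' (J l)) (m' i - 1) : ℤ)) := by
  have hsum : ∑ i ∈ univ.filter (fun i => (∀ l, J l ≠ i) ∧ 1 ≤ m' i),
      (cnt r s (fun l => d' - m' (J l)) (m' i - 1) : ℤ) =
      ((∑ i ∈ univ.filter (fun i => ∀ l, J l ≠ i),
        Lx (bw r d' s fun l => d' - m' (J l)) (m' i) : ℕ) : ℤ) := by
    rw [Nat.cast_sum, ← filter_filter, sum_filter]
    refine sum_congr rfl fun i hi => ?_
    have hi1 : ∀ l, J l ≠ i := (mem_filter.1 hi).2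
    have hi2 := hm i hi1
    unfold Lx
    by_cases h0 : m' i = 0
    · rw [if_neg (by omega), if_pos h0, Nat.cast_zero]
    · rw [if_pos (by omega), if_neg h0, count_eq r s d' (m' i - 1) hs1 (by omega)]
  rw [hsum, count_eq r s d' d' hs1 le_rfl]
  have hex1 := fun x => hex x
  generalize hLdef : ∑ i ∈ univ.filter (fun i => ∀ l, J l ≠ i),
    Lx (bw r d' s fun l => d' - m' (J l)) (m' i) = L
  generalize hNdef : (Ex.Rg d' (bw r d' s fun l => d' - m' (J l))).card = N
  have hup := upper (r := r) (d := d') (by omega) hs1 m' J hJ (N - L) (hex1 (N - L)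
    (by
      rw [Multiset.map_add, Multiset.sum_add, Multiset.map_map, Multiset.map_replicate,
        Multiset.sum_replicate, FinalD_Lx_one, hNdef]
      have h3 : (Multiset.map (Lx (bw r d' s fun l => d' - m' (J l)) ∘ m')
          (univ.filter fun i => ∀ l, J l ≠ i).val).sum = L := hLdef
      rw [h3, smul_eq_mul, mul_one]
      omega))
  have hlo := lower (r := r) (d := d') (by omega) hs1 m' J hJ
    fun i hi => (hm i hi).trans hMd
  refine (hup.and hlo).mono fun p hp => ?_
  obtain ⟨h1, h2⟩ := hp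
  rw [hLdef, hNdef] at h2
  omega

end Pool.Agent.H18.Tl

end

section

/-!
# Module ExB (TL): exactness of long boxes for balanced multisets

`bx b a`: the exponents `α : Option τ → ℕ` with `α none < a`, `α (some l) ≤ b l`.

Induction on the number of `l` with `0 < b l`.  Base `b = 0`: `ExB_zero` with `N = 1`; `Lm b m = m`, `Pc b = 1` (`Box b` has one element).
Step: let `0 < b y`, `ℓ = b y + 1`, `b' = update b y 0`, `N'` from the induction hypothesis for `b'`, `M`; `W m t = Lm b' (m - t)`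
(`Lm_dec`, `Lm_conv`); `D`, `n` from `weightsN ℓ M`; `N = N' * D`.  Let `S` have elements `≤ M` and `a * Pc b ≤ N * ∑_S Lm b`.  The
points: for every `m ∈ S` and `u < ℓ`, `N' * n m u` points with multiplicity `m` and `u_i = u` (altogether `N' * D = N` for each `m`; the
multiset of all pairs `(m, u)` is `P = ∑_{m ∈ S} ∑_{u<ℓ} replicate (N' * n m u) (m, u)`, and `P.map Prod.fst = N • S`).  `layers`
(`Pool/Agent/H18/Tj/Layer.lean`) with `y := some y`: the layer `s` is `bx b' a` and its multiset of multiplicities is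
`P.map (fun p => p.1 - rk ℓ p.2 0 s) = N' • S_s`, `S_s = ∑_{m ∈ S} ∑_{u<ℓ} replicate (n m u) (m - rk ℓ u 0 s)`, elements `≤ M`, and
`ℓ * ∑_{S_s} Lm b' = ∑_{m ∈ S} ℓ ∑_u n m u * Lm b' (m - rk ℓ u 0 s) = ∑_{m ∈ S} D * Lm b m` (`weightsN`, `Lm_split`), so
`ℓ * (N' * ∑_{S_s} Lm b') = N * ∑_S Lm b ≥ a * Pc b = ℓ * (a * Pc b')` (`Pc_split`).
`GM_iff` (`Pool/Agent/H18/Ex/Multi.lean`) translates between `GM` and `GI` (`thin_stepG` in `Tk/ThinG.lean` is an example).
-/

namespace Pool.Agent.H18.Tl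

open Finset Function Pool.Agent.H18.Ex

variable {τ : Type} [Fintype τ] [DecidableEq τ]

/-- the image of a sum of replicated elements -/
private theorem ExB_map {X Y : Type} (g : X → Y) (S : Multiset ℕ) (ℓ : ℕ) (n : ℕ → ℕ → ℕ)
    (f : ℕ → ℕ → X) :
    (S.map fun m => ∑ u ∈ range ℓ, Multiset.replicate (n m u) (f m u)).sum.map g =
      (S.map fun m => ∑ u ∈ range ℓ, Multiset.replicate (n m u) (g (f m u))).sum := by
  have h1 : ∀ T : Multiset X, T.map g = Multiset.mapAddMonoidHom g T := fun _ => rfl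
  rw [h1, map_multiset_sum, Multiset.map_map]
  congr 1
  refine Multiset.map_congr rfl fun m _ => ?_
  show Multiset.mapAddMonoidHom g (∑ u ∈ range ℓ, Multiset.replicate (n m u) (f m u)) = _
  rw [map_sum]
  refine sum_congr rfl fun u _ => ?_
  show (Multiset.replicate (n m u) (f m u)).map g = _
  rw [Multiset.map_replicate]

/-- multiples of a sum of replicated elements -/
private theorem ExB_smul {X : Type} (N : ℕ) (S : Multiset ℕ) (ℓ : ℕ) (n : ℕ → ℕ → ℕ)
    (f : ℕ → ℕ → X) :
    (S.map fun m => ∑ u ∈ range ℓ, Multiset.replicate (N * n m u) (f m u)).sum =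
      N • (S.map fun m => ∑ u ∈ range ℓ, Multiset.replicate (n m u) (f m u)).sum := by
  rw [← Multiset.sum_map_nsmul]
  congr 1
  refine Multiset.map_congr rfl fun m _ => ?_
  rw [Finset.smul_sum]
  refine sum_congr rfl fun u _ => ?_
  rw [Multiset.nsmul_replicate]

/-- the sum of the values of a sum of replicated elements -/
private theorem ExB_val (L : ℕ → ℕ) (S : Multiset ℕ) (ℓ : ℕ) (n : ℕ → ℕ → ℕ)
    (f : ℕ → ℕ → ℕ) :
    ((S.map fun m => ∑ u ∈ range ℓ, Multiset.replicate (n m u) (f m u)).sum.map L).sum =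
      (S.map fun m => ∑ u ∈ range ℓ, n m u * L (f m u)).sum := by
  rw [ExB_map L S ℓ n f]
  have h1 : ∀ T : Multiset ℕ, T.sum = Multiset.sumAddMonoidHom T := fun _ => rfl
  rw [h1, map_multiset_sum, Multiset.map_map]
  congr 1
  refine Multiset.map_congr rfl fun m _ => ?_
  show Multiset.sumAddMonoidHom (∑ u ∈ range ℓ, Multiset.replicate (n m u) (L (f m u))) = _
  rw [map_sum]
  refine sum_congr rfl fun u _ => ?_
  show (Multiset.replicate (n m u) (L (f m u))).sum = _
  rw [Multiset.sum_replicate, smul_eq_mul]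

private theorem ExB_mem {X : Type} {S : Multiset ℕ} {ℓ : ℕ} {n : ℕ → ℕ → ℕ}
    {f : ℕ → ℕ → X} {x : X}
    (h : x ∈ (S.map fun m => ∑ u ∈ range ℓ, Multiset.replicate (n m u) (f m u)).sum) :
    ∃ m ∈ S, ∃ u < ℓ, x = f m u := by
  obtain ⟨T, hT, hx⟩ := Multiset.mem_join.1 (show x ∈ Multiset.join _ from h)
  obtain ⟨m, hm, rfl⟩ := Multiset.mem_map.1 hT
  rw [Multiset.mem_sum] at hx
  obtain ⟨u, hu, hx⟩ := hx
  exact ⟨m, hm, u, mem_range.1 hu, Multiset.eq_of_mem_replicate hx⟩

/-- the layers of a box -/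
private theorem ExB_lyr (b : τ → ℕ) (a : ℕ) (y : τ) (s : ℕ) (hs : s ≤ b y) :
    Tj.lyr (bx b a) (some y) s = bx (update b y 0) a := by
  ext c
  unfold Tj.lyr
  rw [mem_image, mem_bx]
  constructor
  · rintro ⟨α, hα, rfl⟩
    rw [mem_filter, mem_bx] at hα
    obtain ⟨⟨h1, h2⟩, h3⟩ := hα
    refine ⟨?_, ?_⟩
    · rw [update_of_ne (by simp)]
      exact h1
    · intro l
      by_cases hl : l = y
      · subst hl
        rw [update_self, update_self]
      · rw [update_of_ne (by simpa using hl), update_of_ne hl]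
        exact h2 l
  · rintro ⟨h1, h2⟩
    have hc : c (some y) = 0 := by
      have h3 := h2 y
      rw [update_self] at h3
      omega
    refine ⟨update c (some y) s, ?_, ?_⟩
    · rw [mem_filter, mem_bx]
      refine ⟨⟨?_, ?_⟩, update_self _ _ _⟩
      · rw [update_of_ne (by simp)]
        exact h1
      · intro l
        by_cases hl : l = y
        · subst hl
          rw [update_self]
          exact hs
        · have h3 := h2 l
          rw [update_of_ne hl] at h3
          rw [update_of_ne (by simpa using hl)]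
          exact h3
    · rw [update_idem, ← hc, update_eq_self]

private theorem ExB_base (b : τ → ℕ) (hb : ∀ l, b l = 0) (m : ℕ) : Lm b m = m ∧ Pc b = 1 := by
  obtain rfl : b = fun _ => 0 := funext hb
  have : Subsingleton (Box (fun _ : τ => 0)) := ⟨fun x y => by
    funext l
    exact Subsingleton.elim (α := Fin 1) _ _⟩
  have hc : Pc (fun _ : τ => 0) = 1 := by
    unfold Pc
    exact Fintype.card_eq_one_iff.2 ⟨zb _, fun y => Subsingleton.elim _ _⟩
  refine ⟨?_, hc⟩
  unfold Lm
  have h1 : ∀ γ : Box (fun _ : τ => 0), m - dg γ = m := by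
    intro γ
    have h2 : dg γ = 0 := by
      unfold dg
      refine sum_eq_zero fun l _ => ?_
      exact Nat.lt_one_iff.1 (γ l).isLt
    rw [h2, Nat.sub_zero]
  rw [sum_congr rfl fun γ _ => h1 γ, sum_const, card_univ]
  unfold Pc at hc
  rw [hc, one_smul]

private theorem ExB_step (b : τ → ℕ) (M : ℕ) (y : τ) (_hy : 0 < b y)
    (ih : ∃ N : ℕ, 1 ≤ N ∧ ∀ (S : Multiset ℕ) (a : ℕ),
      (∀ m ∈ S, m ≤ M) → a * Pc (update b y 0) ≤ N * (S.map (Lm (update b y 0))).sum →
      GM (bx (update b y 0) a) ((N • S).map Kind.free)) :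
    ∃ N : ℕ, 1 ≤ N ∧ ∀ (S : Multiset ℕ) (a : ℕ),
    (∀ m ∈ S, m ≤ M) → a * Pc b ≤ N * (S.map (Lm b)).sum →
    GM (bx b a) ((N • S).map Kind.free) := by
  obtain ⟨N', hN', ih⟩ := ih
  obtain ⟨ℓ, hℓ⟩ : ∃ ℓ, ℓ = b y + 1 := ⟨_, rfl⟩
  obtain ⟨D, n, hD, hn⟩ := weightsN ℓ M (by omega) (fun m t => Lm (update b y 0) (m - t))
    (fun m i => Lm_dec _ m i) (fun m i => Lm_conv _ m i)
  refine ⟨N' * D, Nat.mul_pos hN' hD, ?_⟩
  intro S a hS ha
  obtain ⟨P, hP⟩ : ∃ P : Multiset (ℕ × ℕ), P =
      (S.map fun m => ∑ u ∈ range ℓ, Multiset.replicate (N' * n m u) (m, u)).sum := ⟨_, rfl⟩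
  obtain ⟨K, t, ht⟩ := multi_exists_fin P
  have htP : ∀ i, t i ∈ P := by
    intro i
    rw [← ht]
    exact Multiset.mem_map.2 ⟨i, (by rw [Finset.mem_val]; exact Finset.mem_univ _), rfl⟩
  have hfst : P.map Prod.fst = (N' * D) • S := by
    rw [hP, ExB_map]
    have h1 : (S.map fun m => ∑ u ∈ range ℓ, Multiset.replicate (N' * n m u) (m, u).1) =
        S.map fun m => (N' * D) • ({m} : Multiset ℕ) := by
      refine Multiset.map_congr rfl fun m hm => ?_
      have h2 := (hn m (hS m hm)).1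
      have h3 : ∀ u ∈ range ℓ, Multiset.replicate (N' * n m u) (m, u).1 =
          (N' * n m u) • ({m} : Multiset ℕ) := by
        intro u _
        rw [Multiset.nsmul_singleton]
      rw [sum_congr rfl h3, ← Finset.sum_smul, ← mul_sum, h2]
    rw [h1, Multiset.sum_map_nsmul, Multiset.sum_map_singleton]
  rw [← hfst, ← ht, Multiset.map_map, Multiset.map_map, GM_iff]
  refine Tj.layers (bx b a) (some y) ℓ ?_ (fun i => (t i).1) (fun i => (t i).2) ?_ ?_
  · intro α hα
    have := (mem_bx.1 hα).2 y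
    omega
  · intro i
    have h1 := htP i
    rw [hP] at h1
    obtain ⟨m, _, u, hu, h2⟩ := ExB_mem h1
    rw [h2]
    exact hu
  · intro s hs
    rw [ExB_lyr b a y s (by omega)]
    have h1 := GM_iff (bx (update b y 0) a)
      (fun i => Kind.free (ι := Option τ) ((t i).1 - Ta.rk ℓ (t i).2 0 s))
    rw [← h1]
    obtain ⟨T, hT⟩ : ∃ T : Multiset ℕ, T =
      (S.map fun m => ∑ u ∈ range ℓ, Multiset.replicate (n m u) (m - Ta.rk ℓ u 0 s)).sum :=
        ⟨_, rfl⟩
    have h2 : (univ : Finset (Fin K)).val.map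
        (fun i => Kind.free (ι := Option τ) ((t i).1 - Ta.rk ℓ (t i).2 0 s)) =
        (N' • T).map Kind.free := by
      have h3 : (univ : Finset (Fin K)).val.map
          (fun i => Kind.free (ι := Option τ) ((t i).1 - Ta.rk ℓ (t i).2 0 s)) =
          (((univ : Finset (Fin K)).val.map t).map fun p => p.1 - Ta.rk ℓ p.2 0 s).map
            Kind.free := by
        rw [Multiset.map_map, Multiset.map_map]
        rfl
      rw [h3, ht, hP, ExB_map, hT, ← ExB_smul]
    rw [h2]
    refine ih T a ?_ ?_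
    · intro x hx
      rw [hT] at hx
      obtain ⟨m, hm, u, _, rfl⟩ := ExB_mem hx
      exact (Nat.sub_le _ _).trans (hS m hm)
    · rw [hT, ExB_val]
      have h4 : ℓ * (S.map fun m => ∑ u ∈ range ℓ,
          n m u * Lm (update b y 0) (m - Ta.rk ℓ u 0 s)).sum = D * (S.map (Lm b)).sum := by
        rw [← Multiset.sum_map_mul_left, ← Multiset.sum_map_mul_left]
        congr 1
        refine Multiset.map_congr rfl fun m hm => ?_
        rw [(hn m (hS m hm)).2 s hs, Lm_split b y m, hℓ]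
      have h5 : Pc b = ℓ * Pc (update b y 0) := by
        rw [Pc_split b y, hℓ]
      rw [h5] at ha
      have h6 : 0 < ℓ := by omega
      refine Nat.le_of_mul_le_mul_left ?_ h6
      calc ℓ * (a * Pc (update b y 0)) = a * (ℓ * Pc (update b y 0)) := by ring
        _ ≤ N' * D * (S.map (Lm b)).sum := ha
        _ = N' * (D * (S.map (Lm b)).sum) := by ring
        _ = N' * (ℓ * (S.map fun m => ∑ u ∈ range ℓ,
          n m u * Lm (update b y 0) (m - Ta.rk ℓ u 0 s)).sum) := by rw [h4]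
        _ = _ := by ring

private theorem ExB_ind (M n : ℕ) : ∀ b : τ → ℕ, (univ.filter fun l => 0 < b l).card ≤ n →
    ∃ N : ℕ, 1 ≤ N ∧ ∀ (S : Multiset ℕ) (a : ℕ),
    (∀ m ∈ S, m ≤ M) → a * Pc b ≤ N * (S.map (Lm b)).sum →
    GM (bx b a) ((N • S).map Kind.free) := by
  have hbase : ∀ b : τ → ℕ, (∀ l, b l = 0) →
      ∃ N : ℕ, 1 ≤ N ∧ ∀ (S : Multiset ℕ) (a : ℕ),
      (∀ m ∈ S, m ≤ M) → a * Pc b ≤ N * (S.map (Lm b)).sum →
      GM (bx b a) ((N • S).map Kind.free) := by
    intro b hb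
    refine ⟨1, le_rfl, fun S a _ ha => ?_⟩
    rw [one_smul]
    apply ExB_zero b hb
    rw [(ExB_base b hb 0).2, mul_one, one_mul] at ha
    have h1 : S.map (Lm b) = S := by
      conv_rhs => rw [← Multiset.map_id S]
      exact Multiset.map_congr rfl fun m _ => (ExB_base b hb m).1
    rw [h1] at ha
    exact ha
  induction n with
  | zero =>
    intro b hb
    apply hbase
    intro l
    by_contra hcon
    have h1 : l ∈ univ.filter fun l => 0 < b l := mem_filter.2 ⟨mem_univ _, by omega⟩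
    have h2 := card_pos.2 ⟨l, h1⟩
    omega
  | succ n ih =>
    intro b hb
    by_cases hact : ∃ y, 0 < b y
    · obtain ⟨y, hy⟩ := hact
      apply ExB_step b M y hy
      apply ih
      have h2 : (univ.filter fun l => 0 < update b y 0 l) ⊆
          (univ.filter fun l => 0 < b l).erase y := by
        intro l hl
        obtain ⟨_, h3⟩ := mem_filter.1 hl
        have hly : l ≠ y := by
          rintro rfl
          rw [update_self] at h3
          exact absurd h3 (lt_irrefl 0)
        rw [update_of_ne hly] at h3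
        exact mem_erase.2 ⟨hly, mem_filter.2 ⟨mem_univ _, h3⟩⟩
      have h3 := card_le_card h2
      have h4 : y ∈ univ.filter fun l => 0 < b l := mem_filter.2 ⟨mem_univ _, hy⟩
      rw [card_erase_of_mem h4] at h3
      omega
    · push Not at hact
      exact hbase b fun l => by have := hact l; omega

theorem exB (b : τ → ℕ) (M : ℕ) : ∃ N : ℕ, 1 ≤ N ∧ ∀ (S : Multiset ℕ) (a : ℕ),
    (∀ m ∈ S, m ≤ M) → a * Pc b ≤ N * (S.map (Lm b)).sum →
    GM (bx b a) ((N • S).map Kind.free) :=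
  ExB_ind M _ b le_rfl

end Pool.Agent.H18.Tl

end

section

/-!
# Module ExC (TL): existence of exact blocks

`exB` for `M = μ`, `S = replicate (Pc b) μ`, `a = N * Lm b μ`: `GM (bx b a) ((replicate (N * Pc b) μ).map Kind.free)`.  So for `n = N * Pc b` points,
`GI (bx b a) (fun _ : Fin n => Kind.free μ)`; by `GI.general` (`Pool/Agent/H18/Ex/Gen.lean`) and the nonzero polynomial
`∏_{i<j} (X (i, none) - X (j, none))` there are positions `pos` with distinct `pos i none` and `InjAt`.
`L = List.ofFn fun i => ⟨μ, pos i none, fun l => pos i (some l)⟩`.  `inj`: let `F ∈ U b a`, `F ∈ vanL b L`, and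
`f α = (F β).coeff (α none)` for `β l = α (some l)` (`α ∈ bx b a`; otherwise `0`).  For a multi-index `c`, `|c| < μ`:
`∑_{α ∈ bx b a} f α * tcr (pos i) α c` is `(taylor x (act (tz b z) F γ)).coeff (c none)`, `γ l = c (some l)`, if `c (some l) ≤ b l` for all `l`
(`taylor_coeff`, `hasseDeriv`), which is `0` by `van_iff`; otherwise all terms are `0` (`binom = 0`).  So `f = 0` on `bx b a`, `F = 0`.
-/

namespace Pool.Agent.H18.Tl

open Finset Polynomial Pool.Agent.H18.Ex

variable {τ : Type} [Fintype τ] [DecidableEq τ]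

/-- The exponent with first coordinate `j` and the other coordinates `β`. -/
private def ExC_e {b : τ → ℕ} (j : ℕ) (β : Box b) : Option τ → ℕ := fun o =>
  match o with
  | none => j
  | some l => (β l : ℕ)

private theorem ExC_sum {b : τ → ℕ} {a : ℕ} (g : (Option τ → ℕ) → ℂ) :
    ∑ α ∈ bx b a, g α = ∑ β : Box b, ∑ j ∈ range a, g (ExC_e j β) := by
  rw [← Finset.sum_product']
  symm
  refine Finset.sum_nbij (fun p => ExC_e p.2 p.1) ?_ ?_ ?_ ?_
  · intro p hp
    rw [mem_product] at hp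
    rw [mem_bx]
    exact ⟨mem_range.1 hp.2, fun l => Nat.lt_succ_iff.1 (p.1 l).2⟩
  · intro p _ p' _ h
    have h1 : p.2 = p'.2 := congrFun h none
    have h2 : p.1 = p'.1 := by
      funext l
      exact Fin.ext (congrFun h (some l))
    exact Prod.ext h2 h1
  · intro α hα
    have hα' := mem_bx.1 (mem_coe.1 hα)
    refine ⟨(fun l => ⟨α (some l), Nat.lt_succ_iff.2 (hα'.2 l)⟩, α none), ?_, ?_⟩
    · rw [mem_coe, mem_product]
      exact ⟨mem_univ _, mem_range.2 hα'.1⟩
    · funext o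
      cases o with
      | none => rfl
      | some l => rfl
  · intro p _
    rfl

omit [DecidableEq τ] in
private theorem ExC_tcr {b : τ → ℕ} (q : Option τ → ℂ) (j : ℕ) (β : Box b) (c : Option τ → ℕ) :
    tcr q (ExC_e j β) c = (((j.choose (c none) : ℕ) : ℂ) * q none ^ (j - c none)) *
      ∏ l, ((((β l : ℕ).choose (c (some l)) : ℕ) : ℂ) * q (some l) ^ ((β l : ℕ) - c (some l))) := by
  unfold tcr
  rw [Fintype.prod_option]
  rfl

private theorem ExC_taylor (x : ℂ) (P : ℂ[X]) (a n : ℕ) (hP : ∀ j, a ≤ j → P.coeff j = 0) :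
    (taylor x P).coeff n =
      ∑ j ∈ range a, P.coeff j * (((j.choose n : ℕ) : ℂ) * x ^ (j - n)) := by
  have hs : P.support ⊆ range a := by
    intro i hi
    rw [mem_range]
    by_contra h
    exact (mem_support_iff.1 hi) (hP i (not_lt.1 h))
  rw [taylor_coeff, hasseDeriv_apply, Polynomial.sum_eq_of_subset _ ?_ hs, eval_finsetSum]
  · refine sum_congr rfl fun j _ => ?_
    rw [eval_monomial]
    ring
  · intro i
    rw [mul_zero, monomial_zero_right]

private theorem ExC_dvd (x : ℂ) (P : ℂ[X]) (k n : ℕ) (h : (X - C x) ^ k ∣ P) (hn : n < k) :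
    (taylor x P).coeff n = 0 := by
  obtain ⟨Q, rfl⟩ := h
  have h1 : taylor x ((X - C x) ^ k) = X ^ k := by
    rw [taylor_apply, pow_comp, sub_comp, X_comp, C_comp, add_sub_cancel_right]
  rw [taylor_mul, h1, coeff_X_pow_mul', if_neg (not_le.2 hn)]

theorem exists_blk (b : τ → ℕ) (μ : ℕ) (hμ : 1 ≤ μ) :
    ∃ (a : ℕ) (L : List (Pt τ)), Blk b μ a L ∧ L ≠ [] := by
  obtain ⟨N, hN, hE⟩ := exB b μ
  have h1 : GM (bx b (N * Lm b μ)) ((N • Multiset.replicate (Pc b) μ).map Kind.free) := by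
    refine hE _ _ ?_ ?_
    · intro m hm
      rw [Multiset.eq_of_mem_replicate hm]
    · rw [Multiset.map_replicate, Multiset.sum_replicate, smul_eq_mul, mul_assoc,
        mul_comm (Lm b μ)]
  rw [Multiset.nsmul_replicate, Multiset.map_replicate] at h1
  have h2 : GI (bx b (N * Lm b μ)) (fun _ : Fin (N * Pc b) => (Kind.free μ : Kind (Option τ))) := by
    rw [← GM_iff, Multiset.map_const', card_val, card_univ, Fintype.card_fin]
    exact h1
  obtain ⟨G, hG, hG'⟩ := h2.general
  have hD : (∏ x ∈ (univ : Finset (Fin (N * Pc b))).offDiag,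
      ((MvPolynomial.X (x.1, none) - MvPolynomial.X (x.2, none)) :
        MvPolynomial (Fin (N * Pc b) × Option τ) ℂ)) ≠ 0 := by
    refine prod_ne_zero_iff.2 fun x hx => ?_
    rw [mem_offDiag] at hx
    refine sub_ne_zero.2 fun h => hx.2.2 ?_
    exact (Prod.ext_iff.1 (MvPolynomial.X_injective h)).1
  obtain ⟨y, hy⟩ : ∃ y : Fin (N * Pc b) × Option τ → ℂ, MvPolynomial.eval y
      (G * ∏ x ∈ (univ : Finset (Fin (N * Pc b))).offDiag,
      ((MvPolynomial.X (x.1, none) - MvPolynomial.X (x.2, none)) :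
        MvPolynomial (Fin (N * Pc b) × Option τ) ℂ)) ≠ 0 := by
    by_contra hcon
    push Not at hcon
    exact mul_ne_zero hG hD (MvPolynomial.funext fun x => by rw [hcon x, map_zero])
  rw [map_mul] at hy
  have hinj := hG' (fun i o => y (i, o)) (left_ne_zero_of_mul hy)
  have hdis : ∀ i j : Fin (N * Pc b), i ≠ j → y (i, none) ≠ y (j, none) := by
    intro i j hij h
    have h3 := right_ne_zero_of_mul hy
    rw [map_prod, prod_ne_zero_iff] at h3
    have h4 := h3 (i, j) (mem_offDiag.2 ⟨mem_univ _, mem_univ _, hij⟩)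
    rw [map_sub, MvPolynomial.eval_X, MvPolynomial.eval_X] at h4
    exact h4 (sub_eq_zero.2 h)
  refine ⟨N * Lm b μ, List.ofFn fun i : Fin (N * Pc b) =>
    (⟨μ, y (i, none), fun l => y (i, some l)⟩ : Pt τ), ⟨?_, ?_, ?_, ?_⟩, ?_⟩
  · intro p hp
    obtain ⟨i, rfl⟩ := List.mem_ofFn.1 hp
    rfl
  · rw [List.map_ofFn, List.nodup_ofFn]
    intro i j hij
    by_contra hne
    exact hdis i j hne hij
  · rw [List.length_ofFn]
    ring
  · intro F hU hF
    have hf := hinj (fun α => if h : ∀ l, α (some l) < b l + 1 then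
      (F fun l => ⟨α (some l), h l⟩).coeff (α none) else 0) ?_
    · funext β
      ext j
      rw [Pi.zero_apply, coeff_zero]
      rcases lt_or_ge j (N * Lm b μ) with hj | hj
      · have h3 := hf (ExC_e j β) (mem_bx.2 ⟨hj, fun l => Nat.lt_succ_iff.1 (β l).2⟩)
        have hl : ∀ l, ExC_e j β (some l) < b l + 1 := fun l => (β l).2
        rw [dif_pos hl] at h3
        exact h3
      · exact hU β j hj
    · intro i c hc
      have hc' : c none + ∑ l, c (some l) < μ := by
        have h3 : ∑ o, c o < μ := hc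
        rwa [Fintype.sum_option] at h3
      rw [ExC_sum]
      have h4 : ∀ (β : Box b), ∀ j ∈ range (N * Lm b μ),
          (if h : ∀ l, (ExC_e j β) (some l) < b l + 1 then
            (F fun l => ⟨(ExC_e j β) (some l), h l⟩).coeff ((ExC_e j β) none) else 0) *
            tcr ((Kind.free μ : Kind (Option τ)).pt fun o => y (i, o)) (ExC_e j β) c =
          (F β).coeff j * ((((j.choose (c none) : ℕ) : ℂ) * y (i, none) ^ (j - c none)) *
          ∏ l, ((((β l : ℕ).choose (c (some l)) : ℕ) : ℂ) *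
            y (i, some l) ^ ((β l : ℕ) - c (some l)))) := by
        intro β j _
        have hl : ∀ l, ExC_e j β (some l) < b l + 1 := fun l => (β l).2
        rw [dif_pos hl, ExC_tcr]
        rfl
      rw [sum_congr rfl fun β _ => sum_congr rfl (h4 β)]
      by_cases hb : ∀ l, c (some l) < b l + 1
      · have hvan := hF _ ((List.mem_ofFn.2 ⟨i, rfl⟩))
        have h5 := hvan (fun l => ⟨c (some l), hb l⟩)
        have h6 : dg (fun l => ⟨c (some l), hb l⟩ : Box b) = ∑ l, c (some l) := rfl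
        have h7 := ExC_dvd _ _ _ (c none) h5 (by
          rw [h6]
          show c none < μ - _
          omega)
        rw [act_apply, map_sum, finsetSum_coeff] at h7
        refine Eq.trans (sum_congr rfl fun β _ => ?_) h7
        have h8 : ∀ P : ℂ[X], ∀ r s : ℂ, taylor r (C s * P) = C s * taylor r P := by
          intro P r s
          rw [taylor_mul, taylor_C]
        rw [h8, coeff_C_mul, ExC_taylor _ _ _ _ (fun j hj => hU β j hj), mul_sum]
        refine sum_congr rfl fun j _ => ?_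
        show _ = (∏ l, ((((β l : ℕ).choose (c (some l)) : ℕ) : ℂ) *
            y (i, some l) ^ ((β l : ℕ) - c (some l)))) * _
        ring
      · push Not at hb
        obtain ⟨l, hl⟩ := hb
        refine sum_eq_zero fun β _ => sum_eq_zero fun j _ => ?_
        have h9 : ∏ l, ((((β l : ℕ).choose (c (some l)) : ℕ) : ℂ) *
            y (i, some l) ^ ((β l : ℕ) - c (some l))) = 0 := by
          refine prod_eq_zero (mem_univ l) ?_
          rw [Nat.choose_eq_zero_of_lt (lt_of_lt_of_le (β l).2 hl), Nat.cast_zero, zero_mul]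
        rw [h9, mul_zero, mul_zero]
  · intro h
    have h3 := congrArg List.length h
    rw [List.length_ofFn, List.length_nil] at h3
    have h4 := Pc_pos b
    have h5 : 0 < N * Pc b := Nat.mul_pos (by omega) (by omega)
    omega

end Pool.Agent.H18.Tl

end

section

/-!
# Module Ins (TL): insertion of a tiny exact block at `t = 0`

Let `Pk` be as in `exists_td` for the block `L'`, `E = Ve b e`, `Q = V b ⧸ vanL b L` (as `ℂ`-spaces), `M k : E → Q` the class of `Pk k`,
`n = a + (e + 1)` (`Ve b e ≤ U b (e + 1)`), `n ≥ 2`.  For `δ ≠ 0` the map `s ↦ ∑_{k<n} δ^k Pk k s` is an isomorphism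
from `ker (∑ δ^k M k)` onto `Sol b (e + a) (L ++ scL δ L')`: the value has the form `X^a s + r`, `r ∈ U b a` (so the map is injective, `s`
is the quotient by `X^a`), it is in `Ve b (e + a)` (`j + dg β ≤ e` for the terms of `s`; `r`: `j < a`, `dg β ≤ Bs b ≤ e + 1`), it
vanishes at `scL δ L'`; and an element `G` of `Sol b (e + a) (L ++ scL δ L')` is `X^a s + r` with `s ∈ Ve b e` (`exists_div`), and
`G - ∑ δ^k Pk k s ∈ U b a` vanishes at `scL δ L'`, so it is `0` (`(Blk.sc h δ hδ).inj`).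
`ker (M 0) = Sol b e L` (`X^a • s ∈ vanL b L ↔ s ∈ vanL b L`, `vanL_unit`, `hx`).
`ins_le`: `ker_le`.  `ins_lt`: `ker_lt` with `v = s`: if `M 0 w + M 1 s = 0`, then `X^a w + X^(a-1) cv (Φ₁ s(0)) ∈ vanL b L`, so
`G = X w + cv (Φ₁ s(0)) ∈ vanL b L` by `vanL_unit`, `G ∈ Ve b (e + 1)` and `e0 G = Φ₁ (e0 s)`, against `hn`.
-/

namespace Pool.Agent.H18.Tl

open Finset Polynomial

variable {τ : Type} [Fintype τ] [DecidableEq τ] {b : τ → ℕ} {μ a e : ℕ} {L L' : List (Pt τ)}
  {Φ : Matrix (Box b) (Box b) ℂ[X]}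

omit [DecidableEq τ] in
private theorem Ins_dg_le (β : Box b) : dg β ≤ Bs b :=
  Finset.sum_le_sum fun l _ => Nat.lt_succ_iff.1 (β l).2

omit [DecidableEq τ] in
private theorem Ins_Ve_le_U {s : V b} (hs : s ∈ Ve b e) : s ∈ U b (e + 1) :=
  fun β j hj => hs β j (by omega)

/-- the class of `Pk k` -/
private noncomputable def InsM (b : τ → ℕ) (e : ℕ) (L : List (Pt τ)) (Pk : ℕ → V b →ₗ[ℂ] V b)
    (k : ℕ) : Ve b e →ₗ[ℂ] (V b ⧸ (vanL b L).restrictScalars ℂ) :=
  ((vanL b L).restrictScalars ℂ).mkQ ∘ₗ Pk k ∘ₗ (Ve b e).subtype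

private theorem Ins_M_apply (Pk : ℕ → V b →ₗ[ℂ] V b) (k : ℕ) (s : Ve b e) :
    InsM b e L Pk k s = ((vanL b L).restrictScalars ℂ).mkQ (Pk k s) := rfl

private theorem Ins_sum_apply (Pk : ℕ → V b →ₗ[ℂ] V b) (n : ℕ) (δ : ℂ) (s : Ve b e) :
    (∑ k ∈ range n, δ ^ k • InsM b e L Pk k) s =
      ((vanL b L).restrictScalars ℂ).mkQ ((∑ k ∈ range n, δ ^ k • Pk k) s) := by
  rw [LinearMap.sum_apply, LinearMap.sum_apply, map_sum]
  refine sum_congr rfl fun k _ => ?_
  rw [LinearMap.smul_apply, LinearMap.smul_apply, map_smul]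
  rfl

/-- the kernel of `M 0` -/
private theorem Ins_ker0 (hx : ∀ p ∈ L, p.x ≠ 0) (Pk : ℕ → V b →ₗ[ℂ] V b)
    (h0' : ∀ s, Pk 0 s = (X : ℂ[X]) ^ a • s) :
    Module.finrank ℂ (LinearMap.ker (InsM b e L Pk 0)) ≤ h0 b e L := by
  rw [← Submodule.finrank_map_subtype_eq (Ve b e) (LinearMap.ker (InsM b e L Pk 0)), h0]
  refine Submodule.finrank_mono ?_
  rintro _ ⟨s, hs, rfl⟩
  refine ⟨s.2, ?_⟩
  have h1 : InsM b e L Pk 0 s = 0 := hs
  rw [Ins_M_apply, Submodule.mkQ_apply, Submodule.Quotient.mk_eq_zero, h0'] at h1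
  refine vanL_unit L ((X : ℂ[X]) ^ a) (fun p hp => ?_) _ h1
  rw [eval_pow, eval_X]
  exact pow_ne_zero _ (hx p hp)

/-- the solutions come from the kernel -/
private theorem Ins_sol (h : Blk b μ a L') (Pk : ℕ → V b →ₗ[ℂ] V b)
    (h0' : ∀ s, Pk 0 s = (X : ℂ[X]) ^ a • s) (hU : ∀ k s, 1 ≤ k → Pk k s ∈ U b a)
    (hV : ∀ (n : ℕ) (s : V b), s ∈ U b n → ∀ δ : ℂ, δ ≠ 0 →
        ∑ k ∈ range (a + n), δ ^ k • Pk k s ∈ vanL b (scL δ L')) (δ : ℂ) (hδ : δ ≠ 0) :
    h0 b (e + a) (L ++ scL δ L') ≤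
      Module.finrank ℂ (LinearMap.ker (∑ k ∈ range (a + (e + 1)), δ ^ k • InsM b e L Pk k)) := by
  have hmap := Submodule.finrank_map_le
    ((∑ k ∈ range (a + (e + 1)), δ ^ k • Pk k) ∘ₗ (Ve b e).subtype)
    (LinearMap.ker (∑ k ∈ range (a + (e + 1)), δ ^ k • InsM b e L Pk k))
  refine le_trans ?_ hmap
  rw [h0]
  refine Submodule.finrank_mono ?_
  intro G hG
  obtain ⟨hG1, hG2⟩ := mem_Sol.1 hG
  obtain ⟨hG3, hG4⟩ := (vanL_append _ _ _).1 hG2
  obtain ⟨s, hs1, hs2⟩ := exists_div a G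
  have hs : s ∈ Ve b e := by
    intro β j hj
    rw [hs2]
    exact hG1 β (j + a) (by omega)
  have hap : (∑ k ∈ range (a + (e + 1)), δ ^ k • Pk k) s =
      ∑ k ∈ range (a + (e + 1)), δ ^ k • Pk k s := by
    rw [LinearMap.sum_apply]
    rfl
  have hr : (∑ k ∈ range (a + (e + 1)), δ ^ k • Pk k s) - (X : ℂ[X]) ^ a • s ∈ U b a := by
    rw [show a + (e + 1) = (a + e) + 1 by ring, sum_range_succ', pow_zero, one_smul, h0',
      add_sub_cancel_right]
    exact Submodule.sum_mem _ fun k _ => Submodule.smul_mem _ _ (hU (k + 1) s (by omega))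
  have hGs : G = ∑ k ∈ range (a + (e + 1)), δ ^ k • Pk k s := by
    have h1 : G - ∑ k ∈ range (a + (e + 1)), δ ^ k • Pk k s ∈ U b a := by
      have h2 := Submodule.sub_mem _ hs1 hr
      rwa [sub_sub_sub_cancel_right] at h2
    have h3 : G - ∑ k ∈ range (a + (e + 1)), δ ^ k • Pk k s ∈ vanL b (scL δ L') :=
      Submodule.sub_mem _ hG4 (hV (e + 1) s (Ins_Ve_le_U hs) δ hδ)
    exact sub_eq_zero.1 ((Blk.sc h δ hδ).inj _ h1 h3)
  refine ⟨⟨s, hs⟩, ?_, ?_⟩
  · change (∑ k ∈ range (a + (e + 1)), δ ^ k • InsM b e L Pk k) ⟨s, hs⟩ = 0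
    rw [Ins_sum_apply, Submodule.mkQ_apply, Submodule.Quotient.mk_eq_zero]
    change (∑ k ∈ range (a + (e + 1)), δ ^ k • Pk k) s ∈ vanL b L
    rw [hap, ← hGs]
    exact hG3
  · change (∑ k ∈ range (a + (e + 1)), δ ^ k • Pk k) s = G
    rw [hap, ← hGs]

theorem ins_le (hx : ∀ p ∈ L, p.x ≠ 0) (h : Blk b μ a L') (ha : 1 ≤ a) (hB : Bs b ≤ e + 1) :
    ∃ T : Set ℂ, T.Finite ∧ ∀ δ : ℂ, δ ∉ T → h0 b (e + a) (L ++ scL δ L') ≤ h0 b e L := by
  obtain ⟨Φ, hΦ⟩ := exists_ph h
  obtain ⟨Pk, p0, -, pU, -, pV⟩ := exists_td h hΦ ha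
  obtain ⟨T, hT, h1⟩ := ker_le (InsM b e L Pk) (a + (e + 1)) (by omega)
  refine ⟨insert 0 T, hT.insert 0, fun δ hδ => ?_⟩
  rw [Set.mem_insert_iff, not_or] at hδ
  exact (Ins_sol h Pk p0 pU pV δ hδ.1).trans ((h1 δ hδ.2).trans (Ins_ker0 hx Pk p0))

theorem ins_lt (hx : ∀ p ∈ L, p.x ≠ 0) (h : Blk b μ a L') (hΦ : Ph b a L' Φ) (ha : 1 ≤ a)
    (hB : Bs b ≤ e + 1) (s : V b) (hs : s ∈ Sol b e L)
    (hn : ∀ G ∈ Sol b (e + 1) L, e0 G ≠ (cf Φ (a - 1)).mulVec (e0 s)) :
    ∃ T : Set ℂ, T.Finite ∧ ∀ δ : ℂ, δ ∉ T → h0 b (e + a) (L ++ scL δ L') + 1 ≤ h0 b e L := by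
  obtain ⟨Pk, p0, p1, pU, -, pV⟩ := exists_td h hΦ ha
  have hv : InsM b e L Pk 0 ⟨s, hs.1⟩ = 0 := by
    rw [Ins_M_apply, Submodule.mkQ_apply, Submodule.Quotient.mk_eq_zero, p0]
    exact (vanL b L).smul_mem _ hs.2
  have hw : ∀ w, InsM b e L Pk 0 w + InsM b e L Pk 1 ⟨s, hs.1⟩ ≠ 0 := by
    intro w hw
    rw [Ins_M_apply, Ins_M_apply, ← map_add, Submodule.mkQ_apply,
      Submodule.Quotient.mk_eq_zero, p0, p1] at hw
    have e1 : (X : ℂ[X]) ^ a • (w : V b) +
        (X : ℂ[X]) ^ (a - 1) • cv ((cf Φ (a - 1)).mulVec (e0 s)) =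
        (X : ℂ[X]) ^ (a - 1) • ((X : ℂ[X]) • (w : V b) +
          cv ((cf Φ (a - 1)).mulVec (e0 s))) := by
      rw [smul_add, smul_smul, ← pow_succ, Nat.sub_add_cancel ha]
    have hG1 : (X : ℂ[X]) • (w : V b) + cv ((cf Φ (a - 1)).mulVec (e0 s)) ∈ vanL b L := by
      refine vanL_unit L ((X : ℂ[X]) ^ (a - 1)) (fun p hp => ?_) _ ?_
      · rw [eval_pow, eval_X]
        exact pow_ne_zero _ (hx p hp)
      · rw [← e1]
        exact hw
    refine hn _ ⟨?_, hG1⟩ ?_
    · intro β j hj
      rw [Pi.add_apply, Pi.smul_apply, smul_eq_mul, coeff_add]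
      rcases j with _ | j
      · have := Ins_dg_le β
        omega
      · rw [coeff_X_mul, w.2 β j (by omega), zero_add]
        exact coeff_C_succ
    · funext β
      simp [e0, cv]
  obtain ⟨T, hT, h1⟩ := ker_lt (InsM b e L Pk) (a + (e + 1)) (by omega) ⟨s, hs.1⟩ hv hw
  refine ⟨insert 0 T, hT.insert 0, fun δ hδ => ?_⟩
  rw [Set.mem_insert_iff, not_or] at hδ
  exact (Nat.add_le_add_right (Ins_sol h Pk p0 pU pV δ hδ.1) 1).trans
    ((h1 δ hδ.2).trans (Ins_ker0 hx Pk p0))

end Pool.Agent.H18.Tl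

end
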