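import Pool.Agent.H94.LP3.M10
import Pool.Agent.H94.LP3.M40
import Pool.Agent.H94.LP3.M68

/-! The parts of this file: H18.Tj.CntA, H18.Tj.LxA, H18.Tj.LxR, H18.Tj.LxL, H18.Tk.WS, H18.Tk.LxC, H18.Tk.NumC, H18.Tk.SysC, H18.Tk.NumS. -/

section

/-!
# Module C1a (TJ): the numbers `c(σ, w) = (Rg σ w).card`

(`cnt_slow` is in CntS; `cnt_le_mul`, `mul_le_cnt`, `cnt_thin` are in CntL.)

`h` is a free coordinate (`σ ≤ w h`).
* `cnt_layer` (`y` any coordinate): count by the value of `a y`.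
* `cnt_mono`: `a ↦ a + e_h` maps `Rg σ w` injectively to `Rg (σ + 1) w`.
* `cnt_slow`: `C σ = c(σ, w)` is the number of the `β` (zero at `h`) with `β ≤ w`, `|β| ≤ σ`, and
  `C (σ' + 1) - C σ' = #{β : |β| = σ' + 1} =: p`; `(σ' + 1) p = ∑_β ∑_i β_i ≤ q C σ'`, since for a fixed `i` the map
  `(β, t) ↦ β - t e_i`, `1 ≤ t ≤ β_i`, is injective (`t = σ' + 1 - |γ|`) into `{γ : |γ| ≤ σ'}`.  So
  `(σ' + 1) (C (σ' + 1) - C σ') ≤ q C σ' ≤ q C σ`; sum over `σ' = σ - s, …, σ - 1`, with `σ' + 1 ≥ σ - s + 1`.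
  (In terms of `Rg` without a special role of `h`: `c(σ' + 1, w) - c(σ', w) = #{a ∈ Rg (σ' + 1) w : a h = 0}`.)
* `cnt_ge`: `card_ge` (module Frac).
* `cnt_le_mul`, `mul_le_cnt`: `cnt_layer` for `y = l`; all `c(σ - t, w') ≤ c(σ, w')`, resp. `c(σ - t, w') ≥ c(σ, w') / 2`
  for `t ≤ B` by `cnt_slow`.
* `cnt_thin`: the difference is the number of the `a ∈ Rg (σ + 1) w` with `a h = 0`; such an `a` is determined by its
  coordinates other than `h`, `c`, which are less than `θ`.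
* `cnt_le_pow`: the exponents are determined by the coordinates other than `h` (`card_le_prod`).
-/

namespace Pool.Agent.H18.Tj

open Finset Function Pool.Agent.H18.Ex

variable {ι : Type} [Fintype ι] [DecidableEq ι]

private theorem CntA_sum_update (a : ι → ℕ) (l : ι) (v : ℕ) :
    ∑ i, update a l v i + a l = ∑ i, a i + v := by
  have h1 : ∑ i, update a l v i = v + ∑ i ∈ univ.erase l, a i := by
    rw [sum_update_of_mem (mem_univ l), erase_eq]
  have h2 : ∑ i, a i = a l + ∑ i ∈ univ.erase l, a i := (add_sum_erase univ a (mem_univ l)).symm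
  omega

omit [DecidableEq ι] in
private theorem CntA_le_sum (a : ι → ℕ) (l : ι) : a l ≤ ∑ i, a i :=
  single_le_sum (f := a) (fun _ _ => Nat.zero_le _) (mem_univ l)

theorem cnt_succ (l : ι) (σ : ℕ) (w : ι → ℕ) (k : ℕ) :
    (Rg (σ + 1) (update w l (k + 1))).card =
      (Rg σ (update w l k)).card + (Rg (σ + 1) (update w l 0)).card := by
  have h1 : (Rg (σ + 1) (update w l 0)) =
      (Rg (σ + 1) (update w l (k + 1))).filter (fun x => x l < 1) := by
    have := Rg_update_eq (σ + 1) (update w l (k + 1)) l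
    rwa [update_idem] at this
  have h2 : (Rg σ (update w l k)).card =
      ((Rg (σ + 1) (update w l (k + 1))).filter (fun x => ¬ x l < 1)).card := by
    apply card_bij (fun a _ => update a l (a l + 1))
    · intro a ha
      rw [mem_Rg] at ha
      obtain ⟨ha1, ha2⟩ := ha
      rw [mem_filter, mem_Rg]
      refine ⟨⟨fun i => ?_, ?_⟩, ?_⟩
      · have h3 := ha1 i
        by_cases hi : i = l
        · rw [hi, update_self] at h3 ⊢
          rw [update_self]
          omega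
        · rw [update_of_ne hi] at h3 ⊢
          rwa [update_of_ne hi]
      · have := CntA_sum_update a l (a l + 1)
        omega
      · rw [update_self]
        omega
    · intro a _ b _ hab
      funext i
      by_cases hi : i = l
      · have h3 := congrFun hab l
        simp only [update_self] at h3
        rw [hi]
        omega
      · have h3 := congrFun hab i
        simp only [update_of_ne hi] at h3
        exact h3
    · intro b hb
      rw [mem_filter, mem_Rg] at hb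
      obtain ⟨⟨hb1, hb2⟩, hb3⟩ := hb
      refine ⟨update b l (b l - 1), ?_, ?_⟩
      · rw [mem_Rg]
        refine ⟨fun i => ?_, ?_⟩
        · have h3 := hb1 i
          by_cases hi : i = l
          · rw [hi, update_self] at h3 ⊢
            rw [update_self]
            omega
          · rw [update_of_ne hi] at h3 ⊢
            rwa [update_of_ne hi]
        · have := CntA_sum_update b l (b l - 1)
          omega
      · funext i
        by_cases hi : i = l
        · rw [hi, update_self, update_self]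
          omega
        · rw [update_of_ne hi, update_of_ne hi]
  rw [h1, h2]
  have h3 := card_filter_add_card_filter_not (s := Rg (σ + 1) (update w l (k + 1)))
    (fun x : ι → ℕ => x l < 1)
  omega

theorem cnt_layer (y : ι) (σ : ℕ) (w : ι → ℕ) :
    (Rg σ w).card = ∑ t ∈ (range (w y + 1)).filter (fun t => t ≤ σ),
      (Rg (σ - t) (update w y 0)).card := by
  rw [card_eq_sum_card_fiberwise (f := fun a : ι → ℕ => a y)
    (t := (range (w y + 1)).filter (fun t => t ≤ σ))]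
  · refine sum_congr rfl fun t ht => ?_
    rw [mem_filter, mem_range] at ht
    apply card_bij (fun a _ => update a y 0)
    · intro a ha
      rw [mem_filter, mem_Rg] at ha
      obtain ⟨⟨ha1, ha2⟩, ha3⟩ := ha
      rw [mem_Rg]
      refine ⟨fun i => ?_, ?_⟩
      · by_cases hi : i = y
        · rw [hi, update_self, update_self]
        · rw [update_of_ne hi, update_of_ne hi]
          exact ha1 i
      · have := CntA_sum_update a y 0
        have h3 : a y = t := ha3
        omega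
    · intro a ha b hb hab
      rw [mem_filter] at ha hb
      have h3 : a y = t := ha.2
      have h4 : b y = t := hb.2
      funext i
      by_cases hi : i = y
      · rw [hi, h3, h4]
      · have h5 := congrFun hab i
        simp only [update_of_ne hi] at h5
        exact h5
    · intro b hb
      rw [mem_Rg] at hb
      obtain ⟨hb1, hb2⟩ := hb
      have hby : b y = 0 := by
        have := hb1 y
        rw [update_self] at this
        omega
      refine ⟨update b y t, ?_, ?_⟩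
      · rw [mem_filter, mem_Rg]
        refine ⟨⟨fun i => ?_, ?_⟩, ?_⟩
        · by_cases hi : i = y
          · rw [hi, update_self]
            omega
          · rw [update_of_ne hi]
            have := hb1 i
            rwa [update_of_ne hi] at this
        · have := CntA_sum_update b y t
          omega
        · exact update_self y t b
      · rw [update_idem]
        funext i
        by_cases hi : i = y
        · rw [hi, update_self, hby]
        · rw [update_of_ne hi]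
  · intro a ha
    rw [mem_coe, mem_Rg] at ha
    obtain ⟨ha1, ha2⟩ := ha
    rw [mem_coe, mem_filter, mem_range]
    have h1 := ha1 y
    have h2 := CntA_le_sum a y
    constructor
    · show a y < w y + 1
      omega
    · show a y ≤ σ
      omega

theorem cnt_mono {h : ι} {σ σ' : ℕ} {w : ι → ℕ} (hσ : σ ≤ σ') (hh : σ' ≤ w h) :
    (Rg σ w).card ≤ (Rg σ' w).card := by
  apply card_le_card_of_injOn (fun a => update a h (a h + (σ' - σ)))
  · intro a ha
    rw [mem_coe, mem_Rg] at ha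
    obtain ⟨ha1, ha2⟩ := ha
    rw [mem_coe, mem_Rg]
    have h1 := CntA_le_sum a h
    show (∀ i, update a h (a h + (σ' - σ)) i ≤ w i) ∧ ∑ i, update a h (a h + (σ' - σ)) i = σ'
    refine ⟨fun i => ?_, ?_⟩
    · by_cases hi : i = h
      · rw [hi, update_self]
        omega
      · rw [update_of_ne hi]
        exact ha1 i
    · have := CntA_sum_update a h (a h + (σ' - σ))
      omega
  · intro a _ b _ hab
    funext i
    by_cases hi : i = h
    · have h3 := congrFun hab h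
      simp only [update_self] at h3
      rw [hi]
      omega
    · have h3 := congrFun hab i
      simp only [update_of_ne hi] at h3
      exact h3

theorem cnt_le_pow {σ q : ℕ} {w : ι → ℕ} (hq : Fintype.card ι ≤ q) :
    (Rg σ w).card ≤ (σ + 1) ^ q := by
  have h1 : (Rg σ w).card ≤ (Fintype.piFinset fun _ : ι => range (σ + 1)).card := by
    apply card_le_card
    intro a ha
    rw [mem_Rg] at ha
    rw [Fintype.mem_piFinset]
    intro i
    have := CntA_le_sum a i
    rw [mem_range]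
    omega
  rw [Fintype.card_piFinset, prod_const, card_range, card_univ] at h1
  exact h1.trans (Nat.pow_le_pow_right (by omega) hq)

end Pool.Agent.H18.Tj

end

section

/-!
# Module C2a (TJ): the numbers `Lx w m`

(`Lx_ratio`, `Lx_convex` are in LxR.)
* `Lx_layer`: `cnt_layer` (for `m ≥ 1`; the terms with `t ≥ m` are `Lx _ 0 = 0`).
* `Lx_sum`: `Lx_layer` with `w l + 1 ≥ m`: `∑_{t < m} Lx w' (m - t)`, reflect the sum.
* `Lx_ratio` (`h`, `c` both of width `≥ M`): with `p_j` the number of the `γ ≤ w`, `γ_h = γ_c = 0`, `|γ| = j`: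
  `Lx w m = ∑_{j < m} (m - j) p_j` for `m ≤ M + 1`; `(m + 1) (m - j) ≤ m (m + 1 - j)`.  (Alternatively: double
  counting; or apply `Lx_layer` twice: `Lx w m = ∑_{t < m} ∑_{s < m - t} Lx w'' (m - t - s)`.)
* `Lx_mono`, `Lx_convex` (same hypotheses): `Lx w (m + 1) - Lx w m = #{b : b h = 0, |b| = m, b ≤ w} =: g_m` for
  `m ≤ M`, and `g_m ≤ g_{m+1}` for `m + 1 ≤ M` by `b ↦ b + e_c`.
* `Lx_two`: only `h`, `c` are active.
-/

namespace Pool.Agent.H18.Tj

open Finset Function Pool.Agent.H18.Ex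

variable {ι : Type} [Fintype ι] [DecidableEq ι]

theorem Lx_zero (w : ι → ℕ) : Lx w 0 = 0 := by
  simp [Lx]

private lemma LxA_succ (w : ι → ℕ) (k : ℕ) : Lx w (k + 1) = (Rg k w).card := by
  simp [Lx]

theorem Lx_one (w : ι → ℕ) : Lx w 1 = 1 := by
  rw [show (1 : ℕ) = 0 + 1 from rfl, LxA_succ, Finset.card_eq_one]
  refine ⟨fun _ => 0, ?_⟩
  ext a
  rw [mem_Rg, mem_singleton]
  constructor
  · rintro ⟨-, h⟩
    funext i
    exact (Finset.sum_eq_zero_iff.mp h) i (mem_univ i)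
  · rintro rfl
    exact ⟨fun i => Nat.zero_le _, by simp⟩

theorem Lx_layer (y : ι) (w : ι → ℕ) (m : ℕ) :
    Lx w m = ∑ t ∈ range (w y + 1), Lx (update w y 0) (m - t) := by
  rcases m with _ | k
  · rw [Lx_zero]
    symm
    apply Finset.sum_eq_zero
    intro t _
    rw [Nat.zero_sub, Lx_zero]
  · rw [LxA_succ, cnt_layer y k w, Finset.sum_filter]
    apply Finset.sum_congr rfl
    intro t _
    split_ifs with h
    · rw [show k + 1 - t = (k - t) + 1 by omega, LxA_succ]
    · rw [show k + 1 - t = 0 by omega, Lx_zero]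

theorem Lx_sum (l : ι) (w : ι → ℕ) (m : ℕ) (hm : m ≤ w l + 1) :
    ∑ i ∈ range m, Lx (update w l 0) (i + 1) = Lx w m := by
  rw [Lx_layer l w m, ← Finset.sum_range_reflect]
  have h1 : ∑ t ∈ range (w l + 1), Lx (update w l 0) (m - t) =
      ∑ t ∈ range m, Lx (update w l 0) (m - t) := by
    symm
    apply Finset.sum_subset
    · intro t ht
      rw [mem_range] at ht ⊢
      omega
    · intro t _ ht
      rw [mem_range, not_lt] at ht
      rw [show m - t = 0 by omega, Lx_zero]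
  rw [h1]
  apply Finset.sum_congr rfl
  intro t ht
  rw [mem_range] at ht
  congr 1
  omega

theorem Lx_mono {h : ι} {w : ι → ℕ} {M m m' : ℕ} (hh : M ≤ w h) (hm : m ≤ m') (hM : m' ≤ M) :
    Lx w m ≤ Lx w m' := by
  rcases m with _ | k
  · rw [Lx_zero]
    exact Nat.zero_le _
  · obtain ⟨k', rfl⟩ : ∃ k', m' = k' + 1 := ⟨m' - 1, by omega⟩
    rw [LxA_succ, LxA_succ]
    exact cnt_mono (h := h) (by omega) (by omega)

theorem Lx_le_pow {w : ι → ℕ} {q M m : ℕ} (hq : Fintype.card ι ≤ q) (hι : Nonempty ι)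
    (hm : m ≤ M) (hM : 1 ≤ M) : Lx w m ≤ M ^ q := by
  rcases m with _ | k
  · rw [Lx_zero]
    exact Nat.zero_le _
  · rw [LxA_succ]
    exact (cnt_le_pow hq).trans (Nat.pow_le_pow_left hm q)

private lemma LxA_single {h : ι} {w : ι → ℕ} (h0 : ∀ i, i ≠ h → w i = 0) {k : ℕ}
    (hh : k ≤ w h) : (Rg k w).card = 1 := by
  rw [Finset.card_eq_one]
  refine ⟨update (fun _ => 0) h k, ?_⟩
  ext a
  rw [mem_Rg, mem_singleton]
  constructor
  · rintro ⟨ha, hs⟩
    have hz : ∀ i, i ≠ h → a i = 0 := fun i hi => Nat.le_zero.mp (h0 i hi ▸ ha i)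
    have hs' : ∑ i, a i = a h := Finset.sum_eq_single h (fun i _ hi => hz i hi)
      (fun hn => absurd (mem_univ h) hn)
    funext i
    by_cases hi : i = h
    · subst hi
      rw [update_self, ← hs', hs]
    · rw [update_of_ne hi, hz i hi]
  · rintro rfl
    constructor
    · intro i
      by_cases hi : i = h
      · subst hi
        rw [update_self]
        exact hh
      · rw [update_of_ne hi]
        exact Nat.zero_le _
    · rw [Finset.sum_eq_single h (fun i _ hi => update_of_ne hi _ _)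
        (fun hn => absurd (mem_univ h) hn), update_self]

theorem Lx_two {h c : ι} (hhc : h ≠ c) {w : ι → ℕ} (h0 : ∀ i, i ≠ h → i ≠ c → w i = 0) {m : ℕ}
    (hh : m ≤ w h) (hc : m ≤ w c) : Lx w m = m := by
  rcases m with _ | k
  · exact Lx_zero w
  · have key : ∀ t ∈ range (w c + 1), Lx (update w c 0) (k + 1 - t) =
        if t < k + 1 then 1 else 0 := by
      intro t _
      split_ifs with ht
      · rw [show k + 1 - t = (k - t) + 1 by omega, LxA_succ]
        apply LxA_single (h := h)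
        · intro i hi
          by_cases hic : i = c
          · subst hic
            rw [update_self]
          · rw [update_of_ne hic]
            exact h0 i hi hic
        · rw [update_of_ne hhc]
          omega
      · rw [show k + 1 - t = 0 by omega, Lx_zero]
    rw [Lx_layer c w (k + 1), Finset.sum_congr rfl key, ← Finset.sum_filter,
      Finset.sum_const, smul_eq_mul, mul_one]
    have : (range (w c + 1)).filter (fun t => t < k + 1) = range (k + 1) := by
      ext t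
      rw [mem_filter, mem_range, mem_range]
      omega
    rw [this, card_range]

end Pool.Agent.H18.Tj

end

section

/-!
# Module C2b (TJ): the numbers `Lx w m`

* `Lx_layer`: `cnt_layer` (for `m ≥ 1`; the terms with `t ≥ m` are `Lx _ 0 = 0`).
* `Lx_sum`: `Lx_layer` with `w l + 1 ≥ m`: `∑_{t < m} Lx w' (m - t)`, reflect the sum.
* `Lx_ratio` (`h`, `c` both of width `≥ M`): with `p_j` the number of the `γ ≤ w`, `γ_h = γ_c = 0`, `|γ| = j`:
  `Lx w m = ∑_{j < m} (m - j) p_j` for `m ≤ M + 1`; `(m + 1) (m - j) ≤ m (m + 1 - j)`.  (Alternatively: double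
  counting; or apply `Lx_layer` twice: `Lx w m = ∑_{t < m} ∑_{s < m - t} Lx w'' (m - t - s)`.)
* `Lx_mono`, `Lx_convex` (same hypotheses): `Lx w (m + 1) - Lx w m = #{b : b h = 0, |b| = m, b ≤ w} =: g_m` for
  `m ≤ M`, and `g_m ≤ g_{m+1}` for `m + 1 ≤ M` by `b ↦ b + e_c`.
* `Lx_two`: only `h`, `c` are active.
-/

namespace Pool.Agent.H18.Tj

open Finset Function Pool.Agent.H18.Ex

variable {ι : Type} [Fintype ι] [DecidableEq ι]

private theorem LxR_sum {h : ι} {w : ι → ℕ} {M : ℕ} (hh : M ≤ w h) (m : ℕ) (hm : m ≤ M) :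
    Lx w m = ∑ i ∈ range m, Lx (update w h 0) (i + 1) :=
  (Lx_sum h w m (by omega)).symm

private theorem LxR_mono {h c : ι} (hhc : h ≠ c) {w : ι → ℕ} {M : ℕ} (hc : M ≤ w c) {m m' : ℕ}
    (hm : m ≤ m') (hM : m' ≤ M) : Lx (update w h 0) m ≤ Lx (update w h 0) m' := by
  apply Lx_mono (h := c) (M := M) _ hm hM
  rw [update_of_ne (Ne.symm hhc)]
  exact hc

theorem Lx_ratio {h c : ι} (hhc : h ≠ c) {w : ι → ℕ} {M : ℕ} (hh : M ≤ w h) (hc : M ≤ w c)
    (m : ℕ) (hm : m + 1 ≤ M) : (m + 1) * Lx w m ≤ m * Lx w (m + 1) := by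
  have h1 := LxR_sum hh m (by omega)
  have h2 := LxR_sum hh (m + 1) hm
  rw [sum_range_succ, ← h1] at h2
  have h3 : Lx w m ≤ m * Lx (update w h 0) (m + 1) := by
    rw [h1]
    calc ∑ i ∈ range m, Lx (update w h 0) (i + 1)
        ≤ ∑ _i ∈ range m, Lx (update w h 0) (m + 1) := by
          apply sum_le_sum
          intro i hi
          rw [mem_range] at hi
          exact LxR_mono hhc hc (by omega) hm
      _ = m * Lx (update w h 0) (m + 1) := by
          rw [sum_const, card_range, smul_eq_mul]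
  rw [h2, Nat.mul_add, Nat.add_mul, Nat.one_mul]
  omega

theorem Lx_convex {h c : ι} (hhc : h ≠ c) {w : ι → ℕ} {M : ℕ} (hh : M ≤ w h) (hc : M ≤ w c)
    (m : ℕ) (hm : m + 2 ≤ M) : 2 * Lx w (m + 1) ≤ Lx w m + Lx w (m + 2) := by
  have h1 := LxR_sum hh m (by omega)
  have h2 := LxR_sum hh (m + 1) (by omega)
  have h3 := LxR_sum hh (m + 1 + 1) (by omega)
  rw [sum_range_succ, ← h1] at h2
  rw [sum_range_succ, sum_range_succ, ← h1] at h3
  have h4 : Lx (update w h 0) (m + 1) ≤ Lx (update w h 0) (m + 1 + 1) :=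
    LxR_mono hhc hc (by omega) hm
  have h5 : Lx w (m + 2) = Lx w (m + 1 + 1) := rfl
  omega

end Pool.Agent.H18.Tj

end

section

/-!
# Module C2c (TJ), the lens: the numbers `Lx w m`

* `Lx_layer`: `cnt_layer` (for `m ≥ 1`; the terms with `t ≥ m` are `Lx _ 0 = 0`).
* `Lx_sum`: `Lx_layer` with `w l + 1 ≥ m`: `∑_{t < m} Lx w' (m - t)`, reflect the sum.
* `Lx_ratio` (`h`, `c` both of width `≥ M`): with `p_j` the number of the `γ ≤ w`, `γ_h = γ_c = 0`, `|γ| = j`:
  `Lx w m = ∑_{j < m} (m - j) p_j` for `m ≤ M + 1`; `(m + 1) (m - j) ≤ m (m + 1 - j)`.  (Alternatively: double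
  counting; or apply `Lx_layer` twice: `Lx w m = ∑_{t < m} ∑_{s < m - t} Lx w'' (m - t - s)`.)
* `Lx_mono`, `Lx_convex` (same hypotheses): `Lx w (m + 1) - Lx w m = #{b : b h = 0, |b| = m, b ≤ w} =: g_m` for
  `m ≤ M`, and `g_m ≤ g_{m+1}` for `m + 1 ≤ M` by `b ↦ b + e_c`.
* `Lx_two`: only `h`, `c` are active.
-/

namespace Pool.Agent.H18.Tj

open Finset Function Pool.Agent.H18.Ex

variable {ι : Type} [Fintype ι] [DecidableEq ι]

/-- The lengths of the traces. -/
noncomputable def lensOf (M : ℕ) (w : ι → ℕ) (h c : ι) (hhc : h ≠ c) (hh : M ≤ w h)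
    (hc : M ≤ w c) : Lens M where
  lo := Lx w
  lo_zero := Lx_zero w
  lo_one := Lx_one w
  ratio := fun m hm => Lx_ratio hhc hh hc m hm

private theorem LxL_le {q M : ℕ} (hM : 1 ≤ M) (hq : Fintype.card ι ≤ q) (w : ι → ℕ) {m : ℕ}
    (hm : m ≤ M) : Lx w m ≤ M ^ q := by
  unfold Lx
  split_ifs with h0
  · exact Nat.zero_le _
  · have h1 : Rg (m - 1) w ⊆ Fintype.piFinset fun _ : ι => range M := by
      intro a ha
      rw [mem_Rg] at ha
      rw [Fintype.mem_piFinset]
      intro i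
      have h2 : a i ≤ ∑ j, a j := Finset.single_le_sum (fun j _ => Nat.zero_le (a j)) (mem_univ i)
      have := ha.2
      rw [mem_range]
      omega
    calc (Rg (m - 1) w).card ≤ (Fintype.piFinset fun _ : ι => range M).card := card_le_card h1
      _ = M ^ Fintype.card ι := by
        rw [Fintype.card_piFinset, prod_const, card_range, card_univ]
      _ ≤ M ^ q := Nat.pow_le_pow_right hM hq

/-- The constant `cE` is at most `cQ`. -/
theorem cE_le {q M : ℕ} (hM : 1 ≤ M) (hq : Fintype.card ι ≤ q) (w : ι → ℕ) (h c : ι) (hhc : h ≠ c)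
    (hh : M ≤ w h) (hc : M ≤ w c) : cE (lensOf M w h c hhc hh hc) ≤ cQ q M := by
  have h1 : Lx w M ≤ M ^ q := LxL_le hM hq w le_rfl
  have h2 : ∑ i ∈ range M, Lx w (i + 1) ≤ M ^ (q + 1) := by
    calc ∑ i ∈ range M, Lx w (i + 1) ≤ ∑ _i ∈ range M, M ^ q :=
          sum_le_sum fun i hi => LxL_le hM hq w (mem_range.1 hi)
      _ = M ^ (q + 1) := by
        rw [sum_const, card_range, smul_eq_mul, pow_succ, mul_comm]
  change 64 * M * (M + 1) * (Lx w M + 1) ^ 2 * (∑ i ∈ range M, Lx w (i + 1) + 1) ≤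
    64 * M * (M + 1) * (M ^ q + 1) ^ 2 * (M ^ (q + 1) + 1)
  gcongr

end Pool.Agent.H18.Tj

end

section

/-!
# Module C1 (TK): the states of the concrete system

Everything by induction on `j` (`ct_succ`, `wS_succ`); `pS_spec`: the last step along `l` below `j`.
`wS_margin`: in the step from `j` to `j + 1` the degree grows by one and the sum by at most one.
-/

namespace Pool.Agent.H18.Tk

open Finset Function Pool.Agent.H18.Ex Pool.Agent.H18.Tj

variable {Λ : Type} [DecidableEq Λ] {ι : Type} [DecidableEq ι]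

theorem wS_zero (δ : Λ → ι) (dir : ℕ → Λ) (w₀ : ι → ℕ) : wS δ dir w₀ 0 = w₀ := by
  funext i
  simp [wS]

theorem wS_succ (δ : Λ → ι) (dir : ℕ → Λ) (w₀ : ι → ℕ) (j : ℕ) :
    wS δ dir w₀ (j + 1) = update (wS δ dir w₀ j) (δ (dir (j + 1)))
      (wS δ dir w₀ j (δ (dir (j + 1))) + 1) := by
  funext i
  by_cases h : i = δ (dir (j + 1))
  · subst h
    rw [update_self]
    unfold wS
    rw [Finset.range_add_one, Finset.filter_insert, if_pos rfl, Finset.card_insert_of_notMem]
    · ring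
    · simp
  · rw [update_of_ne h]
    unfold wS
    rw [Finset.range_add_one, Finset.filter_insert, if_neg (fun e => h e.symm)]

theorem wS_apply {δ : Λ → ι} (hδ : Injective δ) (dir : ℕ → Λ) (w₀ : ι → ℕ) (l : Λ) (j : ℕ) :
    wS δ dir w₀ j (δ l) = w₀ (δ l) + ct dir l j := by
  unfold wS ct
  congr 2
  apply Finset.filter_congr
  intro t _
  exact hδ.eq_iff

theorem wS_other {δ : Λ → ι} (dir : ℕ → Λ) (w₀ : ι → ℕ) {i : ι} (hi : ∀ l, δ l ≠ i) (j : ℕ) :
    wS δ dir w₀ j i = w₀ i := by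
  unfold wS
  rw [Finset.filter_false_of_mem (fun t _ => hi _), Finset.card_empty, Nat.add_zero]

theorem wS_mono (δ : Λ → ι) (dir : ℕ → Λ) (w₀ : ι → ℕ) {i j : ℕ} (h : i ≤ j) (x : ι) :
    wS δ dir w₀ i x ≤ wS δ dir w₀ j x := by
  unfold wS
  apply Nat.add_le_add_left
  apply Finset.card_le_card
  apply Finset.filter_subset_filter
  exact Finset.range_mono h

theorem le_wS (δ : Λ → ι) (dir : ℕ → Λ) (w₀ : ι → ℕ) (j : ℕ) (x : ι) :
    w₀ x ≤ wS δ dir w₀ j x := by
  unfold wS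
  exact Nat.le_add_right _ _

theorem wS_margin [Fintype ι] (δ : Λ → ι) (dir : ℕ → Λ) (σ₀ : ℕ) (w₀ : ι → ℕ) (l : Λ)
    (B j kt : ℕ) (hj : j ≤ kt)
    (h : σ₀ + kt + B ≤ ∑ i, update (wS δ dir w₀ kt) (δ l) 0 i) :
    σ₀ + j + B ≤ ∑ i, update (wS δ dir w₀ j) (δ l) 0 i := by
  have step : ∀ i, ∑ x, update (wS δ dir w₀ (i + 1)) (δ l) 0 x
      ≤ ∑ x, update (wS δ dir w₀ i) (δ l) 0 x + 1 := by
    intro i
    calc ∑ x, update (wS δ dir w₀ (i + 1)) (δ l) 0 x
        ≤ ∑ x, (update (wS δ dir w₀ i) (δ l) 0 x + if x = δ (dir (i + 1)) then 1 else 0) := by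
          apply Finset.sum_le_sum
          intro x _
          by_cases hx : x = δ l
          · subst hx
            simp
          · rw [update_of_ne hx, update_of_ne hx, wS_succ]
            by_cases hy : x = δ (dir (i + 1))
            · subst hy
              simp
            · rw [update_of_ne hy]
              exact Nat.le_add_right _ _
      _ = ∑ x, update (wS δ dir w₀ i) (δ l) 0 x + 1 := by
          rw [Finset.sum_add_distrib, Finset.sum_ite_eq' univ (δ (dir (i + 1)))]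
          simp
  have key : ∀ d, ∀ i, i + d = kt → σ₀ + i + B ≤ ∑ x, update (wS δ dir w₀ i) (δ l) 0 x := by
    intro d
    induction d with
    | zero =>
      intro i hi
      have e : i = kt := by omega
      subst e
      exact h
    | succ d ih =>
      intro i hi
      have h1 := ih (i + 1) (by omega)
      have h2 := step i
      omega
  exact key (kt - j) j (by omega)

theorem pS_spec [Fintype ι] (δ : Λ → ι) (dir : ℕ → Λ) (σ₀ : ℕ) (w₀ : ι → ℕ) (l : Λ) (j : ℕ) :
    ∃ i ≤ j, pS δ dir σ₀ w₀ l j = hS δ dir σ₀ w₀ l i ∧ ct dir l i = ct dir l j := by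
  induction j with
  | zero => exact ⟨0, le_rfl, rfl, rfl⟩
  | succ j ih =>
    by_cases hd : dir (j + 1) = l
    · refine ⟨j + 1, le_rfl, ?_, rfl⟩
      simp only [pS, if_pos hd]
    · obtain ⟨i, hi, h1, h2⟩ := ih
      refine ⟨i, by omega, ?_, ?_⟩
      · simp only [pS, if_neg hd]
        exact h1
      · rw [h2]
        unfold ct
        rw [Finset.range_add_one, Finset.filter_insert, if_neg hd]

end Pool.Agent.H18.Tk

end

section

/-!
# Module C3 (TK): the numbers `Lx w m` only depend on the widths up to `m - 1`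

* `Lx_congr`: `Rg_min` for every coordinate; or directly: `b ≤ w`, `|b| = m - 1` iff `b ≤ min w (m - 1)`, `|b| = m - 1`.
* `Lx_swap`: by `Lx_congr` we may replace `w a`, `w b` by `m`, then exchange the coordinates `a` and `b`
  (`Equiv.swap`).
* `Lx_wS`: the widths in the directions `δ l` are at least `M ≥ m`.
* `hi_wS`: `Lx_sum`.
-/

namespace Pool.Agent.H18.Tk

open Finset Function Pool.Agent.H18.Ex Pool.Agent.H18.Tj

variable {ι : Type} [Fintype ι] [DecidableEq ι]

private theorem LxC_succ (w : ι → ℕ) (k : ℕ) : Lx w (k + 1) = (Rg k w).card := by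
  simp [Lx]

private theorem LxC_le {w : ι → ℕ} {k : ℕ} {a : ι → ℕ} (h : a ∈ Rg k w) (i : ι) : a i ≤ k := by
  rw [mem_Rg] at h
  rw [← h.2]
  exact single_le_sum (fun _ _ => Nat.zero_le _) (mem_univ i)

private theorem LxC_sub {w w' : ι → ℕ} {k : ℕ} (h : ∀ i, min (w i) (k + 1) = min (w' i) (k + 1)) :
    Rg k w ⊆ Rg k w' := by
  intro a ha
  have h1 := LxC_le ha
  rw [mem_Rg] at ha ⊢
  refine ⟨fun i => ?_, ha.2⟩
  have h2 := ha.1 i
  have h3 := h1 i
  have h4 := h i
  omega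

theorem Lx_congr {w w' : ι → ℕ} {m : ℕ} (h : ∀ i, min (w i) m = min (w' i) m) :
    Lx w m = Lx w' m := by
  rcases m with _ | k
  · rw [Lx_zero, Lx_zero]
  · rw [LxC_succ, LxC_succ]
    exact congrArg card (Subset.antisymm (LxC_sub h) (LxC_sub fun i => (h i).symm))

private theorem LxC_swap {a b : ι} {w : ι → ℕ} {k : ℕ} (ha : k ≤ w a) {x : ι → ℕ}
    (hx : x ∈ Rg k (update w a 0)) : x ∘ Equiv.swap a b ∈ Rg k (update w b 0) := by
  have h1 := LxC_le hx
  rw [mem_Rg] at hx ⊢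
  refine ⟨fun i => ?_, ?_⟩
  · rw [comp_apply]
    by_cases hb : i = b
    · subst hb
      rw [Equiv.swap_apply_right, update_self]
      have h2 := hx.1 a
      rw [update_self] at h2
      exact h2
    · rw [update_of_ne hb]
      by_cases hia : i = a
      · subst hia
        rw [Equiv.swap_apply_left]
        exact (h1 b).trans ha
      · rw [Equiv.swap_apply_of_ne_of_ne hia hb]
        have h2 := hx.1 i
        rw [update_of_ne hia] at h2
        exact h2
  · rw [← hx.2]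
    exact Equiv.sum_comp (Equiv.swap a b) x

theorem Lx_swap {a b : ι} {w : ι → ℕ} {m : ℕ} (ha : m ≤ w a) (hb : m ≤ w b) :
    Lx (update w a 0) m = Lx (update w b 0) m := by
  rcases m with _ | k
  · rw [Lx_zero, Lx_zero]
  · rw [LxC_succ, LxC_succ]
    refine card_nbij' (fun x => x ∘ Equiv.swap a b) (fun x => x ∘ Equiv.swap a b) ?_ ?_ ?_ ?_
    · intro x hx
      exact LxC_swap (by omega) hx
    · intro x hx
      have h1 : x ∘ Equiv.swap b a ∈ Rg k (update w a 0) := LxC_swap (by omega) hx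
      rw [Equiv.swap_comm b a] at h1
      exact h1
    · intro x _
      funext i
      simp
    · intro x _
      funext i
      simp

omit [Fintype ι] in
private theorem LxC_wS {Λ : Type} [DecidableEq Λ] {δ : Λ → ι} (dir : ℕ → Λ)
    (w₀ : ι → ℕ) {M m : ℕ} (hw : ∀ l, M ≤ w₀ (δ l)) (hm : m ≤ M) (j : ℕ) (i : ι) :
    min (wS δ dir w₀ j i) m = min (w₀ i) m := by
  by_cases hi : ∃ l, δ l = i
  · obtain ⟨l, rfl⟩ := hi
    have h1 := le_wS δ dir w₀ j (δ l)
    have h2 := hw l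
    omega
  · push Not at hi
    rw [wS_other dir w₀ hi j]

theorem Lx_wS {Λ : Type} [DecidableEq Λ] {δ : Λ → ι} (hδ : Injective δ) (dir : ℕ → Λ)
    (w₀ : ι → ℕ) {M m : ℕ} (hw : ∀ l, M ≤ w₀ (δ l)) (hm : m ≤ M) (l l' : Λ) (j : ℕ) :
    Lx (update (wS δ dir w₀ j) (δ l) 0) m = Lx (update w₀ (δ l') 0) m := by
  have h1 : Lx (update (wS δ dir w₀ j) (δ l) 0) m = Lx (update w₀ (δ l) 0) m := by
    apply Lx_congr
    intro i
    by_cases hi : i = δ l
    · subst hi
      rw [update_self, update_self]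
    · rw [update_of_ne hi, update_of_ne hi]
      exact LxC_wS dir w₀ hw hm j i
  rw [h1]
  exact Lx_swap (hm.trans (hw l)) (hm.trans (hw l'))

theorem hi_wS {Λ : Type} [DecidableEq Λ] {δ : Λ → ι} (hδ : Injective δ) (dir : ℕ → Λ)
    (w₀ : ι → ℕ) {M m : ℕ} (hw : ∀ l, M ≤ w₀ (δ l)) (hm : m ≤ M) (l : Λ) (j : ℕ) (h c : ι)
    (hhc : h ≠ c) (h1 : M ≤ update w₀ (δ l) 0 h) (h2 : M ≤ update w₀ (δ l) 0 c) :
    (lensOf M (update w₀ (δ l) 0) h c hhc h1 h2).hi m = Lx (wS δ dir w₀ j) m := by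
  have h3 : (lensOf M (update w₀ (δ l) 0) h c hhc h1 h2).hi m = Lx w₀ m :=
    Lx_sum (δ l) w₀ m (by have := hw l; omega)
  rw [h3]
  apply Lx_congr
  intro i
  exact (LxC_wS dir w₀ hw hm j i).symm

end Pool.Agent.H18.Tk

end

section

/-!
# Module C4a (TK): numerical properties of the traces

* `hS_ratio`: `facet_ratio` (`Pool/Agent/H18/Ex/Ratio.lean`) with `N = q` at the state `j`, `k x = wS j x - wS i x`,
  which is `ct l' j - ct l' i` at `x = δ l'` and `0` at the other coordinates, `∑ k = j - i` (`sum_ct`).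
* `hS_low`: `facet_le` (`Pool/Agent/H18/Ex/Frac.lean`) at the state `i`, `v` at most the width and the degree.
* `hS_floor`: `card_ge` for the coordinates `o`, `u`.
The number of the active coordinates is at most `q ≤ q + 1`.
-/

namespace Pool.Agent.H18.Tk

open Finset Function Pool.Agent.H18.Ex Pool.Agent.H18.Tj

variable {Λ : Type} [Fintype Λ] [DecidableEq Λ] {ι : Type} [Fintype ι] [DecidableEq ι]

omit [Fintype Λ] in
private theorem NumC_sum (δ : Λ → ι) (dir : ℕ → Λ) (w₀ : ι → ℕ) (j : ℕ) :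
    ∑ x, wS δ dir w₀ j x = ∑ x, w₀ x + j := by
  unfold wS
  rw [sum_add_distrib]
  congr 1
  have h := card_eq_sum_card_fiberwise (f := fun t => δ (dir (t + 1))) (s := range j)
    (t := (univ : Finset ι)) (fun _ _ => mem_coe.2 (mem_univ _))
  rw [card_range] at h
  exact h.symm

omit [Fintype Λ] in
private theorem NumC_sumsub (δ : Λ → ι) (dir : ℕ → Λ) (w₀ : ι → ℕ) {i j : ℕ} (hij : i ≤ j) :
    ∑ x, (wS δ dir w₀ j x - wS δ dir w₀ i x) = j - i := by
  rw [sum_tsub_distrib _ (fun x _ => wS_mono δ dir w₀ hij x), NumC_sum, NumC_sum]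
  omega

omit [DecidableEq ι] in
private theorem NumC_card {q : ℕ} (hq : Fintype.card ι ≤ q) (w : ι → ℕ) :
    (univ.filter fun i => 0 < w i).card ≤ q + 1 := by
  have h := card_filter_le (univ : Finset ι) (fun i => 0 < w i)
  rw [card_univ] at h
  omega

theorem hS_ratio {q Q : ℕ} (hq : Fintype.card ι ≤ q) (hQ : 2 ≤ Q) {δ : Λ → ι}
    (hδ : Injective δ) (dir : ℕ → Λ) (σ₀ : ℕ) (w₀ : ι → ℕ) (o : ι) (ho : ∀ l, δ l ≠ o) (l : Λ)
    {i j : ℕ} (hij : i ≤ j) (hpos : 0 < w₀ (δ l)) (hlo : wS δ dir w₀ j (δ l) ≤ w₀ o)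
    (hk : ∀ l', Q * (ct dir l' j - ct dir l' i) ≤ w₀ (δ l'))
    (hk' : ∀ l', Q * (ct dir l' j - ct dir l' i) ≤ σ₀) :
    Q * hS δ dir σ₀ w₀ l j ≤ Q * hS δ dir σ₀ w₀ l i + 2 * q ^ 3 * hS δ dir σ₀ w₀ l j := by
  have hq1 : 1 ≤ q := by
    have h : 0 < Fintype.card ι := Fintype.card_pos_iff.2 ⟨o⟩
    omega
  have hkey : ∀ x : ι, (∃ l', δ l' = x ∧ wS δ dir w₀ j x - wS δ dir w₀ i x =
      ct dir l' j - ct dir l' i) ∨ wS δ dir w₀ j x - wS δ dir w₀ i x = 0 := by
    intro x
    by_cases hx : ∃ l', δ l' = x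
    · obtain ⟨l', hl'⟩ := hx
      left
      refine ⟨l', hl', ?_⟩
      rw [← hl', wS_apply hδ, wS_apply hδ]
      omega
    · right
      push Not at hx
      rw [wS_other dir w₀ hx, wS_other dir w₀ hx, Nat.sub_self]
  have hle := le_wS δ dir w₀ j
  have main := facet_ratio q hq1 o (δ l) (σ₀ + j) (wS δ dir w₀ j)
    (fun x => wS δ dir w₀ j x - wS δ dir w₀ i x) Q hQ (NumC_card hq _) (ho l)
    (lt_of_lt_of_le hpos (hle _)) (hlo.trans (hle o))
    (by simp only [wS_other dir w₀ ho, Nat.sub_self])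
    (by
      intro x
      rcases hkey x with ⟨l', hl', h⟩ | h
      · simp only [h]
        rw [← hl']
        exact (hk l').trans (hle _)
      · simp only [h, mul_zero]
        exact Nat.zero_le _)
    (by
      intro x
      rcases hkey x with ⟨l', hl', h⟩ | h
      · simp only [h]
        exact (hk' l').trans (Nat.le_add_right _ _)
      · simp only [h, mul_zero]
        exact Nat.zero_le _)
  rw [NumC_sumsub δ dir w₀ hij] at main
  have e1 : σ₀ + j - (j - i) = σ₀ + i := by omega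
  have e2 : (fun x => wS δ dir w₀ j x - (wS δ dir w₀ j x - wS δ dir w₀ i x)) =
      wS δ dir w₀ i := by
    funext x
    have := wS_mono δ dir w₀ hij x
    omega
  rw [e1, e2] at main
  exact main

theorem hS_low {q v : ℕ} (hq : Fintype.card ι ≤ q) (δ : Λ → ι) (dir : ℕ → Λ) (σ₀ : ℕ)
    (w₀ : ι → ℕ) (l : Λ) (i : ℕ) (hv : v ≤ w₀ (δ l)) (hvσ : v ≤ σ₀) (h2 : 2 ≤ v) :
    hS δ dir σ₀ w₀ l i * v ≤ 2 * q ^ 2 * (Rg (σ₀ + i) (wS δ dir w₀ i)).card := by
  have hq1 : 1 ≤ q := by
    have h : 0 < Fintype.card ι := Fintype.card_pos_iff.2 ⟨δ l⟩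
    omega
  exact facet_le q hq1 (σ₀ + i) (wS δ dir w₀ i) (δ l) v (NumC_card hq _)
    (hv.trans (le_wS δ dir w₀ i _)) (hvσ.trans (Nat.le_add_right _ _)) h2

theorem hS_floor (δ : Λ → ι) (dir : ℕ → Λ) (σ₀ : ℕ) (w₀ : ι → ℕ) (l : Λ) (i b : ℕ) {o u : ι}
    (huo : u ≠ o) (hol : δ l ≠ o) (hul : u ≠ δ l) (ho : b ≤ w₀ o) (hu : b ≤ w₀ u)
    (hσ : b ≤ σ₀) (hmar : σ₀ + i + b ≤ ∑ x, update (wS δ dir w₀ i) (δ l) 0 x) :
    b + 1 ≤ hS δ dir σ₀ w₀ l i := by
  refine card_ge (σ₀ + i) (update (wS δ dir w₀ i) (δ l) 0) b o u huo.symm ?_ ?_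
    (hσ.trans (Nat.le_add_right _ _)) hmar
  · rw [update_of_ne hol.symm]
    exact ho.trans (le_wS δ dir w₀ i _)
  · rw [update_of_ne hul]
    exact hu.trans (le_wS δ dir w₀ i _)

end Pool.Agent.H18.Tk

end

section

/-!
# Module C2 (TK): the concrete Horace system

Adapt `step_Rg`, `bridge_Rg`, `full_Rg` in `Pool/Agent/H18/Tj/SysT.lean`: the forced conditions in the directions
`l ≠ d`, `d = dir (k + 1)`, keep the role `stay` (`NotAt (δ d)` as `δ` is injective); split the sum over the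
directions at `d`.  `σ`, `w` are the degree and the widths of the lower state, `x = w (δ d)`:
`update w (δ d) (x + 1)`, resp. `update w (δ d) x = w`.
-/

namespace Pool.Agent.H18.Tk

open Finset Function Pool.Agent.H18.Ex Pool.Agent.H18.Tj

variable {Λ : Type} [Fintype Λ] [DecidableEq Λ] {ι : Type} [Fintype ι] [DecidableEq ι]

/-- The forced conditions in the other directions. -/
private def SysC_ot (δ : Λ → ι) (d : Λ) (Φ : Λ → Multiset (ℕ × ℕ)) : Multiset (Kind ι) :=
  ∑ l ∈ univ.erase d, (Φ l).map fun x => Kind.forced (δ l) x.1 x.2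

omit [Fintype ι] [DecidableEq ι] in
private theorem SysC_split (δ : Λ → ι) (d : Λ) (Φ : Λ → Multiset (ℕ × ℕ)) :
    ∑ l, (Φ l).map (fun x => Kind.forced (δ l) x.1 x.2) =
      (Φ d).map (fun x => Kind.forced (δ d) x.1 x.2) + SysC_ot δ d Φ :=
  (Finset.add_sum_erase univ (fun l => (Φ l).map fun x => Kind.forced (δ l) x.1 x.2)
    (mem_univ d)).symm

omit [Fintype ι] [DecidableEq ι] in
private theorem SysC_ot_update (δ : Λ → ι) (d : Λ) (Φ : Λ → Multiset (ℕ × ℕ))
    (X : Multiset (ℕ × ℕ)) : SysC_ot δ d (update Φ d X) = SysC_ot δ d Φ := by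
  unfold SysC_ot
  refine Finset.sum_congr rfl fun l hl => ?_
  rw [update_of_ne (ne_of_mem_erase hl)]

omit [Fintype ι] [DecidableEq ι] in
private theorem SysC_kinds (δ : Λ → ι) (d : Λ) (N : Multiset ℕ) (s : ℕ)
    (Φ : Λ → Multiset (ℕ × ℕ)) : kindsS δ (⟨N, s, Φ⟩ : Cfg Λ) =
      N.map Kind.free + Multiset.replicate s (Kind.free 1) +
        ((Φ d).map (fun x => Kind.forced (δ d) x.1 x.2) + SysC_ot δ d Φ) := by
  unfold kindsS
  rw [SysC_split δ d]

omit [Fintype ι] [DecidableEq ι] in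
private theorem SysC_kinds_update (δ : Λ → ι) (d : Λ) (N : Multiset ℕ) (s : ℕ)
    (Φ : Λ → Multiset (ℕ × ℕ)) (X : Multiset (ℕ × ℕ)) :
    kindsS δ (⟨N, s, update Φ d X⟩ : Cfg Λ) =
      N.map Kind.free + Multiset.replicate s (Kind.free 1) +
        (X.map (fun x => Kind.forced (δ d) x.1 x.2) + SysC_ot δ d Φ) := by
  rw [SysC_kinds δ d, SysC_ot_update, update_self]

theorem kindsS_mono (δ : Λ → ι) {c c' : Cfg Λ} (h1 : c.N ≤ c'.N) (h2 : c.s ≤ c'.s)
    (h3 : ∀ l, c.Φ l ≤ c'.Φ l) : kindsS δ c ≤ kindsS δ c' := by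
  unfold kindsS
  have h4 : Multiset.replicate c.s (Kind.free 1 : Kind ι) ≤ Multiset.replicate c'.s (Kind.free 1) :=
    Multiset.replicate_le_replicate _ |>.2 h2
  have h5 := Multiset.map_le_map (f := (Kind.free : ℕ → Kind ι)) h1
  have h6 : ∑ l, (c.Φ l).map (fun x : ℕ × ℕ => Kind.forced (δ l) x.1 x.2) ≤
      ∑ l, (c'.Φ l).map (fun x : ℕ × ℕ => Kind.forced (δ l) x.1 x.2) :=
    Finset.sum_le_sum fun l _ => Multiset.map_le_map (h3 l)
  exact add_le_add (add_le_add h5 h4) h6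

theorem kindsS_one (δ : Λ → ι) (N : Multiset ℕ) (s : ℕ) (Φ : Λ → Multiset (ℕ × ℕ)) :
    kindsS δ (⟨1 ::ₘ N, s, Φ⟩ : Cfg Λ) = kindsS δ (⟨N, s + 1, Φ⟩ : Cfg Λ) := by
  unfold kindsS
  change (1 ::ₘ N).map Kind.free + Multiset.replicate s (Kind.free 1) +
      ∑ l, (Φ l).map (fun x => Kind.forced (δ l) x.1 x.2) = N.map Kind.free +
      Multiset.replicate (s + 1) (Kind.free 1) +
      ∑ l, (Φ l).map (fun x => Kind.forced (δ l) x.1 x.2)
  rw [Multiset.map_cons, Multiset.replicate_succ, Multiset.cons_add, Multiset.add_cons]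

/-- The roles of the conditions. -/
private def SysC_roles (ot : Multiset (Kind ι)) (N I : Multiset ℕ) (t s u : ℕ)
    (Φ : Multiset (ℕ × ℕ)) : Multiset (Role ι) :=
  N.map (fun m => Role.stay (Kind.free m)) +
    Multiset.replicate s (Role.stay (Kind.free 1)) +
    Φ.map (fun x => Role.here x.1 x.2) + I.map (fun m => Role.ord m) +
    Multiset.replicate t Role.dif + Multiset.replicate u (Role.ord 1) + ot.map Role.stay

omit [Fintype ι] [DecidableEq ι] in
private theorem SysC_before (l : ι) (ot : Multiset (Kind ι)) (N I : Multiset ℕ) (μ t s u : ℕ)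
    (Φ : Multiset (ℕ × ℕ)) :
    (SysC_roles ot N I t s u Φ).map (Role.before l μ) =
      (N + I + Multiset.replicate t μ).map Kind.free + Multiset.replicate (s + u) (Kind.free 1) +
        (Φ.map (fun x => Kind.forced l x.1 x.2) + ot) := by
  unfold SysC_roles
  simp only [Multiset.map_add, Multiset.map_map, Multiset.map_replicate,
    Function.comp_def, Role.before, Multiset.replicate_add, Multiset.map_id']
  abel

omit [Fintype ι] in
private theorem SysC_after (l : ι) (ot : Multiset (Kind ι)) (N I : Multiset ℕ) (μ t s u : ℕ)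
    (Φ : Multiset (ℕ × ℕ)) :
    N.map Kind.free + Multiset.replicate s (Kind.free 1) +
        ((shf Φ + I.map (fun m => (m - 1, 1)) + Multiset.replicate t (μ, 2)).map
          (fun x : ℕ × ℕ => Kind.forced l x.1 x.2) + ot) ≤
      (SysC_roles ot N I t s u Φ).map (Role.after l μ) := by
  have h5 : (shf Φ).map (fun x => Kind.forced l x.1 x.2) ≤
      Φ.map (fun x => Kind.forced l (x.1 - 1) x.2) := by
    have h6 : shf Φ ≤ Φ.map fun x => (x.1 - 1, x.2) := Multiset.filter_le _ _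
    have h7 := Multiset.map_le_map (f := fun x : ℕ × ℕ => Kind.forced l x.1 x.2) h6
    rw [Multiset.map_map] at h7
    exact h7
  unfold SysC_roles
  simp only [Multiset.map_add, Multiset.map_map, Multiset.map_replicate,
    Function.comp_def, Role.after, Multiset.map_id']
  calc N.map Kind.free + Multiset.replicate s (Kind.free 1) +
        ((shf Φ).map (fun x => Kind.forced l x.1 x.2) +
          I.map (fun m => Kind.forced l (m - 1) 1) +
          Multiset.replicate t (Kind.forced l μ 2) + ot)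
      ≤ N.map Kind.free + Multiset.replicate s (Kind.free 1) +
        (Φ.map (fun x => Kind.forced l (x.1 - 1) x.2) +
          I.map (fun m => Kind.forced l (m - 1) 1) +
          Multiset.replicate t (Kind.forced l μ 2) + ot) := by
        gcongr
    _ = N.map (fun m => Kind.free m) + Multiset.replicate s (Kind.free 1) +
      Φ.map (fun x => Kind.forced l (x.1 - 1) x.2) +
      I.map (fun m => Kind.forced l (m - 1) 1) +
      Multiset.replicate t (Kind.forced l μ 2) + ot := by abel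
    _ ≤ N.map (fun m => Kind.free m) + Multiset.replicate s (Kind.free 1) +
      Φ.map (fun x => Kind.forced l (x.1 - 1) x.2) +
      I.map (fun m => Kind.forced l (m - 1) 1) +
      Multiset.replicate t (Kind.forced l μ 2) + ot +
      Multiset.replicate u (Kind.forced l (1 - 1) 1) := Multiset.le_add_right _ _
    _ = _ := by abel

omit [Fintype ι] [DecidableEq ι] in
private theorem SysC_layer (ot : Multiset (Kind ι)) (N I : Multiset ℕ) (t s u : ℕ)
    (Φ : Multiset (ℕ × ℕ)) (hΦ : ∀ x ∈ Φ, x.2 ≤ x.1) :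
    (Φ.map Prod.fst + I + Multiset.replicate (t + u) 1).map (Kind.free : ℕ → Kind ι) ≤
      (SysC_roles ot N I t s u Φ).map (fun r => Kind.free r.layer) := by
  have h1 : Φ.map (fun x : ℕ × ℕ => (Kind.free (if x.2 ≤ x.1 then x.1 else 0) : Kind ι)) =
      Φ.map (fun x => Kind.free x.1) :=
    Multiset.map_congr rfl fun x hx => by rw [if_pos (hΦ x hx)]
  unfold SysC_roles
  simp only [Multiset.map_add, Multiset.map_map, Multiset.map_replicate,
    Function.comp_def, Role.layer, Multiset.replicate_add]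
  rw [h1]
  calc Φ.map (fun x => (Kind.free x.1 : Kind ι)) + I.map Kind.free +
        (Multiset.replicate t (Kind.free 1) + Multiset.replicate u (Kind.free 1))
      ≤ (N.map (fun _ => Kind.free 0) + Multiset.replicate s (Kind.free 0) +
          ot.map (fun _ => Kind.free 0)) +
        (Φ.map (fun x => (Kind.free x.1 : Kind ι)) + I.map Kind.free +
        (Multiset.replicate t (Kind.free 1) + Multiset.replicate u (Kind.free 1))) :=
        Multiset.le_add_left _ _
    _ = _ := by abel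

omit [Fintype ι] [DecidableEq ι] in
private theorem SysC_notAt (l : ι) (ot : Multiset (Kind ι)) (hot : ∀ k ∈ ot, k.NotAt l)
    (N I : Multiset ℕ) (t s u : ℕ) (Φ : Multiset (ℕ × ℕ))
    (k : Kind ι) (hk : Role.stay k ∈ SysC_roles ot N I t s u Φ) : k.NotAt l := by
  unfold SysC_roles at hk
  simp only [Multiset.mem_add] at hk
  rcases hk with (((((h | h) | h) | h) | h) | h) | h
  · obtain ⟨m, _, hm⟩ := Multiset.mem_map.1 h
    cases hm
    trivial
  · have h1 := (Multiset.mem_replicate.1 h).2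
    cases h1
    trivial
  · obtain ⟨m, _, hm⟩ := Multiset.mem_map.1 h
    cases hm
  · obtain ⟨m, _, hm⟩ := Multiset.mem_map.1 h
    cases hm
  · have h1 := (Multiset.mem_replicate.1 h).2
    cases h1
  · have h1 := (Multiset.mem_replicate.1 h).2
    cases h1
  · obtain ⟨k', hk', hm⟩ := Multiset.mem_map.1 h
    cases hm
    exact hot k hk'

omit [Fintype ι] [DecidableEq ι] in
private theorem SysC_mem_ot (δ : Λ → ι) (d : Λ) (Φ : Λ → Multiset (ℕ × ℕ)) {k : Kind ι}
    (hk : k ∈ SysC_ot δ d Φ) : ∃ l c e, l ≠ d ∧ k = Kind.forced (δ l) c e := by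
  unfold SysC_ot at hk
  rw [Multiset.mem_sum] at hk
  obtain ⟨l, hl, h⟩ := hk
  obtain ⟨x, _, hx⟩ := Multiset.mem_map.1 h
  exact ⟨l, x.1, x.2, ne_of_mem_erase hl, hx.symm⟩

omit [Fintype ι] [DecidableEq ι] in
private theorem SysC_ot_notAt {δ : Λ → ι} (hδ : Injective δ) (d : Λ)
    (Φ : Λ → Multiset (ℕ × ℕ)) : ∀ k ∈ SysC_ot δ d Φ, k.NotAt (δ d) := by
  intro k hk
  obtain ⟨l, c, e, hl, rfl⟩ := SysC_mem_ot δ d Φ hk
  exact fun h => hl (hδ h)

private theorem SysC_resid (l : ι) (σ : ℕ) (w : ι → ℕ) (a : ι → ℕ) :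
    a ∈ Rg σ w ↔
      Function.update a l (a l + 1) ∈ Rg (σ + 1) (update w l (w l + 1)) := by
  have h := Rg_resid (σ + 1) (update w l (w l + 1)) l (by omega)
    (by rw [Function.update_self]; omega) a
  rw [Function.update_self, Function.update_idem, Nat.add_sub_cancel, Nat.add_sub_cancel,
    Function.update_eq_self] at h
  exact h

private theorem SysC_zero (l : ι) (σ : ℕ) (w : ι → ℕ) :
    (Rg (σ + 1) (update w l (w l + 1))).filter (fun a => a l = 0) =
      Rg (σ + 1) (update w l 0) := by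
  rw [Rg_layer, Function.update_idem]

theorem step_S {δ : Λ → ι} (hδ : Injective δ) (d : Λ) (σ : ℕ) (w : ι → ℕ) (N I : Multiset ℕ)
    (μ t s u : ℕ) (Φ : Λ → Multiset (ℕ × ℕ)) (hμ : 1 ≤ μ) (hΦ : ∀ x ∈ Φ d, x.2 ≤ x.1)
    (h0 : GM (Rg (σ + 1) (update w (δ d) 0))
      (((Φ d).map Prod.fst + I + Multiset.replicate (t + u) 1).map Kind.free))
    (h1 : GM (Rg σ w) (kindsS δ (⟨N, s, update Φ d (shf (Φ d) + I.map (fun m => (m - 1, 1)) +
      Multiset.replicate t (μ, 2))⟩ : Cfg Λ))) :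
    GM (Rg (σ + 1) (update w (δ d) (w (δ d) + 1)))
      (kindsS δ (⟨N + I + Multiset.replicate t μ, s + u, Φ⟩ : Cfg Λ)) := by
  rw [SysC_kinds δ d, ← SysC_before (δ d) (SysC_ot δ d Φ) N I μ t s u (Φ d)]
  rw [SysC_kinds_update] at h1
  refine GM.step _ (Rg σ w) (δ d) (SysC_resid (δ d) σ w) μ hμ _
    (fun k' hk' => SysC_notAt (δ d) _ (SysC_ot_notAt hδ d Φ) N I t s u (Φ d) k' hk') ?_ ?_
  · rw [SysC_zero]
    exact GM.mono (SysC_layer _ N I t s u (Φ d) hΦ) h0
  · exact GM.mono (SysC_after (δ d) _ N I μ t s u (Φ d)) h1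

theorem bridge_S {δ : Λ → ι} (hδ : Injective δ) (d : Λ) (σ : ℕ) (w : ι → ℕ) (N : Multiset ℕ)
    (s s₀ : ℕ) (Φ : Λ → Multiset (ℕ × ℕ))
    (h1 : GM (Rg (σ + 1) (update w (δ d) (w (δ d) + 1)))
      (kindsS δ (⟨N, s + s₀, Φ⟩ : Cfg Λ)))
    (h2 : GM (Rg σ w) (kindsS δ (⟨N, s, update Φ d (shf (Φ d))⟩ : Cfg Λ))) :
    GM (Rg (σ + 1) (update w (δ d) (w (δ d) + 1)))
      (kindsS δ (⟨N, s, update Φ d (Φ d + Multiset.replicate s₀ (1, 1))⟩ : Cfg Λ)) := by
  have e1 : kindsS δ (⟨N, s, update Φ d (Φ d + Multiset.replicate s₀ (1, 1))⟩ : Cfg Λ) =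
      kindsS δ (⟨N, s, Φ⟩ : Cfg Λ) + Multiset.replicate s₀ (Kind.forced (δ d) 1 1) := by
    rw [SysC_kinds_update, SysC_kinds δ d]
    simp only [Multiset.map_add, Multiset.map_replicate]
    abel
  have e2 : kindsS δ (⟨N, s + s₀, Φ⟩ : Cfg Λ) =
      kindsS δ (⟨N, s, Φ⟩ : Cfg Λ) + Multiset.replicate s₀ (Kind.free 1) := by
    rw [SysC_kinds δ d, SysC_kinds δ d]
    simp only [Multiset.replicate_add]
    abel
  have e3 : kindsS δ (⟨N, s, update Φ d (shf (Φ d))⟩ : Cfg Λ) ≤
      (kindsS δ (⟨N, s, Φ⟩ : Cfg Λ)).map (Kind.dn (δ d)) := by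
    have h5 : (shf (Φ d)).map (fun x => Kind.forced (δ d) x.1 x.2) ≤
        (Φ d).map (fun x => Kind.forced (δ d) (x.1 - 1) x.2) := by
      have h6 : shf (Φ d) ≤ (Φ d).map fun x => (x.1 - 1, x.2) := Multiset.filter_le _ _
      have h7 := Multiset.map_le_map (f := fun x : ℕ × ℕ => Kind.forced (δ d) x.1 x.2) h6
      rw [Multiset.map_map] at h7
      exact h7
    have h8 : (SysC_ot δ d Φ).map (Kind.dn (δ d)) = SysC_ot δ d Φ := by
      conv_rhs => rw [← Multiset.map_id (SysC_ot δ d Φ)]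
      refine Multiset.map_congr rfl fun k hk => ?_
      obtain ⟨l, c, e, hl, rfl⟩ := SysC_mem_ot δ d Φ hk
      change (if δ l = δ d then Kind.forced (δ l) (c - 1) e else Kind.forced (δ l) c e) = _
      rw [if_neg (fun h => hl (hδ h))]
      rfl
    rw [SysC_kinds_update, SysC_kinds δ d]
    simp only [Multiset.map_add, Multiset.map_map, Multiset.map_replicate, Function.comp_def,
      Kind.dn, if_true]
    refine add_le_add le_rfl (add_le_add h5 ?_)
    exact le_of_eq h8.symm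
  rw [e1]
  rw [e2] at h1
  exact GM.bridge _ (Rg σ w) (δ d) (SysC_resid (δ d) σ w) _ s₀ h1 (GM.mono e3 h2)

theorem full_S (δ : Λ → ι) (σ : ℕ) (w : ι → ℕ) (N : Multiset ℕ) (s : ℕ)
    (Φ : Λ → Multiset (ℕ × ℕ)) (hN : ∀ m ∈ N, 1 ≤ m) (h : (Rg σ w).card ≤ N.card + s) :
    GM (Rg σ w) (kindsS δ (⟨N, s, Φ⟩ : Cfg Λ)) := by
  have e1 : kindsS δ (⟨N, s, Φ⟩ : Cfg Λ) = (N + Multiset.replicate s 1).map Kind.free +
      ∑ l, (Φ l).map fun x => Kind.forced (δ l) x.1 x.2 := by
    unfold kindsS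
    simp only [Multiset.map_add, Multiset.map_replicate]
  rw [e1]
  refine GM.of_card _ _ _ (fun m hm => ?_) ?_
  · rcases Multiset.mem_add.1 hm with h1 | h1
    · exact hN m h1
    · rw [(Multiset.mem_replicate.1 h1).2]
  · rw [Multiset.card_add, Multiset.card_replicate]
    exact h

theorem count_S (δ : Λ → ι) (dir : ℕ → Λ) (σ₀ : ℕ) (w₀ : ι → ℕ) (k : ℕ) :
    (Rg (σ₀ + (k + 1)) (wS δ dir w₀ (k + 1))).card = (Rg (σ₀ + k) (wS δ dir w₀ k)).card +
      (Rg (σ₀ + (k + 1)) (update (wS δ dir w₀ (k + 1)) (δ (dir (k + 1))) 0)).card := by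
  rw [wS_succ, Function.update_idem]
  have h := cnt_succ (δ (dir (k + 1))) (σ₀ + k) (wS δ dir w₀ k)
    (wS δ dir w₀ k (δ (dir (k + 1))))
  rw [Function.update_eq_self] at h
  exact h

/-- The concrete system. -/
noncomputable def sysC (δ : Λ → ι) (hδ : Injective δ) (dir : ℕ → Λ) (σ₀ : ℕ) (w₀ : ι → ℕ) :
    SysP Λ where
  K j c := GM (Rg (σ₀ + j) (wS δ dir w₀ j)) (kindsS δ c)
  dir := dir
  F j := (Rg (σ₀ + j) (update (wS δ dir w₀ j) (δ (dir j)) 0)).card
  R j := (Rg (σ₀ + j) (wS δ dir w₀ j)).card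
  tr j S := GM (Rg (σ₀ + j) (update (wS δ dir w₀ j) (δ (dir j)) 0)) (S.map Kind.free)
  mono := fun _ _ _ h1 h2 h3 h => GM.mono (kindsS_mono δ h1 h2 h3) h
  one := fun _ N s Φ h => by rw [kindsS_one]; exact h
  count := fun k => count_S δ dir σ₀ w₀ k
  step := fun k N I μ t s u Φ hμ hΦ h0 h1 => by
    rw [wS_succ] at h0 ⊢
    rw [update_idem] at h0
    exact step_S hδ (dir (k + 1)) (σ₀ + k) (wS δ dir w₀ k) N I μ t s u Φ hμ hΦ h0 h1
  bridge := fun k N s s₀ Φ h1 h2 => by
    rw [wS_succ] at h1 ⊢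
    exact bridge_S hδ (dir (k + 1)) (σ₀ + k) (wS δ dir w₀ k) N s s₀ Φ h1 h2
  full := fun _ N s Φ hN h => full_S δ _ _ N s Φ hN h

end Pool.Agent.H18.Tk

end

section

/-!
# Module C4b (TK): the numerical properties of the concrete system

`B = bK q M E D`, `Q = 2 q³ E`.  All widths `w₀ (δ l)`, `w₀ o`, `w₀ (u l)` and `σ₀` are at least `B`.
* `floor`: `pS_spec`, `hS_floor` with `b = cQ q M` (`wS_margin`), `cE_le`.
* `low`: `pS_spec` (`pS l k = hS l i`, `i ≤ k`), `hS_low` with `v = B ≥ 2 q² E`, so `E hS l i ≤ R i ≤ R k` (`count_S`).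
* `top`, `keep`: definition of `pS`.
* `slow`: `pS_spec` at `k` (`l = dir (k + 1)`: `pS l k = hS l i`, `ct l i = ct l k`), `hwin`, `hS_ratio` for `i ≤ k + 1` with
  this `Q`; divide by `2 q³`.
* `gd`: `hex k` with `σ = σ₀ + (k + 1)` (margin: `wS_margin`), `x₀ = F / E + 1` (`F ≤ E (F / E + 1)`) and `x₀ ≤ x`;
  the lengths are `Lx_wS`.
-/

namespace Pool.Agent.H18.Tk

open Finset Function Pool.Agent.H18.Ex Pool.Agent.H18.Tj

variable {Λ : Type} [Fintype Λ] [DecidableEq Λ] {ι : Type} [Fintype ι] [DecidableEq ι]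

/-- The lower bound of all relevant widths and degrees. -/
def bK (q M E D : ℕ) : ℕ := 4 * q ^ 3 * E + cQ q M + M + D + 2

private theorem NumS_le (q M E D : ℕ) : cQ q M ≤ bK q M E D ∧ M ≤ bK q M E D ∧
    D ≤ bK q M E D ∧ 2 ≤ bK q M E D ∧ 4 * q ^ 3 * E ≤ bK q M E D := by
  unfold bK
  refine ⟨?_, ?_, ?_, ?_, ?_⟩ <;> omega

private theorem NumS_R (δ : Λ → ι) (dir : ℕ → Λ) (σ₀ : ℕ) (w₀ : ι → ℕ) {i k : ℕ} (h : i ≤ k) :
    (Rg (σ₀ + i) (wS δ dir w₀ i)).card ≤ (Rg (σ₀ + k) (wS δ dir w₀ k)).card := by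
  induction k, h using Nat.le_induction with
  | base => exact le_rfl
  | succ n _ ih =>
    rw [count_S]
    exact ih.trans (Nat.le_add_right _ _)

theorem num_sysC {q M E D kt : ℕ} (hq : Fintype.card ι ≤ q) (hM : 1 ≤ M)
    (hΛ : Fintype.card Λ ≤ 2) (δ : Λ → ι) (hδ : Injective δ) (dir : ℕ → Λ) (σ₀ : ℕ)
    (w₀ : ι → ℕ) (l₁ : Λ) (o : ι) (u : Λ → ι) (ho : ∀ l, δ l ≠ o) (huo : ∀ l, o ≠ u l)
    (huδ : ∀ l, u l ≠ δ l) (hE : 2 * cQ q M ≤ E) (hB : bK q M E D ≤ σ₀)
    (hBo : bK q M E D ≤ w₀ o) (hBu : ∀ l, bK q M E D ≤ w₀ (u l))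
    (hBδ : ∀ l, bK q M E D ≤ w₀ (δ l)) (hlo : ∀ l, wS δ dir w₀ kt (δ l) ≤ w₀ o)
    (hmar : ∀ l, σ₀ + kt + bK q M E D ≤ ∑ i, update (wS δ dir w₀ kt) (δ l) 0 i)
    (hwin : ∀ j, j + 1 ≤ kt → ∀ i, i ≤ j →
      ct dir (dir (j + 1)) i = ct dir (dir (j + 1)) j → ∀ l,
        2 * q ^ 3 * E * (ct dir l (j + 1) - ct dir l i) ≤ w₀ (δ l) ∧
        2 * q ^ 3 * E * (ct dir l (j + 1) - ct dir l i) ≤ σ₀)
    (hex : ∀ j, j + 1 ≤ kt →
      NEr M E D (update (wS δ dir w₀ (j + 1)) (δ (dir (j + 1))) 0))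
    (h1 : M ≤ update w₀ (δ l₁) 0 o) (h2 : M ≤ update w₀ (δ l₁) 0 (u l₁)) :
    NumP (lensOf M (update w₀ (δ l₁) 0) o (u l₁) (huo l₁) h1 h2)
      (sysC δ hδ dir σ₀ w₀) E kt (pS δ dir σ₀ w₀) := by
  obtain ⟨hb1, hb2, hb3, hb4, hb5⟩ := NumS_le q M E D
  have hq1 : 1 ≤ q := by
    have h : 0 < Fintype.card ι := Fintype.card_pos_iff.2 ⟨o⟩
    omega
  have hq3 : 0 < 2 * q ^ 3 := by positivity
  have hcQ : 1 ≤ cQ q M := by
    have h : 0 < cQ q M := by
      unfold cQ
      positivity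
    exact h
  have hE1 : 1 ≤ E := by omega
  refine ⟨hM, hΛ, ?_, ?_, ?_, ?_, ?_, ?_, ?_⟩
  · have h3 := cE_le hM hq (update w₀ (δ l₁) 0) o (u l₁) (huo l₁) h1 h2
    omega
  · intro l k hk
    obtain ⟨i, hi, he, -⟩ := pS_spec δ dir σ₀ w₀ l k
    rw [he]
    have h3 := cE_le hM hq (update w₀ (δ l₁) 0) o (u l₁) (huo l₁) h1 h2
    have h4 := wS_margin δ dir σ₀ w₀ l (bK q M E D) i kt (hi.trans hk) (hmar l)
    have h5 := hS_floor δ dir σ₀ w₀ l i (cQ q M) (huo l).symm (ho l) (huδ l)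
      (hb1.trans hBo) (hb1.trans (hBu l)) (hb1.trans hB) (by omega)
    omega
  · intro l k hk
    obtain ⟨i, hi, he, -⟩ := pS_spec δ dir σ₀ w₀ l k
    rw [he]
    refine le_trans ?_ (NumS_R δ dir σ₀ w₀ hi)
    have h3 := hS_low hq δ dir σ₀ w₀ l i (hBδ l) hB hb4
    have h4 : 2 * q ^ 2 * E ≤ bK q M E D := by
      refine le_trans ?_ hb5
      have h5 : q ^ 2 ≤ q ^ 3 := Nat.pow_le_pow_right hq1 (by norm_num)
      calc 2 * q ^ 2 * E ≤ 4 * q ^ 3 * E := by
            gcongr
            norm_num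
        _ = 4 * q ^ 3 * E := rfl
    have h6 : 2 * q ^ 2 * (E * hS δ dir σ₀ w₀ l i) ≤
        2 * q ^ 2 * (Rg (σ₀ + i) (wS δ dir w₀ i)).card := by
      calc 2 * q ^ 2 * (E * hS δ dir σ₀ w₀ l i) = hS δ dir σ₀ w₀ l i * (2 * q ^ 2 * E) := by ring
        _ ≤ hS δ dir σ₀ w₀ l i * bK q M E D := Nat.mul_le_mul_left _ h4
        _ ≤ _ := h3
    exact Nat.le_of_mul_le_mul_left h6 (by positivity)
  · intro k _
    change (if dir (k + 1) = dir (k + 1) then hS δ dir σ₀ w₀ (dir (k + 1)) (k + 1)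
      else pS δ dir σ₀ w₀ (dir (k + 1)) k) = _
    rw [if_pos rfl]
    rfl
  · intro l k _ hl
    change (if dir (k + 1) = l then hS δ dir σ₀ w₀ l (k + 1) else pS δ dir σ₀ w₀ l k) ≤ _
    rw [if_neg (fun h => hl h.symm)]
  · intro k hk
    obtain ⟨i, hi, he, hct⟩ := pS_spec δ dir σ₀ w₀ (dir (k + 1)) k
    change E * hS δ dir σ₀ w₀ (dir (k + 1)) (k + 1) ≤ E * pS δ dir σ₀ w₀ (dir (k + 1)) k +
      hS δ dir σ₀ w₀ (dir (k + 1)) (k + 1)
    rw [he]
    have hw := hwin k hk i hi hct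
    have h3 := hS_ratio (Q := 2 * q ^ 3 * E) hq
      (by
        have h4 : 1 ≤ q ^ 3 := Nat.one_le_pow _ _ hq1
        calc 2 = 2 * 1 * 1 := by norm_num
          _ ≤ 2 * q ^ 3 * E := Nat.mul_le_mul (Nat.mul_le_mul_left 2 h4) hE1)
      hδ dir σ₀ w₀ o ho (dir (k + 1)) (i := i) (j := k + 1) (by omega)
      (lt_of_lt_of_le (by omega) (hBδ _))
      ((wS_mono δ dir w₀ hk _).trans (hlo _)) (fun l' => (hw l').1) (fun l' => (hw l').2)
    refine Nat.le_of_mul_le_mul_left ?_ hq3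
    calc 2 * q ^ 3 * (E * hS δ dir σ₀ w₀ (dir (k + 1)) (k + 1)) =
          2 * q ^ 3 * E * hS δ dir σ₀ w₀ (dir (k + 1)) (k + 1) := by ring
      _ ≤ _ := h3
      _ = _ := by ring
  · intro k hk S hS x hx hF
    change GM (Rg (σ₀ + (k + 1)) (update (wS δ dir w₀ (k + 1)) (δ (dir (k + 1))) 0))
      ((S + Multiset.replicate x 1).map Kind.free)
    have h4 := wS_margin δ dir σ₀ w₀ (dir (k + 1)) (bK q M E D) (k + 1) kt hk (hmar _)
    refine hex k hk (σ₀ + (k + 1)) (by omega) (by omega) _ ?_ S hS x hx ?_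
    · exact (Nat.lt_mul_div_succ _ hE1).le
    · refine hF.trans (Nat.add_le_add_right (le_of_eq ?_) _)
      congr 1
      refine Multiset.map_congr rfl fun m hm => ?_
      exact (Lx_wS hδ dir w₀ (fun l => hb2.trans (hBδ l)) (hS m hm) (dir (k + 1)) l₁ (k + 1)).symm

end Pool.Agent.H18.Tk

end
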