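import Pool.Agent.H94.LP3.M56
import Pool.Agent.H94.LP3.M69
import Pool.Agent.H94.LP3.M71
import Pool.Agent.H94.LP3.M74

/-! The parts of this file: H18.Tj.PolyT, H18.Tk.ThinG, H18.Tk.NormK, H18.Tk.NearG, H18.Tk.PolyK, H18.Tk.NearGen. -/

section

/-!
# Module T6a (TJ): the bounds are polynomial

Unfold the definitions and use `PolyB.const`, `.id`, `.add`, `.mul`, `.pow`, `.le` of
`Pool/Agent/H18/Pr/PolyBL.lean`.
-/

namespace Pool.Agent.H18.Tj

open Finset Function Pool.Agent.H18.Ex Pool.Agent.H18.Pr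

theorem polyB_cQ (q : ℕ) : PolyB fun M => cQ q M := by
  unfold cQ
  exact (((((PolyB.const 64).mul PolyB.id).mul (PolyB.id.add (PolyB.const 1))).mul
    (((PolyB.id.pow q).add (PolyB.const 1)).pow 2)).mul
    ((PolyB.id.pow (q + 1)).add (PolyB.const 1)))

theorem polyB_kT (q n : ℕ) {θ V : ℕ → ℕ} (hθ : PolyB θ) (hV : PolyB V) :
    PolyB fun M => kT q (θ M) (V M) n := by
  unfold kT zT
  exact (((PolyB.const 4).mul (hθ.pow 2)).pow n).mul
    ((PolyB.const 12).mul (((hV.pow 2).add ((hθ.pow 2).mul ((hθ.pow (q + 1)).pow 2))).add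
      (((PolyB.const 1).add hV).mul ((hθ.pow 3).mul (hV.pow 2)))))

end Pool.Agent.H18.Tj

end

section

/-!
# Module T2 (TK): near-exactness if all coordinates other than `h`, `c` are thin

As `thin_step` in `Pool/Agent/H18/Tj/ThinS.lean` and `thin` in `Pool/Agent/H18/Tj/Thin.lean`, without the hypothesis
`σ ≤ w h`: it was only used in `cnt_thin`, `cnt_mono` for `β s ≤ β t + θ ^ (q + 1)`, where now `cnt_thin_up` and
`cnt_thin_dn` are used at most `θ` times.
-/

namespace Pool.Agent.H18.Tk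

open Finset Function Pool.Agent.H18.Ex Pool.Agent.H18.Ta Pool.Agent.H18.Tj

variable {ι : Type} [Fintype ι] [DecidableEq ι]

/-- the ranks permute the layers -/
private theorem ThinG_rk {ℓ u : ℕ} (hu : u < ℓ) (W : ℕ → ℕ) :
    ∑ s ∈ range ℓ, W (Ta.rk ℓ u 0 s) = ∑ t ∈ range ℓ, W t := by
  have hmaps : Set.MapsTo (fun s => Ta.rk ℓ u 0 s) (range ℓ : Set ℕ) (range ℓ : Set ℕ) := by
    intro s hs
    rw [mem_coe, mem_range] at hs ⊢
    exact rk_lt (by omega) hs
  have hinj : Set.InjOn (fun s => Ta.rk ℓ u 0 s) (range ℓ : Set ℕ) := by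
    intro s hs t ht he
    rw [mem_coe, mem_range] at hs ht
    exact rk_inj (by omega) hs ht he
  exact sum_nbij (fun s => Ta.rk ℓ u 0 s) hmaps hinj
    (surjOn_of_injOn_of_card_le _ hmaps hinj le_rfl) fun _ _ => rfl

private theorem ThinG_rk_self (ℓ s : ℕ) : Ta.rk ℓ s 0 s = 0 := by
  unfold Ta.rk
  split_ifs <;> omega

private theorem ThinG_up {h c : ι} (hc : h ≠ c) {τ θ q : ℕ} {w : ι → ℕ} (hq : Fintype.card ι ≤ q)
    (hθ : 1 ≤ θ) (hthin : ∀ i, i ≠ h → i ≠ c → w i < θ) (d : ℕ) :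
    (Rg (τ + d) w).card ≤ (Rg τ w).card + d * θ ^ q := by
  induction d with
  | zero => simp
  | succ d ih =>
    have h2 := cnt_thin_up hc (σ := τ + d) hq hθ hthin
    have h3 : τ + (d + 1) = τ + d + 1 := by ring
    rw [h3]
    have h4 : (d + 1) * θ ^ q = d * θ ^ q + θ ^ q := by ring
    omega

private theorem ThinG_dn {h c : ι} (hc : h ≠ c) {τ θ q : ℕ} {w : ι → ℕ} (hq : Fintype.card ι ≤ q)
    (hθ : 1 ≤ θ) (hthin : ∀ i, i ≠ h → i ≠ c → w i < θ) (d : ℕ) :
    (Rg τ w).card ≤ (Rg (τ + d) w).card + d * θ ^ q := by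
  induction d with
  | zero => simp
  | succ d ih =>
    have h2 := cnt_thin_dn hc (σ := τ + d) hq hθ hthin
    have h3 : τ + (d + 1) = τ + d + 1 := by ring
    rw [h3]
    have h4 : (d + 1) * θ ^ q = d * θ ^ q + θ ^ q := by ring
    omega

private theorem ThinG_const {κ : Type} [Fintype κ] {X : Type} (a : X) :
    (univ : Finset κ).val.map (fun _ => a) = Multiset.replicate (Fintype.card κ) a := by
  rw [Multiset.map_const', Finset.card_val, Finset.card_univ]

theorem thin_stepG {q M θ K' : ℕ} (hq : Fintype.card ι ≤ q) (hM : 1 ≤ M) (h c y : ι)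
    (hhc : h ≠ c) (hyh : y ≠ h) (hyc : y ≠ c) (w : ι → ℕ) (σ : ℕ) (hθσ : θ ≤ σ)
    (hMh : M ≤ w h) (hMc : M ≤ w c) (hthin : ∀ i, i ≠ h → i ≠ c → w i < θ)
    (ih : ∀ s < w y + 1, ∀ S : Multiset ℕ, (∀ m ∈ S, m ≤ M) → ∀ x : ℕ,
      K' * ((Rg (σ - s) (update w y 0)).card + 1) ≤ x ^ 2 →
      (Rg (σ - s) (update w y 0)).card ≤ (S.map (Lx (update w y 0))).sum + x →
      GM (Rg (σ - s) (update w y 0)) ((S + Multiset.replicate x 1).map Kind.free))
    (S : Multiset ℕ) (hS : ∀ m ∈ S, m ≤ M) (x : ℕ)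
    (hx1 : zT q θ (M ^ q) * ((Rg σ w).card + 1) ≤ x ^ 2)
    (hx2 : 4 * θ ^ 2 * K' * ((Rg σ w).card + 1) ≤ x ^ 2)
    (hsum : (Rg σ w).card ≤ (S.map (Lx w)).sum + x) :
    GM (Rg σ w) ((S + Multiset.replicate x 1).map Kind.free) := by
  have hyθ : w y < θ := hthin y hyh hyc
  have hθ1 : 1 ≤ θ := by omega
  have hne : Nonempty ι := ⟨h⟩
  obtain ⟨w', hw'⟩ : ∃ w', w' = update w y 0 := ⟨_, rfl⟩
  rw [← hw'] at ih
  have hw'h : w' h = w h := by rw [hw', update_of_ne (Ne.symm hyh)]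
  have hw'c : w' c = w c := by rw [hw', update_of_ne (Ne.symm hyc)]
  have hthin' : ∀ i, i ≠ h → i ≠ c → w' i < θ := by
    intro i hi1 hi2
    rw [hw']
    by_cases hiy : i = y
    · rw [hiy, update_self]
      omega
    · rw [update_of_ne hiy]
      exact hthin i hi1 hi2
  obtain ⟨ℓ, hℓ⟩ : ∃ ℓ, ℓ = w y + 1 := ⟨_, rfl⟩
  have hℓ1 : 1 ≤ ℓ := by omega
  have hℓθ : ℓ ≤ θ := by omega
  rw [← hℓ] at ih
  -- many simple points
  rcases Nat.lt_or_ge x (Rg σ w).card with hxc | hxc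
  swap
  · have h1 := GM.of_card (Rg σ w) (Multiset.replicate x 1) (S.map Kind.free)
      (fun m hm => (Multiset.eq_of_mem_replicate hm).ge)
      (by rw [Multiset.card_replicate]; exact hxc)
    rw [Multiset.map_add, add_comm]
    exact h1
  -- drop the superfluous points
  obtain ⟨S₁, hS₁, hs1, hs2, hS₁pos⟩ := exists_drop (Lx w) (M ^ q) ((Rg σ w).card - x) S
    (fun m hm => Lx_le_pow hq hne (hS m hm) hM) (by omega)
  refine GM.mono (Multiset.map_le_map (add_le_add_left hS₁ (Multiset.replicate x 1))) ?_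
  have hS₁M : ∀ m ∈ S₁, m ≤ M := fun m hm => hS m (Multiset.mem_of_le hS₁ hm)
  obtain ⟨k, μ, hμ⟩ := multi_exists_fin S₁
  have hμM : ∀ j, μ j ≤ M := by
    intro j
    apply hS₁M
    rw [← hμ]
    exact Multiset.mem_map.2 ⟨j, (by rw [Finset.mem_val]; exact Finset.mem_univ _), rfl⟩
  have hμpos : ∀ j, 0 < Lx w (μ j) := by
    intro j
    apply hS₁pos
    rw [← hμ]
    exact Multiset.mem_map.2 ⟨j, (by rw [Finset.mem_val]; exact Finset.mem_univ _), rfl⟩
  have hsumS : (S₁.map (Lx w)).sum = ∑ j, Lx w (μ j) := by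
    rw [← hμ, Multiset.map_map]
    rfl
  rw [hsumS] at hs1 hs2
  -- the assignment of the points
  obtain ⟨u, hu, hdev⟩ := assign ℓ (M ^ q) hℓ1 k (fun j i => Lx w' (μ j - i))
    (fun j i => Lx_mono (h := h) (M := M) (by rw [hw'h]; exact hMh) (by omega)
      ((Nat.sub_le _ _).trans (hμM j)))
    (fun j i => by
      rcases Nat.lt_or_ge (μ j - i) 2 with h2 | h2
      · have e1 : μ j - (i + 1) = 0 := by omega
        rw [e1, Lx_zero]
        omega
      · have h3 := Lx_convex hhc (w := w') (M := M) (by rw [hw'h]; exact hMh)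
          (by rw [hw'c]; exact hMc) (μ j - i - 2) (by have := hμM j; omega)
        have e1 : μ j - (i + 1) = μ j - i - 2 + 1 := by omega
        have e2 : μ j - (i + 2) = μ j - i - 2 := by omega
        have e3 : μ j - i = μ j - i - 2 + 2 := by omega
        rw [e1, e2]
        rw [← e3] at h3
        linarith)
    (fun j => by
      rw [Nat.sub_zero]
      exact Lx_le_pow hq hne (hμM j) hM)
  obtain ⟨L, hL⟩ : ∃ L : ℕ → ℕ, L = fun s => ∑ j, Lx w' (μ j - Ta.rk ℓ (u j) 0 s) := ⟨_, rfl⟩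
  have hsumL : ∑ s ∈ range ℓ, L s = ∑ j, Lx w (μ j) := by
    rw [hL, sum_comm]
    refine sum_congr rfl fun j _ => ?_
    rw [ThinG_rk (hu j) (fun t => Lx w' (μ j - t)), Lx_layer y w (μ j), ← hw', ← hℓ]
  have hsumWL : ∑ j, ∑ t ∈ range ℓ, ((Lx w' (μ j - t) : ℕ) : ℤ) = ∑ t ∈ range ℓ, (L t : ℤ) := by
    have e1 : ∑ t ∈ range ℓ, (L t : ℤ) = ((∑ t ∈ range ℓ, L t : ℕ) : ℤ) := by push_cast; rfl
    rw [e1, hsumL]
    push_cast
    refine sum_congr rfl fun j _ => ?_
    rw [Lx_layer y w (μ j), ← hw', ← hℓ]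
    push_cast
    rfl
  -- the sizes of the layers
  obtain ⟨β, hβ⟩ : ∃ β : ℕ → ℕ, β = fun s => (Rg (σ - s) w').card := ⟨_, rfl⟩
  have hsumβ : ∑ s ∈ range ℓ, β s = (Rg σ w).card := by
    rw [cnt_layer y σ w, ← hw', ← hℓ, hβ]
    rw [filter_true_of_mem]
    intro t ht
    rw [mem_range] at ht
    omega
  have hβd : ∀ s < ℓ, ∀ t < ℓ, β s ≤ β t + θ ^ (q + 1) := by
    intro s hs t ht
    rw [hβ]
    dsimp only
    rcases Nat.lt_or_ge s t with hst | hst
    · have h1 := ThinG_up hhc (τ := σ - t) hq hθ1 hthin' (t - s)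
      have e1 : σ - t + (t - s) = σ - s := by omega
      rw [e1] at h1
      have h2 : (t - s) * θ ^ q ≤ θ * θ ^ q := Nat.mul_le_mul_right _ (by omega)
      have h3 : θ ^ (q + 1) = θ * θ ^ q := by ring
      omega
    · have h1 := ThinG_dn hhc (τ := σ - s) hq hθ1 hthin' (s - t)
      have e1 : σ - s + (s - t) = σ - t := by omega
      rw [e1] at h1
      have h2 : (s - t) * θ ^ q ≤ θ * θ ^ q := Nat.mul_le_mul_right _ (by omega)
      have h3 : θ ^ (q + 1) = θ * θ ^ q := by ring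
      omega
  have hkL : k ≤ ∑ s ∈ range ℓ, L s := by
    rw [hsumL]
    calc k = ∑ _j : Fin k, 1 := by simp
      _ ≤ ∑ j, Lx w (μ j) := sum_le_sum fun j _ => hμpos j
  obtain ⟨xs, hxs1, hxs2, hxs3⟩ := distribute q θ (M ^ q) ℓ k K' x hℓ1 hℓθ β L hβd
    (by rw [hsumβ, hsumL]; omega) (by rw [hsumβ, hsumL]; omega) hkL
    (by
      rw [← hsumWL, hL]
      push_cast
      push_cast at hdev
      exact hdev)
    (by rw [hsumβ]; exact hx1) (by rw [hsumβ]; exact hx2)
  -- the family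
  obtain ⟨μ', hμ'⟩ : ∃ μ' : Fin k ⊕ (Σ s : Fin ℓ, Fin (xs s)) → ℕ,
      μ' = Sum.elim μ (fun _ => 1) := ⟨_, rfl⟩
  obtain ⟨u', hu'⟩ : ∃ u' : Fin k ⊕ (Σ s : Fin ℓ, Fin (xs s)) → ℕ,
      u' = Sum.elim u (fun p => (p.1 : ℕ)) := ⟨_, rfl⟩
  have hfam : (S₁ + Multiset.replicate x 1).map (Kind.free (ι := ι)) =
      (univ : Finset (Fin k ⊕ (Σ s : Fin ℓ, Fin (xs s)))).val.map (fun i => Kind.free (μ' i)) := by
    have hcard : Fintype.card (Σ s : Fin ℓ, Fin (xs s)) = x := by
      rw [Fintype.card_sigma, ← hxs1]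
      simp only [Fintype.card_fin]
      exact Fin.sum_univ_eq_sum_range xs ℓ
    have e1 : (fun i => Kind.free (ι := ι) (μ' i)) =
        Sum.elim (fun j => Kind.free (μ j)) (fun _ => Kind.free 1) := by
      funext i
      rw [hμ']
      rcases i with i | i
      · rfl
      · rfl
    rw [e1, multi_map_sum, ThinG_const, hcard, Multiset.map_add, Multiset.map_replicate, ← hμ,
      Multiset.map_map]
    rfl
  rw [hfam, GM_iff]
  refine layers (Rg σ w) y ℓ ?_ μ' u' ?_ ?_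
  · intro a ha
    have h1 := (mem_Rg.1 ha).1 y
    omega
  · intro i
    rw [hu']
    rcases i with i | i
    · exact hu i
    · exact i.1.2
  · intro s hs
    rw [lyr_Rg y σ s w (by omega) (by omega), ← hw']
    have hxx := ih s hs ((univ : Finset (Fin k)).val.map (fun j => μ j - Ta.rk ℓ (u j) 0 s))
      (fun m hm => by
        obtain ⟨j, _, rfl⟩ := Multiset.mem_map.1 hm
        exact (Nat.sub_le _ _).trans (hμM j)) (xs s)
      (by
        have h1 := hxs3 s hs
        rw [hβ] at h1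
        exact h1)
      (by
        have h1 := hxs2 s hs
        rw [hβ, hL] at h1
        rw [Multiset.map_map]
        exact h1)
    have e1 : ((univ : Finset (Fin k)).val.map (fun j => μ j - Ta.rk ℓ (u j) 0 s) +
        Multiset.replicate (xs s) 1).map (Kind.free (ι := ι)) =
        (univ : Finset (Fin k ⊕ Fin (xs s))).val.map
          (Sum.elim (fun j => Kind.free (μ j - Ta.rk ℓ (u j) 0 s)) (fun _ => Kind.free 1)) := by
      rw [multi_map_sum, ThinG_const, Fintype.card_fin, Multiset.map_add, Multiset.map_replicate,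
        Multiset.map_map]
      rfl
    rw [e1, GM_iff] at hxx
    refine GI.of_comp (fun i : Fin k ⊕ Fin (xs s) =>
      (Sum.elim Sum.inl (fun t => Sum.inr ⟨⟨s, hs⟩, t⟩) i :
        Fin k ⊕ (Σ s : Fin ℓ, Fin (xs s)))) ?_ ?_
    · rintro (i | i) (j | j) hij
      · exact congrArg Sum.inl (Sum.inl_injective hij)
      · exact absurd hij (by simp)
      · exact absurd hij (by simp)
      · have h1 := Sum.inr_injective hij
        have h2 := eq_of_heq (Sigma.mk.inj h1).2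
        exact congrArg Sum.inr h2
    · have e2 : (fun i : Fin k ⊕ Fin (xs s) => Kind.free (ι := ι)
          (μ' (Sum.elim Sum.inl (fun t => Sum.inr ⟨⟨s, hs⟩, t⟩) i) -
            Ta.rk ℓ (u' (Sum.elim Sum.inl (fun t => Sum.inr ⟨⟨s, hs⟩, t⟩) i)) 0 s)) =
          Sum.elim (fun j => Kind.free (μ j - Ta.rk ℓ (u j) 0 s)) (fun _ => Kind.free 1) := by
        funext i
        rw [hμ', hu']
        rcases i with i | i
        · rfl
        · show Kind.free (1 - Ta.rk ℓ s 0 s) = Kind.free 1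
          rw [ThinG_rk_self]
      rw [e2]
      exact hxx

private theorem ThinG_base {M : ℕ} (hM : 1 ≤ M) {h c : ι} (hhc : h ≠ c) {w : ι → ℕ} {σ : ℕ}
    (hMh : M ≤ w h) (hMc : M ≤ w c) (h0 : ∀ i, i ≠ h → i ≠ c → w i = 0)
    (S : Multiset ℕ) (hS : ∀ m ∈ S, m ≤ M) (x : ℕ)
    (hsum : (Rg σ w).card ≤ (S.map (Lx w)).sum + x) :
    GM (Rg σ w) ((S + Multiset.replicate x 1).map Kind.free) := by
  have hcard : (univ.filter fun i => 0 < w i).card = 2 := by
    have h1 : (univ.filter fun i => 0 < w i) = {h, c} := by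
      ext i
      rw [mem_filter, mem_insert, mem_singleton]
      constructor
      · rintro ⟨_, hi⟩
        by_contra hcon
        push Not at hcon
        rw [h0 i hcon.1 hcon.2] at hi
        exact absurd hi (lt_irrefl 0)
      · rintro (rfl | rfl)
        · exact ⟨mem_univ _, by omega⟩
        · exact ⟨mem_univ _, by omega⟩
    rw [h1, card_pair hhc]
  refine base_one M σ w hcard _ ?_ ?_
  · intro m hm
    rcases Multiset.mem_add.1 hm with h1 | h1
    · exact hS m h1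
    · rw [Multiset.eq_of_mem_replicate h1]
      exact hM
  · refine hsum.trans (le_of_eq ?_)
    rw [Multiset.map_add, Multiset.sum_add, Multiset.map_replicate, Multiset.sum_replicate,
      base_ell_one, smul_eq_mul, mul_one]
    congr 2
    refine Multiset.map_congr rfl fun m hm => ?_
    have h1 := hS m hm
    rw [base_ell_one, Lx_two hhc h0 (by omega) (by omega)]

theorem thinG {q M θ : ℕ} (hq : Fintype.card ι ≤ q) (hM : 1 ≤ M) (h c : ι) (hhc : h ≠ c)
    (n : ℕ) :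
    ∀ (w : ι → ℕ) (σ : ℕ), (univ.filter fun i => i ≠ h ∧ i ≠ c ∧ 0 < w i).card ≤ n →
    (n + 1) * θ ≤ σ → M ≤ w h → M ≤ w c → 1 ≤ w h → 1 ≤ w c →
    (∀ i, i ≠ h → i ≠ c → w i < θ) →
    ∀ S : Multiset ℕ, (∀ m ∈ S, m ≤ M) → ∀ x : ℕ,
      kT q θ (M ^ q) n * ((Rg σ w).card + 1) ≤ x ^ 2 →
      (Rg σ w).card ≤ (S.map (Lx w)).sum + x →
      GM (Rg σ w) ((S + Multiset.replicate x 1).map Kind.free) := by
  induction n with
  | zero =>
    intro w σ hn _ hMh hMc _ _ _ S hS x _ hsum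
    refine ThinG_base hM hhc hMh hMc ?_ S hS x hsum
    intro i hi1 hi2
    by_contra hcon
    have h1 : i ∈ univ.filter fun i => i ≠ h ∧ i ≠ c ∧ 0 < w i :=
      mem_filter.2 ⟨mem_univ _, hi1, hi2, by omega⟩
    have h2 : 0 < (univ.filter fun i => i ≠ h ∧ i ≠ c ∧ 0 < w i).card := card_pos.2 ⟨i, h1⟩
    omega
  | succ n ih =>
    intro w σ hn hθσ hMh hMc h1h h1c hthin S hS x hx hsum
    by_cases hact : ∃ y, y ≠ h ∧ y ≠ c ∧ 0 < w y
    · obtain ⟨y, hyh, hyc, hy0⟩ := hact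
      have hyθ := hthin y hyh hyc
      have hexp : (n + 1 + 1) * θ = (n + 1) * θ + θ := by ring
      have hθσ' : θ ≤ σ := by
        have h2 : 0 ≤ (n + 1) * θ := Nat.zero_le _
        omega
      have hw'h : update w y 0 h = w h := update_of_ne (Ne.symm hyh) _ _
      have hw'c : update w y 0 c = w c := update_of_ne (Ne.symm hyc) _ _
      have hkT : kT q θ (M ^ q) (n + 1) = 4 * θ ^ 2 * kT q θ (M ^ q) n := by
        unfold kT
        ring
      refine thin_stepG (K' := kT q θ (M ^ q) n) hq hM h c y hhc hyh hyc w σ hθσ' hMh hMc hthin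
        ?_ S hS x ?_ ?_ hsum
      · intro s hs S' hS' x' hx' hsum'
        refine ih (update w y 0) (σ - s) ?_ ?_ ?_ ?_ ?_ ?_ ?_ S' hS' x' hx' hsum'
        · have h2 : (univ.filter fun i => i ≠ h ∧ i ≠ c ∧ 0 < update w y 0 i) ⊆
              (univ.filter fun i => i ≠ h ∧ i ≠ c ∧ 0 < w i).erase y := by
            intro i hi
            obtain ⟨_, h3, h4, h5⟩ := mem_filter.1 hi
            have hiy : i ≠ y := by
              rintro rfl
              rw [update_self] at h5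
              exact absurd h5 (lt_irrefl 0)
            rw [update_of_ne hiy] at h5
            exact mem_erase.2 ⟨hiy, mem_filter.2 ⟨mem_univ _, h3, h4, h5⟩⟩
          have h3 := card_le_card h2
          rw [card_erase_of_mem (mem_filter.2 ⟨mem_univ _, hyh, hyc, hy0⟩)] at h3
          omega
        · omega
        · rw [hw'h]
          exact hMh
        · rw [hw'c]
          exact hMc
        · rw [hw'h]
          exact h1h
        · rw [hw'c]
          exact h1c
        · intro i hi1 hi2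
          by_cases hiy : i = y
          · rw [hiy, update_self]
            omega
          · rw [update_of_ne hiy]
            exact hthin i hi1 hi2
      · refine le_trans (Nat.mul_le_mul_right _ ?_) hx
        unfold kT
        refine Nat.le_mul_of_pos_left _ ?_
        have hθ1 : 0 < θ := by omega
        positivity
      · rw [← hkT]
        exact hx
    · push Not at hact
      refine ThinG_base hM hhc hMh hMc ?_ S hS x hsum
      intro i hi1 hi2
      have := hact i hi1 hi2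
      omega

end Pool.Agent.H18.Tk

end

section

/-!
# Module C7 (TK): normalisation

`NE_trunc`: `Rg_trunc` and `Lx_congr` (`m ≤ M ≤ σ`).  `NE_reflect`: `GM.reflect`, `card_reflect`.
`normalise`: put `w₁ = min w σ`; `∑ w₁ ≥ σ + D`: if `w i ≤ σ` for all `i` then `w₁ = w`, otherwise `w₁ i = σ` for some `i` and
another coordinate among `h`, `c` has `w₁ ≥ D`.  If `2 σ ≤ ∑ w₁` take `(σ, w₁)`.  Otherwise put `σ' = ∑ w₁ - σ < σ`, `σ' ≥ D`,
and `w' = min w₁ σ'`: `∑ w' ≥ 2 σ'`: if all `w₁ i ≤ σ'` then `∑ w' = ∑ w₁ = σ + σ' ≥ 2 σ'`; if `w₁ i > σ'` for two indices this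
is clear; if `w₁ i > σ'` for exactly one index `i` then `∑_{j ≠ i} w₁ j = σ + σ' - w₁ i ≥ σ'` since `w₁ i ≤ σ`.
(Compare `exa_of_fat` in `Pool/Agent/H18/Ex/Norm.lean`.)
-/

namespace Pool.Agent.H18.Tk

open Finset Function Pool.Agent.H18.Ex Pool.Agent.H18.Tj

variable {ι : Type} [Fintype ι] [DecidableEq ι]

theorem NE_trunc {M x₀ σ : ℕ} {w : ι → ℕ} (hM : M ≤ σ) (h : NE M x₀ σ fun i => min (w i) σ) :
    NE M x₀ σ w := by
  intro S hS x hx hc
  have h1 : S.map (Lx fun i => min (w i) σ) = S.map (Lx w) := by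
    apply Multiset.map_congr rfl
    intro m hm
    apply Lx_congr
    intro i
    have := hS m hm
    omega
  have h2 := h S hS x hx
  rw [Rg_trunc, h1] at h2
  exact h2 hc

theorem NE_reflect {M x₀ σ : ℕ} {w : ι → ℕ} (hσ : σ ≤ ∑ i, w i)
    (h : NE M x₀ (∑ i, w i - σ) w) : NE M x₀ σ w := by
  intro S hS x hx hc
  refine GM.reflect σ w hσ _ (h S hS x hx ?_)
  rw [card_reflect σ w hσ]
  exact hc

theorem normalise {M D : ℕ} (hMD : M ≤ D) (hD : 1 ≤ D) (h c : ι) (hhc : h ≠ c) (σ : ℕ)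
    (w : ι → ℕ) (hσ : D ≤ σ) (hh : D ≤ w h) (hc : D ≤ w c) (hs : σ + D ≤ ∑ i, w i) :
    ∃ (σ' : ℕ) (w' : ι → ℕ), D ≤ σ' ∧ (∀ i, w' i ≤ σ') ∧ 2 * σ' ≤ ∑ i, w' i ∧
      (∀ i, w' i ≤ w i) ∧ (∀ i, D ≤ w i → D ≤ w' i) ∧
      (Rg σ' w').card = (Rg σ w).card ∧ ∀ x₀, NE M x₀ σ' w' → NE M x₀ σ w := by
  set w1 : ι → ℕ := fun i => min (w i) σ with hw1
  have hw1σ : ∀ i, w1 i ≤ σ := fun i => min_le_right _ _
  have hw1w : ∀ i, w1 i ≤ w i := fun i => min_le_left _ _
  have hw1D : ∀ i, D ≤ w i → D ≤ w1 i := fun i hi => le_min hi hσ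
  have hother : ∀ a, ∃ b, b ≠ a ∧ D ≤ w b := by
    intro a
    by_cases ha : h = a
    · exact ⟨c, by rw [← ha]; exact hhc.symm, hc⟩
    · exact ⟨h, ha, hh⟩
  have hsum1 : σ + D ≤ ∑ i, w1 i := by
    by_cases hall : ∀ i, w i ≤ σ
    · have : ∑ i, w1 i = ∑ i, w i := sum_congr rfl fun i _ => min_eq_left (hall i)
      rw [this]
      exact hs
    · push Not at hall
      obtain ⟨a, ha⟩ := hall
      obtain ⟨b, hb, hb'⟩ := hother a
      have h1 := two_le_sum w1 (Ne.symm hb)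
      have h2 : w1 a = σ := min_eq_right ha.le
      have h3 := hw1D b hb'
      omega
  by_cases h2 : 2 * σ ≤ ∑ i, w1 i
  · refine ⟨σ, w1, hσ, hw1σ, h2, hw1w, hw1D, ?_, fun x₀ hx => NE_trunc (hMD.trans hσ) hx⟩
    rw [hw1, Rg_trunc]
  · push Not at h2
    set τ := ∑ i, w1 i - σ with hτ
    have hτσ : τ < σ := by omega
    have hτD : D ≤ τ := by omega
    set w2 : ι → ℕ := fun i => min (w1 i) τ with hw2
    have hsum2 : 2 * τ ≤ ∑ i, w2 i := by
      by_cases hall : ∀ i, w1 i ≤ τ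
      · have : ∑ i, w2 i = ∑ i, w1 i := sum_congr rfl fun i _ => min_eq_left (hall i)
        omega
      · push Not at hall
        obtain ⟨a, ha⟩ := hall
        have h3 : w2 a = τ := min_eq_right ha.le
        by_cases hb : ∃ b, b ≠ a ∧ τ ≤ w1 b
        · obtain ⟨b, hb, hb'⟩ := hb
          have h4 := two_le_sum w2 (Ne.symm hb)
          have h5 : w2 b = τ := min_eq_right hb'
          omega
        · push Not at hb
          have h4 : ∑ i ∈ univ.erase a, w2 i = ∑ i ∈ univ.erase a, w1 i :=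
            sum_congr rfl fun i hi => min_eq_left (hb i (ne_of_mem_erase hi)).le
          have h5 := add_sum_erase univ w2 (mem_univ a)
          have h6 := add_sum_erase univ w1 (mem_univ a)
          have h7 := hw1σ a
          omega
    refine ⟨τ, w2, hτD, fun i => min_le_right _ _, hsum2,
      fun i => (min_le_left _ _).trans (hw1w i), fun i hi => le_min (hw1D i hi) hτD, ?_, ?_⟩
    · rw [hw2, Rg_trunc, hτ, card_reflect σ w1 (by omega), hw1, Rg_trunc]
    · intro x₀ hx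
      refine NE_trunc (hMD.trans hσ) (NE_reflect (w := w1) (by omega) ?_)
      exact NE_trunc (hMD.trans hτD) hx

end Pool.Agent.H18.Tk

end

section

/-!
# Module C6 (TK): near-exactness, a third long coordinate

Normalised region: `w i ≤ w o`, `w i ≤ σ`, `2 σ ≤ ∑ w`; `l, o, u` distinct.  The path of `sysC` with `Λ = Unit`,
`δ () = l`, `dir` constant, `w₀ = update w l k0`, `k0 = bK q M E' D'`, `kt = w l - k0`, `σ₀ = σ - kt` (`≥ k0`): its state `kt` is
`Rg σ w` (`wS j = update w l (k0 + j)`, `wS_succ`), `ct dir () j = j`.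
* `num_sysC` with `E := E'`, `D := D'`, `u () = u`: `hlo` is `w l ≤ w o`; `hmar`: `margin_nrm`, `w u ≥ 2 k0`; `hwin`: `ct` is
  injective, so `i = j` and the difference is `1`, `2 q³ E' ≤ k0`; `hex`: `update (update w l _) l 0 = update w l 0`.
* `near_of_path` with `j0 = M`, `jE = M + 1`; `hi m = Lx w m` for `m ≤ M` (`hi_wS` at the state `kt`); the result is
  `GM (Rg σ w) (kindsS δ ⟨S, x, 0⟩)`.
* `R jE + hi M + 1 ≤ x₀`: `R jE` is `slab` with `t = kt - jE`, `w l - t = k0 + M + 1`: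
  `2 R jE * w l ≤ 4 q² (k0 + M + 2) card ≤ 4 q² (k0 + M + 2) E x₀ ≤ w l * x₀`; `hi M + 1 ≤ cE L ≤ F kt = fc σ w l` (`NumP.floor`
  and `top` at `kt`), and `2 fc * w l ≤ 4 q² card ≤ 4 q² E x₀ ≤ w l * x₀` (`facet_le`).
-/

namespace Pool.Agent.H18.Tk

open Finset Function Pool.Agent.H18.Ex Pool.Agent.H18.Tj

variable {ι : Type} [Fintype ι] [DecidableEq ι]

/-- The bound of the run. -/
def dG (q M E E' D' : ℕ) : ℕ :=
  4 * q ^ 2 * (bK q M E' D' + M + 2) * E + 4 * bK q M E' D' + 4 * M + 8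

private theorem NearG_le_cE {M : ℕ} (L : Lens M) (hM : 1 ≤ M) : L.hi M + 1 ≤ cE L := by
  unfold cE
  have h1 : 0 < M := hM
  have h2 : 1 ≤ 64 * M * (M + 1) * (L.lo M + 1) ^ 2 := Nat.succ_le_of_lt (by positivity)
  calc L.hi M + 1 = 1 * (L.hi M + 1) := (one_mul _).symm
    _ ≤ _ := Nat.mul_le_mul_right _ h2

private theorem NearG_ct (j : ℕ) : ct (fun _ => ()) () j = j := by
  unfold ct
  rw [filter_true_of_mem (fun _ _ => rfl), card_range]

private theorem NearG_wS (l : ι) (w : ι → ℕ) (k0 j : ℕ) :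
    wS (fun _ : Unit => l) (fun _ => ()) (update w l k0) j = update w l (k0 + j) := by
  induction j with
  | zero => rw [wS_zero, Nat.add_zero]
  | succ j ih => rw [wS_succ, ih, update_idem, update_self, Nat.add_assoc]

private theorem NearG_kinds (l : ι) (S : Multiset ℕ) (x : ℕ) :
    kindsS (fun _ : Unit => l) ⟨S, x, fun _ => 0⟩ =
      (S + Multiset.replicate x 1).map Kind.free := by
  unfold kindsS
  simp only [Multiset.map_add, Multiset.map_replicate, Multiset.map_zero, sum_const_zero, add_zero]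

private theorem NearG_div {a b c w x E : ℕ} (hw : 0 < w) (h : a * w ≤ b * c) (hc : c ≤ E * x)
    (hb : 2 * (b * E) ≤ w) : 2 * a ≤ x := by
  have h1 : 2 * a * w ≤ x * w := by
    calc 2 * a * w = 2 * (a * w) := by ring
      _ ≤ 2 * (b * c) := Nat.mul_le_mul_left _ h
      _ ≤ 2 * (b * (E * x)) := Nat.mul_le_mul_left _ (Nat.mul_le_mul_left _ hc)
      _ = 2 * (b * E) * x := by ring
      _ ≤ w * x := Nat.mul_le_mul_right _ hb
      _ = x * w := Nat.mul_comm _ _
  exact Nat.le_of_mul_le_mul_right h1 hw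

theorem near_runG {q M E E' D' : ℕ} (hq : Fintype.card ι ≤ q) (hM : 1 ≤ M) (l o u : ι)
    (hlo : l ≠ o) (huo : u ≠ o) (hul : u ≠ l) (w : ι → ℕ) (σ : ℕ) (hwo : ∀ i, w i ≤ w o)
    (hwσ : ∀ i, w i ≤ σ) (h2 : 2 * σ ≤ ∑ i, w i) (hE' : 2 * cQ q M ≤ E')
    (hu : 2 * bK q M E' D' ≤ w u) (hl : dG q M E E' D' ≤ w l)
    (hex : NEr M E' D' (update w l 0)) (x₀ : ℕ) (hcard : (Rg σ w).card ≤ E * x₀) :
    NE M x₀ σ w := by
  intro S hS x hx hsum
  set k0 := bK q M E' D' with hk0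
  have hk0' : k0 = 4 * q ^ 3 * E' + cQ q M + M + D' + 2 := rfl
  have hdG : dG q M E E' D' = 4 * q ^ 2 * (k0 + M + 2) * E + 4 * k0 + 4 * M + 8 := rfl
  have hol : o ≠ l := fun h => hlo h.symm
  have hwl : 4 * q ^ 2 * (k0 + M + 2) * E + 4 * k0 + 4 * M + 8 ≤ w l := by rw [← hdG]; exact hl
  have hq1 : 1 ≤ q := le_trans (Fintype.card_pos_iff.2 ⟨l⟩) hq
  obtain ⟨kt, hkt⟩ : ∃ kt, w l = k0 + kt := Nat.exists_eq_add_of_le (by omega)
  have hwlσ : w l ≤ σ := hwσ l
  have hwlo : w l ≤ w o := hwo l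
  obtain ⟨σ₀, hσ₀⟩ : ∃ σ₀, σ = σ₀ + kt := ⟨σ - kt, by omega⟩
  set w₀ := update w l k0 with hw₀
  set δ : Unit → ι := fun _ => l with hδdef
  have hδ : Injective δ := fun a b _ => Subsingleton.elim a b
  have hw₀o : w₀ o = w o := update_of_ne hol _ _
  have hw₀u : w₀ u = w u := update_of_ne hul _ _
  have hw₀l : w₀ l = k0 := update_self _ _ _
  have hwS : ∀ j, wS δ (fun _ => ()) w₀ j = update w l (k0 + j) := fun j => NearG_wS l w k0 j
  have hwSkt : wS δ (fun _ => ()) w₀ kt = w := by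
    rw [hwS, ← hkt, update_eq_self]
  have h1 : M ≤ update w₀ (δ ()) 0 o := by
    change M ≤ update w₀ l 0 o
    rw [update_of_ne hol, hw₀o]; omega
  have h2' : M ≤ update w₀ (δ ()) 0 u := by
    change M ≤ update w₀ l 0 u
    rw [update_of_ne hul, hw₀u]; omega
  have hmarg := margin_nrm l o hlo σ w hwo h2 u huo hul
  have H := num_sysC (E := E') (D := D') (kt := kt) hq hM (by simp) δ hδ (fun _ => ()) σ₀ w₀ ()
    o (fun _ => u) (fun _ => hlo) (fun _ => huo.symm) (fun _ => hul) hE' (by omega)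
    (by rw [hw₀o]; omega) (fun _ => by rw [hw₀u]; omega)
    (fun _ => by change _ ≤ w₀ l; rw [hw₀l])
    (fun _ => by rw [hwSkt, hw₀o]; exact hwlo)
    (fun _ => by
      rw [hwSkt]
      change σ₀ + kt + k0 ≤ ∑ i, update w l 0 i
      omega)
    (fun j _ i _ hij l' => by
      have e1 : i = j := by
        have h3 := NearG_ct i
        have h4 := NearG_ct j
        have h5 : ct (fun _ => ()) () i = ct (fun _ => ()) () j := hij
        omega
      have e2 : ct (fun _ => ()) l' (j + 1) - ct (fun _ => ()) l' i = 1 := by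
        have h3 := NearG_ct (j + 1)
        have h4 := NearG_ct i
        have h5 : ct (fun _ => ()) l' (j + 1) = j + 1 := h3
        have h6 : ct (fun _ => ()) l' i = i := h4
        omega
      have e3 : 2 * q ^ 3 * E' ≤ 4 * q ^ 3 * E' := Nat.mul_le_mul_right _ (by omega)
      rw [e2, mul_one]
      refine ⟨?_, by omega⟩
      change _ ≤ w₀ l
      rw [hw₀l]; omega)
    (fun j _ => by
      rw [hwS]
      change NEr M E' D' (update (update w l (k0 + (j + 1))) l 0)
      rw [update_idem]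
      exact hex)
    h1 h2'
  set L := lensOf M (update w₀ (δ ()) 0) o u huo.symm h1 h2' with hL
  have hhi : ∀ m, m ≤ M → L.hi m = Lx w m := by
    intro m hm
    have h3 := hi_wS hδ (fun _ => ()) w₀ (M := M) (m := m)
      (fun _ => by change M ≤ w₀ l; rw [hw₀l]; omega) hm () kt o u huo.symm h1 h2'
    rw [hwSkt] at h3
    exact h3
  have hwpos : 0 < w l := by omega
  -- the end of the path
  have hR : 2 * (sysC δ hδ (fun _ => ()) σ₀ w₀).R (M + 1) ≤ x₀ := by
    obtain ⟨t, ht⟩ : ∃ t, kt = t + (M + 1) := ⟨kt - (M + 1), by omega⟩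
    have e1 : w l - t = k0 + (M + 1) := by omega
    have e2 : σ - t = σ₀ + (M + 1) := by omega
    have h3 := slab hq l σ w t (by omega) hwlσ h2 (by omega)
    have e3 : (sysC δ hδ (fun _ => ()) σ₀ w₀).R (M + 1) =
        (Rg (σ - t) (update w l (w l - t))).card := by
      change (Rg (σ₀ + (M + 1)) (wS δ (fun _ => ()) w₀ (M + 1))).card = _
      rw [hwS, e1, e2]
    rw [e3]
    refine NearG_div hwpos h3 hcard ?_
    have e4 : 2 * (2 * q ^ 2 * (w l - t + 1) * E) = 4 * q ^ 2 * (k0 + M + 2) * E := by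
      have e5 : w l - t + 1 = k0 + M + 2 := by omega
      rw [e5]; ring
    omega
  have hFf : (sysC δ hδ (fun _ => ()) σ₀ w₀).F kt = fc σ w l := by
    change (Rg (σ₀ + kt) (update (wS δ (fun _ => ()) w₀ kt) l 0)).card = _
    rw [hwSkt, ← hσ₀]
    rfl
  have hhiM : L.hi M + 1 ≤ fc σ w l := by
    obtain ⟨k', hk'⟩ : ∃ k', kt = k' + 1 := ⟨kt - 1, by omega⟩
    have h3 := H.floor () kt le_rfl
    have h4 := H.top k' (by omega)
    rw [← hk'] at h4
    have h5 : pS δ (fun _ => ()) σ₀ w₀ () kt = (sysC δ hδ (fun _ => ()) σ₀ w₀).F kt := h4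
    rw [h5, hFf] at h3
    exact le_trans (NearG_le_cE L hM) h3
  have hfc : 2 * fc σ w l ≤ x₀ := by
    have h3 := facet_le q hq1 σ w l (w l)
      (le_trans (card_le_univ _) (le_trans hq (Nat.le_succ _))) le_rfl hwlσ (by omega)
    refine NearG_div hwpos h3 hcard ?_
    have e1 : 4 * q ^ 2 * 1 * E ≤ 4 * q ^ 2 * (k0 + M + 2) * E :=
      Nat.mul_le_mul_right _ (Nat.mul_le_mul_left _ (by omega))
    have e2 : 2 * (2 * q ^ 2 * E) = 4 * q ^ 2 * 1 * E := by ring
    omega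
  have hxx : (sysC δ hδ (fun _ => ()) σ₀ w₀).R (M + 1) + L.hi M + 1 ≤ x := by omega
  have hRkt : (sysC δ hδ (fun _ => ()) σ₀ w₀).R kt = (Rg σ w).card := by
    change (Rg (σ₀ + kt) (wS δ (fun _ => ()) w₀ kt)).card = _
    rw [hwSkt, ← hσ₀]
  have hsum2 : (sysC δ hδ (fun _ => ()) σ₀ w₀).R kt ≤ (S.map L.hi).sum + x := by
    rw [hRkt, Multiset.map_congr rfl fun m hm => hhi m (hS m hm)]
    exact hsum
  have hres := near_of_path H M (M + 1) (Nat.le_succ _) (by omega)
    (fun l' => by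
      have h3 : ct (fun _ => ()) l' M = M := NearG_ct M
      exact h3.ge)
    (fun l' => by
      have h3 : ct (fun _ => ()) l' M = M := NearG_ct M
      have h4 : ct (fun _ => ()) l' (M + 1) = M + 1 := NearG_ct (M + 1)
      change ct (fun _ => ()) l' M < ct (fun _ => ()) l' (M + 1)
      omega) S hS x hxx hsum2
  change GM (Rg (σ₀ + kt) (wS δ (fun _ => ()) w₀ kt)) (kindsS δ ⟨S, x, fun _ => 0⟩) at hres
  rw [hwSkt, ← hσ₀, NearG_kinds] at hres
  exact hres

end Pool.Agent.H18.Tk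

end

section

/-!
# Module C8 (TK): the bounds are polynomial

Unfold the definitions; see `Pool/Agent/H18/Tj/PolyT.lean`.
-/

namespace Pool.Agent.H18.Tk

open Finset Function Pool.Agent.H18.Ex Pool.Agent.H18.Pr Pool.Agent.H18.Tj

theorem polyB_bK (q : ℕ) {E D : ℕ → ℕ} (hE : PolyB E) (hD : PolyB D) :
    PolyB fun M => bK q M (E M) (D M) := by
  unfold bK
  exact (((((PolyB.const (4 * q ^ 3)).mul hE).add (polyB_cQ q)).add PolyB.id).add hD).add
    (PolyB.const 2)

theorem polyB_dG (q : ℕ) {E E' D' : ℕ → ℕ} (hE : PolyB E) (hE' : PolyB E') (hD' : PolyB D') :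
    PolyB fun M => dG q M (E M) (E' M) (D' M) := by
  have hb := polyB_bK q hE' hD'
  unfold dG
  exact (((((PolyB.const (4 * q ^ 2)).mul ((hb.add PolyB.id).add (PolyB.const 2))).mul hE).add
    ((PolyB.const 4).mul hb)).add ((PolyB.const 4).mul PolyB.id)).add (PolyB.const 8)

theorem polyB_dC {B C X : ℕ → ℕ} (hB : PolyB B) (hC : PolyB C) (hX : PolyB X) :
    PolyB fun M => dC (B M) (C M) (X M) := by
  unfold dC
  exact (((((PolyB.const 3000).mul hC).mul (hB.pow 2)).add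
    (((PolyB.const 2).mul hC).mul hX)).add ((PolyB.const 100).mul hB)).add (PolyB.const 8)

end Pool.Agent.H18.Tk

end

section

/-!
# Module C13 (TK): near-exactness in general

Induction on `n` (see `near_all` in `Pool/Agent/H18/Tj/NearAll.lean`).  Given `E`: let `E' = 2 cQ q`, `D'` the function of the
induction hypothesis for `E'` (`D' = 0` for `n = 0`), `θ = 2 bK q M E' D' + 1`, `K = kT q θ (M ^ q) n`.  `D` is the sum of
`dG q M (E M) (E' M) (D' M)`, `(n + 2) θ`, `2 K E²`, `θ`, `M`, `D'`, `1`.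
Let `h, c, w, σ, x₀` be given.  `normalise` (it keeps `D ≤ w h`, `D ≤ w c`, the number of the exponents; the number of the
active coordinates does not increase since `w' ≤ w`) reduces to `w i ≤ σ`, `2 σ ≤ ∑ w`.  Let `o` be a coordinate with
`w o` maximal.
* (A) some `u ≠ h, c` has `θ ≤ w u`.  Choose `(l, u')`: `(c, u)` if `o = h`; `(h, u)` if `o = c`; `(c, h)` otherwise.  `near_runG` with
  `l, o, u'`; the hypothesis `NEr M E' D' (update w l 0)` is the induction hypothesis for the pair `(o, u')`: the active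
  coordinates of `update w l 0` other than `o`, `u'` are at most `(n + 2) - 3` (`l`, `o`, `u'` are active, and `w` has at most
  `n + 2` active coordinates).
* (B) all `w u < θ`: `thinG`; `K (card + 1) ≤ 2 K card ≤ 2 K E x₀ ≤ x₀²` as `x₀ ≥ 2 K E`: otherwise
  `card ≤ E x₀ < 2 K E²`, but `card ≥ D + 1` (`card_ge` with `h`, `c`, `b = D`; `σ + D ≤ ∑ w` since `σ ≥ D`).
For `n = 0` the case (A) is impossible.
-/

namespace Pool.Agent.H18.Tk

open Finset Function Pool.Agent.H18.Ex Pool.Agent.H18.Pr Pool.Agent.H18.Tj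

variable {ι : Type} [Fintype ι] [DecidableEq ι]

private theorem NearGen_act {h c : ι} {n : ℕ} {w : ι → ℕ}
    (hcnt : (univ.filter fun i => i ≠ h ∧ i ≠ c ∧ 0 < w i).card ≤ n) :
    (univ.filter fun i => 0 < w i).card ≤ n + 2 := by
  have h1 : (univ.filter fun i => 0 < w i) ⊆
      insert h (insert c (univ.filter fun i => i ≠ h ∧ i ≠ c ∧ 0 < w i)) := by
    intro i hi
    have hi' := (mem_filter.mp hi).2
    rw [mem_insert, mem_insert, mem_filter]
    by_cases h1 : i = h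
    · exact Or.inl h1
    · by_cases h2 : i = c
      · exact Or.inr (Or.inl h2)
      · exact Or.inr (Or.inr ⟨mem_univ _, h1, h2, hi'⟩)
  have h2 := card_le_card h1
  have h3 := card_insert_le h (insert c (univ.filter fun i => i ≠ h ∧ i ≠ c ∧ 0 < w i))
  have h4 := card_insert_le c (univ.filter fun i => i ≠ h ∧ i ≠ c ∧ 0 < w i)
  omega

private theorem NearGen_three {l o u : ι} (hlo : l ≠ o) (huo : u ≠ o) (hul : u ≠ l) {w : ι → ℕ}
    (hl : 0 < w l) (ho : 0 < w o) (hu : 0 < w u) :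
    (univ.filter fun i => i ≠ o ∧ i ≠ u ∧ 0 < update w l 0 i).card + 3 ≤
      (univ.filter fun i => 0 < w i).card := by
  obtain ⟨A, hA⟩ : ∃ A, A = univ.filter fun i => 0 < w i := ⟨_, rfl⟩
  have hmem : ∀ i, i ∈ A ↔ 0 < w i := by
    intro i
    rw [hA, mem_filter]
    exact ⟨fun h => h.2, fun h => ⟨mem_univ _, h⟩⟩
  have h1 : (univ.filter fun i => i ≠ o ∧ i ≠ u ∧ 0 < update w l 0 i) ⊆
      ((A.erase l).erase o).erase u := by
    intro i hi
    obtain ⟨-, hio, hiu, hi0⟩ := mem_filter.mp hi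
    have hil : i ≠ l := by
      rintro rfl
      rw [update_self] at hi0
      exact lt_irrefl _ hi0
    rw [update_of_ne hil] at hi0
    exact mem_erase.mpr ⟨hiu, mem_erase.mpr ⟨hio, mem_erase.mpr ⟨hil, (hmem i).2 hi0⟩⟩⟩
  have h2 := card_le_card h1
  have hlA : l ∈ A := (hmem l).2 hl
  have hoA : o ∈ A.erase l := mem_erase.mpr ⟨Ne.symm hlo, (hmem o).2 ho⟩
  have huA : u ∈ (A.erase l).erase o :=
    mem_erase.mpr ⟨huo, mem_erase.mpr ⟨hul, (hmem u).2 hu⟩⟩
  rw [card_erase_of_mem huA, card_erase_of_mem hoA, card_erase_of_mem hlA] at h2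
  have h3 : 3 ≤ A.card := by
    have h4 := card_pos.mpr ⟨u, huA⟩
    rw [card_erase_of_mem hoA, card_erase_of_mem hlA] at h4
    omega
  rw [← hA]
  omega

private theorem NearGen_step (q : ℕ) (hq : Fintype.card ι ≤ q) (n : ℕ) (E D' : ℕ → ℕ)
    (hE : Pr.PolyB E) (hD' : Pr.PolyB D')
    (H : ∀ M, 1 ≤ M → ∀ w : ι → ℕ, (univ.filter fun i => 0 < w i).card ≤ n + 2 →
      ∀ l o u : ι, l ≠ o → u ≠ o → u ≠ l → 0 < w l → 0 < w o → 0 < w u → D' M ≤ w o →
      D' M ≤ w u → NEr M (2 * cQ q M) (D' M) (update w l 0)) :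
    ∃ D : ℕ → ℕ, Pr.PolyB D ∧ ∀ M, 1 ≤ M → ∀ (h c : ι), h ≠ c →
    ∀ w : ι → ℕ, (univ.filter fun i => i ≠ h ∧ i ≠ c ∧ 0 < w i).card ≤ n →
    D M ≤ w h → D M ≤ w c → NEr M (E M) (D M) w := by
  have hE' : Pr.PolyB fun M => 2 * cQ q M := (Pr.PolyB.const 2).mul (polyB_cQ q)
  have hθ : Pr.PolyB fun M => 2 * bK q M (2 * cQ q M) (D' M) + 1 :=
    ((Pr.PolyB.const 2).mul (polyB_bK q hE' hD')).add (Pr.PolyB.const 1)
  have hV : Pr.PolyB fun M => M ^ q := Pr.PolyB.id.pow q
  have hK : Pr.PolyB fun M => kT q (2 * bK q M (2 * cQ q M) (D' M) + 1) (M ^ q) n :=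
    polyB_kT q n hθ hV
  refine ⟨fun M => dG q M (E M) (2 * cQ q M) (D' M) +
    (n + 2) * (2 * bK q M (2 * cQ q M) (D' M) + 1) +
    2 * kT q (2 * bK q M (2 * cQ q M) (D' M) + 1) (M ^ q) n * E M ^ 2 +
    (2 * bK q M (2 * cQ q M) (D' M) + 1) + M + D' M + 1, ?_, ?_⟩
  · exact ((((((polyB_dG q hE hE' hD').add ((Pr.PolyB.const (n + 2)).mul hθ)).add
      (((Pr.PolyB.const 2).mul hK).mul (hE.pow 2))).add hθ).add Pr.PolyB.id).add hD').add
      (Pr.PolyB.const 1)
  · intro M hM h c hhc w hcnt hh hc σ hσ hs x₀ hcard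
    simp only at hh hc hσ hs
    have hbD : D' M ≤ bK q M (2 * cQ q M) (D' M) := by
      unfold bK
      omega
    obtain ⟨b, hb⟩ : ∃ b, b = bK q M (2 * cQ q M) (D' M) := ⟨_, rfl⟩
    rw [← hb] at hbD hh hc hσ hs
    obtain ⟨θ, hθd⟩ : ∃ θ, θ = 2 * b + 1 := ⟨_, rfl⟩
    rw [← hθd] at hh hc hσ hs
    obtain ⟨K, hKd⟩ : ∃ K, K = kT q θ (M ^ q) n := ⟨_, rfl⟩
    rw [← hKd] at hh hc hσ hs
    obtain ⟨g, hg⟩ : ∃ g, g = dG q M (E M) (2 * cQ q M) (D' M) := ⟨_, rfl⟩
    rw [← hg] at hh hc hσ hs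
    obtain ⟨D, hD⟩ : ∃ D, D = g + (n + 2) * θ + 2 * K * E M ^ 2 + θ + M + D' M + 1 := ⟨_, rfl⟩
    rw [← hD] at hh hc hσ hs
    obtain ⟨σ', w', k1, k2, k3, k4, k5, k6, k7⟩ := normalise (M := M) (D := D)
      (by omega) (by omega) h c hhc σ w hσ hh hc hs
    refine k7 x₀ ?_
    rw [← k6] at hcard
    have hh' := k5 h hh
    have hc' := k5 c hc
    have hcnt' : (univ.filter fun i => i ≠ h ∧ i ≠ c ∧ 0 < w' i).card ≤ n := by
      refine (card_le_card fun i hi => ?_).trans hcnt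
      obtain ⟨h0, h1, h2, h3⟩ := mem_filter.mp hi
      exact mem_filter.mpr ⟨h0, h1, h2, lt_of_lt_of_le h3 (k4 i)⟩
    obtain ⟨o, -, ho⟩ := exists_max_image univ w' ⟨h, mem_univ h⟩
    have ho' : ∀ i, w' i ≤ w' o := fun i => ho i (mem_univ i)
    by_cases hA : ∃ u, u ≠ h ∧ u ≠ c ∧ θ ≤ w' u
    · obtain ⟨u, huh, huc, hu⟩ := hA
      have key : ∀ l u' : ι, l ≠ o → u' ≠ o → u' ≠ l → D ≤ w' l → θ ≤ w' u' →
          NE M x₀ σ' w' := by
        intro l u' hlo huo hul hl hu'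
        have hoh := ho' h
        refine near_runG (q := q) (E := E M) (E' := 2 * cQ q M) (D' := D' M) hq hM l o u' hlo huo
          hul w' σ' ho' k2 k3 le_rfl (by omega) (by omega) ?_ x₀ hcard
        exact H M hM w' (NearGen_act hcnt') l o u' hlo huo hul (by omega) (by omega) (by omega)
          (by omega) (by omega)
      by_cases hoh : o = h
      · exact key c u (by rw [hoh]; exact Ne.symm hhc) (by rw [hoh]; exact huh) huc hc' hu
      · by_cases hoc : o = c
        · exact key h u (by rw [hoc]; exact hhc) (by rw [hoc]; exact huc) huh hh' hu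
        · exact key c h (Ne.symm hoc) (Ne.symm hoh) hhc hc' (by omega)
    · push Not at hA
      intro S hS x hx hsum
      have hθσ : (n + 1) * θ ≤ σ' := by
        have : (n + 2) * θ = (n + 1) * θ + θ := by ring
        omega
      refine thinG (q := q) (M := M) (θ := θ) hq hM h c hhc n w' σ' hcnt' hθσ (by omega)
        (by omega) (by omega) (by omega) (fun i h1 h2 => hA i h1 h2) S hS x ?_ hsum
      rw [← hKd]
      have hcge := card_ge σ' w' D h c hhc hh' hc' k1 (by omega)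
      have hcard' : (Rg σ' w').card ≤ E M * x := hcard.trans (Nat.mul_le_mul_left _ hx)
      have h2 : 2 * K * E M ^ 2 < (Rg σ' w').card := by omega
      have h3 : 2 * K * E M ≤ x := by
        by_contra h3
        push Not at h3
        have h4 : E M * x ≤ E M * (2 * K * E M) := Nat.mul_le_mul_left _ h3.le
        have h5 : E M * (2 * K * E M) = 2 * K * E M ^ 2 := by ring
        omega
      have h6 : (Rg σ' w').card + 1 ≤ 2 * (Rg σ' w').card := by omega
      calc K * ((Rg σ' w').card + 1) ≤ K * (2 * (Rg σ' w').card) := Nat.mul_le_mul_left _ h6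
        _ ≤ K * (2 * (E M * x)) := Nat.mul_le_mul_left _ (Nat.mul_le_mul_left _ hcard')
        _ = (2 * K * E M) * x := by ring
        _ ≤ x * x := Nat.mul_le_mul_right _ h3
        _ = x ^ 2 := by ring

theorem near_gen (q : ℕ) (hq : Fintype.card ι ≤ q) (n : ℕ) :
    ∀ E : ℕ → ℕ, Pr.PolyB E → ∃ D : ℕ → ℕ, Pr.PolyB D ∧ ∀ M, 1 ≤ M → ∀ (h c : ι), h ≠ c →
    ∀ w : ι → ℕ, (univ.filter fun i => i ≠ h ∧ i ≠ c ∧ 0 < w i).card ≤ n →
    D M ≤ w h → D M ≤ w c → NEr M (E M) (D M) w := by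
  induction n with
  | zero =>
    intro E hE
    refine NearGen_step q hq 0 E (fun _ => 0) hE (Pr.PolyB.const 0) ?_
    intro M _ w hcnt l o u hlo huo hul hl ho hu _ _
    exfalso
    have h1 := NearGen_three hlo huo hul hl ho hu
    omega
  | succ n ih =>
    intro E hE
    obtain ⟨D', hD', H⟩ := ih (fun M => 2 * cQ q M) ((Pr.PolyB.const 2).mul (polyB_cQ q))
    refine NearGen_step q hq (n + 1) E D' hE hD' ?_
    intro M hM w hcnt l o u hlo huo hul hl ho hu hDo hDu
    refine H M hM o u (Ne.symm huo) (update w l 0) ?_ ?_ ?_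
    · have h1 := NearGen_three hlo huo hul hl ho hu
      omega
    · rw [update_of_ne (Ne.symm hlo)]
      exact hDo
    · rw [update_of_ne hul]
      exact hDu

end Pool.Agent.H18.Tk

end
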