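import Pool.Agent.H94.LP3.M21
import Pool.Agent.H94.LP3.M34
import Pool.Agent.H94.LP3.M73
import Pool.Agent.H94.LP3.M77

/-! The parts of this file: H18.Tl.Prog, H18.Tl.Step, H18.Tl.Chain, H18.Tl.Asm, H18.Tl.HexL, H18.Tl.FinalL. -/

section

/-!
# Module Prog (TL): the progress lemma

`D` contains a matrix which is not scalar (`exists_orig`, `mov`, `hD.ds`).
Case B (`Y (zb b) β = 0` for all `Y ∈ D`, `μ ≤ dg β`): let `u` be as in `caseB`.  All vectors `g u`, `g = tz b c * rv b * tz b c'`, are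
eigenvectors of all `Y ∈ D`: `g⁻¹ Y g ∈ D` (`hD.tz`, `hD.rv`; `g⁻¹ = tz b (-c') * rv b * tz b (-c)`).  Let `Y ∈ D`, `Y u = χ u`, and suppose
`N = Y - χ • 1 ≠ 0`.  There is `ψ₁` with `ψ₁ ᵥ* N ≠ 0` and, since `det N = 0` (`N u = 0`), `ψ₂ ≠ 0` with `ψ₂ ᵥ* N = 0`
(`Matrix.exists_vecMul_eq_zero_iff`).  By `orb2` there is `g` with `ψ₂ ⬝ᵥ g u ≠ 0` and `(ψ₁ ᵥ* N) ⬝ᵥ g u ≠ 0`.  `N (g u) = χ' (g u)`;
`0 = (ψ₂ ᵥ* N) ⬝ᵥ g u = χ' (ψ₂ ⬝ᵥ g u)`, so `χ' = 0`, `N (g u) = 0`, a contradiction.  So all `Y ∈ D` are scalar, a contradiction.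
Case A: `vecMulVec v ξ ∈ D` (`caseA`).  For `w ≠ 0` suppose that `{Y w : Y ∈ D}` (a subspace) is not everything: there is `ψ ≠ 0` with
`ψ ⬝ᵥ Y w = 0` for all `Y ∈ D`.  By `orb` there are `c`, `c'`: `g = tz b c * rv b * tz b c'`, `g * vecMulVec v ξ * g⁻¹ ∈ D` and
`ψ ⬝ᵥ (g vecMulVec v ξ g⁻¹ w) = (ψ ⬝ᵥ g v) (ξ ⬝ᵥ g⁻¹ w) ≠ 0`, a contradiction.
-/

namespace Pool.Agent.H18.Tl

open Finset Polynomial Matrix

variable {τ : Type} [Fintype τ] [DecidableEq τ] {b : τ → ℕ} {μ : ℕ}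

private theorem Prog_conj {D : Submodule ℂ (Mt b)} (hD : Mxl b μ D) (Y : Mt b) (hY : Y ∈ D)
    (c c' : τ → ℂ) :
    tz b (-c') * rv b * tz b (-c) * Y * (tz b c * rv b * tz b c') ∈ D := by
  have h1 := hD.tz _ (hD.rv _ (hD.tz Y hY c)) c'
  have h2 : tz b (-c') * rv b * tz b (-c) * Y * (tz b c * rv b * tz b c') =
      tz b (-c') * (rv b * (tz b (-c) * Y * tz b c) * rv b) * tz b c' := by
    simp only [Matrix.mul_assoc]
  rw [h2]
  exact h1

private theorem Prog_conj' {D : Submodule ℂ (Mt b)} (hD : Mxl b μ D) (Y : Mt b) (hY : Y ∈ D)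
    (c c' : τ → ℂ) :
    tz b c * rv b * tz b c' * Y * (tz b (-c') * rv b * tz b (-c)) ∈ D := by
  have h1 := Prog_conj hD Y hY (-c') (-c)
  rw [neg_neg, neg_neg] at h1
  exact h1

private theorem Prog_inv (c c' : τ → ℂ) :
    (tz b c * rv b * tz b c') * (tz b (-c') * rv b * tz b (-c)) = 1 := by
  have h2 : (tz b c * rv b * tz b c') * (tz b (-c') * rv b * tz b (-c)) =
      tz b c * (rv b * (tz b c' * tz b (-c')) * rv b) * tz b (-c) := by
    simp only [Matrix.mul_assoc]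
  rw [h2, tz_mul_neg, Matrix.mul_one, rv_mul_rv, Matrix.mul_one, tz_mul_neg]

private theorem Prog_scalar {D : Submodule ℂ (Mt b)} (hD : Mxl b μ D) (u : Box b → ℂ)
    (hu : u ≠ 0) (heig : ∀ Y ∈ D, ∃ χ : ℂ, Y.mulVec u = χ • u) (Y : Mt b) (hY : Y ∈ D) :
    ∃ c : ℂ, Y = c • (1 : Mt b) := by
  classical
  obtain ⟨χ, hχ⟩ := heig Y hY
  refine ⟨χ, ?_⟩
  by_contra hne
  have hN0 : Y - χ • (1 : Mt b) ≠ 0 := fun h1 => hne (sub_eq_zero.mp h1)
  generalize hN : Y - χ • (1 : Mt b) = N at hN0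
  have hNY : ∀ x : Box b → ℂ, N.mulVec x = Y.mulVec x - χ • x := by
    intro x
    rw [← hN, Matrix.sub_mulVec, Matrix.smul_mulVec, Matrix.one_mulVec]
  have hNu : N.mulVec u = 0 := by rw [hNY, hχ, sub_self]
  have hdet : N.det = 0 := Matrix.exists_mulVec_eq_zero_iff.mp ⟨u, hu, hNu⟩
  obtain ⟨ψ₂, hψ₂, hψ₂N⟩ := Matrix.exists_vecMul_eq_zero_iff.mpr hdet
  obtain ⟨γ, hγ⟩ : ∃ γ, N γ ≠ 0 := by
    by_contra h1
    push Not at h1
    exact hN0 (funext h1)
  have hψ₁N : (Pi.single γ 1 : Box b → ℂ) ᵥ* N ≠ 0 := by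
    rw [Matrix.single_one_vecMul]
    exact hγ
  obtain ⟨c, c', h1, h2⟩ := orb2 u ((Pi.single γ 1 : Box b → ℂ) ᵥ* N) ψ₂ hu hψ₁N hψ₂
  obtain ⟨χ', hχ'⟩ := heig _ (Prog_conj hD Y hY c c')
  have hYg : Y.mulVec ((tz b c * rv b * tz b c').mulVec u) =
      χ' • (tz b c * rv b * tz b c').mulVec u := by
    have h3 : (tz b c * rv b * tz b c').mulVec
        ((tz b (-c') * rv b * tz b (-c) * Y * (tz b c * rv b * tz b c')).mulVec u) =
        χ' • (tz b c * rv b * tz b c').mulVec u := by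
      rw [hχ', Matrix.mulVec_smul]
    rw [← h3, Matrix.mulVec_mulVec, Matrix.mulVec_mulVec]
    congr 1
    have h4 : (tz b c * rv b * tz b c') *
        (tz b (-c') * rv b * tz b (-c) * Y * (tz b c * rv b * tz b c')) =
        ((tz b c * rv b * tz b c') * (tz b (-c') * rv b * tz b (-c))) * Y *
          (tz b c * rv b * tz b c') := by
      simp only [Matrix.mul_assoc]
    rw [h4, Prog_inv, Matrix.one_mul]
  have hNg : N.mulVec ((tz b c * rv b * tz b c').mulVec u) =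
      (χ' - χ) • (tz b c * rv b * tz b c').mulVec u := by
    rw [hNY, hYg, sub_smul]
  have h5 : (χ' - χ) * (ψ₂ ⬝ᵥ (tz b c * rv b * tz b c').mulVec u) = 0 := by
    have h6 : ψ₂ ⬝ᵥ N.mulVec ((tz b c * rv b * tz b c').mulVec u) = 0 := by
      rw [Matrix.dotProduct_mulVec, hψ₂N, zero_dotProduct]
    rw [hNg, dotProduct_smul, smul_eq_mul] at h6
    exact h6
  have h7 : χ' - χ = 0 := (mul_eq_zero.mp h5).resolve_right h2
  apply h1
  rw [← Matrix.dotProduct_mulVec, hNg, h7, zero_smul, dotProduct_zero]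

theorem prog {D : Submodule ℂ (Mt b)} (hD : Mxl b μ D) (hμ : 1 ≤ μ) (hμB : 2 * μ ≤ Bs b + 1)
    (hB : 1 ≤ Bs b) (hex : ∃ a L, Blk b μ a L ∧ L ≠ []) (w : Box b → ℂ) (hw : w ≠ 0)
    (v : Box b → ℂ) : ∃ Y ∈ D, Y.mulVec w = v := by
  classical
  obtain ⟨a, L₀, h⟩ := exists_orig hex
  obtain ⟨Y₀, hY₀, hns⟩ := mov hμ hB h
  have hY₀D : Y₀ ∈ D := hD.ds _ (by omega) hY₀
  by_cases h0 : ∀ Y ∈ D, ∀ β : Box b, μ ≤ dg β → Y (zb b) β = 0
  · exfalso
    obtain ⟨u, hu, heig⟩ := caseB hD hμ hμB h h0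
    obtain ⟨c, hc⟩ := Prog_scalar hD u hu heig Y₀ hY₀D
    exact hns c hc
  · push Not at h0
    obtain ⟨Y, hY, β, hβ, hβ'⟩ := h0
    obtain ⟨v₀, ξ, hv₀, hξ, hmem⟩ := caseA hD hμ h Y hY β hβ hβ'
    let T : Mt b →ₗ[ℂ] (Box b → ℂ) :=
      { toFun := fun Y => Y.mulVec w
        map_add' := fun A B => Matrix.add_mulVec A B w
        map_smul' := fun c A => Matrix.smul_mulVec c A w }
    by_cases htop : D.map T = ⊤
    · have hv : v ∈ D.map T := by rw [htop]; exact Submodule.mem_top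
      obtain ⟨Y', hY', hv'⟩ := hv
      exact ⟨Y', hY', hv'⟩
    · exfalso
      obtain ⟨f, hf, hle⟩ := Submodule.exists_le_ker_of_lt_top (D.map T) (lt_top_iff_ne_top.mpr htop)
      have hfx : ∀ x : Box b → ℂ, f x = (fun γ : Box b => f (Pi.single γ 1)) ⬝ᵥ x := by
        intro x
        conv_lhs => rw [pi_eq_sum_univ' x]
        rw [map_sum]
        refine Finset.sum_congr rfl fun γ _ => ?_
        rw [map_smul, smul_eq_mul, mul_comm]
      have hψ : (fun γ : Box b => f (Pi.single γ 1)) ≠ 0 := by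
        intro h1
        apply hf
        ext1 γ
        ext
        have := congrFun h1 γ
        simpa using this
      obtain ⟨c, c', h1, h2⟩ := orb v₀ w _ ξ hv₀ hw hψ hξ
      have h3 : f (T (tz b c * rv b * tz b c' * vecMulVec v₀ ξ *
          (tz b (-c') * rv b * tz b (-c)))) = 0 :=
        hle (Submodule.mem_map_of_mem (Prog_conj' hD _ hmem c c'))
      have h4 : T (tz b c * rv b * tz b c' * vecMulVec v₀ ξ *
          (tz b (-c') * rv b * tz b (-c))) =
          (ξ ⬝ᵥ (tz b (-c') * rv b * tz b (-c)).mulVec w) •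
            (tz b c * rv b * tz b c').mulVec v₀ := by
        change (tz b c * rv b * tz b c' * vecMulVec v₀ ξ *
          (tz b (-c') * rv b * tz b (-c))).mulVec w = _
        rw [← Matrix.mulVec_mulVec, Matrix.mul_vecMulVec, Matrix.vecMulVec_mulVec]
        simp
      rw [h4, hfx, dotProduct_smul, smul_eq_mul] at h3
      exact (mul_ne_zero h2 h1) h3

end Pool.Agent.H18.Tl

end

section

/-!
# Module Step (TL): one block lowers the dimension

`exists_max` gives `S` (and `a` from the existing block; all blocks with `S` points have the same height `a`, by `cnt` and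
`0 < Pc b`; `1 ≤ a` by `Blk.pos`) and `D = Ds b μ S` with `Mxl b μ D`.
Given `L`, `e`, `h`.  For a block `L'` with `S` points and a translate `L₁ = shL c L` with all `x ≠ 0`, the lists `L₁ ++ scL δ L'` have distinct `x`
for almost all `δ` (`δ ≠ 0`, `δ p'.x ≠ p.x`), and the right multiset of multiplicities (`L'` has `S` points of multiplicity `μ`).
If `h0 b e L ≤ h`: `ins_le` (and `h0_sh`).  Otherwise `h0 b e L = h + 1 > 0`; let `0 ≠ s ∈ Sol b e L`; choose `t₀` with `s(t₀) ≠ 0` and `t₀ ≠ p.x` for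
`p ∈ L` (finitely many exceptions); `L₁ = shL (-t₀) L`, `s₁ = sh t₀ s ∈ Sol b e L₁` (`sh_mem_Sol`), `e0 s₁ = s(t₀) ≠ 0`.  Suppose that for every
block `(L', Φ)` with `S` points there is `G ∈ Sol b (e + 1) L₁` with `e0 G = Φ₁ (e0 s₁)`.  Then for all `Y ∈ D` there is `G ∈ Sol b (e + 1) L₁` with
`e0 G = Y (e0 s₁)` (span induction), so by `prog` for all `v`; `full` gives `h0 b e L + cL b L ≤ Lm b (e + 1) ≤ cL b L`, so `h0 b e L = 0`, a
contradiction.  So for some block `ins_lt` applies.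
-/

namespace Pool.Agent.H18.Tl

open Finset Polynomial

variable {τ : Type} [Fintype τ] [DecidableEq τ]

/-- avoid a finite set -/
private theorem Step_avoid (T : Set ℂ) (hT : T.Finite) : ∃ δ : ℂ, δ ∉ T := by
  obtain ⟨δ, hδ⟩ := hT.infinite_compl.nonempty
  exact ⟨δ, hδ⟩

omit [Fintype τ] [DecidableEq τ] in
private theorem Step_nodup_sh (c : ℂ) {L : List (Pt τ)} (h : (L.map Pt.x).Nodup) :
    ((shL c L).map Pt.x).Nodup := by
  have e : (shL c L).map Pt.x = (L.map Pt.x).map fun x => x + c := by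
    unfold shL
    rw [List.map_map, List.map_map]
    rfl
  rw [e]
  exact h.map (add_left_injective c)

omit [Fintype τ] [DecidableEq τ] in
private theorem Step_m_sh (c : ℂ) (L : List (Pt τ)) : (shL c L).map Pt.m = L.map Pt.m := by
  unfold shL
  rw [List.map_map]
  rfl

omit [Fintype τ] [DecidableEq τ] in
private theorem Step_m_sc (c : ℂ) (L : List (Pt τ)) : (scL c L).map Pt.m = L.map Pt.m := by
  unfold scL
  rw [List.map_map]
  rfl

omit [Fintype τ] [DecidableEq τ] in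
private theorem Step_sh_sh (c : ℂ) (L : List (Pt τ)) : shL c (shL (-c) L) = L := by
  unfold shL
  rw [List.map_map]
  conv_rhs => rw [← List.map_id L]
  refine List.map_congr_left fun p _ => ?_
  simp

private theorem Step_choose {b : τ → ℕ} {μ a : ℕ} {L₁ L' : List (Pt τ)}
    (hd : (L₁.map Pt.x).Nodup) (hx : ∀ p ∈ L₁, p.x ≠ 0) (h : Blk b μ a L') (T : Set ℂ)
    (hT : T.Finite) :
    ∃ δ : ℂ, δ ∉ T ∧ ((L₁ ++ scL δ L').map Pt.x).Nodup ∧
      (↑((L₁ ++ scL δ L').map Pt.m) : Multiset ℕ) =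
        ↑(L₁.map Pt.m) + Multiset.replicate L'.length μ := by
  classical
  obtain ⟨δ, hδ⟩ := Step_avoid (T ∪ ({0} ∪ ⋃ p ∈ {p | p ∈ L₁}, ⋃ q ∈ {q | q ∈ L'},
    ({p.x / q.x} : Set ℂ))) (hT.union ((Set.finite_singleton 0).union
      ((List.finite_toSet L₁).biUnion fun p _ => (List.finite_toSet L').biUnion fun q _ =>
        Set.finite_singleton _)))
  simp only [Set.mem_union, Set.mem_singleton_iff, Set.mem_iUnion, not_or, not_exists] at hδ
  obtain ⟨h1, h2, h3⟩ := hδ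
  refine ⟨δ, h1, ?_, ?_⟩
  · rw [List.map_append, List.nodup_append']
    refine ⟨hd, ?_, ?_⟩
    · have e : (scL δ L').map Pt.x = (L'.map Pt.x).map fun x => δ * x := by
        unfold scL
        rw [List.map_map, List.map_map]
        rfl
      rw [e]
      exact h.dist.map (mul_right_injective₀ h2)
    · rw [List.disjoint_left]
      intro x hx1 hx2
      rw [List.mem_map] at hx1 hx2
      obtain ⟨p, hp, rfl⟩ := hx1
      obtain ⟨q', hq', hqp⟩ := hx2
      unfold scL at hq'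
      rw [List.mem_map] at hq'
      obtain ⟨q, hq, rfl⟩ := hq'
      have h4 : δ * q.x = p.x := hqp
      have h5 : q.x ≠ 0 := by
        intro h0
        rw [h0, mul_zero] at h4
        exact hx p hp h4.symm
      exact h3 p hp q hq (by rw [← h4, mul_div_cancel_right₀ _ h5])
  · rw [List.map_append, ← Multiset.coe_add, Step_m_sc]
    congr 1
    have e : L'.map Pt.m = List.replicate L'.length μ := by
      rw [List.eq_replicate_iff]
      refine ⟨by rw [List.length_map], fun m hm => ?_⟩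
      rw [List.mem_map] at hm
      obtain ⟨q, hq, rfl⟩ := hm
      exact h.mult q hq
    rw [e, Multiset.coe_replicate]

theorem step (b : τ → ℕ) (μ : ℕ) (hμ : 1 ≤ μ) (hμB : 2 * μ ≤ Bs b + 1) (hB : 1 ≤ Bs b)
    (hex : ∃ a L, Blk b μ a L ∧ L ≠ []) :
    ∃ S a : ℕ, 1 ≤ S ∧ 1 ≤ a ∧ S * Lm b μ = a * Pc b ∧
      ∀ (L : List (Pt τ)) (e h : ℕ), (L.map Pt.x).Nodup → Bs b ≤ e + 1 →
        Lm b (e + 1) ≤ cL b L → h0 b e L ≤ h + 1 →
        ∃ L' : List (Pt τ), (L'.map Pt.x).Nodup ∧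
          (↑(L'.map Pt.m) : Multiset ℕ) = ↑(L.map Pt.m) + Multiset.replicate S μ ∧
          h0 b (e + a) L' ≤ h := by
  obtain ⟨S, hS1, ⟨a, L0, hL0, hlen⟩, hD⟩ := exists_max hμ hex
  have hne : L0 ≠ [] := by
    rintro rfl
    simp at hlen
    omega
  have ha : 1 ≤ a := hL0.pos hμ hne
  have hcnt : S * Lm b μ = a * Pc b := by
    rw [← hlen]
    exact hL0.cnt
  have hPc : 0 < Pc b := Fintype.card_pos_iff.2 ⟨zb b⟩
  have hheight : ∀ a' (L' : List (Pt τ)), Blk b μ a' L' → L'.length = S → a' = a := by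
    intro a' L' h' hl
    have h1 := h'.cnt
    rw [hl, hcnt] at h1
    exact (Nat.eq_of_mul_eq_mul_right hPc h1).symm
  refine ⟨S, a, hS1, ha, hcnt, fun L e h hnod hBe hLm hh => ?_⟩
  rcases Nat.lt_or_ge h (h0 b e L) with hlt | hle
  · -- the dimension is positive
    have hpos : h0 b e L ≠ 0 := by omega
    have hs0 : ¬ ∀ F ∈ Sol b e L, F = 0 := fun h' => hpos ((h0_eq_zero e L).2 h')
    push Not at hs0
    obtain ⟨s, hs, hsne⟩ := hs0
    obtain ⟨β, hβ⟩ := Function.ne_iff.1 hsne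
    have hβ' : s β ≠ 0 := hβ
    obtain ⟨t₀, ht₀⟩ := Step_avoid ({t | (s β).IsRoot t} ∪ {x | x ∈ L.map Pt.x})
      ((Polynomial.finite_setOfPred_isRoot hβ').union (List.finite_toSet _))
    simp only [Set.mem_union, not_or] at ht₀
    obtain ⟨hroot, hnot⟩ := ht₀
    have hx₁ : ∀ p ∈ shL (-t₀) L, p.x ≠ 0 := by
      intro p hp
      unfold shL at hp
      rw [List.mem_map] at hp
      obtain ⟨q, hq, rfl⟩ := hp
      intro h0
      have h1 : q.x + -t₀ = 0 := h0
      have h2 : q.x = t₀ := by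
        rw [← sub_eq_add_neg, sub_eq_zero] at h1
        exact h1
      exact hnot (h2 ▸ List.mem_map_of_mem hq)
    have hd₁ := Step_nodup_sh (-t₀) hnod
    have hs₁ : sh t₀ s ∈ Sol b e (shL (-t₀) L) := by
      rw [sh_mem_Sol, Step_sh_sh]
      exact hs
    have hes : e0 (sh t₀ s) ≠ 0 := by
      intro h0
      have h1 := congrFun h0 β
      have h2 : (taylor t₀ (s β)).coeff 0 = 0 := h1
      rw [taylor_coeff_zero] at h2
      exact hroot h2
    by_cases hcase : ∃ (a' : ℕ) (L' : List (Pt τ)) (Φ : Matrix (Box b) (Box b) ℂ[X]),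
        Blk b μ a' L' ∧ L'.length = S ∧ Ph b a' L' Φ ∧
        ∀ G ∈ Sol b (e + 1) (shL (-t₀) L), e0 G ≠ (cf Φ (a' - 1)).mulVec (e0 (sh t₀ s))
    · obtain ⟨a', L', Φ, hb, hl, hΦ, hn⟩ := hcase
      have haa := hheight a' L' hb hl
      subst haa
      obtain ⟨T, hT, hδ⟩ := ins_lt hx₁ hb hΦ ha hBe (sh t₀ s) hs₁ hn
      obtain ⟨δ, h1, h2, h3⟩ := Step_choose hd₁ hx₁ hb T hT
      refine ⟨_, h2, ?_, ?_⟩
      · rw [h3, Step_m_sh, hl]
      · have h4 := hδ δ h1
        rw [h0_sh] at h4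
        omega
    · exfalso
      push Not at hcase
      have key : ∀ Y ∈ Ds b μ S, ∃ G ∈ Sol b (e + 1) (shL (-t₀) L),
          e0 G = Y.mulVec (e0 (sh t₀ s)) := by
        intro Y hY
        unfold Ds at hY
        induction hY using Submodule.span_induction with
        | mem Y hY =>
          obtain ⟨a', L', Φ, hb, hl, hΦ, rfl⟩ := hY
          exact hcase a' L' Φ hb hl hΦ
        | zero => exact ⟨0, Submodule.zero_mem _, by
            rw [Matrix.zero_mulVec]
            funext γ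
            exact Polynomial.coeff_zero 0⟩
        | add Y Z _ _ h1 h2 =>
          obtain ⟨G, hG, hG'⟩ := h1
          obtain ⟨H, hH, hH'⟩ := h2
          refine ⟨G + H, Submodule.add_mem _ hG hH, ?_⟩
          rw [Matrix.add_mulVec, ← hG', ← hH']
          funext γ
          exact Polynomial.coeff_add _ _ _
        | smul c Y _ h1 =>
          obtain ⟨G, hG, hG'⟩ := h1
          refine ⟨c • G, Submodule.smul_mem _ c hG, ?_⟩
          rw [Matrix.smul_mulVec, ← hG']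
          funext γ
          exact Polynomial.coeff_smul _ _ _
      have hall : ∀ v : Box b → ℂ, ∃ G ∈ Sol b (e + 1) (shL (-t₀) L), e0 G = v := by
        intro v
        obtain ⟨Y, hY, hYv⟩ := prog hD hμ hμB hB hex _ hes v
        obtain ⟨G, hG, hG'⟩ := key Y hY
        exact ⟨G, hG, hG'.trans hYv⟩
      have h1 := full hd₁ hBe hx₁ hall
      rw [h0_sh, cL_sh] at h1
      omega
  · -- nothing to lower
    obtain ⟨c, hc⟩ := Step_avoid {x | x ∈ L.map Pt.x} (List.finite_toSet _)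
    have hx₁ : ∀ p ∈ shL (-c) L, p.x ≠ 0 := by
      intro p hp
      unfold shL at hp
      rw [List.mem_map] at hp
      obtain ⟨q, hq, rfl⟩ := hp
      intro h0
      have h1 : q.x + -c = 0 := h0
      have h2 : q.x = c := by
        rw [← sub_eq_add_neg, sub_eq_zero] at h1
        exact h1
      exact hc (h2 ▸ List.mem_map_of_mem hq)
    have hd₁ := Step_nodup_sh (-c) hnod
    obtain ⟨T, hT, hδ⟩ := ins_le (e := e) hx₁ hL0 ha hBe
    obtain ⟨δ, h1, h2, h3⟩ := Step_choose hd₁ hx₁ hL0 T hT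
    refine ⟨_, h2, ?_, ?_⟩
    · rw [h3, Step_m_sh, hlen]
    · have h4 := hδ δ h1
      rw [h0_sh] at h4
      omega

end Pool.Agent.H18.Tl

end

section

/-!
# Module Chain (TL): iterated steps

`exists_stp`: `step` and `exists_blk` for the `μ` with `1 ≤ μ`, `2 μ ≤ Bs b + 1` (choice), `Sn μ = an μ = 1` for the others.
`chain`: induction on `ms`; after one step (`Stp.step` with `h = h0 b e L - 1`) the new `L'`, `e + an μ` satisfy the hypotheses:
`Lm b (e + an μ + 1) = Lm b (e + 1) + an μ * Pc b` (`Lm_add`, `Bs b ≤ e + 1`), `cL b L' = cL b L + Sn μ * Lm b μ` (`cL` depends only on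
the multiset of the multiplicities: `cL b L = ((↑(L.map Pt.m) : Multiset ℕ).map (Lm b)).sum`).
-/

namespace Pool.Agent.H18.Tl

open Finset Polynomial

variable {τ : Type} [Fintype τ] [DecidableEq τ]

/-- The outcome of `step` for all multiplicities `μ` with `2 μ ≤ Bs b + 1`. -/
structure Stp (b : τ → ℕ) (Sn an : ℕ → ℕ) : Prop where
  pos : ∀ μ, 1 ≤ Sn μ ∧ 1 ≤ an μ
  eq : ∀ μ, 1 ≤ μ → 2 * μ ≤ Bs b + 1 → Sn μ * Lm b μ = an μ * Pc b
  step : ∀ μ, 1 ≤ μ → 2 * μ ≤ Bs b + 1 → ∀ (L : List (Pt τ)) (e h : ℕ), (L.map Pt.x).Nodup →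
    Bs b ≤ e + 1 → Lm b (e + 1) ≤ cL b L → h0 b e L ≤ h + 1 →
    ∃ L' : List (Pt τ), (L'.map Pt.x).Nodup ∧
      (↑(L'.map Pt.m) : Multiset ℕ) = ↑(L.map Pt.m) + Multiset.replicate (Sn μ) μ ∧
      h0 b (e + an μ) L' ≤ h

theorem exists_stp (b : τ → ℕ) (hB : 1 ≤ Bs b) : ∃ Sn an : ℕ → ℕ, Stp b Sn an := by
  classical
  have key : ∀ μ : ℕ, ∃ S a : ℕ, (1 ≤ S ∧ 1 ≤ a) ∧ (1 ≤ μ → 2 * μ ≤ Bs b + 1 →
      S * Lm b μ = a * Pc b ∧
      ∀ (L : List (Pt τ)) (e h : ℕ), (L.map Pt.x).Nodup →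
        Bs b ≤ e + 1 → Lm b (e + 1) ≤ cL b L → h0 b e L ≤ h + 1 →
        ∃ L' : List (Pt τ), (L'.map Pt.x).Nodup ∧
          (↑(L'.map Pt.m) : Multiset ℕ) = ↑(L.map Pt.m) + Multiset.replicate S μ ∧
          h0 b (e + a) L' ≤ h) := by
    intro μ
    by_cases hc : 1 ≤ μ ∧ 2 * μ ≤ Bs b + 1
    · obtain ⟨S, a, hS, ha, heq, hst⟩ := step b μ hc.1 hc.2 hB (exists_blk b μ hc.1)
      exact ⟨S, a, ⟨hS, ha⟩, fun _ _ => ⟨heq, hst⟩⟩
    · exact ⟨1, 1, ⟨le_refl 1, le_refl 1⟩, fun h1 h2 => absurd ⟨h1, h2⟩ hc⟩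
  choose Sn an hpos hst using key
  exact ⟨Sn, an, ⟨hpos, fun μ h1 h2 => (hst μ h1 h2).1, fun μ h1 h2 => (hst μ h1 h2).2⟩⟩

private theorem Chain_cL_eq (b : τ → ℕ) (L : List (Pt τ)) :
    cL b L = ((↑(L.map Pt.m) : Multiset ℕ).map (Lm b)).sum := by
  unfold cL
  rw [Multiset.map_coe, Multiset.sum_coe, List.map_map]
  rfl

theorem chain {b : τ → ℕ} {Sn an : ℕ → ℕ} (hS : Stp b Sn an) :
    ∀ (ms : List ℕ), (∀ μ ∈ ms, 1 ≤ μ ∧ 2 * μ ≤ Bs b + 1) → ∀ (L : List (Pt τ)) (e : ℕ),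
      (L.map Pt.x).Nodup → Bs b ≤ e + 1 → Lm b (e + 1) ≤ cL b L →
      ∃ L' : List (Pt τ), (L'.map Pt.x).Nodup ∧
        (↑(L'.map Pt.m) : Multiset ℕ) =
          ↑(L.map Pt.m) + (ms.map fun μ => Multiset.replicate (Sn μ) μ).sum ∧
        h0 b (e + (ms.map an).sum) L' ≤ h0 b e L - ms.length := by
  intro ms
  induction ms with
  | nil =>
    intro _ L e hnd _ _
    refine ⟨L, hnd, ?_, ?_⟩
    · rw [List.map_nil, List.sum_nil, add_zero]
    · rw [List.map_nil, List.sum_nil, add_zero, List.length_nil, Nat.sub_zero]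
  | cons μ ms ih =>
    intro hms L e hnd hBe hcL
    obtain ⟨hμ1, hμ2⟩ := hms μ List.mem_cons_self
    obtain ⟨L₁, hnd₁, hm₁, hh₁⟩ := hS.step μ hμ1 hμ2 L e (h0 b e L - 1) hnd hBe hcL (by omega)
    have hcL₁ : Lm b (e + an μ + 1) ≤ cL b L₁ := by
      have e1 : Lm b (e + an μ + 1) = Lm b (e + 1) + an μ * Pc b := by
        rw [← Lm_add b (e + 1) (an μ) hBe]
        congr 1
        omega
      have e2 : cL b L₁ = cL b L + Sn μ * Lm b μ := by
        rw [Chain_cL_eq, Chain_cL_eq, hm₁, Multiset.map_add, Multiset.sum_add,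
          Multiset.map_replicate, Multiset.sum_replicate, smul_eq_mul]
      rw [e1, e2, hS.eq μ hμ1 hμ2]
      exact Nat.add_le_add_right hcL _
    obtain ⟨L', hnd', hm', hh'⟩ := ih (fun ν hν => hms ν (List.mem_cons_of_mem μ hν)) L₁
      (e + an μ) hnd₁ (by omega) hcL₁
    refine ⟨L', hnd', ?_, ?_⟩
    · rw [hm', hm₁, List.map_cons, List.sum_cons, add_assoc]
    · rw [List.map_cons, List.sum_cons, List.length_cons, ← add_assoc]
      refine hh'.trans ?_
      omega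

end Pool.Agent.H18.Tl

end

section

/-!
# Module Asm (TL): the thin theorem

`exists_stp` gives `Sn`, `an`; `A = ∑_{μ ≤ Bs b + 1} an μ` (`≥ 1`).  Let `C = Bs b + A + R * Lm b M + ∑_{μ ≤ Bs b + 1} Sn μ * Lm b μ` and
`D = C + Bs b + A * (Lm b (C + 1) + 1)`.  `greedy` for `S₁` with `X = (S₀.map (Lm b)).sum ≤ R * Lm b M` (`Lm_mono`) gives `ms`, `S'`, `e₀`.  `e₀ ≤ C`:
either `e₀ < Bs b + A`, or `e₀ + 1 ≤ Lm b (e₀ + 1) ≤ X + ∑_{S'} Lm b ≤ R * Lm b M + ∑_{μ ≤ Bs b + 1} Sn μ * Lm b μ` (`le_Lm`; `S'` has only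
elements `μ ≤ Bs b + 1`, those with `μ ≥ 1` have `count < Sn μ`, `Lm b 0 = 0`; `Multiset.sum_map_count`/`Finset.sum_multiset_map_count`).
`e - e₀ = ∑ an ≤ A * ms.length`, so `ms.length ≥ Lm b (C + 1)`.  Let `L` be points with the multiplicities `S₀ + S'` and distinct `x`.
`chain`: `h0 b e L' ≤ h0 b e₀ L - ms.length = 0` since `h0 b e₀ L ≤ Lm b (e₀ + 1) ≤ Lm b (C + 1)` (`h0_le`); `h0_eq_zero`.
-/

namespace Pool.Agent.H18.Tl

open Finset Polynomial

variable {τ : Type} [Fintype τ] [DecidableEq τ]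

private theorem Asm_pts (S : Multiset ℕ) :
    ∃ L : List (Pt τ), (L.map Pt.x).Nodup ∧ (↑(L.map Pt.m) : Multiset ℕ) = S := by
  obtain ⟨l, rfl⟩ := Quot.exists_rep S
  refine ⟨(List.finRange l.length).map fun i => ⟨l.get i, (i : ℂ), 0⟩, ?_, ?_⟩
  · rw [List.map_map]
    refine (List.nodup_finRange _).map ?_
    intro i j h
    have h' : ((i : ℕ) : ℂ) = ((j : ℕ) : ℂ) := h
    exact Fin.ext (Nat.cast_injective h')
  · rw [List.map_map]
    have : (Pt.m ∘ fun i : Fin l.length => (⟨l.get i, (i : ℂ), 0⟩ : Pt τ)) = l.get := by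
      funext i; rfl
    rw [this]
    simp

private theorem Asm_cL (b : τ → ℕ) (L : List (Pt τ)) :
    cL b L = ((↑(L.map Pt.m) : Multiset ℕ).map (Lm b)).sum := by
  unfold cL
  rw [Multiset.map_coe, Multiset.sum_coe, List.map_map]
  rfl

theorem asm (b : τ → ℕ) (hB : 1 ≤ Bs b) (M R : ℕ) : ∃ D : ℕ, ∀ (e : ℕ) (S₀ S₁ : Multiset ℕ),
    D ≤ e → S₀.card ≤ R → (∀ m ∈ S₀, m ≤ M) → (∀ m ∈ S₁, 2 * m ≤ Bs b + 1) →
    Lm b (e + 1) ≤ ((S₀ + S₁).map (Lm b)).sum →
    ∃ L : List (Pt τ), (↑(L.map Pt.m) : Multiset ℕ) = S₀ + S₁ ∧ ∀ F ∈ Sol b e L, F = 0 := by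
  obtain ⟨Sn, an, hS⟩ := exists_stp b hB
  have hA : ∀ μ, μ ≤ Bs b + 1 → an μ ≤ ∑ μ ∈ range (Bs b + 2), an μ := fun μ hμ =>
    Finset.single_le_sum (f := an) (fun i _ => Nat.zero_le _) (mem_range.2 (by omega))
  set A := ∑ μ ∈ range (Bs b + 2), an μ with hAdef
  set W := ∑ μ ∈ range (Bs b + 2), Sn μ * Lm b μ with hWdef
  have hA1 : 1 ≤ A := le_trans (hS.pos 0).2 (hA 0 (by omega))
  set C := Bs b + A + R * Lm b M + W with hC
  refine ⟨C + Bs b + A * (Lm b (C + 1) + 1), fun e S₀ S₁ hD hcard hM hS1 hL => ?_⟩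
  rw [Multiset.map_add, Multiset.sum_add] at hL
  obtain ⟨ms, S', e₀, hms, hS', he, hBe₀, hL₀, hor⟩ := greedy b Sn an A (S₀.map (Lm b)).sum hS.pos
    (fun μ h1 h2 => hA μ (by omega)) hS.eq e S₁ (by omega) hL
  have hX : (S₀.map (Lm b)).sum ≤ R * Lm b M := by
    have h1 : (S₀.map (Lm b)).sum ≤ (S₀.map (Lm b)).card • Lm b M := by
      refine Multiset.sum_le_card_nsmul _ _ fun x hx => ?_
      obtain ⟨m, hm, rfl⟩ := Multiset.mem_map.1 hx
      exact Lm_mono b (hM m hm)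
    rw [Multiset.card_map, smul_eq_mul] at h1
    exact h1.trans (Nat.mul_le_mul_right _ hcard)
  have he₀ : e₀ ≤ C := by
    rcases hor with h | h
    · omega
    · have hW : (S'.map (Lm b)).sum ≤ W := by
        rw [Finset.sum_multiset_map_count, hWdef]
        have hsub : S'.toFinset ⊆ range (Bs b + 2) := by
          intro m hm
          have : m ∈ S₁ := by
            rw [hS']
            exact Multiset.mem_add.2 (Or.inl (Multiset.mem_toFinset.1 hm))
          have := hS1 m this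
          exact mem_range.2 (by omega)
        refine (Finset.sum_le_sum_of_subset hsub).trans (Finset.sum_le_sum fun m hm => ?_)
        rw [smul_eq_mul]
        rcases Nat.eq_zero_or_pos m with h0 | hpos
        · subst h0
          rw [Lm_zero, mul_zero, mul_zero]
        · by_cases h2 : 2 * m ≤ Bs b + 1
          · exact Nat.mul_le_mul_right _ (h m hpos h2).le
          · have : S'.count m = 0 := by
              rw [Multiset.count_eq_zero]
              intro hm'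
              apply h2
              apply hS1 m
              rw [hS']
              exact Multiset.mem_add.2 (Or.inl hm')
            rw [this, zero_mul]
            exact Nat.zero_le _
      have := le_Lm b (e₀ + 1)
      omega
  have hsum : (ms.map an).sum ≤ ms.length * A := by
    have h1 : (ms.map an).sum ≤ (ms.map an).length • A := by
      refine List.sum_le_card_nsmul _ _ fun x hx => ?_
      obtain ⟨m, hm, rfl⟩ := List.mem_map.1 hx
      exact hA m (by have := hms m hm; omega)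
    rwa [List.length_map, smul_eq_mul] at h1
  have hlen : Lm b (C + 1) ≤ ms.length := by
    by_contra hcon
    have h1 : ms.length * A ≤ Lm b (C + 1) * A := Nat.mul_le_mul_right _ (by omega)
    have h2 : A * (Lm b (C + 1) + 1) = Lm b (C + 1) * A + A := by ring
    omega
  obtain ⟨L, hnd, hm⟩ := Asm_pts (τ := τ) (S₀ + S')
  have hcL : Lm b (e₀ + 1) ≤ cL b L := by
    rw [Asm_cL, hm, Multiset.map_add, Multiset.sum_add]
    exact hL₀
  obtain ⟨L', -, hm', hh'⟩ := chain hS ms hms L e₀ hnd (hBe₀.trans (Nat.le_succ _)) hcL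
  refine ⟨L', ?_, ?_⟩
  · rw [hm', hm, add_assoc, ← hS']
  · rw [he]
    refine (h0_eq_zero _ _).1 ?_
    have h1 := h0_le (b := b) e₀ L
    have h2 := Lm_mono b (Nat.succ_le_succ he₀)
    have h3 : Lm b (e₀ + 1) ≤ Lm b (C + 1) := h2
    omega

end Pool.Agent.H18.Tl

end

section

/-!
# Module HexL (TL): exactness of the regions with `r - 1` thin and two long coordinates

`w = bw r d (r - 1) b : Fin (r + 1) → ℕ`; the coordinates `h = r - 1`, `y = r` have the width `d`.  `τ = {i // i ≠ h ∧ i ≠ y}`, `b' : τ → ℕ`, `b' l = w l = b ⟨l, _⟩`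
does not depend on `d`; `Bs b' = ∑ b` (bijection `τ ≃ Fin (r - 1)`).  The `b'` with values `≤ Q` form a finite set
(`Fintype.piFinset` or `Set.Finite`), let `D` be `r Q + 1` plus the sum (or maximum) of the constants of `asm b' _ (r * Q + 1) 1` over those with `1 ≤ Bs b'`.
`(Rg d w).card = Lx w (d + 1) = Lm b' (d + 1)` (`Lx_eq`, `m = d + 1`), `Lx w m = Lm b' m` for `m ∈ S` (`m ≤ r Q + 1 ≤ d`).  If `1 ≤ Bs b'`: `asm` with
`S₀ = S.filter (Bs b' + 1 < 2 m)`, `S₁` = the rest; if `Bs b' = 0`: `asm0`.  Then `geoL`.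
-/

namespace Pool.Agent.H18.Tl

open Finset Function Pool.Agent.H18.Ex Pool.Agent.H18.Tj

/-- The constant for the widths `c`. -/
private noncomputable def HexL_D {τ : Type} [Fintype τ] [DecidableEq τ] (M : ℕ) (c : τ → ℕ) : ℕ := by
  classical
  exact if h : 1 ≤ Bs c then (asm c h M 1).choose else 0

private theorem HexL_spec {τ : Type} [Fintype τ] [DecidableEq τ] (M : ℕ) (c : τ → ℕ) (h : 1 ≤ Bs c)
    (e : ℕ) (S₀ S₁ : Multiset ℕ) (hD : HexL_D M c ≤ e) (h₀ : S₀.card ≤ 1) (hM : ∀ m ∈ S₀, m ≤ M)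
    (h₁ : ∀ m ∈ S₁, 2 * m ≤ Bs c + 1) (hc : Lm c (e + 1) ≤ ((S₀ + S₁).map (Lm c)).sum) :
    ∃ L : List (Pt τ), (↑(L.map Pt.m) : Multiset ℕ) = S₀ + S₁ ∧ ∀ F ∈ Sol c e L, F = 0 := by
  unfold HexL_D at hD
  rw [dif_pos h] at hD
  exact (asm c h M 1).choose_spec e S₀ S₁ hD h₀ hM h₁ hc

theorem hexL (r Q : ℕ) (hr : 3 ≤ r) : ∃ D : ℕ, ∀ (d : ℕ) (b : Fin (r - 1) → ℕ) (S : Multiset ℕ),
    D ≤ d → (∀ l, b l ≤ Q) → (∀ m ∈ S, m ≤ r * Q + 1) →
    (1 ≤ ∑ l, b l → (S.filter fun m => ∑ l, b l + 1 < 2 * m).card ≤ 1) →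
    (Ex.Rg d (bw r d (r - 1) b)).card ≤ (S.map (Lx (bw r d (r - 1) b))).sum →
    GM (Ex.Rg d (bw r d (r - 1) b)) (S.map Kind.free) := by
  classical
  let h : Fin (r + 1) := ⟨r - 1, by omega⟩
  let y : Fin (r + 1) := ⟨r, by omega⟩
  have hhy : h ≠ y := by
    intro he
    have h1 := congrArg Fin.val he
    simp only [h, y] at h1
    omega
  refine ⟨r * Q + 1 + ∑ c ∈ Fintype.piFinset (fun _ : {i : Fin (r + 1) // i ≠ h ∧ i ≠ y} =>
    range (Q + 1)), HexL_D (r * Q + 1) c, ?_⟩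
  intro d b S hD hb hS hf hcard
  set w := bw r d (r - 1) b with hw
  let b' : {i : Fin (r + 1) // i ≠ h ∧ i ≠ y} → ℕ := fun l => w l.1
  have hlt : ∀ l : {i : Fin (r + 1) // i ≠ h ∧ i ≠ y}, l.1.val < r - 1 := by
    intro l
    have h1 := l.2.1
    have h2 := l.2.2
    have h3 := l.1.2
    have h4 : l.1.val ≠ r - 1 := fun he => h1 (Fin.ext he)
    have h5 : l.1.val ≠ r := fun he => h2 (Fin.ext he)
    omega
  have hb' : ∀ l, b' l = b ⟨l.1.val, hlt l⟩ := by
    intro l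
    change bw r d (r - 1) b l.1 = _
    unfold bw
    rw [dif_pos (hlt l)]
  have hwh : d ≤ w h := by
    rw [hw]
    unfold bw
    rw [dif_neg (by simp [h])]
  have hwy : d ≤ w y := by
    rw [hw]
    unfold bw
    rw [dif_neg (by simp only [y]; omega)]
  have hBs : Bs b' = ∑ l, b l := by
    unfold Bs
    refine Finset.sum_bij' (fun l _ => (⟨l.1.val, hlt l⟩ : Fin (r - 1)))
      (fun l _ => ⟨⟨l.val, by omega⟩, ?_, ?_⟩) ?_ ?_ ?_ ?_ ?_
    · intro he
      have h1 := congrArg Fin.val he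
      simp only [h] at h1
      omega
    · intro he
      have h1 := congrArg Fin.val he
      simp only [y] at h1
      omega
    · intro l _
      exact mem_univ _
    · intro l _
      exact mem_univ _
    · intro l _
      rfl
    · intro l _
      rfl
    · intro l _
      exact hb' l
  have hmem : b' ∈ Fintype.piFinset (fun _ : {i : Fin (r + 1) // i ≠ h ∧ i ≠ y} =>
      range (Q + 1)) := by
    rw [Fintype.mem_piFinset]
    intro l
    rw [mem_range, hb' l]
    exact Nat.lt_succ_of_le (hb _)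
  have hDb : HexL_D (r * Q + 1) b' ≤ ∑ c ∈ Fintype.piFinset (fun _ :
      {i : Fin (r + 1) // i ≠ h ∧ i ≠ y} => range (Q + 1)), HexL_D (r * Q + 1) c :=
    single_le_sum (f := fun c => HexL_D (r * Q + 1) c) (fun _ _ => Nat.zero_le _) hmem
  have hrQ : r * Q + 1 ≤ d := le_trans (Nat.le_add_right _ _) hD
  have hcd : (Ex.Rg d w).card = Lm b' (d + 1) := by
    rw [← Lx_eq d w h y hhy hwh hwy (d + 1) le_rfl]
    unfold Lx
    rw [if_neg (Nat.succ_ne_zero d)]
    rfl
  have hmap : S.map (Lx w) = S.map (Lm b') := by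
    refine Multiset.map_congr rfl fun m hm => ?_
    exact Lx_eq d w h y hhy hwh hwy m (le_trans (hS m hm) (le_trans hrQ (Nat.le_succ d)))
  rw [hcd, hmap] at hcard
  have key : ∃ L : List (Pt {i : Fin (r + 1) // i ≠ h ∧ i ≠ y}),
      (↑(L.map Pt.m) : Multiset ℕ) = S ∧ ∀ F ∈ Sol b' d L, F = 0 := by
    rcases Nat.eq_zero_or_pos (Bs b') with hz | hp
    · exact asm0 b' hz d S hcard
    · have hsp : S.filter (fun m => ∑ l, b l + 1 < 2 * m) +
          S.filter (fun m => ¬ (∑ l, b l + 1 < 2 * m)) = S := Multiset.filter_add_not _ _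
      obtain ⟨L, hL, hL'⟩ := HexL_spec (r * Q + 1) b' hp d
        (S.filter fun m => ∑ l, b l + 1 < 2 * m)
        (S.filter fun m => ¬ (∑ l, b l + 1 < 2 * m)) (by omega)
        (hf (by rw [← hBs]; exact hp))
        (fun m hm => hS m (Multiset.mem_of_mem_filter hm))
        (fun m hm => by
          have h1 := (Multiset.mem_filter.1 hm).2
          rw [hBs]
          omega)
        (by rw [hsp]; exact hcard)
      exact ⟨L, by rw [hL, hsp], hL'⟩
  obtain ⟨L, hL, hL'⟩ := key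
  rw [← hL]
  exact geoL d w h y hhy hwh hwy L hL'

end Pool.Agent.H18.Tl

end

section

/-!
# Module FinalL (TL): the main theorem

Let `K`, `E` be as in `final_K`, `M₁ = max M 1`, `Q = K * M₁ ^ E + 1`, `D = D_hexL(r, Q) + r Q + r + 1`.  `T = {l : d' < m' (J l) + K * M₁ ^ E}`.
If `T.card + 2 ≤ r`: `final_K` (`∑ m' (J l) ≤ (r - 1) d'` by `hred` for the image of `J`, and `K * M₁ ^ E ≤ d'`).
Otherwise `T.card ≥ r - 1`, and `T.card = r - 1`: `r` elements of `T` would have a sum `≥ r (d' - Q) > (r - 1) d'`.  Let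
`e : Fin (r - 1) ↪ Fin s` enumerate `T` (`T.orderEmbOfFin`), `J' = e.trans J`, `b l = d' - m' (J' l) ≤ Q`, `B = ∑ b l`, so `∑_{J'} m' = (r - 1) d' - B`.  By
`hred` for the image of `J'` and one or two more points: `m' i ≤ B` and `m' i + m' j ≤ B` for `i ≠ j` outside `J'`.
`finalL_dim` for `J'`, `s = r - 1`, `M = B`; `hex`: `hexL` for `S = {m' i} + x · 1`; `m ≤ B ≤ r Q` or `m = 1`; if `1 ≤ B` then at most one element of
`S` satisfies `B + 1 < 2 m` (two different `i`, `j`: `m' i + m' j ≤ B`; not the `1`s).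
`cntJ` (`m' i + m' j ≤ B ≤ (r - 1) Q ≤ d'`) turns the formula for `J'` into the formula for `J`; `Ub.final_of_dim`.
-/

namespace Pool.Agent.H18.Tl

open Finset Function Pool.Agent.H18.Ex Pool.Agent.H18.Fat Pool.Agent.H18.Pr Pool.Agent.H18.Tj

/-- The complementary sum. -/
private theorem FinalL_sum {k d' q : ℕ} (m' : Fin k → ℕ) (J : Fin q ↪ Fin k) (hm : ∀ i, m' i ≤ d') :
    ∑ l, (d' - m' (J l)) + ∑ l, m' (J l) = q * d' := by
  rw [← sum_add_distrib, sum_congr rfl fun l _ => Nat.sub_add_cancel (hm (J l)), sum_const,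
    card_univ, Fintype.card_fin, smul_eq_mul]

/-- The points outside of `J` are small. -/
private theorem FinalL_one {r k d' q : ℕ} (hq : q + 1 = r) (m' : Fin k → ℕ) (J : Fin q ↪ Fin k)
    (hm : ∀ i, m' i ≤ d')
    (hred : ∀ S : Finset (Fin k), S.card ≤ r + 1 → ∑ i ∈ S, m' i ≤ (r - 1) * d') (i : Fin k)
    (hi : ∀ l, J l ≠ i) : m' i ≤ ∑ l, (d' - m' (J l)) := by
  classical
  have h1 := FinalL_sum m' J hm
  have hni : i ∉ (univ : Finset (Fin q)).map J := by
    intro h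
    obtain ⟨l, _, h2⟩ := mem_map.1 h
    exact hi l h2
  have h2 := hred (insert i ((univ : Finset (Fin q)).map J)) (by
    rw [card_insert_of_notMem hni, card_map, card_univ, Fintype.card_fin]
    omega)
  rw [sum_insert hni, sum_map] at h2
  have h3 : r - 1 = q := by omega
  rw [h3] at h2
  omega

/-- Two points outside of `J` are small. -/
private theorem FinalL_two {r k d' q : ℕ} (hq : q + 1 = r) (m' : Fin k → ℕ) (J : Fin q ↪ Fin k)
    (hm : ∀ i, m' i ≤ d')
    (hred : ∀ S : Finset (Fin k), S.card ≤ r + 1 → ∑ i ∈ S, m' i ≤ (r - 1) * d') (i j : Fin k)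
    (hij : i ≠ j) (hi : ∀ l, J l ≠ i) (hj : ∀ l, J l ≠ j) :
    m' i + m' j ≤ ∑ l, (d' - m' (J l)) := by
  classical
  have h1 := FinalL_sum m' J hm
  have hnj : j ∉ (univ : Finset (Fin q)).map J := by
    intro h
    obtain ⟨l, _, h2⟩ := mem_map.1 h
    exact hj l h2
  have hni : i ∉ insert j ((univ : Finset (Fin q)).map J) := by
    intro h
    rcases mem_insert.1 h with h | h
    · exact hij h
    · obtain ⟨l, _, h2⟩ := mem_map.1 h
      exact hi l h2
  have h2 := hred (insert i (insert j ((univ : Finset (Fin q)).map J))) (by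
    rw [card_insert_of_notMem hni, card_insert_of_notMem hnj, card_map, card_univ,
      Fintype.card_fin]
    omega)
  rw [sum_insert hni, sum_insert hnj, sum_map] at h2
  have h3 : r - 1 = q := by omega
  rw [h3] at h2
  omega

/-- At most `r - 1` points of `J` are big. -/
private theorem FinalL_card {r k d' s Q : ℕ} (hr : 1 ≤ r) (m' : Fin k → ℕ) (J : Fin s ↪ Fin k)
    (hred : ∀ S : Finset (Fin k), S.card ≤ r + 1 → ∑ i ∈ S, m' i ≤ (r - 1) * d')
    (hd : r * Q < d') (T : Finset (Fin s)) (hT : ∀ l ∈ T, d' ≤ m' (J l) + Q) : T.card < r := by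
  classical
  by_contra hcon
  push Not at hcon
  obtain ⟨T', hT', hc⟩ := exists_subset_card_eq hcon
  have h2 := hred (T'.map J) (by
    rw [card_map]
    omega)
  rw [sum_map] at h2
  have h3 : T'.card * d' ≤ ∑ l ∈ T', (m' (J l) + Q) := by
    rw [← smul_eq_mul, ← sum_const]
    exact sum_le_sum fun l hl => hT l (hT' hl)
  rw [sum_add_distrib, sum_const, smul_eq_mul, hc] at h3
  obtain ⟨n, rfl⟩ : ∃ n, r = n + 1 := ⟨r - 1, by omega⟩
  rw [Nat.add_sub_cancel] at h2
  rw [Nat.add_mul n 1 d', one_mul] at h3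
  omega

/-- The multiset of the multiplicities has at most one big element. -/
private theorem FinalL_filter {k B x : ℕ} (m' : Fin k → ℕ) (P : Fin k → Prop) [DecidablePred P]
    (hB : 1 ≤ B) (h : ∀ i j, i ≠ j → P i → P j → m' i + m' j ≤ B) :
    (((univ.filter P).val.map m' + Multiset.replicate x 1).filter
      fun m => B + 1 < 2 * m).card ≤ 1 := by
  classical
  rw [Multiset.filter_add]
  have h1 : (Multiset.replicate x 1).filter (fun m => B + 1 < 2 * m) = 0 := by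
    rw [Multiset.filter_eq_nil]
    intro a ha
    rw [Multiset.eq_of_mem_replicate ha]
    omega
  rw [h1, add_zero, Multiset.filter_map, Multiset.card_map]
  change ((univ.filter P).filter ((fun m => B + 1 < 2 * m) ∘ m')).card ≤ 1
  rw [card_le_one]
  intro i hi j hj
  rw [mem_filter, mem_filter] at hi hj
  by_contra hij
  have h2 := h i j hij hi.1.2 hj.1.2
  have h3 : B + 1 < 2 * m' i := hi.2
  have h4 : B + 1 < 2 * m' j := hj.2
  omega

theorem final_L (r : ℕ) (hr : 3 ≤ r) : ∀ M : ℕ, ∃ D : ℕ,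
    ∀ (k d d' s : ℕ) (m m' : Fin k → ℕ) (J : Fin s ↪ Fin k),
    Cremona r d m d' m' → s ≤ r + 1 → (∀ i, (∀ l, J l ≠ i) → m' i ≤ M) → (∀ i, m' i ≤ d') →
    (∀ S : Finset (Fin k), S.card ≤ r + 1 → ∑ i ∈ S, m' i ≤ (r - 1) * d') → D ≤ d' →
    ForGeneralPoints r k fun p =>
      (Module.finrank ℂ (fatForms r d p m) : ℤ) =
        max 0 ((cnt r s (fun l => d' - m' (J l)) d' : ℤ) -
          ∑ i ∈ univ.filter (fun i => (∀ l, J l ≠ i) ∧ 1 ≤ m' i),
            (cnt r s (fun l => d' - m' (J l)) (m' i - 1) : ℤ)) ∧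
      (¬ ImposesMaximalConditions r d p m ↔
        0 < (cnt r s (fun l => d' - m' (J l)) d' : ℤ) -
          ∑ i ∈ univ.filter (fun i => (∀ l, J l ≠ i) ∧ 1 ≤ m' i),
            (cnt r s (fun l => d' - m' (J l)) (m' i - 1) : ℤ) ∧
        ((d + r).choose r : ℤ) - ∑ i, ((m i + r - 1).choose r : ℤ) <
          (cnt r s (fun l => d' - m' (J l)) d' : ℤ) -
            ∑ i ∈ univ.filter (fun i => (∀ l, J l ≠ i) ∧ 1 ≤ m' i),
              (cnt r s (fun l => d' - m' (J l)) (m' i - 1) : ℤ)) := by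
  classical
  obtain ⟨K, E, hK⟩ := Tk.final_K r (by omega)
  intro M
  have hM1 : 1 ≤ max M 1 := le_max_right _ _
  generalize hC : K * max M 1 ^ E = C
  obtain ⟨D, hD⟩ := hexL r (C + 1) hr
  refine ⟨D + r * (C + 1) + r + 1, fun k d d' s m m' J hcr hs hm hmd hred hDd => ?_⟩
  have hrC : C ≤ r * (C + 1) := by nlinarith
  by_cases hT : (univ.filter fun l => d' < m' (J l) + C).card + 2 ≤ r
  · have hsum : ∑ l, m' (J l) ≤ (r - 1) * d' := by
      have h1 := hred ((univ : Finset (Fin s)).map J) (by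
        rw [card_map, card_univ, Fintype.card_fin]
        exact hs)
      rwa [sum_map] at h1
    have h2 := hK (max M 1) hM1 k d d' s m m' J hcr hs
      (fun i hi => (hm i hi).trans (le_max_left _ _)) (fun l => hmd _)
    rw [hC] at h2
    refine h2 (by omega) ?_ hT
    obtain ⟨n, rfl⟩ : ∃ n, r = n + 1 := ⟨r - 1, by omega⟩
    rw [Nat.add_sub_cancel] at hsum
    rw [Nat.add_mul n 1 d', one_mul]
    omega
  · have hTc : (univ.filter fun l => d' < m' (J l) + C).card = r - 1 := by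
      have h1 := FinalL_card (Q := C + 1) (by omega) m' J hred (by omega)
        (univ.filter fun l => d' < m' (J l) + C) (fun l hl => by
          have h2 := (mem_filter.1 hl).2
          omega)
      omega
    generalize hTd : (univ.filter fun l => d' < m' (J l) + C) = T at hTc
    have he : ∀ l, d' < m' (J (T.orderEmbOfFin hTc l)) + C := by
      intro l
      have h1 := T.orderEmbOfFin_mem hTc l
      have h2 : ∀ x ∈ T, d' < m' (J x) + C := fun x hx => by
        rw [← hTd] at hx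
        exact (mem_filter.1 hx).2
      exact h2 _ h1
    obtain ⟨e, hee⟩ : ∃ e : Fin (r - 1) ↪ Fin s, ∀ l, d' < m' (J (e l)) + C :=
      ⟨(T.orderEmbOfFin hTc).toEmbedding, he⟩
    have hone : ∀ i, (∀ l, J (e l) ≠ i) → m' i ≤ ∑ l, (d' - m' (J (e l))) := fun i hi =>
      FinalL_one (r := r) (by omega) m' (e.trans J) hmd hred i hi
    have htwo : ∀ i j, i ≠ j → (∀ l, J (e l) ≠ i) → (∀ l, J (e l) ≠ j) →
        m' i + m' j ≤ ∑ l, (d' - m' (J (e l))) := fun i j hij hi hj =>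
      FinalL_two (r := r) (by omega) m' (e.trans J) hmd hred i j hij hi hj
    have hB : ∑ l, (d' - m' (J (e l))) ≤ r * (C + 1) := by
      calc ∑ l, (d' - m' (J (e l))) ≤ ∑ _l : Fin (r - 1), (C + 1) :=
            sum_le_sum fun l _ => by
              have := hee l
              omega
        _ = (r - 1) * (C + 1) := by
            rw [sum_const, card_univ, Fintype.card_fin, smul_eq_mul]
        _ ≤ r * (C + 1) := Nat.mul_le_mul_right _ (by omega)
    have hcnt := cntJ hs m' J e hmd fun i j hij hi hj =>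
      (htwo i j hij hi hj).trans (by omega)
    rw [hcnt]
    refine Ub.final_of_dim (by omega) hcr _ ?_
    refine finalL_dim (r := r) (s := r - 1) (M := ∑ l, (d' - m' (J (e l)))) (by omega) m'
      (e.trans J) (by omega) hone (fun l => hmd _) (by omega) fun x hx => ?_
    refine hD d' (fun l => d' - m' (J (e l))) _ (by omega) (fun l => ?_) (fun a ha => ?_)
      (fun hb => ?_) hx
    · have := hee l
      omega
    · rcases Multiset.mem_add.1 ha with ha | ha
      · obtain ⟨i, hi, rfl⟩ := Multiset.mem_map.1 ha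
        have hi' : i ∈ univ.filter fun i => ∀ l, (e.trans J) l ≠ i := hi
        have h1 := hone i (mem_filter.1 hi').2
        omega
      · rw [Multiset.eq_of_mem_replicate ha]
        omega
    · exact FinalL_filter m' (fun i => ∀ l, (e.trans J) l ≠ i) hb htwo

end Pool.Agent.H18.Tl

end
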