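import Pool.Agent.H94.LP3.H74.CT.Slow_1
import Pool.Agent.H94.LP3.M50
import Pool.Agent.H94.LP3.M77
import Pool.Agent.H94.LP3.M79

/-! The parts of this file: H18.Iso.CntQ, H18.Iso.Few, H74.CT.Slow_2, H74.CT.Fin_1. -/

section

/-!
# The virtual dimension does not depend on the choice of `J`, pair sums at most `d' + 1`

A copy of `Pool.Agent.H18.Tl.CntJ` with the hypothesis `m' i + m' j ≤ d' + 1` instead of `m' i + m' j ≤ d'`.
-/

namespace Pool.Agent.H18.Iso

open Finset Function Pool.Agent.H18.Tj Pool.Agent.H18.Tl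

/-- the position of a coordinate -/
private def CntQ_pos {r s : ℕ} (hs : s ≤ r + 1) (l : Fin s) : Fin (r + 1) :=
  ⟨l.val, lt_of_lt_of_le l.2 hs⟩

private theorem CntQ_pos_inj {r s : ℕ} (hs : s ≤ r + 1) {l l' : Fin s}
    (h : CntQ_pos hs l = CntQ_pos hs l') : l = l' := by
  have h1 := congrArg Fin.val h
  exact Fin.ext h1

private theorem CntQ_w {r s d : ℕ} (hs : s ≤ r + 1) (c : Fin s → ℕ) (l : Fin s) :
    bw r d s c (CntQ_pos hs l) = c l := by
  unfold bw CntQ_pos
  rw [dif_pos l.2]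

private theorem CntQ_wO {r s d q : ℕ} (hs : s ≤ r + 1) (c : Fin s → ℕ) (e : Fin q ↪ Fin s)
    (l : Fin s) (hl : ∀ l', e l' ≠ l) : bwe r d s q c e (CntQ_pos hs l) = d :=
  bwe_of_ne c e _ fun l' h => hl l' (Fin.ext h)

private theorem CntQ_w_eq {r s d q : ℕ} (hs : s ≤ r + 1) (c : Fin s → ℕ) (e : Fin q ↪ Fin s)
    (i : Fin (r + 1)) (hi : ∀ l, (∀ l', e l' ≠ l) → CntQ_pos hs l ≠ i) :
    bw r d s c i = bwe r d s q c e i := by
  by_cases h : i.val < s
  · have h1 : CntQ_pos hs ⟨i.val, h⟩ = i := Fin.ext rfl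
    have h2 : ∃ l', e l' = ⟨i.val, h⟩ := by
      by_contra hcon
      push Not at hcon
      exact hi _ hcon h1
    obtain ⟨l', hl'⟩ := h2
    rw [bwe_val c e l' i (by rw [hl']), hl']
    unfold bw
    rw [dif_pos h]
  · rw [bwe_of_ne c e i fun l hl => h (hl ▸ (e l).2)]
    unfold bw
    rw [dif_neg h]

private theorem CntQ_le {r s d q : ℕ} (hs : s ≤ r + 1) (c : Fin s → ℕ) (hc : ∀ l, c l ≤ d)
    (e : Fin q ↪ Fin s) (i : Fin (r + 1)) : bw r d s c i ≤ bwe r d s q c e i := by
  by_cases h : ∀ l, (∀ l', e l' ≠ l) → CntQ_pos hs l ≠ i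
  · exact (CntQ_w_eq hs c e i h).le
  · push Not at h
    obtain ⟨l, hl, rfl⟩ := h
    rw [CntQ_w, CntQ_wO hs c e l hl]
    exact hc l

/-- one overflowing coordinate -/
private theorem CntQ_slice {r : ℕ} {d m : ℕ} (w : Fin (r + 1) → ℕ) (i : Fin (r + 1))
    (hw : w i = d) (hm : m ≤ d) :
    ((Ex.Rg d w).filter fun α => d - m < α i).card =
      if 1 ≤ m then (Ex.Rg (m - 1) w).card else 0 := by
  split_ifs with h1
  · symm
    refine Finset.card_bij (fun α _ => Function.update α i (α i + (d - m + 1))) ?_ ?_ ?_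
    · intro α hα
      rw [Ex.mem_Rg] at hα
      rw [mem_filter, Ex.mem_Rg]
      have hsum : ∑ j, Function.update α i (α i + (d - m + 1)) j = d := by
        rw [Finset.sum_update_of_mem (mem_univ i)]
        have h2 := Finset.add_sum_erase univ α (mem_univ i)
        rw [← Finset.sdiff_singleton_eq_erase] at h2
        rw [hα.2] at h2
        omega
      refine ⟨⟨fun j => ?_, hsum⟩, ?_⟩
      · by_cases hj : j = i
        · subst hj
          rw [hw]
          have h3 : Function.update α j (α j + (d - m + 1)) j ≤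
              ∑ l, Function.update α j (α j + (d - m + 1)) l :=
            single_le_sum (fun _ _ => Nat.zero_le _) (mem_univ j)
          omega
        · rw [Function.update_of_ne hj]
          exact hα.1 j
      · rw [Function.update_self]
        omega
    · intro α _ β _ h
      funext j
      have hj := congrFun h j
      by_cases hji : j = i
      · subst hji
        rw [Function.update_self, Function.update_self] at hj
        omega
      · rwa [Function.update_of_ne hji, Function.update_of_ne hji] at hj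
    · intro β hβ
      rw [mem_filter, Ex.mem_Rg] at hβ
      refine ⟨Function.update β i (β i - (d - m + 1)), ?_, ?_⟩
      · rw [Ex.mem_Rg]
        refine ⟨fun j => ?_, ?_⟩
        · by_cases hj : j = i
          · subst hj
            rw [Function.update_self]
            have := hβ.1.1 j
            omega
          · rw [Function.update_of_ne hj]
            exact hβ.1.1 j
        · rw [Finset.sum_update_of_mem (mem_univ i)]
          have h2 := Finset.add_sum_erase univ β (mem_univ i)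
          rw [← Finset.sdiff_singleton_eq_erase] at h2
          rw [hβ.1.2] at h2
          have h3 := hβ.2
          omega
      · funext j
        by_cases hj : j = i
        · subst hj
          rw [Function.update_self, Function.update_self]
          have h3 := hβ.2
          omega
        · rw [Function.update_of_ne hj, Function.update_of_ne hj]
  · rw [Finset.card_eq_zero, Finset.filter_eq_empty_iff]
    intro α hα
    rw [Ex.mem_Rg] at hα
    have := hα.1 i
    omega

theorem cntQ {r k d' s q : ℕ} (hs : s ≤ r + 1) (m' : Fin k → ℕ) (J : Fin s ↪ Fin k)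
    (e : Fin q ↪ Fin s) (hm : ∀ i, m' i ≤ d')
    (h2 : ∀ i j, i ≠ j → (∀ l, J (e l) ≠ i) → (∀ l, J (e l) ≠ j) → m' i + m' j ≤ d' + 1) :
    (cnt r s (fun l => d' - m' (J l)) d' : ℤ) -
        ∑ i ∈ univ.filter (fun i => (∀ l, J l ≠ i) ∧ 1 ≤ m' i),
          (cnt r s (fun l => d' - m' (J l)) (m' i - 1) : ℤ) =
      (cnt r q (fun l => d' - m' (J (e l))) d' : ℤ) -
        ∑ i ∈ univ.filter (fun i => (∀ l, J (e l) ≠ i) ∧ 1 ≤ m' i),
          (cnt r q (fun l => d' - m' (J (e l))) (m' i - 1) : ℤ) := by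
  classical
  set c : Fin s → ℕ := fun l => d' - m' (J l) with hc
  have hcd : ∀ l, c l ≤ d' := fun l => Nat.sub_le _ _
  set w : Fin (r + 1) → ℕ := bw r d' s c with hw
  set w' : Fin (r + 1) → ℕ := bwe r d' s q c e with hw'
  have hA : ∀ n, n ≤ d' → cnt r s c n = (Ex.Rg n w).card := fun n hn =>
    count_eq r s d' n hs hn c
  have hB : ∀ n, n ≤ d' → cnt r q (fun l => d' - m' (J (e l))) n = (Ex.Rg n w').card :=
    fun n hn => cnt_bwe hs hn c e
  -- the coordinates which are left out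
  set O : Finset (Fin s) := univ.filter fun l => ∀ l', e l' ≠ l with hO
  have hOm : ∀ l ∈ O, ∀ l', J (e l') ≠ J l := fun l hl l' h =>
    (mem_filter.1 hl).2 l' (J.injective h)
  -- sums
  have hsum : ∀ F : Fin k → ℤ,
      ∑ i ∈ univ.filter (fun i => (∀ l, J (e l) ≠ i) ∧ 1 ≤ m' i), F i =
        ∑ i ∈ univ.filter (fun i => (∀ l, J l ≠ i) ∧ 1 ≤ m' i), F i +
          ∑ l ∈ O, if 1 ≤ m' (J l) then F (J l) else 0 := by
    intro F
    rw [← Finset.sum_filter, ← Finset.sum_map (O.filter fun l => 1 ≤ m' (J l)) J F,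
      ← Finset.sum_union]
    · refine Finset.sum_congr ?_ fun _ _ => rfl
      ext i
      simp only [mem_filter, mem_univ, true_and, mem_union, mem_map, hO]
      constructor
      · rintro ⟨h3, h4⟩
        by_cases h5 : ∀ l, J l ≠ i
        · exact Or.inl ⟨h5, h4⟩
        · push Not at h5
          obtain ⟨l, rfl⟩ := h5
          exact Or.inr ⟨l, ⟨fun l' h6 => h3 l' (by rw [h6]), h4⟩, rfl⟩
      · rintro (⟨h3, h4⟩ | ⟨l, ⟨h3, h4⟩, rfl⟩)
        · exact ⟨fun l => h3 (e l), h4⟩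
        · exact ⟨fun l' h => h3 l' (J.injective h), h4⟩
    · rw [Finset.disjoint_left]
      intro i hi hi'
      rw [mem_filter] at hi
      rw [mem_map] at hi'
      obtain ⟨l, -, rfl⟩ := hi'
      exact hi.2.1 l rfl
  -- the points outside `J`
  have hout : ∀ i ∈ univ.filter (fun i => (∀ l, J l ≠ i) ∧ 1 ≤ m' i),
      Ex.Rg (m' i - 1) w = Ex.Rg (m' i - 1) w' := by
    intro i hi
    rw [mem_filter] at hi
    ext α
    rw [Ex.mem_Rg, Ex.mem_Rg]
    refine and_congr_left fun hα => ⟨fun h j => (h j).trans (CntQ_le hs c hcd e j),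
      fun h j => ?_⟩
    by_cases hj : ∀ l, (∀ l', e l' ≠ l) → CntQ_pos hs l ≠ j
    · rw [hw, CntQ_w_eq hs c e j hj]
      exact h j
    · push Not at hj
      obtain ⟨l, hl, rfl⟩ := hj
      rw [hw, CntQ_w]
      have h3 : α (CntQ_pos hs l) ≤ ∑ l, α l :=
        single_le_sum (fun _ _ => Nat.zero_le _) (mem_univ _)
      have h4 := h2 i (J l) (fun h => hi.2.1 l h.symm) (fun l' => hi.2.1 (e l'))
        (fun l' h => hl l' (J.injective h))
      have h5 : c l = d' - m' (J l) := rfl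
      have h6 := hi.2.2
      omega
  -- the region of degree `d'`
  have htop : (Ex.Rg d' w').card = (Ex.Rg d' w).card +
      ∑ l ∈ O, if 1 ≤ m' (J l) then (Ex.Rg (m' (J l) - 1) w').card else 0 := by
    have h3 : Ex.Rg d' w' = Ex.Rg d' w ∪ O.biUnion fun l =>
        (Ex.Rg d' w').filter fun α => d' - m' (J l) < α (CntQ_pos hs l) := by
      ext α
      rw [mem_union, mem_biUnion]
      constructor
      · intro hα
        by_cases h4 : ∃ l ∈ O, d' - m' (J l) < α (CntQ_pos hs l)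
        · obtain ⟨l, hl, h5⟩ := h4
          exact Or.inr ⟨l, hl, mem_filter.2 ⟨hα, h5⟩⟩
        · push Not at h4
          left
          rw [Ex.mem_Rg] at hα ⊢
          refine ⟨fun j => ?_, hα.2⟩
          by_cases hj : ∀ l, (∀ l', e l' ≠ l) → CntQ_pos hs l ≠ j
          · rw [hw, CntQ_w_eq hs c e j hj]
            exact hα.1 j
          · push Not at hj
            obtain ⟨l, hl, rfl⟩ := hj
            rw [hw, CntQ_w]
            exact h4 l (mem_filter.2 ⟨mem_univ _, hl⟩)
      · rintro (hα | ⟨l, -, hα⟩)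
        · rw [Ex.mem_Rg] at hα ⊢
          exact ⟨fun j => (hα.1 j).trans (CntQ_le hs c hcd e j), hα.2⟩
        · exact (mem_filter.1 hα).1
    have h4 : Disjoint (Ex.Rg d' w) (O.biUnion fun l =>
        (Ex.Rg d' w').filter fun α => d' - m' (J l) < α (CntQ_pos hs l)) := by
      rw [Finset.disjoint_left]
      intro α hα hα'
      rw [mem_biUnion] at hα'
      obtain ⟨l, -, hl⟩ := hα'
      have h5 := (mem_filter.1 hl).2
      have h6 := (Ex.mem_Rg.1 hα).1 (CntQ_pos hs l)
      rw [hw, CntQ_w] at h6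
      have h7 : c l = d' - m' (J l) := rfl
      omega
    have h5 : ∀ l ∈ O, ∀ l' ∈ O, l ≠ l' →
        Disjoint ((Ex.Rg d' w').filter fun α => d' - m' (J l) < α (CntQ_pos hs l))
          ((Ex.Rg d' w').filter fun α => d' - m' (J l') < α (CntQ_pos hs l')) := by
      intro l hl l' hl' hne
      rw [Finset.disjoint_left]
      intro α hα hα'
      rw [mem_filter] at hα hα'
      have h6 := h2 (J l) (J l') (fun h => hne (J.injective h)) (hOm l hl) (hOm l' hl')
      have h7 : CntQ_pos hs l ≠ CntQ_pos hs l' := fun h => hne (CntQ_pos_inj hs h)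
      have h8 : α (CntQ_pos hs l) + α (CntQ_pos hs l') ≤ ∑ j, α j := by
        rw [← Finset.sum_pair h7]
        exact Finset.sum_le_sum_of_subset (subset_univ _)
      have h9 := (Ex.mem_Rg.1 hα.1).2
      have h10 := hα.2
      have h11 := hα'.2
      have h12 := hm (J l)
      have h13 := hm (J l')
      omega
    conv_lhs => rw [h3]
    rw [card_union_of_disjoint h4, card_biUnion h5]
    congr 1
    refine Finset.sum_congr rfl fun l hl => ?_
    exact CntQ_slice w' (CntQ_pos hs l) (CntQ_wO hs c e l (mem_filter.1 hl).2) (hm (J l))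
  rw [hA d' le_rfl, hB d' le_rfl, hsum, htop]
  have h6 : ∑ i ∈ univ.filter (fun i => (∀ l, J l ≠ i) ∧ 1 ≤ m' i),
      (cnt r s c (m' i - 1) : ℤ) =
      ∑ i ∈ univ.filter (fun i => (∀ l, J l ≠ i) ∧ 1 ≤ m' i),
        (cnt r q (fun l => d' - m' (J (e l))) (m' i - 1) : ℤ) := by
    refine Finset.sum_congr rfl fun i hi => ?_
    have h7 : m' i - 1 ≤ d' := (Nat.sub_le _ _).trans (hm i)
    rw [hA _ h7, hB _ h7, hout i hi]
  have h7 : (∑ l ∈ O, if 1 ≤ m' (J l) then
      (cnt r q (fun l => d' - m' (J (e l))) (m' (J l) - 1) : ℤ) else 0) =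
      ((∑ l ∈ O, if 1 ≤ m' (J l) then (Ex.Rg (m' (J l) - 1) w').card else 0 : ℕ) : ℤ) := by
    rw [Nat.cast_sum]
    refine Finset.sum_congr rfl fun l _ => ?_
    split_ifs
    · rw [hB _ ((Nat.sub_le _ _).trans (hm _))]
    · rfl
  rw [h6, h7]
  push_cast
  ring

end Pool.Agent.H18.Iso

end

section

/-!
# At most `n + 1` large multiplicities, pair sums at most `d + 1`
-/

namespace Pool.Agent.H18.Iso

open Finset Pool.Agent.H18.Fat Pool.Agent.H18.Pr Pool.Agent.H18.Tj

theorem cnt_free (r : ℕ) (b : Fin 0 → ℕ) (e : ℕ) : cnt r 0 b e = (e + r).choose r := by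
  rw [← card_mons r e]
  unfold cnt
  have h1 : (mons (r + 1) e).card = Nat.card (mons (r + 1) e) := by
    rw [Nat.card_eq_fintype_card, Fintype.card_coe]
  rw [h1]
  refine Nat.card_congr (Finsupp.equivFunOnFinite.symm.subtypeEquiv fun α => ?_)
  rw [mem_mons, Finsupp.degree_eq_sum]
  constructor
  · intro h
    simpa using h.1
  · intro h
    exact ⟨by simpa using h, fun l => l.elim0⟩

/-- The sum of at least two numbers with pair sums at most `c`. -/
theorem two_mul_sum_le {s c : ℕ} (a : Fin (s + 2) → ℕ) (h : ∀ i j, i ≠ j → a i + a j ≤ c) :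
    2 * ∑ i, a i ≤ (s + 2) * c := by
  have h1 : ∑ i, a (i + 1) = ∑ i, a i := by
    have := Equiv.sum_comp (finRotate (s + 2)) a
    simpa [finRotate_succ_apply] using this
  have h2 : ∑ i, (a i + a (i + 1)) ≤ ∑ _i : Fin (s + 2), c := by
    refine sum_le_sum fun i _ => h i (i + 1) ?_
    intro h3
    have h4 : (1 : Fin (s + 2)) = 0 := by
      have := congrArg (fun x => x - i) h3
      simpa using this.symm
    exact absurd h4 (by simp)
  rw [sum_add_distrib, h1, sum_const, card_univ, Fintype.card_fin, smul_eq_mul] at h2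
  omega

theorem few_emb (n : ℕ) (hn : 2 ≤ n) : ∃ K E : ℕ, ∀ M : ℕ, 1 ≤ M → ∀ (h d s : ℕ) (m : Fin h → ℕ)
    (J : Fin s ↪ Fin h), s ≤ n + 1 → (∀ i, (∀ l, J l ≠ i) → m i ≤ M) → K * M ^ E ≤ d →
    (n = 2 → ∀ l, m (J l) + K * M ^ E ≤ d) → (∀ i j, i ≠ j → m i + m j ≤ d + 1) →
    ForGeneralPoints n h fun p => ImposesMaximalConditions n d p m := by
  classical
  obtain ⟨K, E, hK⟩ := Pool.Agent.H18.Tk.final_K n hn
  refine ⟨2 * K + n + 1, E, fun M hM h d s m J hs hM' hd h2 hp => ?_⟩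
  have hpow : 1 ≤ M ^ E := Nat.one_le_pow _ _ hM
  have hd' : 2 * (K * M ^ E) + n + 1 ≤ d := by
    refine le_trans ?_ hd
    nlinarith
  by_cases hbig : ∃ i, d < m i
  · obtain ⟨i, hi⟩ := hbig
    refine (ForGeneralPoints.coord_ne_zero n h).mono fun p _ => ?_
    unfold ImposesMaximalConditions
    rw [Pool.Agent.H21.HD.MainX.big_mult p m i hi, Nat.cast_zero, max_eq_left]
    have h3 : (m i + n - 1).choose n ≤ ∑ i, (m i + n - 1).choose n :=
      single_le_sum (f := fun i => (m i + n - 1).choose n) (fun _ _ => Nat.zero_le _) (mem_univ i)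
    have h4 : (d + n).choose n ≤ (m i + n - 1).choose n := Nat.choose_le_choose _ (by omega)
    have h5 : (((d + n).choose n : ℕ) : ℤ) ≤ ((∑ i, (m i + n - 1).choose n : ℕ) : ℤ) := by
      exact_mod_cast h4.trans h3
    push_cast at h5 ⊢
    linarith
  · push Not at hbig
    have hsum : ∑ l, m (J l) + K * M ^ E ≤ n * d := by
      have hnd : 2 * d ≤ n * d := Nat.mul_le_mul_right _ hn
      match s, J, hs with
      | 0, J, _ =>
        rw [univ_eq_empty, sum_empty]
        omega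
      | 1, J, _ =>
        rw [Fin.sum_univ_one]
        have := hbig (J 0)
        omega
      | s + 2, J, hs =>
        have h3 := two_mul_sum_le (fun l => m (J l)) (c := d + 1) fun i j hij =>
          hp _ _ fun h => hij (J.injective h)
        have h4 : (s + 2) * (d + 1) ≤ (n + 1) * (d + 1) := Nat.mul_le_mul_right _ hs
        have h5 : 2 * ∑ l, m (J l) ≤ (n + 1) * (d + 1) := h3.trans h4
        obtain ⟨u, rfl⟩ : ∃ u, n = u + 2 := ⟨n - 2, by omega⟩
        have h6 : (u + 2 + 1) * (d + 1) + 2 * (K * M ^ E) ≤ 2 * ((u + 2) * d) := by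
          nlinarith
        omega
    have hcard : (univ.filter fun l => d < m (J l) + K * M ^ E).card + 2 ≤ n := by
      by_cases hn2 : n = 2
      · have h3 : (univ.filter fun l => d < m (J l) + K * M ^ E) = ∅ := by
          rw [filter_eq_empty_iff]
          intro l _ h4
          have h5 := h2 hn2 l
          have h6 : K * M ^ E ≤ (2 * K + n + 1) * M ^ E := Nat.mul_le_mul_right _ (by omega)
          omega
        rw [h3, card_empty, hn2]
      · have h3 : (univ.filter fun l => d < m (J l) + K * M ^ E).card ≤ 1 := by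
          rw [card_le_one]
          intro a ha b hb
          rw [mem_filter] at ha hb
          by_contra hab
          have h4 := hp _ _ fun h => hab (J.injective h)
          have := ha.2
          have := hb.2
          omega
        omega
    have hmain := hK M hM h d d s m m J (Cremona.refl d m) hs hM' (fun l => hbig _)
      (by omega) hsum hcard
    have hcnt := cntQ (r := n) (d' := d) hs m J (e := Function.Embedding.ofIsEmpty (α := Fin 0)) hbig
      fun i j hij _ _ => hp i j hij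
    refine hmain.mono fun p hp' => ?_
    by_contra hcon
    have h3 := (hp'.2.1 hcon).2
    rw [hcnt, cnt_free] at h3
    have h4 : ∑ i ∈ univ.filter (fun i => (∀ l : Fin 0,
        J ((Function.Embedding.ofIsEmpty (α := Fin 0)) l) ≠ i) ∧ 1 ≤ m i),
        (cnt n 0 (fun l => d - m (J ((Function.Embedding.ofIsEmpty (α := Fin 0)) l)))
          (m i - 1) : ℤ) = ∑ i, ((m i + n - 1).choose n : ℤ) := by
      rw [sum_filter]
      refine sum_congr rfl fun i _ => ?_
      by_cases hi : 1 ≤ m i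
      · rw [if_pos ⟨fun l => l.elim0, hi⟩, cnt_free]
        congr 2
        omega
      · rw [if_neg fun h => hi h.2]
        have : m i = 0 := by omega
        rw [this, Nat.choose_eq_zero_of_lt (by omega), Nat.cast_zero]
    rw [h4] at h3
    exact lt_irrefl _ h3

theorem few (n : ℕ) (hn : 2 ≤ n) : ∃ K E : ℕ, ∀ M : ℕ, 1 ≤ M → ∀ (h d : ℕ) (m : Fin h → ℕ)
    (J : Finset (Fin h)), J.card ≤ n + 1 → (∀ i, i ∉ J → m i ≤ M) → K * M ^ E ≤ d →
    (n = 2 → ∀ i ∈ J, m i + K * M ^ E ≤ d) → (∀ i j, i ≠ j → m i + m j ≤ d + 1) →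
    ForGeneralPoints n h fun p => ImposesMaximalConditions n d p m := by
  obtain ⟨K, E, hK⟩ := few_emb n hn
  refine ⟨K, E, fun M hM h d m J hJ hM' hd h2 hp => ?_⟩
  refine hK M hM h d J.card m (J.orderEmbOfFin rfl).toEmbedding hJ (fun i hi => hM' i fun hiJ => ?_)
    hd (fun hn2 l => h2 hn2 _ (J.orderEmbOfFin_mem rfl l)) hp
  have h3 : i ∈ Set.range (J.orderEmbOfFin rfl) := by
    rw [Finset.range_orderEmbOfFin]
    exact hiJ
  obtain ⟨l, hl⟩ := h3
  exact hi l hl

end Pool.Agent.H18.Iso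

end

section

/-!
# Any number of large multiplicities with sum at most `r d - D` and pair sums at most `d + 1`
-/

namespace Pool.Agent.H74.CT

open Pool.Agent.H18.Fat Pool.Agent.H18.Ub Finset

theorem DD_consts (s M : ℕ) (hM : 1 ≤ M) :
    4 * (s + 2) ^ 2 * (66 * M ^ 3 * (M + (s + 2) - 1).choose (s + 2) + 1) ≤ DD (s + 2) M ∧
    10 * (16 * M ^ 2 * (M + (s + 2) - 1).choose (s + 2)) * (s + 2) ^ 3 *
      (66 * M ^ 3 * (M + (s + 2) - 1).choose (s + 2) + 1) ^ 2 ≤ DD (s + 2) M ∧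
    1 ≤ (M + (s + 2) - 1).choose (s + 2) := by
  have hB : 1 ≤ (M + (s + 2) - 1).choose (s + 2) := Nat.choose_pos (by omega)
  unfold DD
  generalize (M + (s + 2) - 1).choose (s + 2) = B at hB ⊢
  have hC : 66 * M ^ 3 * B + 1 ≤ 67 * M ^ 3 * B := by
    have : 1 ≤ M ^ 3 * B := Nat.one_le_iff_ne_zero.2 (by positivity)
    nlinarith only [this]
  refine ⟨?_, ?_, hB⟩
  · calc 4 * (s + 2) ^ 2 * (66 * M ^ 3 * B + 1) ≤ 4 * (s + 2) ^ 2 * (67 * M ^ 3 * B) :=
          Nat.mul_le_mul_left _ hC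
      _ = (268 * (s + 2) ^ 2 * M ^ 3 * B) * 1 := by ring
      _ ≤ (268 * (s + 2) ^ 2 * M ^ 3 * B) * ((s + 2) * M ^ 5 * B ^ 2) :=
          Nat.mul_le_mul_left _ (Nat.one_le_iff_ne_zero.2 (by positivity))
      _ = 268 * ((s + 2) ^ 3 * M ^ 8 * B ^ 3) := by ring
      _ ≤ 10 ^ 6 * ((s + 2) ^ 3 * M ^ 8 * B ^ 3) := Nat.mul_le_mul_right _ (by norm_num)
      _ = _ := by ring
  · calc 10 * (16 * M ^ 2 * B) * (s + 2) ^ 3 * (66 * M ^ 3 * B + 1) ^ 2 ≤
        10 * (16 * M ^ 2 * B) * (s + 2) ^ 3 * (67 * M ^ 3 * B) ^ 2 :=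
          Nat.mul_le_mul_left _ (Nat.pow_le_pow_left hC 2)
      _ = 718240 * ((s + 2) ^ 3 * M ^ 8 * B ^ 3) := by ring
      _ ≤ 10 ^ 6 * ((s + 2) ^ 3 * M ^ 8 * B ^ 3) := Nat.mul_le_mul_right _ (by norm_num)
      _ = _ := by ring

theorem num_ineq (s E C : ℕ) (hE : 16 ≤ E) :
    E * C * (s + 2) + 8 * E * (s + 2) ^ 3 * (C + 1) ^ 2 + 8 * (s + 2) ^ 3 ≤
      10 * E * (s + 2) ^ 3 * (C + 1) ^ 2 := by
  have h6 : E * C * (s + 2) ≤ E * (s + 2) ^ 3 * (C + 1) ^ 2 := by
    calc E * C * (s + 2) = E * (s + 2) * C := by ring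
      _ ≤ E * (s + 2) * ((s + 2) ^ 2 * (C + 1) ^ 2) := by
        refine Nat.mul_le_mul_left _ ?_
        have h7 : C ≤ (C + 1) ^ 2 := by nlinarith only
        calc C ≤ 1 * (C + 1) ^ 2 := by rw [one_mul]; exact h7
          _ ≤ _ := Nat.mul_le_mul_right _ (Nat.one_le_iff_ne_zero.2 (by positivity))
      _ = _ := by ring
  have h8 : 8 * (s + 2) ^ 3 ≤ E * (s + 2) ^ 3 * (C + 1) ^ 2 := by
    calc 8 * (s + 2) ^ 3 ≤ E * (s + 2) ^ 3 := Nat.mul_le_mul_right _ (by omega)
      _ = E * (s + 2) ^ 3 * 1 := by ring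
      _ ≤ _ := Nat.mul_le_mul_left _ (Nat.one_le_iff_ne_zero.2 (by positivity))
  have h9 : 8 * E * (s + 2) ^ 3 * (C + 1) ^ 2 = 8 * (E * (s + 2) ^ 3 * (C + 1) ^ 2) := by ring
  have h10 : 10 * E * (s + 2) ^ 3 * (C + 1) ^ 2 = 10 * (E * (s + 2) ^ 3 * (C + 1) ^ 2) := by ring
  rw [h9, h10]
  omega

/-- Main theorem of the module. -/
theorem slow_main (r M : ℕ) (hr : 2 ≤ r) (hM : 1 ≤ M) (k d : ℕ) (m : Fin k → ℕ)
    (J : Finset (Fin k)) (hJ : ∀ i, i ∉ J → m i ≤ M) (hDd : DD r M ≤ d)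
    (h1 : ∀ i ∈ J, m i + DD r M ≤ d) (h2 : ∑ i ∈ J, m i + DD r M ≤ r * d)
    (h3 : ∀ a ∈ J, ∀ b ∈ J, a ≠ b → m a + m b ≤ d + 1) :
    ForGeneralPoints r k fun p => ImposesMaximalConditions r d p m := by
  classical
  obtain ⟨s, rfl⟩ : ∃ s, r = s + 2 := ⟨r - 2, by omega⟩
  obtain ⟨hc1, hc2, hB⟩ := DD_consts s M hM
  set D := DD (s + 2) M with hD
  set B := (M + (s + 2) - 1).choose (s + 2) with hBdef
  set C := 66 * M ^ 3 * B with hC
  set E := 16 * M ^ 2 * B with hE
  have hC1 : 1 ≤ C := Nat.one_le_iff_ne_zero.2 (by positivity)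
  have hE1 : 1 ≤ E := Nat.one_le_iff_ne_zero.2 (by positivity)
  have hD0 : 1 ≤ D := by
    refine le_trans ?_ hc1
    exact Nat.one_le_iff_ne_zero.2 (by positivity)
  have hs4 : 4 ≤ (s + 2) ^ 2 := by nlinarith
  have hCD : C + 1 ≤ D := by nlinarith only [hc1, hs4, hC1]
  have hmono : ∀ δ ≤ C + 1, 4 * (s + 2) ^ 2 * δ ≤ D := fun δ hδ =>
    (Nat.mul_le_mul_left _ hδ).trans hc1
  set h : ℕ → ℕ := fun j => generalDim (s + 2) j fun i => if i ∈ J then m i else 0 with hh
  set S := ∑ i ∈ J, (m i + (s + 2) - 1).choose (s + 2) with hS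
  set N1 := (d + (s + 1)).choose (s + 1) with hN1
  set N0 := (d + s).choose s with hN0
  -- upper bounds
  obtain ⟨e0, he0, hu0⟩ := near (hmono 0 (by omega)) hD0 hDd h1 h2 h3
  obtain ⟨e1, he1, hu1⟩ := near (hmono 1 (by omega)) hD0 hDd h1 h2 h3
  obtain ⟨e2, he2, hu2⟩ := near (hmono (C + 1) le_rfl) hD0 hDd h1 h2 h3
  have he0' : e0 = 0 := by
    have : D * e0 ≤ 0 := by
      refine he0.trans (le_of_eq ?_)
      ring
    have h4 : D * e0 = 0 := by omega
    rcases Nat.mul_eq_zero.1 h4 with h5 | h5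
    · omega
    · exact h5
  subst he0'
  change h (d - 0) + S ≤ _ at hu0
  change h (d - 1) + S ≤ _ at hu1
  change h (d - (C + 1)) + S ≤ _ at hu2
  have hl : ∀ j, (j + (s + 2)).choose (s + 2) ≤ h j + S := fun j => dim_ge s j k m J
  have hl0 := hl d
  have hl1 := hl (d - 1)
  have hl2 := hl (d - C)
  rw [Nat.sub_zero, Nat.add_zero] at hu0
  have hhd : h d + S = (d + (s + 2)).choose (s + 2) := le_antisymm hu0 hl0
  -- Pascal
  have hP1 : (d + (s + 2)).choose (s + 2) = N1 + (d - 1 + (s + 2)).choose (s + 2) := by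
    have h4 : d + (s + 2) = (d + (s + 1)) + 1 := by omega
    have h5 : d - 1 + (s + 2) = d + (s + 1) := by omega
    rw [h4, Nat.choose_succ_succ', h5]
  have hP2 : (d - C + (s + 2)).choose (s + 2) = (d - C + (s + 1)).choose (s + 1) +
      (d - (C + 1) + (s + 2)).choose (s + 2) := by
    have h4 : d - C + (s + 2) = (d - C + (s + 1)) + 1 := by omega
    have h5 : d - (C + 1) + (s + 2) = d - C + (s + 1) := by omega
    rw [h4, Nat.choose_succ_succ', h5]
  have hdrop : N1 ≤ (d - C + (s + 1)).choose (s + 1) + C * N0 := choose_drop s d C (by omega)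
  have hN : (d + (s + 1)) * N0 = N1 * (s + 1) := Nat.add_one_mul_choose_eq (d + s) s
  have h16 : 16 ≤ E := by
    have h4 : 1 ≤ M ^ 2 * B := Nat.one_le_iff_ne_zero.2 (by positivity)
    rw [hE, Nat.mul_assoc]
    omega
  -- the numerical condition
  have hkey : E * (C * N0 + e2) + e1 ≤ N1 := by
    have h4 : D * N0 ≤ N1 * (s + 2) := by
      calc D * N0 ≤ (d + (s + 1)) * N0 := Nat.mul_le_mul_right _ (by omega)
        _ = N1 * (s + 1) := hN
        _ ≤ N1 * (s + 2) := Nat.mul_le_mul_left _ (by omega)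
    have h5 : D * (E * (C * N0 + e2) + e1) ≤ D * N1 := by
      calc D * (E * (C * N0 + e2) + e1) = E * C * (D * N0) + E * (D * e2) + D * e1 := by ring
        _ ≤ E * C * (N1 * (s + 2)) + E * (8 * (s + 2) ^ 3 * (C + 1) ^ 2 * N1) +
            8 * (s + 2) ^ 3 * 1 ^ 2 * N1 :=
          Nat.add_le_add (Nat.add_le_add (Nat.mul_le_mul_left _ h4) (Nat.mul_le_mul_left _ he2)) he1
        _ = (E * C * (s + 2) + 8 * E * (s + 2) ^ 3 * (C + 1) ^ 2 + 8 * (s + 2) ^ 3) * N1 := by ring
        _ ≤ (10 * E * (s + 2) ^ 3 * (C + 1) ^ 2) * N1 := by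
          exact Nat.mul_le_mul_right _ (num_ineq s E C h16)
        _ ≤ D * N1 := Nat.mul_le_mul_right _ hc2
    exact Nat.le_of_mul_le_mul_left h5 hD0
  have hslow : E * ((h d - h (d - 1)) - (h (d - C) - h (d - C - 1))) ≤ h d - h (d - 1) := by
    have h4 : d - C - 1 = d - (C + 1) := by omega
    rw [h4]
    have h5 : (h d - h (d - 1)) - (h (d - C) - h (d - (C + 1))) ≤ C * N0 + e2 := by omega
    have h6 : N1 ≤ (h d - h (d - 1)) + e1 := by omega
    have h7 := Nat.mul_le_mul_left E h5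
    omega
  have hfin := dim_of_slow (s + 2) (by omega) M hM k d m J hJ h (fun _ => rfl) hslow
  refine hfin.mono fun p hp => ?_
  unfold ImposesMaximalConditions
  rw [hp]
  congr 1
  have h4 : ∑ i, ((m i + (s + 2) - 1).choose (s + 2) : ℤ) = (S : ℤ) +
      ∑ i ∈ univ.filter (fun i => i ∉ J), ((m i + (s + 2) - 1).choose (s + 2) : ℤ) := by
    rw [← sum_filter_add_sum_filter_not univ (fun i => i ∈ J), hS]
    congr 1
    have h5 : univ.filter (fun i => i ∈ J) = J := by
      ext i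
      simp
    rw [h5]
    push_cast
    rfl
  rw [h4]
  have h5 : ((h d : ℕ) : ℤ) + (S : ℤ) = ((d + (s + 2)).choose (s + 2) : ℤ) := by
    exact_mod_cast hhd
  linarith only [hl0, hu0]

end Pool.Agent.H74.CT

end

section

/-!
# Pair sums at most `d + 1`: many large multiplicities
-/

namespace Pool.Agent.H74.CT

open Pool.Agent.H18.Fat Finset

theorem DD_le (n M : ℕ) (hM : 1 ≤ M) : DD n M ≤ 10 ^ 6 * n ^ 3 * M ^ (3 * n + 8) := by
  unfold DD
  calc 10 ^ 6 * n ^ 3 * M ^ 8 * (M + n - 1).choose n ^ 3 ≤ 10 ^ 6 * n ^ 3 * M ^ 8 * (M ^ n) ^ 3 :=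
        Nat.mul_le_mul_left _ (Nat.pow_le_pow_left (choose_le_pow M hM n) 3)
    _ = _ := by ring

theorem DD_pos (n M : ℕ) (hn : 1 ≤ n) (hM : 1 ≤ M) : 1 ≤ DD n M := by
  unfold DD
  have hB : 1 ≤ (M + n - 1).choose n := Nat.choose_pos (by omega)
  exact Nat.one_le_iff_ne_zero.2 (by positivity)

theorem sum_le_of_pairs {h c : ℕ} (m : Fin h → ℕ) (J : Finset (Fin h)) (hJ : 2 ≤ J.card)
    (hp : ∀ i j, i ≠ j → m i + m j ≤ c) : 2 * ∑ i ∈ J, m i ≤ J.card * c := by
  obtain ⟨s, hs⟩ : ∃ s, J.card = s + 2 := ⟨J.card - 2, by omega⟩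
  have h1 := Pool.Agent.H18.Iso.two_mul_sum_le (fun l => m (J.orderEmbOfFin hs l)) (c := c)
    fun i j hij => hp _ _ fun h => hij ((J.orderEmbOfFin hs).injective h)
  have h2 : ∑ l, m (J.orderEmbOfFin hs l) = ∑ i ∈ J, m i := by
    have h3 : J = univ.map (J.orderEmbOfFin hs).toEmbedding := by
      ext i
      rw [mem_map]
      constructor
      · intro hi
        have h4 : i ∈ Set.range (J.orderEmbOfFin hs) := by
          rw [range_orderEmbOfFin]
          exact hi
        obtain ⟨l, hl⟩ := h4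
        exact ⟨l, mem_univ l, hl⟩
      · rintro ⟨l, -, rfl⟩
        exact J.orderEmbOfFin_mem hs l
    conv_rhs => rw [h3, sum_map]
    rfl
  rw [h2] at h1
  rw [hs]
  exact h1

/-- All the large multiplicities at most `d - D`. -/
theorem margin_pairs (n M : ℕ) (hn : 2 ≤ n) (hM : 1 ≤ M) (h d : ℕ) (m : Fin h → ℕ)
    (J : Finset (Fin h)) (hJ : ∀ i, i ∉ J → m i ≤ M) (hd : 3 * DD n M ≤ d)
    (hall : ∀ i ∈ J, m i + DD n M ≤ d)
    (hsum : J.card + 1 ≤ 2 * n ∨ ∑ i ∈ J, m i + DD n M ≤ n * d)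
    (hp : ∀ i j, i ≠ j → m i + m j ≤ d + 1) :
    ForGeneralPoints n h fun p => ImposesMaximalConditions n d p m := by
  classical
  have hDpos := DD_pos n M (by omega) hM
  have hDn : 2 * n ≤ DD n M := by
    unfold DD
    have hB : 1 ≤ (M + n - 1).choose n := Nat.choose_pos (by omega)
    have h1 : 1 ≤ n ^ 2 * M ^ 8 * (M + n - 1).choose n ^ 3 :=
      Nat.one_le_iff_ne_zero.2 (by positivity)
    calc 2 * n = (2 * n) * 1 := by ring
      _ ≤ (10 ^ 6 * n) * (n ^ 2 * M ^ 8 * (M + n - 1).choose n ^ 3) :=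
          Nat.mul_le_mul (Nat.mul_le_mul_right _ (by norm_num)) h1
      _ = _ := by ring
  set D := DD n M with hD
  refine slow_main n M hn hM h d m J hJ (by omega) hall ?_ fun a _ b _ hab => hp a b hab
  rcases hsum with hcard | hsum
  · have hnd : 2 * d ≤ n * d := Nat.mul_le_mul_right _ hn
    rcases Nat.lt_or_ge J.card 2 with hlt | hge
    · have h3 : ∑ i ∈ J, m i ≤ d := by
        rcases Nat.lt_or_ge J.card 1 with h0 | h1
        · have : J = ∅ := by
            rw [← card_eq_zero]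
            omega
          rw [this, sum_empty]
          exact Nat.zero_le _
        · obtain ⟨a, ha⟩ := card_eq_one.1 (show J.card = 1 by omega)
          rw [ha, sum_singleton]
          have := hall a (by rw [ha]; exact mem_singleton_self a)
          omega
      omega
    · have h3 := sum_le_of_pairs m J hge hp
      have h4 : J.card * (d + 1) ≤ (2 * n - 1) * (d + 1) := Nat.mul_le_mul_right _ (by omega)
      have h5 : (2 * n - 1) * (d + 1) + (d + 1) = 2 * (n * d) + 2 * n := by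
        have h6 : 2 * n - 1 + 1 = 2 * n := by omega
        calc (2 * n - 1) * (d + 1) + (d + 1) = (2 * n - 1 + 1) * (d + 1) := by ring
          _ = _ := by rw [h6]; ring
      omega
  · exact hsum

/-- All cases. -/
theorem all_pairs (n : ℕ) (hn : 2 ≤ n) : ∃ K E : ℕ, ∀ M : ℕ, 1 ≤ M → ∀ (h d : ℕ)
    (m : Fin h → ℕ) (J : Finset (Fin h)), 3 * DD n M ≤ d → (∀ i, i ∉ J → m i ≤ M) →
    ((∀ i ∈ J, m i + DD n M ≤ d) ∨ (3 ≤ n ∧ K * M ^ E ≤ d)) →
    (J.card + 1 ≤ 2 * n ∨ ∑ i ∈ J, m i + DD n M ≤ n * d) →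
    (∀ i j, i ≠ j → m i + m j ≤ d + 1) →
    ForGeneralPoints n h fun p => ImposesMaximalConditions n d p m := by
  classical
  obtain ⟨K₁, E₁, hfew⟩ := Pool.Agent.H18.Iso.few n hn
  set K₀ := 10 ^ 6 * n ^ 3 with hK₀
  refine ⟨K₁ * K₀ ^ E₁, (3 * n + 8) * E₁, fun M hM h d m J hd3 hJ hor hsum hp => ?_⟩
  have hDle := DD_le n M hM
  have hDpos := DD_pos n M (by omega) hM
  set D := DD n M with hD
  by_cases hall : ∀ i ∈ J, m i + D ≤ d
  · exact margin_pairs n M hn hM h d m J hJ hd3 hall hsum hp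
  · -- one multiplicity close to `d`
    obtain ⟨hn3, hd⟩ := hor.resolve_left hall
    have hd1 : K₁ * D ^ E₁ ≤ d := by
      refine le_trans ?_ hd
      calc K₁ * D ^ E₁ ≤ K₁ * (K₀ * M ^ (3 * n + 8)) ^ E₁ :=
            Nat.mul_le_mul_left _ (Nat.pow_le_pow_left hDle _)
        _ = K₁ * K₀ ^ E₁ * M ^ ((3 * n + 8) * E₁) := by rw [mul_pow, ← pow_mul]; ring
    push Not at hall
    obtain ⟨i₀, hi₀, h3⟩ := hall
    refine hfew D hDpos h d m {i₀} ?_ (fun i hi => ?_) hd1 (fun h4 => absurd h4 (by omega)) hp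
    · rw [card_singleton]
      omega
    · have h4 := hp i i₀ fun h5 => hi (mem_singleton.2 h5)
      omega

end Pool.Agent.H74.CT

end
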